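import Mathlib

/-!
Renewal type sums over increasing chains: `ren a x y` is the sum over all chains
`x = t₀ < t₁ < ⋯ < t_k = y` (all `k ≥ 0`) of the products of the weights `a t_i t_{i+1}`.
-/

namespace Pool.Agent.Cop

open Finset

variable {R S : Type*} [CommSemiring R] [CommSemiring S]

/-- sum over all increasing chains from `x` to `y` of the products of the weights. -/
def ren (a : ℕ → ℕ → R) (x : ℕ) (y : ℕ) : R :=
  if x < y then ∑ z : Fin y, ren a x z * a z y else if x = y then 1 else 0
termination_by y
decreasing_by exact z.2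

lemma ren_self (a : ℕ → ℕ → R) (x : ℕ) : ren a x x = 1 := by
  rw [ren]; simp

lemma ren_of_gt (a : ℕ → ℕ → R) {x y : ℕ} (h : y < x) : ren a x y = 0 := by
  rw [ren]
  rw [if_neg (by omega), if_neg (by omega)]

lemma ren_right (a : ℕ → ℕ → R) {x y : ℕ} (h : x < y) :
    ren a x y = ∑ z ∈ Ico x y, ren a x z * a z y := by
  rw [ren, if_pos h]
  rw [Fin.sum_univ_eq_sum_range (fun z => ren a x z * a z y) y]
  rw [← Finset.sum_subset (s₁ := Ico x y) (s₂ := range y)]
  · intro z hz; simp only [mem_Ico, mem_range] at *; omega
  · intro z hz hz'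
    simp only [mem_Ico, mem_range, not_and, not_lt] at *
    rw [ren_of_gt a (by omega), zero_mul]

lemma ren_left (a : ℕ → ℕ → R) {x y : ℕ} (h : x < y) :
    ren a x y = ∑ z ∈ Ioc x y, a x z * ren a z y := by
  induction y using Nat.strong_induction_on with
  | _ y ih =>
    -- split off `z = y` on the right and `z = x` on the left
    have h1 : ∑ z ∈ Ioc x y, a x z * ren a z y
        = a x y + ∑ z ∈ Ioo x y, a x z * ren a z y := by
      have : Ioc x y = insert y (Ioo x y) := by
        ext z; simp only [mem_Ioc, mem_insert, mem_Ioo]; omega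
      rw [this, sum_insert (by simp), ren_self, mul_one]
    have h2 : ren a x y = a x y + ∑ w ∈ Ioo x y, ren a x w * a w y := by
      rw [ren_right a h]
      have : Ico x y = insert x (Ioo x y) := by
        ext z; simp only [mem_Ico, mem_insert, mem_Ioo]; omega
      rw [this, sum_insert (by simp), ren_self, one_mul]
    rw [h1, h2]
    congr 1
    calc ∑ w ∈ Ioo x y, ren a x w * a w y
        = ∑ w ∈ Ioo x y, ∑ z ∈ Ioc x w, a x z * ren a z w * a w y := by
          refine sum_congr rfl fun w hw => ?_
          rw [mem_Ioo] at hw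
          rw [ih w hw.2 hw.1, sum_mul]
      _ = ∑ z ∈ Ioo x y, ∑ w ∈ Ico z y, a x z * ren a z w * a w y := by
          refine Finset.sum_comm' ?_
          intro w z
          simp only [mem_Ioo, mem_Ioc, mem_Ico]
          omega
      _ = ∑ z ∈ Ioo x y, a x z * ren a z y := by
          refine sum_congr rfl fun z hz => ?_
          rw [mem_Ioo] at hz
          rw [ren_right a hz.2, mul_sum]
          exact sum_congr rfl fun w _ => by rw [mul_assoc]

lemma map_ren (f : R →+* S) (a : ℕ → ℕ → R) (x y : ℕ) :
    f (ren a x y) = ren (fun u v => f (a u v)) x y := by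
  induction y using Nat.strong_induction_on with
  | _ y ih =>
    rcases lt_trichotomy x y with h | h | h
    · rw [ren_right _ h, ren_right _ h, map_sum]
      refine sum_congr rfl fun z hz => ?_
      rw [mem_Ico] at hz
      rw [map_mul, ih z hz.2]
    · subst h; simp [ren_self]
    · rw [ren_of_gt _ h, ren_of_gt _ h, map_zero]

/-- resolvent identity -/
lemma ren_add (a d : ℕ → ℕ → R) {x y : ℕ} (hxy : x ≤ y) :
    ren (fun u v => a u v + d u v) x y
      = ren a x y + ∑ s ∈ Icc x y, ∑ t ∈ Ioc s y,
          ren a x s * d s t * ren (fun u v => a u v + d u v) t y := by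
  set T : ℕ → ℕ → R := fun u v => ren (fun u v => a u v + d u v) u v with hT
  -- strong induction on y - x
  induction hn : y - x using Nat.strong_induction_on generalizing x with
  | _ n ih =>
    rcases hxy.eq_or_lt with h | h
    · subst h
      simp [ren_self]
    · have e1 : T x y = ∑ z ∈ Ioc x y, a x z * T z y + ∑ z ∈ Ioc x y, d x z * T z y := by
        rw [hT]; simp only
        rw [ren_left _ h, ← sum_add_distrib]
        exact sum_congr rfl fun z _ => by ring
      have e2 : ∀ z ∈ Ioc x y, T z y = ren a z y + ∑ s ∈ Icc z y, ∑ t ∈ Ioc s y,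
          ren a z s * d s t * T t y := by
        intro z hz
        rw [mem_Ioc] at hz
        exact ih (y - z) (by omega) hz.2 rfl
      have e3 : ∑ z ∈ Ioc x y, a x z * T z y = ren a x y
          + ∑ s ∈ Ioc x y, ∑ t ∈ Ioc s y, ren a x s * d s t * T t y := by
        calc ∑ z ∈ Ioc x y, a x z * T z y
            = ∑ z ∈ Ioc x y, (a x z * ren a z y
                + ∑ s ∈ Icc z y, ∑ t ∈ Ioc s y, a x z * (ren a z s * d s t * T t y)) := by
              refine sum_congr rfl fun z hz => ?_
              rw [e2 z hz, mul_add, mul_sum]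
              congr 1
              exact sum_congr rfl fun s _ => by rw [mul_sum]
          _ = ren a x y + ∑ z ∈ Ioc x y, ∑ s ∈ Icc z y, ∑ t ∈ Ioc s y,
                a x z * (ren a z s * d s t * T t y) := by
              rw [sum_add_distrib, ← ren_left a h]
          _ = ren a x y + ∑ s ∈ Ioc x y, ∑ z ∈ Ioc x s, ∑ t ∈ Ioc s y,
                a x z * (ren a z s * d s t * T t y) := by
              congr 1
              refine Finset.sum_comm' ?_
              intro z s
              simp only [mem_Ioc, mem_Icc]
              omega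
          _ = _ := by
              congr 1
              refine sum_congr rfl fun s hs => ?_
              rw [mem_Ioc] at hs
              rw [sum_comm]
              refine sum_congr rfl fun t _ => ?_
              rw [ren_left a hs.1, sum_mul, sum_mul]
              exact sum_congr rfl fun z _ => by ring
      have e4 : ∑ s ∈ Icc x y, ∑ t ∈ Ioc s y, ren a x s * d s t * T t y
          = ∑ t ∈ Ioc x y, d x t * T t y
            + ∑ s ∈ Ioc x y, ∑ t ∈ Ioc s y, ren a x s * d s t * T t y := by
        have : Icc x y = insert x (Ioc x y) := by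
          ext z; simp only [mem_Icc, mem_insert, mem_Ioc]; omega
        rw [this, sum_insert (by simp), ren_self]
        congr 1
        exact sum_congr rfl fun t _ => by rw [one_mul]
      change T x y = _
      rw [e1, e3]
      change _ = ren a x y + ∑ s ∈ Icc x y, ∑ t ∈ Ioc s y, ren a x s * d s t * T t y
      rw [e4]
      ring

/-- one step of the expansion in the number of `d` steps. -/
def gd (G d : ℕ → ℕ → R) (N : ℕ) (f : ℕ → R) (x : ℕ) : R :=
  ∑ s ∈ Icc x N, ∑ t ∈ Ioc s N, G x s * d s t * f t

/-- the contribution of the chains from `x` to `N` with exactly `k` steps of type `d`. -/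
def zk (G d : ℕ → ℕ → R) (N : ℕ) : ℕ → ℕ → R
  | 0 => fun x => G x N
  | (k+1) => gd G d N (zk G d N k)

lemma gd_add (G d : ℕ → ℕ → R) (N : ℕ) (f g : ℕ → R) (x : ℕ) :
    gd G d N (fun t => f t + g t) x = gd G d N f x + gd G d N g x := by
  simp only [gd, ← sum_add_distrib]
  exact sum_congr rfl fun s _ => sum_congr rfl fun t _ => by ring

lemma gd_congr (G d : ℕ → ℕ → R) (N : ℕ) {f g : ℕ → R} (x : ℕ)
    (h : ∀ t, x < t → t ≤ N → f t = g t) : gd G d N f x = gd G d N g x := by
  refine sum_congr rfl fun s hs => sum_congr rfl fun t ht => ?_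
  rw [mem_Icc] at hs; rw [mem_Ioc] at ht
  rw [h t (by omega) ht.2]

/-- the remainder after `m` expansions -/
lemma ren_add_expand (a d : ℕ → ℕ → R) (N : ℕ) (m : ℕ) : ∀ x ≤ N,
    ren (fun u v => a u v + d u v) x N
      = ∑ k ∈ range m, zk (ren a) d N k x
        + ((gd (ren a) d N)^[m] (fun t => ren (fun u v => a u v + d u v) t N)) x := by
  induction m with
  | zero => intro x _; simp
  | succ m ih =>
    intro x hx
    rw [ren_add a d hx]
    have : ∑ s ∈ Icc x N, ∑ t ∈ Ioc s N,
          ren a x s * d s t * ren (fun u v => a u v + d u v) t N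
        = gd (ren a) d N (fun t => ren (fun u v => a u v + d u v) t N) x := rfl
    rw [this]
    rw [gd_congr (ren a) d N (g := fun t => ∑ k ∈ range m, zk (ren a) d N k t
        + ((gd (ren a) d N)^[m] (fun t => ren (fun u v => a u v + d u v) t N)) t) x
        (fun t _ ht => ih t ht)]
    rw [gd_add, sum_range_succ', Function.iterate_succ_apply']
    have h2 : gd (ren a) d N (fun t => ∑ k ∈ range m, zk (ren a) d N k t) x
        = ∑ k ∈ range m, zk (ren a) d N (k+1) x := by
      simp only [zk, gd]
      simp only [mul_sum]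
      rw [sum_comm' (s := range m) (t := fun _ => Icc x N) (t' := Icc x N) (s' := fun _ => range m)
        (by intros; simp [and_comm])]
      refine sum_congr rfl fun s _ => ?_
      rw [sum_comm]
    rw [h2]
    simp only [zk]
    ring

lemma gd_iter_zero (G d : ℕ → ℕ → R) (N : ℕ) (f : ℕ → R) (m : ℕ) : ∀ x, N < x + m →
    ((gd G d N)^[m + 1] f) x = 0 := by
  induction m with
  | zero =>
    intro x hx
    simp only [zero_add, Function.iterate_one, gd]
    rw [Icc_eq_empty (by omega), sum_empty]
  | succ m ih =>
    intro x hx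
    rw [Function.iterate_succ_apply', gd]
    refine sum_eq_zero fun s hs => sum_eq_zero fun t ht => ?_
    rw [mem_Icc] at hs; rw [mem_Ioc] at ht
    rw [ih t (by omega), mul_zero]

/-- full expansion in the number of `d` steps -/
lemma ren_add_eq_sum_zk (a d : ℕ → ℕ → R) {x N : ℕ} (hx : x ≤ N) :
    ren (fun u v => a u v + d u v) x N = ∑ k ∈ range (N + 2), zk (ren a) d N k x := by
  rw [ren_add_expand a d N (N + 2) x hx, gd_iter_zero _ _ _ _ (N + 1) x (by omega), add_zero]

lemma ren_mono {a b : ℕ → ℕ → R} [PartialOrder R] [IsOrderedRing R]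
    (ha : ∀ x y, 0 ≤ a x y) (hab : ∀ x y, a x y ≤ b x y) (x y : ℕ) :
    0 ≤ ren a x y ∧ ren a x y ≤ ren b x y := by
  induction y using Nat.strong_induction_on with
  | _ y ih =>
    rcases lt_trichotomy x y with h | h | h
    · rw [ren_right _ h, ren_right _ h]
      constructor
      · exact sum_nonneg fun z hz => mul_nonneg (ih z (mem_Ico.1 hz).2).1 (ha _ _)
      · refine sum_le_sum fun z hz => ?_
        have h1 := ih z (mem_Ico.1 hz).2
        exact mul_le_mul h1.2 (hab _ _) (ha _ _) (h1.1.trans h1.2)
    · subst h; simp [ren_self]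
    · rw [ren_of_gt _ h, ren_of_gt _ h]; simp

end Pool.Agent.Cop
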