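import Mathlib
import Pool.Agent.Work.MP_cceb86_pr.Ren

/-!
Multi-affine functions of the environment, and the basic fractional moment inequality.
-/

open Finset MeasureTheory ProbabilityTheory
open scoped ENNReal NNReal

namespace Pool.Agent.Cop

/-- environments: sequences of nonnegative weights. -/
abbrev Env := ℕ → ℝ≥0∞

/-- `g` is a finite nonnegative combination of products `∏_{j ∈ T} e j`, `T ⊆ S`. -/
def MA (S : Finset ℕ) (g : Env → ℝ≥0∞) : Prop :=
  ∃ (ι : Type) (_ : Fintype ι) (w : ι → ℝ≥0∞) (T : ι → Finset ℕ), (∀ i, T i ⊆ S) ∧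
    ∀ e, g e = ∑ i, w i * ∏ j ∈ T i, e j

lemma MA.mono {S S' : Finset ℕ} {g : Env → ℝ≥0∞} (h : MA S g) (hS : S ⊆ S') : MA S' g := by
  obtain ⟨ι, hι, w, T, hT, hg⟩ := h
  exact ⟨ι, hι, w, T, fun i => (hT i).trans hS, hg⟩

lemma MA.congr {S : Finset ℕ} {g g' : Env → ℝ≥0∞} (h : MA S g) (hg : ∀ e, g' e = g e) :
    MA S g' := by
  obtain ⟨ι, hι, w, T, hT, hgg⟩ := h
  exact ⟨ι, hι, w, T, hT, fun e => by rw [hg, hgg]⟩

lemma MA.single (S : Finset ℕ) (w : ℝ≥0∞) (T : Finset ℕ) (hT : T ⊆ S) :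
    MA S (fun e => w * ∏ j ∈ T, e j) :=
  ⟨Unit, inferInstance, fun _ => w, fun _ => T, fun _ => hT, fun e => by simp⟩

lemma MA.const (S : Finset ℕ) (w : ℝ≥0∞) : MA S (fun _ => w) :=
  (MA.single S w ∅ (by simp)).congr (fun e => by simp)

lemma MA.prod (T : Finset ℕ) : MA T (fun e => ∏ j ∈ T, e j) :=
  (MA.single T 1 T subset_rfl).congr (fun e => by simp)

lemma MA.add {S : Finset ℕ} {g h : Env → ℝ≥0∞} (hg : MA S g) (hh : MA S h) :
    MA S (fun e => g e + h e) := by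
  obtain ⟨ι, hι, w, T, hT, hg⟩ := hg
  obtain ⟨ι', hι', w', T', hT', hh⟩ := hh
  refine ⟨ι ⊕ ι', inferInstance, Sum.elim w w', Sum.elim T T', ?_, ?_⟩
  · rintro (i | i)
    · exact hT i
    · exact hT' i
  · intro e
    rw [Fintype.sum_sum_type]
    simp [hg, hh]

lemma MA.sum {κ : Type*} {S : Finset ℕ} {g : κ → Env → ℝ≥0∞} (s : Finset κ)
    (hg : ∀ k ∈ s, MA S (g k)) : MA S (fun e => ∑ k ∈ s, g k e) := by
  classical
  induction s using Finset.induction_on with
  | empty => simpa using MA.const S 0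
  | insert a s ha ih =>
    refine ((hg a (by simp)).add (ih fun k hk => hg k (by simp [hk]))).congr fun e => ?_
    rw [sum_insert ha]

lemma MA.mul {S S' : Finset ℕ} {g h : Env → ℝ≥0∞} (hg : MA S g) (hh : MA S' h)
    (hd : Disjoint S S') : MA (S ∪ S') (fun e => g e * h e) := by
  obtain ⟨ι, hι, w, T, hT, hg⟩ := hg
  obtain ⟨ι', hι', w', T', hT', hh⟩ := hh
  refine ⟨ι × ι', inferInstance, fun p => w p.1 * w' p.2, fun p => T p.1 ∪ T' p.2, ?_, ?_⟩
  · rintro ⟨i, i'⟩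
    exact union_subset_union (hT i) (hT' i')
  · intro e
    rw [Fintype.sum_prod_type]
    change g e * h e = _
    rw [hg, hh, sum_mul_sum]
    refine sum_congr rfl fun i _ => sum_congr rfl fun i' _ => ?_
    change _ = w i * w' i' * ∏ j ∈ T i ∪ T' i', e j
    rw [prod_union (disjoint_of_subset_left (hT i) (disjoint_of_subset_right (hT' i') hd))]
    ring

lemma MA.const_mul {S : Finset ℕ} {g : Env → ℝ≥0∞} (hg : MA S g) (c : ℝ≥0∞) :
    MA S (fun e => c * g e) := by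
  have := (MA.const ∅ c).mul hg (disjoint_empty_left S)
  rwa [empty_union] at this

lemma MA.zero (S : Finset ℕ) : MA S (fun _ => 0) := MA.const S 0

variable {Ω : Type*} [MeasurableSpace Ω] {P : Measure Ω}

/-- independent random weights with controlled first and fractional moments. -/
structure Weights (P : Measure Ω) (e : ℕ → Ω → ℝ≥0∞) (γ : ℝ) (q r : ℝ≥0∞) : Prop where
  meas : ∀ n, Measurable (e n)
  indep : iIndepFun e P
  one : ∀ n, ∫⁻ ω, e n ω ∂P ≤ q
  gam : ∀ n, ∫⁻ ω, (e n ω) ^ γ ∂P ≤ r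

variable {e : ℕ → Ω → ℝ≥0∞} {γ : ℝ} {q r : ℝ≥0∞}

lemma MA.measurable {S : Finset ℕ} {g : Env → ℝ≥0∞} (hg : MA S g)
    (he : ∀ n, Measurable (e n)) : Measurable (fun ω => g (fun j => e j ω)) := by
  obtain ⟨ι, hι, w, T, hT, hg⟩ := hg
  simp only [hg]
  fun_prop

lemma MA.mono_env {S : Finset ℕ} {g : Env → ℝ≥0∞} (hg : MA S g) {e e' : Env}
    (h : ∀ j, e j ≤ e' j) : g e ≤ g e' := by
  obtain ⟨ι, hι, w, T, hT, hg⟩ := hg
  rw [hg, hg]
  gcongr with i _ j _
  exact h j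

lemma lintegral_mixed (hW : Weights P e γ q r) (I T : Finset ℕ) (hd : Disjoint I T) :
    ∫⁻ ω, (∏ j ∈ I, (e j ω) ^ γ) * (∏ j ∈ T, e j ω) ∂P ≤ r ^ I.card * q ^ T.card := by
  classical
  set φ : ℕ → ℝ≥0∞ → ℝ≥0∞ := fun n x => if n ∈ I then x ^ γ else x with hφ
  have hφm : ∀ n, Measurable (φ n) := by
    intro n
    by_cases hn : n ∈ I
    · have : φ n = fun x => x ^ γ := by funext x; simp [hφ, hn]
      rw [this]; fun_prop
    · have : φ n = fun x => x := by funext x; simp [hφ, hn]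
      rw [this]; fun_prop
  have hind : iIndepFun (fun n => φ n ∘ e n) P := hW.indep.comp φ hφm
  have key := lintegral_prod_eq_prod_lintegral_of_indepFun (I ∪ T) (fun n => φ n ∘ e n) hind
    (fun n => (hφm n).comp (hW.meas n))
  have e1 : ∀ ω, (∏ j ∈ I, (e j ω) ^ γ) * (∏ j ∈ T, e j ω)
      = ∏ i ∈ I ∪ T, (φ i ∘ e i) ω := by
    intro ω
    rw [prod_union hd]
    congr 1
    · refine prod_congr rfl fun i hi => ?_
      simp [hφ, hi]
    · refine prod_congr rfl fun i hi => ?_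
      have : i ∉ I := fun h => (disjoint_left.1 hd h) hi
      simp [hφ, this]
  simp_rw [e1]
  rw [key, prod_union hd]
  refine mul_le_mul' ?_ ?_
  · calc ∏ i ∈ I, ∫⁻ ω, (φ i ∘ e i) ω ∂P ≤ ∏ i ∈ I, r := by
          refine prod_le_prod' fun i hi => ?_
          have : (fun ω => (φ i ∘ e i) ω) = fun ω => (e i ω) ^ γ := by
            funext ω; simp [hφ, hi]
          rw [this]; exact hW.gam i
      _ = r ^ I.card := by simp
  · calc ∏ i ∈ T, ∫⁻ ω, (φ i ∘ e i) ω ∂P ≤ ∏ i ∈ T, q := by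
          refine prod_le_prod' fun i hi => ?_
          have hni : i ∉ I := fun h => (disjoint_left.1 hd h) hi
          have : (fun ω => (φ i ∘ e i) ω) = fun ω => e i ω := by
            funext ω; simp [hφ, hni]
          rw [this]; exact hW.one i
      _ = q ^ T.card := by simp

/-- The basic fractional moment bound. -/
lemma frac_moment (hW : Weights P e γ q r) (hγ : 0 ≤ γ) (hγ1 : γ ≤ 1) {S I : Finset ℕ}
    {g : Env → ℝ≥0∞} (hg : MA S g) (hd : Disjoint I S) :
    ∫⁻ ω, ((∏ j ∈ I, e j ω) * g (fun j => e j ω)) ^ γ ∂P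
      ≤ r ^ I.card * (g (fun _ => q)) ^ γ := by
  classical
  have hgm := hg.measurable hW.meas
  set A : Ω → ℝ≥0∞ := fun ω => ∏ j ∈ I, (e j ω) ^ γ with hA
  have hAm : Measurable A := by
    rw [hA]
    have := hW.meas
    fun_prop
  have hA1 : ∫⁻ ω, A ω ∂P ≤ r ^ I.card := by
    have := lintegral_mixed hW I ∅ (by simp)
    simpa using this
  have hA2 : ∫⁻ ω, A ω * g (fun j => e j ω) ∂P ≤ r ^ I.card * g (fun _ => q) := by
    obtain ⟨ι, hι, w, T, hT, hgg⟩ := hg
    have e1 : ∀ ω, A ω * g (fun j => e j ω)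
        = ∑ i, w i * (A ω * ∏ j ∈ T i, e j ω) := by
      intro ω
      rw [hgg, mul_sum]
      exact sum_congr rfl fun i _ => by ring
    simp_rw [e1]
    rw [lintegral_finsetSum]
    · rw [hgg, mul_sum]
      refine sum_le_sum fun i _ => ?_
      rw [lintegral_const_mul]
      · have h1 := lintegral_mixed hW I (T i) (disjoint_of_subset_right (hT i) hd)
        calc w i * ∫⁻ ω, A ω * ∏ j ∈ T i, e j ω ∂P ≤ w i * (r ^ I.card * q ^ (T i).card) := by
              gcongr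
          _ = r ^ I.card * (w i * ∏ j ∈ T i, q) := by
              rw [prod_const]; ring
      · have := hW.meas
        fun_prop
    · intro i _
      have := hW.meas
      fun_prop
  have e2 : ∀ ω, ((∏ j ∈ I, e j ω) * g (fun j => e j ω)) ^ γ
      = A ω ^ (1 - γ) * (A ω * g (fun j => e j ω)) ^ γ := by
    intro ω
    rw [ENNReal.mul_rpow_of_nonneg _ _ hγ, ENNReal.mul_rpow_of_nonneg _ _ hγ, ← mul_assoc,
      ← ENNReal.rpow_add_of_nonneg _ _ (by linarith) hγ, sub_add_cancel, ENNReal.rpow_one]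
    simp only [hA]
    rw [ENNReal.prod_rpow_of_nonneg hγ]
  simp_rw [e2]
  calc ∫⁻ ω, A ω ^ (1 - γ) * (A ω * g (fun j => e j ω)) ^ γ ∂P
      ≤ (∫⁻ ω, A ω ∂P) ^ (1 - γ) * (∫⁻ ω, A ω * g (fun j => e j ω) ∂P) ^ γ :=
        ENNReal.lintegral_mul_norm_pow_le hAm.aemeasurable (hAm.mul hgm).aemeasurable
          (by linarith) hγ (by ring)
    _ ≤ (r ^ I.card) ^ (1 - γ) * (r ^ I.card * g (fun _ => q)) ^ γ := by
        gcongr
    _ = r ^ I.card * (g (fun _ => q)) ^ γ := by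
        rw [ENNReal.mul_rpow_of_nonneg _ _ hγ, ← mul_assoc,
          ← ENNReal.rpow_add_of_nonneg _ _ (by linarith) hγ, sub_add_cancel, ENNReal.rpow_one]

lemma rpow_sum_le {κ : Type*} (s : Finset κ) (f : κ → ℝ≥0∞) (hγ : 0 < γ) (hγ1 : γ ≤ 1) :
    (∑ k ∈ s, f k) ^ γ ≤ ∑ k ∈ s, (f k) ^ γ := by
  classical
  induction s using Finset.induction_on with
  | empty => simp [hγ]
  | insert a s ha ih =>
    rw [sum_insert ha, sum_insert ha]
    exact (ENNReal.rpow_add_le_add_rpow _ _ hγ.le hγ1).trans (by gcongr)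

end Pool.Agent.Cop
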