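import Mathlib
import Pool.Agent.Work.MP_cceb86_pr.Frac

/-!
Sums over lists in the extended nonnegative reals; countable sums of multi-affine functions.
-/

open Finset MeasureTheory ProbabilityTheory
open scoped ENNReal NNReal

noncomputable section

namespace Pool.Agent.Cop

variable {α β : Type*}

lemma tsum_list (f : List α → ℝ≥0∞) :
    ∑' l, f l = f [] + ∑' p : α × List α, f (p.1 :: p.2) := by
  set F1 : List α → ℝ≥0∞ := fun l => match l with
    | [] => f []
    | _ :: _ => 0 with hF1
  set F2 : List α → ℝ≥0∞ := fun l => match l with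
    | [] => 0
    | a :: l => f (a :: l) with hF2
  have h0 : ∀ l, f l = F1 l + F2 l := by
    intro l
    cases l with
    | nil => simp [hF1, hF2]
    | cons a l => simp [hF1, hF2]
  have h1 : ∑' l, F1 l = f [] := by
    rw [tsum_eq_single []]
    intro l hl
    cases l with
    | nil => exact absurd rfl hl
    | cons a l => simp [hF1]
  have h2 : ∑' l, F2 l = ∑' p : α × List α, f (p.1 :: p.2) := by
    set i : α × List α → List α := fun p => p.1 :: p.2 with hi
    have hinj : Function.Injective i := by
      rintro ⟨a, l⟩ ⟨b, m⟩ h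
      simp only [hi, List.cons.injEq] at h
      exact Prod.ext h.1 h.2
    have h1 : Function.support F2 ⊆ Set.range i := by
      intro x hx
      cases x with
      | nil => simp [hF2] at hx
      | cons a l => exact ⟨(a, l), rfl⟩
    rw [← hinj.tsum_eq h1]
  rw [← h1, ← h2, ← ENNReal.tsum_add]
  exact tsum_congr h0

lemma rpow_tsum_le {ι : Type*} (f : ι → ℝ≥0∞) {γ : ℝ} (hγ : 0 < γ) (hγ1 : γ ≤ 1) :
    (∑' i, f i) ^ γ ≤ ∑' i, (f i) ^ γ := by
  classical
  rw [ENNReal.tsum_eq_iSup_sum]
  have h1 : (⨆ s : Finset ι, ∑ i ∈ s, f i) ^ γ = ⨆ s : Finset ι, (∑ i ∈ s, f i) ^ γ := by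
    have := (ENNReal.orderIsoRpow γ hγ).map_iSup (fun s : Finset ι => ∑ i ∈ s, f i)
    exact this
  rw [h1]
  exact iSup_le fun s => (rpow_sum_le s f hγ hγ1).trans (ENNReal.sum_le_tsum s)

/-- sums over lists factorize over the fibers of a map. -/
lemma tsum_list_fiber (φ : α → β) (F : α → ℝ≥0∞) (G : β → ℝ≥0∞)
    (h : ∀ b, (open Classical in ∑' a, if φ a = b then F a else 0) ≤ G b) (l : List β) :
    (open Classical in ∑' μ : List α, if μ.map φ = l then (μ.map F).prod else 0)
      ≤ (l.map G).prod := by
  classical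
  induction l with
  | nil =>
    rw [tsum_list]
    have h1 : ∀ p : α × List α, (if (p.1 :: p.2).map φ = [] then ((p.1 :: p.2).map F).prod else 0)
        = 0 := by
      intro p
      rw [if_neg]
      simp
    simp [h1]
  | cons b l ih =>
    rw [tsum_list]
    have h1 : (if ([] : List α).map φ = b :: l then (([] : List α).map F).prod else 0) = 0 := by
      simp
    rw [h1, zero_add, ENNReal.tsum_prod']
    calc ∑' (a : α) (μ : List α), (if (a :: μ).map φ = b :: l then ((a :: μ).map F).prod else 0)
        = ∑' (a : α) (μ : List α), (if φ a = b then F a else 0) *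
            (if μ.map φ = l then (μ.map F).prod else 0) := by
          refine tsum_congr fun a => tsum_congr fun μ => ?_
          by_cases ha : φ a = b
          · by_cases hm : μ.map φ = l
            · simp [ha, hm]
            · simp [ha, hm]
          · simp [ha]
      _ = (∑' a, if φ a = b then F a else 0) *
            (∑' μ : List α, if μ.map φ = l then (μ.map F).prod else 0) := by
          rw [← ENNReal.tsum_mul_right]
          exact tsum_congr fun a => ENNReal.tsum_mul_left
      _ ≤ G b * (l.map G).prod := mul_le_mul' (h b) ih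
      _ = _ := by simp

/-- grouping a sum according to the values of a function. -/
lemma tsum_group {ι κ : Type*} (φ : ι → κ) (F : ι → ℝ≥0∞) :
    ∑' i, F i = (open Classical in ∑' k, ∑' i, if φ i = k then F i else 0) := by
  classical
  rw [ENNReal.tsum_comm]
  refine tsum_congr fun i => ?_
  rw [tsum_eq_single (φ i)]
  · simp
  · intro k hk
    rw [if_neg (Ne.symm hk)]

/-- canonical form of a multi-affine function -/
lemma MA.canon {S : Finset ℕ} {g : Env → ℝ≥0∞} (hg : MA S g) :
    ∃ v : Finset ℕ → ℝ≥0∞, ∀ e, g e = ∑ T ∈ S.powerset, v T * ∏ j ∈ T, e j := by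
  classical
  obtain ⟨ι, hι, w, T, hT, hgg⟩ := hg
  refine ⟨fun A => ∑ i, if T i = A then w i else 0, fun e => ?_⟩
  rw [hgg]
  simp only [sum_mul]
  rw [sum_comm]
  refine sum_congr rfl fun i _ => ?_
  rw [sum_eq_single (T i)]
  · simp
  · intro A _ hA
    rw [if_neg (Ne.symm hA), zero_mul]
  · intro h
    exact absurd (mem_powerset.2 (hT i)) h

lemma MA.of_canon {S : Finset ℕ} {g : Env → ℝ≥0∞} {v : Finset ℕ → ℝ≥0∞}
    (h : ∀ e, g e = ∑ T ∈ S.powerset, v T * ∏ j ∈ T, e j) : MA S g := by
  refine (MA.sum (S := S) (g := fun T e => v T * ∏ j ∈ T, e j) S.powerset fun T hT =>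
    MA.single S (v T) T (mem_powerset.1 hT)).congr h

lemma MA.tsum {ι : Type*} {S : Finset ℕ} {g : ι → Env → ℝ≥0∞} (hg : ∀ k, MA S (g k)) :
    MA S (fun e => ∑' k, g k e) := by
  classical
  choose v hv using fun k => (hg k).canon
  refine MA.of_canon (v := fun T => ∑' k, v k T) fun e => ?_
  simp only [hv]
  rw [Summable.tsum_finsetSum (fun _ _ => ENNReal.summable)]
  refine sum_congr rfl fun T _ => ?_
  rw [ENNReal.tsum_mul_right]

end Pool.Agent.Cop

end
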