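import Mathlib
import Pool.Agent.Work.MP_cceb86_pr.Frac
import Pool.Agent.Work.MP_cceb86_pr.Lst

/-!
Jensen's inequality for multi-affine functions of the environment.
-/

open Finset
open scoped ENNReal

noncomputable section

namespace Pool.Agent.Cop

/-- real canonical form -/
lemma MA.real {S : Finset ℕ} {g : Env → ℝ≥0∞} (hg : MA S g) (h1 : g (fun _ => 1) ≠ ∞) :
    ∃ v : Finset ℕ → ℝ, (∀ T, 0 ≤ v T) ∧ ∀ r : ℕ → ℝ, (∀ n, 0 ≤ r n) →
      g (fun n => ENNReal.ofReal (r n))
        = ENNReal.ofReal (∑ T ∈ S.powerset, v T * ∏ j ∈ T, r j) := by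
  obtain ⟨v, hv⟩ := hg.canon
  refine ⟨fun T => (v T).toReal, fun T => ENNReal.toReal_nonneg, fun r hr => ?_⟩
  have hfin : ∀ T ∈ S.powerset, v T ≠ ∞ := by
    intro T hT htop
    apply h1
    rw [hv, ENNReal.sum_eq_top]
    exact ⟨T, hT, by simp [htop]⟩
  rw [hv, ENNReal.ofReal_sum_of_nonneg (fun T _ => mul_nonneg ENNReal.toReal_nonneg
    (prod_nonneg fun j _ => hr j))]
  refine sum_congr rfl fun T hT => ?_
  rw [ENNReal.ofReal_mul ENNReal.toReal_nonneg, ENNReal.ofReal_toReal (hfin T hT),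
    ENNReal.ofReal_prod_of_nonneg (fun j _ => hr j)]

/-- **Jensen.** -/
theorem MA.jensen {S : Finset ℕ} {g : Env → ℝ≥0∞} (hg : MA S g) {W : ℝ} (hW : 0 < W)
    (hW1 : ENNReal.ofReal W ≤ g (fun _ => 1)) (hfin : g (fun _ => 1) ≠ ∞) {O I1 : Finset ℕ}
    {q ρ B : ℝ} (hq : 1 < q)
    (hO : g (fun j => if j ∈ O then ENNReal.ofReal q else 1)
      ≤ ENNReal.ofReal (1 + ρ) * g (fun _ => 1))
    (hρ : 0 ≤ ρ) (hB : ρ ≤ B * Real.log q)
    (hone : ∀ n ∈ I1, g (fun j => if j = n then 0 else 1) = 0) :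
    ∃ φ : ℕ → ℝ, (∀ i, 0 ≤ φ i) ∧ (∀ i, φ i ≤ 1) ∧ (∀ i, φ i ≠ 0 → i ∈ S) ∧
      (∀ i ∈ I1, φ i = 1) ∧ ∑ i ∈ O, φ i ≤ B ∧
      ∀ (H : ℕ → ℝ) (N : ℕ), S ⊆ range N →
        ENNReal.ofReal (W * Real.exp (∑ i ∈ range N, φ i * H i))
          ≤ g (fun i => ENNReal.ofReal (Real.exp (H i))) := by
  classical
  obtain ⟨v, hv0, hv⟩ := hg.real hfin
  set V : ℝ := ∑ T ∈ S.powerset, v T with hV
  have hg1 : g (fun _ => 1) = ENNReal.ofReal V := by
    have h := hv (fun _ => 1) (fun _ => zero_le_one)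
    simp only [ENNReal.ofReal_one, prod_const_one, mul_one] at h
    exact h
  have hV0 : 0 ≤ V := sum_nonneg fun T _ => hv0 T
  have hWV : W ≤ V := by
    rw [hg1] at hW1
    exact (ENNReal.ofReal_le_ofReal_iff hV0).1 hW1
  have hV1 : 0 < V := lt_of_lt_of_le hW hWV
  set φ : ℕ → ℝ := fun i => (∑ T ∈ S.powerset, if i ∈ T then v T else 0) / V with hφ
  have hnum0 : ∀ i, 0 ≤ ∑ T ∈ S.powerset, (if i ∈ T then v T else 0) := fun i =>
    sum_nonneg fun T _ => by split_ifs; exacts [hv0 T, le_rfl]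
  have hφ0 : ∀ i, 0 ≤ φ i := fun i => div_nonneg (hnum0 i) hV0
  refine ⟨φ, hφ0, ?_, ?_, ?_, ?_, ?_⟩
  · intro i
    simp only [hφ]
    rw [div_le_one hV1]
    refine sum_le_sum fun T _ => ?_
    split_ifs
    exacts [le_rfl, hv0 T]
  · intro i hi
    by_contra hcon
    apply hi
    simp only [hφ]
    rw [div_eq_zero_iff]
    left
    refine sum_eq_zero fun T hT => ?_
    rw [if_neg]
    intro hiT
    exact hcon (mem_powerset.1 hT hiT)
  · intro i hi
    have h1 := hone i hi
    have h2 := hv (fun j => if j = i then 0 else 1) (fun n => by split_ifs <;> norm_num)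
    have h3 : (fun n => ENNReal.ofReal (if n = i then (0 : ℝ) else 1))
        = fun j => if j = i then 0 else 1 := by
      funext j; split_ifs <;> simp
    rw [h3, h1] at h2
    have h4 : ∑ T ∈ S.powerset, v T * ∏ j ∈ T, (if j = i then (0 : ℝ) else 1) ≤ 0 :=
      ENNReal.ofReal_eq_zero.1 h2.symm
    have h5 : ∀ T, v T * ∏ j ∈ T, (if j = i then (0 : ℝ) else 1) = if i ∈ T then 0 else v T := by
      intro T
      split_ifs with hiT
      · rw [prod_eq_zero hiT (by simp), mul_zero]
      · rw [prod_eq_one, mul_one]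
        intro j hj
        rw [if_neg]
        rintro rfl
        exact hiT hj
    simp only [h5] at h4
    have h6 : V = ∑ T ∈ S.powerset, (if i ∈ T then v T else 0)
        + ∑ T ∈ S.powerset, (if i ∈ T then 0 else v T) := by
      rw [hV, ← sum_add_distrib]
      refine sum_congr rfl fun T _ => ?_
      split_ifs <;> simp
    have h7 : 0 ≤ ∑ T ∈ S.powerset, (if i ∈ T then 0 else v T) :=
      sum_nonneg fun T _ => by split_ifs; exacts [le_rfl, hv0 T]
    simp only [hφ]
    rw [div_eq_one_iff_eq hV1.ne']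
    linarith
  · -- the mean number of sites in `O`
    have hlog : 0 < Real.log q := Real.log_pos hq
    have hcard : ∀ T : Finset ℕ, ((T ∩ O).card : ℝ) * Real.log q ≤ q ^ (T ∩ O).card - 1 := by
      intro T
      have h1 := Real.add_one_le_exp (((T ∩ O).card : ℝ) * Real.log q)
      rw [mul_comm, Real.exp_mul, Real.exp_log (by linarith), Real.rpow_natCast] at h1
      linarith [mul_comm (Real.log q) ((T ∩ O).card : ℝ)]
    have h1 : (∑ i ∈ O, φ i) * V = ∑ T ∈ S.powerset, v T * ((T ∩ O).card : ℝ) := by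
      rw [sum_mul]
      have : ∀ i, φ i * V = ∑ T ∈ S.powerset, if i ∈ T then v T else 0 := by
        intro i; simp only [hφ]; field_simp
      simp only [this]
      rw [sum_comm]
      refine sum_congr rfl fun T _ => ?_
      rw [← sum_filter, sum_const, nsmul_eq_mul, mul_comm]
      congr 2
      rw [inter_comm, filter_mem_eq_inter]
    have h2 : ∑ T ∈ S.powerset, v T * q ^ (T ∩ O).card ≤ (1 + ρ) * V := by
      have h3 := hv (fun j => if j ∈ O then q else 1) (fun n => by split_ifs <;> linarith)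
      have h4 : (fun n => ENNReal.ofReal (if n ∈ O then q else 1))
          = fun j => if j ∈ O then ENNReal.ofReal q else 1 := by
        funext j; split_ifs <;> simp
      rw [h4] at h3
      rw [h3, hg1, ← ENNReal.ofReal_mul (by linarith)] at hO
      have h5 := (ENNReal.ofReal_le_ofReal_iff (by positivity)).1 hO
      refine le_trans (le_of_eq ?_) h5
      refine sum_congr rfl fun T _ => ?_
      rw [prod_ite, prod_const_one, mul_one, prod_const, filter_mem_eq_inter]
    have h6 : (∑ i ∈ O, φ i) * V * Real.log q ≤ ρ * V := by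
      rw [h1, sum_mul]
      calc ∑ T ∈ S.powerset, v T * ((T ∩ O).card : ℝ) * Real.log q
          ≤ ∑ T ∈ S.powerset, (v T * q ^ (T ∩ O).card - v T) := by
            refine sum_le_sum fun T _ => ?_
            have := mul_le_mul_of_nonneg_left (hcard T) (hv0 T)
            linarith
        _ = ∑ T ∈ S.powerset, v T * q ^ (T ∩ O).card - V := by rw [sum_sub_distrib]
        _ ≤ ρ * V := by linarith
    have h7 : (∑ i ∈ O, φ i) * Real.log q ≤ B * Real.log q := by
      have h8 : (∑ i ∈ O, φ i) * Real.log q * V ≤ ρ * V := by linarith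
      exact (le_of_mul_le_mul_right h8 hV1).trans hB
    exact le_of_mul_le_mul_right h7 hlog
  · intro H N hN
    rw [hv (fun i => Real.exp (H i)) (fun n => (Real.exp_pos _).le)]
    refine ENNReal.ofReal_le_ofReal ?_
    have h1 : ∑ T ∈ S.powerset, v T * ∏ j ∈ T, Real.exp (H j)
        = V * ∑ T ∈ S.powerset, (v T / V) * Real.exp (∑ j ∈ T, H j) := by
      rw [mul_sum]
      refine sum_congr rfl fun T _ => ?_
      rw [Real.exp_sum]
      field_simp
    have h2 := convexOn_exp.map_sum_le (t := S.powerset) (w := fun T => v T / V)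
      (p := fun T => ∑ j ∈ T, H j) (fun T _ => div_nonneg (hv0 T) hV0)
      (by rw [← sum_div]; exact div_self hV1.ne') (fun _ _ => Set.mem_univ _)
    simp only [smul_eq_mul] at h2
    have h3 : ∑ T ∈ S.powerset, v T / V * ∑ j ∈ T, H j = ∑ i ∈ range N, φ i * H i := by
      have h4 : ∀ T ∈ S.powerset, v T / V * ∑ j ∈ T, H j
          = ∑ i ∈ range N, (if i ∈ T then v T else 0) / V * H i := by
        intro T hT
        have hTN : T ⊆ range N := (mem_powerset.1 hT).trans hN
        rw [mul_sum]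
        rw [← sum_subset hTN]
        · refine sum_congr rfl fun i hi => ?_
          rw [if_pos hi]
        · intro i _ hi
          rw [if_neg hi]; simp
      rw [sum_congr rfl h4, sum_comm]
      refine sum_congr rfl fun i _ => ?_
      simp only [hφ]
      rw [← sum_mul, sum_div]
    rw [h3] at h2
    rw [h1]
    calc W * Real.exp (∑ i ∈ range N, φ i * H i)
        ≤ V * Real.exp (∑ i ∈ range N, φ i * H i) := by gcongr
      _ ≤ _ := by gcongr

end Pool.Agent.Cop

end
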