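import Mathlib
import Pool.Agent.Work.MP_cceb86_pr.Frac

/-!
The coarse grained fractional moment estimate: only the down excursions longer than `L` are
recorded, through the indices of the blocks (of length `L`) of their two ends.
-/

open Finset MeasureTheory ProbabilityTheory
open scoped ENNReal NNReal

noncomputable section

namespace Pool.Agent.Cop

/-- product of the environment over `(a,b]`. -/
def pI (e : Env) (a b : ℕ) : ℝ≥0∞ := ∏ i ∈ Ioc a b, e i

/-- weight of an excursion `(x,y]` which is up, or down and of length at most `L`. -/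
def kA (K : ℕ → ℝ≥0∞) (L : ℕ) (e : Env) (x y : ℕ) : ℝ≥0∞ :=
  K (y - x) / 2 * (1 + if y - x ≤ L then pI e x y else 0)

/-- weight of a down excursion `(x,y]` of length larger than `L`. -/
def kD (K : ℕ → ℝ≥0∞) (L : ℕ) (e : Env) (x y : ℕ) : ℝ≥0∞ :=
  if L < y - x then K (y - x) / 2 * pI e x y else 0

/-- weight of an excursion. -/
def kT (K : ℕ → ℝ≥0∞) (e : Env) (x y : ℕ) : ℝ≥0∞ := K (y - x) / 2 * (1 + pI e x y)

lemma kA_add_kD (K : ℕ → ℝ≥0∞) (L : ℕ) (e : Env) (x y : ℕ) :
    kA K L e x y + kD K L e x y = kT K e x y := by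
  unfold kA kD kT
  by_cases h : y - x ≤ L
  · rw [if_pos h, if_neg (by omega), add_zero]
  · rw [if_neg h, if_pos (by omega), ← mul_add, add_zero]

lemma pI_mul (e : Env) {a b c : ℕ} (hab : a ≤ b) (hbc : b ≤ c) :
    pI e a b * pI e b c = pI e a c := by
  unfold pI
  rw [← prod_union]
  · congr 1
    ext z; simp only [mem_union, mem_Ioc]; omega
  · rw [disjoint_left]; intro z; simp only [mem_Ioc]; omega

lemma pI_const (q : ℝ≥0∞) (a b : ℕ) : pI (fun _ => q) a b = q ^ (b - a) := by
  unfold pI; simp

lemma MA_pI (a b : ℕ) : MA (Ioc a b) (fun e => pI e a b) := MA.prod _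

variable (K : ℕ → ℝ≥0∞) (L N : ℕ)

lemma MA_kA (x y : ℕ) : MA (Ioc x y) (fun e => kA K L e x y) := by
  unfold kA
  refine MA.const_mul ((MA.const _ 1).add ?_) _
  by_cases h : y - x ≤ L
  · simpa [h] using MA_pI x y
  · simpa [h] using MA.zero _

lemma MA_kD (x y : ℕ) : MA (Ioc x y) (fun e => kD K L e x y) := by
  unfold kD
  by_cases h : L < y - x
  · simp only [h, if_true]; exact (MA_pI x y).const_mul _
  · simp only [h, if_false]; exact MA.zero _

lemma MA_ren {a : Env → ℕ → ℕ → ℝ≥0∞} (ha : ∀ x y, MA (Ioc x y) (fun e => a e x y))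
    (x y : ℕ) : MA (Ioc x y) (fun e => ren (a e) x y) := by
  induction y using Nat.strong_induction_on with
  | _ y ih =>
    rcases lt_trichotomy x y with h | h | h
    · have : MA (Ioc x y) (fun e => ∑ z ∈ Ico x y, ren (a e) x z * a e z y) := by
        refine MA.sum _ fun z hz => ?_
        rw [mem_Ico] at hz
        refine ((ih z hz.2).mul (ha z y) ?_).mono ?_
        · rw [disjoint_left]; intro w; simp only [mem_Ioc]; omega
        · intro w; simp only [mem_union, mem_Ioc]; omega
      exact this.congr fun e => ren_right _ h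
    · subst h
      exact (MA.const _ 1).congr fun e => ren_self _ _
    · exact (MA.const _ 0).congr fun e => ren_of_gt _ h

lemma MA_zk {G d : Env → ℕ → ℕ → ℝ≥0∞} (hG : ∀ x y, MA (Ioc x y) (fun e => G e x y))
    (hd : ∀ x y, MA (Ioc x y) (fun e => d e x y)) (k : ℕ) : ∀ x,
    MA (Ioc x N) (fun e => zk (G e) (d e) N k x) := by
  induction k with
  | zero => intro x; exact hG x N
  | succ k ih =>
    intro x
    simp only [zk, gd]
    refine MA.sum _ fun s hs => MA.sum _ fun t ht => ?_
    rw [mem_Icc] at hs; rw [mem_Ioc] at ht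
    have h1 := ((hG x s).mul (hd s t) (by
      rw [disjoint_left]; intro w; simp only [mem_Ioc]; omega)).mul (ih t) (by
      rw [disjoint_left]; intro w; simp only [mem_Ioc, mem_union]; omega)
    exact h1.mono (by intro w; simp only [mem_union, mem_Ioc]; omega)

/-- the contribution of the chains from `x` to `N` with exactly `k` long down excursions. -/
def Zk (e : Env) (k x : ℕ) : ℝ≥0∞ := zk (ren (kA K L e)) (kD K L e) N k x

lemma MA_Zk (k x : ℕ) : MA (Ioc x N) (fun e => Zk K L N e k x) :=
  MA_zk N (fun x y => MA_ren (MA_kA K L) x y) (MA_kD K L) k x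

/-- The deterministic bounds used in the claim. -/
structure Bds (γ : ℝ) (q r : ℝ≥0∞) (u κ : ℕ → ℝ≥0∞) (H ρ : ℝ≥0∞) : Prop where
  hH : ∀ x ≤ N, ren (kA K L (fun _ => q)) x N ≤ H
  hu : ∀ x j, ∑ s ∈ (Icc x N).filter (fun s => s / L = x / L + j),
    ren (kA K L (fun _ => q)) x s ≤ u j
  hk : ∀ s j, ∑ t ∈ (Ioc s N).filter (fun t => t / L = s / L + 1 + j ∧ L < t - s),
    K (t - s) / 2 * (q ^ ((s / L + 1) * L - s) * q ^ (t - (t / L) * L)) ≤ κ j
  hρ : ∑ i ∈ range (N + 1), ∑ j ∈ range (N + 1), (u i * κ j) ^ γ * r ^ (j * L) ≤ ρ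

variable {K L N}

/-- the sets of blocks -/
def blk (L N : ℕ) (b : ℕ) : Finset ℕ := (range (N + 1)).filter (fun x => x / L = b)

/-- the prefix functions after one more long down excursion. -/
def Fn (K : ℕ → ℝ≥0∞) (L N : ℕ) (q0 i j : ℕ) (f : ℕ → Env → ℝ≥0∞) (t : ℕ) (e : Env) : ℝ≥0∞ :=
  ∑ x ∈ blk L N q0, ∑ s ∈ (Icc x N).filter (fun s => s / L = x / L + i),
    if t ∈ (Ioc s N).filter (fun t => t / L = s / L + 1 + j ∧ L < t - s) then
      f x e * ren (kA K L e) x s * (K (t - s) / 2 *
        (pI e s ((s / L + 1) * L) * pI e ((t / L) * L) t)) else 0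

lemma step_identity (hL : 0 < L) (q0 : ℕ) (f : ℕ → Env → ℝ≥0∞) (k : ℕ) (e : Env) :
    ∑ x ∈ blk L N q0, f x e * Zk K L N e (k+1) x
      = ∑ i ∈ range (N + 1), ∑ j ∈ range (N + 1),
          pI e ((q0 + i + 1) * L) ((q0 + i + 1 + j) * L) *
            ∑ t ∈ blk L N (q0 + i + 1 + j), Fn K L N q0 i j f t e * Zk K L N e k t := by
  classical
  -- split the sum over `s` and `t` into blocks
  have h1 : ∀ x, Zk K L N e (k+1) x
      = ∑ i ∈ range (N + 1), ∑ j ∈ range (N + 1),
        ∑ s ∈ (Icc x N).filter (fun s => s / L = x / L + i),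
          ∑ t ∈ (Ioc s N).filter (fun t => t / L = s / L + 1 + j ∧ L < t - s),
            ren (kA K L e) x s * kD K L e s t * Zk K L N e k t := by
    intro x
    have h2 : ∀ s ∈ Icc x N, ∑ t ∈ Ioc s N, ren (kA K L e) x s * kD K L e s t * Zk K L N e k t
        = ∑ j ∈ range (N+1), ∑ t ∈ (Ioc s N).filter (fun t => t / L = s / L + 1 + j ∧ L < t - s),
            ren (kA K L e) x s * kD K L e s t * Zk K L N e k t := by
      intro s hs
      have h3 : ∑ t ∈ Ioc s N, ren (kA K L e) x s * kD K L e s t * Zk K L N e k t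
        = ∑ t ∈ (Ioc s N).filter (fun t => L < t - s),
            ren (kA K L e) x s * kD K L e s t * Zk K L N e k t := by
        rw [sum_filter_of_ne]
        intro t _ ht
        by_contra hcon
        apply ht
        simp [kD, hcon]
      rw [h3, ← sum_fiberwise_of_maps_to (t := range (N+1))
        (g := fun t => t / L - (s / L + 1))]
      · refine sum_congr rfl fun j _ => ?_
        refine sum_congr ?_ fun _ _ => rfl
        ext t
        simp only [mem_filter, mem_Ioc]
        constructor
        · rintro ⟨⟨h4, h5⟩, h6⟩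
          have : s / L + 1 ≤ t / L := by
            calc s / L + 1 = (s + L) / L := by rw [Nat.add_div_right _ hL]
              _ ≤ t / L := Nat.div_le_div_right (by omega)
          refine ⟨h4, ?_, h5⟩
          omega
        · rintro ⟨h4, h5, h6⟩
          refine ⟨⟨h4, h6⟩, ?_⟩
          omega
      · intro t ht
        simp only [mem_filter, mem_Ioc, mem_range] at *
        have : t / L ≤ t := Nat.div_le_self _ _
        exact lt_of_le_of_lt (Nat.sub_le _ _) (by omega)
    change gd (ren (kA K L e)) (kD K L e) N (fun t => Zk K L N e k t) x = _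
    unfold gd
    rw [sum_congr rfl h2]
    have h5 : ∑ s ∈ Icc x N, ∑ j ∈ range (N+1),
        ∑ t ∈ (Ioc s N).filter (fun t => t / L = s / L + 1 + j ∧ L < t - s),
            ren (kA K L e) x s * kD K L e s t * Zk K L N e k t
        = ∑ i ∈ range (N + 1), ∑ s ∈ (Icc x N).filter (fun s => s / L = x / L + i),
          ∑ j ∈ range (N+1),
          ∑ t ∈ (Ioc s N).filter (fun t => t / L = s / L + 1 + j ∧ L < t - s),
            ren (kA K L e) x s * kD K L e s t * Zk K L N e k t := by
      rw [← sum_fiberwise_of_maps_to (s := Icc x N) (t := range (N+1))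
        (g := fun s => s / L - x / L)]
      · refine sum_congr rfl fun i _ => ?_
        refine sum_congr ?_ fun _ _ => rfl
        ext s
        simp only [mem_filter, mem_Icc]
        constructor
        · rintro ⟨h4, h5⟩
          have : x / L ≤ s / L := Nat.div_le_div_right h4.1
          exact ⟨h4, by omega⟩
        · rintro ⟨h4, h5⟩
          exact ⟨h4, by omega⟩
      · intro s hs
        simp only [mem_Icc, mem_range] at *
        have : s / L ≤ s := Nat.div_le_self _ _
        exact lt_of_le_of_lt (Nat.sub_le _ _) (by omega)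
    rw [h5]
    exact sum_congr rfl fun i _ => sum_comm
  have h6 : ∀ x ∈ blk L N q0, f x e * Zk K L N e (k+1) x
      = ∑ i ∈ range (N + 1), ∑ j ∈ range (N + 1),
        ∑ s ∈ (Icc x N).filter (fun s => s / L = x / L + i),
          ∑ t ∈ (Ioc s N).filter (fun t => t / L = s / L + 1 + j ∧ L < t - s),
            f x e * (ren (kA K L e) x s * kD K L e s t * Zk K L N e k t) := by
    intro x _
    rw [h1 x]
    simp only [mul_sum]
  rw [sum_congr rfl h6, sum_comm]
  refine sum_congr rfl fun i _ => ?_
  rw [sum_comm]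
  refine sum_congr rfl fun j _ => ?_
  rw [mul_sum]
  -- now the grouping over `t`
  unfold Fn
  simp only [sum_mul, mul_sum]
  rw [sum_comm]
  refine sum_congr rfl fun x hx => ?_
  rw [sum_comm]
  refine sum_congr rfl fun s hs => ?_
  have hsub : (Ioc s N).filter (fun t => t / L = s / L + 1 + j ∧ L < t - s)
      ⊆ blk L N (q0 + i + 1 + j) := by
    intro t ht
    simp only [blk, mem_filter, mem_Ioc, mem_range, mem_Icc] at *
    omega
  rw [← sum_subset hsub]
  · refine sum_congr rfl fun t ht => ?_
    rw [if_pos ht]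
    simp only [blk, mem_filter, mem_Ioc, mem_range, mem_Icc] at *
    have e1 : s / L = q0 + i := by omega
    have e2 : t / L = q0 + i + 1 + j := by omega
    have e3 : kD K L e s t = K (t - s) / 2 * pI e s t := by
      unfold kD; rw [if_pos ht.2.2]
    have e4 : s ≤ (q0 + i + 1) * L := by
      have := Nat.lt_div_mul_add (a := s) hL
      rw [e1] at this
      nlinarith
    have e5 : (q0 + i + 1 + j) * L ≤ t := by
      have := Nat.div_mul_le_self t L
      rwa [e2] at this
    have e6 : (q0 + i + 1) * L ≤ (q0 + i + 1 + j) * L := Nat.mul_le_mul_right _ (by omega)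
    have e7 : pI e s t = pI e s ((q0+i+1)*L) * (pI e ((q0+i+1)*L) ((q0+i+1+j)*L)
        * pI e ((q0+i+1+j)*L) t) := by
      rw [pI_mul e e6 e5, pI_mul e e4 (e6.trans e5)]
    rw [e3, e1, e2, e7]
    ring
  · intro t _ ht
    rw [if_neg ht]
    simp

lemma MA_Fn (hL : 0 < L) (q0 i j : ℕ) (I : Finset ℕ) (f : ℕ → Env → ℝ≥0∞)
    (hf : ∀ x, MA (range (x + 1) \ I) (f x)) (hI : Disjoint I (Ioc (q0 * L) N)) (t : ℕ) :
    MA (range (t + 1) \ (I ∪ Ioc ((q0 + i + 1) * L) ((q0 + i + 1 + j) * L)))
      (Fn K L N q0 i j f t) := by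
  classical
  unfold Fn
  refine MA.sum _ fun x hx => MA.sum _ fun s hs => ?_
  by_cases ht : t ∈ (Ioc s N).filter (fun t => t / L = s / L + 1 + j ∧ L < t - s)
  · simp only [if_pos ht]
    simp only [blk, mem_filter, mem_Ioc, mem_range, mem_Icc] at *
    have e1 : s / L = q0 + i := by omega
    have e2 : t / L = q0 + i + 1 + j := by omega
    have e4 : s < (q0 + i + 1) * L := by
      have := Nat.lt_div_mul_add (a := s) hL
      rw [e1] at this
      nlinarith
    have e5 : (q0 + i + 1 + j) * L ≤ t := by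
      have := Nat.div_mul_le_self t L
      rwa [e2] at this
    have e6 : (q0 + i + 1) * L ≤ (q0 + i + 1 + j) * L := Nat.mul_le_mul_right _ (by omega)
    have e8 : q0 * L ≤ x := by
      have := Nat.div_mul_le_self x L
      rwa [hx.2] at this
    rw [e1, e2]
    have m1 := (hf x).mul (MA_ren (MA_kA K L) x s) (by
      rw [disjoint_left]; intro w; simp only [mem_sdiff, mem_range, mem_Ioc]; omega)
    have m2 := (MA_pI s ((q0+i+1)*L)).mul (MA_pI ((q0+i+1+j)*L) t) (by
      rw [disjoint_left]; intro w; simp only [mem_Ioc]; omega)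
    have m3 := m1.mul (m2.const_mul (K (t - s) / 2)) (by
      rw [disjoint_left]; intro w
      simp only [mem_sdiff, mem_range, mem_Ioc, mem_union]; omega)
    refine m3.mono ?_
    intro w hw
    have hIw : w ∈ I → ¬ (q0 * L < w ∧ w ≤ N) := fun h1 h2 => by
      have := disjoint_left.1 hI h1
      exact this (mem_Ioc.2 h2)
    simp only [mem_union, mem_sdiff, mem_range, mem_Ioc] at *
    rcases hw with (⟨h1, h2⟩ | h1) | (h1 | h1)
    · refine ⟨by omega, ?_⟩
      rintro (h3 | h3)
      · exact h2 h3
      · omega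
    · refine ⟨by omega, ?_⟩
      rintro (h3 | h3)
      · exact hIw h3 (by omega)
      · omega
    · refine ⟨by omega, ?_⟩
      rintro (h3 | h3)
      · exact hIw h3 (by omega)
      · omega
    · refine ⟨by omega, ?_⟩
      rintro (h3 | h3)
      · exact hIw h3 (by omega)
      · omega
  · simp only [if_neg ht]
    exact MA.zero _

lemma Fn_bound {γ : ℝ} {q r : ℝ≥0∞} {u κ : ℕ → ℝ≥0∞} {H ρ : ℝ≥0∞}
    (hB : Bds K L N γ q r u κ H ρ) (q0 i j : ℕ) (f : ℕ → Env → ℝ≥0∞) :
    ∑ t ∈ blk L N (q0 + i + 1 + j), Fn K L N q0 i j f t (fun _ => q)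
      ≤ (∑ x ∈ blk L N q0, f x (fun _ => q)) * (u i * κ j) := by
  classical
  unfold Fn
  rw [sum_comm, sum_mul]
  refine sum_le_sum fun x hx => ?_
  rw [sum_comm]
  calc ∑ s ∈ (Icc x N).filter (fun s => s / L = x / L + i), ∑ t ∈ blk L N (q0 + i + 1 + j),
        (if t ∈ (Ioc s N).filter (fun t => t / L = s / L + 1 + j ∧ L < t - s) then
          f x (fun _ => q) * ren (kA K L (fun _ => q)) x s * (K (t - s) / 2 *
            (pI (fun _ => q) s ((s / L + 1) * L) * pI (fun _ => q) ((t / L) * L) t)) else 0)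
      ≤ ∑ s ∈ (Icc x N).filter (fun s => s / L = x / L + i),
          f x (fun _ => q) * ren (kA K L (fun _ => q)) x s * κ j := by
        refine sum_le_sum fun s hs => ?_
        rw [← sum_filter]
        calc ∑ t ∈ (blk L N (q0 + i + 1 + j)).filter (fun t => t ∈ (Ioc s N).filter
                (fun t => t / L = s / L + 1 + j ∧ L < t - s)),
              f x (fun _ => q) * ren (kA K L (fun _ => q)) x s * (K (t - s) / 2 *
              (pI (fun _ => q) s ((s / L + 1) * L) * pI (fun _ => q) ((t / L) * L) t))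
            ≤ ∑ t ∈ (Ioc s N).filter (fun t => t / L = s / L + 1 + j ∧ L < t - s),
              f x (fun _ => q) * ren (kA K L (fun _ => q)) x s * (K (t - s) / 2 *
              (q ^ ((s / L + 1) * L - s) * q ^ (t - (t / L) * L))) := by
              simp only [pI_const]
              refine sum_le_sum_of_subset ?_
              intro t ht
              exact (mem_filter.1 ht).2
          _ = f x (fun _ => q) * ren (kA K L (fun _ => q)) x s *
              ∑ t ∈ (Ioc s N).filter (fun t => t / L = s / L + 1 + j ∧ L < t - s),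
                K (t - s) / 2 * (q ^ ((s / L + 1) * L - s) * q ^ (t - (t / L) * L)) := by
              rw [mul_sum]
          _ ≤ _ := by
              gcongr
              exact hB.hk s j
    _ = f x (fun _ => q) * ((∑ s ∈ (Icc x N).filter (fun s => s / L = x / L + i),
          ren (kA K L (fun _ => q)) x s) * κ j) := by
        rw [sum_mul, mul_sum]
        exact sum_congr rfl fun s _ => by ring
    _ ≤ f x (fun _ => q) * (u i * κ j) := by
        gcongr
        exact hB.hu x i

variable {Ω : Type*} [MeasurableSpace Ω] {P : Measure Ω} {e : ℕ → Ω → ℝ≥0∞} {γ : ℝ}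
  {q r : ℝ≥0∞} {u κ : ℕ → ℝ≥0∞} {H ρ : ℝ≥0∞}

theorem claim (hL : 0 < L) (hW : Weights P e γ q r) (hγ : 0 < γ) (hγ1 : γ ≤ 1)
    (hB : Bds K L N γ q r u κ H ρ) (k : ℕ) :
    ∀ (q0 : ℕ) (I : Finset ℕ) (f : ℕ → Env → ℝ≥0∞),
      (∀ x, MA (range (x + 1) \ I) (f x)) → Disjoint I (Ioc (q0 * L) N) →
      ∫⁻ ω, ((∏ j ∈ I, e j ω) * ∑ x ∈ blk L N q0, f x (fun j => e j ω) *
          Zk K L N (fun j => e j ω) k x) ^ γ ∂P
        ≤ r ^ I.card * (∑ x ∈ blk L N q0, f x (fun _ => q)) ^ γ * H ^ γ * ρ ^ k := by
  classical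
  induction k with
  | zero =>
    intro q0 I f hf hI
    have hMA : MA (range (N + 1) \ I) (fun e => ∑ x ∈ blk L N q0, f x e * Zk K L N e 0 x) := by
      refine MA.sum _ fun x hx => ?_
      simp only [blk, mem_filter, mem_range] at hx
      have e8 : q0 * L ≤ x := by
        have := Nat.div_mul_le_self x L
        rwa [hx.2] at this
      refine ((hf x).mul (MA_Zk K L N 0 x) ?_).mono ?_
      · rw [disjoint_left]; intro w; simp only [mem_sdiff, mem_range, mem_Ioc]; omega
      · intro w hw
        have hIw : w ∈ I → ¬ (q0 * L < w ∧ w ≤ N) := fun h1 h2 => by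
          have := disjoint_left.1 hI h1
          exact this (mem_Ioc.2 h2)
        simp only [mem_union, mem_sdiff, mem_range, mem_Ioc] at *
        rcases hw with ⟨h1, h2⟩ | h1
        · exact ⟨by omega, h2⟩
        · exact ⟨by omega, fun h => hIw h (by omega)⟩
    refine (frac_moment hW hγ.le hγ1 hMA disjoint_sdiff).trans ?_
    rw [pow_zero, mul_one, mul_assoc, ← ENNReal.mul_rpow_of_nonneg _ _ hγ.le, sum_mul]
    gcongr with x hx
    simp only [blk, mem_filter, mem_range] at hx
    exact hB.hH x (by omega)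
  | succ k ih =>
    intro q0 I f hf hI
    set Y : ℕ → ℕ → Ω → ℝ≥0∞ := fun i j ω =>
      ((∏ j ∈ I, e j ω) * pI (fun j => e j ω) ((q0 + i + 1) * L) ((q0 + i + 1 + j) * L)) *
        ∑ t ∈ blk L N (q0 + i + 1 + j), Fn K L N q0 i j f t (fun j => e j ω) *
          Zk K L N (fun j => e j ω) k t with hY
    have hYm : ∀ i j, Measurable (Y i j) := by
      intro i j
      have m1 : Measurable (fun ω => ∏ j ∈ I, e j ω) := by
        have := hW.meas
        fun_prop
      have m2 : Measurable (fun ω => pI (fun j => e j ω) ((q0 + i + 1) * L)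
          ((q0 + i + 1 + j) * L)) := (MA_pI _ _).measurable hW.meas
      have m3 : ∀ t, Measurable (fun ω => Fn K L N q0 i j f t (fun j => e j ω)) := fun t =>
        (MA_Fn hL q0 i j I f hf hI t).measurable hW.meas
      have m4 : ∀ t, Measurable (fun ω => Zk K L N (fun j => e j ω) k t) := fun t =>
        (MA_Zk K L N k t).measurable hW.meas
      exact (m1.mul m2).mul (Finset.measurable_sum _ fun t _ => (m3 t).mul (m4 t))
    have hYb : ∀ i j, ∫⁻ ω, (Y i j ω) ^ γ ∂P
        ≤ (r ^ I.card * (∑ x ∈ blk L N q0, f x (fun _ => q)) ^ γ * H ^ γ * ρ ^ k) *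
          ((u i * κ j) ^ γ * r ^ (j * L)) := by
      intro i j
      by_cases hN : (q0 + i + 1 + j) * L ≤ N
      · set J := Ioc ((q0 + i + 1) * L) ((q0 + i + 1 + j) * L) with hJ
        have e6 : (q0 + i + 1) * L ≤ (q0 + i + 1 + j) * L := Nat.mul_le_mul_right _ (by omega)
        have e7 : q0 * L ≤ (q0 + i + 1) * L := Nat.mul_le_mul_right _ (by omega)
        have hIJ : Disjoint I J := by
          refine disjoint_of_subset_right ?_ hI
          intro w; simp only [hJ, mem_Ioc]; omega
        have hd : Disjoint (I ∪ J) (Ioc ((q0 + i + 1 + j) * L) N) := by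
          rw [disjoint_union_left]
          constructor
          · refine disjoint_of_subset_right ?_ hI
            intro w; simp only [mem_Ioc]; omega
          · rw [disjoint_left]; intro w; simp only [hJ, mem_Ioc]; omega
        have h1 := ih (q0 + i + 1 + j) (I ∪ J) (Fn K L N q0 i j f)
          (fun t => MA_Fn hL q0 i j I f hf hI t) hd
        have h2 : ∀ ω, Y i j ω = (∏ j ∈ I ∪ J, e j ω) *
            ∑ t ∈ blk L N (q0 + i + 1 + j), Fn K L N q0 i j f t (fun j => e j ω) *
              Zk K L N (fun j => e j ω) k t := by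
          intro ω
          rw [prod_union hIJ]
          rfl
        simp_rw [h2]
        refine h1.trans ?_
        have hc : (I ∪ J).card = I.card + j * L := by
          rw [card_union_of_disjoint hIJ, hJ, Nat.card_Ioc]
          congr 1
          rw [← Nat.sub_mul]; congr 1; omega
        rw [hc, pow_add]
        have h3 := Fn_bound hB q0 i j f
        calc r ^ I.card * r ^ (j * L) *
              (∑ x ∈ blk L N (q0 + i + 1 + j), Fn K L N q0 i j f x (fun _ => q)) ^ γ
              * H ^ γ * ρ ^ k
            ≤ r ^ I.card * r ^ (j * L) *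
              ((∑ x ∈ blk L N q0, f x (fun _ => q)) * (u i * κ j)) ^ γ
              * H ^ γ * ρ ^ k := by gcongr
          _ = _ := by
              rw [ENNReal.mul_rpow_of_nonneg _ _ hγ.le]; ring
      · have hempty : blk L N (q0 + i + 1 + j) = ∅ := by
          unfold blk
          rw [filter_eq_empty_iff]
          intro t ht h
          rw [mem_range] at ht
          have := Nat.div_mul_le_self t L
          rw [h] at this
          omega
        have : ∀ ω, Y i j ω = 0 := by
          intro ω; rw [hY]; simp only; rw [hempty]; simp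
        simp_rw [this]
        rw [ENNReal.zero_rpow_of_pos hγ]
        simp
    calc ∫⁻ ω, ((∏ j ∈ I, e j ω) * ∑ x ∈ blk L N q0, f x (fun j => e j ω) *
          Zk K L N (fun j => e j ω) (k+1) x) ^ γ ∂P
        = ∫⁻ ω, (∑ i ∈ range (N + 1), ∑ j ∈ range (N + 1), Y i j ω) ^ γ ∂P := by
          refine lintegral_congr fun ω => ?_
          rw [step_identity hL, mul_sum]
          congr 1
          refine sum_congr rfl fun i _ => ?_
          rw [mul_sum]
          refine sum_congr rfl fun j _ => ?_
          rw [hY]; simp only; ring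
      _ ≤ ∫⁻ ω, ∑ i ∈ range (N + 1), ∑ j ∈ range (N + 1), (Y i j ω) ^ γ ∂P := by
          refine lintegral_mono fun ω => ?_
          refine (rpow_sum_le _ _ hγ hγ1).trans ?_
          exact sum_le_sum fun i _ => rpow_sum_le _ _ hγ hγ1
      _ = ∑ i ∈ range (N + 1), ∑ j ∈ range (N + 1), ∫⁻ ω, (Y i j ω) ^ γ ∂P := by
          rw [lintegral_finsetSum]
          · refine sum_congr rfl fun i _ => ?_
            rw [lintegral_finsetSum]
            intro j _
            exact (hYm i j).pow_const γ
          · intro i _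
            exact Finset.measurable_sum _ fun j _ => (hYm i j).pow_const γ
      _ ≤ ∑ i ∈ range (N + 1), ∑ j ∈ range (N + 1),
          (r ^ I.card * (∑ x ∈ blk L N q0, f x (fun _ => q)) ^ γ * H ^ γ * ρ ^ k) *
          ((u i * κ j) ^ γ * r ^ (j * L)) :=
          sum_le_sum fun i _ => sum_le_sum fun j _ => hYb i j
      _ = (r ^ I.card * (∑ x ∈ blk L N q0, f x (fun _ => q)) ^ γ * H ^ γ * ρ ^ k) *
          ∑ i ∈ range (N + 1), ∑ j ∈ range (N + 1), (u i * κ j) ^ γ * r ^ (j * L) := by
          simp only [mul_sum]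
      _ ≤ (r ^ I.card * (∑ x ∈ blk L N q0, f x (fun _ => q)) ^ γ * H ^ γ * ρ ^ k) * ρ := by
          gcongr
          exact hB.hρ
      _ = _ := by rw [pow_succ]; ring

end Pool.Agent.Cop

end
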