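import Mathlib
import Pool.Agent.Work.MP_cceb86_pr.Claim

/-!
Definitions for the sharp lower bound on the slope of the copolymer.
-/

open Finset MeasureTheory ProbabilityTheory
open scoped ENNReal

noncomputable section

namespace Pool.Agent.Cop

/-- good sites of `[a,d)`: those at distance at least `d0` from the right end of their block of
length `ℓ0`. -/
def gs (ℓ0 d0 a d : ℕ) : Finset ℕ := (Ico a d).filter (fun x => x % ℓ0 + d0 ≤ ℓ0)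

/-- total weight of the pairs `x ≤ y`, `x ∈ S1`, `y ∈ S2`. -/
def Y2 (T : ℕ → ℕ → ℝ≥0∞) (S1 S2 : Finset ℕ) : ℝ≥0∞ :=
  ∑ x ∈ S1, ∑ y ∈ S2, if x ≤ y then T x y else 0

/-- normalized fractional power of the weight of the `k`-th block of length `ℓ`. -/
def VV (T : ℕ → ℕ → ℝ≥0∞) (ℓ0 d0 : ℕ) (cs γ : ℝ) (ℓ k : ℕ) : ℝ≥0∞ :=
  (ENNReal.ofReal cs * Y2 T (gs ℓ0 d0 (k * ℓ) ((k + 1) * ℓ)) (gs ℓ0 d0 (k * ℓ) ((k + 1) * ℓ))) ^ γ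
    / (ℓ : ℝ≥0∞)

/-- the same for the first `B` blocks of length `ℓ` together, still normalized by `ℓ`. -/
def VB (T : ℕ → ℕ → ℝ≥0∞) (ℓ0 d0 : ℕ) (cs γ : ℝ) (ℓ B : ℕ) : ℝ≥0∞ :=
  (ENNReal.ofReal cs * Y2 T (gs ℓ0 d0 0 (B * ℓ)) (gs ℓ0 d0 0 (B * ℓ))) ^ γ / (ℓ : ℝ≥0∞)

/-- level data: i.i.d. pairs (value, label), one for each block, the value being dominated by the
block variable `V k`; label `s ≥ 1` means value `≥ n ^ s`. -/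
def LevP {Ω : Type*} [MeasurableSpace Ω] (Q : Measure Ω) (n : ℕ) (V : ℕ → Ω → ℝ≥0∞) (R : ℝ)
    (a : ℕ → ℝ) (Ab : ℝ) : Prop :=
  ∃ X : ℕ → Ω → ℝ≥0∞ × ℕ, (∀ k, Measurable (X k)) ∧ iIndepFun X Q ∧
    (∀ k, IdentDistrib (X k) (X 0) Q Q) ∧ (∀ k ω, (X k ω).1 ≤ V k ω) ∧
    (∀ k ω, 1 ≤ (X k ω).2 → (n : ℝ≥0∞) ^ (X k ω).2 ≤ (X k ω).1) ∧
    (∀ k ω, (X k ω).1 ≤ ENNReal.ofReal (Real.exp R)) ∧
    (∀ s, 2 ≤ s → ENNReal.ofReal (a s) ≤ ∫⁻ ω in {ω | (X 0 ω).2 = s}, (X 0 ω).1 ∂Q) ∧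
    ∫⁻ ω in {ω | 2 ≤ (X 0 ω).2}, (X 0 ω).1 ∂Q ≤ ENNReal.ofReal Ab

/-- deterministic data of a base block of `ℓ0` sites, cells of length `L`. A pair `(p,j)` stands
for a long down excursion from cell `p` to cell `p + 1 + j`. -/
structure BaseDet (Kk : ℕ → ℝ≥0∞) (ℓ0 d0 L : ℕ) (F : Finset (ℕ × ℕ)) (W : ℕ → ℝ)
    (φ : ℕ × ℕ → ℕ → ℝ) : Prop where
  nn : ∀ p ∈ F, ∀ i, 0 ≤ φ p i
  le1 : ∀ p ∈ F, ∀ i, φ p i ≤ 1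
  supp : ∀ p ∈ F, ∀ i, φ p i ≠ 0 → 0 < i ∧ i < ℓ0
  one : ∀ p ∈ F, ∀ i ∈ Ioc ((p.1 + 1) * L) ((p.1 + 1 + p.2) * L), φ p i = 1
  out : ∀ p ∈ F, ∑ i ∈ range ℓ0 \ Ioc (p.1 * L) ((p.1 + 2 + p.2) * L), φ p i ≤ L
  low : ∀ H : ℕ → ℝ, ∑ p ∈ F, ENNReal.ofReal (W p.2 * Real.exp (∑ i ∈ range ℓ0, φ p i * H i))
    ≤ Y2 (ren (kT Kk (fun i => ENNReal.ofReal (Real.exp (H i))))) (gs ℓ0 d0 0 ℓ0) (gs ℓ0 d0 0 ℓ0)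

end Pool.Agent.Cop

end
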