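import Mathlib

/-!
Elementary sums and numerical estimates.
-/

open Finset Real Filter Topology

noncomputable section

namespace Pool.Agent.Cop

/-- telescoping bound for `n^{-1-ζ}` -/
lemma tel_zeta {ζ : ℝ} (hζ : 0 < ζ) (hζ1 : ζ ≤ 1) {n : ℕ} (hn : 0 < n) :
    ((n + 1 : ℕ) : ℝ) ^ (-(1 + ζ)) ≤ ((n : ℝ) ^ (-ζ) - ((n + 1 : ℕ) : ℝ) ^ (-ζ)) / ζ := by
  have hn1 : (0 : ℝ) < n := by exact_mod_cast hn
  set m : ℝ := ((n + 1 : ℕ) : ℝ) with hm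
  have hm0 : 0 < m := by rw [hm]; positivity
  have hm1 : m = n + 1 := by rw [hm]; push_cast; ring
  have hm2 : 1 < m := by rw [hm1]; linarith
  have h1 : (1 + (-1 / m)) ^ ζ ≤ 1 + ζ * (-1 / m) := by
    refine rpow_one_add_le_one_add_mul_self ?_ hζ.le hζ1
    rw [le_div_iff₀ hm0]; linarith
  have hpos : 0 < 1 + (-1 / m) := by
    have : (-1 / m) > -1 := by rw [gt_iff_lt, lt_div_iff₀ hm0]; linarith
    linarith
  have h2 : (n : ℝ) = m * (1 + (-1 / m)) := by rw [hm1]; field_simp; ring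
  have h3 : (n : ℝ) ^ (-ζ) = m ^ (-ζ) * ((1 + (-1 / m)) ^ ζ)⁻¹ := by
    rw [h2, Real.mul_rpow hm0.le hpos.le, Real.rpow_neg hpos.le]
  have h4 : 1 + ζ * (1 / m) ≤ ((1 + (-1 / m)) ^ ζ)⁻¹ := by
    have h5 : 0 < (1 + (-1 / m)) ^ ζ := Real.rpow_pos_of_pos hpos _
    rw [← one_div, le_div_iff₀ h5]
    have h6 : 0 ≤ 1 + ζ * (1 / m) := by positivity
    calc (1 + ζ * (1 / m)) * (1 + -1 / m) ^ ζ ≤ (1 + ζ * (1 / m)) * (1 + ζ * (-1 / m)) := by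
          gcongr
      _ = 1 - (ζ * (1 / m)) ^ 2 := by ring
      _ ≤ 1 := by nlinarith [sq_nonneg (ζ * (1 / m))]
  have h7 : m ^ (-(1 + ζ)) = m ^ (-ζ) / m := by
    rw [eq_div_iff hm0.ne', ← Real.rpow_add_one hm0.ne']
    congr 1; ring
  have hp : 0 < m ^ (-ζ) := Real.rpow_pos_of_pos hm0 _
  rw [h7, h3, le_div_iff₀ hζ]
  have h8 : m ^ (-ζ) * (ζ * (1 / m)) ≤ m ^ (-ζ) * (((1 + (-1 / m)) ^ ζ)⁻¹ - 1) := by
    gcongr; linarith
  calc m ^ (-ζ) / m * ζ = m ^ (-ζ) * (ζ * (1 / m)) := by ring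
    _ ≤ _ := h8
    _ = _ := by ring

lemma sum_zeta {ζ : ℝ} (hζ : 0 < ζ) (hζ1 : ζ ≤ 1) (N : ℕ) :
    ∑ i ∈ range N, ((i + 1 : ℕ) : ℝ) ^ (-(1 + ζ)) ≤ 1 + 1 / ζ := by
  have h : ∀ N : ℕ, ∑ i ∈ range (N + 1), ((i + 1 : ℕ) : ℝ) ^ (-(1 + ζ))
      ≤ 1 + 1 / ζ * (1 - ((N + 1 : ℕ) : ℝ) ^ (-ζ)) := by
    intro N
    induction N with
    | zero => simp
    | succ N ih =>
      rw [sum_range_succ]
      have h1 := tel_zeta hζ hζ1 (n := N + 1) (by omega)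
      have h2 : 1 / ζ * (1 - ((N + 1 + 1 : ℕ) : ℝ) ^ (-ζ))
          = 1 / ζ * (1 - ((N + 1 : ℕ) : ℝ) ^ (-ζ))
            + (((N + 1 : ℕ) : ℝ) ^ (-ζ) - ((N + 1 + 1 : ℕ) : ℝ) ^ (-ζ)) / ζ := by ring
      linarith
  rcases N with _ | N
  · simp; positivity
  · refine (h N).trans ?_
    have h1 : 0 ≤ ((N + 1 : ℕ) : ℝ) ^ (-ζ) := by positivity
    have h2 : 0 ≤ 1 / ζ := by positivity
    nlinarith

lemma sum_log {x : ℝ} (hx0 : 0 ≤ x) (hx1 : x < 1) (N : ℕ) :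
    ∑ j ∈ range N, x ^ (j + 1) / ((j : ℝ) + 1) ≤ -Real.log (1 - x) := by
  have h := Real.hasSum_pow_div_log_of_abs_lt_one (x := x) (by rw [abs_of_nonneg hx0]; exact hx1)
  exact sum_le_hasSum (range N) (fun n _ => by positivity) h

lemma neg_log_bound {α θ : ℝ} (hα : 0 < α) (hα1 : α ≤ 1) (hθ : α ^ 2 / 2 ≤ θ) :
    1 - Real.log (1 - Real.exp (-θ)) ≤ 3 * (1 + Real.log (1 / α)) := by
  have h0 : 0 < α ^ 2 := by positivity
  have h1 : Real.exp (-θ) ≤ 1 - α ^ 2 / 4 := by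
    have h2 : Real.exp (-θ) ≤ Real.exp (-(α ^ 2 / 2)) := Real.exp_le_exp.2 (by linarith)
    have hx : |(-(α ^ 2 / 2))| ≤ 1 := by
      rw [abs_neg, abs_of_pos (by positivity)]; nlinarith
    have h3 := (abs_le.1 (Real.abs_exp_sub_one_sub_id_le hx)).2
    have h4 : α ^ 2 ≤ 1 := by nlinarith
    have h5 : (-(α ^ 2 / 2)) ^ 2 ≤ α ^ 2 / 4 := by
      have : (-(α ^ 2 / 2)) ^ 2 = α ^ 2 * α ^ 2 / 4 := by ring
      rw [this]; nlinarith
    linarith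
  have h2 : α ^ 2 / 4 ≤ 1 - Real.exp (-θ) := by linarith
  have h3 : Real.log (α ^ 2 / 4) ≤ Real.log (1 - Real.exp (-θ)) :=
    Real.log_le_log (by positivity) h2
  have h4 : Real.log (α ^ 2 / 4) = 2 * Real.log α - 2 * Real.log 2 := by
    rw [Real.log_div (by positivity) (by norm_num), Real.log_pow,
      show (4 : ℝ) = 2 ^ 2 by norm_num, Real.log_pow]
    push_cast; ring
  have h5 : Real.log (1 / α) = -Real.log α := by rw [one_div, Real.log_inv]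
  have h6 : Real.log α ≤ 0 := Real.log_nonpos hα.le hα1
  have h7 := Real.log_two_lt_d9
  rw [h5]
  linarith

/-- `α^{-α} ≤ 3/2` -/
lemma rpow_neg_self {α : ℝ} (hα : 0 < α) : α ^ (-α) ≤ 3 / 2 := by
  have h1 : α ^ (-α) = Real.exp (-(α * Real.log α)) := by
    rw [Real.rpow_def_of_pos hα]; congr 1; ring
  -- -α log α ≤ 1/e ≤ 2/5
  have h2 : -(α * Real.log α) ≤ 2 / 5 := by
    have h3 := Real.add_one_le_exp (-(Real.log α) - 1)
    have h4 : Real.exp (-(Real.log α) - 1) = α⁻¹ * Real.exp (-1) := by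
      rw [sub_eq_add_neg, Real.exp_add, Real.exp_neg, Real.exp_log hα]
    have h5 : Real.exp (-1) ≤ 2 / 5 := by
      have := Real.exp_neg_one_lt_d9
      linarith
    have h6 : -(Real.log α) ≤ α⁻¹ * Real.exp (-1) := by linarith
    calc -(α * Real.log α) = α * (-(Real.log α)) := by ring
      _ ≤ α * (α⁻¹ * Real.exp (-1)) := by gcongr
      _ = Real.exp (-1) := by field_simp
      _ ≤ 2 / 5 := h5
  rw [h1]
  have h3 : Real.exp (2 / 5) ≤ 3 / 2 := by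
    have h4 : Real.exp (2 / 5) ^ 5 ≤ (3 / 2 : ℝ) ^ 5 := by
      rw [← Real.exp_nat_mul]
      have h5 : Real.exp ((5 : ℕ) * (2 / 5)) = Real.exp 1 * Real.exp 1 := by
        rw [← Real.exp_add]; congr 1; norm_num
      rw [h5]
      have h6 := Real.exp_one_lt_d9
      have h7 := Real.exp_pos 1
      nlinarith
    exact le_of_pow_le_pow_left₀ (by norm_num) (by norm_num) h4
  exact (Real.exp_le_exp.2 h2).trans h3

lemma pow_gamma_le {α γ x y : ℝ} (hα : 0 < α) (_hα1 : α ≤ 1) (hγ : 1 - α ≤ γ)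
    (hx : 0 < x) (hx1 : x ≤ 1) (hy : 0 < y) (hyx : y ≤ x) : x ^ γ ≤ x * y ^ (-α) := by
  calc x ^ γ ≤ x ^ (1 - α) := Real.rpow_le_rpow_of_exponent_ge hx hx1 hγ
    _ = x * x ^ (-α) := by
        rw [mul_comm, ← Real.rpow_add_one hx.ne']; congr 1; ring
    _ ≤ x * y ^ (-α) := by
        have : x ^ (-α) ≤ y ^ (-α) := Real.rpow_le_rpow_of_nonpos hy hyx (by linarith)
        gcongr

lemma g1 {α γ : ℝ} (hα : 0 < α) (hα1 : α ≤ 1 / 4200) (hγ : 1 - α ≤ γ) :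
    (33 / 10 * α) ^ γ ≤ 5 * α := by
  have h := pow_gamma_le (x := 33 / 10 * α) (y := α) hα (by linarith) hγ (by positivity)
    (by linarith) hα (by linarith)
  have h2 := rpow_neg_self hα
  calc (33 / 10 * α) ^ γ ≤ 33 / 10 * α * α ^ (-α) := h
    _ ≤ 33 / 10 * α * (3 / 2) := by gcongr
    _ ≤ 5 * α := by linarith

lemma g2 {α γ : ℝ} (hα : 0 < α) (hα1 : α ≤ 1 / 4200) (hγ : 1 - α ≤ γ) :
    (330 * α ^ 2) ^ γ ≤ 750 * α ^ 2 := by
  have h := pow_gamma_le (x := 330 * α ^ 2) (y := α ^ 2) hα (by linarith) hγ (by positivity)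
    (by nlinarith) (by positivity) (by nlinarith [sq_nonneg α])
  have h2 := rpow_neg_self hα
  have h3 : 0 < α ^ (-α) := Real.rpow_pos_of_pos hα _
  have h4 : (α ^ 2) ^ (-α) = α ^ (-α) * α ^ (-α) := by
    rw [sq, Real.mul_rpow hα.le hα.le]
  calc (330 * α ^ 2) ^ γ ≤ 330 * α ^ 2 * (α ^ 2) ^ (-α) := h
    _ ≤ 330 * α ^ 2 * (3 / 2 * (3 / 2)) := by rw [h4]; gcongr
    _ ≤ 750 * α ^ 2 := by nlinarith [sq_nonneg α]

/-- the final numerical estimate -/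
lemma rho_small {α ℓ ζ θ : ℝ} (hα : 0 < α) (hℓ : ℓ = 1 + Real.log (1 / α))
    (hℓ1 : 4500 * α * ℓ ≤ 1) (hζ : ζ = 4500 * α ^ 2 * ℓ) (hα1 : α ≤ 1 / 4200)
    (hθ : α ^ 2 / 2 ≤ θ) :
    (10 * α + 750 * α ^ 2 * (1 + 1 / ζ)) * (1 - Real.log (1 - Real.exp (-θ))) ≤ 3 / 4 := by
  have h1 := neg_log_bound hα (by linarith) hθ
  rw [← hℓ] at h1
  have hlog : 0 ≤ Real.log (1 / α) := by
    apply Real.log_nonneg
    rw [le_div_iff₀ hα]; linarith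
  have hℓ2 : 1 ≤ ℓ := by rw [hℓ]; linarith
  have hζ0 : 0 < ζ := by rw [hζ]; positivity
  calc (10 * α + 750 * α ^ 2 * (1 + 1 / ζ)) * (1 - Real.log (1 - Real.exp (-θ)))
      ≤ (10 * α + 750 * α ^ 2 * (1 + 1 / ζ)) * (3 * ℓ) := by gcongr
    _ = 30 * (α * ℓ) + 2250 * α * (α * ℓ) + 1 / 2 := by
        rw [hζ]; field_simp; ring
    _ ≤ 3 / 4 := by nlinarith

end Pool.Agent.Cop

end
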