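import Mathlib

/-!
Definitions of the copolymer model used in the statements.
-/

open Finset MeasureTheory ProbabilityTheory Filter Topology

noncomputable section

namespace Pool.Agent.Cop

/-- Inter-arrival laws `K` on `{1,2,...}` with `∑ K(n) = 1` and `K(n) ~ c n^{-(1+α)}`. -/
structure IsLaw (α c : ℝ) (K : ℕ → ℝ) : Prop where
  nonneg : ∀ n, 0 ≤ K n
  zero : K 0 = 0
  sum : HasSum K 1
  tail : Tendsto (fun n : ℕ => K n * (n : ℝ) ^ (1 + α)) atTop (𝓝 c)

section Path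

variable {Ω : Type*} [MeasurableSpace Ω]

/-- `xi`, `eps` are the lengths and the signs of the excursions of the renewal process with
inter-arrival law `K`, with fair signs (`true` for an excursion below the interface), everything
independent. -/
structure IsModel (P : Measure Ω) (K : ℕ → ℝ) (xi : ℕ → Ω → ℕ) (eps : ℕ → Ω → Bool) : Prop where
  meas_xi : ∀ j, Measurable (xi j)
  meas_eps : ∀ j, Measurable (eps j)
  indep : iIndepFun (fun j ω => (xi j ω, eps j ω)) P
  law : ∀ j n b, P {ω | xi j ω = n ∧ eps j ω = b} = ENNReal.ofReal (K n / 2)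

/-- the renewal points -/
def tau (xi : ℕ → Ω → ℕ) (k : ℕ) (ω : Ω) : ℕ := ∑ i ∈ range k, xi i ω

/-- the monomer `n` is below the interface: it lies in an excursion `(τ_j, τ_{j+1}]` with sign
`true`. -/
def Below (xi : ℕ → Ω → ℕ) (eps : ℕ → Ω → Bool) (n : ℕ) (ω : Ω) : Prop :=
  ∃ j, tau xi j ω < n ∧ n ≤ tau xi (j + 1) ω ∧ eps j ω = true

open Classical in
/-- `Δ_n`, the indicator of the monomer `n` being below the interface. -/
def Delta (xi : ℕ → Ω → ℕ) (eps : ℕ → Ω → Bool) (n : ℕ) (ω : Ω) : ℝ :=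
  if Below xi eps n ω then 1 else 0

/-- the partition function `Z_{N,w} = E[exp(-2 λ ∑_{n=1}^N Δ_n (w_n + h))]` of the copolymer of
length `N` with charges `w`. -/
def Zpart (P : Measure Ω) (xi : ℕ → Ω → ℕ) (eps : ℕ → Ω → Bool) (lam h : ℝ) (w : ℕ → ℝ)
    (N : ℕ) : ℝ :=
  ∫ ω, Real.exp (-2 * lam * ∑ n ∈ Icc 1 N, Delta xi eps n ω * (w n + h)) ∂P

end Path

/-- i.i.d. charges, centred, of variance one, with all exponential moments. -/
structure IsDisorder {Ω : Type*} [MeasurableSpace Ω] (Q : Measure Ω) (w : ℕ → Ω → ℝ) : Prop where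
  meas : ∀ n, Measurable (w n)
  indep : iIndepFun w Q
  ident : ∀ n, IdentDistrib (w n) (w 0) Q Q
  mean : ∫ x, w 0 x ∂Q = 0
  var : ∫ x, (w 0 x) ^ 2 ∂Q = 1
  expInt : ∀ t : ℝ, Integrable (fun x => Real.exp (t * w 0 x)) Q

section Free

variable {Ω Ω' : Type*} [MeasurableSpace Ω] [MeasurableSpace Ω']

/-- the finite volume quenched free energy `(1/N) E log Z_{N,w}` -/
def freeN (P : Measure Ω) (xi : ℕ → Ω → ℕ) (eps : ℕ → Ω → Bool) (Q : Measure Ω')
    (w : ℕ → Ω' → ℝ) (lam h : ℝ) (N : ℕ) : ℝ :=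
  (1 / (N : ℝ)) * ∫ x, Real.log (Zpart P xi eps lam h (fun n => w n x) N) ∂Q

/-- the quenched free energy `F(λ,h)`, the limit of `freeN` as `N → ∞` (written as a limsup, which
is the limit whenever the limit exists). -/
def freeEnergy (P : Measure Ω) (xi : ℕ → Ω → ℕ) (eps : ℕ → Ω → Bool) (Q : Measure Ω')
    (w : ℕ → Ω' → ℝ) (lam h : ℝ) : ℝ :=
  limsup (fun N : ℕ => freeN P xi eps Q w lam h N) atTop

/-- the critical curve `h_c(λ) = sup {h : F(λ,h) > 0}`. -/
def hcrit (P : Measure Ω) (xi : ℕ → Ω → ℕ) (eps : ℕ → Ω → Bool) (Q : Measure Ω')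
    (w : ℕ → Ω' → ℝ) (lam : ℝ) : ℝ :=
  sSup {h : ℝ | 0 < freeEnergy P xi eps Q w lam h}

end Free

end Pool.Agent.Cop

end
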