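import Mathlib
import Pool.Agent.Work.MP_cceb86_pr.Ren

/-!
Bounds for the renewal function of a killed, heavy tailed renewal process.
-/

open Finset

noncomputable section

namespace Pool.Agent.Cop

/-- the translation invariant kernel -/
def hom {R : Type*} (κ : ℕ → R) (x y : ℕ) : R := κ (y - x)

lemma ren_hom_shift {R : Type*} [CommSemiring R] (κ : ℕ → R) (x y s : ℕ) :
    ren (hom κ) (x + s) (y + s) = ren (hom κ) x y := by
  induction y using Nat.strong_induction_on with
  | _ y ih =>
    rcases lt_trichotomy x y with h | h | h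
    · rw [ren_right _ h, ren_right _ (by omega : x + s < y + s)]
      rw [← Finset.sum_Ico_add']
      refine sum_congr rfl fun z hz => ?_
      rw [mem_Ico] at hz
      rw [ih z hz.2]
      congr 1
      unfold hom
      congr 1
      omega
    · subst h; simp [ren_self]
    · rw [ren_of_gt _ h, ren_of_gt _ (by omega)]

/-- the renewal function -/
def rf {R : Type*} [CommSemiring R] (κ : ℕ → R) (n : ℕ) : R := ren (hom κ) 0 n

lemma ren_hom {R : Type*} [CommSemiring R] (κ : ℕ → R) {x y : ℕ} (h : x ≤ y) :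
    ren (hom κ) x y = rf κ (y - x) := by
  have := ren_hom_shift κ 0 (y - x) x
  rw [zero_add, Nat.sub_add_cancel h] at this
  exact this

lemma rf_zero {R : Type*} [CommSemiring R] (κ : ℕ → R) : rf κ 0 = 1 := ren_self _ _

lemma rf_left {R : Type*} [CommSemiring R] (κ : ℕ → R) {n : ℕ} (h : 0 < n) :
    rf κ n = ∑ z ∈ Ioc 0 n, κ z * rf κ (n - z) := by
  unfold rf
  rw [ren_left _ h]
  refine sum_congr rfl fun z hz => ?_
  rw [mem_Ioc] at hz
  rw [ren_hom κ hz.2]
  rfl

lemma rf_nonneg {κ : ℕ → ℝ} (h : ∀ n, 0 ≤ κ n) (n : ℕ) : 0 ≤ rf κ n :=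
  (ren_mono (a := hom κ) (b := hom κ) (fun _ _ => h _) (fun _ _ => le_rfl) 0 n).1

lemma rf_mono {κ κ' : ℕ → ℝ} (h : ∀ n, 0 ≤ κ n) (h' : ∀ n, κ n ≤ κ' n) (n : ℕ) :
    rf κ n ≤ rf κ' n :=
  (ren_mono (a := hom κ) (b := hom κ') (fun _ _ => h _) (fun _ _ => h' _) 0 n).2

/-- total mass bound -/
lemma rf_total {κ : ℕ → ℝ} (h0 : ∀ n, 0 ≤ κ n) {η : ℝ} (hη : 0 < η)
    (h1 : ∀ M, ∑ n ∈ Ioc 0 M, κ n ≤ 1 - η) (M : ℕ) : ∑ n ∈ range M, rf κ n ≤ 1 / η := by
  have hr := rf_nonneg h0
  rcases Nat.eq_zero_or_pos M with hM | hM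
  · subst hM; simp; positivity
  set S := ∑ n ∈ range M, rf κ n with hS
  have hS0 : 0 ≤ S := sum_nonneg fun n _ => hr n
  have key : S ≤ 1 + (1 - η) * S := by
    calc S = rf κ 0 + ∑ n ∈ Ico 1 M, rf κ n := by
          rw [hS, range_eq_Ico, ← sum_Ico_consecutive _ (Nat.zero_le 1) hM]
          simp
      _ = 1 + ∑ n ∈ Ico 1 M, ∑ z ∈ Ioc 0 n, κ z * rf κ (n - z) := by
          rw [rf_zero]
          congr 1
          refine sum_congr rfl fun n hn => ?_
          rw [mem_Ico] at hn
          exact rf_left κ (by omega)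
      _ = 1 + ∑ z ∈ Ico 1 M, ∑ n ∈ Ico z M, κ z * rf κ (n - z) := by
          congr 1
          refine sum_comm' ?_
          intro n z
          simp only [mem_Ico, mem_Ioc]; omega
      _ ≤ 1 + ∑ z ∈ Ico 1 M, κ z * S := by
          gcongr with z hz
          rw [← mul_sum]
          refine mul_le_mul_of_nonneg_left ?_ (h0 z)
          rw [sum_Ico_eq_sum_range]
          calc ∑ i ∈ range (M - z), rf κ (z + i - z) = ∑ i ∈ range (M - z), rf κ i := by
                refine sum_congr rfl fun i _ => ?_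
                congr 1; omega
            _ ≤ S := sum_le_sum_of_subset_of_nonneg
                (range_subset_range.2 (Nat.sub_le _ _)) (fun i _ _ => hr i)
      _ ≤ 1 + (1 - η) * S := by
          rw [← sum_mul]
          have : ∑ z ∈ Ico 1 M, κ z ≤ 1 - η := by
            have := h1 (M - 1)
            have e : Ioc 0 (M - 1) = Ico 1 M := by
              ext z; simp only [mem_Ioc, mem_Ico]; omega
            rwa [e] at this
          gcongr
  rw [le_div_iff₀ hη]
  nlinarith

/-- windows reached by small jumps only -/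
lemma small_window {κ : ℕ → ℝ} (h0 : ∀ n, 0 ≤ κ n) {η μ Mx : ℝ} (hη : 0 < η)
    (h1 : ∀ M, ∑ n ∈ Ioc 0 M, κ n ≤ 1 - η) {R T₀ x₀ L : ℕ} (hR : ∀ n, R < n → κ n = 0)
    (hμ : ∑ z ∈ Ioc 0 R, (z : ℝ) * κ z ≤ μ) (hT : 0 < T₀) (hTR : T₀ + R ≤ x₀)
    (hMx : 0 ≤ Mx)
    (hw : ∀ z, T₀ ≤ z → z < T₀ + R → ∑ x ∈ Ico x₀ (x₀ + L), rf κ (x - z) ≤ Mx) :
    ∑ x ∈ Ico x₀ (x₀ + L), rf κ x ≤ Mx * (μ / η) / T₀ := by
  have hT' : (0 : ℝ) < T₀ := by exact_mod_cast hT
  have hμ0 : 0 ≤ μ := le_trans (sum_nonneg fun z _ => mul_nonneg (Nat.cast_nonneg _) (h0 z)) hμ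
  set c := μ / η with hc
  have hc0 : 0 ≤ c := by positivity
  set GI : ℕ → ℝ := fun y => ∑ x ∈ Ico x₀ (x₀ + L), rf κ (x - y) with hGI
  have claim : ∀ d, ∀ y, y + d = T₀ + R → 1 ≤ d → GI y ≤ Mx * (y + c) / T₀ := by
    intro d
    induction d using Nat.strong_induction_on with
    | _ d ih =>
      intro y hy hd
      by_cases hyT : T₀ ≤ y
      · calc GI y ≤ Mx := hw y hyT (by omega)
          _ = Mx * T₀ / T₀ := by field_simp
          _ ≤ Mx * (y + c) / T₀ := by
              have : (T₀ : ℝ) ≤ y := by exact_mod_cast hyT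
              gcongr
              linarith
      · have hyT : y < T₀ := by omega
        have e1 : GI y = ∑ z ∈ Ioc 0 R, κ z * GI (y + z) := by
          simp only [hGI, mul_sum]
          rw [sum_comm]
          refine sum_congr rfl fun x hx => ?_
          rw [mem_Ico] at hx
          rw [rf_left κ (by omega : 0 < x - y)]
          rw [← sum_subset (s₁ := Ioc 0 R) (s₂ := Ioc 0 (x - y))]
          · refine sum_congr rfl fun z _ => ?_
            rw [Nat.sub_sub]
          · intro z; simp only [mem_Ioc]; omega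
          · intro z hz hz'
            simp only [mem_Ioc, not_and, not_le] at hz hz'
            rw [hR z (hz' hz.1), zero_mul]
        rw [e1]
        calc ∑ z ∈ Ioc 0 R, κ z * GI (y + z)
            ≤ ∑ z ∈ Ioc 0 R, κ z * (Mx * ((y + z : ℕ) + c) / T₀) := by
              refine sum_le_sum fun z hz => ?_
              rw [mem_Ioc] at hz
              refine mul_le_mul_of_nonneg_left ?_ (h0 z)
              exact ih (d - z) (by omega) (y + z) (by omega) (by omega)
          _ = Mx / T₀ * ((y + c) * ∑ z ∈ Ioc 0 R, κ z + ∑ z ∈ Ioc 0 R, (z : ℝ) * κ z) := by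
              rw [mul_sum, ← sum_add_distrib, mul_sum]
              refine sum_congr rfl fun z _ => ?_
              push_cast
              field_simp
              ring
          _ ≤ Mx / T₀ * ((y + c) * (1 - η) + μ) := by
              have := h1 R
              gcongr
          _ ≤ Mx / T₀ * (y + c) := by
              have h5 : μ = η * c := by rw [hc]; field_simp
              have h6 : ((y : ℝ) + c) * (1 - η) + μ ≤ y + c := by
                rw [h5]
                nlinarith [mul_nonneg hη.le (Nat.cast_nonneg (α := ℝ) y)]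
              exact mul_le_mul_of_nonneg_left h6 (by positivity)
          _ = Mx * (y + c) / T₀ := by ring
  have h := claim (T₀ + R) 0 (by omega) (by omega)
  simp only [hGI, Nat.sub_zero, Nat.cast_zero, zero_add] at h
  exact h

/-- windows: the contribution of the big jumps -/
lemma big_window {κ : ℕ → ℝ} (h0 : ∀ n, 0 ≤ κ n) {η b : ℝ} (hη : 0 < η)
    (h1 : ∀ M, ∑ n ∈ Ioc 0 M, κ n ≤ 1 - η) {R : ℕ} (hb : 0 ≤ b) (hR : ∀ n, R < n → κ n ≤ b)
    (x₀ L : ℕ) :
    ∑ x ∈ Ico x₀ (x₀ + L), rf κ x
      ≤ ∑ x ∈ Ico x₀ (x₀ + L), rf (fun n => if n ≤ R then κ n else 0) x + b * L / η ^ 2 := by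
  set κs : ℕ → ℝ := fun n => if n ≤ R then κ n else 0 with hκs
  set κb : ℕ → ℝ := fun n => if n ≤ R then 0 else κ n with hκb
  have hs0 : ∀ n, 0 ≤ κs n := by
    intro n; simp only [hκs]; split_ifs; exacts [h0 n, le_rfl]
  have hsle : ∀ n, κs n ≤ κ n := by
    intro n; simp only [hκs]; split_ifs; exacts [le_rfl, h0 n]
  have hb0 : ∀ n, 0 ≤ κb n := by
    intro n; simp only [hκb]; split_ifs; exacts [le_rfl, h0 n]
  have hble : ∀ n, κb n ≤ b := by
    intro n; simp only [hκb]; split_ifs with h; exacts [hb, hR n (by omega)]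
  have hs1 : ∀ M, ∑ n ∈ Ioc 0 M, κs n ≤ 1 - η := fun M =>
    (sum_le_sum fun n _ => hsle n).trans (h1 M)
  have hgs := rf_nonneg hs0
  have hg := rf_nonneg h0
  have hst := rf_total hs0 hη hs1
  have hgt := rf_total h0 hη h1
  have hη1 : 0 ≤ 1 / η := by positivity
  have key : ∀ n, rf κ n ≤ rf κs n + b / η ^ 2 := by
    intro n
    have e1 : (fun u v => hom κs u v + hom κb u v) = hom κ := by
      funext u v
      simp only [hom, hκs, hκb]
      split_ifs <;> simp
    have e2 := ren_add (hom κs) (hom κb) (Nat.zero_le n)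
    rw [e1] at e2
    change rf κ n = rf κs n + _ at e2
    rw [e2]
    gcongr
    calc ∑ s ∈ Icc 0 n, ∑ t ∈ Ioc s n, ren (hom κs) 0 s * hom κb s t * ren (hom κ) t n
        ≤ ∑ s ∈ Icc 0 n, ∑ t ∈ Ioc s n, rf κs s * b * rf κ (n - t) := by
          refine sum_le_sum fun s _ => sum_le_sum fun t ht => ?_
          rw [mem_Ioc] at ht
          rw [ren_hom κ ht.2]
          change rf κs s * κb (t - s) * rf κ (n - t) ≤ _
          have := hble (t - s)
          have h3 := hgs s
          have h4 := hg (n - t)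
          gcongr
      _ = ∑ s ∈ Icc 0 n, rf κs s * b * ∑ t ∈ Ioc s n, rf κ (n - t) := by
          simp only [mul_sum]
      _ ≤ ∑ s ∈ Icc 0 n, rf κs s * b * (1 / η) := by
          refine sum_le_sum fun s _ => ?_
          refine mul_le_mul_of_nonneg_left ?_ (mul_nonneg (hgs s) hb)
          calc ∑ t ∈ Ioc s n, rf κ (n - t) = ∑ m ∈ range (n - s), rf κ m := by
                refine sum_nbij' (fun t => n - t) (fun m => n - m) ?_ ?_ ?_ ?_ ?_
                · intro t ht; simp only [mem_Ioc, mem_range] at *; omega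
                · intro t ht; simp only [mem_Ioc, mem_range] at *; omega
                · intro t ht; simp only [mem_Ioc] at *; omega
                · intro t ht; simp only [mem_range] at *; omega
                · intro t ht; rfl
            _ ≤ 1 / η := hgt _
      _ = (∑ s ∈ range (n + 1), rf κs s) * (b * (1 / η)) := by
          rw [sum_mul]
          refine sum_congr ?_ fun _ _ => by ring
          ext z; simp only [mem_Icc, mem_range]; omega
      _ ≤ (1 / η) * (b * (1 / η)) := by
          gcongr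
          exact hst _
      _ = b / η ^ 2 := by field_simp
  calc ∑ x ∈ Ico x₀ (x₀ + L), rf κ x ≤ ∑ x ∈ Ico x₀ (x₀ + L), (rf κs x + b / η ^ 2) :=
        sum_le_sum fun x _ => key x
    _ = _ := by
        rw [sum_add_distrib, sum_const, Nat.card_Ico]
        simp only [Nat.add_sub_cancel_left, nsmul_eq_mul]
        ring

end Pool.Agent.Cop

end
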