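import Mathlib
import Pool.Agent.Work.MP_cceb86_pr.Window

/-!
The window bound: the killed renewal process puts mass `O(α² (L^α/c) (x₀/L)^{-1-α})` in the
window `[x₀, x₀+L)` when `x₀ ≥ L`.
-/

open Finset Real

noncomputable section

namespace Pool.Agent.Cop

lemma num8 {α : ℝ} (_hα : 0 < α) (hα1 : α ≤ 1 / 10) : (8 : ℝ) ^ (1 + α) ≤ 10 := by
  have h1 : (8 : ℝ) ^ (1 + α) ≤ (8 : ℝ) ^ (11 / 10 : ℝ) :=
    Real.rpow_le_rpow_of_exponent_le (by norm_num) (by linarith)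
  have h2 : ((8 : ℝ) ^ (11 / 10 : ℝ)) ^ (10 : ℕ) ≤ (10 : ℝ) ^ (10 : ℕ) := by
    rw [← Real.rpow_natCast, ← Real.rpow_mul (by norm_num)]
    norm_num
  exact h1.trans (le_of_pow_le_pow_left₀ (by norm_num) (by norm_num) h2)

lemma num83 {α : ℝ} (_hα : 0 < α) (hα1 : α ≤ 1 / 10) : (8 / 3 : ℝ) ^ (1 + α) ≤ 3 := by
  have h1 : (8 / 3 : ℝ) ^ (1 + α) ≤ (8 / 3 : ℝ) ^ (11 / 10 : ℝ) :=
    Real.rpow_le_rpow_of_exponent_le (by norm_num) (by linarith)
  have h2 : ((8 / 3 : ℝ) ^ (11 / 10 : ℝ)) ^ (10 : ℕ) ≤ (3 : ℝ) ^ (10 : ℕ) := by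
    rw [← Real.rpow_natCast, ← Real.rpow_mul (by norm_num)]
    norm_num
  exact h1.trans (le_of_pow_le_pow_left₀ (by norm_num) (by norm_num) h2)

lemma num8' {α : ℝ} (_hα : 0 < α) (hα1 : α ≤ 1 / 10) : (8 : ℝ) ^ α ≤ 5 / 4 := by
  have h1 : (8 : ℝ) ^ α ≤ (8 : ℝ) ^ (1 / 10 : ℝ) :=
    Real.rpow_le_rpow_of_exponent_le (by norm_num) (by linarith)
  have h2 : ((8 : ℝ) ^ (1 / 10 : ℝ)) ^ (10 : ℕ) ≤ (5 / 4 : ℝ) ^ (10 : ℕ) := by
    rw [← Real.rpow_natCast, ← Real.rpow_mul (by norm_num)]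
    norm_num
  exact h1.trans (le_of_pow_le_pow_left₀ (by norm_num) (by norm_num) h2)

theorem window_bound {κ : ℕ → ℝ} {α c η : ℝ} {L : ℕ} (h0 : ∀ n, 0 ≤ κ n)
    (hα : 0 < α) (hα1 : α ≤ 1 / 10) (hc : 0 < c) (hL : 1000 ≤ L)
    (hη : c * (L : ℝ) ^ (-α) / (3 * α) ≤ η)
    (h1 : ∀ M, ∑ n ∈ Ioc 0 M, κ n ≤ 1 - η)
    (h2 : ∀ R : ℕ, L / 8 ≤ R → ∑ n ∈ Ioc 0 R, (n : ℝ) * κ n ≤ 9 / 5 * c * (R : ℝ) ^ (1 - α))
    (h3 : ∀ n : ℕ, L / 8 < n → κ n ≤ 33 / 25 * c * (n : ℝ) ^ (-(1 + α))) :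
    ∀ x₀, L ≤ x₀ → ∑ x ∈ Ico x₀ (x₀ + L), rf κ x
      ≤ 300 * α ^ 2 * ((L : ℝ) ^ α / c) * ((x₀ : ℝ) / L) ^ (-(1 + α)) := by
  have hL0 : (0 : ℝ) < L := by
    have : 0 < L := by omega
    exact_mod_cast this
  have hLα : 0 < (L : ℝ) ^ α := Real.rpow_pos_of_pos hL0 _
  set A : ℝ := α * (L : ℝ) ^ α / c with hA
  have hA0 : 0 < A := by positivity
  have hAc : c * (L : ℝ) ^ (-α) * A = α := by
    rw [hA, Real.rpow_neg hL0.le]; field_simp
  have hη3 : 1 / (3 * A) ≤ η := by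
    refine le_trans (le_of_eq ?_) hη
    rw [hA, Real.rpow_neg hL0.le]; field_simp
  have hη0 : 0 < η := lt_of_lt_of_le (by positivity) hη3
  have hinv : 1 / η ≤ 3 * A := by
    rw [div_le_iff₀ hη0]
    rw [div_le_iff₀ (by positivity)] at hη3
    linarith
  have htot := rf_total h0 hη0 h1
  have hg := rf_nonneg h0
  intro x₀
  induction x₀ using Nat.strong_induction_on with
  | _ x₀ ih =>
    intro hx
    have hx0 : (0 : ℝ) < x₀ := lt_of_lt_of_le hL0 (by exact_mod_cast hx)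
    have hxL : (L : ℝ) ≤ x₀ := by exact_mod_cast hx
    set D : ℝ := ((x₀ : ℝ) / L) ^ (-(1 + α)) with hD
    have hD0 : 0 < D := Real.rpow_pos_of_pos (by positivity) _
    set R := x₀ / 8 with hR
    set T₀ := x₀ / 2 with hT
    set κs : ℕ → ℝ := fun n => if n ≤ R then κ n else 0 with hκs
    have hs0 : ∀ n, 0 ≤ κs n := by
      intro n; simp only [hκs]; split_ifs; exacts [h0 n, le_rfl]
    have hsle : ∀ n, κs n ≤ κ n := by
      intro n; simp only [hκs]; split_ifs; exacts [le_rfl, h0 n]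
    have hLR : L / 8 ≤ R := Nat.div_le_div_right hx
    -- the big jumps
    set b : ℝ := 33 / 25 * c * ((x₀ : ℝ) / 8) ^ (-(1 + α)) with hb
    have hb0 : 0 ≤ b := by positivity
    have hbig := big_window h0 hη0 h1 (R := R) hb0 (by
      intro n hn
      refine (h3 n (by omega)).trans ?_
      rw [hb]
      have h5 : (x₀ : ℝ) / 8 ≤ n := by
        have : x₀ < 8 * n := by omega
        have : (x₀ : ℝ) < 8 * n := by exact_mod_cast this
        linarith
      have : (n : ℝ) ^ (-(1 + α)) ≤ ((x₀ : ℝ) / 8) ^ (-(1 + α)) :=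
        Real.rpow_le_rpow_of_nonpos (by positivity) h5 (by linarith)
      gcongr) x₀ L
    have hbig2 : b * L / η ^ 2 ≤ 120 * α * A * D := by
      have e1 : ((x₀ : ℝ) / 8) ^ (-(1 + α)) = (8 : ℝ) ^ (1 + α) * (L : ℝ) ^ (-(1 + α)) * D := by
        rw [hD, Real.div_rpow hx0.le (by norm_num), Real.div_rpow hx0.le hL0.le,
          Real.rpow_neg (by norm_num : (0:ℝ) ≤ 8)]
        have : (L : ℝ) ^ (-(1 + α)) ≠ 0 := (Real.rpow_pos_of_pos hL0 _).ne'
        field_simp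
      have e2 : (L : ℝ) ^ (-(1 + α)) * L = (L : ℝ) ^ (-α) := by
        rw [← Real.rpow_add_one hL0.ne']; congr 1; ring
      have e3 : b * L / η ^ 2 = b * L * (1 / η) ^ 2 := by ring
      have h8 := num8 hα hα1
      have hLa : 0 < (L : ℝ) ^ (-α) := Real.rpow_pos_of_pos hL0 _
      calc b * L / η ^ 2 = b * L * (1 / η) ^ 2 := e3
        _ ≤ b * L * (3 * A) ^ 2 := by gcongr
        _ = 297 / 25 * (8 : ℝ) ^ (1 + α) * (c * ((L : ℝ) ^ (-(1 + α)) * L) * A) * A * D := by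
            rw [hb, e1]; ring
        _ = 297 / 25 * (8 : ℝ) ^ (1 + α) * α * A * D := by rw [e2, hAc]
        _ ≤ 297 / 25 * 10 * α * A * D := by gcongr
        _ ≤ 120 * α * A * D := by gcongr; norm_num
    -- the small jumps
    have hMx : 0 ≤ 90 * A * D := by positivity
    have hsm := small_window (κ := κs) hs0 hη0
      (fun M => (sum_le_sum fun n _ => hsle n).trans (h1 M)) (R := R)
      (μ := 9 / 5 * c * (R : ℝ) ^ (1 - α)) (T₀ := T₀) (x₀ := x₀) (L := L)
      (by intro n hn; simp only [hκs]; rw [if_neg (by omega)])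
      (by
        refine le_trans (le_of_eq ?_) (h2 R hLR)
        refine sum_congr rfl fun z hz => ?_
        rw [mem_Ioc] at hz
        simp only [hκs]; rw [if_pos hz.2])
      (by omega) (by omega) hMx (by
        intro z hz1 hz2
        have hz3 : z ≤ x₀ := by omega
        have e1 : ∑ x ∈ Ico x₀ (x₀ + L), rf κs (x - z)
            ≤ ∑ x ∈ Ico (x₀ - z) (x₀ - z + L), rf κ x := by
          have e : Ico x₀ (x₀ + L) = Ico ((x₀ - z) + z) ((x₀ - z + L) + z) := by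
            congr 1 <;> omega
          rw [e, ← Finset.sum_Ico_add']
          refine sum_le_sum fun x _ => ?_
          rw [Nat.add_sub_cancel]
          exact rf_mono hs0 hsle x
        refine e1.trans ?_
        have h38 : 3 / 8 * (x₀ : ℝ) ≤ ((x₀ - z : ℕ) : ℝ) := by
          have : 3 * x₀ ≤ 8 * (x₀ - z) := by omega
          have : (3 : ℝ) * x₀ ≤ 8 * ((x₀ - z : ℕ) : ℝ) := by exact_mod_cast this
          linarith
        by_cases hzL : L ≤ x₀ - z
        · refine (ih (x₀ - z) (by omega) hzL).trans ?_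
          have h5 : (((x₀ - z : ℕ) : ℝ) / L) ^ (-(1 + α)) ≤ 3 * D := by
            calc (((x₀ - z : ℕ) : ℝ) / L) ^ (-(1 + α))
                ≤ ((3 / 8) * ((x₀ : ℝ) / L)) ^ (-(1 + α)) := by
                  refine Real.rpow_le_rpow_of_nonpos (by positivity) ?_ (by linarith)
                  rw [← mul_div_assoc]
                  gcongr
              _ = (8 / 3) ^ (1 + α) * D := by
                  rw [Real.mul_rpow (by norm_num) (by positivity), hD]
                  congr 1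
                  rw [Real.rpow_neg (by norm_num), ← Real.inv_rpow (by norm_num)]
                  norm_num
              _ ≤ 3 * D := by
                  have := num83 hα hα1
                  gcongr
          calc 300 * α ^ 2 * ((L : ℝ) ^ α / c) * (((x₀ - z : ℕ) : ℝ) / L) ^ (-(1 + α))
              ≤ 300 * α ^ 2 * ((L : ℝ) ^ α / c) * (3 * D) := by gcongr
            _ = 900 * α * A * D := by rw [hA]; ring
            _ ≤ 900 * (1 / 10) * A * D := by gcongr
            _ = 90 * A * D := by ring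
        · have h5 : 1 / 3 ≤ D := by
            have h6 : (x₀ : ℝ) / L ≤ 8 / 3 := by
              rw [div_le_iff₀ hL0]
              have : ((x₀ - z : ℕ) : ℝ) ≤ L := by
                have : x₀ - z ≤ L := by omega
                exact_mod_cast this
              linarith
            calc (1 / 3 : ℝ) ≤ ((8 / 3 : ℝ) ^ (1 + α))⁻¹ := by
                  have := num83 hα hα1
                  rw [one_div]
                  exact inv_anti₀ (by positivity) this
              _ = (8 / 3 : ℝ) ^ (-(1 + α)) := by rw [Real.rpow_neg (by norm_num)]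
              _ ≤ D := Real.rpow_le_rpow_of_nonpos (by positivity) h6 (by linarith)
          calc ∑ x ∈ Ico (x₀ - z) (x₀ - z + L), rf κ x
              ≤ ∑ x ∈ range (x₀ - z + L), rf κ x :=
                sum_le_sum_of_subset_of_nonneg
                  (by intro y; simp only [mem_Ico, mem_range]; omega) (fun i _ _ => hg i)
            _ ≤ 1 / η := htot _
            _ ≤ 3 * A := hinv
            _ ≤ 90 * A * D := by nlinarith)
    have hratio : (9 / 5 * c * (R : ℝ) ^ (1 - α) / η) / T₀ ≤ 2 * α := by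
      have hT49 : 49 / 100 * (x₀ : ℝ) ≤ T₀ := by
        have : 49 * x₀ ≤ 100 * T₀ := by omega
        have : (49 : ℝ) * x₀ ≤ 100 * (T₀ : ℝ) := by exact_mod_cast this
        linarith
      have hR8 : (R : ℝ) ≤ (x₀ : ℝ) / 8 := by
        have : 8 * R ≤ x₀ := by omega
        have : (8 : ℝ) * R ≤ x₀ := by exact_mod_cast this
        linarith
      have hT0 : (0 : ℝ) < T₀ := lt_of_lt_of_le (by positivity) hT49
      have e1 : (R : ℝ) ^ (1 - α) ≤ ((x₀ : ℝ) / 8) ^ (1 - α) :=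
        Real.rpow_le_rpow (by positivity) hR8 (by linarith)
      have e2 : (L : ℝ) ^ α * ((x₀ : ℝ) / 8) ^ (1 - α) ≤ (x₀ : ℝ) / 8 * (5 / 4) := by
        have h5 : ((x₀ : ℝ) / 8) ^ (1 - α) = (x₀ : ℝ) / 8 * ((x₀ : ℝ) / 8) ^ (-α) := by
          rw [mul_comm, ← Real.rpow_add_one (by positivity)]; congr 1; ring
        have h6 : ((x₀ : ℝ) / 8) ^ (-α) = (8 : ℝ) ^ α * (x₀ : ℝ) ^ (-α) := by
          rw [Real.div_rpow hx0.le (by norm_num), Real.rpow_neg (by norm_num : (0:ℝ) ≤ 8)]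
          field_simp
        have h7 : (L : ℝ) ^ α * (x₀ : ℝ) ^ (-α) ≤ 1 := by
          rw [Real.rpow_neg hx0.le, ← div_eq_mul_inv, div_le_one (Real.rpow_pos_of_pos hx0 _)]
          exact Real.rpow_le_rpow hL0.le hxL hα.le
        have h8 := num8' hα hα1
        calc (L : ℝ) ^ α * ((x₀ : ℝ) / 8) ^ (1 - α)
            = (x₀ : ℝ) / 8 * ((8 : ℝ) ^ α * ((L : ℝ) ^ α * (x₀ : ℝ) ^ (-α))) := by
              rw [h5, h6]; ring
          _ ≤ (x₀ : ℝ) / 8 * (5 / 4 * 1) := by gcongr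
          _ = _ := by ring
      rw [div_le_iff₀ hT0]
      calc 9 / 5 * c * (R : ℝ) ^ (1 - α) / η
          = 9 / 5 * c * (R : ℝ) ^ (1 - α) * (1 / η) := by ring
        _ ≤ 9 / 5 * c * ((x₀ : ℝ) / 8) ^ (1 - α) * (3 * A) := by gcongr
        _ = 27 / 5 * α * ((L : ℝ) ^ α * ((x₀ : ℝ) / 8) ^ (1 - α)) := by
            rw [hA]; field_simp; ring
        _ ≤ 27 / 5 * α * ((x₀ : ℝ) / 8 * (5 / 4)) := by gcongr
        _ ≤ 2 * α * (49 / 100 * x₀) := by nlinarith [mul_pos hα hx0]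
        _ ≤ 2 * α * T₀ := by gcongr
    calc ∑ x ∈ Ico x₀ (x₀ + L), rf κ x
        ≤ ∑ x ∈ Ico x₀ (x₀ + L), rf κs x + b * L / η ^ 2 := hbig
      _ ≤ 90 * A * D * (9 / 5 * c * (R : ℝ) ^ (1 - α) / η) / T₀ + 120 * α * A * D := by
          gcongr
      _ = 90 * A * D * ((9 / 5 * c * (R : ℝ) ^ (1 - α) / η) / T₀) + 120 * α * A * D := by ring
      _ ≤ 90 * A * D * (2 * α) + 120 * α * A * D := by gcongr
      _ = 300 * α ^ 2 * ((L : ℝ) ^ α / c) * D := by rw [hA]; ring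

end Pool.Agent.Cop

end
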