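import Mathlib
import Pool.Agent.Work.MP_cceb86_pr.Window2
import Pool.Agent.Work.MP_cceb86_pr.Defs

/-!
Consequences of the tail asymptotics `K(n) ~ c n^{-1-α}`.
-/

open Finset Real Filter Topology

noncomputable section

namespace Pool.Agent.Cop

variable {α c : ℝ} {K : ℕ → ℝ}

lemma IsLaw.bounds (hK : IsLaw α c K) (hc : 0 < c) {ε : ℝ} (hε : 0 < ε) :
    ∀ᶠ n : ℕ in atTop, (1 - ε) * c * (n : ℝ) ^ (-(1 + α)) ≤ K n ∧
      K n ≤ (1 + ε) * c * (n : ℝ) ^ (-(1 + α)) := by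
  have h1 := hK.tail.eventually (Ioo_mem_nhds (show c - ε * c < c by nlinarith)
    (show c < c + ε * c by nlinarith))
  filter_upwards [h1, eventually_gt_atTop 0] with n hn hn0
  have hn1 : (0 : ℝ) < n := by exact_mod_cast hn0
  have hp : 0 < (n : ℝ) ^ (1 + α) := Real.rpow_pos_of_pos hn1 _
  rw [Real.rpow_neg hn1.le]
  constructor
  · rw [← div_eq_mul_inv, div_le_iff₀ hp]
    nlinarith [hn.1]
  · rw [← div_eq_mul_inv, le_div_iff₀ hp]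
    nlinarith [hn.2]

lemma IsLaw.sum_le_one (hK : IsLaw α c K) (s : Finset ℕ) : ∑ n ∈ s, K n ≤ 1 :=
  sum_le_hasSum s (fun n _ => hK.nonneg n) hK.sum

/-- telescoping lower bound for `n^{-1-α}` -/
lemma tel_low {α : ℝ} (hα : 0 < α) (hα1 : α ≤ 1) {n : ℕ} (hn : 0 < n) :
    ((n : ℝ) ^ (-α) - ((n + 1 : ℕ) : ℝ) ^ (-α)) / α ≤ (n : ℝ) ^ (-(1 + α)) := by
  have hn1 : (0 : ℝ) < n := by exact_mod_cast hn
  have h1 : (1 + 1 / (n : ℝ)) ^ α ≤ 1 + α * (1 / n) :=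
    rpow_one_add_le_one_add_mul_self (by have : (0:ℝ) ≤ 1 / n := by positivity
                                         linarith) hα.le hα1
  have h2 : ((n + 1 : ℕ) : ℝ) ^ (-α) = (n : ℝ) ^ (-α) * ((1 + 1 / (n : ℝ)) ^ α)⁻¹ := by
    rw [← Real.rpow_neg (by positivity), ← Real.mul_rpow hn1.le (by positivity)]
    congr 1
    push_cast
    field_simp
  have h3 : (n : ℝ) ^ (-(1 + α)) = (n : ℝ) ^ (-α) / n := by
    rw [eq_div_iff hn1.ne', ← Real.rpow_add_one hn1.ne']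
    congr 1; ring
  have h4 : 1 - α * (1 / (n : ℝ)) ≤ ((1 + 1 / (n : ℝ)) ^ α)⁻¹ := by
    have h5 : 0 < (1 + 1 / (n : ℝ)) ^ α := by positivity
    rw [← one_div, le_div_iff₀ h5]
    have h6 : (0 : ℝ) ≤ α * (1 / n) := by positivity
    by_cases h7 : 1 - α * (1 / (n : ℝ)) ≤ 0
    · nlinarith
    · nlinarith
  have hp : 0 < (n : ℝ) ^ (-α) := Real.rpow_pos_of_pos hn1 _
  rw [h2, h3, div_le_div_iff₀ hα hn1]
  have : (n : ℝ) * (1 - ((1 + 1 / (n : ℝ)) ^ α)⁻¹) ≤ α := by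
    have h8 : 1 - ((1 + 1 / (n : ℝ)) ^ α)⁻¹ ≤ α * (1 / n) := by linarith
    calc (n : ℝ) * (1 - ((1 + 1 / (n : ℝ)) ^ α)⁻¹) ≤ n * (α * (1 / n)) := by gcongr
      _ = α := by field_simp
  nlinarith

/-- telescoping upper bound for `n^{-α}` -/
lemma tel_up {α : ℝ} (hα : 0 < α) (hα1 : α < 1) {n : ℕ} (hn : 0 < n) :
    (n : ℝ) ^ (-α) ≤ ((n : ℝ) ^ (1 - α) - ((n - 1 : ℕ) : ℝ) ^ (1 - α)) / (1 - α) := by
  have hn1 : (0 : ℝ) < n := by exact_mod_cast hn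
  have hn2 : (1 : ℝ) ≤ n := by exact_mod_cast hn
  have h1 : (1 + (-1 / (n : ℝ))) ^ (1 - α) ≤ 1 + (1 - α) * (-1 / n) := by
    refine rpow_one_add_le_one_add_mul_self ?_ (by linarith) (by linarith)
    rw [le_div_iff₀ hn1]; linarith
  have h2 : ((n - 1 : ℕ) : ℝ) ^ (1 - α) = (n : ℝ) ^ (1 - α) * (1 + (-1 / (n : ℝ))) ^ (1 - α) := by
    rw [← Real.mul_rpow hn1.le]
    · congr 1
      rw [Nat.cast_sub hn]
      push_cast
      field_simp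
      ring
    · have : -1 ≤ -1 / (n : ℝ) := by rw [le_div_iff₀ hn1]; linarith
      linarith
  have h3 : (n : ℝ) ^ (1 - α) = (n : ℝ) ^ (-α) * n := by
    rw [← Real.rpow_add_one hn1.ne']
    congr 1; ring
  have hp : 0 < (n : ℝ) ^ (1 - α) := Real.rpow_pos_of_pos hn1 _
  rw [le_div_iff₀ (by linarith), h2]
  have h5 : (n : ℝ) ^ (1 - α) * (1 + (-1 / (n : ℝ))) ^ (1 - α)
      ≤ (n : ℝ) ^ (1 - α) * (1 + (1 - α) * (-1 / n)) := by gcongr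
  have h6 : (n : ℝ) ^ (1 - α) * (1 + (1 - α) * (-1 / n))
      = (n : ℝ) ^ (1 - α) - (n : ℝ) ^ (-α) * (1 - α) := by
    rw [h3]; field_simp; ring
  linarith

/-- the tail sum is at least `0.9 (c/α) L^{-α}` -/
lemma IsLaw.tail_low (hK : IsLaw α c K) (hc : 0 < c) (hα : 0 < α) (hα1 : α ≤ 1) :
    ∀ᶠ L : ℕ in atTop, ∑ n ∈ Ioc 0 L, K n ≤ 1 - 9 / 10 * (c / α) * (L : ℝ) ^ (-α) := by
  have h1 := hK.bounds hc (show (0 : ℝ) < 1 / 20 by norm_num)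
  obtain ⟨n₀, hn₀⟩ := eventually_atTop.1 h1
  -- (1+1/L)^{-α} → 1
  have h2 : ∀ᶠ L : ℕ in atTop, (18 / 19 : ℝ) ≤ (1 + 1 / (L : ℝ)) ^ (-α) := by
    have ht : Tendsto (fun L : ℕ => (1 + 1 / (L : ℝ)) ^ (-α)) atTop (𝓝 ((1 + 0) ^ (-α))) := by
      refine Tendsto.rpow_const ?_ (Or.inl (by norm_num))
      exact tendsto_const_nhds.add tendsto_one_div_atTop_nhds_zero_nat
    rw [add_zero, Real.one_rpow] at ht
    exact (ht.eventually (lt_mem_nhds (show (18 / 19 : ℝ) < 1 by norm_num))).mono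
      fun _ h => h.le
  filter_upwards [h2, eventually_ge_atTop n₀, eventually_gt_atTop 0] with L hL hLn hL0
  have hL1 : (0 : ℝ) < L := by exact_mod_cast hL0
  -- partial sums
  have h3 : ∀ M, L ≤ M → 19 / 20 * c / α * (((L + 1 : ℕ) : ℝ) ^ (-α) - ((M + 1 : ℕ) : ℝ) ^ (-α))
      ≤ ∑ n ∈ Ioc L M, K n := by
    intro M hM
    induction M, hM using Nat.le_induction with
    | base => simp
    | succ M hM ih =>
      rw [← Finset.insert_Ioc_right_eq_Ioc_add_one hM, sum_insert (by simp)]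
      have h5 := (hn₀ (M + 1) (by omega)).1
      have h6 := tel_low hα hα1 (n := M + 1) (by omega)
      have h7 : 19 / 20 * c * (((M + 1 : ℕ) : ℝ) ^ (-(1 + α))) ≤ K (M + 1) := by
        refine le_trans (le_of_eq ?_) h5; norm_num
      have h8 : 19 / 20 * c * ((((M + 1 : ℕ) : ℝ) ^ (-α) - ((M + 1 + 1 : ℕ) : ℝ) ^ (-α)) / α)
          ≤ 19 / 20 * c * (((M + 1 : ℕ) : ℝ) ^ (-(1 + α))) := by gcongr
      have h9 : 19 / 20 * c / α * (((L + 1 : ℕ) : ℝ) ^ (-α) - ((M + 1 + 1 : ℕ) : ℝ) ^ (-α))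
          = 19 / 20 * c / α * (((L + 1 : ℕ) : ℝ) ^ (-α) - ((M + 1 : ℕ) : ℝ) ^ (-α))
            + 19 / 20 * c * ((((M + 1 : ℕ) : ℝ) ^ (-α) - ((M + 1 + 1 : ℕ) : ℝ) ^ (-α)) / α) := by
        ring
      linarith
  have h4 : ∀ M, L ≤ M → 19 / 20 * c / α * (((L + 1 : ℕ) : ℝ) ^ (-α) - ((M + 1 : ℕ) : ℝ) ^ (-α))
      ≤ 1 - ∑ n ∈ Ioc 0 L, K n := by
    intro M hM
    refine (h3 M hM).trans ?_
    have := hK.sum_le_one (Ioc 0 M)
    have h5 : ∑ n ∈ Ioc 0 M, K n = ∑ n ∈ Ioc 0 L, K n + ∑ n ∈ Ioc L M, K n := by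
      rw [← sum_Ioc_consecutive _ (Nat.zero_le L) hM]
    linarith
  have h5 : Tendsto (fun M : ℕ => 19 / 20 * c / α *
      (((L + 1 : ℕ) : ℝ) ^ (-α) - ((M + 1 : ℕ) : ℝ) ^ (-α))) atTop
      (𝓝 (19 / 20 * c / α * (((L + 1 : ℕ) : ℝ) ^ (-α) - 0))) := by
    refine Tendsto.const_mul _ (tendsto_const_nhds.sub ?_)
    have h6 : Tendsto (fun x : ℝ => x ^ (-α)) atTop (𝓝 0) := tendsto_rpow_neg_atTop hα
    exact h6.comp (tendsto_natCast_atTop_atTop.comp (tendsto_add_atTop_nat 1))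
  have h6 := le_of_tendsto h5 ((eventually_ge_atTop L).mono h4)
  rw [sub_zero] at h6
  have h7 : ((L + 1 : ℕ) : ℝ) ^ (-α) = (L : ℝ) ^ (-α) * (1 + 1 / (L : ℝ)) ^ (-α) := by
    rw [← Real.mul_rpow hL1.le (by positivity)]
    congr 1
    push_cast
    field_simp
  have hp : 0 < (L : ℝ) ^ (-α) := Real.rpow_pos_of_pos hL1 _
  have h8 : 9 / 10 * (c / α) * (L : ℝ) ^ (-α) ≤ 19 / 20 * c / α * ((L + 1 : ℕ) : ℝ) ^ (-α) := by
    rw [h7]
    calc 9 / 10 * (c / α) * (L : ℝ) ^ (-α) = 19 / 20 * c / α * ((L : ℝ) ^ (-α) * (18 / 19)) := by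
          ring
      _ ≤ 19 / 20 * c / α * ((L : ℝ) ^ (-α) * (1 + 1 / (L : ℝ)) ^ (-α)) := by gcongr
  linarith

/-- truncated means -/
lemma IsLaw.mean_le (hK : IsLaw α c K) (hc : 0 < c) (hα : 0 < α) (hα1 : α ≤ 1 / 10) :
    ∀ᶠ R : ℕ in atTop, ∑ n ∈ Ioc 0 R, (n : ℝ) * K n ≤ 3 / 2 * c * (R : ℝ) ^ (1 - α) := by
  have h1 := hK.bounds hc (show (0 : ℝ) < 1 / 10 by norm_num)
  obtain ⟨n₀, hn₀⟩ := eventually_atTop.1 h1
  set C₀ : ℝ := ∑ n ∈ Ioc 0 n₀, (n : ℝ) * K n with hC₀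
  have h2 : ∀ᶠ R : ℕ in atTop, C₀ ≤ 1 / 4 * c * (R : ℝ) ^ (1 - α) := by
    have h3 : Tendsto (fun R : ℕ => 1 / 4 * c * (R : ℝ) ^ (1 - α)) atTop atTop := by
      refine Tendsto.const_mul_atTop (by positivity) ?_
      exact (tendsto_rpow_atTop (by linarith)).comp tendsto_natCast_atTop_atTop
    exact h3.eventually_ge_atTop C₀
  filter_upwards [h2, eventually_ge_atTop n₀] with R hR hRn
  have h3 : ∀ M, n₀ ≤ M → ∑ n ∈ Ioc n₀ M, (n : ℝ) * K n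
      ≤ 11 / 10 * c / (1 - α) * ((M : ℝ) ^ (1 - α) - (n₀ : ℝ) ^ (1 - α)) := by
    intro M hM
    induction M, hM using Nat.le_induction with
    | base => simp
    | succ M hM ih =>
      rw [← Finset.insert_Ioc_right_eq_Ioc_add_one hM, sum_insert (by simp)]
      have h5 := (hn₀ (M + 1) (by omega)).2
      have h6 := tel_up hα (by linarith) (n := M + 1) (by omega)
      rw [Nat.add_sub_cancel] at h6
      have hM1 : (0 : ℝ) < ((M + 1 : ℕ) : ℝ) := by positivity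
      have h7 : ((M + 1 : ℕ) : ℝ) * K (M + 1) ≤ 11 / 10 * c * ((M + 1 : ℕ) : ℝ) ^ (-α) := by
        calc ((M + 1 : ℕ) : ℝ) * K (M + 1)
            ≤ ((M + 1 : ℕ) : ℝ) * ((1 + 1 / 10) * c * ((M + 1 : ℕ) : ℝ) ^ (-(1 + α))) := by
              gcongr
          _ = 11 / 10 * c * (((M + 1 : ℕ) : ℝ) ^ (-(1 + α)) * ((M + 1 : ℕ) : ℝ)) := by ring
          _ = 11 / 10 * c * ((M + 1 : ℕ) : ℝ) ^ (-α) := by
              rw [← Real.rpow_add_one hM1.ne']; congr 2; ring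
      have h8 : 11 / 10 * c * ((M + 1 : ℕ) : ℝ) ^ (-α)
          ≤ 11 / 10 * c * ((((M + 1 : ℕ) : ℝ) ^ (1 - α) - (M : ℝ) ^ (1 - α)) / (1 - α)) := by
        gcongr
      have h9 : 11 / 10 * c / (1 - α) * (((M + 1 : ℕ) : ℝ) ^ (1 - α) - (n₀ : ℝ) ^ (1 - α))
          = 11 / 10 * c / (1 - α) * ((M : ℝ) ^ (1 - α) - (n₀ : ℝ) ^ (1 - α))
          + 11 / 10 * c * ((((M + 1 : ℕ) : ℝ) ^ (1 - α) - (M : ℝ) ^ (1 - α)) / (1 - α)) := by
        ring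
      linarith
  have h4 : ∑ n ∈ Ioc 0 R, (n : ℝ) * K n = C₀ + ∑ n ∈ Ioc n₀ R, (n : ℝ) * K n := by
    rw [hC₀, sum_Ioc_consecutive _ (Nat.zero_le n₀) hRn]
  have h5 := h3 R hRn
  have hRp : 0 ≤ (R : ℝ) ^ (1 - α) := by positivity
  have hn₀p : 0 ≤ (n₀ : ℝ) ^ (1 - α) := by positivity
  have h6 : 11 / 10 * c / (1 - α) * ((R : ℝ) ^ (1 - α) - (n₀ : ℝ) ^ (1 - α))
      ≤ 5 / 4 * c * (R : ℝ) ^ (1 - α) := by
    have h7 : 11 / 10 * c / (1 - α) ≤ 5 / 4 * c := by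
      rw [div_le_iff₀ (by linarith)]; nlinarith
    have h8 : 0 ≤ 11 / 10 * c / (1 - α) := by
      apply div_nonneg <;> nlinarith
    calc 11 / 10 * c / (1 - α) * ((R : ℝ) ^ (1 - α) - (n₀ : ℝ) ^ (1 - α))
        ≤ 11 / 10 * c / (1 - α) * (R : ℝ) ^ (1 - α) := by gcongr; linarith
      _ ≤ 5 / 4 * c * (R : ℝ) ^ (1 - α) := by gcongr
  rw [h4]
  linarith

/-- All the facts about `K` used for a block length `L`. -/
structure KFacts (α c : ℝ) (K : ℕ → ℝ) (L : ℕ) : Prop where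
  big : 1000 ≤ L
  up : ∀ n, L / 8 < n → K n ≤ 11 / 10 * c * (n : ℝ) ^ (-(1 + α))
  tail : ∑ n ∈ Ioc 0 L, K n ≤ 1 - 9 / 10 * (c / α) * (L : ℝ) ^ (-α)
  mean : ∀ R, L / 8 ≤ R → ∑ n ∈ Ioc 0 R, (n : ℝ) * K n ≤ 3 / 2 * c * (R : ℝ) ^ (1 - α)

lemma IsLaw.kfacts (hK : IsLaw α c K) (hc : 0 < c) (hα : 0 < α) (hα1 : α ≤ 1 / 10) :
    ∀ᶠ L : ℕ in atTop, KFacts α c K L := by
  have h8 : Tendsto (fun L : ℕ => L / 8) atTop atTop :=
    Nat.tendsto_div_const_atTop (by norm_num)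
  have h1 := h8.eventually (eventually_atTop.1
    (hK.bounds hc (show (0 : ℝ) < 1 / 10 by norm_num)) |>.choose_spec |> fun h =>
      eventually_atTop.2 ⟨_, fun a ha => fun b (hb : a ≤ b) => h b (ha.trans hb)⟩)
  have h2 := h8.eventually (eventually_atTop.1 (hK.mean_le hc hα hα1) |>.choose_spec |> fun h =>
      eventually_atTop.2 ⟨_, fun a ha => fun b (hb : a ≤ b) => h b (ha.trans hb)⟩)
  filter_upwards [h1, h2, hK.tail_low hc hα (by linarith), eventually_ge_atTop 1000]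
    with L g1 g2 g3 g4
  refine ⟨g4, fun n hn => ?_, g3, fun R hR => g2 R hR⟩
  refine (g1 n hn.le).2.trans (le_of_eq ?_)
  norm_num

end Pool.Agent.Cop

end
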