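import Mathlib
import Pool.Agent.Work.MP_cceb86_pr.Asym
import Pool.Agent.Work.MP_cceb86_pr.Claim

/-!
The block bounds `Bds` for the annealed kernel.
-/

open Finset Real Filter Topology
open scoped ENNReal

noncomputable section

namespace Pool.Agent.Cop

/-- the annealed kernel of the up phase -/
def kap (K : ℕ → ℝ) (L : ℕ) (q : ℝ) (n : ℕ) : ℝ := K n / 2 * (1 + if n ≤ L then q ^ n else 0)

variable {α c q : ℝ} {K : ℕ → ℝ} {L : ℕ}

lemma exp3 (hα : 0 < α) (hα1 : α ≤ 1 / 10) : Real.exp (3 * α) ≤ 1 + 4 * α := by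
  have h := Real.abs_exp_sub_one_sub_id_le (x := 3 * α) (by rw [abs_of_pos (by positivity)]; linarith)
  have := (abs_le.1 h).2
  nlinarith

lemma q_pow_le (hq : 1 ≤ q) (hqL : q ^ L ≤ 1 + 4 * α) (hL : 0 < L) {n : ℕ} (hn : n ≤ L) :
    q ^ n ≤ 1 + 4 * α * (n / L) := by
  have hL0 : (0 : ℝ) < L := by exact_mod_cast hL
  have h1 : 1 ≤ q ^ L := one_le_pow₀ hq
  have h2 : (1 + (q ^ L - 1)) ^ ((n : ℝ) / L) ≤ 1 + ((n : ℝ) / L) * (q ^ L - 1) := by
    refine rpow_one_add_le_one_add_mul_self (by linarith) (by positivity) ?_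
    rw [div_le_one hL0]; exact_mod_cast hn
  have h3 : (1 + (q ^ L - 1)) ^ ((n : ℝ) / L) = q ^ n := by
    rw [add_sub_cancel, ← Real.rpow_natCast q L, ← Real.rpow_mul (by linarith)]
    rw [mul_div_cancel₀ _ hL0.ne', Real.rpow_natCast]
  rw [h3] at h2
  have h4 : (0 : ℝ) ≤ (n : ℝ) / L := by positivity
  nlinarith

lemma kap_nonneg (hK : ∀ n, 0 ≤ K n) (hq : 1 ≤ q) (n : ℕ) : 0 ≤ kap K L q n := by
  unfold kap
  have := hK n
  have hq0 : 0 ≤ q := by linarith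
  split_ifs <;> positivity

lemma kap_le (hK : ∀ n, 0 ≤ K n) (hα : 0 < α) (hα1 : α ≤ 1 / 10) (hq : 1 ≤ q)
    (hqL : q ^ L ≤ 1 + 4 * α) (n : ℕ) : kap K L q n ≤ 6 / 5 * K n := by
  unfold kap
  have := hK n
  split_ifs with h
  · have h1 : q ^ n ≤ q ^ L := pow_le_pow_right₀ hq h
    nlinarith
  · nlinarith

lemma kap_sum (hK : IsLaw α c K) (hF : KFacts α c K L) (hα : 0 < α) (hα1 : α ≤ 1 / 10)
    (hc : 0 < c) (hq : 1 ≤ q) (hqL : q ^ L ≤ 1 + 4 * α) (M : ℕ) :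
    ∑ n ∈ Ioc 0 M, kap K L q n ≤ 1 - c * (L : ℝ) ^ (-α) / (3 * α) := by
  have hL : 0 < L := by have := hF.big; omega
  have hL0 : (0 : ℝ) < L := by exact_mod_cast hL
  have hp : 0 < (L : ℝ) ^ (-α) := Real.rpow_pos_of_pos hL0 _
  have h1 : ∑ n ∈ Ioc 0 M, kap K L q n
      ≤ (∑ n ∈ Ioc 0 M, K n) / 2 + (∑ n ∈ Ioc 0 L, K n * q ^ n) / 2 := by
    have h2 : ∑ n ∈ Ioc 0 M, kap K L q n = (∑ n ∈ Ioc 0 M, K n) / 2
        + (∑ n ∈ Ioc 0 M, K n * (if n ≤ L then q ^ n else 0)) / 2 := by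
      rw [sum_div, sum_div, ← sum_add_distrib]
      refine sum_congr rfl fun n _ => ?_
      unfold kap; ring
    rw [h2]
    gcongr
    calc ∑ n ∈ Ioc 0 M, K n * (if n ≤ L then q ^ n else 0)
        = ∑ n ∈ (Ioc 0 M).filter (fun n => n ≤ L), K n * q ^ n := by
          rw [sum_filter]
          refine sum_congr rfl fun n _ => ?_
          split_ifs <;> simp
      _ ≤ ∑ n ∈ Ioc 0 L, K n * q ^ n := by
          refine sum_le_sum_of_subset_of_nonneg ?_ ?_
          · intro n; simp only [mem_filter, mem_Ioc]; omega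
          · intro n _ _
            have := hK.nonneg n
            have : 0 ≤ q := by linarith
            positivity
  have h2 : ∑ n ∈ Ioc 0 L, K n * q ^ n
      ≤ ∑ n ∈ Ioc 0 L, K n + 4 * α / L * ∑ n ∈ Ioc 0 L, (n : ℝ) * K n := by
    rw [mul_sum, ← sum_add_distrib]
    refine sum_le_sum fun n hn => ?_
    rw [mem_Ioc] at hn
    have h3 := q_pow_le hq hqL hL hn.2
    have h4 := hK.nonneg n
    calc K n * q ^ n ≤ K n * (1 + 4 * α * (n / L)) := by gcongr
      _ = K n + 4 * α / L * ((n : ℝ) * K n) := by ring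
  have h3 := hF.mean L (Nat.div_le_self _ _)
  have h4 := hF.tail
  have h5 := hK.sum_le_one (Ioc 0 M)
  have h6 : 4 * α / L * (3 / 2 * c * (L : ℝ) ^ (1 - α)) = 6 * α * c * (L : ℝ) ^ (-α) := by
    have : (L : ℝ) ^ (1 - α) = (L : ℝ) ^ (-α) * L := by
      rw [← Real.rpow_add_one hL0.ne']; congr 1; ring
    rw [this]; field_simp; ring
  have h7 : 4 * α / L * ∑ n ∈ Ioc 0 L, (n : ℝ) * K n ≤ 6 * α * c * (L : ℝ) ^ (-α) := by
    rw [← h6]; gcongr
  have h8 : c * (L : ℝ) ^ (-α) / (3 * α) ≤ 9 / 20 * (c / α) * (L : ℝ) ^ (-α)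
      - 3 * α * c * (L : ℝ) ^ (-α) := by
    have h9 : c * (L : ℝ) ^ (-α) / (3 * α) = c * (L : ℝ) ^ (-α) * (1 / (3 * α)) := by ring
    have h10 : 9 / 20 * (c / α) * (L : ℝ) ^ (-α) - 3 * α * c * (L : ℝ) ^ (-α)
        = c * (L : ℝ) ^ (-α) * (9 / (20 * α) - 3 * α) := by field_simp
    rw [h9, h10]
    refine mul_le_mul_of_nonneg_left ?_ (by positivity)
    rw [show (9 / (20 * α) - 3 * α) = (9 - 3 * α * (20 * α)) / (20 * α) by field_simp]
    rw [div_le_div_iff₀ (by positivity) (by positivity)]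
    nlinarith [mul_pos hα hα]
  linarith

theorem kap_window (hK : IsLaw α c K) (hF : KFacts α c K L) (hα : 0 < α) (hα1 : α ≤ 1 / 10)
    (hc : 0 < c) (hq : 1 ≤ q) (hqL : q ^ L ≤ 1 + 4 * α) :
    (∀ M, ∑ n ∈ range M, rf (kap K L q) n ≤ 3 * (α * (L : ℝ) ^ α / c)) ∧
    ∀ x₀, L ≤ x₀ → ∑ x ∈ Ico x₀ (x₀ + L), rf (kap K L q) x
      ≤ 300 * α ^ 2 * ((L : ℝ) ^ α / c) * ((x₀ : ℝ) / L) ^ (-(1 + α)) := by
  have hL : 0 < L := by have := hF.big; omega
  have hL0 : (0 : ℝ) < L := by exact_mod_cast hL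
  have hp : 0 < (L : ℝ) ^ (-α) := Real.rpow_pos_of_pos hL0 _
  have hη : 0 < c * (L : ℝ) ^ (-α) / (3 * α) := by positivity
  constructor
  · intro M
    refine (rf_total (kap_nonneg hK.nonneg hq) hη (kap_sum hK hF hα hα1 hc hq hqL) M).trans ?_
    rw [Real.rpow_neg hL0.le]
    apply le_of_eq
    field_simp
  · refine window_bound (kap_nonneg hK.nonneg hq) hα hα1 hc hF.big le_rfl
      (kap_sum hK hF hα hα1 hc hq hqL) ?_ ?_
    · intro R hR
      have h1 := hF.mean R hR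
      calc ∑ n ∈ Ioc 0 R, (n : ℝ) * kap K L q n
          ≤ ∑ n ∈ Ioc 0 R, (n : ℝ) * (6 / 5 * K n) := by
            gcongr with n _
            exact kap_le hK.nonneg hα hα1 hq hqL n
        _ = 6 / 5 * ∑ n ∈ Ioc 0 R, (n : ℝ) * K n := by
            rw [mul_sum]; exact sum_congr rfl fun n _ => by ring
        _ ≤ 6 / 5 * (3 / 2 * c * (R : ℝ) ^ (1 - α)) := by gcongr
        _ = _ := by ring
    · intro n hn
      have h1 := hF.up n hn
      calc kap K L q n ≤ 6 / 5 * K n := kap_le hK.nonneg hα hα1 hq hqL n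
        _ ≤ 6 / 5 * (11 / 10 * c * (n : ℝ) ^ (-(1 + α))) := by gcongr
        _ = _ := by ring

lemma ren_ofReal {a : ℕ → ℕ → ℝ} (ha : ∀ x y, 0 ≤ a x y) (x y : ℕ) :
    ren (fun x y => ENNReal.ofReal (a x y)) x y = ENNReal.ofReal (ren a x y) := by
  induction y using Nat.strong_induction_on with
  | _ y ih =>
    rcases lt_trichotomy x y with h | h | h
    · rw [ren_right _ h, ren_right _ h, ENNReal.ofReal_sum_of_nonneg]
      · refine sum_congr rfl fun z hz => ?_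
        rw [mem_Ico] at hz
        rw [ih z hz.2, ENNReal.ofReal_mul]
        exact (ren_mono ha (fun _ _ => le_rfl) x z).1
      · intro z _
        exact mul_nonneg (ren_mono ha (fun _ _ => le_rfl) x z).1 (ha _ _)
    · subst h; simp [ren_self]
    · rw [ren_of_gt _ h, ren_of_gt _ h]; simp

lemma kA_eq (hK : ∀ n, 0 ≤ K n) (hq : 1 ≤ q) (x y : ℕ) :
    kA (fun n => ENNReal.ofReal (K n)) L (fun _ => ENNReal.ofReal q) x y
      = ENNReal.ofReal (hom (kap K L q) x y) := by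
  have hq0 : 0 ≤ q := by linarith
  unfold kA hom kap
  have h1 := hK (y - x)
  rw [ENNReal.ofReal_mul (by positivity), ENNReal.ofReal_div_of_pos (by norm_num)]
  congr 1
  · simp
  · rw [ENNReal.ofReal_add (by norm_num) (by split_ifs <;> positivity)]
    congr 1
    · simp
    · split_ifs
      · rw [pI_const, ENNReal.ofReal_pow hq0]
      · simp

lemma ren_kA_eq (hK : ∀ n, 0 ≤ K n) (hq : 1 ≤ q) {x y : ℕ} (h : x ≤ y) :
    ren (kA (fun n => ENNReal.ofReal (K n)) L (fun _ => ENNReal.ofReal q)) x y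
      = ENNReal.ofReal (rf (kap K L q) (y - x)) := by
  have h1 : kA (fun n => ENNReal.ofReal (K n)) L (fun _ => ENNReal.ofReal q)
      = fun x y => ENNReal.ofReal (hom (kap K L q) x y) := by
    funext x y; exact kA_eq hK hq x y
  rw [h1, ren_ofReal (a := hom (kap K L q)) (fun x y => kap_nonneg hK hq _), ren_hom _ h]

end Pool.Agent.Cop

end
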