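import Mathlib
import Pool.Agent.Work.MP_cceb86_pr.Kernel

/-!
The window bound with the sharp constant.
-/

open Finset Real Filter Topology

noncomputable section

namespace Pool.Agent.Cop

variable {α c q : ℝ} {K : ℕ → ℝ} {L : ℕ}

/-- sharp lower bound for the tail -/
lemma IsLaw.tail_low_eps (hK : IsLaw α c K) (hc : 0 < c) (hα : 0 < α) (hα1 : α ≤ 1) {ε : ℝ}
    (hε : 0 < ε) (hε1 : ε ≤ 1) :
    ∀ᶠ L : ℕ in atTop, ∑ n ∈ Ioc 0 L, K n ≤ 1 - (1 - ε) * (c / α) * (L : ℝ) ^ (-α) := by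
  have h1 := hK.bounds hc (show (0 : ℝ) < ε / 3 by positivity)
  obtain ⟨n₀, hn₀⟩ := eventually_atTop.1 h1
  have h2 : ∀ᶠ L : ℕ in atTop, 1 - ε / 3 ≤ (1 + 1 / (L : ℝ)) ^ (-α) := by
    have ht : Tendsto (fun L : ℕ => (1 + 1 / (L : ℝ)) ^ (-α)) atTop (𝓝 ((1 + 0) ^ (-α))) := by
      refine Tendsto.rpow_const ?_ (Or.inl (by norm_num))
      exact tendsto_const_nhds.add tendsto_one_div_atTop_nhds_zero_nat
    rw [add_zero, Real.one_rpow] at ht
    exact (ht.eventually (lt_mem_nhds (show 1 - ε / 3 < 1 by linarith))).mono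
      fun _ h => h.le
  filter_upwards [h2, eventually_ge_atTop n₀, eventually_gt_atTop 0] with L hL hLn hL0
  have hL1 : (0 : ℝ) < L := by exact_mod_cast hL0
  have hε3 : 0 ≤ 1 - ε / 3 := by linarith
  -- partial sums
  have h3 : ∀ M, L ≤ M → (1 - ε / 3) * c / α * (((L + 1 : ℕ) : ℝ) ^ (-α)
      - ((M + 1 : ℕ) : ℝ) ^ (-α)) ≤ ∑ n ∈ Ioc L M, K n := by
    intro M hM
    induction M, hM using Nat.le_induction with
    | base => simp
    | succ M hM ih =>
      rw [← Finset.insert_Ioc_right_eq_Ioc_add_one hM, sum_insert (by simp)]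
      have h5 := (hn₀ (M + 1) (by omega)).1
      have h6 := tel_low hα hα1 (n := M + 1) (by omega)
      have h8 : (1 - ε / 3) * c * ((((M + 1 : ℕ) : ℝ) ^ (-α) - ((M + 1 + 1 : ℕ) : ℝ) ^ (-α)) / α)
          ≤ (1 - ε / 3) * c * (((M + 1 : ℕ) : ℝ) ^ (-(1 + α))) := by gcongr
      have h9 : (1 - ε / 3) * c / α * (((L + 1 : ℕ) : ℝ) ^ (-α) - ((M + 1 + 1 : ℕ) : ℝ) ^ (-α))
          = (1 - ε / 3) * c / α * (((L + 1 : ℕ) : ℝ) ^ (-α) - ((M + 1 : ℕ) : ℝ) ^ (-α))
            + (1 - ε / 3) * c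
              * ((((M + 1 : ℕ) : ℝ) ^ (-α) - ((M + 1 + 1 : ℕ) : ℝ) ^ (-α)) / α) := by
        ring
      linarith
  have h4 : ∀ M, L ≤ M → (1 - ε / 3) * c / α * (((L + 1 : ℕ) : ℝ) ^ (-α)
      - ((M + 1 : ℕ) : ℝ) ^ (-α)) ≤ 1 - ∑ n ∈ Ioc 0 L, K n := by
    intro M hM
    refine (h3 M hM).trans ?_
    have := hK.sum_le_one (Ioc 0 M)
    have h5 : ∑ n ∈ Ioc 0 M, K n = ∑ n ∈ Ioc 0 L, K n + ∑ n ∈ Ioc L M, K n := by
      rw [← sum_Ioc_consecutive _ (Nat.zero_le L) hM]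
    linarith
  have h5 : Tendsto (fun M : ℕ => (1 - ε / 3) * c / α *
      (((L + 1 : ℕ) : ℝ) ^ (-α) - ((M + 1 : ℕ) : ℝ) ^ (-α))) atTop
      (𝓝 ((1 - ε / 3) * c / α * (((L + 1 : ℕ) : ℝ) ^ (-α) - 0))) := by
    refine Tendsto.const_mul _ (tendsto_const_nhds.sub ?_)
    have h6 : Tendsto (fun x : ℝ => x ^ (-α)) atTop (𝓝 0) := tendsto_rpow_neg_atTop hα
    exact h6.comp (tendsto_natCast_atTop_atTop.comp (tendsto_add_atTop_nat 1))
  have h6 := le_of_tendsto h5 ((eventually_ge_atTop L).mono h4)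
  rw [sub_zero] at h6
  have h7 : ((L + 1 : ℕ) : ℝ) ^ (-α) = (L : ℝ) ^ (-α) * (1 + 1 / (L : ℝ)) ^ (-α) := by
    rw [← Real.mul_rpow hL1.le (by positivity)]
    congr 1
    push_cast
    field_simp
  have hp : 0 < (L : ℝ) ^ (-α) := Real.rpow_pos_of_pos hL1 _
  have h8 : (1 - ε) * (c / α) * (L : ℝ) ^ (-α)
      ≤ (1 - ε / 3) * c / α * ((L + 1 : ℕ) : ℝ) ^ (-α) := by
    rw [h7]
    calc (1 - ε) * (c / α) * (L : ℝ) ^ (-α)
        ≤ (1 - ε / 3) * (1 - ε / 3) * (c / α) * (L : ℝ) ^ (-α) := by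
          gcongr
          nlinarith
      _ = (1 - ε / 3) * c / α * ((L : ℝ) ^ (-α) * (1 - ε / 3)) := by
          ring
      _ ≤ (1 - ε / 3) * c / α * ((L : ℝ) ^ (-α) * (1 + 1 / (L : ℝ)) ^ (-α)) := by gcongr
  linarith

/-- sharp bound on the mass of the killed kernel -/
lemma kap_sum_sharp (hK : IsLaw α c K) (hF : KFacts α c K L) (hα : 0 < α) {d : ℝ} (_hd : 0 < d)
    (hαd : 12 * α ^ 2 ≤ d) (hc : 0 < c) (hq : 1 ≤ q) (hqL : q ^ L ≤ 1 + 4 * α)
    (ht : ∑ n ∈ Ioc 0 L, K n ≤ 1 - (1 - d / 2) * (c / α) * (L : ℝ) ^ (-α)) (M : ℕ) :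
    ∑ n ∈ Ioc 0 M, kap K L q n ≤ 1 - (1 - d) * (c / (2 * α)) * (L : ℝ) ^ (-α) := by
  have hL : 0 < L := by have := hF.big; omega
  have hL0 : (0 : ℝ) < L := by exact_mod_cast hL
  have hp : 0 < (L : ℝ) ^ (-α) := Real.rpow_pos_of_pos hL0 _
  have h1 : ∑ n ∈ Ioc 0 M, kap K L q n
      ≤ (∑ n ∈ Ioc 0 M, K n) / 2 + (∑ n ∈ Ioc 0 L, K n * q ^ n) / 2 := by
    have h2 : ∑ n ∈ Ioc 0 M, kap K L q n = (∑ n ∈ Ioc 0 M, K n) / 2
        + (∑ n ∈ Ioc 0 M, K n * (if n ≤ L then q ^ n else 0)) / 2 := by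
      rw [sum_div, sum_div, ← sum_add_distrib]
      refine sum_congr rfl fun n _ => ?_
      unfold kap; ring
    rw [h2]
    gcongr
    calc ∑ n ∈ Ioc 0 M, K n * (if n ≤ L then q ^ n else 0)
        = ∑ n ∈ (Ioc 0 M).filter (fun n => n ≤ L), K n * q ^ n := by
          rw [sum_filter]
          refine sum_congr rfl fun n _ => ?_
          split_ifs <;> simp
      _ ≤ ∑ n ∈ Ioc 0 L, K n * q ^ n := by
          refine sum_le_sum_of_subset_of_nonneg ?_ ?_
          · intro n; simp only [mem_filter, mem_Ioc]; omega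
          · intro n _ _
            have := hK.nonneg n
            have : 0 ≤ q := by linarith
            positivity
  have h2 : ∑ n ∈ Ioc 0 L, K n * q ^ n
      ≤ ∑ n ∈ Ioc 0 L, K n + 4 * α / L * ∑ n ∈ Ioc 0 L, (n : ℝ) * K n := by
    rw [mul_sum, ← sum_add_distrib]
    refine sum_le_sum fun n hn => ?_
    rw [mem_Ioc] at hn
    have h3 := q_pow_le hq hqL hL hn.2
    have h4 := hK.nonneg n
    calc K n * q ^ n ≤ K n * (1 + 4 * α * (n / L)) := by gcongr
      _ = K n + 4 * α / L * ((n : ℝ) * K n) := by ring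
  have h3 := hF.mean L (Nat.div_le_self _ _)
  have h5 := hK.sum_le_one (Ioc 0 M)
  have h6 : 4 * α / L * (3 / 2 * c * (L : ℝ) ^ (1 - α)) = 6 * α * c * (L : ℝ) ^ (-α) := by
    have : (L : ℝ) ^ (1 - α) = (L : ℝ) ^ (-α) * L := by
      rw [← Real.rpow_add_one hL0.ne']; congr 1; ring
    rw [this]; field_simp; ring
  have h7 : 4 * α / L * ∑ n ∈ Ioc 0 L, (n : ℝ) * K n ≤ 6 * α * c * (L : ℝ) ^ (-α) := by
    rw [← h6]; gcongr
  have h8 : (1 - d) * (c / (2 * α)) * (L : ℝ) ^ (-α)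
      ≤ (1 - d / 2) * (c / α) * (L : ℝ) ^ (-α) / 2 - 3 * α * c * (L : ℝ) ^ (-α) := by
    have h9 : (1 - d) * (c / (2 * α)) * (L : ℝ) ^ (-α)
        = c * (L : ℝ) ^ (-α) / (4 * α) * (2 * (1 - d)) := by field_simp; norm_num
    have h10 : (1 - d / 2) * (c / α) * (L : ℝ) ^ (-α) / 2 - 3 * α * c * (L : ℝ) ^ (-α)
        = c * (L : ℝ) ^ (-α) / (4 * α) * (2 - d - 12 * α ^ 2) := by field_simp; ring
    rw [h9, h10]
    refine mul_le_mul_of_nonneg_left ?_ (by positivity)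
    linarith
  linarith

/-- **The sharp window bound.** -/
theorem win_sharp {ε : ℝ} (hε : 0 < ε) :
    ∃ a₀ : ℝ, 0 < a₀ ∧ ∃ T : ℕ, ∀ α : ℝ, 0 < α → α < a₀ → ∀ c : ℝ, 0 < c → ∀ K : ℕ → ℝ,
      IsLaw α c K → ∀ᶠ L : ℕ in atTop, ∀ q : ℝ, 1 ≤ q → q ^ L ≤ 1 + 4 * α →
        (∀ M, ∑ n ∈ range M, rf (kap K L q) n ≤ (1 + ε) * (2 * α * ((L : ℝ) ^ α / c))) ∧
        ∀ x₀, T * L ≤ x₀ → ∑ x ∈ Ico x₀ (x₀ + L), rf (kap K L q) x
          ≤ (1 + ε) * (2 * α ^ 2 * ((L : ℝ) ^ α / c)) * ((x₀ : ℝ) / L) ^ (-(1 + α)) := by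
  set e : ℝ := min ε 1 with he
  have he0 : 0 < e := lt_min hε one_pos
  have he1 : e ≤ 1 := min_le_right _ _
  have heε : e ≤ ε := min_le_left _ _
  set d : ℝ := e / 20 with hd
  have hd0 : 0 < d := by positivity
  have hd1 : d ≤ 1 / 20 := by rw [hd]; linarith
  have hd1' : 0 < 1 - d := by linarith
  refine ⟨d ^ 4 / 960, by positivity, ⌈4 / d⌉₊, ?_⟩
  intro α hα hαa c hc K hK
  have hd4 : d ^ 4 ≤ d := by
    have : d ^ 3 ≤ 1 := pow_le_one₀ hd0.le (by linarith)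
    nlinarith
  have hα10 : α ≤ 1 / 10 := by nlinarith
  have hαd : 12 * α ^ 2 ≤ d := by nlinarith
  obtain ⟨n₀, hn₀⟩ := eventually_atTop.1 (hK.bounds hc hd0)
  filter_upwards [hK.kfacts hc hα hα10, hK.tail_low_eps hc hα (by linarith)
    (show 0 < d / 2 by positivity) (by linarith), eventually_ge_atTop n₀] with L hF ht hLn
  intro q hq hqL
  have hL : 0 < L := by have := hF.big; omega
  have hL0 : (0 : ℝ) < L := by exact_mod_cast hL
  have hL1000 : (1000 : ℝ) ≤ L := by exact_mod_cast hF.big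
  have hp : 0 < (L : ℝ) ^ (-α) := Real.rpow_pos_of_pos hL0 _
  have hpp : 0 < (L : ℝ) ^ α := Real.rpow_pos_of_pos hL0 _
  have hpinv : (L : ℝ) ^ (-α) = ((L : ℝ) ^ α)⁻¹ := Real.rpow_neg hL0.le _
  set κ : ℕ → ℝ := kap K L q with hκ
  have h0 : ∀ n, 0 ≤ κ n := kap_nonneg hK.nonneg hq
  set η : ℝ := (1 - d) * (c / (2 * α)) * (L : ℝ) ^ (-α) with hη
  have hη0 : 0 < η := by positivity
  have h1 : ∀ M, ∑ n ∈ Ioc 0 M, κ n ≤ 1 - η :=
    kap_sum_sharp hK hF hα hd0 hαd hc hq hqL ht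
  set A : ℝ := 2 * α * ((L : ℝ) ^ α / c) with hA
  have hA0 : 0 < A := by positivity
  have hηA : 1 / η = A / (1 - d) := by
    rw [hη, hA, hpinv]; field_simp
  constructor
  · intro M
    refine (rf_total h0 hη0 h1 M).trans ?_
    rw [hηA, div_le_iff₀ hd1']
    have h5 : 1 ≤ (1 + e) * (1 - d) := by
      have h6 : (1 + e) * (1 - d) = 1 + d * (19 - 20 * d) := by rw [hd]; ring
      rw [h6]
      have : 0 ≤ d * (19 - 20 * d) := mul_nonneg hd0.le (by linarith)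
      linarith
    have h6 : (1 + e) * (1 - d) ≤ (1 + ε) * (1 - d) := by gcongr
    calc A = 1 * A := (one_mul _).symm
      _ ≤ ((1 + ε) * (1 - d)) * A := by
          refine mul_le_mul_of_nonneg_right ?_ hA0.le
          linarith
      _ = (1 + ε) * A * (1 - d) := by ring
  · intro x₀ hx₀
    have hTd : 4 / d ≤ (⌈4 / d⌉₊ : ℝ) := Nat.le_ceil _
    have hx1 : 4 / d * L ≤ x₀ := by
      have h5 : ((⌈4 / d⌉₊ : ℝ)) * L ≤ x₀ := by exact_mod_cast hx₀
      have : 4 / d * L ≤ (⌈4 / d⌉₊ : ℝ) * L := by gcongr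
      linarith
    have hx2 : 4 * L ≤ d * x₀ := by
      rw [div_mul_eq_mul_div, div_le_iff₀ hd0] at hx1
      linarith
    have hx0 : (0 : ℝ) < x₀ := by
      have h5 : 0 < 4 / d * L := by positivity
      linarith
    have hdx : 0 < d * x₀ := by positivity
    have hdx1 : d * x₀ ≤ 1 / 20 * x₀ := by gcongr
    have hLx : (L : ℝ) ≤ x₀ := by linarith
    set Dx : ℝ := ((x₀ : ℝ) / L) ^ (-(1 + α)) with hDx
    have hDx0 : 0 < Dx := Real.rpow_pos_of_pos (by positivity) _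
    set R : ℕ := ⌊(1 - d) * x₀⌋₊ with hR
    set T₀ : ℕ := ⌊d / 2 * x₀⌋₊ with hT
    have hR1 : (R : ℝ) ≤ (1 - d) * x₀ := Nat.floor_le (by positivity)
    have hR2 : (1 - d) * x₀ < R + 1 := Nat.lt_floor_add_one _
    have hT1 : (T₀ : ℝ) ≤ d / 2 * x₀ := Nat.floor_le (by positivity)
    have hT2 : d / 2 * x₀ < T₀ + 1 := Nat.lt_floor_add_one _
    have hT3 : d / 4 * x₀ ≤ T₀ := by linarith
    have hT4 : (0 : ℝ) < T₀ := lt_of_lt_of_le (by positivity) hT3
    set κs : ℕ → ℝ := fun n => if n ≤ R then κ n else 0 with hκs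
    have hs0 : ∀ n, 0 ≤ κs n := by
      intro n; simp only [hκs]; split_ifs; exacts [h0 n, le_rfl]
    have hsle : ∀ n, κs n ≤ κ n := by
      intro n; simp only [hκs]; split_ifs; exacts [le_rfl, h0 n]
    have hRL : L ≤ R := by
      have : (L : ℝ) < R + 1 := by linarith
      have : L < R + 1 := by exact_mod_cast this
      omega
    -- the big jumps
    set b : ℝ := (1 + d) * c / 2 * ((1 - d) * x₀) ^ (-(1 + α)) with hb
    have hb0 : 0 ≤ b := by positivity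
    have hbig := big_window h0 hη0 h1 (R := R) hb0 (by
      intro n hn
      have hn1 : (1 - d) * x₀ ≤ n := by
        have : (R : ℝ) + 1 ≤ n := by exact_mod_cast hn
        linarith
      have hnL : ¬ n ≤ L := by omega
      have e1 : κ n = K n / 2 := by
        rw [hκ]; unfold kap; rw [if_neg hnL]; ring
      have e2 := (hn₀ n (by omega)).2
      have e3 : (n : ℝ) ^ (-(1 + α)) ≤ ((1 - d) * x₀) ^ (-(1 + α)) :=
        Real.rpow_le_rpow_of_nonpos (by positivity) hn1 (by linarith)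
      rw [e1, hb]
      calc K n / 2 ≤ (1 + d) * c * (n : ℝ) ^ (-(1 + α)) / 2 := by gcongr
        _ ≤ (1 + d) * c * ((1 - d) * x₀) ^ (-(1 + α)) / 2 := by gcongr
        _ = _ := by ring) x₀ L
    have hxpow : (x₀ : ℝ) ^ (-(1 + α)) * L = (L : ℝ) ^ (-α) * Dx := by
      rw [hDx, Real.div_rpow hx0.le hL0.le]
      have e1 : (L : ℝ) ^ (-α) = (L : ℝ) ^ (-(1 + α)) * L := by
        rw [← Real.rpow_add_one hL0.ne']; congr 1; ring
      have : (L : ℝ) ^ (-(1 + α)) ≠ 0 := (Real.rpow_pos_of_pos hL0 _).ne'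
      rw [e1]; field_simp
    have hd2 : (1 - d) ^ (-(1 + α)) ≤ ((1 - d) ^ 2)⁻¹ := by
      rw [← Real.rpow_natCast, ← Real.rpow_neg hd1'.le]
      refine Real.rpow_le_rpow_of_exponent_ge hd1' (by linarith) ?_
      push_cast; linarith
    have hbig2 : b * L / η ^ 2 ≤ (1 + 10 * d) * (α * A * Dx) := by
      have e3 : b * L / η ^ 2 = b * L * (1 / η) ^ 2 := by rw [div_pow, one_pow]; ring
      rw [e3, hηA]
      have e4 : b * L = (1 + d) * c / 2 * (1 - d) ^ (-(1 + α)) * ((L : ℝ) ^ (-α) * Dx) := by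
        rw [hb, Real.mul_rpow hd1'.le hx0.le, ← hxpow]; ring
      have e5 : c * (L : ℝ) ^ (-α) * A = 2 * α := by
        rw [hA, hpinv]; field_simp
      have e6 : (1 + d) * (1 - d) ^ (-(1 + α)) ≤ (1 + 10 * d) * (1 - d) ^ 2 := by
        calc (1 + d) * (1 - d) ^ (-(1 + α)) ≤ (1 + d) * ((1 - d) ^ 2)⁻¹ := by gcongr
          _ ≤ (1 + 10 * d) * (1 - d) ^ 2 := by
              rw [← div_eq_mul_inv, div_le_iff₀ (by positivity)]
              have h4 : 1 - 4 * d ≤ (1 - d) ^ 2 * (1 - d) ^ 2 := by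
                have e1 : (1 - d) ^ 2 * (1 - d) ^ 2 = 1 - 4 * d + d ^ 2 * (6 - 4 * d + d ^ 2) := by
                  ring
                have e2 : 0 ≤ d ^ 2 * (6 - 4 * d + d ^ 2) :=
                  mul_nonneg (sq_nonneg d) (by linarith [sq_nonneg d])
                linarith
              have h4' : 1 + d ≤ (1 + 10 * d) * (1 - 4 * d) := by
                have e1 : (1 + 10 * d) * (1 - 4 * d) = 1 + d + 5 * d * (1 - 8 * d) := by ring
                have e2 : 0 ≤ 5 * d * (1 - 8 * d) := mul_nonneg (by positivity) (by linarith)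
                linarith
              calc 1 + d ≤ (1 + 10 * d) * (1 - 4 * d) := h4'
                _ ≤ (1 + 10 * d) * ((1 - d) ^ 2 * (1 - d) ^ 2) := by gcongr
                _ = _ := by ring
      calc b * L * (A / (1 - d)) ^ 2
          = (1 + d) * (1 - d) ^ (-(1 + α)) / (1 - d) ^ 2 * (c * (L : ℝ) ^ (-α) * A)
              * A * Dx / 2 := by rw [e4, div_pow]; ring
        _ = (1 + d) * (1 - d) ^ (-(1 + α)) / (1 - d) ^ 2 * (α * A * Dx) := by rw [e5]; ring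
        _ ≤ (1 + 10 * d) * (1 - d) ^ 2 / (1 - d) ^ 2 * (α * A * Dx) := by gcongr
        _ = (1 + 10 * d) * (α * A * Dx) := by field_simp
    -- the small jumps
    have hwin := (kap_window hK hF hα hα10 hc hq hqL).2
    set Mx : ℝ := 600 / d ^ 2 * (α * A * Dx) with hMx
    have hMx0 : 0 ≤ Mx := by positivity
    have hg := rf_nonneg h0
    have hTR : T₀ + R ≤ x₀ := by
      have : (T₀ : ℝ) + R ≤ x₀ := by linarith
      exact_mod_cast this
    have hsm := small_window (κ := κs) hs0 hη0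
      (fun M => (sum_le_sum fun n _ => hsle n).trans (h1 M)) (R := R)
      (μ := 9 / 5 * c * (R : ℝ) ^ (1 - α)) (T₀ := T₀) (x₀ := x₀) (L := L)
      (by intro n hn; simp only [hκs]; rw [if_neg (by omega)])
      (by
        have h2 := hF.mean R ((Nat.div_le_self _ _).trans hRL)
        calc ∑ z ∈ Ioc 0 R, (z : ℝ) * κs z ≤ ∑ n ∈ Ioc 0 R, (n : ℝ) * (6 / 5 * K n) := by
              gcongr with n _
              exact (hsle n).trans (kap_le hK.nonneg hα hα10 hq hqL n)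
          _ = 6 / 5 * ∑ n ∈ Ioc 0 R, (n : ℝ) * K n := by
              rw [mul_sum]; exact sum_congr rfl fun n _ => by ring
          _ ≤ 6 / 5 * (3 / 2 * c * (R : ℝ) ^ (1 - α)) := by gcongr
          _ = _ := by ring)
      (by exact_mod_cast hT4) hTR hMx0 (by
        intro z hz1 hz2
        have hz3 : z ≤ x₀ := by omega
        have e1 : ∑ x ∈ Ico x₀ (x₀ + L), rf κs (x - z)
            ≤ ∑ x ∈ Ico (x₀ - z) (x₀ - z + L), rf κ x := by
          have e : Ico x₀ (x₀ + L) = Ico ((x₀ - z) + z) ((x₀ - z + L) + z) := by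
            congr 1 <;> omega
          rw [e, ← Finset.sum_Ico_add']
          refine sum_le_sum fun x _ => ?_
          rw [Nat.add_sub_cancel]
          exact rf_mono hs0 hsle x
        refine e1.trans ?_
        have hxz : d / 2 * (x₀ : ℝ) ≤ ((x₀ - z : ℕ) : ℝ) := by
          rw [Nat.cast_sub hz3]
          have : (z : ℝ) + 1 ≤ T₀ + R := by exact_mod_cast hz2
          linarith
        have hzL : L ≤ x₀ - z := by
          have : (L : ℝ) ≤ ((x₀ - z : ℕ) : ℝ) := by linarith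
          exact_mod_cast this
        refine (hwin (x₀ - z) hzL).trans ?_
        have h5 : (((x₀ - z : ℕ) : ℝ) / L) ^ (-(1 + α)) ≤ 4 / d ^ 2 * Dx := by
          calc (((x₀ - z : ℕ) : ℝ) / L) ^ (-(1 + α))
              ≤ ((d / 2) * ((x₀ : ℝ) / L)) ^ (-(1 + α)) := by
                refine Real.rpow_le_rpow_of_nonpos (by positivity) ?_ (by linarith)
                rw [← mul_div_assoc]
                gcongr
            _ = (d / 2) ^ (-(1 + α)) * Dx := by
                rw [Real.mul_rpow (by positivity) (by positivity), hDx]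
            _ ≤ (d / 2) ^ (-(2 : ℝ)) * Dx := by
                refine mul_le_mul_of_nonneg_right ?_ hDx0.le
                exact Real.rpow_le_rpow_of_exponent_ge (by positivity) (by linarith)
                  (by linarith)
            _ = 4 / d ^ 2 * Dx := by
                rw [Real.rpow_neg (by positivity), Real.rpow_two]; field_simp; norm_num
        calc 300 * α ^ 2 * ((L : ℝ) ^ α / c) * (((x₀ - z : ℕ) : ℝ) / L) ^ (-(1 + α))
            ≤ 300 * α ^ 2 * ((L : ℝ) ^ α / c) * (4 / d ^ 2 * Dx) := by gcongr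
          _ = Mx := by rw [hMx, hA]; ring)
    have hratio : (9 / 5 * c * (R : ℝ) ^ (1 - α) / η) / T₀ ≤ 16 * α / d := by
      have e1 : (R : ℝ) ^ (1 - α) ≤ (x₀ : ℝ) ^ (1 - α) :=
        Real.rpow_le_rpow (by positivity) (by linarith) (by linarith)
      have e2 : (L : ℝ) ^ α * (x₀ : ℝ) ^ (1 - α) ≤ x₀ := by
        have h5 : (x₀ : ℝ) ^ (1 - α) = (x₀ : ℝ) * (x₀ : ℝ) ^ (-α) := by
          rw [mul_comm, ← Real.rpow_add_one (by positivity)]; congr 1; ring
        have h7 : (L : ℝ) ^ α * (x₀ : ℝ) ^ (-α) ≤ 1 := by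
          rw [Real.rpow_neg hx0.le, ← div_eq_mul_inv, div_le_one (Real.rpow_pos_of_pos hx0 _)]
          exact Real.rpow_le_rpow hL0.le hLx hα.le
        calc (L : ℝ) ^ α * (x₀ : ℝ) ^ (1 - α) = x₀ * ((L : ℝ) ^ α * (x₀ : ℝ) ^ (-α)) := by
              rw [h5]; ring
          _ ≤ x₀ * 1 := by gcongr
          _ = x₀ := mul_one _
      rw [div_le_iff₀ hT4]
      calc 9 / 5 * c * (R : ℝ) ^ (1 - α) / η
          = 9 / 5 * c * (R : ℝ) ^ (1 - α) * (1 / η) := by ring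
        _ ≤ 9 / 5 * c * (x₀ : ℝ) ^ (1 - α) * (A / (1 - d)) := by rw [hηA]; gcongr
        _ = 18 / 5 * α / (1 - d) * ((L : ℝ) ^ α * (x₀ : ℝ) ^ (1 - α)) := by
            rw [hA]; field_simp; ring
        _ ≤ 18 / 5 * α / (1 - d) * x₀ := by gcongr
        _ ≤ 4 * α * x₀ := by
            have : 18 / 5 * α / (1 - d) ≤ 4 * α := by
              rw [div_le_iff₀ hd1']
              have e1 : 0 ≤ α * (2 / 5 - 4 * d) := mul_nonneg hα.le (by linarith)
              linarith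
            gcongr
        _ = 16 * α / d * (d / 4 * x₀) := by field_simp; ring
        _ ≤ 16 * α / d * T₀ := by gcongr
    have hfin : Mx * (16 * α / d) ≤ 10 * d * (α * A * Dx) := by
      have e1 : Mx * (16 * α / d) = 9600 * α / d ^ 3 * (α * A * Dx) := by
        rw [hMx]; field_simp; ring
      rw [e1]
      have e2 : 9600 * α / d ^ 3 ≤ 10 * d := by
        rw [div_le_iff₀ (by positivity)]
        have e3 : 10 * d * d ^ 3 = 10 * d ^ 4 := by ring
        linarith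
      gcongr
    calc ∑ x ∈ Ico x₀ (x₀ + L), rf κ x
        ≤ ∑ x ∈ Ico x₀ (x₀ + L), rf κs x + b * L / η ^ 2 := hbig
      _ ≤ Mx * (9 / 5 * c * (R : ℝ) ^ (1 - α) / η) / T₀ + (1 + 10 * d) * (α * A * Dx) := by
          gcongr
      _ = Mx * ((9 / 5 * c * (R : ℝ) ^ (1 - α) / η) / T₀) + (1 + 10 * d) * (α * A * Dx) := by
          ring
      _ ≤ Mx * (16 * α / d) + (1 + 10 * d) * (α * A * Dx) := by gcongr
      _ ≤ 10 * d * (α * A * Dx) + (1 + 10 * d) * (α * A * Dx) := by gcongr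
      _ = (1 + e) * (α * A * Dx) := by rw [hd]; ring
      _ ≤ (1 + ε) * (α * A * Dx) := by gcongr
      _ = _ := by rw [hA]; ring

end Pool.Agent.Cop

end
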