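import Mathlib
import Pool.Agent.Work.MP_cceb86_pr.WinSharp
import Pool.Agent.Work.MP_cceb86_pr.Sums

/-!
Sharp lower bound for the mass of the killed renewal function before `L e^{A/α}`.
-/

open Finset Real Filter Topology

noncomputable section

namespace Pool.Agent.Cop

variable {α c : ℝ} {K : ℕ → ℝ}

/-- sharp upper bound for the tail -/
lemma IsLaw.tail_up_eps (hK : IsLaw α c K) (hc : 0 < c) (hα : 0 < α) (hα1 : α ≤ 1) {ε : ℝ}
    (hε : 0 < ε) :
    ∀ᶠ L : ℕ in atTop, 1 - (1 + ε) * (c / α) * (L : ℝ) ^ (-α) ≤ ∑ n ∈ Ioc 0 L, K n := by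
  obtain ⟨n₀, hn₀⟩ := eventually_atTop.1 (hK.bounds hc hε)
  filter_upwards [eventually_ge_atTop n₀, eventually_gt_atTop 0] with L hLn hL0
  have hL1 : (0 : ℝ) < L := by exact_mod_cast hL0
  have h3 : ∀ M, L ≤ M → ∑ n ∈ Ioc L M, K n
      ≤ (1 + ε) * (c / α) * ((L : ℝ) ^ (-α) - (M : ℝ) ^ (-α)) := by
    intro M hM
    induction M, hM using Nat.le_induction with
    | base => simp
    | succ M hM ih =>
      rw [← Finset.insert_Ioc_right_eq_Ioc_add_one hM, sum_insert (by simp)]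
      have h5 := (hn₀ (M + 1) (by omega)).2
      have h6 := tel_zeta hα hα1 (n := M) (by omega)
      have h8 : (1 + ε) * c * (((M + 1 : ℕ) : ℝ) ^ (-(1 + α)))
          ≤ (1 + ε) * c * (((M : ℝ) ^ (-α) - ((M + 1 : ℕ) : ℝ) ^ (-α)) / α) := by gcongr
      have h9 : (1 + ε) * (c / α) * ((L : ℝ) ^ (-α) - ((M + 1 : ℕ) : ℝ) ^ (-α))
          = (1 + ε) * (c / α) * ((L : ℝ) ^ (-α) - (M : ℝ) ^ (-α))
            + (1 + ε) * c * (((M : ℝ) ^ (-α) - ((M + 1 : ℕ) : ℝ) ^ (-α)) / α) := by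
        ring
      linarith
  -- partial sums of `K` tend to one
  have h4 : Tendsto (fun M : ℕ => ∑ n ∈ range M, K n) atTop (𝓝 1) := hK.sum.tendsto_sum_nat
  refine le_of_tendsto_of_tendsto
    (f := fun M : ℕ => ∑ n ∈ range (M + 1), K n - (1 + ε) * (c / α) * (L : ℝ) ^ (-α)) ?_
    (tendsto_const_nhds (f := atTop (α := ℕ))) ?_
  · exact ((h4.comp (tendsto_add_atTop_nat 1)).sub tendsto_const_nhds)
  · filter_upwards [eventually_ge_atTop L] with M hM
    have h5 : ∑ n ∈ range (M + 1), K n = ∑ n ∈ Ioc 0 L, K n + ∑ n ∈ Ioc L M, K n := by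
      rw [sum_Ioc_consecutive _ (Nat.zero_le L) hM, sum_range_succ', hK.zero, add_zero,
        Finset.range_eq_Ico, Finset.sum_Ico_add' (fun n => K n) 0 M 1]
      rfl
    have h6 := h3 M hM
    have h7 : 0 ≤ (1 + ε) * (c / α) * (M : ℝ) ^ (-α) := by positivity
    have h8 : (1 + ε) * (c / α) * ((L : ℝ) ^ (-α) - (M : ℝ) ^ (-α))
      = (1 + ε) * (c / α) * (L : ℝ) ^ (-α) - (1 + ε) * (c / α) * (M : ℝ) ^ (-α) := by ring
    rw [h5]
    linarith

/-- superadditivity of the partial sums of the renewal function -/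
lemma rf_super {κ : ℕ → ℝ} (h0 : ∀ n, 0 ≤ κ n) (M : ℕ) :
    1 + (∑ n ∈ Ioc 0 M, κ n) * ∑ n ∈ range M, rf κ n ≤ ∑ n ∈ range (2 * M + 1), rf κ n := by
  have hr := rf_nonneg h0
  calc 1 + (∑ n ∈ Ioc 0 M, κ n) * ∑ n ∈ range M, rf κ n
      = 1 + ∑ z ∈ Ioc 0 M, ∑ m ∈ range M, κ z * rf κ m := by rw [sum_mul_sum]
    _ ≤ 1 + ∑ n ∈ Ico 1 (2 * M + 1), ∑ z ∈ Ioc 0 n, κ z * rf κ (n - z) := by
        refine (add_le_add_iff_left 1).2 ?_
        rw [← sum_product', sum_sigma']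
        have hinj : Set.InjOn (fun p : ℕ × ℕ => (⟨p.1 + p.2, p.1⟩ : (_ : ℕ) × ℕ))
            ((Ioc 0 M ×ˢ range M : Finset (ℕ × ℕ)) : Set (ℕ × ℕ)) := by
          rintro ⟨a, b⟩ _ ⟨a', b'⟩ _ hpq
          simp only [Sigma.mk.injEq, heq_eq_eq] at hpq
          obtain ⟨h1, h2⟩ := hpq
          subst h2
          have : b = b' := by omega
          rw [this]
        have himg := sum_image (f := fun q : (_ : ℕ) × ℕ => κ q.2 * rf κ (q.1 - q.2)) hinj
        have e1 : ∑ p ∈ Ioc 0 M ×ˢ range M, κ p.1 * rf κ p.2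
            = ∑ p ∈ Ioc 0 M ×ˢ range M, κ p.1 * rf κ (p.1 + p.2 - p.1) := by
          refine sum_congr rfl fun p _ => ?_
          rw [Nat.add_sub_cancel_left]
        rw [e1, ← himg]
        refine sum_le_sum_of_subset_of_nonneg ?_ ?_
        · intro q hq
          simp only [mem_image, mem_product, mem_Ioc, mem_range] at hq
          obtain ⟨p, ⟨hp1, hp2⟩, rfl⟩ := hq
          simp only [mem_sigma, mem_Ioc, mem_Ico]
          omega
        · intro q _ _
          exact mul_nonneg (h0 _) (hr _)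
    _ = rf κ 0 + ∑ n ∈ Ico 1 (2 * M + 1), rf κ n := by
        rw [rf_zero]
        congr 1
        refine sum_congr rfl fun n hn => ?_
        rw [mem_Ico] at hn
        rw [rf_left κ (by omega)]
    _ = ∑ n ∈ range (2 * M + 1), rf κ n := by
        rw [range_eq_Ico, ← sum_Ico_consecutive _ (Nat.zero_le 1) (by omega)]
        simp

/-- windows: the mass of `[M, M + N L)`. -/
lemma tail_windows {f : ℕ → ℝ} {L M i₀ : ℕ} {B α : ℝ} (hL : 0 < L) (hB : 0 ≤ B) (hα : 0 < α)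
    (hα1 : α ≤ 1) (hi : 2 ≤ i₀) (hM : i₀ * L ≤ M)
    (hw : ∀ x₀, M ≤ x₀ → ∑ x ∈ Ico x₀ (x₀ + L), f x ≤ B * ((x₀ : ℝ) / L) ^ (-(1 + α))) (N : ℕ) :
    ∑ n ∈ Ico M (M + N * L), f n ≤ B * (((i₀ - 1 : ℕ) : ℝ) ^ (-α) / α) := by
  have hL0 : (0 : ℝ) < L := by exact_mod_cast hL
  have h : ∀ N : ℕ, ∑ n ∈ Ico M (M + N * L), f n
      ≤ B * ((((i₀ - 1 : ℕ) : ℝ) ^ (-α) - ((i₀ - 1 + N : ℕ) : ℝ) ^ (-α)) / α) := by
    intro N
    induction N with
    | zero => simp
    | succ N ih =>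
      have e1 : M + (N + 1) * L = M + N * L + L := by ring
      rw [e1, ← sum_Ico_consecutive _ (show M ≤ M + N * L by omega)
        (show M + N * L ≤ M + N * L + L by omega)]
      have h1 := hw (M + N * L) (by omega)
      have h2 : ((i₀ - 1 + N + 1 : ℕ) : ℝ) ≤ ((M + N * L : ℕ) : ℝ) / L := by
        rw [le_div_iff₀ hL0]
        have : (i₀ - 1 + N + 1) * L ≤ M + N * L := by
          have e : i₀ - 1 + N + 1 = i₀ + N := by omega
          rw [e, add_mul]; omega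
        exact_mod_cast this
      have h3 : (((M + N * L : ℕ) : ℝ) / L) ^ (-(1 + α)) ≤ ((i₀ - 1 + N + 1 : ℕ) : ℝ) ^ (-(1 + α)) :=
        Real.rpow_le_rpow_of_nonpos (by positivity) h2 (by linarith)
      have h4 := tel_zeta hα hα1 (n := i₀ - 1 + N) (by omega)
      have h5 : B * (((M + N * L : ℕ) : ℝ) / L) ^ (-(1 + α))
          ≤ B * ((((i₀ - 1 + N : ℕ) : ℝ) ^ (-α) - ((i₀ - 1 + N + 1 : ℕ) : ℝ) ^ (-α)) / α) :=
        mul_le_mul_of_nonneg_left (h3.trans h4) hB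
      have h6 : B * ((((i₀ - 1 : ℕ) : ℝ) ^ (-α) - ((i₀ - 1 + (N + 1) : ℕ) : ℝ) ^ (-α)) / α)
          = B * ((((i₀ - 1 : ℕ) : ℝ) ^ (-α) - ((i₀ - 1 + N : ℕ) : ℝ) ^ (-α)) / α)
            + B * ((((i₀ - 1 + N : ℕ) : ℝ) ^ (-α) - ((i₀ - 1 + N + 1 : ℕ) : ℝ) ^ (-α)) / α) := by
        rw [show i₀ - 1 + (N + 1) = i₀ - 1 + N + 1 by omega]
        ring
      linarith
  refine (h N).trans ?_
  have : 0 ≤ ((i₀ - 1 + N : ℕ) : ℝ) ^ (-α) := by positivity
  gcongr
  linarith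

/-- **Sharp mass bound.** -/
theorem mass_low {eps : ℝ} (he : 0 < eps) :
    ∃ a0 : ℝ, 0 < a0 ∧ ∃ A : ℝ, 0 < A ∧ ∀ α : ℝ, 0 < α → α < a0 → ∀ c : ℝ, 0 < c →
      ∀ K : ℕ → ℝ, IsLaw α c K → ∀ᶠ L : ℕ in atTop, ∀ M : ℕ,
        (L : ℝ) * Real.exp (A / α) ≤ M →
          (1 - eps) * (2 * α * ((L : ℝ) ^ α / c)) ≤ ∑ n ∈ range M, rf (kap K L 1) n := by
  -- without loss of generality `eps ≤ 1`
  set e : ℝ := min eps 1 with he'
  have he0 : 0 < e := lt_min he one_pos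
  have he1 : e ≤ 1 := min_le_right _ _
  have hee : e ≤ eps := min_le_left _ _
  obtain ⟨a₀, ha₀, T, hT⟩ := win_sharp (show (0 : ℝ) < e / 4 by positivity)
  set A : ℝ := Real.log (16 / e) with hA
  have h16 : 16 ≤ 16 / e := by rw [le_div_iff₀ he0]; linarith
  have hA0 : 0 < A := Real.log_pos (by linarith)
  have hexpA : Real.exp A = 16 / e := Real.exp_log (by positivity)
  refine ⟨min a₀ (min (1 / 2) (A / (T + 1))), by positivity, A, hA0, ?_⟩
  intro α hα hαa c hc K hK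
  have hαa₀ : α < a₀ := hαa.trans_le (min_le_left _ _)
  have hα2 : α < 1 / 2 := hαa.trans_le ((min_le_right _ _).trans (min_le_left _ _))
  have hαT : α < A / (T + 1) := hαa.trans_le ((min_le_right _ _).trans (min_le_right _ _))
  have hα1 : α ≤ 1 := by linarith
  filter_upwards [hT α hα hαa₀ c hc K hK, hK.tail_up_eps hc hα hα1 (show 0 < e / 4 by positivity),
    eventually_gt_atTop 0] with L hwin htail hL M hM
  have hL0 : (0 : ℝ) < L := by exact_mod_cast hL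
  have hpp : 0 < (L : ℝ) ^ α := Real.rpow_pos_of_pos hL0 _
  have hpinv : (L : ℝ) ^ (-α) = ((L : ℝ) ^ α)⁻¹ := Real.rpow_neg hL0.le _
  obtain ⟨hw1, hw2⟩ := hwin 1 le_rfl (by rw [one_pow]; linarith)
  set κ : ℕ → ℝ := kap K L 1 with hκ
  have h0 : ∀ n, 0 ≤ κ n := kap_nonneg hK.nonneg le_rfl
  have hr := rf_nonneg h0
  set A₀ : ℝ := 2 * α * ((L : ℝ) ^ α / c) with hA₀
  have hA₀0 : 0 < A₀ := by positivity
  -- the limits
  have hsumr : Summable (rf κ) :=
    summable_of_sum_range_le hr hw1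
  have hκK : ∀ n, κ n ≤ K n := by
    intro n
    have := hK.nonneg n
    rw [hκ]; unfold kap
    split_ifs
    · rw [one_pow]; linarith
    · linarith
  have hsumκ : Summable κ := Summable.of_nonneg_of_le h0 hκK hK.sum.summable
  set S : ℝ := ∑' n, rf κ n with hS
  have hSlim : Tendsto (fun M : ℕ => ∑ n ∈ range M, rf κ n) atTop (𝓝 S) :=
    hsumr.hasSum.tendsto_sum_nat
  have hS0 : 0 ≤ S := tsum_nonneg hr
  -- lower bound for the mass of the kernel
  set η : ℝ := (1 + e / 4) * (c / (2 * α)) * (L : ℝ) ^ (-α) with hη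
  have hη0 : 0 < η := by rw [hη, hpinv]; positivity
  have hKlim : Tendsto (fun M : ℕ => ∑ n ∈ Ioc 0 M, K n) atTop (𝓝 1) := by
    have h4 : Tendsto (fun M : ℕ => ∑ n ∈ range M, K n) atTop (𝓝 1) := hK.sum.tendsto_sum_nat
    refine (h4.comp (tendsto_add_atTop_nat 1)).congr fun M => ?_
    simp only [Function.comp]
    rw [sum_range_succ', hK.zero, add_zero, Finset.range_eq_Ico,
      Finset.sum_Ico_add' (fun n => K n) 0 M 1]
    rfl
  have hκlim : Tendsto (fun M : ℕ => ∑ n ∈ Ioc 0 M, κ n) atTop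
      (𝓝 ((1 + ∑ n ∈ Ioc 0 L, K n) / 2)) := by
    have h5 : Tendsto (fun M : ℕ => (∑ n ∈ Ioc 0 M, K n + ∑ n ∈ Ioc 0 L, K n) / 2) atTop
        (𝓝 ((1 + ∑ n ∈ Ioc 0 L, K n) / 2)) := (hKlim.add tendsto_const_nhds).div_const 2
    refine h5.congr' ?_
    filter_upwards [eventually_ge_atTop L] with M hM
    rw [← sum_Ioc_consecutive _ (Nat.zero_le L) hM, ← sum_Ioc_consecutive κ (Nat.zero_le L) hM]
    have e1 : ∑ n ∈ Ioc 0 L, κ n = ∑ n ∈ Ioc 0 L, K n := by
      refine sum_congr rfl fun n hn => ?_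
      rw [mem_Ioc] at hn
      rw [hκ]; unfold kap
      rw [if_pos hn.2, one_pow]; ring
    have e2 : ∑ n ∈ Ioc L M, κ n = (∑ n ∈ Ioc L M, K n) / 2 := by
      rw [sum_div]
      refine sum_congr rfl fun n hn => ?_
      rw [mem_Ioc] at hn
      rw [hκ]; unfold kap
      rw [if_neg (by omega)]; ring
    rw [e1, e2]; ring
  have hη1 : 1 - η ≤ (1 + ∑ n ∈ Ioc 0 L, K n) / 2 := by
    have : (1 + e / 4) * (c / α) * (L : ℝ) ^ (-α) = 2 * η := by rw [hη]; field_simp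
    rw [this] at htail
    linarith
  have hSη : 1 ≤ η * S := by
    have h6 : Tendsto (fun M : ℕ => 1 + (∑ n ∈ Ioc 0 M, κ n) * ∑ n ∈ range M, rf κ n) atTop
        (𝓝 (1 + (1 + ∑ n ∈ Ioc 0 L, K n) / 2 * S)) := tendsto_const_nhds.add (hκlim.mul hSlim)
    have h7 : 1 + (1 + ∑ n ∈ Ioc 0 L, K n) / 2 * S ≤ S := by
      refine le_of_tendsto' h6 fun M => ?_
      refine (rf_super h0 M).trans ?_
      exact hsumr.sum_le_tsum _ (fun n _ => hr n)
    have h8 : (1 - η) * S ≤ (1 + ∑ n ∈ Ioc 0 L, K n) / 2 * S := by gcongr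
    nlinarith
  have hSlow : (1 - e / 4) * A₀ ≤ S := by
    have h9 : η * A₀ = 1 + e / 4 := by
      rw [hη, hA₀, hpinv]; field_simp
    have h10 : η * ((1 - e / 4) * A₀) ≤ η * S := by
      calc η * ((1 - e / 4) * A₀) = (1 - e / 4) * (η * A₀) := by ring
        _ = (1 - e / 4) * (1 + e / 4) := by rw [h9]
        _ ≤ 1 := by nlinarith
        _ ≤ η * S := hSη
    exact le_of_mul_le_mul_left h10 hη0
  -- the tail
  have hy1 : Real.exp (A / α) ≤ (M : ℝ) / L := by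
    rw [le_div_iff₀ hL0]; linarith
  have hAα : A ≤ A / α := by
    rw [le_div_iff₀ hα]; nlinarith
  have hy16 : 16 ≤ Real.exp (A / α) := by
    calc (16 : ℝ) ≤ 16 / e := h16
      _ = Real.exp A := hexpA.symm
      _ ≤ Real.exp (A / α) := Real.exp_le_exp.2 hAα
  have hyT : (T : ℝ) + 1 ≤ Real.exp (A / α) := by
    have h11 : (T : ℝ) + 1 ≤ A / α := by
      rw [le_div_iff₀ hα]
      rw [lt_div_iff₀ (by positivity)] at hαT
      linarith
    linarith [Real.add_one_le_exp (A / α)]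
  set i₀ : ℕ := M / L with hi₀
  have hi1 : i₀ * L ≤ M := Nat.div_mul_le_self M L
  have hi2 : (M : ℝ) / L < i₀ + 1 := by
    rw [div_lt_iff₀ hL0]
    have : M < (i₀ + 1) * L := by
      have h12 := Nat.div_add_mod M L
      have h13 := Nat.mod_lt M hL
      rw [← hi₀] at h12
      nlinarith
    exact_mod_cast this
  have hi3 : 2 ≤ i₀ := by
    have : (15 : ℝ) < i₀ := by linarith
    have : 15 < i₀ := by exact_mod_cast this
    omega
  have hTM : T * L ≤ M := by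
    have : (T : ℝ) * L ≤ M := by
      rw [le_div_iff₀ hL0] at hy1
      have : (T : ℝ) * L ≤ Real.exp (A / α) * L := by
        refine mul_le_mul_of_nonneg_right ?_ hL0.le
        linarith
      linarith
    exact_mod_cast this
  have htw := tail_windows (f := rf κ) (L := L) (M := M) (i₀ := i₀)
    (B := (1 + e / 4) * (2 * α ^ 2 * ((L : ℝ) ^ α / c))) (α := α) hL (by positivity) hα hα1 hi3
    hi1 (fun x₀ hx₀ => hw2 x₀ (hTM.trans hx₀))
  have hi4 : ((i₀ - 1 : ℕ) : ℝ) ^ (-α) ≤ e / 8 := by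
    have e1 : ((i₀ - 1 : ℕ) : ℝ) = (i₀ : ℝ) - 1 := by
      rw [Nat.cast_sub (by omega)]; simp
    have e2 : Real.exp (A / α) / 2 ≤ (i₀ : ℝ) - 1 := by linarith
    rw [e1]
    calc ((i₀ : ℝ) - 1) ^ (-α) ≤ (Real.exp (A / α) / 2) ^ (-α) :=
          Real.rpow_le_rpow_of_nonpos (by positivity) e2 (by linarith)
      _ = Real.exp (-A) * 2 ^ α := by
          rw [Real.div_rpow (by positivity) (by positivity), ← Real.exp_mul, Real.rpow_neg
            (by norm_num : (0 : ℝ) ≤ 2)]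
          rw [div_inv_eq_mul]
          congr 2
          field_simp
      _ ≤ Real.exp (-A) * 2 := by
          refine mul_le_mul_of_nonneg_left ?_ (Real.exp_pos _).le
          calc (2 : ℝ) ^ α ≤ 2 ^ (1 : ℝ) :=
                Real.rpow_le_rpow_of_exponent_le (by norm_num) hα1
            _ = 2 := Real.rpow_one _
      _ = e / 8 := by
          rw [Real.exp_neg, hexpA]; field_simp; norm_num
  have htail2 : ∀ N : ℕ, ∑ n ∈ Ico M (M + N * L), rf κ n ≤ e / 4 * A₀ := by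
    intro N
    refine (htw N).trans ?_
    calc (1 + e / 4) * (2 * α ^ 2 * ((L : ℝ) ^ α / c)) * (((i₀ - 1 : ℕ) : ℝ) ^ (-α) / α)
        = (1 + e / 4) * ((i₀ - 1 : ℕ) : ℝ) ^ (-α) * A₀ := by rw [hA₀]; field_simp
      _ ≤ (1 + e / 4) * (e / 8) * A₀ := by gcongr
      _ ≤ e / 4 * A₀ := by
          refine mul_le_mul_of_nonneg_right ?_ hA₀0.le
          nlinarith
  have hfin : S ≤ ∑ n ∈ range M, rf κ n + e / 4 * A₀ := by
    refine le_of_tendsto' hSlim fun N => ?_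
    have h14 : ∑ n ∈ range N, rf κ n ≤ ∑ n ∈ range (M + N * L), rf κ n := by
      refine sum_le_sum_of_subset_of_nonneg ?_ (fun n _ _ => hr n)
      intro n
      simp only [mem_range]
      intro hn
      have : N ≤ N * L := Nat.le_mul_of_pos_right N hL
      omega
    refine h14.trans ?_
    rw [range_eq_Ico, ← sum_Ico_consecutive _ (Nat.zero_le M) (show M ≤ M + N * L by omega)]
    rw [← range_eq_Ico]
    have := htail2 N
    linarith
  calc (1 - eps) * A₀ ≤ (1 - e) * A₀ := by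
        refine mul_le_mul_of_nonneg_right ?_ hA₀0.le
        linarith
    _ ≤ (1 - e / 4) * A₀ - e / 4 * A₀ := by nlinarith
    _ ≤ ∑ n ∈ range M, rf κ n := by linarith

end Pool.Agent.Cop

end
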