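import Mathlib
import Pool.Agent.Work.MP_cceb86_pr.LDefs
import Pool.Agent.Work.MP_cceb86_pr.Jens
import Pool.Agent.Work.MP_cceb86_pr.LMass

/-!
Deterministic data of the base blocks.
-/

open Finset Real Filter Topology
open scoped ENNReal

noncomputable section

namespace Pool.Agent.Cop

section Comb

variable {Kk : ℕ → ℝ≥0∞}

/-- the chains with one long down excursion, from the cell `p.1` to the cell `p.1 + 1 + p.2`. -/
def gP (Kk : ℕ → ℝ≥0∞) (l0 d0 L : ℕ) (p : ℕ × ℕ) (e : Env) : ℝ≥0∞ :=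
  ∑ s ∈ Ico (p.1 * L) ((p.1 + 1) * L), ∑ t ∈ Ico ((p.1 + 1 + p.2) * L) ((p.1 + 2 + p.2) * L),
    ((∑ x ∈ range (s + 1), ren (kA Kk L e) x s) * kD Kk L e s t) *
      (∑ y ∈ Ico t (l0 - d0 + 1), ren (kA Kk L e) t y)

lemma gP_MA {l0 d0 L : ℕ} (hd0 : 0 < d0) (hl : d0 ≤ l0) (p : ℕ × ℕ)
    (hp : (p.1 + p.2 + 2) * L + d0 ≤ l0) : MA (Ioo 0 l0) (fun e => gP Kk l0 d0 L p e) := by
  unfold gP
  refine MA.sum _ fun s hs => MA.sum _ fun t ht => ?_
  rw [mem_Ico] at hs ht
  have m1 : MA (Ioc 0 s) (fun e => ∑ x ∈ range (s + 1), ren (kA Kk L e) x s) := by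
    refine MA.sum _ fun x _ => (MA_ren (MA_kA Kk L) x s).mono ?_
    intro i; simp only [mem_Ioc]; omega
  have m2 : MA (Ioc s t) (fun e => kD Kk L e s t) := MA_kD Kk L s t
  have m3 : MA (Ioc t (l0 - d0)) (fun e => ∑ y ∈ Ico t (l0 - d0 + 1), ren (kA Kk L e) t y) := by
    refine MA.sum _ fun y hy => (MA_ren (MA_kA Kk L) t y).mono ?_
    rw [mem_Ico] at hy
    intro i; simp only [mem_Ioc]; omega
  have h1 : (p.1 + 2 + p.2) * L = (p.1 + p.2 + 2) * L := by ring
  have h2 : (p.1 + 1) * L ≤ (p.1 + 1 + p.2) * L := Nat.mul_le_mul_right _ (by omega)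
  refine ((m1.mul m2 ?_).mul m3 ?_).mono ?_
  · rw [disjoint_left]; intro i; simp only [mem_Ioc]; omega
  · rw [disjoint_left]; intro i; simp only [mem_union, mem_Ioc]; omega
  · intro i
    simp only [mem_union, mem_Ioc, mem_Ioo]
    omega

/-- the pairs of `F` give disjoint families of chains -/
lemma sum_gP_le {l0 d0 L : ℕ} (hd0 : 0 < d0) (hl : d0 ≤ l0) (F : Finset (ℕ × ℕ))
    (hF : ∀ p ∈ F, (p.1 + p.2 + 2) * L + d0 ≤ l0) (e : Env) :
    ∑ p ∈ F, gP Kk l0 d0 L p e
      ≤ Y2 (ren (kT Kk e)) (gs l0 d0 0 l0) (gs l0 d0 0 l0) := by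
  classical
  set f : ℕ → ℕ → ℕ → ℕ → ℝ≥0∞ := fun x y s t =>
    ren (kA Kk L e) x s * kD Kk L e s t * ren (kA Kk L e) t y with hf
  -- step a
  set hh : ℕ → ℕ → ℝ≥0∞ := fun s t => ((∑ x ∈ range (s + 1), ren (kA Kk L e) x s) *
    kD Kk L e s t) * (∑ y ∈ Ico t (l0 - d0 + 1), ren (kA Kk L e) t y) with hhh
  have ha : ∑ p ∈ F, gP Kk l0 d0 L p e ≤ ∑ s ∈ range l0, ∑ t ∈ Ioo s l0, hh s t := by
    unfold gP
    have e1 : ∀ p ∈ F, ∑ s ∈ Ico (p.1 * L) ((p.1 + 1) * L),
        ∑ t ∈ Ico ((p.1 + 1 + p.2) * L) ((p.1 + 2 + p.2) * L), hh s t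
        ≤ ∑ s ∈ range l0, ∑ t ∈ Ioo s l0,
          if s / L = p.1 ∧ t / L = p.1 + 1 + p.2 then hh s t else 0 := by
      intro p hp
      have hp' := hF p hp
      have h1 : (p.1 + 2 + p.2) * L = (p.1 + p.2 + 2) * L := by ring
      have h2 : (p.1 + 1) * L ≤ (p.1 + 1 + p.2) * L := Nat.mul_le_mul_right _ (by omega)
      have h3 : (p.1 + 1 + p.2) * L ≤ (p.1 + p.2 + 2) * L := Nat.mul_le_mul_right _ (by omega)
      have hs1 : Ico (p.1 * L) ((p.1 + 1) * L) ⊆ range l0 := by
        intro s; simp only [mem_Ico, mem_range]; omega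
      refine le_trans ?_ (sum_le_sum_of_subset hs1)
      refine sum_le_sum fun s hs => ?_
      rw [mem_Ico] at hs
      have hs2 : Ico ((p.1 + 1 + p.2) * L) ((p.1 + 2 + p.2) * L) ⊆ Ioo s l0 := by
        intro t; simp only [mem_Ico, mem_Ioo]; omega
      refine le_trans ?_ (sum_le_sum_of_subset hs2)
      refine sum_le_sum fun t ht => ?_
      rw [mem_Ico] at ht
      rw [if_pos]
      refine ⟨?_, ?_⟩
      · exact Nat.div_eq_of_lt_le hs.1 hs.2
      · refine Nat.div_eq_of_lt_le ht.1 ?_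
        have : p.1 + 1 + p.2 + 1 = p.1 + 2 + p.2 := by omega
        rw [this]; exact ht.2
    refine (sum_le_sum e1).trans ?_
    rw [sum_comm]
    refine sum_le_sum fun s _ => ?_
    rw [sum_comm]
    refine sum_le_sum fun t _ => ?_
    rw [← sum_filter, sum_const]
    have h4 : (F.filter fun p => s / L = p.1 ∧ t / L = p.1 + 1 + p.2).card ≤ 1 := by
      rw [card_le_one]
      rintro ⟨a, b⟩ hab ⟨a', b'⟩ hab'
      simp only [mem_filter] at hab hab'
      rw [Prod.mk.injEq]
      omega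
    calc (F.filter fun p => s / L = p.1 ∧ t / L = p.1 + 1 + p.2).card • hh s t
        ≤ 1 • hh s t := by
          rw [nsmul_eq_mul, nsmul_eq_mul]
          gcongr
      _ = hh s t := one_nsmul _
  refine ha.trans ?_
  -- step b
  have hb : ∀ s ∈ range l0, ∀ t ∈ Ioo s l0, hh s t
      ≤ ∑ x ∈ gs l0 d0 0 l0, ∑ y ∈ gs l0 d0 0 l0,
        if x ≤ s ∧ t ≤ y then f x y s t else 0 := by
    intro s hs t ht
    rw [mem_range] at hs
    rw [mem_Ioo] at ht
    simp only [hhh]
    rw [sum_mul, sum_mul]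
    rcases Nat.lt_or_ge (l0 - d0) t with hlt | hge
    · have : Ico t (l0 - d0 + 1) = ∅ := Ico_eq_empty (by omega)
      rw [this]; simp
    · have hs1 : range (s + 1) ⊆ gs l0 d0 0 l0 := by
        intro x
        unfold gs
        simp only [mem_range, mem_filter, mem_Ico]
        intro hx
        rw [Nat.mod_eq_of_lt (by omega)]
        omega
      refine le_trans ?_ (sum_le_sum_of_subset hs1)
      refine sum_le_sum fun x hx => ?_
      rw [mem_range] at hx
      rw [mul_sum]
      have hs2 : Ico t (l0 - d0 + 1) ⊆ gs l0 d0 0 l0 := by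
        intro y
        unfold gs
        simp only [mem_filter, mem_Ico]
        intro hy
        rw [Nat.mod_eq_of_lt (by omega)]
        omega
      refine le_trans ?_ (sum_le_sum_of_subset hs2)
      refine sum_le_sum fun y hy => ?_
      rw [mem_Ico] at hy
      rw [if_pos ⟨by omega, hy.1⟩]
  calc ∑ s ∈ range l0, ∑ t ∈ Ioo s l0, hh s t
      ≤ ∑ s ∈ range l0, ∑ t ∈ Ioo s l0, ∑ x ∈ gs l0 d0 0 l0, ∑ y ∈ gs l0 d0 0 l0,
        (if x ≤ s ∧ t ≤ y then f x y s t else 0) :=
        sum_le_sum fun s hs => sum_le_sum fun t ht => hb s hs t ht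
    _ = ∑ x ∈ gs l0 d0 0 l0, ∑ y ∈ gs l0 d0 0 l0, ∑ s ∈ range l0, ∑ t ∈ Ioo s l0,
        (if x ≤ s ∧ t ≤ y then f x y s t else 0) := by
        rw [sum_congr rfl fun s _ => sum_comm (s := Ioo s l0)]
        rw [sum_comm]
        refine sum_congr rfl fun x _ => ?_
        rw [sum_congr rfl fun s _ => sum_comm (s := Ioo s l0)]
        rw [sum_comm]
    _ ≤ ∑ x ∈ gs l0 d0 0 l0, ∑ y ∈ gs l0 d0 0 l0,
        (if x ≤ y then ren (kT Kk e) x y else 0) := by
        refine sum_le_sum fun x _ => sum_le_sum fun y _ => ?_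
        split_ifs with hxy
        · have h1 : kT Kk e = fun u v => kA Kk L e u v + kD Kk L e u v := by
            funext u v; exact (kA_add_kD Kk L e u v).symm
          rw [h1, ren_add _ _ hxy]
          refine le_trans ?_ le_add_self
          have h2 : ∑ s ∈ range l0, ∑ t ∈ Ioo s l0, (if x ≤ s ∧ t ≤ y then f x y s t else 0)
              ≤ ∑ s ∈ Icc x y, ∑ t ∈ Ioc s y, f x y s t := by
            rw [← sum_filter_add_sum_filter_not (range l0) (fun s => s ∈ Icc x y)]
            have h3 : ∑ s ∈ (range l0).filter (fun s => ¬ s ∈ Icc x y), ∑ t ∈ Ioo s l0,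
                (if x ≤ s ∧ t ≤ y then f x y s t else 0) = 0 := by
              refine sum_eq_zero fun s hs => sum_eq_zero fun t ht => ?_
              simp only [mem_filter, mem_Icc, mem_range] at hs
              rw [mem_Ioo] at ht
              rw [if_neg]
              rintro ⟨h4, h5⟩
              exact hs.2 ⟨h4, by omega⟩
            rw [h3, add_zero]
            refine (sum_le_sum_of_subset (t := Icc x y) ?_).trans ?_
            · intro s hs
              exact (mem_filter.1 hs).2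
            · refine sum_le_sum fun s _ => ?_
              rw [← sum_filter]
              refine sum_le_sum_of_subset ?_
              intro t ht
              simp only [mem_filter, mem_Ioo, mem_Ioc] at ht ⊢
              omega
          refine h2.trans (sum_le_sum fun s _ => sum_le_sum fun t _ => ?_)
          simp only [hf]
          have h6 : ren (kA Kk L e) t y ≤ ren (fun u v => kA Kk L e u v + kD Kk L e u v) t y :=
            (ren_mono (fun _ _ => zero_le) (fun u v => le_self_add) t y).2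
          gcongr
        · refine le_of_eq (sum_eq_zero fun s hs => sum_eq_zero fun t ht => ?_)
          rw [mem_Ioo] at ht
          rw [if_neg]
          rintro ⟨h4, h5⟩
          omega

end Comb

/-- a shifted sum -/
lemma ljen_shift_le {f : ℕ → ℝ} (hf : ∀ n, 0 ≤ f n) (a M : ℕ) :
    ∑ y ∈ range M, (if a ≤ y then f (y - a) else 0) ≤ ∑ m ∈ range M, f m := by
  rw [← sum_filter]
  have hinj : ∀ y ∈ (range M).filter (fun y => a ≤ y), ∀ y' ∈ (range M).filter (fun y => a ≤ y),
      y - a = y' - a → y = y' := by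
    intro y hy y' hy' h
    simp only [mem_filter] at hy hy'
    omega
  rw [← sum_image (f := f) (g := fun y => y - a) hinj]
  refine sum_le_sum_of_subset_of_nonneg ?_ (fun i _ _ => hf i)
  intro m hm
  simp only [mem_image, mem_filter, mem_range] at hm ⊢
  omega

/-- perturbation of the mass -/
lemma rf_pert {κ κ' : ℕ → ℝ} (h0 : ∀ n, 0 ≤ κ n) (hle : ∀ n, κ n ≤ κ' n) {D : ℝ}
    (hD : ∀ M, ∑ n ∈ Ioc 0 M, (κ' n - κ n) ≤ D) (M : ℕ) :
    ∑ n ∈ range M, rf κ' n ≤ ∑ n ∈ range M, rf κ n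
      + (∑ n ∈ range M, rf κ n) * D * ∑ n ∈ range M, rf κ' n := by
  have h0' : ∀ n, 0 ≤ κ' n := fun n => (h0 n).trans (hle n)
  have hr := rf_nonneg h0
  have hr' := rf_nonneg h0'
  have hd : ∀ n, 0 ≤ κ' n - κ n := fun n => by linarith [hle n]
  have hD0 : 0 ≤ D := by simpa using hD 0
  set T' : ℝ := ∑ n ∈ range M, rf κ' n with hT'
  have hT'0 : 0 ≤ T' := sum_nonneg fun n _ => hr' n
  have h1 : ∀ y, rf κ' y = rf κ y + ∑ s ∈ Icc 0 y, ∑ t ∈ Ioc s y,
      rf κ s * (κ' (t - s) - κ (t - s)) * rf κ' (y - t) := by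
    intro y
    have e1 : hom κ' = fun u v => hom κ u v + hom (fun n => κ' n - κ n) u v := by
      funext u v; unfold hom; ring
    have e2 := ren_add (hom κ) (hom (fun n => κ' n - κ n)) (Nat.zero_le y)
    rw [← e1] at e2
    unfold rf
    rw [e2]
    congr 1
    refine sum_congr rfl fun s _ => sum_congr rfl fun t ht => ?_
    rw [mem_Ioc] at ht
    rw [ren_hom κ' ht.2]
    rfl
  have h2 : ∀ y ∈ range M, rf κ' y ≤ rf κ y + ∑ s ∈ range M, ∑ t ∈ Ioc s (s + M),
      rf κ s * (κ' (t - s) - κ (t - s)) * (if t ≤ y then rf κ' (y - t) else 0) := by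
    intro y hy
    rw [mem_range] at hy
    rw [h1 y]
    refine (add_le_add_iff_left _).2 ?_
    have hs1 : Icc 0 y ⊆ range M := by
      intro s; simp only [mem_Icc, mem_range]; omega
    have hn : ∀ s t, 0 ≤ rf κ s * (κ' (t - s) - κ (t - s)) *
        (if t ≤ y then rf κ' (y - t) else 0) := by
      intro s t
      have := hr s
      have := hd (t - s)
      split_ifs
      · have := hr' (y - t)
        positivity
      · simp
    refine le_trans ?_ (sum_le_sum_of_subset_of_nonneg hs1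
      (fun s _ _ => sum_nonneg fun t _ => hn s t))
    refine sum_le_sum fun s hs => ?_
    rw [mem_Icc] at hs
    have hs2 : Ioc s y ⊆ Ioc s (s + M) := by
      intro t; simp only [mem_Ioc]; omega
    refine le_trans ?_ (sum_le_sum_of_subset_of_nonneg hs2 (fun t _ _ => hn s t))
    refine sum_le_sum fun t ht => ?_
    rw [mem_Ioc] at ht
    rw [if_pos ht.2]
  refine (sum_le_sum h2).trans ?_
  rw [sum_add_distrib]
  refine (add_le_add_iff_left _).2 ?_
  rw [sum_comm, sum_mul, sum_mul]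
  refine sum_le_sum fun s _ => ?_
  rw [sum_comm]
  have h3 : ∀ t, ∑ y ∈ range M, rf κ s * (κ' (t - s) - κ (t - s)) *
      (if t ≤ y then rf κ' (y - t) else 0) ≤ rf κ s * (κ' (t - s) - κ (t - s)) * T' := by
    intro t
    rw [← mul_sum]
    have := hr s
    have := hd (t - s)
    have := ljen_shift_le hr' t M
    gcongr
  refine (sum_le_sum fun t _ => h3 t).trans ?_
  rw [← sum_mul, ← mul_sum]
  have h4 : ∑ t ∈ Ioc s (s + M), (κ' (t - s) - κ (t - s)) ≤ D := by
    refine le_trans (le_of_eq ?_) (hD M)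
    refine sum_nbij' (fun t => t - s) (fun n => n + s) ?_ ?_ ?_ ?_ ?_
    · intro t ht; simp only [mem_Ioc] at ht ⊢; omega
    · intro n hn; simp only [mem_Ioc] at hn ⊢; omega
    · intro t ht; simp only [mem_Ioc] at ht; omega
    · intro n _; omega
    · intro t _; rfl
  have := hr s
  gcongr

end Pool.Agent.Cop

end
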