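import Mathlib
import Pool.Agent.Work.MP_cceb86_pr.Claim
import Pool.Agent.Work.MP_cceb86_pr.Defs

/-!
The copolymer model: excursions lengths `xi j`, signs `eps j` (`true` for an excursion below the
interface), and the exact formula for the partition function as a sum over chains.
-/

open Finset MeasureTheory ProbabilityTheory
open scoped ENNReal NNReal

noncomputable section

namespace Pool.Agent.Cop

variable {Ω : Type*} [MeasurableSpace Ω]

/-- weight of an excursion with sign `s`. -/
def wt (e : Env) (a b : ℕ) (s : Bool) : ℝ≥0∞ := if s = true then pI e a b else 1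

/-- partial sums -/
def TT (x : ℕ → ℕ × Bool) (k : ℕ) : ℕ := ∑ i ∈ range k, (x i).1

/-- below -/
def BB (x : ℕ → ℕ × Bool) (n : ℕ) : Prop := ∃ j, TT x j < n ∧ n ≤ TT x (j + 1) ∧ (x j).2 = true

/-- product of the weights of the first `j` excursions. -/
def pre (e : Env) (x : ℕ → ℕ × Bool) (j : ℕ) : ℝ≥0∞ :=
  ∏ i ∈ range j, wt e (TT x i) (TT x (i + 1)) (x i).2

lemma TT_succ (x : ℕ → ℕ × Bool) (k : ℕ) : TT x (k + 1) = TT x k + (x k).1 := sum_range_succ _ _

lemma TT_mono (x : ℕ → ℕ × Bool) : Monotone (TT x) :=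
  monotone_nat_of_le_succ fun k => by rw [TT_succ]; omega

lemma BB_iff (x : ℕ → ℕ × Bool) {j n : ℕ} (h1 : TT x j < n) (h2 : n ≤ TT x (j + 1)) :
    BB x n ↔ (x j).2 = true := by
  constructor
  · rintro ⟨i, hi1, hi2, hi3⟩
    have : i = j := by
      rcases lt_trichotomy i j with h | h | h
      · have := TT_mono x (show i + 1 ≤ j from h); omega
      · exact h
      · have := TT_mono x (show j + 1 ≤ i from h); omega
    rw [← this]; exact hi3
  · intro h
    exact ⟨j, h1, h2, h⟩

open Classical in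
/-- the Boltzmann weight of the environment `e` -/
def BW (e : Env) (x : ℕ → ℕ × Bool) (a b : ℕ) : ℝ≥0∞ := ∏ n ∈ Ioc a b, if BB x n then e n else 1

lemma BW_mul (e : Env) (x : ℕ → ℕ × Bool) {a b c : ℕ} (hab : a ≤ b) (hbc : b ≤ c) :
    BW e x a b * BW e x b c = BW e x a c := by
  unfold BW
  rw [← prod_union]
  · congr 1
    ext z; simp only [mem_union, mem_Ioc]; omega
  · rw [disjoint_left]; intro z; simp only [mem_Ioc]; omega

lemma BW_block (e : Env) (x : ℕ → ℕ × Bool) (j : ℕ) {N : ℕ} (h : N ≤ TT x (j + 1)) :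
    BW e x (TT x j) N = wt e (TT x j) N (x j).2 := by
  unfold BW wt
  by_cases hs : (x j).2 = true
  · rw [if_pos hs]
    unfold pI
    refine prod_congr rfl fun n hn => ?_
    rw [mem_Ioc] at hn
    rw [if_pos ((BB_iff x hn.1 (hn.2.trans h)).2 hs)]
  · rw [if_neg hs]
    refine prod_eq_one fun n hn => ?_
    rw [mem_Ioc] at hn
    rw [if_neg (fun h' => hs ((BB_iff x hn.1 (hn.2.trans h)).1 h'))]

lemma BW_pre (e : Env) (x : ℕ → ℕ × Bool) (j : ℕ) : BW e x 0 (TT x j) = pre e x j := by
  induction j with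
  | zero => simp [BW, TT, pre]
  | succ j ih =>
    rw [← BW_mul e x (Nat.zero_le (TT x j)) (TT_mono x (Nat.le_succ j)), ih,
      BW_block e x j le_rfl]
    unfold pre
    rw [prod_range_succ]

/-- expansion over the last renewal point before `N`. -/
lemma BW_expand (e : Env) (x : ℕ → ℕ × Bool) (hx : ∀ i, 1 ≤ (x i).1) (N : ℕ) :
    BW e x 0 N = ∑ j ∈ range (N + 1), ∑ m ∈ range (N + 1),
      (if TT x j = m then pre e x j else 0) *
        (if N - m < (x j).1 then wt e m N (x j).2 else 0) := by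
  classical
  have hge : ∀ j, j ≤ TT x j := by
    intro j
    induction j with
    | zero => exact Nat.zero_le _
    | succ j ih => rw [TT_succ]; have := hx j; omega
  have hex : ∃ j, N < TT x (j + 1) := ⟨N, lt_of_lt_of_le (Nat.lt_succ_self N) (hge (N + 1))⟩
  set j0 := Nat.find hex with hj0
  have h1 : N < TT x (j0 + 1) := Nat.find_spec hex
  have h2 : TT x j0 ≤ N := by
    rcases Nat.eq_zero_or_pos j0 with h | h
    · rw [h]; simp [TT]
    · have := Nat.find_min hex (show j0 - 1 < j0 by omega)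
      rw [not_lt, Nat.sub_add_cancel h] at this
      exact this
  have h3 : j0 ≤ N := (hge j0).trans h2
  rw [sum_eq_single j0, sum_eq_single (TT x j0)]
  · rw [if_pos rfl, if_pos (by rw [TT_succ] at h1; omega), ← BW_pre,
      ← BW_block e x j0 h1.le, BW_mul e x (Nat.zero_le _) h2]
  · intro m _ hm
    rw [if_neg (Ne.symm hm), zero_mul]
  · intro h
    exact absurd (mem_range.2 (by omega)) h
  · intro j _ hj
    refine sum_eq_zero fun m hm => ?_
    rw [mem_range] at hm
    by_cases h4 : TT x j = m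
    · rw [if_neg (c := N - m < (x j).1), mul_zero]
      intro h5
      apply hj
      have h6 : N < TT x (j + 1) := by rw [TT_succ]; omega
      rcases lt_trichotomy j j0 with h | h | h
      · exact absurd h6 (Nat.find_min hex h)
      · exact h
      · have := TT_mono x (show j0 + 1 ≤ j from h); omega
    · rw [if_neg h4, zero_mul]
  · intro h
    exact absurd (mem_range.2 (by omega)) h

/-- functions of the first `j` coordinates. -/
def DepOn {β : Type*} (j : ℕ) (f : (ℕ → ℕ × Bool) → β) : Prop :=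
  ∀ x y : ℕ → ℕ × Bool, (∀ i < j, x i = y i) → f x = f y

lemma TT_dep {j : ℕ} {x y : ℕ → ℕ × Bool} (h : ∀ i < j, x i = y i) {k : ℕ} (hk : k ≤ j) :
    TT x k = TT y k := by
  unfold TT
  refine sum_congr rfl fun i hi => ?_
  rw [mem_range] at hi
  rw [h i (by omega)]

lemma pre_dep (e : Env) (j m : ℕ) :
    DepOn j (fun x => if TT x j = m then pre e x j else 0) := by
  intro x y h
  have h1 : pre e x j = pre e y j := by
    unfold pre
    refine prod_congr rfl fun i hi => ?_
    rw [mem_range] at hi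
    rw [TT_dep h (show i ≤ j by omega), TT_dep h (show i + 1 ≤ j by omega), h i hi]
  simp only [TT_dep h le_rfl, h1]

/-- the sequence of excursions -/
def XX (xi : ℕ → Ω → ℕ) (eps : ℕ → Ω → Bool) (ω : Ω) (j : ℕ) : ℕ × Bool := (xi j ω, eps j ω)

section

variable {P : Measure Ω} {K : ℕ → ℝ} {xi : ℕ → Ω → ℕ} {eps : ℕ → Ω → Bool}

lemma IsModel.meas_pair (hm : IsModel P K xi eps) (j : ℕ) :
    Measurable (fun ω => (xi j ω, eps j ω)) := (hm.meas_xi j).prodMk (hm.meas_eps j)

/-- extension of a finite sequence -/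
def extd (j : ℕ) (y : (i : ↥(range j)) → ℕ × Bool) (i : ℕ) : ℕ × Bool :=
  if h : i ∈ range j then y ⟨i, h⟩ else (0, false)

omit [MeasurableSpace Ω] in
lemma dep_eq (j : ℕ) {β : Type*} {f : (ℕ → ℕ × Bool) → β} (hf : DepOn j f) (ω : Ω) :
    f (XX xi eps ω) = f (extd j (fun i : ↥(range j) => (xi i ω, eps i ω))) := by
  refine hf _ _ fun i hi => ?_
  unfold extd XX
  rw [dif_pos (mem_range.2 hi)]

lemma IsModel.meas_dep (hm : IsModel P K xi eps) (j : ℕ) {f : (ℕ → ℕ × Bool) → ℝ≥0∞}
    (hf : DepOn j f) : Measurable (fun ω => f (XX xi eps ω)) := by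
  have h1 : (fun ω => f (XX xi eps ω))
      = (fun y => f (extd j y)) ∘ (fun ω => fun i : ↥(range j) => (xi i ω, eps i ω)) := by
    funext ω
    exact dep_eq j hf ω
  rw [h1]
  refine Measurable.comp (measurable_of_countable _) ?_
  exact measurable_pi_lambda _ fun i => hm.meas_pair i

lemma IsModel.indep_mul (hm : IsModel P K xi eps) (j : ℕ) {f : (ℕ → ℕ × Bool) → ℝ≥0∞}
    (hf : DepOn j f) (g : ℕ × Bool → ℝ≥0∞) :
    ∫⁻ ω, f (XX xi eps ω) * g (xi j ω, eps j ω) ∂P
      = (∫⁻ ω, f (XX xi eps ω) ∂P) * ∫⁻ ω, g (xi j ω, eps j ω) ∂P := by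
  have h0 := hm.indep.indepFun_finset (range j) {j} (by simp) (fun i => hm.meas_pair i)
  have h1 : (fun ω => f (XX xi eps ω))
      = (fun y => f (extd j y)) ∘ (fun ω => fun i : ↥(range j) => (xi i ω, eps i ω)) := by
    funext ω
    exact dep_eq j hf ω
  have h2 : (fun ω => g (xi j ω, eps j ω))
      = (fun y : (i : ↥({j} : Finset ℕ)) → ℕ × Bool => g (y ⟨j, by simp⟩)) ∘
        (fun ω => fun i : ↥({j} : Finset ℕ) => (xi i ω, eps i ω)) := by
    funext ω; rfl
  have hmf : Measurable (fun y : (i : ↥(range j)) → ℕ × Bool => f (extd j y)) :=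
    measurable_of_countable _
  have hmg : Measurable (fun y : (i : ↥({j} : Finset ℕ)) → ℕ × Bool => g (y ⟨j, by simp⟩)) :=
    measurable_of_countable _
  have h3 := h0.comp hmf hmg
  rw [← h1, ← h2] at h3
  have h4 : Measurable (fun ω => g (xi j ω, eps j ω)) :=
    (measurable_of_countable g).comp (hm.meas_pair j)
  exact lintegral_mul_eq_lintegral_mul_lintegral_of_indepFun (hm.meas_dep j hf) h4 h3

lemma IsModel.lint_pair (hm : IsModel P K xi eps) (j : ℕ) (g : ℕ × Bool → ℝ≥0∞) :
    ∫⁻ ω, g (xi j ω, eps j ω) ∂P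
      = ∑' n, ENNReal.ofReal (K n) / 2 * (g (n, true) + g (n, false)) := by
  have h1 : ∫⁻ ω, g (xi j ω, eps j ω) ∂P
      = ∫⁻ y, g y ∂(P.map (fun ω => (xi j ω, eps j ω))) :=
    (lintegral_map (measurable_of_countable g) (hm.meas_pair j)).symm
  rw [h1, lintegral_countable', ENNReal.tsum_prod']
  refine tsum_congr fun n => ?_
  have h2 : ∀ b : Bool, (P.map (fun ω => (xi j ω, eps j ω))) {(n, b)}
      = ENNReal.ofReal (K n) / 2 := by
    intro b
    rw [Measure.map_apply (hm.meas_pair j) (measurableSet_singleton _)]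
    have h3 : (fun ω => (xi j ω, eps j ω)) ⁻¹' {(n, b)} = {ω | xi j ω = n ∧ eps j ω = b} := by
      ext ω
      simp
    rw [h3, hm.law j n b, ENNReal.ofReal_div_of_pos (by norm_num)]
    simp
  rw [tsum_fintype, Fintype.sum_bool, h2, h2]
  ring

/-- the chain sums with exactly `j` excursions. -/
def GG (P : Measure Ω) (xi : ℕ → Ω → ℕ) (eps : ℕ → Ω → Bool) (e : Env) (j m : ℕ) : ℝ≥0∞ :=
  ∫⁻ ω, (if TT (XX xi eps ω) j = m then pre e (XX xi eps ω) j else 0) ∂P

/-- the tail of the inter-arrival law. -/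
def KB (K : ℕ → ℝ≥0∞) (r : ℕ) : ℝ≥0∞ := ∑' n, if r < n then K n else 0

/-- the kernel with values in the extended nonnegative reals. -/
def Ke (K : ℕ → ℝ) (n : ℕ) : ℝ≥0∞ := ENNReal.ofReal (K n)

lemma GG_zero [IsProbabilityMeasure P] (e : Env) (m : ℕ) :
    GG P xi eps e 0 m = if m = 0 then 1 else 0 := by
  unfold GG
  by_cases h : m = 0
  · subst h
    simp [TT, pre]
  · rw [if_neg h]
    have : ∀ ω, (if TT (XX xi eps ω) 0 = m then pre e (XX xi eps ω) 0 else 0) = 0 := by
      intro ω
      rw [if_neg]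
      simp only [TT, range_zero, sum_empty]
      exact Ne.symm h
    simp only [this, lintegral_zero]

lemma step_point (e : Env) (x : ℕ → ℕ × Bool) (j y : ℕ) :
    (if TT x (j + 1) = y then pre e x (j + 1) else 0)
      = ∑ m ∈ range (y + 1), (if TT x j = m then pre e x j else 0) *
          (if (x j).1 = y - m then wt e m y (x j).2 else 0) := by
  by_cases h : TT x j ≤ y
  · rw [sum_eq_single (TT x j)]
    · rw [if_pos rfl]
      by_cases h2 : TT x (j + 1) = y
      · rw [if_pos h2, if_pos (by rw [TT_succ] at h2; omega)]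
        unfold pre
        rw [prod_range_succ, h2]
      · rw [if_neg h2, if_neg (by rw [TT_succ] at h2; omega), mul_zero]
    · intro m _ hm
      rw [if_neg (Ne.symm hm), zero_mul]
    · intro h'
      exact absurd (mem_range.2 (by omega)) h'
  · rw [if_neg (by rw [TT_succ]; omega)]
    symm
    refine sum_eq_zero fun m hm => ?_
    rw [mem_range] at hm
    rw [if_neg (by omega), zero_mul]

lemma IsModel.GG_succ (hm : IsModel P K xi eps) (e : Env) (j y : ℕ) :
    GG P xi eps e (j + 1) y = ∑ m ∈ range (y + 1), GG P xi eps e j m * kT (Ke K) e m y := by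
  unfold GG
  have h1 : ∀ ω, (if TT (XX xi eps ω) (j + 1) = y then pre e (XX xi eps ω) (j + 1) else 0)
      = ∑ m ∈ range (y + 1), (if TT (XX xi eps ω) j = m then pre e (XX xi eps ω) j else 0) *
          (fun z : ℕ × Bool => if z.1 = y - m then wt e m y z.2 else 0) (xi j ω, eps j ω) :=
    fun ω => step_point e (XX xi eps ω) j y
  simp only [h1]
  rw [lintegral_finsetSum]
  · refine sum_congr rfl fun m _ => ?_
    have h2 := hm.indep_mul j (pre_dep e j m) (fun z : ℕ × Bool => if z.1 = y - m then wt e m y z.2 else 0)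
    simp only at h2 ⊢
    rw [h2]
    congr 1
    have h3 := hm.lint_pair j (fun z : ℕ × Bool => if z.1 = y - m then wt e m y z.2 else 0)
    simp only at h3
    rw [h3, tsum_eq_single (y - m)]
    · simp only [if_true, wt, Bool.false_eq_true, if_false]
      unfold kT Ke
      rw [add_comm (pI e m y) 1]
    · intro n hn
      rw [if_neg hn, if_neg hn, add_zero, mul_zero]
  · intro m _
    refine Measurable.mul (hm.meas_dep j (pre_dep e j m)) ?_
    exact (measurable_of_countable (fun z : ℕ × Bool => if z.1 = y - m then wt e m y z.2 else 0)).comp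
      (hm.meas_pair j)

lemma IsModel.GG_sum [IsProbabilityMeasure P] (hm : IsModel P K xi eps) (hK0 : K 0 = 0) (e : Env)
    (y : ℕ) : ∀ J, y ≤ J →
      ∑ j ∈ range (J + 1), GG P xi eps e j y = ren (kT (Ke K) e) 0 y := by
  have hk : ∀ y, kT (Ke K) e y y = 0 := by
    intro y
    unfold kT Ke
    rw [Nat.sub_self, hK0]
    simp
  induction y using Nat.strong_induction_on with
  | _ y ih =>
    intro J hJ
    rw [sum_range_succ', GG_zero]
    rcases Nat.eq_zero_or_pos y with h | h
    · subst h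
      rw [ren_self, if_pos rfl]
      rw [sum_eq_zero, zero_add]
      intro j _
      rw [hm.GG_succ]
      simp [hk]
    · rw [if_neg (by omega), add_zero, ren_right _ h]
      simp only [hm.GG_succ]
      rw [sum_comm, sum_range_succ]
      simp only [hk, mul_zero, sum_const_zero, add_zero]
      rw [← Nat.Ico_zero_eq_range]
      refine sum_congr rfl fun m hm' => ?_
      rw [mem_Ico] at hm'
      rw [← sum_mul]
      congr 1
      have := ih m hm'.2 (J - 1) (by omega)
      rw [show J - 1 + 1 = J by omega] at this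
      exact this

/-- the exact formula for the partition function, in extended nonnegative reals. -/
theorem IsModel.lintegral_BW [IsProbabilityMeasure P] (hm : IsModel P K xi eps) (hK0 : K 0 = 0)
    (e : Env) (N : ℕ) :
    ∫⁻ ω, BW e (XX xi eps ω) 0 N ∂P
      = ∑ m ∈ range (N + 1), ren (kT (Ke K) e) 0 m * (KB (Ke K) (N - m) * ((1 + pI e m N) / 2)) := by
  have hae : ∀ᵐ ω ∂P, ∀ i, 1 ≤ (XX xi eps ω i).1 := by
    rw [ae_all_iff]
    intro i
    have h1 : ∀ b, P {ω | xi i ω = 0 ∧ eps i ω = b} = 0 := by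
      intro b
      rw [hm.law i 0 b, hK0]
      simp
    have h2 : ∀ b, ∀ᵐ ω ∂P, ¬ (xi i ω = 0 ∧ eps i ω = b) := by
      intro b
      rw [ae_iff]
      simpa using h1 b
    filter_upwards [h2 true, h2 false] with ω ha hb
    by_contra hc
    have h3 : xi i ω = 0 := by
      simp only [XX, not_le, Nat.lt_one_iff] at hc
      exact hc
    cases h4 : eps i ω
    · exact hb ⟨h3, h4⟩
    · exact ha ⟨h3, h4⟩
  have h1 : ∫⁻ ω, BW e (XX xi eps ω) 0 N ∂P
      = ∫⁻ ω, (∑ j ∈ range (N + 1), ∑ m ∈ range (N + 1),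
        (if TT (XX xi eps ω) j = m then pre e (XX xi eps ω) j else 0) *
        (fun z : ℕ × Bool => if N - m < z.1 then wt e m N z.2 else 0) (xi j ω, eps j ω)) ∂P := by
    refine lintegral_congr_ae ?_
    filter_upwards [hae] with ω hω
    exact BW_expand e (XX xi eps ω) hω N
  have hmeas : ∀ j m : ℕ, Measurable (fun ω => (if TT (XX xi eps ω) j = m then pre e (XX xi eps ω) j else 0) *
        (fun z : ℕ × Bool => if N - m < z.1 then wt e m N z.2 else 0) (xi j ω, eps j ω)) := by
    intro j m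
    refine Measurable.mul (hm.meas_dep j (pre_dep e j m)) ?_
    exact (measurable_of_countable (fun z : ℕ × Bool => if N - m < z.1 then wt e m N z.2 else 0)).comp
      (hm.meas_pair j)
  rw [h1, lintegral_finsetSum _ (fun j _ => Finset.measurable_sum _ fun m _ => hmeas j m)]
  have h2 : ∀ j ∈ range (N + 1), ∫⁻ ω, (∑ m ∈ range (N + 1),
        (if TT (XX xi eps ω) j = m then pre e (XX xi eps ω) j else 0) *
        (fun z : ℕ × Bool => if N - m < z.1 then wt e m N z.2 else 0) (xi j ω, eps j ω)) ∂P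
      = ∑ m ∈ range (N + 1), GG P xi eps e j m * (KB (Ke K) (N - m) * ((1 + pI e m N) / 2)) := by
    intro j _
    rw [lintegral_finsetSum _ (fun m _ => hmeas j m)]
    refine sum_congr rfl fun m _ => ?_
    have h3 := hm.indep_mul j (pre_dep e j m) (fun z : ℕ × Bool => if N - m < z.1 then wt e m N z.2 else 0)
    simp only at h3 ⊢
    rw [h3]
    congr 1
    have h4 := hm.lint_pair j (fun z : ℕ × Bool => if N - m < z.1 then wt e m N z.2 else 0)
    simp only at h4
    rw [h4]
    unfold KB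
    rw [← ENNReal.tsum_mul_right]
    refine tsum_congr fun n => ?_
    by_cases h5 : N - m < n
    · simp only [if_pos h5, wt, if_true, Bool.false_eq_true, if_false]
      unfold Ke
      rw [add_comm (pI e m N) 1, ENNReal.div_eq_inv_mul, ENNReal.div_eq_inv_mul]
      ring
    · simp only [if_neg h5, add_zero, mul_zero, zero_mul]
  rw [sum_congr rfl h2, sum_comm]
  refine sum_congr rfl fun m hm' => ?_
  rw [mem_range] at hm'
  rw [← sum_mul, hm.GG_sum hK0 e m N (by omega)]

/-- the environment of the weights -/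
def envOf (lam h : ℝ) (w : ℕ → ℝ) : Env := fun n => ENNReal.ofReal (Real.exp (-2 * lam * (w n + h)))

omit [MeasurableSpace Ω] in
lemma below_iff (n : ℕ) (ω : Ω) : Below xi eps n ω ↔ BB (XX xi eps ω) n := Iff.rfl

omit [MeasurableSpace Ω] in
lemma weight_eq (lam h : ℝ) (w : ℕ → ℝ) (N : ℕ) (ω : Ω) :
    ENNReal.ofReal (Real.exp (-2 * lam * ∑ n ∈ Icc 1 N, Delta xi eps n ω * (w n + h)))
      = BW (envOf lam h w) (XX xi eps ω) 0 N := by
  classical
  have h1 : Icc 1 N = Ioc 0 N := by
    ext z; simp only [mem_Icc, mem_Ioc]; omega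
  rw [h1, mul_sum, Real.exp_sum, ENNReal.ofReal_prod_of_nonneg (fun _ _ => (Real.exp_pos _).le)]
  unfold BW
  refine prod_congr rfl fun n _ => ?_
  unfold Delta envOf
  by_cases h2 : Below xi eps n ω
  · rw [if_pos h2, if_pos ((below_iff n ω).1 h2), one_mul]
  · rw [if_neg h2, if_neg (fun h3 => h2 ((below_iff n ω).2 h3)), zero_mul, mul_zero, Real.exp_zero,
      ENNReal.ofReal_one]

lemma IsModel.meas_below (hm : IsModel P K xi eps) (n : ℕ) :
    MeasurableSet {ω | Below xi eps n ω} := by
  unfold Below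
  have h1 : {ω | ∃ j, tau xi j ω < n ∧ n ≤ tau xi (j + 1) ω ∧ eps j ω = true}
      = ⋃ j, ({ω | tau xi j ω < n} ∩ ({ω | n ≤ tau xi (j + 1) ω} ∩ {ω | eps j ω = true})) := by
    ext ω; simp
  rw [h1]
  have ht : ∀ j, Measurable (tau xi j) := by
    intro j
    unfold tau
    exact Finset.measurable_sum _ fun i _ => hm.meas_xi i
  refine MeasurableSet.iUnion fun j => ?_
  refine (measurableSet_lt (ht j) measurable_const).inter ?_
  refine (measurableSet_le measurable_const (ht (j + 1))).inter ?_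
  exact hm.meas_eps j (measurableSet_singleton true)

lemma IsModel.meas_weight (hm : IsModel P K xi eps) (lam h : ℝ) (w : ℕ → ℝ) (N : ℕ) :
    Measurable (fun ω => Real.exp (-2 * lam * ∑ n ∈ Icc 1 N, Delta xi eps n ω * (w n + h))) := by
  classical
  refine Real.measurable_exp.comp ?_
  refine Measurable.const_mul ?_ _
  refine Finset.measurable_sum _ fun n _ => ?_
  refine Measurable.mul_const ?_ _
  unfold Delta
  exact Measurable.ite (hm.meas_below n) measurable_const measurable_const

lemma Zpart_eq_lintegral [IsProbabilityMeasure P] (hm : IsModel P K xi eps) (lam h : ℝ) (w : ℕ → ℝ) (N : ℕ) :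
    Zpart P xi eps lam h w N = (∫⁻ ω, BW (envOf lam h w) (XX xi eps ω) 0 N ∂P).toReal := by
  unfold Zpart
  rw [integral_eq_lintegral_of_nonneg_ae (Filter.Eventually.of_forall fun ω => (Real.exp_pos _).le)
    (hm.meas_weight lam h w N).aestronglyMeasurable]
  congr 1
  exact lintegral_congr fun ω => weight_eq lam h w N ω

lemma BW_le (lam h : ℝ) (w : ℕ → ℝ) (N : ℕ) (x : ℕ → ℕ × Bool) :
    BW (envOf lam h w) x 0 N ≤ ∏ n ∈ Ioc 0 N, max (envOf lam h w n) 1 := by
  classical
  unfold BW
  refine Finset.prod_le_prod' fun n _ => ?_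
  by_cases h1 : BB x n
  · rw [if_pos h1]; exact le_max_left _ _
  · rw [if_neg h1]; exact le_max_right _ _

lemma prod_max_ne_top (lam h : ℝ) (w : ℕ → ℝ) (N : ℕ) :
    ∏ n ∈ Ioc 0 N, max (envOf lam h w n) 1 ≠ ∞ := by
  refine ENNReal.prod_ne_top fun n _ => ?_
  unfold envOf
  exact (max_lt ENNReal.ofReal_lt_top ENNReal.one_lt_top).ne

/-- **the exact formula** for the partition function. -/
theorem IsModel.ofReal_Zpart [IsProbabilityMeasure P] (hm : IsModel P K xi eps) (hK0 : K 0 = 0)
    (lam h : ℝ) (w : ℕ → ℝ) (N : ℕ) :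
    ENNReal.ofReal (Zpart P xi eps lam h w N)
      = ∑ m ∈ range (N + 1), ren (kT (Ke K) (envOf lam h w)) 0 m *
          (KB (Ke K) (N - m) * ((1 + pI (envOf lam h w) m N) / 2)) := by
  rw [Zpart_eq_lintegral hm, ENNReal.ofReal_toReal, hm.lintegral_BW hK0]
  refine ne_top_of_le_ne_top (prod_max_ne_top lam h w N) ?_
  calc ∫⁻ ω, BW (envOf lam h w) (XX xi eps ω) 0 N ∂P
      ≤ ∫⁻ _ω, (∏ n ∈ Ioc 0 N, max (envOf lam h w n) 1) ∂P := lintegral_mono fun ω => BW_le _ _ _ _ _
    _ = _ := by simp

/-- total mass of the inter-arrival law -/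
lemma IsModel.tsum_Ke [IsProbabilityMeasure P] (hm : IsModel P K xi eps) : ∑' n, Ke K n = 1 := by
  have h1 := hm.lint_pair 0 (fun _ => 1)
  simp only [lintegral_const, measure_univ, mul_one] at h1
  rw [h1]
  refine tsum_congr fun n => ?_
  unfold Ke
  rw [show (1 : ℝ≥0∞) + 1 = 2 by norm_num, ENNReal.div_mul_cancel (by norm_num) (by norm_num)]

lemma KB_add (K : ℕ → ℝ≥0∞) (r : ℕ) : ∑ n ∈ range (r + 1), K n + KB K r = ∑' n, K n := by
  unfold KB
  have h1 : ∑' n, (if n < r + 1 then K n else 0) = ∑ n ∈ range (r + 1), K n := by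
    rw [tsum_eq_sum (s := range (r + 1))]
    · refine sum_congr rfl fun n hn => ?_
      rw [mem_range] at hn
      rw [if_pos hn]
    · intro n hn
      rw [mem_range] at hn
      rw [if_neg hn]
  rw [← h1, ← ENNReal.tsum_add]
  refine tsum_congr fun n => ?_
  by_cases h2 : n < r + 1
  · rw [if_pos h2, if_neg (by omega), add_zero]
  · rw [if_neg h2, if_pos (by omega), zero_add]

end

end Pool.Agent.Cop
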