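import Mathlib
import Pool.Agent.Work.MP_cceb86_pr.LJen
import Pool.Agent.Work.MP_cceb86_pr.Model

/-!
Deterministic data of the base blocks: the main statement.
-/

open Finset Real Filter Topology
open scoped ENNReal

noncomputable section

namespace Pool.Agent.Cop

variable {α c q : ℝ} {K : ℕ → ℝ} {L : ℕ}

/-- mass to the left of `s` -/
lemma left_mass (hK : ∀ n, 0 ≤ K n) (hq : 1 ≤ q) (s : ℕ) :
    ∑ x ∈ range (s + 1), ren (kA (Ke K) L (fun _ => ENNReal.ofReal q)) x s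
      = ENNReal.ofReal (∑ n ∈ range (s + 1), rf (kap K L q) n) := by
  have hg := rf_nonneg (kap_nonneg (L := L) hK hq)
  rw [ENNReal.ofReal_sum_of_nonneg (fun n _ => hg n), ← sum_range_reflect]
  refine sum_congr rfl fun x hx => ?_
  rw [mem_range] at hx
  have h1 : s + 1 - 1 - x ≤ s := by omega
  rw [show Ke K = fun n => ENNReal.ofReal (K n) from rfl, ren_kA_eq hK hq h1]
  congr 2
  omega

/-- mass to the right of `t` -/
lemma right_mass (hK : ∀ n, 0 ≤ K n) (hq : 1 ≤ q) (t N : ℕ) :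
    ∑ y ∈ Ico t N, ren (kA (Ke K) L (fun _ => ENNReal.ofReal q)) t y
      = ENNReal.ofReal (∑ n ∈ range (N - t), rf (kap K L q) n) := by
  have hg := rf_nonneg (kap_nonneg (L := L) hK hq)
  rw [ENNReal.ofReal_sum_of_nonneg (fun n _ => hg n), sum_Ico_eq_sum_range]
  refine sum_congr rfl fun x _ => ?_
  rw [show Ke K = fun n => ENNReal.ofReal (K n) from rfl, ren_kA_eq hK hq (by omega),
    Nat.add_sub_cancel_left]

/-- the mass increases little with `q` -/
lemma mass_pert (hK : IsLaw α c K) (hF : KFacts α c K L) (hα : 0 < α) (hc : 0 < c)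
    (hq : 1 ≤ q) (hqL : q ^ L ≤ 1 + 4 * α) {M : ℕ}
    (hM : ∑ n ∈ range M, rf (kap K L q) n ≤ (1 + 1) * (2 * α * ((L : ℝ) ^ α / c))) :
    ∑ n ∈ range M, rf (kap K L q) n
      ≤ (1 + 12 * α ^ 2) * ∑ n ∈ range M, rf (kap K L 1) n := by
  have hL : 0 < L := by have := hF.big; omega
  have hL0 : (0 : ℝ) < L := by exact_mod_cast hL
  have hpp : 0 < (L : ℝ) ^ α := Real.rpow_pos_of_pos hL0 _
  have hpinv : (L : ℝ) ^ (-α) = ((L : ℝ) ^ α)⁻¹ := Real.rpow_neg hL0.le _
  have hk1 := kap_nonneg (L := L) hK.nonneg (le_refl (1 : ℝ))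
  have hkq := kap_nonneg (L := L) hK.nonneg hq
  have hle : ∀ n, kap K L 1 n ≤ kap K L q n := by
    intro n
    have := hK.nonneg n
    unfold kap
    have h1 : (1 : ℝ) ^ n ≤ q ^ n := by rw [one_pow]; exact one_le_pow₀ hq
    split_ifs
    · gcongr
    · exact le_rfl
  have hD : ∀ M, ∑ n ∈ Ioc 0 M, (kap K L q n - kap K L 1 n) ≤ 3 * α * c * (L : ℝ) ^ (-α) := by
    intro M
    have h1 : ∀ n, kap K L q n - kap K L 1 n = if n ≤ L then K n / 2 * (q ^ n - 1) else 0 := by
      intro n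
      unfold kap
      split_ifs
      · rw [one_pow]; ring
      · ring
    have h0 : ∀ n, 0 ≤ K n / 2 * (q ^ n - 1) := by
      intro n
      have h2 : 1 ≤ q ^ n := one_le_pow₀ hq
      have := hK.nonneg n
      have : 0 ≤ q ^ n - 1 := by linarith
      positivity
    calc ∑ n ∈ Ioc 0 M, (kap K L q n - kap K L 1 n)
        = ∑ n ∈ (Ioc 0 M).filter (fun n => n ≤ L), K n / 2 * (q ^ n - 1) := by
          rw [sum_filter]; exact sum_congr rfl fun n _ => h1 n
      _ ≤ ∑ n ∈ Ioc 0 L, K n / 2 * (q ^ n - 1) := by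
          refine sum_le_sum_of_subset_of_nonneg ?_ (fun n _ _ => h0 n)
          intro n; simp only [mem_filter, mem_Ioc]; omega
      _ ≤ ∑ n ∈ Ioc 0 L, 2 * α / L * ((n : ℝ) * K n) := by
          refine sum_le_sum fun n hn => ?_
          rw [mem_Ioc] at hn
          have h3 := q_pow_le hq hqL hL hn.2
          have h4 := hK.nonneg n
          calc K n / 2 * (q ^ n - 1) ≤ K n / 2 * (4 * α * (n / L)) := by
                gcongr; linarith
            _ = _ := by ring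
      _ = 2 * α / L * ∑ n ∈ Ioc 0 L, (n : ℝ) * K n := by rw [mul_sum]
      _ ≤ 2 * α / L * (3 / 2 * c * (L : ℝ) ^ (1 - α)) := by
          have h3 := hF.mean L (Nat.div_le_self _ _)
          gcongr
      _ = 3 * α * c * (L : ℝ) ^ (-α) := by
          have : (L : ℝ) ^ (1 - α) = (L : ℝ) ^ (-α) * L := by
            rw [← Real.rpow_add_one hL0.ne']; congr 1; ring
          rw [this]; field_simp
  have h1 := rf_pert hk1 hle hD M
  have h2 : 0 ≤ ∑ n ∈ range M, rf (kap K L 1) n := sum_nonneg fun n _ => rf_nonneg hk1 n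
  have h3 : (∑ n ∈ range M, rf (kap K L 1) n) * (3 * α * c * (L : ℝ) ^ (-α))
      * ∑ n ∈ range M, rf (kap K L q) n
      ≤ (∑ n ∈ range M, rf (kap K L 1) n) * (3 * α * c * (L : ℝ) ^ (-α))
        * ((1 + 1) * (2 * α * ((L : ℝ) ^ α / c))) := by
    refine mul_le_mul_of_nonneg_left hM ?_
    rw [hpinv]; positivity
  have h4 : (∑ n ∈ range M, rf (kap K L 1) n) * (3 * α * c * (L : ℝ) ^ (-α))
        * ((1 + 1) * (2 * α * ((L : ℝ) ^ α / c)))
      = 12 * α ^ 2 * ∑ n ∈ range M, rf (kap K L 1) n := by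
    rw [hpinv]; field_simp; ring
  linarith

/-- **Deterministic data of the base blocks.** -/
theorem base_det {δ : ℝ} (hδ : 0 < δ) (hδ1 : δ < 1) :
    ∃ a0 : ℝ, 0 < a0 ∧ ∃ A : ℝ, 0 < A ∧ ∀ α : ℝ, 0 < α → α < a0 → ∀ c : ℝ, 0 < c →
      ∀ K : ℕ → ℝ, IsLaw α c K → ∀ d0 : ℕ, 0 < d0 → ∀ᶠ L : ℕ in atTop, ∀ Λ : ℕ,
        Real.exp (A / α) ≤ Λ → ∀ F : Finset (ℕ × ℕ),
          (∀ p ∈ F, δ * Λ ≤ p.1 ∧ (p.1 : ℝ) + p.2 + 2 ≤ (1 - δ) * Λ ∧ 1 ≤ p.2) →
          ∃ φ : ℕ × ℕ → ℕ → ℝ, BaseDet (Ke K) (Λ * L) d0 L F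
            (fun j => (1 - δ) ^ 3 * (2 * α ^ 2 / c) * (L : ℝ) ^ (1 + α)
              * ((j : ℝ) + 2) ^ (-(1 + α))) φ := by
  obtain ⟨a1, ha1, A1, hA1, Hm⟩ := mass_low hδ
  obtain ⟨a2, ha2, T, Hw⟩ := win_sharp (show (0 : ℝ) < 1 by norm_num)
  have h2δ : 2 ≤ 2 / δ := by rw [le_div_iff₀ hδ]; linarith
  have hlog0 : 0 < Real.log (2 / δ) := Real.log_pos (by linarith)
  refine ⟨min a1 (min a2 (1 / 20)), by positivity, A1 + Real.log (2 / δ), by positivity, ?_⟩
  intro α hα hαa c hc K hK d0 hd0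
  have hαa1 : α < a1 := hαa.trans_le (min_le_left _ _)
  have hαa2 : α < a2 := hαa.trans_le ((min_le_right _ _).trans (min_le_left _ _))
  have hα20 : α < 1 / 20 := hαa.trans_le ((min_le_right _ _).trans (min_le_right _ _))
  obtain ⟨n₀, hn₀⟩ := eventually_atTop.1 (hK.bounds hc hδ)
  filter_upwards [Hm α hα hαa1 c hc K hK, Hw α hα hαa2 c hc K hK,
    hK.kfacts hc hα (by linarith), eventually_ge_atTop n₀, eventually_ge_atTop d0]
    with L hmass hwin hF hLn hLd Λ hΛ F hFp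
  have hL : 0 < L := by have := hF.big; omega
  have hL0 : (0 : ℝ) < L := by exact_mod_cast hL
  have hpp : 0 < (L : ℝ) ^ α := Real.rpow_pos_of_pos hL0 _
  have hd0R : (d0 : ℝ) ≤ L := by exact_mod_cast hLd
  have h1δ : 0 < 1 - δ := by linarith
  set E1 : ℝ := Real.exp (A1 / α) with hE1
  have hE1' : 1 ≤ E1 := Real.one_le_exp (by positivity)
  have hδΛ : 2 * E1 ≤ δ * Λ := by
    have e1 : Real.exp ((A1 + Real.log (2 / δ)) / α) = E1 * Real.exp (Real.log (2 / δ) / α) := by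
      rw [hE1, ← Real.exp_add]; congr 1; ring
    have e2 : 2 / δ ≤ Real.exp (Real.log (2 / δ) / α) := by
      calc 2 / δ = Real.exp (Real.log (2 / δ)) := (Real.exp_log (by positivity)).symm
        _ ≤ Real.exp (Real.log (2 / δ) / α) := by
            refine Real.exp_le_exp.2 ?_
            rw [le_div_iff₀ hα]
            nlinarith
    calc 2 * E1 = δ * (E1 * (2 / δ)) := by field_simp
      _ ≤ δ * (E1 * Real.exp (Real.log (2 / δ) / α)) := by gcongr
      _ = δ * Real.exp ((A1 + Real.log (2 / δ)) / α) := by rw [e1]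
      _ ≤ δ * Λ := by gcongr
  set l0 : ℕ := Λ * L with hl0
  -- geometry
  have hgeo : ∀ p ∈ F, (p.1 + p.2 + 2) * L + d0 ≤ l0 := by
    intro p hp
    obtain ⟨_, h2, _⟩ := hFp p hp
    have : (((p.1 + p.2 + 2) * L + d0 : ℕ) : ℝ) ≤ (l0 : ℝ) := by
      rw [hl0]; push_cast
      calc ((p.1 : ℝ) + p.2 + 2) * L + d0 ≤ ((1 - δ) * Λ) * L + 1 * L := by
            rw [one_mul]; gcongr
        _ = (Λ - (δ * Λ - 1)) * L := by ring
        _ ≤ (Λ - 0) * L := by gcongr; linarith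
        _ = Λ * L := by ring
    exact_mod_cast this
  have hld : d0 ≤ l0 := by
    have h1 : (1 : ℝ) ≤ Λ := by
      have : δ * Λ ≤ Λ := by
        have : (0 : ℝ) ≤ Λ := Nat.cast_nonneg _
        nlinarith
      linarith
    have h2 : 1 ≤ Λ := by exact_mod_cast h1
    calc d0 ≤ L := hLd
      _ ≤ Λ * L := Nat.le_mul_of_pos_left L h2
  -- the value of `q`
  set q : ℝ := Real.exp (Real.log (1 + 4 * α) / L) with hq
  have hlog4 : 0 < Real.log (1 + 4 * α) := Real.log_pos (by linarith)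
  have hq1 : 1 < q := Real.one_lt_exp_iff.2 (by positivity)
  have hqL : q ^ L = 1 + 4 * α := by
    rw [hq, ← Real.exp_nat_mul, mul_div_cancel₀ _ hL0.ne', Real.exp_log (by linarith)]
  have hlogq : Real.log q = Real.log (1 + 4 * α) / L := by rw [hq, Real.log_exp]
  have hρ : 30 * α ^ 2 ≤ (L : ℝ) * Real.log q := by
    rw [hlogq, mul_div_cancel₀ _ hL0.ne']
    have h1 := Real.one_sub_inv_le_log_of_pos (show 0 < 1 + 4 * α by linarith)
    refine le_trans ?_ h1
    have h2 : 1 - (1 + 4 * α)⁻¹ = 4 * α / (1 + 4 * α) := by field_simp; ring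
    rw [h2, le_div_iff₀ (by linarith)]
    nlinarith
  have hw1 := (hwin 1 le_rfl (by rw [one_pow]; linarith)).1
  have hwq := (hwin q hq1.le hqL.le).1
  set S1 : ℕ → ℝ := fun M => ∑ n ∈ range M, rf (kap K L 1) n with hS1
  set Sq : ℕ → ℝ := fun M => ∑ n ∈ range M, rf (kap K L q) n with hSq
  have hSq1 : ∀ M, Sq M ≤ (1 + 12 * α ^ 2) * S1 M := fun M =>
    mass_pert hK hF hα hc hq1.le hqL.le (hwq M)
  have hS10 : ∀ M, 0 ≤ S1 M := fun M =>
    sum_nonneg fun n _ => rf_nonneg (kap_nonneg hK.nonneg le_rfl) n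
  set b : ℝ := (1 - δ) * (2 * α * ((L : ℝ) ^ α / c)) with hb
  have hb0 : 0 < b := by positivity
  -- the masses are large
  have hleft : ∀ p ∈ F, ∀ s, p.1 * L ≤ s → b ≤ S1 (s + 1) := by
    intro p hp s hs
    obtain ⟨h1, _, _⟩ := hFp p hp
    refine hmass (s + 1) ?_
    have h2 : (p.1 : ℝ) * L ≤ s := by exact_mod_cast hs
    push_cast
    calc (L : ℝ) * E1 ≤ (2 * E1) * L := by nlinarith
      _ ≤ (δ * Λ) * L := by gcongr
      _ ≤ p.1 * L := by gcongr
      _ ≤ s + 1 := by linarith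
  have hright : ∀ p ∈ F, ∀ t, t < (p.1 + 2 + p.2) * L → b ≤ S1 (l0 - d0 + 1 - t) := by
    intro p hp t ht
    obtain ⟨_, h1, _⟩ := hFp p hp
    have hg := hgeo p hp
    have h3 : (p.1 + 2 + p.2) * L = (p.1 + p.2 + 2) * L := by ring
    refine hmass _ ?_
    have h2 : (t : ℝ) ≤ ((p.1 : ℝ) + p.2 + 2) * L := by
      rw [h3] at ht
      exact_mod_cast ht.le
    have h4 : ((l0 - d0 + 1 - t : ℕ) : ℝ) = (Λ : ℝ) * L - d0 + 1 - t := by
      rw [Nat.cast_sub (by omega)]
      push_cast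
      rw [Nat.cast_sub hld, hl0]
      push_cast
      ring
    rw [h4]
    calc (L : ℝ) * E1 ≤ (2 * E1 - 1) * L := by nlinarith
      _ ≤ (δ * Λ - 1) * L := by gcongr
      _ = Λ * L - L - ((1 - δ) * Λ) * L := by ring
      _ ≤ Λ * L - L - ((p.1 : ℝ) + p.2 + 2) * L := by gcongr
      _ ≤ Λ * L - d0 + 1 - t := by linarith
  -- the long excursion
  have hkD : ∀ p ∈ F, ∀ s t, s < (p.1 + 1) * L → (p.1 + 1 + p.2) * L ≤ t → L < t - s := by
    intro p hp s t hs ht
    obtain ⟨_, _, h1⟩ := hFp p hp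
    have h2 : (p.1 + 1) * L + L ≤ (p.1 + 1 + p.2) * L := by
      have : (p.1 + 1 + 1) * L ≤ (p.1 + 1 + p.2) * L := Nat.mul_le_mul_right _ (by omega)
      have h3 : (p.1 + 1 + 1) * L = (p.1 + 1) * L + L := by ring
      omega
    omega
  -- one pair
  have hone : ∀ p : ℕ × ℕ, p ∈ F → ∃ φ : ℕ → ℝ, (∀ i, 0 ≤ φ i) ∧ (∀ i, φ i ≤ 1) ∧
      (∀ i, φ i ≠ 0 → i ∈ Ioo 0 l0) ∧
      (∀ i ∈ Ioc ((p.1 + 1) * L) ((p.1 + 1 + p.2) * L), φ i = 1) ∧
      ∑ i ∈ range l0 \ Ioc (p.1 * L) ((p.1 + 2 + p.2) * L), φ i ≤ L ∧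
      ∀ (H : ℕ → ℝ) (N : ℕ), Ioo 0 l0 ⊆ range N →
        ENNReal.ofReal (((1 - δ) ^ 3 * (2 * α ^ 2 / c) * (L : ℝ) ^ (1 + α)
          * ((p.2 : ℝ) + 2) ^ (-(1 + α))) * Real.exp (∑ i ∈ range N, φ i * H i))
          ≤ gP (Ke K) l0 d0 L p (fun i => ENNReal.ofReal (Real.exp (H i))) := by
    intro p hp
    obtain ⟨hp1, hp2, hp3⟩ := hFp p hp
    have hg := hgeo p hp
    have e0 : (p.1 + 2 + p.2) * L = (p.1 + p.2 + 2) * L := by ring
    -- value at `1`
    have hval : ∀ q' : ℝ, 1 ≤ q' → ∀ s t : ℕ,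
        ((∑ x ∈ range (s + 1), ren (kA (Ke K) L (fun _ => ENNReal.ofReal q')) x s)) *
          (∑ y ∈ Ico t (l0 - d0 + 1), ren (kA (Ke K) L (fun _ => ENNReal.ofReal q')) t y)
        = ENNReal.ofReal ((∑ n ∈ range (s + 1), rf (kap K L q') n)
            * ∑ n ∈ range (l0 - d0 + 1 - t), rf (kap K L q') n) := by
      intro q' hq' s t
      have := rf_nonneg (kap_nonneg (L := L) hK.nonneg hq')
      rw [left_mass hK.nonneg hq', right_mass hK.nonneg hq',
        ← ENNReal.ofReal_mul (sum_nonneg fun n _ => this n)]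
    have h1env : (fun _ : ℕ => (1 : ℝ≥0∞)) = fun _ => ENNReal.ofReal 1 := by
      funext _; simp
    have hkD1 : ∀ s t, L < t - s → kD (Ke K) L (fun _ => 1) s t = ENNReal.ofReal (K (t - s) / 2) := by
      intro s t hst
      unfold kD pI Ke
      rw [if_pos hst, prod_const_one, mul_one, ENNReal.ofReal_div_of_pos (by norm_num),
        ENNReal.ofReal_ofNat]
    have hgP1 : gP (Ke K) l0 d0 L p (fun _ => 1)
        = ∑ s ∈ Ico (p.1 * L) ((p.1 + 1) * L),
          ∑ t ∈ Ico ((p.1 + 1 + p.2) * L) ((p.1 + 2 + p.2) * L),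
            ENNReal.ofReal (S1 (s + 1) * S1 (l0 - d0 + 1 - t) * (K (t - s) / 2)) := by
      unfold gP
      refine sum_congr rfl fun s hs => sum_congr rfl fun t ht => ?_
      rw [mem_Ico] at hs ht
      rw [hkD1 s t (hkD p hp s t hs.2 ht.1), mul_right_comm, h1env, hval 1 le_rfl,
        ← ENNReal.ofReal_mul (mul_nonneg (hS10 _) (hS10 _))]
    set W : ℝ := (1 - δ) ^ 3 * (2 * α ^ 2 / c) * (L : ℝ) ^ (1 + α)
          * ((p.2 : ℝ) + 2) ^ (-(1 + α)) with hW
    have hW0 : 0 < W := by positivity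
    have hW1 : ENNReal.ofReal W ≤ gP (Ke K) l0 d0 L p (fun _ => 1) := by
      rw [hgP1]
      set w : ℝ := b * b * ((1 - δ) * c * ((L : ℝ) * ((p.2 : ℝ) + 2)) ^ (-(1 + α)) / 2) with hw
      have hterm : ∀ s ∈ Ico (p.1 * L) ((p.1 + 1) * L),
          ∀ t ∈ Ico ((p.1 + 1 + p.2) * L) ((p.1 + 2 + p.2) * L),
          ENNReal.ofReal w
            ≤ ENNReal.ofReal (S1 (s + 1) * S1 (l0 - d0 + 1 - t) * (K (t - s) / 2)) := by
        intro s hs t ht
        rw [mem_Ico] at hs ht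
        refine ENNReal.ofReal_le_ofReal ?_
        have h1 := hleft p hp s hs.1
        have h2 := hright p hp t ht.2
        have h3 := hkD p hp s t hs.2 ht.1
        have h4 := (hn₀ (t - s) (by omega)).1
        have h5 : ((t - s : ℕ) : ℝ) ≤ (L : ℝ) * ((p.2 : ℝ) + 2) := by
          have h6 : t - s ≤ (p.2 + 2) * L := by
            have h7 : (p.1 + 2 + p.2) * L = p.1 * L + (p.2 + 2) * L := by ring
            omega
          have h8 : ((t - s : ℕ) : ℝ) ≤ (((p.2 + 2) * L : ℕ) : ℝ) := by exact_mod_cast h6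
          push_cast at h8
          linarith
        have h6 : (0 : ℝ) < ((t - s : ℕ) : ℝ) := by
          have : 0 < t - s := by omega
          exact_mod_cast this
        have h7 : ((L : ℝ) * ((p.2 : ℝ) + 2)) ^ (-(1 + α)) ≤ ((t - s : ℕ) : ℝ) ^ (-(1 + α)) :=
          Real.rpow_le_rpow_of_nonpos h6 h5 (by linarith)
        have h8 := hS10 (s + 1)
        rw [hw]
        have h9 : (1 - δ) * c * ((L : ℝ) * ((p.2 : ℝ) + 2)) ^ (-(1 + α)) ≤ K (t - s) :=
          le_trans (by gcongr) h4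
        have h10 : 0 ≤ S1 (s + 1) * S1 (l0 - d0 + 1 - t) := mul_nonneg h8 (hS10 _)
        gcongr
      have hWw : W = (L : ℝ) * L * w := by
        have h1 : (L : ℝ) ^ (1 + α) = L * (L : ℝ) ^ α := by
          rw [Real.rpow_add hL0, Real.rpow_one]
        have h2 : (L : ℝ) ^ (-(1 + α)) = (L * (L : ℝ) ^ α)⁻¹ := by
          rw [Real.rpow_neg hL0.le, h1]
        rw [hW, hw, hb, Real.mul_rpow hL0.le (by positivity), h1, h2]
        field_simp
      calc ENNReal.ofReal W = ∑ s ∈ Ico (p.1 * L) ((p.1 + 1) * L),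
            ∑ t ∈ Ico ((p.1 + 1 + p.2) * L) ((p.1 + 2 + p.2) * L), ENNReal.ofReal w := by
            simp only [sum_const, Nat.card_Ico, nsmul_eq_mul]
            have h1 : (p.1 + 1) * L - p.1 * L = L := by
              rw [← Nat.sub_mul]; simp
            have h2 : (p.1 + 2 + p.2) * L - (p.1 + 1 + p.2) * L = L := by
              rw [← Nat.sub_mul]
              have : p.1 + 2 + p.2 - (p.1 + 1 + p.2) = 1 := by omega
              rw [this, one_mul]
            rw [h1, h2, hWw, ENNReal.ofReal_mul (by positivity), ENNReal.ofReal_mul hL0.le,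
              ENNReal.ofReal_natCast, mul_assoc]
        _ ≤ _ := sum_le_sum fun s hs => sum_le_sum fun t ht => hterm s hs t ht
    have hfin : gP (Ke K) l0 d0 L p (fun _ => 1) ≠ ∞ := by
      rw [hgP1]
      exact ENNReal.sum_ne_top.2 fun s _ => ENNReal.sum_ne_top.2 fun t _ => ENNReal.ofReal_ne_top
    -- the environment equal to `q` outside
    set O : Finset ℕ := range l0 \ Ioc (p.1 * L) ((p.1 + 2 + p.2) * L) with hO
    set I1 : Finset ℕ := Ioc ((p.1 + 1) * L) ((p.1 + 1 + p.2) * L) with hI1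
    have hOq : gP (Ke K) l0 d0 L p (fun j => if j ∈ O then ENNReal.ofReal q else 1)
        ≤ ENNReal.ofReal (1 + 30 * α ^ 2) * gP (Ke K) l0 d0 L p (fun _ => 1) := by
      rw [hgP1, mul_sum]
      unfold gP
      refine sum_le_sum fun s hs => ?_
      rw [mul_sum]
      refine sum_le_sum fun t ht => ?_
      rw [mem_Ico] at hs ht
      set eO : Env := fun j => if j ∈ O then ENNReal.ofReal q else 1 with heO
      have hle : ∀ j, eO j ≤ (fun _ => ENNReal.ofReal q) j := by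
        intro j
        simp only [heO]
        split_ifs
        · exact le_rfl
        · rw [← ENNReal.ofReal_one]; exact ENNReal.ofReal_le_ofReal hq1.le
      have hD1 : kD (Ke K) L eO s t = ENNReal.ofReal (K (t - s) / 2) := by
        rw [← hkD1 s t (hkD p hp s t hs.2 ht.1)]
        unfold kD pI
        congr 2
        refine prod_congr rfl fun j hj => ?_
        rw [mem_Ioc] at hj
        simp only [heO]
        rw [if_neg]
        intro hjO
        rw [hO, Finset.mem_sdiff, mem_Ioc] at hjO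
        exact hjO.2 ⟨by omega, by omega⟩
      rw [hD1, mul_right_comm]
      have h1 : (∑ x ∈ range (s + 1), ren (kA (Ke K) L eO) x s) *
          (∑ y ∈ Ico t (l0 - d0 + 1), ren (kA (Ke K) L eO) t y)
          ≤ ENNReal.ofReal (Sq (s + 1) * Sq (l0 - d0 + 1 - t)) := by
        rw [← hval q hq1.le]
        refine mul_le_mul' ?_ ?_
        · exact sum_le_sum fun x _ => (MA_ren (MA_kA (Ke K) L) x s).mono_env hle
        · exact sum_le_sum fun y _ => (MA_ren (MA_kA (Ke K) L) t y).mono_env hle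
      have h2 : Sq (s + 1) * Sq (l0 - d0 + 1 - t)
          ≤ (1 + 30 * α ^ 2) * (S1 (s + 1) * S1 (l0 - d0 + 1 - t)) := by
        have h3 := hSq1 (s + 1)
        have h4 := hSq1 (l0 - d0 + 1 - t)
        have h5 : 0 ≤ Sq (l0 - d0 + 1 - t) :=
          sum_nonneg fun n _ => rf_nonneg (kap_nonneg hK.nonneg hq1.le) n
        have h6 := hS10 (s + 1)
        have h7 := hS10 (l0 - d0 + 1 - t)
        calc Sq (s + 1) * Sq (l0 - d0 + 1 - t)
            ≤ ((1 + 12 * α ^ 2) * S1 (s + 1)) * ((1 + 12 * α ^ 2) * S1 (l0 - d0 + 1 - t)) := by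
              gcongr
          _ = (1 + 12 * α ^ 2) ^ 2 * (S1 (s + 1) * S1 (l0 - d0 + 1 - t)) := by ring
          _ ≤ (1 + 30 * α ^ 2) * (S1 (s + 1) * S1 (l0 - d0 + 1 - t)) := by
              refine mul_le_mul_of_nonneg_right ?_ (mul_nonneg h6 h7)
              have h8 : α ^ 2 ≤ 1 / 400 := by nlinarith
              nlinarith [sq_nonneg α]
      have hKn := hK.nonneg (t - s)
      calc (∑ x ∈ range (s + 1), ren (kA (Ke K) L eO) x s) *
          (∑ y ∈ Ico t (l0 - d0 + 1), ren (kA (Ke K) L eO) t y) * ENNReal.ofReal (K (t - s) / 2)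
          ≤ ENNReal.ofReal ((1 + 30 * α ^ 2) * (S1 (s + 1) * S1 (l0 - d0 + 1 - t)))
            * ENNReal.ofReal (K (t - s) / 2) := by
            gcongr
            exact h1.trans (ENNReal.ofReal_le_ofReal h2)
        _ = ENNReal.ofReal (1 + 30 * α ^ 2)
            * ENNReal.ofReal (S1 (s + 1) * S1 (l0 - d0 + 1 - t) * (K (t - s) / 2)) := by
            rw [ENNReal.ofReal_mul (by positivity), mul_assoc,
              ← ENNReal.ofReal_mul (mul_nonneg (hS10 _) (hS10 _))]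
    have hzero : ∀ n ∈ I1, gP (Ke K) l0 d0 L p (fun j => if j = n then 0 else 1) = 0 := by
      intro n hn
      rw [hI1, mem_Ioc] at hn
      unfold gP
      refine sum_eq_zero fun s hs => sum_eq_zero fun t ht => ?_
      rw [mem_Ico] at hs ht
      have : kD (Ke K) L (fun j => if j = n then 0 else 1) s t = 0 := by
        unfold kD
        rw [if_pos (hkD p hp s t hs.2 ht.1)]
        have : pI (fun j => if j = n then 0 else 1) s t = 0 := by
          unfold pI
          refine prod_eq_zero (i := n) ?_ (by simp)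
          rw [mem_Ioc]
          omega
        rw [this, mul_zero]
      rw [this, mul_zero, zero_mul]
    exact (gP_MA (Kk := Ke K) hd0 hld p hg).jensen hW0 hW1 hfin hq1 hOq (by positivity) hρ hzero
  choose! φ hφ using hone
  refine ⟨φ, ?_, ?_, ?_, ?_, ?_, ?_⟩
  · intro p hp i; exact (hφ p hp).1 i
  · intro p hp i; exact (hφ p hp).2.1 i
  · intro p hp i hi
    have := (hφ p hp).2.2.1 i hi
    rw [mem_Ioo] at this
    exact this
  · intro p hp i hi; exact (hφ p hp).2.2.2.1 i hi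
  · intro p hp; exact (hφ p hp).2.2.2.2.1
  · intro H
    refine le_trans ?_ (sum_gP_le hd0 hld F hgeo _)
    refine sum_le_sum fun p hp => ?_
    refine (hφ p hp).2.2.2.2.2 H l0 ?_
    intro i; simp only [mem_Ioo, mem_range]; omega

end Pool.Agent.Cop

end
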