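import Mathlib
import Pool.Agent.Work.MP_cceb86_pr.Frac

/-!
The fractional moment inequality with a change of measure on a set of monomers.
-/

open Finset MeasureTheory ProbabilityTheory
open scoped ENNReal NNReal

namespace Pool.Agent.Cop

variable {Ω : Type*} [MeasurableSpace Ω] {P : Measure Ω}

/-- independent random weights `e n`, together with tilting variables `y n`. -/
structure TWeights (P : Measure Ω) (e y : ℕ → Ω → ℝ≥0∞) (γ : ℝ) (q r κ : ℝ≥0∞) : Prop where
  meas : ∀ n, Measurable (e n)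
  measy : ∀ n, Measurable (y n)
  indep : iIndepFun (fun n ω => (e n ω, y n ω)) P
  ypos : ∀ n ω, y n ω ≠ 0
  ytop : ∀ n ω, y n ω ≠ ∞
  gam : ∀ n, ∫⁻ ω, (e n ω) ^ γ ∂P ≤ r
  yone : ∀ n, ∫⁻ ω, y n ω ∂P ≤ 1
  ey : ∀ n, ∫⁻ ω, e n ω * y n ω ∂P ≤ q
  kap : ∀ n, (∫⁻ ω, (y n ω) ^ (-(γ / (1 - γ))) ∂P) ^ (1 - γ) ≤ κ

variable {e y : ℕ → Ω → ℝ≥0∞} {γ : ℝ} {q r κ : ℝ≥0∞}

/-- product formula for functions of the pairs `(e n, y n)` -/
lemma lintegral_prod_pair (hW : TWeights P e y γ q r κ) (S : Finset ℕ)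
    (φ : ℕ → ℝ≥0∞ × ℝ≥0∞ → ℝ≥0∞) (hφ : ∀ n, Measurable (φ n)) :
    ∫⁻ ω, ∏ n ∈ S, φ n (e n ω, y n ω) ∂P = ∏ n ∈ S, ∫⁻ ω, φ n (e n ω, y n ω) ∂P := by
  have hind : iIndepFun (fun n => φ n ∘ (fun ω => (e n ω, y n ω))) P := hW.indep.comp φ hφ
  exact lintegral_prod_eq_prod_lintegral_of_indepFun S
    (fun n => φ n ∘ (fun ω => (e n ω, y n ω))) hind
    (fun n => (hφ n).comp ((hW.meas n).prodMk (hW.measy n)))

/-- The fractional moment bound with a change of measure on `V`. -/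
theorem frac_moment_tilt (hW : TWeights P e y γ q r κ) (hγ : 0 < γ) (hγ1 : γ < 1)
    {S I V : Finset ℕ} {g : Env → ℝ≥0∞} (hg : MA S g) (hSV : S ⊆ V) (hd : Disjoint I V) :
    ∫⁻ ω, ((∏ j ∈ I, e j ω) * g (fun j => e j ω)) ^ γ ∂P
      ≤ r ^ I.card * κ ^ V.card * (g (fun _ => q)) ^ γ := by
  classical
  have hgm := hg.measurable hW.meas
  have hme := hW.meas
  have hmy := hW.measy
  have h1γ : 0 < 1 - γ := by linarith
  set s : ℝ := γ / (1 - γ) with hs
  set A : Ω → ℝ≥0∞ := fun ω => ∏ j ∈ I, (e j ω) ^ γ with hA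
  set Y : Ω → ℝ≥0∞ := fun ω => ∏ j ∈ V, y j ω with hY
  set W : Ω → ℝ≥0∞ := fun ω => ∏ j ∈ V, (y j ω) ^ (-s) with hWd
  have hAm : Measurable A := by rw [hA]; fun_prop
  have hYm : Measurable Y := by rw [hY]; fun_prop
  have hWm : Measurable W := by rw [hWd]; fun_prop
  have hY0 : ∀ ω, Y ω ≠ 0 := fun ω => by
    simp only [hY]; rw [prod_ne_zero_iff]; exact fun j _ => hW.ypos j ω
  have hYt : ∀ ω, Y ω ≠ ∞ := fun ω => by
    simp only [hY]; exact ENNReal.prod_ne_top fun j _ => hW.ytop j ω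
  have hWY : ∀ ω, W ω = (Y ω) ^ (-s) := by
    intro ω
    simp only [hWd, hY]
    rw [ENNReal.prod_rpow_of_ne_top (fun j _ => hW.ytop j ω)]
  -- first factor
  have hA1 : ∫⁻ ω, A ω * W ω ∂P ≤ r ^ I.card * ∏ j ∈ V, ∫⁻ ω, (y j ω) ^ (-s) ∂P := by
    set φ : ℕ → ℝ≥0∞ × ℝ≥0∞ → ℝ≥0∞ := fun n p => if n ∈ I then p.1 ^ γ else p.2 ^ (-s) with hφ
    have hφm : ∀ n, Measurable (φ n) := by
      intro n
      by_cases hn : n ∈ I
      · have : φ n = fun p => p.1 ^ γ := by funext x; simp [hφ, hn]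
        rw [this]; fun_prop
      · have : φ n = fun p => p.2 ^ (-s) := by funext x; simp [hφ, hn]
        rw [this]; fun_prop
    have key := lintegral_prod_pair hW (I ∪ V) φ hφm
    have e1 : ∀ ω, A ω * W ω = ∏ n ∈ I ∪ V, φ n (e n ω, y n ω) := by
      intro ω
      rw [prod_union hd]
      simp only [hA, hWd]
      congr 1
      · exact prod_congr rfl fun i hi => by simp [hφ, hi]
      · refine prod_congr rfl fun i hi => ?_
        have : i ∉ I := fun h => (disjoint_left.1 hd h) hi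
        simp [hφ, this]
    simp_rw [e1]
    rw [key, prod_union hd]
    refine mul_le_mul' ?_ (le_of_eq ?_)
    · calc ∏ i ∈ I, ∫⁻ ω, φ i (e i ω, y i ω) ∂P ≤ ∏ i ∈ I, r := by
            refine prod_le_prod' fun i hi => ?_
            have : (fun ω => φ i (e i ω, y i ω)) = fun ω => (e i ω) ^ γ := by
              funext ω; simp [hφ, hi]
            rw [this]; exact hW.gam i
        _ = r ^ I.card := by simp
    · refine prod_congr rfl fun i hi => ?_
      have hni : i ∉ I := fun h => (disjoint_left.1 hd h) hi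
      refine lintegral_congr fun ω => ?_
      simp [hφ, hni]
  -- second factor
  have hA2 : ∫⁻ ω, A ω * (g (fun j => e j ω) * Y ω) ∂P ≤ r ^ I.card * g (fun _ => q) := by
    obtain ⟨ι, hι, w, T, hT, hgg⟩ := hg
    have e1 : ∀ ω, A ω * (g (fun j => e j ω) * Y ω)
        = ∑ i, w i * (A ω * ((∏ j ∈ T i, e j ω) * Y ω)) := by
      intro ω
      rw [hgg, sum_mul, mul_sum]
      exact sum_congr rfl fun i _ => by ring
    simp_rw [e1]
    rw [lintegral_finsetSum]
    · rw [hgg, mul_sum]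
      refine sum_le_sum fun i _ => ?_
      rw [lintegral_const_mul]
      · have hTV : T i ⊆ V := (hT i).trans hSV
        set φ : ℕ → ℝ≥0∞ × ℝ≥0∞ → ℝ≥0∞ := fun n p =>
          if n ∈ I then p.1 ^ γ else if n ∈ T i then p.1 * p.2 else p.2 with hφ
        have hφm : ∀ n, Measurable (φ n) := by
          intro n
          by_cases hn : n ∈ I
          · have : φ n = fun p => p.1 ^ γ := by funext x; simp [hφ, hn]
            rw [this]; fun_prop
          · by_cases hn2 : n ∈ T i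
            · have : φ n = fun p => p.1 * p.2 := by funext x; simp [hφ, hn, hn2]
              rw [this]; fun_prop
            · have : φ n = fun p => p.2 := by funext x; simp [hφ, hn, hn2]
              rw [this]; fun_prop
        have key := lintegral_prod_pair hW (I ∪ V) φ hφm
        have e2 : ∀ ω, A ω * ((∏ j ∈ T i, e j ω) * Y ω)
            = ∏ n ∈ I ∪ V, φ n (e n ω, y n ω) := by
          intro ω
          rw [prod_union hd]
          simp only [hA, hY]
          congr 1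
          · exact prod_congr rfl fun j hj => by simp [hφ, hj]
          · have e3 : ∏ j ∈ T i, e j ω = ∏ j ∈ V, (if j ∈ T i then e j ω else 1) := by
              rw [← prod_subset hTV (f := fun j => if j ∈ T i then e j ω else 1)
                (by intro j _ hj; simp [hj])]
              exact prod_congr rfl fun j hj => by simp [hj]
            rw [e3, ← prod_mul_distrib]
            refine prod_congr rfl fun j hj => ?_
            have hni : j ∉ I := fun h => (disjoint_left.1 hd h) hj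
            by_cases hj2 : j ∈ T i
            · simp [hφ, hni, hj2]
            · simp [hφ, hni, hj2]
        simp_rw [e2]
        rw [key, prod_union hd]
        have h1 : ∏ n ∈ I, ∫⁻ ω, φ n (e n ω, y n ω) ∂P ≤ r ^ I.card := by
          calc ∏ n ∈ I, ∫⁻ ω, φ n (e n ω, y n ω) ∂P ≤ ∏ n ∈ I, r := by
                refine prod_le_prod' fun j hj => ?_
                have : (fun ω => φ j (e j ω, y j ω)) = fun ω => (e j ω) ^ γ := by
                  funext ω; simp [hφ, hj]
                rw [this]; exact hW.gam j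
            _ = r ^ I.card := by simp
        have h2 : ∏ n ∈ V, ∫⁻ ω, φ n (e n ω, y n ω) ∂P ≤ ∏ j ∈ T i, q := by
          calc ∏ n ∈ V, ∫⁻ ω, φ n (e n ω, y n ω) ∂P
              ≤ ∏ n ∈ V, (if n ∈ T i then q else 1) := by
                refine prod_le_prod' fun j hj => ?_
                have hni : j ∉ I := fun h => (disjoint_left.1 hd h) hj
                by_cases hj2 : j ∈ T i
                · have : (fun ω => φ j (e j ω, y j ω)) = fun ω => e j ω * y j ω := by
                    funext ω; simp [hφ, hni, hj2]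
                  rw [this, if_pos hj2]; exact hW.ey j
                · have : (fun ω => φ j (e j ω, y j ω)) = fun ω => y j ω := by
                    funext ω; simp [hφ, hni, hj2]
                  rw [this, if_neg hj2]; exact hW.yone j
            _ = ∏ n ∈ T i, (if n ∈ T i then q else 1) := by
                refine (prod_subset hTV ?_).symm
                intro j _ hj; simp [hj]
            _ = ∏ j ∈ T i, q := prod_congr rfl fun j hj => by simp [hj]
        calc w i * ((∏ n ∈ I, ∫⁻ ω, φ n (e n ω, y n ω) ∂P)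
              * ∏ n ∈ V, ∫⁻ ω, φ n (e n ω, y n ω) ∂P)
            ≤ w i * (r ^ I.card * ∏ j ∈ T i, q) := by gcongr
          _ = r ^ I.card * (w i * ∏ j ∈ T i, q) := by ring
      · fun_prop
    · intro i _
      fun_prop
  have e2 : ∀ ω, ((∏ j ∈ I, e j ω) * g (fun j => e j ω)) ^ γ
      = (A ω * W ω) ^ (1 - γ) * (A ω * (g (fun j => e j ω) * Y ω)) ^ γ := by
    intro ω
    rw [ENNReal.mul_rpow_of_nonneg _ _ hγ.le, ENNReal.mul_rpow_of_nonneg _ _ h1γ.le,
      ENNReal.mul_rpow_of_nonneg _ _ hγ.le, ENNReal.mul_rpow_of_nonneg _ _ hγ.le]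
    have hw1 : W ω ^ (1 - γ) = (Y ω) ^ (-γ) := by
      rw [hWY, ← ENNReal.rpow_mul]
      congr 1
      rw [hs]; field_simp
    have hcancel : (Y ω) ^ (-γ) * (Y ω) ^ γ = 1 := by
      rw [← ENNReal.rpow_add _ _ (hY0 ω) (hYt ω)]; simp
    have hAA : A ω ^ (1 - γ) * A ω ^ γ = A ω := by
      rw [← ENNReal.rpow_add_of_nonneg _ _ h1γ.le hγ.le, sub_add_cancel, ENNReal.rpow_one]
    have hAe : (∏ j ∈ I, e j ω) ^ γ = A ω := by
      simp only [hA]; rw [ENNReal.prod_rpow_of_nonneg hγ.le]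
    rw [hw1, hAe]
    calc A ω * g (fun j => e j ω) ^ γ
        = (A ω ^ (1 - γ) * A ω ^ γ) * ((Y ω) ^ (-γ) * (Y ω) ^ γ) * g (fun j => e j ω) ^ γ := by
          rw [hAA, hcancel, mul_one]
      _ = _ := by ring
  simp_rw [e2]
  calc ∫⁻ ω, (A ω * W ω) ^ (1 - γ) * (A ω * (g (fun j => e j ω) * Y ω)) ^ γ ∂P
      ≤ (∫⁻ ω, A ω * W ω ∂P) ^ (1 - γ) * (∫⁻ ω, A ω * (g (fun j => e j ω) * Y ω) ∂P) ^ γ :=
        ENNReal.lintegral_mul_norm_pow_le (hAm.mul hWm).aemeasurable
          (hAm.mul (hgm.mul hYm)).aemeasurable h1γ.le hγ.le (by ring)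
    _ ≤ (r ^ I.card * ∏ j ∈ V, ∫⁻ ω, (y j ω) ^ (-s) ∂P) ^ (1 - γ)
        * (r ^ I.card * g (fun _ => q)) ^ γ := by gcongr
    _ = r ^ I.card * (∏ j ∈ V, (∫⁻ ω, (y j ω) ^ (-s) ∂P) ^ (1 - γ)) * (g (fun _ => q)) ^ γ := by
        rw [ENNReal.mul_rpow_of_nonneg _ _ hγ.le, ENNReal.mul_rpow_of_nonneg _ _ h1γ.le,
          ← ENNReal.prod_rpow_of_nonneg h1γ.le]
        have : (r ^ I.card) ^ (1 - γ) * (r ^ I.card) ^ γ = r ^ I.card := by
          rw [← ENNReal.rpow_add_of_nonneg _ _ h1γ.le hγ.le, sub_add_cancel, ENNReal.rpow_one]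
        calc (r ^ I.card) ^ (1 - γ) * (∏ j ∈ V, (∫⁻ ω, (y j ω) ^ (-s) ∂P) ^ (1 - γ)) *
              ((r ^ I.card) ^ γ * (g (fun _ => q)) ^ γ)
            = ((r ^ I.card) ^ (1 - γ) * (r ^ I.card) ^ γ) *
              (∏ j ∈ V, (∫⁻ ω, (y j ω) ^ (-s) ∂P) ^ (1 - γ)) * (g (fun _ => q)) ^ γ := by ring
          _ = _ := by rw [this]
    _ ≤ r ^ I.card * (∏ j ∈ V, κ) * (g (fun _ => q)) ^ γ := by
        gcongr with j hj
        exact hW.kap j
    _ = _ := by simp

end Pool.Agent.Cop
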