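import Mathlib
import Pool.Agent.Work.MP_cceb86_pr.Claim

/-!
The fractional moment of the full partition function.
-/

open Finset MeasureTheory ProbabilityTheory
open scoped ENNReal NNReal

noncomputable section

namespace Pool.Agent.Cop

variable {Ω : Type*} [MeasurableSpace Ω] {P : Measure Ω} {e : ℕ → Ω → ℝ≥0∞} {γ : ℝ}
  {q r : ℝ≥0∞} {u κ : ℕ → ℝ≥0∞} {H ρ : ℝ≥0∞} {K : ℕ → ℝ≥0∞} {L N : ℕ}

lemma kT_eq (e : Env) : kT K e = fun u v => kA K L e u v + kD K L e u v := by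
  funext u v; rw [kA_add_kD]

lemma MA_kT (x y : ℕ) : MA (Ioc x y) (fun e => kT K e x y) := by
  unfold kT
  exact MA.const_mul ((MA.const _ 1).add (MA_pI x y)) _

/-- the constrained partition function -/
theorem constrained_bound (hL : 0 < L) (hW : Weights P e γ q r) (hγ : 0 < γ) (hγ1 : γ ≤ 1)
    (hB : Bds K L N γ q r u κ H ρ) (hρ : ρ ≤ ENNReal.ofReal (3 / 4))
    (I : Finset ℕ) (hI : Disjoint I (Ioc 0 N)) :
    ∫⁻ ω, ((∏ j ∈ I, e j ω) * ren (kT K (fun j => e j ω)) 0 N) ^ γ ∂P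
      ≤ r ^ I.card * H ^ γ * 4 := by
  classical
  set f : ℕ → Env → ℝ≥0∞ := fun x _ => if x = 0 then 1 else 0 with hf
  have hfM : ∀ x, MA (range (x + 1) \ I) (f x) := by
    intro x
    by_cases hx : x = 0
    · simp only [hf, hx, if_true]; exact MA.const _ _
    · simp only [hf, hx, if_false]; exact MA.const _ _
  have h0 : 0 ∈ blk L N 0 := by simp [blk, hL]
  have hsum : ∀ (k : ℕ) (e : Env), ∑ x ∈ blk L N 0, f x e * Zk K L N e k x = Zk K L N e k 0 := by
    intro k e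
    rw [sum_eq_single 0]
    · simp [hf]
    · intro b _ hb; simp [hf, hb]
    · intro h; exact absurd h0 h
  have hsum1 : ∑ x ∈ blk L N 0, f x (fun _ => q) = 1 := by
    rw [sum_eq_single 0]
    · simp [hf]
    · intro b _ hb; simp [hf, hb]
    · intro h; exact absurd h0 h
  have hk : ∀ k, ∫⁻ ω, ((∏ j ∈ I, e j ω) * Zk K L N (fun j => e j ω) k 0) ^ γ ∂P
      ≤ r ^ I.card * H ^ γ * ρ ^ k := by
    intro k
    have h := claim hL hW hγ hγ1 hB k 0 I f hfM (by simpa using hI)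
    rw [hsum1] at h
    simp_rw [hsum] at h
    simpa using h
  have hm : ∀ k, Measurable (fun ω => ((∏ j ∈ I, e j ω) * Zk K L N (fun j => e j ω) k 0) ^ γ) := by
    intro k
    have m1 : Measurable (fun ω => ∏ j ∈ I, e j ω) := by
      have := hW.meas
      fun_prop
    exact (m1.mul ((MA_Zk K L N k 0).measurable hW.meas)).pow_const γ
  calc ∫⁻ ω, ((∏ j ∈ I, e j ω) * ren (kT K (fun j => e j ω)) 0 N) ^ γ ∂P
      ≤ ∫⁻ ω, ∑ k ∈ range (N + 2),
          ((∏ j ∈ I, e j ω) * Zk K L N (fun j => e j ω) k 0) ^ γ ∂P := by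
        refine lintegral_mono fun ω => ?_
        rw [kT_eq (L := L), ren_add_eq_sum_zk _ _ (Nat.zero_le N), mul_sum]
        exact rpow_sum_le _ _ hγ hγ1
    _ = ∑ k ∈ range (N + 2), ∫⁻ ω,
          ((∏ j ∈ I, e j ω) * Zk K L N (fun j => e j ω) k 0) ^ γ ∂P :=
        lintegral_finsetSum _ fun k _ => hm k
    _ ≤ ∑ k ∈ range (N + 2), r ^ I.card * H ^ γ * ρ ^ k := sum_le_sum fun k _ => hk k
    _ = r ^ I.card * H ^ γ * ∑ k ∈ range (N + 2), ρ ^ k := by rw [mul_sum]
    _ ≤ r ^ I.card * H ^ γ * 4 := by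
        gcongr
        calc ∑ k ∈ range (N + 2), ρ ^ k ≤ ∑ k ∈ range (N + 2), (ENNReal.ofReal (3 / 4)) ^ k := by
              gcongr
          _ ≤ ∑' k, (ENNReal.ofReal (3 / 4)) ^ k := ENNReal.sum_le_tsum _
          _ = (1 - ENNReal.ofReal (3 / 4))⁻¹ := ENNReal.tsum_geometric _
          _ = 4 := by
              rw [show (1 : ℝ≥0∞) = ENNReal.ofReal 1 by simp, ← ENNReal.ofReal_sub _ (by norm_num),
                ← ENNReal.ofReal_inv_of_pos (by norm_num)]
              norm_num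

/-- The free partition function as a sum over the last renewal before `N`. -/
def Zf (K Kb : ℕ → ℝ≥0∞) (N : ℕ) (e : Env) : ℝ≥0∞ :=
  ∑ m ∈ range (N + 1), ren (kT K e) 0 m * (Kb (N - m) * ((1 + pI e m N) / 2))

lemma MA_Zf (K Kb : ℕ → ℝ≥0∞) (N : ℕ) : MA (Ioc 0 N) (Zf K Kb N) := by
  unfold Zf
  refine MA.sum _ fun m hm => ?_
  rw [mem_range] at hm
  have h1 : MA (Ioc m N) (fun e => Kb (N - m) * ((1 + pI e m N) / 2)) := by
    refine MA.const_mul ?_ _
    have := (((MA.const (Ioc m N) 1).add (MA_pI m N)).const_mul (2⁻¹))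
    refine this.congr fun e => ?_
    rw [ENNReal.div_eq_inv_mul]
  refine ((MA_ren (MA_kT (K := K)) 0 m).mul h1 ?_).mono ?_
  · rw [disjoint_left]; intro w; simp only [mem_Ioc]; omega
  · intro w; simp only [mem_union, mem_Ioc]; omega

theorem free_bound (hL : 0 < L) (hW : Weights P e γ q r) (hγ : 0 < γ) (hγ1 : γ ≤ 1)
    (hB : ∀ N, Bds K L N γ q r u κ H ρ) (hρ : ρ ≤ ENNReal.ofReal (3 / 4)) (hr : r ≤ 1)
    {Kb : ℕ → ℝ≥0∞} (hKb : ∀ n, Kb n ≤ 1) (N : ℕ) :
    ∫⁻ ω, (Zf K Kb N (fun j => e j ω)) ^ γ ∂P ≤ (8 * H ^ γ) * (N + 1 : ℕ) := by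
  classical
  set F : ℕ → Ω → ℝ≥0∞ := fun m ω => ren (kT K (fun j => e j ω)) 0 m with hF
  set G : ℕ → Ω → ℝ≥0∞ := fun m ω => (∏ j ∈ Ioc m N, e j ω) * ren (kT K (fun j => e j ω)) 0 m
    with hG
  have hFm : ∀ m, Measurable (F m) := fun m => (MA_ren (MA_kT (K := K)) 0 m).measurable hW.meas
  have hGm : ∀ m, Measurable (G m) := by
    intro m
    have m1 : Measurable (fun ω => ∏ j ∈ Ioc m N, e j ω) := by
      have := hW.meas
      fun_prop
    exact m1.mul (hFm m)
  have hFb : ∀ m, ∫⁻ ω, (F m ω) ^ γ ∂P ≤ 4 * H ^ γ := by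
    intro m
    have h := constrained_bound (N := m) hL hW hγ hγ1 (hB m) hρ ∅ (by simp)
    simp only [prod_empty, one_mul, card_empty, pow_zero] at h
    rwa [mul_comm] at h
  have hGb : ∀ m, ∫⁻ ω, (G m ω) ^ γ ∂P ≤ 4 * H ^ γ := by
    intro m
    have h := constrained_bound (N := m) hL hW hγ hγ1 (hB m) hρ (Ioc m N) (by
      rw [disjoint_left]; intro w; simp only [mem_Ioc]; omega)
    refine h.trans ?_
    calc r ^ (Ioc m N).card * H ^ γ * 4 ≤ 1 * H ^ γ * 4 := by
          gcongr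
          exact pow_le_one' hr _
      _ = 4 * H ^ γ := by ring
  have hpt : ∀ ω, (Zf K Kb N (fun j => e j ω)) ^ γ
      ≤ ∑ m ∈ range (N + 1), ((F m ω) ^ γ + (G m ω) ^ γ) := by
    intro ω
    unfold Zf
    refine (rpow_sum_le _ _ hγ hγ1).trans (sum_le_sum fun m _ => ?_)
    refine le_trans ?_ (ENNReal.rpow_add_le_add_rpow _ _ hγ.le hγ1)
    refine ENNReal.rpow_le_rpow ?_ hγ.le
    calc ren (kT K (fun j => e j ω)) 0 m * (Kb (N - m) * ((1 + pI (fun j => e j ω) m N) / 2))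
        ≤ ren (kT K (fun j => e j ω)) 0 m * (1 * (1 + pI (fun j => e j ω) m N)) := by
          gcongr
          · exact hKb _
          · exact ENNReal.half_le_self
      _ = F m ω + G m ω := by
          simp only [hF, hG, pI]; ring
  calc ∫⁻ ω, (Zf K Kb N (fun j => e j ω)) ^ γ ∂P
      ≤ ∫⁻ ω, ∑ m ∈ range (N + 1), ((F m ω) ^ γ + (G m ω) ^ γ) ∂P := lintegral_mono hpt
    _ = ∑ m ∈ range (N + 1), ∫⁻ ω, ((F m ω) ^ γ + (G m ω) ^ γ) ∂P :=
        lintegral_finsetSum _ fun m _ => ((hFm m).pow_const γ).add ((hGm m).pow_const γ)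
    _ ≤ ∑ m ∈ range (N + 1), (8 * H ^ γ) := by
        refine sum_le_sum fun m _ => ?_
        rw [lintegral_add_left ((hFm m).pow_const γ)]
        calc ∫⁻ ω, (F m ω) ^ γ ∂P + ∫⁻ ω, (G m ω) ^ γ ∂P ≤ 4 * H ^ γ + 4 * H ^ γ :=
              add_le_add (hFb m) (hGb m)
          _ = 8 * H ^ γ := by ring
    _ = (8 * H ^ γ) * (N + 1 : ℕ) := by
        rw [sum_const, card_range, nsmul_eq_mul, mul_comm]

/-- with unit first moments, the first moment is at most `N + 1`. -/
lemma ren_one_le (hK : ∀ M, ∑ n ∈ Ioc 0 M, K n ≤ 1) (x y : ℕ) :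
    ren (kT K (fun _ => 1)) x y ≤ 1 := by
  induction hn : y - x using Nat.strong_induction_on generalizing x with
  | _ n ih =>
    rcases lt_trichotomy x y with h | h | h
    · rw [ren_left _ h]
      calc ∑ z ∈ Ioc x y, kT K (fun _ => 1) x z * ren (kT K (fun _ => 1)) z y
          ≤ ∑ z ∈ Ioc x y, K (z - x) * 1 := by
            refine sum_le_sum fun z hz => ?_
            rw [mem_Ioc] at hz
            gcongr
            · unfold kT
              rw [pI_const, one_pow, one_add_one_eq_two, ENNReal.div_mul_cancel] <;> simp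
            · exact ih (y - z) (by omega) z rfl
        _ = ∑ n ∈ Ioc 0 (y - x), K n := by
            simp only [mul_one]
            refine sum_nbij' (fun z => z - x) (fun n => n + x) ?_ ?_ ?_ ?_ ?_
            · intro z hz; simp only [mem_Ioc] at *; omega
            · intro z hz; simp only [mem_Ioc] at *; omega
            · intro z hz; simp only [mem_Ioc] at *; omega
            · intro z hz; simp only [mem_Ioc] at *; omega
            · intro z hz; rfl
        _ ≤ 1 := hK _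
    · subst h; simp [ren_self]
    · rw [ren_of_gt _ h]; simp

theorem annealed_bound (hW : Weights P e 1 q r) (hq : q ≤ 1)
    (hK : ∀ M, ∑ n ∈ Ioc 0 M, K n ≤ 1) {Kb : ℕ → ℝ≥0∞} (hKb : ∀ n, Kb n ≤ 1) (N : ℕ) :
    ∫⁻ ω, (Zf K Kb N (fun j => e j ω)) ^ (1 : ℝ) ∂P ≤ 1 * (N + 1 : ℕ) := by
  have h := frac_moment hW (by norm_num) le_rfl (MA_Zf K Kb N) (disjoint_empty_left _)
  simp only [prod_empty, one_mul, card_empty, pow_zero] at h
  refine h.trans ?_
  rw [ENNReal.rpow_one, one_mul]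
  calc Zf K Kb N (fun _ => q) ≤ Zf K Kb N (fun _ => 1) :=
        (MA_Zf K Kb N).mono_env fun _ => hq
    _ ≤ ∑ m ∈ range (N + 1), 1 := by
        unfold Zf
        refine sum_le_sum fun m _ => ?_
        calc ren (kT K (fun _ => 1)) 0 m * (Kb (N - m) * ((1 + pI (fun _ => 1) m N) / 2))
            ≤ 1 * (1 * 1) := by
              gcongr
              · exact ren_one_le hK 0 m
              · exact hKb _
              · rw [pI_const, one_pow, one_add_one_eq_two, ENNReal.div_self] <;> simp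
          _ = 1 := by simp
    _ = (N + 1 : ℕ) := by simp

end Pool.Agent.Cop

end
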