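import Mathlib
import Pool.Agent.Work.MP_cceb86_pr.Claim
import Pool.Agent.Work.MP_cceb86_pr.Tilt
import Pool.Agent.Work.MP_cceb86_pr.Total

/-!
Coarse graining with a change of measure in the visited blocks.
-/

open Finset MeasureTheory ProbabilityTheory
open scoped ENNReal NNReal

noncomputable section

namespace Pool.Agent.Cop

/-- excursions with both ends in the same block -/
def kI (K : ℕ → ℝ≥0∞) (L : ℕ) (e : Env) (x y : ℕ) : ℝ≥0∞ := if x / L = y / L then kT K e x y else 0

/-- excursions with ends in different blocks -/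
def kC (K : ℕ → ℝ≥0∞) (L : ℕ) (e : Env) (x y : ℕ) : ℝ≥0∞ := if x / L = y / L then 0 else kT K e x y

variable (K : ℕ → ℝ≥0∞) (L N : ℕ)

lemma kI_add_kC (e : Env) (x y : ℕ) : kI K L e x y + kC K L e x y = kT K e x y := by
  unfold kI kC; split_ifs <;> simp

lemma MA_kI (x y : ℕ) : MA (Ioc x y) (fun e => kI K L e x y) := by
  unfold kI; split_ifs
  · exact MA_kT x y
  · exact MA.zero _

lemma MA_kC (x y : ℕ) : MA (Ioc x y) (fun e => kC K L e x y) := by
  unfold kC; split_ifs
  · exact MA.zero _
  · exact MA_kT x y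

/-- contribution of the chains from `x` to `N` visiting exactly `k` further blocks. -/
def Zv (e : Env) (k x : ℕ) : ℝ≥0∞ := zk (ren (kI K L e)) (kC K L e) N k x

lemma MA_Zv (k x : ℕ) : MA (Ioc x N) (fun e => Zv K L N e k x) :=
  MA_zk N (fun x y => MA_ren (MA_kI K L) x y) (MA_kC K L) k x

lemma ren_kI_zero {e : Env} {x y : ℕ} (h : x / L ≠ y / L) : ren (kI K L e) x y = 0 := by
  induction y using Nat.strong_induction_on with
  | _ y ih =>
    rcases lt_trichotomy x y with h1 | h1 | h1
    · rw [ren_right _ h1]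
      refine sum_eq_zero fun z hz => ?_
      rw [mem_Ico] at hz
      by_cases h2 : z / L = y / L
      · rw [ih z hz.2 (by rw [h2]; exact h), zero_mul]
      · unfold kI; rw [if_neg h2, mul_zero]
    · subst h1; exact absurd rfl h
    · exact ren_of_gt _ h1

/-- The deterministic bounds used in the second claim. -/
structure Bds2 (γ : ℝ) (q κ : ℝ≥0∞) (φ : ℕ → ℝ≥0∞) (c0 : ℝ≥0∞) (c : ℕ → ℝ≥0∞) (ρ : ℝ≥0∞) :
    Prop where
  hq : q ≤ 1
  hκ : 1 ≤ κ
  hφ : ∀ x, 1 ≤ φ x
  hu : ∀ x, ren (kI K L (fun _ => q)) x N ≤ 1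
  h0 : ∀ x, ∑ s ∈ (Icc x N).filter (fun s => s / L = x / L), ren (kI K L (fun _ => q)) x s *
    ∑ t ∈ (Ioc s N).filter (fun t => t / L = s / L + 1), kT K (fun _ => q) s t * φ t ≤ c0 * φ x
  hj : ∀ x j, ∑ s ∈ (Icc x N).filter (fun s => s / L = x / L), ren (kI K L (fun _ => q)) x s *
    ∑ t ∈ (Ioc s N).filter (fun t => t / L = s / L + 2 + j), K (t - s) / 2 * φ t ≤ c j * φ x
  hρ : κ ^ L * (c0 ^ γ + ∑ j ∈ range (N + 1), ((c j) ^ γ + (c j) ^ γ)) ≤ ρ

variable {K L N}

/-- new prefix functions, generic form -/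
def Gn (K : ℕ → ℝ≥0∞) (L N : ℕ) (q0 m : ℕ) (wt : Env → ℕ → ℕ → ℝ≥0∞) (f : ℕ → Env → ℝ≥0∞)
    (t : ℕ) (e : Env) : ℝ≥0∞ :=
  ∑ x ∈ blk L N q0, ∑ s ∈ (Icc x N).filter (fun s => s / L = x / L),
    if t ∈ (Ioc s N).filter (fun t => t / L = s / L + m) then
      f x e * ren (kI K L e) x s * wt e s t else 0

lemma Gn_sum (q0 m : ℕ) (wt : Env → ℕ → ℕ → ℝ≥0∞) (f : ℕ → Env → ℝ≥0∞)
    (Z : ℕ → ℝ≥0∞) (e : Env) :
    ∑ t ∈ blk L N (q0 + m), Gn K L N q0 m wt f t e * Z t
      = ∑ x ∈ blk L N q0, ∑ s ∈ (Icc x N).filter (fun s => s / L = x / L),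
          ∑ t ∈ (Ioc s N).filter (fun t => t / L = s / L + m),
            f x e * ren (kI K L e) x s * wt e s t * Z t := by
  classical
  unfold Gn
  simp only [sum_mul]
  rw [sum_comm]
  refine sum_congr rfl fun x hx => ?_
  rw [sum_comm]
  refine sum_congr rfl fun s hs => ?_
  have hsub : (Ioc s N).filter (fun t => t / L = s / L + m) ⊆ blk L N (q0 + m) := by
    intro t ht
    simp only [blk, mem_filter, mem_Ioc, mem_range, mem_Icc] at *
    omega
  rw [← sum_subset hsub]
  · exact sum_congr rfl fun t ht => by rw [if_pos ht]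
  · intro t _ ht
    rw [if_neg ht, zero_mul]

/-- weight of an up excursion -/
def wu (K : ℕ → ℝ≥0∞) (_e : Env) (s t : ℕ) : ℝ≥0∞ := K (t - s) / 2

/-- weight of a down excursion without its full interior blocks -/
def wd (K : ℕ → ℝ≥0∞) (L : ℕ) (e : Env) (s t : ℕ) : ℝ≥0∞ :=
  K (t - s) / 2 * (pI e s ((s / L + 1) * L) * pI e ((t / L) * L) t)

lemma step_identity2 (hL : 0 < L) (q0 : ℕ) (f : ℕ → Env → ℝ≥0∞) (k : ℕ) (e : Env) :
    ∑ x ∈ blk L N q0, f x e * Zv K L N e (k+1) x
      = ∑ t ∈ blk L N (q0 + 1), Gn K L N q0 1 (kT K) f t e * Zv K L N e k t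
        + ∑ j ∈ range (N + 1),
          (∑ t ∈ blk L N (q0 + (2 + j)), Gn K L N q0 (2 + j) (wu K) f t e * Zv K L N e k t
          + pI e ((q0 + 1) * L) ((q0 + (2 + j)) * L) *
            ∑ t ∈ blk L N (q0 + (2 + j)), Gn K L N q0 (2 + j) (wd K L) f t e
              * Zv K L N e k t) := by
  classical
  have h1 : ∀ x, Zv K L N e (k+1) x
      = ∑ s ∈ (Icc x N).filter (fun s => s / L = x / L), (
          ∑ t ∈ (Ioc s N).filter (fun t => t / L = s / L + 1),
            ren (kI K L e) x s * kT K e s t * Zv K L N e k t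
          + ∑ j ∈ range (N + 1), ∑ t ∈ (Ioc s N).filter (fun t => t / L = s / L + (2 + j)),
            ren (kI K L e) x s * kT K e s t * Zv K L N e k t) := by
    intro x
    change gd (ren (kI K L e)) (kC K L e) N (fun t => Zv K L N e k t) x = _
    unfold gd
    rw [sum_filter]
    refine sum_congr rfl fun s hs => ?_
    split_ifs with hsx
    · have h2 : ∑ t ∈ Ioc s N, ren (kI K L e) x s * kC K L e s t * Zv K L N e k t
          = ∑ t ∈ (Ioc s N).filter (fun t => ¬ s / L = t / L),
              ren (kI K L e) x s * kC K L e s t * Zv K L N e k t := by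
        rw [sum_filter_of_ne]
        intro t _ ht hcon
        apply ht
        simp [kC, hcon]
      rw [h2, ← sum_fiberwise_of_maps_to (t := range (N+2)) (g := fun t => t / L - (s / L + 1)),
        sum_range_succ']
      · rw [add_comm]
        congr 1
        · refine sum_congr ?_ ?_
          · ext t
            simp only [mem_filter, mem_Ioc]
            constructor
            · rintro ⟨⟨h4, h5⟩, h6⟩
              have : s / L ≤ t / L := Nat.div_le_div_right (by omega)
              exact ⟨h4, by omega⟩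
            · rintro ⟨h4, h5⟩
              exact ⟨⟨h4, by omega⟩, by omega⟩
          · intro t ht
            simp only [mem_filter, mem_Ioc] at ht
            have : kC K L e s t = kT K e s t := by unfold kC; rw [if_neg (by omega)]
            rw [this]
        · refine sum_congr rfl fun j _ => sum_congr ?_ ?_
          · ext t
            simp only [mem_filter, mem_Ioc]
            constructor
            · rintro ⟨⟨h4, h5⟩, h6⟩
              exact ⟨h4, by omega⟩
            · rintro ⟨h4, h5⟩
              exact ⟨⟨h4, by omega⟩, by omega⟩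
          · intro t ht
            simp only [mem_filter, mem_Ioc] at ht
            have : kC K L e s t = kT K e s t := by unfold kC; rw [if_neg (by omega)]
            rw [this]
      · intro t ht
        simp only [mem_filter, mem_Ioc, mem_range] at *
        have : t / L ≤ t := Nat.div_le_self _ _
        exact lt_of_le_of_lt (Nat.sub_le _ _) (by omega)
    · refine sum_eq_zero fun t _ => ?_
      rw [ren_kI_zero (K := K) (L := L) (fun h => hsx h.symm)]
      simp
  -- the weights of the excursions with full interior blocks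
  have h3 : ∀ j, ∀ x ∈ blk L N q0, ∀ s ∈ (Icc x N).filter (fun s => s / L = x / L),
      ∀ t ∈ (Ioc s N).filter (fun t => t / L = s / L + (2 + j)),
      kT K e s t = wu K e s t + pI e ((q0 + 1) * L) ((q0 + (2 + j)) * L) * wd K L e s t := by
    intro j x hx s hs t ht
    simp only [blk, mem_filter, mem_Ioc, mem_range, mem_Icc] at *
    have e1 : s / L = q0 := by omega
    have e2 : t / L = q0 + (2 + j) := by omega
    have e4 : s ≤ (q0 + 1) * L := by
      have := Nat.lt_div_mul_add (a := s) hL
      rw [e1] at this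
      nlinarith
    have e5 : (q0 + (2 + j)) * L ≤ t := by
      have := Nat.div_mul_le_self t L
      rwa [e2] at this
    have e6 : (q0 + 1) * L ≤ (q0 + (2 + j)) * L := Nat.mul_le_mul_right _ (by omega)
    have e7 : pI e s t = pI e s ((q0+1)*L) * (pI e ((q0+1)*L) ((q0+(2+j))*L)
        * pI e ((q0+(2+j))*L) t) := by
      rw [pI_mul e e6 e5, pI_mul e e4 (e6.trans e5)]
    unfold kT wu wd
    rw [e1, e2, e7]
    ring
  calc ∑ x ∈ blk L N q0, f x e * Zv K L N e (k+1) x
      = ∑ x ∈ blk L N q0, ∑ s ∈ (Icc x N).filter (fun s => s / L = x / L),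
          ∑ t ∈ (Ioc s N).filter (fun t => t / L = s / L + 1),
            f x e * ren (kI K L e) x s * kT K e s t * Zv K L N e k t
        + ∑ x ∈ blk L N q0, ∑ s ∈ (Icc x N).filter (fun s => s / L = x / L),
          ∑ j ∈ range (N + 1), ∑ t ∈ (Ioc s N).filter (fun t => t / L = s / L + (2 + j)),
            f x e * ren (kI K L e) x s * kT K e s t * Zv K L N e k t := by
        rw [← sum_add_distrib]
        refine sum_congr rfl fun x _ => ?_
        rw [h1 x, mul_sum, ← sum_add_distrib]
        refine sum_congr rfl fun s _ => ?_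
        rw [mul_add, mul_sum, mul_sum]
        congr 1
        · exact sum_congr rfl fun t _ => by ring
        · refine sum_congr rfl fun j _ => ?_
          rw [mul_sum]
          exact sum_congr rfl fun t _ => by ring
    _ = _ := by
        rw [Gn_sum]
        congr 1
        have h5 : ∀ j ∈ range (N + 1),
            (∑ t ∈ blk L N (q0 + (2 + j)), Gn K L N q0 (2 + j) (wu K) f t e * Zv K L N e k t
          + pI e ((q0 + 1) * L) ((q0 + (2 + j)) * L) *
            ∑ t ∈ blk L N (q0 + (2 + j)), Gn K L N q0 (2 + j) (wd K L) f t e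
              * Zv K L N e k t)
            = ∑ x ∈ blk L N q0, ∑ s ∈ (Icc x N).filter (fun s => s / L = x / L),
              ∑ t ∈ (Ioc s N).filter (fun t => t / L = s / L + (2 + j)),
              f x e * ren (kI K L e) x s * kT K e s t * Zv K L N e k t := by
          intro j _
          rw [Gn_sum, Gn_sum]
          simp only [mul_sum]
          rw [← sum_add_distrib]
          refine sum_congr rfl fun x hx => ?_
          rw [← sum_add_distrib]
          refine sum_congr rfl fun s hs => ?_
          rw [← sum_add_distrib]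
          refine sum_congr rfl fun t ht => ?_
          rw [h3 j x hx s hs t ht]
          ring
        rw [sum_congr rfl h5]
        rw [sum_comm (s := range (N + 1))]
        refine sum_congr rfl fun x _ => ?_
        rw [sum_comm]

lemma MA_Gn (hL : 0 < L) (q0 m : ℕ) (hm : 1 ≤ m) (V : Finset ℕ) (wt : Env → ℕ → ℕ → ℝ≥0∞)
    (f : ℕ → Env → ℝ≥0∞) (hf : ∀ x, MA (V ∪ Ioc (q0 * L) x) (f x))
    (hV : ∀ v ∈ V, v ≤ q0 * L)
    (hwt : ∀ s t, s / L = q0 → t / L = q0 + m →
      MA (Ioc s ((q0 + 1) * L) ∪ Ioc ((q0 + m) * L) t) (fun e => wt e s t)) (t : ℕ) :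
    MA (V ∪ Ioc (q0 * L) ((q0 + 1) * L) ∪ Ioc ((q0 + m) * L) t) (Gn K L N q0 m wt f t) := by
  classical
  unfold Gn
  refine MA.sum _ fun x hx => MA.sum _ fun s hs => ?_
  by_cases ht : t ∈ (Ioc s N).filter (fun t => t / L = s / L + m)
  · simp only [if_pos ht]
    simp only [blk, mem_filter, mem_Ioc, mem_range, mem_Icc] at *
    have e1 : s / L = q0 := by omega
    have e2 : t / L = q0 + m := by omega
    have e4 : s < (q0 + 1) * L := by
      have := Nat.lt_div_mul_add (a := s) hL
      rw [e1] at this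
      nlinarith
    have e5 : (q0 + m) * L ≤ t := by
      have := Nat.div_mul_le_self t L
      rwa [e2] at this
    have e6 : (q0 + 1) * L ≤ (q0 + m) * L := Nat.mul_le_mul_right _ (by omega)
    have e8 : q0 * L ≤ x := by
      have := Nat.div_mul_le_self x L
      rwa [hx.2] at this
    have m1 := (hf x).mul (MA_ren (MA_kI K L) x s) (by
      rw [disjoint_left]; intro w hw
      simp only [mem_union, mem_Ioc] at *
      rcases hw with h | h
      · have := hV w h; omega
      · omega)
    refine (m1.mul (hwt s t e1 e2) ?_).mono ?_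
    · rw [disjoint_left]; intro w hw
      simp only [mem_union, mem_Ioc] at *
      rcases hw with (h | h) | h
      · have := hV w h; omega
      · omega
      · omega
    · intro w hw
      simp only [mem_union, mem_Ioc] at *
      rcases hw with ((h | h) | h) | (h | h)
      · exact Or.inl (Or.inl h)
      · exact Or.inl (Or.inr (by omega))
      · exact Or.inl (Or.inr (by omega))
      · exact Or.inl (Or.inr (by omega))
      · exact Or.inr h
  · simp only [if_neg ht]
    exact MA.zero _

lemma Gn_bound {q : ℝ≥0∞} {φ : ℕ → ℝ≥0∞} {b : ℝ≥0∞} (q0 m : ℕ)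
    (wt : Env → ℕ → ℕ → ℝ≥0∞) (f : ℕ → Env → ℝ≥0∞)
    (hb : ∀ x, ∑ s ∈ (Icc x N).filter (fun s => s / L = x / L),
      ren (kI K L (fun _ => q)) x s *
      ∑ t ∈ (Ioc s N).filter (fun t => t / L = s / L + m), wt (fun _ => q) s t * φ t
        ≤ b * φ x) :
    ∑ t ∈ blk L N (q0 + m), Gn K L N q0 m wt f t (fun _ => q) * φ t
      ≤ b * ∑ x ∈ blk L N q0, f x (fun _ => q) * φ x := by
  rw [Gn_sum, mul_sum]
  refine sum_le_sum fun x _ => ?_
  calc ∑ s ∈ (Icc x N).filter (fun s => s / L = x / L),
        ∑ t ∈ (Ioc s N).filter (fun t => t / L = s / L + m),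
          f x (fun _ => q) * ren (kI K L (fun _ => q)) x s * wt (fun _ => q) s t * φ t
      = f x (fun _ => q) * ∑ s ∈ (Icc x N).filter (fun s => s / L = x / L),
        ren (kI K L (fun _ => q)) x s *
        ∑ t ∈ (Ioc s N).filter (fun t => t / L = s / L + m), wt (fun _ => q) s t * φ t := by
        rw [mul_sum]
        refine sum_congr rfl fun s _ => ?_
        rw [mul_sum, mul_sum]
        exact sum_congr rfl fun t _ => by ring
    _ ≤ f x (fun _ => q) * (b * φ x) := by gcongr; exact hb x
    _ = _ := by ring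

variable {Ω : Type*} [MeasurableSpace Ω] {P : Measure Ω} {e y : ℕ → Ω → ℝ≥0∞} {γ : ℝ}
  {q r κ : ℝ≥0∞} {φ : ℕ → ℝ≥0∞} {c0 : ℝ≥0∞} {c : ℕ → ℝ≥0∞} {ρ : ℝ≥0∞}

theorem claim2 (hL : 0 < L) (hW : TWeights P e y γ q r κ) (hγ : 0 < γ) (hγ1 : γ < 1)
    (hr : r ≤ 1) (hB : Bds2 K L N γ q κ φ c0 c ρ) (k : ℕ) :
    ∀ (q0 : ℕ) (I V : Finset ℕ) (f : ℕ → Env → ℝ≥0∞),
      (∀ x, MA (V ∪ Ioc (q0 * L) x) (f x)) → (∀ v ∈ V, v ≤ q0 * L) → Disjoint I V →
      Disjoint I (Ioc (q0 * L) N) →
      ∫⁻ ω, ((∏ j ∈ I, e j ω) * ∑ x ∈ blk L N q0, f x (fun j => e j ω) *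
          Zv K L N (fun j => e j ω) k x) ^ γ ∂P
        ≤ κ ^ (V.card + L) * (∑ x ∈ blk L N q0, f x (fun _ => q) * φ x) ^ γ * ρ ^ k := by
  classical
  have hme := hW.meas
  induction k with
  | zero =>
    intro q0 I V f hf hV hIV hI
    by_cases hN : N / L = q0
    · have hNlt : N < (q0 + 1) * L := by
        have := Nat.lt_div_mul_add (a := N) hL
        rw [hN] at this
        nlinarith
      have hMA : MA (V ∪ Ioc (q0 * L) N)
          (fun e => ∑ x ∈ blk L N q0, f x e * Zv K L N e 0 x) := by
        refine MA.sum _ fun x hx => ?_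
        simp only [blk, mem_filter, mem_range] at hx
        have e8 : q0 * L ≤ x := by
          have := Nat.div_mul_le_self x L
          rwa [hx.2] at this
        refine ((hf x).mul (MA_Zv K L N 0 x) ?_).mono ?_
        · rw [disjoint_left]; intro w hw
          simp only [mem_union, mem_Ioc] at *
          rcases hw with h | h
          · have := hV w h; omega
          · omega
        · intro w hw
          simp only [mem_union, mem_Ioc] at *
          rcases hw with (h | h) | h
          · exact Or.inl h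
          · exact Or.inr (by omega)
          · exact Or.inr (by omega)
      have hdis : Disjoint I (V ∪ Ioc (q0 * L) N) := by
        rw [disjoint_union_right]; exact ⟨hIV, hI⟩
      refine (frac_moment_tilt hW hγ hγ1 hMA subset_rfl hdis).trans ?_
      rw [pow_zero, mul_one]
      have hcard : (V ∪ Ioc (q0 * L) N).card ≤ V.card + L := by
        refine (card_union_le _ _).trans ?_
        rw [Nat.card_Ioc]
        have : (q0 + 1) * L = q0 * L + L := by ring
        omega
      calc r ^ I.card * κ ^ (V ∪ Ioc (q0 * L) N).card *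
            (∑ x ∈ blk L N q0, f x (fun _ => q) * Zv K L N (fun _ => q) 0 x) ^ γ
          ≤ 1 * κ ^ (V.card + L) * (∑ x ∈ blk L N q0, f x (fun _ => q) * φ x) ^ γ := by
            gcongr with x hx
            · exact pow_le_one' hr _
            · exact hB.hκ
            · exact (hB.hu x).trans (hB.hφ x)
        _ = _ := by rw [one_mul]
    · have h0 : ∀ ω, ∑ x ∈ blk L N q0, f x (fun j => e j ω) *
          Zv K L N (fun j => e j ω) 0 x = 0 := by
        intro ω
        refine sum_eq_zero fun x hx => ?_
        simp only [blk, mem_filter, mem_range] at hx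
        have : Zv K L N (fun j => e j ω) 0 x = 0 := by
          change ren (kI K L (fun j => e j ω)) x N = 0
          exact ren_kI_zero K L (by rw [hx.2]; exact Ne.symm hN)
        rw [this, mul_zero]
      simp_rw [h0, mul_zero]
      rw [ENNReal.zero_rpow_of_pos hγ]
      simp
  | succ k ih =>
    intro q0 I V f hf hV hIV hI
    set V' := V ∪ Ioc (q0 * L) ((q0 + 1) * L) with hV'
    set S := ∑ x ∈ blk L N q0, f x (fun _ => q) * φ x with hS
    have hcard : V'.card ≤ V.card + L := by
      rw [hV']
      refine (card_union_le _ _).trans ?_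
      rw [Nat.card_Ioc]
      have : (q0 + 1) * L = q0 * L + L := by ring
      omega
    have hV'2 : ∀ m, 1 ≤ m → ∀ v ∈ V', v ≤ (q0 + m) * L := by
      intro m hm v hv
      have h1 : (q0 + 1) * L ≤ (q0 + m) * L := Nat.mul_le_mul_right _ (by omega)
      have h2 : q0 * L ≤ (q0 + 1) * L := Nat.mul_le_mul_right _ (by omega)
      rw [hV', mem_union, mem_Ioc] at hv
      rcases hv with h | h
      · have := hV v h; omega
      · omega
    -- generic estimate of one term
    have hterm : ∀ (m : ℕ), 1 ≤ m → ∀ (wt : Env → ℕ → ℕ → ℝ≥0∞) (b : ℝ≥0∞) (J : Finset ℕ),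
        (∀ s t, s / L = q0 → t / L = q0 + m →
          MA (Ioc s ((q0 + 1) * L) ∪ Ioc ((q0 + m) * L) t) (fun e => wt e s t)) →
        (∀ x, ∑ s ∈ (Icc x N).filter (fun s => s / L = x / L),
          ren (kI K L (fun _ => q)) x s *
          ∑ t ∈ (Ioc s N).filter (fun t => t / L = s / L + m), wt (fun _ => q) s t * φ t
            ≤ b * φ x) →
        J ⊆ Ioc ((q0 + 1) * L) ((q0 + m) * L) →
        ∫⁻ ω, ((∏ j ∈ I, e j ω) * ((∏ j ∈ J, e j ω) *
          ∑ t ∈ blk L N (q0 + m), Gn K L N q0 m wt f t (fun j => e j ω) *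
            Zv K L N (fun j => e j ω) k t)) ^ γ ∂P
          ≤ κ ^ (V.card + L) * S ^ γ * ρ ^ k * (κ ^ L * b ^ γ) := by
      intro m hm wt b J hwt hb hJ
      by_cases hN : (q0 + m) * L ≤ N
      · have h1 : (q0 + 1) * L ≤ (q0 + m) * L := Nat.mul_le_mul_right _ (by omega)
        have h2 : q0 * L ≤ (q0 + 1) * L := Nat.mul_le_mul_right _ (by omega)
        have hIJ : Disjoint I J := by
          refine disjoint_of_subset_right (hJ.trans ?_) hI
          intro w; simp only [mem_Ioc]; omega
        have hd1 : Disjoint (I ∪ J) V' := by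
          rw [disjoint_union_left, hV', disjoint_union_right, disjoint_union_right]
          refine ⟨⟨hIV, ?_⟩, ?_, ?_⟩
          · refine disjoint_of_subset_right ?_ hI
            intro w; simp only [mem_Ioc]; omega
          · rw [disjoint_left]; intro w hw hw2
            have h3 := hJ hw
            rw [mem_Ioc] at h3
            have := hV w hw2; omega
          · rw [disjoint_left]; intro w hw hw2
            have h3 := hJ hw
            rw [mem_Ioc] at h3 hw2
            omega
        have hd2 : Disjoint (I ∪ J) (Ioc ((q0 + m) * L) N) := by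
          rw [disjoint_union_left]
          refine ⟨?_, ?_⟩
          · refine disjoint_of_subset_right ?_ hI
            intro w; simp only [mem_Ioc]; omega
          · rw [disjoint_left]; intro w hw hw2
            have h3 := hJ hw
            rw [mem_Ioc] at h3 hw2
            omega
        have h := ih (q0 + m) (I ∪ J) V' (Gn K L N q0 m wt f)
          (fun t => by
            have := MA_Gn (N := N) (K := K) hL q0 m hm V wt f hf hV hwt t
            rwa [← hV'] at this) (hV'2 m hm) hd1 hd2
        have e1 : ∀ ω, (∏ j ∈ I, e j ω) * ((∏ j ∈ J, e j ω) *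
          ∑ t ∈ blk L N (q0 + m), Gn K L N q0 m wt f t (fun j => e j ω) *
            Zv K L N (fun j => e j ω) k t) = (∏ j ∈ I ∪ J, e j ω) *
          ∑ t ∈ blk L N (q0 + m), Gn K L N q0 m wt f t (fun j => e j ω) *
            Zv K L N (fun j => e j ω) k t := by
          intro ω
          rw [prod_union hIJ]; ring
        simp_rw [e1]
        refine h.trans ?_
        have hG := Gn_bound (K := K) (L := L) (N := N) (q := q) (φ := φ) q0 m wt f hb
        calc κ ^ (V'.card + L) *
              (∑ x ∈ blk L N (q0 + m), Gn K L N q0 m wt f x (fun _ => q) * φ x) ^ γ * ρ ^ k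
            ≤ κ ^ (V.card + L + L) * (b * S) ^ γ * ρ ^ k := by
              gcongr
              · exact hB.hκ
          _ = _ := by
              rw [ENNReal.mul_rpow_of_nonneg _ _ hγ.le, pow_add κ (V.card + L) L]; ring
      · have hempty : blk L N (q0 + m) = ∅ := by
          unfold blk
          rw [filter_eq_empty_iff]
          intro t ht h
          rw [mem_range] at ht
          have := Nat.div_mul_le_self t L
          rw [h] at this
          omega
        rw [hempty]
        simp only [sum_empty, mul_zero]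
        rw [ENNReal.zero_rpow_of_pos hγ]
        simp
    -- the three kinds of terms
    have hq := hB.hq
    have t0 := hterm 1 le_rfl (kT K) c0 ∅ (by
      intro s t hs ht
      have h1 : s ≤ (q0 + 1) * L := by
        have := Nat.lt_div_mul_add (a := s) hL
        rw [hs] at this
        nlinarith
      have h2 : (q0 + 1) * L ≤ t := by
        have := Nat.div_mul_le_self t L
        rwa [ht] at this
      refine (MA_kT s t).mono ?_
      intro w; simp only [mem_union, mem_Ioc]; omega) hB.h0 (by simp)
    have tu := fun j : ℕ => hterm (2 + j) (by omega) (wu K) (c j) ∅ (by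
      intro s t _ _; exact MA.const _ _) (by
      intro x
      have := hB.hj x j
      simpa only [add_assoc, wu] using this) (by simp)
    have td := fun j : ℕ => hterm (2 + j) (by omega) (wd K L) (c j)
      (Ioc ((q0 + 1) * L) ((q0 + (2 + j)) * L)) (by
      intro s t hs ht
      have h1 : (q0 + 1) * L ≤ (q0 + (2 + j)) * L := Nat.mul_le_mul_right _ (by omega)
      unfold wd
      rw [hs, ht]
      exact ((MA_pI s ((q0 + 1) * L)).mul (MA_pI ((q0 + (2 + j)) * L) t) (by
        rw [disjoint_left]; intro w; simp only [mem_Ioc]; omega)).const_mul _) (by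
      intro x
      refine le_trans ?_ (hB.hj x j)
      simp only [← add_assoc]
      gcongr with s hs t ht
      unfold wd
      rw [pI_const, pI_const]
      calc K (t - s) / 2 * (q ^ ((s / L + 1) * L - s) * q ^ (t - (t / L) * L))
          ≤ K (t - s) / 2 * (1 * 1) := by
            gcongr
            · exact pow_le_one' hq _
            · exact pow_le_one' hq _
        _ = K (t - s) / 2 := by simp) subset_rfl
    simp only [prod_empty, one_mul] at t0 tu
    -- measurability
    have hGm : ∀ m, 1 ≤ m → ∀ (wt : Env → ℕ → ℕ → ℝ≥0∞), (∀ s t, s / L = q0 → t / L = q0 + m →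
          MA (Ioc s ((q0 + 1) * L) ∪ Ioc ((q0 + m) * L) t) (fun e => wt e s t)) →
        Measurable (fun ω => ∑ t ∈ blk L N (q0 + m), Gn K L N q0 m wt f t (fun j => e j ω) *
            Zv K L N (fun j => e j ω) k t) := by
      intro m hm wt hwt
      refine Finset.measurable_sum _ fun t _ => ?_
      exact ((MA_Gn (N := N) (K := K) hL q0 m hm V wt f hf hV hwt t).measurable hme).mul
        ((MA_Zv K L N k t).measurable hme)
    have hIm : Measurable (fun ω => ∏ j ∈ I, e j ω) := by fun_prop
    have hUm : ∀ j, Measurable (fun ω => (∏ j ∈ I, e j ω) *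
        ∑ t ∈ blk L N (q0 + (2 + j)), Gn K L N q0 (2 + j) (wu K) f t (fun j => e j ω) *
            Zv K L N (fun j => e j ω) k t) := fun j =>
      hIm.mul (hGm (2 + j) (by omega) (wu K) (by intro s t _ _; exact MA.const _ _))
    have hDm : ∀ j, Measurable (fun ω => (∏ j ∈ I, e j ω) *
        ((∏ j ∈ Ioc ((q0 + 1) * L) ((q0 + (2 + j)) * L), e j ω) *
        ∑ t ∈ blk L N (q0 + (2 + j)), Gn K L N q0 (2 + j) (wd K L) f t (fun j => e j ω) *
            Zv K L N (fun j => e j ω) k t)) := fun j => by
      refine hIm.mul (Measurable.mul (by fun_prop) (hGm (2 + j) (by omega) (wd K L) ?_))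
      intro s t hs ht
      have h1 : (q0 + 1) * L ≤ (q0 + (2 + j)) * L := Nat.mul_le_mul_right _ (by omega)
      unfold wd
      rw [hs, ht]
      exact ((MA_pI s ((q0 + 1) * L)).mul (MA_pI ((q0 + (2 + j)) * L) t) (by
        rw [disjoint_left]; intro w; simp only [mem_Ioc]; omega)).const_mul _
    have h0m : Measurable (fun ω => (∏ j ∈ I, e j ω) *
        ∑ t ∈ blk L N (q0 + 1), Gn K L N q0 1 (kT K) f t (fun j => e j ω) *
            Zv K L N (fun j => e j ω) k t) := by
      refine hIm.mul (hGm 1 le_rfl (kT K) ?_)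
      intro s t hs ht
      have h1 : s ≤ (q0 + 1) * L := by
        have := Nat.lt_div_mul_add (a := s) hL
        rw [hs] at this
        nlinarith
      have h2 : (q0 + 1) * L ≤ t := by
        have := Nat.div_mul_le_self t L
        rwa [ht] at this
      refine (MA_kT s t).mono ?_
      intro w; simp only [mem_union, mem_Ioc]; omega
    set A0 : Ω → ℝ≥0∞ := fun ω => (∏ j ∈ I, e j ω) *
        ∑ t ∈ blk L N (q0 + 1), Gn K L N q0 1 (kT K) f t (fun j => e j ω) *
            Zv K L N (fun j => e j ω) k t with hA0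
    set AU : ℕ → Ω → ℝ≥0∞ := fun j ω => (∏ j ∈ I, e j ω) *
        ∑ t ∈ blk L N (q0 + (2 + j)), Gn K L N q0 (2 + j) (wu K) f t (fun j => e j ω) *
            Zv K L N (fun j => e j ω) k t with hAU
    set AD : ℕ → Ω → ℝ≥0∞ := fun j ω => (∏ j ∈ I, e j ω) *
        ((∏ j ∈ Ioc ((q0 + 1) * L) ((q0 + (2 + j)) * L), e j ω) *
        ∑ t ∈ blk L N (q0 + (2 + j)), Gn K L N q0 (2 + j) (wd K L) f t (fun j => e j ω) *
            Zv K L N (fun j => e j ω) k t) with hAD
    calc ∫⁻ ω, ((∏ j ∈ I, e j ω) * ∑ x ∈ blk L N q0, f x (fun j => e j ω) *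
          Zv K L N (fun j => e j ω) (k+1) x) ^ γ ∂P
        ≤ ∫⁻ ω, ((A0 ω) ^ γ + ∑ j ∈ range (N + 1), ((AU j ω) ^ γ + (AD j ω) ^ γ)) ∂P := by
          refine lintegral_mono fun ω => ?_
          rw [step_identity2 hL, mul_add]
          refine (ENNReal.rpow_add_le_add_rpow _ _ hγ.le hγ1.le).trans ?_
          refine add_le_add le_rfl ?_
          rw [mul_sum]
          refine (rpow_sum_le _ _ hγ hγ1.le).trans (sum_le_sum fun j _ => ?_)
          rw [mul_add]
          exact ENNReal.rpow_add_le_add_rpow _ _ hγ.le hγ1.le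
      _ = ∫⁻ ω, (A0 ω) ^ γ ∂P
          + ∑ j ∈ range (N + 1), (∫⁻ ω, (AU j ω) ^ γ ∂P + ∫⁻ ω, (AD j ω) ^ γ ∂P) := by
          rw [lintegral_add_left (h0m.pow_const γ), lintegral_finsetSum]
          · congr 1
            refine sum_congr rfl fun j _ => ?_
            rw [lintegral_add_left ((hUm j).pow_const γ)]
          · intro j _
            exact ((hUm j).pow_const γ).add ((hDm j).pow_const γ)
      _ ≤ κ ^ (V.card + L) * S ^ γ * ρ ^ k * (κ ^ L * c0 ^ γ)
          + ∑ j ∈ range (N + 1), (κ ^ (V.card + L) * S ^ γ * ρ ^ k * (κ ^ L * (c j) ^ γ)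
            + κ ^ (V.card + L) * S ^ γ * ρ ^ k * (κ ^ L * (c j) ^ γ)) :=
          add_le_add t0 (sum_le_sum fun j _ => add_le_add (tu j) (td j))
      _ = κ ^ (V.card + L) * S ^ γ * ρ ^ k *
          (κ ^ L * (c0 ^ γ + ∑ j ∈ range (N + 1), ((c j) ^ γ + (c j) ^ γ))) := by
          simp only [mul_add, mul_sum]
      _ ≤ κ ^ (V.card + L) * S ^ γ * ρ ^ k * ρ := by
          gcongr
          exact hB.hρ
      _ = _ := by rw [pow_succ]; ring

end Pool.Agent.Cop

end
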