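import Mathlib
import Pool.Agent.Work.MP_cceb86_pr.Claim2
import Pool.Agent.Work.MP_cceb86_pr.Window

/-!
Deterministic bounds for the crossing of blocks (small `1 - α`).
-/

open Finset
open scoped ENNReal NNReal

noncomputable section

namespace Pool.Agent.Cop

lemma ren_mono' {a b : ℕ → ℕ → ℝ≥0∞} (hab : ∀ x y, a x y ≤ b x y) (x y : ℕ) :
    ren a x y ≤ ren b x y := by
  induction y using Nat.strong_induction_on with
  | _ y ih =>
    rcases lt_trichotomy x y with h | h | h
    · rw [ren_right _ h, ren_right _ h]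
      exact sum_le_sum fun z hz => mul_le_mul' (ih z (mem_Ico.1 hz).2) (hab _ _)
    · subst h; simp [ren_self]
    · rw [ren_of_gt _ h, ren_of_gt _ h]

/-- one step decomposition of sums over the visited points of an interval -/
lemma sum_ren_step (a : ℕ → ℕ → ℝ≥0∞) (b : ℕ → ℝ≥0∞) {x E : ℕ} (hx : x < E) :
    ∑ s ∈ Ico x E, ren a x s * b s
      = b x + ∑ w ∈ Ioo x E, a x w * ∑ s ∈ Ico w E, ren a w s * b s := by
  have e1 : Ico x E = insert x (Ioo x E) := by
    ext z; simp only [mem_Ico, mem_insert, mem_Ioo]; omega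
  rw [e1, sum_insert (by simp), ren_self, one_mul]
  congr 1
  calc ∑ s ∈ Ioo x E, ren a x s * b s
      = ∑ s ∈ Ioo x E, ∑ w ∈ Ioc x s, a x w * (ren a w s * b s) := by
        refine sum_congr rfl fun s hs => ?_
        rw [ren_left _ (mem_Ioo.1 hs).1, sum_mul]
        exact sum_congr rfl fun w _ => by ring
    _ = ∑ w ∈ Ioo x E, ∑ s ∈ Ico w E, a x w * (ren a w s * b s) := by
        refine sum_comm' ?_
        intro s w
        simp only [mem_Ioo, mem_Ioc, mem_Ico]; omega
    _ = _ := by simp only [mul_sum]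

/-- superharmonic functions dominate the expected exit reward -/
lemma super (a : ℕ → ℕ → ℝ≥0∞) (b V : ℕ → ℝ≥0∞) {x₀ E : ℕ}
    (h : ∀ z, x₀ ≤ z → z < E → b z + ∑ w ∈ Ioo z E, a z w * V w ≤ V z) :
    ∀ x, x₀ ≤ x → x < E → ∑ s ∈ Ico x E, ren a x s * b s ≤ V x := by
  intro x
  induction hn : E - x using Nat.strong_induction_on generalizing x with
  | _ n ih =>
    intro hx hxE
    rw [sum_ren_step a b hxE]
    refine le_trans ?_ (h x hx hxE)
    gcongr with w hw
    rw [mem_Ioo] at hw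
    exact ih (E - w) (by omega) w rfl (by omega) hw.2

variable {K : ℕ → ℝ≥0∞}

lemma sum_shift_le {T : ℝ≥0∞} (hK : ∀ S : Finset ℕ, ∑ n ∈ S, K n ≤ T)
    (S : Finset ℕ) (z : ℕ) (hS : ∀ w ∈ S, z < w) : ∑ w ∈ S, K (w - z) ≤ T := by
  rw [← sum_image (f := K) (g := fun w => w - z) (s := S)]
  · exact hK _
  · intro a ha b hb hab
    have h1 := hS a ha
    have h2 := hS b hb
    simp only at hab
    omega

lemma sum_ren_le {x E L : ℕ} (hE : E ≤ x + L) :
    ∑ s ∈ Ico x E, ren (hom K) x s ≤ ∑ n ∈ range L, rf K n := by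
  calc ∑ s ∈ Ico x E, ren (hom K) x s = ∑ s ∈ Ico x E, rf K (s - x) :=
        sum_congr rfl fun s hs => ren_hom K (mem_Ico.1 hs).1
    _ ≤ ∑ s ∈ Ico x (x + L), rf K (s - x) :=
        sum_le_sum_of_subset (Ico_subset_Ico_right hE)
    _ = ∑ n ∈ range L, rf K n := by
        rw [sum_Ico_eq_sum_range]
        rw [Nat.add_sub_cancel_left]
        exact sum_congr rfl fun n _ => by rw [Nat.add_sub_cancel_left]

/-- The hypotheses on the renewal law. -/
structure CrossHyp (K : ℕ → ℝ≥0∞) (L H : ℕ) (q A U kH Big : ℝ≥0∞) (kL : ℕ → ℝ≥0∞) : Prop where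
  hL : 0 < L
  hHL : H ≤ L
  hK : ∀ S : Finset ℕ, ∑ n ∈ S, K n ≤ 1
  hq : q ≤ 1
  hA : A ≤ 1
  hqA : ∀ n ≤ H, (1 + q ^ n) / 2 ≤ A ^ n
  hU : ∑ n ∈ range L, rf K n ≤ U
  hkH : ∀ n, H < n → K n ≤ kH
  hkL : ∀ j n, (j + 1) * L < n → K n ≤ kL j
  hBig : 1 ≤ Big

/-- the potential -/
def phi (L H : ℕ) (Big : ℝ≥0∞) (t : ℕ) : ℝ≥0∞ := if t % L ≤ H then 1 else Big

variable {L H N : ℕ} {q A U kH Big : ℝ≥0∞} {kL : ℕ → ℝ≥0∞}

lemma one_le_phi (hBig : 1 ≤ Big) (t : ℕ) : 1 ≤ phi L H Big t := by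
  unfold phi; split_ifs; exacts [le_rfl, hBig]

lemma phi_le (hBig : 1 ≤ Big) (t : ℕ) : phi L H Big t ≤ Big := by
  unfold phi; split_ifs; exacts [hBig, le_rfl]

lemma kT_const (q : ℝ≥0∞) (x y : ℕ) :
    kT K (fun _ => q) x y = K (y - x) * ((1 + q ^ (y - x)) / 2) := by
  unfold kT
  rw [pI_const, ENNReal.div_eq_inv_mul, ENNReal.div_eq_inv_mul]
  ring

lemma half_le_one {q : ℝ≥0∞} (hq : q ≤ 1) (n : ℕ) : (1 + q ^ n) / 2 ≤ 1 := by
  calc (1 + q ^ n) / 2 ≤ (1 + 1) / 2 := by
        gcongr; exact pow_le_one' hq _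
    _ = 1 := by rw [one_add_one_eq_two, ENNReal.div_self] <;> simp

lemma kI_le_kT (e : Env) (x y : ℕ) : kI K L e x y ≤ kT K e x y := by
  unfold kI; split_ifs; exacts [le_rfl, bot_le]

lemma kT_le_hom (hq : q ≤ 1) (x y : ℕ) : kT K (fun _ => q) x y ≤ hom K x y := by
  rw [kT_const]
  calc K (y - x) * ((1 + q ^ (y - x)) / 2) ≤ K (y - x) * 1 := by
        gcongr; exact half_le_one hq _
    _ = hom K x y := mul_one _

lemma ren_kI_le (hq : q ≤ 1) (x y : ℕ) : ren (kI K L (fun _ => q)) x y ≤ ren (hom K) x y :=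
  ren_mono' (fun x y => (kI_le_kT _ x y).trans (kT_le_hom hq x y)) x y

namespace CrossHyp

variable (h : CrossHyp K L H q A U kH Big kL)
include h

lemma hu (x : ℕ) : ren (kI K L (fun _ => q)) x N ≤ 1 := by
  refine le_trans ?_ (ren_one_le (K := K) (fun M => h.hK _) x N)
  refine ren_mono' (fun x y => (kI_le_kT _ x y).trans ?_) x N
  rw [kT_const, kT_const]
  gcongr
  exact h.hq

/-- reward for the exits by a short step -/
def b1 (K : ℕ → ℝ≥0∞) (L H : ℕ) (q : ℝ≥0∞) (E s : ℕ) : ℝ≥0∞ :=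
  ∑ t ∈ (Ico E (E + L)).filter (fun t => t - s ≤ H), kT K (fun _ => q) s t

/-- reward for the exits by a long step -/
def b2 (K : ℕ → ℝ≥0∞) (L H : ℕ) (Big : ℝ≥0∞) (E s : ℕ) : ℝ≥0∞ :=
  ∑ t ∈ (Ico E (E + L)).filter (fun t => ¬ t - s ≤ H), K (t - s) * Big

lemma b2_le (E s : ℕ) : b2 K L H Big E s ≤ L * kH * Big := by
  unfold b2
  calc ∑ t ∈ (Ico E (E + L)).filter (fun t => ¬ t - s ≤ H), K (t - s) * Big
      ≤ ∑ t ∈ (Ico E (E + L)).filter (fun t => ¬ t - s ≤ H), kH * Big := by
        refine sum_le_sum fun t ht => ?_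
        rw [mem_filter] at ht
        gcongr
        exact h.hkH _ (by omega)
    _ ≤ ∑ t ∈ Ico E (E + L), kH * Big := sum_le_sum_of_subset (filter_subset _ _)
    _ = L * kH * Big := by
        rw [sum_const, Nat.card_Ico, nsmul_eq_mul, Nat.add_sub_cancel_left, mul_assoc]

lemma inner_le {s E : ℕ} (hs : s < E) (hsE : E = (s / L + 1) * L) :
    ∑ t ∈ (Ioc s N).filter (fun t => t / L = s / L + 1), kT K (fun _ => q) s t * phi L H Big t
      ≤ b1 K L H q E s + b2 K L H Big E s := by
  have hL := h.hL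
  have hsub : (Ioc s N).filter (fun t => t / L = s / L + 1) ⊆ Ico E (E + L) := by
    intro t ht
    simp only [mem_filter, mem_Ioc, mem_Ico] at *
    have h1 := Nat.div_mul_le_self t L
    have h2 := Nat.lt_div_mul_add (a := t) hL
    rw [ht.2] at h1 h2
    rw [hsE]
    exact ⟨h1, h2⟩
  refine (sum_le_sum_of_subset hsub).trans ?_
  rw [← sum_filter_add_sum_filter_not (Ico E (E + L)) (fun t => t - s ≤ H)]
  unfold b1 b2
  gcongr with t ht t ht
  · simp only [mem_filter, mem_Ico] at ht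
    have hmod : t % L = t - E := by
      have h3 : t = (t - E) + (s / L + 1) * L := by rw [← hsE]; omega
      conv_lhs => rw [h3]
      rw [Nat.add_mul_mod_self_right]
      exact Nat.mod_eq_of_lt (by omega)
    have hphi : phi L H Big t = 1 := by
      unfold phi
      rw [if_pos]
      rw [hmod]; omega
    rw [hphi, mul_one]
  · exact kT_le_hom h.hq s t
  · exact phi_le h.hBig t

/-- total mass of the exits -/
lemma exit_le_one {x E : ℕ} (hx : x < E) :
    ∑ s ∈ Ico x E, ren (kI K L (fun _ => q)) x s * b1 K L H q E s ≤ 1 := by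
  refine super (kI K L (fun _ => q)) (b1 K L H q E) (fun _ => 1) (x₀ := x) (E := E) ?_ x le_rfl hx
  intro z hz hzE
  unfold b1
  calc ∑ t ∈ (Ico E (E + L)).filter (fun t => t - z ≤ H), kT K (fun _ => q) z t
        + ∑ w ∈ Ioo z E, kI K L (fun _ => q) z w * 1
      ≤ ∑ t ∈ Ico E (E + L), K (t - z) + ∑ w ∈ Ioo z E, K (w - z) := by
        gcongr with w hw
        · refine (sum_le_sum_of_subset (filter_subset _ _)).trans ?_
          exact sum_le_sum fun t _ => kT_le_hom h.hq z t
        · rw [mul_one]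
          exact (kI_le_kT _ z w).trans (kT_le_hom h.hq z w)
    _ = ∑ w ∈ Ico E (E + L) ∪ Ioo z E, K (w - z) := by
        rw [sum_union]
        rw [disjoint_left]; intro w; simp only [mem_Ico, mem_Ioo]; omega
    _ ≤ 1 := by
        refine sum_shift_le h.hK _ z ?_
        intro w hw
        simp only [mem_union, mem_Ico, mem_Ioo] at hw
        omega

/-- exits from the left part of a block -/
lemma exit_small {x E : ℕ} (hx : x < E) (hE : E ≤ x + L) :
    ∑ s ∈ Ico x E, ren (kI K L (fun _ => q)) x s * b1 K L H q E s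
      ≤ A ^ (E - x) + U * (L * kH) := by
  set T : ℝ≥0∞ := L * kH with hT
  set R : ℕ → ℝ≥0∞ := fun z => ∑ s ∈ Ico z E, ren (hom K) z s with hR
  have hRstep : ∀ z, z < E → R z = 1 + ∑ w ∈ Ioo z E, K (w - z) * R w := by
    intro z hz
    have := sum_ren_step (hom K) (fun _ => 1) hz
    simp only [mul_one] at this
    exact this
  have hRx : R x ≤ U := (sum_ren_le hE).trans h.hU
  have key := super (kI K L (fun _ => q)) (b1 K L H q E) (fun z => A ^ (E - z) + R z * T)
    (x₀ := x) (E := E) ?_ x le_rfl hx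
  · refine key.trans ?_
    gcongr
  intro z hz hzE
  -- pieces
  have p1 : b1 K L H q E z ≤ ∑ t ∈ Ico E (E + L), K (t - z) * A ^ (E - z) := by
    unfold b1
    calc ∑ t ∈ (Ico E (E + L)).filter (fun t => t - z ≤ H), kT K (fun _ => q) z t
        ≤ ∑ t ∈ (Ico E (E + L)).filter (fun t => t - z ≤ H), K (t - z) * A ^ (E - z) := by
          refine sum_le_sum fun t ht => ?_
          simp only [mem_filter, mem_Ico] at ht
          rw [kT_const]
          gcongr
          refine (h.hqA _ ht.2).trans ?_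
          exact pow_le_pow_right_of_le_one' h.hA (by omega)
      _ ≤ _ := sum_le_sum_of_subset (filter_subset _ _)
  have p2 : ∑ w ∈ Ioo z E, kI K L (fun _ => q) z w * A ^ (E - w)
      ≤ ∑ w ∈ Ioo z E, K (w - z) * A ^ (E - z) + T := by
    have hpt : ∀ w ∈ Ioo z E, kI K L (fun _ => q) z w * A ^ (E - w)
        ≤ K (w - z) * A ^ (E - z) + kH := by
      intro w hw
      rw [mem_Ioo] at hw
      by_cases hwH : w - z ≤ H
      · refine le_trans ?_ le_self_add
        calc kI K L (fun _ => q) z w * A ^ (E - w)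
            ≤ kT K (fun _ => q) z w * A ^ (E - w) := by gcongr; exact kI_le_kT _ _ _
          _ = K (w - z) * ((1 + q ^ (w - z)) / 2) * A ^ (E - w) := by rw [kT_const]
          _ ≤ K (w - z) * A ^ (w - z) * A ^ (E - w) := by
              gcongr
              exact h.hqA _ hwH
          _ = K (w - z) * A ^ (E - z) := by
              rw [mul_assoc, ← pow_add]; congr 2; omega
      · refine le_trans ?_ le_add_self
        calc kI K L (fun _ => q) z w * A ^ (E - w) ≤ hom K z w * 1 := by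
              gcongr
              · exact (kI_le_kT _ z w).trans (kT_le_hom h.hq z w)
              · exact pow_le_one' h.hA _
          _ ≤ kH := by rw [mul_one]; exact h.hkH _ (by omega)
    refine (sum_le_sum hpt).trans ?_
    rw [sum_add_distrib]
    gcongr
    rw [sum_const, nsmul_eq_mul, Nat.card_Ioo, hT]
    gcongr
    omega
  have p3 : ∑ w ∈ Ioo z E, kI K L (fun _ => q) z w * (R w * T)
      ≤ (∑ w ∈ Ioo z E, K (w - z) * R w) * T := by
    rw [sum_mul]
    refine sum_le_sum fun w _ => ?_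
    rw [← mul_assoc]
    gcongr
    exact (kI_le_kT _ z w).trans (kT_le_hom h.hq z w)
  have p4 : ∑ t ∈ Ico E (E + L), K (t - z) * A ^ (E - z)
      + ∑ w ∈ Ioo z E, K (w - z) * A ^ (E - z) ≤ A ^ (E - z) := by
    rw [← sum_union (by rw [disjoint_left]; intro w; simp only [mem_Ico, mem_Ioo]; omega),
      ← sum_mul]
    calc (∑ w ∈ Ico E (E + L) ∪ Ioo z E, K (w - z)) * A ^ (E - z) ≤ 1 * A ^ (E - z) := by
          gcongr
          refine sum_shift_le h.hK _ z ?_
          intro w hw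
          simp only [mem_union, mem_Ico, mem_Ioo] at hw
          omega
      _ = _ := one_mul _
  calc b1 K L H q E z + ∑ w ∈ Ioo z E, kI K L (fun _ => q) z w * (A ^ (E - w) + R w * T)
      = b1 K L H q E z + (∑ w ∈ Ioo z E, kI K L (fun _ => q) z w * A ^ (E - w)
          + ∑ w ∈ Ioo z E, kI K L (fun _ => q) z w * (R w * T)) := by
        rw [← sum_add_distrib]
        congr 1
        exact sum_congr rfl fun w _ => by ring
    _ ≤ ∑ t ∈ Ico E (E + L), K (t - z) * A ^ (E - z)
          + (∑ w ∈ Ioo z E, K (w - z) * A ^ (E - z) + T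
          + (∑ w ∈ Ioo z E, K (w - z) * R w) * T) := by gcongr
    _ = (∑ t ∈ Ico E (E + L), K (t - z) * A ^ (E - z)
          + ∑ w ∈ Ioo z E, K (w - z) * A ^ (E - z))
          + (1 + ∑ w ∈ Ioo z E, K (w - z) * R w) * T := by ring
    _ ≤ A ^ (E - z) + R z * T := by
        rw [hRstep z hzE]
        gcongr

lemma exit_b2 {x E : ℕ} (hE : E ≤ x + L) :
    ∑ s ∈ Ico x E, ren (kI K L (fun _ => q)) x s * b2 K L H Big E s
      ≤ U * (L * kH * Big) := by
  calc ∑ s ∈ Ico x E, ren (kI K L (fun _ => q)) x s * b2 K L H Big E s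
      ≤ ∑ s ∈ Ico x E, ren (hom K) x s * (L * kH * Big) := by
        gcongr with s hs
        · exact ren_kI_le h.hq x s
        · exact h.b2_le E s
    _ = (∑ s ∈ Ico x E, ren (hom K) x s) * (L * kH * Big) := by rw [sum_mul]
    _ ≤ _ := by
        gcongr
        exact (sum_ren_le hE).trans h.hU

lemma outer_le (x : ℕ) (G G' : ℕ → ℝ≥0∞) (hG : ∀ s, x ≤ s → s / L = x / L → G s ≤ G' s) :
    ∑ s ∈ (Icc x N).filter (fun s => s / L = x / L), ren (kI K L (fun _ => q)) x s * G s
      ≤ ∑ s ∈ Ico x ((x / L + 1) * L), ren (kI K L (fun _ => q)) x s * G' s := by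
  have hL := h.hL
  refine le_trans (sum_le_sum fun s hs => ?_) (sum_le_sum_of_subset ?_)
  · simp only [mem_filter, mem_Icc] at hs
    gcongr
    exact hG s hs.1.1 hs.2
  · intro s hs
    simp only [mem_filter, mem_Icc, mem_Ico] at *
    have h2 := Nat.lt_div_mul_add (a := s) hL
    rw [hs.2] at h2
    refine ⟨hs.1.1, ?_⟩
    rw [add_mul, one_mul]; exact h2

theorem h0 {c0 : ℝ≥0∞} (hc0 : A ^ (L - H) + U * (L * kH) + U * (L * kH * Big) ≤ c0)
    (hc1 : 1 + U * (L * kH * Big) ≤ c0 * Big) (x : ℕ) :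
    ∑ s ∈ (Icc x N).filter (fun s => s / L = x / L), ren (kI K L (fun _ => q)) x s *
    ∑ t ∈ (Ioc s N).filter (fun t => t / L = s / L + 1), kT K (fun _ => q) s t * phi L H Big t
      ≤ c0 * phi L H Big x := by
  have hL := h.hL
  set E := (x / L + 1) * L with hE
  have hxE : x < E := by
    have h2 := Nat.lt_div_mul_add (a := x) hL
    rw [hE, add_mul, one_mul]; exact h2
  have hEx : E ≤ x + L := by
    have := Nat.div_mul_le_self x L
    rw [hE, add_mul, one_mul]; omega
  refine (h.outer_le x _ (fun s => b1 K L H q E s + b2 K L H Big E s) ?_).trans ?_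
  · intro s hs hsx
    refine h.inner_le (E := E) ?_ (by rw [hsx])
    have h2 := Nat.lt_div_mul_add (a := s) hL
    rw [hsx] at h2
    rw [hE, add_mul, one_mul]; exact h2
  · rw [← hE]
    simp only [mul_add]
    rw [sum_add_distrib]
    have hb2 := h.exit_b2 hEx
    unfold phi
    split_ifs with hx
    · rw [mul_one]
      refine le_trans ?_ hc0
      gcongr
      refine (h.exit_small hxE hEx).trans ?_
      refine add_le_add ?_ le_rfl
      refine pow_le_pow_right_of_le_one' h.hA ?_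
      have h3 := Nat.div_add_mod x L
      have h4 : x / L * L = L * (x / L) := mul_comm _ _
      have h5 : E = x / L * L + L := by rw [hE, add_mul, one_mul]
      omega
    · refine le_trans ?_ hc1
      gcongr
      exact h.exit_le_one hxE

theorem hj {c : ℕ → ℝ≥0∞} (hc : ∀ j, U * (L * (kL j / 2 * Big)) ≤ c j) (x j : ℕ) :
    ∑ s ∈ (Icc x N).filter (fun s => s / L = x / L), ren (kI K L (fun _ => q)) x s *
    ∑ t ∈ (Ioc s N).filter (fun t => t / L = s / L + 2 + j), K (t - s) / 2 * phi L H Big t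
      ≤ c j * phi L H Big x := by
  have hL := h.hL
  have hEx : (x / L + 1) * L ≤ x + L := by
    have := Nat.div_mul_le_self x L
    rw [add_mul, one_mul]; omega
  refine (h.outer_le x _ (fun _ => L * (kL j / 2 * Big)) ?_).trans ?_
  · intro s hs hsx
    have hs2 := Nat.lt_div_mul_add (a := s) hL
    calc ∑ t ∈ (Ioc s N).filter (fun t => t / L = s / L + 2 + j), K (t - s) / 2 * phi L H Big t
        ≤ ∑ t ∈ (Ioc s N).filter (fun t => t / L = s / L + 2 + j), kL j / 2 * Big := by
          refine sum_le_sum fun t ht => ?_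
          simp only [mem_filter, mem_Ioc] at ht
          have ht1 := Nat.div_mul_le_self t L
          rw [ht.2] at ht1
          have h5 : (s / L + 2 + j) * L = s / L * L + L + (j + 1) * L := by ring
          gcongr
          · exact h.hkL j _ (by omega)
          · exact phi_le h.hBig t
      _ ≤ ∑ t ∈ Ico ((s / L + 2 + j) * L) ((s / L + 2 + j) * L + L), kL j / 2 * Big := by
          refine sum_le_sum_of_subset ?_
          intro t ht
          simp only [mem_filter, mem_Ioc, mem_Ico] at *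
          have h1 := Nat.div_mul_le_self t L
          have h2 := Nat.lt_div_mul_add (a := t) hL
          rw [ht.2] at h1 h2
          exact ⟨h1, h2⟩
      _ = L * (kL j / 2 * Big) := by
          rw [sum_const, Nat.card_Ico, nsmul_eq_mul, Nat.add_sub_cancel_left]
  · rw [← sum_mul]
    calc (∑ s ∈ Ico x ((x / L + 1) * L), ren (kI K L (fun _ => q)) x s) * (L * (kL j / 2 * Big))
        ≤ U * (L * (kL j / 2 * Big)) := by
          gcongr
          refine (sum_le_sum fun s _ => ren_kI_le h.hq x s).trans ?_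
          exact (sum_ren_le hEx).trans h.hU
      _ ≤ c j := hc j
      _ = c j * 1 := (mul_one _).symm
      _ ≤ c j * phi L H Big x := by
          gcongr
          exact one_le_phi h.hBig x

theorem bds2 {γ : ℝ} {κ c0 ρ : ℝ≥0∞} {c : ℕ → ℝ≥0∞} (hκ : 1 ≤ κ)
    (hc0 : A ^ (L - H) + U * (L * kH) + U * (L * kH * Big) ≤ c0)
    (hc1 : 1 + U * (L * kH * Big) ≤ c0 * Big) (hc : ∀ j, U * (L * (kL j / 2 * Big)) ≤ c j)
    (hρ : κ ^ L * (c0 ^ γ + ∑ j ∈ range (N + 1), ((c j) ^ γ + (c j) ^ γ)) ≤ ρ) :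
    Bds2 K L N γ q κ (phi L H Big) c0 c ρ where
  hq := h.hq
  hκ := hκ
  hφ := one_le_phi h.hBig
  hu := h.hu
  h0 := h.h0 hc0 hc1
  hj := h.hj hc
  hρ := hρ

end CrossHyp

end Pool.Agent.Cop

end
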