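import Mathlib
import Pool.Agent.Work.MP_cceb86_pr.Asym
import Pool.Agent.Work.MP_cceb86_pr.Cross

/-!
Bounds for the renewal function of `K(n) ~ c n^{-1-α}` with `α` close to `1`.
-/

open Finset Real Filter Topology
open scoped ENNReal NNReal

noncomputable section

namespace Pool.Agent.Cop

/-- the renewal function against the integrated tail -/
lemma renewal_tail {K kb : ℕ → ℝ≥0∞} (hkb : ∀ i, kb i + ∑ n ∈ Ioc 0 i, K n ≤ 1) (L : ℕ) :
    (∑ n ∈ range L, rf K n) * ∑ i ∈ range L, kb i ≤ 2 * L := by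
  have h1 : ∀ N, ∑ s ∈ Ico 0 (N + 1), rf K s * kb (N - s) ≤ 1 := by
    intro N
    refine super (hom K) (fun s => kb (N - s)) (fun _ => 1) (x₀ := 0) (E := N + 1) ?_ 0 le_rfl
      (Nat.succ_pos N)
    intro z _ hz
    refine le_trans (le_of_eq ?_) (hkb (N - z))
    congr 1
    refine sum_nbij' (fun w => w - z) (fun n => n + z) ?_ ?_ ?_ ?_ ?_
    · intro w hw; simp only [mem_Ioo, mem_Ioc] at *; omega
    · intro w hw; simp only [mem_Ioo, mem_Ioc] at *; omega
    · intro w hw; simp only [mem_Ioo] at *; omega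
    · intro w hw; simp only [mem_Ioc] at *; omega
    · intro w hw; simp [hom]
  calc (∑ n ∈ range L, rf K n) * ∑ i ∈ range L, kb i
      = ∑ s ∈ range L, ∑ i ∈ range L, rf K s * kb i := by
        rw [sum_mul]; exact sum_congr rfl fun s _ => by rw [mul_sum]
    _ = ∑ s ∈ range L, ∑ N ∈ Ico s (s + L), rf K s * kb (N - s) := by
        refine sum_congr rfl fun s _ => ?_
        rw [sum_Ico_eq_sum_range, Nat.add_sub_cancel_left]
        exact sum_congr rfl fun i _ => by rw [Nat.add_sub_cancel_left]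
    _ ≤ ∑ s ∈ range L, ∑ N ∈ Ico s (2 * L), rf K s * kb (N - s) := by
        refine sum_le_sum fun s hs => sum_le_sum_of_subset ?_
        rw [mem_range] at hs
        intro w; simp only [mem_Ico]; omega
    _ ≤ ∑ s ∈ range (2 * L), ∑ N ∈ Ico s (2 * L), rf K s * kb (N - s) := by
        refine sum_le_sum_of_subset ?_
        intro w; simp only [mem_range]; omega
    _ = ∑ N ∈ range (2 * L), ∑ s ∈ Ico 0 (N + 1), rf K s * kb (N - s) := by
        refine sum_comm' ?_
        intro s N; simp only [mem_range, mem_Ico]; omega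
    _ ≤ ∑ N ∈ range (2 * L), 1 := sum_le_sum fun N _ => h1 N
    _ = 2 * L := by simp

variable {α c : ℝ} {K : ℕ → ℝ}

/-- telescoping lower bound for `n^{-α}` -/
lemma tel_up' {α : ℝ} (_hα : 0 < α) (hα1 : α < 1) {n : ℕ} (hn : 0 < n) :
    (((n + 1 : ℕ) : ℝ) ^ (1 - α) - (n : ℝ) ^ (1 - α)) / (1 - α) ≤ (n : ℝ) ^ (-α) := by
  have hn1 : (0 : ℝ) < n := by exact_mod_cast hn
  have h1 : (1 + 1 / (n : ℝ)) ^ (1 - α) ≤ 1 + (1 - α) * (1 / n) :=
    rpow_one_add_le_one_add_mul_self (by have : (0:ℝ) ≤ 1 / n := by positivity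
                                         linarith) (by linarith) (by linarith)
  have h2 : ((n + 1 : ℕ) : ℝ) ^ (1 - α) = (n : ℝ) ^ (1 - α) * (1 + 1 / (n : ℝ)) ^ (1 - α) := by
    rw [← Real.mul_rpow hn1.le (by positivity)]
    congr 1
    push_cast
    field_simp
  have h3 : (n : ℝ) ^ (1 - α) = (n : ℝ) ^ (-α) * n := by
    rw [← Real.rpow_add_one hn1.ne']
    congr 1; ring
  have hp : 0 < (n : ℝ) ^ (1 - α) := Real.rpow_pos_of_pos hn1 _
  rw [div_le_iff₀ (by linarith), h2]
  calc (n : ℝ) ^ (1 - α) * (1 + 1 / (n : ℝ)) ^ (1 - α) - (n : ℝ) ^ (1 - α)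
      ≤ (n : ℝ) ^ (1 - α) * (1 + (1 - α) * (1 / n)) - (n : ℝ) ^ (1 - α) := by gcongr
    _ = (n : ℝ) ^ (-α) * (1 - α) := by rw [h3]; field_simp; ring

/-- the facts on `K` used for a block of length `L` -/
structure KFacts2 (α c η : ℝ) (K : ℕ → ℝ) (L : ℕ) : Prop where
  big : 1 ≤ L
  up : ∀ n : ℕ, η * L < n → K n ≤ 11 / 10 * c * (n : ℝ) ^ (-(1 + α))
  U : ∑ n ∈ range L, rf (fun n => ENNReal.ofReal (K n)) n
    ≤ ENNReal.ofReal (12 / 5 * (1 - α) * (L : ℝ) ^ α / c)

lemma IsLaw.kfacts2 (hK : IsLaw α c K) (hc : 0 < c) (hα : 0 < α) (hα1 : α < 1) {η : ℝ}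
    (hη : 0 < η) : ∀ᶠ L : ℕ in atTop, KFacts2 α c η K L := by
  obtain ⟨n₀, hn₀⟩ := eventually_atTop.1 (hK.bounds hc (show (0 : ℝ) < 1 / 10 by norm_num))
  obtain ⟨i₁, hi₁⟩ := eventually_atTop.1 (hK.tail_low hc hα hα1.le)
  set i₀ : ℕ := i₁ + 1 with hi₀
  have hβ : 0 < 1 - α := by linarith
  -- large `L`
  have e1 : ∀ᶠ L : ℕ in atTop, (n₀ : ℝ) ≤ η * L := by
    have h3 : Tendsto (fun L : ℕ => η * (L : ℝ)) atTop atTop :=
      tendsto_natCast_atTop_atTop.const_mul_atTop hη
    exact h3.eventually_ge_atTop _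
  have e2 : ∀ᶠ L : ℕ in atTop, (i₀ : ℝ) ^ (1 - α) ≤ 1 / 40 * (L : ℝ) ^ (1 - α) := by
    have h3 : Tendsto (fun L : ℕ => 1 / 40 * (L : ℝ) ^ (1 - α)) atTop atTop := by
      refine Tendsto.const_mul_atTop (by positivity) ?_
      exact (tendsto_rpow_atTop hβ).comp tendsto_natCast_atTop_atTop
    exact h3.eventually_ge_atTop _
  filter_upwards [e1, e2, eventually_ge_atTop i₀, eventually_ge_atTop 1] with L g1 g2 g3 g4
  have hL0 : (0 : ℝ) < L := by exact_mod_cast g4
  refine ⟨g4, ?_, ?_⟩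
  · intro n hn
    refine (hn₀ n ?_).2.trans (le_of_eq (by norm_num))
    have : (n₀ : ℝ) ≤ n := by linarith
    exact_mod_cast this
  · set kb : ℕ → ℝ≥0∞ := fun i =>
      if i₀ ≤ i then ENNReal.ofReal (9 / 10 * (c / α) * (i : ℝ) ^ (-α)) else 0 with hkb
    have h1 : ∀ i, kb i + ∑ n ∈ Ioc 0 i, ENNReal.ofReal (K n) ≤ 1 := by
      intro i
      rw [← ENNReal.ofReal_sum_of_nonneg (fun n _ => hK.nonneg n)]
      by_cases hi : i₀ ≤ i
      · simp only [hkb, if_pos hi]
        rw [← ENNReal.ofReal_add (by positivity) (sum_nonneg fun n _ => hK.nonneg n),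
          ← ENNReal.ofReal_one]
        refine ENNReal.ofReal_le_ofReal ?_
        have := hi₁ i (by omega)
        linarith
      · simp only [hkb, if_neg hi, zero_add]
        rw [← ENNReal.ofReal_one]
        exact ENNReal.ofReal_le_ofReal (hK.sum_le_one _)
    have h2 := renewal_tail h1 L
    set g : ℝ := 9 / 10 * (c / α) * (39 / 40 * (L : ℝ) ^ (1 - α) / (1 - α)) with hg
    have hg0 : 0 < g := by
      have : 0 < (L : ℝ) ^ (1 - α) := Real.rpow_pos_of_pos hL0 _
      positivity
    have h3 : ENNReal.ofReal g ≤ ∑ i ∈ range L, kb i := by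
      calc ENNReal.ofReal g
          ≤ ENNReal.ofReal (∑ i ∈ Ico i₀ L, 9 / 10 * (c / α) * (i : ℝ) ^ (-α)) := by
            refine ENNReal.ofReal_le_ofReal ?_
            rw [← mul_sum, hg]
            gcongr
            calc 39 / 40 * (L : ℝ) ^ (1 - α) / (1 - α)
                ≤ ((L : ℝ) ^ (1 - α) - (i₀ : ℝ) ^ (1 - α)) / (1 - α) := by
                  gcongr; linarith
              _ ≤ ∑ i ∈ Ico i₀ L, (i : ℝ) ^ (-α) := by
                  clear_value i₀
                  have : ∀ M, i₀ ≤ M → ((M : ℝ) ^ (1 - α) - (i₀ : ℝ) ^ (1 - α)) / (1 - α)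
                      ≤ ∑ i ∈ Ico i₀ M, (i : ℝ) ^ (-α) := by
                    intro M hM
                    induction M, hM using Nat.le_induction with
                    | base => simp
                    | succ M hM ih =>
                      rw [sum_Ico_succ_top hM]
                      have h5 := tel_up' hα hα1 (n := M) (by omega)
                      have h6 : ((((M + 1 : ℕ) : ℝ)) ^ (1 - α) - (i₀ : ℝ) ^ (1 - α)) / (1 - α)
                          = ((M : ℝ) ^ (1 - α) - (i₀ : ℝ) ^ (1 - α)) / (1 - α)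
                            + ((((M + 1 : ℕ) : ℝ)) ^ (1 - α) - (M : ℝ) ^ (1 - α)) / (1 - α) := by
                        ring
                      rw [h6]
                      linarith
                  exact this L g3
        _ = ∑ i ∈ Ico i₀ L, kb i := by
            rw [ENNReal.ofReal_sum_of_nonneg (fun i _ => by positivity)]
            refine sum_congr rfl fun i hi => ?_
            rw [mem_Ico] at hi
            simp only [hkb, if_pos hi.1]
        _ ≤ ∑ i ∈ range L, kb i := by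
            refine sum_le_sum_of_subset ?_
            intro w; simp only [mem_Ico, mem_range]; omega
    have h4 : (∑ n ∈ range L, rf (fun n => ENNReal.ofReal (K n)) n) * ENNReal.ofReal g
        ≤ ENNReal.ofReal (2 * L) := by
      refine le_trans (mul_le_mul' le_rfl h3) (h2.trans (le_of_eq ?_))
      rw [ENNReal.ofReal_mul (by norm_num)]
      simp
    have hg1 : ENNReal.ofReal g ≠ 0 := by
      rw [Ne, ENNReal.ofReal_eq_zero, not_le]; exact hg0
    calc ∑ n ∈ range L, rf (fun n => ENNReal.ofReal (K n)) n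
        ≤ ENNReal.ofReal (2 * L) / ENNReal.ofReal g := by
          rw [ENNReal.le_div_iff_mul_le (Or.inl hg1) (Or.inl ENNReal.ofReal_ne_top)]
          exact h4
      _ = ENNReal.ofReal (2 * L / g) := by
          rw [ENNReal.ofReal_div_of_pos hg0]
      _ ≤ _ := by
          refine ENNReal.ofReal_le_ofReal ?_
          have hLβ : 0 < (L : ℝ) ^ (1 - α) := Real.rpow_pos_of_pos hL0 _
          have h5 : (L : ℝ) ^ α * (L : ℝ) ^ (1 - α) = L := by
            rw [← Real.rpow_add hL0]; simp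
          rw [div_le_div_iff₀ hg0 hc, hg]
          have h6 : 12 / 5 * (1 - α) * (L : ℝ) ^ α *
              (9 / 10 * (c / α) * (39 / 40 * (L : ℝ) ^ (1 - α) / (1 - α)))
              = 12 / 5 * (9 / 10) * (39 / 40) * (c / α) * ((L : ℝ) ^ α * (L : ℝ) ^ (1 - α)) := by
            field_simp
          rw [h6, h5]
          have h7 : c ≤ c / α := by
            rw [le_div_iff₀ hα]; nlinarith
          have h8 : c * L ≤ c / α * L := by gcongr
          nlinarith
end Pool.Agent.Cop

end
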