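import Mathlib
import Pool.Agent.Work.MP_cceb86_pr.LMass

/-!
Lower bound for the renewal mass, valid for every `α ∈ (0,1)`.
-/

open Finset Real Filter Topology

noncomputable section

namespace Pool.Agent.Cop

variable {α c : ℝ} {K : ℕ → ℝ}

/-- the renewal identity -/
lemma rf_one {κ : ℕ → ℝ} (m : ℕ) :
    ∑ n ∈ range (m + 1), rf κ n * (1 - ∑ z ∈ Ioc 0 (m - n), κ z) = 1 := by
  have h1 : ∑ n ∈ range (m + 1), rf κ n * ∑ z ∈ Ioc 0 (m - n), κ z
      = ∑ t ∈ Ico 1 (m + 1), rf κ t := by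
    calc ∑ n ∈ range (m + 1), rf κ n * ∑ z ∈ Ioc 0 (m - n), κ z
        = ∑ p ∈ (range (m + 1)).sigma (fun n => Ioc 0 (m - n)), rf κ p.1 * κ p.2 := by
          rw [sum_sigma]
          refine sum_congr rfl fun n _ => ?_
          rw [mul_sum]
      _ = ∑ p ∈ (Ico 1 (m + 1)).sigma (fun t => Ioc 0 t), κ p.2 * rf κ (p.1 - p.2) := by
          refine sum_bij' (fun p _ => ⟨p.1 + p.2, p.2⟩) (fun p _ => ⟨p.1 - p.2, p.2⟩) ?_ ?_ ?_ ?_ ?_
          · rintro ⟨a, b⟩ h
            simp only [mem_sigma, mem_range, mem_Ioc, mem_Ico] at h ⊢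
            omega
          · rintro ⟨a, b⟩ h
            simp only [mem_sigma, mem_range, mem_Ioc, mem_Ico] at h ⊢
            omega
          · rintro ⟨a, b⟩ h
            simp only [mem_sigma, mem_range, mem_Ioc, Sigma.mk.injEq, heq_eq_eq, and_true] at h ⊢
            omega
          · rintro ⟨a, b⟩ h
            simp only [mem_sigma, mem_Ico, mem_Ioc, Sigma.mk.injEq, heq_eq_eq, and_true] at h ⊢
            omega
          · rintro ⟨a, b⟩ h
            simp only [Nat.add_sub_cancel]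
            ring
      _ = ∑ t ∈ Ico 1 (m + 1), rf κ t := by
          rw [sum_sigma]
          refine sum_congr rfl fun t ht => ?_
          rw [mem_Ico] at ht
          rw [rf_left κ (by omega)]
  have h2 : ∑ n ∈ range (m + 1), rf κ n = 1 + ∑ t ∈ Ico 1 (m + 1), rf κ t := by
    rw [range_eq_Ico, ← sum_Ico_consecutive _ (Nat.zero_le 1) (by omega)]
    simp [rf_zero]
  simp only [mul_sub, mul_one, sum_sub_distrib]
  rw [h1, h2]
  ring

/-- Wald type bound -/
lemma rf_wald {κ : ℕ → ℝ} (h0 : ∀ n, 0 ≤ κ n) (h1 : ∀ M, ∑ n ∈ Ioc 0 M, κ n ≤ 1) (M : ℕ) :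
    (M : ℝ) ≤ (∑ n ∈ range M, rf κ n) * ∑ r ∈ range M, (1 - ∑ z ∈ Ioc 0 r, κ z) := by
  have hr := rf_nonneg h0
  calc (M : ℝ) = ∑ m ∈ range M, (1 : ℝ) := by simp
    _ = ∑ m ∈ range M, ∑ n ∈ range (m + 1), rf κ n * (1 - ∑ z ∈ Ioc 0 (m - n), κ z) :=
        sum_congr rfl fun m _ => (rf_one m).symm
    _ = ∑ n ∈ range M, ∑ m ∈ Ico n M, rf κ n * (1 - ∑ z ∈ Ioc 0 (m - n), κ z) := by
        refine sum_comm' ?_
        intro m n
        simp only [mem_range, mem_Ico]; omega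
    _ ≤ ∑ n ∈ range M, rf κ n * ∑ r ∈ range M, (1 - ∑ z ∈ Ioc 0 r, κ z) := by
        refine sum_le_sum fun n _ => ?_
        rw [← mul_sum]
        refine mul_le_mul_of_nonneg_left ?_ (hr n)
        rw [sum_Ico_eq_sum_range]
        have e : ∀ i, n + i - n = i := fun i => by omega
        simp only [e]
        refine sum_le_sum_of_subset_of_nonneg (range_subset_range.2 (Nat.sub_le _ _)) ?_
        intro r _ _
        linarith [h1 r]
    _ = _ := by rw [sum_mul]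

/-- power sums -/
lemma pow_sum_le (hα : 0 < α) (hα1 : α < 1) (M : ℕ) :
    ∑ r ∈ range M, ((r : ℝ) + 1) ^ (-α) ≤ (M : ℝ) ^ (1 - α) / (1 - α) := by
  have h1α : 0 < 1 - α := by linarith
  induction M with
  | zero => simp [Real.zero_rpow h1α.ne']
  | succ M ih =>
    rw [sum_range_succ]
    have hM : (0 : ℝ) < (M : ℝ) + 1 := by positivity
    have h1 : (1 + (-1 / ((M : ℝ) + 1))) ^ (1 - α) ≤ 1 + (1 - α) * (-1 / ((M : ℝ) + 1)) := by
      refine _root_.rpow_one_add_le_one_add_mul_self ?_ h1α.le (by linarith)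
      rw [le_div_iff₀ hM]
      have : (0 : ℝ) ≤ M := Nat.cast_nonneg _
      linarith
    have h2 : (M : ℝ) ^ (1 - α) = ((M : ℝ) + 1) ^ (1 - α) * (1 + (-1 / ((M : ℝ) + 1))) ^ (1 - α) := by
      rw [← Real.mul_rpow hM.le]
      · congr 1; field_simp; ring
      · have : 1 + (-1 / ((M : ℝ) + 1)) = M / (M + 1) := by field_simp; ring
        rw [this]; positivity
    have h3 : ((M : ℝ) + 1) ^ (1 - α) = ((M : ℝ) + 1) * ((M : ℝ) + 1) ^ (-α) := by
      rw [sub_eq_add_neg, Real.rpow_add hM, Real.rpow_one]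
    have h4 : 0 < ((M : ℝ) + 1) ^ (-α) := Real.rpow_pos_of_pos hM _
    have h5 : (M : ℝ) ^ (1 - α) ≤ ((M : ℝ) + 1) ^ (1 - α) - (1 - α) * ((M : ℝ) + 1) ^ (-α) := by
      rw [h2]
      calc ((M : ℝ) + 1) ^ (1 - α) * (1 + (-1 / ((M : ℝ) + 1))) ^ (1 - α)
          ≤ ((M : ℝ) + 1) ^ (1 - α) * (1 + (1 - α) * (-1 / ((M : ℝ) + 1))) := by gcongr
        _ = _ := by rw [h3]; field_simp; ring
    push_cast
    calc ∑ r ∈ range M, ((r : ℝ) + 1) ^ (-α) + ((M : ℝ) + 1) ^ (-α)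
        ≤ (M : ℝ) ^ (1 - α) / (1 - α) + ((M : ℝ) + 1) ^ (-α) := by gcongr
      _ ≤ (((M : ℝ) + 1) ^ (1 - α) - (1 - α) * ((M : ℝ) + 1) ^ (-α)) / (1 - α)
          + ((M : ℝ) + 1) ^ (-α) := by gcongr
      _ = ((M : ℝ) + 1) ^ (1 - α) / (1 - α) := by field_simp; ring

/-- **Lower bound for the renewal mass.** -/
theorem ren_lowG (hα : 0 < α) (hα1 : α < 1) (hc : 0 < c) (hK : IsLaw α c K) :
    ∀ᶠ M : ℕ in atTop, ∀ L : ℕ, M ≤ L →
      α * (1 - α) * (M : ℝ) ^ α / (3 * c) ≤ ∑ n ∈ range M, rf (kap K L 1) n := by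
  have h1α : 0 < 1 - α := by linarith
  obtain ⟨r₀, hr₀⟩ := eventually_atTop.1 (hK.tail_up_eps hc hα hα1.le (show (0 : ℝ) < 1 by norm_num))
  have hlim : Tendsto (fun M : ℕ => (M : ℝ) ^ (1 - α)) atTop atTop :=
    (tendsto_rpow_atTop h1α).comp tendsto_natCast_atTop_atTop
  filter_upwards [hlim.eventually_ge_atTop (((r₀ : ℝ) + 1) * (α * (1 - α) / c)),
    eventually_gt_atTop 0] with M hM hM0 L hML
  have hM0' : (0 : ℝ) < M := by exact_mod_cast hM0
  have hk0 := kap_nonneg (L := L) hK.nonneg (le_refl (1 : ℝ))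
  have hkap : ∀ n, n ≤ L → kap K L 1 n = K n := by
    intro n hn
    unfold kap
    rw [if_pos hn, one_pow]; ring
  have hkle : ∀ n, kap K L 1 n ≤ K n := by
    intro n
    unfold kap
    have := hK.nonneg n
    split_ifs
    · rw [one_pow]; linarith
    · linarith
  have hKs : ∀ R, ∑ n ∈ Ioc 0 R, K n ≤ 1 := fun R =>
    (hK.sum.summable.sum_le_tsum _ (fun n _ => hK.nonneg n)).trans hK.sum.tsum_eq.le
  have hk1 : ∀ R, ∑ n ∈ Ioc 0 R, kap K L 1 n ≤ 1 := fun R =>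
    (sum_le_sum fun n _ => hkle n).trans (hKs R)
  have hW := rf_wald hk0 hk1 M
  set U := ∑ n ∈ range M, rf (kap K L 1) n with hU
  have hU0 : 0 ≤ U := sum_nonneg fun n _ => rf_nonneg hk0 n
  -- the tail sum
  have hT : ∑ r ∈ range M, (1 - ∑ z ∈ Ioc 0 r, kap K L 1 z)
      ≤ 3 * c / (α * (1 - α)) * (M : ℝ) ^ (1 - α) := by
    have h1 : ∀ r ∈ range M, 1 - ∑ z ∈ Ioc 0 r, kap K L 1 z
        ≤ (if r < r₀ + 1 then 1 else 0) + 2 * (c / α) * (r : ℝ) ^ (-α) * (if r < r₀ + 1 then 0 else 1) := by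
      intro r hr
      rw [mem_range] at hr
      have e1 : ∑ z ∈ Ioc 0 r, kap K L 1 z = ∑ z ∈ Ioc 0 r, K z := by
        refine sum_congr rfl fun z hz => ?_
        rw [mem_Ioc] at hz
        exact hkap z (by omega)
      rw [e1]
      split_ifs with h
      · have : 0 ≤ ∑ z ∈ Ioc 0 r, K z := sum_nonneg fun z _ => hK.nonneg z
        linarith
      · have := hr₀ r (by omega)
        have e2 : (1 + 1 : ℝ) = 2 := by norm_num
        rw [e2] at this
        linarith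
    refine (sum_le_sum h1).trans ?_
    rw [sum_add_distrib]
    have h2 : ∑ r ∈ range M, (if r < r₀ + 1 then (1 : ℝ) else 0) ≤ r₀ + 1 := by
      rw [← sum_filter, sum_const, nsmul_eq_mul, mul_one]
      have : ((range M).filter (fun r => r < r₀ + 1)).card ≤ r₀ + 1 := by
        calc _ ≤ (range (r₀ + 1)).card := by
              refine card_le_card ?_
              intro r; simp only [mem_filter, mem_range]; omega
          _ = r₀ + 1 := card_range _
      exact_mod_cast this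
    have h3 : ∑ r ∈ range M, 2 * (c / α) * (r : ℝ) ^ (-α) * (if r < r₀ + 1 then 0 else 1)
        ≤ 2 * (c / α) * ((M : ℝ) ^ (1 - α) / (1 - α)) := by
      have h4 := pow_sum_le hα hα1 M
      refine le_trans ?_ (mul_le_mul_of_nonneg_left h4 (by positivity))
      rw [mul_sum]
      -- compare with the shifted sum
      have h5 : ∑ r ∈ range M, 2 * (c / α) * (r : ℝ) ^ (-α) * (if r < r₀ + 1 then 0 else 1)
          ≤ ∑ r ∈ Ico 1 M, 2 * (c / α) * (r : ℝ) ^ (-α) := by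
        rw [range_eq_Ico, ← sum_Ico_consecutive _ (Nat.zero_le 1) (by omega)]
        have h6 : ∑ r ∈ Ico (0 : ℕ) 1, 2 * (c / α) * (r : ℝ) ^ (-α) * (if r < r₀ + 1 then (0 : ℝ) else 1) = 0 := by
          simp
        rw [h6, zero_add]
        refine sum_le_sum fun r _ => ?_
        have : 0 ≤ 2 * (c / α) * (r : ℝ) ^ (-α) := by positivity
        split_ifs
        · simpa using this
        · simp
      refine h5.trans ?_
      rw [sum_Ico_eq_sum_range]
      refine (sum_le_sum_of_subset_of_nonneg (range_subset_range.2 (Nat.sub_le M 1))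
        (fun r _ _ => by positivity)).trans (le_of_eq ?_)
      refine sum_congr rfl fun r _ => ?_
      push_cast
      rw [add_comm (1 : ℝ)]
    have h4 : (r₀ : ℝ) + 1 ≤ c / (α * (1 - α)) * (M : ℝ) ^ (1 - α) := by
      rw [div_mul_eq_mul_div, le_div_iff₀ (by positivity)]
      calc ((r₀ : ℝ) + 1) * (α * (1 - α)) = c * (((r₀ : ℝ) + 1) * (α * (1 - α) / c)) := by
            field_simp
        _ ≤ c * (M : ℝ) ^ (1 - α) := by gcongr
    calc _ ≤ c / (α * (1 - α)) * (M : ℝ) ^ (1 - α)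
          + 2 * (c / α) * ((M : ℝ) ^ (1 - α) / (1 - α)) := add_le_add (h2.trans h4) h3
      _ = 3 * c / (α * (1 - α)) * (M : ℝ) ^ (1 - α) := by field_simp; ring
  have h5 : (M : ℝ) ≤ U * (3 * c / (α * (1 - α)) * (M : ℝ) ^ (1 - α)) :=
    hW.trans (mul_le_mul_of_nonneg_left hT hU0)
  have h6 : (M : ℝ) = (M : ℝ) ^ α * (M : ℝ) ^ (1 - α) := by
    rw [← Real.rpow_add hM0']
    simp
  have h7 : 0 < (M : ℝ) ^ (1 - α) := Real.rpow_pos_of_pos hM0' _
  rw [div_le_iff₀ (by positivity)]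
  have h8 : (M : ℝ) ^ α * (M : ℝ) ^ (1 - α) ≤ U * (3 * c / (α * (1 - α))) * (M : ℝ) ^ (1 - α) := by
    rw [← h6]; linarith
  have h9 := le_of_mul_le_mul_right h8 h7
  calc α * (1 - α) * (M : ℝ) ^ α ≤ α * (1 - α) * (U * (3 * c / (α * (1 - α)))) := by gcongr
    _ = U * (3 * c) := by field_simp

end Pool.Agent.Cop

end
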