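import Mathlib
import Pool.Agent.Work.MP_cceb86_pr.LRenG
import Pool.Agent.Work.MP_cceb86_pr.Asym2

/-!
Renewal with jumps of size at most `L`: lower bound for the mass of windows, `α` close to `1`.
-/

open Finset Real Filter Topology

noncomputable section

namespace Pool.Agent.Cop

variable {α c : ℝ} {K : ℕ → ℝ}

lemma rf_right {R : Type*} [CommSemiring R] (κ : ℕ → R) {n : ℕ} (h : 0 < n) :
    rf κ n = ∑ v ∈ range n, rf κ v * κ (n - v) := by
  unfold rf
  rw [ren_right _ h, range_eq_Ico]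
  rfl

/-- decomposition at the first renewal point in `[A, ∞)` -/
lemma rf_cross (κ : ℕ → ℝ) {A : ℕ} (hA : 0 < A) (y : ℕ) (hy : A ≤ y) :
    rf κ y = ∑ w ∈ range A, ∑ z ∈ Icc A y, rf κ w * κ (z - w) * rf κ (y - z) := by
  induction y using Nat.strong_induction_on with
  | _ y ih =>
    rw [rf_right κ (by omega)]
    have e1 : ∑ v ∈ range y, rf κ v * κ (y - v)
        = ∑ v ∈ range A, rf κ v * κ (y - v) + ∑ v ∈ Ico A y, rf κ v * κ (y - v) := by
      rw [range_eq_Ico, range_eq_Ico, sum_Ico_consecutive _ (Nat.zero_le A) hy]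
    rw [e1]
    have e2 : ∑ v ∈ Ico A y, rf κ v * κ (y - v)
        = ∑ w ∈ range A, ∑ z ∈ Ico A y, rf κ w * κ (z - w) * rf κ (y - z) := by
      calc ∑ v ∈ Ico A y, rf κ v * κ (y - v)
          = ∑ v ∈ Ico A y, ∑ w ∈ range A, ∑ z ∈ Icc A v,
              rf κ w * κ (z - w) * (rf κ (v - z) * κ (y - v)) := by
            refine sum_congr rfl fun v hv => ?_
            rw [mem_Ico] at hv
            rw [ih v hv.2 hv.1, sum_mul]
            refine sum_congr rfl fun w _ => ?_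
            rw [sum_mul]
            exact sum_congr rfl fun z _ => by ring
        _ = ∑ w ∈ range A, ∑ v ∈ Ico A y, ∑ z ∈ Icc A v,
              rf κ w * κ (z - w) * (rf κ (v - z) * κ (y - v)) := sum_comm
        _ = ∑ w ∈ range A, ∑ z ∈ Ico A y, ∑ v ∈ Ico z y,
              rf κ w * κ (z - w) * (rf κ (v - z) * κ (y - v)) := by
            refine sum_congr rfl fun w _ => ?_
            refine sum_comm' ?_
            intro v z
            simp only [mem_Ico, mem_Icc]; omega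
        _ = _ := by
            refine sum_congr rfl fun w _ => sum_congr rfl fun z hz => ?_
            rw [mem_Ico] at hz
            rw [← mul_sum]
            congr 1
            rw [rf_right κ (show 0 < y - z by omega), sum_Ico_eq_sum_range]
            refine sum_congr rfl fun v _ => ?_
            rw [Nat.add_sub_cancel_left, Nat.sub_add_eq]
    rw [e2, ← sum_add_distrib]
    refine sum_congr rfl fun w _ => ?_
    have e3 : Icc A y = insert y (Ico A y) := by
      ext z; simp only [mem_Icc, mem_insert, mem_Ico]; omega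
    rw [e3, sum_insert (by simp), Nat.sub_self, rf_zero, mul_one]

/-- the mass of a window -/
lemma rf_window {κ : ℕ → ℝ} (h0 : ∀ n, 0 ≤ κ n) {L : ℕ} (hL : ∀ n, L < n → κ n = 0) (A M : ℕ) :
    (1 - (1 - ∑ n ∈ Ioc 0 L, κ n) * ∑ n ∈ range A, rf κ n) * ∑ n ∈ range M, rf κ n
      ≤ ∑ y ∈ Ico A (A + L + M), rf κ y := by
  have hr := rf_nonneg h0
  rcases Nat.eq_zero_or_pos A with rfl | hA
  · simp only [range_zero, sum_empty, mul_zero, sub_zero, one_mul, zero_add]
    rw [← range_eq_Ico]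
    exact sum_le_sum_of_subset_of_nonneg (range_subset_range.2 (by omega)) (fun n _ _ => hr n)
  set U := ∑ n ∈ range M, rf κ n with hU
  have hU0 : 0 ≤ U := sum_nonneg fun n _ => hr n
  -- the entrance mass
  have hent : ∑ w ∈ range A, ∑ z ∈ Ico A (A + L), rf κ w * κ (z - w)
      = 1 - (1 - ∑ n ∈ Ioc 0 L, κ n) * ∑ n ∈ range A, rf κ n := by
    have h1 := rf_one (κ := κ) (A - 1)
    rw [Nat.sub_add_cancel hA] at h1
    have h2 : ∀ w ∈ range A, ∑ z ∈ Ico A (A + L), rf κ w * κ (z - w)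
        = rf κ w * (1 - ∑ z ∈ Ioc 0 (A - 1 - w), κ z) - rf κ w * (1 - ∑ n ∈ Ioc 0 L, κ n) := by
      intro w hw
      rw [mem_range] at hw
      rw [← mul_sum, ← mul_sub]
      congr 1
      have e1 : ∑ z ∈ Ico A (A + L), κ (z - w) = ∑ n ∈ Ico (A - w) (A + L - w), κ n := by
        refine sum_nbij' (fun z => z - w) (fun n => n + w) ?_ ?_ ?_ ?_ ?_
        · intro z hz; simp only [mem_Ico] at *; omega
        · intro n hn; simp only [mem_Ico] at *; omega
        · intro z hz; simp only [mem_Ico] at hz; omega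
        · intro n _; omega
        · intro z _; rfl
      have e2 : ∑ n ∈ Ioc 0 (A + L - w - 1), κ n = ∑ n ∈ Ioc 0 L, κ n := by
        refine (sum_subset ?_ ?_).symm
        · intro n; simp only [mem_Ioc]; omega
        · intro n _ hn
          simp only [mem_Ioc, not_and, not_le] at hn
          rcases Nat.eq_zero_or_pos n with h | h
          · subst h
            rename_i h'
            simp at h'
          · exact hL n (hn h)
      have e3 : ∑ n ∈ Ioc 0 (A + L - w - 1), κ n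
          = ∑ n ∈ Ioc 0 (A - 1 - w), κ n + ∑ n ∈ Ico (A - w) (A + L - w), κ n := by
        rw [← sum_union]
        · congr 1
          ext n; simp only [mem_Ioc, mem_union, mem_Ico]; omega
        · rw [disjoint_left]; intro n; simp only [mem_Ioc, mem_Ico]; omega
      rw [e1]
      linarith
    rw [sum_congr rfl h2, sum_sub_distrib, h1, ← sum_mul]
    ring
  rw [← hent, sum_mul]
  calc ∑ w ∈ range A, (∑ z ∈ Ico A (A + L), rf κ w * κ (z - w)) * U
      ≤ ∑ w ∈ range A, ∑ z ∈ Ico A (A + L), ∑ y ∈ Ico z (A + L + M),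
          rf κ w * κ (z - w) * rf κ (y - z) := by
        refine sum_le_sum fun w _ => ?_
        rw [sum_mul]
        refine sum_le_sum fun z hz => ?_
        rw [mem_Ico] at hz
        rw [← mul_sum]
        refine mul_le_mul_of_nonneg_left ?_ (mul_nonneg (hr _) (h0 _))
        rw [sum_Ico_eq_sum_range]
        have e : ∀ i, z + i - z = i := fun i => by omega
        simp only [e]
        exact sum_le_sum_of_subset_of_nonneg (range_subset_range.2 (by omega)) (fun n _ _ => hr n)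
    _ ≤ ∑ w ∈ range A, ∑ y ∈ Ico A (A + L + M), ∑ z ∈ Icc A y,
          rf κ w * κ (z - w) * rf κ (y - z) := by
        refine sum_le_sum fun w _ => ?_
        have e1 : ∑ y ∈ Ico A (A + L + M), ∑ z ∈ Icc A y, rf κ w * κ (z - w) * rf κ (y - z)
            = ∑ z ∈ Ico A (A + L + M), ∑ y ∈ Ico z (A + L + M),
              rf κ w * κ (z - w) * rf κ (y - z) := by
          refine sum_comm' ?_
          intro y z; simp only [mem_Ico, mem_Icc]; omega
        rw [e1]
        refine sum_le_sum_of_subset_of_nonneg ?_ ?_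
        · intro z; simp only [mem_Ico]; omega
        · intro z _ _
          exact sum_nonneg fun y _ => mul_nonneg (mul_nonneg (hr _) (h0 _)) (hr _)
    _ = ∑ y ∈ Ico A (A + L + M), rf κ y := by
        rw [sum_comm]
        refine sum_congr rfl fun y hy => ?_
        rw [mem_Ico] at hy
        exact (rf_cross κ hA y hy.1).symm

/-- upper bound for the renewal mass -/
lemma rf_wald_up {κ : ℕ → ℝ} (h0 : ∀ n, 0 ≤ κ n) (h1 : ∀ M, ∑ n ∈ Ioc 0 M, κ n ≤ 1) (M : ℕ) :
    (∑ n ∈ range M, rf κ n) * ∑ r ∈ range M, (1 - ∑ z ∈ Ioc 0 r, κ z) ≤ 2 * M := by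
  have hr := rf_nonneg h0
  have hF : ∀ r, 0 ≤ 1 - ∑ z ∈ Ioc 0 r, κ z := fun r => by linarith [h1 r]
  calc (∑ n ∈ range M, rf κ n) * ∑ r ∈ range M, (1 - ∑ z ∈ Ioc 0 r, κ z)
      = ∑ n ∈ range M, rf κ n * ∑ r ∈ range M, (1 - ∑ z ∈ Ioc 0 r, κ z) := by rw [sum_mul]
    _ ≤ ∑ n ∈ range M, ∑ m ∈ Ico n (2 * M), rf κ n * (1 - ∑ z ∈ Ioc 0 (m - n), κ z) := by
        refine sum_le_sum fun n hn => ?_
        rw [mem_range] at hn
        rw [← mul_sum]
        refine mul_le_mul_of_nonneg_left ?_ (hr n)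
        rw [sum_Ico_eq_sum_range]
        have e : ∀ i, n + i - n = i := fun i => by omega
        simp only [e]
        exact sum_le_sum_of_subset_of_nonneg (range_subset_range.2 (by omega)) (fun r _ _ => hF r)
    _ ≤ ∑ n ∈ range (2 * M), ∑ m ∈ Ico n (2 * M), rf κ n * (1 - ∑ z ∈ Ioc 0 (m - n), κ z) := by
        refine sum_le_sum_of_subset_of_nonneg (range_subset_range.2 (by omega)) ?_
        intro n _ _
        exact sum_nonneg fun m _ => mul_nonneg (hr n) (hF _)
    _ = ∑ m ∈ range (2 * M), ∑ n ∈ range (m + 1), rf κ n * (1 - ∑ z ∈ Ioc 0 (m - n), κ z) := by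
        refine sum_comm' ?_
        intro n m
        simp only [mem_range, mem_Ico]; omega
    _ = ∑ m ∈ range (2 * M), (1 : ℝ) := sum_congr rfl fun m _ => rf_one m
    _ = 2 * M := by simp

/-- the law truncated at `L` -/
def kTr (K : ℕ → ℝ) (L n : ℕ) : ℝ := if n ≤ L then K n else 0

/-- the integrated tail of `K`, two sided -/
lemma IsLaw.tailsum (hK : IsLaw α c K) (hα : 0 < α) (hα1 : α < 1) (hc : 0 < c) :
    ∀ᶠ L : ℕ in atTop,
      c / (2 * (α * (1 - α))) * (L : ℝ) ^ (1 - α) ≤ ∑ r ∈ range L, (1 - ∑ z ∈ Ioc 0 r, K z) ∧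
      ∑ r ∈ range L, (1 - ∑ z ∈ Ioc 0 r, K z) ≤ 3 * c / (α * (1 - α)) * (L : ℝ) ^ (1 - α) ∧
      1 - ∑ z ∈ Ioc 0 L, K z ≤ 2 * (c / α) * (L : ℝ) ^ (-α) := by
  have h1α : 0 < 1 - α := by linarith
  obtain ⟨r₀, hr₀⟩ := eventually_atTop.1 (hK.tail_up_eps hc hα hα1.le (show (0 : ℝ) < 1 by norm_num))
  obtain ⟨r₁, hr₁⟩ := eventually_atTop.1 (hK.tail_low hc hα hα1.le)
  have hlim : Tendsto (fun M : ℕ => (M : ℝ) ^ (1 - α)) atTop atTop :=
    (tendsto_rpow_atTop h1α).comp tendsto_natCast_atTop_atTop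
  have hKs : ∀ R, ∑ n ∈ Ioc 0 R, K n ≤ 1 := fun R =>
    (hK.sum.summable.sum_le_tsum _ (fun n _ => hK.nonneg n)).trans hK.sum.tsum_eq.le
  filter_upwards [hlim.eventually_ge_atTop (((r₀ : ℝ) + 1) * (α * (1 - α) / c)),
    hlim.eventually_ge_atTop (3 * ((r₁ : ℝ) + 1) ^ (1 - α)),
    eventually_gt_atTop 0, eventually_ge_atTop r₀, eventually_ge_atTop (r₁ + 1)]
    with M hM hM' hM0 hMr hMr1
  have hM0' : (0 : ℝ) < M := by exact_mod_cast hM0
  refine ⟨?_, ?_, ?_⟩
  · -- lower bound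
    have htel : ∀ N, r₁ + 1 ≤ N →
        ((N : ℝ) ^ (1 - α) - ((r₁ + 1 : ℕ) : ℝ) ^ (1 - α)) / (1 - α) ≤ ∑ i ∈ Ico (r₁ + 1) N, (i : ℝ) ^ (-α) := by
      intro N hN
      induction N, hN using Nat.le_induction with
      | base => simp
      | succ N hN ih =>
        rw [sum_Ico_succ_top hN]
        have := tel_up' hα hα1 (n := N) (by omega)
        calc _ = ((N : ℝ) ^ (1 - α) - ((r₁ + 1 : ℕ) : ℝ) ^ (1 - α)) / (1 - α)
              + (((N + 1 : ℕ) : ℝ) ^ (1 - α) - (N : ℝ) ^ (1 - α)) / (1 - α) := by ring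
          _ ≤ _ := add_le_add ih this
    have h1 := htel M hMr1
    have h2 : (2 / 3 * (M : ℝ) ^ (1 - α)) / (1 - α) ≤ ∑ i ∈ Ico (r₁ + 1) M, (i : ℝ) ^ (-α) := by
      refine le_trans ?_ h1
      gcongr
      push_cast
      linarith
    calc c / (2 * (α * (1 - α))) * (M : ℝ) ^ (1 - α)
        ≤ 9 / 10 * (c / α) * ((2 / 3 * (M : ℝ) ^ (1 - α)) / (1 - α)) := by
          have h3 : 0 < (M : ℝ) ^ (1 - α) := Real.rpow_pos_of_pos hM0' _
          have e1 : 9 / 10 * (c / α) * ((2 / 3 * (M : ℝ) ^ (1 - α)) / (1 - α))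
              = 6 / 5 * (c / (2 * (α * (1 - α))) * (M : ℝ) ^ (1 - α)) := by field_simp; ring
          rw [e1]
          have : 0 ≤ c / (2 * (α * (1 - α))) * (M : ℝ) ^ (1 - α) := by positivity
          linarith
      _ ≤ 9 / 10 * (c / α) * ∑ i ∈ Ico (r₁ + 1) M, (i : ℝ) ^ (-α) := by gcongr
      _ = ∑ i ∈ Ico (r₁ + 1) M, 9 / 10 * (c / α) * (i : ℝ) ^ (-α) := by rw [mul_sum]
      _ ≤ ∑ i ∈ Ico (r₁ + 1) M, (1 - ∑ z ∈ Ioc 0 i, K z) := by
          refine sum_le_sum fun i hi => ?_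
          rw [mem_Ico] at hi
          have := hr₁ i (by omega)
          linarith
      _ ≤ _ := by
          refine sum_le_sum_of_subset_of_nonneg ?_ ?_
          · intro i; simp only [mem_Ico, mem_range]; omega
          · intro i _ _; linarith [hKs i]
  · -- upper bound
    have h1 : ∀ r ∈ range M, 1 - ∑ z ∈ Ioc 0 r, K z
        ≤ (if r < r₀ + 1 then 1 else 0) + 2 * (c / α) * (r : ℝ) ^ (-α) * (if r < r₀ + 1 then 0 else 1) := by
      intro r hr
      split_ifs with h
      · have : 0 ≤ ∑ z ∈ Ioc 0 r, K z := sum_nonneg fun z _ => hK.nonneg z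
        linarith
      · have := hr₀ r (by omega)
        have e2 : (1 + 1 : ℝ) = 2 := by norm_num
        rw [e2] at this
        linarith
    refine (sum_le_sum h1).trans ?_
    rw [sum_add_distrib]
    have h2 : ∑ r ∈ range M, (if r < r₀ + 1 then (1 : ℝ) else 0) ≤ r₀ + 1 := by
      rw [← sum_filter, sum_const, nsmul_eq_mul, mul_one]
      have : ((range M).filter (fun r => r < r₀ + 1)).card ≤ r₀ + 1 := by
        calc _ ≤ (range (r₀ + 1)).card := by
              refine card_le_card ?_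
              intro r; simp only [mem_filter, mem_range]; omega
          _ = r₀ + 1 := card_range _
      exact_mod_cast this
    have h3 : ∑ r ∈ range M, 2 * (c / α) * (r : ℝ) ^ (-α) * (if r < r₀ + 1 then 0 else 1)
        ≤ 2 * (c / α) * ((M : ℝ) ^ (1 - α) / (1 - α)) := by
      have h4 := pow_sum_le hα hα1 M
      refine le_trans ?_ (mul_le_mul_of_nonneg_left h4 (by positivity))
      rw [mul_sum]
      have h5 : ∑ r ∈ range M, 2 * (c / α) * (r : ℝ) ^ (-α) * (if r < r₀ + 1 then 0 else 1)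
          ≤ ∑ r ∈ Ico 1 M, 2 * (c / α) * (r : ℝ) ^ (-α) := by
        rw [range_eq_Ico, ← sum_Ico_consecutive _ (Nat.zero_le 1) (by omega)]
        have h6 : ∑ r ∈ Ico (0 : ℕ) 1, 2 * (c / α) * (r : ℝ) ^ (-α) * (if r < r₀ + 1 then (0 : ℝ) else 1) = 0 := by
          simp
        rw [h6, zero_add]
        refine sum_le_sum fun r _ => ?_
        have : 0 ≤ 2 * (c / α) * (r : ℝ) ^ (-α) := by positivity
        split_ifs
        · simpa using this
        · simp
      refine h5.trans ?_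
      rw [sum_Ico_eq_sum_range]
      refine (sum_le_sum_of_subset_of_nonneg (range_subset_range.2 (Nat.sub_le M 1))
        (fun r _ _ => by positivity)).trans (le_of_eq ?_)
      refine sum_congr rfl fun r _ => ?_
      push_cast
      rw [add_comm (1 : ℝ)]
    have h4 : (r₀ : ℝ) + 1 ≤ c / (α * (1 - α)) * (M : ℝ) ^ (1 - α) := by
      rw [div_mul_eq_mul_div, le_div_iff₀ (by positivity)]
      calc ((r₀ : ℝ) + 1) * (α * (1 - α)) = c * (((r₀ : ℝ) + 1) * (α * (1 - α) / c)) := by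
            field_simp
        _ ≤ c * (M : ℝ) ^ (1 - α) := by gcongr
    calc _ ≤ c / (α * (1 - α)) * (M : ℝ) ^ (1 - α)
          + 2 * (c / α) * ((M : ℝ) ^ (1 - α) / (1 - α)) := add_le_add (h2.trans h4) h3
      _ = 3 * c / (α * (1 - α)) * (M : ℝ) ^ (1 - α) := by field_simp; ring
  · have := hr₀ M hMr
    have e2 : (1 + 1 : ℝ) = 2 := by norm_num
    rw [e2] at this
    linarith

/-- **Lower bound for the mass of the windows**, jumps of size at most `L`. -/
theorem ren_win (hα : 0 < α) (hα1 : α < 1) (hα16 : 1 - α ≤ 1 / 16) (hc : 0 < c)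
    (hK : IsLaw α c K) :
    ∀ᶠ L : ℕ in atTop, ∀ A M : ℕ, 16 * (1 - α) * (A : ℝ) ≤ L → 2 * (1 - α) * (M : ℝ) ≤ L → L ≤ M →
      (M : ℝ) * (α * (1 - α)) / (8 * c * (L : ℝ) ^ (1 - α))
        ≤ ∑ y ∈ Ico A (A + L + M), rf (kTr K L) y := by
  have h1α : 0 < 1 - α := by linarith
  filter_upwards [hK.tailsum hα hα1 hc, eventually_gt_atTop 0] with L hL hL0 A M hA hM hLM
  obtain ⟨g1, g2, g3⟩ := hL
  have hL0' : (0 : ℝ) < L := by exact_mod_cast hL0
  have hpp : 0 < (L : ℝ) ^ (1 - α) := Real.rpow_pos_of_pos hL0' _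
  have hpm : (L : ℝ) ^ (-α) = (L : ℝ) ^ (1 - α) / L := by
    rw [sub_eq_add_neg, Real.rpow_add hL0', Real.rpow_one]; field_simp
  have hk0 : ∀ n, 0 ≤ kTr K L n := by
    intro n; unfold kTr; split_ifs
    · exact hK.nonneg n
    · exact le_rfl
  have hkle : ∀ n, kTr K L n ≤ K n := by
    intro n; unfold kTr; split_ifs
    · exact le_rfl
    · exact hK.nonneg n
  have hKs : ∀ R, ∑ n ∈ Ioc 0 R, K n ≤ 1 := fun R =>
    (hK.sum.summable.sum_le_tsum _ (fun n _ => hK.nonneg n)).trans hK.sum.tsum_eq.le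
  have hk1 : ∀ R, ∑ n ∈ Ioc 0 R, kTr K L n ≤ 1 := fun R =>
    (sum_le_sum fun n _ => hkle n).trans (hKs R)
  have hkL : ∀ n, L < n → kTr K L n = 0 := by
    intro n hn; unfold kTr; rw [if_neg (by omega)]
  have hkeq : ∀ r, r ≤ L → ∑ n ∈ Ioc 0 r, kTr K L n = ∑ n ∈ Ioc 0 r, K n := by
    intro r hr
    refine sum_congr rfl fun n hn => ?_
    rw [mem_Ioc] at hn
    unfold kTr; rw [if_pos (by omega)]
  have hkeq2 : ∀ r, L ≤ r → ∑ n ∈ Ioc 0 r, kTr K L n = ∑ n ∈ Ioc 0 L, K n := by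
    intro r hr
    rw [← hkeq L le_rfl]
    refine (sum_subset ?_ ?_).symm
    · intro n; simp only [mem_Ioc]; omega
    · intro n hn hn'
      simp only [mem_Ioc] at hn hn'
      exact hkL n (by omega)
  have hrf := rf_nonneg hk0
  set kL : ℝ := 1 - ∑ n ∈ Ioc 0 L, K n with hkLd
  have hkL0 : 0 ≤ kL := by linarith [hKs L]
  have hgt : ∀ (B : ℕ), L ≤ B → ∑ r ∈ range L, (1 - ∑ z ∈ Ioc 0 r, K z)
      ≤ ∑ r ∈ range B, (1 - ∑ z ∈ Ioc 0 r, kTr K L z) := by
    intro B hB
    calc ∑ r ∈ range L, (1 - ∑ z ∈ Ioc 0 r, K z)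
        = ∑ r ∈ range L, (1 - ∑ z ∈ Ioc 0 r, kTr K L z) := by
          refine sum_congr rfl fun r hr => ?_
          rw [mem_range] at hr
          rw [hkeq r hr.le]
      _ ≤ _ := sum_le_sum_of_subset_of_nonneg (range_subset_range.2 hB)
          (fun r _ _ => by linarith [hk1 r])
  -- the killing
  have hkill : kL * ∑ n ∈ range A, rf (kTr K L) n ≤ 1 / 2 := by
    set A' : ℕ := max A L with hA'
    have h1 := rf_wald_up hk0 hk1 A'
    have h2 := hgt A' (le_max_right _ _)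
    set U' := ∑ n ∈ range A', rf (kTr K L) n with hU'
    have hU'0 : 0 ≤ U' := sum_nonneg fun n _ => hrf n
    have h3 : U' * (c / (2 * (α * (1 - α))) * (L : ℝ) ^ (1 - α)) ≤ 2 * A' :=
      (mul_le_mul_of_nonneg_left (g1.trans h2) hU'0).trans h1
    have h4 : ∑ n ∈ range A, rf (kTr K L) n ≤ U' :=
      sum_le_sum_of_subset_of_nonneg (range_subset_range.2 (le_max_left _ _)) (fun n _ _ => hrf n)
    have h5 : 16 * (1 - α) * (A' : ℝ) ≤ L := by
      rcases le_total A L with h | h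
      · rw [hA', max_eq_right h]
        calc 16 * (1 - α) * (L : ℝ) ≤ 1 * L := by gcongr; linarith
          _ = L := one_mul _
      · rw [hA', max_eq_left h]; exact hA
    have h6 : kL * U' ≤ 1 / 2 := by
      have e1 : kL * U' ≤ 2 * (c / α) * ((L : ℝ) ^ (1 - α) / L) * U' := by
        rw [← hpm]
        exact mul_le_mul_of_nonneg_right g3 hU'0
      have e2 : 2 * (c / α) * ((L : ℝ) ^ (1 - α) / L) * U'
          = (U' * (c / (2 * (α * (1 - α))) * (L : ℝ) ^ (1 - α))) * (4 * (1 - α) / L) := by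
        field_simp; ring
      rw [e2] at e1
      refine e1.trans ((mul_le_mul_of_nonneg_right h3 (by positivity)).trans ?_)
      rw [mul_div_assoc', div_le_div_iff₀ hL0' (by norm_num)]
      linarith
    exact (mul_le_mul_of_nonneg_left h4 hkL0).trans h6
  -- the mass
  have hmass : (M : ℝ) * (α * (1 - α)) / (4 * c * (L : ℝ) ^ (1 - α))
      ≤ ∑ n ∈ range M, rf (kTr K L) n := by
    have h1 := rf_wald hk0 hk1 M
    set U := ∑ n ∈ range M, rf (kTr K L) n with hU
    have hU0 : 0 ≤ U := sum_nonneg fun n _ => hrf n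
    have h2 : ∑ r ∈ range M, (1 - ∑ z ∈ Ioc 0 r, kTr K L z)
        ≤ 4 * c / (α * (1 - α)) * (L : ℝ) ^ (1 - α) := by
      rw [range_eq_Ico, ← sum_Ico_consecutive _ (Nat.zero_le L) hLM]
      have e1 : ∑ r ∈ Ico 0 L, (1 - ∑ z ∈ Ioc 0 r, kTr K L z)
          = ∑ r ∈ range L, (1 - ∑ z ∈ Ioc 0 r, K z) := by
        rw [range_eq_Ico]
        refine sum_congr rfl fun r hr => ?_
        rw [mem_Ico] at hr
        rw [hkeq r hr.2.le]
      have e2 : ∑ r ∈ Ico L M, (1 - ∑ z ∈ Ioc 0 r, kTr K L z) ≤ M * kL := by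
        have : ∑ r ∈ Ico L M, (1 - ∑ z ∈ Ioc 0 r, kTr K L z) = ∑ r ∈ Ico L M, kL := by
          refine sum_congr rfl fun r hr => ?_
          rw [mem_Ico] at hr
          rw [hkeq2 r hr.1]
        rw [this, sum_const, Nat.card_Ico, nsmul_eq_mul]
        have : ((M - L : ℕ) : ℝ) ≤ M := by exact_mod_cast Nat.sub_le M L
        gcongr
      have e3 : (M : ℝ) * kL ≤ c / (α * (1 - α)) * (L : ℝ) ^ (1 - α) := by
        calc (M : ℝ) * kL ≤ M * (2 * (c / α) * ((L : ℝ) ^ (1 - α) / L)) := by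
              rw [← hpm]; gcongr
          _ = (2 * (1 - α) * M) * (c / (α * (1 - α)) * (L : ℝ) ^ (1 - α) / L) := by
              field_simp
          _ ≤ L * (c / (α * (1 - α)) * (L : ℝ) ^ (1 - α) / L) := by gcongr
          _ = c / (α * (1 - α)) * (L : ℝ) ^ (1 - α) := by field_simp
      rw [e1]
      calc _ ≤ 3 * c / (α * (1 - α)) * (L : ℝ) ^ (1 - α) + c / (α * (1 - α)) * (L : ℝ) ^ (1 - α) :=
            add_le_add g2 (e2.trans e3)
        _ = _ := by ring
    have h3 : (M : ℝ) ≤ U * (4 * c / (α * (1 - α)) * (L : ℝ) ^ (1 - α)) :=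
      h1.trans (mul_le_mul_of_nonneg_left h2 hU0)
    rw [div_le_iff₀ (by positivity)]
    calc (M : ℝ) * (α * (1 - α)) ≤ (U * (4 * c / (α * (1 - α)) * (L : ℝ) ^ (1 - α))) * (α * (1 - α)) := by
          gcongr
      _ = U * (4 * c * (L : ℝ) ^ (1 - α)) := by field_simp
  have hw := rf_window hk0 hkL A M
  rw [hkeq L le_rfl] at hw
  refine le_trans ?_ hw
  have hm0 : 0 ≤ (M : ℝ) * (α * (1 - α)) / (4 * c * (L : ℝ) ^ (1 - α)) := by positivity
  calc (M : ℝ) * (α * (1 - α)) / (8 * c * (L : ℝ) ^ (1 - α))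
      = (1 / 2) * ((M : ℝ) * (α * (1 - α)) / (4 * c * (L : ℝ) ^ (1 - α))) := by
        field_simp; ring
    _ ≤ (1 - kL * ∑ n ∈ range A, rf (kTr K L) n) * ∑ n ∈ range M, rf (kTr K L) n :=
        mul_le_mul (by linarith) hmass hm0 (by linarith)

end Pool.Agent.Cop

end
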