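import Mathlib
import Pool.Agent.Work.MP_cceb86_pr.LRenT
import Pool.Agent.Work.MP_cceb86_pr.LDet

/-!
Stretches with short excursions only: bounds in a fixed environment.
-/

open Finset Real Filter Topology
open scoped ENNReal

noncomputable section

namespace Pool.Agent.Cop

variable {α c : ℝ} {K : ℕ → ℝ}

/-- weight of an excursion of length at most `L` -/
def kS (K : ℕ → ℝ≥0∞) (L : ℕ) (e : Env) (x y : ℕ) : ℝ≥0∞ :=
  if y - x ≤ L then K (y - x) / 2 * (1 + pI e x y) else 0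

lemma kS_le_kT (Kk : ℕ → ℝ≥0∞) (L : ℕ) (e : Env) (x y : ℕ) : kS Kk L e x y ≤ kT Kk e x y := by
  unfold kS kT
  split_ifs
  · exact le_rfl
  · exact zero_le

lemma MA_kS (Kk : ℕ → ℝ≥0∞) (L x y : ℕ) : MA (Ioc x y) (fun e => kS Kk L e x y) := by
  unfold kS
  by_cases h : y - x ≤ L
  · simpa [h] using MA.const_mul ((MA.const _ 1).add (MA_pI x y)) (Kk (y - x) / 2)
  · simpa [h] using MA.zero _

/-- gauge transformation -/
lemma ren_gauge (a : ℕ → ℕ → ℝ) (f : ℕ → ℝ) (hf : ∀ n, f n ≠ 0) (x y : ℕ) (h : x ≤ y) :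
    ren (fun u v => a u v * (f v / f u)) x y = ren a x y * (f y / f x) := by
  induction y using Nat.strong_induction_on with
  | _ y ih =>
    rcases lt_or_eq_of_le h with h1 | h1
    · rw [ren_right _ h1, ren_right _ h1, sum_mul]
      refine sum_congr rfl fun z hz => ?_
      rw [mem_Ico] at hz
      rw [ih z hz.2 hz.1]
      have := hf z
      have := hf x
      field_simp
    · subst h1
      rw [ren_self, ren_self, div_self (hf x), one_mul]

section Env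

variable {L : ℕ} {g : ℕ → ℝ} {G : ℝ}

/-- the kernel in a positive environment -/
def kSr (K : ℕ → ℝ) (L : ℕ) (g : ℕ → ℝ) (x y : ℕ) : ℝ :=
  if y - x ≤ L then K (y - x) / 2 * (1 + Real.exp (∑ i ∈ Ioc x y, g i)) else 0

lemma kSr_nonneg (hK : ∀ n, 0 ≤ K n) (x y : ℕ) : 0 ≤ kSr K L g x y := by
  unfold kSr
  have := hK (y - x)
  split_ifs
  · positivity
  · exact le_rfl

lemma kS_eq (hK : ∀ n, 0 ≤ K n) (x y : ℕ) :
    kS (Ke K) L (fun i => ENNReal.ofReal (Real.exp (g i))) x y = ENNReal.ofReal (kSr K L g x y) := by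
  unfold kS kSr Ke pI
  have h1 := hK (y - x)
  split_ifs
  · rw [ENNReal.ofReal_mul (by positivity), ENNReal.ofReal_div_of_pos (by norm_num),
      ENNReal.ofReal_ofNat, ENNReal.ofReal_add (by norm_num) (Real.exp_pos _).le,
      ENNReal.ofReal_one, Real.exp_sum, ENNReal.ofReal_prod_of_nonneg
      (fun i _ => (Real.exp_pos _).le)]
  · simp

lemma ren_kS_eq (hK : ∀ n, 0 ≤ K n) (x y : ℕ) :
    ren (kS (Ke K) L (fun i => ENNReal.ofReal (Real.exp (g i)))) x y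
      = ENNReal.ofReal (ren (kSr K L g) x y) := by
  have h1 : kS (Ke K) L (fun i => ENNReal.ofReal (Real.exp (g i)))
      = fun x y => ENNReal.ofReal (kSr K L g x y) := by
    funext x y; exact kS_eq hK x y
  rw [h1, ren_ofReal (a := kSr K L g) (fun x y => kSr_nonneg hK x y)]

/-- the gauge function -/
def gf (g : ℕ → ℝ) (B : ℝ) (n : ℕ) : ℝ := Real.exp (1 / 2 * ∑ i ∈ Ioc 0 n, g i + B * n)

lemma gf_div (g : ℕ → ℝ) (B : ℝ) {x y : ℕ} (h : x ≤ y) :
    gf g B y / gf g B x = Real.exp (1 / 2 * ∑ i ∈ Ioc x y, g i + B * ((y : ℝ) - x)) := by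
  unfold gf
  rw [← Real.exp_sub]
  congr 1
  rw [← sum_Ioc_consecutive g (Nat.zero_le x) h]
  ring

lemma gf_ne (g : ℕ → ℝ) (B : ℝ) (n : ℕ) : gf g B n ≠ 0 := (Real.exp_pos _).ne'

lemma sum_abs_le (hG : ∀ i, |g i| ≤ G) (x y : ℕ) :
    |∑ i ∈ Ioc x y, g i| ≤ G * ((y - x : ℕ) : ℝ) := by
  refine (abs_sum_le_sum_abs _ _).trans ((sum_le_sum fun i _ => hG i).trans (le_of_eq ?_))
  rw [sum_const, Nat.card_Ioc, nsmul_eq_mul, mul_comm]

lemma kSr_up (hK : ∀ n, 0 ≤ K n) (hK0 : K 0 = 0) (hG : ∀ i, |g i| ≤ G) (hG0 : 0 ≤ G) (x y : ℕ) :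
    kSr K L g x y ≤ hom (kTr K L) x y * (gf g (G ^ 2 * L / 8) y / gf g (G ^ 2 * L / 8) x) := by
  unfold kSr hom kTr
  split_ifs with h
  · rcases Nat.lt_or_ge x y with hxy | hxy
    · rw [gf_div _ _ hxy.le]
      have hKn := hK (y - x)
      set S : ℝ := ∑ i ∈ Ioc x y, g i with hS
      have h1 : 1 + Real.exp S = 2 * (Real.exp (S / 2) * Real.cosh (S / 2)) := by
        rw [Real.cosh_eq]
        have e1 : Real.exp (S / 2) * Real.exp (S / 2) = Real.exp S := by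
          rw [← Real.exp_add]; congr 1; ring
        have e2 : Real.exp (S / 2) * Real.exp (-(S / 2)) = 1 := by
          rw [← Real.exp_add]; simp
        calc 1 + Real.exp S = Real.exp (S / 2) * Real.exp (-(S / 2))
              + Real.exp (S / 2) * Real.exp (S / 2) := by rw [e1, e2]
          _ = _ := by ring
      have h2 := Real.cosh_le_exp_half_sq (S / 2)
      have h3 : S ^ 2 ≤ G ^ 2 * L * ((y : ℝ) - x) := by
        have h4 := sum_abs_le hG x y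
        rw [← hS] at h4
        have h5 : ((y - x : ℕ) : ℝ) = (y : ℝ) - x := by rw [Nat.cast_sub hxy.le]
        have h6 : ((y - x : ℕ) : ℝ) ≤ L := by exact_mod_cast h
        have h7 : S ^ 2 ≤ (G * ((y - x : ℕ) : ℝ)) ^ 2 := by
          rw [← sq_abs S]
          exact pow_le_pow_left₀ (abs_nonneg _) h4 2
        calc S ^ 2 ≤ (G * ((y - x : ℕ) : ℝ)) ^ 2 := h7
          _ = G ^ 2 * ((y - x : ℕ) : ℝ) * ((y - x : ℕ) : ℝ) := by ring
          _ ≤ G ^ 2 * L * ((y - x : ℕ) : ℝ) := by gcongr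
          _ = _ := by rw [h5]
      calc K (y - x) / 2 * (1 + Real.exp S)
          = K (y - x) * (Real.exp (S / 2) * Real.cosh (S / 2)) := by rw [h1]; ring
        _ ≤ K (y - x) * (Real.exp (S / 2) * Real.exp ((S / 2) ^ 2 / 2)) := by gcongr
        _ = K (y - x) * Real.exp (S / 2 + S ^ 2 / 8) := by
            rw [← Real.exp_add]; congr 2; ring
        _ ≤ K (y - x) * Real.exp (1 / 2 * S + G ^ 2 * L / 8 * ((y : ℝ) - x)) := by
            gcongr
            · linarith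
            · linarith
    · have h0 : y - x = 0 := by omega
      rw [h0, hK0]; simp
  · simp

lemma kSr_low (hK : ∀ n, 0 ≤ K n) (hK0 : K 0 = 0) (x y : ℕ) :
    hom (kTr K L) x y * (gf g 0 y / gf g 0 x) ≤ kSr K L g x y := by
  unfold kSr hom kTr
  split_ifs with h
  · rcases Nat.lt_or_ge x y with hxy | hxy
    · rw [gf_div _ _ hxy.le]
      have hKn := hK (y - x)
      set S : ℝ := ∑ i ∈ Ioc x y, g i with hS
      have h1 : 2 * Real.exp (S / 2) ≤ 1 + Real.exp S := by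
        have e1 : Real.exp (S / 2) * Real.exp (S / 2) = Real.exp S := by
          rw [← Real.exp_add]; congr 1; ring
        nlinarith [sq_nonneg (Real.exp (S / 2) - 1)]
      calc K (y - x) * Real.exp (1 / 2 * S + 0 * ((y : ℝ) - x))
          = K (y - x) / 2 * (2 * Real.exp (S / 2)) := by
            rw [zero_mul, add_zero, show 1 / 2 * S = S / 2 by ring]; ring
        _ ≤ K (y - x) / 2 * (1 + Real.exp S) := by gcongr
    · have h0 : y - x = 0 := by omega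
      rw [h0, hK0]; simp
  · simp

lemma kTr_nonneg (hK : ∀ n, 0 ≤ K n) (n : ℕ) : 0 ≤ kTr K L n := by
  unfold kTr; split_ifs
  · exact hK n
  · exact le_rfl

/-- upper bound for the renewal function with short excursions -/
lemma ren_kS_up (hK : ∀ n, 0 ≤ K n) (hK0 : K 0 = 0) (hG : ∀ i, |g i| ≤ G) (hG0 : 0 ≤ G)
    {x y : ℕ} (h : x ≤ y) :
    ren (kS (Ke K) L (fun i => ENNReal.ofReal (Real.exp (g i)))) x y
      ≤ ENNReal.ofReal (rf (kTr K L) (y - x) *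
        Real.exp (1 / 2 * ∑ i ∈ Ioc x y, g i + G ^ 2 * L / 8 * ((y : ℝ) - x))) := by
  rw [ren_kS_eq hK]
  refine ENNReal.ofReal_le_ofReal ?_
  refine (ren_mono (fun x y => kSr_nonneg hK x y) (fun x y => kSr_up hK hK0 hG hG0 x y) x y).2.trans ?_
  rw [ren_gauge _ _ (gf_ne g _) x y h, gf_div _ _ h, ren_hom _ h]

/-- lower bound for the renewal function with short excursions -/
lemma ren_kS_low (hK : ∀ n, 0 ≤ K n) (hK0 : K 0 = 0) {x y : ℕ} (h : x ≤ y) :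
    ENNReal.ofReal (rf (kTr K L) (y - x) * Real.exp (1 / 2 * ∑ i ∈ Ioc x y, g i))
      ≤ ren (kS (Ke K) L (fun i => ENNReal.ofReal (Real.exp (g i)))) x y := by
  rw [ren_kS_eq hK]
  refine ENNReal.ofReal_le_ofReal ?_
  have h1 : ∀ x y, 0 ≤ hom (kTr K L) x y * (gf g 0 y / gf g 0 x) := by
    intro x y
    have e1 : 0 ≤ hom (kTr K L) x y := kTr_nonneg hK _
    have e2 : 0 < gf g 0 y := Real.exp_pos _
    have e3 : 0 < gf g 0 x := Real.exp_pos _
    positivity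
  refine le_trans (le_of_eq ?_) (ren_mono h1 (fun x y => kSr_low hK hK0 x y) x y).2
  rw [ren_gauge _ _ (gf_ne g _) x y h, gf_div _ _ h, ren_hom _ h]
  simp

end Env

/-- total weight of the chains of short excursions from the cell `p.1` to the cell
`p.1 + 1 + p.2`, cells of length `L1`. -/
def VS (Kk : ℕ → ℝ≥0∞) (L L1 : ℕ) (p : ℕ × ℕ) (e : Env) : ℝ≥0∞ :=
  ∑ x ∈ Ico (p.1 * L1) ((p.1 + 1) * L1),
    ∑ y ∈ Ico ((p.1 + 1 + p.2) * L1) ((p.1 + 2 + p.2) * L1), ren (kS Kk L e) x y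

lemma VS_MA (Kk : ℕ → ℝ≥0∞) (L L1 : ℕ) (p : ℕ × ℕ) :
    MA (Ioc (p.1 * L1) ((p.1 + 2 + p.2) * L1)) (fun e => VS Kk L L1 p e) := by
  unfold VS
  refine MA.sum _ fun x hx => MA.sum _ fun y hy => (MA_ren (MA_kS Kk L) x y).mono ?_
  rw [mem_Ico] at hx hy
  intro i; simp only [mem_Ioc]; omega

/-- the mass of a pair of cells at distance `j` -/
def Wm (K : ℕ → ℝ) (L L1 j : ℕ) : ℝ :=
  ∑ x ∈ range L1, ∑ y ∈ Ico ((1 + j) * L1) ((2 + j) * L1), rf (kTr K L) (y - x)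

lemma Wm_nonneg (hK : ∀ n, 0 ≤ K n) (L L1 j : ℕ) : 0 ≤ Wm K L L1 j :=
  sum_nonneg fun _ _ => sum_nonneg fun _ _ => rf_nonneg (kTr_nonneg hK) _

lemma Wm_eq (K : ℕ → ℝ) (L L1 : ℕ) (p : ℕ × ℕ) :
    ∑ x ∈ Ico (p.1 * L1) ((p.1 + 1) * L1),
      ∑ y ∈ Ico ((p.1 + 1 + p.2) * L1) ((p.1 + 2 + p.2) * L1), rf (kTr K L) (y - x)
      = Wm K L L1 p.2 := by
  unfold Wm
  have e1 : (p.1 + 1) * L1 = p.1 * L1 + L1 := by ring
  have e2 : (p.1 + 1 + p.2) * L1 = (1 + p.2) * L1 + p.1 * L1 := by ring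
  have e3 : (p.1 + 2 + p.2) * L1 = (2 + p.2) * L1 + p.1 * L1 := by ring
  rw [e1, e2, e3, sum_Ico_eq_sum_range, Nat.add_sub_cancel_left]
  refine sum_congr rfl fun x _ => ?_
  rw [← sum_Ico_add' (fun y => rf (kTr K L) (y - (p.1 * L1 + x)))]
  refine sum_congr rfl fun y _ => ?_
  congr 1
  omega

section VSb

variable {L L1 : ℕ} {g : ℕ → ℝ} {G : ℝ}

/-- the sites of a pair -/
def Ip (L1 : ℕ) (p : ℕ × ℕ) : Finset ℕ := Ioc (p.1 * L1) ((p.1 + 2 + p.2) * L1)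

lemma card_Ip (L1 : ℕ) (p : ℕ × ℕ) : (Ip L1 p).card = (p.2 + 2) * L1 := by
  unfold Ip
  rw [Nat.card_Ioc]
  have : (p.1 + 2 + p.2) * L1 = (p.2 + 2) * L1 + p.1 * L1 := by ring
  omega

/-- the sum over `(x,y]` against the sum over all sites -/
lemma sum_part (hG : ∀ i, |g i| ≤ G) (p : ℕ × ℕ) {x y : ℕ}
    (hx : x ∈ Ico (p.1 * L1) ((p.1 + 1) * L1))
    (hy : y ∈ Ico ((p.1 + 1 + p.2) * L1) ((p.1 + 2 + p.2) * L1)) :
    |∑ i ∈ Ioc x y, g i - ∑ i ∈ Ip L1 p, g i| ≤ G * (2 * L1) := by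
  rw [mem_Ico] at hx hy
  have e1 : (p.1 + 1) * L1 = p.1 * L1 + L1 := by ring
  have e2 : (p.1 + 2 + p.2) * L1 = (p.1 + 1 + p.2) * L1 + L1 := by ring
  have e3 : (p.1 + 1) * L1 ≤ (p.1 + 1 + p.2) * L1 := Nat.mul_le_mul_right _ (by omega)
  have h1 : ∑ i ∈ Ip L1 p, g i = ∑ i ∈ Ioc (p.1 * L1) x, g i + ∑ i ∈ Ioc x y, g i
      + ∑ i ∈ Ioc y ((p.1 + 2 + p.2) * L1), g i := by
    unfold Ip
    rw [sum_Ioc_consecutive _ hx.1 (by omega), sum_Ioc_consecutive _ (by omega) hy.2.le]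
  have h2 : |∑ i ∈ Ioc (p.1 * L1) x, g i| ≤ G * L1 := by
    refine (sum_abs_le hG _ _).trans ?_
    have : 0 ≤ G := (abs_nonneg _).trans (hG 0)
    have h3 : ((x - p.1 * L1 : ℕ) : ℝ) ≤ L1 := by exact_mod_cast (by omega)
    gcongr
  have h3 : |∑ i ∈ Ioc y ((p.1 + 2 + p.2) * L1), g i| ≤ G * L1 := by
    refine (sum_abs_le hG _ _).trans ?_
    have : 0 ≤ G := (abs_nonneg _).trans (hG 0)
    have h3 : (((p.1 + 2 + p.2) * L1 - y : ℕ) : ℝ) ≤ L1 := by exact_mod_cast (by omega)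
    gcongr
  rw [h1]
  have h4 : ∑ i ∈ Ioc x y, g i - (∑ i ∈ Ioc (p.1 * L1) x, g i + ∑ i ∈ Ioc x y, g i
      + ∑ i ∈ Ioc y ((p.1 + 2 + p.2) * L1), g i)
      = -(∑ i ∈ Ioc (p.1 * L1) x, g i + ∑ i ∈ Ioc y ((p.1 + 2 + p.2) * L1), g i) := by ring
  rw [h4, abs_neg]
  refine (abs_add_le _ _).trans ?_
  linarith

/-- **Upper bound in a fixed environment.** -/
theorem VS_up (hK : ∀ n, 0 ≤ K n) (hK0 : K 0 = 0) (hG : ∀ i, |g i| ≤ G) (p : ℕ × ℕ) :
    VS (Ke K) L L1 p (fun i => ENNReal.ofReal (Real.exp (g i)))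
      ≤ ENNReal.ofReal (Wm K L L1 p.2 * Real.exp (1 / 2 * ∑ i ∈ Ip L1 p, g i + G * L1
        + G ^ 2 * L / 8 * (((p.2 : ℝ) + 2) * L1))) := by
  have hG0 : 0 ≤ G := (abs_nonneg _).trans (hG 0)
  have hrf := rf_nonneg (kTr_nonneg (L := L) hK)
  set E : ℝ := Real.exp (1 / 2 * ∑ i ∈ Ip L1 p, g i + G * L1
        + G ^ 2 * L / 8 * (((p.2 : ℝ) + 2) * L1)) with hE
  have h1 : ∀ x ∈ Ico (p.1 * L1) ((p.1 + 1) * L1),
      ∀ y ∈ Ico ((p.1 + 1 + p.2) * L1) ((p.1 + 2 + p.2) * L1),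
      ren (kS (Ke K) L (fun i => ENNReal.ofReal (Real.exp (g i)))) x y
        ≤ ENNReal.ofReal (rf (kTr K L) (y - x) * E) := by
    intro x hx y hy
    have h2 := abs_le.1 (sum_part hG p hx hy)
    have hx' := hx
    have hy' := hy
    rw [mem_Ico] at hx' hy'
    have e3 : (p.1 + 1) * L1 ≤ (p.1 + 1 + p.2) * L1 := Nat.mul_le_mul_right _ (by omega)
    have hxy : x ≤ y := by omega
    refine (ren_kS_up hK hK0 hG hG0 hxy).trans (ENNReal.ofReal_le_ofReal ?_)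
    refine mul_le_mul_of_nonneg_left (Real.exp_le_exp.2 ?_) (hrf _)
    have h3 : (y : ℝ) - x ≤ ((p.2 : ℝ) + 2) * L1 := by
      have h4 : y ≤ (p.2 + 2) * L1 + x := by
        have : (p.1 + 2 + p.2) * L1 = (p.2 + 2) * L1 + p.1 * L1 := by ring
        omega
      have h5 : (y : ℝ) ≤ (((p.2 + 2) * L1 + x : ℕ) : ℝ) := by exact_mod_cast h4
      push_cast at h5
      linarith
    have h4 : G ^ 2 * L / 8 * ((y : ℝ) - x) ≤ G ^ 2 * L / 8 * (((p.2 : ℝ) + 2) * L1) := by gcongr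
    linarith
  unfold VS
  calc _ ≤ ∑ x ∈ Ico (p.1 * L1) ((p.1 + 1) * L1),
      ∑ y ∈ Ico ((p.1 + 1 + p.2) * L1) ((p.1 + 2 + p.2) * L1),
        ENNReal.ofReal (rf (kTr K L) (y - x) * E) :=
        sum_le_sum fun x hx => sum_le_sum fun y hy => h1 x hx y hy
    _ = ENNReal.ofReal (Wm K L L1 p.2 * E) := by
        rw [← Wm_eq K L L1 p, sum_mul, ENNReal.ofReal_sum_of_nonneg]
        · refine sum_congr rfl fun x _ => ?_
          rw [sum_mul, ENNReal.ofReal_sum_of_nonneg]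
          intro y _
          exact mul_nonneg (hrf _) (Real.exp_pos _).le
        · intro x _
          exact mul_nonneg (sum_nonneg fun y _ => hrf _) (Real.exp_pos _).le

/-- **Lower bound in a fixed environment.** -/
theorem VS_low (hK : ∀ n, 0 ≤ K n) (hK0 : K 0 = 0) (hG : ∀ i, |g i| ≤ G) (p : ℕ × ℕ) :
    ENNReal.ofReal (Wm K L L1 p.2 * Real.exp (1 / 2 * ∑ i ∈ Ip L1 p, g i - G * L1))
      ≤ VS (Ke K) L L1 p (fun i => ENNReal.ofReal (Real.exp (g i))) := by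
  have hG0 : 0 ≤ G := (abs_nonneg _).trans (hG 0)
  have hrf := rf_nonneg (kTr_nonneg (L := L) hK)
  set E : ℝ := Real.exp (1 / 2 * ∑ i ∈ Ip L1 p, g i - G * L1) with hE
  have h1 : ∀ x ∈ Ico (p.1 * L1) ((p.1 + 1) * L1),
      ∀ y ∈ Ico ((p.1 + 1 + p.2) * L1) ((p.1 + 2 + p.2) * L1),
      ENNReal.ofReal (rf (kTr K L) (y - x) * E)
        ≤ ren (kS (Ke K) L (fun i => ENNReal.ofReal (Real.exp (g i)))) x y := by
    intro x hx y hy
    have h2 := abs_le.1 (sum_part hG p hx hy)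
    have hx' := hx
    have hy' := hy
    rw [mem_Ico] at hx' hy'
    have e3 : (p.1 + 1) * L1 ≤ (p.1 + 1 + p.2) * L1 := Nat.mul_le_mul_right _ (by omega)
    have hxy : x ≤ y := by omega
    refine le_trans (ENNReal.ofReal_le_ofReal ?_) (ren_kS_low hK hK0 hxy)
    refine mul_le_mul_of_nonneg_left (Real.exp_le_exp.2 ?_) (hrf _)
    linarith
  unfold VS
  calc ENNReal.ofReal (Wm K L L1 p.2 * E) = ∑ x ∈ Ico (p.1 * L1) ((p.1 + 1) * L1),
      ∑ y ∈ Ico ((p.1 + 1 + p.2) * L1) ((p.1 + 2 + p.2) * L1),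
        ENNReal.ofReal (rf (kTr K L) (y - x) * E) := by
        rw [← Wm_eq K L L1 p, sum_mul, ENNReal.ofReal_sum_of_nonneg]
        · refine sum_congr rfl fun x _ => ?_
          rw [sum_mul, ENNReal.ofReal_sum_of_nonneg]
          intro y _
          exact mul_nonneg (hrf _) (Real.exp_pos _).le
        · intro x _
          exact mul_nonneg (sum_nonneg fun y _ => hrf _) (Real.exp_pos _).le
    _ ≤ _ := sum_le_sum fun x hx => sum_le_sum fun y hy => h1 x hx y hy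

end VSb

/-- the pairs of `F` give disjoint families of chains -/
lemma sum_VS_le {Kk : ℕ → ℝ≥0∞} {l0 d0 L L1 : ℕ} (hd0 : 0 < d0) (hl : d0 ≤ l0)
    (F : Finset (ℕ × ℕ)) (hF : ∀ p ∈ F, (p.1 + p.2 + 2) * L1 + d0 ≤ l0) (e : Env) :
    ∑ p ∈ F, VS Kk L L1 p e ≤ Y2 (ren (kT Kk e)) (gs l0 d0 0 l0) (gs l0 d0 0 l0) := by
  classical
  set hh : ℕ → ℕ → ℝ≥0∞ := fun x y => ren (kS Kk L e) x y with hhh
  have hgs : ∀ x, x + d0 ≤ l0 → x ∈ gs l0 d0 0 l0 := by
    intro x hx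
    unfold gs
    rw [mem_filter, mem_Ico]
    refine ⟨⟨Nat.zero_le _, by omega⟩, ?_⟩
    rw [Nat.mod_eq_of_lt (by omega)]
    exact hx
  have e1 : ∀ p ∈ F, VS Kk L L1 p e ≤ ∑ x ∈ gs l0 d0 0 l0, ∑ y ∈ gs l0 d0 0 l0,
      if x ≤ y ∧ x / L1 = p.1 ∧ y / L1 = p.1 + 1 + p.2 then hh x y else 0 := by
    intro p hp
    have hp' := hF p hp
    have h1 : (p.1 + 2 + p.2) * L1 = (p.1 + p.2 + 2) * L1 := by ring
    have h2 : (p.1 + 1) * L1 ≤ (p.1 + 1 + p.2) * L1 := Nat.mul_le_mul_right _ (by omega)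
    have h3 : (p.1 + 1 + p.2) * L1 ≤ (p.1 + p.2 + 2) * L1 := Nat.mul_le_mul_right _ (by omega)
    unfold VS
    have hs1 : Ico (p.1 * L1) ((p.1 + 1) * L1) ⊆ gs l0 d0 0 l0 := by
      intro s hs; rw [mem_Ico] at hs; exact hgs s (by omega)
    refine le_trans ?_ (sum_le_sum_of_subset hs1)
    refine sum_le_sum fun s hs => ?_
    rw [mem_Ico] at hs
    have hs2 : Ico ((p.1 + 1 + p.2) * L1) ((p.1 + 2 + p.2) * L1) ⊆ gs l0 d0 0 l0 := by
      intro t ht; rw [mem_Ico] at ht; exact hgs t (by omega)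
    refine le_trans ?_ (sum_le_sum_of_subset hs2)
    refine sum_le_sum fun t ht => ?_
    rw [mem_Ico] at ht
    rw [if_pos]
    refine ⟨by omega, ?_, ?_⟩
    · exact Nat.div_eq_of_lt_le hs.1 hs.2
    · refine Nat.div_eq_of_lt_le ht.1 ?_
      have : p.1 + 1 + p.2 + 1 = p.1 + 2 + p.2 := by omega
      rw [this]; exact ht.2
  refine (sum_le_sum e1).trans ?_
  unfold Y2
  rw [sum_comm]
  refine sum_le_sum fun s _ => ?_
  rw [sum_comm]
  refine sum_le_sum fun t _ => ?_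
  by_cases hst : s ≤ t
  · rw [if_pos hst, ← sum_filter, sum_const]
    have h4 : (F.filter fun p => s ≤ t ∧ s / L1 = p.1 ∧ t / L1 = p.1 + 1 + p.2).card ≤ 1 := by
      rw [card_le_one]
      rintro ⟨a, b⟩ hab ⟨a', b'⟩ hab'
      simp only [mem_filter] at hab hab'
      rw [Prod.mk.injEq]
      omega
    calc (F.filter fun p => s ≤ t ∧ s / L1 = p.1 ∧ t / L1 = p.1 + 1 + p.2).card • hh s t
        ≤ 1 • hh s t := by
          rw [nsmul_eq_mul, nsmul_eq_mul]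
          gcongr
      _ = hh s t := one_nsmul _
      _ ≤ ren (kT Kk e) s t := by
          simp only [hhh]
          exact (ren_mono (fun _ _ => zero_le) (fun u v => kS_le_kT Kk L e u v) s t).2
  · rw [if_neg hst]
    refine le_of_eq (sum_eq_zero fun p _ => ?_)
    rw [if_neg]
    rintro ⟨h, _⟩
    exact hst h

/-- **Lower bound for the mass.** -/
theorem Wm_low (hα : 0 < α) (hα1 : α < 1) (hα16 : 1 - α ≤ 1 / 16) (hc : 0 < c)
    (hK : IsLaw α c K) :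
    ∀ᶠ L : ℕ in atTop, ∀ L1 j : ℕ, 16 * (1 - α) * (((j : ℝ) + 1) * L1) ≤ L → 2 * L ≤ L1 →
      (α * (1 - α)) / (16 * c) * (L1 : ℝ) ^ (1 + α) ≤ Wm K L L1 j := by
  have h1α : 0 < 1 - α := by linarith
  filter_upwards [ren_win hα hα1 hα16 hc hK, eventually_gt_atTop 0] with L hw hL0 L1 j hj hL1
  have hL0' : (0 : ℝ) < L := by exact_mod_cast hL0
  have hL1' : (0 : ℝ) < L1 := by
    have : 0 < L1 := by omega
    exact_mod_cast this
  set M : ℕ := L1 - L with hM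
  have hrow : ∀ x ∈ range L1, (M : ℝ) * (α * (1 - α)) / (8 * c * (L : ℝ) ^ (1 - α))
      ≤ ∑ y ∈ Ico ((1 + j) * L1) ((2 + j) * L1), rf (kTr K L) (y - x) := by
    intro x hx
    rw [mem_range] at hx
    have e0 : L1 ≤ (1 + j) * L1 := Nat.le_mul_of_pos_left _ (by omega)
    set A : ℕ := (1 + j) * L1 - x with hA
    have hAR : (A : ℝ) ≤ ((j : ℝ) + 1) * L1 := by
      have : A ≤ (1 + j) * L1 := Nat.sub_le _ _
      have : (A : ℝ) ≤ (((1 + j) * L1 : ℕ) : ℝ) := by exact_mod_cast this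
      push_cast at this
      linarith
    have hMR : (M : ℝ) ≤ ((j : ℝ) + 1) * L1 := by
      have h1 : (M : ℝ) ≤ L1 := by exact_mod_cast Nat.sub_le _ _
      have h2 : (0 : ℝ) ≤ j := Nat.cast_nonneg _
      nlinarith
    have h1 := hw A M (by
      refine le_trans ?_ hj
      gcongr) (by
      refine le_trans ?_ hj
      have h3 : 0 ≤ (1 - α) * M := by positivity
      calc 2 * (1 - α) * (M : ℝ) ≤ 16 * (1 - α) * M := by nlinarith
        _ ≤ _ := by gcongr) (by omega)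
    refine h1.trans (le_of_eq ?_)
    have e1 : (1 + j) * L1 = A + x := by omega
    have e2 : (2 + j) * L1 = (A + L + M) + x := by
      have : (2 + j) * L1 = (1 + j) * L1 + L1 := by ring
      omega
    rw [e1, e2, ← sum_Ico_add' (fun y => rf (kTr K L) (y - x))]
    refine sum_congr rfl fun y _ => ?_
    rw [Nat.add_sub_cancel]
  have h2 : (L1 : ℝ) / 2 ≤ M := by
    have : L1 ≤ 2 * M := by omega
    have : (L1 : ℝ) ≤ 2 * M := by exact_mod_cast this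
    linarith
  have h3 : (L : ℝ) ^ (1 - α) ≤ (L1 : ℝ) ^ (1 - α) := by
    refine Real.rpow_le_rpow hL0'.le ?_ h1α.le
    exact_mod_cast (by omega)
  have h4 : (L1 : ℝ) ^ (1 + α) = L1 * L1 / (L1 : ℝ) ^ (1 - α) := by
    rw [eq_div_iff (Real.rpow_pos_of_pos hL1' _).ne', ← Real.rpow_add hL1']
    have : 1 + α + (1 - α) = (2 : ℕ) := by push_cast; ring
    rw [this, Real.rpow_natCast]; ring
  have hp1 : 0 < (L : ℝ) ^ (1 - α) := Real.rpow_pos_of_pos hL0' _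
  have hp2 : 0 < (L1 : ℝ) ^ (1 - α) := Real.rpow_pos_of_pos hL1' _
  unfold Wm
  calc α * (1 - α) / (16 * c) * (L1 : ℝ) ^ (1 + α)
      = L1 * (((L1 : ℝ) / 2) * (α * (1 - α)) / (8 * c * (L1 : ℝ) ^ (1 - α))) := by
        rw [h4]; field_simp; ring
    _ ≤ L1 * ((M : ℝ) * (α * (1 - α)) / (8 * c * (L : ℝ) ^ (1 - α))) := by gcongr
    _ = ∑ x ∈ range L1, (M : ℝ) * (α * (1 - α)) / (8 * c * (L : ℝ) ^ (1 - α)) := by
        rw [sum_const, card_range, nsmul_eq_mul]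
    _ ≤ _ := sum_le_sum hrow

end Pool.Agent.Cop

end
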