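import Mathlib

/-!
A deterministic lower bound for a power of a sum, in terms of the powers of the terms.
-/

open Finset

noncomputable section

namespace Pool.Agent.Cop

/-- `(∑ v)^a ≤ ∑ v^a` for `0 < a ≤ 1` -/
lemma rpow_sum_le_real {ι : Type*} (F : Finset ι) (v : ι → ℝ) (hv : ∀ i ∈ F, 0 ≤ v i) {a : ℝ}
    (ha : 0 < a) (ha1 : a ≤ 1) : (∑ i ∈ F, v i) ^ a ≤ ∑ i ∈ F, v i ^ a := by
  classical
  induction F using Finset.induction_on with
  | empty => simp [Real.zero_rpow ha.ne']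
  | insert i F hi ih =>
    rw [sum_insert hi, sum_insert hi]
    have h1 : 0 ≤ v i := hv i (mem_insert_self _ _)
    have h2 : 0 ≤ ∑ x ∈ F, v x := sum_nonneg fun x hx => hv x (mem_insert_of_mem hx)
    have h3 := ih fun x hx => hv x (mem_insert_of_mem hx)
    exact (Real.rpow_add_le_add_rpow h1 h2 ha.le ha1).trans (by linarith)

/-- one term of the lower bound -/
lemma split_one {ι : Type*} (F : Finset ι) (v : ι → ℝ) (hv : ∀ i ∈ F, 0 < v i)
    {γ θ T lo hi : ℝ} (hγ0 : 0 < γ) (hγ1 : γ ≤ 1) (hθ : 0 < θ) (hθ1 : θ < 1)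
    (hlo : 0 < lo) (hhi : 0 < hi) {i : ι} (hi' : i ∈ F) :
    v i ^ γ - Real.exp (-(γ * T / 2)) * ∑ i' ∈ F, v i ^ (γ / 2) * v i' ^ (γ / 2)
        - lo ^ θ * v i ^ (γ * (1 - θ))
        - (hi * Real.exp (-(γ * T))) ^ (-θ) * v i ^ (γ * (1 + θ))
      ≤ if ∑ i' ∈ F, v i' ≤ Real.exp T * v i ∧ lo ≤ v i ^ γ ∧
          v i ^ γ < hi * Real.exp (-(γ * T)) then v i ^ γ else 0 := by
  have hvi := hv i hi'
  set S : ℝ := ∑ i' ∈ F, v i' with hS
  have hS0 : 0 < S := sum_pos hv ⟨i, hi'⟩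
  have hu : 0 < v i ^ γ := Real.rpow_pos_of_pos hvi _
  have e1 : 0 ≤ Real.exp (-(γ * T / 2)) * ∑ i' ∈ F, v i ^ (γ / 2) * v i' ^ (γ / 2) := by
    refine mul_nonneg (Real.exp_pos _).le (sum_nonneg fun x hx => ?_)
    have := hv x hx
    positivity
  have e2 : 0 ≤ lo ^ θ * v i ^ (γ * (1 - θ)) := by positivity
  have e3 : 0 ≤ (hi * Real.exp (-(γ * T))) ^ (-θ) * v i ^ (γ * (1 + θ)) := by positivity
  split_ifs with hc
  · linarith
  · rw [not_and_or, not_and_or] at hc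
    rcases hc with h | h | h
    · push Not at h
      have h1 : v i ^ γ ≤ Real.exp (-(γ * T / 2)) * ∑ i' ∈ F, v i ^ (γ / 2) * v i' ^ (γ / 2) := by
        rw [← mul_sum]
        have h2 : S ^ (γ / 2) ≤ ∑ i' ∈ F, v i' ^ (γ / 2) :=
          rpow_sum_le_real F v (fun x hx => (hv x hx).le) (by positivity) (by linarith)
        have h3 : Real.exp (γ * T / 2) * v i ^ (γ / 2) ≤ S ^ (γ / 2) := by
          have h4 : (Real.exp T * v i) ^ (γ / 2) ≤ S ^ (γ / 2) :=
            Real.rpow_le_rpow (by positivity) h.le (by positivity)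
          rw [Real.mul_rpow (Real.exp_pos _).le hvi.le, ← Real.exp_mul] at h4
          rwa [show T * (γ / 2) = γ * T / 2 by ring] at h4
        have h5 : v i ^ γ = v i ^ (γ / 2) * v i ^ (γ / 2) := by
          rw [← Real.rpow_add hvi]; congr 1; ring
        calc v i ^ γ = Real.exp (-(γ * T / 2)) * (v i ^ (γ / 2) * (Real.exp (γ * T / 2)
              * v i ^ (γ / 2))) := by
              rw [h5, Real.exp_neg]
              have := Real.exp_pos (γ * T / 2)
              field_simp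
          _ ≤ Real.exp (-(γ * T / 2)) * (v i ^ (γ / 2) * S ^ (γ / 2)) := by gcongr
          _ ≤ Real.exp (-(γ * T / 2)) * (v i ^ (γ / 2) * ∑ i' ∈ F, v i' ^ (γ / 2)) := by gcongr
      linarith
    · push Not at h
      have h1 : v i ^ γ ≤ lo ^ θ * v i ^ (γ * (1 - θ)) := by
        have h2 : (v i ^ γ) ^ θ ≤ lo ^ θ := Real.rpow_le_rpow hu.le h.le hθ.le
        calc v i ^ γ = (v i ^ γ) ^ θ * v i ^ (γ * (1 - θ)) := by
              rw [← Real.rpow_mul hvi.le, ← Real.rpow_add hvi]; congr 1; ring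
          _ ≤ lo ^ θ * v i ^ (γ * (1 - θ)) := by gcongr
      linarith
    · push Not at h
      have h0 : 0 < hi * Real.exp (-(γ * T)) := by positivity
      have h1 : v i ^ γ ≤ (hi * Real.exp (-(γ * T))) ^ (-θ) * v i ^ (γ * (1 + θ)) := by
        have h2 : (hi * Real.exp (-(γ * T))) ^ θ ≤ (v i ^ γ) ^ θ := Real.rpow_le_rpow h0.le h hθ.le
        have h3 : 0 < (hi * Real.exp (-(γ * T))) ^ θ := Real.rpow_pos_of_pos h0 _
        rw [Real.rpow_neg h0.le]
        calc v i ^ γ = ((hi * Real.exp (-(γ * T))) ^ θ)⁻¹ *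
              (v i ^ γ * (hi * Real.exp (-(γ * T))) ^ θ) := by field_simp
          _ ≤ ((hi * Real.exp (-(γ * T))) ^ θ)⁻¹ * (v i ^ γ * (v i ^ γ) ^ θ) := by gcongr
          _ = ((hi * Real.exp (-(γ * T))) ^ θ)⁻¹ * v i ^ (γ * (1 + θ)) := by
              rw [← Real.rpow_mul hvi.le, ← Real.rpow_add hvi]
              congr 2; ring
      linarith

/-- **The lower bound.** -/
lemma split_low {ι : Type*} (F B : Finset ι) (hBF : B ⊆ F) (v : ι → ℝ) (hv : ∀ i ∈ F, 0 < v i)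
    {γ θ T lo hi : ℝ} (hγ0 : 0 < γ) (hγ1 : γ ≤ 1) (hθ : 0 < θ) (hθ1 : θ < 1)
    (hlo : 0 < lo) (hhi : 0 < hi) :
    ∑ i ∈ B, (v i ^ γ - Real.exp (-(γ * T / 2)) * ∑ i' ∈ F, v i ^ (γ / 2) * v i' ^ (γ / 2)
        - lo ^ θ * v i ^ (γ * (1 - θ))
        - (hi * Real.exp (-(γ * T))) ^ (-θ) * v i ^ (γ * (1 + θ)))
      ≤ Real.exp ((1 - γ) * T) * (if lo ≤ (∑ i ∈ F, v i) ^ γ ∧ (∑ i ∈ F, v i) ^ γ < hi
          then (∑ i ∈ F, v i) ^ γ else 0) := by
  classical
  set S : ℝ := ∑ i' ∈ F, v i' with hS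
  refine (sum_le_sum fun i hi' => split_one F v hv hγ0 hγ1 hθ hθ1 hlo hhi (hBF hi')
    (T := T)).trans ?_
  rw [← hS]
  set B' : Finset ι := B.filter (fun i => S ≤ Real.exp T * v i ∧ lo ≤ v i ^ γ ∧
          v i ^ γ < hi * Real.exp (-(γ * T))) with hB'
  rw [← sum_filter, ← hB']
  rcases B'.eq_empty_or_nonempty with he | hne
  · rw [he, sum_empty]
    have hS0 : 0 ≤ S := sum_nonneg fun i hi => (hv i hi).le
    split_ifs <;> positivity
  · obtain ⟨i₀, hi₀⟩ := hne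
    have hi₀' := hi₀
    rw [hB', mem_filter] at hi₀'
    obtain ⟨hiB, h1, h2, h3⟩ := hi₀'
    have hiF := hBF hiB
    have hvi := hv i₀ hiF
    have hS0 : 0 < S := sum_pos hv ⟨i₀, hiF⟩
    have hvS : v i₀ ≤ S := single_le_sum (fun x hx => (hv x hx).le) hiF
    have hlo' : lo ≤ S ^ γ := h2.trans (Real.rpow_le_rpow hvi.le hvS hγ0.le)
    have hhi' : S ^ γ < hi := by
      calc S ^ γ ≤ (Real.exp T * v i₀) ^ γ := Real.rpow_le_rpow hS0.le h1 hγ0.le
        _ = Real.exp (γ * T) * v i₀ ^ γ := by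
            rw [Real.mul_rpow (Real.exp_pos _).le hvi.le, ← Real.exp_mul, mul_comm T]
        _ < Real.exp (γ * T) * (hi * Real.exp (-(γ * T))) := by gcongr
        _ = hi := by rw [Real.exp_neg]; field_simp
    rw [if_pos ⟨hlo', hhi'⟩]
    have hterm : ∀ i ∈ B', v i ^ γ ≤ Real.exp ((1 - γ) * T) * (v i * S ^ (γ - 1)) := by
      intro i hi
      rw [hB', mem_filter] at hi
      obtain ⟨hiB, h1, _, _⟩ := hi
      have hvi := hv i (hBF hiB)
      have e1 : (Real.exp T * v i) ^ (γ - 1) ≤ S ^ (γ - 1) :=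
        Real.rpow_le_rpow_of_nonpos hS0 h1 (by linarith)
      rw [Real.mul_rpow (Real.exp_pos _).le hvi.le, ← Real.exp_mul] at e1
      have e2 : v i ^ γ = v i * v i ^ (γ - 1) := by
        rw [mul_comm, ← Real.rpow_add_one hvi.ne']; congr 1; ring
      have e3 : Real.exp ((1 - γ) * T) * Real.exp (T * (γ - 1)) = 1 := by
        rw [← Real.exp_add, ← Real.exp_zero]; congr 1; ring
      calc v i ^ γ = v i * (Real.exp ((1 - γ) * T) * (Real.exp (T * (γ - 1)) * v i ^ (γ - 1))) := by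
            rw [e2, ← mul_assoc (Real.exp _), e3, one_mul]
        _ ≤ v i * (Real.exp ((1 - γ) * T) * S ^ (γ - 1)) := by gcongr
        _ = _ := by ring
    refine (sum_le_sum hterm).trans ?_
    rw [← mul_sum, ← sum_mul]
    refine mul_le_mul_of_nonneg_left ?_ (Real.exp_pos _).le
    have e4 : S ^ γ = S * S ^ (γ - 1) := by
      rw [mul_comm, ← Real.rpow_add_one hS0.ne']; congr 1; ring
    rw [e4]
    refine mul_le_mul_of_nonneg_right ?_ (Real.rpow_nonneg hS0.le _)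
    refine sum_le_sum_of_subset_of_nonneg ?_ (fun i hi _ => (hv i hi).le)
    exact (filter_subset _ _).trans hBF

end Pool.Agent.Cop

end
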