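import Mathlib
import Pool.Agent.Work.MP_cceb86_pr.LDefs

/-!
The quadratic form of the exponents.
-/

open Finset
open scoped ENNReal

noncomputable section

namespace Pool.Agent.Cop

/-- exponent of the moment generating function, in units of `λ²` -/
def qf (m : ℝ) (N : ℕ) (Φ : ℕ → ℝ) : ℝ := ∑ x ∈ range N, (2 * Φ x ^ 2 - 2 * m * Φ x)

section Zones

variable {Kk : ℕ → ℝ≥0∞} {l0 d0 L : ℕ} {F : Finset (ℕ × ℕ)} {W : ℕ → ℝ} {φ : ℕ × ℕ → ℕ → ℝ}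

/-- the contribution of the zones of a pair -/
lemma zone_le (hB : BaseDet Kk l0 d0 L F W φ) {p : ℕ × ℕ} (hp : p ∈ F)
    (hpl : (p.1 + 2 + p.2) * L < l0) {g : ℝ → ℝ} {G : ℝ} (hG : 0 ≤ G)
    (hg : ∀ t, 0 ≤ t → t ≤ 1 → g t ≤ G * t) :
    ∑ x ∈ range l0, g (φ p x) ≤ g 1 * (p.2 * L) + 3 * G * L := by
  classical
  set I : Finset ℕ := Ioc ((p.1 + 1) * L) ((p.1 + 1 + p.2) * L) with hI
  set Z : Finset ℕ := Ioc (p.1 * L) ((p.1 + 2 + p.2) * L) with hZ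
  have e1 : (p.1 + 1) * L = p.1 * L + L := by ring
  have e2 : (p.1 + 1 + p.2) * L = p.1 * L + L + p.2 * L := by ring
  have e3 : (p.1 + 2 + p.2) * L = p.1 * L + L + p.2 * L + L := by ring
  have hIZ : I ⊆ Z := by
    intro x; simp only [hI, hZ, mem_Ioc, e1, e2, e3]; omega
  have hZr : Z ⊆ range l0 := by
    intro x; simp only [hZ, mem_Ioc, mem_range]; omega
  have h1 : ∑ x ∈ range l0 \ Z, g (φ p x) ≤ G * L := by
    calc ∑ x ∈ range l0 \ Z, g (φ p x) ≤ ∑ x ∈ range l0 \ Z, G * φ p x :=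
          sum_le_sum fun x _ => hg _ (hB.nn p hp x) (hB.le1 p hp x)
      _ = G * ∑ x ∈ range l0 \ Z, φ p x := by rw [mul_sum]
      _ ≤ G * L := by
          have := hB.out p hp
          gcongr
  have h2 : ∑ x ∈ Z \ I, g (φ p x) ≤ 2 * G * L := by
    have hc : ((Z \ I).card : ℝ) = 2 * L := by
      rw [card_sdiff_of_subset hIZ, hZ, hI, Nat.card_Ioc, Nat.card_Ioc, e1, e2, e3]
      have : p.1 * L + L + p.2 * L + L - p.1 * L - (p.1 * L + L + p.2 * L - (p.1 * L + L))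
          = 2 * L := by omega
      rw [this]; push_cast; ring
    calc ∑ x ∈ Z \ I, g (φ p x) ≤ ∑ x ∈ Z \ I, G := by
          refine sum_le_sum fun x _ => ?_
          have := hg _ (hB.nn p hp x) (hB.le1 p hp x)
          have := hB.le1 p hp x
          nlinarith
      _ = 2 * G * L := by rw [sum_const, nsmul_eq_mul, hc]; ring
  have h3 : ∑ x ∈ I, g (φ p x) = g 1 * (p.2 * L) := by
    have hc : ((I.card : ℕ) : ℝ) = p.2 * L := by
      rw [hI, Nat.card_Ioc, e1, e2]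
      have : p.1 * L + L + p.2 * L - (p.1 * L + L) = p.2 * L := by omega
      rw [this]; push_cast; ring
    rw [sum_congr rfl fun x hx => by rw [hB.one p hp x hx], sum_const, nsmul_eq_mul, hc]
    ring
  have h4 : ∑ x ∈ range l0, g (φ p x)
      = ∑ x ∈ range l0 \ Z, g (φ p x) + (∑ x ∈ Z \ I, g (φ p x) + ∑ x ∈ I, g (φ p x)) := by
    rw [sum_sdiff hIZ, sum_sdiff hZr]
  rw [h4, h3]
  linarith

/-- separation, one sided -/
lemma sep_aux (hB : BaseDet Kk l0 d0 L F W φ) {p p' : ℕ × ℕ} (hp : p ∈ F) (hp' : p' ∈ F)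
    (hlt : p.1 ≤ p'.1) (hpl : (p.1 + 2 + p.2) * L < l0)
    {k : ℕ} (hk1 : k ≤ p'.1 - p.1) (hk2 : k ≤ p.2) :
    ((k : ℝ) - 3) * L ≤ ∑ x ∈ range l0, (φ p x - φ p' x) ^ 2 := by
  classical
  rcases Nat.eq_zero_or_pos k with h0 | hk
  · subst h0
    have h1 : 0 ≤ ∑ x ∈ range l0, (φ p x - φ p' x) ^ 2 := sum_nonneg fun x _ => sq_nonneg _
    have h2 : (0 : ℝ) ≤ L := Nat.cast_nonneg _
    push_cast
    linarith
  set D : Finset ℕ := Ioc ((p.1 + 1) * L) ((p.1 + k) * L) with hD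
  have hkL : (p.1 + k) * L ≤ p'.1 * L := Nat.mul_le_mul_right _ (by omega)
  have hkL2 : (p.1 + k) * L ≤ (p.1 + 1 + p.2) * L := Nat.mul_le_mul_right _ (by omega)
  have hkL3 : (p.1 + 1 + p.2) * L ≤ (p.1 + 2 + p.2) * L := Nat.mul_le_mul_right _ (by omega)
  have hD1 : ∀ x ∈ D, φ p x = 1 := by
    intro x hx
    refine hB.one p hp x ?_
    rw [hD, mem_Ioc] at hx
    rw [mem_Ioc]; omega
  have hDr : D ⊆ range l0 := by
    intro x; simp only [hD, mem_Ioc, mem_range]; omega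
  have hDo : D ⊆ range l0 \ Ioc (p'.1 * L) ((p'.1 + 2 + p'.2) * L) := by
    intro x hx
    rw [Finset.mem_sdiff]
    refine ⟨hDr hx, ?_⟩
    rw [hD, mem_Ioc] at hx
    rw [mem_Ioc]; omega
  have h1 : ∑ x ∈ D, φ p' x ≤ L :=
    (sum_le_sum_of_subset_of_nonneg hDo fun x _ _ => hB.nn p' hp' x).trans (hB.out p' hp')
  have hc : ((D.card : ℕ) : ℝ) = ((k : ℝ) - 1) * L := by
    rw [hD, Nat.card_Ioc, Nat.cast_sub (Nat.mul_le_mul_right _ (by omega))]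
    push_cast; ring
  calc ((k : ℝ) - 3) * L = ((k : ℝ) - 1) * L - 2 * L := by ring
    _ ≤ ((k : ℝ) - 1) * L - 2 * ∑ x ∈ D, φ p' x := by linarith
    _ = ∑ x ∈ D, (1 - 2 * φ p' x) := by
        rw [sum_sub_distrib, sum_const, nsmul_eq_mul, hc, ← mul_sum, mul_one]
    _ ≤ ∑ x ∈ D, (φ p x - φ p' x) ^ 2 := by
        refine sum_le_sum fun x hx => ?_
        rw [hD1 x hx]
        nlinarith [sq_nonneg (φ p' x)]
    _ ≤ _ := sum_le_sum_of_subset_of_nonneg hDr fun x _ _ => sq_nonneg _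

/-- separation -/
lemma sep_le (hB : BaseDet Kk l0 d0 L F W φ) {p p' : ℕ × ℕ} (hp : p ∈ F) (hp' : p' ∈ F)
    (hpl : (p.1 + 2 + p.2) * L < l0) (hpl' : (p'.1 + 2 + p'.2) * L < l0)
    {k : ℕ} (hk1 : k ≤ Nat.dist p.1 p'.1) (hk2 : k ≤ p.2) (hk3 : k ≤ p'.2) :
    ((k : ℝ) - 3) * L ≤ ∑ x ∈ range l0, (φ p x - φ p' x) ^ 2 := by
  rcases le_total p.1 p'.1 with h | h
  · rw [Nat.dist_eq_sub_of_le h] at hk1
    exact sep_aux hB hp hp' h hpl hk1 hk2
  · rw [Nat.dist_eq_sub_of_le_right h] at hk1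
    have := sep_aux hB hp' hp h hpl' hk1 hk3
    refine this.trans (le_of_eq (sum_congr rfl fun x _ => by ring))

variable {γ m θ : ℝ}

/-- (a) -/
lemma qf_low (hB : BaseDet Kk l0 d0 L F W φ) {p : ℕ × ℕ} (hp : p ∈ F)
    (hpl : (p.1 + 2 + p.2) * L < l0) (hγ0 : 0 ≤ γ) (hm : 0 ≤ m) (hγm : γ * m ≤ 2) :
    -(2 * γ * (m - γ) * (p.2 * L)) - 12 * L ≤ qf m l0 (fun x => γ * φ p x) := by
  have h := zone_le hB hp hpl (g := fun t => 2 * γ * t * (m - γ * t)) (G := 4) (by norm_num)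
    (by
      intro t ht _
      have h1 : 0 ≤ 2 * γ ^ 2 * t ^ 2 := by positivity
      nlinarith)
  have h2 : qf m l0 (fun x => γ * φ p x)
      = -∑ x ∈ range l0, (2 * γ * φ p x * (m - γ * φ p x)) := by
    unfold qf
    rw [← sum_neg_distrib]
    exact sum_congr rfl fun x _ => by ring
  rw [h2]
  linarith

lemma qf_up (hB : BaseDet Kk l0 d0 L F W φ) {p : ℕ × ℕ} (hp : p ∈ F) (hγ0 : 0 ≤ γ)
    (hγm : γ ≤ m) : qf m l0 (fun x => γ * φ p x) ≤ 0 := by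
  unfold qf
  refine sum_nonpos fun x _ => ?_
  have h1 := hB.nn p hp x
  have h2 := hB.le1 p hp x
  have h3 : γ * φ p x ≤ m := by nlinarith
  have h4 : 0 ≤ γ * φ p x := mul_nonneg hγ0 h1
  nlinarith

/-- (b) -/
lemma qf_pair (hB : BaseDet Kk l0 d0 L F W φ) {p p' : ℕ × ℕ} (hp : p ∈ F) (hp' : p' ∈ F)
    (hpl : (p.1 + 2 + p.2) * L < l0) (hpl' : (p'.1 + 2 + p'.2) * L < l0)
    {k : ℕ} (hk1 : k ≤ Nat.dist p.1 p'.1) (hk2 : k ≤ p.2) (hk3 : k ≤ p'.2)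
    (hγ0 : 0 ≤ γ) (hγm : γ ≤ m) (hγm2 : γ * m ≤ 2) :
    qf m l0 (fun x => γ * (φ p x + φ p' x) / 2)
      ≤ qf m l0 (fun x => γ * φ p x) + (γ * (m - γ) * (p.2 * L) + 6 * L)
        - γ ^ 2 / 2 * (((k : ℝ) - 3) * L) := by
  have h1 := zone_le hB hp hpl (g := fun t => γ * t * (m - γ * t)) (G := 2) (by norm_num)
    (by
      intro t ht _
      have h1 : 0 ≤ γ ^ 2 * t ^ 2 := by positivity
      nlinarith)
  have h2 := sep_le hB hp hp' hpl hpl' hk1 hk2 hk3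
  have h3 : qf m l0 (fun x => γ * (φ p x + φ p' x) / 2)
      = qf m l0 (fun x => γ * φ p x) + ∑ x ∈ range l0, (γ * φ p x * (m - γ * φ p x))
        - ∑ x ∈ range l0, (γ * φ p' x * (m - γ * φ p' x))
        - γ ^ 2 / 2 * ∑ x ∈ range l0, (φ p x - φ p' x) ^ 2 := by
    unfold qf
    rw [mul_sum, ← sum_add_distrib, ← sum_sub_distrib, ← sum_sub_distrib]
    exact sum_congr rfl fun x _ => by ring
  have h4 : 0 ≤ ∑ x ∈ range l0, (γ * φ p' x * (m - γ * φ p' x)) := by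
    refine sum_nonneg fun x _ => ?_
    have h1 := hB.nn p' hp' x
    have h2 := hB.le1 p' hp' x
    have h3 : γ * φ p' x ≤ m := by nlinarith
    have h4 : 0 ≤ γ * φ p' x := mul_nonneg hγ0 h1
    exact mul_nonneg h4 (by linarith)
  have h5 : γ ^ 2 / 2 * (((k : ℝ) - 3) * L)
      ≤ γ ^ 2 / 2 * ∑ x ∈ range l0, (φ p x - φ p' x) ^ 2 := by gcongr
  rw [h3]
  linarith

/-- (c1) -/
lemma qf_dn (hB : BaseDet Kk l0 d0 L F W φ) {p : ℕ × ℕ} (hp : p ∈ F)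
    (hpl : (p.1 + 2 + p.2) * L < l0) (hγ0 : 0 ≤ γ) (hm : 0 ≤ m) (hγm2 : γ * m ≤ 2)
    (hθ : 0 ≤ θ) (hθ1 : θ ≤ 1) :
    qf m l0 (fun x => γ * (1 - θ) * φ p x) ≤ qf m l0 (fun x => γ * φ p x)
      - 2 * γ * θ * (γ * (2 - θ) - m) * (p.2 * L) + 12 * L := by
  have h1 := zone_le hB hp hpl (g := fun t => 2 * γ * θ * t * (m - γ * t * (2 - θ))) (G := 4)
    (by norm_num)
    (by
      intro t ht _
      have h1 : 0 ≤ 2 * γ ^ 2 * θ * t ^ 2 * (2 - θ) := by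
        have : 0 ≤ 2 - θ := by linarith
        positivity
      have h2 : (γ * m) * (θ * t) ≤ 2 * t := by
        have : θ * t ≤ 1 * t := by gcongr
        have h3 : 0 ≤ γ * m := by positivity
        calc (γ * m) * (θ * t) ≤ 2 * (1 * t) := by gcongr
          _ = 2 * t := by ring
      nlinarith)
  have h3 : qf m l0 (fun x => γ * (1 - θ) * φ p x)
      = qf m l0 (fun x => γ * φ p x)
        + ∑ x ∈ range l0, (2 * γ * θ * φ p x * (m - γ * φ p x * (2 - θ))) := by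
    unfold qf
    rw [← sum_add_distrib]
    exact sum_congr rfl fun x _ => by ring
  rw [h3]
  linarith

/-- (c2) -/
lemma qf_upth (hB : BaseDet Kk l0 d0 L F W φ) {p : ℕ × ℕ} (hp : p ∈ F)
    (hpl : (p.1 + 2 + p.2) * L < l0) (hγ0 : 0 ≤ γ) (hγ1 : γ ≤ 1) (hm : 0 ≤ m)
    (hθ : 0 ≤ θ) (hθ1 : θ ≤ 1) :
    qf m l0 (fun x => γ * (1 + θ) * φ p x) ≤ qf m l0 (fun x => γ * φ p x)
      + 2 * γ * θ * (γ * (2 + θ) - m) * (p.2 * L) + 18 * L := by
  have h1 := zone_le hB hp hpl (g := fun t => 2 * γ * θ * t * (γ * t * (2 + θ) - m)) (G := 6)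
    (by norm_num)
    (by
      intro t ht ht1
      have h1 : 0 ≤ 2 * γ * θ * t * m := by positivity
      have h2 : 2 * γ * θ * t * (γ * t * (2 + θ)) ≤ 2 * 1 * 1 * t * (1 * 1 * (2 + 1)) := by
        gcongr
      nlinarith)
  have h3 : qf m l0 (fun x => γ * (1 + θ) * φ p x)
      = qf m l0 (fun x => γ * φ p x)
        + ∑ x ∈ range l0, (2 * γ * θ * φ p x * (γ * φ p x * (2 + θ) - m)) := by
    unfold qf
    rw [← sum_add_distrib]
    exact sum_congr rfl fun x _ => by ring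
  rw [h3]
  linarith

end Zones

end Pool.Agent.Cop

end
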