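import Mathlib
import Pool.Agent.Work.MP_cceb86_pr.LBa
import Pool.Agent.Work.MP_cceb86_pr.LBb

/-!
Lower bound for the mean of the fractional power of a base block.
-/

open Finset MeasureTheory ProbabilityTheory
open scoped ENNReal

noncomputable section

namespace Pool.Agent.Cop

variable {Ω : Type*} [MeasurableSpace Ω] {Q : Measure Ω}

/-- the linear functional -/
def Lf (H : ℕ → Ω → ℝ) (N : ℕ) (Φ : ℕ → ℝ) (ω : Ω) : ℝ := ∑ x ∈ range N, Φ x * H x ω

/-- its moment generating function -/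
def Mg (Q : Measure Ω) (H : ℕ → Ω → ℝ) (N : ℕ) (Φ : ℕ → ℝ) : ℝ := ∫ ω, Real.exp (Lf H N Φ ω) ∂Q

/-- two sided bounds for the moment generating functions -/
structure MgfB (Q : Measure Ω) (H : ℕ → Ω → ℝ) (N : ℕ) (lam m err : ℝ) : Prop where
  meas : ∀ x, Measurable (H x)
  intg : ∀ Φ : ℕ → ℝ, (∀ x, 0 ≤ Φ x) → (∀ x, Φ x ≤ 2) →
    Integrable (fun ω => Real.exp (Lf H N Φ ω)) Q
  low : ∀ Φ : ℕ → ℝ, (∀ x, 0 ≤ Φ x) → (∀ x, Φ x ≤ 2) →
    Real.exp (lam ^ 2 * qf m N Φ - err) ≤ Mg Q H N Φ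
  up : ∀ Φ : ℕ → ℝ, (∀ x, 0 ≤ Φ x) → (∀ x, Φ x ≤ 2) →
    Mg Q H N Φ ≤ Real.exp (lam ^ 2 * qf m N Φ + err)

/-- the fractional power of the sum over the pairs -/
def XX0 (H : ℕ → Ω → ℝ) (N : ℕ) (F : Finset (ℕ × ℕ)) (c : ℕ × ℕ → ℝ) (φ : ℕ × ℕ → ℕ → ℝ) (γ : ℝ)
    (ω : Ω) : ℝ := (∑ i ∈ F, c i ^ (1 / γ) * Real.exp (Lf H N (φ i) ω)) ^ γ

lemma Lf_meas {H : ℕ → Ω → ℝ} (hH : ∀ x, Measurable (H x)) (N : ℕ) (Φ : ℕ → ℝ) :
    Measurable (Lf H N Φ) := by
  unfold Lf
  exact Finset.measurable_sum _ fun x _ => (hH x).const_mul _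

lemma XX0_meas {H : ℕ → Ω → ℝ} (hH : ∀ x, Measurable (H x)) (N : ℕ) (F : Finset (ℕ × ℕ))
    (c : ℕ × ℕ → ℝ) (φ : ℕ × ℕ → ℕ → ℝ) (γ : ℝ) : Measurable (XX0 H N F c φ γ) := by
  unfold XX0
  refine Measurable.pow_const ?_ _
  exact Finset.measurable_sum _ fun i _ => ((Lf_meas hH N (φ i)).exp).const_mul _

lemma Lf_smul (H : ℕ → Ω → ℝ) (N : ℕ) (Φ : ℕ → ℝ) (a : ℝ) (ω : Ω) :
    Lf H N (fun x => a * Φ x) ω = a * Lf H N Φ ω := by
  unfold Lf
  rw [mul_sum]
  exact sum_congr rfl fun x _ => by ring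

/-- **Lower bound for a window of values.** -/
theorem base_int [IsProbabilityMeasure Q] {H : ℕ → Ω → ℝ} {N : ℕ} {lam m err : ℝ}
    (hM : MgfB Q H N lam m err) {F B : Finset (ℕ × ℕ)} (hBF : B ⊆ F) {c : ℕ × ℕ → ℝ}
    (hc : ∀ i ∈ F, 0 < c i) {φ : ℕ × ℕ → ℕ → ℝ} (h0 : ∀ i ∈ F, ∀ x, 0 ≤ φ i x)
    (h1 : ∀ i ∈ F, ∀ x, φ i x ≤ 1) {γ θ T lo hi : ℝ} (hγ0 : 0 < γ) (hγ1 : γ ≤ 1) (hθ : 0 < θ)
    (hθ1 : θ < 1) (hlo : 0 < lo) (hhi : 0 < hi) :
    ∑ i ∈ B, (c i * Mg Q H N (fun x => γ * φ i x)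
        - Real.exp (-(γ * T / 2)) * ∑ i' ∈ F, c i ^ (1 / 2 : ℝ) * c i' ^ (1 / 2 : ℝ)
            * Mg Q H N (fun x => γ * (φ i x + φ i' x) / 2)
        - lo ^ θ * (c i ^ (1 - θ) * Mg Q H N (fun x => γ * (1 - θ) * φ i x))
        - (hi * Real.exp (-(γ * T))) ^ (-θ)
            * (c i ^ (1 + θ) * Mg Q H N (fun x => γ * (1 + θ) * φ i x)))
      ≤ Real.exp ((1 - γ) * T) * ∫ ω, (if lo ≤ XX0 H N F c φ γ ω ∧ XX0 H N F c φ γ ω < hi
          then XX0 H N F c φ γ ω else 0) ∂Q := by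
  classical
  set v : ℕ × ℕ → Ω → ℝ := fun i ω => c i ^ (1 / γ) * Real.exp (Lf H N (φ i) ω) with hv
  have hv0 : ∀ ω, ∀ i ∈ F, 0 < v i ω := by
    intro ω i hi
    have := hc i hi
    simp only [hv]
    positivity
  -- powers of `v`
  have hpow : ∀ a : ℝ, ∀ i ∈ F, ∀ ω, v i ω ^ (γ * a)
      = c i ^ a * Real.exp (Lf H N (fun x => γ * a * φ i x) ω) := by
    intro a i hi ω
    have h2 := hc i hi
    simp only [hv]
    rw [Real.mul_rpow (by positivity) (Real.exp_pos _).le, ← Real.rpow_mul h2.le, ← Real.exp_mul,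
      Lf_smul]
    congr 2
    · field_simp
    · ring
  have hb0 : ∀ i ∈ F, ∀ a : ℝ, 0 ≤ a → a ≤ 2 → (∀ x, 0 ≤ γ * a * φ i x) ∧ (∀ x, γ * a * φ i x ≤ 2) := by
    intro i hi a ha ha2
    constructor
    · intro x
      have := h0 i hi x
      positivity
    · intro x
      have h2 := h0 i hi x
      calc γ * a * φ i x ≤ 1 * 2 * 1 := by
            have := h1 i hi x
            gcongr
        _ = 2 := by norm_num
  -- the pointwise inequality
  have hpt : ∀ ω, ∑ i ∈ B, (c i * Real.exp (Lf H N (fun x => γ * φ i x) ω)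
        - Real.exp (-(γ * T / 2)) * ∑ i' ∈ F, c i ^ (1 / 2 : ℝ) * c i' ^ (1 / 2 : ℝ)
            * Real.exp (Lf H N (fun x => γ * (φ i x + φ i' x) / 2) ω)
        - lo ^ θ * (c i ^ (1 - θ) * Real.exp (Lf H N (fun x => γ * (1 - θ) * φ i x) ω))
        - (hi * Real.exp (-(γ * T))) ^ (-θ)
            * (c i ^ (1 + θ) * Real.exp (Lf H N (fun x => γ * (1 + θ) * φ i x) ω)))
      ≤ Real.exp ((1 - γ) * T) * (if lo ≤ XX0 H N F c φ γ ω ∧ XX0 H N F c φ γ ω < hi
          then XX0 H N F c φ γ ω else 0) := by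
    intro ω
    have h2 := split_low F B hBF (fun i => v i ω) (hv0 ω) hγ0 hγ1 hθ hθ1 hlo hhi (T := T)
    refine le_trans (le_of_eq ?_) h2
    refine sum_congr rfl fun i hi => ?_
    have hiF := hBF hi
    have hci := hc i hiF
    have e1 : v i ω ^ γ = c i * Real.exp (Lf H N (fun x => γ * φ i x) ω) := by
      have := hpow 1 i hiF ω
      rw [mul_one, Real.rpow_one] at this
      exact this
    have e2 : ∀ i' ∈ F, v i ω ^ (γ / 2) * v i' ω ^ (γ / 2)
        = c i ^ (1 / 2 : ℝ) * c i' ^ (1 / 2 : ℝ)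
            * Real.exp (Lf H N (fun x => γ * (φ i x + φ i' x) / 2) ω) := by
      intro i' hi'
      have e3 := hpow (1 / 2) i hiF ω
      have e4 := hpow (1 / 2) i' hi' ω
      rw [show γ / 2 = γ * (1 / 2) by ring, e3, e4]
      have e5 : Lf H N (fun x => γ * (φ i x + φ i' x) / 2) ω
          = Lf H N (fun x => γ * (1 / 2) * φ i x) ω + Lf H N (fun x => γ * (1 / 2) * φ i' x) ω := by
        unfold Lf
        rw [← sum_add_distrib]
        exact sum_congr rfl fun x _ => by ring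
      rw [e5, Real.exp_add]
      ring
    rw [e1, hpow (1 - θ) i hiF ω, hpow (1 + θ) i hiF ω, sum_congr rfl e2]
  -- integrability
  have hI1 : ∀ i ∈ B, Integrable (fun ω => c i * Real.exp (Lf H N (fun x => γ * φ i x) ω)) Q := by
    intro i hi
    have h2 := hb0 i (hBF hi) 1 zero_le_one (by norm_num)
    simp only [mul_one] at h2
    exact (hM.intg _ h2.1 h2.2).const_mul _
  have hI2 : ∀ i ∈ B, ∀ i' ∈ F, Integrable (fun ω => c i ^ (1 / 2 : ℝ) * c i' ^ (1 / 2 : ℝ)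
            * Real.exp (Lf H N (fun x => γ * (φ i x + φ i' x) / 2) ω)) Q := by
    intro i hi i' hi'
    refine (hM.intg _ (fun x => ?_) (fun x => ?_)).const_mul _
    · have := h0 i (hBF hi) x
      have := h0 i' hi' x
      positivity
    · have e1 := h0 i (hBF hi) x
      have e2 := h0 i' hi' x
      have e3 := h1 i (hBF hi) x
      have e4 := h1 i' hi' x
      calc γ * (φ i x + φ i' x) / 2 ≤ 1 * (1 + 1) / 2 := by gcongr
        _ ≤ 2 := by norm_num
  have hI3 : ∀ i ∈ B, Integrable (fun ω => c i ^ (1 - θ)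
      * Real.exp (Lf H N (fun x => γ * (1 - θ) * φ i x) ω)) Q := by
    intro i hi
    have h2 := hb0 i (hBF hi) (1 - θ) (by linarith) (by linarith)
    exact (hM.intg _ h2.1 h2.2).const_mul _
  have hI4 : ∀ i ∈ B, Integrable (fun ω => c i ^ (1 + θ)
      * Real.exp (Lf H N (fun x => γ * (1 + θ) * φ i x) ω)) Q := by
    intro i hi
    have h2 := hb0 i (hBF hi) (1 + θ) (by linarith) (by linarith)
    exact (hM.intg _ h2.1 h2.2).const_mul _
  have hI5 : ∀ i ∈ B, Integrable (fun ω => Real.exp (-(γ * T / 2)) * ∑ i' ∈ F,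
      c i ^ (1 / 2 : ℝ) * c i' ^ (1 / 2 : ℝ)
            * Real.exp (Lf H N (fun x => γ * (φ i x + φ i' x) / 2) ω)) Q := fun i hi =>
    (integrable_finsetSum _ fun i' hi' => hI2 i hi i' hi').const_mul _
  have hIX : Integrable (fun ω => (if lo ≤ XX0 H N F c φ γ ω ∧ XX0 H N F c φ γ ω < hi
          then XX0 H N F c φ γ ω else 0)) Q := by
    have hm := XX0_meas hM.meas N F c φ γ
    refine Integrable.of_bound (C := hi) ?_ ?_
    · refine (Measurable.ite ?_ hm measurable_const).aestronglyMeasurable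
      exact (measurableSet_le measurable_const hm).inter (measurableSet_lt hm measurable_const)
    · refine Filter.Eventually.of_forall fun ω => ?_
      split_ifs with hc
      · rw [Real.norm_eq_abs, abs_of_nonneg (by linarith [hc.1])]
        exact hc.2.le
      · simpa using hhi.le
  rw [← integral_const_mul]
  refine le_trans (le_of_eq ?_) (integral_mono ?_ (hIX.const_mul _) hpt)
  · rw [integral_finsetSum]
    · refine sum_congr rfl fun i hi => ?_
      rw [integral_sub, integral_sub, integral_sub, integral_const_mul, integral_const_mul,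
        integral_const_mul, integral_const_mul, integral_const_mul, integral_const_mul,
        integral_finsetSum]
      · simp only [integral_const_mul]
        rfl
      · exact fun i' hi' => hI2 i hi i' hi'
      · exact hI1 i hi
      · exact hI5 i hi
      · exact (hI1 i hi).sub (hI5 i hi)
      · exact (hI3 i hi).const_mul _
      · exact ((hI1 i hi).sub (hI5 i hi)).sub ((hI3 i hi).const_mul _)
      · exact (hI4 i hi).const_mul _
    · exact fun i hi => (((hI1 i hi).sub (hI5 i hi)).sub ((hI3 i hi).const_mul _)).sub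
        ((hI4 i hi).const_mul _)
  · exact integrable_finsetSum _ fun i hi =>
      (((hI1 i hi).sub (hI5 i hi)).sub ((hI3 i hi).const_mul _)).sub ((hI4 i hi).const_mul _)

/-- upper bound for the mean -/
theorem base_mean {H : ℕ → Ω → ℝ} {N : ℕ} {lam m err : ℝ}
    (hM : MgfB Q H N lam m err) {F : Finset (ℕ × ℕ)} {c : ℕ × ℕ → ℝ}
    (hc : ∀ i ∈ F, 0 < c i) {φ : ℕ × ℕ → ℕ → ℝ} (h0 : ∀ i ∈ F, ∀ x, 0 ≤ φ i x)
    (h1 : ∀ i ∈ F, ∀ x, φ i x ≤ 1) {γ : ℝ} (hγ0 : 0 < γ) (hγ1 : γ ≤ 1) :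
    ∫⁻ ω, ENNReal.ofReal (XX0 H N F c φ γ ω) ∂Q
      ≤ ENNReal.ofReal (∑ i ∈ F, c i * Mg Q H N (fun x => γ * φ i x)) := by
  have hb0 : ∀ i ∈ F, (∀ x, 0 ≤ γ * φ i x) ∧ (∀ x, γ * φ i x ≤ 2) := by
    intro i hi
    refine ⟨fun x => mul_nonneg hγ0.le (h0 i hi x), fun x => ?_⟩
    have := h1 i hi x
    have := h0 i hi x
    nlinarith
  have hI1 : ∀ i ∈ F, Integrable (fun ω => c i * Real.exp (Lf H N (fun x => γ * φ i x) ω)) Q :=
    fun i hi => (hM.intg _ (hb0 i hi).1 (hb0 i hi).2).const_mul _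
  have hpt : ∀ ω, XX0 H N F c φ γ ω ≤ ∑ i ∈ F, c i * Real.exp (Lf H N (fun x => γ * φ i x) ω) := by
    intro ω
    unfold XX0
    refine (rpow_sum_le_real F _ (fun i hi => ?_) hγ0 hγ1).trans (le_of_eq ?_)
    · have := hc i hi
      positivity
    · refine sum_congr rfl fun i hi => ?_
      have h2 := hc i hi
      rw [Real.mul_rpow (by positivity) (Real.exp_pos _).le, ← Real.rpow_mul h2.le,
        ← Real.exp_mul, Lf_smul, one_div_mul_cancel hγ0.ne', Real.rpow_one, mul_comm (Lf _ _ _ _)]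
  calc ∫⁻ ω, ENNReal.ofReal (XX0 H N F c φ γ ω) ∂Q
      ≤ ∫⁻ ω, ENNReal.ofReal (∑ i ∈ F, c i * Real.exp (Lf H N (fun x => γ * φ i x) ω)) ∂Q :=
        lintegral_mono fun ω => ENNReal.ofReal_le_ofReal (hpt ω)
    _ = ENNReal.ofReal (∫ ω, ∑ i ∈ F, c i * Real.exp (Lf H N (fun x => γ * φ i x) ω) ∂Q) := by
        rw [ofReal_integral_eq_lintegral_ofReal (integrable_finsetSum _ hI1)]
        refine Filter.Eventually.of_forall fun ω => sum_nonneg fun i hi => ?_
        have := hc i hi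
        positivity
    _ = _ := by
        rw [integral_finsetSum _ hI1]
        simp only [integral_const_mul]
        rfl

end Pool.Agent.Cop

end
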