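import Mathlib
import Pool.Agent.Work.MP_cceb86_pr.LBc
import Pool.Agent.Work.MP_cceb86_pr.LDefs
import Pool.Agent.Work.MP_cceb86_pr.Model

/-!
Definitions for the lower bound of the slope near `α = 1`.
-/

open Finset MeasureTheory ProbabilityTheory
open scoped ENNReal

noncomputable section

namespace Pool.Agent.Cop

universe u

/-- sites of the cells `p, …, p + 1 + j` for the pair `i = (p, j)` -/
def nI (L : ℕ) (i : ℕ × ℕ) : Finset ℕ := Ioc (i.1 * L) ((i.1 + 2 + i.2) * L)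

/-- half of the indicator function of `nI` -/
def nph (L : ℕ) (i : ℕ × ℕ) (x : ℕ) : ℝ := if x ∈ nI L i then 1 / 2 else 0

/-- stretches made of short excursions: on the good event `G i` the weight of the stretch `i` is at
least `ν exp (½ Σ (H + λ²))`, and the good events keep a fixed proportion of the fractional
moments. -/
structure NBase {Ω : Type*} [MeasurableSpace Ω] (Q : Measure Ω) (Hw : ℕ → Ω → ℝ) (Kk : ℕ → ℝ≥0∞)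
    (l0 d0 L : ℕ) (F : Finset (ℕ × ℕ)) (G : ℕ × ℕ → Set (ℕ → ℝ)) (ν p0 lam γ : ℝ) : Prop where
  meas : ∀ i ∈ F, MeasurableSet (G i)
  dep : ∀ i ∈ F, ∀ H H' : ℕ → ℝ, (∀ x, 0 < x → x < l0 → H x = H' x) → H ∈ G i → H' ∈ G i
  low : ∀ H : ℕ → ℝ, ∑ i ∈ F, (G i).indicator (fun H => ENNReal.ofReal (ν *
      Real.exp (lam ^ 2 * (((i.2 : ℝ) + 2) * L) / 2 + ∑ x ∈ range l0, nph L i x * H x))) H
    ≤ Y2 (ren (kT Kk (fun i => ENNReal.ofReal (Real.exp (H i))))) (gs l0 d0 0 l0) (gs l0 d0 0 l0)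
  prob : ∀ i ∈ F, p0 * Mg Q Hw l0 (fun x => γ * nph L i x) ≤
    ∫ om in {om | (fun x => Hw x om) ∈ G i}, Real.exp (Lf Hw l0 (fun x => γ * nph L i x) om) ∂Q

/-- the statement on the stretches made of short excursions (`X` = largest length, in units of
`λ⁻²`). -/
def NBlockS : Prop :=
  ∃ p0 c1 : ℝ, 0 < p0 ∧ p0 ≤ 1 ∧ 0 < c1 ∧ c1 ≤ 1 ∧
    ∀ α : ℝ, 1 / 2 ≤ α → α < 1 → ∀ X : ℝ, 1 ≤ X → (1 - α) * X ^ 2 ≤ 1 / 100 →
    ∀ m : ℝ, 1 / 2 ≤ m → m ≤ 1 → ∀ c : ℝ, 0 < c → ∀ K : ℕ → ℝ, IsLaw α c K →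
    ∀ (Ω : Type u) [MeasurableSpace Ω] (Q : Measure Ω) (w : ℕ → Ω → ℝ), IsDisorder Q w →
    ∀ d0 Λ : ℕ, ∃ lam0 : ℝ, 0 < lam0 ∧ ∀ lam : ℝ, 0 < lam → lam < lam0 →
    ∀ L1 : ℕ, 1 ≤ lam ^ 2 * L1 → lam ^ 2 * L1 ≤ 2 → ∀ F : Finset (ℕ × ℕ),
      (∀ i ∈ F, i.1 + 2 + i.2 < Λ ∧ 1 ≤ i.2 ∧ lam ^ 2 * (((i.2 : ℝ) + 2) * L1) ≤ X) →
      ∃ G : ℕ × ℕ → Set (ℕ → ℝ),
        NBase Q (fun x om => -2 * lam * (w x om + m * lam)) (Ke K) (Λ * L1) d0 L1 F G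
          (c1 * (1 - α) / c * (L1 : ℝ) ^ (1 + α)) p0 lam (1 / (1 + α))

end Pool.Agent.Cop

end
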