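import Mathlib
import Pool.Agent.Work.MP_cceb86_pr.Kernel
import Pool.Agent.Work.MP_cceb86_pr.Sums

/-!
The block bounds `Bds` hold with `ρ < 1`.
-/

open Finset Real Filter Topology
open scoped ENNReal

noncomputable section

namespace Pool.Agent.Cop

/-- bound for the renewal mass in the `i`-th block -/
def uR (α c : ℝ) (L : ℕ) (i : ℕ) : ℝ :=
  if i ≤ 1 then 3 * (α * (L : ℝ) ^ α / c)
  else 300 * α * (α * (L : ℝ) ^ α / c) * ((i - 1 : ℕ) : ℝ) ^ (-(1 + α))

/-- bound for the mass of long excursions ending `j+1` blocks further -/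
def kR (α c : ℝ) (L : ℕ) (j : ℕ) : ℝ :=
  11 / 10 * c * (L : ℝ) ^ (-α) * ((max j 1 : ℕ) : ℝ) ^ (-(1 + α))

variable {α c q : ℝ} {K : ℕ → ℝ} {L : ℕ}

lemma uR_nonneg (hα : 0 < α) (hc : 0 < c) (i : ℕ) : 0 ≤ uR α c L i := by
  unfold uR; split_ifs <;> positivity

lemma kR_nonneg (hc : 0 < c) (i : ℕ) : 0 ≤ kR α c L i := by
  unfold kR; positivity

lemma hu_bound (hK : IsLaw α c K) (hF : KFacts α c K L) (hα : 0 < α) (hα1 : α ≤ 1 / 10)
    (hc : 0 < c) (hq : 1 ≤ q) (hqL : q ^ L ≤ 1 + 4 * α) (N x i : ℕ) :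
    ∑ s ∈ (Icc x N).filter (fun s => s / L = x / L + i),
      ren (kA (fun n => ENNReal.ofReal (K n)) L (fun _ => ENNReal.ofReal q)) x s
      ≤ ENNReal.ofReal (uR α c L i) := by
  classical
  have hL : 0 < L := by have := hF.big; omega
  have hL0 : (0 : ℝ) < L := by exact_mod_cast hL
  have hg := rf_nonneg (kap_nonneg (L := L) hK.nonneg hq)
  obtain ⟨w1, w2⟩ := kap_window hK hF hα hα1 hc hq hqL
  have h1 : ∑ s ∈ (Icc x N).filter (fun s => s / L = x / L + i),
      ren (kA (fun n => ENNReal.ofReal (K n)) L (fun _ => ENNReal.ofReal q)) x s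
      = ENNReal.ofReal (∑ s ∈ (Icc x N).filter (fun s => s / L = x / L + i),
          rf (kap K L q) (s - x)) := by
    rw [ENNReal.ofReal_sum_of_nonneg (fun s _ => hg _)]
    refine sum_congr rfl fun s hs => ?_
    simp only [mem_filter, mem_Icc] at hs
    exact ren_kA_eq hK.nonneg hq hs.1.1
  rw [h1]
  refine ENNReal.ofReal_le_ofReal ?_
  -- injectivity of s ↦ s - x
  have hinj : ∀ s ∈ (Icc x N).filter (fun s => s / L = x / L + i),
      ∀ s' ∈ (Icc x N).filter (fun s => s / L = x / L + i), s - x = s' - x → s = s' := by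
    intro s hs s' hs' h
    simp only [mem_filter, mem_Icc] at hs hs'
    omega
  rw [← sum_image (f := rf (kap K L q)) (g := fun s => s - x) hinj]
  unfold uR
  split_ifs with hi
  · refine le_trans (sum_le_sum_of_subset_of_nonneg (t := range (N + 1)) ?_ (fun j _ _ => hg j))
      (w1 (N + 1))
    intro j hj
    simp only [mem_image, mem_filter, mem_Icc, mem_range] at hj ⊢
    obtain ⟨s, hs, rfl⟩ := hj
    omega
  · have hi2 : 2 ≤ i := by omega
    set b := (x / L + i) * L with hb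
    have hxb : x < (x / L + 1) * L := by
      have := Nat.lt_div_mul_add (a := x) hL
      nlinarith
    have hb1 : (i - 1) * L + x ≤ b := by
      have : b = (x / L + 1) * L + (i - 1) * L := by
        rw [hb, ← Nat.add_mul]; congr 1; omega
      omega
    have hb2 : L ≤ b - x := by
      have : L ≤ (i - 1) * L := Nat.le_mul_of_pos_left _ (by omega)
      omega
    refine le_trans (sum_le_sum_of_subset_of_nonneg (t := Ico (b - x) (b - x + L)) ?_
      (fun j _ _ => hg j)) ?_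
    · intro j hj
      simp only [mem_image, mem_filter, mem_Icc, mem_Ico] at hj ⊢
      obtain ⟨s, ⟨hs1, hs2⟩, rfl⟩ := hj
      have e1 : b ≤ s := by
        have := Nat.div_mul_le_self s L
        rwa [hs2] at this
      have e2 : s < b + L := by
        have := Nat.lt_div_mul_add (a := s) hL
        rwa [hs2] at this
      omega
    · refine (w2 (b - x) hb2).trans ?_
      have e1 : ((i - 1 : ℕ) : ℝ) ≤ ((b - x : ℕ) : ℝ) / L := by
        rw [le_div_iff₀ hL0]
        have : (i - 1) * L ≤ b - x := by omega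
        exact_mod_cast this
      have e2 : (0 : ℝ) < ((i - 1 : ℕ) : ℝ) := by
        have : 0 < i - 1 := by omega
        exact_mod_cast this
      have e3 : (((b - x : ℕ) : ℝ) / L) ^ (-(1 + α)) ≤ ((i - 1 : ℕ) : ℝ) ^ (-(1 + α)) :=
        Real.rpow_le_rpow_of_nonpos e2 e1 (by linarith)
      calc 300 * α ^ 2 * ((L : ℝ) ^ α / c) * (((b - x : ℕ) : ℝ) / L) ^ (-(1 + α))
          ≤ 300 * α ^ 2 * ((L : ℝ) ^ α / c) * ((i - 1 : ℕ) : ℝ) ^ (-(1 + α)) := by gcongr
        _ = _ := by ring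

lemma hk_bound (hK : IsLaw α c K) (hF : KFacts α c K L) (hα : 0 < α) (hα1 : α ≤ 1 / 10)
    (hc : 0 < c) (hq : 1 ≤ q) (hqL : q ^ L ≤ 1 + 4 * α) (N s j : ℕ) :
    ∑ t ∈ (Ioc s N).filter (fun t => t / L = s / L + 1 + j ∧ L < t - s),
      ENNReal.ofReal (K (t - s)) / 2 * (ENNReal.ofReal q ^ ((s / L + 1) * L - s)
        * ENNReal.ofReal q ^ (t - (t / L) * L))
      ≤ ENNReal.ofReal (kR α c L j) := by
  classical
  have hL : 0 < L := by have := hF.big; omega
  have hL0 : (0 : ℝ) < L := by exact_mod_cast hL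
  have hq0 : 0 ≤ q := by linarith
  set J : ℕ := max j 1 with hJ
  have hJ1 : 1 ≤ J := le_max_right _ _
  set B : ℝ := 11 / 10 * c * ((J : ℝ) * L) ^ (-(1 + α)) with hB
  have hB0 : 0 ≤ B := by positivity
  have hsL : s < (s / L + 1) * L := by
    have := Nat.lt_div_mul_add (a := s) hL
    nlinarith
  have hterm : ∀ t ∈ (Ioc s N).filter (fun t => t / L = s / L + 1 + j ∧ L < t - s),
      ENNReal.ofReal (K (t - s)) / 2 * (ENNReal.ofReal q ^ ((s / L + 1) * L - s)
        * ENNReal.ofReal q ^ (t - (t / L) * L)) ≤ ENNReal.ofReal B := by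
    intro t ht
    simp only [mem_filter, mem_Ioc] at ht
    obtain ⟨⟨ht1, ht2⟩, ht3, ht4⟩ := ht
    have e1 : (t / L) * L ≤ t := Nat.div_mul_le_self t L
    have e2 : t < (t / L) * L + L := Nat.lt_div_mul_add hL
    have hb1 : (s / L) * L ≤ s := Nat.div_mul_le_self s L
    have e3 : (s / L + 1) * L - s ≤ L := by
      have : (s / L + 1) * L = (s / L) * L + L := by ring
      omega
    have e4 : t - (t / L) * L ≤ L := by omega
    have e5 : J * L ≤ t - s := by
      rcases Nat.eq_zero_or_pos j with h | h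
      · have : J = 1 := by rw [hJ, h]; rfl
        rw [this]; omega
      · have hJj : J = j := by rw [hJ]; exact max_eq_left h
        rw [hJj]
        have : (t / L) * L = (s / L + 1) * L + j * L := by rw [ht3]; ring
        omega
    have e6 : (J : ℝ) * L ≤ ((t - s : ℕ) : ℝ) := by exact_mod_cast e5
    have hK1 : K (t - s) ≤ B := by
      refine (hF.up (t - s) ?_).trans ?_
      · have : L / 8 ≤ L := Nat.div_le_self _ _
        omega
      · rw [hB]
        have : ((t - s : ℕ) : ℝ) ^ (-(1 + α)) ≤ ((J : ℝ) * L) ^ (-(1 + α)) := by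
          refine Real.rpow_le_rpow_of_nonpos ?_ e6 (by linarith)
          have : (0 : ℝ) < J := by exact_mod_cast hJ1
          positivity
        gcongr
    have hK0 := hK.nonneg (t - s)
    rw [← ENNReal.ofReal_pow hq0, ← ENNReal.ofReal_pow hq0, ← ENNReal.ofReal_mul (by positivity)]
    have h2 : ENNReal.ofReal (K (t - s)) / 2 = ENNReal.ofReal (K (t - s) / 2) := by
      rw [ENNReal.ofReal_div_of_pos (by norm_num)]; simp
    rw [h2, ← ENNReal.ofReal_mul (by positivity)]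
    refine ENNReal.ofReal_le_ofReal ?_
    have h3 : q ^ ((s / L + 1) * L - s) ≤ 1 + 4 * α := (pow_le_pow_right₀ hq e3).trans hqL
    have h4 : q ^ (t - (t / L) * L) ≤ 1 + 4 * α := (pow_le_pow_right₀ hq e4).trans hqL
    calc K (t - s) / 2 * (q ^ ((s / L + 1) * L - s) * q ^ (t - (t / L) * L))
        ≤ K (t - s) / 2 * ((1 + 4 * α) * (1 + 4 * α)) := by gcongr
      _ ≤ K (t - s) / 2 * (7 / 5 * (7 / 5)) := by gcongr <;> linarith
      _ ≤ K (t - s) := by nlinarith
      _ ≤ B := hK1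
  have hcard : ((Ioc s N).filter (fun t => t / L = s / L + 1 + j ∧ L < t - s)).card ≤ L := by
    calc ((Ioc s N).filter (fun t => t / L = s / L + 1 + j ∧ L < t - s)).card
        ≤ (Ico ((s / L + 1 + j) * L) ((s / L + 1 + j) * L + L)).card := by
          refine card_le_card ?_
          intro t ht
          simp only [mem_filter, mem_Ioc, mem_Ico] at ht ⊢
          have e1 : (t / L) * L ≤ t := Nat.div_mul_le_self t L
          have e2 : t < (t / L) * L + L := Nat.lt_div_mul_add hL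
          rw [ht.2.1] at e1 e2
          exact ⟨e1, e2⟩
      _ = L := by simp
  refine (sum_le_card_nsmul _ _ _ hterm).trans ?_
  rw [nsmul_eq_mul]
  calc ((((Ioc s N).filter (fun t => t / L = s / L + 1 + j ∧ L < t - s)).card : ℕ) : ℝ≥0∞)
        * ENNReal.ofReal B ≤ (L : ℝ≥0∞) * ENNReal.ofReal B := by gcongr
    _ = ENNReal.ofReal (L * B) := by
        rw [ENNReal.ofReal_mul hL0.le, ENNReal.ofReal_natCast]
    _ ≤ ENNReal.ofReal (kR α c L j) := by
        refine ENNReal.ofReal_le_ofReal (le_of_eq ?_)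
        rw [hB]; unfold kR
        rw [Real.mul_rpow (by positivity) hL0.le]
        have : (L : ℝ) ^ (-(1 + α)) * L = (L : ℝ) ^ (-α) := by
          rw [← Real.rpow_add_one hL0.ne']; congr 1; ring
        calc (L : ℝ) * (11 / 10 * c * ((J : ℝ) ^ (-(1 + α)) * (L : ℝ) ^ (-(1 + α))))
            = 11 / 10 * c * ((L : ℝ) ^ (-(1 + α)) * L) * (J : ℝ) ^ (-(1 + α)) := by ring
          _ = _ := by rw [this]

/-- the real sum bounding `ρ` -/
lemma rho_real {γ ζ θ rr : ℝ} (hα : 0 < α) (hα1 : α ≤ 1 / 4200) (hc : 0 < c)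
    (hγ : 1 - α ≤ γ) (hζ : (1 + α) * γ = 1 + ζ) (hζ0 : 0 < ζ) (hζ1 : ζ ≤ 1)
    (hθ : 0 < θ) (hr0 : 0 ≤ rr) (hr : rr ^ L ≤ Real.exp (-θ)) (hL : 0 < L) (N : ℕ) :
    ∑ i ∈ range (N + 1), ∑ j ∈ range (N + 1), (uR α c L i * kR α c L j) ^ γ * rr ^ (j * L)
      ≤ (10 * α + 750 * α ^ 2 * (1 + 1 / ζ)) * (1 - Real.log (1 - Real.exp (-θ))) := by
  have hL0 : (0 : ℝ) < L := by exact_mod_cast hL
  have hγ0 : 0 < γ := by linarith
  have hAc : (α * (L : ℝ) ^ α / c) * (11 / 10 * c * (L : ℝ) ^ (-α)) = 11 / 10 * α := by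
    rw [Real.rpow_neg hL0.le]; field_simp
  set U : ℕ → ℝ := fun i => (uR α c L i * (11 / 10 * c * (L : ℝ) ^ (-α))) ^ γ with hU
  set V : ℕ → ℝ := fun j => (((max j 1 : ℕ) : ℝ) ^ (-(1 + α))) ^ γ * rr ^ (j * L) with hV
  have e1 : ∀ i j, (uR α c L i * kR α c L j) ^ γ * rr ^ (j * L) = U i * V j := by
    intro i j
    simp only [hU, hV]
    unfold kR
    rw [← mul_assoc, Real.mul_rpow (mul_nonneg (uR_nonneg hα hc i) (by positivity))
      (by positivity)]
    ring
  simp_rw [e1]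
  rw [← sum_mul_sum]
  have hU0 : ∀ i, 0 ≤ U i := fun i =>
    Real.rpow_nonneg (mul_nonneg (uR_nonneg hα hc i) (by positivity)) _
  have hV0 : ∀ j, 0 ≤ V j := fun j => by simp only [hV]; positivity
  have hexp : Real.exp (-θ) < 1 := by rw [Real.exp_lt_one_iff]; linarith
  -- the sum of U
  have hUs : ∑ i ∈ range (N + 1), U i ≤ 10 * α + 750 * α ^ 2 * (1 + 1 / ζ) := by
    have hUi : ∀ i, U (i + 2) ≤ 750 * α ^ 2 * ((i + 1 : ℕ) : ℝ) ^ (-(1 + ζ)) := by
      intro i
      simp only [hU, uR]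
      rw [if_neg (by omega)]
      have h1 : 300 * α * (α * (L : ℝ) ^ α / c) * ((i + 2 - 1 : ℕ) : ℝ) ^ (-(1 + α)) *
          (11 / 10 * c * (L : ℝ) ^ (-α)) = 330 * α ^ 2 * ((i + 1 : ℕ) : ℝ) ^ (-(1 + α)) := by
        have : i + 2 - 1 = i + 1 := by omega
        rw [this]
        calc 300 * α * (α * (L : ℝ) ^ α / c) * ((i + 1 : ℕ) : ℝ) ^ (-(1 + α)) *
            (11 / 10 * c * (L : ℝ) ^ (-α))
            = 300 * α * ((α * (L : ℝ) ^ α / c) * (11 / 10 * c * (L : ℝ) ^ (-α)))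
              * ((i + 1 : ℕ) : ℝ) ^ (-(1 + α)) := by ring
          _ = _ := by rw [hAc]; ring
      rw [h1, Real.mul_rpow (by positivity) (by positivity), ← Real.rpow_mul (by positivity)]
      have h2 : -(1 + α) * γ = -(1 + ζ) := by rw [← hζ]; ring
      rw [h2]
      have := g2 hα hα1 hγ
      gcongr
    have hU1 : ∀ i, i ≤ 1 → U i ≤ 5 * α := by
      intro i hi
      simp only [hU, uR]
      rw [if_pos hi]
      have h1 : 3 * (α * (L : ℝ) ^ α / c) * (11 / 10 * c * (L : ℝ) ^ (-α)) = 33 / 10 * α := by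
        rw [mul_assoc, hAc]; ring
      rw [h1]
      exact g1 hα hα1 hγ
    calc ∑ i ∈ range (N + 1), U i ≤ ∑ i ∈ range (N + 2), U i :=
          sum_le_sum_of_subset_of_nonneg (range_subset_range.2 (by omega)) (fun i _ _ => hU0 i)
      _ = ∑ i ∈ range N, U (i + 2) + (U 0 + U 1) := by
          rw [sum_range_succ', sum_range_succ']; ring
      _ ≤ ∑ i ∈ range N, 750 * α ^ 2 * ((i + 1 : ℕ) : ℝ) ^ (-(1 + ζ)) + (5 * α + 5 * α) :=
          add_le_add (sum_le_sum fun i _ => hUi i) (add_le_add (hU1 0 (by omega)) (hU1 1 le_rfl))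
      _ = 750 * α ^ 2 * ∑ i ∈ range N, ((i + 1 : ℕ) : ℝ) ^ (-(1 + ζ)) + 10 * α := by
          rw [mul_sum]; ring
      _ ≤ 750 * α ^ 2 * (1 + 1 / ζ) + 10 * α := by
          have := sum_zeta hζ0 hζ1 N
          gcongr
      _ = _ := by ring
  have hVs : ∑ j ∈ range (N + 1), V j ≤ 1 - Real.log (1 - Real.exp (-θ)) := by
    have hV1 : V 0 = 1 := by simp [hV]
    have hVj : ∀ j, V (j + 1) ≤ Real.exp (-θ) ^ (j + 1) / ((j : ℝ) + 1) := by
      intro j
      simp only [hV]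
      have hm : max (j + 1) 1 = j + 1 := max_eq_left (by omega)
      rw [hm, ← Real.rpow_mul (by positivity)]
      have h2 : -(1 + α) * γ = -(1 + ζ) := by rw [← hζ]; ring
      rw [h2]
      have h3 : ((j + 1 : ℕ) : ℝ) ^ (-(1 + ζ)) ≤ 1 / ((j : ℝ) + 1) := by
        have h4 : ((j + 1 : ℕ) : ℝ) ^ (-(1 + ζ)) ≤ ((j + 1 : ℕ) : ℝ) ^ (-1 : ℝ) := by
          refine Real.rpow_le_rpow_of_exponent_le ?_ (by linarith)
          push_cast; linarith [(Nat.cast_nonneg j : (0 : ℝ) ≤ j)]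
        refine h4.trans (le_of_eq ?_)
        rw [Real.rpow_neg_one]; push_cast; rw [one_div]
      have h5 : rr ^ ((j + 1) * L) ≤ Real.exp (-θ) ^ (j + 1) := by
        rw [mul_comm, pow_mul]
        exact pow_le_pow_left₀ (by positivity) hr _
      calc ((j + 1 : ℕ) : ℝ) ^ (-(1 + ζ)) * rr ^ ((j + 1) * L)
          ≤ 1 / ((j : ℝ) + 1) * Real.exp (-θ) ^ (j + 1) := by gcongr
        _ = _ := by ring
    calc ∑ j ∈ range (N + 1), V j = ∑ j ∈ range N, V (j + 1) + V 0 := by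
          rw [sum_range_succ']
      _ ≤ ∑ j ∈ range N, Real.exp (-θ) ^ (j + 1) / ((j : ℝ) + 1) + 1 :=
          add_le_add (sum_le_sum fun j _ => hVj j) (le_of_eq hV1)
      _ ≤ -Real.log (1 - Real.exp (-θ)) + 1 := by
          gcongr
          exact sum_log (Real.exp_pos _).le hexp N
      _ = _ := by ring
  have h0 : 0 ≤ 10 * α + 750 * α ^ 2 * (1 + 1 / ζ) := by positivity
  calc (∑ i ∈ range (N + 1), U i) * ∑ j ∈ range (N + 1), V j
      ≤ (10 * α + 750 * α ^ 2 * (1 + 1 / ζ)) * ∑ j ∈ range (N + 1), V j :=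
        mul_le_mul_of_nonneg_right hUs (sum_nonneg fun j _ => hV0 j)
    _ ≤ _ := mul_le_mul_of_nonneg_left hVs h0

/-- All block bounds, with `ρ = 3/4`. -/
theorem bds {γ ζ θ rr ℓ : ℝ} (hK : IsLaw α c K) (hF : KFacts α c K L) (hα : 0 < α)
    (hα1 : α ≤ 1 / 4200) (hc : 0 < c) (hq : 1 ≤ q) (hqL : q ^ L ≤ 1 + 4 * α)
    (hℓ : ℓ = 1 + Real.log (1 / α)) (hℓ1 : 4500 * α * ℓ ≤ 1) (hζ : ζ = 4500 * α ^ 2 * ℓ)
    (hγ : γ = (1 + ζ) / (1 + α)) (hθ : α ^ 2 / 2 ≤ θ) (hr0 : 0 ≤ rr)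
    (hr : rr ^ L ≤ Real.exp (-θ)) (N : ℕ) :
    Bds (fun n => ENNReal.ofReal (K n)) L N γ (ENNReal.ofReal q) (ENNReal.ofReal rr)
      (fun i => ENNReal.ofReal (uR α c L i)) (fun j => ENNReal.ofReal (kR α c L j))
      (ENNReal.ofReal (3 * (α * (L : ℝ) ^ α / c))) (ENNReal.ofReal (3 / 4)) := by
  have hL : 0 < L := by have := hF.big; omega
  have hlog : 0 ≤ Real.log (1 / α) := by
    apply Real.log_nonneg
    rw [le_div_iff₀ hα]; linarith
  have hℓ2 : 1 ≤ ℓ := by rw [hℓ]; linarith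
  have hζ0 : 0 < ζ := by rw [hζ]; positivity
  have hζ1 : ζ ≤ 1 := by
    rw [hζ]
    have : 4500 * α ^ 2 * ℓ = α * (4500 * α * ℓ) := by ring
    rw [this]; nlinarith
  have hθ0 : 0 < θ := lt_of_lt_of_le (by positivity) hθ
  have hζ2 : (1 + α) * γ = 1 + ζ := by rw [hγ]; field_simp
  have hγ1 : 1 - α ≤ γ := by
    rw [hγ, le_div_iff₀ (by positivity)]; nlinarith
  have hγ0 : 0 ≤ γ := by linarith
  refine ⟨?_, ?_, ?_, ?_⟩
  · intro x hx
    rw [ren_kA_eq hK.nonneg hq hx]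
    refine ENNReal.ofReal_le_ofReal ?_
    have hg := rf_nonneg (kap_nonneg (L := L) hK.nonneg hq)
    refine le_trans ?_ ((kap_window hK hF hα (by linarith) hc hq hqL).1 (N - x + 1))
    exact single_le_sum (f := rf (kap K L q)) (fun i _ => hg i) (mem_range.2 (by omega))
  · intro x j
    exact hu_bound hK hF hα (by linarith) hc hq hqL N x j
  · intro s j
    exact hk_bound hK hF hα (by linarith) hc hq hqL N s j
  · have h1 : ∀ i j, (ENNReal.ofReal (uR α c L i) * ENNReal.ofReal (kR α c L j)) ^ γ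
        * ENNReal.ofReal rr ^ (j * L)
        = ENNReal.ofReal ((uR α c L i * kR α c L j) ^ γ * rr ^ (j * L)) := by
      intro i j
      have hu0 := uR_nonneg (L := L) hα hc i
      have hk0 := kR_nonneg (α := α) (L := L) hc j
      rw [← ENNReal.ofReal_mul hu0, ENNReal.ofReal_rpow_of_nonneg (by positivity) hγ0,
        ← ENNReal.ofReal_pow hr0, ← ENNReal.ofReal_mul (by positivity)]
    simp_rw [h1]
    have hnn : ∀ i j, 0 ≤ (uR α c L i * kR α c L j) ^ γ * rr ^ (j * L) := by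
      intro i j
      have hu0 := uR_nonneg (L := L) hα hc i
      have hk0 := kR_nonneg (α := α) (L := L) hc j
      positivity
    have h2 : ∀ i, ∑ j ∈ range (N + 1), ENNReal.ofReal ((uR α c L i * kR α c L j) ^ γ
        * rr ^ (j * L)) = ENNReal.ofReal (∑ j ∈ range (N + 1),
          (uR α c L i * kR α c L j) ^ γ * rr ^ (j * L)) := by
      intro i
      rw [ENNReal.ofReal_sum_of_nonneg (fun j _ => hnn i j)]
    simp_rw [h2]
    rw [← ENNReal.ofReal_sum_of_nonneg (fun i _ => sum_nonneg fun j _ => hnn i j)]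
    refine ENNReal.ofReal_le_ofReal ?_
    refine (rho_real hα hα1 hc hγ1 hζ2 hζ0 hζ1 hθ0 hr0 hr hL N).trans ?_
    exact rho_small hα hℓ hℓ1 hζ hα1 hθ

end Pool.Agent.Cop

end
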