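import Mathlib

/-!
Second order expansion of the moment generating function of a centred, normalised variable.
-/

open MeasureTheory ProbabilityTheory Real Finset

noncomputable section

namespace Pool.Agent.Cop

lemma exp_le_taylor3 (x : ℝ) : Real.exp x ≤ 1 + x + x ^ 2 / 2 + |x| ^ 3 * Real.exp |x| := by
  have h := Complex.norm_exp_sub_sum_le_norm_mul_exp (x : ℂ) 3
  have h1 : (Complex.exp (x : ℂ) - ∑ m ∈ range 3, (x : ℂ) ^ m / (m.factorial : ℂ))
      = ((Real.exp x - (1 + x + x ^ 2 / 2) : ℝ) : ℂ) := by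
    simp [sum_range_succ, Nat.factorial]
  rw [h1, Complex.norm_real, Complex.norm_real, Real.norm_eq_abs, Real.norm_eq_abs] at h
  have := (abs_le.1 h).2
  linarith

variable {Ω : Type*} [MeasurableSpace Ω] {P : Measure Ω} [IsProbabilityMeasure P]

lemma mgf_bound {X : Ω → ℝ} (hexp : ∀ t : ℝ, Integrable (fun ω => Real.exp (t * X ω)) P)
    (h1 : ∫ ω, X ω ∂P = 0) (h2 : ∫ ω, X ω ^ 2 ∂P = 1) :
    ∃ C : ℝ, 0 ≤ C ∧ ∀ t : ℝ, |t| ≤ 1 →
      ∫ ω, Real.exp (t * X ω) ∂P ≤ Real.exp (t ^ 2 / 2 + C * |t| ^ 3) := by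
  have i1 : Integrable X P := by
    have := integrable_pow_of_integrable_exp_mul (X := X) (t := 1) (by norm_num) (hexp 1)
      (hexp (-1)) 1
    simpa using this
  have i2 : Integrable (fun ω => X ω ^ 2) P :=
    integrable_pow_of_integrable_exp_mul (t := 1) (by norm_num) (hexp 1) (hexp (-1)) 2
  set Y : Ω → ℝ := fun ω => 6 * (Real.exp (2 * X ω) + Real.exp (-2 * X ω)) with hY
  have iY : Integrable Y P := ((hexp 2).add (hexp (-2))).const_mul 6
  have hY0 : ∀ ω, 0 ≤ Y ω := fun ω => by simp only [hY]; positivity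
  refine ⟨∫ ω, Y ω ∂P, integral_nonneg hY0, fun t ht => ?_⟩
  have hpt : ∀ ω, Real.exp (t * X ω) ≤ 1 + t * X ω + t ^ 2 / 2 * X ω ^ 2 + |t| ^ 3 * Y ω := by
    intro ω
    have h := exp_le_taylor3 (t * X ω)
    have h3 : |t * X ω| ^ 3 * Real.exp |t * X ω| ≤ |t| ^ 3 * Y ω := by
      rw [abs_mul, mul_pow, mul_assoc]
      refine mul_le_mul_of_nonneg_left ?_ (by positivity)
      have h4 : |X ω| ^ 3 ≤ 6 * Real.exp |X ω| := by
        have := Real.pow_div_factorial_le_exp |X ω| (abs_nonneg _) 3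
        have h6 : ((3 : ℕ).factorial : ℝ) = 6 := by norm_num [Nat.factorial]
        rw [h6, div_le_iff₀ (by norm_num)] at this
        linarith
      have h5 : Real.exp (|t| * |X ω|) ≤ Real.exp |X ω| := by
        apply Real.exp_le_exp.2
        nlinarith [abs_nonneg (X ω), abs_nonneg t]
      calc |X ω| ^ 3 * Real.exp (|t| * |X ω|) ≤ 6 * Real.exp |X ω| * Real.exp |X ω| := by
            gcongr
        _ = 6 * Real.exp (2 * |X ω|) := by rw [mul_assoc, ← Real.exp_add]; ring_nf
        _ ≤ Y ω := by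
            simp only [hY]
            have : Real.exp (2 * |X ω|) ≤ Real.exp (2 * X ω) + Real.exp (-2 * X ω) := by
              rcases abs_cases (X ω) with ⟨h, _⟩ | ⟨h, _⟩
              · rw [h]; linarith [Real.exp_pos (-2 * X ω)]
              · rw [h]
                have : 2 * -X ω = -2 * X ω := by ring
                rw [this]; linarith [Real.exp_pos (2 * X ω)]
            linarith
    calc Real.exp (t * X ω) ≤ 1 + t * X ω + (t * X ω) ^ 2 / 2
          + |t * X ω| ^ 3 * Real.exp |t * X ω| := h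
      _ ≤ 1 + t * X ω + (t * X ω) ^ 2 / 2 + |t| ^ 3 * Y ω := by gcongr
      _ = _ := by ring
  have hint : ∫ ω, Real.exp (t * X ω) ∂P ≤ 1 + t ^ 2 / 2 + |t| ^ 3 * ∫ ω, Y ω ∂P := by
    have ia : Integrable (fun ω => 1 + t * X ω) P := (integrable_const 1).add (i1.const_mul t)
    have ib : Integrable (fun ω => 1 + t * X ω + t ^ 2 / 2 * X ω ^ 2) P :=
      ia.add (i2.const_mul _)
    calc ∫ ω, Real.exp (t * X ω) ∂P
        ≤ ∫ ω, (1 + t * X ω + t ^ 2 / 2 * X ω ^ 2 + |t| ^ 3 * Y ω) ∂P :=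
          integral_mono (hexp t) (ib.add (iY.const_mul _)) hpt
      _ = 1 + t ^ 2 / 2 + |t| ^ 3 * ∫ ω, Y ω ∂P := by
          rw [integral_add ib (iY.const_mul _), integral_add ia (i2.const_mul _),
            integral_add (integrable_const 1) (i1.const_mul t), integral_const_mul,
            integral_const_mul, integral_const_mul, h1, h2]
          simp
  refine hint.trans ?_
  have := Real.add_one_le_exp (t ^ 2 / 2 + (∫ ω, Y ω ∂P) * |t| ^ 3)
  linarith

end Pool.Agent.Cop

end
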