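import Mathlib
import Pool.Agent.Work.MP_cceb86_pr.Bnd
import Pool.Agent.Work.MP_cceb86_pr.Mgf
import Pool.Agent.Work.MP_cceb86_pr.Total

/-!
The random environment and the main fractional moment theorem.
-/

open Finset MeasureTheory ProbabilityTheory Real Filter Topology
open scoped ENNReal NNReal

noncomputable section

namespace Pool.Agent.Cop

variable {Ω : Type*} [MeasurableSpace Ω] {P : Measure Ω}

/-- the weight of a monomer below the interface -/
def ew (w : ℕ → Ω → ℝ) (lam h : ℝ) (n : ℕ) (x : Ω) : ℝ≥0∞ :=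
  ENNReal.ofReal (Real.exp (-2 * lam * (w n x + h)))

lemma IsDisorder.prob {w : ℕ → Ω → ℝ} (hw : IsDisorder P w) : IsProbabilityMeasure P :=
  hw.indep.isProbabilityMeasure

lemma IsDisorder.lint {w : ℕ → Ω → ℝ} (hw : IsDisorder P w) (s : ℝ) (n : ℕ) (b : ℝ) :
    ∫⁻ x, ENNReal.ofReal (Real.exp (s * w n x + b)) ∂P
      = ENNReal.ofReal (Real.exp b * ∫ x, Real.exp (s * w 0 x) ∂P) := by
  have h1 : ∀ x, Real.exp (s * w n x + b) = Real.exp b * Real.exp (s * w n x) := by
    intro x; rw [Real.exp_add]; ring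
  have hid : IdentDistrib (fun x => Real.exp (s * w n x)) (fun x => Real.exp (s * w 0 x)) P P :=
    (hw.ident n).comp (u := fun y => Real.exp (s * y)) (by fun_prop)
  have hint : Integrable (fun x => Real.exp (s * w n x)) P := hid.integrable_iff.2 (hw.expInt s)
  simp_rw [h1]
  rw [← ofReal_integral_eq_lintegral_ofReal (hint.const_mul _)
    (Eventually.of_forall fun x => by positivity), integral_const_mul, hid.integral_eq]

lemma IsDisorder.weights {w : ℕ → Ω → ℝ} (hw : IsDisorder P w) {lam h γ qq rr : ℝ}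
    (hq : Real.exp (-2 * lam * h) * ∫ x, Real.exp (-2 * lam * w 0 x) ∂P ≤ qq)
    (hr : Real.exp (-2 * lam * h * γ) * ∫ x, Real.exp (-2 * lam * γ * w 0 x) ∂P ≤ rr) :
    Weights P (ew w lam h) γ (ENNReal.ofReal qq) (ENNReal.ofReal rr) := by
  refine ⟨?_, ?_, ?_, ?_⟩
  · intro n
    have := hw.meas n
    unfold ew
    fun_prop
  · exact hw.indep.comp (fun _ y => ENNReal.ofReal (Real.exp (-2 * lam * (y + h))))
      (fun _ => by fun_prop)
  · intro n
    have h1 : ∀ x, ew w lam h n x = ENNReal.ofReal (Real.exp ((-2 * lam) * w n x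
        + (-2 * lam * h))) := by
      intro x; unfold ew; congr 2; ring
    simp_rw [h1]
    rw [hw.lint]
    exact ENNReal.ofReal_le_ofReal hq
  · intro n
    have h1 : ∀ x, (ew w lam h n x) ^ γ = ENNReal.ofReal (Real.exp ((-2 * lam * γ) * w n x
        + (-2 * lam * h * γ))) := by
      intro x; unfold ew
      rw [ENNReal.ofReal_rpow_of_pos (Real.exp_pos _), ← Real.exp_mul]
      congr 2; ring
    simp_rw [h1]
    rw [hw.lint]
    exact ENNReal.ofReal_le_ofReal hr

/-- The slope bound. -/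
def m0 (α : ℝ) : ℝ := 1 - α + 5000 * α ^ 2 * (1 + Real.log (1 / α))

lemma log_nonneg' {α : ℝ} (hα : 0 < α) (hα1 : α < 1) : 0 ≤ Real.log (1 / α) := by
  apply Real.log_nonneg
  rw [le_div_iff₀ hα]; linarith

/-- The fractional moment of the partition function grows at most linearly. -/
theorem frac_main {w : ℕ → Ω → ℝ} (hw : IsDisorder P w) {α c : ℝ} {K : ℕ → ℝ}
    (hK : IsLaw α c K) (hα : 0 < α) (hα1 : α < 1) (hc : 0 < c) :
    ∃ lam₀ : ℝ, 0 < lam₀ ∧ ∀ lam : ℝ, 0 < lam → lam < lam₀ → ∀ h : ℝ, m0 α * lam ≤ h →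
      ∃ γ : ℝ, 0 < γ ∧ γ ≤ 1 ∧ ∃ B : ℝ≥0∞, B ≠ ∞ ∧ ∀ (Kb : ℕ → ℝ≥0∞), (∀ n, Kb n ≤ 1) →
        ∀ N : ℕ, ∫⁻ x, (Zf (fun n => ENNReal.ofReal (K n)) Kb N (fun j => ew w lam h j x)) ^ γ ∂P
          ≤ B * (N + 1 : ℕ) := by
  have := hw.prob
  obtain ⟨C, hC0, hC⟩ := mgf_bound hw.expInt hw.mean hw.var
  set ℓ : ℝ := 1 + Real.log (1 / α) with hℓ
  have hlog := log_nonneg' hα hα1
  have hℓ2 : 1 ≤ ℓ := by rw [hℓ]; linarith
  have hm0 : m0 α = 1 - α + 5000 * α ^ 2 * ℓ := rfl
  by_cases hcase : 4500 * α * ℓ ≤ 1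
  · -- the main case
    have hα4 : α ≤ 1 / 4200 := by nlinarith
    have hα10 : α ≤ 1 / 10 := by linarith
    set ζ : ℝ := 4500 * α ^ 2 * ℓ with hζ
    set γ : ℝ := (1 + ζ) / (1 + α) with hγ
    have hζ0 : 0 < ζ := by rw [hζ]; positivity
    have hζα : ζ ≤ α := by
      have : ζ = α * (4500 * α * ℓ) := by rw [hζ]; ring
      rw [this]; nlinarith
    have hγ1 : γ ≤ 1 := by rw [hγ, div_le_one (by positivity)]; linarith
    have hγl : 1 / 2 ≤ γ := by
      rw [hγ, le_div_iff₀ (by positivity)]; linarith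
    have hγ0 : 0 < γ := by linarith
    -- m0 - γ ≥ 499 α²
    have hgap : 499 * α ^ 2 ≤ m0 α - γ := by
      have h1 : γ ≤ 1 - α + α ^ 2 + ζ := by
        rw [hγ, div_le_iff₀ (by positivity)]
        nlinarith [mul_pos hα hα, mul_pos (mul_pos hα hα) hα, mul_pos hα hζ0]
      rw [hm0]
      have h2 : 5000 * α ^ 2 * ℓ = 500 * α ^ 2 * ℓ + ζ := by rw [hζ]; ring
      have h3 : α ^ 2 ≤ α ^ 2 * ℓ := by nlinarith [sq_nonneg α]
      nlinarith
    obtain ⟨L₀, hL₀⟩ := eventually_atTop.1 (hK.kfacts hc hα hα10)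
    refine ⟨min (min (1 / 4) (α ^ 2 / (16 * C + 1))) (1 / Real.sqrt (L₀ + 1)), by positivity, ?_⟩
    intro lam hl0 hl1 h hh
    have hl2 : lam < 1 / 4 := lt_of_lt_of_le hl1 ((min_le_left _ _).trans (min_le_left _ _))
    have hl3 : lam < α ^ 2 / (16 * C + 1) :=
      lt_of_lt_of_le hl1 ((min_le_left _ _).trans (min_le_right _ _))
    have hl4 : lam < 1 / Real.sqrt (L₀ + 1) := lt_of_lt_of_le hl1 (min_le_right _ _)
    set L : ℕ := ⌈1 / lam ^ 2⌉₊ with hL
    have hlam2 : 0 < lam ^ 2 := by positivity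
    have hL1 : 1 ≤ lam ^ 2 * L := by
      have := Nat.le_ceil (1 / lam ^ 2)
      rw [div_le_iff₀ hlam2] at this
      linarith
    have hL2 : lam ^ 2 * L ≤ 6 / 5 := by
      have := Nat.ceil_lt_add_one (a := 1 / lam ^ 2) (by positivity)
      have h2 : (L : ℝ) < 1 / lam ^ 2 + 1 := this
      have h3 : lam ^ 2 * (1 / lam ^ 2 + 1) = 1 + lam ^ 2 := by field_simp
      nlinarith
    have hLbig : L₀ ≤ L := by
      have h1 : Real.sqrt (L₀ + 1) * lam < 1 := by
        rw [lt_div_iff₀ (by positivity)] at hl4; linarith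
      have h2 : ((L₀ : ℝ) + 1) * lam ^ 2 < 1 := by
        have h3 : (Real.sqrt (L₀ + 1) * lam) ^ 2 < 1 := by
          have : 0 < Real.sqrt (L₀ + 1) * lam := by positivity
          nlinarith
        rwa [mul_pow, Real.sq_sqrt (by positivity)] at h3
      have h3 : (L₀ : ℝ) ≤ L := by
        have : (L₀ : ℝ) * lam ^ 2 < lam ^ 2 * L := by nlinarith
        nlinarith
      exact_mod_cast h3
    have hF : KFacts α c K L := hL₀ L hLbig
    have hLpos : 0 < L := by have := hF.big; omega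
    -- smallness of the cubic term
    have hcub : 8 * C * lam ^ 3 ≤ α ^ 2 / 2 * lam ^ 2 := by
      have h1 : lam * (16 * C + 1) < α ^ 2 := by rwa [lt_div_iff₀ (by positivity)] at hl3
      nlinarith [mul_pos hlam2 hl0]
    set qq : ℝ := Real.exp (5 / 2 * α * lam ^ 2) with hqq
    set rr : ℝ := Real.exp (-(α ^ 2 * lam ^ 2)) with hrr
    have hq1 : 1 ≤ qq := by rw [hqq]; exact Real.one_le_exp (by positivity)
    have hqL : qq ^ L ≤ 1 + 4 * α := by
      rw [hqq, ← Real.exp_nat_mul]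
      refine le_trans (Real.exp_le_exp.2 ?_) (exp3 hα hα10)
      nlinarith
    have hrL : rr ^ L ≤ Real.exp (-(α ^ 2)) := by
      rw [hrr, ← Real.exp_nat_mul]
      refine Real.exp_le_exp.2 ?_
      nlinarith [sq_nonneg α]
    have hW : Weights P (ew w lam h) γ (ENNReal.ofReal qq) (ENNReal.ofReal rr) := by
      refine hw.weights ?_ ?_
      · have h1 := hC (-2 * lam) (by rw [abs_mul, abs_of_pos hl0]; norm_num; linarith)
        calc Real.exp (-2 * lam * h) * ∫ x, Real.exp (-2 * lam * w 0 x) ∂P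
            ≤ Real.exp (-2 * lam * h) * Real.exp ((-2 * lam) ^ 2 / 2 + C * |-2 * lam| ^ 3) := by
              gcongr
          _ = Real.exp (-2 * lam * h + 2 * lam ^ 2 + 8 * C * lam ^ 3) := by
              rw [← Real.exp_add]; congr 1
              rw [abs_mul, abs_of_pos hl0]; norm_num; ring
          _ ≤ qq := by
              rw [hqq]
              refine Real.exp_le_exp.2 ?_
              have h2 : 2 * lam * (m0 α * lam) ≤ 2 * lam * h := by gcongr
              have h3 : 0 ≤ 5000 * α ^ 2 * ℓ * lam ^ 2 := by positivity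
              have h4 : α ^ 2 / 2 * lam ^ 2 ≤ α / 2 * lam ^ 2 := by
                have : α ^ 2 ≤ α := by nlinarith
                gcongr
              rw [hm0] at h2
              nlinarith
      · have h1 := hC (-2 * lam * γ) (by
          rw [abs_mul, abs_mul, abs_of_pos hl0, abs_of_pos hγ0]; norm_num; nlinarith)
        calc Real.exp (-2 * lam * h * γ) * ∫ x, Real.exp (-2 * lam * γ * w 0 x) ∂P
            ≤ Real.exp (-2 * lam * h * γ) *
              Real.exp ((-2 * lam * γ) ^ 2 / 2 + C * |-2 * lam * γ| ^ 3) := by gcongr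
          _ = Real.exp (-2 * lam * h * γ + 2 * lam ^ 2 * γ ^ 2 + 8 * C * lam ^ 3 * γ ^ 3) := by
              rw [← Real.exp_add]; congr 1
              rw [abs_mul, abs_mul, abs_of_pos hl0, abs_of_pos hγ0]; norm_num; ring
          _ ≤ rr := by
              rw [hrr]
              refine Real.exp_le_exp.2 ?_
              have h2 : 2 * lam * γ * (m0 α * lam) ≤ 2 * lam * γ * h := by gcongr
              have h3 : γ ^ 3 ≤ 1 := pow_le_one₀ hγ0.le hγ1
              have h4 : 8 * C * lam ^ 3 * γ ^ 3 ≤ α ^ 2 / 2 * lam ^ 2 := by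
                calc 8 * C * lam ^ 3 * γ ^ 3 ≤ 8 * C * lam ^ 3 * 1 := by gcongr
                  _ ≤ _ := by linarith
              have h5 : lam ^ 2 * γ * (499 * α ^ 2) ≤ lam ^ 2 * γ * (m0 α - γ) := by gcongr
              have h6 : 1 / 2 * (lam ^ 2 * α ^ 2) ≤ γ * (lam ^ 2 * α ^ 2) := by gcongr
              nlinarith
    have hB : ∀ N, Bds (fun n => ENNReal.ofReal (K n)) L N γ (ENNReal.ofReal qq)
        (ENNReal.ofReal rr) (fun i => ENNReal.ofReal (uR α c L i))
        (fun j => ENNReal.ofReal (kR α c L j))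
        (ENNReal.ofReal (3 * (α * (L : ℝ) ^ α / c))) (ENNReal.ofReal (3 / 4)) := fun N =>
      bds (θ := α ^ 2) hK hF hα hα4 hc hq1 hqL hℓ hcase hζ hγ
        (by nlinarith [sq_nonneg α]) (Real.exp_pos _).le hrL N
    refine ⟨γ, hγ0, hγ1, 8 * (ENNReal.ofReal (3 * (α * (L : ℝ) ^ α / c))) ^ γ, ?_, ?_⟩
    · exact ENNReal.mul_ne_top (by norm_num)
        (ENNReal.rpow_ne_top_of_nonneg hγ0.le ENNReal.ofReal_ne_top)
    · intro Kb hKb N
      refine free_bound hLpos hW hγ0 hγ1 hB le_rfl ?_ hKb N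
      rw [← ENNReal.ofReal_one]
      refine ENNReal.ofReal_le_ofReal ?_
      rw [hrr, ← Real.exp_zero]
      exact Real.exp_le_exp.2 (by nlinarith [sq_nonneg α])
  · -- the annealed case
    push Not at hcase
    refine ⟨min (1 / 2) (α / (72 * C + 1)), by positivity, ?_⟩
    intro lam hl0 hl1 h hh
    have hl2 : lam < 1 / 2 := lt_of_lt_of_le hl1 (min_le_left _ _)
    have hl3 : lam < α / (72 * C + 1) := lt_of_lt_of_le hl1 (min_le_right _ _)
    have hlam2 : 0 < lam ^ 2 := by positivity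
    have hcub : 8 * C * lam ^ 3 ≤ α / 9 * lam ^ 2 := by
      have h1 : lam * (72 * C + 1) < α := by rwa [lt_div_iff₀ (by positivity)] at hl3
      nlinarith [mul_pos hlam2 hl0]
    have hq1 : Real.exp (-2 * lam * h) * ∫ x, Real.exp (-2 * lam * w 0 x) ∂P ≤ 1 := by
      have h1 := hC (-2 * lam) (by rw [abs_mul, abs_of_pos hl0]; norm_num; linarith)
      calc Real.exp (-2 * lam * h) * ∫ x, Real.exp (-2 * lam * w 0 x) ∂P
          ≤ Real.exp (-2 * lam * h) * Real.exp ((-2 * lam) ^ 2 / 2 + C * |-2 * lam| ^ 3) := by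
            gcongr
        _ = Real.exp (-2 * lam * h + 2 * lam ^ 2 + 8 * C * lam ^ 3) := by
            rw [← Real.exp_add]; congr 1
            rw [abs_mul, abs_of_pos hl0]; norm_num; ring
        _ ≤ Real.exp 0 := by
            refine Real.exp_le_exp.2 ?_
            have h2 : 2 * lam * (m0 α * lam) ≤ 2 * lam * h := by gcongr
            have h3 : α / 9 ≤ m0 α - 1 := by
              rw [hm0]
              have : 5000 * α ^ 2 * ℓ = 5000 / 4500 * α * (4500 * α * ℓ) := by ring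
              rw [this]
              nlinarith
            nlinarith
        _ = 1 := Real.exp_zero
    have hW : Weights P (ew w lam h) 1 (ENNReal.ofReal 1) (ENNReal.ofReal 1) := by
      refine hw.weights hq1 ?_
      simpa using hq1
    refine ⟨1, one_pos, le_rfl, 1, by norm_num, ?_⟩
    intro Kb hKb N
    refine annealed_bound hW (by simp) ?_ hKb N
    intro M
    rw [← ENNReal.ofReal_sum_of_nonneg (fun n _ => hK.nonneg n), ← ENNReal.ofReal_one]
    exact ENNReal.ofReal_le_ofReal (hK.sum_le_one _)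

end Pool.Agent.Cop

end
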