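import Mathlib
import Pool.Agent.Work.MP_cceb86_pr.Envi
import Pool.Agent.Work.MP_cceb86_pr.Mgf

/-!
Two sided bounds for the exponential moments of linear functionals of the charges.
-/

open Finset MeasureTheory ProbabilityTheory
open scoped ENNReal

noncomputable section

namespace Pool.Agent.Cop

lemma taylor3_le_exp (x : ℝ) : 1 + x + x ^ 2 / 2 - |x| ^ 3 * Real.exp |x| ≤ Real.exp x := by
  have h := Complex.norm_exp_sub_sum_le_norm_mul_exp (x : ℂ) 3
  have h1 : (Complex.exp (x : ℂ) - ∑ m ∈ range 3, (x : ℂ) ^ m / (m.factorial : ℂ))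
      = ((Real.exp x - (1 + x + x ^ 2 / 2) : ℝ) : ℂ) := by
    simp [sum_range_succ, Nat.factorial]
  rw [h1, Complex.norm_real, Complex.norm_real, Real.norm_eq_abs, Real.norm_eq_abs] at h
  have := (abs_le.1 h).1
  linarith

section One

variable {Ω : Type*} [MeasurableSpace Ω] {P : Measure Ω} [IsProbabilityMeasure P]

lemma mgf_lower {X : Ω → ℝ} (hexp : ∀ t : ℝ, Integrable (fun ω => Real.exp (t * X ω)) P)
    (h1 : ∫ ω, X ω ∂P = 0) (h2 : ∫ ω, X ω ^ 2 ∂P = 1) :
    ∃ C : ℝ, 0 ≤ C ∧ ∀ t : ℝ, |t| ≤ 1 →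
      Real.exp (t ^ 2 / 2 - C * |t| ^ 3) ≤ ∫ ω, Real.exp (t * X ω) ∂P := by
  have i1 : Integrable X P := by
    have := integrable_pow_of_integrable_exp_mul (X := X) (t := 1) (by norm_num) (hexp 1)
      (hexp (-1)) 1
    simpa using this
  have i2 : Integrable (fun ω => X ω ^ 2) P :=
    integrable_pow_of_integrable_exp_mul (t := 1) (by norm_num) (hexp 1) (hexp (-1)) 2
  set Y : Ω → ℝ := fun ω => 6 * (Real.exp (2 * X ω) + Real.exp (-2 * X ω)) with hY
  have iY : Integrable Y P := ((hexp 2).add (hexp (-2))).const_mul 6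
  have hY0 : ∀ ω, 0 ≤ Y ω := fun ω => by simp only [hY]; positivity
  set C0 := ∫ ω, Y ω ∂P with hC0
  have hC00 : 0 ≤ C0 := integral_nonneg hY0
  refine ⟨C0 + 1, by linarith, fun t ht => ?_⟩
  have hpt : ∀ ω, 1 + t * X ω + t ^ 2 / 2 * X ω ^ 2 - |t| ^ 3 * Y ω ≤ Real.exp (t * X ω) := by
    intro ω
    have h := taylor3_le_exp (t * X ω)
    have h3 : |t * X ω| ^ 3 * Real.exp |t * X ω| ≤ |t| ^ 3 * Y ω := by
      rw [abs_mul, mul_pow, mul_assoc]
      refine mul_le_mul_of_nonneg_left ?_ (by positivity)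
      have h4 : |X ω| ^ 3 ≤ 6 * Real.exp |X ω| := by
        have := Real.pow_div_factorial_le_exp |X ω| (abs_nonneg _) 3
        have h6 : ((3 : ℕ).factorial : ℝ) = 6 := by norm_num [Nat.factorial]
        rw [h6, div_le_iff₀ (by norm_num)] at this
        linarith
      have h5 : Real.exp (|t| * |X ω|) ≤ Real.exp |X ω| := by
        apply Real.exp_le_exp.2
        nlinarith [abs_nonneg (X ω), abs_nonneg t]
      calc |X ω| ^ 3 * Real.exp (|t| * |X ω|) ≤ 6 * Real.exp |X ω| * Real.exp |X ω| := by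
            gcongr
        _ = 6 * Real.exp (2 * |X ω|) := by rw [mul_assoc, ← Real.exp_add]; ring_nf
        _ ≤ Y ω := by
            simp only [hY]
            have : Real.exp (2 * |X ω|) ≤ Real.exp (2 * X ω) + Real.exp (-2 * X ω) := by
              rcases abs_cases (X ω) with ⟨h, _⟩ | ⟨h, _⟩
              · rw [h]; linarith [Real.exp_pos (-2 * X ω)]
              · rw [h]
                have : 2 * -X ω = -2 * X ω := by ring
                rw [this]; linarith [Real.exp_pos (2 * X ω)]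
            linarith
    have h7 : (t * X ω) ^ 2 / 2 = t ^ 2 / 2 * X ω ^ 2 := by ring
    rw [h7] at h
    linarith
  have ia : Integrable (fun ω => 1 + t * X ω) P := (integrable_const 1).add (i1.const_mul t)
  have ib : Integrable (fun ω => 1 + t * X ω + t ^ 2 / 2 * X ω ^ 2) P :=
    ia.add (i2.const_mul _)
  have hint : 1 + t ^ 2 / 2 - |t| ^ 3 * C0 ≤ ∫ ω, Real.exp (t * X ω) ∂P := by
    calc 1 + t ^ 2 / 2 - |t| ^ 3 * C0
        = ∫ ω, (1 + t * X ω + t ^ 2 / 2 * X ω ^ 2 - |t| ^ 3 * Y ω) ∂P := by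
          rw [integral_sub ib (iY.const_mul _), integral_add ia (i2.const_mul _),
            integral_add (integrable_const 1) (i1.const_mul t), integral_const_mul,
            integral_const_mul, integral_const_mul, h1, h2]
          simp
          exact Or.inl hC0
      _ ≤ ∫ ω, Real.exp (t * X ω) ∂P :=
          integral_mono (ib.sub (iY.const_mul _)) (hexp t) hpt
  have hjen : 1 ≤ ∫ ω, Real.exp (t * X ω) ∂P := by
    calc (1 : ℝ) = ∫ ω, (1 + t * X ω) ∂P := by
          rw [integral_add (integrable_const 1) (i1.const_mul t), integral_const_mul, h1]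
          simp
      _ ≤ ∫ ω, Real.exp (t * X ω) ∂P := by
          refine integral_mono ia (hexp t) fun ω => ?_
          have := Real.add_one_le_exp (t * X ω)
          simp only
          linarith
  rcases le_or_gt (t ^ 2 / 2 - (C0 + 1) * |t| ^ 3) 0 with h | h
  · exact (Real.exp_le_one_iff.2 h).trans hjen
  · refine le_trans ?_ hint
    set u := t ^ 2 / 2 - (C0 + 1) * |t| ^ 3 with hu
    have hs0 : 0 ≤ |t| := abs_nonneg t
    have hs2 : t ^ 2 = |t| ^ 2 := (sq_abs t).symm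
    have hs3 : 0 ≤ |t| ^ 3 := by positivity
    have hu1 : u ≤ |t| ^ 2 / 2 := by
      rw [hu, hs2]
      nlinarith
    have hsq : |t| ^ 2 ≤ 1 := by nlinarith
    have h8 : |u| ≤ 1 := by rw [abs_of_pos h]; linarith
    have h9 := (abs_le.1 (Real.abs_exp_sub_one_sub_id_le h8)).2
    have h10 : u ^ 2 ≤ |t| ^ 3 := by
      have h11 : u ^ 2 ≤ (|t| ^ 2 / 2) ^ 2 := by
        exact pow_le_pow_left₀ h.le hu1 2
      have h12 : (|t| ^ 2 / 2) ^ 2 ≤ |t| ^ 3 := by
        have : (|t| ^ 2 / 2) ^ 2 = |t| ^ 3 * (|t| / 4) := by ring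
        rw [this]
        have h13 : |t| / 4 ≤ 1 := by linarith
        calc |t| ^ 3 * (|t| / 4) ≤ |t| ^ 3 * 1 := by gcongr
          _ = _ := mul_one _
      exact h11.trans h12
    have h14 : Real.exp u ≤ 1 + u + u ^ 2 := by linarith
    calc Real.exp u ≤ 1 + u + u ^ 2 := h14
      _ ≤ 1 + u + |t| ^ 3 := by linarith
      _ = 1 + t ^ 2 / 2 - |t| ^ 3 * C0 := by rw [hu]; ring

end One

variable {Ω : Type*} [MeasurableSpace Ω] {Q : Measure Ω} {w : ℕ → Ω → ℝ}

lemma lint_lin (hw : IsDisorder Q w) (N a : ℕ) (s b : ℕ → ℝ) :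
    ∫⁻ x, ENNReal.ofReal (Real.exp (∑ i ∈ range N, (s i * w (i + a) x + b i))) ∂Q
      = ∏ i ∈ range N, ENNReal.ofReal (Real.exp (b i) * ∫ x, Real.exp (s i * w 0 x) ∂Q) := by
  have h1 : ∀ x, ENNReal.ofReal (Real.exp (∑ i ∈ range N, (s i * w (i + a) x + b i))) =
      ∏ i ∈ range N, ENNReal.ofReal (Real.exp (s i * w (i + a) x + b i)) := by
    intro x
    rw [Real.exp_sum, ENNReal.ofReal_prod_of_nonneg fun i _ => (Real.exp_pos _).le]
  simp_rw [h1]
  have hind : iIndepFun (fun (i : ℕ) (x : Ω) =>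
      ENNReal.ofReal (Real.exp (s i * w (i + a) x + b i))) Q := by
    have h2 : iIndepFun (fun (i : ℕ) => w (i + a)) Q :=
      hw.indep.precomp (g := fun i => i + a) (add_left_injective a)
    exact h2.comp (fun i y => ENNReal.ofReal (Real.exp (s i * y + b i)))
      (fun i => by fun_prop)
  rw [lintegral_prod_eq_prod_lintegral_of_indepFun (range N) _ hind]
  · exact Finset.prod_congr rfl fun i _ => hw.lint (s i) (i + a) (b i)
  · intro i
    have := hw.meas (i + a)
    fun_prop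

/-- **two sided moment bounds of linear functionals of the charges** -/
theorem lin_mgf (hw : IsDisorder Q w) : ∃ C : ℝ, 0 ≤ C ∧ ∀ lam hh : ℝ, 0 < lam → lam ≤ 1 / 8 →
    ∀ (N a : ℕ) (Φ : ℕ → ℝ), (∀ x, 0 ≤ Φ x) → (∀ x, Φ x ≤ 2) →
    ENNReal.ofReal (Real.exp (∑ x ∈ range N, (2 * lam ^ 2 * (Φ x) ^ 2 - 2 * lam * hh * Φ x)
        - C * lam ^ 3 * N)) ≤
      ∫⁻ om, ENNReal.ofReal (Real.exp (∑ x ∈ range N, Φ x * (-2 * lam * (w (x + a) om + hh)))) ∂Q ∧
    ∫⁻ om, ENNReal.ofReal (Real.exp (∑ x ∈ range N, Φ x * (-2 * lam * (w (x + a) om + hh)))) ∂Q ≤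
      ENNReal.ofReal (Real.exp (∑ x ∈ range N, (2 * lam ^ 2 * (Φ x) ^ 2 - 2 * lam * hh * Φ x)
        + C * lam ^ 3 * N)) := by
  have := hw.prob
  obtain ⟨C1, hC1, H1⟩ := mgf_bound hw.expInt hw.mean hw.var
  obtain ⟨C2, hC2, H2⟩ := mgf_lower hw.expInt hw.mean hw.var
  set C := max C1 C2 with hC
  have hC0 : 0 ≤ C := hC1.trans (le_max_left _ _)
  refine ⟨64 * C, by positivity, fun lam hh hl hl8 N a Φ h0 h2 => ?_⟩
  have hrw : ∀ om, ∑ x ∈ range N, Φ x * (-2 * lam * (w (x + a) om + hh)) =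
      ∑ x ∈ range N, ((-2 * lam * Φ x) * w (x + a) om + (-2 * lam * hh * Φ x)) := by
    intro om
    refine Finset.sum_congr rfl fun x _ => ?_
    ring
  simp_rw [hrw]
  rw [lint_lin hw N a (fun x => -2 * lam * Φ x) (fun x => -2 * lam * hh * Φ x)]
  have habs : ∀ x, |(-2 * lam * Φ x)| = 2 * lam * Φ x := by
    intro x
    rw [show (-2 * lam * Φ x) = -(2 * lam * Φ x) by ring, abs_neg, abs_of_nonneg]
    have := h0 x
    positivity
  have hone : ∀ x, |(-2 * lam * Φ x)| ≤ 1 := by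
    intro x
    rw [habs]
    have h3 := h2 x
    have h4 := h0 x
    nlinarith
  have hcub : ∀ x, |(-2 * lam * Φ x)| ^ 3 ≤ 64 * lam ^ 3 := by
    intro x
    rw [habs]
    have h3 : 2 * lam * Φ x ≤ 4 * lam := by
      have := h2 x
      nlinarith
    have h4 : 0 ≤ 2 * lam * Φ x := by have := h0 x; positivity
    calc (2 * lam * Φ x) ^ 3 ≤ (4 * lam) ^ 3 := pow_le_pow_left₀ h4 h3 3
      _ = 64 * lam ^ 3 := by ring
  have hcub' : ∀ x, C * |(-2 * lam * Φ x)| ^ 3 ≤ 64 * C * lam ^ 3 := by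
    intro x
    calc C * |(-2 * lam * Φ x)| ^ 3 ≤ C * (64 * lam ^ 3) := by gcongr; exact hcub x
      _ = _ := by ring
  constructor
  · calc ENNReal.ofReal (Real.exp (∑ x ∈ range N, (2 * lam ^ 2 * (Φ x) ^ 2 - 2 * lam * hh * Φ x)
          - 64 * C * lam ^ 3 * N))
        = ∏ x ∈ range N, ENNReal.ofReal (Real.exp (2 * lam ^ 2 * (Φ x) ^ 2 - 2 * lam * hh * Φ x
            - 64 * C * lam ^ 3)) := by
          rw [← ENNReal.ofReal_prod_of_nonneg fun i _ => (Real.exp_pos _).le, ← Real.exp_sum]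
          congr 2
          have hs : ∑ x ∈ range N, (2 * lam ^ 2 * (Φ x) ^ 2 - 2 * lam * hh * Φ x
              - 64 * C * lam ^ 3) = ∑ x ∈ range N, (2 * lam ^ 2 * (Φ x) ^ 2
              - 2 * lam * hh * Φ x) - ∑ x ∈ range N, 64 * C * lam ^ 3 := Finset.sum_sub_distrib ..
          rw [hs, Finset.sum_const, card_range, nsmul_eq_mul]
          ring
      _ ≤ _ := by
          refine Finset.prod_le_prod' fun x _ => ENNReal.ofReal_le_ofReal ?_
          have h5 := H2 (-2 * lam * Φ x) (hone x)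
          calc Real.exp (2 * lam ^ 2 * (Φ x) ^ 2 - 2 * lam * hh * Φ x - 64 * C * lam ^ 3)
              ≤ Real.exp (-2 * lam * hh * Φ x) *
                Real.exp ((-2 * lam * Φ x) ^ 2 / 2 - C2 * |(-2 * lam * Φ x)| ^ 3) := by
                rw [← Real.exp_add]
                refine Real.exp_le_exp.2 ?_
                have h6 : C2 * |(-2 * lam * Φ x)| ^ 3 ≤ C * |(-2 * lam * Φ x)| ^ 3 := by
                  gcongr
                  exact le_max_right _ _
                have h7 := hcub' x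
                have h8 : (-2 * lam * Φ x) ^ 2 / 2 = 2 * lam ^ 2 * (Φ x) ^ 2 := by ring
                rw [h8]
                linarith
            _ ≤ _ := by gcongr
  · calc _ ≤ ∏ x ∈ range N, ENNReal.ofReal (Real.exp (2 * lam ^ 2 * (Φ x) ^ 2 - 2 * lam * hh * Φ x
            + 64 * C * lam ^ 3)) := by
          refine Finset.prod_le_prod' fun x _ => ENNReal.ofReal_le_ofReal ?_
          have h5 := H1 (-2 * lam * Φ x) (hone x)
          calc Real.exp (-2 * lam * hh * Φ x) * ∫ y, Real.exp (-2 * lam * Φ x * w 0 y) ∂Q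
              ≤ Real.exp (-2 * lam * hh * Φ x) *
                Real.exp ((-2 * lam * Φ x) ^ 2 / 2 + C1 * |(-2 * lam * Φ x)| ^ 3) := by gcongr
            _ ≤ _ := by
                rw [← Real.exp_add]
                refine Real.exp_le_exp.2 ?_
                have h6 : C1 * |(-2 * lam * Φ x)| ^ 3 ≤ C * |(-2 * lam * Φ x)| ^ 3 := by
                  gcongr
                  exact le_max_left _ _
                have h7 := hcub' x
                have h8 : (-2 * lam * Φ x) ^ 2 / 2 = 2 * lam ^ 2 * (Φ x) ^ 2 := by ring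
                rw [h8]
                linarith
      _ = _ := by
          rw [← ENNReal.ofReal_prod_of_nonneg fun i _ => (Real.exp_pos _).le, ← Real.exp_sum]
          congr 2
          have hs : ∑ x ∈ range N, (2 * lam ^ 2 * (Φ x) ^ 2 - 2 * lam * hh * Φ x
              + 64 * C * lam ^ 3) = ∑ x ∈ range N, (2 * lam ^ 2 * (Φ x) ^ 2
              - 2 * lam * hh * Φ x) + ∑ x ∈ range N, 64 * C * lam ^ 3 := Finset.sum_add_distrib ..
          rw [hs, Finset.sum_const, card_range, nsmul_eq_mul]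
          ring

/-- integrability of the exponential of a linear functional -/
lemma lin_integrable (hw : IsDisorder Q w) (lam hh : ℝ) (N a : ℕ) (Φ : ℕ → ℝ) :
    Integrable (fun om => Real.exp (∑ x ∈ range N, Φ x * (-2 * lam * (w (x + a) om + hh)))) Q := by
  have hm : Measurable (fun om => Real.exp (∑ x ∈ range N,
      Φ x * (-2 * lam * (w (x + a) om + hh)))) := by
    refine Real.measurable_exp.comp (Finset.measurable_sum _ fun x _ => ?_)
    have := hw.meas (x + a)
    fun_prop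
  refine ⟨hm.aestronglyMeasurable, ?_⟩
  rw [hasFiniteIntegral_iff_ofReal (Filter.Eventually.of_forall fun om => (Real.exp_pos _).le)]
  have hrw : ∀ om, ∑ x ∈ range N, Φ x * (-2 * lam * (w (x + a) om + hh)) =
      ∑ x ∈ range N, ((-2 * lam * Φ x) * w (x + a) om + (-2 * lam * hh * Φ x)) := by
    intro om
    refine Finset.sum_congr rfl fun x _ => ?_
    ring
  simp_rw [hrw]
  rw [lint_lin hw N a (fun x => -2 * lam * Φ x) (fun x => -2 * lam * hh * Φ x)]
  exact ENNReal.prod_lt_top fun i _ => ENNReal.ofReal_lt_top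

/-- the same with real integrals -/
theorem lin_mgf' (hw : IsDisorder Q w) : ∃ C : ℝ, 0 ≤ C ∧ ∀ lam hh : ℝ, 0 < lam → lam ≤ 1 / 8 →
    ∀ (N a : ℕ) (Φ : ℕ → ℝ), (∀ x, 0 ≤ Φ x) → (∀ x, Φ x ≤ 2) →
    Real.exp (∑ x ∈ range N, (2 * lam ^ 2 * (Φ x) ^ 2 - 2 * lam * hh * Φ x)
        - C * lam ^ 3 * N) ≤
      ∫ om, Real.exp (∑ x ∈ range N, Φ x * (-2 * lam * (w (x + a) om + hh))) ∂Q ∧
    ∫ om, Real.exp (∑ x ∈ range N, Φ x * (-2 * lam * (w (x + a) om + hh))) ∂Q ≤
      Real.exp (∑ x ∈ range N, (2 * lam ^ 2 * (Φ x) ^ 2 - 2 * lam * hh * Φ x)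
        + C * lam ^ 3 * N) := by
  obtain ⟨C, hC, H⟩ := lin_mgf hw
  refine ⟨C, hC, fun lam hh hl hl8 N a Φ h0 h2 => ?_⟩
  have h := H lam hh hl hl8 N a Φ h0 h2
  have hi := lin_integrable hw lam hh N a Φ
  have he : ∫⁻ om, ENNReal.ofReal (Real.exp (∑ x ∈ range N,
      Φ x * (-2 * lam * (w (x + a) om + hh)))) ∂Q = ENNReal.ofReal (∫ om, Real.exp
        (∑ x ∈ range N, Φ x * (-2 * lam * (w (x + a) om + hh))) ∂Q) := by
    rw [ofReal_integral_eq_lintegral_ofReal hi
      (Filter.Eventually.of_forall fun om => (Real.exp_pos _).le)]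
  rw [he] at h
  constructor
  · refine (ENNReal.ofReal_le_ofReal_iff ?_).1 h.1
    exact integral_nonneg fun om => (Real.exp_pos _).le
  · exact (ENNReal.ofReal_le_ofReal_iff (Real.exp_pos _).le).1 h.2

end Pool.Agent.Cop

end
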