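import Mathlib
import Pool.Agent.Work.MP_cceb86_pr.Claim
import Pool.Agent.Work.MP_cceb86_pr.LinMgf
import Pool.Agent.Work.MP_cceb86_pr.NDefs

/-!
Second moment method for multi-affine functions of the environment (helper84).
-/

open Finset MeasureTheory ProbabilityTheory
open scoped ENNReal

noncomputable section

namespace Pool.Agent.Cop

section PZ

variable {Ω : Type*} [MeasurableSpace Ω] {Q : Measure Ω}

lemma amgm_enn (c : ℝ≥0∞) {t : ℝ} (ht : 0 < t) :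
    c ≤ ENNReal.ofReal (t / 2) * c ^ 2 + ENNReal.ofReal (1 / (2 * t)) := by
  rcases eq_or_ne c ∞ with rfl | hc
  · have h1 : ENNReal.ofReal (t / 2) ≠ 0 := by
      simp only [ne_eq, ENNReal.ofReal_eq_zero, not_le]; positivity
    rw [ENNReal.top_pow (by norm_num), ENNReal.mul_top h1]
    simp
  · obtain ⟨r, hr, rfl⟩ : ∃ r : ℝ, 0 ≤ r ∧ c = ENNReal.ofReal r :=
      ⟨c.toReal, ENNReal.toReal_nonneg, (ENNReal.ofReal_toReal hc).symm⟩
    rw [← ENNReal.ofReal_pow hr, ← ENNReal.ofReal_mul (by positivity),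
      ← ENNReal.ofReal_add (by positivity) (by positivity)]
    apply ENNReal.ofReal_le_ofReal
    have h1 : t / 2 * r ^ 2 + 1 / (2 * t) - r = (t * r - 1) ^ 2 / (2 * t) := by
      field_simp; ring
    have h2 : 0 ≤ (t * r - 1) ^ 2 / (2 * t) := by positivity
    linarith

/-- Paley-Zygmund, linear form -/
lemma pz_enn {Z C : Ω → ℝ≥0∞} (hZ : Measurable Z) (hC : Measurable C) {a : ℝ≥0∞} {t : ℝ} (ht : 0 < t) :
    ∫⁻ ω, Z ω * C ω ∂Q ≤ a * ∫⁻ ω, Z ω ∂Q + ENNReal.ofReal (t / 2) * ∫⁻ ω, Z ω * C ω ^ 2 ∂Q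
      + ENNReal.ofReal (1 / (2 * t)) * ∫⁻ ω in {ω | a ≤ C ω}, Z ω ∂Q := by
  have hms : MeasurableSet {ω | a ≤ C ω} := measurableSet_le measurable_const hC
  rw [← lintegral_indicator hms, ← lintegral_const_mul _ hZ, ← lintegral_const_mul _ (by fun_prop),
    ← lintegral_const_mul _ (hZ.indicator hms), ← lintegral_add_left (by fun_prop),
    ← lintegral_add_left (by fun_prop)]
  refine lintegral_mono fun ω => ?_
  by_cases h : a ≤ C ω
  · have h1 : ({ω | a ≤ C ω}.indicator Z) ω = Z ω := Set.indicator_of_mem (show ω ∈ {ω | a ≤ C ω} from h) Z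
    rw [h1]
    calc Z ω * C ω ≤ Z ω * (ENNReal.ofReal (t / 2) * C ω ^ 2 + ENNReal.ofReal (1 / (2 * t))) := by
          gcongr
          exact amgm_enn _ ht
      _ = ENNReal.ofReal (t / 2) * (Z ω * C ω ^ 2) + ENNReal.ofReal (1 / (2 * t)) * Z ω := by ring
      _ ≤ _ := by
          rw [add_assoc]
          exact le_add_self
  · calc Z ω * C ω ≤ Z ω * a := by
          gcongr
          exact (not_le.mp h).le
      _ = a * Z ω := mul_comm _ _
      _ ≤ _ := by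
          rw [add_assoc]
          exact le_self_add

end PZ

section Mom

variable {Ω : Type*} [MeasurableSpace Ω] {Q : Measure Ω} {H : ℕ → Ω → ℝ} {I : Finset ℕ} {ℓ : ℝ → ℝ}
  {V : Env → ℝ≥0∞}

lemma prod_ofexp (T : Finset ℕ) (f : ℕ → ℝ) :
    ∏ j ∈ T, ENNReal.ofReal (Real.exp (f j)) = ENNReal.ofReal (Real.exp (∑ j ∈ T, f j)) := by
  rw [Real.exp_sum, ENNReal.ofReal_prod_of_nonneg fun i _ => (Real.exp_pos _).le]

lemma ofexp_mul (x y : ℝ) :
    ENNReal.ofReal (Real.exp x) * ENNReal.ofReal (Real.exp y) = ENNReal.ofReal (Real.exp (x + y)) := by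
  rw [← ENNReal.ofReal_mul (Real.exp_pos _).le, Real.exp_add]

/-- the indicator exponent -/
def ix1 (T : Finset ℕ) (x : ℕ) : ℝ := if x ∈ T then 1 else 0

lemma sum_ix1 {T I : Finset ℕ} (hT : T ⊆ I) (s : ℕ → ℝ) (f : ℕ → ℝ) :
    ∑ x ∈ I, (s x + ix1 T x) * f x = ∑ x ∈ I, s x * f x + ∑ x ∈ T, f x := by
  have h : ∑ x ∈ T, f x = ∑ x ∈ I, ix1 T x * f x := by
    unfold ix1
    simp only [ite_mul, one_mul, zero_mul]
    rw [Finset.sum_ite_mem, inter_eq_right.mpr hT]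
  rw [h, ← sum_add_distrib]
  exact sum_congr rfl fun x _ => by ring

lemma sum_ix1' {T I : Finset ℕ} (hT : T ⊆ I) (φ : ℝ → ℝ) (s : ℕ → ℝ) :
    ∑ x ∈ I, φ (s x + ix1 T x) = ∑ x ∈ I, φ (s x) + ∑ x ∈ T, (φ (s x + 1) - φ (s x)) := by
  have h : ∑ x ∈ T, (φ (s x + 1) - φ (s x)) = ∑ x ∈ I, ix1 T x * (φ (s x + 1) - φ (s x)) := by
    unfold ix1
    simp only [ite_mul, one_mul, zero_mul]
    rw [Finset.sum_ite_mem, inter_eq_right.mpr hT]
  rw [h, ← sum_add_distrib]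
  refine sum_congr rfl fun x _ => ?_
  unfold ix1
  split_ifs
  · ring
  · simp

/-- first moment of a multi-affine function -/
lemma momA (hm : ∀ x, Measurable (H x))
    (hℓ : ∀ s : ℕ → ℝ, ∫⁻ ω, ENNReal.ofReal (Real.exp (∑ x ∈ I, s x * H x ω)) ∂Q
      = ENNReal.ofReal (Real.exp (∑ x ∈ I, ℓ (s x)))) (hV : MA I V) (s : ℕ → ℝ) :
    ∫⁻ ω, ENNReal.ofReal (Real.exp (∑ x ∈ I, s x * H x ω))
        * V (fun x => ENNReal.ofReal (Real.exp (H x ω))) ∂Q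
      = ENNReal.ofReal (Real.exp (∑ x ∈ I, ℓ (s x)))
        * V (fun x => ENNReal.ofReal (Real.exp (ℓ (s x + 1) - ℓ (s x)))) := by
  obtain ⟨ι, hι, v, T, hT, hVe⟩ := hV
  simp_rw [hVe, mul_sum]
  rw [lintegral_finsetSum _ (fun i _ => by fun_prop)]
  refine sum_congr rfl fun i _ => ?_
  have h1 : ∀ ω, ENNReal.ofReal (Real.exp (∑ x ∈ I, s x * H x ω))
      * (v i * ∏ j ∈ T i, ENNReal.ofReal (Real.exp (H j ω)))
      = v i * ENNReal.ofReal (Real.exp (∑ x ∈ I, (s x + ix1 (T i) x) * H x ω)) := by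
    intro ω
    rw [prod_ofexp, sum_ix1 (hT i), ← ofexp_mul]
    ring
  simp_rw [h1]
  rw [lintegral_const_mul _ (by fun_prop), hℓ (fun x => s x + ix1 (T i) x), prod_ofexp,
    sum_ix1' (hT i) ℓ s, ← ofexp_mul]
  ring

/-- second moment of a multi-affine function -/
lemma momB (hm : ∀ x, Measurable (H x))
    (hℓ : ∀ s : ℕ → ℝ, ∫⁻ ω, ENNReal.ofReal (Real.exp (∑ x ∈ I, s x * H x ω)) ∂Q
      = ENNReal.ofReal (Real.exp (∑ x ∈ I, ℓ (s x)))) (hV : MA I V) {W A G : ℝ} (hW : 0 ≤ W)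
    (hup : ∀ g : ℕ → ℝ, (∀ x ∈ I, |g x| ≤ G) → V (fun x => ENNReal.ofReal (Real.exp (g x)))
      ≤ ENNReal.ofReal (W * Real.exp ((∑ x ∈ I, g x) / 2 + A)))
    (s0 : ℝ) (h1 : |ℓ (s0 + 1) - ℓ s0| ≤ G) (h2 : |ℓ (s0 + 2) - ℓ (s0 + 1)| ≤ G) :
    ∫⁻ ω, ENNReal.ofReal (Real.exp (∑ x ∈ I, s0 * H x ω))
        * V (fun x => ENNReal.ofReal (Real.exp (H x ω))) ^ 2 ∂Q
      ≤ ENNReal.ofReal (W ^ 2 * Real.exp ((I.card : ℝ) / 4 * (ℓ s0 + 2 * ℓ (s0 + 1) + ℓ (s0 + 2)) + 2 * A)) := by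
  have hV' := hV
  obtain ⟨ι, hι, v, T, hT, hVe⟩ := hV
  have hVm : Measurable (fun ω => V (fun x => ENNReal.ofReal (Real.exp (H x ω)))) :=
    hV'.measurable (e := fun x ω => ENNReal.ofReal (Real.exp (H x ω))) (fun x => by fun_prop)
  have e1 : ∀ ω, ENNReal.ofReal (Real.exp (∑ x ∈ I, s0 * H x ω))
        * V (fun x => ENNReal.ofReal (Real.exp (H x ω))) ^ 2
      = ∑ i, v i * (ENNReal.ofReal (Real.exp (∑ x ∈ I, (s0 + ix1 (T i) x) * H x ω))
        * V (fun x => ENNReal.ofReal (Real.exp (H x ω)))) := by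
    intro ω
    have hU := hVe (fun x => ENNReal.ofReal (Real.exp (H x ω)))
    calc ENNReal.ofReal (Real.exp (∑ x ∈ I, s0 * H x ω))
        * V (fun x => ENNReal.ofReal (Real.exp (H x ω))) ^ 2
        = (ENNReal.ofReal (Real.exp (∑ x ∈ I, s0 * H x ω))
        * ∑ i, v i * ∏ j ∈ T i, ENNReal.ofReal (Real.exp (H j ω)))
          * V (fun x => ENNReal.ofReal (Real.exp (H x ω))) := by
          rw [← hU]; ring
      _ = _ := by
          rw [mul_sum, sum_mul]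
          refine sum_congr rfl fun i _ => ?_
          rw [prod_ofexp, sum_ix1 (hT i) (fun _ => s0), ← ofexp_mul]
          ring
  have hmm : ∀ i, Measurable (fun ω => ENNReal.ofReal (Real.exp (∑ x ∈ I, (s0 + ix1 (T i) x) * H x ω))
        * V (fun x => ENNReal.ofReal (Real.exp (H x ω)))) := fun i =>
    Measurable.mul (by fun_prop) hVm
  simp_rw [e1]
  rw [lintegral_finsetSum _ (fun i _ => (hmm i).const_mul _)]
  have e2 : ∀ i, ∫⁻ ω, v i * (ENNReal.ofReal (Real.exp (∑ x ∈ I, (s0 + ix1 (T i) x) * H x ω))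
        * V (fun x => ENNReal.ofReal (Real.exp (H x ω)))) ∂Q
      ≤ ENNReal.ofReal (W * Real.exp ((I.card : ℝ) / 2 * (ℓ s0 + ℓ (s0 + 1)) + A))
        * (v i * ∏ j ∈ T i, ENNReal.ofReal (Real.exp ((ℓ (s0 + 2) - ℓ s0) / 2))) := by
    intro i
    rw [lintegral_const_mul _ (hmm i), momA hm hℓ hV' (fun x => s0 + ix1 (T i) x)]
    have hb : ∀ x ∈ I, |ℓ (s0 + ix1 (T i) x + 1) - ℓ (s0 + ix1 (T i) x)| ≤ G := by
      intro x _
      unfold ix1
      split_ifs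
      · rw [show s0 + 1 + 1 = s0 + 2 by ring]; exact h2
      · rw [add_zero]; exact h1
    have h3 := hup (fun x => ℓ (s0 + ix1 (T i) x + 1) - ℓ (s0 + ix1 (T i) x)) hb
    calc v i * (ENNReal.ofReal (Real.exp (∑ x ∈ I, ℓ (s0 + ix1 (T i) x)))
          * V (fun x => ENNReal.ofReal (Real.exp (ℓ (s0 + ix1 (T i) x + 1) - ℓ (s0 + ix1 (T i) x)))))
        ≤ v i * (ENNReal.ofReal (Real.exp (∑ x ∈ I, ℓ (s0 + ix1 (T i) x)))
          * ENNReal.ofReal (W * Real.exp ((∑ x ∈ I, (ℓ (s0 + ix1 (T i) x + 1) - ℓ (s0 + ix1 (T i) x))) / 2 + A))) := by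
          gcongr
      _ = _ := by
          rw [prod_ofexp, ← ENNReal.ofReal_mul (Real.exp_pos _).le, mul_left_comm (ENNReal.ofReal _) (v i),
            ← ENNReal.ofReal_mul (by positivity)]
          congr 2
          rw [show Real.exp (∑ x ∈ I, ℓ (s0 + ix1 (T i) x)) *
            (W * Real.exp ((∑ x ∈ I, (ℓ (s0 + ix1 (T i) x + 1) - ℓ (s0 + ix1 (T i) x))) / 2 + A))
            = W * (Real.exp (∑ x ∈ I, ℓ (s0 + ix1 (T i) x)) *
              Real.exp ((∑ x ∈ I, (ℓ (s0 + ix1 (T i) x + 1) - ℓ (s0 + ix1 (T i) x))) / 2 + A)) by ring,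
            mul_assoc, ← Real.exp_add, ← Real.exp_add]
          congr 2
          have e3 := sum_ix1' (hT i) ℓ (fun _ => s0)
          have e4 := sum_ix1' (hT i) (fun y => ℓ (y + 1)) (fun _ => s0)
          rw [sum_sub_distrib, e3, e4]
          simp only [sum_const, nsmul_eq_mul]
          rw [show s0 + 1 + 1 = s0 + 2 by ring]
          ring
  refine (sum_le_sum fun i _ => e2 i).trans ?_
  rw [← mul_sum, ← hVe (fun _ => ENNReal.ofReal (Real.exp ((ℓ (s0 + 2) - ℓ s0) / 2)))]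
  have hb : ∀ x ∈ I, |(ℓ (s0 + 2) - ℓ s0) / 2| ≤ G := by
    intro x _
    rw [abs_le] at *
    constructor <;> linarith [h1.1, h1.2, h2.1, h2.2]
  have h3 := hup (fun _ => (ℓ (s0 + 2) - ℓ s0) / 2) hb
  calc _ ≤ ENNReal.ofReal (W * Real.exp ((I.card : ℝ) / 2 * (ℓ s0 + ℓ (s0 + 1)) + A))
        * ENNReal.ofReal (W * Real.exp ((∑ x ∈ I, (ℓ (s0 + 2) - ℓ s0) / 2) / 2 + A)) := by
        gcongr
    _ = _ := by
        rw [← ENNReal.ofReal_mul (by positivity)]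
        congr 1
        rw [show W * Real.exp ((I.card : ℝ) / 2 * (ℓ s0 + ℓ (s0 + 1)) + A) *
          (W * Real.exp ((∑ x ∈ I, (ℓ (s0 + 2) - ℓ s0) / 2) / 2 + A))
          = W ^ 2 * (Real.exp ((I.card : ℝ) / 2 * (ℓ s0 + ℓ (s0 + 1)) + A) *
          Real.exp ((∑ x ∈ I, (ℓ (s0 + 2) - ℓ s0) / 2) / 2 + A)) by ring, ← Real.exp_add]
        congr 2
        simp only [sum_const, nsmul_eq_mul]
        ring

/-- **The second moment method**, abstract form. -/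
theorem pz_abs (hm : ∀ x, Measurable (H x))
    (hℓ : ∀ s : ℕ → ℝ, ∫⁻ ω, ENNReal.ofReal (Real.exp (∑ x ∈ I, s x * H x ω)) ∂Q
      = ENNReal.ofReal (Real.exp (∑ x ∈ I, ℓ (s x)))) (hV : MA I V) {W A G γ a : ℝ} (hW : 0 < W)
    (hlow : ∀ g : ℕ → ℝ, (∀ x ∈ I, |g x| ≤ G) → ENNReal.ofReal (W * Real.exp ((∑ x ∈ I, g x) / 2 - A))
      ≤ V (fun x => ENNReal.ofReal (Real.exp (g x))))
    (hup : ∀ g : ℕ → ℝ, (∀ x ∈ I, |g x| ≤ G) → V (fun x => ENNReal.ofReal (Real.exp (g x)))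
      ≤ ENNReal.ofReal (W * Real.exp ((∑ x ∈ I, g x) / 2 + A)))
    (hg0 : |ℓ (γ / 2 + 1 / 2) - ℓ (γ / 2 - 1 / 2)| ≤ G) (hg1 : |ℓ (γ / 2) - ℓ (γ / 2 - 1)| ≤ G)
    (hg2 : |ℓ (γ / 2 + 1) - ℓ (γ / 2)| ≤ G) (ha : 0 < a)
    (h1 : a * Real.exp (I.card * ℓ (γ / 2)) ≤ (W * Real.exp ((I.card : ℝ) / 2 *
      (ℓ (γ / 2 - 1 / 2) + ℓ (γ / 2 + 1 / 2)) - A)) / 2) :
    ENNReal.ofReal ((W * Real.exp ((I.card : ℝ) / 2 * (ℓ (γ / 2 - 1 / 2) + ℓ (γ / 2 + 1 / 2)) - A)) ^ 2 /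
      (4 * (W ^ 2 * Real.exp ((I.card : ℝ) / 4 * (ℓ (γ / 2 - 1) + 2 * ℓ (γ / 2) + ℓ (γ / 2 + 1)) + 2 * A))))
      ≤ ∫⁻ ω in {ω | ENNReal.ofReal (a * Real.exp ((∑ x ∈ I, H x ω) / 2))
          ≤ V (fun x => ENNReal.ofReal (Real.exp (H x ω)))},
        ENNReal.ofReal (Real.exp (∑ x ∈ I, γ / 2 * H x ω)) ∂Q := by
  set s1 := W * Real.exp ((I.card : ℝ) / 2 * (ℓ (γ / 2 - 1 / 2) + ℓ (γ / 2 + 1 / 2)) - A) with hs1
  set s2 := W ^ 2 * Real.exp ((I.card : ℝ) / 4 * (ℓ (γ / 2 - 1) + 2 * ℓ (γ / 2) + ℓ (γ / 2 + 1)) + 2 * A)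
    with hs2
  have p1 : 0 < s1 := by positivity
  have p2 : 0 < s2 := by positivity
  have hVm : Measurable (fun ω => V (fun x => ENNReal.ofReal (Real.exp (H x ω)))) :=
    hV.measurable (e := fun x ω => ENNReal.ofReal (Real.exp (H x ω))) (fun x => by fun_prop)
  set Z : Ω → ℝ≥0∞ := fun ω => ENNReal.ofReal (Real.exp (∑ x ∈ I, γ / 2 * H x ω)) with hZ
  set C : Ω → ℝ≥0∞ := fun ω => ENNReal.ofReal (Real.exp (∑ x ∈ I, (-(1 / 2)) * H x ω))
    * V (fun x => ENNReal.ofReal (Real.exp (H x ω))) with hC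
  have hZm : Measurable Z := by fun_prop
  have hCm : Measurable C := Measurable.mul (by fun_prop) hVm
  -- the first moments
  have m0 : ∫⁻ ω, Z ω ∂Q = ENNReal.ofReal (Real.exp (I.card * ℓ (γ / 2))) := by
    rw [hZ, hℓ (fun _ => γ / 2)]
    simp
  have m1 : ENNReal.ofReal s1 ≤ ∫⁻ ω, Z ω * C ω ∂Q := by
    have e1 : ∀ ω, Z ω * C ω = ENNReal.ofReal (Real.exp (∑ x ∈ I, (γ / 2 - 1 / 2) * H x ω))
        * V (fun x => ENNReal.ofReal (Real.exp (H x ω))) := by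
      intro ω
      simp only [hZ, hC]
      rw [← mul_assoc, ofexp_mul, ← sum_add_distrib]
      congr 4
      funext x
      ring
    simp_rw [e1]
    rw [momA hm hℓ hV (fun _ => γ / 2 - 1 / 2)]
    have h3 := hlow (fun _ => ℓ (γ / 2 - 1 / 2 + 1) - ℓ (γ / 2 - 1 / 2)) (by
      intro x _
      rw [show γ / 2 - 1 / 2 + 1 = γ / 2 + 1 / 2 by ring]; exact hg0)
    refine le_trans (le_of_eq ?_) (mul_le_mul' le_rfl h3)
    rw [← ENNReal.ofReal_mul (Real.exp_pos _).le, mul_left_comm, ← Real.exp_add, hs1]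
    congr 3
    simp only [sum_const, nsmul_eq_mul]
    rw [show γ / 2 - 1 / 2 + 1 = γ / 2 + 1 / 2 by ring]
    ring
  have m2 : ∫⁻ ω, Z ω * C ω ^ 2 ∂Q ≤ ENNReal.ofReal s2 := by
    have e1 : ∀ ω, Z ω * C ω ^ 2 = ENNReal.ofReal (Real.exp (∑ x ∈ I, (γ / 2 - 1) * H x ω))
        * V (fun x => ENNReal.ofReal (Real.exp (H x ω))) ^ 2 := by
      intro ω
      simp only [hZ, hC]
      rw [mul_pow, pow_two (ENNReal.ofReal _), ofexp_mul, ← mul_assoc, ofexp_mul, ← sum_add_distrib,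
        ← sum_add_distrib]
      congr 4
      funext x
      ring
    simp_rw [e1]
    have h3 := momB hm hℓ hV hW.le hup (γ / 2 - 1)
      (by rw [show γ / 2 - 1 + 1 = γ / 2 by ring]; exact hg1)
      (by rw [show γ / 2 - 1 + 1 = γ / 2 by ring, show γ / 2 - 1 + 2 = γ / 2 + 1 by ring]; exact hg2)
    rw [show γ / 2 - 1 + 1 = γ / 2 by ring, show γ / 2 - 1 + 2 = γ / 2 + 1 by ring] at h3
    exact h3
  -- the good event
  have hset : {ω | ENNReal.ofReal a ≤ C ω} = {ω | ENNReal.ofReal (a * Real.exp ((∑ x ∈ I, H x ω) / 2))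
          ≤ V (fun x => ENNReal.ofReal (Real.exp (H x ω)))} := by
    ext ω
    simp only [Set.mem_ofPred_eq, hC]
    have e2 : ∑ x ∈ I, (-(1 / 2)) * H x ω = -((∑ x ∈ I, H x ω) / 2) := by
      rw [← mul_sum]; ring
    rw [e2, ENNReal.ofReal_mul ha.le]
    have e3 : ENNReal.ofReal (Real.exp (-((∑ x ∈ I, H x ω) / 2))) * ENNReal.ofReal (Real.exp ((∑ x ∈ I, H x ω) / 2)) = 1 := by
      rw [ofexp_mul]; simp
    constructor
    · intro h
      calc ENNReal.ofReal a * ENNReal.ofReal (Real.exp ((∑ x ∈ I, H x ω) / 2))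
          ≤ (ENNReal.ofReal (Real.exp (-((∑ x ∈ I, H x ω) / 2))) * V (fun x => ENNReal.ofReal (Real.exp (H x ω))))
            * ENNReal.ofReal (Real.exp ((∑ x ∈ I, H x ω) / 2)) := by gcongr
        _ = (ENNReal.ofReal (Real.exp (-((∑ x ∈ I, H x ω) / 2))) * ENNReal.ofReal (Real.exp ((∑ x ∈ I, H x ω) / 2)))
            * V (fun x => ENNReal.ofReal (Real.exp (H x ω))) := by ring
        _ = _ := by rw [e3, one_mul]
    · intro h
      calc ENNReal.ofReal a = (ENNReal.ofReal (Real.exp (-((∑ x ∈ I, H x ω) / 2))) *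
              ENNReal.ofReal (Real.exp ((∑ x ∈ I, H x ω) / 2))) * ENNReal.ofReal a := by rw [e3, one_mul]
        _ = ENNReal.ofReal (Real.exp (-((∑ x ∈ I, H x ω) / 2))) *
              (ENNReal.ofReal a * ENNReal.ofReal (Real.exp ((∑ x ∈ I, H x ω) / 2))) := by ring
        _ ≤ _ := by gcongr
  rw [← hset]
  set J := ∫⁻ ω in {ω | ENNReal.ofReal a ≤ C ω}, Z ω ∂Q with hJ
  have hJ0 : J ≤ ENNReal.ofReal (Real.exp (I.card * ℓ (γ / 2))) := by
    rw [← m0]; exact setLIntegral_le_lintegral _ _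
  have hJt : J ≠ ∞ := ne_top_of_le_ne_top ENNReal.ofReal_ne_top hJ0
  have key := pz_enn (Q := Q) hZm hCm (a := ENNReal.ofReal a) (t := s1 / (2 * s2)) (by positivity)
  rw [← hJ, m0] at key
  have hJr : J = ENNReal.ofReal J.toReal := (ENNReal.ofReal_toReal hJt).symm
  have hj0 : 0 ≤ J.toReal := ENNReal.toReal_nonneg
  rw [hJr]
  apply ENNReal.ofReal_le_ofReal
  have key2 : ENNReal.ofReal s1 ≤ ENNReal.ofReal (a * Real.exp (I.card * ℓ (γ / 2))
      + s1 / (2 * s2) / 2 * s2 + 1 / (2 * (s1 / (2 * s2))) * J.toReal) := by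
    have k1 : ENNReal.ofReal (a * Real.exp (I.card * ℓ (γ / 2))) = ENNReal.ofReal a *
      ENNReal.ofReal (Real.exp (I.card * ℓ (γ / 2))) := ENNReal.ofReal_mul ha.le
    have k2 : ENNReal.ofReal (s1 / (2 * s2) / 2 * s2) = ENNReal.ofReal (s1 / (2 * s2) / 2) *
      ENNReal.ofReal s2 := ENNReal.ofReal_mul (by positivity)
    have k3 : ENNReal.ofReal (1 / (2 * (s1 / (2 * s2))) * J.toReal) = ENNReal.ofReal (1 / (2 * (s1 / (2 * s2)))) *
      J := by rw [ENNReal.ofReal_mul (by positivity), ← hJr]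
    rw [ENNReal.ofReal_add (by positivity) (by positivity), ENNReal.ofReal_add (by positivity) (by positivity),
      k1, k2, k3]
    refine (m1.trans key).trans ?_
    gcongr
  have key3 := (ENNReal.ofReal_le_ofReal_iff (by positivity)).mp key2
  have e4 : s1 / (2 * s2) / 2 * s2 = s1 / 4 := by field_simp; ring
  have e5 : 1 / (2 * (s1 / (2 * s2))) * J.toReal = s2 / s1 * J.toReal := by field_simp
  rw [e4, e5] at key3
  have h6 : s1 / 4 ≤ s2 / s1 * J.toReal := by linarith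
  rw [div_le_iff₀ (by positivity)]
  have h7 : s1 / 4 * s1 ≤ s2 / s1 * J.toReal * s1 := by gcongr
  have h8 : s2 / s1 * J.toReal * s1 = s2 * J.toReal := by field_simp
  nlinarith

end Mom

end Pool.Agent.Cop

end
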