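import Mathlib
import Pool.Agent.Work.MP_cceb86_pr.NPz

/-!
The good events of the stretches made of short excursions have a fixed proportion of the
fractional moments (helper84).
-/

open Finset MeasureTheory ProbabilityTheory
open scoped ENNReal

noncomputable section

namespace Pool.Agent.Cop

variable {Ω : Type*} [MeasurableSpace Ω] {Q : Measure Ω} {w : ℕ → Ω → ℝ}

/-- logarithm of the moment generating function of `H x = -2 λ (w x + m λ)` -/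
def lgf (Q : Measure Ω) (w : ℕ → Ω → ℝ) (lam m s : ℝ) : ℝ :=
  -2 * lam ^ 2 * m * s + Real.log (∫ om, Real.exp (-2 * lam * s * w 0 om) ∂Q)

lemma lgf_lint (hw : IsDisorder Q w) (lam m : ℝ) (I : Finset ℕ) (s : ℕ → ℝ) :
    ∫⁻ om, ENNReal.ofReal (Real.exp (∑ x ∈ I, s x * (-2 * lam * (w x om + m * lam)))) ∂Q
      = ENNReal.ofReal (Real.exp (∑ x ∈ I, lgf Q w lam m (s x))) := by
  have := hw.prob
  have h1 : ∀ om, ENNReal.ofReal (Real.exp (∑ x ∈ I, s x * (-2 * lam * (w x om + m * lam)))) =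
      ∏ x ∈ I, ENNReal.ofReal (Real.exp (-2 * lam * s x * w x om + -2 * lam ^ 2 * m * s x)) := by
    intro om
    rw [Real.exp_sum, ENNReal.ofReal_prod_of_nonneg fun i _ => (Real.exp_pos _).le]
    refine prod_congr rfl fun x _ => ?_
    congr 2
    ring
  simp_rw [h1]
  have hind : iIndepFun (fun (x : ℕ) (om : Ω) =>
      ENNReal.ofReal (Real.exp (-2 * lam * s x * w x om + -2 * lam ^ 2 * m * s x))) Q :=
    hw.indep.comp (fun x y => ENNReal.ofReal (Real.exp (-2 * lam * s x * y + -2 * lam ^ 2 * m * s x)))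
      (fun i => by fun_prop)
  rw [lintegral_prod_eq_prod_lintegral_of_indepFun I _ hind]
  · rw [Real.exp_sum, ENNReal.ofReal_prod_of_nonneg fun i _ => (Real.exp_pos _).le]
    refine prod_congr rfl fun x _ => ?_
    rw [hw.lint (-2 * lam * s x) x (-2 * lam ^ 2 * m * s x)]
    congr 1
    unfold lgf
    rw [Real.exp_add, Real.exp_log]
    exact integral_exp_pos (hw.expInt _)
  · intro i
    have := hw.meas i
    fun_prop

lemma lgf_bound (hw : IsDisorder Q w) : ∃ C : ℝ, 0 ≤ C ∧ ∀ lam m s : ℝ, 0 < lam → lam ≤ 1 / 8 →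
    |s| ≤ 2 → |lgf Q w lam m s - 2 * lam ^ 2 * (s ^ 2 - m * s)| ≤ C * lam ^ 3 := by
  have := hw.prob
  obtain ⟨C1, hC1, H1⟩ := mgf_bound hw.expInt hw.mean hw.var
  obtain ⟨C2, hC2, H2⟩ := mgf_lower hw.expInt hw.mean hw.var
  set C := max C1 C2 with hC
  have hC0 : 0 ≤ C := hC1.trans (le_max_left _ _)
  refine ⟨64 * C, by positivity, fun lam m s hl hl8 hs => ?_⟩
  have habs : |(-2 * lam * s)| = 2 * lam * |s| := by
    rw [abs_mul, show |(-2 * lam)| = 2 * lam by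
      rw [show -2 * lam = -(2 * lam) by ring, abs_neg, abs_of_pos (by positivity)]]
  have hone : |(-2 * lam * s)| ≤ 1 := by
    rw [habs]
    have := abs_nonneg s
    nlinarith
  have hcub : |(-2 * lam * s)| ^ 3 ≤ 64 * lam ^ 3 := by
    rw [habs]
    have h3 : 2 * lam * |s| ≤ 4 * lam := by nlinarith
    have h4 : 0 ≤ 2 * lam * |s| := by positivity
    calc (2 * lam * |s|) ^ 3 ≤ (4 * lam) ^ 3 := pow_le_pow_left₀ h4 h3 3
      _ = 64 * lam ^ 3 := by ring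
  have hu := H1 _ hone
  have hl' := H2 _ hone
  have hpos : 0 < ∫ om, Real.exp (-2 * lam * s * w 0 om) ∂Q := integral_exp_pos (hw.expInt _)
  have hu2 : Real.log (∫ om, Real.exp (-2 * lam * s * w 0 om) ∂Q) ≤
      (-2 * lam * s) ^ 2 / 2 + C1 * |(-2 * lam * s)| ^ 3 := by
    rw [Real.log_le_iff_le_exp hpos]; exact hu
  have hl2 : (-2 * lam * s) ^ 2 / 2 - C2 * |(-2 * lam * s)| ^ 3 ≤
      Real.log (∫ om, Real.exp (-2 * lam * s * w 0 om) ∂Q) := by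
    rw [Real.le_log_iff_exp_le hpos]; exact hl'
  have h5 : C1 * |(-2 * lam * s)| ^ 3 ≤ 64 * C * lam ^ 3 := by
    calc C1 * |(-2 * lam * s)| ^ 3 ≤ C * (64 * lam ^ 3) := by
          gcongr
          exact le_max_left _ _
      _ = _ := by ring
  have h6 : C2 * |(-2 * lam * s)| ^ 3 ≤ 64 * C * lam ^ 3 := by
    calc C2 * |(-2 * lam * s)| ^ 3 ≤ C * (64 * lam ^ 3) := by
          gcongr
          exact le_max_right _ _
      _ = _ := by ring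
  have h8 : (-2 * lam * s) ^ 2 / 2 = 2 * lam ^ 2 * s ^ 2 := by ring
  rw [h8] at hu2 hl2
  unfold lgf
  rw [abs_le]
  constructor <;> linarith

/-- **The second moment method for the copolymer.** -/
theorem pz_prob (hw : IsDisorder Q w) : ∃ C : ℝ, 0 ≤ C ∧ ∀ lam m γ : ℝ, 0 < lam → lam ≤ 1 / 8 →
    C * lam ≤ 1 → 1 / 2 ≤ m → m ≤ 1 → 1 / 2 ≤ γ → γ ≤ 2 / 3 → ∀ I : Finset ℕ,
    C * lam ^ 3 * I.card ≤ 1 / 100 → ∀ V : Env → ℝ≥0∞, MA I V → ∀ W A ν : ℝ, 0 < W → 0 < ν →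
    ν ≤ W * Real.exp (-A - 1) / 2 →
    (∀ g : ℕ → ℝ, (∀ x ∈ I, |g x| ≤ 4 * lam ^ 2) →
      ENNReal.ofReal (W * Real.exp ((∑ x ∈ I, g x) / 2 - A)) ≤ V (fun x => ENNReal.ofReal (Real.exp (g x)))) →
    (∀ g : ℕ → ℝ, (∀ x ∈ I, |g x| ≤ 4 * lam ^ 2) → V (fun x => ENNReal.ofReal (Real.exp (g x)))
      ≤ ENNReal.ofReal (W * Real.exp ((∑ x ∈ I, g x) / 2 + A))) →
    Real.exp (-(4 * A + 1)) / 4 * ∫ om, Real.exp (∑ x ∈ I, γ / 2 * (-2 * lam * (w x om + m * lam))) ∂Q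
      ≤ ∫ om in {om | ENNReal.ofReal (ν * Real.exp (lam ^ 2 * I.card / 2
          + (∑ x ∈ I, (-2 * lam * (w x om + m * lam))) / 2))
          ≤ V (fun x => ENNReal.ofReal (Real.exp (-2 * lam * (w x om + m * lam))))},
        Real.exp (∑ x ∈ I, γ / 2 * (-2 * lam * (w x om + m * lam))) ∂Q := by
  have := hw.prob
  obtain ⟨C, hC0, HC⟩ := lgf_bound hw
  refine ⟨2 * C, by positivity, fun lam m γ hl hl8 hCl hm0 hm1 hγ0 hγ1 I hI V hV W A ν hW hν hνW hlow hup => ?_⟩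
  set H : ℕ → Ω → ℝ := fun x om => -2 * lam * (w x om + m * lam) with hH
  have hHm : ∀ x, Measurable (H x) := by
    intro x
    have := hw.meas x
    simp only [hH]
    fun_prop
  set ℓ : ℝ → ℝ := lgf Q w lam m with hℓd
  have hℓ : ∀ s : ℕ → ℝ, ∫⁻ ω, ENNReal.ofReal (Real.exp (∑ x ∈ I, s x * H x ω)) ∂Q
      = ENNReal.ofReal (Real.exp (∑ x ∈ I, ℓ (s x))) := fun s => lgf_lint hw lam m I s
  have hb : ∀ s : ℝ, |s| ≤ 2 → |ℓ s - 2 * lam ^ 2 * (s ^ 2 - m * s)| ≤ C * lam ^ 3 := fun s hs =>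
    HC lam m s hl hl8 hs
  have hε : 2 * (C * lam ^ 3) ≤ lam ^ 2 := by
    have : 0 < lam ^ 2 := by positivity
    nlinarith
  have b1 := abs_le.mp (hb (γ / 2 + 1 / 2) (by rw [abs_le]; constructor <;> linarith))
  have b2 := abs_le.mp (hb (γ / 2 - 1 / 2) (by rw [abs_le]; constructor <;> linarith))
  have b3 := abs_le.mp (hb (γ / 2 + 1) (by rw [abs_le]; constructor <;> linarith))
  have b4 := abs_le.mp (hb (γ / 2 - 1) (by rw [abs_le]; constructor <;> linarith))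
  have b5 := abs_le.mp (hb (γ / 2) (by rw [abs_le]; constructor <;> linarith))
  have hl2 : 0 < lam ^ 2 := by positivity
  have q1 : 0 ≤ lam ^ 2 * (γ - 1 / 2) := by
    have : 0 ≤ γ - 1 / 2 := by linarith
    positivity
  have q2 : 0 ≤ lam ^ 2 * (2 / 3 - γ) := by
    have : 0 ≤ 2 / 3 - γ := by linarith
    positivity
  have q3 : 0 ≤ lam ^ 2 * (m - 1 / 2) := by
    have : 0 ≤ m - 1 / 2 := by linarith
    positivity
  have q4 : 0 ≤ lam ^ 2 * (1 - m) := by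
    have : 0 ≤ 1 - m := by linarith
    positivity
  set n : ℝ := (I.card : ℝ) with hn
  have hn0 : 0 ≤ n := Nat.cast_nonneg _
  have hnε : n * (C * lam ^ 3) ≤ 1 / 200 := by nlinarith
  have hg0 : |ℓ (γ / 2 + 1 / 2) - ℓ (γ / 2 - 1 / 2)| ≤ 4 * lam ^ 2 := by
    rw [abs_le]; constructor <;> nlinarith
  have hg1 : |ℓ (γ / 2) - ℓ (γ / 2 - 1)| ≤ 4 * lam ^ 2 := by
    rw [abs_le]; constructor <;> nlinarith
  have hg2 : |ℓ (γ / 2 + 1) - ℓ (γ / 2)| ≤ 4 * lam ^ 2 := by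
    rw [abs_le]; constructor <;> nlinarith
  have hk1 : -1 ≤ n * ((ℓ (γ / 2 - 1 / 2) + ℓ (γ / 2 + 1 / 2)) / 2 - ℓ (γ / 2) - lam ^ 2 / 2) := by
    have h1 : -(2 * (C * lam ^ 3)) ≤ (ℓ (γ / 2 - 1 / 2) + ℓ (γ / 2 + 1 / 2)) / 2 - ℓ (γ / 2) - lam ^ 2 / 2 := by
      nlinarith
    have h2 : n * (-(2 * (C * lam ^ 3))) ≤
      n * ((ℓ (γ / 2 - 1 / 2) + ℓ (γ / 2 + 1 / 2)) / 2 - ℓ (γ / 2) - lam ^ 2 / 2) := by gcongr
    linarith
  have hk2 : -1 ≤ n * ((ℓ (γ / 2 - 1 / 2) + ℓ (γ / 2 + 1 / 2)) -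
      (ℓ (γ / 2 - 1) + 2 * ℓ (γ / 2) + ℓ (γ / 2 + 1)) / 4 - ℓ (γ / 2)) := by
    have h1 : -(4 * (C * lam ^ 3)) ≤ (ℓ (γ / 2 - 1 / 2) + ℓ (γ / 2 + 1 / 2)) -
      (ℓ (γ / 2 - 1) + 2 * ℓ (γ / 2) + ℓ (γ / 2 + 1)) / 4 - ℓ (γ / 2) := by
      nlinarith
    have h2 : n * (-(4 * (C * lam ^ 3))) ≤
      n * ((ℓ (γ / 2 - 1 / 2) + ℓ (γ / 2 + 1 / 2)) -
      (ℓ (γ / 2 - 1) + 2 * ℓ (γ / 2) + ℓ (γ / 2 + 1)) / 4 - ℓ (γ / 2)) := by gcongr
    linarith
  have key := pz_abs (Q := Q) (I := I) (ℓ := ℓ) (γ := γ) hHm hℓ hV (W := W) (A := A) (G := 4 * lam ^ 2)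
    (a := ν * Real.exp (lam ^ 2 * n / 2)) hW hlow hup hg0 hg1 hg2 (by positivity) (by
      have h1 : ν * Real.exp (lam ^ 2 * n / 2) * Real.exp (n * ℓ (γ / 2))
          ≤ (W * Real.exp (-A - 1) / 2) * (Real.exp (lam ^ 2 * n / 2) * Real.exp (n * ℓ (γ / 2))) := by
        rw [mul_assoc]; gcongr
      refine h1.trans ?_
      rw [← Real.exp_add, show W * Real.exp (-A - 1) / 2 * Real.exp (lam ^ 2 * n / 2 + n * ℓ (γ / 2))
        = W * (Real.exp (-A - 1) * Real.exp (lam ^ 2 * n / 2 + n * ℓ (γ / 2))) / 2 by ring, ← Real.exp_add]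
      have h2 : Real.exp (-A - 1 + (lam ^ 2 * n / 2 + n * ℓ (γ / 2))) ≤
          Real.exp (n / 2 * (ℓ (γ / 2 - 1 / 2) + ℓ (γ / 2 + 1 / 2)) - A) := by
        apply Real.exp_le_exp.mpr
        nlinarith
      gcongr)
  -- the good event
  set GE : Set Ω := {om | ENNReal.ofReal (ν * Real.exp (lam ^ 2 * n / 2 + (∑ x ∈ I, H x om) / 2))
          ≤ V (fun x => ENNReal.ofReal (Real.exp (H x om)))} with hGE
  have hset : {om | ENNReal.ofReal (ν * Real.exp (lam ^ 2 * n / 2) * Real.exp ((∑ x ∈ I, H x om) / 2))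
          ≤ V (fun x => ENNReal.ofReal (Real.exp (H x om)))} = GE := by
    rw [hGE]
    ext om
    simp only [Set.mem_ofPred_eq]
    rw [mul_assoc, ← Real.exp_add]
  rw [hset] at key
  have hint : Integrable (fun om => Real.exp (∑ x ∈ I, γ / 2 * H x om)) Q := by
    refine ⟨?_, ?_⟩
    · have : Measurable (fun om => Real.exp (∑ x ∈ I, γ / 2 * H x om)) := by fun_prop
      exact this.aestronglyMeasurable
    · rw [hasFiniteIntegral_iff_ofReal (Filter.Eventually.of_forall fun om => (Real.exp_pos _).le),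
        hℓ (fun _ => γ / 2)]
      exact ENNReal.ofReal_lt_top
  have hJ : ∫⁻ om in GE, ENNReal.ofReal (Real.exp (∑ x ∈ I, γ / 2 * H x om)) ∂Q
      = ENNReal.ofReal (∫ om in GE, Real.exp (∑ x ∈ I, γ / 2 * H x om) ∂Q) := by
    rw [ofReal_integral_eq_lintegral_ofReal hint.restrict
      (Filter.Eventually.of_forall fun om => (Real.exp_pos _).le)]
  have hS : ∫ om, Real.exp (∑ x ∈ I, γ / 2 * H x om) ∂Q = Real.exp (n * ℓ (γ / 2)) := by
    have h1 : ENNReal.ofReal (∫ om, Real.exp (∑ x ∈ I, γ / 2 * H x om) ∂Q) =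
        ENNReal.ofReal (Real.exp (n * ℓ (γ / 2))) := by
      rw [ofReal_integral_eq_lintegral_ofReal hint
        (Filter.Eventually.of_forall fun om => (Real.exp_pos _).le), hℓ (fun _ => γ / 2)]
      simp [hn]
    have h2 : 0 ≤ ∫ om, Real.exp (∑ x ∈ I, γ / 2 * H x om) ∂Q :=
      integral_nonneg fun om => (Real.exp_pos _).le
    exact (ENNReal.ofReal_eq_ofReal_iff h2 (Real.exp_pos _).le).mp h1
  rw [hJ] at key
  have hJ0 : 0 ≤ ∫ om in GE, Real.exp (∑ x ∈ I, γ / 2 * H x om) ∂Q :=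
    setIntegral_nonneg_of_ae_restrict (Filter.Eventually.of_forall fun om => (Real.exp_pos _).le)
  have key2 := (ENNReal.ofReal_le_ofReal_iff hJ0).mp key
  refine le_trans ?_ key2
  rw [hS, le_div_iff₀ (by positivity)]
  have e1 : (W * Real.exp (n / 2 * (ℓ (γ / 2 - 1 / 2) + ℓ (γ / 2 + 1 / 2)) - A)) ^ 2
      = W ^ 2 * Real.exp (2 * (n / 2 * (ℓ (γ / 2 - 1 / 2) + ℓ (γ / 2 + 1 / 2)) - A)) := by
    rw [mul_pow, ← Real.exp_nat_mul]; push_cast; ring_nf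
  rw [e1]
  have e2 : Real.exp (-(4 * A + 1)) / 4 * Real.exp (n * ℓ (γ / 2)) * (4 * (W ^ 2 *
      Real.exp (n / 4 * (ℓ (γ / 2 - 1) + 2 * ℓ (γ / 2) + ℓ (γ / 2 + 1)) + 2 * A)))
      = W ^ 2 * (Real.exp (-(4 * A + 1)) * Real.exp (n * ℓ (γ / 2)) *
      Real.exp (n / 4 * (ℓ (γ / 2 - 1) + 2 * ℓ (γ / 2) + ℓ (γ / 2 + 1)) + 2 * A)) := by ring
  rw [e2, ← Real.exp_add, ← Real.exp_add]
  have h3 : Real.exp (-(4 * A + 1) + n * ℓ (γ / 2) +
      (n / 4 * (ℓ (γ / 2 - 1) + 2 * ℓ (γ / 2) + ℓ (γ / 2 + 1)) + 2 * A)) ≤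
      Real.exp (2 * (n / 2 * (ℓ (γ / 2 - 1 / 2) + ℓ (γ / 2 + 1 / 2)) - A)) := by
    apply Real.exp_le_exp.mpr
    nlinarith
  gcongr

/-! ### the form used in `NBase` -/

lemma nI_card (L : ℕ) (i : ℕ × ℕ) : (nI L i).card = (i.2 + 2) * L := by
  unfold nI
  rw [Nat.card_Ioc]
  have : (i.1 + 2 + i.2) * L = i.1 * L + (i.2 + 2) * L := by ring
  omega

lemma nI_sum {L l0 : ℕ} {i : ℕ × ℕ} (hl0 : (i.1 + 2 + i.2) * L < l0) (c : ℝ) (H : ℕ → ℝ) :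
    ∑ x ∈ range l0, c * nph L i x * H x = ∑ x ∈ nI L i, c / 2 * H x := by
  have hsub : nI L i ⊆ range l0 := by
    intro x hx
    unfold nI at hx
    rw [mem_Ioc] at hx
    rw [mem_range]
    omega
  rw [← Finset.sum_subset hsub]
  · refine sum_congr rfl fun x hx => ?_
    unfold nph
    rw [if_pos hx]
    ring
  · intro x _ hx
    unfold nph
    rw [if_neg hx]
    ring

/-- the good event of `NBase` -/
def nG (L l0 : ℕ) (lam ν : ℝ) (V : Env → ℝ≥0∞) (i : ℕ × ℕ) : Set (ℕ → ℝ) :=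
  {H | ENNReal.ofReal (ν * Real.exp (lam ^ 2 * (((i.2 : ℝ) + 2) * L) / 2
    + ∑ x ∈ range l0, nph L i x * H x)) ≤ V (fun x => ENNReal.ofReal (Real.exp (H x)))}

/-- **field `prob` of `NBase`** -/
theorem n_prob (hw : IsDisorder Q w) : ∃ C : ℝ, 0 ≤ C ∧ ∀ lam m γ : ℝ, 0 < lam → lam ≤ 1 / 8 →
    C * lam ≤ 1 → 1 / 2 ≤ m → m ≤ 1 → 1 / 2 ≤ γ → γ ≤ 2 / 3 → ∀ (L l0 : ℕ) (i : ℕ × ℕ),
    (i.1 + 2 + i.2) * L < l0 →
    C * lam ^ 3 * (((i.2 : ℝ) + 2) * L) ≤ 1 / 100 → ∀ V : Env → ℝ≥0∞, MA (nI L i) V →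
    ∀ W A ν : ℝ, 0 < W → 0 < ν → ν ≤ W * Real.exp (-A - 1) / 2 →
    (∀ g : ℕ → ℝ, (∀ x ∈ nI L i, |g x| ≤ 4 * lam ^ 2) →
      ENNReal.ofReal (W * Real.exp ((∑ x ∈ nI L i, g x) / 2 - A)) ≤
        V (fun x => ENNReal.ofReal (Real.exp (g x)))) →
    (∀ g : ℕ → ℝ, (∀ x ∈ nI L i, |g x| ≤ 4 * lam ^ 2) → V (fun x => ENNReal.ofReal (Real.exp (g x)))
      ≤ ENNReal.ofReal (W * Real.exp ((∑ x ∈ nI L i, g x) / 2 + A))) →
    Real.exp (-(4 * A + 1)) / 4 * Mg Q (fun x om => -2 * lam * (w x om + m * lam)) l0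
        (fun x => γ * nph L i x)
      ≤ ∫ om in {om | (fun x => -2 * lam * (w x om + m * lam)) ∈ nG L l0 lam ν V i},
        Real.exp (Lf (fun x om => -2 * lam * (w x om + m * lam)) l0 (fun x => γ * nph L i x) om) ∂Q := by
  obtain ⟨C, hC, HC⟩ := pz_prob hw
  refine ⟨C, hC, fun lam m γ hl hl8 hCl hm0 hm1 hγ0 hγ1 L l0 i hl0 hI V hV W A ν hW hν hνW hlow hup => ?_⟩
  have hcard : ((nI L i).card : ℝ) = ((i.2 : ℝ) + 2) * L := by rw [nI_card]; push_cast; ring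
  have key := HC lam m γ hl hl8 hCl hm0 hm1 hγ0 hγ1 (nI L i) (by rw [hcard]; exact hI) V hV W A ν hW hν
    hνW hlow hup
  rw [hcard] at key
  have e1 : ∀ om, Lf (fun x om => -2 * lam * (w x om + m * lam)) l0 (fun x => γ * nph L i x) om
      = ∑ x ∈ nI L i, γ / 2 * (-2 * lam * (w x om + m * lam)) := fun om =>
    nI_sum hl0 γ (fun x => -2 * lam * (w x om + m * lam))
  have e2 : {om | (fun x => -2 * lam * (w x om + m * lam)) ∈ nG L l0 lam ν V i}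
      = {om | ENNReal.ofReal (ν * Real.exp (lam ^ 2 * (((i.2 : ℝ) + 2) * L) / 2
          + (∑ x ∈ nI L i, (-2 * lam * (w x om + m * lam))) / 2))
          ≤ V (fun x => ENNReal.ofReal (Real.exp (-2 * lam * (w x om + m * lam))))} := by
    ext om
    simp only [nG, Set.mem_ofPred_eq]
    have h1 := nI_sum hl0 1 (fun x => -2 * lam * (w x om + m * lam))
    simp only [one_mul] at h1
    rw [h1, ← mul_sum, show (1 : ℝ) / 2 * ∑ x ∈ nI L i, (-2 * lam * (w x om + m * lam)) =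
      (∑ x ∈ nI L i, (-2 * lam * (w x om + m * lam))) / 2 by ring]
  unfold Mg
  rw [e2]
  simp_rw [e1]
  exact key

end Pool.Agent.Cop

end
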