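import Mathlib
import Pool.Agent.Work.MP_cceb86_pr.LShort
import Pool.Agent.Work.MP_cceb86_pr.NDefs
import Pool.Agent.Work.MP_cceb86_pr.NPz2

/-!
The stretches made of short excursions.
-/

open Finset MeasureTheory ProbabilityTheory Filter Topology
open scoped ENNReal

noncomputable section

namespace Pool.Agent.Cop

universe u

lemma MA.congr_env {S : Finset ℕ} {g : Env → ℝ≥0∞} (hg : MA S g) {e e' : Env}
    (h : ∀ j ∈ S, e j = e' j) : g e = g e' := by
  obtain ⟨ι, hι, w, T, hT, hgg⟩ := hg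
  rw [hgg, hgg]
  refine sum_congr rfl fun i _ => ?_
  congr 1
  exact prod_congr rfl fun j hj => h j (hT i hj)

lemma gs_anti (l0 : ℕ) {d d' : ℕ} (h : d ≤ d') (a b : ℕ) : gs l0 d' a b ⊆ gs l0 d a b := by
  intro x
  unfold gs
  simp only [mem_filter, mem_Ico]
  rintro ⟨h1, h2⟩
  exact ⟨h1, by omega⟩

lemma Y2_mono_set {T : ℕ → ℕ → ℝ≥0∞} {S1 S2 S1' S2' : Finset ℕ} (h1 : S1 ⊆ S1') (h2 : S2 ⊆ S2') :
    Y2 T S1 S2 ≤ Y2 T S1' S2' := by
  unfold Y2
  refine (sum_le_sum_of_subset h1).trans (sum_le_sum fun x _ => ?_)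
  exact sum_le_sum_of_subset h2

theorem n_block : NBlockS.{u} := by
  refine ⟨Real.exp (-37) / 4, Real.exp (-10) / 64, by positivity, ?_, by positivity, ?_, ?_⟩
  · have : Real.exp (-37) ≤ 1 := Real.exp_le_one_iff.2 (by norm_num)
    linarith
  · have : Real.exp (-10) ≤ 1 := Real.exp_le_one_iff.2 (by norm_num)
    linarith
  intro α hα hα1 X hX hαX m hm hm1 c hc K hK Ω _ Q w hw d0 Λ
  obtain ⟨C, hC, hPZ⟩ := n_prob hw
  have hX0 : 0 < X := by linarith
  have hα0 : 0 < α := by linarith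
  have h1α : 0 < 1 - α := by linarith
  have hXX : 1 ≤ X ^ 2 := by nlinarith
  have hα16 : 1 - α ≤ 1 / 16 := by nlinarith
  have hWl := Wm_low hα0 hα1 hα16 hc hK
  have htend : Tendsto (fun lam : ℝ => ⌊1 / (2 * X * lam ^ 2)⌋₊) (𝓝[>] 0) atTop := by
    refine tendsto_nat_floor_atTop.comp ?_
    have h1 : Tendsto (fun lam : ℝ => 2 * X * lam ^ 2) (𝓝[>] 0) (𝓝[>] 0) := by
      rw [tendsto_nhdsWithin_iff]
      constructor
      · have : Tendsto (fun lam : ℝ => 2 * X * lam ^ 2) (𝓝 0) (𝓝 (2 * X * 0 ^ 2)) := by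
          exact (Continuous.tendsto (by fun_prop) 0)
        simp only [ne_eq, OfNat.ofNat_ne_zero, not_false_eq_true, zero_pow, mul_zero] at this
        exact this.mono_left nhdsWithin_le_nhds
      · filter_upwards [self_mem_nhdsWithin] with lam hlam
        have : (0 : ℝ) < lam := hlam
        show 0 < 2 * X * lam ^ 2
        positivity
    have h2 := tendsto_inv_nhdsGT_zero.comp h1
    refine h2.congr fun lam => ?_
    simp [Function.comp]
  have hlin : ∀ a b : ℝ, 0 < b → ∀ᶠ lam : ℝ in 𝓝[>] 0, a * lam ≤ b := by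
    intro a b hb
    have : Tendsto (fun lam : ℝ => a * lam) (𝓝 0) (𝓝 (a * 0)) :=
      (Continuous.tendsto (by fun_prop) 0)
    rw [mul_zero] at this
    have h2 := (this.eventually (gt_mem_nhds hb)).filter_mono (nhdsWithin_le_nhds (s := Set.Ioi 0))
    filter_upwards [h2] with lam hlam using hlam.le
  have hev : ∀ᶠ lam : ℝ in 𝓝[>] 0, 8 * lam ≤ 1 ∧ C * lam ≤ 1 ∧ C * X * lam ≤ 1 / 100 ∧
      ((d0 : ℝ) + 1) * lam ≤ 1 ∧ X * lam ≤ 1 / 10 ∧
      (∀ L1 j : ℕ, 16 * (1 - α) * (((j : ℝ) + 1) * L1) ≤ (⌊1 / (2 * X * lam ^ 2)⌋₊ : ℝ) →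
        2 * ⌊1 / (2 * X * lam ^ 2)⌋₊ ≤ L1 →
        (α * (1 - α)) / (16 * c) * (L1 : ℝ) ^ (1 + α)
          ≤ Wm K ⌊1 / (2 * X * lam ^ 2)⌋₊ L1 j) := by
    filter_upwards [hlin 8 1 one_pos, hlin C 1 one_pos, hlin (C * X) (1 / 100) (by norm_num),
      hlin ((d0 : ℝ) + 1) 1 one_pos, hlin X (1 / 10) (by norm_num),
      htend.eventually hWl] with lam g1 g2 g3 g4 g5 g6
    exact ⟨g1, g2, g3, g4, g5, g6⟩
  obtain ⟨lam0, hlam0, hl⟩ := (nhdsGT_basis (0 : ℝ)).eventually_iff.1 hev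
  refine ⟨lam0, hlam0, fun lam hlam hlam' L1 hL1 hL2 F hF => ?_⟩
  obtain ⟨g1, g2, g3, g4, g5, g6⟩ := hl (Set.mem_Ioo.2 ⟨hlam, hlam'⟩)
  set L : ℕ := ⌊1 / (2 * X * lam ^ 2)⌋₊ with hLdef
  have hl2 : 0 < lam ^ 2 := by positivity
  have hLup : (L : ℝ) ≤ 1 / (2 * X * lam ^ 2) := Nat.floor_le (by positivity)
  have hLlow : 1 / (2 * X * lam ^ 2) < L + 1 := Nat.lt_floor_add_one _
  have hLup' : 2 * X * lam ^ 2 * L ≤ 1 := by
    rw [le_div_iff₀ (by positivity)] at hLup
    linarith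
  have hLlow' : 1 < 2 * X * lam ^ 2 * (L + 1) := by
    rw [div_lt_iff₀ (by positivity)] at hLlow
    linarith
  have hlamle : lam ≤ 1 := by linarith
  have hlsq : lam ^ 2 ≤ lam := by nlinarith
  have hXl : X * lam ^ 2 ≤ 1 / 10 := by
    have : X * lam ^ 2 ≤ X * lam := by gcongr
    linarith
  -- `2 L ≤ L1`
  have hLL1 : 2 * L ≤ L1 := by
    have h1 : (2 : ℝ) * L ≤ L1 := by
      by_contra hcon
      push Not at hcon
      have h2 : lam ^ 2 * L1 < lam ^ 2 * (2 * L) := by gcongr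
      have h3 : lam ^ 2 * (2 * L) ≤ X * (lam ^ 2 * (2 * L)) :=
        le_mul_of_one_le_left (by positivity) hX
      nlinarith
    exact_mod_cast h1
  have hd0 : d0 + 1 ≤ L1 := by
    have h1 : ((d0 : ℝ) + 1) ≤ L1 := by
      by_contra hcon
      push Not at hcon
      have h2 : lam ^ 2 * L1 < lam ^ 2 * ((d0 : ℝ) + 1) := by gcongr
      have h3 : lam ^ 2 * ((d0 : ℝ) + 1) ≤ lam * ((d0 : ℝ) + 1) := by gcongr
      nlinarith
    exact_mod_cast h1
  set ν : ℝ := Real.exp (-10) / 64 * (1 - α) / c * (L1 : ℝ) ^ (1 + α) with hν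
  set Hw : ℕ → Ω → ℝ := fun x om => -2 * lam * (w x om + m * lam) with hHw
  set G : ℕ × ℕ → Set (ℕ → ℝ) := fun i => {H | ENNReal.ofReal (ν *
      Real.exp (lam ^ 2 * (((i.2 : ℝ) + 2) * L1) / 2 + ∑ x ∈ range (Λ * L1), nph L1 i x * H x))
        ≤ VS (Ke K) L L1 i (fun x => ENNReal.ofReal (Real.exp (H x)))} with hG
  have hI : ∀ i ∈ F, nI L1 i ⊆ Ioo 0 (Λ * L1) := by
    intro i hi x hx
    have h1 := (hF i hi).1
    have h2 : (i.1 + 2 + i.2) * L1 < Λ * L1 := by
      have : 0 < L1 := by omega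
      exact Nat.mul_lt_mul_of_pos_right h1 this
    unfold nI at hx
    rw [mem_Ioc] at hx
    rw [mem_Ioo]
    omega
  have hK0 : K 0 = 0 := hK.zero
  have hKn : ∀ n, 0 ≤ K n := hK.nonneg
  refine ⟨G, ?_, ?_, ?_, ?_⟩
  · -- measurability
    intro i _
    refine measurableSet_le ?_ ?_
    · refine ENNReal.measurable_ofReal.comp ?_
      refine Measurable.const_mul ?_ _
      refine Real.measurable_exp.comp ?_
      refine Measurable.const_add ?_ _
      exact Finset.measurable_sum _ fun x _ => (measurable_pi_apply x).const_mul _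
    · exact MA.measurable (e := fun x (H : ℕ → ℝ) => ENNReal.ofReal (Real.exp (H x)))
        (VS_MA (Ke K) L L1 i) fun n =>
          ENNReal.measurable_ofReal.comp (Real.measurable_exp.comp (measurable_pi_apply n))
  · -- dependence
    intro i hi H H' hHH hH
    simp only [hG, Set.mem_ofPred_eq] at hH ⊢
    have e1 : ∑ x ∈ range (Λ * L1), nph L1 i x * H' x
        = ∑ x ∈ range (Λ * L1), nph L1 i x * H x := by
      refine sum_congr rfl fun x _ => ?_
      unfold nph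
      split_ifs with hx
      · have := mem_Ioo.1 (hI i hi hx)
        rw [hHH x this.1 this.2]
      · simp
    have e2 : VS (Ke K) L L1 i (fun x => ENNReal.ofReal (Real.exp (H' x)))
        = VS (Ke K) L L1 i (fun x => ENNReal.ofReal (Real.exp (H x))) := by
      refine MA.congr_env (VS_MA (Ke K) L L1 i) fun x hx => ?_
      have := mem_Ioo.1 (hI i hi hx)
      rw [hHH x this.1 this.2]
    rw [e1, e2]
    exact hH
  · -- the sum of the stretches
    intro H
    rcases F.eq_empty_or_nonempty with hF0 | hF0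
    · rw [hF0]; simp
    · obtain ⟨i0, hi0⟩ := hF0
      have hΛ : 1 ≤ Λ := by have := (hF i0 hi0).1; omega
      have h1 : ∀ i ∈ F, (G i).indicator (fun H => ENNReal.ofReal (ν *
          Real.exp (lam ^ 2 * (((i.2 : ℝ) + 2) * L1) / 2
            + ∑ x ∈ range (Λ * L1), nph L1 i x * H x))) H
          ≤ VS (Ke K) L L1 i (fun x => ENNReal.ofReal (Real.exp (H x))) := by
        intro i _
        by_cases hH : H ∈ G i
        · rw [Set.indicator_of_mem hH]
          exact hH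
        · rw [Set.indicator_of_notMem hH]
          exact zero_le
      refine (sum_le_sum h1).trans ?_
      have hL1Λ : L1 ≤ Λ * L1 := Nat.le_mul_of_pos_left _ hΛ
      refine (sum_VS_le (d0 := d0 + 1) (l0 := Λ * L1) (by omega) (by omega) F ?_ _).trans
        (Y2_mono_set (gs_anti _ (by omega) _ _) (gs_anti _ (by omega) _ _))
      intro i hi
      have h2 := (hF i hi).1
      have h3 : (i.1 + i.2 + 2 + 1) * L1 ≤ Λ * L1 := Nat.mul_le_mul_right _ (by omega)
      have h4 : (i.1 + i.2 + 2 + 1) * L1 = (i.1 + i.2 + 2) * L1 + L1 := by ring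
      omega
  · -- probability
    intro i hi
    obtain ⟨hi1, hi2, hi3⟩ := hF i hi
    have hL1R : (0 : ℝ) < L1 := by
      have : 0 < L1 := by omega
      exact_mod_cast this
    have hWge : α * (1 - α) / (16 * c) * (L1 : ℝ) ^ (1 + α) ≤ Wm K L L1 i.2 := by
      refine g6 L1 i.2 ?_ hLL1
      have hjX : lam ^ 2 * (((i.2 : ℝ) + 1) * L1) ≤ X := by
        refine le_trans ?_ hi3
        gcongr
        norm_num
      have h1 : X * lam ^ 2 * (16 * (1 - α) * (((i.2 : ℝ) + 1) * L1)) ≤ 16 / 100 := by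
        calc X * lam ^ 2 * (16 * (1 - α) * (((i.2 : ℝ) + 1) * L1))
            = 16 * (1 - α) * X * (lam ^ 2 * (((i.2 : ℝ) + 1) * L1)) := by ring
          _ ≤ 16 * (1 - α) * X * X := by gcongr
          _ = 16 * ((1 - α) * X ^ 2) := by ring
          _ ≤ 16 * (1 / 100) := by gcongr
          _ = _ := by norm_num
      have h2 : (34 : ℝ) / 100 ≤ X * lam ^ 2 * L := by nlinarith
      have h3 : 0 < X * lam ^ 2 := by positivity
      by_contra hcon
      push Not at hcon
      have h4 : X * lam ^ 2 * L < X * lam ^ 2 * (16 * (1 - α) * (((i.2 : ℝ) + 1) * L1)) := by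
        gcongr
      linarith
    have hpow : 0 < (L1 : ℝ) ^ (1 + α) := Real.rpow_pos_of_pos hL1R _
    have hWpos : 0 < Wm K L L1 i.2 := lt_of_lt_of_le (by positivity) hWge
    have hγ1 : 1 / 2 ≤ 1 / (1 + α) := by
      rw [div_le_div_iff₀ (by norm_num) (by linarith)]; linarith
    have hγ2 : 1 / (1 + α) ≤ 2 / 3 := by
      rw [div_le_div_iff₀ (by linarith) (by norm_num)]; linarith
    -- environments are extended by zero
    have hext : ∀ g : ℕ → ℝ, (∀ x ∈ nI L1 i, |g x| ≤ 4 * lam ^ 2) →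
        ∃ g' : ℕ → ℝ, (∀ x, |g' x| ≤ 4 * lam ^ 2) ∧
          ∑ x ∈ Ip L1 i, g' x = ∑ x ∈ nI L1 i, g x ∧
          VS (Ke K) L L1 i (fun x => ENNReal.ofReal (Real.exp (g x)))
            = VS (Ke K) L L1 i (fun x => ENNReal.ofReal (Real.exp (g' x))) := by
      intro g hg
      refine ⟨fun x => if x ∈ nI L1 i then g x else 0, ?_, ?_, ?_⟩
      · intro x
        show |if x ∈ nI L1 i then g x else 0| ≤ _
        split_ifs with hx
        · exact hg x hx
        · simp only [abs_zero]; positivity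
      · have e1 : Ip L1 i = nI L1 i := rfl
        rw [e1]
        exact sum_congr rfl fun x hx => if_pos hx
      · refine MA.congr_env (VS_MA (Ke K) L L1 i) fun x hx => ?_
        have hx' : x ∈ nI L1 i := hx
        simp only [hx', if_true]
    have hGL : 4 * lam ^ 2 * L1 ≤ 8 := by nlinarith
    have hGL2 : (4 * lam ^ 2) ^ 2 * L / 8 * (((i.2 : ℝ) + 2) * L1) ≤ 1 := by
      calc (4 * lam ^ 2) ^ 2 * L / 8 * (((i.2 : ℝ) + 2) * L1)
          = 2 * lam ^ 2 * L * (lam ^ 2 * (((i.2 : ℝ) + 2) * L1)) := by ring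
        _ ≤ 2 * lam ^ 2 * L * X := by gcongr
        _ = 2 * X * lam ^ 2 * L := by ring
        _ ≤ 1 := hLup'
    have hlow : ∀ g : ℕ → ℝ, (∀ x ∈ nI L1 i, |g x| ≤ 4 * lam ^ 2) →
        ENNReal.ofReal (Wm K L L1 i.2 * Real.exp ((∑ x ∈ nI L1 i, g x) / 2 - 9))
          ≤ VS (Ke K) L L1 i (fun x => ENNReal.ofReal (Real.exp (g x))) := by
      intro g hg
      obtain ⟨g', hg', hs, hV⟩ := hext g hg
      rw [hV, ← hs]
      refine le_trans (ENNReal.ofReal_le_ofReal ?_) (VS_low hKn hK0 hg' i)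
      refine mul_le_mul_of_nonneg_left (Real.exp_le_exp.2 ?_) hWpos.le
      linarith
    have hup : ∀ g : ℕ → ℝ, (∀ x ∈ nI L1 i, |g x| ≤ 4 * lam ^ 2) →
        VS (Ke K) L L1 i (fun x => ENNReal.ofReal (Real.exp (g x)))
          ≤ ENNReal.ofReal (Wm K L L1 i.2 * Real.exp ((∑ x ∈ nI L1 i, g x) / 2 + 9)) := by
      intro g hg
      obtain ⟨g', hg', hs, hV⟩ := hext g hg
      rw [hV, ← hs]
      refine (VS_up hKn hK0 hg' i).trans (ENNReal.ofReal_le_ofReal ?_)
      refine mul_le_mul_of_nonneg_left (Real.exp_le_exp.2 ?_) hWpos.le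
      linarith
    have hνW : ν ≤ Wm K L L1 i.2 * Real.exp (-9 - 1) / 2 := by
      have h1 : (1 - α) / (32 * c) * (L1 : ℝ) ^ (1 + α) ≤ Wm K L L1 i.2 := by
        refine le_trans ?_ hWge
        gcongr ?_ * _
        rw [div_le_div_iff₀ (by positivity) (by positivity)]
        have : 0 < (1 - α) * c := by positivity
        nlinarith
      have h2 : (-9 - 1 : ℝ) = -10 := by norm_num
      rw [h2, hν]
      calc Real.exp (-10) / 64 * (1 - α) / c * (L1 : ℝ) ^ (1 + α)
          = ((1 - α) / (32 * c) * (L1 : ℝ) ^ (1 + α)) * Real.exp (-10) / 2 := by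
            field_simp; norm_num
        _ ≤ Wm K L L1 i.2 * Real.exp (-10) / 2 := by gcongr
    have hcard2 : C * lam ^ 3 * (((i.2 : ℝ) + 2) * L1) ≤ 1 / 100 := by
      calc C * lam ^ 3 * (((i.2 : ℝ) + 2) * L1)
          = C * lam * (lam ^ 2 * (((i.2 : ℝ) + 2) * L1)) := by ring
        _ ≤ C * lam * X := by gcongr
        _ = C * X * lam := by ring
        _ ≤ 1 / 100 := g3
    have hνpos : 0 < ν := by
      rw [hν]
      positivity
    have hl0 : (i.1 + 2 + i.2) * L1 < Λ * L1 := by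
      have : 0 < L1 := by omega
      exact Nat.mul_lt_mul_of_pos_right hi1 this
    have key := hPZ lam m (1 / (1 + α)) hlam (by linarith) g2 hm hm1 hγ1 hγ2 L1 (Λ * L1) i hl0
      hcard2 (fun e => VS (Ke K) L L1 i e) (VS_MA (Ke K) L L1 i) (Wm K L L1 i.2) 9 ν hWpos hνpos
      hνW hlow hup
    have e37 : Real.exp (-(4 * 9 + 1)) = Real.exp (-37) := by norm_num
    rw [e37] at key
    exact key

end Pool.Agent.Cop

end
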