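import Mathlib

/-!
Parameters of the lower bound near `α = 1`.
-/

noncomputable section

namespace Pool.Agent.Cop

/-- the excess over `(1 + γ) / 2` -/
def nδ (κ α : ℝ) : ℝ := 3 / 4 + κ * (1 - α) ^ (1 / 4 : ℝ) - (1 + 1 / (1 + α)) / 2

/-- the mass of one stretch -/
def nCC (c1 α : ℝ) (j1 j2 : ℕ) : ℝ := (c1 * (1 - α) / 4) ^ (1 / (1 + α)) / ((j1 + j2 + 3 : ℕ) : ℝ)

/-- the mass of the window -/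
def nM (p0 c1 T α : ℝ) (j1 j2 : ℕ) : ℝ :=
  p0 / 2 * Real.exp (-T - 23) * ((j1 : ℝ) * ((j2 : ℝ) - j1)) * nCC c1 α j1 j2

/-- the parameters -/
structure NP (p0 c1 T κ α : ℝ) (n j1 j2 r : ℕ) : Prop where
  α1 : 1 / 2 ≤ α
  α2 : α < 1
  γ1 : 1 / (1 + α) ≤ 51 / 100
  m1 : 3 / 4 + κ * (1 - α) ^ (1 / 4 : ℝ) ≤ 1
  κ0 : 0 ≤ κ * (1 - α) ^ (1 / 4 : ℝ)
  δ0 : 0 ≤ nδ κ α
  δ1 : nδ κ α ≤ 1 / 100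
  δ2 : nδ κ α * Real.log n ≤ 2
  n3 : 3 ≤ n
  l1 : 2 ≤ Real.log n
  j1a : 18 * Real.log n ≤ j1
  j2a : (j2 : ℝ) ≤ 20 * Real.log n
  j12 : j1 < j2
  X1 : (1 - α) * (21 * Real.log n) ^ 2 ≤ 1 / 100
  cc1 : Real.exp (-(Real.log n) / 100) ≤ nCC c1 α j1 j2
  T1 : T ≤ Real.log n / 100
  w1 : Real.exp (-(Real.log n) / 1000 + 2) ≤ p0 / 16
  M1 : 2 ≤ nM p0 c1 T α j1 j2 * (Real.log n - 1)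
  r1 : 1 ≤ r
  r2 : (r : ℝ) * ((j1 : ℝ) * j2 * nCC c1 α j1 j2 * Real.exp 1) / n ≤ 1 / 2
  r3 : 6 * (r : ℝ) * (1 + r * (3 * Real.log n)) < nM p0 c1 T α j1 j2 * 2 ^ (r - 1)

/-- the choice of the parameters -/
def NPS : Prop := ∀ p0 c1 T : ℝ, 0 < p0 → p0 ≤ 1 → 0 < c1 → c1 ≤ 1 → 0 ≤ T →
  ∃ κ a0 : ℝ, 0 < κ ∧ a0 < 1 ∧ ∀ α : ℝ, a0 < α → α < 1 → ∃ n j1 j2 r : ℕ, NP p0 c1 T κ α n j1 j2 r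

end Pool.Agent.Cop

end
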