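import Mathlib
import Pool.Agent.Work.MP_cceb86_pr.NPdef

/-!
Existence of the parameters of the lower bound near `α = 1` (helper9).
-/

open Filter Topology

noncomputable section

namespace Pool.Agent.Cop

lemma np_ev (C : ℝ) (k : ℕ) {b : ℝ} (hb : 0 < b) :
    ∀ᶠ x : ℝ in atTop, C * x ^ k ≤ Real.exp (b * x) := by
  have h := (isLittleO_pow_exp_pos_mul_atTop (k := k) hb).bound
    (show (0 : ℝ) < 1 / (|C| + 1) by positivity)
  filter_upwards [h, eventually_ge_atTop (0 : ℝ)] with x hx h0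
  rw [Real.norm_of_nonneg (by positivity), Real.norm_of_nonneg (Real.exp_pos _).le] at hx
  rw [div_mul_eq_mul_div, one_mul, le_div_iff₀ (by positivity)] at hx
  have h1 : C * x ^ k ≤ |C| * x ^ k := by
    gcongr
    exact le_abs_self C
  have h2 : 0 ≤ x ^ k := by positivity
  nlinarith

/-- `log n` for `n = ⌈exp y⌉`. -/
lemma np_log {y : ℝ} (hy : 2 ≤ y) :
    3 ≤ ⌈Real.exp y⌉₊ ∧ y ≤ Real.log (⌈Real.exp y⌉₊ : ℝ) ∧
      Real.log (⌈Real.exp y⌉₊ : ℝ) ≤ y + 1 ∧ Real.exp y ≤ (⌈Real.exp y⌉₊ : ℝ) := by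
  have h1 : 3 ≤ Real.exp y := by
    have := Real.add_one_le_exp y
    linarith
  have h2 : Real.exp y ≤ (⌈Real.exp y⌉₊ : ℝ) := Nat.le_ceil _
  have h3 : (⌈Real.exp y⌉₊ : ℝ) < Real.exp y + 1 := Nat.ceil_lt_add_one (Real.exp_pos y).le
  have h5 : (0 : ℝ) < (⌈Real.exp y⌉₊ : ℝ) := by linarith [Real.exp_pos y]
  refine ⟨?_, ?_, ?_, h2⟩
  · have : (3 : ℝ) ≤ (⌈Real.exp y⌉₊ : ℝ) := by linarith
    exact_mod_cast this
  · rw [Real.le_log_iff_exp_le h5]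
    exact h2
  · rw [Real.log_le_iff_le_exp h5, Real.exp_add]
    have : 2 ≤ Real.exp 1 := by
      have := Real.add_one_le_exp (1 : ℝ)
      linarith
    nlinarith [Real.exp_pos y]

/-- the mass of one stretch from below -/
lemma np_pow {c1 t α : ℝ} (hc0 : 0 < c1) (ht : 0 < t) (ht1 : t ≤ 1) (hα : 1 - α = t ^ 4)
    (h5 : 2 * t ^ 2 ≤ Real.sqrt c1 / 2) :
    Real.sqrt c1 * t ^ 2 / 4 ≤ (c1 * (1 - α) / 4) ^ (1 / (1 + α)) := by
  have hs0 : 0 < Real.sqrt c1 := Real.sqrt_pos.2 hc0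
  set s : ℝ := Real.sqrt c1 * t ^ 2 / 2 with hs
  have hspos : 0 < s := by positivity
  have hy : c1 * (1 - α) / 4 = s ^ 2 := by
    rw [hα, hs, div_pow, mul_pow, Real.sq_sqrt hc0.le]
    ring
  have hb1 : t ^ 4 ≤ 1 := pow_le_one₀ ht.le ht1
  have hα1 : 1 + α = 2 - t ^ 4 := by linarith
  have hden : 0 < 1 + α := by rw [hα1]; linarith
  have he : 2 * (1 / (1 + α)) = 1 + (1 - α) / (1 + α) := by
    field_simp
    ring
  set ε : ℝ := (1 - α) / (1 + α) with hε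
  have hε0 : 0 ≤ ε := by
    rw [hε, hα]
    positivity
  have hε1 : ε ≤ t ^ 4 := by
    rw [hε, hα, div_le_iff₀ hden, hα1]
    nlinarith [pow_pos ht 4]
  have h1 : (c1 * (1 - α) / 4) ^ (1 / (1 + α)) = s * s ^ ε := by
    rw [hy, ← Real.rpow_natCast s 2, ← Real.rpow_mul hspos.le]
    push_cast
    rw [he, Real.rpow_add hspos, Real.rpow_one]
  have h2 : 1 / 2 ≤ s ^ ε := by
    rw [Real.rpow_def_of_pos hspos]
    have h3 := Real.add_one_le_exp (Real.log s * ε)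
    have h4 : -(1 / s) ≤ Real.log s := by
      have := Real.log_le_sub_one_of_pos (show 0 < 1 / s by positivity)
      rw [one_div, Real.log_inv] at this
      rw [one_div]
      linarith
    have h6 : -(1 / 2) ≤ Real.log s * ε := by
      have h7 : -(1 / s) * ε ≤ Real.log s * ε := by gcongr
      have h8 : (1 / s) * ε ≤ 1 / 2 := by
        rw [one_div, inv_mul_le_iff₀ hspos]
        have : t ^ 4 ≤ s * (1 / 2) := by
          rw [hs]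
          have h9 : t ^ 4 = t ^ 2 * t ^ 2 := by ring
          nlinarith [pow_pos ht 2]
        linarith
      linarith
    linarith
  rw [h1]
  have : Real.sqrt c1 * t ^ 2 / 4 = s * (1 / 2) := by rw [hs]; ring
  rw [this]
  gcongr

/-- bounds of `nCC` -/
lemma np_cc {c1 t α l : ℝ} {j1 j2 : ℕ} (hc0 : 0 < c1) (hc1 : c1 ≤ 1) (ht : 0 < t) (ht1 : t ≤ 1)
    (hα : 1 - α = t ^ 4) (hl : 2 ≤ l) (hj1 : (j1 : ℝ) ≤ 18 * l + 1) (hj2 : (j2 : ℝ) ≤ 20 * l) :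
    nCC c1 α j1 j2 ≤ 1 ∧ 0 < nCC c1 α j1 j2 ∧
      (c1 * (1 - α) / 4) ^ (1 / (1 + α)) / (40 * l) ≤ nCC c1 α j1 j2 ∧
      c1 * (1 - α) / 4 ≤ (c1 * (1 - α) / 4) ^ (1 / (1 + α)) := by
  have hb1 : t ^ 4 ≤ 1 := pow_le_one₀ ht.le ht1
  have hb0 : 0 < t ^ 4 := by positivity
  have hy0 : 0 < c1 * (1 - α) / 4 := by rw [hα]; positivity
  have hy1 : c1 * (1 - α) / 4 ≤ 1 := by
    rw [hα]
    nlinarith
  have hα0 : 0 ≤ α := by linarith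
  have hγ0 : 0 ≤ 1 / (1 + α) := by positivity
  have hγ1 : 1 / (1 + α) ≤ 1 := by
    rw [div_le_one (by linarith)]
    linarith
  have hp1 : (c1 * (1 - α) / 4) ^ (1 / (1 + α)) ≤ 1 := Real.rpow_le_one hy0.le hy1 hγ0
  have hp0 : 0 < (c1 * (1 - α) / 4) ^ (1 / (1 + α)) := Real.rpow_pos_of_pos hy0 _
  have hd1 : (1 : ℝ) ≤ ((j1 + j2 + 3 : ℕ) : ℝ) := by
    push_cast
    have h1 : (0 : ℝ) ≤ j1 := Nat.cast_nonneg _
    have h2 : (0 : ℝ) ≤ j2 := Nat.cast_nonneg _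
    linarith
  have hd2 : ((j1 + j2 + 3 : ℕ) : ℝ) ≤ 40 * l := by
    push_cast
    linarith
  unfold nCC
  refine ⟨?_, by positivity, ?_, ?_⟩
  · rw [div_le_one (by linarith)]
    linarith
  · gcongr
  · calc c1 * (1 - α) / 4 = (c1 * (1 - α) / 4) ^ (1 : ℝ) := (Real.rpow_one _).symm
      _ ≤ (c1 * (1 - α) / 4) ^ (1 / (1 + α)) :=
        Real.rpow_le_rpow_of_exponent_ge hy0 hy1 hγ1

/-- the mass of the window -/
lemma np_M {p0 c1 T κ t α l : ℝ} {j1 j2 : ℕ} (hp0 : 0 < p0) (hc0 : 0 < c1) (hc1 : c1 ≤ 1)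
    (ht : 0 < t) (ht1 : t ≤ 1) (hα : 1 - α = t ^ 4) (h5 : 2 * t ^ 2 ≤ Real.sqrt c1 / 2)
    (hκ0 : 0 < κ) (hκ : κ ^ 2 = 9 / 160 * p0 * Real.sqrt c1 * Real.exp (-T - 23) / 4)
    (hl : 2 ≤ l) (hlt : 1 ≤ κ * t * l)
    (hj1 : (j1 : ℝ) ≤ 18 * l + 1) (hj2 : (j2 : ℝ) ≤ 20 * l) (hj1' : 18 * l ≤ (j1 : ℝ))
    (hj2' : 20 * l - 1 ≤ (j2 : ℝ)) :
    2 ≤ nM p0 c1 T α j1 j2 * (l - 1) := by
  obtain ⟨-, hcc0, hcc, -⟩ := np_cc hc0 hc1 ht ht1 hα hl hj1 hj2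
  have hpow := np_pow hc0 ht ht1 hα h5
  have hs0 : 0 < Real.sqrt c1 := Real.sqrt_pos.2 hc0
  have hE := Real.exp_pos (-T - 23)
  have h1 : Real.sqrt c1 * t ^ 2 / 4 / (40 * l) ≤ nCC c1 α j1 j2 := by
    refine le_trans ?_ hcc
    gcongr
  have h2 : 18 * l ^ 2 ≤ (j1 : ℝ) * ((j2 : ℝ) - j1) := by
    have h3 : l ≤ (j2 : ℝ) - j1 := by linarith
    calc 18 * l ^ 2 = (18 * l) * l := by ring
      _ ≤ (j1 : ℝ) * ((j2 : ℝ) - j1) := by gcongr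
  have h3 : p0 / 2 * Real.exp (-T - 23) * (18 * l ^ 2) * (Real.sqrt c1 * t ^ 2 / 4 / (40 * l))
      ≤ nM p0 c1 T α j1 j2 := by
    have h2' : 0 ≤ (j1 : ℝ) * ((j2 : ℝ) - j1) := le_trans (by positivity) h2
    unfold nM
    exact mul_le_mul (mul_le_mul_of_nonneg_left h2 (by positivity)) h1 (by positivity)
      (mul_nonneg (by positivity) h2')
  have h4 : p0 / 2 * Real.exp (-T - 23) * (18 * l ^ 2) * (Real.sqrt c1 * t ^ 2 / 4 / (40 * l))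
      = (9 / 160 * p0 * Real.sqrt c1 * Real.exp (-T - 23) / 4) * (4 * (l * t ^ 2)) := by
    have hl0 : l ≠ 0 := by linarith
    field_simp
    ring
  rw [h4, ← hκ] at h3
  have h6 : l / 2 ≤ l - 1 := by linarith
  have h7 : 1 ≤ (κ * t * l) ^ 2 := one_le_pow₀ hlt
  calc (2 : ℝ) ≤ 2 * (κ * t * l) ^ 2 := by linarith
    _ = κ ^ 2 * (4 * (l * t ^ 2)) * (l / 2) := by ring
    _ ≤ nM p0 c1 T α j1 j2 * (l - 1) := by
        have h8 : 0 ≤ κ ^ 2 * (4 * (l * t ^ 2)) := by positivity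
        have h9 : 0 ≤ l / 2 := by linarith
        exact mul_le_mul h3 h6 h9 (le_trans h8 h3)

lemma np_r3 {M l : ℝ} {r : ℕ} (hl : 2 ≤ l) (hM : 2 ≤ M * (l - 1)) (hra : l ≤ (r : ℝ))
    (hrb : (r : ℝ) ≤ l + 1) (hr1 : 1 ≤ r) (e5 : 85 * l ^ 4 ≤ Real.exp (1 / 2 * l)) :
    6 * (r : ℝ) * (1 + r * (3 * l)) < M * 2 ^ (r - 1) := by
  have hl0 : 0 < l := by linarith
  have hl1 : 0 < l - 1 := by linarith
  have h2 : (r : ℝ) ≤ 2 * l := by linarith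
  have h7 : 2 / (l - 1) ≤ M := by
    rw [div_le_iff₀ hl1]
    exact hM
  have hMpos : 2 / l ≤ M := by
    refine le_trans ?_ h7
    gcongr
    linarith
  have hp : Real.exp (1 / 2 * l) / 2 ≤ (2 : ℝ) ^ (r - 1) := by
    have h8 : (2 : ℝ) ^ (r - 1) = Real.exp (((r : ℝ) - 1) * Real.log 2) := by
      rw [mul_comm, Real.exp_mul, Real.exp_log (by norm_num), ← Real.rpow_natCast,
        Nat.cast_sub hr1, Nat.cast_one]
    rw [h8]
    have h9 : (1 / 2 : ℝ) ≤ Real.log 2 := by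
      have := Real.log_two_gt_d9
      linarith
    have h10 : 1 / 2 * l - 1 / 2 ≤ ((r : ℝ) - 1) * Real.log 2 := by
      calc 1 / 2 * l - 1 / 2 = (l - 1) * (1 / 2) := by ring
        _ ≤ ((r : ℝ) - 1) * Real.log 2 := by
          gcongr
          linarith
    have h11 : Real.exp (1 / 2 * l) / 2 ≤ Real.exp (1 / 2 * l - 1 / 2) := by
      rw [Real.exp_sub]
      gcongr
      have h12 : Real.exp (1 / 2) ^ 2 = Real.exp 1 := by
        rw [← Real.exp_nat_mul]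
        norm_num
      have h13 : Real.exp 1 ≤ 4 := by
        have := Real.exp_one_lt_d9
        linarith
      have h14 : Real.exp (1 / 2) ^ 2 ≤ 2 ^ 2 := by rw [h12]; linarith
      exact le_of_sq_le_sq h14 (by norm_num)
    exact h11.trans (Real.exp_le_exp.2 h10)
  have hlp : l ≤ l ^ 3 := le_self_pow₀ (by linarith) (by norm_num)
  have hl3 : 0 < l ^ 3 := by positivity
  have hM0 : 0 ≤ M := le_trans (by positivity) hMpos
  have hE0 := Real.exp_pos (1 / 2 * l)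
  have s1 : 6 * (r : ℝ) * (1 + r * (3 * l)) ≤ 6 * (2 * l) * (1 + (2 * l) * (3 * l)) := by
    gcongr
  have s2 : 6 * (2 * l) * (1 + (2 * l) * (3 * l)) = 12 * l + 72 * l ^ 3 := by ring
  have s3 : 85 * l ^ 3 ≤ 2 / l * (Real.exp (1 / 2 * l) / 2) := by
    have : 2 / l * (Real.exp (1 / 2 * l) / 2) = Real.exp (1 / 2 * l) / l := by
      field_simp
    rw [this, le_div_iff₀ hl0]
    calc 85 * l ^ 3 * l = 85 * l ^ 4 := by ring
      _ ≤ _ := e5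
  have s4 : 2 / l * (Real.exp (1 / 2 * l) / 2) ≤ M * 2 ^ (r - 1) := by
    gcongr
  linarith

lemma np_r2 {c l : ℝ} {n j1 j2 r : ℕ} (hl : 2 ≤ l) (hnl : (n : ℝ) = Real.exp l)
    (h1 : (j1 : ℝ) ≤ 18 * l + 1) (hj2 : (j2 : ℝ) ≤ 20 * l) (h2 : (r : ℝ) ≤ l + 1)
    (hc0 : 0 < c) (hc1 : c ≤ 1) (e4 : 4560 * l ^ 3 ≤ Real.exp (1 * l)) :
    (r : ℝ) * ((j1 : ℝ) * j2 * c * Real.exp 1) / n ≤ 1 / 2 := by
  have hl0 : 0 < l := by linarith
  rw [hnl, div_le_iff₀ (Real.exp_pos _)]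
  have h1 : (j1 : ℝ) ≤ 19 * l := by linarith
  have h2 : (r : ℝ) ≤ 2 * l := by linarith
  have h3 : Real.exp 1 ≤ 3 := by
    have := Real.exp_one_lt_d9
    linarith
  calc (r : ℝ) * ((j1 : ℝ) * j2 * c * Real.exp 1)
      ≤ (2 * l) * ((19 * l) * (20 * l) * 1 * 3) := by gcongr
    _ = 1 / 2 * (4560 * l ^ 3) := by ring
    _ ≤ 1 / 2 * Real.exp (1 * l) := by gcongr
    _ = 1 / 2 * Real.exp l := by rw [one_mul]

lemma np_w1 {p0 l : ℝ} (hp0 : 0 < p0)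
    (e2 : 16 * Real.exp 2 / p0 * l ^ 0 ≤ Real.exp (1 / 1000 * l)) :
    Real.exp (-l / 1000 + 2) ≤ p0 / 16 := by
  rw [pow_zero, mul_one, div_le_iff₀ hp0] at e2
  have h1 : Real.exp (-l / 1000 + 2) = Real.exp 2 / Real.exp (1 / 1000 * l) := by
    rw [← Real.exp_sub]
    congr 1
    ring
  rw [h1, div_le_iff₀ (Real.exp_pos _)]
  linarith

lemma np_cc1 {c1 κ t α l : ℝ} {j1 j2 : ℕ} (hc0 : 0 < c1) (hl : 2 ≤ l) (hκ0 : 0 < κ)
    (ht : 0 < t) (ht4 : 1 - α = t ^ 4) (hklt : 1 ≤ κ * t * l)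
    (hccL : (c1 * (1 - α) / 4) ^ (1 / (1 + α)) / (40 * l) ≤ nCC c1 α j1 j2)
    (hccP : c1 * (1 - α) / 4 ≤ (c1 * (1 - α) / 4) ^ (1 / (1 + α)))
    (e1 : 160 * κ ^ 4 / c1 * l ^ 5 ≤ Real.exp (1 / 100 * l)) :
    Real.exp (-l / 100) ≤ nCC c1 α j1 j2 := by
  refine le_trans ?_ hccL
  have hl0 : 0 < l := by linarith
  have h1 : c1 * (1 - α) / 4 / (40 * l) ≤
      (c1 * (1 - α) / 4) ^ (1 / (1 + α)) / (40 * l) := by
    gcongr
  refine le_trans ?_ h1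
  rw [ht4]
  have h2 : 1 ≤ (κ * t * l) ^ 4 := one_le_pow₀ hklt
  have h3 : 1 / (160 * κ ^ 4 / c1 * l ^ 5) ≤ c1 * t ^ 4 / 4 / (40 * l) := by
    rw [div_le_iff₀ (by positivity)]
    calc (1 : ℝ) ≤ (κ * t * l) ^ 4 := h2
      _ = c1 * t ^ 4 / 4 / (40 * l) * (160 * κ ^ 4 / c1 * l ^ 5) := by
        field_simp
        ring
  refine le_trans ?_ h3
  have h4 : Real.exp (-l / 100) = 1 / Real.exp (1 / 100 * l) := by
    rw [one_div, ← Real.exp_neg]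
    congr 1
    ring
  rw [h4]
  gcongr

lemma np_X1 {κ t L0 l : ℝ} (hκ0 : 0 < κ) (ht : 0 < t) (htb : t ≤ κ / 420)
    (hL0' : κ * t * L0 = 1) (hL02 : 2 ≤ L0) (hlU : l ≤ L0 + 1) (hl0 : 0 < l) :
    t ^ 4 * (21 * l) ^ 2 ≤ 1 / 100 := by
  have h1 : t * l ≤ 2 / κ := by
    rw [le_div_iff₀ hκ0]
    calc t * l * κ ≤ t * (L0 + L0) * κ := by
          gcongr
          linarith
      _ = 2 * (κ * t * L0) := by ring
      _ = 2 := by rw [hL0']; norm_num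
  have h2 : t * (t * l) ≤ κ / 420 * (2 / κ) := by
    gcongr
  have h3 : κ / 420 * (2 / κ) = 1 / 210 := by
    field_simp
    norm_num
  rw [h3] at h2
  calc t ^ 4 * (21 * l) ^ 2 = 441 * (t * (t * l)) ^ 2 := by ring
    _ ≤ 441 * (1 / 210) ^ 2 := by gcongr
    _ = 1 / 100 := by norm_num

lemma np_δ {κ t α : ℝ} (_hκ0 : 0 < κ) (ht : 0 < t) (ht1 : t ≤ 1) (htκ : t ≤ κ)
    (htdef : t = (1 - α) ^ (1 / 4 : ℝ)) (ht4 : 1 - α = t ^ 4) :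
    0 ≤ nδ κ α ∧ nδ κ α ≤ κ * t := by
  have ht4p : 0 < t ^ 4 := by positivity
  have ht4b : t ^ 4 ≤ 1 := pow_le_one₀ ht.le ht1
  have hδ : nδ κ α = κ * t - t ^ 4 / (4 * (2 - t ^ 4)) := by
    unfold nδ
    rw [← htdef]
    have h1 : 1 + α = 2 - t ^ 4 := by linarith
    have h2 : 2 - t ^ 4 ≠ 0 := by linarith
    rw [h1]
    field_simp
    ring
  rw [hδ]
  constructor
  · have h1 : t ^ 4 / (4 * (2 - t ^ 4)) ≤ t ^ 4 := by
      apply div_le_self ht4p.le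
      linarith
    have h2 : t ^ 4 ≤ κ * t := by
      have h3 : t ^ 3 ≤ t := by
        calc t ^ 3 = t * (t ^ 2) := by ring
          _ ≤ t * 1 := by
            gcongr
            exact pow_le_one₀ ht.le ht1
          _ = t := mul_one t
      have h4 : t ^ 3 ≤ κ := by linarith
      calc t ^ 4 = t ^ 3 * t := by ring
        _ ≤ κ * t := by gcongr
    linarith
  · have : 0 ≤ t ^ 4 / (4 * (2 - t ^ 4)) := by
      apply div_nonneg ht4p.le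
      linarith
    linarith

/-- the parameters for one value of `α`, with `L0` and `t` as data -/
lemma np_one {p0 c1 T κ t α L0 Λ : ℝ} (hp0 : 0 < p0) (hc0 : 0 < c1) (hc1 : c1 ≤ 1)
    (hκ0 : 0 < κ) (hκ1 : κ ≤ 1 / 2)
    (hκ2 : κ ^ 2 = 9 / 160 * p0 * Real.sqrt c1 * Real.exp (-T - 23) / 4)
    (hΛ : ∀ x : ℝ, Λ ≤ x → (((160 * κ ^ 4 / c1 * x ^ 5 ≤ Real.exp (1 / 100 * x) ∧
      16 * Real.exp 2 / p0 * x ^ 0 ≤ Real.exp (1 / 1000 * x)) ∧ 100 * T ≤ x) ∧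
      4560 * x ^ 3 ≤ Real.exp (1 * x)) ∧ 85 * x ^ 4 ≤ Real.exp (1 / 2 * x))
    (hα1 : α < 1) (htdef : t = (1 - α) ^ (1 / 4 : ℝ)) (ht : 0 < t) (ht4 : 1 - α = t ^ 4)
    (hta : t ≤ 2 / 5) (htb : t ≤ κ / 420) (htc : t ≤ Real.sqrt c1 / 4)
    (hL0' : κ * t * L0 = 1) (hL0Λ : Λ ≤ L0) (hL02 : 2 ≤ L0) :
    ∃ n j1 j2 r : ℕ, NP p0 c1 T κ α n j1 j2 r := by
  have ht1 : t ≤ 1 := hta.trans (by norm_num)
  have hκt : 0 < κ * t := mul_pos hκ0 ht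
  obtain ⟨n, hn⟩ : ∃ n : ℕ, n = ⌈Real.exp L0⌉₊ := ⟨_, rfl⟩
  obtain ⟨hn3, hlL, hlU, -⟩ := np_log hL02
  rw [← hn] at hn3 hlL hlU
  obtain ⟨l, hl⟩ : ∃ l : ℝ, l = Real.log n := ⟨_, rfl⟩
  rw [← hl] at hlL hlU
  have hl2 : 2 ≤ l := hL02.trans hlL
  have hl0 : 0 < l := lt_of_lt_of_le (by norm_num) hl2
  have hnl : (n : ℝ) = Real.exp l := by
    have h3 : (3 : ℝ) ≤ n := by exact_mod_cast hn3
    rw [hl, Real.exp_log (lt_of_lt_of_le (by norm_num) h3)]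
  obtain ⟨⟨⟨⟨e1, e2⟩, e3⟩, e4⟩, e5⟩ := hΛ l (hL0Λ.trans hlL)
  obtain ⟨j1, hj1d⟩ : ∃ j1 : ℕ, j1 = ⌈18 * l⌉₊ := ⟨_, rfl⟩
  obtain ⟨j2, hj2d⟩ : ∃ j2 : ℕ, j2 = ⌊20 * l⌋₊ := ⟨_, rfl⟩
  obtain ⟨r, hrd⟩ : ∃ r : ℕ, r = ⌈l⌉₊ := ⟨_, rfl⟩
  have hj1a : 18 * l ≤ (j1 : ℝ) := by rw [hj1d]; exact Nat.le_ceil _
  have hj1b : (j1 : ℝ) ≤ 18 * l + 1 := by
    rw [hj1d]; exact (Nat.ceil_lt_add_one (by positivity)).le
  have hj2a : (j2 : ℝ) ≤ 20 * l := by rw [hj2d]; exact Nat.floor_le (by positivity)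
  have hj2b : 20 * l - 1 ≤ (j2 : ℝ) := by
    have := Nat.lt_floor_add_one (20 * l)
    rw [hj2d]
    exact (sub_le_iff_le_add).2 this.le
  have hra : l ≤ (r : ℝ) := by rw [hrd]; exact Nat.le_ceil _
  have hrb : (r : ℝ) ≤ l + 1 := by
    rw [hrd]; exact (Nat.ceil_lt_add_one hl0.le).le
  clear hn hrd hj1d hj2d
  have hj12 : j1 < j2 := by
    have : (j1 : ℝ) < j2 := by
      clear hκ2 hΛ hta htb htc htdef
      linarith
    exact_mod_cast this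
  have hr1 : 1 ≤ r := by
    have : (1 : ℝ) ≤ r := le_trans (le_trans (by norm_num) hl2) hra
    exact_mod_cast this
  have h5 : 2 * t ^ 2 ≤ Real.sqrt c1 / 2 := by
    have h6 : t ^ 2 ≤ t := by
      calc t ^ 2 = t * t := by ring
        _ ≤ t * 1 := by gcongr
        _ = t := mul_one t
    clear hκ2 hΛ
    linarith
  obtain ⟨hcc1, hcc0, hccL, hccP⟩ := np_cc hc0 hc1 ht ht1 ht4 hl2 hj1b hj2a
  have hklt : 1 ≤ κ * t * l := by
    calc (1 : ℝ) = κ * t * L0 := hL0'.symm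
      _ ≤ κ * t * l := by gcongr
  have hM := np_M hp0 hc0 hc1 ht ht1 ht4 h5 hκ0 hκ2 hl2 hklt hj1b hj2a hj1a hj2b
  have ht4b : t ^ 4 ≤ 256 / 10000 := by
    calc t ^ 4 ≤ (2 / 5) ^ 4 := by gcongr
      _ = 256 / 10000 := by norm_num
  have hκt1 : κ * t ≤ 1 / 100 := by
    calc κ * t ≤ (1 / 2) * (κ / 420) := by gcongr
      _ ≤ (1 / 2) * ((1 / 2) / 420) := by gcongr
      _ ≤ 1 / 100 := by norm_num
  have htκ : t ≤ κ := htb.trans (div_le_self hκ0.le (by norm_num))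
  obtain ⟨hδ0, hδ1⟩ := np_δ hκ0 ht ht1 htκ htdef ht4
  have hr2 := np_r2 (c := nCC c1 α j1 j2) hl2 hnl hj1b hj2a hrb hcc0 hcc1 e4
  have hr3 := np_r3 hl2 hM hra hrb hr1 e5
  have hX := np_X1 hκ0 ht htb hL0' hL02 hlU hl0
  have hC := np_cc1 (j1 := j1) (j2 := j2) hc0 hl2 hκ0 ht ht4 hklt hccL hccP e1
  have hW := np_w1 hp0 e2
  have hT : T ≤ l / 100 := by
    rw [le_div_iff₀ (by norm_num)]
    linarith only [e3]
  have hα12 : 1 / 2 ≤ α := by linarith only [ht4, ht4b]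
  have hγ : 1 / (1 + α) ≤ 51 / 100 := by
    rw [div_le_div_iff₀ (by linarith only [hα12]) (by norm_num)]
    linarith only [ht4, ht4b]
  have hδ2 : nδ κ α * l ≤ 2 := by
    calc nδ κ α * l ≤ (κ * t) * (L0 + 1) := by gcongr
      _ = 1 + κ * t := by rw [mul_add, hL0']; ring
      _ ≤ 2 := by linarith only [hκt1]
  have hm : 3 / 4 + κ * t ≤ 1 := by linarith only [hκt1]
  rw [← ht4] at hX
  rw [hl] at hl2 hj1a hj2a hδ2 hX hC hT hW hM hr3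
  rw [htdef] at hm hκt
  exact ⟨n, j1, j2, r, hα12, hα1, hγ, hm, hκt.le, hδ0, hδ1.trans hκt1, hδ2, hn3, hl2, hj1a, hj2a,
    hj12, hX, hC, hT, hW, hM, hr1, hr2, hr3⟩

theorem np_exists : NPS := by
  intro p0 c1 T hp0 hp1 hc0 hc1 hT
  have hs0 : 0 < Real.sqrt c1 := Real.sqrt_pos.2 hc0
  have hs1 : Real.sqrt c1 ≤ 1 := Real.sqrt_le_one.2 hc1
  have hE0 := Real.exp_pos (-T - 23)
  have hE1 : Real.exp (-T - 23) ≤ 1 := Real.exp_le_one_iff.2 (by linarith)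
  obtain ⟨K, hK⟩ : ∃ K : ℝ, K = 9 / 160 * p0 * Real.sqrt c1 * Real.exp (-T - 23) := ⟨_, rfl⟩
  have hKpos : 0 < K := by rw [hK]; positivity
  have hK1 : K ≤ 1 := by
    have h1 : p0 * Real.sqrt c1 ≤ 1 := mul_le_one₀ hp1 hs0.le hs1
    have h2 : p0 * Real.sqrt c1 * Real.exp (-T - 23) ≤ 1 := mul_le_one₀ h1 hE0.le hE1
    have h3 : K = 9 / 160 * (p0 * Real.sqrt c1 * Real.exp (-T - 23)) := by rw [hK]; ring
    rw [h3]
    linarith only [h2]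
  obtain ⟨κ, hκdef⟩ : ∃ κ : ℝ, κ = Real.sqrt K / 2 := ⟨_, rfl⟩
  have hκ0 : 0 < κ := by
    have := Real.sqrt_pos.2 hKpos
    rw [hκdef]
    positivity
  have hκ1 : κ ≤ 1 / 2 := by
    have : Real.sqrt K ≤ 1 := Real.sqrt_le_one.2 hK1
    rw [hκdef]
    linarith only [this]
  have hκ2 : κ ^ 2 = 9 / 160 * p0 * Real.sqrt c1 * Real.exp (-T - 23) / 4 := by
    rw [← hK, hκdef, div_pow, Real.sq_sqrt hKpos.le]
    norm_num
  clear hE0 hE1 hK hKpos hK1 hκdef hs1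
  have hev := ((((np_ev (160 * κ ^ 4 / c1) 5 (show (0 : ℝ) < 1 / 100 by norm_num)).and
    (np_ev (16 * Real.exp 2 / p0) 0 (show (0 : ℝ) < 1 / 1000 by norm_num))).and
    (eventually_ge_atTop (100 * T))).and
    (np_ev 4560 3 (show (0 : ℝ) < 1 by norm_num))).and
    (np_ev 85 4 (show (0 : ℝ) < 1 / 2 by norm_num))
  obtain ⟨Λ, hΛ⟩ := eventually_atTop.1 hev
  obtain ⟨Λ', hΛ'⟩ : ∃ Λ' : ℝ, Λ' = max Λ 2 := ⟨_, rfl⟩
  have hΛ1 : Λ ≤ Λ' := by rw [hΛ']; exact le_max_left _ _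
  have hΛ2 : 2 ≤ Λ' := by rw [hΛ']; exact le_max_right _ _
  have hΛ0 : 0 < Λ' := lt_of_lt_of_le (by norm_num) hΛ2
  obtain ⟨t0, ht0⟩ : ∃ t0 : ℝ, t0 = min (2 / 5) (min (κ / 420) (min (Real.sqrt c1 / 4)
    (1 / (κ * Λ')))) := ⟨_, rfl⟩
  have ht0pos : 0 < t0 := by
    rw [ht0]
    refine lt_min (by norm_num) (lt_min (by positivity) (lt_min (by positivity) (by positivity)))
  have ht0a : t0 ≤ 2 / 5 := by rw [ht0]; exact min_le_left _ _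
  have ht0b : t0 ≤ κ / 420 := by
    rw [ht0]; exact (min_le_right _ _).trans (min_le_left _ _)
  have ht0c : t0 ≤ Real.sqrt c1 / 4 := by
    rw [ht0]; exact (min_le_right _ _).trans ((min_le_right _ _).trans (min_le_left _ _))
  have ht0d : t0 ≤ 1 / (κ * Λ') := by
    rw [ht0]; exact (min_le_right _ _).trans ((min_le_right _ _).trans (min_le_right _ _))
  refine ⟨κ, 1 - t0 ^ 4, hκ0, sub_lt_self _ (pow_pos ht0pos 4), ?_⟩
  intro α hα0 hα1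
  have hb : 0 < 1 - α := sub_pos.2 hα1
  obtain ⟨t, htdef⟩ : ∃ t : ℝ, t = (1 - α) ^ (1 / 4 : ℝ) := ⟨_, rfl⟩
  have ht : 0 < t := by rw [htdef]; exact Real.rpow_pos_of_pos hb _
  have ht4 : 1 - α = t ^ 4 := by
    rw [htdef, ← Real.rpow_natCast, ← Real.rpow_mul hb.le]
    norm_num
  have htt0 : t ≤ t0 := by
    by_contra hcon
    push Not at hcon
    have : t0 ^ 4 ≤ t ^ 4 := by gcongr
    linarith only [this, ht4, hα0]
  have htd : t ≤ 1 / (κ * Λ') := htt0.trans ht0d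
  have hκt : 0 < κ * t := mul_pos hκ0 ht
  have hL0' : κ * t * (1 / (κ * t)) = 1 := by
    field_simp
  have hL0Λ : Λ' ≤ 1 / (κ * t) := by
    rw [le_div_iff₀ hκt]
    rw [le_div_iff₀ (by positivity)] at htd
    calc Λ' * (κ * t) = t * (κ * Λ') := by ring
      _ ≤ 1 := htd
  exact np_one hp0 hc0 hc1 hκ0 hκ1 hκ2 hΛ hα1 htdef ht ht4 (htt0.trans ht0a) (htt0.trans ht0b)
    (htt0.trans ht0c) hL0' (hΛ1.trans hL0Λ) (hΛ2.trans hL0Λ)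

end Pool.Agent.Cop

end
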