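import Pool.Agent.Work.MP_cceb86_pr.UDefs

/-!
# The total mass of the internally stable clusters is finite

`clT_ne_top`: a deterministic recursion over the classes of the inner gaps.
-/

open Finset
open scoped ENNReal NNReal

noncomputable section

namespace Pool.Agent.Cop

namespace Cl51

/-- weight of a cluster -/
def cw (w g : ℕ → ℝ≥0∞) (x : ℕ × List (ℕ × ℕ)) : ℝ≥0∞ := w x.1 * wtl w g x.2

/-- strength of a cluster -/
def cs (Y : ℕ → ℕ) (x : ℕ × List (ℕ × ℕ)) : ℤ := str Y ((0, x.1) :: x.2)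

/-- joining two clusters at a gap of class `K` -/
def cj (K : ℕ) (z : (ℕ × List (ℕ × ℕ)) × (ℕ × List (ℕ × ℕ))) : ℕ × List (ℕ × ℕ) :=
  (z.1.1, z.1.2 ++ (K, z.2.1) :: z.2.2)

/-! ## Combinatorics -/

lemma sl_append (Y : ℕ → ℕ) (l m : List (ℕ × ℕ)) : sl Y (l ++ m) = sl Y l + sl Y m := by
  unfold sl; rw [List.map_append, List.sum_append]

lemma sl_cons (Y : ℕ → ℕ) (p : ℕ × ℕ) (m : List (ℕ × ℕ)) :
    sl Y (p :: m) = ((Y p.2 : ℤ) - p.1) + sl Y m := by
  unfold sl; rw [List.map_cons, List.sum_cons]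

lemma cs_join (Y : ℕ → ℕ) (K : ℕ) (z : (ℕ × List (ℕ × ℕ)) × (ℕ × List (ℕ × ℕ))) :
    cs Y (cj K z) = cs Y z.1 + cs Y z.2 - K := by
  unfold cs cj str
  simp only [sl_append, sl_cons]
  ring

lemma cw_join (w g : ℕ → ℝ≥0∞) (K : ℕ) (z : (ℕ × List (ℕ × ℕ)) × (ℕ × List (ℕ × ℕ))) :
    cw w g (cj K z) = cw w g z.1 * (g K * cw w g z.2) := by
  unfold cw cj wtl
  simp only [List.map_append, List.prod_append, List.map_cons, List.prod_cons]
  ring

lemma exists_first {K : ℕ} : ∀ {l : List (ℕ × ℕ)}, (∀ x ∈ l, x.1 ≤ K) → (∃ x ∈ l, x.1 = K) →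
    ∃ (l1 : List (ℕ × ℕ)) (j : ℕ) (l2 : List (ℕ × ℕ)), l = l1 ++ (K, j) :: l2 ∧
      (∀ x ∈ l1, x.1 < K) ∧ (∀ x ∈ l2, x.1 ≤ K) := by
  intro l
  induction l with
  | nil => rintro - ⟨x, hx, -⟩; simp at hx
  | cons a t ih =>
    intro h1 h2
    by_cases ha : a.1 = K
    · refine ⟨[], a.2, t, ?_, by simp, fun x hx => h1 x (List.mem_cons_of_mem _ hx)⟩
      rw [← ha]; rfl
    · have h3 : ∃ x ∈ t, x.1 = K := by
        obtain ⟨x, hx, hxK⟩ := h2
        rcases List.mem_cons.1 hx with h | h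
        · exact absurd (h ▸ hxK) ha
        · exact ⟨x, h, hxK⟩
      obtain ⟨l1, j, l2, e, p1, p2⟩ := ih (fun x hx => h1 x (List.mem_cons_of_mem _ hx)) h3
      refine ⟨a :: l1, j, l2, by rw [e]; rfl, ?_, p2⟩
      intro x hx
      rcases List.mem_cons.1 hx with h | h
      · rw [h]; exact lt_of_le_of_ne (h1 a List.mem_cons_self) ha
      · exact p1 x h

lemma exists_max : ∀ {l : List (ℕ × ℕ)}, l ≠ [] → ∃ K, (∀ x ∈ l, x.1 ≤ K) ∧ ∃ x ∈ l, x.1 = K := by
  intro l
  induction l with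
  | nil => intro h; exact absurd rfl h
  | cons a t ih =>
    intro _
    by_cases ht : t = []
    · subst ht
      exact ⟨a.1, by simp, a, by simp, rfl⟩
    · obtain ⟨K, h1, x, hx, hK⟩ := ih ht
      rcases le_total a.1 K with h | h
      · refine ⟨K, ?_, x, List.mem_cons_of_mem _ hx, hK⟩
        intro y hy
        rcases List.mem_cons.1 hy with e | e
        · rw [e]; exact h
        · exact h1 y e
      · refine ⟨a.1, ?_, a, List.mem_cons_self, rfl⟩
        intro y hy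
        rcases List.mem_cons.1 hy with e | e
        · rw [e]
        · exact (h1 y e).trans h

/-- both parts of a split cluster are internally stable and strong -/
lemma IS_split {Y : ℕ → ℕ} {K : ℕ} {a b : ℕ × List (ℕ × ℕ)}
    (h : IS Y ((0, (cj K (a, b)).1) :: (cj K (a, b)).2))
    (h1 : ∀ x ∈ a.2, x.1 < K) (h2 : ∀ x ∈ b.2, x.1 ≤ K) :
    IS Y ((0, a.1) :: a.2) ∧ IS Y ((0, b.1) :: b.2) ∧ (K : ℤ) ≤ cs Y a ∧ (K : ℤ) ≤ cs Y b := by
  have hM : ((0, (cj K (a, b)).1) :: (cj K (a, b)).2 : List (ℕ × ℕ)) =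
      ((0, a.1) :: a.2) ++ (K, b.1) :: b.2 := rfl
  rw [hM] at h
  refine ⟨?_, ?_, ?_⟩
  · intro A x B p C D e hB hC hA hD
    refine h A x B p C (D ++ (K, b.1) :: b.2) (by rw [e]; simp) hB hC hA ?_
    intro y hy
    rcases D with _ | ⟨d, D⟩
    · simp at hy
      rw [← hy]
      -- `p` is not the head
      have hp : p ∈ a.2 := by
        rcases A with _ | ⟨a0, A⟩
        · simp at e
          rw [e.2]; simp
        · simp at e
          rw [e.2]; simp
      exact (h1 p hp).le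
    · simp at hy
      exact hD y (by simp [hy])
  · intro A x B p C D e hB hC hA hD
    have hp : p ∈ b.2 := by
      rcases A with _ | ⟨a0, A⟩
      · simp at e
        rw [e.2]; simp
      · simp at e
        rw [e.2]; simp
    rcases A with _ | ⟨a0, A⟩
    · simp at e
      have := h ((0, a.1) :: a.2) (K, x.2) B p C D (by rw [e.2, ← e.1]; simp) hB hC
        (fun _ => h2 p hp) hD
      exact this
    · simp at e
      refine h ((0, a.1) :: a.2 ++ (K, b.1) :: A) x B p C D (by rw [e.2]; simp) hB hC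
        (fun _ => hA (by simp)) hD
  · have := h [] (0, a.1) a.2 (K, b.1) b.2 [] (by simp) (fun x hx => (h1 x hx).le) h2
      (by simp) (by simp)
    exact this

/-! ## Sums -/

/-- clusters with classes `< K` and strength `≥ K` -/
def AL (Y : ℕ → ℕ) (K : ℕ) (x : ℕ × List (ℕ × ℕ)) : Prop :=
  IS Y ((0, x.1) :: x.2) ∧ (∀ y ∈ x.2, y.1 < K) ∧ (K : ℤ) ≤ cs Y x

/-- clusters with classes `≤ K` and strength `≥ K` -/
def AE (Y : ℕ → ℕ) (K : ℕ) (x : ℕ × List (ℕ × ℕ)) : Prop :=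
  IS Y ((0, x.1) :: x.2) ∧ (∀ y ∈ x.2, y.1 ≤ K) ∧ (K : ℤ) ≤ cs Y x

/-- clusters with classes `≤ K`, strength `≥ K` and length `< n` -/
def AN (Y : ℕ → ℕ) (K n : ℕ) (x : ℕ × List (ℕ × ℕ)) : Prop := AE Y K x ∧ x.2.length < n

/-- excess of the strength over `K` -/
def ex (Y : ℕ → ℕ) (K : ℕ) (x : ℕ × List (ℕ × ℕ)) : ℝ≥0∞ := ((cs Y x - K).toNat : ℝ≥0∞)

/-- mass of the clusters with classes `< K` and strength `≥ K` -/
def mL (Y : ℕ → ℕ) (w g : ℕ → ℝ≥0∞) (K : ℕ) : ℝ≥0∞ :=
  open Classical in ∑' x : ℕ × List (ℕ × ℕ), if AL Y K x then cw w g x else 0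

/-- the same with the excess -/
def nL (Y : ℕ → ℕ) (w g : ℕ → ℝ≥0∞) (K : ℕ) : ℝ≥0∞ :=
  open Classical in ∑' x : ℕ × List (ℕ × ℕ), if AL Y K x then cw w g x * ex Y K x else 0

/-- mass of the clusters with classes `≤ K`, strength `≥ K` and length `< n` -/
def mE (Y : ℕ → ℕ) (w g : ℕ → ℝ≥0∞) (K n : ℕ) : ℝ≥0∞ :=
  open Classical in
  ∑' x : ℕ × List (ℕ × ℕ), if AN Y K n x then cw w g x else 0

/-- the same with the excess -/
def nE (Y : ℕ → ℕ) (w g : ℕ → ℝ≥0∞) (K n : ℕ) : ℝ≥0∞ :=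
  open Classical in
  ∑' x : ℕ × List (ℕ × ℕ), if AN Y K n x then cw w g x * ex Y K x else 0

lemma tsum_split {X Z : Type*} (f f1 : X → ℝ≥0∞) (F : Z → X) (h : Z → ℝ≥0∞)
    (H : ∀ x, f x ≤ f1 x ∨ ∃ z, F z = x ∧ f x ≤ h z) :
    ∑' x, f x ≤ ∑' x, f1 x + ∑' z, h z := by
  classical
  have h1 : ∀ x, f x ≤ f1 x + ∑' z, if F z = x then h z else 0 := by
    intro x
    rcases H x with h | ⟨z, hz, h'⟩
    · exact h.trans le_self_add
    · refine le_trans ?_ le_add_self
      have h2 := ENNReal.le_tsum (f := fun z => if F z = x then h z else 0) z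
      simp only [if_pos hz] at h2
      exact h'.trans h2
  calc ∑' x, f x ≤ ∑' x, (f1 x + ∑' z, if F z = x then h z else 0) := ENNReal.tsum_le_tsum h1
    _ = ∑' x, f1 x + ∑' x, ∑' z, (if F z = x then h z else 0) := ENNReal.tsum_add
    _ = ∑' x, f1 x + ∑' z, ∑' x, (if F z = x then h z else 0) := by rw [ENNReal.tsum_comm]
    _ = ∑' x, f1 x + ∑' z, h z := by
        congr 1
        refine tsum_congr fun z => ?_
        rw [tsum_eq_single (F z)]
        · rw [if_pos rfl]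
        · intro x hx
          rw [if_neg (fun e => hx e.symm)]

lemma tsum_prod_mul {X Z : Type*} (f : X → ℝ≥0∞) (c : ℝ≥0∞) (h : Z → ℝ≥0∞) :
    ∑' z : X × Z, f z.1 * (c * h z.2) = (∑' x, f x) * (c * ∑' z, h z) := by
  rw [ENNReal.tsum_prod']
  rw [← ENNReal.tsum_mul_right]
  refine tsum_congr fun x => ?_
  rw [← ENNReal.tsum_mul_left, ← ENNReal.tsum_mul_left]

/-- the set-theoretic splitting -/
lemma AE_cases {Y : ℕ → ℕ} {K : ℕ} {x : ℕ × List (ℕ × ℕ)} (h : IS Y ((0, x.1) :: x.2))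
    (hle : ∀ y ∈ x.2, y.1 ≤ K) :
    (∀ y ∈ x.2, y.1 < K) ∨ ∃ z : (ℕ × List (ℕ × ℕ)) × (ℕ × List (ℕ × ℕ)), cj K z = x ∧
      AL Y K z.1 ∧ AE Y K z.2 ∧ z.2.2.length < x.2.length := by
  by_cases hex : ∃ y ∈ x.2, y.1 = K
  · right
    obtain ⟨l1, j, l2, e, p1, p2⟩ := exists_first hle hex
    have e' : cj K ((x.1, l1), (j, l2)) = x := by
      unfold cj
      rw [← e]
    have hI := h
    rw [← e'] at hI
    obtain ⟨i1, i2, s1, s2⟩ := IS_split (a := (x.1, l1)) (b := (j, l2)) hI p1 p2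
    refine ⟨((x.1, l1), (j, l2)), e', ⟨i1, p1, s1⟩, ⟨i2, p2, s2⟩, ?_⟩
    rw [e]; simp; omega
  · left
    intro y hy
    exact lt_of_le_of_ne (hle y hy) (fun e => hex ⟨y, hy, e⟩)

lemma ex_join {Y : ℕ → ℕ} {K : ℕ} {z : (ℕ × List (ℕ × ℕ)) × (ℕ × List (ℕ × ℕ))}
    (h1 : (K : ℤ) ≤ cs Y z.1) (h2 : (K : ℤ) ≤ cs Y z.2) :
    ex Y K (cj K z) = ex Y K z.1 + ex Y K z.2 := by
  unfold ex
  rw [cs_join, ← Nat.cast_add]
  congr 1
  omega

lemma mE_zero (Y : ℕ → ℕ) (w g : ℕ → ℝ≥0∞) (K : ℕ) : mE Y w g K 0 = 0 := by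
  unfold mE; simp [AN]

lemma nE_zero (Y : ℕ → ℕ) (w g : ℕ → ℝ≥0∞) (K : ℕ) : nE Y w g K 0 = 0 := by
  unfold nE; simp [AN]

lemma mE_succ (Y : ℕ → ℕ) (w g : ℕ → ℝ≥0∞) (K n : ℕ) :
    mE Y w g K (n + 1) ≤ mL Y w g K + mL Y w g K * (g K * mE Y w g K n) := by
  classical
  have h := tsum_split
    (f := fun x => if AN Y K (n + 1) x then cw w g x else 0)
    (f1 := fun x => if AL Y K x then cw w g x else 0) (F := cj K)
    (h := fun z => (if AL Y K z.1 then cw w g z.1 else 0) *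
      (g K * (if AN Y K n z.2 then cw w g z.2 else 0))) ?_
  · rw [tsum_prod_mul (fun x => if AL Y K x then cw w g x else 0) (g K)
      (fun x => if AN Y K n x then cw w g x else 0)] at h
    exact h
  · intro x
    by_cases hx : AN Y K (n + 1) x
    · rcases AE_cases hx.1.1 hx.1.2.1 with h | ⟨z, e, z1, z2, hl⟩
      · left
        rw [if_pos hx, if_pos ⟨hx.1.1, h, hx.1.2.2⟩]
      · right
        refine ⟨z, e, ?_⟩
        have hz : AN Y K n z.2 := ⟨z2, by have := hx.2; omega⟩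
        rw [if_pos hx, if_pos z1, if_pos hz, ← e, cw_join]
    · left
      rw [if_neg hx]
      exact zero_le

lemma nE_succ (Y : ℕ → ℕ) (w g : ℕ → ℝ≥0∞) (K n : ℕ) :
    nE Y w g K (n + 1) ≤ nL Y w g K +
      (nL Y w g K * (g K * mE Y w g K n) + mL Y w g K * (g K * nE Y w g K n)) := by
  classical
  have h := tsum_split
    (f := fun x => if AN Y K (n + 1) x then cw w g x * ex Y K x else 0)
    (f1 := fun x => if AL Y K x then cw w g x * ex Y K x else 0) (F := cj K)
    (h := fun z => (if AL Y K z.1 then cw w g z.1 * ex Y K z.1 else 0) *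
      (g K * (if AN Y K n z.2 then cw w g z.2 else 0)) +
      (if AL Y K z.1 then cw w g z.1 else 0) *
      (g K * (if AN Y K n z.2 then cw w g z.2 * ex Y K z.2 else 0))) ?_
  · rw [ENNReal.tsum_add, tsum_prod_mul (fun x => if AL Y K x then cw w g x * ex Y K x else 0) (g K)
      (fun x => if AN Y K n x then cw w g x else 0),
      tsum_prod_mul (fun x => if AL Y K x then cw w g x else 0) (g K)
      (fun x => if AN Y K n x then cw w g x * ex Y K x else 0)] at h
    exact h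
  · intro x
    by_cases hx : AN Y K (n + 1) x
    · rcases AE_cases hx.1.1 hx.1.2.1 with h | ⟨z, e, z1, z2, hl⟩
      · left
        rw [if_pos hx, if_pos ⟨hx.1.1, h, hx.1.2.2⟩]
      · right
        refine ⟨z, e, ?_⟩
        have hz : AN Y K n z.2 := ⟨z2, by have := hx.2; omega⟩
        simp only [if_pos hx, if_pos z1, if_pos hz]
        rw [← e, cw_join, ex_join z1.2.2 z2.2.2]
        apply le_of_eq
        ring
    · left
      rw [if_neg hx]
      exact zero_le

/-- a sum is bounded as soon as the sums over the elements of bounded length are. -/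
lemma tsum_le_of_len {X : Type*} (f : X → ℝ≥0∞) (len : X → ℕ) (C : ℝ≥0∞)
    (h : ∀ n, (∑' x, open Classical in if len x < n then f x else 0) ≤ C) : ∑' x, f x ≤ C := by
  classical
  rw [ENNReal.tsum_eq_iSup_sum]
  refine iSup_le fun s => ?_
  have hn : ∃ n, ∀ x ∈ s, len x < n := by
    refine ⟨s.sup len + 1, fun x hx => ?_⟩
    exact Nat.lt_succ_of_le (Finset.le_sup hx)
  obtain ⟨n, hn⟩ := hn
  calc ∑ x ∈ s, f x = ∑ x ∈ s, if len x < n then f x else 0 :=
        Finset.sum_congr rfl fun x hx => by rw [if_pos (hn x hx)]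
    _ ≤ ∑' x, if len x < n then f x else 0 := ENNReal.sum_le_tsum s
    _ ≤ C := h n

lemma le_of_AN {Y : ℕ → ℕ} {K : ℕ} (f : ℕ × List (ℕ × ℕ) → ℝ≥0∞) (C : ℝ≥0∞)
    (h : ∀ n, (∑' x, open Classical in if AN Y K n x then f x else 0) ≤ C) :
    (∑' x, open Classical in if AE Y K x then f x else 0) ≤ C := by
  classical
  refine tsum_le_of_len _ (fun x => x.2.length) C fun n => ?_
  refine le_trans (le_of_eq (tsum_congr fun x => ?_)) (h n)
  by_cases h1 : x.2.length < n
  · by_cases h2 : AE Y K x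
    · have h3 : AN Y K n x := ⟨h2, h1⟩
      rw [if_pos h1, if_pos h2, if_pos h3]
    · have h3 : ¬ AN Y K n x := fun h3 => h2 h3.1
      rw [if_pos h1, if_neg h2, if_neg h3]
  · have h3 : ¬ AN Y K n x := fun h3 => h1 h3.2
    rw [if_neg h1, if_neg h3]

lemma level {Y : ℕ → ℕ} {w g : ℕ → ℝ≥0∞} {K : ℕ} {m n G : ℝ} (hm : 0 ≤ m) (hn : 0 ≤ n)
    (hG : 0 ≤ G) (hM : mL Y w g K ≤ ENNReal.ofReal m) (hN : nL Y w g K ≤ ENNReal.ofReal n)
    (hg : g K ≤ ENNReal.ofReal G) (h : G * m < 1) (k : ℕ) :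
    mE Y w g K k ≤ ENNReal.ofReal (m / (1 - G * m)) ∧
      nE Y w g K k ≤ ENNReal.ofReal (n / (1 - G * m) ^ 2) := by
  have hp : 0 < 1 - G * m := by linarith
  have hne : 1 - G * m ≠ 0 := hp.ne'
  have ha : 0 ≤ m / (1 - G * m) := by positivity
  have hb : 0 ≤ n / (1 - G * m) ^ 2 := by positivity
  induction k with
  | zero => rw [mE_zero, nE_zero]; exact ⟨zero_le, zero_le⟩
  | succ k ih =>
    constructor
    · refine (mE_succ Y w g K k).trans ?_
      have e : m / (1 - G * m) = m + m * (G * (m / (1 - G * m))) := by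
        rw [div_eq_iff hne]
        have : m / (1 - G * m) * (1 - G * m) = m := div_mul_cancel₀ m hne
        linear_combination (-m * G) * this
      rw [e, ENNReal.ofReal_add hm (by positivity), ENNReal.ofReal_mul hm, ENNReal.ofReal_mul hG]
      gcongr
      exact ih.1
    · refine (nE_succ Y w g K k).trans ?_
      have e : n / (1 - G * m) ^ 2 = n + (n * (G * (m / (1 - G * m))) +
          m * (G * (n / (1 - G * m) ^ 2))) := by
        field_simp; ring
      rw [e, ENNReal.ofReal_add hn (by positivity), ENNReal.ofReal_add (by positivity)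
        (by positivity), ENNReal.ofReal_mul hn, ENNReal.ofReal_mul hG, ENNReal.ofReal_mul hm,
        ENNReal.ofReal_mul hG]
      gcongr
      · exact ih.1
      · exact ih.2

lemma mL_add_nL (Y : ℕ → ℕ) (w g : ℕ → ℝ≥0∞) (K : ℕ) :
    mL Y w g (K + 1) + nL Y w g (K + 1) ≤
      ∑' x, open Classical in if AE Y K x then cw w g x * ex Y K x else 0 := by
  classical
  unfold mL nL
  rw [← ENNReal.tsum_add]
  refine ENNReal.tsum_le_tsum fun x => ?_
  by_cases h : AL Y (K + 1) x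
  · have h1 : AE Y K x := by
      refine ⟨h.1, fun y hy => Nat.lt_succ_iff.1 (h.2.1 y hy), ?_⟩
      have := h.2.2
      push_cast at this
      omega
    rw [if_pos h, if_pos h, if_pos h1]
    have h2 : ex Y K x = 1 + ex Y (K + 1) x := by
      unfold ex
      have := h.2.2
      push_cast at this
      rw [← Nat.cast_one, ← Nat.cast_add]
      congr 1
      push_cast
      omega
    rw [h2]
    apply le_of_eq
    ring
  · rw [if_neg h, if_neg h, zero_add]
    exact zero_le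

lemma AL_zero {Y : ℕ → ℕ} {x : ℕ × List (ℕ × ℕ)} (h : AL Y 0 x) : x.2 = [] := by
  obtain ⟨j, l⟩ := x
  rcases l with _ | ⟨a, t⟩
  · rfl
  · exact absurd (h.2.1 a (by simp)) (by omega)

lemma mL_zero (Y : ℕ → ℕ) (w g : ℕ → ℝ≥0∞) : mL Y w g 0 ≤ ∑' j, w j := by
  classical
  unfold mL
  rw [ENNReal.tsum_prod']
  refine ENNReal.tsum_le_tsum fun j => ?_
  rw [tsum_eq_single []]
  · split_ifs
    · unfold cw wtl; simp
    · exact zero_le
  · intro l hl
    rw [if_neg]
    intro h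
    exact hl (AL_zero h)

lemma nL_zero (Y : ℕ → ℕ) (w g : ℕ → ℝ≥0∞) :
    nL Y w g 0 ≤ ∑' j, w j * ((Y j + 1 : ℕ) : ℝ≥0∞) := by
  classical
  unfold nL
  rw [ENNReal.tsum_prod']
  refine ENNReal.tsum_le_tsum fun j => ?_
  rw [tsum_eq_single []]
  · split_ifs
    · unfold cw wtl ex cs str sl
      simp only [List.map_nil, List.prod_nil, mul_one, List.sum_nil, add_zero]
      gcongr
      omega
    · exact zero_le
  · intro l hl
    rw [if_neg]
    intro h
    exact hl (AL_zero h)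

/-- the elementary inequality behind the recursion -/
lemma rec_ineq {P m G : ℝ} (hm : 0 ≤ m) (hmP : m ≤ P) (hG : 0 ≤ G) (h : 2 * G * P < 1) :
    (P - m) / (1 - G * m) ^ 2 ≤ P - (1 - 2 * G * P) * m := by
  have h1 : G * m ≤ G * P := by gcongr
  have h2 : 0 < 1 - G * m := by nlinarith
  rw [div_le_iff₀ (by positivity)]
  have h3 : 0 ≤ 2 * G * m ^ 2 * (1 - 2 * G * P) := by
    have : 0 ≤ 1 - 2 * G * P := by linarith
    positivity
  have hP : 0 ≤ P := hm.trans hmP
  have h4 : 0 ≤ G ^ 2 * m ^ 2 * (P - m + 2 * G * P * m) := by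
    have : 0 ≤ P - m := by linarith
    positivity
  nlinarith

lemma clT_le (Y : ℕ → ℕ) (w g : ℕ → ℝ≥0∞) :
    clT Y w g ≤ mL Y w g 0 + ∑' K, mL Y w g K * (g K *
      ∑' x, open Classical in if AE Y K x then cw w g x else 0) := by
  classical
  have h := tsum_split
    (f := fun x : ℕ × List (ℕ × ℕ) => if IS Y ((0, x.1) :: x.2) then w x.1 * wtl w g x.2 else 0)
    (f1 := fun x => if AL Y 0 x then cw w g x else 0)
    (F := fun z : ℕ × ((ℕ × List (ℕ × ℕ)) × (ℕ × List (ℕ × ℕ))) => cj z.1 z.2)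
    (h := fun z => (if AL Y z.1 z.2.1 then cw w g z.2.1 else 0) *
      (g z.1 * (if AE Y z.1 z.2.2 then cw w g z.2.2 else 0))) ?_
  · rw [ENNReal.tsum_prod' (f := fun z : ℕ × ((ℕ × List (ℕ × ℕ)) × (ℕ × List (ℕ × ℕ))) =>
      (if AL Y z.1 z.2.1 then cw w g z.2.1 else 0) *
      (g z.1 * (if AE Y z.1 z.2.2 then cw w g z.2.2 else 0)))] at h
    refine le_trans h ?_
    refine add_le_add le_rfl (ENNReal.tsum_le_tsum fun K => ?_)
    exact le_of_eq (tsum_prod_mul (fun x => if AL Y K x then cw w g x else 0) (g K)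
      (fun x => if AE Y K x then cw w g x else 0))
  · intro x
    by_cases hx : IS Y ((0, x.1) :: x.2)
    · by_cases he : x.2 = []
      · left
        have h1 : AL Y 0 x := by
          refine ⟨hx, by rw [he]; simp, ?_⟩
          unfold cs
          rw [he]
          simp [str, sl]
        rw [if_pos hx, if_pos h1]
        rfl
      · right
        obtain ⟨K, h1, y, hy, hyK⟩ := exists_max he
        rcases AE_cases hx h1 with h | ⟨z, e, z1, z2, hl⟩
        · exact absurd (h y hy) (by omega)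
        · refine ⟨(K, z), e, ?_⟩
          rw [if_pos hx]
          simp only [if_pos z1, if_pos z2]
          rw [← cw_join, e]
          rfl
    · left
      rw [if_neg hx]
      exact zero_le

end Cl51

open Cl51 in
theorem clT_ne_top (Y : ℕ → ℕ) (w g : ℕ → ℝ≥0∞) {P0 M0 G0 G : ℝ} (hP0 : 0 ≤ P0) (hM0 : 0 ≤ M0)
    (hG0 : 0 ≤ G0) (hG : 0 ≤ G)
    (hP : ∑' j, w j * ((Y j + 1 : ℕ) : ℝ≥0∞) ≤ ENNReal.ofReal P0)
    (hM : ∑' j, w j ≤ ENNReal.ofReal M0) (hg0 : g 0 ≤ ENNReal.ofReal G0)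
    (hg : ∀ z, 1 ≤ z → g z ≤ ENNReal.ofReal G) (h0 : G0 * M0 < 1)
    (h1 : 2 * G * (P0 / (1 - G0 * M0) ^ 2) < 1) : clT Y w g ≠ ⊤ := by
  classical
  set P1 : ℝ := P0 / (1 - G0 * M0) ^ 2 with hP1
  have hP1n : 0 ≤ P1 := by positivity
  set d : ℝ := 1 - 2 * G * P1 with hd
  have hdp : 0 < d := by linarith
  have l0 := level (Y := Y) (w := w) (g := g) (K := 0) hM0 hP0 hG0 ((mL_zero Y w g).trans hM)
    ((nL_zero Y w g).trans hP) hg0 h0
  have b1 : mL Y w g 1 + nL Y w g 1 ≤ ENNReal.ofReal P1 :=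
    (mL_add_nL Y w g 0).trans (le_of_AN _ _ fun n => (l0 n).2)
  have main : ∀ n : ℕ, mL Y w g (n + 1) ≠ ⊤ ∧ nL Y w g (n + 1) ≠ ⊤ ∧
      d * ∑ k ∈ range n, (mL Y w g (k + 1)).toReal +
        ((mL Y w g (n + 1)).toReal + (nL Y w g (n + 1)).toReal) ≤ P1 := by
    intro n
    induction n with
    | zero =>
      have hf : mL Y w g 1 + nL Y w g 1 ≠ ⊤ := ne_top_of_le_ne_top ENNReal.ofReal_ne_top b1
      rw [ENNReal.add_ne_top] at hf
      refine ⟨hf.1, hf.2, ?_⟩
      rw [Finset.range_zero, Finset.sum_empty, mul_zero, zero_add, ← ENNReal.toReal_add hf.1 hf.2]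
      exact ENNReal.toReal_le_of_le_ofReal hP1n b1
    | succ n ih =>
      obtain ⟨f1, f2, f3⟩ := ih
      set m := (mL Y w g (n + 1)).toReal with hm
      set v := (nL Y w g (n + 1)).toReal with hv
      have hmn : 0 ≤ m := ENNReal.toReal_nonneg
      have hvn : 0 ≤ v := ENNReal.toReal_nonneg
      have hs : 0 ≤ ∑ k ∈ range n, (mL Y w g (k + 1)).toReal :=
        Finset.sum_nonneg fun _ _ => ENNReal.toReal_nonneg
      have hPle : m + v ≤ P1 := by nlinarith
      have hGm : G * m ≤ G * P1 := by gcongr; linarith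
      have hlt : G * m < 1 := by nlinarith
      have lv := level (Y := Y) (w := w) (g := g) (K := n + 1) hmn hvn hG
        (by rw [hm, ENNReal.ofReal_toReal f1]) (by rw [hv, ENNReal.ofReal_toReal f2])
        (hg (n + 1) (by omega)) hlt
      have b2 : mL Y w g (n + 1 + 1) + nL Y w g (n + 1 + 1) ≤
          ENNReal.ofReal (v / (1 - G * m) ^ 2) :=
        (mL_add_nL Y w g (n + 1)).trans (le_of_AN _ _ fun k => (lv k).2)
      have hf : mL Y w g (n + 1 + 1) + nL Y w g (n + 1 + 1) ≠ ⊤ :=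
        ne_top_of_le_ne_top ENNReal.ofReal_ne_top b2
      rw [ENNReal.add_ne_top] at hf
      refine ⟨hf.1, hf.2, ?_⟩
      rw [← ENNReal.toReal_add hf.1 hf.2, Finset.sum_range_succ, ← hm]
      have b3 := ENNReal.toReal_le_of_le_ofReal (by positivity) b2
      have hGP : G * (m + v) ≤ G * P1 := by gcongr
      have b4 := rec_ineq (P := m + v) hmn (by linarith) hG (by nlinarith)
      have e : m + v - m = v := by ring
      rw [e] at b4
      have b5 : d * m ≤ (1 - 2 * G * (m + v)) * m := by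
        gcongr
        rw [hd]; nlinarith
      nlinarith
  -- the sum of the masses
  have hS : ∑' k, mL Y w g (k + 1) ≤ ENNReal.ofReal (P1 / d) := by
    refine ENNReal.tsum_le_of_sum_range_le fun n => ?_
    have e : ∑ k ∈ range n, mL Y w g (k + 1) =
        ENNReal.ofReal (∑ k ∈ range n, (mL Y w g (k + 1)).toReal) := by
      rw [ENNReal.ofReal_sum_of_nonneg (fun _ _ => ENNReal.toReal_nonneg)]
      refine Finset.sum_congr rfl fun k _ => ?_
      rw [ENNReal.ofReal_toReal (main k).1]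
    rw [e]
    apply ENNReal.ofReal_le_ofReal
    rw [le_div_iff₀ hdp]
    have := (main n).2.2
    have h2 : 0 ≤ (mL Y w g (n + 1)).toReal := ENNReal.toReal_nonneg
    have h3 : 0 ≤ (nL Y w g (n + 1)).toReal := ENNReal.toReal_nonneg
    nlinarith
  have hm0 : mL Y w g 0 ≤ ENNReal.ofReal M0 := (mL_zero Y w g).trans hM
  refine ne_top_of_le_ne_top ?_ (clT_le Y w g)
  rw [ENNReal.add_ne_top]
  refine ⟨ne_top_of_le_ne_top ENNReal.ofReal_ne_top hm0, ?_⟩
  rw [tsum_eq_zero_add' ENNReal.summable, ENNReal.add_ne_top]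
  constructor
  · refine ENNReal.mul_ne_top (ne_top_of_le_ne_top ENNReal.ofReal_ne_top hm0)
      (ENNReal.mul_ne_top (ne_top_of_le_ne_top ENNReal.ofReal_ne_top hg0) ?_)
    exact ne_top_of_le_ne_top ENNReal.ofReal_ne_top (le_of_AN _ _ fun n => (l0 n).1)
  · have h2 : ∑' n, mL Y w g (n + 1) * (g (n + 1) *
        ∑' x, (if AE Y (n + 1) x then cw w g x else 0)) ≤
        ∑' n, mL Y w g (n + 1) * (ENNReal.ofReal G * ENNReal.ofReal (2 * P1)) := by
      refine ENNReal.tsum_le_tsum fun n => ?_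
      gcongr
      · exact hg (n + 1) (by omega)
      · obtain ⟨f1, f2, f3⟩ := main n
        set m := (mL Y w g (n + 1)).toReal with hm
        set v := (nL Y w g (n + 1)).toReal with hv
        have hmn : 0 ≤ m := ENNReal.toReal_nonneg
        have hvn : 0 ≤ v := ENNReal.toReal_nonneg
        have hs : 0 ≤ ∑ k ∈ range n, (mL Y w g (k + 1)).toReal :=
          Finset.sum_nonneg fun _ _ => ENNReal.toReal_nonneg
        have hPle : m + v ≤ P1 := by nlinarith
        have hGm : G * m ≤ G * P1 := by gcongr; linarith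
        have hlt : G * m < 1 := by nlinarith
        have lv := level (Y := Y) (w := w) (g := g) (K := n + 1) hmn hvn hG
          (by rw [hm, ENNReal.ofReal_toReal f1]) (by rw [hv, ENNReal.ofReal_toReal f2])
          (hg (n + 1) (by omega)) hlt
        refine (le_of_AN _ _ fun k => (lv k).1).trans (ENNReal.ofReal_le_ofReal ?_)
        rw [div_le_iff₀ (by linarith)]
        nlinarith
    refine ne_top_of_le_ne_top ?_ h2
    rw [ENNReal.tsum_mul_right]
    refine ENNReal.mul_ne_top (ne_top_of_le_ne_top ENNReal.ofReal_ne_top hS)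
      (ENNReal.mul_ne_top ENNReal.ofReal_ne_top ENNReal.ofReal_ne_top)

end Pool.Agent.Cop

end
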