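import Mathlib

/-!
Combinatorial definitions for the sharp upper bound on the slope of the copolymer.

A coarse configuration is a list of pairs `(i,j)`: `i` is the coarse length of the gap before a
long down excursion and `j` the coarse length of the down excursion.
A skeleton (cluster) is a list of pairs `(z,j)`: `z` is the class of the (merged) gap before the
down excursion (meaningless for the head of the list), and `j` its coarse length.
`Y j` is the strength of a down excursion of coarse length `j`, `cls i` the class of a gap.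
-/

open Finset
open scoped ENNReal NNReal

noncomputable section

namespace Pool.Agent.Cop

/-- sum of `Y - z` over a list. -/
def sl (Y : ℕ → ℕ) (l : List (ℕ × ℕ)) : ℤ := (l.map (fun p => (Y p.2 : ℤ) - p.1)).sum

/-- strength of a cluster: the class of the head is not counted. -/
def str (Y : ℕ → ℕ) : List (ℕ × ℕ) → ℤ
  | [] => 0
  | p :: t => Y p.2 + sl Y t

/-- internal stability: whenever a sublist of consecutive elements is split at a gap which is
maximal among its inner gaps, and its two outer gaps are at least as large, both parts have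
strength at least the class of this gap. -/
def IS (Y : ℕ → ℕ) (M : List (ℕ × ℕ)) : Prop :=
  ∀ (A : List (ℕ × ℕ)) (b : ℕ × ℕ) (B : List (ℕ × ℕ)) (p : ℕ × ℕ) (C D : List (ℕ × ℕ)),
    M = A ++ (b :: B) ++ (p :: C) ++ D →
    (∀ x ∈ B, x.1 ≤ p.1) → (∀ x ∈ C, x.1 ≤ p.1) → (A ≠ [] → p.1 ≤ b.1) →
    (∀ x ∈ D.head?, p.1 ≤ x.1) →
    (p.1 : ℤ) ≤ str Y (b :: B) ∧ (p.1 : ℤ) ≤ str Y (p :: C)

/-- class of a merged gap: the fills `f` are dropped, the last gap is `i`. -/
def zb (cls : ℕ → ℕ) (f : List (ℕ × ℕ)) (i : ℕ) : ℕ :=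
  (f.map (fun p => cls p.1)).foldr max (cls i)

/-- total strength of a list of downs -/
def sY (Y : ℕ → ℕ) (f : List (ℕ × ℕ)) : ℕ := (f.map (fun p => Y p.2)).sum

/-- total class of a list of gaps -/
def sC (cls : ℕ → ℕ) (f : List (ℕ × ℕ)) : ℕ := (f.map (fun p => cls p.1)).sum

/-- constraint on the fills of an inner merged gap -/
def FOK (cls Y : ℕ → ℕ) (f : List (ℕ × ℕ)) (i : ℕ) : Prop :=
  sY Y f + zb cls f i ≤ sC cls f + cls i

/-- constraint on the fills of the first gap -/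
def FOK0 (cls Y : ℕ → ℕ) : List (ℕ × ℕ) → ℕ → Prop
  | [], _ => True
  | (p :: f), i => Y p.2 + sY Y f ≤ sC cls f + cls i

/-- constraint on the fills of the last gap -/
def LOK (cls Y : ℕ → ℕ) (f : List (ℕ × ℕ)) : Prop := sY Y f ≤ sC cls f

/-- flattening of a marked list -/
def flat (μ : List (List (ℕ × ℕ) × (ℕ × ℕ))) : List (ℕ × ℕ) := μ.flatMap (fun p => p.1 ++ [p.2])

/-- skeleton of a marked list -/
def skel (cls : ℕ → ℕ) (μ : List (List (ℕ × ℕ) × (ℕ × ℕ))) : List (ℕ × ℕ) :=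
  μ.map (fun p => (zb cls p.1 p.2.1, p.2.2))

/-- total coarse length of a merged gap with fills `f` and last gap `i` -/
def tot (f : List (ℕ × ℕ)) (i : ℕ) : ℕ := (f.map (fun p => p.1 + 1 + p.2)).sum + i

/-- weight of a list of fills -/
def wf (u κ : ℕ → ℝ≥0∞) (f : List (ℕ × ℕ)) : ℝ≥0∞ := (f.map (fun p => u p.1 * κ p.2)).prod

/-- weight of the tail of a cluster -/
def wtl (w g : ℕ → ℝ≥0∞) (l : List (ℕ × ℕ)) : ℝ≥0∞ := (l.map (fun p => g p.1 * w p.2)).prod

/-- annealed mass of a merged gap of coarse length `I` and class `z`. -/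
def bb (cls Y : ℕ → ℕ) (u κ : ℕ → ℝ≥0∞) (I z : ℕ) : ℝ≥0∞ :=
  open Classical in
  ∑' p : List (ℕ × ℕ) × ℕ,
    if tot p.1 p.2 = I ∧ zb cls p.1 p.2 = z ∧ FOK cls Y p.1 p.2 then wf u κ p.1 * u p.2 else 0

/-- annealed mass of the first gap (with fills), of coarse length `I`. -/
def bb0 (cls Y : ℕ → ℕ) (u κ : ℕ → ℝ≥0∞) (I : ℕ) : ℝ≥0∞ :=
  open Classical in
  ∑' p : List (ℕ × ℕ) × ℕ,
    if tot p.1 p.2 = I ∧ FOK0 cls Y p.1 p.2 then wf u κ p.1 * u p.2 else 0

/-- annealed mass of the last fills. -/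
def bbl (cls Y : ℕ → ℕ) (u κ : ℕ → ℝ≥0∞) : ℝ≥0∞ :=
  open Classical in
  ∑' f : List (ℕ × ℕ), if LOK cls Y f then wf u κ f else 0

/-- total mass of the internally stable clusters. -/
def clT (Y : ℕ → ℕ) (w g : ℕ → ℝ≥0∞) : ℝ≥0∞ :=
  open Classical in
  ∑' l : ℕ × List (ℕ × ℕ), if IS Y ((0, l.1) :: l.2) then w l.1 * wtl w g l.2 else 0

end Pool.Agent.Cop

end
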