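import Mathlib
import Pool.Agent.Work.MP_cceb86_pr.Total
import Pool.Agent.Work.MP_cceb86_pr.Lst
import Pool.Agent.Work.MP_cceb86_pr.UDefs

/-!
Expansion of the partition function over coarse configurations, and factorization of the
environment in the interior of the marked long down excursions.
-/

open Finset MeasureTheory ProbabilityTheory
open scoped ENNReal NNReal

noncomputable section

namespace Pool.Agent.Cop

/-- starting points of a long down excursion, `i` blocks further. -/
def sS (L N x i : ℕ) : Finset ℕ := (Icc x N).filter (fun s => s / L = x / L + i)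

/-- end points of a long down excursion with coarse length `j`. -/
def tS (L N s j : ℕ) : Finset ℕ :=
  (Ioc s N).filter (fun t => t / L = s / L + 1 + j ∧ L < t - s)

/-- contribution of a coarse configuration, from `x` to `N`. -/
def Zc (K : ℕ → ℝ≥0∞) (L N : ℕ) (e : Env) : List (ℕ × ℕ) → ℕ → ℝ≥0∞
  | [], x => ren (kA K L e) x N
  | p :: c, x => ∑ s ∈ sS L N x p.1, ∑ t ∈ tS L N s p.2,
      ren (kA K L e) x s * kD K L e s t * Zc K L N e c t

variable {K : ℕ → ℝ≥0∞} {L N : ℕ}

lemma sum_sS (x : ℕ) (F : ℕ → ℝ≥0∞) :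
    ∑ s ∈ Icc x N, F s = ∑' i, ∑ s ∈ sS L N x i, F s := by
  unfold sS
  simp only [sum_filter]
  rw [Summable.tsum_finsetSum (fun _ _ => ENNReal.summable)]
  refine sum_congr rfl fun s hs => ?_
  rw [mem_Icc] at hs
  have h1 : x / L ≤ s / L := Nat.div_le_div_right hs.1
  rw [tsum_eq_single (s / L - x / L)]
  · rw [if_pos (by omega)]
  · intro i hi
    rw [if_neg (by omega)]

lemma sum_tS (hL : 0 < L) (e : Env) (s : ℕ) (F : ℕ → ℝ≥0∞) :
    ∑ t ∈ Ioc s N, kD K L e s t * F t = ∑' j, ∑ t ∈ tS L N s j, kD K L e s t * F t := by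
  unfold tS
  simp only [sum_filter]
  rw [Summable.tsum_finsetSum (fun _ _ => ENNReal.summable)]
  refine sum_congr rfl fun t ht => ?_
  rw [mem_Ioc] at ht
  by_cases h : L < t - s
  · have h1 : s / L + 1 ≤ t / L := by
      calc s / L + 1 = (s + L) / L := by rw [Nat.add_div_right _ hL]
        _ ≤ t / L := Nat.div_le_div_right (by omega)
    rw [tsum_eq_single (t / L - (s / L + 1))]
    · rw [if_pos ⟨by omega, h⟩]
    · intro j hj
      rw [if_neg (fun h' => hj (by omega))]
  · have h0 : kD K L e s t = 0 := by unfold kD; rw [if_neg h]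
    rw [h0, zero_mul]
    simp

open Classical in
lemma zk_le (hL : 0 < L) (e : Env) (k : ℕ) : ∀ x, zk (ren (kA K L e)) (kD K L e) N k x
    ≤ ∑' c : List (ℕ × ℕ), if c.length = k then Zc K L N e c x else 0 := by
  induction k with
  | zero =>
    intro x
    refine le_trans (le_of_eq ?_) (ENNReal.le_tsum ([] : List (ℕ × ℕ)))
    simp [zk, Zc]
  | succ k ih =>
    intro x
    have h1 : zk (ren (kA K L e)) (kD K L e) N (k + 1) x
        = ∑' i, ∑' j, ∑ s ∈ sS L N x i, ∑ t ∈ tS L N s j,
            ren (kA K L e) x s * kD K L e s t * zk (ren (kA K L e)) (kD K L e) N k t := by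
      simp only [zk, gd]
      rw [sum_sS (L := L)]
      refine tsum_congr fun i => ?_
      rw [Summable.tsum_finsetSum (fun _ _ => ENNReal.summable)]
      refine sum_congr rfl fun s _ => ?_
      have h2 := sum_tS (N := N) (K := K) hL e s
        (fun t => ren (kA K L e) x s * zk (ren (kA K L e)) (kD K L e) N k t)
      calc ∑ t ∈ Ioc s N, ren (kA K L e) x s * kD K L e s t
            * zk (ren (kA K L e)) (kD K L e) N k t
          = ∑ t ∈ Ioc s N, kD K L e s t *
              (ren (kA K L e) x s * zk (ren (kA K L e)) (kD K L e) N k t) :=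
            sum_congr rfl fun t _ => by ring
        _ = _ := h2
        _ = _ := tsum_congr fun j => sum_congr rfl fun t _ => by ring
    rw [h1, tsum_list]
    simp only [List.length_nil, List.length_cons, Nat.add_right_cancel_iff]
    rw [if_neg (by omega), zero_add, ENNReal.tsum_prod', ENNReal.tsum_prod']
    refine ENNReal.tsum_le_tsum fun i => ENNReal.tsum_le_tsum fun j => ?_
    simp only
    calc ∑ s ∈ sS L N x i, ∑ t ∈ tS L N s j,
            ren (kA K L e) x s * kD K L e s t * zk (ren (kA K L e)) (kD K L e) N k t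
        ≤ ∑ s ∈ sS L N x i, ∑ t ∈ tS L N s j, ren (kA K L e) x s * kD K L e s t *
            ∑' c : List (ℕ × ℕ), (if c.length = k then Zc K L N e c t else 0) := by
          gcongr with s _ t _
          exact ih t
      _ = ∑ s ∈ sS L N x i, ∑ t ∈ tS L N s j, ∑' c : List (ℕ × ℕ),
            (if c.length = k then ren (kA K L e) x s * kD K L e s t * Zc K L N e c t else 0) := by
          refine sum_congr rfl fun s _ => sum_congr rfl fun t _ => ?_
          rw [← ENNReal.tsum_mul_left]
          exact tsum_congr fun c => by split_ifs <;> simp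
      _ = ∑' c : List (ℕ × ℕ), ∑ s ∈ sS L N x i, ∑ t ∈ tS L N s j,
            (if c.length = k then ren (kA K L e) x s * kD K L e s t * Zc K L N e c t else 0) := by
          rw [Summable.tsum_finsetSum (fun _ _ => ENNReal.summable)]
          refine sum_congr rfl fun s _ => ?_
          rw [Summable.tsum_finsetSum (fun _ _ => ENNReal.summable)]
      _ = _ := by
          refine tsum_congr fun c => ?_
          by_cases hc : c.length = k
          · simp only [if_pos hc, Zc]
          · simp only [if_neg hc, sum_const_zero]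

/-- the partition function is bounded by the sum over the coarse configurations. -/
lemma ren_le_tsum (hL : 0 < L) (e : Env) {x : ℕ} (hx : x ≤ N) :
    ren (kT K e) x N ≤ ∑' c : List (ℕ × ℕ), Zc K L N e c x := by
  classical
  rw [kT_eq (L := L), ren_add_eq_sum_zk _ _ hx]
  calc ∑ k ∈ range (N + 2), zk (ren (kA K L e)) (kD K L e) N k x
      ≤ ∑ k ∈ range (N + 2), ∑' c : List (ℕ × ℕ), (if c.length = k then Zc K L N e c x else 0) :=
        sum_le_sum fun k _ => by
          refine (zk_le hL e k x).trans (le_of_eq ?_)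
          exact tsum_congr fun c => by by_cases h : c.length = k <;> simp [h]
    _ = ∑' c : List (ℕ × ℕ), ∑ k ∈ range (N + 2), (if c.length = k then Zc K L N e c x else 0) := by
        rw [Summable.tsum_finsetSum (fun _ _ => ENNReal.summable)]
    _ ≤ _ := by
        refine ENNReal.tsum_le_tsum fun c => ?_
        rw [sum_ite_eq]
        split_ifs <;> simp

/-- edges of a long down excursion. -/
def De (K : ℕ → ℝ≥0∞) (L : ℕ) (e : Env) (s t : ℕ) : ℝ≥0∞ :=
  K (t - s) / 2 * (pI e s ((s / L + 1) * L) * pI e ((t / L) * L) t)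

/-- as `Zc`, with the environment in the interior of the marked excursions removed. -/
def Rc (K : ℕ → ℝ≥0∞) (L N : ℕ) (e : Env) : List (ℕ × ℕ × Bool) → ℕ → ℝ≥0∞
  | [], x => ren (kA K L e) x N
  | p :: c, x => ∑ s ∈ sS L N x p.1, ∑ t ∈ tS L N s p.2.1,
      ren (kA K L e) x s * (if p.2.2 = true then De K L e s t else kD K L e s t)
        * Rc K L N e c t

/-- interior of the marked excursions. -/
def Ig (L : ℕ) : List (ℕ × ℕ × Bool) → ℕ → Finset ℕ
  | [], _ => ∅
  | p :: c, b => (if p.2.2 = true then Ioc ((b + p.1 + 1) * L) ((b + p.1 + 1 + p.2.1) * L) else ∅)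
      ∪ Ig L c (b + p.1 + 1 + p.2.1)

/-- forget the marks -/
def fg (c : List (ℕ × ℕ × Bool)) : List (ℕ × ℕ) := c.map (fun p => (p.1, p.2.1))

/-- total coarse length -/
def tl (c : List (ℕ × ℕ × Bool)) : ℕ := (c.map (fun p => p.1 + 1 + p.2.1)).sum

/-- total coarse length of the marked downs -/
def mk (c : List (ℕ × ℕ × Bool)) : ℕ := (c.map (fun p => if p.2.2 = true then p.2.1 else 0)).sum

lemma Ig_gt (c : List (ℕ × ℕ × Bool)) : ∀ b w, w ∈ Ig L c b → (b + 1) * L < w := by
  induction c with
  | nil => intro b w hw; simp [Ig] at hw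
  | cons p c ih =>
    intro b w hw
    simp only [Ig, mem_union] at hw
    rcases hw with hw | hw
    · split_ifs at hw with h
      · rw [mem_Ioc] at hw
        refine lt_of_le_of_lt ?_ hw.1
        exact Nat.mul_le_mul_right _ (by omega)
      · simp at hw
    · have := ih _ _ hw
      refine lt_of_le_of_lt ?_ this
      exact Nat.mul_le_mul_right _ (by omega)

lemma Ig_le (c : List (ℕ × ℕ × Bool)) : ∀ b w, w ∈ Ig L c b → w ≤ (b + tl c) * L := by
  induction c with
  | nil => intro b w hw; simp [Ig] at hw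
  | cons p c ih =>
    intro b w hw
    simp only [Ig, mem_union] at hw
    have e1 : tl (p :: c) = p.1 + 1 + p.2.1 + tl c := by simp [tl]
    rcases hw with hw | hw
    · split_ifs at hw with h
      · rw [mem_Ioc] at hw
        refine hw.2.trans ?_
        exact Nat.mul_le_mul_right _ (by omega)
      · simp at hw
    · have := ih _ _ hw
      refine this.trans ?_
      exact Nat.mul_le_mul_right _ (by omega)

lemma Ig_disj (p : ℕ × ℕ × Bool) (c : List (ℕ × ℕ × Bool)) (b : ℕ) :
    Disjoint (if p.2.2 = true then Ioc ((b + p.1 + 1) * L) ((b + p.1 + 1 + p.2.1) * L) else ∅)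
      (Ig L c (b + p.1 + 1 + p.2.1)) := by
  rw [disjoint_left]
  intro w hw hw'
  have h1 := Ig_gt c _ _ hw'
  split_ifs at hw with h
  · rw [mem_Ioc] at hw
    have : (b + p.1 + 1 + p.2.1) * L ≤ (b + p.1 + 1 + p.2.1 + 1) * L :=
      Nat.mul_le_mul_right _ (by omega)
    omega
  · simp at hw

lemma Ig_card (c : List (ℕ × ℕ × Bool)) : ∀ b, (Ig L c b).card = mk c * L := by
  induction c with
  | nil => intro b; simp [Ig, mk]
  | cons p c ih =>
    intro b
    simp only [Ig]
    rw [card_union_of_disjoint (Ig_disj p c b), ih]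
    have e1 : mk (p :: c) = (if p.2.2 = true then p.2.1 else 0) + mk c := by simp [mk]
    have e2 : (if p.2.2 = true then Ioc ((b + p.1 + 1) * L) ((b + p.1 + 1 + p.2.1) * L)
        else (∅ : Finset ℕ)).card = (if p.2.2 = true then p.2.1 else 0) * L := by
      split_ifs with h
      · rw [Nat.card_Ioc, ← Nat.sub_mul]
        congr 1
        omega
      · simp
    rw [e1, e2, ← Nat.add_mul]

lemma sS_mem {x i s : ℕ} : s ∈ sS L N x i ↔ (x ≤ s ∧ s ≤ N) ∧ s / L = x / L + i := by
  simp [sS]

lemma tS_mem {s j t : ℕ} :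
    t ∈ tS L N s j ↔ (s < t ∧ t ≤ N) ∧ t / L = s / L + 1 + j ∧ L < t - s := by
  simp [tS]

lemma kD_split (hL : 0 < L) (e : Env) {x i j s t : ℕ} (hs : s ∈ sS L N x i) (ht : t ∈ tS L N s j) :
    kD K L e s t
      = (∏ w ∈ Ioc ((x / L + i + 1) * L) ((x / L + i + 1 + j) * L), e w) * De K L e s t := by
  rw [sS_mem] at hs
  rw [tS_mem] at ht
  have e1 : s / L = x / L + i := hs.2
  have e2 : t / L = x / L + i + 1 + j := by omega
  have e4 : s ≤ (x / L + i + 1) * L := by
    have := Nat.lt_div_mul_add (a := s) hL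
    rw [e1] at this
    nlinarith
  have e5 : (x / L + i + 1 + j) * L ≤ t := by
    have := Nat.div_mul_le_self t L
    rwa [e2] at this
  have e6 : (x / L + i + 1) * L ≤ (x / L + i + 1 + j) * L := Nat.mul_le_mul_right _ (by omega)
  have e7 : pI e s t = pI e s ((x / L + i + 1) * L) * (pI e ((x / L + i + 1) * L)
      ((x / L + i + 1 + j) * L) * pI e ((x / L + i + 1 + j) * L) t) := by
    rw [pI_mul e e6 e5, pI_mul e e4 (e6.trans e5)]
  unfold kD De
  rw [if_pos ht.2.2, e1, e2, e7]
  change _ = pI e ((x / L + i + 1) * L) ((x / L + i + 1 + j) * L) * _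
  ring

lemma Zc_eq (hL : 0 < L) (e : Env) (c : List (ℕ × ℕ × Bool)) : ∀ x,
    Zc K L N e (fg c) x = (∏ w ∈ Ig L c (x / L), e w) * Rc K L N e c x := by
  induction c with
  | nil => intro x; simp [fg, Zc, Rc, Ig]
  | cons p c ih =>
    intro x
    have e0 : fg (p :: c) = (p.1, p.2.1) :: fg c := rfl
    rw [e0]
    simp only [Zc, Rc, Ig]
    rw [prod_union (Ig_disj p c (x / L)), mul_sum]
    refine sum_congr rfl fun s hs => ?_
    rw [mul_sum]
    refine sum_congr rfl fun t ht => ?_
    have e1 : t / L = x / L + p.1 + 1 + p.2.1 := by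
      rw [sS_mem] at hs; rw [tS_mem] at ht; omega
    rw [ih t, e1]
    by_cases hb : p.2.2 = true
    · simp only [if_pos hb]
      rw [kD_split hL e hs ht]
      ring
    · simp only [if_neg hb, prod_empty]
      ring

lemma MA_Rc (hL : 0 < L) (c : List (ℕ × ℕ × Bool)) : ∀ x,
    MA (Ioc x N \ Ig L c (x / L)) (fun e => Rc K L N e c x) := by
  induction c with
  | nil =>
    intro x
    simp only [Rc, Ig, sdiff_empty]
    exact MA_ren (MA_kA K L) x N
  | cons p c ih =>
    intro x
    simp only [Rc]
    refine MA.sum _ fun s hs => MA.sum _ fun t ht => ?_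
    rw [sS_mem] at hs
    rw [tS_mem] at ht
    have e1 : s / L = x / L + p.1 := hs.2
    have e2 : t / L = x / L + p.1 + 1 + p.2.1 := by omega
    have e4 : s < (x / L + p.1 + 1) * L := by
      have := Nat.lt_div_mul_add (a := s) hL
      rw [e1] at this
      nlinarith
    have e5 : (x / L + p.1 + 1 + p.2.1) * L ≤ t := by
      have := Nat.div_mul_le_self t L
      rwa [e2] at this
    have e5' : t < (x / L + p.1 + 1 + p.2.1 + 1) * L := by
      have := Nat.lt_div_mul_add (a := t) hL
      rw [e2] at this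
      nlinarith
    have e6 : (x / L + p.1 + 1) * L ≤ (x / L + p.1 + 1 + p.2.1) * L :=
      Nat.mul_le_mul_right _ (by omega)
    have hIg : ∀ w ∈ Ig L c (x / L + p.1 + 1 + p.2.1), t < w := fun w hw =>
      lt_of_lt_of_le e5' (Ig_gt c _ _ hw).le
    have m1 := MA_ren (MA_kA K L) x s
    have m2 : MA (Ioc s ((x / L + p.1 + 1) * L) ∪ Ioc ((x / L + p.1 + 1 + p.2.1) * L) t ∪
        (if p.2.2 = true then ∅ else Ioc s t))
        (fun e => if p.2.2 = true then De K L e s t else kD K L e s t) := by
      by_cases hb : p.2.2 = true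
      · simp only [if_pos hb, union_empty]
        unfold De
        rw [e1, e2]
        exact ((MA_pI s _).mul (MA_pI _ t) (by
          rw [disjoint_left]; intro w; simp only [mem_Ioc]; omega)).const_mul _
      · simp only [if_neg hb]
        exact (MA_kD K L s t).mono (by intro w hw; simp only [mem_union]; exact Or.inr hw)
    have m3 := ih t
    rw [e2] at m3
    have m12 := m1.mul m2 (by
      rw [disjoint_left]; intro w
      by_cases hb : p.2.2 = true
      · simp only [if_pos hb, mem_Ioc, mem_union, notMem_empty, or_false]; omega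
      · simp only [if_neg hb, mem_Ioc, mem_union]; omega)
    have m := m12.mul m3 (by
      rw [disjoint_left]; intro w
      by_cases hb : p.2.2 = true
      · simp only [if_pos hb, mem_Ioc, mem_union, mem_sdiff, notMem_empty, or_false]; omega
      · simp only [if_neg hb, mem_Ioc, mem_union, mem_sdiff]; omega)
    refine m.mono ?_
    intro w hw
    simp only [mem_union, mem_sdiff, mem_Ioc, Ig] at hw ⊢
    by_cases hb : p.2.2 = true
    · simp only [if_pos hb, notMem_empty, or_false, mem_Ioc] at hw ⊢
      refine ⟨by omega, ?_⟩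
      rintro (h | h)
      · omega
      · have := hIg w h
        rcases hw with hw | hw
        · omega
        · exact hw.2 h
    · simp only [if_neg hb, notMem_empty, false_or, mem_Ioc] at hw ⊢
      refine ⟨by omega, ?_⟩
      intro h
      have := hIg w h
      rcases hw with hw | hw
      · omega
      · exact hw.2 h

/-- weight of a marked coarse configuration. -/
def wtc (u κ κ' : ℕ → ℝ≥0∞) (c : List (ℕ × ℕ × Bool)) : ℝ≥0∞ :=
  (c.map (fun p => u p.1 * (if p.2.2 = true then κ p.2.1 else κ' p.2.1))).prod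

/-- deterministic bounds -/
structure DB (K : ℕ → ℝ≥0∞) (L N : ℕ) (q : ℝ≥0∞) (u κ κ' : ℕ → ℝ≥0∞) (H : ℝ≥0∞) : Prop where
  hH : ∀ x, ren (kA K L (fun _ => q)) x N ≤ H
  hu : ∀ x i, ∑ s ∈ sS L N x i, ren (kA K L (fun _ => q)) x s ≤ u i
  hk : ∀ s j, ∑ t ∈ tS L N s j, De K L (fun _ => q) s t ≤ κ j
  hk' : ∀ s j, ∑ t ∈ tS L N s j, kD K L (fun _ => q) s t ≤ κ' j

lemma Rc_bound {q : ℝ≥0∞} {u κ κ' : ℕ → ℝ≥0∞} {H : ℝ≥0∞} (hB : DB K L N q u κ κ' H)
    (c : List (ℕ × ℕ × Bool)) : ∀ x, Rc K L N (fun _ => q) c x ≤ wtc u κ κ' c * H := by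
  induction c with
  | nil => intro x; simp only [Rc, wtc, List.map_nil, List.prod_nil, one_mul]; exact hB.hH x
  | cons p c ih =>
    intro x
    simp only [Rc]
    calc ∑ s ∈ sS L N x p.1, ∑ t ∈ tS L N s p.2.1, ren (kA K L (fun _ => q)) x s
          * (if p.2.2 = true then De K L (fun _ => q) s t else kD K L (fun _ => q) s t)
          * Rc K L N (fun _ => q) c t
        ≤ ∑ s ∈ sS L N x p.1, ∑ t ∈ tS L N s p.2.1, ren (kA K L (fun _ => q)) x s
          * (if p.2.2 = true then De K L (fun _ => q) s t else kD K L (fun _ => q) s t)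
          * (wtc u κ κ' c * H) := by
          gcongr with s _ t _
          exact ih t
      _ = ∑ s ∈ sS L N x p.1, ren (kA K L (fun _ => q)) x s *
          ((∑ t ∈ tS L N s p.2.1,
            (if p.2.2 = true then De K L (fun _ => q) s t else kD K L (fun _ => q) s t))
          * (wtc u κ κ' c * H)) := by
          refine sum_congr rfl fun s _ => ?_
          rw [sum_mul, mul_sum]
          exact sum_congr rfl fun t _ => by ring
      _ ≤ ∑ s ∈ sS L N x p.1, ren (kA K L (fun _ => q)) x s *
          ((if p.2.2 = true then κ p.2.1 else κ' p.2.1) * (wtc u κ κ' c * H)) := by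
          gcongr with s _
          by_cases hb : p.2.2 = true
          · simp only [if_pos hb]; exact hB.hk s _
          · simp only [if_neg hb]; exact hB.hk' s _
      _ = (∑ s ∈ sS L N x p.1, ren (kA K L (fun _ => q)) x s) *
          ((if p.2.2 = true then κ p.2.1 else κ' p.2.1) * (wtc u κ κ' c * H)) := by rw [sum_mul]
      _ ≤ u p.1 * ((if p.2.2 = true then κ p.2.1 else κ' p.2.1) * (wtc u κ κ' c * H)) := by
          gcongr; exact hB.hu x _
      _ = _ := by
          simp only [wtc, List.map_cons, List.prod_cons]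
          ring

lemma Rc_zero (e : Env) (c : List (ℕ × ℕ × Bool)) : ∀ x, N < (x / L + tl c) * L →
    Rc K L N e c x = 0 := by
  induction c with
  | nil =>
    intro x hx
    simp only [tl, List.map_nil, List.sum_nil, add_zero] at hx
    simp only [Rc]
    exact ren_of_gt _ (lt_of_lt_of_le hx (Nat.div_mul_le_self x L))
  | cons p c ih =>
    intro x hx
    simp only [Rc]
    refine sum_eq_zero fun s hs => sum_eq_zero fun t ht => ?_
    rw [sS_mem] at hs; rw [tS_mem] at ht
    have e1 : tl (p :: c) = p.1 + 1 + p.2.1 + tl c := by simp [tl]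
    rw [ih t, mul_zero]
    have e2 : t / L + tl c = x / L + tl (p :: c) := by omega
    rw [e2]; exact hx

end Pool.Agent.Cop

end
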