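import Mathlib

/-!
Parameters of the sharp upper bound.
-/

noncomputable section

namespace Pool.Agent.Cop

/-- bound for the mass of a gap of coarse length `i` (`Λ = L^α / c`). -/
def uS (α Λ η : ℝ) (T i : ℕ) : ℝ :=
  if i ≤ T + 1 then 3 * α * Λ
  else (1 + η) * (2 * α ^ 2 * Λ) * ((i - 1 : ℕ) : ℝ) ^ (-(1 + α))

/-- bound for the edges of a marked down excursion of coarse length `j`. -/
def kM (α Λ η : ℝ) (j : ℕ) : ℝ := (1 + η) ^ 2 / (2 * Λ) * ((max j 1 : ℕ) : ℝ) ^ (-(1 + α))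

/-- bound for an unmarked down excursion of coarse length `j`. -/
def kF (α Λ η : ℝ) (j : ℕ) : ℝ :=
  (1 + η) / (2 * Λ) * ((max j 1 : ℕ) : ℝ) ^ (-(1 + α)) * Real.exp (2 * α * (1 + η) * (j + 2))

end Pool.Agent.Cop

end
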