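import Mathlib
import Pool.Agent.Work.MP_cceb86_pr.Bnd
import Pool.Agent.Work.MP_cceb86_pr.Micro
import Pool.Agent.Work.MP_cceb86_pr.UPar
import Pool.Agent.Work.MP_cceb86_pr.WinSharp

/-!
The deterministic bounds `DB` with sharp constants.
-/

open Finset Real Filter Topology
open scoped ENNReal NNReal

noncomputable section

namespace Pool.Agent.Cop

variable {α c q η : ℝ} {K : ℕ → ℝ} {L : ℕ}

/-- mass of a gap -/
lemma hu_sharp (hK : IsLaw α c K) (hF : KFacts α c K L) (hα : 0 < α) (hα1 : α ≤ 1 / 10)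
    (hc : 0 < c) (hη : 0 < η) (hq : 1 ≤ q) (hqL : q ^ L ≤ 1 + 4 * α) {T : ℕ}
    (w2 : ∀ x₀, T * L ≤ x₀ → ∑ x ∈ Ico x₀ (x₀ + L), rf (kap K L q) x
      ≤ (1 + η) * (2 * α ^ 2 * ((L : ℝ) ^ α / c)) * ((x₀ : ℝ) / L) ^ (-(1 + α))) (N x i : ℕ) :
    ∑ s ∈ sS L N x i,
      ren (kA (fun n => ENNReal.ofReal (K n)) L (fun _ => ENNReal.ofReal q)) x s
      ≤ ENNReal.ofReal (uS α ((L : ℝ) ^ α / c) η T i) := by
  classical
  have hL : 0 < L := by have := hF.big; omega
  have hL0 : (0 : ℝ) < L := by exact_mod_cast hL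
  have hg := rf_nonneg (kap_nonneg (L := L) hK.nonneg hq)
  obtain ⟨w1, _⟩ := kap_window hK hF hα hα1 hc hq hqL
  unfold sS
  have h1 : ∑ s ∈ (Icc x N).filter (fun s => s / L = x / L + i),
      ren (kA (fun n => ENNReal.ofReal (K n)) L (fun _ => ENNReal.ofReal q)) x s
      = ENNReal.ofReal (∑ s ∈ (Icc x N).filter (fun s => s / L = x / L + i),
          rf (kap K L q) (s - x)) := by
    rw [ENNReal.ofReal_sum_of_nonneg (fun s _ => hg _)]
    refine sum_congr rfl fun s hs => ?_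
    simp only [mem_filter, mem_Icc] at hs
    exact ren_kA_eq hK.nonneg hq hs.1.1
  rw [h1]
  refine ENNReal.ofReal_le_ofReal ?_
  have hinj : ∀ s ∈ (Icc x N).filter (fun s => s / L = x / L + i),
      ∀ s' ∈ (Icc x N).filter (fun s => s / L = x / L + i), s - x = s' - x → s = s' := by
    intro s hs s' hs' h
    simp only [mem_filter, mem_Icc] at hs hs'
    omega
  rw [← sum_image (f := rf (kap K L q)) (g := fun s => s - x) hinj]
  unfold uS
  split_ifs with hi
  · refine le_trans (sum_le_sum_of_subset_of_nonneg (t := range (N + 1)) ?_ (fun j _ _ => hg j))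
      ((w1 (N + 1)).trans (le_of_eq (by ring)))
    intro j hj
    simp only [mem_image, mem_filter, mem_Icc, mem_range] at hj ⊢
    obtain ⟨s, hs, rfl⟩ := hj
    omega
  · have hi2 : T + 2 ≤ i := by omega
    set b := (x / L + i) * L with hb
    have hxb : x < (x / L + 1) * L := by
      have := Nat.lt_div_mul_add (a := x) hL
      nlinarith
    have hb1 : (i - 1) * L + x ≤ b := by
      have : b = (x / L + 1) * L + (i - 1) * L := by
        rw [hb, ← Nat.add_mul]; congr 1; omega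
      omega
    have hb2 : T * L ≤ b - x := by
      have : T * L ≤ (i - 1) * L := Nat.mul_le_mul_right _ (by omega)
      omega
    refine le_trans (sum_le_sum_of_subset_of_nonneg (t := Ico (b - x) (b - x + L)) ?_
      (fun j _ _ => hg j)) ?_
    · intro j hj
      simp only [mem_image, mem_filter, mem_Icc, mem_Ico] at hj ⊢
      obtain ⟨s, ⟨hs1, hs2⟩, rfl⟩ := hj
      have e1 : b ≤ s := by
        have := Nat.div_mul_le_self s L
        rwa [hs2] at this
      have e2 : s < b + L := by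
        have := Nat.lt_div_mul_add (a := s) hL
        rwa [hs2] at this
      omega
    · refine (w2 (b - x) hb2).trans ?_
      have e1 : ((i - 1 : ℕ) : ℝ) ≤ ((b - x : ℕ) : ℝ) / L := by
        rw [le_div_iff₀ hL0]
        have : (i - 1) * L ≤ b - x := by omega
        exact_mod_cast this
      have e2 : (0 : ℝ) < ((i - 1 : ℕ) : ℝ) := by
        have : 0 < i - 1 := by omega
        exact_mod_cast this
      have e3 : (((b - x : ℕ) : ℝ) / L) ^ (-(1 + α)) ≤ ((i - 1 : ℕ) : ℝ) ^ (-(1 + α)) :=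
        Real.rpow_le_rpow_of_nonpos e2 e1 (by linarith)
      gcongr

/-- geometry of the end points of a long down excursion -/
lemma tS_geom (hL : 0 < L) {N s j t : ℕ} (ht : t ∈ tS L N s j) :
    (s / L + 1) * L - s ≤ L ∧ t - (t / L) * L ≤ L ∧ max j 1 * L ≤ t - s ∧ L < t - s ∧
      t - s ≤ L * (j + 2) := by
  rw [tS_mem] at ht
  obtain ⟨⟨ht1, ht2⟩, ht3, ht4⟩ := ht
  have hsL : s < (s / L + 1) * L := by
    have := Nat.lt_div_mul_add (a := s) hL
    nlinarith
  have e1 : (t / L) * L ≤ t := Nat.div_mul_le_self t L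
  have e2 : t < (t / L) * L + L := Nat.lt_div_mul_add hL
  have hb1 : (s / L) * L ≤ s := Nat.div_mul_le_self s L
  have e3 : (s / L + 1) * L = (s / L) * L + L := by ring
  have e4 : (t / L) * L = (s / L + 1) * L + j * L := by rw [ht3]; ring
  refine ⟨by omega, by omega, ?_, ht4, ?_⟩
  · rcases Nat.eq_zero_or_pos j with h | h
    · rw [h, show max 0 1 = 1 from rfl]; omega
    · rw [max_eq_left (show 1 ≤ j from h)]; omega
  · have : L * (j + 2) = j * L + L + L := by ring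
    omega

lemma tS_card (hL : 0 < L) (N s j : ℕ) : (tS L N s j).card ≤ L := by
  calc (tS L N s j).card
      ≤ (Ico ((s / L + 1 + j) * L) ((s / L + 1 + j) * L + L)).card := by
        refine card_le_card ?_
        intro t ht
        rw [tS_mem] at ht
        rw [mem_Ico]
        have e1 : (t / L) * L ≤ t := Nat.div_mul_le_self t L
        have e2 : t < (t / L) * L + L := Nat.lt_div_mul_add hL
        rw [ht.2.1] at e1 e2
        exact ⟨e1, e2⟩
    _ = L := by simp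

lemma sum_tS_le (hL : 0 < L) (N s j : ℕ) {f : ℕ → ℝ≥0∞} {B : ℝ}
    (hf : ∀ t ∈ tS L N s j, f t ≤ ENNReal.ofReal B) :
    ∑ t ∈ tS L N s j, f t ≤ ENNReal.ofReal (L * B) := by
  have hL0 : (0 : ℝ) < L := by exact_mod_cast hL
  refine (sum_le_card_nsmul _ _ _ hf).trans ?_
  rw [nsmul_eq_mul, ENNReal.ofReal_mul hL0.le, ENNReal.ofReal_natCast]
  have := tS_card hL N s j
  gcongr

/-- the kernel on the end points of a long down excursion -/
lemma K_tS (hL : 0 < L) (hα : 0 < α) (hc : 0 < c) (hη : 0 < η)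
    (hup : ∀ n : ℕ, L < n → K n ≤ (1 + η) * c * (n : ℝ) ^ (-(1 + α))) {N s j t : ℕ}
    (ht : t ∈ tS L N s j) :
    K (t - s) ≤ (1 + η) * c * (((max j 1 : ℕ) : ℝ) * L) ^ (-(1 + α)) := by
  obtain ⟨_, _, h3, h4, _⟩ := tS_geom hL ht
  have hL0 : (0 : ℝ) < L := by exact_mod_cast hL
  refine (hup _ h4).trans ?_
  have e6 : ((max j 1 : ℕ) : ℝ) * L ≤ ((t - s : ℕ) : ℝ) := by exact_mod_cast h3
  have hJ : (0 : ℝ) < ((max j 1 : ℕ) : ℝ) := by
    have : 0 < max j 1 := lt_of_lt_of_le one_pos (le_max_right _ _)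
    exact_mod_cast this
  have : ((t - s : ℕ) : ℝ) ^ (-(1 + α)) ≤ (((max j 1 : ℕ) : ℝ) * L) ^ (-(1 + α)) :=
    Real.rpow_le_rpow_of_nonpos (by positivity) e6 (by linarith)
  gcongr

/-- **The deterministic bounds with sharp constants.** -/
theorem db_sharp {η : ℝ} (h0 : 0 < η) (h1 : η ≤ 1 / 4) :
    ∃ a₀ : ℝ, 0 < a₀ ∧ ∃ T : ℕ, ∀ α : ℝ, 0 < α → α < a₀ → ∀ c : ℝ, 0 < c → ∀ K : ℕ → ℝ,
      IsLaw α c K → ∀ᶠ L : ℕ in atTop, ∀ q : ℝ, 1 ≤ q → q ^ L ≤ Real.exp (2 * α * (1 + η)) →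
        ∀ N : ℕ, DB (fun n => ENNReal.ofReal (K n)) L N (ENNReal.ofReal q)
          (fun i => ENNReal.ofReal (uS α ((L : ℝ) ^ α / c) η T i))
          (fun j => ENNReal.ofReal (kM α ((L : ℝ) ^ α / c) η j))
          (fun j => ENNReal.ofReal (kF α ((L : ℝ) ^ α / c) η j))
          (ENNReal.ofReal (3 * α * ((L : ℝ) ^ α / c))) := by
  obtain ⟨a₁, ha₁, T, HT⟩ := win_sharp h0
  refine ⟨min a₁ (η / 24), by positivity, T, ?_⟩
  intro α hα hαa c hc K hK
  have hαa1 : α < a₁ := lt_of_lt_of_le hαa (min_le_left _ _)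
  have hαη : α < η / 24 := lt_of_lt_of_le hαa (min_le_right _ _)
  have hα10 : α ≤ 1 / 10 := by linarith
  obtain ⟨n₀, hn₀⟩ := eventually_atTop.1 (hK.bounds hc h0)
  filter_upwards [hK.kfacts hc hα hα10, HT α hα hαa1 c hc K hK, eventually_ge_atTop n₀]
    with L hF hw hLn
  intro q hq hqe N
  have hqL : q ^ L ≤ 1 + 4 * α := by
    refine hqe.trans (le_trans (Real.exp_le_exp.2 ?_) (exp3 hα hα10))
    nlinarith
  have hL : 0 < L := by have := hF.big; omega
  have hL0 : (0 : ℝ) < L := by exact_mod_cast hL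
  have hq0 : 0 ≤ q := by linarith
  set Λ : ℝ := (L : ℝ) ^ α / c with hΛ
  have hΛ0 : 0 < Λ := by
    have : 0 < (L : ℝ) ^ α := Real.rpow_pos_of_pos hL0 _
    positivity
  have hup : ∀ n : ℕ, L < n → K n ≤ (1 + η) * c * (n : ℝ) ^ (-(1 + α)) := fun n hn =>
    (hn₀ n (by omega)).2
  have hlast : ∀ j : ℕ, (L : ℝ) * (c * (((max j 1 : ℕ) : ℝ) * L) ^ (-(1 + α)))
      = 1 / Λ * ((max j 1 : ℕ) : ℝ) ^ (-(1 + α)) := by
    intro j
    rw [Real.mul_rpow (by positivity) hL0.le]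
    have e1 : (L : ℝ) ^ (-(1 + α)) * L = (L : ℝ) ^ (-α) := by
      rw [← Real.rpow_add_one hL0.ne']; congr 1; ring
    have e2 : c * (L : ℝ) ^ (-α) = 1 / Λ := by
      rw [hΛ, Real.rpow_neg hL0.le]; field_simp
    calc (L : ℝ) * (c * (((max j 1 : ℕ) : ℝ) ^ (-(1 + α)) * (L : ℝ) ^ (-(1 + α))))
        = c * ((L : ℝ) ^ (-(1 + α)) * L) * ((max j 1 : ℕ) : ℝ) ^ (-(1 + α)) := by ring
      _ = _ := by rw [e1, e2]
  refine ⟨?_, ?_, ?_, ?_⟩
  · intro x
    rcases le_or_gt x N with hx | hx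
    · rw [ren_kA_eq hK.nonneg hq hx]
      refine ENNReal.ofReal_le_ofReal ?_
      have hg := rf_nonneg (kap_nonneg (L := L) hK.nonneg hq)
      refine le_trans ?_ (((kap_window hK hF hα hα10 hc hq hqL).1 (N - x + 1)).trans
        (le_of_eq (by rw [hΛ]; ring)))
      exact single_le_sum (f := rf (kap K L q)) (fun i _ => hg i) (mem_range.2 (by omega))
    · rw [ren_of_gt _ hx]; simp
  · intro x i
    exact hu_sharp hK hF hα hα10 hc h0 hq hqL (hw q hq hqL).2 N x i
  · intro s j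
    set B : ℝ := (1 + η) ^ 2 / 2 * (c * (((max j 1 : ℕ) : ℝ) * L) ^ (-(1 + α))) with hB
    refine (sum_tS_le (B := B) hL N s j ?_).trans (ENNReal.ofReal_le_ofReal (le_of_eq ?_))
    · intro t ht
      obtain ⟨g1, g2, g3, g4, g5⟩ := tS_geom hL ht
      have hK1 := K_tS hL hα hc h0 hup ht
      have hK0 := hK.nonneg (t - s)
      unfold De
      rw [pI_const, pI_const, ← ENNReal.ofReal_pow hq0, ← ENNReal.ofReal_pow hq0,
        ← ENNReal.ofReal_mul (by positivity)]
      have h2 : ENNReal.ofReal (K (t - s)) / 2 = ENNReal.ofReal (K (t - s) / 2) := by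
        rw [ENNReal.ofReal_div_of_pos (by norm_num)]; simp
      rw [h2, ← ENNReal.ofReal_mul (by positivity)]
      refine ENNReal.ofReal_le_ofReal ?_
      have h3 : q ^ ((s / L + 1) * L - s) ≤ 1 + 4 * α := (pow_le_pow_right₀ hq g1).trans hqL
      have h4 : q ^ (t - (t / L) * L) ≤ 1 + 4 * α := (pow_le_pow_right₀ hq g2).trans hqL
      have h5 : (1 + 4 * α) * (1 + 4 * α) ≤ 1 + η := by nlinarith
      calc K (t - s) / 2 * (q ^ ((s / L + 1) * L - s) * q ^ (t - (t / L) * L))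
          ≤ K (t - s) / 2 * ((1 + 4 * α) * (1 + 4 * α)) := by gcongr
        _ ≤ ((1 + η) * c * (((max j 1 : ℕ) : ℝ) * L) ^ (-(1 + α))) / 2 * (1 + η) := by gcongr
        _ = B := by rw [hB]; ring
    · unfold kM
      rw [hB]
      calc (L : ℝ) * ((1 + η) ^ 2 / 2 * (c * (((max j 1 : ℕ) : ℝ) * L) ^ (-(1 + α))))
          = (1 + η) ^ 2 / 2 * (L * (c * (((max j 1 : ℕ) : ℝ) * L) ^ (-(1 + α)))) := by ring
        _ = (1 + η) ^ 2 / (2 * Λ) * ((max j 1 : ℕ) : ℝ) ^ (-(1 + α)) := by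
            rw [hlast j]; field_simp
  · intro s j
    set B : ℝ := (1 + η) / 2 * (c * (((max j 1 : ℕ) : ℝ) * L) ^ (-(1 + α)))
      * Real.exp (2 * α * (1 + η) * (j + 2)) with hB
    refine (sum_tS_le (B := B) hL N s j ?_).trans (ENNReal.ofReal_le_ofReal (le_of_eq ?_))
    · intro t ht
      obtain ⟨g1, g2, g3, g4, g5⟩ := tS_geom hL ht
      have hK1 := K_tS hL hα hc h0 hup ht
      have hK0 := hK.nonneg (t - s)
      unfold kD
      rw [if_pos g4, pI_const, ← ENNReal.ofReal_pow hq0]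
      have h2 : ENNReal.ofReal (K (t - s)) / 2 = ENNReal.ofReal (K (t - s) / 2) := by
        rw [ENNReal.ofReal_div_of_pos (by norm_num)]; simp
      rw [h2, ← ENNReal.ofReal_mul (by positivity)]
      refine ENNReal.ofReal_le_ofReal ?_
      have h3 : q ^ (t - s) ≤ Real.exp (2 * α * (1 + η) * (j + 2)) := by
        calc q ^ (t - s) ≤ q ^ (L * (j + 2)) := pow_le_pow_right₀ hq g5
          _ = (q ^ L) ^ (j + 2) := by rw [pow_mul]
          _ ≤ (Real.exp (2 * α * (1 + η))) ^ (j + 2) := by gcongr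
          _ = Real.exp (2 * α * (1 + η) * (j + 2)) := by
              rw [← Real.exp_nat_mul]; congr 1; push_cast; ring
      calc K (t - s) / 2 * q ^ (t - s)
          ≤ ((1 + η) * c * (((max j 1 : ℕ) : ℝ) * L) ^ (-(1 + α))) / 2
            * Real.exp (2 * α * (1 + η) * (j + 2)) := by gcongr
        _ = B := by rw [hB]; ring
    · unfold kF
      rw [hB]
      calc (L : ℝ) * ((1 + η) / 2 * (c * (((max j 1 : ℕ) : ℝ) * L) ^ (-(1 + α)))
            * Real.exp (2 * α * (1 + η) * (j + 2)))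
          = (1 + η) / 2 * (L * (c * (((max j 1 : ℕ) : ℝ) * L) ^ (-(1 + α))))
            * Real.exp (2 * α * (1 + η) * (j + 2)) := by ring
        _ = (1 + η) / (2 * Λ) * ((max j 1 : ℕ) : ℝ) ^ (-(1 + α))
            * Real.exp (2 * α * (1 + η) * (j + 2)) := by
            rw [hlast j]; field_simp

end Pool.Agent.Cop

end
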