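import Mathlib
import Pool.Agent.Work.MP_cceb86_pr.Envi
import Pool.Agent.Work.MP_cceb86_pr.Model

/-!
From the fractional moments to the free energy and the critical curve.
-/

open Finset MeasureTheory ProbabilityTheory Real Filter Topology
open scoped ENNReal NNReal

noncomputable section

namespace Pool.Agent.Cop

variable {Ω Ω' : Type*} [MeasurableSpace Ω] [MeasurableSpace Ω'] {P : Measure Ω} {Q : Measure Ω'}
  {K : ℕ → ℝ} {xi : ℕ → Ω → ℕ} {eps : ℕ → Ω → Bool} {w : ℕ → Ω' → ℝ} {α c : ℝ}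

lemma KB_real (hK : IsLaw α c K) (N : ℕ) :
    KB (Ke K) N = ENNReal.ofReal (1 - ∑ n ∈ Ioc 0 N, K n) := by
  have h1 := KB_add (Ke K) N
  have h2 : ∑' n, Ke K n = 1 := by
    unfold Ke
    rw [← ENNReal.ofReal_tsum_of_nonneg hK.nonneg hK.sum.summable, hK.sum.tsum_eq]
    simp
  have h3 : ∑ n ∈ range (N + 1), Ke K n = ENNReal.ofReal (∑ n ∈ Ioc 0 N, K n) := by
    rw [ENNReal.ofReal_sum_of_nonneg (fun n _ => hK.nonneg n)]
    have : range (N + 1) = insert 0 (Ioc 0 N) := by
      ext z; simp only [mem_range, mem_insert, mem_Ioc]; omega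
    rw [this, sum_insert (by simp)]
    unfold Ke
    rw [hK.zero]; simp
  rw [h2, h3] at h1
  rw [ENNReal.ofReal_sub _ (sum_nonneg fun n _ => hK.nonneg n), ENNReal.ofReal_one, ← h1]
  rw [ENNReal.add_sub_cancel_left ENNReal.ofReal_ne_top]

lemma KB_le_one (hK : IsLaw α c K) (N : ℕ) : KB (Ke K) N ≤ 1 := by
  rw [KB_real hK, ← ENNReal.ofReal_one]
  refine ENNReal.ofReal_le_ofReal ?_
  have : 0 ≤ ∑ n ∈ Ioc 0 N, K n := sum_nonneg fun n _ => hK.nonneg n
  linarith

omit [MeasurableSpace Ω'] in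
/-- the formula for the partition function, in terms of `Zf` -/
lemma Z_eq [IsProbabilityMeasure P] (hm : IsModel P K xi eps) (hK : IsLaw α c K) (lam h : ℝ)
    (x : Ω') (N : ℕ) :
    ENNReal.ofReal (Zpart P xi eps lam h (fun n => w n x) N)
      = Zf (fun n => ENNReal.ofReal (K n)) (KB (Ke K)) N (fun j => ew w lam h j x) :=
  hm.ofReal_Zpart hK.zero lam h (fun n => w n x) N

omit [MeasurableSpace Ω'] in
lemma Z_lower [IsProbabilityMeasure P] (hm : IsModel P K xi eps) (hK : IsLaw α c K) (lam h : ℝ)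
    (x : Ω') (N : ℕ) :
    (1 - ∑ n ∈ Ioc 0 N, K n) / 2 ≤ Zpart P xi eps lam h (fun n => w n x) N := by
  have hk0 : 0 ≤ 1 - ∑ n ∈ Ioc 0 N, K n := by
    have := hK.sum_le_one (Ioc 0 N); linarith
  have h1 : ENNReal.ofReal ((1 - ∑ n ∈ Ioc 0 N, K n) / 2)
      ≤ ENNReal.ofReal (Zpart P xi eps lam h (fun n => w n x) N) := by
    rw [Z_eq hm hK]
    unfold Zf
    refine le_trans ?_ (single_le_sum (f := fun m => ren (kT (fun n => ENNReal.ofReal (K n))
      (fun j => ew w lam h j x)) 0 m * (KB (Ke K) (N - m) *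
        ((1 + pI (fun j => ew w lam h j x) m N) / 2))) (fun _ _ => bot_le)
        (mem_range.2 (Nat.succ_pos N)))
    simp only [ren_self, Nat.sub_zero, one_mul]
    rw [KB_real hK, ENNReal.ofReal_div_of_pos (by norm_num), ENNReal.div_eq_inv_mul, mul_comm]
    gcongr
    rw [ENNReal.div_eq_inv_mul]
    simp only [ENNReal.ofReal_ofNat]
    calc (2 : ℝ≥0∞)⁻¹ = 2⁻¹ * 1 := by rw [mul_one]
      _ ≤ 2⁻¹ * (1 + pI (fun j => ew w lam h j x) 0 N) := by gcongr; exact le_self_add
  have h2 : 0 ≤ Zpart P xi eps lam h (fun n => w n x) N :=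
    integral_nonneg fun _ => (Real.exp_pos _).le
  exact (ENNReal.ofReal_le_ofReal_iff h2).1 h1

lemma ew_meas (hw : IsDisorder Q w) (lam h : ℝ) (n : ℕ) : Measurable (ew w lam h n) := by
  have := hw.meas n
  unfold ew
  fun_prop

lemma Z_meas [IsProbabilityMeasure P] (hm : IsModel P K xi eps) (hK : IsLaw α c K)
    (hw : IsDisorder Q w) (lam h : ℝ) (N : ℕ) :
    Measurable (fun x => Zpart P xi eps lam h (fun n => w n x) N) := by
  have h1 : (fun x => Zpart P xi eps lam h (fun n => w n x) N)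
      = fun x => (Zf (fun n => ENNReal.ofReal (K n)) (KB (Ke K)) N
          (fun j => ew w lam h j x)).toReal := by
    funext x
    rw [← Z_eq hm hK]
    exact (ENNReal.toReal_ofReal (integral_nonneg fun _ => (Real.exp_pos _).le)).symm
  rw [h1]
  exact ((MA_Zf _ _ N).measurable (ew_meas hw lam h)).ennreal_toReal

/-- bound for `E log Z` from a fractional moment -/
lemma log_bound [IsProbabilityMeasure P] (hm : IsModel P K xi eps) (hK : IsLaw α c K)
    (hw : IsDisorder Q w) {lam h γ : ℝ} (hγ : 0 < γ) {N : ℕ} {b : ℝ} (hb : 0 < b)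
    (hk : 0 < 1 - ∑ n ∈ Ioc 0 N, K n)
    (hB : ∫⁻ x, (Zf (fun n => ENNReal.ofReal (K n)) (KB (Ke K)) N
      (fun j => ew w lam h j x)) ^ γ ∂Q ≤ ENNReal.ofReal b) :
    Real.log ((1 - ∑ n ∈ Ioc 0 N, K n) / 2)
        ≤ ∫ x, Real.log (Zpart P xi eps lam h (fun n => w n x) N) ∂Q ∧
      ∫ x, Real.log (Zpart P xi eps lam h (fun n => w n x) N) ∂Q ≤ Real.log b / γ := by
  have := hw.prob
  set Z : Ω' → ℝ := fun x => Zpart P xi eps lam h (fun n => w n x) N with hZ
  have hZm : Measurable Z := Z_meas hm hK hw lam h N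
  set z₀ : ℝ := (1 - ∑ n ∈ Ioc 0 N, K n) / 2 with hz₀
  have hz0 : 0 < z₀ := by rw [hz₀]; positivity
  have hZl : ∀ x, z₀ ≤ Z x := fun x => Z_lower hm hK lam h x N
  have hZ0 : ∀ x, 0 < Z x := fun x => lt_of_lt_of_le hz0 (hZl x)
  set Y : Ω' → ℝ := fun x => Z x ^ γ with hY
  have hYm : Measurable Y := hZm.pow_const γ
  have hY0 : ∀ x, 0 < Y x := fun x => Real.rpow_pos_of_pos (hZ0 x) _
  have hYl : ∫⁻ x, ENNReal.ofReal (Y x) ∂Q ≤ ENNReal.ofReal b := by
    refine le_trans (le_of_eq ?_) hB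
    refine lintegral_congr fun x => ?_
    rw [← Z_eq hm hK, ENNReal.ofReal_rpow_of_pos (hZ0 x)]
  have hYi : Integrable Y Q := by
    refine ⟨hYm.aestronglyMeasurable, ?_⟩
    rw [hasFiniteIntegral_iff_ofReal (Eventually.of_forall fun x => (hY0 x).le)]
    exact lt_of_le_of_lt hYl ENNReal.ofReal_lt_top
  have hYint : ∫ x, Y x ∂Q ≤ b := by
    rw [integral_eq_lintegral_of_nonneg_ae (Eventually.of_forall fun x => (hY0 x).le)
      hYm.aestronglyMeasurable]
    exact ENNReal.toReal_le_of_le_ofReal hb.le hYl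
  -- pointwise upper bound
  have hup : ∀ x, Real.log (Z x) ≤ (Y x / b - 1 + Real.log b) / γ := by
    intro x
    have h1 : Real.log (Z x) = Real.log (Y x) / γ := by
      rw [hY]; simp only
      rw [Real.log_rpow (hZ0 x)]; field_simp
    rw [h1]
    have h2 := Real.log_le_sub_one_of_pos (show 0 < Y x / b by have := hY0 x; positivity)
    rw [Real.log_div (hY0 x).ne' hb.ne'] at h2
    gcongr
    linarith
  have hUi : Integrable (fun x => (Y x / b - 1 + Real.log b) / γ) Q :=
    (((hYi.div_const b).sub (integrable_const 1)).add (integrable_const _)).div_const γ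
  have hlogi : Integrable (fun x => Real.log (Z x)) Q := by
    refine Integrable.mono' ((integrable_const (|Real.log z₀|)).add hUi.abs)
      hZm.log.aestronglyMeasurable (Eventually.of_forall fun x => ?_)
    simp only [Real.norm_eq_abs, Pi.add_apply]
    have h1 : Real.log z₀ ≤ Real.log (Z x) := Real.log_le_log hz0 (hZl x)
    have h2 := hup x
    have h3 := neg_abs_le (Real.log z₀)
    have h4 := le_abs_self ((Y x / b - 1 + Real.log b) / γ)
    have h5 := abs_nonneg (Real.log z₀)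
    have h6 := abs_nonneg ((Y x / b - 1 + Real.log b) / γ)
    rw [abs_le]
    constructor <;> linarith
  constructor
  · calc Real.log z₀ = ∫ _x, Real.log z₀ ∂Q := by simp
      _ ≤ ∫ x, Real.log (Z x) ∂Q := integral_mono (integrable_const _) hlogi
          fun x => Real.log_le_log hz0 (hZl x)
  · calc ∫ x, Real.log (Z x) ∂Q ≤ ∫ x, (Y x / b - 1 + Real.log b) / γ ∂Q :=
          integral_mono hlogi hUi hup
      _ = ((∫ x, Y x ∂Q) / b - 1 + Real.log b) / γ := by
          have e1 : ∫ x, (Y x / b - 1 + Real.log b) ∂Q = (∫ x, Y x ∂Q) / b - 1 + Real.log b := by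
            have i1 : Integrable (fun x => Y x / b) Q := hYi.div_const b
            have i2 : Integrable (fun x => Y x / b - 1) Q := i1.sub (integrable_const 1)
            rw [integral_add i2 (integrable_const _), integral_sub i1 (integrable_const 1),
              integral_div]
            simp
          rw [integral_div, e1]
      _ ≤ (b / b - 1 + Real.log b) / γ := by gcongr
      _ = Real.log b / γ := by rw [div_self hb.ne']; ring

/-- Linearly growing fractional moments imply a zero free energy. -/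
theorem tendsto_zero [IsProbabilityMeasure P] (hm : IsModel P K xi eps) (hK : IsLaw α c K)
    (hα : 0 < α) (hα1 : α < 1) (hc : 0 < c) (hw : IsDisorder Q w) {lam h γ : ℝ} (hγ : 0 < γ)
    {B : ℝ≥0∞} (hB : B ≠ ∞)
    (hZ : ∀ N : ℕ, ∫⁻ x, (Zf (fun n => ENNReal.ofReal (K n)) (KB (Ke K)) N
      (fun j => ew w lam h j x)) ^ γ ∂Q ≤ B * (N + 1 : ℕ)) :
    Tendsto (fun N : ℕ => freeN P xi eps Q w lam h N) atTop (𝓝 0) := by
  set B₁ : ℝ := B.toReal + 1 with hB₁
  have hB₁0 : 0 < B₁ := by rw [hB₁]; have := ENNReal.toReal_nonneg (a := B); linarith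
  have hlogN : Tendsto (fun N : ℕ => Real.log N / N) atTop (𝓝 0) := by
    have h := Real.isLittleO_log_id_atTop.tendsto_div_nhds_zero
    exact h.comp tendsto_natCast_atTop_atTop
  have hconst : ∀ a : ℝ, Tendsto (fun N : ℕ => a / (N : ℝ)) atTop (𝓝 0) := fun a =>
    tendsto_const_div_atTop_nhds_zero_nat a
  -- lower and upper comparison sequences
  have hlow : Tendsto (fun N : ℕ => Real.log (9 / 20 * (c / α)) / N - α * (Real.log N / N))
      atTop (𝓝 0) := by
    have := (hconst (Real.log (9 / 20 * (c / α)))).sub (hlogN.const_mul α)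
    simpa using this
  have hupp : Tendsto (fun N : ℕ => (Real.log (B₁ * 2) / N + Real.log N / N) / γ) atTop
      (𝓝 0) := by
    have := ((hconst (Real.log (B₁ * 2))).add hlogN).div_const γ
    simpa using this
  refine tendsto_of_tendsto_of_tendsto_of_le_of_le' hlow hupp ?_ ?_
  · filter_upwards [hK.tail_low hc hα hα1.le, eventually_gt_atTop 0] with N hN hN0
    have hN1 : (0 : ℝ) < N := by exact_mod_cast hN0
    have hN2 : (1 : ℝ) ≤ N := by exact_mod_cast hN0
    have hp : 0 < (N : ℝ) ^ (-α) := Real.rpow_pos_of_pos hN1 _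
    have hk : 9 / 10 * (c / α) * (N : ℝ) ^ (-α) ≤ 1 - ∑ n ∈ Ioc 0 N, K n := by linarith
    have hk0 : 0 < 1 - ∑ n ∈ Ioc 0 N, K n := lt_of_lt_of_le (by positivity) hk
    have hb : 0 < B₁ * (2 * N) := by positivity
    have h1 := (log_bound (lam := lam) (h := h) hm hK hw hγ hb hk0 (by
      refine (hZ N).trans ?_
      rw [ENNReal.ofReal_mul hB₁0.le]
      gcongr
      · rw [hB₁]
        calc B = ENNReal.ofReal B.toReal := (ENNReal.ofReal_toReal hB).symm
          _ ≤ _ := ENNReal.ofReal_le_ofReal (by linarith)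
      · rw [← ENNReal.ofReal_natCast]
        refine ENNReal.ofReal_le_ofReal ?_
        push_cast; linarith)).1
    unfold freeN
    have h2 : Real.log (9 / 20 * (c / α)) - α * Real.log N
        ≤ Real.log ((1 - ∑ n ∈ Ioc 0 N, K n) / 2) := by
      have h3 : Real.log (9 / 20 * (c / α)) - α * Real.log N
          = Real.log (9 / 20 * (c / α) * (N : ℝ) ^ (-α)) := by
        rw [Real.log_mul (by positivity) hp.ne', Real.log_rpow hN1]; ring
      rw [h3]
      refine Real.log_le_log (by positivity) ?_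
      linarith
    calc Real.log (9 / 20 * (c / α)) / N - α * (Real.log N / N)
        = (1 / (N : ℝ)) * (Real.log (9 / 20 * (c / α)) - α * Real.log N) := by ring
      _ ≤ (1 / (N : ℝ)) * ∫ x, Real.log (Zpart P xi eps lam h (fun n => w n x) N) ∂Q := by
          gcongr
          exact h2.trans h1
  · filter_upwards [hK.tail_low hc hα hα1.le, eventually_gt_atTop 0] with N hN hN0
    have hN1 : (0 : ℝ) < N := by exact_mod_cast hN0
    have hN2 : (1 : ℝ) ≤ N := by exact_mod_cast hN0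
    have hp : 0 < (N : ℝ) ^ (-α) := Real.rpow_pos_of_pos hN1 _
    have hk : 9 / 10 * (c / α) * (N : ℝ) ^ (-α) ≤ 1 - ∑ n ∈ Ioc 0 N, K n := by linarith
    have hk0 : 0 < 1 - ∑ n ∈ Ioc 0 N, K n := lt_of_lt_of_le (by positivity) hk
    have hb : 0 < B₁ * (2 * N) := by positivity
    have h1 := (log_bound (lam := lam) (h := h) hm hK hw hγ hb hk0 (by
      refine (hZ N).trans ?_
      rw [ENNReal.ofReal_mul hB₁0.le]
      gcongr
      · rw [hB₁]
        calc B = ENNReal.ofReal B.toReal := (ENNReal.ofReal_toReal hB).symm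
          _ ≤ _ := ENNReal.ofReal_le_ofReal (by linarith)
      · rw [← ENNReal.ofReal_natCast]
        refine ENNReal.ofReal_le_ofReal ?_
        push_cast; linarith)).2
    unfold freeN
    have h3 : Real.log (B₁ * (2 * N)) = Real.log (B₁ * 2) + Real.log N := by
      rw [← mul_assoc, Real.log_mul (by positivity) hN1.ne']
    calc (1 / (N : ℝ)) * ∫ x, Real.log (Zpart P xi eps lam h (fun n => w n x) N) ∂Q
        ≤ (1 / (N : ℝ)) * (Real.log (B₁ * (2 * N)) / γ) := by gcongr
      _ = _ := by rw [h3]; ring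

/-- **Main theorem**: above slope `m0 α` the free energy vanishes for weak coupling. -/
theorem free_zero [IsProbabilityMeasure P] (hm : IsModel P K xi eps) (hK : IsLaw α c K)
    (hα : 0 < α) (hα1 : α < 1) (hc : 0 < c) (hw : IsDisorder Q w) :
    ∃ lam₀ : ℝ, 0 < lam₀ ∧ ∀ lam : ℝ, 0 < lam → lam < lam₀ → ∀ h : ℝ, m0 α * lam ≤ h →
      Tendsto (fun N : ℕ => freeN P xi eps Q w lam h N) atTop (𝓝 0) := by
  obtain ⟨lam₀, h0, H⟩ := frac_main hw hK hα hα1 hc
  refine ⟨lam₀, h0, fun lam hl hl2 h hh => ?_⟩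
  obtain ⟨γ, hγ, _, B, hB, HB⟩ := H lam hl hl2 h hh
  exact tendsto_zero hm hK hα hα1 hc hw hγ hB (HB (KB (Ke K)) (KB_le_one hK))

/-- **Main theorem** for the critical curve. -/
theorem hcrit_le [IsProbabilityMeasure P] (hm : IsModel P K xi eps) (hK : IsLaw α c K)
    (hα : 0 < α) (hα1 : α < 1) (hc : 0 < c) (hw : IsDisorder Q w) :
    ∀ᶠ lam : ℝ in 𝓝[>] 0, hcrit P xi eps Q w lam
      ≤ (1 - α + 5000 * α ^ 2 * (1 + Real.log (1 / α))) * lam := by
  obtain ⟨lam₀, h0, H⟩ := free_zero hm hK hα hα1 hc hw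
  have h1 : ∀ᶠ lam : ℝ in 𝓝[>] 0, lam ∈ Set.Ioo 0 lam₀ := Ioo_mem_nhdsGT h0
  filter_upwards [h1] with lam hl
  change hcrit P xi eps Q w lam ≤ m0 α * lam
  unfold hcrit
  have hm0 : 0 ≤ m0 α := by
    unfold m0
    have := log_nonneg' hα hα1
    nlinarith [sq_nonneg α, mul_nonneg (sq_nonneg α) this]
  refine Real.sSup_le ?_ (mul_nonneg hm0 hl.1.le)
  intro h hh
  by_contra hcon
  push Not at hcon
  have h2 := H lam hl.1 hl.2 h hcon.le
  have hh' : 0 < freeEnergy P xi eps Q w lam h := hh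
  unfold freeEnergy at hh'
  rw [h2.limsup_eq] at hh'
  exact lt_irrefl _ hh'

end Pool.Agent.Cop

end
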