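import Mathlib
import Pool.Agent.Work.MP_cceb86_pr.Lst
import Pool.Agent.Work.MP_cceb86_pr.UDefs

/-!
Annealed masses of the merged gaps.
-/

open Finset
open scoped ENNReal NNReal

noncomputable section

namespace Pool.Agent.Cop

/-- hypotheses on the weights of gaps and fills. -/
structure FH (cls Y : ℕ → ℕ) (u κ kt : ℕ → ℝ≥0∞) (θ U2 k2 e0 : ℝ≥0∞) : Prop where
  hθ : 1 ≤ θ
  hκ : ∀ j, κ j ≤ kt j * θ ^ (Y j)
  hU : ∑' i, u i * θ ^ (cls i) ≤ U2
  hk : ∑' j, kt j ≤ k2
  he : U2 * k2 ≤ e0

variable {cls Y : ℕ → ℕ} {u κ kt : ℕ → ℝ≥0∞} {θ U2 k2 e0 : ℝ≥0∞}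

/-- tilted gap weight -/
def ut (cls : ℕ → ℕ) (u : ℕ → ℝ≥0∞) (θ : ℝ≥0∞) (i : ℕ) : ℝ≥0∞ := u i * θ ^ (cls i)

lemma wf_cons (u κ : ℕ → ℝ≥0∞) (p : ℕ × ℕ) (f : List (ℕ × ℕ)) :
    wf u κ (p :: f) = u p.1 * κ p.2 * wf u κ f := by simp [wf]

lemma wf_nil (u κ : ℕ → ℝ≥0∞) : wf u κ [] = 1 := by simp [wf]

lemma sY_cons (p : ℕ × ℕ) (f : List (ℕ × ℕ)) : sY Y (p :: f) = Y p.2 + sY Y f := by simp [sY]

lemma sC_cons (p : ℕ × ℕ) (f : List (ℕ × ℕ)) : sC cls (p :: f) = cls p.1 + sC cls f := by
  simp [sC]

lemma tot_cons (p : ℕ × ℕ) (f : List (ℕ × ℕ)) (i : ℕ) :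
    tot (p :: f) i = p.1 + 1 + p.2 + tot f i := by simp [tot]; omega

lemma zb_cons (p : ℕ × ℕ) (f : List (ℕ × ℕ)) (i : ℕ) :
    zb cls (p :: f) i = max (cls p.1) (zb cls f i) := by simp [zb]

lemma wf_le (h : FH cls Y u κ kt θ U2 k2 e0) (f : List (ℕ × ℕ)) :
    wf u κ f ≤ wf u kt f * θ ^ (sY Y f) := by
  induction f with
  | nil => simp [wf, sY]
  | cons p f ih =>
    rw [wf_cons, wf_cons, sY_cons, pow_add]
    calc u p.1 * κ p.2 * wf u κ f ≤ u p.1 * (kt p.2 * θ ^ Y p.2) * (wf u kt f * θ ^ sY Y f) := by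
          gcongr; exact h.hκ _
      _ = _ := by ring

lemma wf_ut (f : List (ℕ × ℕ)) : wf u kt f * θ ^ (sC cls f) = wf (ut cls u θ) kt f := by
  induction f with
  | nil => simp [wf, sC]
  | cons p f ih =>
    rw [wf_cons, wf_cons, sC_cons, pow_add, ← ih]
    unfold ut
    ring

open Classical in
lemma sum_len (h : FH cls Y u κ kt θ U2 k2 e0) (m : ℕ) :
    ∑' f : List (ℕ × ℕ), (if f.length = m then wf (ut cls u θ) kt f else 0) ≤ e0 ^ m := by
  induction m with
  | zero =>
    rw [tsum_eq_single []]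
    · simp [wf]
    · intro f hf
      rw [if_neg]
      intro h0
      exact hf (List.length_eq_zero_iff.1 h0)
  | succ m ih =>
    rw [tsum_list]
    simp only [List.length_nil, List.length_cons, Nat.add_right_cancel_iff]
    rw [if_neg (by omega), zero_add]
    calc ∑' p : (ℕ × ℕ) × List (ℕ × ℕ),
          (if p.2.length = m then wf (ut cls u θ) kt (p.1 :: p.2) else 0)
        = ∑' p : (ℕ × ℕ) × List (ℕ × ℕ), (ut cls u θ p.1.1 * kt p.1.2) *
            (if p.2.length = m then wf (ut cls u θ) kt p.2 else 0) := by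
          refine tsum_congr fun p => ?_
          split_ifs
          · rw [wf_cons]
          · simp
      _ = ((∑' i, ut cls u θ i) * (∑' j, kt j)) *
            (∑' f : List (ℕ × ℕ), (if f.length = m then wf (ut cls u θ) kt f else 0)) := by
          rw [ENNReal.tsum_prod', ENNReal.tsum_prod']
          simp only [ENNReal.tsum_mul_left, ENNReal.tsum_mul_right]
      _ ≤ (U2 * k2) * e0 ^ m := by
          gcongr
          · exact h.hU
          · exact h.hk
      _ ≤ e0 ^ (m + 1) := by
          rw [pow_succ, mul_comm (e0 ^ m)]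
          gcongr
          exact h.he

lemma sum_all (h : FH cls Y u κ kt θ U2 k2 e0) :
    ∑' f : List (ℕ × ℕ), wf (ut cls u θ) kt f ≤ (1 - e0)⁻¹ := by
  classical
  rw [tsum_group (fun f : List (ℕ × ℕ) => f.length), ← ENNReal.tsum_geometric]
  refine ENNReal.tsum_le_tsum fun m => ?_
  refine (le_of_eq ?_).trans (sum_len h m)
  exact tsum_congr fun f => by by_cases hf : f.length = m <;> simp [hf]

/-- F1 -/
theorem bbl_le (h : FH cls Y u κ kt θ U2 k2 e0) : bbl cls Y u κ ≤ (1 - e0)⁻¹ := by
  classical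
  refine le_trans ?_ (sum_all h)
  unfold bbl
  refine ENNReal.tsum_le_tsum fun f => ?_
  split_ifs with hf
  · calc wf u κ f ≤ wf u kt f * θ ^ (sY Y f) := wf_le h f
      _ ≤ wf u kt f * θ ^ (sC cls f) := by
          gcongr
          · exact h.hθ
          · exact hf
      _ = _ := wf_ut f
  · exact zero_le

lemma sum_u_le (h : FH cls Y u κ kt θ U2 k2 e0) : ∑' i, u i ≤ U2 := by
  refine le_trans (ENNReal.tsum_le_tsum fun i => ?_) h.hU
  calc u i = u i * 1 := (mul_one _).symm
    _ ≤ u i * θ ^ cls i := by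
        gcongr
        exact one_le_pow₀ h.hθ

/-- F2 -/
theorem bb0_sum_le (h : FH cls Y u κ kt θ U2 k2 e0) :
    ∑' I, bb0 cls Y u κ I ≤ U2 + U2 * k2 * ((1 - e0)⁻¹ * U2) := by
  classical
  have h1 : ∑' I, bb0 cls Y u κ I = ∑' p : List (ℕ × ℕ) × ℕ,
      if FOK0 cls Y p.1 p.2 then wf u κ p.1 * u p.2 else 0 := by
    unfold bb0
    rw [ENNReal.tsum_comm]
    refine tsum_congr fun p => ?_
    rw [tsum_eq_single (tot p.1 p.2)]
    · simp
    · intro I hI
      rw [if_neg]
      rintro ⟨h2, _⟩
      exact hI h2.symm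
  rw [h1, ENNReal.tsum_prod', tsum_list]
  refine add_le_add ?_ ?_
  · refine le_trans (ENNReal.tsum_le_tsum fun i => ?_) (sum_u_le h)
    split_ifs
    · simp [wf]
    · exact zero_le
  · calc ∑' (a : (ℕ × ℕ) × List (ℕ × ℕ)) (i : ℕ),
          (if FOK0 cls Y (a.1 :: a.2) i then wf u κ (a.1 :: a.2) * u i else 0)
        ≤ ∑' (a : (ℕ × ℕ) × List (ℕ × ℕ)) (i : ℕ),
          (u a.1.1 * kt a.1.2) * (wf (ut cls u θ) kt a.2 * ut cls u θ i) := by
          refine ENNReal.tsum_le_tsum fun a => ENNReal.tsum_le_tsum fun i => ?_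
          split_ifs with hf
          · have hf' : Y a.1.2 + sY Y a.2 ≤ sC cls a.2 + cls i := hf
            rw [wf_cons]
            calc u a.1.1 * κ a.1.2 * wf u κ a.2 * u i
                ≤ u a.1.1 * (kt a.1.2 * θ ^ (Y a.1.2)) * (wf u kt a.2 * θ ^ (sY Y a.2)) * u i := by
                  gcongr
                  · exact h.hκ _
                  · exact wf_le h _
              _ = u a.1.1 * kt a.1.2 * (wf u kt a.2 * u i) * θ ^ (Y a.1.2 + sY Y a.2) := by
                  rw [pow_add]; ring
              _ ≤ u a.1.1 * kt a.1.2 * (wf u kt a.2 * u i) * θ ^ (sC cls a.2 + cls i) := by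
                  gcongr
                  · exact h.hθ
              _ = _ := by
                  rw [← wf_ut, pow_add]; unfold ut; ring
          · exact zero_le
      _ = ((∑' i, u i) * (∑' j, kt j)) * ((∑' f, wf (ut cls u θ) kt f) *
            (∑' i, ut cls u θ i)) := by
          rw [ENNReal.tsum_prod', ENNReal.tsum_prod']
          simp only [ENNReal.tsum_mul_left, ENNReal.tsum_mul_right]
      _ ≤ _ := by
          gcongr
          · exact sum_u_le h
          · exact h.hk
          · exact sum_all h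
          · exact h.hU

lemma zb_ge_last (f : List (ℕ × ℕ)) (i : ℕ) : cls i ≤ zb cls f i := by
  induction f with
  | nil => simp [zb]
  | cons p f ih => rw [zb_cons]; exact ih.trans (le_max_right _ _)

lemma zb_ge_mem (f : List (ℕ × ℕ)) (i : ℕ) : ∀ p ∈ f, cls p.1 ≤ zb cls f i := by
  induction f with
  | nil => simp
  | cons a f ih =>
    intro p hp
    rw [zb_cons]
    rw [List.mem_cons] at hp
    rcases hp with h | h
    · rw [h]; exact le_max_left _ _
    · exact (ih p h).trans (le_max_right _ _)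

lemma sC_le (f : List (ℕ × ℕ)) (z : ℕ) (h : ∀ p ∈ f, cls p.1 ≤ z) :
    sC cls f ≤ f.length * z := by
  induction f with
  | nil => simp [sC]
  | cons a f ih =>
    rw [sC_cons, List.length_cons]
    have h1 := h a (by simp)
    have h2 := ih fun p hp => h p (by simp [hp])
    rw [Nat.add_mul, one_mul]
    omega

/-- F3, pointwise -/
theorem bb_zero_le (hY : ∀ j, 1 ≤ Y j) (I : ℕ) :
    bb cls Y u κ I 0 ≤ if cls I = 0 then u I else 0 := by
  classical
  unfold bb
  rw [ENNReal.tsum_prod', tsum_list]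
  have h2 : ∑' (a : (ℕ × ℕ) × List (ℕ × ℕ)) (i : ℕ),
      (if tot (a.1 :: a.2) i = I ∧ zb cls (a.1 :: a.2) i = 0 ∧ FOK cls Y (a.1 :: a.2) i
        then wf u κ (a.1 :: a.2) * u i else 0) = 0 := by
    rw [ENNReal.tsum_eq_zero]
    intro a
    rw [ENNReal.tsum_eq_zero]
    intro i
    rw [if_neg]
    rintro ⟨_, hz, hf⟩
    unfold FOK at hf
    have e1 := zb_ge_last (cls := cls) (a.1 :: a.2) i
    have e2 := sC_le (cls := cls) (a.1 :: a.2) 0 fun p hp => by
      have := zb_ge_mem (cls := cls) (a.1 :: a.2) i p hp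
      omega
    have e3 := hY a.1.2
    rw [sY_cons] at hf
    omega
  rw [h2, add_zero, tsum_eq_single I]
  · by_cases hI : cls I = 0
    · simp [tot, zb, FOK, sY, sC, wf, hI]
    · simp [zb, hI]
  · intro i hi
    rw [if_neg]
    rintro ⟨h3, _⟩
    apply hi
    simpa [tot] using h3

/-- sum over the position of the gap of class `z`. -/
def GG4 (cls : ℕ → ℕ) (u kt : ℕ → ℝ≥0∞) (θ : ℝ≥0∞) (z : ℕ) : List (ℕ × ℕ) → ℕ → ℝ≥0∞
  | [], i => if cls i = z then u i else 0
  | p :: f, i => kt p.2 * ((if cls p.1 = z then u p.1 else 0) *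
      (wf (ut cls u θ) kt f * ut cls u θ i) + ut cls u θ p.1 * GG4 cls u kt θ z f i)

lemma GG4_ge (z : ℕ) (f : List (ℕ × ℕ)) (i : ℕ) (hz : cls i = z ∨ ∃ p ∈ f, cls p.1 = z) :
    wf u kt f * u i * θ ^ (sC cls f + cls i - z) ≤ GG4 cls u kt θ z f i := by
  induction f with
  | nil =>
    rcases hz with hz | ⟨p, hp, _⟩
    · simp [wf, sC, GG4, hz]
    · simp at hp
  | cons a f ih =>
    by_cases ha : cls a.1 = z
    · simp only [GG4, if_pos ha]
      have e1 : sC cls (a :: f) + cls i - z = sC cls f + cls i := by rw [sC_cons]; omega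
      rw [e1, wf_cons]
      calc u a.1 * kt a.2 * wf u kt f * u i * θ ^ (sC cls f + cls i)
          = kt a.2 * (u a.1 * (wf (ut cls u θ) kt f * ut cls u θ i)) := by
            rw [← wf_ut, pow_add]; unfold ut; ring
        _ ≤ _ := by
            gcongr
            exact le_self_add
    · have hz' : cls i = z ∨ ∃ p ∈ f, cls p.1 = z := by
        rcases hz with h | ⟨p, hp, h⟩
        · exact Or.inl h
        · rw [List.mem_cons] at hp
          rcases hp with hp | hp
          · rw [hp] at h; exact absurd h ha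
          · exact Or.inr ⟨p, hp, h⟩
      have hle : z ≤ sC cls f + cls i := by
        rcases hz' with h | ⟨p, hp, h⟩
        · omega
        · have : cls p.1 ≤ sC cls f := by
            unfold sC
            exact List.single_le_sum (by simp) _ (List.mem_map.2 ⟨p, hp, rfl⟩)
          omega
      simp only [GG4]
      have e1 : sC cls (a :: f) + cls i - z = cls a.1 + (sC cls f + cls i - z) := by
        rw [sC_cons]; omega
      rw [e1, wf_cons, pow_add]
      calc u a.1 * kt a.2 * wf u kt f * u i * (θ ^ cls a.1 * θ ^ (sC cls f + cls i - z))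
          = kt a.2 * (ut cls u θ a.1 * (wf u kt f * u i * θ ^ (sC cls f + cls i - z))) := by
            unfold ut; ring
        _ ≤ kt a.2 * (ut cls u θ a.1 * GG4 cls u kt θ z f i) := by
            gcongr
            exact ih hz'
        _ ≤ _ := by
            gcongr
            exact le_add_self

lemma zb_mem (f : List (ℕ × ℕ)) (i : ℕ) :
    cls i = zb cls f i ∨ ∃ p ∈ f, cls p.1 = zb cls f i := by
  induction f with
  | nil => left; simp [zb]
  | cons a f ih =>
    rw [zb_cons]
    rcases le_total (cls a.1) (zb cls f i) with h | h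
    · rw [max_eq_right h]
      rcases ih with h1 | ⟨p, hp, h1⟩
      · exact Or.inl h1
      · exact Or.inr ⟨p, by simp [hp], h1⟩
    · rw [max_eq_left h]
      exact Or.inr ⟨a, by simp, rfl⟩

lemma wf_le_GG4 (h : FH cls Y u κ kt θ U2 k2 e0) {f : List (ℕ × ℕ)} {i z : ℕ}
    (hz : zb cls f i = z) (hf : FOK cls Y f i) : wf u κ f * u i ≤ GG4 cls u kt θ z f i := by
  unfold FOK at hf
  rw [hz] at hf
  refine le_trans ?_ (GG4_ge z f i ?_)
  · calc wf u κ f * u i ≤ wf u kt f * θ ^ (sY Y f) * u i := by gcongr; exact wf_le h f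
      _ = wf u kt f * u i * θ ^ (sY Y f) := by ring
      _ ≤ _ := by
          gcongr
          · exact h.hθ
          · omega
  · have := zb_mem (cls := cls) f i
    rwa [hz] at this

open Classical in
lemma GG4_sum (h : FH cls Y u κ kt θ U2 k2 e0) {V : ℝ≥0∞} {z : ℕ}
    (hV : ∀ i, cls i = z → u i ≤ V) (m : ℕ) : ∀ I,
    ∑' p : List (ℕ × ℕ) × ℕ,
      (if p.1.length = m ∧ tot p.1 p.2 = I then GG4 cls u kt θ z p.1 p.2 else 0)
      ≤ (m + 1 : ℕ) * V * e0 ^ m := by
  have hV' : ∀ i, (if cls i = z then u i else 0) ≤ V := by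
    intro i
    split_ifs with hi
    · exact hV i hi
    · exact zero_le
  induction m with
  | zero =>
    intro I
    rw [tsum_eq_single ([], I)]
    · simp only [List.length_nil, true_and, GG4]
      split_ifs
      all_goals first | (simp only [zero_add, Nat.cast_one, one_mul, pow_zero, mul_one]; exact hV _ ‹_›) | exact zero_le
    · rintro ⟨f, i⟩ hne
      rw [if_neg]
      rintro ⟨h1, h2⟩
      have h3 : f = [] := List.length_eq_zero_iff.1 h1
      subst h3
      apply hne
      simp only [tot, List.map_nil, List.sum_nil, zero_add] at h2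
      rw [h2]
  | succ m ih =>
    intro I
    rw [ENNReal.tsum_prod', tsum_list]
    simp only [List.length_nil, List.length_cons, Nat.add_right_cancel_iff]
    have h0 : (∑' i : ℕ, (if 0 = m + 1 ∧ tot [] i = I then GG4 cls u kt θ z [] i else 0)) = 0 := by
      rw [ENNReal.tsum_eq_zero]
      intro i
      rw [if_neg]
      rintro ⟨h1, _⟩
      omega
    rw [h0, zero_add]
    -- split in two
    have hsplit : ∀ (p : (ℕ × ℕ) × List (ℕ × ℕ)) (i : ℕ),
        (if p.2.length = m ∧ tot (p.1 :: p.2) i = I then GG4 cls u kt θ z (p.1 :: p.2) i else 0)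
        = (if p.2.length = m ∧ tot (p.1 :: p.2) i = I then
            kt p.1.2 * ((if cls p.1.1 = z then u p.1.1 else 0) *
              (wf (ut cls u θ) kt p.2 * ut cls u θ i)) else 0)
          + (if p.2.length = m ∧ tot (p.1 :: p.2) i = I then
            kt p.1.2 * (ut cls u θ p.1.1 * GG4 cls u kt θ z p.2 i) else 0) := by
      intro p i
      split_ifs
      · simp only [GG4]; rw [if_pos (by assumption)]; ring
      · simp only [GG4]; rw [if_neg (by assumption)]; ring
      · simp
    simp only [hsplit]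
    simp only [ENNReal.tsum_add]
    have hA : ∑' (p : (ℕ × ℕ) × List (ℕ × ℕ)) (i : ℕ),
        (if p.2.length = m ∧ tot (p.1 :: p.2) i = I then
            kt p.1.2 * ((if cls p.1.1 = z then u p.1.1 else 0) *
              (wf (ut cls u θ) kt p.2 * ut cls u θ i)) else 0) ≤ V * e0 ^ (m + 1) := by
      calc ∑' (p : (ℕ × ℕ) × List (ℕ × ℕ)) (i : ℕ),
          (if p.2.length = m ∧ tot (p.1 :: p.2) i = I then
            kt p.1.2 * ((if cls p.1.1 = z then u p.1.1 else 0) *
              (wf (ut cls u θ) kt p.2 * ut cls u θ i)) else 0)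
          ≤ ∑' (p : (ℕ × ℕ) × List (ℕ × ℕ)) (i : ℕ),
            (kt p.1.2 * ((if p.2.length = m then wf (ut cls u θ) kt p.2 else 0) * ut cls u θ i)) *
              (if p.1.1 + 1 + p.1.2 + tot p.2 i = I then V else 0) := by
            refine ENNReal.tsum_le_tsum fun p => ENNReal.tsum_le_tsum fun i => ?_
            by_cases c1 : p.2.length = m
            · by_cases c2 : tot (p.1 :: p.2) i = I
              · have c3 : p.1.1 + 1 + p.1.2 + tot p.2 i = I := by rw [← tot_cons]; exact c2
                rw [if_pos ⟨c1, c2⟩, if_pos c1, if_pos c3]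
                calc kt p.1.2 * ((if cls p.1.1 = z then u p.1.1 else 0) *
                      (wf (ut cls u θ) kt p.2 * ut cls u θ i))
                    ≤ kt p.1.2 * (V * (wf (ut cls u θ) kt p.2 * ut cls u θ i)) := by
                      gcongr; exact hV' _
                  _ = _ := by ring
              · rw [if_neg (fun h' => c2 h'.2)]; exact zero_le
            · rw [if_neg (fun h' => c1 h'.1)]; exact zero_le
        _ = ∑' (b : ℕ) (f : List (ℕ × ℕ)) (i : ℕ),
            (kt b * ((if f.length = m then wf (ut cls u θ) kt f else 0) * ut cls u θ i)) *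
              ∑' a : ℕ, (if a + 1 + b + tot f i = I then V else 0) := by
            rw [ENNReal.tsum_prod', ENNReal.tsum_prod', ENNReal.tsum_comm]
            refine tsum_congr fun b => ?_
            rw [ENNReal.tsum_comm]
            refine tsum_congr fun f => ?_
            rw [ENNReal.tsum_comm]
            refine tsum_congr fun i => ?_
            rw [← ENNReal.tsum_mul_left]
        _ ≤ ∑' (b : ℕ) (f : List (ℕ × ℕ)) (i : ℕ),
            (kt b * ((if f.length = m then wf (ut cls u θ) kt f else 0) * ut cls u θ i)) * V := by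
            refine ENNReal.tsum_le_tsum fun b => ENNReal.tsum_le_tsum fun f =>
              ENNReal.tsum_le_tsum fun i => ?_
            gcongr
            rw [tsum_eq_single (I - (1 + b + tot f i))]
            · split_ifs
              · exact le_rfl
              · exact zero_le
            · intro a ha
              rw [if_neg (by omega)]
        _ = (∑' b, kt b) * ((∑' f : List (ℕ × ℕ),
              (if f.length = m then wf (ut cls u θ) kt f else 0)) * (∑' i, ut cls u θ i)) * V := by
            simp only [ENNReal.tsum_mul_left, ENNReal.tsum_mul_right]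
        _ ≤ k2 * (e0 ^ m * U2) * V := by
            gcongr
            · exact h.hk
            · exact sum_len h m
            · exact h.hU
        _ = V * (e0 ^ m * (U2 * k2)) := by ring
        _ ≤ V * (e0 ^ m * e0) := by gcongr; exact h.he
        _ = _ := by rw [pow_succ]
    have hB : ∑' (p : (ℕ × ℕ) × List (ℕ × ℕ)) (i : ℕ),
        (if p.2.length = m ∧ tot (p.1 :: p.2) i = I then
            kt p.1.2 * (ut cls u θ p.1.1 * GG4 cls u kt θ z p.2 i) else 0)
          ≤ e0 * ((m + 1 : ℕ) * V * e0 ^ m) := by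
      calc ∑' (p : (ℕ × ℕ) × List (ℕ × ℕ)) (i : ℕ),
        (if p.2.length = m ∧ tot (p.1 :: p.2) i = I then
            kt p.1.2 * (ut cls u θ p.1.1 * GG4 cls u kt θ z p.2 i) else 0)
          ≤ ∑' (a : ℕ) (b : ℕ) (f : List (ℕ × ℕ)) (i : ℕ), (ut cls u θ a * kt b) *
            (if f.length = m ∧ tot f i = I - (a + 1 + b) then GG4 cls u kt θ z f i else 0) := by
            rw [ENNReal.tsum_prod', ENNReal.tsum_prod']
            refine ENNReal.tsum_le_tsum fun a => ENNReal.tsum_le_tsum fun b =>
              ENNReal.tsum_le_tsum fun f => ENNReal.tsum_le_tsum fun i => ?_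
            simp only
            by_cases c1 : f.length = m ∧ tot ((a, b) :: f) i = I
            · rw [if_pos c1]
              obtain ⟨c1, c2⟩ := c1
              rw [tot_cons] at c2
              simp only at c2
              rw [if_pos ⟨c1, by omega⟩]
              exact le_of_eq (by ring)
            · rw [if_neg c1]; exact zero_le
        _ = ∑' (a : ℕ) (b : ℕ), (ut cls u θ a * kt b) * ∑' p : List (ℕ × ℕ) × ℕ,
            (if p.1.length = m ∧ tot p.1 p.2 = I - (a + 1 + b)
              then GG4 cls u kt θ z p.1 p.2 else 0) := by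
            refine tsum_congr fun a => tsum_congr fun b => ?_
            rw [ENNReal.tsum_prod']
            simp only [ENNReal.tsum_mul_left]
        _ ≤ ∑' (a : ℕ) (b : ℕ), (ut cls u θ a * kt b) * ((m + 1 : ℕ) * V * e0 ^ m) := by
            gcongr with a b
            exact ih _
        _ = (∑' a, ut cls u θ a) * (∑' b, kt b) * ((m + 1 : ℕ) * V * e0 ^ m) := by
            simp only [ENNReal.tsum_mul_left, ENNReal.tsum_mul_right]
        _ ≤ U2 * k2 * ((m + 1 : ℕ) * V * e0 ^ m) := by
            gcongr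
            · exact h.hU
            · exact h.hk
        _ ≤ _ := by gcongr; exact h.he
    refine (add_le_add hA hB).trans (le_of_eq ?_)
    push_cast
    ring

lemma tot_le {B z : ℕ} (hB : ∀ i, cls i ≤ z → i + 1 ≤ B) (hY : ∀ j, j + 1 ≤ Y j) (hzB : z ≤ B)
    {f : List (ℕ × ℕ)} {i : ℕ} (hz : zb cls f i = z) (hf : FOK cls Y f i) :
    tot f i ≤ (2 * f.length + 1) * B := by
  unfold FOK at hf
  rw [hz] at hf
  have e0 := zb_ge_last (cls := cls) f i
  have e1 := sC_le (cls := cls) f z fun p hp => by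
    have := zb_ge_mem (cls := cls) f i p hp
    omega
  rw [hz] at e0
  have e2 : ∀ f : List (ℕ × ℕ), (∀ p ∈ f, cls p.1 ≤ z) →
      (f.map (fun p => p.1 + 1 + p.2)).sum ≤ f.length * B + sY Y f := by
    intro f
    induction f with
    | nil => simp
    | cons a f ih =>
      intro hf
      have h1 := hB a.1 (hf a (by simp))
      have h2 := hY a.2
      have h3 := ih fun p hp => hf p (by simp [hp])
      rw [sY_cons]
      simp only [List.map_cons, List.sum_cons, List.length_cons]
      rw [Nat.add_mul, one_mul]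
      omega
  have e3 := e2 f fun p hp => by
    have := zb_ge_mem (cls := cls) f i p hp
    omega
  have e4 := hB i e0
  unfold tot
  have e5 : f.length * z ≤ f.length * B := Nat.mul_le_mul_left _ hzB
  have e6 : (2 * f.length + 1) * B = f.length * B + f.length * B + B := by ring
  rw [e6]
  omega

/-- F4 -/
theorem bb_sum_le (h : FH cls Y u κ kt θ U2 k2 e0) {V : ℝ≥0∞} {z B : ℕ} {γ : ℝ} (hγ : 0 < γ)
    (hγ1 : γ ≤ 1) (hV : ∀ i, cls i = z → u i ≤ V) (hB : ∀ i, cls i ≤ z → i + 1 ≤ B)
    (hY : ∀ j, j + 1 ≤ Y j) (hzB : z ≤ B) (hB1 : 1 ≤ B) :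
    ∑' I, (bb cls Y u κ I z) ^ γ ≤ (∑' i, if cls i = z then (u i) ^ γ else 0)
      + B * V ^ γ * ∑' m : ℕ, ((2 * (m + 1) + 2 : ℕ) : ℝ≥0∞) *
        (((m + 2 : ℕ) : ℝ≥0∞) * e0 ^ (m + 1)) ^ γ := by
  classical
  set x : ℕ → ℕ → ℝ≥0∞ := fun m I => ∑' p : List (ℕ × ℕ) × ℕ,
    (if p.1.length = m ∧ tot p.1 p.2 = I ∧ zb cls p.1 p.2 = z ∧ FOK cls Y p.1 p.2
      then wf u κ p.1 * u p.2 else 0) with hx
  have hbb : ∀ I, bb cls Y u κ I z = ∑' m, x m I := by
    intro I
    unfold bb
    rw [ENNReal.tsum_comm]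
    refine tsum_congr fun p => ?_
    rw [tsum_eq_single p.1.length]
    · simp
    · intro m hm
      rw [if_neg (fun h' => hm h'.1.symm)]
  have hx0 : ∀ I, x 0 I = if cls I = z then u I else 0 := by
    intro I
    simp only [hx]
    rw [tsum_eq_single ([], I)]
    · by_cases hI : cls I = z
      · simp [tot, zb, FOK, sY, sC, wf, hI]
      · simp [zb, hI]
    · rintro ⟨f, i⟩ hne
      rw [if_neg]
      rintro ⟨h1, h2, _⟩
      have h3 : f = [] := List.length_eq_zero_iff.1 h1
      subst h3
      apply hne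
      simp only [tot, List.map_nil, List.sum_nil, zero_add] at h2
      rw [h2]
  have hxm : ∀ m I, x m I ≤ (m + 1 : ℕ) * V * e0 ^ m := by
    intro m I
    refine le_trans ?_ (GG4_sum h hV m I)
    refine ENNReal.tsum_le_tsum fun p => ?_
    by_cases c : p.1.length = m ∧ tot p.1 p.2 = I ∧ zb cls p.1 p.2 = z ∧ FOK cls Y p.1 p.2
    · rw [if_pos c, if_pos ⟨c.1, c.2.1⟩]
      exact wf_le_GG4 h c.2.2.1 c.2.2.2
    · rw [if_neg c]; exact zero_le
  have hxz : ∀ m I, (2 * m + 1) * B < I → x m I = 0 := by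
    intro m I hI
    simp only [hx]
    rw [ENNReal.tsum_eq_zero]
    intro p
    rw [if_neg]
    rintro ⟨c1, c2, c3, c4⟩
    have := tot_le hB hY hzB c3 c4
    rw [c1] at this
    omega
  calc ∑' I, (bb cls Y u κ I z) ^ γ ≤ ∑' I, ∑' m, (x m I) ^ γ := by
        refine ENNReal.tsum_le_tsum fun I => ?_
        rw [hbb]
        exact rpow_tsum_le _ hγ hγ1
    _ = ∑' m, ∑' I, (x m I) ^ γ := ENNReal.tsum_comm
    _ = ∑' I, (x 0 I) ^ γ + ∑' m, ∑' I, (x (m + 1) I) ^ γ := by
        rw [tsum_eq_zero_add' ENNReal.summable]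
    _ ≤ _ := by
        refine add_le_add ?_ ?_
        · refine ENNReal.tsum_le_tsum fun I => ?_
          rw [hx0]
          split_ifs
          · exact le_rfl
          · rw [ENNReal.zero_rpow_of_pos hγ]
        · rw [← ENNReal.tsum_mul_left]
          refine ENNReal.tsum_le_tsum fun m => ?_
          calc ∑' I, (x (m + 1) I) ^ γ
              = ∑ I ∈ range ((2 * (m + 1) + 1) * B + 1), (x (m + 1) I) ^ γ := by
                rw [tsum_eq_sum]
                intro I hI
                rw [mem_range, not_lt] at hI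
                rw [hxz (m + 1) I (by omega), ENNReal.zero_rpow_of_pos hγ]
            _ ≤ ∑ I ∈ range ((2 * (m + 1) + 1) * B + 1),
                  ((m + 1 + 1 : ℕ) * V * e0 ^ (m + 1)) ^ γ := by
                gcongr with I _
                exact hxm (m + 1) I
            _ = (((2 * (m + 1) + 1) * B + 1 : ℕ) : ℝ≥0∞) *
                  ((m + 1 + 1 : ℕ) * V * e0 ^ (m + 1)) ^ γ := by
                rw [sum_const, card_range, nsmul_eq_mul]
            _ ≤ (((2 * (m + 1) + 2) * B : ℕ) : ℝ≥0∞) *
                  ((m + 1 + 1 : ℕ) * V * e0 ^ (m + 1)) ^ γ := by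
                gcongr
                nlinarith
            _ = _ := by
                have e1 : (((m + 1 + 1 : ℕ) : ℝ≥0∞) * V * e0 ^ (m + 1))
                    = V * (((m + 2 : ℕ) : ℝ≥0∞) * e0 ^ (m + 1)) := by ring
                rw [e1, ENNReal.mul_rpow_of_nonneg _ _ hγ.le]
                push_cast
                ring

end Pool.Agent.Cop

end
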