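import Mathlib
import Pool.Agent.Work.MP_cceb86_pr.Micro

/-!
Marked configurations and their skeletons: the deterministic part.
-/

open Finset MeasureTheory ProbabilityTheory
open scoped ENNReal NNReal

noncomputable section

namespace Pool.Agent.Cop

/-- marked configurations -/
abbrev Mkd := List (ℕ × ℕ) × (ℕ × ℕ) × List (List (ℕ × ℕ) × (ℕ × ℕ)) × List (ℕ × ℕ)

/-- the underlying configuration -/
def flM (m : Mkd) : List (ℕ × ℕ) := m.1 ++ [m.2.1] ++ flat m.2.2.1 ++ m.2.2.2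

/-- the constraints satisfied by the optimal marking -/
def OKM (cls Y : ℕ → ℕ) (m : Mkd) : Prop :=
  FOK0 cls Y m.1 m.2.1.1 ∧ (∀ p ∈ m.2.2.1, FOK cls Y p.1 p.2.1) ∧ LOK cls Y m.2.2.2 ∧
    IS Y ((0, m.2.1.2) :: skel cls m.2.2.1)

/-- unmarked elements -/
def fl0 (f : List (ℕ × ℕ)) : List (ℕ × ℕ × Bool) := f.map (fun p => (p.1, p.2, false))

/-- marked list as a list with flags -/
def fls : List (List (ℕ × ℕ) × (ℕ × ℕ)) → List (ℕ × ℕ × Bool)
  | [] => []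
  | p :: μ => fl0 p.1 ++ ((p.2.1, p.2.2, true) :: fls μ)

/-- the flagged configuration -/
def flg (m : Mkd) : List (ℕ × ℕ × Bool) :=
  fl0 m.1 ++ ((m.2.1.1, m.2.1.2, true) :: (fls m.2.2.1 ++ fl0 m.2.2.2))

lemma fg_append (a b : List (ℕ × ℕ × Bool)) : fg (a ++ b) = fg a ++ fg b := by simp [fg]

lemma fg_fl0 (f : List (ℕ × ℕ)) : fg (fl0 f) = f := by
  simp [fg, fl0, Function.comp_def]

lemma fg_fls (μ : List (List (ℕ × ℕ) × (ℕ × ℕ))) : fg (fls μ) = flat μ := by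
  induction μ with
  | nil => simp [fg, fls, flat]
  | cons p μ ih =>
    have h : fg ((p.2.1, p.2.2, true) :: fls μ) = p.2 :: fg (fls μ) := rfl
    rw [fls, fg_append, fg_fl0, h, ih]
    simp [flat]

lemma fg_flg (m : Mkd) : fg (flg m) = flM m := by
  have h : fg ((m.2.1.1, m.2.1.2, true) :: (fls m.2.2.1 ++ fl0 m.2.2.2))
      = m.2.1 :: fg (fls m.2.2.1 ++ fl0 m.2.2.2) := rfl
  rw [flg, fg_append, fg_fl0, h, fg_append, fg_fls, fg_fl0, flM]
  simp

/-- skeleton with the total lengths of the merged gaps. -/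
def skI (cls : ℕ → ℕ) (p : List (ℕ × ℕ) × (ℕ × ℕ)) : ℕ × ℕ × ℕ :=
  (tot p.1 p.2.1, zb cls p.1 p.2.1, p.2.2)

/-- skeleton of a marked configuration -/
def skM (cls : ℕ → ℕ) (m : Mkd) : ℕ × ℕ × List (ℕ × ℕ × ℕ) :=
  (tot m.1 m.2.1.1, m.2.1.2, m.2.2.1.map (skI cls))

/-- interior of the marked downs, in terms of the skeleton -/
def IgS (L : ℕ) : List (ℕ × ℕ × ℕ) → ℕ → Finset ℕ
  | [], _ => ∅
  | p :: l, b => Ioc ((b + p.1 + 1) * L) ((b + p.1 + 1 + p.2.2) * L)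
      ∪ IgS L l (b + p.1 + 1 + p.2.2)

lemma Ig_fl0 (L : ℕ) (f : List (ℕ × ℕ)) : ∀ b, Ig L (fl0 f) b = ∅ := by
  induction f with
  | nil => intro b; rfl
  | cons p f ih =>
    intro b
    have h : fl0 (p :: f) = (p.1, p.2, false) :: fl0 f := rfl
    rw [h, Ig]
    simp [ih]

lemma Ig_seg (L : ℕ) (f : List (ℕ × ℕ)) (i j : ℕ) (c : List (ℕ × ℕ × Bool)) : ∀ b,
    Ig L (fl0 f ++ ((i, j, true) :: c)) b
      = Ioc ((b + tot f i + 1) * L) ((b + tot f i + 1 + j) * L) ∪ Ig L c (b + tot f i + 1 + j) := by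
  induction f with
  | nil =>
    intro b
    have h : fl0 [] ++ ((i, j, true) :: c) = (i, j, true) :: c := rfl
    rw [h, Ig]
    simp [tot]
  | cons p f ih =>
    intro b
    have h : fl0 (p :: f) ++ ((i, j, true) :: c)
        = (p.1, p.2, false) :: (fl0 f ++ ((i, j, true) :: c)) := rfl
    rw [h, Ig]
    simp only [Bool.false_eq_true, if_false, empty_union]
    rw [ih]
    have h1 : b + p.1 + 1 + p.2 + tot f i = b + tot (p :: f) i := by
      simp [tot]; omega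
    rw [h1]

lemma Ig_fls (L : ℕ) (cls : ℕ → ℕ) (μ : List (List (ℕ × ℕ) × (ℕ × ℕ))) (f : List (ℕ × ℕ)) : ∀ b,
    Ig L (fls μ ++ fl0 f) b = IgS L (μ.map (skI cls)) b := by
  induction μ with
  | nil => intro b; simp [fls, IgS, Ig_fl0]
  | cons p μ ih =>
    intro b
    have h : fls (p :: μ) ++ fl0 f = fl0 p.1 ++ ((p.2.1, p.2.2, true) :: (fls μ ++ fl0 f)) := by
      simp [fls]
    rw [h, Ig_seg, ih]
    rfl

lemma Ig_flg (L : ℕ) (cls : ℕ → ℕ) (m : Mkd) :
    Ig L (flg m) 0 = IgS L (((skM cls m).1, 0, (skM cls m).2.1) :: (skM cls m).2.2) 0 := by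
  rw [flg, Ig_seg, Ig_fls L cls]
  rfl

lemma tl_append (a b : List (ℕ × ℕ × Bool)) : tl (a ++ b) = tl a + tl b := by simp [tl]

lemma tl_fl0 (f : List (ℕ × ℕ)) (i : ℕ) : tl (fl0 f) + i = tot f i := by
  simp [tl, fl0, tot, Function.comp_def]

lemma tl_flg (m : Mkd) : tot m.1 m.2.1.1 ≤ tl (flg m) := by
  rw [flg, tl_append, ← tl_fl0]
  have : tl ((m.2.1.1, m.2.1.2, true) :: (fls m.2.2.1 ++ fl0 m.2.2.2))
      = m.2.1.1 + 1 + m.2.1.2 + tl (fls m.2.2.1 ++ fl0 m.2.2.2) := by simp [tl]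
  rw [this]
  omega

lemma mk_append (a b : List (ℕ × ℕ × Bool)) : mk (a ++ b) = mk a + mk b := by simp [mk]

lemma mk_fl0 (f : List (ℕ × ℕ)) : mk (fl0 f) = 0 := by
  simp [mk, fl0, Function.comp_def]

lemma mk_fls (cls : ℕ → ℕ) (μ : List (List (ℕ × ℕ) × (ℕ × ℕ))) :
    mk (fls μ) = ((μ.map (skI cls)).map (fun p => p.2.2)).sum := by
  induction μ with
  | nil => simp [fls, mk]
  | cons p μ ih =>
    have h : mk ((p.2.1, p.2.2, true) :: fls μ) = p.2.2 + mk (fls μ) := by simp [mk]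
    rw [fls, mk_append, mk_fl0, h, ih]
    simp [skI]

lemma mk_flg (cls : ℕ → ℕ) (m : Mkd) :
    mk (flg m) = (skM cls m).2.1 + ((skM cls m).2.2.map (fun p => p.2.2)).sum := by
  have h : mk ((m.2.1.1, m.2.1.2, true) :: (fls m.2.2.1 ++ fl0 m.2.2.2))
      = m.2.1.2 + mk (fls m.2.2.1 ++ fl0 m.2.2.2) := by simp [mk]
  rw [flg, mk_append, mk_fl0, h, mk_append, mk_fl0, mk_fls cls]
  simp [skM]

variable {u κ κ' : ℕ → ℝ≥0∞}

lemma wtc_append (a b : List (ℕ × ℕ × Bool)) :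
    wtc u κ κ' (a ++ b) = wtc u κ κ' a * wtc u κ κ' b := by simp [wtc]

lemma wtc_fl0 (f : List (ℕ × ℕ)) : wtc u κ κ' (fl0 f) = wf u κ' f := by
  simp [wtc, fl0, wf, Function.comp_def]

lemma wtc_fls (μ : List (List (ℕ × ℕ) × (ℕ × ℕ))) :
    wtc u κ κ' (fls μ) = (μ.map (fun p => wf u κ' p.1 * u p.2.1 * κ p.2.2)).prod := by
  induction μ with
  | nil => simp [fls, wtc]
  | cons p μ ih =>
    have h : wtc u κ κ' ((p.2.1, p.2.2, true) :: fls μ)
        = u p.2.1 * κ p.2.2 * wtc u κ κ' (fls μ) := by simp [wtc]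
    rw [fls, wtc_append, wtc_fl0, h, ih]
    simp only [List.map_cons, List.prod_cons]
    ring

lemma wtc_flg (m : Mkd) : wtc u κ κ' (flg m)
    = (wf u κ' m.1 * u m.2.1.1) * κ m.2.1.2 *
      (m.2.2.1.map (fun p => wf u κ' p.1 * u p.2.1 * κ p.2.2)).prod * wf u κ' m.2.2.2 := by
  have h : wtc u κ κ' ((m.2.1.1, m.2.1.2, true) :: (fls m.2.2.1 ++ fl0 m.2.2.2))
      = u m.2.1.1 * κ m.2.1.2 * wtc u κ κ' (fls m.2.2.1 ++ fl0 m.2.2.2) := by simp [wtc]
  rw [flg, wtc_append, wtc_fl0, h, wtc_append, wtc_fl0, wtc_fls]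
  ring

/-- classes and downs of the skeleton -/
def zj (p : ℕ × ℕ × ℕ) : ℕ × ℕ := (p.2.1, p.2.2)

lemma skel_eq (cls : ℕ → ℕ) (μ : List (List (ℕ × ℕ) × (ℕ × ℕ))) :
    skel cls μ = (μ.map (skI cls)).map zj := by
  simp [skel, skI, zj, Function.comp_def]

open Classical in
/-- the annealed mass of all marked configurations with a given skeleton -/
lemma mass_sk (cls Y : ℕ → ℕ) (sk : ℕ × ℕ × List (ℕ × ℕ × ℕ)) :
    ∑' m : Mkd, (if skM cls m = sk ∧ OKM cls Y m then wtc u κ κ' (flg m) else 0)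
      ≤ (bb0 cls Y u κ' sk.1 * κ sk.2.1 *
          (sk.2.2.map (fun p => bb cls Y u κ' p.1 p.2.1 * κ p.2.2)).prod * bbl cls Y u κ') *
        (if IS Y ((0, sk.2.1) :: sk.2.2.map zj) then 1 else 0) := by
  obtain ⟨I0, j0, l⟩ := sk
  by_cases hIS : IS Y ((0, j0) :: l.map zj)
  swap
  · rw [if_neg hIS, mul_zero]
    refine le_of_eq ?_
    rw [ENNReal.tsum_eq_zero]
    intro m
    rw [if_neg]
    rintro ⟨h1, h2⟩
    simp only [skM, Prod.mk.injEq] at h1
    apply hIS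
    have := h2.2.2.2
    rw [skel_eq, h1.2.2, h1.2.1] at this
    exact this
  rw [if_pos hIS, mul_one]
  simp only
  -- bound each term by a product of indicator terms
  set F0 : List (ℕ × ℕ) × ℕ → ℝ≥0∞ := fun p =>
    if tot p.1 p.2 = I0 ∧ FOK0 cls Y p.1 p.2 then wf u κ' p.1 * u p.2 else 0 with hF0
  set Fj : ℕ → ℝ≥0∞ := fun j => if j = j0 then κ j else 0 with hFj
  set F : List (ℕ × ℕ) × (ℕ × ℕ) → ℝ≥0∞ := fun p =>
    if FOK cls Y p.1 p.2.1 then wf u κ' p.1 * u p.2.1 * κ p.2.2 else 0 with hF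
  set Fl : List (ℕ × ℕ) → ℝ≥0∞ := fun f => if LOK cls Y f then wf u κ' f else 0 with hFl
  have hterm : ∀ m : Mkd, (if skM cls m = (I0, j0, l) ∧ OKM cls Y m then wtc u κ κ' (flg m) else 0)
      ≤ F0 (m.1, m.2.1.1) * Fj m.2.1.2 *
        (if m.2.2.1.map (skI cls) = l then (m.2.2.1.map F).prod else 0) * Fl m.2.2.2 := by
    intro m
    split_ifs with h h2
    · obtain ⟨h1, h3⟩ := h
      simp only [skM, Prod.mk.injEq] at h1
      have e1 : F0 (m.1, m.2.1.1) = wf u κ' m.1 * u m.2.1.1 := by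
        simp only [hF0]; rw [if_pos ⟨h1.1, h3.1⟩]
      have e2 : Fj m.2.1.2 = κ m.2.1.2 := by simp only [hFj]; rw [if_pos h1.2.1]
      have e3 : (m.2.2.1.map F) = m.2.2.1.map (fun p => wf u κ' p.1 * u p.2.1 * κ p.2.2) := by
        refine List.map_congr_left fun p hp => ?_
        simp only [hF]; rw [if_pos (h3.2.1 p hp)]
      have e4 : Fl m.2.2.2 = wf u κ' m.2.2.2 := by simp only [hFl]; rw [if_pos h3.2.2.1]
      rw [wtc_flg, e1, e2, e3, e4]
    · exfalso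
      simp only [skM, Prod.mk.injEq] at h
      exact h2 h.1.2.2
    · exact zero_le
    · exact zero_le
  refine (ENNReal.tsum_le_tsum hterm).trans ?_
  -- now the sum factorizes
  have hfac : ∑' m : Mkd, F0 (m.1, m.2.1.1) * Fj m.2.1.2 *
        (if m.2.2.1.map (skI cls) = l then (m.2.2.1.map F).prod else 0) * Fl m.2.2.2
      = (∑' p, F0 p) * (∑' j, Fj j) *
        (∑' μ : List (List (ℕ × ℕ) × (ℕ × ℕ)), if μ.map (skI cls) = l then (μ.map F).prod else 0) *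
        (∑' f, Fl f) := by
    rw [ENNReal.tsum_prod']
    simp only [ENNReal.tsum_prod', ENNReal.tsum_mul_left, ENNReal.tsum_mul_right]
  rw [hfac]
  have h1 : ∑' p, F0 p = bb0 cls Y u κ' I0 := rfl
  have h2 : ∑' j, Fj j = κ j0 := by
    rw [tsum_eq_single j0]
    · simp [hFj]
    · intro j hj; simp [hFj, hj]
  have h4 : ∑' f, Fl f = bbl cls Y u κ' := rfl
  rw [h1, h2, h4]
  gcongr
  refine (le_of_eq ?_).trans (tsum_list_fiber (skI cls) F
    (fun p => bb cls Y u κ' p.1 p.2.1 * κ p.2.2) ?_ l)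
  · exact tsum_congr fun μ => by congr
  · rintro ⟨I, z, j⟩
    simp only
    have e1 : ∀ a : List (ℕ × ℕ) × (ℕ × ℕ), (if skI cls a = (I, z, j) then F a else 0)
        = (fun p : List (ℕ × ℕ) × ℕ => if tot p.1 p.2 = I ∧ zb cls p.1 p.2 = z ∧ FOK cls Y p.1 p.2
            then wf u κ' p.1 * u p.2 else 0) (a.1, a.2.1) * (if a.2.2 = j then κ a.2.2 else 0) := by
      intro a
      simp only [skI, Prod.mk.injEq, hF]
      by_cases c1 : tot a.1 a.2.1 = I
      · by_cases c2 : zb cls a.1 a.2.1 = z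
        · by_cases c3 : a.2.2 = j
          · by_cases c4 : FOK cls Y a.1 a.2.1
            · simp [c1, c2, c3, c4]
            · simp [c4]
          · simp [c3]
        · simp [c2]
      · simp [c1]
    have e2 : (∑' a : List (ℕ × ℕ) × (ℕ × ℕ), (if skI cls a = (I, z, j) then F a else 0))
        = (∑' p : List (ℕ × ℕ) × ℕ, (if tot p.1 p.2 = I ∧ zb cls p.1 p.2 = z ∧ FOK cls Y p.1 p.2
            then wf u κ' p.1 * u p.2 else 0)) * (∑' j' : ℕ, if j' = j then κ j' else 0) := by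
      simp only [e1]
      rw [ENNReal.tsum_prod', ENNReal.tsum_prod' (f := fun p : List (ℕ × ℕ) × ℕ => _)]
      simp only [ENNReal.tsum_prod', ENNReal.tsum_mul_left, ENNReal.tsum_mul_right]
    have e3 : (∑' j' : ℕ, if j' = j then κ j' else 0) = κ j := by
      rw [tsum_eq_single j]
      · simp
      · intro j' hj; simp [hj]
    refine le_of_eq ?_
    rw [e3] at e2
    refine Eq.trans ?_ (e2.trans ?_)
    · exact tsum_congr fun a => by congr
    · rfl

end Pool.Agent.Cop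

end
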