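import Mathlib
import Pool.Agent.Work.MP_cceb86_pr.Skel

/-!
The fractional moment of the partition function as a sum over skeletons.
-/

open Finset MeasureTheory ProbabilityTheory
open scoped ENNReal NNReal

noncomputable section

namespace Pool.Agent.Cop

variable {Ω : Type*} [MeasurableSpace Ω] {P : Measure Ω} {e : ℕ → Ω → ℝ≥0∞} {γ : ℝ}
  {q r : ℝ≥0∞} {u κ κ' : ℕ → ℝ≥0∞} {H : ℝ≥0∞} {K : ℕ → ℝ≥0∞} {L N : ℕ} {cls Y : ℕ → ℕ}

/-- the existence of the optimal marking. -/
def HasMark (cls Y : ℕ → ℕ) : Prop := ∀ c : List (ℕ × ℕ), c ≠ [] → ∃ m : Mkd, flM m = c ∧ OKM cls Y m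

open Classical in
/-- contribution of a skeleton -/
def Xsk (K : ℕ → ℝ≥0∞) (L N : ℕ) (cls Y : ℕ → ℕ) (sk : ℕ × ℕ × List (ℕ × ℕ × ℕ)) (e : Env) :
    ℝ≥0∞ :=
  ∑' m : Mkd, if skM cls m = sk ∧ OKM cls Y m then Zc K L N e (flM m) 0 else 0

/-- interior sites of a skeleton -/
def IgM (L : ℕ) (sk : ℕ × ℕ × List (ℕ × ℕ × ℕ)) : Finset ℕ :=
  IgS L ((sk.1, 0, sk.2.1) :: sk.2.2) 0

open Classical in
/-- contribution of a skeleton, the environment in the interior being removed -/
def Rsk (K : ℕ → ℝ≥0∞) (L N : ℕ) (cls Y : ℕ → ℕ) (sk : ℕ × ℕ × List (ℕ × ℕ × ℕ)) (e : Env) :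
    ℝ≥0∞ :=
  ∑' m : Mkd, if skM cls m = sk ∧ OKM cls Y m then Rc K L N e (flg m) 0 else 0

lemma Ig_flg' (cls : ℕ → ℕ) {m : Mkd} {sk : ℕ × ℕ × List (ℕ × ℕ × ℕ)} (h : skM cls m = sk) :
    Ig L (flg m) 0 = IgM L sk := by
  rw [Ig_flg L cls, h]
  rfl

lemma Xsk_eq (hL : 0 < L) (sk : ℕ × ℕ × List (ℕ × ℕ × ℕ)) (e : Env) :
    Xsk K L N cls Y sk e = (∏ w ∈ IgM L sk, e w) * Rsk K L N cls Y sk e := by
  classical
  unfold Xsk Rsk
  rw [← ENNReal.tsum_mul_left]
  refine tsum_congr fun m => ?_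
  split_ifs with h
  · rw [← fg_flg, Zc_eq hL, Nat.zero_div, Ig_flg' cls h.1]
  · simp

lemma MA_Rsk (hL : 0 < L) (sk : ℕ × ℕ × List (ℕ × ℕ × ℕ)) :
    MA (Ioc 0 N \ IgM L sk) (Rsk K L N cls Y sk) := by
  classical
  unfold Rsk
  refine MA.tsum fun m => ?_
  by_cases h : skM cls m = sk ∧ OKM cls Y m
  · simp only [if_pos h]
    have := MA_Rc (K := K) (N := N) hL (flg m) 0
    rwa [Nat.zero_div, Ig_flg' cls h.1] at this
  · simp only [if_neg h]
    exact MA.zero _

/-- if some interior site is beyond `N`, the contribution vanishes. -/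
lemma Xsk_zero {sk : ℕ × ℕ × List (ℕ × ℕ × ℕ)} (hL : 0 < L)
    (h : (∃ w ∈ IgM L sk, N < w) ∨ N < sk.1) (e : Env) : Xsk K L N cls Y sk e = 0 := by
  classical
  rw [Xsk_eq hL]
  unfold Rsk
  have : ∀ m : Mkd, (if skM cls m = sk ∧ OKM cls Y m then Rc K L N e (flg m) 0 else 0) = 0 := by
    intro m
    split_ifs with hm
    · refine Rc_zero e _ 0 ?_
      rw [Nat.zero_div, zero_add]
      rcases h with ⟨w, hw, hw2⟩ | h
      · rw [← Ig_flg' cls hm.1] at hw
        have := Ig_le _ _ _ hw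
        rw [zero_add] at this
        omega
      · have h1 := tl_flg m
        have h2 : sk.1 = tot m.1 m.2.1.1 := by rw [← hm.1]; rfl
        rw [← h2] at h1
        calc N < sk.1 := h
          _ ≤ tl (flg m) := h1
          _ ≤ tl (flg m) * L := Nat.le_mul_of_pos_right _ hL
    · rfl
  simp [this]

lemma IgM_pos {sk : ℕ × ℕ × List (ℕ × ℕ × ℕ)} (cls : ℕ → ℕ) {w : ℕ} {m : Mkd}
    (hm : skM cls m = sk) (hw : w ∈ IgM L sk) : 0 < w := by
  rw [← Ig_flg' cls hm] at hw
  have := Ig_gt _ _ _ hw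
  omega

lemma IgS_gt (l : List (ℕ × ℕ × ℕ)) : ∀ b w, w ∈ IgS L l b → (b + 1) * L < w := by
  induction l with
  | nil => intro b w hw; simp [IgS] at hw
  | cons p c ih =>
    intro b w hw
    simp only [IgS, mem_union] at hw
    rcases hw with hw | hw
    · rw [mem_Ioc] at hw
      refine lt_of_le_of_lt ?_ hw.1
      exact Nat.mul_le_mul_right _ (by omega)
    · have := ih _ _ hw
      refine lt_of_le_of_lt ?_ this
      exact Nat.mul_le_mul_right _ (by omega)

lemma IgS_card (l : List (ℕ × ℕ × ℕ)) : ∀ b,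
    (IgS L l b).card = (l.map (fun p => p.2.2)).sum * L := by
  induction l with
  | nil => intro b; simp [IgS]
  | cons p c ih =>
    intro b
    simp only [IgS]
    rw [card_union_of_disjoint, ih]
    · have e2 : (Ioc ((b + p.1 + 1) * L) ((b + p.1 + 1 + p.2.2) * L)).card = p.2.2 * L := by
        rw [Nat.card_Ioc, ← Nat.sub_mul]
        congr 1
        omega
      rw [e2, List.map_cons, List.sum_cons, Nat.add_mul]
    · rw [disjoint_left]
      intro w hw hw'
      have h1 := IgS_gt c _ _ hw'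
      rw [mem_Ioc] at hw
      have : (b + p.1 + 1 + p.2.2) * L ≤ (b + p.1 + 1 + p.2.2 + 1) * L :=
        Nat.mul_le_mul_right _ (by omega)
      omega

/-- bound for the contribution of a skeleton -/
def Bsk (cls Y : ℕ → ℕ) (L : ℕ) (γ : ℝ) (r : ℝ≥0∞) (u κ κ' : ℕ → ℝ≥0∞) (H : ℝ≥0∞)
    (sk : ℕ × ℕ × List (ℕ × ℕ × ℕ)) : ℝ≥0∞ :=
  open Classical in
  if IS Y ((0, sk.2.1) :: sk.2.2.map zj) then
    (bb0 cls Y u κ' sk.1) ^ γ * ((bbl cls Y u κ' * H) ^ γ *
      (((κ sk.2.1) ^ γ * r ^ (sk.2.1 * L)) * (sk.2.2.map (fun p =>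
        (bb cls Y u κ' p.1 p.2.1) ^ γ * ((κ p.2.2) ^ γ * r ^ (p.2.2 * L)))).prod))
  else 0

lemma prod_rpow_pow (l : List (ℕ × ℕ × ℕ)) (hγ : 0 ≤ γ) :
    r ^ ((l.map (fun p => p.2.2)).sum * L) *
      ((l.map (fun p => bb cls Y u κ' p.1 p.2.1 * κ p.2.2)).prod) ^ γ
      = (l.map (fun p =>
        (bb cls Y u κ' p.1 p.2.1) ^ γ * ((κ p.2.2) ^ γ * r ^ (p.2.2 * L)))).prod := by
  induction l with
  | nil => simp
  | cons p l ih =>
    simp only [List.map_cons, List.sum_cons, List.prod_cons]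
    rw [← ih, Nat.add_mul, pow_add, ENNReal.mul_rpow_of_nonneg _ _ hγ,
      ENNReal.mul_rpow_of_nonneg _ _ hγ]
    ring

lemma sk_moment (hL : 0 < L) (hW : Weights P e γ q r) (hγ : 0 < γ) (hγ1 : γ ≤ 1)
    (hB : DB K L N q u κ κ' H) (I : Finset ℕ) (hI : Disjoint I (Ioc 0 N))
    (sk : ℕ × ℕ × List (ℕ × ℕ × ℕ)) :
    ∫⁻ ω, ((∏ j ∈ I, e j ω) * Xsk K L N cls Y sk (fun j => e j ω)) ^ γ ∂P
      ≤ r ^ I.card * (if sk.1 ≤ N then Bsk cls Y L γ r u κ κ' H sk else 0) := by
  classical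
  by_cases hz : (∃ w ∈ IgM L sk, N < w) ∨ N < sk.1
  · have : ∀ ω, ((∏ j ∈ I, e j ω) * Xsk K L N cls Y sk (fun j => e j ω)) ^ γ = 0 := by
      intro ω
      rw [Xsk_zero hL hz, mul_zero, ENNReal.zero_rpow_of_pos hγ]
    simp [this]
  push Not at hz
  obtain ⟨hz1, hz2⟩ := hz
  rw [if_pos hz2]
  have hIM : Disjoint I (IgM L sk) := by
    refine disjoint_of_subset_right ?_ hI
    intro w hw
    rw [mem_Ioc]
    refine ⟨?_, hz1 w hw⟩
    have := IgS_gt _ _ _ hw
    omega
  have hd : Disjoint (I ∪ IgM L sk) (Ioc 0 N \ IgM L sk) := by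
    rw [disjoint_union_left]
    exact ⟨disjoint_of_subset_right sdiff_subset hI, disjoint_sdiff⟩
  have h1 : ∀ ω, (∏ j ∈ I, e j ω) * Xsk K L N cls Y sk (fun j => e j ω)
      = (∏ j ∈ I ∪ IgM L sk, e j ω) * Rsk K L N cls Y sk (fun j => e j ω) := by
    intro ω
    rw [Xsk_eq hL, prod_union hIM]
    ring
  simp_rw [h1]
  refine (frac_moment hW hγ.le hγ1 (MA_Rsk hL sk) hd).trans ?_
  rw [card_union_of_disjoint hIM, pow_add, mul_assoc]
  gcongr
  have hcard : (IgM L sk).card = (sk.2.1 + (sk.2.2.map (fun p => p.2.2)).sum) * L := by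
    unfold IgM
    rw [IgS_card]
    simp
  -- the annealed mass
  have hmass : Rsk K L N cls Y sk (fun _ => q)
      ≤ (bb0 cls Y u κ' sk.1 * κ sk.2.1 *
          (sk.2.2.map (fun p => bb cls Y u κ' p.1 p.2.1 * κ p.2.2)).prod * bbl cls Y u κ') *
        (if IS Y ((0, sk.2.1) :: sk.2.2.map zj) then 1 else 0) * H := by
    unfold Rsk
    calc ∑' m : Mkd, (if skM cls m = sk ∧ OKM cls Y m then Rc K L N (fun _ => q) (flg m) 0 else 0)
        ≤ ∑' m : Mkd, (if skM cls m = sk ∧ OKM cls Y m then wtc u κ κ' (flg m) else 0) * H := by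
          refine ENNReal.tsum_le_tsum fun m => ?_
          split_ifs with h
          · exact Rc_bound hB _ 0
          · simp
      _ = (∑' m : Mkd, (if skM cls m = sk ∧ OKM cls Y m then wtc u κ κ' (flg m) else 0)) * H :=
          ENNReal.tsum_mul_right
      _ ≤ _ := by
          gcongr
          exact mass_sk cls Y sk
  unfold Bsk
  by_cases hIS : IS Y ((0, sk.2.1) :: sk.2.2.map zj)
  · rw [if_pos hIS]
    rw [if_pos hIS, mul_one] at hmass
    calc r ^ (IgM L sk).card * (Rsk K L N cls Y sk (fun _ => q)) ^ γ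
        ≤ r ^ (IgM L sk).card * ((bb0 cls Y u κ' sk.1 * κ sk.2.1 *
          (sk.2.2.map (fun p => bb cls Y u κ' p.1 p.2.1 * κ p.2.2)).prod * bbl cls Y u κ') * H)
            ^ γ := by gcongr
      _ = _ := by
          rw [hcard, Nat.add_mul, pow_add, ← prod_rpow_pow (L := L) (r := r) sk.2.2 hγ.le]
          simp only [ENNReal.mul_rpow_of_nonneg _ _ hγ.le]
          ring
  · rw [if_neg hIS, mul_zero, zero_mul] at hmass
    rw [le_zero_iff.1 hmass, ENNReal.zero_rpow_of_pos hγ, mul_zero]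
    exact zero_le

/-- the deterministic sum over skeletons -/
lemma sum_Bsk {w g : ℕ → ℝ≥0∞} (hw : ∀ j, (κ j) ^ γ * r ^ (j * L) ≤ w j)
    (hg : ∀ z, ∑' I, (bb cls Y u κ' I z) ^ γ ≤ g z) :
    ∑' sk : ℕ × ℕ × List (ℕ × ℕ × ℕ), (if sk.1 ≤ N then Bsk cls Y L γ r u κ κ' H sk else 0)
      ≤ (∑ I ∈ range (N + 1), (bb0 cls Y u κ' I) ^ γ) * ((bbl cls Y u κ' * H) ^ γ * clT Y w g) := by
  classical
  have hterm : ∀ sk : ℕ × ℕ × List (ℕ × ℕ × ℕ),
      (if sk.1 ≤ N then Bsk cls Y L γ r u κ κ' H sk else 0)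
      ≤ (if sk.1 ≤ N then (bb0 cls Y u κ' sk.1) ^ γ else 0) * ((bbl cls Y u κ' * H) ^ γ *
        (if IS Y ((0, sk.2.1) :: sk.2.2.map zj) then w sk.2.1 * (sk.2.2.map (fun p =>
          (bb cls Y u κ' p.1 p.2.1) ^ γ * w p.2.2)).prod else 0)) := by
    intro sk
    unfold Bsk
    split_ifs
    · gcongr
      · exact hw _
      · refine List.Forall₂.prod_le_prod' ?_
        rw [List.forall₂_map_left_iff, List.forall₂_map_right_iff]
        rw [List.forall₂_same]
        intro p _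
        gcongr
        exact hw _
    · exact zero_le
    · exact zero_le
    · exact zero_le
  refine (ENNReal.tsum_le_tsum hterm).trans ?_
  rw [ENNReal.tsum_prod']
  simp only [ENNReal.tsum_mul_left, ENNReal.tsum_mul_right]
  gcongr
  · rw [tsum_eq_sum (s := range (N + 1))]
    · refine (sum_congr rfl fun I hI => ?_).le
      rw [mem_range] at hI
      rw [if_pos (by omega)]
    · intro I hI
      rw [mem_range] at hI
      rw [if_neg (by omega)]
  · rw [ENNReal.tsum_prod']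
    unfold clT
    rw [ENNReal.tsum_prod']
    refine ENNReal.tsum_le_tsum fun j0 => ?_
    simp only
    -- group according to the classes
    have h1 := tsum_group (fun l : List (ℕ × ℕ × ℕ) => l.map zj)
      (fun l => if IS Y ((0, j0) :: l.map zj) then w j0 * (l.map (fun p =>
          (bb cls Y u κ' p.1 p.2.1) ^ γ * w p.2.2)).prod else 0)
    rw [h1]
    refine ENNReal.tsum_le_tsum fun l' => ?_
    by_cases hIS : IS Y ((0, j0) :: l')
    · rw [if_pos hIS]
      have h2 : ∀ l : List (ℕ × ℕ × ℕ), (open Classical in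
          (if l.map zj = l' then (if IS Y ((0, j0) :: l.map zj) then
          w j0 * (l.map (fun p => (bb cls Y u κ' p.1 p.2.1) ^ γ * w p.2.2)).prod else 0) else 0))
          ≤ w j0 * (open Classical in if l.map zj = l' then
            (l.map (fun p => (bb cls Y u κ' p.1 p.2.1) ^ γ * w p.2.2)).prod else 0) := by
        intro l
        by_cases hl : l.map zj = l'
        · rw [if_pos hl, if_pos hl, hl, if_pos hIS]
        · rw [if_neg hl, if_neg hl, mul_zero]
      refine (ENNReal.tsum_le_tsum fun l => ?_).trans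
        (le_trans (ENNReal.tsum_le_tsum h2) ?_)
      · by_cases hl : l.map zj = l'
        · simp [hl]
        · simp [hl]
      rw [ENNReal.tsum_mul_left]
      gcongr
      unfold wtl
      refine (le_of_eq ?_).trans (tsum_list_fiber zj
        (fun p : ℕ × ℕ × ℕ => (bb cls Y u κ' p.1 p.2.1) ^ γ * w p.2.2)
        (fun p : ℕ × ℕ => g p.1 * w p.2) ?_ l')
      · exact tsum_congr fun μ => by congr
      · rintro ⟨z, j⟩
        simp only
        have e1 : ∀ a : ℕ × ℕ × ℕ, (if zj a = (z, j) then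
            (bb cls Y u κ' a.1 a.2.1) ^ γ * w a.2.2 else 0)
            = (if a.2.1 = z then (bb cls Y u κ' a.1 a.2.1) ^ γ else 0) *
              (if a.2.2 = j then w a.2.2 else 0) := by
          intro a
          simp only [zj, Prod.mk.injEq]
          by_cases c1 : a.2.1 = z
          · by_cases c2 : a.2.2 = j
            · simp only [c1, c2, and_self, if_true]
            · simp only [c2, and_false, if_false, mul_zero]
          · simp only [c1, false_and, if_false, zero_mul]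
        have e2 : (∑' a : ℕ × ℕ × ℕ, (if zj a = (z, j) then
            (bb cls Y u κ' a.1 a.2.1) ^ γ * w a.2.2 else 0))
            = (∑' I, (bb cls Y u κ' I z) ^ γ) * w j := by
          simp only [e1]
          rw [ENNReal.tsum_prod']
          rw [← ENNReal.tsum_mul_right]
          refine tsum_congr fun I => ?_
          rw [ENNReal.tsum_prod']
          simp only [ENNReal.tsum_mul_left, ENNReal.tsum_mul_right]
          congr 1
          · rw [tsum_eq_single z]
            · simp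
            · intro z' hz; simp [hz]
          · rw [tsum_eq_single j]
            · simp
            · intro j' hj; simp [hj]
        refine (le_of_eq ?_).trans (le_trans (le_of_eq e2) ?_)
        · exact tsum_congr fun a => by congr
        · gcongr
          exact hg z
    · rw [if_neg hIS]
      refine le_of_eq ?_
      rw [ENNReal.tsum_eq_zero]
      intro l
      by_cases hl : l.map zj = l'
      · rw [if_pos hl, hl, if_neg hIS]
      · rw [if_neg hl]

/-- **the fractional moment of the constrained partition function**. -/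
theorem sharp_constrained (hL : 0 < L) (hW : Weights P e γ q r) (hγ : 0 < γ) (hγ1 : γ ≤ 1)
    (hB : DB K L N q u κ κ' H) (hm : HasMark cls Y) {w g : ℕ → ℝ≥0∞}
    (hw : ∀ j, (κ j) ^ γ * r ^ (j * L) ≤ w j)
    (hg : ∀ z, ∑' I, (bb cls Y u κ' I z) ^ γ ≤ g z) (I : Finset ℕ) (hI : Disjoint I (Ioc 0 N)) :
    ∫⁻ ω, ((∏ j ∈ I, e j ω) * ren (kT K (fun j => e j ω)) 0 N) ^ γ ∂P
      ≤ r ^ I.card * (H ^ γ + (∑ I ∈ range (N + 1), (bb0 cls Y u κ' I) ^ γ) *
          ((bbl cls Y u κ' * H) ^ γ * clT Y w g)) := by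
  classical
  -- pointwise expansion
  have hpt : ∀ ev : Env, ren (kT K ev) 0 N ≤ ren (kA K L ev) 0 N
      + ∑' sk : ℕ × ℕ × List (ℕ × ℕ × ℕ), Xsk K L N cls Y sk ev := by
    intro ev
    refine (ren_le_tsum hL ev (Nat.zero_le N)).trans ?_
    rw [tsum_list]
    have h0 : Zc K L N ev [] 0 = ren (kA K L ev) 0 N := rfl
    rw [h0]
    gcongr
    -- each nonempty configuration has an optimal marking
    choose φ hφ using fun p : (ℕ × ℕ) × List (ℕ × ℕ) => hm (p.1 :: p.2) (by simp)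
    have hinj : Function.Injective φ := by
      intro p p' h
      have h1 := (hφ p).1
      have h2 := (hφ p').1
      rw [h, h2] at h1
      simp only [List.cons.injEq] at h1
      exact (Prod.ext h1.1 h1.2).symm
    calc ∑' p : (ℕ × ℕ) × List (ℕ × ℕ), Zc K L N ev (p.1 :: p.2) 0
        = ∑' p : (ℕ × ℕ) × List (ℕ × ℕ),
            (fun m : Mkd => if OKM cls Y m then Zc K L N ev (flM m) 0 else 0) (φ p) := by
          refine tsum_congr fun p => ?_
          simp only
          rw [if_pos (hφ p).2, (hφ p).1]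
      _ ≤ ∑' m : Mkd, (if OKM cls Y m then Zc K L N ev (flM m) 0 else 0) :=
          ENNReal.tsum_comp_le_tsum_of_injective hinj _
      _ = ∑' sk : ℕ × ℕ × List (ℕ × ℕ × ℕ), Xsk K L N cls Y sk ev := by
          rw [tsum_group (skM cls)]
          refine tsum_congr fun sk => ?_
          unfold Xsk
          refine tsum_congr fun m => ?_
          by_cases h1 : skM cls m = sk
          · by_cases h2 : OKM cls Y m
            · simp [h1, h2]
            · simp [h1, h2]
          · simp [h1]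
  have hMX : ∀ sk, MA (Ioc 0 N ∪ IgM L sk) (Xsk K L N cls Y sk) := by
    intro sk
    have := (MA.prod (IgM L sk)).mul (MA_Rsk (K := K) (N := N) (cls := cls) (Y := Y) hL sk)
      disjoint_sdiff
    refine (this.mono ?_).congr fun ev => Xsk_eq hL sk ev
    intro w hw'
    simp only [mem_union, mem_sdiff, mem_Ioc] at *
    tauto
  have mI : Measurable (fun ω => ∏ j ∈ I, e j ω) := by
    have := hW.meas
    fun_prop
  have mX : ∀ sk, Measurable (fun ω => ((∏ j ∈ I, e j ω) *
      Xsk K L N cls Y sk (fun j => e j ω)) ^ γ) := fun sk =>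
    (mI.mul ((hMX sk).measurable hW.meas)).pow_const γ
  have mA : Measurable (fun ω => ((∏ j ∈ I, e j ω) * ren (kA K L (fun j => e j ω)) 0 N) ^ γ) :=
    (mI.mul ((MA_ren (MA_kA K L) 0 N).measurable hW.meas)).pow_const γ
  have hA : ∫⁻ ω, ((∏ j ∈ I, e j ω) * ren (kA K L (fun j => e j ω)) 0 N) ^ γ ∂P
      ≤ r ^ I.card * H ^ γ := by
    refine (frac_moment hW hγ.le hγ1 (MA_ren (MA_kA K L) 0 N) hI).trans ?_
    gcongr
    exact hB.hH 0
  calc ∫⁻ ω, ((∏ j ∈ I, e j ω) * ren (kT K (fun j => e j ω)) 0 N) ^ γ ∂P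
      ≤ ∫⁻ ω, (((∏ j ∈ I, e j ω) * ren (kA K L (fun j => e j ω)) 0 N) ^ γ +
          ∑' sk, ((∏ j ∈ I, e j ω) * Xsk K L N cls Y sk (fun j => e j ω)) ^ γ) ∂P := by
        refine lintegral_mono fun ω => ?_
        calc ((∏ j ∈ I, e j ω) * ren (kT K (fun j => e j ω)) 0 N) ^ γ
            ≤ ((∏ j ∈ I, e j ω) * ren (kA K L (fun j => e j ω)) 0 N +
              ∑' sk, (∏ j ∈ I, e j ω) * Xsk K L N cls Y sk (fun j => e j ω)) ^ γ := by
              rw [ENNReal.tsum_mul_left, ← mul_add]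
              gcongr
              exact hpt _
          _ ≤ ((∏ j ∈ I, e j ω) * ren (kA K L (fun j => e j ω)) 0 N) ^ γ +
              (∑' sk, (∏ j ∈ I, e j ω) * Xsk K L N cls Y sk (fun j => e j ω)) ^ γ :=
              ENNReal.rpow_add_le_add_rpow _ _ hγ.le hγ1
          _ ≤ _ := by
              gcongr
              exact rpow_tsum_le _ hγ hγ1
    _ = ∫⁻ ω, ((∏ j ∈ I, e j ω) * ren (kA K L (fun j => e j ω)) 0 N) ^ γ ∂P +
          ∑' sk, ∫⁻ ω, ((∏ j ∈ I, e j ω) * Xsk K L N cls Y sk (fun j => e j ω)) ^ γ ∂P := by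
        rw [lintegral_add_left mA, lintegral_tsum (fun sk => (mX sk).aemeasurable)]
    _ ≤ r ^ I.card * H ^ γ + ∑' sk, r ^ I.card *
          (if sk.1 ≤ N then Bsk cls Y L γ r u κ κ' H sk else 0) := by
        gcongr with sk
        exact sk_moment hL hW hγ hγ1 hB I hI sk
    _ ≤ _ := by
        rw [ENNReal.tsum_mul_left, ← mul_add]
        gcongr
        exact sum_Bsk hw hg

end Pool.Agent.Cop

end
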