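import Mathlib
import Pool.Agent.Work.MP_cceb86_pr.Fill
import Pool.Agent.Work.MP_cceb86_pr.SkMom

/-!
Existence of the optimal marking of a configuration.
-/

open Finset
open scoped ENNReal NNReal

noncomputable section

namespace Pool.Agent.Cop

variable {cls Y : ℕ → ℕ}

lemma zb_le_iff (f : List (ℕ × ℕ)) (i z : ℕ) :
    zb cls f i ≤ z ↔ cls i ≤ z ∧ ∀ x ∈ f, cls x.1 ≤ z := by
  induction f with
  | nil => simp [zb]
  | cons a f ih =>
    rw [zb_cons, max_le_iff, ih]
    simp only [List.mem_cons, forall_eq_or_imp]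
    tauto

lemma sl_append (l l' : List (ℕ × ℕ)) : sl Y (l ++ l') = sl Y l + sl Y l' := by simp [sl]

lemma sl_cons (p : ℕ × ℕ) (l : List (ℕ × ℕ)) : sl Y (p :: l) = (Y p.2 - p.1) + sl Y l := by
  simp [sl]

lemma skel_append (μ ν : List (List (ℕ × ℕ) × (ℕ × ℕ))) :
    skel cls (μ ++ ν) = skel cls μ ++ skel cls ν := by simp [skel]

lemma skel_cons (q : List (ℕ × ℕ) × (ℕ × ℕ)) (μ : List (List (ℕ × ℕ) × (ℕ × ℕ))) :
    skel cls (q :: μ) = (zb cls q.1 q.2.1, q.2.2) :: skel cls μ := by simp [skel]

lemma flat_append (μ ν : List (List (ℕ × ℕ) × (ℕ × ℕ))) :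
    flat (μ ++ ν) = flat μ ++ flat ν := by simp [flat]

lemma flat_cons (q : List (ℕ × ℕ) × (ℕ × ℕ)) (μ : List (List (ℕ × ℕ) × (ℕ × ℕ))) :
    flat (q :: μ) = q.1 ++ (q.2 :: flat μ) := by simp [flat]

/-- mark all the elements of a list -/
def all (f : List (ℕ × ℕ)) : List (List (ℕ × ℕ) × (ℕ × ℕ)) := f.map (fun a => ([], a))

lemma flat_all (f : List (ℕ × ℕ)) : flat (all f) = f := by
  induction f with
  | nil => simp [all, flat]
  | cons a f ih =>
    have : all (a :: f) = ([], a) :: all f := rfl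
    rw [this, flat_cons, ih]
    simp

lemma sl_all (f : List (ℕ × ℕ)) : sl Y (skel cls (all f)) = (sY Y f : ℤ) - sC cls f := by
  induction f with
  | nil => simp [all, skel, sl, sY, sC]
  | cons a f ih =>
    have : all (a :: f) = ([], a) :: all f := rfl
    rw [this, skel_cons, sl_cons, ih, sY_cons, sC_cons]
    simp only [zb, List.map_nil, List.foldr_nil]
    push_cast
    ring

lemma mem_flat {μ : List (List (ℕ × ℕ) × (ℕ × ℕ))} {x : ℕ × ℕ} (hx : x ∈ flat μ) :
    ∃ q ∈ μ, cls x.1 ≤ zb cls q.1 q.2.1 := by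
  induction μ with
  | nil => simp [flat] at hx
  | cons q μ ih =>
    rw [flat_cons] at hx
    simp only [List.mem_append, List.mem_cons] at hx
    rcases hx with h | h | h
    · exact ⟨q, by simp, zb_ge_mem _ _ x h⟩
    · exact ⟨q, by simp, by rw [h]; exact zb_ge_last _ _⟩
    · obtain ⟨q', hq', h'⟩ := ih h
      exact ⟨q', by simp [hq'], h'⟩

/-- strength of a marking -/
def Jm (cls Y : ℕ → ℕ) (m : Mkd) : ℤ := Y m.2.1.2 + sl Y (skel cls m.2.2.1)

lemma sl_le_sY (μ : List (List (ℕ × ℕ) × (ℕ × ℕ))) :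
    sl Y (skel cls μ) ≤ sY Y (flat μ) := by
  induction μ with
  | nil => simp [skel, sl, flat, sY]
  | cons q μ ih =>
    rw [skel_cons, sl_cons, flat_cons]
    have h1 : sY Y (q.1 ++ q.2 :: flat μ) = sY Y q.1 + (Y q.2.2 + sY Y (flat μ)) := by
      simp [sY]
    rw [h1]
    push_cast
    have h2 : (0 : ℤ) ≤ sY Y q.1 := by positivity
    have h3 : (0 : ℤ) ≤ (zb cls q.1 q.2.1 : ℤ) := by positivity
    linarith

lemma Jm_le (m : Mkd) : Jm cls Y m ≤ sY Y (flM m) := by
  unfold Jm flM
  have h1 : sY Y (m.1 ++ [m.2.1] ++ flat m.2.2.1 ++ m.2.2.2)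
      = sY Y m.1 + Y m.2.1.2 + sY Y (flat m.2.2.1) + sY Y m.2.2.2 := by simp [sY]; ring
  rw [h1]
  have h2 := sl_le_sY (cls := cls) (Y := Y) m.2.2.1
  push_cast
  have h3 : (0 : ℤ) ≤ sY Y m.1 := by positivity
  have h4 : (0 : ℤ) ≤ sY Y m.2.2.2 := by positivity
  linarith

lemma map_eq_append' {μ : List (List (ℕ × ℕ) × (ℕ × ℕ))} {a b : List (ℕ × ℕ)}
    (h : skel cls μ = a ++ b) : ∃ μa μb, μ = μa ++ μb ∧ skel cls μa = a ∧ skel cls μb = b := by
  unfold skel at *
  obtain ⟨l₁, l₂, h1, h2, h3⟩ := List.map_eq_append_iff.1 h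
  exact ⟨l₁, l₂, h1, h2, h3⟩

lemma map_eq_cons' {μ : List (List (ℕ × ℕ) × (ℕ × ℕ))} {p : ℕ × ℕ} {b : List (ℕ × ℕ)}
    (h : skel cls μ = p :: b) :
    ∃ q μb, μ = q :: μb ∧ (zb cls q.1 q.2.1, q.2.2) = p ∧ skel cls μb = b := by
  unfold skel at *
  obtain ⟨a, l, h1, h2, h3⟩ := List.map_eq_cons_iff.1 h
  exact ⟨a, l, h1, h2, h3⟩

/-- **existence of the optimal marking**. -/
theorem hasMark (cls Y : ℕ → ℕ) : HasMark cls Y := by
  intro c hc
  obtain ⟨ub, ⟨m, hm, hJ⟩, hmax⟩ := Int.exists_greatest_of_bdd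
    (P := fun z => ∃ m : Mkd, flM m = c ∧ Jm cls Y m = z)
    ⟨sY Y c, by
      rintro z ⟨m, h1, h2⟩
      rw [← h2, ← h1]
      exact Jm_le m⟩
    (by
      cases c with
      | nil => exact absurd rfl hc
      | cons a c => exact ⟨_, ([], a, [], c), by simp [flM, flat], rfl⟩)
  have hopt : ∀ m' : Mkd, flM m' = c → Jm cls Y m' ≤ Jm cls Y m := by
    intro m' h
    rw [hJ]
    exact hmax _ ⟨m', h, rfl⟩
  clear hmax
  obtain ⟨f0, p0, μ, fl⟩ := m
  simp only [flM] at hm
  refine ⟨(f0, p0, μ, fl), hm, ?_, ?_, ?_, ?_⟩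
  · -- first gap
    simp only
    cases f0 with
    | nil => exact trivial
    | cons a f' =>
      have h := hopt ([], a, all f' ++ (([], p0) :: μ), fl) (by
        simp only [flM]
        rw [← hm, flat_append, flat_all, flat_cons]
        simp)
      unfold Jm at h
      simp only [skel_append, skel_cons, sl_append, sl_cons, sl_all] at h
      have hz : zb cls [] p0.1 = cls p0.1 := by simp [zb]
      rw [hz] at h
      change Y a.2 + sY Y f' ≤ sC cls f' + cls p0.1
      omega
  · -- inner gaps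
    intro p hp
    simp only at hp
    obtain ⟨μ1, μ2, rfl⟩ := List.append_of_mem hp
    have h := hopt (f0, p0, μ1 ++ (all p.1 ++ (([], p.2) :: μ2)), fl) (by
      simp only [flM]
      rw [← hm, flat_append, flat_append, flat_append, flat_all, flat_cons, flat_cons]
      simp)
    unfold Jm at h
    simp only [skel_append, skel_cons, sl_append, sl_cons, sl_all] at h
    have hz : zb cls [] p.2.1 = cls p.2.1 := by simp [zb]
    rw [hz] at h
    unfold FOK
    omega
  · -- last gap
    have h := hopt (f0, p0, μ ++ all fl, []) (by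
      simp only [flM]
      rw [← hm, flat_append, flat_all]
      simp)
    unfold Jm at h
    simp only [skel_append, sl_append, sl_all] at h
    change sY Y fl ≤ sC cls fl
    omega
  · -- internal stability
    simp only
    intro A b B p C D hM hB hC hA hD
    -- second inequality given the decomposition of `μ`
    have second : ∀ (ν : List (List (ℕ × ℕ) × (ℕ × ℕ))) (q : List (ℕ × ℕ) × (ℕ × ℕ))
        (μC μD : List (List (ℕ × ℕ) × (ℕ × ℕ))), μ = ν ++ (q :: μC) ++ μD →
        (zb cls q.1 q.2.1, q.2.2) = p → skel cls μC = C → skel cls μD = D →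
        (p.1 : ℤ) ≤ str Y (p :: C) := by
      intro ν q μC μD hμ hq hμC hμD
      subst hq
      subst hμC
      simp only [str]
      cases μD with
      | nil =>
        have h := hopt (f0, p0, ν, (q.1 ++ q.2 :: flat μC) ++ fl) (by
          simp only [flM]
          rw [← hm, hμ, flat_append, flat_append, flat_cons]
          simp [flat])
        unfold Jm at h
        simp only [hμ, skel_append, skel_cons, sl_append, sl_cons] at h
        have h0 : sl Y (skel cls ([] : List (List (ℕ × ℕ) × (ℕ × ℕ)))) = 0 := by simp [skel, sl]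
        rw [h0] at h
        linarith
      | cons qd μD' =>
        have h := hopt (f0, p0, ν ++ (((q.1 ++ q.2 :: flat μC) ++ qd.1, qd.2) :: μD'), fl) (by
          simp only [flM]
          rw [← hm, hμ, flat_append, flat_append, flat_append, flat_cons, flat_cons, flat_cons]
          simp)
        unfold Jm at h
        simp only [hμ, skel_append, skel_cons, sl_append, sl_cons] at h
        have hz : zb cls ((q.1 ++ q.2 :: flat μC) ++ qd.1) qd.2.1 ≤ zb cls qd.1 qd.2.1 := by
          rw [zb_le_iff]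
          have hDd : zb cls q.1 q.2.1 ≤ zb cls qd.1 qd.2.1 := by
            refine hD (zb cls qd.1 qd.2.1, qd.2.2) ?_
            rw [← hμD, skel_cons]
            simp
          refine ⟨zb_ge_last _ _, fun x hx => ?_⟩
          simp only [List.mem_append, List.mem_cons] at hx
          rcases hx with (hx | hx | hx) | hx
          · exact (zb_ge_mem _ _ x hx).trans hDd
          · rw [hx]; exact (zb_ge_last _ _).trans hDd
          · obtain ⟨q', hq', h'⟩ := mem_flat (cls := cls) hx
            have := hC (zb cls q'.1 q'.2.1, q'.2.2) (by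
              unfold skel
              exact List.mem_map.2 ⟨q', hq', rfl⟩)
            exact (h'.trans this).trans hDd
          · exact zb_ge_mem _ _ x hx
        have hz' : (zb cls ((q.1 ++ q.2 :: flat μC) ++ qd.1) qd.2.1 : ℤ)
            ≤ (zb cls qd.1 qd.2.1 : ℤ) := by exact_mod_cast hz
        linarith
    cases A with
    | nil =>
      simp only [List.nil_append, List.cons_append, List.cons.injEq] at hM
      obtain ⟨hb, hM⟩ := hM
      rw [List.append_assoc] at hM
      obtain ⟨μB, μ', hμ, hμB, hμ'⟩ := map_eq_append' hM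
      rw [List.cons_append] at hμ'
      obtain ⟨q, μ'', rfl, hq, hμ''⟩ := map_eq_cons' hμ'
      obtain ⟨μC, μD, rfl, hμC, hμD⟩ := map_eq_append' hμ''
      refine ⟨?_, second μB q μC μD (by rw [hμ]; simp) hq hμC hμD⟩
      subst hb
      subst hμB
      subst hq
      simp only [str]
      have h := hopt (f0 ++ p0 :: (flat μB ++ q.1), q.2, μC ++ μD, fl) (by
        simp only [flM]
        rw [← hm, hμ, flat_append, flat_append, flat_cons, flat_append]
        simp)
      unfold Jm at h
      simp only [hμ, skel_append, skel_cons, sl_append, sl_cons] at h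
      linarith
    | cons a A =>
      simp only [List.cons_append, List.cons.injEq] at hM
      obtain ⟨_, hM⟩ := hM
      have hM' : skel cls μ = A ++ (b :: (B ++ (p :: (C ++ D)))) := by
        rw [hM]; simp
      obtain ⟨μA, μ1, hμ, hμA, hμ1⟩ := map_eq_append' hM'
      obtain ⟨qb, μ2, rfl, hqb, hμ2⟩ := map_eq_cons' hμ1
      obtain ⟨μB, μ3, rfl, hμB, hμ3⟩ := map_eq_append' hμ2
      obtain ⟨q, μ4, rfl, hq, hμ4⟩ := map_eq_cons' hμ3
      obtain ⟨μC, μD, rfl, hμC, hμD⟩ := map_eq_append' hμ4
      refine ⟨?_, second (μA ++ (qb :: μB)) q μC μD (by rw [hμ]; simp) hq hμC hμD⟩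
      have hA' := hA (by simp)
      subst hμB
      subst hq
      subst hqb
      simp only [str]
      have h := hopt (f0, p0, μA ++ (((qb.1 ++ qb.2 :: flat μB) ++ q.1, q.2) :: (μC ++ μD)), fl) (by
        simp only [flM]
        rw [← hm, hμ]
        simp only [flat_append, flat_cons]
        simp)
      unfold Jm at h
      simp only [hμ, skel_append, skel_cons, sl_append, sl_cons] at h
      have hz : zb cls ((qb.1 ++ qb.2 :: flat μB) ++ q.1) q.2.1 ≤ zb cls qb.1 qb.2.1 := by
        rw [zb_le_iff]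
        refine ⟨(zb_ge_last _ _).trans hA', fun x hx => ?_⟩
        simp only [List.mem_append, List.mem_cons] at hx
        rcases hx with (hx | hx | hx) | hx
        · exact zb_ge_mem _ _ x hx
        · rw [hx]; exact zb_ge_last _ _
        · obtain ⟨q', hq', h'⟩ := mem_flat (cls := cls) hx
          have := hB (zb cls q'.1 q'.2.1, q'.2.2) (by
            unfold skel
            exact List.mem_map.2 ⟨q', hq', rfl⟩)
          exact (h'.trans this).trans hA'
        · exact (zb_ge_mem _ _ x hx).trans hA'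
      have hz' : (zb cls ((qb.1 ++ qb.2 :: flat μB) ++ q.1) q.2.1 : ℤ)
          ≤ (zb cls qb.1 qb.2.1 : ℤ) := by exact_mod_cast hz
      linarith

end Pool.Agent.Cop

end
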