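import Mathlib
import Pool.Agent.Work.MP_cceb86_pr.Total
import Pool.Agent.Work.MP_cceb86_pr.Final
import Pool.Agent.Work.MP_cceb86_pr.SkMom
import Pool.Agent.Work.MP_cceb86_pr.Mark
import Pool.Agent.Work.MP_cceb86_pr.ClSum

/-!
From constrained fractional moments growing linearly to a zero free energy.
-/

open Finset MeasureTheory ProbabilityTheory Real Filter Topology
open scoped ENNReal NNReal

noncomputable section

namespace Pool.Agent.Cop

section free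

variable {Ω : Type*} [MeasurableSpace Ω] {P : Measure Ω} {e : ℕ → Ω → ℝ≥0∞} {γ : ℝ}
  {q r : ℝ≥0∞} {u κ κ' : ℕ → ℝ≥0∞} {H : ℝ≥0∞} {K : ℕ → ℝ≥0∞} {L N : ℕ}

/-- the free partition function from the constrained ones -/
theorem free_bound3 (hW : Weights P e γ q r) (hγ : 0 < γ) (hγ1 : γ ≤ 1) {B : ℝ≥0∞}
    (hB : ∀ (m : ℕ) (I : Finset ℕ), Disjoint I (Ioc 0 m) →
      ∫⁻ ω, ((∏ j ∈ I, e j ω) * ren (kT K (fun j => e j ω)) 0 m) ^ γ ∂P ≤ B * (m + 1 : ℕ))
    {Kb : ℕ → ℝ≥0∞} (hKb : ∀ n, Kb n ≤ 1) (N : ℕ) :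
    ∫⁻ ω, (Zf K Kb N (fun j => e j ω)) ^ γ ∂P ≤ (2 * B) * ((N + 1 : ℕ) : ℝ≥0∞) ^ 2 := by
  classical
  set F : ℕ → Ω → ℝ≥0∞ := fun m ω => ren (kT K (fun j => e j ω)) 0 m with hF
  set G : ℕ → Ω → ℝ≥0∞ := fun m ω => (∏ j ∈ Ioc m N, e j ω) * ren (kT K (fun j => e j ω)) 0 m
    with hG
  have hFm : ∀ m, Measurable (F m) := fun m => (MA_ren (MA_kT (K := K)) 0 m).measurable hW.meas
  have hGm : ∀ m, Measurable (G m) := by
    intro m
    have m1 : Measurable (fun ω => ∏ j ∈ Ioc m N, e j ω) := by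
      have := hW.meas
      fun_prop
    exact m1.mul (hFm m)
  have hFb : ∀ m, ∫⁻ ω, (F m ω) ^ γ ∂P ≤ B * (m + 1 : ℕ) := by
    intro m
    have h := hB m ∅ (by simp)
    simpa only [prod_empty, one_mul] using h
  have hGb : ∀ m, ∫⁻ ω, (G m ω) ^ γ ∂P ≤ B * (m + 1 : ℕ) := by
    intro m
    exact hB m (Ioc m N) (by
      rw [disjoint_left]; intro w; simp only [mem_Ioc]; omega)
  have hpt : ∀ ω, (Zf K Kb N (fun j => e j ω)) ^ γ
      ≤ ∑ m ∈ range (N + 1), ((F m ω) ^ γ + (G m ω) ^ γ) := by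
    intro ω
    unfold Zf
    refine (rpow_sum_le _ _ hγ hγ1).trans (sum_le_sum fun m _ => ?_)
    refine le_trans ?_ (ENNReal.rpow_add_le_add_rpow _ _ hγ.le hγ1)
    refine ENNReal.rpow_le_rpow ?_ hγ.le
    calc ren (kT K (fun j => e j ω)) 0 m * (Kb (N - m) * ((1 + pI (fun j => e j ω) m N) / 2))
        ≤ ren (kT K (fun j => e j ω)) 0 m * (1 * (1 + pI (fun j => e j ω) m N)) := by
          gcongr
          · exact hKb _
          · exact ENNReal.half_le_self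
      _ = F m ω + G m ω := by
          simp only [hF, hG, pI]; ring
  calc ∫⁻ ω, (Zf K Kb N (fun j => e j ω)) ^ γ ∂P
      ≤ ∫⁻ ω, ∑ m ∈ range (N + 1), ((F m ω) ^ γ + (G m ω) ^ γ) ∂P := lintegral_mono hpt
    _ = ∑ m ∈ range (N + 1), ∫⁻ ω, ((F m ω) ^ γ + (G m ω) ^ γ) ∂P :=
        lintegral_finsetSum _ fun m _ => ((hFm m).pow_const γ).add ((hGm m).pow_const γ)
    _ ≤ ∑ m ∈ range (N + 1), (2 * B * (N + 1 : ℕ)) := by
        refine sum_le_sum fun m hm => ?_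
        rw [mem_range] at hm
        rw [lintegral_add_left ((hFm m).pow_const γ)]
        calc ∫⁻ ω, (F m ω) ^ γ ∂P + ∫⁻ ω, (G m ω) ^ γ ∂P
            ≤ B * (m + 1 : ℕ) + B * (m + 1 : ℕ) := add_le_add (hFb m) (hGb m)
          _ ≤ B * (N + 1 : ℕ) + B * (N + 1 : ℕ) := by
              gcongr <;> omega
          _ = 2 * B * (N + 1 : ℕ) := by ring
    _ = (2 * B) * ((N + 1 : ℕ) : ℝ≥0∞) ^ 2 := by
        rw [sum_const, card_range, nsmul_eq_mul]
        ring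

/-- **the constrained fractional moments** from the sums over clusters -/
theorem constr_sharp (hL : 0 < L) (hW : Weights P e γ q r) (hγ : 0 < γ) (hγ1 : γ ≤ 1)
    (hr : r ≤ 1) (cls Y : ℕ → ℕ) (hB : ∀ m, DB K L m q u κ κ' H) {C0 C1 C2 : ℝ≥0∞}
    (hC0 : (∑' I, bb0 cls Y u κ' I) ^ γ ≤ C0) (hC1 : bbl cls Y u κ' ≤ C1)
    (hC2 : clT Y (fun j => (κ j) ^ γ * r ^ (j * L)) (fun z => ∑' I, (bb cls Y u κ' I z) ^ γ) ≤ C2)
    (m : ℕ) (I : Finset ℕ) (hI : Disjoint I (Ioc 0 m)) :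
    ∫⁻ ω, ((∏ j ∈ I, e j ω) * ren (kT K (fun j => e j ω)) 0 m) ^ γ ∂P
      ≤ (H ^ γ + C0 * ((C1 * H) ^ γ * C2)) * (m + 1 : ℕ) := by
  have h := sharp_constrained (cls := cls) (Y := Y) hL hW hγ hγ1 (hB m) (hasMark cls Y)
    (w := fun j => (κ j) ^ γ * r ^ (j * L)) (g := fun z => ∑' I, (bb cls Y u κ' I z) ^ γ)
    (fun j => le_rfl) (fun z => le_rfl) I hI
  refine h.trans ?_
  have h1 : ∑ I ∈ range (m + 1), (bb0 cls Y u κ' I) ^ γ ≤ (m + 1 : ℕ) * C0 := by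
    calc ∑ I ∈ range (m + 1), (bb0 cls Y u κ' I) ^ γ ≤ ∑ I ∈ range (m + 1), C0 := by
          refine sum_le_sum fun I _ => le_trans ?_ hC0
          exact ENNReal.rpow_le_rpow (ENNReal.le_tsum I) hγ.le
      _ = (m + 1 : ℕ) * C0 := by rw [sum_const, card_range, nsmul_eq_mul]
  have h2 : (1 : ℝ≥0∞) ≤ (m + 1 : ℕ) := by
    rw [← Nat.cast_one]
    exact Nat.cast_le.2 (by omega)
  calc r ^ I.card * (H ^ γ + (∑ I ∈ range (m + 1), (bb0 cls Y u κ' I) ^ γ) *
          ((bbl cls Y u κ' * H) ^ γ * clT Y (fun j => (κ j) ^ γ * r ^ (j * L))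
            (fun z => ∑' I, (bb cls Y u κ' I z) ^ γ)))
      ≤ 1 * (H ^ γ * (m + 1 : ℕ) + ((m + 1 : ℕ) * C0) * ((C1 * H) ^ γ * C2)) := by
        gcongr
        · exact pow_le_one' hr _
        · calc H ^ γ = H ^ γ * 1 := (mul_one _).symm
            _ ≤ H ^ γ * (m + 1 : ℕ) := by gcongr
    _ = (H ^ γ + C0 * ((C1 * H) ^ γ * C2)) * (m + 1 : ℕ) := by ring

end free

section zero

variable {Ω Ω' : Type*} [MeasurableSpace Ω] [MeasurableSpace Ω'] {P : Measure Ω} {Q : Measure Ω'}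
  {K : ℕ → ℝ} {xi : ℕ → Ω → ℕ} {eps : ℕ → Ω → Bool} {w : ℕ → Ω' → ℝ} {α c : ℝ}

/-- Quadratically growing fractional moments imply a zero free energy. -/
theorem tendsto_zero_sq [IsProbabilityMeasure P] (hm : IsModel P K xi eps) (hK : IsLaw α c K)
    (hα : 0 < α) (hα1 : α < 1) (hc : 0 < c) (hw : IsDisorder Q w) {lam h γ : ℝ} (hγ : 0 < γ)
    {B : ℝ≥0∞} (hB : B ≠ ∞)
    (hZ : ∀ N : ℕ, ∫⁻ x, (Zf (fun n => ENNReal.ofReal (K n)) (KB (Ke K)) N
      (fun j => ew w lam h j x)) ^ γ ∂Q ≤ B * ((N + 1 : ℕ) : ℝ≥0∞) ^ 2) :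
    Tendsto (fun N : ℕ => freeN P xi eps Q w lam h N) atTop (𝓝 0) := by
  set B₁ : ℝ := B.toReal + 1 with hB₁
  have hB₁0 : 0 < B₁ := by rw [hB₁]; have := ENNReal.toReal_nonneg (a := B); linarith
  have hlogN : Tendsto (fun N : ℕ => Real.log N / N) atTop (𝓝 0) := by
    have h := Real.isLittleO_log_id_atTop.tendsto_div_nhds_zero
    exact h.comp tendsto_natCast_atTop_atTop
  have hconst : ∀ a : ℝ, Tendsto (fun N : ℕ => a / (N : ℝ)) atTop (𝓝 0) := fun a =>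
    tendsto_const_div_atTop_nhds_zero_nat a
  -- lower and upper comparison sequences
  have hlow : Tendsto (fun N : ℕ => Real.log (9 / 20 * (c / α)) / N - α * (Real.log N / N))
      atTop (𝓝 0) := by
    have := (hconst (Real.log (9 / 20 * (c / α)))).sub (hlogN.const_mul α)
    simpa using this
  have hupp : Tendsto (fun N : ℕ => (Real.log (B₁ * 4) / N + 2 * (Real.log N / N)) / γ) atTop
      (𝓝 0) := by
    have := ((hconst (Real.log (B₁ * 4))).add (hlogN.const_mul 2)).div_const γ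
    simpa using this
  have key : ∀ N : ℕ, 0 < N → ∫⁻ x, (Zf (fun n => ENNReal.ofReal (K n)) (KB (Ke K)) N
      (fun j => ew w lam h j x)) ^ γ ∂Q ≤ ENNReal.ofReal (B₁ * (2 * N) ^ 2) := by
    intro N hN0
    have hN2 : (1 : ℝ) ≤ N := by exact_mod_cast hN0
    refine (hZ N).trans ?_
    rw [ENNReal.ofReal_mul hB₁0.le, ENNReal.ofReal_pow (by positivity)]
    gcongr
    · rw [hB₁]
      calc B = ENNReal.ofReal B.toReal := (ENNReal.ofReal_toReal hB).symm
        _ ≤ _ := ENNReal.ofReal_le_ofReal (by linarith)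
    · rw [← ENNReal.ofReal_natCast]
      refine ENNReal.ofReal_le_ofReal ?_
      push_cast; linarith
  refine tendsto_of_tendsto_of_tendsto_of_le_of_le' hlow hupp ?_ ?_
  · filter_upwards [hK.tail_low hc hα hα1.le, eventually_gt_atTop 0] with N hN hN0
    have hN1 : (0 : ℝ) < N := by exact_mod_cast hN0
    have hp : 0 < (N : ℝ) ^ (-α) := Real.rpow_pos_of_pos hN1 _
    have hk : 9 / 10 * (c / α) * (N : ℝ) ^ (-α) ≤ 1 - ∑ n ∈ Ioc 0 N, K n := by linarith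
    have hk0 : 0 < 1 - ∑ n ∈ Ioc 0 N, K n := lt_of_lt_of_le (by positivity) hk
    have hb : 0 < B₁ * (2 * N) ^ 2 := by positivity
    have h1 := (log_bound (lam := lam) (h := h) hm hK hw hγ hb hk0 (key N hN0)).1
    unfold freeN
    have h2 : Real.log (9 / 20 * (c / α)) - α * Real.log N
        ≤ Real.log ((1 - ∑ n ∈ Ioc 0 N, K n) / 2) := by
      have h3 : Real.log (9 / 20 * (c / α)) - α * Real.log N
          = Real.log (9 / 20 * (c / α) * (N : ℝ) ^ (-α)) := by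
        rw [Real.log_mul (by positivity) hp.ne', Real.log_rpow hN1]; ring
      rw [h3]
      refine Real.log_le_log (by positivity) ?_
      linarith
    calc Real.log (9 / 20 * (c / α)) / N - α * (Real.log N / N)
        = (1 / (N : ℝ)) * (Real.log (9 / 20 * (c / α)) - α * Real.log N) := by ring
      _ ≤ (1 / (N : ℝ)) * ∫ x, Real.log (Zpart P xi eps lam h (fun n => w n x) N) ∂Q := by
          gcongr
          exact h2.trans h1
  · filter_upwards [hK.tail_low hc hα hα1.le, eventually_gt_atTop 0] with N hN hN0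
    have hN1 : (0 : ℝ) < N := by exact_mod_cast hN0
    have hp : 0 < (N : ℝ) ^ (-α) := Real.rpow_pos_of_pos hN1 _
    have hk : 9 / 10 * (c / α) * (N : ℝ) ^ (-α) ≤ 1 - ∑ n ∈ Ioc 0 N, K n := by linarith
    have hk0 : 0 < 1 - ∑ n ∈ Ioc 0 N, K n := lt_of_lt_of_le (by positivity) hk
    have hb : 0 < B₁ * (2 * N) ^ 2 := by positivity
    have h1 := (log_bound (lam := lam) (h := h) hm hK hw hγ hb hk0 (key N hN0)).2
    unfold freeN
    have h3 : Real.log (B₁ * (2 * N) ^ 2) = Real.log (B₁ * 4) + 2 * Real.log N := by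
      have e : B₁ * (2 * (N : ℝ)) ^ 2 = (B₁ * 4) * (N : ℝ) ^ 2 := by ring
      rw [e, Real.log_mul (by positivity) (by positivity), Real.log_pow]
      push_cast; ring
    calc (1 / (N : ℝ)) * ∫ x, Real.log (Zpart P xi eps lam h (fun n => w n x) N) ∂Q
        ≤ (1 / (N : ℝ)) * (Real.log (B₁ * (2 * N) ^ 2) / γ) := by gcongr
      _ = _ := by rw [h3]; ring

end zero

end Pool.Agent.Cop

end
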