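import Mathlib
import Pool.Agent.Work.MP_cceb86_pr.Fill
import Pool.Agent.Work.MP_cceb86_pr.Sums

/-!
Numerical series used in the sharp upper bound.
-/

open Finset Real Filter Topology
open scoped ENNReal NNReal

noncomputable section

namespace Pool.Agent.Cop

lemma tsum_ofReal_le {f : ℕ → ℝ} (hf : ∀ j, 0 ≤ f j) {B : ℝ}
    (h : ∀ N, ∑ j ∈ range N, f j ≤ B) : ∑' j, ENNReal.ofReal (f j) ≤ ENNReal.ofReal B := by
  rw [ENNReal.tsum_eq_iSup_nat]
  refine iSup_le fun N => ?_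
  rw [← ENNReal.ofReal_sum_of_nonneg (fun j _ => hf j)]
  exact ENNReal.ofReal_le_ofReal (h N)

lemma exp_neg_le_rpow {y p : ℝ} (hy : 0 < y) (hp : 0 < p) (hp1 : p ≤ 1) :
    Real.exp (-y) ≤ y ^ (-p) := by
  rw [Real.exp_neg, Real.rpow_neg hy.le]
  have h1 : y ^ p ≤ Real.exp y := by
    rcases le_total y 1 with h | h
    · calc y ^ p ≤ 1 := Real.rpow_le_one hy.le h hp.le
        _ ≤ Real.exp y := Real.one_le_exp hy.le
    · calc y ^ p ≤ y ^ (1 : ℝ) := Real.rpow_le_rpow_of_exponent_le h hp1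
        _ = y := Real.rpow_one y
        _ ≤ Real.exp y := by have := Real.add_one_le_exp y; linarith
  gcongr

lemma sum_shift {ζ : ℝ} (hζ : 0 < ζ) (hζ1 : ζ ≤ 1) (N : ℕ) :
    ∑ i ∈ range N, ((i - 1 : ℕ) : ℝ) ^ (-(1 + ζ)) ≤ 1 + 1 / ζ := by
  have hz : (0 : ℝ) ^ (-(1 + ζ)) = 0 := Real.zero_rpow (by linarith)
  have h0 : 0 ≤ 1 + 1 / ζ := by positivity
  rcases N with _ | _ | N
  · simpa using h0
  · rw [zero_add, sum_range_one]
    simp only [Nat.zero_sub, Nat.cast_zero, hz]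
    exact h0
  · rw [sum_range_succ', sum_range_succ']
    have h1 := sum_zeta hζ hζ1 N
    simp only [zero_add, Nat.sub_self, Nat.zero_sub, Nat.cast_zero, hz, add_zero]
    refine le_trans (le_of_eq ?_) h1
    refine sum_congr rfl fun i _ => ?_
    congr 2

lemma sum_decay {p x : ℝ} (hp : 0 < p) (hp1 : p ≤ 1) (hx : 0 < x) (N : ℕ) :
    ∑ j ∈ range N, ((max j 1 : ℕ) : ℝ) ^ (-1 : ℝ) * Real.exp (-(x * j))
      ≤ 1 + (1 + 1 / p) * x ^ (-p) := by
  have hxp : 0 < x ^ (-p) := Real.rpow_pos_of_pos hx _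
  have h0 : ∀ j : ℕ, 0 ≤ ((max j 1 : ℕ) : ℝ) ^ (-1 : ℝ) * Real.exp (-(x * j)) := fun j => by
    positivity
  rcases N with _ | N
  · simp; positivity
  · rw [sum_range_succ']
    have h1 : ∑ j ∈ range N, ((max (j + 1) 1 : ℕ) : ℝ) ^ (-1 : ℝ)
        * Real.exp (-(x * (j + 1 : ℕ))) ≤ (1 + 1 / p) * x ^ (-p) := by
      calc ∑ j ∈ range N, ((max (j + 1) 1 : ℕ) : ℝ) ^ (-1 : ℝ)
          * Real.exp (-(x * (j + 1 : ℕ)))
          ≤ ∑ j ∈ range N, ((j + 1 : ℕ) : ℝ) ^ (-(1 + p)) * x ^ (-p) := by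
            refine sum_le_sum fun j _ => ?_
            have hm : max (j + 1) 1 = j + 1 := max_eq_left (by omega)
            rw [hm]
            have hj : (0 : ℝ) < ((j + 1 : ℕ) : ℝ) := by positivity
            calc ((j + 1 : ℕ) : ℝ) ^ (-1 : ℝ) * Real.exp (-(x * (j + 1 : ℕ)))
                ≤ ((j + 1 : ℕ) : ℝ) ^ (-1 : ℝ) * (x * (j + 1 : ℕ)) ^ (-p) := by
                  gcongr
                  exact exp_neg_le_rpow (by positivity) hp hp1
              _ = _ := by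
                  rw [Real.mul_rpow hx.le hj.le]
                  rw [show (-(1 + p)) = (-1 : ℝ) + -p by ring, Real.rpow_add hj]
                  ring
        _ = (∑ j ∈ range N, ((j + 1 : ℕ) : ℝ) ^ (-(1 + p))) * x ^ (-p) := by rw [sum_mul]
        _ ≤ (1 + 1 / p) * x ^ (-p) := by
            gcongr
            exact sum_zeta hp hp1 N
    have h2 : ((max 0 1 : ℕ) : ℝ) ^ (-1 : ℝ) * Real.exp (-(x * (0 : ℕ))) = 1 := by simp
    rw [h2]
    linarith

lemma sum_geo {x : ℝ} (hx : 0 < x) (N : ℕ) :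
    ∑ j ∈ range N, ((max j 1 : ℕ) : ℝ) ^ (-1 : ℝ) * Real.exp (-(x * j)) * j ≤ 1 / x := by
  rcases N with _ | N
  · simp; positivity
  · rw [sum_range_succ']
    have h2 : ((max 0 1 : ℕ) : ℝ) ^ (-1 : ℝ) * Real.exp (-(x * (0 : ℕ))) * ((0 : ℕ) : ℝ) = 0 := by
      simp
    rw [h2, add_zero]
    set y := Real.exp (-x) with hy
    have hy0 : 0 < y := Real.exp_pos _
    have hy1 : y < 1 := by rw [hy, Real.exp_lt_one_iff]; linarith
    have h3 : ∀ j : ℕ, ((max (j + 1) 1 : ℕ) : ℝ) ^ (-1 : ℝ) * Real.exp (-(x * (j + 1 : ℕ)))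
        * ((j + 1 : ℕ) : ℝ) = y * y ^ j := by
      intro j
      have hm : max (j + 1) 1 = j + 1 := max_eq_left (by omega)
      rw [hm, Real.rpow_neg_one]
      have hj : ((j + 1 : ℕ) : ℝ) ≠ 0 := by positivity
      have h4 : Real.exp (-(x * (j + 1 : ℕ))) = y * y ^ j := by
        rw [hy, ← pow_succ', ← Real.exp_nat_mul]
        congr 1; ring
      rw [h4]
      field_simp
    simp_rw [h3]
    rw [← mul_sum]
    have h5 : ∑ j ∈ range N, y ^ j ≤ 1 / (1 - y) := by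
      have h6 : HasSum (fun j : ℕ => y ^ j) (1 - y)⁻¹ := hasSum_geometric_of_lt_one hy0.le hy1
      rw [one_div]
      exact sum_le_hasSum _ (fun j _ => by positivity) h6
    have h7 : x * y ≤ 1 - y := by
      have h8 : 1 + x ≤ Real.exp x := by have := Real.add_one_le_exp x; linarith
      have h9 : Real.exp x * y = 1 := by rw [hy, ← Real.exp_add]; simp
      nlinarith
    have h10 : 0 < 1 - y := by linarith
    calc y * ∑ j ∈ range N, y ^ j ≤ y * (1 / (1 - y)) := by gcongr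
      _ = y / (1 - y) := by ring
      _ ≤ 1 / x := by
          rw [div_le_div_iff₀ h10 hx]; linarith

lemma sum_harm {M : ℕ} (hM : 1 ≤ M) (n : ℕ) :
    ∑ k ∈ Ico M (M + 1 + n), 1 / (k : ℝ) ≤ 1 / M + Real.log ((M + n : ℕ) / M) := by
  have hM0 : (0 : ℝ) < M := by exact_mod_cast hM
  induction n with
  | zero => simp [hM0.ne']
  | succ n ih =>
    rw [← Nat.add_assoc, sum_Ico_succ_top (by omega)]
    have h1 : 1 / ((M + 1 + n : ℕ) : ℝ) ≤ Real.log ((M + (n + 1) : ℕ) / M)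
        - Real.log ((M + n : ℕ) / M) := by
      have hn0 : (0 : ℝ) < ((M + n : ℕ) : ℝ) := by exact_mod_cast (by omega : 0 < M + n)
      have hn1 : (0 : ℝ) < ((M + (n + 1) : ℕ) : ℝ) := by positivity
      rw [Real.log_div hn1.ne' hM0.ne', Real.log_div hn0.ne' hM0.ne']
      have h2 := Real.log_le_sub_one_of_pos
        (show 0 < ((M + n : ℕ) : ℝ) / ((M + (n + 1) : ℕ) : ℝ) by positivity)
      rw [Real.log_div hn0.ne' hn1.ne'] at h2
      have h3 : ((M + n : ℕ) : ℝ) / ((M + (n + 1) : ℕ) : ℝ) - 1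
          = -(1 / ((M + 1 + n : ℕ) : ℝ)) := by
        push_cast
        have : (M : ℝ) + (n + 1) ≠ 0 := by positivity
        have : (M : ℝ) + 1 + n ≠ 0 := by positivity
        field_simp
        ring
      rw [h3] at h2
      linarith
    linarith

lemma sum_harm2 {M : ℕ} (hM : 1 ≤ M) :
    ∑ k ∈ Ico M (2 * M), 1 / (k : ℝ) ≤ 1 / M + Real.log 2 := by
  have hM0 : (0 : ℝ) < M := by exact_mod_cast hM
  have h := sum_harm hM (M - 1)
  have e1 : M + 1 + (M - 1) = 2 * M := by omega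
  rw [e1] at h
  refine h.trans ?_
  have h2 : Real.log (((M + (M - 1) : ℕ) : ℝ) / M) ≤ Real.log 2 := by
    refine Real.log_le_log ?_ ?_
    · have : (0 : ℝ) < ((M + (M - 1) : ℕ) : ℝ) := by exact_mod_cast (by omega : 0 < M + (M - 1))
      positivity
    · rw [div_le_iff₀ hM0]
      have : ((M + (M - 1) : ℕ) : ℝ) ≤ ((2 * M : ℕ) : ℝ) := by exact_mod_cast (by omega)
      push_cast at this ⊢
      linarith
  linarith

/-- the fill corrections -/
lemma fphi_le {γ x : ℝ} (hγ : 1 / 2 ≤ γ) (hγ1 : γ ≤ 1) (hx : 0 ≤ x) (hx1 : x ≤ 1 / 16) :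
    ∑' m : ℕ, ((2 * (m + 1) + 2 : ℕ) : ℝ≥0∞) *
      (((m + 2 : ℕ) : ℝ≥0∞) * (ENNReal.ofReal x) ^ (m + 1)) ^ γ
      ≤ ENNReal.ofReal (32 * Real.sqrt x) := by
  set y := Real.sqrt x with hy
  have hy0 : 0 ≤ y := Real.sqrt_nonneg _
  have hy1 : y ≤ 1 / 4 := by
    rw [hy, Real.sqrt_le_left (by norm_num)]; norm_num; linarith
  have hγ0 : 0 ≤ γ := by linarith
  have h1 : ∀ m : ℕ, ((2 * (m + 1) + 2 : ℕ) : ℝ≥0∞) *
      (((m + 2 : ℕ) : ℝ≥0∞) * (ENNReal.ofReal x) ^ (m + 1)) ^ γ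
      ≤ ENNReal.ofReal (8 * y * (3 * y) ^ m) := by
    intro m
    have e1 : (((m + 2 : ℕ) : ℝ≥0∞) * (ENNReal.ofReal x) ^ (m + 1))
        = ENNReal.ofReal (((m + 2 : ℕ) : ℝ) * x ^ (m + 1)) := by
      rw [ENNReal.ofReal_mul (by positivity), ENNReal.ofReal_natCast, ENNReal.ofReal_pow hx]
    rw [e1, ENNReal.ofReal_rpow_of_nonneg (by positivity) hγ0, ← ENNReal.ofReal_natCast,
      ← ENNReal.ofReal_mul (by positivity)]
    refine ENNReal.ofReal_le_ofReal ?_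
    have h2 : (((m + 2 : ℕ) : ℝ) * x ^ (m + 1)) ^ γ ≤ ((m + 2 : ℕ) : ℝ) * y ^ (m + 1) := by
      rw [Real.mul_rpow (by positivity) (by positivity)]
      have h3 : ((m + 2 : ℕ) : ℝ) ^ γ ≤ ((m + 2 : ℕ) : ℝ) := by
        calc ((m + 2 : ℕ) : ℝ) ^ γ ≤ ((m + 2 : ℕ) : ℝ) ^ (1 : ℝ) :=
              Real.rpow_le_rpow_of_exponent_le (by exact_mod_cast (by omega : 1 ≤ m + 2)) hγ1
          _ = _ := Real.rpow_one _
      have h4 : (x ^ (m + 1)) ^ γ ≤ y ^ (m + 1) := by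
        have h5 : (x ^ (m + 1)) ^ γ = (x ^ γ) ^ (m + 1) := by
          rw [← Real.rpow_natCast, ← Real.rpow_natCast, ← Real.rpow_mul hx, ← Real.rpow_mul hx,
            mul_comm]
        rw [h5]
        refine pow_le_pow_left₀ (by positivity) ?_ _
        rw [hy, Real.sqrt_eq_rpow]
        rcases hx.eq_or_lt with h | h
        · rw [← h, Real.zero_rpow (by linarith), Real.zero_rpow (by norm_num)]
        · exact Real.rpow_le_rpow_of_exponent_ge h (by linarith) hγ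
      gcongr
    have h3 : ((2 * (m + 1) + 2 : ℕ) : ℝ) * ((m + 2 : ℕ) : ℝ) ≤ 8 * 3 ^ m := by
      clear h2 e1
      induction m with
      | zero => norm_num
      | succ m ih =>
        push_cast at ih ⊢
        have : (0 : ℝ) ≤ m := Nat.cast_nonneg m
        rw [pow_succ]
        nlinarith
    calc ((2 * (m + 1) + 2 : ℕ) : ℝ) * (((m + 2 : ℕ) : ℝ) * x ^ (m + 1)) ^ γ
        ≤ ((2 * (m + 1) + 2 : ℕ) : ℝ) * (((m + 2 : ℕ) : ℝ) * y ^ (m + 1)) := by gcongr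
      _ = (((2 * (m + 1) + 2 : ℕ) : ℝ) * ((m + 2 : ℕ) : ℝ)) * y ^ (m + 1) := by ring
      _ ≤ (8 * 3 ^ m) * y ^ (m + 1) := by gcongr
      _ = 8 * y * (3 * y) ^ m := by rw [mul_pow, pow_succ]; ring
  refine (ENNReal.tsum_le_tsum h1).trans ?_
  refine tsum_ofReal_le (fun j => by positivity) fun N => ?_
  rw [← mul_sum]
  have h5 : ∑ j ∈ range N, (3 * y) ^ j ≤ (1 - 3 * y)⁻¹ :=
    sum_le_hasSum _ (fun j _ => by positivity)
      (hasSum_geometric_of_lt_one (by positivity) (by linarith))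
  have h6 : (1 - 3 * y)⁻¹ ≤ 4 := by
    rw [inv_le_comm₀ (by linarith) (by norm_num)]; linarith
  calc 8 * y * ∑ j ∈ range N, (3 * y) ^ j ≤ 8 * y * 4 := by gcongr; linarith
    _ = _ := by ring

end Pool.Agent.Cop

end
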