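import Mathlib
import Pool.Agent.Work.MP_cceb86_pr.Par
import Pool.Agent.Work.MP_cceb86_pr.UPar

/-!
The parameters of the sharp upper bound: bounds for gaps and fills.
-/

open Finset Real Filter Topology
open scoped ENNReal NNReal

noncomputable section

namespace Pool.Agent.Cop

/-- class of a gap -/
def cl (K1 i : ℕ) : ℕ := Nat.log 2 (i + 1) - K1

/-- strength per block -/
def AA (δ : ℝ) : ℝ := 2 * (1 + δ) / Real.log 2

/-- strength of a down excursion -/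
def YY (δ : ℝ) (j : ℕ) : ℕ := ⌈AA δ * (j + 2)⌉₊

/-- tilted weight of an unmarked down excursion -/
def ktR (α Λ η δ : ℝ) (j : ℕ) : ℝ :=
  (1 + η) / (2 * Λ) * ((max j 1 : ℕ) : ℝ) ^ (-1 : ℝ) * Real.exp (-(α * δ / 2 * j))

/-- tilt -/
def thR (α δ : ℝ) : ℝ := (2 : ℝ) ^ (α * (1 - δ / 4))

def CU (T : ℕ) (δ : ℝ) : ℝ := 3 * (T + 2) + 12 + 48 / δ

def U2R (α Λ δ : ℝ) (T : ℕ) : ℝ := α * Λ * CU T δ

def k2R (α Λ η δ : ℝ) : ℝ := (1 + η) / (2 * Λ) * (1 + 3 * (α * δ / 2) ^ (-(1 / 2) : ℝ))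

def e0R (α δ : ℝ) (T : ℕ) : ℝ := CU T δ * (α * (1 + 3 * (α * δ / 2) ^ (-(1 / 2) : ℝ)))

variable {α Λ η δ γ : ℝ} {T K1 : ℕ}

lemma AA_ge (hδ : 0 < δ) : 2 ≤ AA δ := by
  unfold AA
  have h1 := Real.log_two_lt_d9
  have h2 := Real.log_two_gt_d9
  rw [le_div_iff₀ (by linarith)]
  nlinarith

lemma AA_le (hδ1 : δ ≤ 1 / 8) : AA δ ≤ 7 / 2 := by
  unfold AA
  have h2 := Real.log_two_gt_d9
  rw [div_le_iff₀ (by linarith)]
  nlinarith

lemma YY_ge (hδ : 0 < δ) (j : ℕ) : 2 * (j + 2) ≤ YY δ j := by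
  have h1 : ((2 * (j + 2) : ℕ) : ℝ) ≤ YY δ j := by
    refine le_trans ?_ (Nat.le_ceil _)
    have := AA_ge hδ
    push_cast
    have : (0 : ℝ) ≤ (j : ℝ) + 2 := by positivity
    nlinarith
  exact_mod_cast h1

lemma YY_le (hδ : 0 < δ) (hδ1 : δ ≤ 1 / 8) (j : ℕ) :
    ((YY δ j + 1 : ℕ) : ℝ) ≤ AA δ * j + 9 := by
  have h0 : 0 ≤ AA δ * (j + 2) := by have := AA_ge hδ; positivity
  have h1 := Nat.ceil_lt_add_one h0
  have h2 := AA_le hδ1
  push_cast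
  unfold YY
  linarith

lemma uS_nonneg (hα : 0 < α) (hΛ : 0 < Λ) (hη : 0 < η) (i : ℕ) : 0 ≤ uS α Λ η T i := by
  unfold uS; split_ifs <;> positivity

lemma uS_le (hα : 0 < α) (hα1 : α ≤ 1 / 2) (hΛ : 0 < Λ) (hη : 0 < η) (hη1 : η ≤ 1 / 4)
    (i : ℕ) : uS α Λ η T i ≤ 3 * α * Λ := by
  unfold uS
  split_ifs with h
  · exact le_rfl
  · have h1 : ((i - 1 : ℕ) : ℝ) ^ (-(1 + α)) ≤ 1 := by
      refine Real.rpow_le_one_of_one_le_of_nonpos ?_ (by linarith)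
      exact_mod_cast (by omega : 1 ≤ i - 1)
    calc (1 + η) * (2 * α ^ 2 * Λ) * ((i - 1 : ℕ) : ℝ) ^ (-(1 + α))
        ≤ (1 + 1 / 4) * (2 * α ^ 2 * Λ) * 1 := by gcongr
      _ = 5 / 2 * α * (α * Λ) := by ring
      _ ≤ 5 / 2 * (1 / 2) * (α * Λ) := by gcongr
      _ ≤ 3 * α * Λ := by have := mul_pos hα hΛ; nlinarith

lemma ktR_nonneg (hΛ : 0 < Λ) (hη : 0 < η) (j : ℕ) : 0 ≤ ktR α Λ η δ j := by
  unfold ktR; positivity

lemma kF_nonneg (hΛ : 0 < Λ) (hη : 0 < η) (j : ℕ) : 0 ≤ kF α Λ η j := by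
  unfold kF; positivity

lemma kM_nonneg (hΛ : 0 < Λ) (j : ℕ) : 0 ≤ kM α Λ η j := by
  unfold kM; positivity

lemma thR_ge (hα : 0 < α) (hδ1 : δ ≤ 1 / 8) : 1 ≤ thR α δ := by
  unfold thR
  exact Real.one_le_rpow (by norm_num) (mul_nonneg hα.le (by linarith))

lemma thR_pow (n : ℕ) : thR α δ ^ n = ((2 : ℝ) ^ n) ^ (α * (1 - δ / 4)) := by
  unfold thR
  rw [← Real.rpow_natCast, ← Real.rpow_natCast, ← Real.rpow_mul (by norm_num),
    ← Real.rpow_mul (by norm_num), mul_comm]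

/-- a gap of small class -/
lemma cl_small (hT : T + 2 < 2 ^ (K1 + 1)) {i : ℕ} (hi : i ≤ T + 1) : cl K1 i = 0 := by
  unfold cl
  have : Nat.log 2 (i + 1) < K1 + 1 := Nat.log_lt_of_lt_pow (by omega) (by omega)
  omega

lemma cl_pow_le (hα : 0 < α) (hδ1 : δ ≤ 1 / 8) (i : ℕ) :
    thR α δ ^ (cl K1 i) ≤ ((i + 1 : ℕ) : ℝ) ^ (α * (1 - δ / 4)) := by
  have h1 : thR α δ ^ (cl K1 i) ≤ thR α δ ^ (Nat.log 2 (i + 1)) :=
    pow_le_pow_right₀ (thR_ge hα hδ1) (Nat.sub_le _ _)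
  refine h1.trans ?_
  rw [thR_pow]
  refine Real.rpow_le_rpow (by positivity) ?_ (mul_nonneg hα.le (by linarith))
  exact_mod_cast Nat.pow_log_le_self 2 (by omega)

lemma U2_bound (hα : 0 < α) (hα1 : α ≤ 1 / 2) (hΛ : 0 < Λ) (hη : 0 < η) (hη1 : η ≤ 1 / 4)
    (hδ : 0 < δ) (hδ1 : δ ≤ 1 / 8) (hT : T + 2 < 2 ^ (K1 + 1)) (N : ℕ) :
    ∑ i ∈ range N, uS α Λ η T i * thR α δ ^ (cl K1 i) ≤ U2R α Λ δ T := by
  set ζ : ℝ := α * (δ / 4) with hζ
  have hζ0 : 0 < ζ := by positivity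
  have hζ1 : ζ ≤ 1 := by rw [hζ]; nlinarith
  have hterm : ∀ i, uS α Λ η T i * thR α δ ^ (cl K1 i)
      ≤ (if i < T + 2 then 3 * α * Λ else 0)
        + (1 + η) * (2 * α ^ 2 * Λ) * 3 * ((i - 1 : ℕ) : ℝ) ^ (-(1 + ζ)) := by
    intro i
    have hnn : 0 ≤ ((i - 1 : ℕ) : ℝ) ^ (-(1 + ζ)) := by positivity
    by_cases hi : i ≤ T + 1
    · rw [cl_small hT hi, pow_zero, mul_one, if_pos (by omega)]
      have h1 := uS_le (T := T) hα hα1 hΛ hη hη1 i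
      have h2 : 0 ≤ (1 + η) * (2 * α ^ 2 * Λ) * 3 * ((i - 1 : ℕ) : ℝ) ^ (-(1 + ζ)) := by
        positivity
      linarith
    · rw [if_neg (by omega), zero_add]
      unfold uS
      rw [if_neg hi]
      have hi1 : (0 : ℝ) < ((i - 1 : ℕ) : ℝ) := by exact_mod_cast (by omega : 0 < i - 1)
      have hβ0 : 0 ≤ α * (1 - δ / 4) := mul_nonneg hα.le (by linarith)
      have hβ1 : α * (1 - δ / 4) ≤ 1 := by nlinarith
      have h1 : thR α δ ^ (cl K1 i) ≤ 3 * ((i - 1 : ℕ) : ℝ) ^ (α * (1 - δ / 4)) := by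
        refine (cl_pow_le hα hδ1 i).trans ?_
        have h2 : ((i + 1 : ℕ) : ℝ) ≤ 3 * ((i - 1 : ℕ) : ℝ) := by
          have : i + 1 ≤ 3 * (i - 1) := by omega
          exact_mod_cast this
        calc ((i + 1 : ℕ) : ℝ) ^ (α * (1 - δ / 4))
            ≤ (3 * ((i - 1 : ℕ) : ℝ)) ^ (α * (1 - δ / 4)) :=
              Real.rpow_le_rpow (by positivity) h2 hβ0
          _ = 3 ^ (α * (1 - δ / 4)) * ((i - 1 : ℕ) : ℝ) ^ (α * (1 - δ / 4)) :=
              Real.mul_rpow (by norm_num) hi1.le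
          _ ≤ 3 * ((i - 1 : ℕ) : ℝ) ^ (α * (1 - δ / 4)) := by
              gcongr
              calc (3 : ℝ) ^ (α * (1 - δ / 4)) ≤ 3 ^ (1 : ℝ) :=
                    Real.rpow_le_rpow_of_exponent_le (by norm_num) hβ1
                _ = 3 := Real.rpow_one _
      calc (1 + η) * (2 * α ^ 2 * Λ) * ((i - 1 : ℕ) : ℝ) ^ (-(1 + α)) * thR α δ ^ (cl K1 i)
          ≤ (1 + η) * (2 * α ^ 2 * Λ) * ((i - 1 : ℕ) : ℝ) ^ (-(1 + α))
            * (3 * ((i - 1 : ℕ) : ℝ) ^ (α * (1 - δ / 4))) := by gcongr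
        _ = (1 + η) * (2 * α ^ 2 * Λ) * 3 * (((i - 1 : ℕ) : ℝ) ^ (-(1 + α))
            * ((i - 1 : ℕ) : ℝ) ^ (α * (1 - δ / 4))) := by ring
        _ = _ := by
            rw [← Real.rpow_add hi1]
            congr 2
            rw [hζ]; ring
  have hA : ∑ i ∈ range N, (if i < T + 2 then 3 * α * Λ else 0) ≤ (T + 2) * (3 * α * Λ) := by
    have h0 : 0 ≤ 3 * α * Λ := by positivity
    rw [sum_ite, sum_const_zero, add_zero, sum_const, nsmul_eq_mul]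
    gcongr
    have : ((range N).filter (fun i => i < T + 2)).card ≤ T + 2 := by
      calc ((range N).filter (fun i => i < T + 2)).card ≤ (range (T + 2)).card := by
            refine card_le_card ?_
            intro i; simp only [mem_filter, mem_range]; omega
        _ = T + 2 := card_range _
    exact_mod_cast this
  have hB := sum_shift hζ0 hζ1 N
  calc ∑ i ∈ range N, uS α Λ η T i * thR α δ ^ (cl K1 i)
      ≤ ∑ i ∈ range N, ((if i < T + 2 then 3 * α * Λ else 0)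
        + (1 + η) * (2 * α ^ 2 * Λ) * 3 * ((i - 1 : ℕ) : ℝ) ^ (-(1 + ζ))) :=
        sum_le_sum fun i _ => hterm i
    _ = ∑ i ∈ range N, (if i < T + 2 then 3 * α * Λ else 0)
        + (1 + η) * (2 * α ^ 2 * Λ) * 3 * ∑ i ∈ range N, ((i - 1 : ℕ) : ℝ) ^ (-(1 + ζ)) := by
        rw [sum_add_distrib, mul_sum]
    _ ≤ (T + 2) * (3 * α * Λ) + (1 + 1 / 4) * (2 * α ^ 2 * Λ) * 3 * (1 + 1 / ζ) := by gcongr
    _ = α * Λ * (3 * (T + 2) + 15 / 2 * α + 30 / δ) := by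
        rw [hζ]; field_simp; ring
    _ ≤ U2R α Λ δ T := by
        unfold U2R CU
        have h1 : 30 / δ ≤ 48 / δ := by gcongr; norm_num
        have h2 : 3 * ((T : ℝ) + 2) + 15 / 2 * α + 30 / δ ≤ 3 * (T + 2) + 12 + 48 / δ := by
          linarith
        gcongr

lemma k2_bound (hα : 0 < α) (hΛ : 0 < Λ) (hη : 0 < η) (hδ : 0 < δ) (N : ℕ) :
    ∑ j ∈ range N, ktR α Λ η δ j ≤ k2R α Λ η δ := by
  unfold ktR k2R
  have h := sum_decay (p := 1 / 2) (x := α * δ / 2) (by norm_num) (by norm_num) (by positivity) N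
  have e : (1 + 1 / (1 / 2 : ℝ)) = 3 := by norm_num
  rw [e] at h
  calc ∑ j ∈ range N, (1 + η) / (2 * Λ) * ((max j 1 : ℕ) : ℝ) ^ (-1 : ℝ)
        * Real.exp (-(α * δ / 2 * j))
      = (1 + η) / (2 * Λ) * ∑ j ∈ range N, ((max j 1 : ℕ) : ℝ) ^ (-1 : ℝ)
        * Real.exp (-(α * δ / 2 * j)) := by
        rw [mul_sum]; exact sum_congr rfl fun j _ => by ring
    _ ≤ _ := by gcongr

lemma kF_le (hα : 0 < α) (hΛ : 0 < Λ) (hη : 0 < η) (hδ : 0 < δ) (hδ1 : δ ≤ 1 / 8)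
    (hηδ : η ≤ δ / 4) (j : ℕ) : kF α Λ η j ≤ ktR α Λ η δ j * thR α δ ^ (YY δ j) := by
  have hl2 := Real.log_two_gt_d9
  have hl2' : 0 < Real.log 2 := by linarith
  have hβ0 : 0 ≤ α * (1 - δ / 4) := mul_nonneg hα.le (by linarith)
  have h1 : Real.exp (2 * α * (1 + η) * (j + 2))
      ≤ Real.exp (-(α * δ / 2 * j)) * thR α δ ^ (YY δ j) := by
    have h2 : thR α δ ^ (YY δ j) = Real.exp (α * (1 - δ / 4) * Real.log 2 * YY δ j) := by
      unfold thR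
      rw [Real.rpow_def_of_pos (by norm_num), ← Real.exp_nat_mul]
      congr 1; ring
    rw [h2, ← Real.exp_add]
    refine Real.exp_le_exp.2 ?_
    have h3 : AA δ * (j + 2) ≤ YY δ j := Nat.le_ceil _
    have h4 : α * (1 - δ / 4) * Real.log 2 * (AA δ * (j + 2))
        ≤ α * (1 - δ / 4) * Real.log 2 * YY δ j := by
      gcongr
    have h5 : α * (1 - δ / 4) * Real.log 2 * (AA δ * (j + 2))
        = 2 * α * ((1 - δ / 4) * (1 + δ)) * (j + 2) := by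
      unfold AA; field_simp
    have h6 : 1 + δ / 2 ≤ (1 - δ / 4) * (1 + δ) := by nlinarith
    have hj : (0 : ℝ) ≤ j := Nat.cast_nonneg j
    have h7 : 2 * α * (1 + δ / 2) * (j + 2) ≤ 2 * α * ((1 - δ / 4) * (1 + δ)) * (j + 2) := by
      gcongr
    have h8 : 2 * α * (1 + η) * (j + 2) ≤ 2 * α * (1 + δ / 4) * (j + 2) := by
      gcongr
    have h9 : 0 ≤ α * δ := by positivity
    nlinarith
  unfold kF ktR
  have h2 : ((max j 1 : ℕ) : ℝ) ^ (-(1 + α)) ≤ ((max j 1 : ℕ) : ℝ) ^ (-1 : ℝ) := by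
    refine Real.rpow_le_rpow_of_exponent_le ?_ (by linarith)
    exact_mod_cast le_max_right j 1
  calc (1 + η) / (2 * Λ) * ((max j 1 : ℕ) : ℝ) ^ (-(1 + α)) * Real.exp (2 * α * (1 + η) * (j + 2))
      ≤ (1 + η) / (2 * Λ) * ((max j 1 : ℕ) : ℝ) ^ (-1 : ℝ)
        * (Real.exp (-(α * δ / 2 * j)) * thR α δ ^ (YY δ j)) := by gcongr
    _ = _ := by ring

lemma U2R_nonneg (hα : 0 < α) (hΛ : 0 < Λ) (hδ : 0 < δ) : 0 ≤ U2R α Λ δ T := by
  unfold U2R CU; positivity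

/-- the hypotheses on gaps and fills -/
theorem fh_par (hα : 0 < α) (hα1 : α ≤ 1 / 2) (hΛ : 0 < Λ) (hη : 0 < η) (hη1 : η ≤ 1 / 4)
    (hδ : 0 < δ) (hδ1 : δ ≤ 1 / 8) (hηδ : η ≤ δ / 4) (hT : T + 2 < 2 ^ (K1 + 1)) :
    FH (cl K1) (YY δ) (fun i => ENNReal.ofReal (uS α Λ η T i))
      (fun j => ENNReal.ofReal (kF α Λ η j)) (fun j => ENNReal.ofReal (ktR α Λ η δ j))
      (ENNReal.ofReal (thR α δ)) (ENNReal.ofReal (U2R α Λ δ T)) (ENNReal.ofReal (k2R α Λ η δ))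
      (ENNReal.ofReal (e0R α δ T)) := by
  have hth0 : 0 ≤ thR α δ := le_trans zero_le_one (thR_ge hα hδ1)
  refine ⟨?_, ?_, ?_, ?_, ?_⟩
  · rw [ENNReal.one_le_ofReal]; exact thR_ge hα hδ1
  · intro j
    rw [← ENNReal.ofReal_pow hth0, ← ENNReal.ofReal_mul (ktR_nonneg hΛ hη j)]
    exact ENNReal.ofReal_le_ofReal (kF_le hα hΛ hη hδ hδ1 hηδ j)
  · have e : ∀ i, ENNReal.ofReal (uS α Λ η T i) * ENNReal.ofReal (thR α δ) ^ cl K1 i
        = ENNReal.ofReal (uS α Λ η T i * thR α δ ^ cl K1 i) := fun i => by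
      rw [← ENNReal.ofReal_pow hth0, ← ENNReal.ofReal_mul (uS_nonneg hα hΛ hη i)]
    simp_rw [e]
    exact tsum_ofReal_le (fun i => mul_nonneg (uS_nonneg hα hΛ hη i) (by positivity))
      (U2_bound hα hα1 hΛ hη hη1 hδ hδ1 hT)
  · exact tsum_ofReal_le (fun i => ktR_nonneg hΛ hη i) (k2_bound hα hΛ hη hδ)
  · rw [← ENNReal.ofReal_mul (U2R_nonneg hα hΛ hδ)]
    refine ENNReal.ofReal_le_ofReal ?_
    unfold U2R k2R e0R
    have h1 : 0 ≤ CU T δ := by unfold CU; positivity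
    have h2 : 0 ≤ (α * δ / 2) ^ (-(1 / 2) : ℝ) := by positivity
    calc α * Λ * CU T δ * ((1 + η) / (2 * Λ) * (1 + 3 * (α * δ / 2) ^ (-(1 / 2) : ℝ)))
        = (1 + η) / 2 * (CU T δ * (α * (1 + 3 * (α * δ / 2) ^ (-(1 / 2) : ℝ)))) := by
          field_simp
      _ ≤ 1 * (CU T δ * (α * (1 + 3 * (α * δ / 2) ^ (-(1 / 2) : ℝ)))) := by
          gcongr
          linarith
      _ = _ := one_mul _

/-- class `0` -/
theorem g0_le (hα : 0 < α) (hα1 : α ≤ 1 / 2) (hΛ : 0 < Λ) (hη : 0 < η) (hη1 : η ≤ 1 / 4)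
    (hδ : 0 < δ) (hγ : 0 < γ) (κ : ℕ → ℝ≥0∞) :
    ∑' I, (bb (cl K1) (YY δ) (fun i => ENNReal.ofReal (uS α Λ η T i)) κ I 0) ^ γ
      ≤ ENNReal.ofReal (2 ^ (K1 + 1) * (3 * α * Λ) ^ γ) := by
  have hb : ∀ I, (bb (cl K1) (YY δ) (fun i => ENNReal.ofReal (uS α Λ η T i)) κ I 0) ^ γ
      ≤ if I < 2 ^ (K1 + 1) then ENNReal.ofReal ((3 * α * Λ) ^ γ) else 0 := by
    intro I
    have h1 := bb_zero_le (cls := cl K1) (Y := YY δ)
      (u := fun i => ENNReal.ofReal (uS α Λ η T i)) (κ := κ)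
      (fun j => by have := YY_ge hδ j; omega) I
    refine (ENNReal.rpow_le_rpow h1 hγ.le).trans ?_
    by_cases hI : cl K1 I = 0
    · rw [if_pos hI, if_pos]
      · rw [ENNReal.ofReal_rpow_of_nonneg (uS_nonneg hα hΛ hη I) hγ.le]
        refine ENNReal.ofReal_le_ofReal ?_
        exact Real.rpow_le_rpow (uS_nonneg hα hΛ hη I) (uS_le hα hα1 hΛ hη hη1 I) hγ.le
      · unfold cl at hI
        have h2 : Nat.log 2 (I + 1) < K1 + 1 := by omega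
        have h3 := (Nat.log_lt_iff_lt_pow (b := 2) (by norm_num) (by omega)).1 h2
        omega
    · rw [if_neg hI, ENNReal.zero_rpow_of_pos hγ]
      exact zero_le
  refine (ENNReal.tsum_le_tsum hb).trans ?_
  rw [tsum_eq_sum (s := range (2 ^ (K1 + 1)))]
  · rw [sum_congr rfl (fun I hI => if_pos (mem_range.1 hI)), sum_const, card_range, nsmul_eq_mul,
      ENNReal.ofReal_mul (by positivity)]
    gcongr
    rw [ENNReal.ofReal_pow (by norm_num)]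
    simp
  · intro I hI
    rw [if_neg]
    rwa [mem_range] at hI

lemma cl_eq_iff {z : ℕ} (hz : 1 ≤ z) {i : ℕ} :
    cl K1 i = z ↔ 2 ^ (K1 + z) ≤ i + 1 ∧ i + 1 < 2 * 2 ^ (K1 + z) := by
  unfold cl
  have h1 : Nat.log 2 (i + 1) - K1 = z ↔ Nat.log 2 (i + 1) = K1 + z := by omega
  rw [h1, Nat.log_eq_iff (Or.inr ⟨by norm_num, by omega⟩), pow_succ, mul_comm (2 ^ (K1 + z)) 2]

/-- classes `z ≥ 1` -/
theorem gz_le (hα : 0 < α) (hα1 : α ≤ 1 / 2) (hΛ : 0 < Λ) (hη : 0 < η) (hη1 : η ≤ 1 / 4)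
    (hδ : 0 < δ) (hδ1 : δ ≤ 1 / 8) (hηδ : η ≤ δ / 4) (hT : T + 2 < 2 ^ (K1 + 1))
    (hK1 : 2 / η ≤ 2 ^ (K1 + 1)) (hγ : (1 + α) * γ = 1) (he0 : e0R α δ T ≤ 1 / 16)
    {z : ℕ} (hz : 1 ≤ z) :
    ∑' I, (bb (cl K1) (YY δ) (fun i => ENNReal.ofReal (uS α Λ η T i))
      (fun j => ENNReal.ofReal (kF α Λ η j)) I z) ^ γ
      ≤ ENNReal.ofReal (((1 + η) * (2 * α ^ 2 * Λ)) ^ γ * ((1 - η)⁻¹ * (η / 2 + Real.log 2
          + 64 * Real.sqrt (e0R α δ T)))) := by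
  have hγ0 : 0 < γ := by
    by_contra h
    push Not at h
    nlinarith
  have hγ1 : γ ≤ 1 := by nlinarith
  have hγ2 : 1 / 2 ≤ γ := by nlinarith
  have hη1' : 0 < 1 - η := by linarith
  have he00 : 0 ≤ e0R α δ T := by
    unfold e0R CU; positivity
  set M : ℕ := 2 ^ (K1 + z) with hM
  have hM1 : 2 ^ (K1 + 1) ≤ M := Nat.pow_le_pow_right (by norm_num) (by omega)
  have hMη : 2 / η ≤ (M : ℝ) := by
    refine hK1.trans ?_
    exact_mod_cast hM1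
  have hMη' : 2 ≤ η * M := by rwa [div_le_iff₀ hη, mul_comm] at hMη
  have hM0 : (0 : ℝ) < M := by positivity
  have hMn : 0 < M := by exact_mod_cast hM0
  set C : ℝ := (1 + η) * (2 * α ^ 2 * Λ) with hC
  have hC0 : 0 < C := by positivity
  -- bound on the class
  have hiM : ∀ i, cl K1 i = z → T + 1 < i ∧ M ≤ i + 1 ∧ i + 1 < 2 * M
      ∧ (1 - η) * ((i + 1 : ℕ) : ℝ) ≤ ((i - 1 : ℕ) : ℝ) := by
    intro i hi
    have h1 := (cl_eq_iff hz).1 hi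
    have h0 : T + 1 < i := by
      by_contra hcon
      push Not at hcon
      have := cl_small (K1 := K1) hT hcon
      omega
    refine ⟨h0, h1.1, h1.2, ?_⟩
    have h2 : (M : ℝ) ≤ ((i + 1 : ℕ) : ℝ) := by exact_mod_cast h1.1
    have h3 : ((i - 1 : ℕ) : ℝ) = ((i + 1 : ℕ) : ℝ) - 2 := by
      rw [Nat.cast_sub (by omega)]; push_cast; ring
    rw [h3]
    nlinarith
  have hui : ∀ i, cl K1 i = z → (uS α Λ η T i) ^ γ ≤ C ^ γ * ((1 - η)⁻¹ * (1 / ((i + 1 : ℕ) : ℝ))) := by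
    intro i hi
    obtain ⟨h0, h1, h2, h3⟩ := hiM i hi
    unfold uS
    rw [if_neg (by omega), Real.mul_rpow hC0.le (by positivity), ← Real.rpow_mul (by positivity)]
    have e : -(1 + α) * γ = -1 := by linarith
    rw [e, Real.rpow_neg_one]
    gcongr
    rw [one_div, ← mul_inv]
    gcongr
  have hV : ∀ i, cl K1 i = z → ENNReal.ofReal (uS α Λ η T i)
      ≤ ENNReal.ofReal (C * ((1 - η) * M) ^ (-(1 + α))) := by
    intro i hi
    obtain ⟨h0, h1, h2, h3⟩ := hiM i hi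
    refine ENNReal.ofReal_le_ofReal ?_
    unfold uS
    rw [if_neg (by omega)]
    gcongr 1
    refine Real.rpow_le_rpow_of_nonpos (by positivity) ?_ (by linarith)
    refine le_trans ?_ h3
    gcongr
  have hmain := bb_sum_le (fh_par hα hα1 hΛ hη hη1 hδ hδ1 hηδ hT) (z := z) (B := 2 * M) hγ0 hγ1 hV
    (by
      intro i hi
      unfold cl at hi
      have h1 : Nat.log 2 (i + 1) < K1 + z + 1 := by omega
      have h2 := (Nat.log_lt_iff_lt_pow (b := 2) (by norm_num) (by omega)).1 h1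
      rw [pow_succ] at h2
      omega)
    (fun j => by have := YY_ge hδ j; omega)
    (by
      have : z < 2 ^ z := Nat.lt_two_pow_self
      have h2 : 2 ^ z ≤ M := Nat.pow_le_pow_right (by norm_num) (by omega)
      omega)
    (by omega)
  refine hmain.trans ?_
  have hA : ∑' i, (if cl K1 i = z then (ENNReal.ofReal (uS α Λ η T i)) ^ γ else 0)
      ≤ ENNReal.ofReal (C ^ γ * ((1 - η)⁻¹ * (1 / M + Real.log 2))) := by
    have h1 : ∀ i, (if cl K1 i = z then (ENNReal.ofReal (uS α Λ η T i)) ^ γ else 0)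
        ≤ ENNReal.ofReal (if M ≤ i + 1 ∧ i + 1 < 2 * M then
          C ^ γ * ((1 - η)⁻¹ * (1 / ((i + 1 : ℕ) : ℝ))) else 0) := by
      intro i
      by_cases hi : cl K1 i = z
      · obtain ⟨h0, h1, h2, h3⟩ := hiM i hi
        rw [if_pos hi, if_pos ⟨h1, h2⟩, ENNReal.ofReal_rpow_of_nonneg (uS_nonneg hα hΛ hη i) hγ0.le]
        exact ENNReal.ofReal_le_ofReal (hui i hi)
      · rw [if_neg hi]; exact zero_le
    refine (ENNReal.tsum_le_tsum h1).trans ?_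
    refine tsum_ofReal_le (fun i => by split_ifs <;> positivity) fun N => ?_
    rw [← sum_filter]
    have h2 : ∑ i ∈ (range N).filter (fun i => M ≤ i + 1 ∧ i + 1 < 2 * M),
        C ^ γ * ((1 - η)⁻¹ * (1 / ((i + 1 : ℕ) : ℝ)))
        ≤ C ^ γ * ((1 - η)⁻¹ * ∑ k ∈ Ico M (2 * M), 1 / (k : ℝ)) := by
      rw [mul_sum, mul_sum]
      rw [← sum_image (f := fun k : ℕ => C ^ γ * ((1 - η)⁻¹ * (1 / (k : ℝ)))) (g := fun i => i + 1)
        (fun a _ b _ h => by simpa using h)]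
      refine sum_le_sum_of_subset_of_nonneg ?_ (fun k _ _ => by positivity)
      intro k hk
      simp only [mem_image, mem_filter, mem_range, mem_Ico] at hk ⊢
      obtain ⟨i, ⟨_, h3⟩, rfl⟩ := hk
      exact h3
    refine h2.trans ?_
    have h3 := sum_harm2 (M := M) (by omega)
    gcongr
  have hBV : ((2 * M : ℕ) : ℝ≥0∞) * (ENNReal.ofReal (C * ((1 - η) * M) ^ (-(1 + α)))) ^ γ
      = ENNReal.ofReal (C ^ γ * ((1 - η)⁻¹ * 2)) := by
    rw [ENNReal.ofReal_rpow_of_nonneg (by positivity) hγ0.le, ← ENNReal.ofReal_natCast,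
      ← ENNReal.ofReal_mul (by positivity)]
    congr 1
    rw [Real.mul_rpow hC0.le (by positivity), ← Real.rpow_mul (by positivity)]
    have e : -(1 + α) * γ = -1 := by linarith
    rw [e, Real.rpow_neg_one]
    push_cast
    field_simp
  have hP := fphi_le hγ2 hγ1 he00 he0
  rw [hBV]
  refine (add_le_add hA (mul_le_mul' le_rfl hP)).trans ?_
  rw [← ENNReal.ofReal_mul (by positivity), ← ENNReal.ofReal_add (by
    have := Real.log_nonneg (show (1 : ℝ) ≤ 2 by norm_num)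
    positivity) (by positivity)]
  refine ENNReal.ofReal_le_ofReal ?_
  have h1 : 1 / (M : ℝ) ≤ η / 2 := by
    rw [div_le_iff₀ hM0]; linarith
  calc C ^ γ * ((1 - η)⁻¹ * (1 / M + Real.log 2)) + C ^ γ * ((1 - η)⁻¹ * 2)
        * (32 * Real.sqrt (e0R α δ T))
      = C ^ γ * ((1 - η)⁻¹ * (1 / M + Real.log 2 + 64 * Real.sqrt (e0R α δ T))) := by ring
    _ ≤ _ := by gcongr

end Pool.Agent.Cop

end
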