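import Mathlib
import Pool.Agent.Work.MP_cceb86_pr.Par2

/-!
The parameters of the sharp upper bound: weights of the marked excursions and the final
numerical estimate.
-/

open Finset Real Filter Topology
open scoped ENNReal NNReal

noncomputable section

namespace Pool.Agent.Cop

variable {α Λ η δ γ ε s rr : ℝ} {T K1 L : ℕ}

def CkR (Λ η : ℝ) : ℝ := (1 + η) ^ 2 / (2 * Λ)

def M0R (Λ η γ s : ℝ) : ℝ := (CkR Λ η) ^ γ * (1 + 5 * s ^ (-(1 / 4) : ℝ))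

def P0R (Λ η δ γ s : ℝ) : ℝ :=
  (CkR Λ η) ^ γ * (AA δ * (1 / s) + 9 * (1 + 5 * s ^ (-(1 / 4) : ℝ)))

def G0R (α Λ γ : ℝ) (K1 : ℕ) : ℝ := 2 ^ (K1 + 1) * (3 * α * Λ) ^ γ

def GR (α Λ η δ γ : ℝ) (T : ℕ) : ℝ :=
  ((1 + η) * (2 * α ^ 2 * Λ)) ^ γ * ((1 - η)⁻¹ * (η / 2 + Real.log 2
    + 64 * Real.sqrt (e0R α δ T)))

lemma w_real (hΛ : 0 < Λ) (hγ : (1 + α) * γ = 1) (_hγ0 : 0 < γ) (hr0 : 0 ≤ rr)
    (hr : rr ^ L ≤ Real.exp (-s)) (j : ℕ) :
    (kM α Λ η j) ^ γ * rr ^ (j * L)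
      ≤ (CkR Λ η) ^ γ * (((max j 1 : ℕ) : ℝ) ^ (-1 : ℝ) * Real.exp (-(s * j))) := by
  have hC : 0 ≤ CkR Λ η := by unfold CkR; positivity
  have e1 : kM α Λ η j = CkR Λ η * ((max j 1 : ℕ) : ℝ) ^ (-(1 + α)) := rfl
  rw [e1, Real.mul_rpow hC (by positivity), ← Real.rpow_mul (by positivity)]
  have e : -(1 + α) * γ = -1 := by linarith
  rw [e, mul_assoc]
  have h2 : rr ^ (j * L) ≤ Real.exp (-(s * j)) := by
    rw [mul_comm j L, pow_mul]
    calc (rr ^ L) ^ j ≤ (Real.exp (-s)) ^ j := pow_le_pow_left₀ (by positivity) hr _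
      _ = _ := by rw [← Real.exp_nat_mul]; congr 1; ring
  gcongr

lemma w_enn (hΛ : 0 < Λ) (hγ0 : 0 < γ) (hr0 : 0 ≤ rr) (j : ℕ) :
    (ENNReal.ofReal (kM α Λ η j)) ^ γ * (ENNReal.ofReal rr) ^ (j * L)
      = ENNReal.ofReal ((kM α Λ η j) ^ γ * rr ^ (j * L)) := by
  have hk := kM_nonneg (α := α) (η := η) hΛ j
  rw [ENNReal.ofReal_rpow_of_nonneg hk hγ0.le, ← ENNReal.ofReal_pow hr0,
    ← ENNReal.ofReal_mul (by positivity)]

theorem w_sum (hΛ : 0 < Λ) (hγ : (1 + α) * γ = 1) (hγ0 : 0 < γ) (hr0 : 0 ≤ rr) (hs : 0 < s)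
    (hr : rr ^ L ≤ Real.exp (-s)) :
    ∑' j, (ENNReal.ofReal (kM α Λ η j)) ^ γ * (ENNReal.ofReal rr) ^ (j * L)
      ≤ ENNReal.ofReal (M0R Λ η γ s) := by
  have hC : 0 ≤ CkR Λ η := by unfold CkR; positivity
  simp_rw [w_enn hΛ hγ0 hr0]
  refine tsum_ofReal_le (fun j => by
    have hk := kM_nonneg (α := α) (η := η) hΛ j
    positivity) fun N => ?_
  refine (sum_le_sum fun j _ => w_real hΛ hγ hγ0 hr0 hr j).trans ?_
  rw [← mul_sum]
  unfold M0R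
  gcongr
  refine (sum_decay (p := 1 / 4) (by norm_num) (by norm_num) hs N).trans (le_of_eq ?_)
  norm_num

theorem wY_sum (hΛ : 0 < Λ) (hγ : (1 + α) * γ = 1) (hγ0 : 0 < γ) (hr0 : 0 ≤ rr) (hs : 0 < s)
    (hr : rr ^ L ≤ Real.exp (-s)) (hδ : 0 < δ) (hδ1 : δ ≤ 1 / 8) :
    ∑' j, (ENNReal.ofReal (kM α Λ η j)) ^ γ * (ENNReal.ofReal rr) ^ (j * L)
        * ((YY δ j + 1 : ℕ) : ℝ≥0∞)
      ≤ ENNReal.ofReal (P0R Λ η δ γ s) := by
  have hC : 0 ≤ CkR Λ η := by unfold CkR; positivity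
  have hA := AA_ge hδ
  have e : ∀ j : ℕ, (ENNReal.ofReal (kM α Λ η j)) ^ γ * (ENNReal.ofReal rr) ^ (j * L)
        * ((YY δ j + 1 : ℕ) : ℝ≥0∞)
      = ENNReal.ofReal ((kM α Λ η j) ^ γ * rr ^ (j * L) * ((YY δ j + 1 : ℕ) : ℝ)) := by
    intro j
    have hk := kM_nonneg (α := α) (η := η) hΛ j
    rw [w_enn hΛ hγ0 hr0, ← ENNReal.ofReal_natCast, ← ENNReal.ofReal_mul (by positivity)]
  simp_rw [e]
  refine tsum_ofReal_le (fun j => by
    have hk := kM_nonneg (α := α) (η := η) hΛ j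
    positivity) fun N => ?_
  calc ∑ j ∈ range N, (kM α Λ η j) ^ γ * rr ^ (j * L) * ((YY δ j + 1 : ℕ) : ℝ)
      ≤ ∑ j ∈ range N, (CkR Λ η) ^ γ * (((max j 1 : ℕ) : ℝ) ^ (-1 : ℝ) * Real.exp (-(s * j)))
          * (AA δ * j + 9) := by
        refine sum_le_sum fun j _ => ?_
        have h1 := w_real (η := η) hΛ hγ hγ0 hr0 hr j
        have h2 := YY_le hδ hδ1 j
        have h3 : (0 : ℝ) ≤ ((YY δ j + 1 : ℕ) : ℝ) := by positivity
        gcongr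
    _ = (CkR Λ η) ^ γ * (AA δ * (∑ j ∈ range N, ((max j 1 : ℕ) : ℝ) ^ (-1 : ℝ)
          * Real.exp (-(s * j)) * j)
        + 9 * ∑ j ∈ range N, ((max j 1 : ℕ) : ℝ) ^ (-1 : ℝ) * Real.exp (-(s * j))) := by
        rw [mul_sum, mul_sum, ← sum_add_distrib, mul_sum]
        refine sum_congr rfl fun j _ => by ring
    _ ≤ P0R Λ η δ γ s := by
        unfold P0R
        have h1 := sum_geo hs N
        have h2 := sum_decay (p := 1 / 4) (by norm_num) (by norm_num) hs N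
        have h3 : 1 + (1 + 1 / (1 / 4 : ℝ)) * s ^ (-(1 / 4) : ℝ) = 1 + 5 * s ^ (-(1 / 4) : ℝ) := by
          norm_num
        rw [h3] at h2
        gcongr

/-- the continuous majorant of the final quantity -/
def GMb (K1 : ℕ) (α : ℝ) : ℝ := 2 ^ (K1 + 1) * (9 / 2) * (α + 5 * Real.sqrt α)

def e0b (T : ℕ) (δ α : ℝ) : ℝ := CU T δ * (α + 3 * (δ / 2) ^ (-(1 / 2) : ℝ) * Real.sqrt α)

def Eb (T K1 : ℕ) (δ η ε α : ℝ) : ℝ :=
  2 * ((1 - η)⁻¹ * (η / 2 + Real.log 2 + 64 * Real.sqrt (e0b T δ α))) * (1 + η) ^ 3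
    * Real.exp (-2 * (α * Real.log α))
    * (AA δ * (1 + α) / (2 * (2 + ε) * (1 - η)) + 54 * Real.sqrt α) / (1 - GMb K1 α) ^ 2

lemma sqrt_mul_aux (hα : 0 < α) : α * α ^ (-(1 / 2) : ℝ) = Real.sqrt α := by
  rw [Real.sqrt_eq_rpow]
  nth_rewrite 1 [← Real.rpow_one α]
  rw [← Real.rpow_add hα]
  norm_num

lemma e0R_le (hα : 0 < α) (hδ : 0 < δ) : e0R α δ T ≤ e0b T δ α := by
  unfold e0R e0b
  have h1 : (α * δ / 2) ^ (-(1 / 2) : ℝ) = α ^ (-(1 / 2) : ℝ) * (δ / 2) ^ (-(1 / 2) : ℝ) := by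
    rw [mul_div_assoc, Real.mul_rpow hα.le (by positivity)]
  rw [h1]
  refine le_of_eq ?_
  rw [← sqrt_mul_aux hα]
  ring

lemma E0_lt (hε : 0 < ε) (hε1 : ε ≤ 1) : Eb T K1 (ε / 8) (ε / 100) ε 0 < 1 := by
  unfold Eb e0b GMb
  have hl2 := Real.log_two_gt_d9
  have hl2' : 0 < Real.log 2 := by linarith
  simp only [Real.sqrt_zero, mul_zero, add_zero, Real.log_zero, Real.exp_zero, mul_one, sub_zero,
    one_pow, div_one]
  unfold AA
  have h1 : 0 < 1 - ε / 100 := by linarith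
  have e : 2 * ((1 - ε / 100)⁻¹ * (ε / 100 / 2 + Real.log 2)) * (1 + ε / 100) ^ 3
      * (2 * (1 + ε / 8) / Real.log 2 / (2 * (2 + ε) * (1 - ε / 100)))
      = 2 * (1 + ε / 100) ^ 3 * (1 + ε / 8) * ((ε / 100 / 2 + Real.log 2) / Real.log 2)
        / ((2 + ε) * (1 - ε / 100) ^ 2) := by
    field_simp
  rw [e, div_lt_one (by positivity)]
  have h2 : (ε / 100 / 2 + Real.log 2) / Real.log 2 ≤ 1 + ε / 100 := by
    rw [div_le_iff₀ hl2']
    nlinarith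
  have h3 : (1 + ε / 100) ^ 4 ≤ 1 + 41 / 1000 * ε := by
    nlinarith [pow_pos hε 2, pow_pos hε 3, pow_pos hε 4, mul_pos hε hε,
      pow_le_one₀ hε.le hε1 (n := 3), pow_le_pow_left₀ hε.le hε1 3,
      mul_le_mul_of_nonneg_left hε1 hε.le, mul_le_mul_of_nonneg_left hε1 (pow_pos hε 2).le,
      mul_le_mul_of_nonneg_left hε1 (pow_pos hε 3).le]
  calc 2 * (1 + ε / 100) ^ 3 * (1 + ε / 8) * ((ε / 100 / 2 + Real.log 2) / Real.log 2)
      ≤ 2 * (1 + ε / 100) ^ 3 * (1 + ε / 8) * (1 + ε / 100) := by gcongr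
    _ = 2 * (1 + ε / 8) * (1 + ε / 100) ^ 4 := by ring
    _ ≤ 2 * (1 + ε / 8) * (1 + 41 / 1000 * ε) := by gcongr
    _ < (2 + ε) * (1 - ε / 100) ^ 2 := by nlinarith [mul_pos hε hε, mul_le_mul_of_nonneg_left hε1 hε.le, pow_pos hε 3]

lemma Eb_cont : ContinuousAt (Eb T K1 δ η ε) 0 := by
  have h1 : Continuous (fun α : ℝ => 2 * ((1 - η)⁻¹ * (η / 2 + Real.log 2
      + 64 * Real.sqrt (e0b T δ α))) * (1 + η) ^ 3
    * Real.exp (-2 * (α * Real.log α))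
    * (AA δ * (1 + α) / (2 * (2 + ε) * (1 - η)) + 54 * Real.sqrt α)) := by
    have h2 := Real.continuous_mul_log
    unfold e0b
    fun_prop
  have h3 : Continuous (fun α : ℝ => (1 - GMb K1 α) ^ 2) := by
    unfold GMb
    fun_prop
  refine h1.continuousAt.div h3.continuousAt ?_
  simp [GMb]

/-- the final numerical statement -/
theorem small_par (hε : 0 < ε) (hε1 : ε ≤ 1) (T K1 : ℕ) :
    ∃ a : ℝ, 0 < a ∧ a ≤ 1 / 2 ∧ ∀ α : ℝ, 0 < α → α < a → ∀ Λ : ℝ, 0 < Λ → ∀ γ s : ℝ,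
      (1 + α) * γ = 1 → s = 2 * γ * (2 + ε) * α ^ 2 * (1 - ε / 100) →
      e0R α (ε / 8) T ≤ 1 / 16 ∧ G0R α Λ γ K1 * M0R Λ (ε / 100) γ s < 1 ∧
      2 * GR α Λ (ε / 100) (ε / 8) γ T * (P0R Λ (ε / 100) (ε / 8) γ s
        / (1 - G0R α Λ γ K1 * M0R Λ (ε / 100) γ s) ^ 2) < 1 := by
  set η := ε / 100 with hη
  set δ := ε / 8 with hδ
  have hη0 : 0 < η := by positivity
  have hη1 : η ≤ 1 / 100 := by rw [hη]; linarith
  have hδ0 : 0 < δ := by positivity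
  have c1 : ∀ᶠ α : ℝ in 𝓝 0, Eb T K1 δ η ε α < 1 :=
    Eb_cont.eventually_lt_const (E0_lt hε hε1)
  have c2 : ∀ᶠ α : ℝ in 𝓝 0, e0b T δ α < 1 / 16 := by
    have h : Continuous (e0b T δ) := by unfold e0b; fun_prop
    refine h.continuousAt.eventually_lt_const ?_
    simp [e0b]
  have c3 : ∀ᶠ α : ℝ in 𝓝 0, GMb K1 α < 1 := by
    have h : Continuous (GMb K1) := by unfold GMb; fun_prop
    refine h.continuousAt.eventually_lt_const ?_
    simp [GMb]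
  obtain ⟨a, ha, H⟩ := Metric.eventually_nhds_iff.1 (c1.and (c2.and c3))
  refine ⟨min a (1 / 2), by positivity, min_le_right _ _, ?_⟩
  intro α hα hαa Λ hΛ γ s hγ hs
  have hα1 : α ≤ 1 / 2 := (hαa.trans_le (min_le_right _ _)).le
  obtain ⟨d1, d2, d3⟩ := H (y := α) (by
    rw [Real.dist_eq, sub_zero, abs_of_pos hα]; exact hαa.trans_le (min_le_left _ _))
  have hγ0 : 0 < γ := by
    by_contra h
    push Not at h
    nlinarith
  have hγ1 : γ ≤ 1 := by nlinarith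
  have hγ2 : 1 / 2 ≤ γ := by nlinarith
  have hγα : 1 - α ≤ γ := by nlinarith
  have he0 : e0R α δ T ≤ e0b T δ α := e0R_le hα hδ0
  have hη' : 0 < 1 - η := by linarith
  have hsα : α ^ 2 ≤ s := by
    rw [hs]
    have h1 : 1 ≤ 2 * γ * (2 + ε) * (1 - η) := by
      have h2 : 1 ≤ 2 * γ := by linarith
      have h3 : 1 ≤ (2 + ε) * (1 - η) := by nlinarith
      nlinarith
    have h4 : 0 < α ^ 2 := by positivity
    nlinarith
  have hs0 : 0 < s := lt_of_lt_of_le (by positivity) hsα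
  have hs4 : s ^ (-(1 / 4) : ℝ) ≤ α ^ (-(1 / 2) : ℝ) := by
    calc s ^ (-(1 / 4) : ℝ) ≤ (α ^ 2) ^ (-(1 / 4) : ℝ) :=
          Real.rpow_le_rpow_of_nonpos (by positivity) hsα (by norm_num)
      _ = α ^ (-(1 / 2) : ℝ) := by
          rw [← Real.rpow_natCast, ← Real.rpow_mul hα.le]
          norm_num
  have hsq : α * α ^ (-(1 / 2) : ℝ) = Real.sqrt α := sqrt_mul_aux hα
  have hCk : 0 < CkR Λ η := by unfold CkR; positivity
  have hM0 : 0 ≤ M0R Λ η γ s := by unfold M0R; positivity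
  -- the product `G0 M0`
  have hGM : G0R α Λ γ K1 * M0R Λ η γ s ≤ GMb K1 α := by
    unfold G0R M0R GMb
    have h1 : (3 * α * Λ) ^ γ * (CkR Λ η) ^ γ ≤ 3 * α ^ γ := by
      rw [← Real.mul_rpow (by positivity) hCk.le]
      have h2 : 3 * α * Λ * CkR Λ η = 3 * ((1 + η) ^ 2 / 2) * α := by
        unfold CkR; field_simp
      rw [h2, Real.mul_rpow (by positivity) hα.le]
      gcongr
      have h3 : (1 + η) ^ 2 / 2 ≤ 1 := by nlinarith
      calc (3 * ((1 + η) ^ 2 / 2)) ^ γ ≤ (3 * 1) ^ γ := by gcongr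
        _ ≤ 3 ^ (1 : ℝ) := by
            rw [mul_one]
            exact Real.rpow_le_rpow_of_exponent_le (by norm_num) hγ1
        _ = 3 := Real.rpow_one _
    have h4 : α ^ γ ≤ 3 / 2 * α := by
      have h5 := pow_gamma_le hα (by linarith) hγα hα (by linarith) hα le_rfl
      have h6 := rpow_neg_self hα
      calc α ^ γ ≤ α * α ^ (-α) := h5
        _ ≤ α * (3 / 2) := by gcongr
        _ = _ := by ring
    calc 2 ^ (K1 + 1) * (3 * α * Λ) ^ γ * (CkR Λ η ^ γ * (1 + 5 * s ^ (-(1 / 4) : ℝ)))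
        = 2 ^ (K1 + 1) * ((3 * α * Λ) ^ γ * (CkR Λ η) ^ γ) * (1 + 5 * s ^ (-(1 / 4) : ℝ)) := by ring
      _ ≤ 2 ^ (K1 + 1) * (3 * (3 / 2 * α)) * (1 + 5 * α ^ (-(1 / 2) : ℝ)) := by
          have h7 := h1.trans (mul_le_mul_of_nonneg_left h4 (by norm_num))
          gcongr
      _ = 2 ^ (K1 + 1) * (9 / 2) * (α + 5 * (α * α ^ (-(1 / 2) : ℝ))) := by ring
      _ = _ := by rw [hsq]
  have hGM1 : G0R α Λ γ K1 * M0R Λ η γ s < 1 := lt_of_le_of_lt hGM d3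
  refine ⟨he0.trans d2.le, hGM1, ?_⟩
  refine lt_of_le_of_lt ?_ d1
  have hpos1 : 0 < 1 - GMb K1 α := by linarith
  have hpos2 : 0 < 1 - G0R α Λ γ K1 * M0R Λ η γ s := by linarith
  have hA := AA_ge hδ0
  -- numerator
  have hnum : 2 * GR α Λ η δ γ T * P0R Λ η δ γ s
      ≤ 2 * ((1 - η)⁻¹ * (η / 2 + Real.log 2 + 64 * Real.sqrt (e0b T δ α))) * (1 + η) ^ 3
        * Real.exp (-2 * (α * Real.log α))
        * (AA δ * (1 + α) / (2 * (2 + ε) * (1 - η)) + 54 * Real.sqrt α) := by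
    have h1 : ((1 + η) * (2 * α ^ 2 * Λ)) ^ γ * (CkR Λ η) ^ γ
        ≤ (1 + η) ^ 3 * (α ^ 2 * Real.exp (-2 * (α * Real.log α))) := by
      rw [← Real.mul_rpow (by positivity) hCk.le]
      have h2 : (1 + η) * (2 * α ^ 2 * Λ) * CkR Λ η = (1 + η) ^ 3 * α ^ 2 := by
        unfold CkR; field_simp
      rw [h2, Real.mul_rpow (by positivity) (by positivity)]
      have h3 : ((1 + η) ^ 3) ^ γ ≤ (1 + η) ^ 3 := by
        calc ((1 + η) ^ 3) ^ γ ≤ ((1 + η) ^ 3) ^ (1 : ℝ) :=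
              Real.rpow_le_rpow_of_exponent_le (one_le_pow₀ (by linarith)) hγ1
          _ = _ := Real.rpow_one _
      have h4 : (α ^ 2) ^ γ ≤ α ^ 2 * Real.exp (-2 * (α * Real.log α)) := by
        have h5 := pow_gamma_le hα (by linarith) hγα (x := α ^ 2) (y := α ^ 2) (by positivity)
          (by nlinarith) (by positivity) le_rfl
        refine h5.trans (le_of_eq ?_)
        congr 1
        rw [Real.rpow_def_of_pos (by positivity), Real.log_pow]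
        congr 1
        push_cast; ring
      gcongr
    have h6 : α ^ 2 * (AA δ * (1 / s) + 9 * (1 + 5 * s ^ (-(1 / 4) : ℝ)))
        ≤ AA δ * (1 + α) / (2 * (2 + ε) * (1 - η)) + 54 * Real.sqrt α := by
      have h7 : α ^ 2 * (AA δ * (1 / s)) = AA δ * (1 + α) / (2 * (2 + ε) * (1 - η)) := by
        rw [hs]
        have hγ' : γ = 1 / (1 + α) := by
          rw [eq_div_iff (by positivity)]; linarith
        rw [hγ']
        field_simp
      have h8 : α ^ 2 * (9 * (1 + 5 * s ^ (-(1 / 4) : ℝ))) ≤ 54 * Real.sqrt α := by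
        have h9 : α ≤ Real.sqrt α := by
          rw [Real.le_sqrt' hα]; nlinarith
        calc α ^ 2 * (9 * (1 + 5 * s ^ (-(1 / 4) : ℝ)))
            ≤ α ^ 2 * (9 * (1 + 5 * α ^ (-(1 / 2) : ℝ))) := by gcongr
          _ = 9 * α ^ 2 + 45 * α * (α * α ^ (-(1 / 2) : ℝ)) := by ring
          _ = 9 * α ^ 2 + 45 * α * Real.sqrt α := by rw [hsq]
          _ ≤ 9 * Real.sqrt α + 45 * Real.sqrt α := by
              have h10 : α ^ 2 ≤ Real.sqrt α := by nlinarith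
              have h11 : 45 * α * Real.sqrt α ≤ 45 * 1 * Real.sqrt α := by
                gcongr; linarith
              linarith
          _ = _ := by ring
      calc α ^ 2 * (AA δ * (1 / s) + 9 * (1 + 5 * s ^ (-(1 / 4) : ℝ)))
          = α ^ 2 * (AA δ * (1 / s)) + α ^ 2 * (9 * (1 + 5 * s ^ (-(1 / 4) : ℝ))) := by ring
        _ ≤ _ := by rw [h7]; linarith
    have h12 : Real.sqrt (e0R α δ T) ≤ Real.sqrt (e0b T δ α) := Real.sqrt_le_sqrt he0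
    have hlog : 0 ≤ Real.log 2 := Real.log_nonneg (by norm_num)
    unfold GR P0R
    calc 2 * (((1 + η) * (2 * α ^ 2 * Λ)) ^ γ * ((1 - η)⁻¹ * (η / 2 + Real.log 2
            + 64 * Real.sqrt (e0R α δ T))))
          * (CkR Λ η ^ γ * (AA δ * (1 / s) + 9 * (1 + 5 * s ^ (-(1 / 4) : ℝ))))
        = 2 * ((1 - η)⁻¹ * (η / 2 + Real.log 2 + 64 * Real.sqrt (e0R α δ T)))
          * (((1 + η) * (2 * α ^ 2 * Λ)) ^ γ * (CkR Λ η) ^ γ)
          * (AA δ * (1 / s) + 9 * (1 + 5 * s ^ (-(1 / 4) : ℝ))) := by ring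
      _ ≤ 2 * ((1 - η)⁻¹ * (η / 2 + Real.log 2 + 64 * Real.sqrt (e0b T δ α)))
          * ((1 + η) ^ 3 * (α ^ 2 * Real.exp (-2 * (α * Real.log α))))
          * (AA δ * (1 / s) + 9 * (1 + 5 * s ^ (-(1 / 4) : ℝ))) := by
          gcongr
      _ = 2 * ((1 - η)⁻¹ * (η / 2 + Real.log 2 + 64 * Real.sqrt (e0b T δ α)))
          * (1 + η) ^ 3 * Real.exp (-2 * (α * Real.log α))
          * (α ^ 2 * (AA δ * (1 / s) + 9 * (1 + 5 * s ^ (-(1 / 4) : ℝ)))) := by ring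
      _ ≤ _ := by gcongr
  unfold Eb
  rw [← mul_div_assoc]
  have hnn : 0 ≤ 2 * GR α Λ η δ γ T * P0R Λ η δ γ s := by
    have hlog : 0 ≤ Real.log 2 := Real.log_nonneg (by norm_num)
    unfold GR P0R
    positivity
  gcongr

end Pool.Agent.Cop

end
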