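import Mathlib
import Pool.Agent.Work.MP_cceb86_pr.Par3
import Pool.Agent.Work.MP_cceb86_pr.DBSharp
import Pool.Agent.Work.MP_cceb86_pr.ClSum
import Pool.Agent.Work.MP_cceb86_pr.Mark
import Pool.Agent.Work.MP_cceb86_pr.Free2

/-!
The sharp upper bound: fractional moments of the partition function.
-/

open Finset MeasureTheory ProbabilityTheory Real Filter Topology
open scoped ENNReal NNReal

noncomputable section

namespace Pool.Agent.Cop

/-- the slope of the sharp upper bound -/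
def m3 (ε α : ℝ) : ℝ := 1 / (1 + α) + (2 + ε) * α ^ 2

/-- The fractional moment of the partition function grows at most quadratically. -/
theorem frac_main3 {ε : ℝ} (hε : 0 < ε) (hε1 : ε ≤ 1) :
    ∃ a₀ : ℝ, 0 < a₀ ∧ ∀ α : ℝ, 0 < α → α < a₀ → ∀ c : ℝ, 0 < c → ∀ K : ℕ → ℝ, IsLaw α c K →
      ∀ {Ω : Type*} [MeasurableSpace Ω] (P : Measure Ω) (w : ℕ → Ω → ℝ), IsDisorder P w →
      ∃ lam₀ : ℝ, 0 < lam₀ ∧ ∀ lam : ℝ, 0 < lam → lam < lam₀ → ∀ h : ℝ, m3 ε α * lam ≤ h →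
        ∃ γ : ℝ, 0 < γ ∧ ∃ B : ℝ≥0∞, B ≠ ∞ ∧ ∀ (Kb : ℕ → ℝ≥0∞), (∀ n, Kb n ≤ 1) →
          ∀ N : ℕ, ∫⁻ x, (Zf (fun n => ENNReal.ofReal (K n)) Kb N
            (fun j => ew w lam h j x)) ^ γ ∂P ≤ B * ((N + 1 : ℕ) : ℝ≥0∞) ^ 2 := by
  set η : ℝ := ε / 100 with hη
  set δ : ℝ := ε / 8 with hδ
  have hη0 : 0 < η := by positivity
  have hη1 : η ≤ 1 / 100 := by rw [hη]; linarith
  have hδ0 : 0 < δ := by positivity
  have hδ1 : δ ≤ 1 / 8 := by rw [hδ]; linarith
  have hηδ : η ≤ δ / 4 := by rw [hη, hδ]; linarith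
  obtain ⟨a₁, ha₁, T, HT⟩ := db_sharp hη0 (by linarith : η ≤ 1 / 4)
  set K1 : ℕ := T + 2 + ⌈2 / η⌉₊ with hK1
  have hK1' : K1 < 2 ^ (K1 + 1) := (Nat.lt_two_pow_self).trans (Nat.pow_lt_pow_right (by norm_num) (by omega))
  have hTK : T + 2 < 2 ^ (K1 + 1) := by omega
  have hηK : 2 / η ≤ 2 ^ (K1 + 1) := by
    have h1 := Nat.le_ceil (2 / η)
    have h2 : (⌈2 / η⌉₊ : ℝ) ≤ ((2 ^ (K1 + 1) : ℕ) : ℝ) := by exact_mod_cast (by omega)
    push_cast at h2
    linarith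
  obtain ⟨a₂, ha₂, ha₂', HP⟩ := small_par hε hε1 T K1
  refine ⟨min a₁ a₂, by positivity, ?_⟩
  intro α hα hαa c hc K hK Ω _ P w hw
  have := hw.prob
  have hαa₁ : α < a₁ := hαa.trans_le (min_le_left _ _)
  have hαa₂ : α < a₂ := hαa.trans_le (min_le_right _ _)
  have hα1 : α ≤ 1 / 2 := (hαa₂.trans_le ha₂').le
  obtain ⟨C, hC0, hC⟩ := mgf_bound hw.expInt hw.mean hw.var
  obtain ⟨L₀, hL₀⟩ := eventually_atTop.1 (HT α hα hαa₁ c hc K hK)
  set γ : ℝ := 1 / (1 + α) with hγ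
  have hγα : (1 + α) * γ = 1 := by rw [hγ]; field_simp
  have hγ0 : 0 < γ := by positivity
  have hγ1 : γ ≤ 1 := by rw [hγ, div_le_one (by positivity)]; linarith
  have hγ2 : 1 / 2 ≤ γ := by nlinarith
  set s : ℝ := 2 * γ * (2 + ε) * α ^ 2 * (1 - η) with hs
  have hs0 : 0 < s := by
    have : 0 < 1 - η := by linarith
    positivity
  refine ⟨min (min (1 / 4) (min η (α ^ 2 * η / (2 * C + 1)))) (1 / Real.sqrt (L₀ + 1)),
    by positivity, ?_⟩
  intro lam hl0 hl1 h hh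
  have hl2 : lam < 1 / 4 := lt_of_lt_of_le hl1 ((min_le_left _ _).trans (min_le_left _ _))
  have hl2' : lam < η := lt_of_lt_of_le hl1
    ((min_le_left _ _).trans ((min_le_right _ _).trans (min_le_left _ _)))
  have hl3 : lam < α ^ 2 * η / (2 * C + 1) :=
    lt_of_lt_of_le hl1 ((min_le_left _ _).trans ((min_le_right _ _).trans (min_le_right _ _)))
  have hl4 : lam < 1 / Real.sqrt (L₀ + 1) := lt_of_lt_of_le hl1 (min_le_right _ _)
  set L : ℕ := ⌈1 / lam ^ 2⌉₊ with hL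
  have hlam2 : 0 < lam ^ 2 := by positivity
  have hL1 : 1 ≤ lam ^ 2 * L := by
    have := Nat.le_ceil (1 / lam ^ 2)
    rw [div_le_iff₀ hlam2] at this
    linarith
  have hL2 : lam ^ 2 * L ≤ 1 + η := by
    have := Nat.ceil_lt_add_one (a := 1 / lam ^ 2) (by positivity)
    have h2 : (L : ℝ) < 1 / lam ^ 2 + 1 := this
    have h3 : lam ^ 2 * (1 / lam ^ 2 + 1) = 1 + lam ^ 2 := by field_simp
    have h4 := mul_le_mul_of_nonneg_left h2.le hlam2.le
    have h5 : lam ^ 2 ≤ lam * 1 := by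
      rw [sq]; exact mul_le_mul_of_nonneg_left (by linarith) hl0.le
    linarith
  have hLbig : L₀ ≤ L := by
    have h1 : Real.sqrt (L₀ + 1) * lam < 1 := by
      rw [lt_div_iff₀ (by positivity)] at hl4; linarith
    have h2 : ((L₀ : ℝ) + 1) * lam ^ 2 < 1 := by
      have h3 : (Real.sqrt (L₀ + 1) * lam) ^ 2 < 1 := by
        have : 0 < Real.sqrt (L₀ + 1) * lam := by positivity
        nlinarith
      rwa [mul_pow, Real.sq_sqrt (by positivity)] at h3
    have h3 : (L₀ : ℝ) ≤ L := by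
      have : (L₀ : ℝ) * lam ^ 2 < lam ^ 2 * L := by nlinarith
      nlinarith
    exact_mod_cast h3
  have hLpos : 0 < L := by
    have : (0 : ℝ) < L := by
      by_contra hcon
      push Not at hcon
      nlinarith
    exact_mod_cast this
  -- smallness of the cubic term
  have hcub : 8 * C * lam ^ 3 ≤ 4 * α ^ 2 * η * lam ^ 2 := by
    have h1 : lam * (2 * C + 1) < α ^ 2 * η := by rwa [lt_div_iff₀ (by positivity)] at hl3
    have h2 := mul_le_mul_of_nonneg_left h1.le (by positivity : 0 ≤ 4 * lam ^ 2)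
    have h3 : 0 ≤ 4 * lam ^ 2 * lam := by positivity
    linarith
  set qq : ℝ := Real.exp (2 * α * lam ^ 2) with hqq
  set rr : ℝ := Real.exp (-(s * lam ^ 2)) with hrr
  have hq1 : 1 ≤ qq := by rw [hqq]; exact Real.one_le_exp (by positivity)
  have hqL : qq ^ L ≤ Real.exp (2 * α * (1 + η)) := by
    rw [hqq, ← Real.exp_nat_mul]
    refine Real.exp_le_exp.2 ?_
    have := mul_le_mul_of_nonneg_left hL2 (by positivity : 0 ≤ 2 * α)
    linarith
  have hrL : rr ^ L ≤ Real.exp (-s) := by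
    rw [hrr, ← Real.exp_nat_mul]
    refine Real.exp_le_exp.2 ?_
    have := mul_le_mul_of_nonneg_left hL1 hs0.le
    linarith
  have hrr1 : rr ≤ 1 := by
    rw [hrr, ← Real.exp_zero]
    exact Real.exp_le_exp.2 (by linarith [mul_pos hs0 hlam2])
  have hW : Weights P (ew w lam h) γ (ENNReal.ofReal qq) (ENNReal.ofReal rr) := by
    refine hw.weights ?_ ?_
    · have h1 := hC (-2 * lam) (by rw [abs_mul, abs_of_pos hl0]; norm_num; linarith)
      calc Real.exp (-2 * lam * h) * ∫ x, Real.exp (-2 * lam * w 0 x) ∂P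
          ≤ Real.exp (-2 * lam * h) * Real.exp ((-2 * lam) ^ 2 / 2 + C * |-2 * lam| ^ 3) := by
            gcongr
        _ = Real.exp (-2 * lam * h + 2 * lam ^ 2 + 8 * C * lam ^ 3) := by
            rw [← Real.exp_add]; congr 1
            rw [abs_mul, abs_of_pos hl0]; norm_num; ring
        _ ≤ qq := by
            rw [hqq]
            refine Real.exp_le_exp.2 ?_
            have h2 : 2 * lam * (m3 ε α * lam) ≤ 2 * lam * h := by gcongr
            have h3 : 1 - α + 2 * α ^ 2 ≤ m3 ε α := by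
              have h5 : 1 - α ≤ 1 / (1 + α) := by
                rw [le_div_iff₀ (by positivity)]; nlinarith
              unfold m3
              linarith [mul_pos hε (pow_pos hα 2)]
            have h4 : 2 * lam ^ 2 * (1 - α + 2 * α ^ 2) ≤ 2 * lam ^ 2 * m3 ε α := by gcongr
            have h5 : 4 * α ^ 2 * η * lam ^ 2 ≤ 4 * α ^ 2 * 1 * lam ^ 2 := by
              gcongr; linarith
            linarith
    · have h1 := hC (-2 * lam * γ) (by
        rw [abs_mul, abs_mul, abs_of_pos hl0, abs_of_pos hγ0]; norm_num; nlinarith)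
      calc Real.exp (-2 * lam * h * γ) * ∫ x, Real.exp (-2 * lam * γ * w 0 x) ∂P
          ≤ Real.exp (-2 * lam * h * γ) *
            Real.exp ((-2 * lam * γ) ^ 2 / 2 + C * |-2 * lam * γ| ^ 3) := by gcongr
        _ = Real.exp (-2 * lam * h * γ + 2 * lam ^ 2 * γ ^ 2 + 8 * C * lam ^ 3 * γ ^ 3) := by
            rw [← Real.exp_add]; congr 1
            rw [abs_mul, abs_mul, abs_of_pos hl0, abs_of_pos hγ0]; norm_num; ring
        _ ≤ rr := by
            rw [hrr]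
            refine Real.exp_le_exp.2 ?_
            have h2 : 2 * lam * γ * (m3 ε α * lam) ≤ 2 * lam * γ * h := by gcongr
            have h3 : m3 ε α = γ + (2 + ε) * α ^ 2 := rfl
            rw [h3] at h2
            have h4 : 8 * C * lam ^ 3 * γ ^ 3 ≤ 2 * γ * (2 + ε) * α ^ 2 * η * lam ^ 2 := by
              have h5 : γ ^ 3 ≤ γ := by
                calc γ ^ 3 = γ * γ ^ 2 := by ring
                  _ ≤ γ * 1 := by gcongr; exact pow_le_one₀ hγ0.le hγ1
                  _ = γ := mul_one _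
              calc 8 * C * lam ^ 3 * γ ^ 3 ≤ (4 * α ^ 2 * η * lam ^ 2) * γ := by gcongr
                _ ≤ (4 * α ^ 2 * η * lam ^ 2) * γ + 2 * γ * ε * α ^ 2 * η * lam ^ 2 := by
                    have : 0 ≤ 2 * γ * ε * α ^ 2 * η * lam ^ 2 := by positivity
                    linarith
                _ = _ := by ring
            rw [hs]
            linarith
  set Λ : ℝ := (L : ℝ) ^ α / c with hΛ
  have hL0 : (0 : ℝ) < L := by exact_mod_cast hLpos
  have hΛ0 : 0 < Λ := by positivity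
  obtain ⟨p1, p2, p3⟩ := HP α hα hαa₂ Λ hΛ0 γ s hγα hs
  have hDB := hL₀ L hLbig qq hq1 hqL
  -- the combinatorial sums
  have hFH := fh_par (T := T) (K1 := K1) hα hα1 hΛ0 hη0 (by linarith : η ≤ 1 / 4) hδ0 hδ1 hηδ hTK
  have he1 : ENNReal.ofReal (e0R α δ T) < 1 := by
    rw [ENNReal.ofReal_lt_one]; linarith
  have hinv : (1 - ENNReal.ofReal (e0R α δ T))⁻¹ ≠ ∞ := by
    rw [Ne, ENNReal.inv_eq_top]
    intro h0
    rw [tsub_eq_zero_iff_le] at h0
    exact absurd he1 (not_lt.2 h0)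
  have hcl : clT (YY δ) (fun j => (ENNReal.ofReal (kM α Λ η j)) ^ γ * (ENNReal.ofReal rr) ^ (j * L))
      (fun z => ∑' I, (bb (cl K1) (YY δ) (fun i => ENNReal.ofReal (uS α Λ η T i))
        (fun j => ENNReal.ofReal (kF α Λ η j)) I z) ^ γ) ≠ ∞ := by
    have hlog : 0 ≤ Real.log 2 := Real.log_nonneg (by norm_num)
    have hη' : 0 < 1 - η := by linarith
    have hA := AA_ge hδ0
    refine clT_ne_top _ _ _ (P0 := P0R Λ η δ γ s) (M0 := M0R Λ η γ s) (G0 := G0R α Λ γ K1)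
      (G := GR α Λ η δ γ T) ?_ ?_ ?_ ?_ ?_ ?_ ?_ ?_ p2 p3
    · unfold P0R CkR; positivity
    · unfold M0R CkR; positivity
    · unfold G0R; positivity
    · unfold GR; positivity
    · exact wY_sum hΛ0 hγα hγ0 (Real.exp_pos _).le hs0 hrL hδ0 hδ1
    · exact w_sum hΛ0 hγα hγ0 (Real.exp_pos _).le hs0 hrL
    · exact g0_le hα hα1 hΛ0 hη0 (by linarith) hδ0 hγ0 _
    · intro z hz
      exact gz_le hα hα1 hΛ0 hη0 (by linarith) hδ0 hδ1 hηδ hTK hηK hγα p1 hz
  have hC0' : (∑' I, bb0 (cl K1) (YY δ) (fun i => ENNReal.ofReal (uS α Λ η T i))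
      (fun j => ENNReal.ofReal (kF α Λ η j)) I) ^ γ ≠ ∞ := by
    refine ENNReal.rpow_ne_top_of_nonneg hγ0.le ?_
    refine ne_top_of_le_ne_top ?_ (bb0_sum_le hFH)
    exact ENNReal.add_ne_top.2 ⟨ENNReal.ofReal_ne_top, ENNReal.mul_ne_top
      (ENNReal.mul_ne_top ENNReal.ofReal_ne_top ENNReal.ofReal_ne_top)
      (ENNReal.mul_ne_top hinv ENNReal.ofReal_ne_top)⟩
  have hC1' : bbl (cl K1) (YY δ) (fun i => ENNReal.ofReal (uS α Λ η T i))
      (fun j => ENNReal.ofReal (kF α Λ η j)) ≠ ∞ := ne_top_of_le_ne_top hinv (bbl_le hFH)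
  set H : ℝ≥0∞ := ENNReal.ofReal (3 * α * Λ) with hH
  set BB : ℝ≥0∞ := H ^ γ + (∑' I, bb0 (cl K1) (YY δ) (fun i => ENNReal.ofReal (uS α Λ η T i))
      (fun j => ENNReal.ofReal (kF α Λ η j)) I) ^ γ *
        ((bbl (cl K1) (YY δ) (fun i => ENNReal.ofReal (uS α Λ η T i))
          (fun j => ENNReal.ofReal (kF α Λ η j)) * H) ^ γ *
        clT (YY δ) (fun j => (ENNReal.ofReal (kM α Λ η j)) ^ γ * (ENNReal.ofReal rr) ^ (j * L))
        (fun z => ∑' I, (bb (cl K1) (YY δ) (fun i => ENNReal.ofReal (uS α Λ η T i))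
        (fun j => ENNReal.ofReal (kF α Λ η j)) I z) ^ γ)) with hBB
  refine ⟨γ, hγ0, 2 * BB, ?_, ?_⟩
  · refine ENNReal.mul_ne_top (by norm_num) ?_
    rw [hBB]
    refine ENNReal.add_ne_top.2 ⟨ENNReal.rpow_ne_top_of_nonneg hγ0.le ENNReal.ofReal_ne_top, ?_⟩
    refine ENNReal.mul_ne_top hC0' (ENNReal.mul_ne_top ?_ hcl)
    exact ENNReal.rpow_ne_top_of_nonneg hγ0.le (ENNReal.mul_ne_top hC1' ENNReal.ofReal_ne_top)
  · intro Kb hKb N
    refine free_bound3 hW hγ0 hγ1 (fun m I hI => ?_) hKb N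
    exact constr_sharp hLpos hW hγ0 hγ1 (by
      rw [← ENNReal.ofReal_one]; exact ENNReal.ofReal_le_ofReal hrr1) (cl K1) (YY δ)
      (fun m => hDB m) le_rfl le_rfl le_rfl m I hI

end Pool.Agent.Cop

end
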