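import Mathlib
import Pool.Agent.Work.MP_cceb86_pr.Sums

/-!
The numerical estimates for `α = 1 - x⁴` with small `x`.
-/

open Finset Real Filter Topology

noncomputable section

namespace Pool.Agent.Cop

lemma half_exp (y : ℝ) : (1 + Real.exp (-y)) / 2 ≤ Real.exp (-(y / 2) + y ^ 2 / 8) := by
  have h := Real.cosh_le_exp_half_sq (y / 2)
  have h1 : (1 + Real.exp (-y)) / 2 = Real.exp (-(y / 2)) * Real.cosh (y / 2) := by
    rw [Real.cosh_eq]
    have e1 : Real.exp (-(y / 2)) * Real.exp (y / 2) = 1 := by rw [← Real.exp_add]; simp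
    have e2 : Real.exp (-(y / 2)) * Real.exp (-(y / 2)) = Real.exp (-y) := by
      rw [← Real.exp_add]; congr 1; ring
    calc (1 + Real.exp (-y)) / 2
        = (Real.exp (-(y / 2)) * Real.exp (y / 2)
            + Real.exp (-(y / 2)) * Real.exp (-(y / 2))) / 2 := by rw [e1, e2]
      _ = _ := by ring
  rw [h1, Real.exp_add]
  gcongr
  refine h.trans (le_of_eq ?_)
  congr 1; ring

lemma exp_neg_le {y : ℝ} (hy : 0 ≤ y) : Real.exp (-y) ≤ 1 - y + y ^ 2 / 2 := by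
  -- `exp y ≥ 1 + y + y²/2`
  have h1 := Real.quadratic_le_exp_of_nonneg hy
  have h2 : 0 < 1 + y + y ^ 2 / 2 := by positivity
  rw [Real.exp_neg]
  refine (inv_anti₀ h2 h1).trans ?_
  rw [inv_le_iff_one_le_mul₀ h2]
  nlinarith [sq_nonneg (y ^ 2)]

/-- the parameters -/
structure Par (x α γ D : ℝ) : Prop where
  x0 : 0 < x
  x1 : x < 1 / 48
  hα : α = 1 - x ^ 4
  hγ : γ = (1 + 12 * x) / (1 + α)
  hD : D = 3 / 4 + 13 * x - γ

variable {x α γ D : ℝ}

lemma Par.x4 (h : Par x α γ D) : x ^ 4 ≤ x / 100000 := by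
  have h0 := h.x0
  have h1 := h.x1
  have : x ^ 3 ≤ (1 / 48) ^ 3 := pow_le_pow_left₀ h0.le h1.le 3
  nlinarith

lemma Par.gam (h : Par x α γ D) : 1 / 2 + 6 * x ≤ γ ∧ γ ≤ 1 / 2 + 6 * x + x / 100 := by
  have h0 := h.x0
  have h1 := h.x1
  have h4 := h.x4
  have h5 : 0 < x ^ 4 := by positivity
  have h6 : 0 < 1 + α := by rw [h.hα]; linarith
  constructor
  · rw [h.hγ, le_div_iff₀ h6, h.hα]; nlinarith
  · rw [h.hγ, div_le_iff₀ h6, h.hα]; nlinarith

lemma Par.Db (h : Par x α γ D) : 1 / 4 ≤ D ∧ D ≤ 2 / 5 := by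
  have h0 := h.x0
  have h1 := h.x1
  have hg := h.gam
  rw [h.hD]
  constructor <;> linarith

/-- the main exponent -/
lemma Par.expo (h : Par x α γ D) :
    γ * (1 - γ) / 2 - γ * D + 4 * γ * D * x ≤ -(39 / 10 * x) := by
  have h0 := h.x0
  have h1 := h.x1
  have hg := h.gam
  have hD := h.Db
  have e1 : γ * (1 - γ) / 2 - γ * D = -(γ * (D - (1 - γ) / 2)) := by ring
  have e2 : 99 / 10 * x ≤ D - (1 - γ) / 2 := by rw [h.hD]; linarith
  have e3 : (1 / 2 : ℝ) * (99 / 10 * x) ≤ γ * (D - (1 - γ) / 2) := by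
    apply mul_le_mul <;> linarith
  have e4 : γ * D ≤ 626 / 1000 * (2 / 5) := by
    apply mul_le_mul <;> linarith
  have e5 : 4 * γ * D * x ≤ 4 * (626 / 1000 * (2 / 5)) * x := by nlinarith
  rw [e1]
  nlinarith

lemma Par.p_bound (h : Par x α γ D) :
    66 / 25 * x ^ 4 * (3 * x) ^ (-(1 + α)) ≤ 3 / 10 * x ^ 2 := by
  have h0 := h.x0
  have h1 := h.x1
  have h2 : (3 * x) ^ (-(1 + α)) ≤ (3 * x) ^ (-(2 : ℝ)) := by
    refine Real.rpow_le_rpow_of_exponent_ge (by positivity) (by linarith) ?_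
    rw [h.hα]
    have : 0 < x ^ 4 := by positivity
    linarith
  have h3 : (3 * x) ^ (-(2 : ℝ)) = 1 / (9 * x ^ 2) := by
    rw [Real.rpow_neg (by positivity), Real.rpow_two, mul_pow, one_div]
    norm_num
  rw [h3] at h2
  calc 66 / 25 * x ^ 4 * (3 * x) ^ (-(1 + α)) ≤ 66 / 25 * x ^ 4 * (1 / (9 * x ^ 2)) := by gcongr
    _ = 66 / 225 * x ^ 2 := by field_simp; ring
    _ ≤ 3 / 10 * x ^ 2 := by nlinarith [sq_nonneg x]

lemma Par.c_bound (h : Par x α γ D) (N : ℕ) :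
    ∑ j ∈ range (N + 1), ((132 / 25 * x ^ 4 * ((j + 1 : ℕ) : ℝ) ^ (-(1 + α))) ^ γ
      + (132 / 25 * x ^ 4 * ((j + 1 : ℕ) : ℝ) ^ (-(1 + α))) ^ γ) ≤ 48 / 100 * x := by
  have h0 := h.x0
  have h1 := h.x1
  have hg := h.gam
  have h4 := h.x4
  have hx4 : 0 < x ^ 4 := by positivity
  have h6 : 0 < 1 + α := by rw [h.hα]; linarith
  have hg2 : (1 + α) * γ = 1 + 12 * x := by rw [h.hγ]; field_simp
  have e1 : (132 / 25 * x ^ 4) ^ γ ≤ 23 / 10 * x ^ 2 := by
    calc (132 / 25 * x ^ 4) ^ γ ≤ (132 / 25 * x ^ 4) ^ (1 / 2 : ℝ) := by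
          refine Real.rpow_le_rpow_of_exponent_ge (by positivity) ?_ (by linarith)
          linarith
      _ = Real.sqrt (132 / 25 * x ^ 4) := by rw [Real.sqrt_eq_rpow]
      _ ≤ 23 / 10 * x ^ 2 := by
          rw [Real.sqrt_le_left (by positivity)]
          nlinarith
  have e2 : ∀ j : ℕ, (132 / 25 * x ^ 4 * ((j + 1 : ℕ) : ℝ) ^ (-(1 + α))) ^ γ
      ≤ 23 / 10 * x ^ 2 * ((j + 1 : ℕ) : ℝ) ^ (-(1 + 12 * x)) := by
    intro j
    have hj : (0 : ℝ) < ((j + 1 : ℕ) : ℝ) := by positivity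
    rw [Real.mul_rpow (by positivity) (by positivity), ← Real.rpow_mul hj.le,
      neg_mul, hg2]
    gcongr
  calc ∑ j ∈ range (N + 1), ((132 / 25 * x ^ 4 * ((j + 1 : ℕ) : ℝ) ^ (-(1 + α))) ^ γ
      + (132 / 25 * x ^ 4 * ((j + 1 : ℕ) : ℝ) ^ (-(1 + α))) ^ γ)
      ≤ ∑ j ∈ range (N + 1), (2 * (23 / 10 * x ^ 2)) * ((j + 1 : ℕ) : ℝ) ^ (-(1 + 12 * x)) := by
        refine sum_le_sum fun j _ => ?_
        have := e2 j
        linarith
    _ = (2 * (23 / 10 * x ^ 2)) * ∑ j ∈ range (N + 1), ((j + 1 : ℕ) : ℝ) ^ (-(1 + 12 * x)) := by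
        rw [mul_sum]
    _ ≤ (2 * (23 / 10 * x ^ 2)) * (1 + 1 / (12 * x)) := by
        gcongr
        exact sum_zeta (by positivity) (by linarith) _
    _ = 46 / 10 * x ^ 2 + 46 / 120 * x := by field_simp; ring
    _ ≤ 48 / 100 * x := by nlinarith

/-- the parameters of the block -/
structure Blo (x C lam D : ℝ) (L H : ℕ) : Prop where
  C0 : 0 ≤ C
  l0 : 0 < lam
  l1 : lam ≤ x / 10
  l2 : C * lam ≤ x / 1000
  L1 : 1 ≤ lam ^ 2 * L
  L2 : lam ^ 2 * L ≤ 1 + lam ^ 2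
  HL : (H : ℝ) ≤ 3 * x * L

/-- the rate of the weight of a monomer below -/
def ct (C lam D : ℝ) : ℝ := 2 * D * lam ^ 2 - 8 * C * lam ^ 3

/-- the rate of the effective weight of a monomer in short excursions -/
def Ar (x C lam D : ℝ) : ℝ := Real.exp (-(ct C lam D / 2 * (1 - x)))

variable {C lam : ℝ} {L H : ℕ}

lemma ct_pos (h : Par x α γ D) (hb : Blo x C lam D L H) : 0 < ct C lam D := by
  have h0 := h.x0
  have h1 := h.x1
  have hD := h.Db
  have hl := hb.l0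
  have h2 := hb.l2
  have hl2 : 0 < lam ^ 2 := by positivity
  unfold ct
  have : 8 * C * lam ^ 3 = 8 * (C * lam) * lam ^ 2 := by ring
  rw [this]
  nlinarith

lemma ct_le (hb : Blo x C lam D L H) : ct C lam D ≤ 2 * D * lam ^ 2 := by
  have hl := hb.l0
  have h2 := hb.C0
  unfold ct
  have : 0 ≤ 8 * C * lam ^ 3 := by positivity
  linarith

lemma l_sq (h : Par x α γ D) (hb : Blo x C lam D L H) : lam ^ 2 ≤ x / 4800 := by
  have h0 := h.x0
  have h1 := h.x1
  have hl := hb.l0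
  have h2 := hb.l1
  have : lam ^ 2 ≤ (x / 10) ^ 2 := pow_le_pow_left₀ hl.le h2 2
  nlinarith

lemma half_Ar (h : Par x α γ D) (hb : Blo x C lam D L H) {n : ℕ} (hn : n ≤ H) :
    (1 + Real.exp (-ct C lam D) ^ n) / 2 ≤ Ar x C lam D ^ n := by
  have h0 := h.x0
  have h1 := h.x1
  have hD := h.Db
  have hc := ct_pos h hb
  have hc2 := ct_le hb
  have hl2 := l_sq h hb
  set y : ℝ := n * ct C lam D with hy
  have hy0 : 0 ≤ y := by positivity
  have hy1 : y ≤ 4 * x := by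
    have hn' : (n : ℝ) ≤ 3 * x * L := by
      have : (n : ℝ) ≤ H := by exact_mod_cast hn
      exact this.trans hb.HL
    calc y ≤ (3 * x * L) * (2 * D * lam ^ 2) := by
          rw [hy]; gcongr
      _ = 6 * x * D * (lam ^ 2 * L) := by ring
      _ ≤ 6 * x * (2 / 5) * (1 + lam ^ 2) := by
          have := hb.L2
          gcongr
          · exact hD.2
      _ ≤ 4 * x := by nlinarith
  have e1 : Real.exp (-ct C lam D) ^ n = Real.exp (-y) := by
    rw [← Real.exp_nat_mul]; congr 1; rw [hy]; ring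
  have e2 : Ar x C lam D ^ n = Real.exp (-(y / 2 * (1 - x))) := by
    unfold Ar
    rw [← Real.exp_nat_mul]; congr 1; rw [hy]; ring
  rw [e1, e2]
  refine (half_exp y).trans (Real.exp_le_exp.2 ?_)
  nlinarith

lemma Ar_upper (h : Par x α γ D) (hb : Blo x C lam D L H) :
    Ar x C lam D ^ (L - H) ≤ Real.exp (-(D - 4 * D * x - x / 100)) := by
  have h0 := h.x0
  have h1 := h.x1
  have hD := h.Db
  have hc := ct_pos h hb
  have hl0 := hb.l0
  have hHL : (H : ℝ) ≤ L := by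
    refine hb.HL.trans ?_
    have : (0 : ℝ) ≤ L := by positivity
    nlinarith
  have hHL' : H ≤ L := by exact_mod_cast hHL
  unfold Ar
  rw [← Real.exp_nat_mul]
  refine Real.exp_le_exp.2 ?_
  rw [Nat.cast_sub hHL']
  have h3 : (1 - 3 * x) * L ≤ (L : ℝ) - H := by have := hb.HL; linarith
  have h4 : D - x / 250 ≤ ct C lam D / 2 * L := by
    have e1 : ct C lam D / 2 * L = (D - 4 * (C * lam)) * (lam ^ 2 * L) := by
      unfold ct; ring
    rw [e1]
    have e2 : 0 ≤ D - 4 * (C * lam) := by have := hb.l2; linarith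
    calc D - x / 250 ≤ (D - 4 * (C * lam)) * 1 := by have := hb.l2; linarith
      _ ≤ _ := by
          have := hb.L1
          gcongr
  have h5 : ct C lam D / 2 * (1 - x) * ((1 - 3 * x) * L)
      ≤ ct C lam D / 2 * (1 - x) * ((L : ℝ) - H) := by
    have : 0 ≤ ct C lam D / 2 * (1 - x) := by
      apply mul_nonneg <;> linarith
    gcongr
  have h6 : ct C lam D / 2 * (1 - x) * ((1 - 3 * x) * L)
      = ct C lam D / 2 * L * ((1 - x) * (1 - 3 * x)) := by ring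
  have h7 : 1 - 4 * x ≤ (1 - x) * (1 - 3 * x) := by nlinarith
  have h8 : (D - x / 250) * (1 - 4 * x) ≤ ct C lam D / 2 * L * ((1 - x) * (1 - 3 * x)) := by
    apply mul_le_mul h4 h7 (by linarith)
    positivity
  nlinarith

lemma Ar_lower (h : Par x α γ D) (hb : Blo x C lam D L H) :
    3 / 5 - 1 / 100 ≤ Ar x C lam D ^ (L - H) := by
  have h0 := h.x0
  have h1 := h.x1
  have hD := h.Db
  have hc := ct_pos h hb
  have hl0 := hb.l0
  have hl2 := l_sq h hb
  unfold Ar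
  rw [← Real.exp_nat_mul]
  have h3 : ((L - H : ℕ) : ℝ) ≤ L := by
    have : L - H ≤ L := Nat.sub_le _ _
    exact_mod_cast this
  have h4 : ct C lam D / 2 * (1 - x) * ((L - H : ℕ) : ℝ) ≤ 2 / 5 * (1 + lam ^ 2) := by
    have hct := ct_le hb
    have hD0 : 0 ≤ D := by linarith
    have h1x : 0 ≤ 1 - x := by linarith
    have h1x' : 1 - x ≤ 1 := by linarith
    calc ct C lam D / 2 * (1 - x) * ((L - H : ℕ) : ℝ)
        ≤ (2 * D * lam ^ 2) / 2 * 1 * L := by gcongr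
      _ = D * (lam ^ 2 * L) := by ring
      _ ≤ 2 / 5 * (1 + lam ^ 2) := by
          have := hb.L2
          gcongr
          exact hD.2
  have h5 := Real.add_one_le_exp (((L - H : ℕ) : ℝ) * -(ct C lam D / 2 * (1 - x)))
  refine le_trans ?_ h5
  have h6 : ((L - H : ℕ) : ℝ) * -(ct C lam D / 2 * (1 - x))
      = -(ct C lam D / 2 * (1 - x) * ((L - H : ℕ) : ℝ)) := by ring
  rw [h6]
  nlinarith

/-- the rate of the change of measure cost -/
def kr (γ C lam : ℝ) : ℝ := γ * (1 - γ) / 2 * lam ^ 2 + C * lam ^ 3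

lemma kr_upper (h : Par x α γ D) (hb : Blo x C lam D L H) :
    L * kr γ C lam ≤ γ * (1 - γ) / 2 + x / 100 := by
  have h0 := h.x0
  have h1 := h.x1
  have hg := h.gam
  have hl0 := hb.l0
  have hC0 := hb.C0
  have hl2 := l_sq h hb
  have hg0 : 0 < γ := by linarith
  have hg1 : γ * (1 - γ) ≤ 1 / 4 := by nlinarith [sq_nonneg (γ - 1 / 2)]
  have hg2 : 0 ≤ γ * (1 - γ) := mul_nonneg hg0.le (by linarith)
  have e1 : L * kr γ C lam = (γ * (1 - γ) / 2 + C * lam) * (lam ^ 2 * L) := by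
    unfold kr; ring
  rw [e1]
  have h3 := hb.l2
  have h4 : 0 ≤ C * lam := by positivity
  calc (γ * (1 - γ) / 2 + C * lam) * (lam ^ 2 * L)
      ≤ (γ * (1 - γ) / 2 + C * lam) * (1 + lam ^ 2) := by
        have := hb.L2
        gcongr
    _ ≤ γ * (1 - γ) / 2 + x / 100 := by nlinarith

lemma exp_small : Real.exp (13 / 100) ≤ 23 / 20 := by
  have h1 := exp_neg_le (y := 13 / 100) (by norm_num)
  have h2 := Real.add_one_le_exp (-(13 / 100 : ℝ))
  rw [← neg_neg (13 / 100 : ℝ), Real.exp_neg]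
  have h3 : (20 / 23 : ℝ) ≤ Real.exp (-(13 / 100)) := by
    linarith
  calc (Real.exp (-(13 / 100)))⁻¹ ≤ (20 / 23 : ℝ)⁻¹ := inv_anti₀ (by norm_num) h3
    _ ≤ _ := by norm_num

/-- the real inequality behind the recursion -/
theorem rho2 (h : Par x α γ D) (hb : Blo x C lam D L H) (N : ℕ) :
    Real.exp (kr γ C lam) ^ L * ((Ar x C lam D ^ (L - H)
        + 5 * (66 / 25 * x ^ 4 * (3 * x) ^ (-(1 + α)))) ^ γ
      + ∑ j ∈ range (N + 1), ((132 / 25 * x ^ 4 * ((j + 1 : ℕ) : ℝ) ^ (-(1 + α))) ^ γ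
      + (132 / 25 * x ^ 4 * ((j + 1 : ℕ) : ℝ) ^ (-(1 + α))) ^ γ)) ≤ 1 - 2 * x := by
  have h0 := h.x0
  have h1 := h.x1
  have hg := h.gam
  have hD := h.Db
  have hg0 : 0 < γ := by linarith
  set p : ℝ := 66 / 25 * x ^ 4 * (3 * x) ^ (-(1 + α)) with hp
  set A1 : ℝ := Ar x C lam D ^ (L - H) with hA1
  have hp0 : 0 ≤ p := by positivity
  have hp1 := h.p_bound
  rw [← hp] at hp1
  have hAl := Ar_lower h hb
  have hAu := Ar_upper h hb
  rw [← hA1] at hAl hAu
  have hkr := kr_upper h hb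
  have hc := h.c_bound N
  have hg1 : γ * (1 - γ) ≤ 1 / 4 := by nlinarith [sq_nonneg (γ - 1 / 2)]
  -- first factor
  have e1 : Real.exp (kr γ C lam) ^ L = Real.exp (L * kr γ C lam) := by
    rw [← Real.exp_nat_mul]
  -- c0 ^ γ
  have e2 : (A1 + 5 * p) ^ γ ≤ Real.exp (-(γ * (D - 4 * D * x - x / 100))) * Real.exp (3 * x ^ 2) := by
    have e3 : A1 + 5 * p ≤ Real.exp (-(D - 4 * D * x - x / 100)) * Real.exp (3 * x ^ 2) := by
      calc A1 + 5 * p ≤ A1 * (1 + 9 * p) := by nlinarith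
        _ ≤ A1 * (1 + 3 * x ^ 2) := by
            have hA0 : 0 ≤ A1 := by linarith
            have h9 : 9 * p ≤ 3 * x ^ 2 := by nlinarith
            gcongr
        _ ≤ _ := by
            gcongr
            have := Real.add_one_le_exp (3 * x ^ 2)
            linarith
    have e4 : 0 ≤ A1 + 5 * p := by linarith
    calc (A1 + 5 * p) ^ γ
        ≤ (Real.exp (-(D - 4 * D * x - x / 100)) * Real.exp (3 * x ^ 2)) ^ γ :=
          Real.rpow_le_rpow e4 e3 hg0.le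
      _ = Real.exp (-(γ * (D - 4 * D * x - x / 100))) * Real.exp (3 * x ^ 2 * γ) := by
          rw [← Real.exp_add, ← Real.exp_mul, ← Real.exp_add]
          congr 1; ring
      _ ≤ _ := by
          have h9 : 3 * x ^ 2 * γ ≤ 3 * x ^ 2 := by nlinarith [sq_nonneg x]
          gcongr
  have e5 : Real.exp (L * kr γ C lam) * (A1 + 5 * p) ^ γ ≤ Real.exp (-(37 / 10 * x)) := by
    calc Real.exp (L * kr γ C lam) * (A1 + 5 * p) ^ γ
        ≤ Real.exp (L * kr γ C lam) *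
          (Real.exp (-(γ * (D - 4 * D * x - x / 100))) * Real.exp (3 * x ^ 2)) := by gcongr
      _ = Real.exp (L * kr γ C lam + (-(γ * (D - 4 * D * x - x / 100)) + 3 * x ^ 2)) := by
          rw [Real.exp_add, Real.exp_add]
      _ ≤ _ := by
          refine Real.exp_le_exp.2 ?_
          have := h.expo
          nlinarith
  have e6 : Real.exp (-(37 / 10 * x)) ≤ 1 - 35 / 10 * x := by
    refine (exp_neg_le (by positivity)).trans ?_
    nlinarith
  have e7 : Real.exp (L * kr γ C lam) ≤ 23 / 20 := by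
    refine le_trans (Real.exp_le_exp.2 ?_) exp_small
    linarith
  rw [e1, mul_add]
  have e8 : 0 ≤ ∑ j ∈ range (N + 1), ((132 / 25 * x ^ 4 * ((j + 1 : ℕ) : ℝ) ^ (-(1 + α))) ^ γ
      + (132 / 25 * x ^ 4 * ((j + 1 : ℕ) : ℝ) ^ (-(1 + α))) ^ γ) :=
    sum_nonneg fun j _ => by positivity
  have e9 : Real.exp (L * kr γ C lam) * ∑ j ∈ range (N + 1),
      ((132 / 25 * x ^ 4 * ((j + 1 : ℕ) : ℝ) ^ (-(1 + α))) ^ γ
      + (132 / 25 * x ^ 4 * ((j + 1 : ℕ) : ℝ) ^ (-(1 + α))) ^ γ) ≤ 23 / 20 * (48 / 100 * x) := by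
    gcongr
  linarith

end Pool.Agent.Cop

end
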