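import Mathlib
import Pool.Agent.Work.MP_cceb86_pr.Claim2
import Pool.Agent.Work.MP_cceb86_pr.Total

/-!
The fractional moment of the full partition function, from the second claim.
-/

open Finset MeasureTheory ProbabilityTheory
open scoped ENNReal NNReal

noncomputable section

namespace Pool.Agent.Cop

variable {Ω : Type*} [MeasurableSpace Ω] {P : Measure Ω} {e y : ℕ → Ω → ℝ≥0∞} {γ : ℝ}
  {q r κ : ℝ≥0∞} {φ : ℕ → ℝ≥0∞} {c0 : ℝ≥0∞} {c : ℕ → ℝ≥0∞} {ρ : ℝ≥0∞} {K : ℕ → ℝ≥0∞} {L N : ℕ}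

lemma kT_eq2 (e : Env) : kT K e = fun u v => kI K L e u v + kC K L e u v := by
  funext u v; rw [kI_add_kC]

/-- the constrained partition function -/
theorem constrained_bound2 (hL : 0 < L) (hW : TWeights P e y γ q r κ) (hγ : 0 < γ) (hγ1 : γ < 1)
    (hr : r ≤ 1) (hB : Bds2 K L N γ q κ φ c0 c ρ) (hφ0 : φ 0 = 1)
    (I : Finset ℕ) (hI : Disjoint I (Ioc 0 N)) :
    ∫⁻ ω, ((∏ j ∈ I, e j ω) * ren (kT K (fun j => e j ω)) 0 N) ^ γ ∂P
      ≤ κ ^ L * (1 - ρ)⁻¹ := by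
  classical
  set f : ℕ → Env → ℝ≥0∞ := fun x _ => if x = 0 then 1 else 0 with hf
  have hfM : ∀ x, MA (∅ ∪ Ioc (0 * L) x) (f x) := by
    intro x
    by_cases hx : x = 0
    · simp only [hf, hx, if_true]; exact MA.const _ _
    · simp only [hf, hx, if_false]; exact MA.const _ _
  have h0 : 0 ∈ blk L N 0 := by simp [blk, hL]
  have hsum : ∀ (k : ℕ) (e : Env), ∑ x ∈ blk L N 0, f x e * Zv K L N e k x = Zv K L N e k 0 := by
    intro k e
    rw [sum_eq_single 0]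
    · simp [hf]
    · intro b _ hb; simp [hf, hb]
    · intro h; exact absurd h0 h
  have hsum1 : ∑ x ∈ blk L N 0, f x (fun _ => q) * φ x = 1 := by
    rw [sum_eq_single 0]
    · simp [hf, hφ0]
    · intro b _ hb; simp [hf, hb]
    · intro h; exact absurd h0 h
  have hk : ∀ k, ∫⁻ ω, ((∏ j ∈ I, e j ω) * Zv K L N (fun j => e j ω) k 0) ^ γ ∂P
      ≤ κ ^ L * ρ ^ k := by
    intro k
    have h := claim2 hL hW hγ hγ1 hr hB k 0 I ∅ f hfM (by simp) (by simp) (by simpa using hI)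
    rw [hsum1] at h
    simp_rw [hsum] at h
    simpa using h
  have hm : ∀ k, Measurable (fun ω => ((∏ j ∈ I, e j ω) * Zv K L N (fun j => e j ω) k 0) ^ γ) := by
    intro k
    have m1 : Measurable (fun ω => ∏ j ∈ I, e j ω) := by
      have := hW.meas
      fun_prop
    exact (m1.mul ((MA_Zv K L N k 0).measurable hW.meas)).pow_const γ
  calc ∫⁻ ω, ((∏ j ∈ I, e j ω) * ren (kT K (fun j => e j ω)) 0 N) ^ γ ∂P
      ≤ ∫⁻ ω, ∑ k ∈ range (N + 2),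
          ((∏ j ∈ I, e j ω) * Zv K L N (fun j => e j ω) k 0) ^ γ ∂P := by
        refine lintegral_mono fun ω => ?_
        rw [kT_eq2 (L := L), ren_add_eq_sum_zk _ _ (Nat.zero_le N), mul_sum]
        exact rpow_sum_le _ _ hγ hγ1.le
    _ = ∑ k ∈ range (N + 2), ∫⁻ ω,
          ((∏ j ∈ I, e j ω) * Zv K L N (fun j => e j ω) k 0) ^ γ ∂P :=
        lintegral_finsetSum _ fun k _ => hm k
    _ ≤ ∑ k ∈ range (N + 2), κ ^ L * ρ ^ k := sum_le_sum fun k _ => hk k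
    _ = κ ^ L * ∑ k ∈ range (N + 2), ρ ^ k := by rw [mul_sum]
    _ ≤ κ ^ L * (1 - ρ)⁻¹ := by
        gcongr
        calc ∑ k ∈ range (N + 2), ρ ^ k ≤ ∑' k, ρ ^ k := ENNReal.sum_le_tsum _
          _ = (1 - ρ)⁻¹ := ENNReal.tsum_geometric _

theorem free_bound2 (hL : 0 < L) (hW : TWeights P e y γ q r κ) (hγ : 0 < γ) (hγ1 : γ < 1)
    (hr : r ≤ 1) (hB : ∀ N, Bds2 K L N γ q κ φ c0 c ρ) (hφ0 : φ 0 = 1)
    {Kb : ℕ → ℝ≥0∞} (hKb : ∀ n, Kb n ≤ 1) (N : ℕ) :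
    ∫⁻ ω, (Zf K Kb N (fun j => e j ω)) ^ γ ∂P ≤ (2 * (κ ^ L * (1 - ρ)⁻¹)) * (N + 1 : ℕ) := by
  classical
  set F : ℕ → Ω → ℝ≥0∞ := fun m ω => ren (kT K (fun j => e j ω)) 0 m with hF
  set G : ℕ → Ω → ℝ≥0∞ := fun m ω => (∏ j ∈ Ioc m N, e j ω) * ren (kT K (fun j => e j ω)) 0 m
    with hG
  have hFm : ∀ m, Measurable (F m) := fun m => (MA_ren (MA_kT (K := K)) 0 m).measurable hW.meas
  have hGm : ∀ m, Measurable (G m) := by
    intro m
    have m1 : Measurable (fun ω => ∏ j ∈ Ioc m N, e j ω) := by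
      have := hW.meas
      fun_prop
    exact m1.mul (hFm m)
  have hFb : ∀ m, ∫⁻ ω, (F m ω) ^ γ ∂P ≤ κ ^ L * (1 - ρ)⁻¹ := by
    intro m
    have h := constrained_bound2 (N := m) hL hW hγ hγ1 hr (hB m) hφ0 ∅ (by simp)
    simpa only [prod_empty, one_mul] using h
  have hGb : ∀ m, ∫⁻ ω, (G m ω) ^ γ ∂P ≤ κ ^ L * (1 - ρ)⁻¹ := by
    intro m
    exact constrained_bound2 (N := m) hL hW hγ hγ1 hr (hB m) hφ0 (Ioc m N) (by
      rw [disjoint_left]; intro w; simp only [mem_Ioc]; omega)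
  have hpt : ∀ ω, (Zf K Kb N (fun j => e j ω)) ^ γ
      ≤ ∑ m ∈ range (N + 1), ((F m ω) ^ γ + (G m ω) ^ γ) := by
    intro ω
    unfold Zf
    refine (rpow_sum_le _ _ hγ hγ1.le).trans (sum_le_sum fun m _ => ?_)
    refine le_trans ?_ (ENNReal.rpow_add_le_add_rpow _ _ hγ.le hγ1.le)
    refine ENNReal.rpow_le_rpow ?_ hγ.le
    calc ren (kT K (fun j => e j ω)) 0 m * (Kb (N - m) * ((1 + pI (fun j => e j ω) m N) / 2))
        ≤ ren (kT K (fun j => e j ω)) 0 m * (1 * (1 + pI (fun j => e j ω) m N)) := by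
          gcongr
          · exact hKb _
          · exact ENNReal.half_le_self
      _ = F m ω + G m ω := by
          simp only [hF, hG, pI]; ring
  calc ∫⁻ ω, (Zf K Kb N (fun j => e j ω)) ^ γ ∂P
      ≤ ∫⁻ ω, ∑ m ∈ range (N + 1), ((F m ω) ^ γ + (G m ω) ^ γ) ∂P := lintegral_mono hpt
    _ = ∑ m ∈ range (N + 1), ∫⁻ ω, ((F m ω) ^ γ + (G m ω) ^ γ) ∂P :=
        lintegral_finsetSum _ fun m _ => ((hFm m).pow_const γ).add ((hGm m).pow_const γ)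
    _ ≤ ∑ m ∈ range (N + 1), (2 * (κ ^ L * (1 - ρ)⁻¹)) := by
        refine sum_le_sum fun m _ => ?_
        rw [lintegral_add_left ((hFm m).pow_const γ)]
        calc ∫⁻ ω, (F m ω) ^ γ ∂P + ∫⁻ ω, (G m ω) ^ γ ∂P
            ≤ κ ^ L * (1 - ρ)⁻¹ + κ ^ L * (1 - ρ)⁻¹ := add_le_add (hFb m) (hGb m)
          _ = 2 * (κ ^ L * (1 - ρ)⁻¹) := by ring
    _ = (2 * (κ ^ L * (1 - ρ)⁻¹)) * (N + 1 : ℕ) := by
        rw [sum_const, card_range, nsmul_eq_mul, mul_comm]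

end Pool.Agent.Cop

end
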