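import Mathlib
import Pool.Agent.Work.MP_cceb86_pr.Envi
import Pool.Agent.Work.MP_cceb86_pr.Total2
import Pool.Agent.Work.MP_cceb86_pr.Cross
import Pool.Agent.Work.MP_cceb86_pr.Asym2
import Pool.Agent.Work.MP_cceb86_pr.Real2

/-!
The random environment and the main fractional moment theorem for `α` close to `1`.
-/

open Finset MeasureTheory ProbabilityTheory Real Filter Topology
open scoped ENNReal NNReal

noncomputable section

namespace Pool.Agent.Cop

variable {Ω : Type*} [MeasurableSpace Ω] {P : Measure Ω}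

lemma IsDisorder.tweights {w : ℕ → Ω → ℝ} (hw : IsDisorder P w) {lam h γ t b qq rr κ : ℝ}
    (_hγ : 0 < γ) (hγ1 : γ < 1)
    (h1 : Real.exp (-2 * lam * h * γ) * ∫ x, Real.exp (-2 * lam * γ * w 0 x) ∂P ≤ rr)
    (h2 : Real.exp (-b) * ∫ x, Real.exp (t * w 0 x) ∂P ≤ 1)
    (h3 : Real.exp (-2 * lam * h - b) * ∫ x, Real.exp ((t - 2 * lam) * w 0 x) ∂P ≤ qq)
    (h4 : Real.exp (γ / (1 - γ) * b) * ∫ x, Real.exp (-(γ / (1 - γ) * t) * w 0 x) ∂P
      ≤ Real.exp (κ / (1 - γ))) :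
    TWeights P (ew w lam h) (fun n x => ENNReal.ofReal (Real.exp (t * w n x - b))) γ
      (ENNReal.ofReal qq) (ENNReal.ofReal rr) (ENNReal.ofReal (Real.exp κ)) := by
  have h1γ : 0 < 1 - γ := by linarith
  refine ⟨?_, ?_, ?_, ?_, ?_, ?_, ?_, ?_, ?_⟩
  · intro n
    have := hw.meas n
    unfold ew
    fun_prop
  · intro n
    have := hw.meas n
    fun_prop
  · exact hw.indep.comp (fun _ y => (ENNReal.ofReal (Real.exp (-2 * lam * (y + h))),
      ENNReal.ofReal (Real.exp (t * y - b)))) (fun _ => by fun_prop)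
  · intro n x
    simp only [ne_eq, ENNReal.ofReal_eq_zero, not_le]
    exact Real.exp_pos _
  · intro n x
    exact ENNReal.ofReal_ne_top
  · intro n
    have e1 : ∀ x, (ew w lam h n x) ^ γ = ENNReal.ofReal (Real.exp ((-2 * lam * γ) * w n x
        + (-2 * lam * h * γ))) := by
      intro x; unfold ew
      rw [ENNReal.ofReal_rpow_of_pos (Real.exp_pos _), ← Real.exp_mul]
      congr 2; ring
    simp_rw [e1]
    rw [hw.lint]
    exact ENNReal.ofReal_le_ofReal h1
  · intro n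
    have e1 : ∀ x, ENNReal.ofReal (Real.exp (t * w n x - b))
        = ENNReal.ofReal (Real.exp (t * w n x + (-b))) := by
      intro x; rw [sub_eq_add_neg]
    simp_rw [e1]
    rw [hw.lint, ← ENNReal.ofReal_one]
    exact ENNReal.ofReal_le_ofReal h2
  · intro n
    have e1 : ∀ x, ew w lam h n x * ENNReal.ofReal (Real.exp (t * w n x - b))
        = ENNReal.ofReal (Real.exp ((t - 2 * lam) * w n x + (-2 * lam * h - b))) := by
      intro x; unfold ew
      rw [← ENNReal.ofReal_mul (Real.exp_pos _).le, ← Real.exp_add]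
      congr 2; ring
    simp_rw [e1]
    rw [hw.lint]
    exact ENNReal.ofReal_le_ofReal h3
  · intro n
    have e1 : ∀ x, ENNReal.ofReal (Real.exp (t * w n x - b)) ^ (-(γ / (1 - γ)))
        = ENNReal.ofReal (Real.exp (-(γ / (1 - γ) * t) * w n x + (γ / (1 - γ) * b))) := by
      intro x
      rw [ENNReal.ofReal_rpow_of_pos (Real.exp_pos _), ← Real.exp_mul]
      congr 2; ring
    simp_rw [e1]
    rw [hw.lint]
    calc ENNReal.ofReal (Real.exp (γ / (1 - γ) * b)
            * ∫ x, Real.exp (-(γ / (1 - γ) * t) * w 0 x) ∂P) ^ (1 - γ)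
        ≤ ENNReal.ofReal (Real.exp (κ / (1 - γ))) ^ (1 - γ) := by
          gcongr
      _ = ENNReal.ofReal (Real.exp κ) := by
          rw [ENNReal.ofReal_rpow_of_pos (Real.exp_pos _), ← Real.exp_mul]
          congr 2; field_simp

/-- The slope bound. -/
def m1 (α : ℝ) : ℝ := 3 / 4 + 13 * (1 - α) ^ (1 / 4 : ℝ)

/-- the fractional moment bound in the main case -/
lemma frac_case {w : ℕ → Ω → ℝ} (hw : IsDisorder P w) {α c x γ D : ℝ} {K : ℕ → ℝ}
    (hK : IsLaw α c K) (hα : 0 < α) (hα1 : α < 1) (hc : 0 < c) (hP : Par x α γ D) :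
    ∃ lam₀ : ℝ, 0 < lam₀ ∧ ∀ lam : ℝ, 0 < lam → lam < lam₀ → ∀ h : ℝ, (3 / 4 + 13 * x) * lam ≤ h →
      ∃ B : ℝ≥0∞, B ≠ ∞ ∧ ∀ (Kb : ℕ → ℝ≥0∞), (∀ n, Kb n ≤ 1) →
        ∀ N : ℕ, ∫⁻ x, (Zf (fun n => ENNReal.ofReal (K n)) Kb N (fun j => ew w lam h j x)) ^ γ ∂P
          ≤ B * (N + 1 : ℕ) := by
  have := hw.prob
  obtain ⟨C, hC0, hC⟩ := mgf_bound hw.expInt hw.mean hw.var
  have hx0 := hP.x0
  have hx1 := hP.x1
  have hg := hP.gam
  have hDb := hP.Db
  have hγ0 : 0 < γ := by linarith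
  have hγ1 : γ < 1 := by linarith
  have h1γ : 0 < 1 - γ := by linarith
  obtain ⟨L₀, hL₀⟩ := eventually_atTop.1 (hK.kfacts2 hc hα hα1 (η := 3 * x) (by positivity))
  refine ⟨min (min (x / 10) (x / (1000 * C + 1))) (1 / Real.sqrt (L₀ + 1)), by positivity, ?_⟩
  intro lam hl0 hl1 h hh
  have hl2 : lam < x / 10 := lt_of_lt_of_le hl1 ((min_le_left _ _).trans (min_le_left _ _))
  have hl3 : lam < x / (1000 * C + 1) :=
    lt_of_lt_of_le hl1 ((min_le_left _ _).trans (min_le_right _ _))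
  have hl4 : lam < 1 / Real.sqrt (L₀ + 1) := lt_of_lt_of_le hl1 (min_le_right _ _)
  set L : ℕ := ⌈1 / lam ^ 2⌉₊ with hL
  set H : ℕ := ⌊3 * x * L⌋₊ with hH
  have hlam2 : 0 < lam ^ 2 := by positivity
  have hL1 : 1 ≤ lam ^ 2 * L := by
    have := Nat.le_ceil (1 / lam ^ 2)
    rw [div_le_iff₀ hlam2] at this
    linarith
  have hL2 : lam ^ 2 * L ≤ 1 + lam ^ 2 := by
    have := Nat.ceil_lt_add_one (a := 1 / lam ^ 2) (by positivity)
    have h2 : (L : ℝ) < 1 / lam ^ 2 + 1 := this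
    have h3 : lam ^ 2 * (1 / lam ^ 2 + 1) = 1 + lam ^ 2 := by field_simp
    nlinarith
  have hLbig : L₀ ≤ L := by
    have h1 : Real.sqrt (L₀ + 1) * lam < 1 := by
      rw [lt_div_iff₀ (by positivity)] at hl4; linarith
    have h2 : ((L₀ : ℝ) + 1) * lam ^ 2 < 1 := by
      have h3 : (Real.sqrt (L₀ + 1) * lam) ^ 2 < 1 := by
        have : 0 < Real.sqrt (L₀ + 1) * lam := by positivity
        nlinarith
      rwa [mul_pow, Real.sq_sqrt (by positivity)] at h3
    have h3 : (L₀ : ℝ) ≤ L := by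
      have : (L₀ : ℝ) * lam ^ 2 < lam ^ 2 * L := by nlinarith
      nlinarith
    exact_mod_cast h3
  have hF := hL₀ L hLbig
  have hLpos : 0 < L := hF.big
  have hLr : (0 : ℝ) < L := by exact_mod_cast hLpos
  have hCl : C * lam ≤ x / 1000 := by
    have h1 : lam * (1000 * C + 1) < x := by rwa [lt_div_iff₀ (by positivity)] at hl3
    nlinarith
  have hHr : (H : ℝ) ≤ 3 * x * L := Nat.floor_le (by positivity)
  have hHL : H ≤ L := by
    have : (H : ℝ) ≤ L := hHr.trans (by nlinarith)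
    exact_mod_cast this
  have hb : Blo x C lam D L H := ⟨hC0, hl0, hl2.le, hCl, hL1, hL2, hHr⟩
  have hl5 : lam ≤ 1 / 480 := by linarith
  -- the weights
  set t : ℝ := (1 - γ) * lam with ht
  set b : ℝ := t ^ 2 / 2 + C * t ^ 3 with hbdef
  have ht0 : 0 < t := by positivity
  have htl : t ≤ lam := by rw [ht]; nlinarith
  have hcube : t ^ 3 ≤ lam ^ 3 := pow_le_pow_left₀ ht0.le htl 3
  have hW : TWeights P (ew w lam h) (fun n x => ENNReal.ofReal (Real.exp (t * w n x - b))) γ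
      (ENNReal.ofReal (Real.exp (-ct C lam D))) (ENNReal.ofReal 1)
      (ENNReal.ofReal (Real.exp (kr γ C lam))) := by
    refine hw.tweights hγ0 hγ1 ?_ ?_ ?_ ?_
    · have h1 := hC (-2 * lam * γ) (by
        rw [abs_mul, abs_mul, abs_of_pos hl0, abs_of_pos hγ0]; norm_num; nlinarith)
      calc Real.exp (-2 * lam * h * γ) * ∫ x, Real.exp (-2 * lam * γ * w 0 x) ∂P
          ≤ Real.exp (-2 * lam * h * γ) *
            Real.exp ((-2 * lam * γ) ^ 2 / 2 + C * |-2 * lam * γ| ^ 3) := by gcongr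
        _ = Real.exp (-2 * lam * h * γ + 2 * lam ^ 2 * γ ^ 2 + 8 * C * lam ^ 3 * γ ^ 3) := by
            rw [← Real.exp_add]; congr 1
            rw [abs_mul, abs_mul, abs_of_pos hl0, abs_of_pos hγ0]; norm_num; ring
        _ ≤ Real.exp 0 := by
            refine Real.exp_le_exp.2 ?_
            have h2 : 2 * lam * γ * ((3 / 4 + 13 * x) * lam) ≤ 2 * lam * γ * h := by gcongr
            have h3 : γ ^ 3 ≤ γ := by
              have : γ ^ 2 ≤ 1 := pow_le_one₀ hγ0.le hγ1.le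
              nlinarith
            have h4 : 8 * C * lam ^ 3 * γ ^ 3 ≤ 8 * (x / 1000) * lam ^ 2 * γ := by
              have e : 8 * C * lam ^ 3 * γ ^ 3 = 8 * (C * lam) * lam ^ 2 * γ ^ 3 := by ring
              rw [e]
              gcongr
            have h5 : D = 3 / 4 + 13 * x - γ := hP.hD
            have h6 : 2 * lam * γ * ((3 / 4 + 13 * x) * lam) = 2 * (D + γ) * (lam ^ 2 * γ) := by
              rw [h5]; ring
            have h7 : 0 < lam ^ 2 * γ := by positivity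
            have h8 : 8 * (x / 1000) * (lam ^ 2 * γ) ≤ 2 * D * (lam ^ 2 * γ) :=
              mul_le_mul_of_nonneg_right (by linarith) h7.le
            have h9 : 2 * (D + γ) * (lam ^ 2 * γ) = 2 * D * (lam ^ 2 * γ) + 2 * lam ^ 2 * γ ^ 2 := by
              ring
            have h10 : 8 * (x / 1000) * lam ^ 2 * γ = 8 * (x / 1000) * (lam ^ 2 * γ) := by ring
            have h11 : -2 * lam * h * γ = -(2 * lam * γ * h) := by ring
            rw [h11]
            linarith
        _ = 1 := Real.exp_zero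
    · have h1 := hC t (by rw [abs_of_pos ht0]; linarith)
      calc Real.exp (-b) * ∫ x, Real.exp (t * w 0 x) ∂P
          ≤ Real.exp (-b) * Real.exp (t ^ 2 / 2 + C * |t| ^ 3) := by gcongr
        _ = 1 := by rw [abs_of_pos ht0, ← Real.exp_add, hbdef]; simp
    · have hneg : |t - 2 * lam| = 2 * lam - t := by
        rw [abs_of_neg (by linarith)]; ring
      have h1 := hC (t - 2 * lam) (by rw [hneg]; linarith)
      calc Real.exp (-2 * lam * h - b) * ∫ x, Real.exp ((t - 2 * lam) * w 0 x) ∂P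
          ≤ Real.exp (-2 * lam * h - b) *
            Real.exp ((t - 2 * lam) ^ 2 / 2 + C * |t - 2 * lam| ^ 3) := by gcongr
        _ = Real.exp (-2 * lam * h - b + ((t - 2 * lam) ^ 2 / 2 + C * (2 * lam - t) ^ 3)) := by
            rw [← Real.exp_add, hneg]
        _ ≤ _ := by
            refine Real.exp_le_exp.2 ?_
            have h2 : 2 * lam * ((3 / 4 + 13 * x) * lam) ≤ 2 * lam * h := by gcongr
            have h3 : (2 * lam - t) ^ 3 ≤ (2 * lam) ^ 3 :=
              pow_le_pow_left₀ (by linarith) (by linarith) 3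
            have h4 : C * (2 * lam - t) ^ 3 ≤ C * (2 * lam) ^ 3 := by gcongr
            have h5 : 0 ≤ C * t ^ 3 := by positivity
            have h6 : D = 3 / 4 + 13 * x - γ := hP.hD
            have h7 : 2 * lam * ((3 / 4 + 13 * x) * lam) = 2 * D * lam ^ 2 + 2 * γ * lam ^ 2 := by
              rw [h6]; ring
            have h8 : (t - 2 * lam) ^ 2 / 2 = t ^ 2 / 2 - 2 * t * lam + 2 * lam ^ 2 := by ring
            have h9 : 2 * t * lam = 2 * lam ^ 2 - 2 * γ * lam ^ 2 := by rw [ht]; ring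
            unfold ct
            rw [hbdef]
            nlinarith
    · have hs : γ / (1 - γ) * t = γ * lam := by rw [ht]; field_simp
      have h1 := hC (-(γ * lam)) (by rw [abs_neg, abs_of_pos (by positivity)]; nlinarith)
      rw [hs]
      calc Real.exp (γ / (1 - γ) * b) * ∫ x, Real.exp (-(γ * lam) * w 0 x) ∂P
          ≤ Real.exp (γ / (1 - γ) * b) *
            Real.exp ((-(γ * lam)) ^ 2 / 2 + C * |-(γ * lam)| ^ 3) := by gcongr
        _ = Real.exp (γ / (1 - γ) * b + ((γ * lam) ^ 2 / 2 + C * (γ * lam) ^ 3)) := by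
            rw [← Real.exp_add, abs_neg, abs_of_pos (by positivity)]
            congr 1; ring
        _ ≤ _ := by
            refine Real.exp_le_exp.2 ?_
            have e1 : γ / (1 - γ) * b = γ * (1 - γ) / 2 * lam ^ 2
                + C * γ * (1 - γ) ^ 2 * lam ^ 3 := by
              rw [hbdef, ht]; field_simp
            have e2 : kr γ C lam / (1 - γ) = γ / 2 * lam ^ 2 + C / (1 - γ) * lam ^ 3 := by
              unfold kr; field_simp
            rw [e1, e2]
            have e3 : C * γ * (1 - γ) ^ 2 * lam ^ 3 + C * (γ * lam) ^ 3 ≤ C / (1 - γ) * lam ^ 3 := by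
              have e4 : γ * (1 - γ) ^ 2 + γ ^ 3 ≤ 1 := by
                have : (1 - γ) ^ 2 ≤ 1 - γ := by nlinarith
                have h3 : γ ^ 3 ≤ γ ^ 2 := by nlinarith [sq_nonneg γ]
                nlinarith
              have e5 : 1 ≤ 1 / (1 - γ) := by rw [le_div_iff₀ h1γ]; linarith
              calc C * γ * (1 - γ) ^ 2 * lam ^ 3 + C * (γ * lam) ^ 3
                  = C * lam ^ 3 * (γ * (1 - γ) ^ 2 + γ ^ 3) := by ring
                _ ≤ C * lam ^ 3 * 1 := by gcongr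
                _ ≤ C * lam ^ 3 * (1 / (1 - γ)) := by gcongr
                _ = _ := by ring
            have e6 : γ * (1 - γ) / 2 * lam ^ 2 + (γ * lam) ^ 2 / 2 = γ / 2 * lam ^ 2 := by ring
            linarith
  -- the block bounds
  have hcpos := ct_pos hP hb
  have hA0 : 0 ≤ Ar x C lam D := (Real.exp_pos _).le
  have hA1 : Ar x C lam D ≤ 1 := by
    unfold Ar
    refine Real.exp_le_one_iff.2 ?_
    have : 0 ≤ ct C lam D / 2 * (1 - x) := mul_nonneg (by positivity) (by linarith)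
    linarith
  set U : ℝ := 12 / 5 * (1 - α) * (L : ℝ) ^ α / c with hU
  have hU0 : 0 ≤ U := by
    rw [hU]; have : 0 < 1 - α := by linarith
    positivity
  set kH : ℝ := 11 / 10 * c * (3 * x * L) ^ (-(1 + α)) with hkH
  have hkH0 : 0 ≤ kH := by rw [hkH]; positivity
  set kL : ℕ → ℝ := fun j => 11 / 10 * c * (((j + 1 : ℕ) : ℝ) * L) ^ (-(1 + α)) with hkL
  have hkL0 : ∀ j, 0 ≤ kL j := fun j => by simp only [hkL]; positivity
  have hCH : CrossHyp (fun n => ENNReal.ofReal (K n)) L H (ENNReal.ofReal (Real.exp (-ct C lam D)))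
      (ENNReal.ofReal (Ar x C lam D)) (ENNReal.ofReal U) (ENNReal.ofReal kH) 4
      (fun j => ENNReal.ofReal (kL j)) := by
    refine ⟨hLpos, hHL, ?_, ?_, ?_, ?_, hF.U, ?_, ?_, by norm_num⟩
    · intro S
      rw [← ENNReal.ofReal_sum_of_nonneg (fun n _ => hK.nonneg n), ← ENNReal.ofReal_one]
      exact ENNReal.ofReal_le_ofReal (hK.sum_le_one _)
    · rw [← ENNReal.ofReal_one]
      refine ENNReal.ofReal_le_ofReal ?_
      rw [← Real.exp_zero]
      exact Real.exp_le_exp.2 (by linarith)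
    · rw [← ENNReal.ofReal_one]
      exact ENNReal.ofReal_le_ofReal hA1
    · intro n hn
      have h1 := half_Ar hP hb hn
      rw [← ENNReal.ofReal_pow (Real.exp_pos _).le, ← ENNReal.ofReal_pow hA0]
      refine le_trans (le_of_eq ?_) (ENNReal.ofReal_le_ofReal h1)
      rw [ENNReal.ofReal_div_of_pos (by norm_num), ENNReal.ofReal_add (by norm_num) (by positivity)]
      simp
    · intro n hn
      refine ENNReal.ofReal_le_ofReal ?_
      have hn' : 3 * x * L < n := by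
        rw [hH] at hn
        exact (Nat.floor_lt' (by omega)).1 hn
      refine (hF.up n hn').trans ?_
      rw [hkH]
      have h1 : (n : ℝ) ^ (-(1 + α)) ≤ (3 * x * L) ^ (-(1 + α)) :=
        Real.rpow_le_rpow_of_nonpos (by positivity) hn'.le (by linarith)
      gcongr
    · intro j n hn
      refine ENNReal.ofReal_le_ofReal ?_
      have hn1 : ((j + 1 : ℕ) : ℝ) * L < n := by exact_mod_cast hn
      have hn2 : 3 * x * L < n := by
        refine lt_of_le_of_lt ?_ hn1
        have : (1 : ℝ) ≤ ((j + 1 : ℕ) : ℝ) := by push_cast; linarith [Nat.cast_nonneg (α := ℝ) j]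
        gcongr
        linarith
      refine (hF.up n hn2).trans ?_
      simp only [hkL]
      have h1 : (n : ℝ) ^ (-(1 + α)) ≤ (((j + 1 : ℕ) : ℝ) * L) ^ (-(1 + α)) :=
        Real.rpow_le_rpow_of_nonpos (by positivity) hn1.le (by linarith)
      gcongr
  -- products
  set p : ℝ := 66 / 25 * x ^ 4 * (3 * x) ^ (-(1 + α)) with hp
  have hp0 : 0 ≤ p := by positivity
  have hβ : 1 - α = x ^ 4 := by rw [hP.hα]; ring
  have hLpow : (L : ℝ) ^ α * (L : ℝ) * (L : ℝ) ^ (-(1 + α)) = 1 := by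
    rw [← Real.rpow_add_one hLr.ne', ← Real.rpow_add hLr]
    have : α + 1 + -(1 + α) = 0 := by ring
    rw [this, Real.rpow_zero]
  have hpe : U * (L * kH) = p := by
    rw [hU, hkH, hp, hβ, Real.mul_rpow (by positivity) hLr.le]
    calc 12 / 5 * x ^ 4 * (L : ℝ) ^ α / c * (L * (11 / 10 * c * ((3 * x) ^ (-(1 + α))
          * (L : ℝ) ^ (-(1 + α)))))
        = 66 / 25 * x ^ 4 * (3 * x) ^ (-(1 + α)) * ((L : ℝ) ^ α * (L : ℝ)
          * (L : ℝ) ^ (-(1 + α))) * (c / c) := by ring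
      _ = _ := by rw [hLpow, div_self hc.ne']; ring
  have hce : ∀ j, U * (L * (kL j / 2 * 4)) = 132 / 25 * x ^ 4 * ((j + 1 : ℕ) : ℝ) ^ (-(1 + α)) := by
    intro j
    simp only [hkL]
    rw [hU, hβ, Real.mul_rpow (by positivity) hLr.le]
    calc 12 / 5 * x ^ 4 * (L : ℝ) ^ α / c * (L * (11 / 10 * c * (((j + 1 : ℕ) : ℝ) ^ (-(1 + α))
          * (L : ℝ) ^ (-(1 + α))) / 2 * 4))
        = 132 / 25 * x ^ 4 * ((j + 1 : ℕ) : ℝ) ^ (-(1 + α)) * ((L : ℝ) ^ α * (L : ℝ)
          * (L : ℝ) ^ (-(1 + α))) * (c / c) := by ring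
      _ = _ := by rw [hLpow, div_self hc.ne']; ring
  have hAl := Ar_lower hP hb
  set c0 : ℝ := Ar x C lam D ^ (L - H) + 5 * p with hc0
  have hc00 : 0 ≤ c0 := by rw [hc0]; positivity
  have hpE : ENNReal.ofReal U * (L * ENNReal.ofReal kH) = ENNReal.ofReal p := by
    rw [← hpe, ENNReal.ofReal_mul hU0, ENNReal.ofReal_mul hLr.le, ENNReal.ofReal_natCast]
  have h4 : (4 : ℝ≥0∞) = ENNReal.ofReal 4 := by simp
  have hpE4 : ENNReal.ofReal U * (L * ENNReal.ofReal kH * 4) = ENNReal.ofReal (4 * p) := by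
    rw [← mul_assoc, hpE, h4, ← ENNReal.ofReal_mul hp0, mul_comm]
  have hB : ∀ N, Bds2 (fun n => ENNReal.ofReal (K n)) L N γ
      (ENNReal.ofReal (Real.exp (-ct C lam D))) (ENNReal.ofReal (Real.exp (kr γ C lam)))
      (phi L H 4) (ENNReal.ofReal c0)
      (fun j => ENNReal.ofReal (132 / 25 * x ^ 4 * ((j + 1 : ℕ) : ℝ) ^ (-(1 + α))))
      (ENNReal.ofReal (1 - 2 * x)) := by
    intro N
    refine hCH.bds2 ?_ ?_ ?_ ?_ ?_
    · rw [← ENNReal.ofReal_one]
      refine ENNReal.ofReal_le_ofReal (Real.one_le_exp ?_)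
      unfold kr; positivity
    · rw [hpE, hpE4, ← ENNReal.ofReal_pow hA0, ← ENNReal.ofReal_add (by positivity) hp0,
        ← ENNReal.ofReal_add (by positivity) (by positivity)]
      refine ENNReal.ofReal_le_ofReal (le_of_eq ?_)
      rw [hc0]; ring
    · rw [hpE4, h4, ← ENNReal.ofReal_one, ← ENNReal.ofReal_add (by norm_num) (by positivity),
        ← ENNReal.ofReal_mul hc00]
      refine ENNReal.ofReal_le_ofReal ?_
      rw [hc0]; linarith
    · intro j
      have hk2 : 0 ≤ kL j / 2 := by have := hkL0 j; positivity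
      have e1 : ENNReal.ofReal (kL j / 2) = ENNReal.ofReal (kL j) / 2 := by
        rw [ENNReal.ofReal_div_of_pos (x := kL j) (y := 2) (by norm_num)]
        simp
      refine le_of_eq ?_
      rw [← hce j, ENNReal.ofReal_mul hU0, ENNReal.ofReal_mul hLr.le, ENNReal.ofReal_natCast,
        ENNReal.ofReal_mul hk2, e1, ← h4]
    · have hnn : ∀ j : ℕ, 0 ≤ 132 / 25 * x ^ 4 * ((j + 1 : ℕ) : ℝ) ^ (-(1 + α)) := fun j => by
        positivity
      have e1 : ∀ j : ℕ, ENNReal.ofReal (132 / 25 * x ^ 4 * ((j + 1 : ℕ) : ℝ) ^ (-(1 + α))) ^ γ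
          + ENNReal.ofReal (132 / 25 * x ^ 4 * ((j + 1 : ℕ) : ℝ) ^ (-(1 + α))) ^ γ
          = ENNReal.ofReal ((132 / 25 * x ^ 4 * ((j + 1 : ℕ) : ℝ) ^ (-(1 + α))) ^ γ
            + (132 / 25 * x ^ 4 * ((j + 1 : ℕ) : ℝ) ^ (-(1 + α))) ^ γ) := by
        intro j
        rw [ENNReal.ofReal_rpow_of_nonneg (hnn j) hγ0.le,
          ← ENNReal.ofReal_add (by positivity) (by positivity)]
      simp_rw [e1]
      rw [← ENNReal.ofReal_sum_of_nonneg (fun j _ => by positivity),
        ENNReal.ofReal_rpow_of_nonneg hc00 hγ0.le,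
        ← ENNReal.ofReal_add (by positivity) (sum_nonneg fun j _ => by positivity),
        ← ENNReal.ofReal_pow (Real.exp_pos _).le, ← ENNReal.ofReal_mul (by positivity)]
      exact ENNReal.ofReal_le_ofReal (rho2 hP hb N)
  have hφ0 : phi L H 4 0 = 1 := by unfold phi; simp
  refine ⟨2 * (ENNReal.ofReal (Real.exp (kr γ C lam)) ^ L * (1 - ENNReal.ofReal (1 - 2 * x))⁻¹),
    ?_, ?_⟩
  · refine ENNReal.mul_ne_top (by norm_num) (ENNReal.mul_ne_top
      (ENNReal.pow_ne_top ENNReal.ofReal_ne_top) ?_)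
    rw [Ne, ENNReal.inv_eq_top, ← Ne, ← pos_iff_ne_zero, tsub_pos_iff_lt, ← ENNReal.ofReal_one]
    rw [ENNReal.ofReal_lt_ofReal_iff (by norm_num)]
    linarith
  · intro Kb hKb N
    exact free_bound2 hLpos hW hγ0 hγ1 (by simp) hB hφ0 hKb N

/-- The fractional moment of the partition function grows at most linearly. -/
theorem frac_main2 {w : ℕ → Ω → ℝ} (hw : IsDisorder P w) {α c : ℝ} {K : ℕ → ℝ}
    (hK : IsLaw α c K) (hα : 0 < α) (hα1 : α < 1) (hc : 0 < c) :
    ∃ lam₀ : ℝ, 0 < lam₀ ∧ ∀ lam : ℝ, 0 < lam → lam < lam₀ → ∀ h : ℝ, m1 α * lam ≤ h →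
      ∃ γ : ℝ, 0 < γ ∧ γ ≤ 1 ∧ ∃ B : ℝ≥0∞, B ≠ ∞ ∧ ∀ (Kb : ℕ → ℝ≥0∞), (∀ n, Kb n ≤ 1) →
        ∀ N : ℕ, ∫⁻ x, (Zf (fun n => ENNReal.ofReal (K n)) Kb N (fun j => ew w lam h j x)) ^ γ ∂P
          ≤ B * (N + 1 : ℕ) := by
  have := hw.prob
  set x : ℝ := (1 - α) ^ (1 / 4 : ℝ) with hx
  have hβ : 0 < 1 - α := by linarith
  have hx0 : 0 < x := Real.rpow_pos_of_pos hβ _
  have hx4 : x ^ 4 = 1 - α := by
    rw [hx, ← Real.rpow_natCast, ← Real.rpow_mul hβ.le]
    norm_num
  by_cases hcase : x < 1 / 48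
  · have hP : Par x α ((1 + 12 * x) / (1 + α)) (3 / 4 + 13 * x - (1 + 12 * x) / (1 + α)) :=
      ⟨hx0, hcase, by rw [hx4]; ring, rfl, rfl⟩
    obtain ⟨lam₀, h0, H⟩ := frac_case hw hK hα hα1 hc hP
    have hg := hP.gam
    exact ⟨lam₀, h0, fun lam hl hl2 h hh => ⟨_, by linarith, by linarith, H lam hl hl2 h hh⟩⟩
  · -- the annealed case
    push Not at hcase
    obtain ⟨C, hC0, hC⟩ := mgf_bound hw.expInt hw.mean hw.var
    refine ⟨min (1 / 2) (1 / (400 * C + 1)), by positivity, ?_⟩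
    intro lam hl0 hl1 h hh
    have hl2 : lam < 1 / 2 := lt_of_lt_of_le hl1 (min_le_left _ _)
    have hl3 : lam < 1 / (400 * C + 1) := lt_of_lt_of_le hl1 (min_le_right _ _)
    have hlam2 : 0 < lam ^ 2 := by positivity
    have hcub : 8 * C * lam ^ 3 ≤ 1 / 50 * lam ^ 2 := by
      have h1 : lam * (400 * C + 1) < 1 := by rwa [lt_div_iff₀ (by positivity)] at hl3
      nlinarith [mul_pos hlam2 hl0]
    have hq1 : Real.exp (-2 * lam * h) * ∫ x, Real.exp (-2 * lam * w 0 x) ∂P ≤ 1 := by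
      have h1 := hC (-2 * lam) (by rw [abs_mul, abs_of_pos hl0]; norm_num; linarith)
      calc Real.exp (-2 * lam * h) * ∫ x, Real.exp (-2 * lam * w 0 x) ∂P
          ≤ Real.exp (-2 * lam * h) * Real.exp ((-2 * lam) ^ 2 / 2 + C * |-2 * lam| ^ 3) := by
            gcongr
        _ = Real.exp (-2 * lam * h + 2 * lam ^ 2 + 8 * C * lam ^ 3) := by
            rw [← Real.exp_add]; congr 1
            rw [abs_mul, abs_of_pos hl0]; norm_num; ring
        _ ≤ Real.exp 0 := by
            refine Real.exp_le_exp.2 ?_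
            have h2 : 2 * lam * (m1 α * lam) ≤ 2 * lam * h := by gcongr
            have h3 : 1 + 1 / 50 ≤ m1 α := by
              unfold m1
              rw [← hx]; linarith
            nlinarith
        _ = 1 := Real.exp_zero
    have hW : Weights P (ew w lam h) 1 (ENNReal.ofReal 1) (ENNReal.ofReal 1) := by
      refine hw.weights hq1 ?_
      simpa using hq1
    refine ⟨1, one_pos, le_rfl, 1, by norm_num, ?_⟩
    intro Kb hKb N
    refine annealed_bound hW (by simp) ?_ hKb N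
    intro M
    rw [← ENNReal.ofReal_sum_of_nonneg (fun n _ => hK.nonneg n), ← ENNReal.ofReal_one]
    exact ENNReal.ofReal_le_ofReal (hK.sum_le_one _)

end Pool.Agent.Cop

end
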