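import Mathlib
import Pool.Agent.Work.MP_cceb86_pr.Envi2
import Pool.Agent.Work.MP_cceb86_pr.Final

/-!
The free energy and the critical curve for `α` close to `1`.
-/

open Finset MeasureTheory ProbabilityTheory Real Filter Topology
open scoped ENNReal NNReal

noncomputable section

namespace Pool.Agent.Cop

variable {Ω Ω' : Type*} [MeasurableSpace Ω] [MeasurableSpace Ω'] {P : Measure Ω} {Q : Measure Ω'}
  {K : ℕ → ℝ} {xi : ℕ → Ω → ℕ} {eps : ℕ → Ω → Bool} {w : ℕ → Ω' → ℝ} {α c : ℝ}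

/-- above slope `m1 α` the free energy vanishes for weak coupling. -/
theorem free_zero2 [IsProbabilityMeasure P] (hm : IsModel P K xi eps) (hK : IsLaw α c K)
    (hα : 0 < α) (hα1 : α < 1) (hc : 0 < c) (hw : IsDisorder Q w) :
    ∃ lam₀ : ℝ, 0 < lam₀ ∧ ∀ lam : ℝ, 0 < lam → lam < lam₀ → ∀ h : ℝ, m1 α * lam ≤ h →
      Tendsto (fun N : ℕ => freeN P xi eps Q w lam h N) atTop (𝓝 0) := by
  obtain ⟨lam₀, h0, H⟩ := frac_main2 hw hK hα hα1 hc
  refine ⟨lam₀, h0, fun lam hl hl2 h hh => ?_⟩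
  obtain ⟨γ, hγ, _, B, hB, HB⟩ := H lam hl hl2 h hh
  exact tendsto_zero hm hK hα hα1 hc hw hγ hB (HB (KB (Ke K)) (KB_le_one hK))

/-- if the free energy vanishes above `a` then the critical point is at most `a`. -/
lemma hcrit_le_of {a lam : ℝ} (ha : 0 ≤ a)
    (H : ∀ h : ℝ, a ≤ h → Tendsto (fun N : ℕ => freeN P xi eps Q w lam h N) atTop (𝓝 0)) :
    hcrit P xi eps Q w lam ≤ a := by
  unfold hcrit
  refine Real.sSup_le ?_ ha
  intro h hh
  by_contra hcon
  push Not at hcon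
  have h2 := H h hcon.le
  have hh' : 0 < freeEnergy P xi eps Q w lam h := hh
  unfold freeEnergy at hh'
  rw [h2.limsup_eq] at hh'
  exact lt_irrefl _ hh'

end Pool.Agent.Cop

end
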