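import Mathlib
import Pool.Agent.Work.MP_cceb86_pr.Envi3
import Pool.Agent.Work.MP_cceb86_pr.Final2

/-!
The sharp upper bound on the slope of the critical curve.
-/

open Finset MeasureTheory ProbabilityTheory Real Filter Topology
open scoped ENNReal NNReal

noncomputable section

namespace Pool.Agent.Cop

/-- the free energy vanishes above the slope `m3 ε α` -/
theorem free_zero3 {ε : ℝ} (hε : 0 < ε) :
    ∃ a₀ : ℝ, 0 < a₀ ∧ ∀ α : ℝ, 0 < α → α < a₀ → ∀ c : ℝ, 0 < c → ∀ K : ℕ → ℝ, IsLaw α c K →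
      ∀ {Ω Ω' : Type*} [MeasurableSpace Ω] [MeasurableSpace Ω'] (P : Measure Ω)
        [IsProbabilityMeasure P] (Q : Measure Ω') (xi : ℕ → Ω → ℕ) (eps : ℕ → Ω → Bool),
        IsModel P K xi eps → ∀ w : ℕ → Ω' → ℝ, IsDisorder Q w →
      ∃ lam₀ : ℝ, 0 < lam₀ ∧ ∀ lam : ℝ, 0 < lam → lam < lam₀ → ∀ h : ℝ, m3 ε α * lam ≤ h →
        Tendsto (fun N : ℕ => freeN P xi eps Q w lam h N) atTop (𝓝 0) := by
  obtain ⟨a₀, ha₀, H⟩ := frac_main3 (ε := min ε 1) (lt_min hε one_pos) (min_le_right _ _)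
  refine ⟨min a₀ 1, by positivity, ?_⟩
  intro α hα hαa c hc K hK Ω Ω' _ _ P _ Q xi eps hm w hw
  have hα1 : α < 1 := hαa.trans_le (min_le_right _ _)
  obtain ⟨lam₀, h0, H2⟩ := H α hα (hαa.trans_le (min_le_left _ _)) c hc K hK Q w hw
  refine ⟨lam₀, h0, fun lam hl hl2 h hh => ?_⟩
  have hm3 : m3 (min ε 1) α * lam ≤ h := by
    refine le_trans ?_ hh
    unfold m3
    have : min ε 1 ≤ ε := min_le_left _ _
    gcongr
  obtain ⟨γ, hγ, B, hB, HB⟩ := H2 lam hl hl2 h hm3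
  exact tendsto_zero_sq hm hK hα hα1 hc hw hγ hB (HB (KB (Ke K)) (KB_le_one hK))

end Pool.Agent.Cop

end
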