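import Mathlib

/-!
Discrete coagulation: the recursion `F (k+1) e = F k (e+1) + h (F k * F k) e`.
-/

open Finset Polynomial Filter Topology

noncomputable section

namespace Pool.Agent.Cop

/-- one step of the coagulation recursion, on generating polynomials -/
def cgStep (h : ℝ) (P : ℝ[X]) : ℝ[X] := divX P + C h * (P * P)

/-- mass -/
def cgM (P : ℝ[X]) : ℝ := P.eval 1

/-- Euler operator -/
def cgT (P : ℝ[X]) : ℝ[X] := X * derivative P

/-- first moment -/
def cgN (P : ℝ[X]) : ℝ := (cgT P).eval 1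

/-- second moment -/
def cgV (P : ℝ[X]) : ℝ := (cgT (cgT P)).eval 1

lemma cgT_coeff (P : ℝ[X]) (i : ℕ) : (cgT P).coeff i = i * P.coeff i := by
  unfold cgT
  cases i with
  | zero => simp
  | succ i => rw [coeff_X_mul, coeff_derivative]; push_cast; ring

lemma cg_eval_one {P : ℝ[X]} {S : ℕ} (hS : P.natDegree < S) :
    P.eval 1 = ∑ i ∈ range S, P.coeff i := by
  rw [eval_eq_sum_range' hS]; simp

lemma cgT_natDegree (P : ℝ[X]) : (cgT P).natDegree ≤ P.natDegree := by
  rw [natDegree_le_iff_coeff_eq_zero]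
  intro i hi
  rw [cgT_coeff, coeff_eq_zero_of_natDegree_lt hi, mul_zero]

lemma cgN_sum {P : ℝ[X]} {S : ℕ} (hS : P.natDegree < S) :
    cgN P = ∑ i ∈ range S, (i : ℝ) * P.coeff i := by
  unfold cgN
  rw [cg_eval_one (lt_of_le_of_lt (cgT_natDegree P) hS)]
  exact sum_congr rfl fun i _ => cgT_coeff P i

lemma cgV_sum {P : ℝ[X]} {S : ℕ} (hS : P.natDegree < S) :
    cgV P = ∑ i ∈ range S, (i : ℝ) ^ 2 * P.coeff i := by
  unfold cgV
  rw [cg_eval_one (lt_of_le_of_lt ((cgT_natDegree _).trans (cgT_natDegree P)) hS)]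
  refine sum_congr rfl fun i _ => ?_
  rw [cgT_coeff, cgT_coeff]; ring

lemma cg_cs {P : ℝ[X]} (hP : ∀ i, 0 ≤ P.coeff i) : cgN P ^ 2 ≤ cgM P * cgV P := by
  unfold cgM
  rw [cg_eval_one (Nat.lt_succ_self _), cgN_sum (Nat.lt_succ_self _),
    cgV_sum (Nat.lt_succ_self _)]
  refine sum_sq_le_sum_mul_sum_of_sq_le_mul _ (fun i _ => hP i)
    (fun i _ => mul_nonneg (sq_nonneg _) (hP i)) (fun i _ => le_of_eq (by ring))

lemma cgStep_coeff (h : ℝ) (P : ℝ[X]) (e : ℕ) :
    (cgStep h P).coeff e = P.coeff (e + 1)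
      + h * ∑ i ∈ range (e + 1), P.coeff i * P.coeff (e - i) := by
  unfold cgStep
  rw [coeff_add, coeff_divX, coeff_C_mul, coeff_mul,
    Finset.Nat.sum_antidiagonal_eq_sum_range_succ (fun i j => P.coeff i * P.coeff j)]

lemma cgStep_nonneg {h : ℝ} (hh : 0 ≤ h) {P : ℝ[X]} (hP : ∀ i, 0 ≤ P.coeff i) (e : ℕ) :
    0 ≤ (cgStep h P).coeff e := by
  rw [cgStep_coeff]
  exact add_nonneg (hP _) (mul_nonneg hh (sum_nonneg fun i _ => mul_nonneg (hP _) (hP _)))

lemma cgStep_natDegree (h : ℝ) {P : ℝ[X]} {S : ℕ} (hS : P.natDegree < S) :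
    (cgStep h P).natDegree < 2 * S := by
  unfold cgStep
  have h1 : (divX P).natDegree ≤ P.natDegree := by
    rw [natDegree_divX_eq_natDegree_tsub_one]; omega
  have h2 : (C h * (P * P)).natDegree ≤ P.natDegree + P.natDegree :=
    (natDegree_C_mul_le _ _).trans natDegree_mul_le
  have h3 := natDegree_add_le (divX P) (C h * (P * P))
  rcases max_le_iff.mp (le_refl (max (divX P).natDegree (C h * (P * P)).natDegree)) with ⟨_, _⟩
  have : max (divX P).natDegree (C h * (P * P)).natDegree ≤ P.natDegree + P.natDegree := by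
    refine max_le ?_ h2
    omega
  omega

lemma cg_first {h : ℝ} {P : ℝ[X]} (hP : ∀ i, 0 ≤ P.coeff i) :
    cgN P - cgM P + 2 * h * cgM P * cgN P ≤ cgN (cgStep h P) := by
  have hP' : P = divX P * X + C (P.coeff 0) := (divX_mul_X_add P).symm
  have hM : cgM P = cgM (divX P) + P.coeff 0 := by
    unfold cgM
    conv_lhs => rw [hP']
    simp
  have hN : cgN P = cgM (divX P) + cgN (divX P) := by
    unfold cgM cgN cgT
    conv_lhs => rw [hP']
    simp
    ring
  have hS : cgN (cgStep h P) = cgN (divX P) + h * (2 * cgM P * cgN P) := by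
    unfold cgStep cgN cgM cgT
    simp only [derivative_add, derivative_mul, derivative_C, eval_mul, eval_add, eval_X, eval_C,
      eval_zero]
    ring
  rw [hS]
  have := hP 0
  linarith

lemma cg_second {h : ℝ} {P : ℝ[X]} (hP : ∀ i, 0 ≤ P.coeff i) :
    cgV (cgStep h P) ≤ cgV P - 2 * cgN P + cgM P
      + h * (2 * cgN P ^ 2 + 2 * cgM P * cgV P) := by
  have hP' : P = divX P * X + C (P.coeff 0) := (divX_mul_X_add P).symm
  have hM : cgM P = cgM (divX P) + P.coeff 0 := by
    unfold cgM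
    conv_lhs => rw [hP']
    simp
  have hN : cgN P = cgM (divX P) + cgN (divX P) := by
    unfold cgM cgN cgT
    conv_lhs => rw [hP']
    simp
    ring
  have hV : cgV P = cgV (divX P) + 2 * cgN (divX P) + cgM (divX P) := by
    unfold cgM cgN cgV cgT
    conv_lhs => rw [hP']
    simp
    ring
  have hS : cgV (cgStep h P) = cgV (divX P) + h * (2 * cgN P ^ 2 + 2 * cgM P * cgV P) := by
    unfold cgStep cgV cgN cgM cgT
    simp
    ring
  rw [hS]
  have := hP 0
  linarith

/-- the algebra of one step, for the scaled moments `x = h M`, `n = h N`, `v = h² V`. -/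
lemma cg_alg_ge {h x n v n' v' : ℝ} (hx : 0 ≤ x) (hv : 0 ≤ v) (hn : 1 ≤ n)
    (hcs : h * n ^ 2 ≤ x * v) (h1 : n + x * (2 * n - 1) ≤ n')
    (h2 : v' ≤ v - 2 * h * n + h * x + 2 * h * n ^ 2 + 2 * x * v) :
    v' * n ^ 2 ≤ v * n' ^ 2 := by
  have e1 : 0 ≤ n + x * (2 * n - 1) := by
    have : 0 ≤ x * (2 * n - 1) := mul_nonneg hx (by linarith)
    linarith
  have e2 : (n + x * (2 * n - 1)) ^ 2 ≤ n' ^ 2 := by gcongr
  have e3 : v * (n + x * (2 * n - 1)) ^ 2 ≤ v * n' ^ 2 := by gcongr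
  have e4 : v' * n ^ 2 ≤ (v - 2 * h * n + h * x + 2 * h * n ^ 2 + 2 * x * v) * n ^ 2 := by gcongr
  have e5 : (h * n ^ 2) * (x + 2 * n * (n - 1)) ≤ (x * v) * (x + 2 * n * (n - 1)) := by
    refine mul_le_mul_of_nonneg_right hcs ?_
    have : 0 ≤ 2 * n * (n - 1) := mul_nonneg (by linarith) (by linarith)
    linarith
  have e6 : 0 ≤ v * x ^ 2 * (n * (n - 1)) := by
    have : 0 ≤ n * (n - 1) := mul_nonneg (by linarith) (by linarith)
    positivity
  nlinarith

lemma cg_alg_lt {h x n v v' : ℝ} (hh : 0 ≤ h) (hx : 0 ≤ x) (hv : 0 ≤ v) (hn : 1 / 2 < n)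
    (hn1 : n < 1) (hcs : h * n ^ 2 ≤ x * v)
    (h2 : v' ≤ v - 2 * h * n + h * x + 2 * h * n ^ 2 + 2 * x * v) :
    v' ≤ v * (1 + 2 * x) ^ 2 := by
  have e1 : h ≤ 4 * (x * v) := by
    have : h * (1 / 4) ≤ h * n ^ 2 := by
      refine mul_le_mul_of_nonneg_left ?_ hh
      nlinarith
    linarith
  have e2 : h * x ≤ 4 * (x * v) * x := by gcongr
  have e3 : 2 * h * n ^ 2 ≤ 2 * h * n := by
    have : h * (n * (1 - n)) ≥ 0 := mul_nonneg hh (mul_nonneg (by linarith) (by linarith))
    nlinarith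
  have e4 : 0 ≤ x * v := mul_nonneg hx hv
  nlinarith

lemma cg_log {h : ℝ} {P : ℝ[X]} {S : ℕ} (hS : P.natDegree < S)
    (hT : ∀ t : ℕ, 1 ≤ t →
      (t : ℝ) * h * ∑ e ∈ (range S).filter (fun e => t - 1 ≤ e), P.coeff e ≤ 1) :
    h * cgN P ≤ 1 + Real.log S := by
  rw [cgN_sum hS]
  have h1 : ∑ i ∈ range S, (i : ℝ) * P.coeff i
      = ∑ t ∈ range S, ∑ e ∈ (range S).filter (fun e => t + 1 ≤ e), P.coeff e := by
    simp_rw [sum_filter]
    rw [sum_comm]
    refine sum_congr rfl fun i hi => ?_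
    rw [mem_range] at hi
    rw [← sum_filter, sum_const, nsmul_eq_mul]
    have : (range S).filter (fun t => t + 1 ≤ i) = range i := by
      ext t; simp only [mem_filter, mem_range]; omega
    rw [this, card_range]
  rw [h1, mul_sum]
  have h2 : ∀ t ∈ range S, h * ∑ e ∈ (range S).filter (fun e => t + 1 ≤ e), P.coeff e
      ≤ ((t : ℝ) + 1)⁻¹ := by
    intro t _
    have h3 := hT (t + 2) (by omega)
    rw [show t + 2 - 1 = t + 1 by omega] at h3
    push_cast at h3
    set s := ∑ e ∈ (range S).filter (fun e => t + 1 ≤ e), P.coeff e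
    have h4 : h * s ≤ ((t : ℝ) + 2)⁻¹ := by
      rw [inv_eq_one_div, le_div_iff₀ (by positivity)]
      linarith
    refine h4.trans (inv_anti₀ (by positivity) (by linarith))
  refine (sum_le_sum h2).trans ?_
  have h5 := harmonic_le_one_add_log S
  unfold harmonic at h5
  push_cast at h5
  exact h5

/-- **Growth of the coagulation.** -/
theorem cg_main {h : ℝ} (hh : 0 < h) (P0 : ℝ[X]) (hP0 : ∀ i, 0 ≤ P0.coeff i)
    (hn0 : 1 / 2 < h * cgN P0) (S0 : ℕ) (hS0 : P0.natDegree < S0) :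
    ∃ K t : ℕ, 1 ≤ t ∧ 1 < (t : ℝ) * h *
      ∑ e ∈ (range (2 ^ K * S0)).filter (fun e => t - 1 ≤ e), ((cgStep h)^[K] P0).coeff e := by
  by_contra hcon
  push Not at hcon
  set P : ℕ → ℝ[X] := fun k => (cgStep h)^[k] P0 with hPdef
  have hPs : ∀ k, P (k + 1) = cgStep h (P k) := fun k => by
    simp only [hPdef, Function.iterate_succ_apply']
  have hPn : ∀ k i, 0 ≤ (P k).coeff i := by
    intro k
    induction k with
    | zero => exact hP0
    | succ k ih => intro i; rw [hPs]; exact cgStep_nonneg hh.le ih i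
  have hdeg : ∀ k, (P k).natDegree < 2 ^ k * S0 := by
    intro k
    induction k with
    | zero => simpa [hPdef] using hS0
    | succ k ih =>
      rw [hPs, pow_succ, mul_comm (2 ^ k) 2, mul_assoc]
      exact cgStep_natDegree h ih
  set x : ℕ → ℝ := fun k => h * cgM (P k) with hx
  set n : ℕ → ℝ := fun k => h * cgN (P k) with hn
  set v : ℕ → ℝ := fun k => h ^ 2 * cgV (P k) with hv
  have hx0 : ∀ k, 0 ≤ x k := by
    intro k
    refine mul_nonneg hh.le ?_
    unfold cgM
    rw [cg_eval_one (Nat.lt_succ_self _)]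
    exact sum_nonneg fun i _ => hPn k i
  have hv0 : ∀ k, 0 ≤ v k := by
    intro k
    refine mul_nonneg (by positivity) ?_
    rw [cgV_sum (Nat.lt_succ_self _)]
    exact sum_nonneg fun i _ => mul_nonneg (by positivity) (hPn k i)
  have hx1 : ∀ k, x k ≤ 1 := by
    intro k
    have := hcon k 1 le_rfl
    simp only [Nat.sub_self, Nat.zero_le, Finset.filter_true, Nat.cast_one, one_mul] at this
    rw [← cg_eval_one (hdeg k)] at this
    exact this
  have hcs : ∀ k, h * n k ^ 2 ≤ x k * v k := by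
    intro k
    have := cg_cs (hPn k)
    have h3 : 0 < h ^ 3 := by positivity
    calc h * n k ^ 2 = h ^ 3 * cgN (P k) ^ 2 := by rw [hn]; ring
      _ ≤ h ^ 3 * (cgM (P k) * cgV (P k)) := by gcongr
      _ = x k * v k := by rw [hx, hv]; ring
  have hn' : ∀ k, n k + x k * (2 * n k - 1) ≤ n (k + 1) := by
    intro k
    have := cg_first (h := h) (hPn k)
    rw [← hPs] at this
    have h3 := mul_le_mul_of_nonneg_left this hh.le
    simp only [hn, hx]
    linarith
  have hv' : ∀ k, v (k + 1) ≤ v k - 2 * h * n k + h * x k + 2 * h * n k ^ 2 + 2 * x k * v k := by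
    intro k
    have := cg_second (h := h) (hPn k)
    rw [← hPs] at this
    have h3 := mul_le_mul_of_nonneg_left this (by positivity : 0 ≤ h ^ 2)
    simp only [hn, hx, hv]
    linarith
  -- monotonicity of n
  have hnh : ∀ k, n 0 ≤ n k := by
    intro k
    induction k with
    | zero => exact le_rfl
    | succ k ih =>
      have := hn' k
      have h3 : 0 ≤ x k * (2 * n k - 1) := mul_nonneg (hx0 k) (by
        have : 1 / 2 < n 0 := hn0
        linarith)
      linarith
  have hn00 : 1 / 2 < n 0 := hn0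
  have hnm : ∀ k, n k ≤ n (k + 1) := by
    intro k
    have := hn' k
    have h3 : 0 ≤ x k * (2 * n k - 1) := mul_nonneg (hx0 k) (by
      have := hnh k
      linarith)
    linarith
  -- potential
  set g : ℝ → ℝ := fun y => if y < 1 then 4 * (1 - y) / (2 * n 0 - 1) + 4 else 0 with hg
  have hg0 : ∀ y, 0 ≤ g y := by
    intro y
    simp only [hg]
    split_ifs with hy
    · have : 0 < 2 * n 0 - 1 := by linarith
      have : 0 ≤ 4 * (1 - y) / (2 * n 0 - 1) := div_nonneg (by linarith) this.le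
      linarith
    · exact le_rfl
  obtain ⟨B, hB0, hB⟩ : ∃ B : ℝ, 0 < B ∧ v 0 * Real.exp (g (n 0)) ≤ B * n 0 ^ 2 := by
    have hpos : 0 < n 0 ^ 2 := by
      have : 0 < n 0 := by linarith
      positivity
    refine ⟨v 0 * Real.exp (g (n 0)) / n 0 ^ 2 + 1, ?_, ?_⟩
    · have : 0 ≤ v 0 * Real.exp (g (n 0)) / n 0 ^ 2 :=
        div_nonneg (mul_nonneg (hv0 0) (Real.exp_pos _).le) hpos.le
      linarith
    · rw [add_mul, div_mul_cancel₀ _ hpos.ne']
      linarith
  have hinv : ∀ k, v k * Real.exp (g (n k)) ≤ B * n k ^ 2 := by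
    intro k
    induction k with
    | zero => exact hB
    | succ k ih =>
      have hk0 : 1 / 2 < n k := lt_of_lt_of_le hn00 (hnh k)
      by_cases hk : 1 ≤ n k
      · have e1 : g (n k) = 0 := by simp only [hg]; rw [if_neg (by linarith)]
        have e2 : g (n (k + 1)) = 0 := by
          simp only [hg]; rw [if_neg (by have := hnm k; linarith)]
        rw [e1, Real.exp_zero, mul_one] at ih
        rw [e2, Real.exp_zero, mul_one]
        have h5 := cg_alg_ge (hx0 k) (hv0 k) hk (hcs k) (hn' k) (hv' k)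
        have hpos : 0 < n k ^ 2 := by positivity
        have h6 : v (k + 1) * n k ^ 2 ≤ (B * n (k + 1) ^ 2) * n k ^ 2 := by
          calc v (k + 1) * n k ^ 2 ≤ v k * n (k + 1) ^ 2 := h5
            _ ≤ (B * n k ^ 2) * n (k + 1) ^ 2 := by gcongr
            _ = _ := by ring
        exact le_of_mul_le_mul_right h6 hpos
      · push Not at hk
        have h5 := cg_alg_lt hh.le (hx0 k) (hv0 k) hk0 hk (hcs k) (hv' k)
        have hd : 0 < 2 * n 0 - 1 := by linarith
        have h6 : 4 * x k + g (n (k + 1)) ≤ g (n k) := by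
          have e1 : g (n k) = 4 * (1 - n k) / (2 * n 0 - 1) + 4 := by
            simp only [hg]; rw [if_pos hk]
          by_cases hk2 : n (k + 1) < 1
          · have e2 : g (n (k + 1)) = 4 * (1 - n (k + 1)) / (2 * n 0 - 1) + 4 := by
              simp only [hg]; rw [if_pos hk2]
            rw [e1, e2]
            have h7 : x k * (2 * n 0 - 1) ≤ n (k + 1) - n k := by
              have h8 := hn' k
              have h9 : x k * (2 * n 0 - 1) ≤ x k * (2 * n k - 1) := by
                refine mul_le_mul_of_nonneg_left ?_ (hx0 k)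
                have := hnh k
                linarith
              linarith
            have h8 : x k ≤ (n (k + 1) - n k) / (2 * n 0 - 1) := by
              rw [le_div_iff₀ hd]; exact h7
            have h9 : 4 * (1 - n k) / (2 * n 0 - 1) - 4 * (1 - n (k + 1)) / (2 * n 0 - 1)
                = 4 * ((n (k + 1) - n k) / (2 * n 0 - 1)) := by
              field_simp; ring
            linarith
          · have e2 : g (n (k + 1)) = 0 := by simp only [hg]; rw [if_neg hk2]
            rw [e1, e2]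
            have : 0 ≤ 4 * (1 - n k) / (2 * n 0 - 1) := div_nonneg (by linarith) hd.le
            have := hx1 k
            linarith
        have h7 : (1 + 2 * x k) ^ 2 ≤ Real.exp (4 * x k) := by
          have h8 : 1 + 2 * x k ≤ Real.exp (2 * x k) := by
            have := Real.add_one_le_exp (2 * x k); linarith
          calc (1 + 2 * x k) ^ 2 ≤ (Real.exp (2 * x k)) ^ 2 := by
                have := hx0 k
                gcongr
            _ = Real.exp (4 * x k) := by rw [← Real.exp_nat_mul]; congr 1; push_cast; ring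
        calc v (k + 1) * Real.exp (g (n (k + 1)))
            ≤ (v k * (1 + 2 * x k) ^ 2) * Real.exp (g (n (k + 1))) := by gcongr
          _ ≤ (v k * Real.exp (4 * x k)) * Real.exp (g (n (k + 1))) := by
              have := hv0 k
              gcongr
          _ = v k * Real.exp (4 * x k + g (n (k + 1))) := by rw [Real.exp_add]; ring
          _ ≤ v k * Real.exp (g (n k)) := by
              have := hv0 k
              gcongr
          _ ≤ B * n k ^ 2 := ih
          _ ≤ B * n (k + 1) ^ 2 := by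
              have := hnm k
              gcongr
  -- lower bound of the mass
  have hxl : ∀ k, h / B ≤ x k := by
    intro k
    have h1 := hinv k
    have h2 : v k ≤ B * n k ^ 2 := by
      refine le_trans ?_ h1
      have := Real.one_le_exp (hg0 (n k))
      nlinarith [hv0 k]
    have h3 : h * n k ^ 2 ≤ x k * (B * n k ^ 2) :=
      (hcs k).trans (mul_le_mul_of_nonneg_left h2 (hx0 k))
    have hpos : 0 < n k ^ 2 := by
      have : 0 < n k := by have := hnh k; linarith
      positivity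
    rw [div_le_iff₀ hB0]
    have h4 : h * n k ^ 2 ≤ (x k * B) * n k ^ 2 := by linarith
    exact le_of_mul_le_mul_right h4 hpos
  -- exponential growth
  set y : ℝ := h / B with hy
  have hy0 : 0 < y := by positivity
  have hgrow : ∀ k, (2 * n 0 - 1) * (1 + 2 * y) ^ k ≤ 2 * n k - 1 := by
    intro k
    induction k with
    | zero => simp
    | succ k ih =>
      have h1 := hn' k
      have h2 : 0 < 2 * n k - 1 := by have := hnh k; linarith
      have h3 : y * (2 * n k - 1) ≤ x k * (2 * n k - 1) := by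
        have := hxl k
        gcongr
      calc (2 * n 0 - 1) * (1 + 2 * y) ^ (k + 1)
          = ((2 * n 0 - 1) * (1 + 2 * y) ^ k) * (1 + 2 * y) := by ring
        _ ≤ (2 * n k - 1) * (1 + 2 * y) := by gcongr
        _ ≤ 2 * n (k + 1) - 1 := by linarith
  have hlog : ∀ k : ℕ, n k ≤ (1 + Real.log S0) + k * Real.log 2 := by
    intro k
    have h1 := cg_log (hdeg k) (fun t ht => hcon k t ht)
    have hS00 : (0 : ℝ) < S0 := by
      have : 0 < S0 := by omega
      exact_mod_cast this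
    push_cast at h1
    rw [Real.log_mul (by positivity) hS00.ne', Real.log_pow] at h1
    have h2 : n k = h * cgN (P k) := rfl
    linarith
  -- contradiction
  have hr : 1 < 1 + 2 * y := by linarith
  have ht := tendsto_pow_const_div_const_pow_of_one_lt 1 hr
  have ht0 := tendsto_pow_const_div_const_pow_of_one_lt 0 hr
  have hlim : Tendsto (fun k : ℕ => (1 + 2 * Real.log S0) * ((k : ℝ) ^ 0 / (1 + 2 * y) ^ k)
      + 2 * Real.log 2 * ((k : ℝ) ^ 1 / (1 + 2 * y) ^ k)) atTop
      (𝓝 ((1 + 2 * Real.log S0) * 0 + 2 * Real.log 2 * 0)) :=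
    (ht0.const_mul _).add (ht.const_mul _)
  rw [mul_zero, mul_zero, add_zero] at hlim
  have hc : 0 < 2 * n 0 - 1 := by linarith
  obtain ⟨k, hk⟩ := (hlim.eventually (gt_mem_nhds hc)).exists
  have h1 := hgrow k
  have h2 := hlog k
  have hp : 0 < (1 + 2 * y) ^ k := by positivity
  have h3 : (1 + 2 * Real.log S0) * ((k : ℝ) ^ 0 / (1 + 2 * y) ^ k)
      + 2 * Real.log 2 * ((k : ℝ) ^ 1 / (1 + 2 * y) ^ k)
      = (1 + 2 * Real.log S0 + 2 * Real.log 2 * k) / (1 + 2 * y) ^ k := by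
    rw [pow_zero, pow_one]; ring
  rw [h3, div_lt_iff₀ hp] at hk
  linarith

/-- The recursion with a small loss `d`. -/
def coagF (d h : ℝ) (F0 : ℕ → ℝ) : ℕ → ℕ → ℝ
  | 0, e => (1 - d) * F0 e
  | (k + 1), e => (1 - d) * (coagF d h F0 k (e + 1)
      + (h - d) * ∑ i ∈ range (e + 1), coagF d h F0 k i * coagF d h F0 k (e - i))

/-- the initial masses -/
def coagF0 (κ h : ℝ) (J e : ℕ) : ℝ :=
  if e ≤ J then Real.log (1 + 1 / ((e : ℝ) + 2)) * Real.exp (-κ * ((e : ℝ) + 3) * h) else 0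

lemma coagF0_nonneg (κ h : ℝ) (J e : ℕ) : 0 ≤ coagF0 κ h J e := by
  unfold coagF0
  split_ifs
  · refine mul_nonneg (Real.log_nonneg ?_) (Real.exp_pos _).le
    have : (0 : ℝ) ≤ 1 / ((e : ℝ) + 2) := by positivity
    linarith
  · exact le_rfl

lemma coagF_continuous (h : ℝ) (F0 : ℕ → ℝ) (k : ℕ) :
    ∀ e, Continuous (fun d => coagF d h F0 k e) := by
  induction k with
  | zero => intro e; simp only [coagF]; fun_prop
  | succ k ih =>
    intro e
    simp only [coagF]
    refine Continuous.mul (by fun_prop) (Continuous.add (ih _) (Continuous.mul (by fun_prop) ?_))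
    exact continuous_finsetSum _ fun i _ => (ih i).mul (ih _)

lemma coagF_nonneg {d h : ℝ} {F0 : ℕ → ℝ} (hF : ∀ e, 0 ≤ F0 e) (hd1 : d ≤ 1) (hdh : d ≤ h)
    (k : ℕ) : ∀ e, 0 ≤ coagF d h F0 k e := by
  induction k with
  | zero => intro e; exact mul_nonneg (by linarith) (hF e)
  | succ k ih =>
    intro e
    exact mul_nonneg (by linarith) (add_nonneg (ih _) (mul_nonneg (by linarith)
      (sum_nonneg fun i _ => mul_nonneg (ih _) (ih _))))

lemma coagF_le {d h : ℝ} {F0 : ℕ → ℝ} (hF : ∀ e, 0 ≤ F0 e) (hd1 : d ≤ 1) (hdh : d ≤ h)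
    {G : ℕ → ℕ → ℝ} {K : ℕ} (h0 : ∀ e, (1 - d) * F0 e ≤ G 0 e)
    (hs : ∀ k < K, ∀ e, (1 - d) * (G k (e + 1)
      + (h - d) * ∑ i ∈ range (e + 1), G k i * G k (e - i)) ≤ G (k + 1) e) (k : ℕ) (hk : k ≤ K) :
    ∀ e, coagF d h F0 k e ≤ G k e := by
  induction k with
  | zero => exact h0
  | succ k ih =>
    intro e
    have ih' := ih (by omega)
    refine le_trans ?_ (hs k (by omega) e)
    have h0 := coagF_nonneg hF hd1 hdh k
    simp only [coagF]
    refine mul_le_mul_of_nonneg_left ?_ (by linarith)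
    refine add_le_add (ih' _) (mul_le_mul_of_nonneg_left ?_ (by linarith))
    refine sum_le_sum fun i _ => ?_
    exact mul_le_mul (ih' _) (ih' _) (h0 _) ((h0 i).trans (ih' i))

lemma coagF_zero_eq {h : ℝ} (F0 : ℕ → ℝ) (P0 : ℝ[X]) (hP : ∀ e, P0.coeff e = F0 e) (k : ℕ) :
    ∀ e, coagF 0 h F0 k e = ((cgStep h)^[k] P0).coeff e := by
  induction k with
  | zero => intro e; simp [coagF, hP]
  | succ k ih =>
    intro e
    rw [Function.iterate_succ_apply', cgStep_coeff]
    simp only [coagF, ih]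
    ring

/-- The initial first moment exceeds `1/2`. -/
lemma coag_init {κ : ℝ} (hk0 : 0 < κ) (hk : κ < 2) :
    ∃ (h : ℝ) (J : ℕ), 0 < h ∧
      1 / 2 < h * ∑ e ∈ range (J + 1), (e : ℝ) * coagF0 κ h J e := by
  -- η
  obtain ⟨η, hη0, hη1, hη⟩ : ∃ η : ℝ, 0 < η ∧ η < 1 ∧ κ < 2 * ((1 - η) * (1 - η) * (1 - η)) := by
    have hc : Continuous (fun η : ℝ => 2 * ((1 - η) * (1 - η) * (1 - η))) := by fun_prop
    have h1 : ∀ᶠ η in 𝓝 (0 : ℝ), κ < 2 * ((1 - η) * (1 - η) * (1 - η)) := by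
      refine hc.continuousAt.eventually (lt_mem_nhds ?_)
      norm_num [hk]
    have h2 : ∀ᶠ η in 𝓝[>] (0 : ℝ), κ < 2 * ((1 - η) * (1 - η) * (1 - η)) :=
      nhdsWithin_le_nhds h1
    have h3 : ∀ᶠ η in 𝓝[>] (0 : ℝ), η < 1 :=
      nhdsWithin_le_nhds (gt_mem_nhds (by norm_num))
    obtain ⟨η, ⟨h4, h5⟩, h6⟩ := ((h2.and h3).and self_mem_nhdsWithin).exists
    exact ⟨η, h6, h5, h4⟩
  obtain ⟨E, hE⟩ := exists_nat_ge (3 / η)
  -- h
  obtain ⟨h, hh0, hh⟩ : ∃ h : ℝ, 0 < h ∧ 1 - η < Real.exp (-(κ * ((E : ℝ) + 3) * h)) := by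
    have hc : Continuous (fun h : ℝ => Real.exp (-(κ * ((E : ℝ) + 3) * h))) := by fun_prop
    have h1 : ∀ᶠ h in 𝓝 (0 : ℝ), 1 - η < Real.exp (-(κ * ((E : ℝ) + 3) * h)) := by
      refine hc.continuousAt.eventually (lt_mem_nhds ?_)
      simp [hη0]
    have h2 : ∀ᶠ h in 𝓝[>] (0 : ℝ), 1 - η < Real.exp (-(κ * ((E : ℝ) + 3) * h)) :=
      nhdsWithin_le_nhds h1
    obtain ⟨h, h3, h4⟩ := (h2.and self_mem_nhdsWithin).exists
    exact ⟨h, h4, h3⟩
  -- q and m
  set q : ℝ := Real.exp (-(κ * h)) with hq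
  have hq0 : 0 < q := Real.exp_pos _
  have hq1 : q < 1 := by rw [hq, Real.exp_lt_one_iff]; nlinarith [mul_pos hk0 hh0]
  have hq2 : 1 - q ≤ κ * h := by
    have := Real.add_one_le_exp (-(κ * h)); rw [← hq] at this; linarith
  obtain ⟨m, hm⟩ := exists_pow_lt_of_lt_one hη0 hq1
  refine ⟨h, E + m, hh0, ?_⟩
  have hterm : ∀ e ∈ Ico E (E + m), (1 - η) * (Real.exp (-(κ * 3 * h)) * q ^ e)
      ≤ (e : ℝ) * coagF0 κ h (E + m) e := by
    intro e he
    rw [mem_Ico] at he
    unfold coagF0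
    rw [if_pos (by omega)]
    have e1 : Real.exp (-κ * ((e : ℝ) + 3) * h) = Real.exp (-(κ * 3 * h)) * q ^ e := by
      rw [hq, ← Real.exp_nat_mul, ← Real.exp_add]; congr 1; ring
    rw [e1, ← mul_assoc (e : ℝ)]
    have hpp : 0 ≤ Real.exp (-(κ * 3 * h)) * q ^ e := by positivity
    refine mul_le_mul_of_nonneg_right ?_ hpp
    have e2 : 1 / ((e : ℝ) + 3) ≤ Real.log (1 + 1 / ((e : ℝ) + 2)) := by
      have h3 := Real.one_sub_inv_le_log_of_pos (x := 1 + 1 / ((e : ℝ) + 2)) (by positivity)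
      refine le_trans (le_of_eq ?_) h3
      field_simp; ring
    have e3 : 3 / η ≤ (e : ℝ) := hE.trans (by exact_mod_cast he.1)
    have e4 : 3 ≤ η * e := by
      rw [div_le_iff₀ hη0] at e3; linarith
    have e5 : 1 - η ≤ (e : ℝ) * (1 / ((e : ℝ) + 3)) := by
      rw [mul_one_div, le_div_iff₀ (by positivity)]
      nlinarith
    exact e5.trans (mul_le_mul_of_nonneg_left e2 (by positivity))
  have hsum : ∑ e ∈ Ico E (E + m), (1 - η) * (Real.exp (-(κ * 3 * h)) * q ^ e)
      ≤ ∑ e ∈ range (E + m + 1), (e : ℝ) * coagF0 κ h (E + m) e := by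
    refine (sum_le_sum hterm).trans ?_
    refine sum_le_sum_of_subset_of_nonneg ?_ ?_
    · intro e; simp only [mem_Ico, mem_range]; omega
    · intro e _ _; exact mul_nonneg (by positivity) (coagF0_nonneg _ _ _ _)
  have hgeo : ∑ e ∈ Ico E (E + m), (1 - η) * (Real.exp (-(κ * 3 * h)) * q ^ e)
      = (1 - η) * (Real.exp (-(κ * ((E : ℝ) + 3) * h))) * ((1 - q ^ m) / (1 - q)) := by
    rw [← mul_sum, ← mul_sum, Finset.sum_Ico_eq_sum_range]
    simp only [Nat.add_sub_cancel_left, pow_add]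
    rw [← mul_sum, geom_sum_eq hq1.ne]
    have e1 : Real.exp (-(κ * ((E : ℝ) + 3) * h)) = Real.exp (-(κ * 3 * h)) * q ^ E := by
      rw [hq, ← Real.exp_nat_mul, ← Real.exp_add]; congr 1; ring
    rw [e1]
    have : (q ^ m - 1) / (q - 1) = (1 - q ^ m) / (1 - q) := by
      rw [← neg_sub, ← neg_sub (1 : ℝ) q, neg_div_neg_eq]
    rw [this]; ring
  rw [hgeo] at hsum
  have h1q : 0 < 1 - q := by linarith
  have hκh : 0 < κ * h := mul_pos hk0 hh0
  have hf : (1 - η) / (κ * h) ≤ (1 - q ^ m) / (1 - q) := by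
    rw [div_le_div_iff₀ hκh h1q]
    have a1 : 1 - η ≤ 1 - q ^ m := by linarith
    exact mul_le_mul a1 hq2 h1q.le (by linarith)
  have hA : (1 - η) * (1 - η) * ((1 - η) / (κ * h))
      ≤ ∑ e ∈ range (E + m + 1), (e : ℝ) * coagF0 κ h (E + m) e := by
    refine le_trans ?_ hsum
    have a0 : 0 < 1 - η := by linarith
    have a1 : 0 ≤ (1 - η) / (κ * h) := by positivity
    gcongr
  calc (1 : ℝ) / 2 < h * ((1 - η) * (1 - η) * ((1 - η) / (κ * h))) := by
        have : h * ((1 - η) * (1 - η) * ((1 - η) / (κ * h)))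
            = ((1 - η) * (1 - η) * (1 - η)) / κ := by
          field_simp
        rw [this, lt_div_iff₀ hk0]
        linarith
    _ ≤ _ := by gcongr

/-- **Discrete coagulation, robust form.** -/
theorem coag_robust {κ : ℝ} (hk0 : 0 < κ) (hk : κ < 2) :
    ∃ (h : ℝ) (J K t : ℕ) (d0 : ℝ), 0 < h ∧ 1 ≤ t ∧ 0 < d0 ∧ d0 ≤ 1 ∧ d0 ≤ h ∧
      ∀ d : ℝ, 0 ≤ d → d ≤ d0 → ∀ G : ℕ → ℕ → ℝ,
        (∀ e, (1 - d) * coagF0 κ h J e ≤ G 0 e) →
        (∀ k < K, ∀ e, (1 - d) * (G k (e + 1)
          + (h - d) * ∑ i ∈ range (e + 1), G k i * G k (e - i)) ≤ G (k + 1) e) →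
        1 + d0 < (t : ℝ) * h *
          ∑ e ∈ (range (2 ^ K * (J + 1))).filter (fun e => t - 1 ≤ e), G K e := by
  obtain ⟨h, J, hh, hn⟩ := coag_init hk0 hk
  set F0 := coagF0 κ h J with hF0
  set P0 : ℝ[X] := ∑ e ∈ range (J + 1), monomial e (F0 e) with hP0
  have hco : ∀ e, P0.coeff e = F0 e := by
    intro e
    rw [hP0, finsetSum_coeff]
    simp only [coeff_monomial]
    rw [sum_ite_eq' (range (J + 1)) e]
    split_ifs with he
    · rfl
    · rw [hF0]; unfold coagF0
      rw [if_neg]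
      simpa [mem_range] using he
  have hdeg : P0.natDegree < J + 1 := by
    rw [Nat.lt_succ_iff, natDegree_le_iff_coeff_eq_zero]
    intro e he
    rw [hco, hF0]; unfold coagF0
    rw [if_neg (by omega)]
  have hnn : ∀ i, 0 ≤ P0.coeff i := fun i => by rw [hco]; exact coagF0_nonneg _ _ _ _
  obtain ⟨K, t, ht, hT⟩ := cg_main hh P0 hnn (by
    rw [cgN_sum hdeg]
    simp only [hco]
    exact hn) (J + 1) hdeg
  set T : ℝ → ℝ := fun d => (t : ℝ) * h *
    ∑ e ∈ (range (2 ^ K * (J + 1))).filter (fun e => t - 1 ≤ e), coagF d h F0 K e with hTd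
  have hTc : Continuous T := by
    refine Continuous.mul continuous_const (continuous_finsetSum _ fun e _ => ?_)
    exact coagF_continuous h F0 K e
  have hT0 : 1 < T 0 := by
    simp only [hTd]
    refine lt_of_lt_of_eq hT ?_
    congr 1
    exact sum_congr rfl fun e _ => (coagF_zero_eq F0 P0 hco K e).symm
  set ε := (T 0 - 1) / 2 with hε
  have hε0 : 0 < ε := by rw [hε]; linarith
  have hev : ∀ᶠ d in 𝓝 (0 : ℝ), 1 + ε < T d := by
    refine hTc.continuousAt.eventually (lt_mem_nhds ?_)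
    rw [hε]; linarith
  obtain ⟨δ, hδ0, hδ⟩ := Metric.eventually_nhds_iff.mp hev
  refine ⟨h, J, K, t, min (min (δ / 2) ε) (min 1 h), hh, ht, by positivity,
    (min_le_right _ _).trans (min_le_left _ _), (min_le_right _ _).trans (min_le_right _ _), ?_⟩
  intro d hd0 hd G hG0 hGs
  have hd1 : d ≤ δ / 2 := hd.trans ((min_le_left _ _).trans (min_le_left _ _))
  have hd2 : d ≤ 1 := hd.trans ((min_le_right _ _).trans (min_le_left _ _))
  have hd3 : d ≤ h := hd.trans ((min_le_right _ _).trans (min_le_right _ _))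
  have h1 : 1 + ε < T d := by
    refine hδ ?_
    rw [Real.dist_eq, sub_zero, abs_of_nonneg hd0]
    linarith
  have h2 : min (min (δ / 2) ε) (min 1 h) ≤ ε := (min_le_left _ _).trans (min_le_right _ _)
  have h3 : T d ≤ (t : ℝ) * h *
      ∑ e ∈ (range (2 ^ K * (J + 1))).filter (fun e => t - 1 ≤ e), G K e := by
    simp only [hTd]
    refine mul_le_mul_of_nonneg_left ?_ (by positivity)
    exact sum_le_sum fun e _ =>
      coagF_le (fun e => coagF0_nonneg _ _ _ _) hd2 hd3 hG0 hGs K le_rfl e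
  linarith

/-- **Discrete coagulation.** -/
theorem coag_exact {κ : ℝ} (hk0 : 0 < κ) (hk : κ < 2) :
    ∃ (h : ℝ) (J K t : ℕ), 0 < h ∧ 1 ≤ t ∧ ∀ F : ℕ → ℕ → ℝ,
      (∀ e, F 0 e = if e ≤ J then Real.log (1 + 1 / ((e : ℝ) + 2)) *
        Real.exp (-κ * ((e : ℝ) + 3) * h) else 0) →
      (∀ k e, F (k + 1) e = F k (e + 1) + h * ∑ i ∈ range (e + 1), F k i * F k (e - i)) →
      1 < (t : ℝ) * h * ∑ e ∈ (range (2 ^ K * (J + 1))).filter (fun e => t - 1 ≤ e), F K e := by
  obtain ⟨h, J, K, t, d0, hh, ht, hd0, -, -, H⟩ := coag_robust hk0 hk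
  refine ⟨h, J, K, t, hh, ht, fun F hF0 hFs => ?_⟩
  have := H 0 le_rfl hd0.le F (fun e => by rw [hF0]; simp [coagF0])
    (fun k _ e => by rw [hFs]; simp)
  linarith

end Pool.Agent.Cop

end
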