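import Mathlib
import Pool.Agent.Work.MP_cceb86_pr.Final
import Pool.Agent.Work.MP_cceb86_pr.Cross

/-!
The rare stretch strategy: a criterion for localization.
-/

open Finset MeasureTheory ProbabilityTheory Real Filter Topology
open scoped ENNReal NNReal

noncomputable section

namespace Pool.Agent.Cop

/-- shifted environment -/
def shE (e : Env) (a : ℕ) : Env := fun n => e (n + a)

lemma pI_shift (e : Env) (a x y : ℕ) : pI e (x + a) (y + a) = pI (shE e a) x y := by
  unfold pI shE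
  refine prod_nbij' (fun i => i - a) (fun i => i + a) ?_ ?_ ?_ ?_ ?_
  · intro i hi; simp only [mem_Ioc] at *; omega
  · intro i hi; simp only [mem_Ioc] at *; omega
  · intro i hi; simp only [mem_Ioc] at *; omega
  · intro i hi; simp only [Nat.add_sub_cancel]
  · intro i hi
    simp only [mem_Ioc] at hi
    congr 1; omega

lemma ren_shift {b₁ b₂ : ℕ → ℕ → ℝ≥0∞} {a : ℕ} (h : ∀ x y, b₁ (x + a) (y + a) = b₂ x y)
    (x y : ℕ) : ren b₁ (x + a) (y + a) = ren b₂ x y := by
  induction y using Nat.strong_induction_on with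
  | _ y ih =>
    rcases lt_trichotomy x y with h1 | h1 | h1
    · rw [ren_right _ h1, ren_right _ (by omega : x + a < y + a)]
      rw [← Finset.sum_Ico_add']
      refine sum_congr rfl fun z hz => ?_
      rw [mem_Ico] at hz
      rw [ih z hz.2, h]
    · subst h1; simp [ren_self]
    · rw [ren_of_gt _ h1, ren_of_gt _ (by omega)]

lemma ren_kT_shift (K : ℕ → ℝ≥0∞) (e : Env) (a x y : ℕ) :
    ren (kT K e) (x + a) (y + a) = ren (kT K (shE e a)) x y := by
  refine ren_shift (fun x y => ?_) x y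
  unfold kT
  rw [pI_shift, Nat.add_sub_add_right]

/-- decomposition at the step crossing the boundary `E`. -/
lemma ren_cross (a : ℕ → ℕ → ℝ≥0∞) {E y : ℕ} (hEy : E ≤ y) :
    ∀ x, x < E → ren a x y
      = ∑ s ∈ Ico x E, ren a x s * ∑ t ∈ Icc E y, a s t * ren a t y := by
  intro x
  induction hn : E - x using Nat.strong_induction_on generalizing x with
  | _ n ih =>
    intro hx
    rw [sum_ren_step a (fun s => ∑ t ∈ Icc E y, a s t * ren a t y) hx, ren_left a (by omega)]
    have h1 : Ioc x y = Icc E y ∪ Ioo x E := by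
      ext z; simp only [mem_Ioc, mem_union, mem_Icc, mem_Ioo]; omega
    rw [h1, sum_union (by rw [disjoint_left]; intro z; simp only [mem_Icc, mem_Ioo]; omega)]
    congr 1
    refine sum_congr rfl fun w hw => ?_
    rw [mem_Ioo] at hw
    rw [ih (E - w) (by omega) w rfl hw.2]

/-- total weight of the chains inside a block, with end points in `G`. -/
def YG (K : ℕ → ℝ≥0∞) (G : Finset ℕ) (e : Env) : ℝ≥0∞ :=
  ∑ s ∈ G, ∑ t ∈ G, ren (kT K e) s t

/-- total weight of the chains ending in the block `j`. -/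
def RG (K : ℕ → ℝ≥0∞) (G : Finset ℕ) (ℓ : ℕ) (e : Env) (j : ℕ) : ℝ≥0∞ :=
  ∑ t ∈ G, ren (kT K e) 0 (t + j * ℓ)

section Det

variable {K : ℕ → ℝ} {α cs Y A θ : ℝ} {ℓ d0 : ℕ} {G : Finset ℕ}

lemma sum_image_shift (G : Finset ℕ) (a : ℕ) (f : ℕ → ℝ≥0∞) {S : Finset ℕ}
    (hS : ∀ t ∈ G, t + a ∈ S) : ∑ t ∈ G, f (t + a) ≤ ∑ t ∈ S, f t := by
  rw [← sum_image (f := f) (g := fun t => t + a) (s := G) (fun x _ y _ h => by
    simp only at h; omega)]
  refine sum_le_sum_of_subset ?_
  intro t ht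
  rw [mem_image] at ht
  obtain ⟨s, hs, rfl⟩ := ht
  exact hS s hs

/-- the kernel between two blocks -/
lemma kT_between (hKl : ∀ n : ℕ, d0 ≤ n → cs * (n : ℝ) ^ (-(1 + α)) ≤ K n / 2) (hcs : 0 < cs)
    (hα : 0 < α) (hd0 : 0 < d0) (_hℓ : 0 < ℓ) (e : Env) {x y D : ℕ} (h1 : d0 ≤ y - x)
    (h2 : y - x ≤ D * ℓ) :
    ENNReal.ofReal (cs * ((D : ℝ) * ℓ) ^ (-(1 + α))) ≤ kT (Ke K) e x y := by
  unfold kT Ke
  have h3 : ENNReal.ofReal (K (y - x) / 2) = ENNReal.ofReal (K (y - x)) / 2 := by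
    rw [ENNReal.ofReal_div_of_pos (by norm_num)]; simp
  rw [← h3]
  calc ENNReal.ofReal (cs * ((D : ℝ) * ℓ) ^ (-(1 + α)))
      ≤ ENNReal.ofReal (K (y - x) / 2) := by
        refine ENNReal.ofReal_le_ofReal ((hKl _ h1).trans' ?_)
        have hpos : (0 : ℝ) < ((y - x : ℕ) : ℝ) := by
          have : 0 < y - x := by omega
          exact_mod_cast this
        have hle : ((y - x : ℕ) : ℝ) ≤ (D : ℝ) * ℓ := by exact_mod_cast h2
        have := Real.rpow_le_rpow_of_nonpos hpos hle (show -(1 + α) ≤ 0 by linarith)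
        gcongr
    _ = ENNReal.ofReal (K (y - x) / 2) * 1 := (mul_one _).symm
    _ ≤ ENNReal.ofReal (K (y - x) / 2) * (1 + pI e x y) := by gcongr; exact le_self_add

variable (hKl : ∀ n : ℕ, d0 ≤ n → cs * (n : ℝ) ^ (-(1 + α)) ≤ K n / 2) (hcs : 0 < cs)
  (hα : 0 < α) (hd0 : 0 < d0) (hℓ : 0 < ℓ) (hG : ∀ x ∈ G, x + d0 ≤ ℓ)

include hKl hcs hα hd0 hℓ hG in
lemma RG_first (e : Env) {k : ℕ} (hk : 1 ≤ k) :
    ENNReal.ofReal (cs * (((k + 1 : ℕ) : ℝ) * ℓ) ^ (-(1 + α))) * YG (Ke K) G (shE e (k * ℓ))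
      ≤ RG (Ke K) G ℓ e k := by
  have hkℓ : ℓ ≤ k * ℓ := Nat.le_mul_of_pos_left _ (by omega)
  unfold YG RG
  rw [mul_sum, sum_congr rfl (fun s _ => mul_sum _ _ _), sum_comm]
  refine sum_le_sum fun t ht => ?_
  have ht' := hG t ht
  rw [ren_left _ (show 0 < t + k * ℓ by omega)]
  calc ∑ s ∈ G, ENNReal.ofReal (cs * (((k + 1 : ℕ) : ℝ) * ℓ) ^ (-(1 + α)))
        * ren (kT (Ke K) (shE e (k * ℓ))) s t
      ≤ ∑ s ∈ G, (if s + k * ℓ ≤ t + k * ℓ then kT (Ke K) e 0 (s + k * ℓ)
        * ren (kT (Ke K) e) (s + k * ℓ) (t + k * ℓ) else 0) := by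
        refine sum_le_sum fun s hs => ?_
        have hs' := hG s hs
        rw [← ren_kT_shift]
        by_cases hst : s + k * ℓ ≤ t + k * ℓ
        · rw [if_pos hst]
          gcongr
          refine kT_between hKl hcs hα hd0 hℓ e (by omega) ?_
          have : (k + 1) * ℓ = k * ℓ + ℓ := by ring
          omega
        · rw [ren_of_gt _ (by omega)]; simp
    _ ≤ ∑ z ∈ Icc (k * ℓ) (k * ℓ + ℓ), (if z ≤ t + k * ℓ then kT (Ke K) e 0 z
        * ren (kT (Ke K) e) z (t + k * ℓ) else 0) := by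
        refine sum_image_shift G (k * ℓ) (fun z => if z ≤ t + k * ℓ then kT (Ke K) e 0 z
          * ren (kT (Ke K) e) z (t + k * ℓ) else 0) ?_
        intro s hs
        have := hG s hs
        rw [mem_Icc]; omega
    _ = ∑ z ∈ (Icc (k * ℓ) (k * ℓ + ℓ)).filter (fun z => z ≤ t + k * ℓ), kT (Ke K) e 0 z
        * ren (kT (Ke K) e) z (t + k * ℓ) := by rw [sum_filter]
    _ ≤ _ := by
        refine sum_le_sum_of_subset ?_
        intro z hz
        rw [mem_filter, mem_Icc] at hz
        rw [mem_Ioc]; omega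

include hKl hcs hα hd0 hℓ hG in
lemma RG_next (e : Env) {j k : ℕ} (hjk : j < k) :
    RG (Ke K) G ℓ e j * (ENNReal.ofReal (cs * (((k - j + 1 : ℕ) : ℝ) * ℓ) ^ (-(1 + α)))
      * YG (Ke K) G (shE e (k * ℓ))) ≤ RG (Ke K) G ℓ e k := by
  have hkℓ : j * ℓ + ℓ ≤ k * ℓ := by
    have : (j + 1) * ℓ ≤ k * ℓ := Nat.mul_le_mul_right _ hjk
    linarith [this, show (j + 1) * ℓ = j * ℓ + ℓ by ring]
  have hgap : (k - j + 1) * ℓ = k * ℓ - j * ℓ + ℓ := by
    rw [Nat.add_mul, Nat.sub_mul, one_mul]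
  set B : ℝ≥0∞ := ENNReal.ofReal (cs * (((k - j + 1 : ℕ) : ℝ) * ℓ) ^ (-(1 + α))) with hB
  unfold YG RG
  have h1 : (∑ u ∈ G, ren (kT (Ke K) e) 0 (u + j * ℓ)) *
      (B * ∑ s ∈ G, ∑ t ∈ G, ren (kT (Ke K) (shE e (k * ℓ))) s t)
      = ∑ t ∈ G, ∑ u ∈ G, ren (kT (Ke K) e) 0 (u + j * ℓ) *
          ∑ s ∈ G, B * ren (kT (Ke K) (shE e (k * ℓ))) s t := by
    rw [sum_comm (s := G) (t := G) (f := fun s t => ren (kT (Ke K) (shE e (k * ℓ))) s t)]
    rw [mul_sum, mul_sum]
    refine sum_congr rfl fun t _ => ?_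
    rw [sum_mul]
    refine sum_congr rfl fun u _ => ?_
    rw [mul_sum]
  rw [h1]
  refine sum_le_sum fun t ht => ?_
  have ht' := hG t ht
  rw [ren_cross (kT (Ke K) e) (E := k * ℓ) (y := t + k * ℓ) (by omega) 0 (by omega)]
  calc ∑ u ∈ G, ren (kT (Ke K) e) 0 (u + j * ℓ) *
          ∑ s ∈ G, B * ren (kT (Ke K) (shE e (k * ℓ))) s t
      ≤ ∑ u ∈ G, ren (kT (Ke K) e) 0 (u + j * ℓ) *
          ∑ z ∈ Icc (k * ℓ) (t + k * ℓ), kT (Ke K) e (u + j * ℓ) z
            * ren (kT (Ke K) e) z (t + k * ℓ) := by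
        refine sum_le_sum fun u hu => ?_
        have hu' := hG u hu
        gcongr
        calc ∑ s ∈ G, B * ren (kT (Ke K) (shE e (k * ℓ))) s t
            ≤ ∑ s ∈ G, (if s + k * ℓ ≤ t + k * ℓ then kT (Ke K) e (u + j * ℓ) (s + k * ℓ)
              * ren (kT (Ke K) e) (s + k * ℓ) (t + k * ℓ) else 0) := by
              refine sum_le_sum fun s hs => ?_
              have hs' := hG s hs
              rw [← ren_kT_shift]
              by_cases hst : s + k * ℓ ≤ t + k * ℓ
              · rw [if_pos hst]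
                gcongr
                exact kT_between hKl hcs hα hd0 hℓ e (by omega) (by omega)
              · rw [ren_of_gt _ (by omega)]; simp
          _ ≤ ∑ z ∈ Icc (k * ℓ) (k * ℓ + ℓ), (if z ≤ t + k * ℓ then kT (Ke K) e (u + j * ℓ) z
              * ren (kT (Ke K) e) z (t + k * ℓ) else 0) := by
              refine sum_image_shift G (k * ℓ) (fun z => if z ≤ t + k * ℓ then
                kT (Ke K) e (u + j * ℓ) z * ren (kT (Ke K) e) z (t + k * ℓ) else 0) ?_
              intro s hs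
              have := hG s hs
              rw [mem_Icc]; omega
          _ = ∑ z ∈ (Icc (k * ℓ) (k * ℓ + ℓ)).filter (fun z => z ≤ t + k * ℓ),
              kT (Ke K) e (u + j * ℓ) z * ren (kT (Ke K) e) z (t + k * ℓ) := by rw [sum_filter]
          _ ≤ _ := by
              refine sum_le_sum_of_subset ?_
              intro z hz
              rw [mem_filter, mem_Icc] at hz
              rw [mem_Icc]; omega
    _ ≤ _ := by
        refine sum_image_shift G (j * ℓ) (fun s => ren (kT (Ke K) e) 0 s *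
          ∑ z ∈ Icc (k * ℓ) (t + k * ℓ), kT (Ke K) e s z * ren (kT (Ke K) e) z (t + k * ℓ)) ?_
        intro s hs
        have := hG s hs
        rw [mem_Ico]; omega

include hKl hcs hα hd0 hℓ hG in
/-- **pointwise lower bound** -/
lemma rare_point (hA : 0 < A) (hθ : 0 < θ) (hθ1 : θ ≤ 1)
    (hAθ : ∀ k : ℕ, A * θ ^ k ≤ cs * (((k + 1 : ℕ) : ℝ) * ℓ) ^ (-(1 + α)) * Y)
    (e : Env) (sel : ℕ → Prop) [DecidablePred sel]
    (hsel : ∀ k, sel k → ENNReal.ofReal Y ≤ YG (Ke K) G (shE e (k * ℓ))) {M : ℕ} (hM : 1 ≤ M) :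
    ENNReal.ofReal (A ^ ((Ico 1 M).filter sel).card * θ ^ M)
      ≤ ∑ m ∈ range (M * ℓ), ren (kT (Ke K) e) 0 m := by
  have key : ∀ M : ℕ, (Ico 1 M).filter sel = ∅ ∨ ∃ j, j < M ∧
      ENNReal.ofReal (A ^ ((Ico 1 M).filter sel).card * θ ^ (j + 1)) ≤ RG (Ke K) G ℓ e j := by
    intro M
    induction M with
    | zero => left; simp
    | succ M ih =>
      rcases Nat.eq_zero_or_pos M with hM0 | hM0
      · subst hM0; left; simp
      have hins : Ico 1 (M + 1) = insert M (Ico 1 M) := by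
        ext z; simp only [mem_Ico, mem_insert]; omega
      by_cases hs : sel M
      · right
        refine ⟨M, Nat.lt_succ_self M, ?_⟩
        have hf : (Ico 1 (M + 1)).filter sel = insert M ((Ico 1 M).filter sel) := by
          rw [hins, filter_insert, if_pos hs]
        have hc : ((Ico 1 (M + 1)).filter sel).card = ((Ico 1 M).filter sel).card + 1 := by
          rw [hf, card_insert_of_notMem (by simp)]
        rw [hc]
        rcases ih with ih | ⟨j, hj, ih⟩
        · rw [ih, card_empty]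
          refine le_trans ?_ (RG_first hKl hcs hα hd0 hℓ hG e hM0)
          calc ENNReal.ofReal (A ^ (0 + 1) * θ ^ (M + 1))
              ≤ ENNReal.ofReal (cs * (((M + 1 : ℕ) : ℝ) * ℓ) ^ (-(1 + α)) * Y) := by
                refine ENNReal.ofReal_le_ofReal (le_trans ?_ (hAθ M))
                rw [zero_add, pow_one, pow_succ]
                have : 0 ≤ A * θ ^ M := by positivity
                nlinarith
            _ = ENNReal.ofReal (cs * (((M + 1 : ℕ) : ℝ) * ℓ) ^ (-(1 + α)))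
                * ENNReal.ofReal Y := ENNReal.ofReal_mul (by positivity)
            _ ≤ _ := by gcongr; exact hsel M hs
        · refine le_trans ?_ (RG_next hKl hcs hα hd0 hℓ hG e hj)
          calc ENNReal.ofReal (A ^ (((Ico 1 M).filter sel).card + 1) * θ ^ (M + 1))
              = ENNReal.ofReal (A ^ ((Ico 1 M).filter sel).card * θ ^ (j + 1))
                * ENNReal.ofReal (A * θ ^ (M - j)) := by
                rw [← ENNReal.ofReal_mul (by positivity)]
                congr 1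
                have : M + 1 = (j + 1) + (M - j) := by omega
                rw [this, pow_add, pow_add]
                ring
            _ ≤ RG (Ke K) G ℓ e j * (ENNReal.ofReal (cs * (((M - j + 1 : ℕ) : ℝ) * ℓ) ^ (-(1 + α)))
                * ENNReal.ofReal Y) := by
                refine mul_le_mul' ih ?_
                rw [← ENNReal.ofReal_mul (by positivity)]
                exact ENNReal.ofReal_le_ofReal (hAθ (M - j))
            _ ≤ _ := by gcongr; exact hsel M hs
      · have hf : (Ico 1 (M + 1)).filter sel = (Ico 1 M).filter sel := by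
          rw [hins, filter_insert, if_neg hs]
        rw [hf]
        rcases ih with ih | ⟨j, hj, ih⟩
        · left; exact ih
        · right; exact ⟨j, by omega, ih⟩
  rcases key M with h | ⟨j, hj, h⟩
  · rw [h, card_empty, pow_zero, one_mul]
    calc ENNReal.ofReal (θ ^ M) ≤ ENNReal.ofReal 1 :=
          ENNReal.ofReal_le_ofReal (pow_le_one₀ hθ.le hθ1)
      _ = ren (kT (Ke K) e) 0 0 := by rw [ren_self]; simp
      _ ≤ _ := single_le_sum (f := fun m => ren (kT (Ke K) e) 0 m) (fun _ _ => bot_le)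
          (mem_range.2 (Nat.mul_pos (by omega) hℓ))
  · calc ENNReal.ofReal (A ^ ((Ico 1 M).filter sel).card * θ ^ M)
        ≤ ENNReal.ofReal (A ^ ((Ico 1 M).filter sel).card * θ ^ (j + 1)) := by
          refine ENNReal.ofReal_le_ofReal ?_
          have : θ ^ M ≤ θ ^ (j + 1) := pow_le_pow_of_le_one hθ.le hθ1 hj
          gcongr
      _ ≤ RG (Ke K) G ℓ e j := h
      _ ≤ _ := by
          refine sum_image_shift G (j * ℓ) (fun m => ren (kT (Ke K) e) 0 m) ?_
          intro t ht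
          have h1 := hG t ht
          have h2 : (j + 1) * ℓ ≤ M * ℓ := Nat.mul_le_mul_right _ hj
          have h3 : (j + 1) * ℓ = j * ℓ + ℓ := by ring
          rw [mem_range]; omega

end Det

end Pool.Agent.Cop

end
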