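import Mathlib
import Pool.Agent.Work.MP_cceb86_pr.Rare
import Pool.Agent.Work.MP_cceb86_pr.LDefs

/-!
Chains of blocks: the block variables of a level dominate products of the variables of the
previous level.
-/

open Finset MeasureTheory ProbabilityTheory Real
open scoped ENNReal NNReal

noncomputable section

namespace Pool.Agent.Cop

variable {Kk : ℕ → ℝ≥0∞} {cs α γ : ℝ} {ℓ0 d0 ℓ : ℕ}

lemma mem_gs {x a d : ℕ} : x ∈ gs ℓ0 d0 a d ↔ (a ≤ x ∧ x < d) ∧ x % ℓ0 + d0 ≤ ℓ0 := by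
  unfold gs; rw [mem_filter, mem_Ico]

lemma gs_mono {a d a' d' : ℕ} (h : a' ≤ a) (h' : d ≤ d') : gs ℓ0 d0 a d ⊆ gs ℓ0 d0 a' d' := by
  intro x hx
  rw [mem_gs] at *
  omega

lemma Y2_mono {T : ℕ → ℕ → ℝ≥0∞} {S1 S2 S1' S2' : Finset ℕ} (h1 : S1 ⊆ S1') (h2 : S2 ⊆ S2') :
    Y2 T S1 S2 ≤ Y2 T S1' S2' := by
  unfold Y2
  calc ∑ x ∈ S1, ∑ y ∈ S2, (if x ≤ y then T x y else 0)
      ≤ ∑ x ∈ S1, ∑ y ∈ S2', (if x ≤ y then T x y else 0) :=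
        sum_le_sum fun x _ => sum_le_sum_of_subset h2
    _ ≤ _ := sum_le_sum_of_subset h1

/-- good sites are at distance at least `d0` from the next multiple of `ℓ0` -/
lemma gs_dist {u p q : ℕ} (hq : ℓ0 ∣ q) (h : u ∈ gs ℓ0 d0 p q) : u + d0 ≤ q := by
  rw [mem_gs] at h
  obtain ⟨⟨-, h1⟩, h2⟩ := h
  obtain ⟨m, rfl⟩ := hq
  have h3 := Nat.div_add_mod u ℓ0
  have h4 : u / ℓ0 < m := by
    rw [Nat.div_lt_iff_lt_mul (by
      rcases Nat.eq_zero_or_pos ℓ0 with h | h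
      · subst h; simp at h1
      · exact h)]
    rw [Nat.mul_comm] at h1
    exact h1
  have h5 : ℓ0 * (u / ℓ0 + 1) ≤ ℓ0 * m := Nat.mul_le_mul_left _ h4
  rw [Nat.mul_add, Nat.mul_one] at h5
  omega

/-- **crossing**: two blocks are connected by one long excursion. -/
theorem Y2_cross (e : Env) (hcs : 0 ≤ cs) (ha : 0 ≤ α) (hd0 : 0 < d0)
    (hK : ∀ n : ℕ, d0 ≤ n → ENNReal.ofReal (cs * (n : ℝ) ^ (-(1 + α))) ≤ Kk n / 2)
    {S1 : Finset ℕ} {p q r s : ℕ} (hS : ∀ x ∈ S1, x < q) (hq : ℓ0 ∣ q)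
    (hqr : q ≤ r) :
    Y2 (ren (kT Kk e)) S1 (gs ℓ0 d0 p q) * ENNReal.ofReal (cs * ((s - p : ℕ) : ℝ) ^ (-(1 + α))) *
      Y2 (ren (kT Kk e)) (gs ℓ0 d0 r s) (gs ℓ0 d0 r s)
      ≤ Y2 (ren (kT Kk e)) S1 (gs ℓ0 d0 r s) := by
  classical
  set T := ren (kT Kk e) with hT
  set κ := ENNReal.ofReal (cs * ((s - p : ℕ) : ℝ) ^ (-(1 + α))) with hκ
  -- the kernel
  have hker : ∀ u ∈ gs ℓ0 d0 p q, ∀ v ∈ gs ℓ0 d0 r s, κ ≤ kT Kk e u v := by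
    intro u hu v hv
    have h1 := gs_dist hq hu
    rw [mem_gs] at hu hv
    have h2 : d0 ≤ v - u := by omega
    have h3 : v - u ≤ s - p := by omega
    have h4 : 0 < v - u := by omega
    unfold kT
    calc κ ≤ ENNReal.ofReal (cs * ((v - u : ℕ) : ℝ) ^ (-(1 + α))) := by
          refine ENNReal.ofReal_le_ofReal ?_
          have h5 : (0 : ℝ) < ((v - u : ℕ) : ℝ) := by exact_mod_cast h4
          have h6 : ((v - u : ℕ) : ℝ) ≤ ((s - p : ℕ) : ℝ) := by exact_mod_cast h3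
          have := Real.rpow_le_rpow_of_nonpos h5 h6 (show -(1 + α) ≤ 0 by linarith)
          gcongr
      _ ≤ Kk (v - u) / 2 := hK _ h2
      _ = Kk (v - u) / 2 * 1 := (mul_one _).symm
      _ ≤ _ := by gcongr; exact le_self_add
  -- the crossing decomposition
  have hx : ∀ x ∈ S1, ∀ y ∈ gs ℓ0 d0 r s,
      ∑ u ∈ gs ℓ0 d0 p q, (if x ≤ u then T x u else 0) *
        (κ * ∑ v ∈ gs ℓ0 d0 r s, (if v ≤ y then T v y else 0)) ≤
      (if x ≤ y then T x y else 0) := by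
    intro x hx y hy
    have hxq := hS x hx
    have hy' := hy
    rw [mem_gs] at hy'
    rw [if_pos (by omega)]
    rw [hT, ren_cross (kT Kk e) (E := q) (y := y) (by omega) x hxq, ← hT]
    calc ∑ u ∈ gs ℓ0 d0 p q, (if x ≤ u then T x u else 0) *
          (κ * ∑ v ∈ gs ℓ0 d0 r s, (if v ≤ y then T v y else 0))
        = ∑ u ∈ (gs ℓ0 d0 p q).filter (fun u => x ≤ u), T x u *
          (κ * ∑ v ∈ (gs ℓ0 d0 r s).filter (fun v => v ≤ y), T v y) := by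
          rw [sum_filter]
          refine sum_congr rfl fun u _ => ?_
          rw [sum_filter]
          split_ifs
          · rfl
          · rw [zero_mul]
      _ ≤ ∑ u ∈ (gs ℓ0 d0 p q).filter (fun u => x ≤ u), T x u *
          ∑ v ∈ (gs ℓ0 d0 r s).filter (fun v => v ≤ y), kT Kk e u v * T v y := by
          refine sum_le_sum fun u hu => ?_
          rw [mem_filter] at hu
          gcongr
          rw [mul_sum]
          refine sum_le_sum fun v hv => ?_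
          rw [mem_filter] at hv
          gcongr
          exact hker u hu.1 v hv.1
      _ ≤ ∑ u ∈ (gs ℓ0 d0 p q).filter (fun u => x ≤ u), T x u *
          ∑ v ∈ Icc q y, kT Kk e u v * T v y := by
          refine sum_le_sum fun u hu => ?_
          gcongr
          intro v hv
          rw [mem_filter, mem_gs] at hv
          rw [mem_Icc]
          omega
      _ ≤ ∑ u ∈ Ico x q, T x u * ∑ v ∈ Icc q y, kT Kk e u v * T v y := by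
          refine sum_le_sum_of_subset ?_
          intro u hu
          rw [mem_filter, mem_gs] at hu
          rw [mem_Ico]
          omega
  unfold Y2
  rw [sum_mul, sum_mul]
  refine sum_le_sum fun x hx' => ?_
  have hswap : ∑ v ∈ gs ℓ0 d0 r s, ∑ y ∈ gs ℓ0 d0 r s, (if v ≤ y then T v y else 0)
      = ∑ y ∈ gs ℓ0 d0 r s, ∑ v ∈ gs ℓ0 d0 r s, (if v ≤ y then T v y else 0) := sum_comm
  rw [hswap]
  rw [mul_sum]
  refine sum_le_sum fun y hy => ?_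
  refine le_trans (le_of_eq ?_) (hx x hx' y hy)
  rw [mul_assoc, sum_mul]

lemma block_sub {k n i ℓ : ℕ} (h1 : k * n ≤ i) (h2 : i < (k + 1) * n) :
    gs ℓ0 d0 (i * ℓ) ((i + 1) * ℓ) ⊆ gs ℓ0 d0 (k * (n * ℓ)) ((k + 1) * (n * ℓ)) := by
  refine gs_mono ?_ ?_
  · rw [← Nat.mul_assoc]; exact Nat.mul_le_mul_right _ h1
  · rw [← Nat.mul_assoc]; exact Nat.mul_le_mul_right _ h2

lemma kap_pow (hg : (1 + α) * γ = 1) {N : ℕ} (hN : 0 < N) :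
    (ENNReal.ofReal ((N : ℝ) ^ (-(1 + α)))) ^ γ = (N : ℝ≥0∞)⁻¹ := by
  have h0 : (0 : ℝ) < N := by exact_mod_cast hN
  rw [ENNReal.ofReal_rpow_of_pos (Real.rpow_pos_of_pos h0 _), ← Real.rpow_mul h0.le]
  have : -(1 + α) * γ = -1 := by linarith
  rw [this, Real.rpow_neg_one, ENNReal.ofReal_inv_of_pos h0, ENNReal.ofReal_natCast]

lemma gam_pos (ha : 0 ≤ α) (hg : (1 + α) * γ = 1) : 0 < γ := by
  by_contra h
  push Not at h
  nlinarith [mul_nonneg (show 0 ≤ 1 + α by linarith) (show 0 ≤ -γ by linarith)]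

theorem VV_one (e : Env) (ha : 0 ≤ α) (hg : (1 + α) * γ = 1) {n k i : ℕ} (h1 : k * n ≤ i)
    (h2 : i < (k + 1) * n) :
    VV (ren (kT Kk e)) ℓ0 d0 cs γ ℓ i / (n : ℝ≥0∞) ≤ VV (ren (kT Kk e)) ℓ0 d0 cs γ (n * ℓ) k := by
  have hγ := gam_pos ha hg
  have hn : n ≠ 0 := by
    rintro rfl; simp at h2
  unfold VV
  rw [ENNReal.div_eq_inv_mul, ENNReal.div_eq_inv_mul, ENNReal.div_eq_inv_mul, ← mul_assoc,
    Nat.cast_mul, ENNReal.mul_inv (Or.inl (by exact_mod_cast hn)) (Or.inl (by simp))]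
  gcongr
  exact Y2_mono (block_sub h1 h2) (block_sub h1 h2)

/-- the chain estimate before taking powers -/
lemma chain_aux (e : Env) (hcs : 0 ≤ cs) (ha : 0 ≤ α) (hd0 : 0 < d0)
    (hK : ∀ n : ℕ, d0 ≤ n → ENNReal.ofReal (cs * (n : ℝ) ^ (-(1 + α))) ≤ Kk n / 2)
    (hdiv : ℓ0 ∣ ℓ) (i : ℕ → ℕ) (m : ℕ) (hi : ∀ k, k < m → i k < i (k + 1)) :
    (∏ k ∈ range (m + 1), ENNReal.ofReal cs *
      Y2 (ren (kT Kk e)) (gs ℓ0 d0 (i k * ℓ) ((i k + 1) * ℓ)) (gs ℓ0 d0 (i k * ℓ) ((i k + 1) * ℓ))) *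
      (∏ k ∈ range m, ENNReal.ofReal ((((i (k + 1) - i k + 1) * ℓ : ℕ) : ℝ) ^ (-(1 + α))))
      ≤ ENNReal.ofReal cs * Y2 (ren (kT Kk e)) (gs ℓ0 d0 (i 0 * ℓ) ((i 0 + 1) * ℓ))
        (gs ℓ0 d0 (i m * ℓ) ((i m + 1) * ℓ)) := by
  induction m with
  | zero => simp
  | succ m ih =>
    have ih' := ih fun k hk => hi k (by omega)
    set T := ren (kT Kk e) with hT
    set b : ℕ → Finset ℕ := fun j => gs ℓ0 d0 (j * ℓ) ((j + 1) * ℓ) with hb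
    have hmono : ∀ k ≤ m, i 0 ≤ i k := by
      intro k
      induction k with
      | zero => intro _; exact le_rfl
      | succ k ihk =>
        intro hk
        exact (ihk (by omega)).trans (hi k (by omega)).le
    have h0m := hmono m le_rfl
    have hstep := hi m (by omega)
    have hS : ∀ x ∈ b (i 0), x < (i m + 1) * ℓ := by
      intro x hx
      simp only [hb, mem_gs] at hx
      have : (i 0 + 1) * ℓ ≤ (i m + 1) * ℓ := Nat.mul_le_mul_right _ (by omega)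
      omega
    have hcr := Y2_cross (ℓ0 := ℓ0) (S1 := b (i 0)) (p := i m * ℓ) (q := (i m + 1) * ℓ)
      (r := i (m + 1) * ℓ) (s := (i (m + 1) + 1) * ℓ) e hcs ha hd0 hK hS
      (Dvd.dvd.mul_left hdiv _) (Nat.mul_le_mul_right _ hstep)
    have hsp : (i (m + 1) + 1) * ℓ - i m * ℓ = (i (m + 1) - i m + 1) * ℓ := by
      rw [← Nat.sub_mul]
      congr 1
      omega
    rw [hsp, ENNReal.ofReal_mul hcs] at hcr
    set F : ℕ → ℝ≥0∞ := fun k => ENNReal.ofReal cs * Y2 T (b (i k)) (b (i k)) with hF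
    set Gf : ℕ → ℝ≥0∞ := fun k =>
      ENNReal.ofReal ((((i (k + 1) - i k + 1) * ℓ : ℕ) : ℝ) ^ (-(1 + α))) with hGf
    change (∏ k ∈ range (m + 1 + 1), F k) * (∏ k ∈ range (m + 1), Gf k) ≤
      ENNReal.ofReal cs * Y2 T (b (i 0)) (b (i (m + 1)))
    change (∏ k ∈ range (m + 1), F k) * (∏ k ∈ range m, Gf k) ≤
      ENNReal.ofReal cs * Y2 T (b (i 0)) (b (i m)) at ih'
    rw [prod_range_succ F, prod_range_succ Gf]
    set X := ∏ k ∈ range (m + 1), F k with hX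
    set P := ∏ k ∈ range m, Gf k with hP
    set κ := ENNReal.ofReal ((((i (m + 1) - i m + 1) * ℓ : ℕ) : ℝ) ^ (-(1 + α))) with hκ
    calc X * (ENNReal.ofReal cs * Y2 T (b (i (m + 1))) (b (i (m + 1)))) * (P * κ)
        = (X * P) * κ * (ENNReal.ofReal cs * Y2 T (b (i (m + 1))) (b (i (m + 1)))) := by ring
      _ ≤ (ENNReal.ofReal cs * Y2 T (b (i 0)) (b (i m))) * κ *
          (ENNReal.ofReal cs * Y2 T (b (i (m + 1))) (b (i (m + 1)))) := by gcongr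
      _ = ENNReal.ofReal cs * (Y2 T (b (i 0)) (b (i m)) * (ENNReal.ofReal cs * κ) *
          Y2 T (b (i (m + 1))) (b (i (m + 1)))) := by ring
      _ ≤ ENNReal.ofReal cs * Y2 T (b (i 0)) (b (i (m + 1))) := by gcongr

/-- the chain estimate for the normalized powers, the two extreme blocks on the right. -/
lemma chain_pow (e : Env) (hcs : 0 ≤ cs) (ha : 0 ≤ α) (hg : (1 + α) * γ = 1) (hd0 : 0 < d0)
    (hℓ : 0 < ℓ) (hK : ∀ n : ℕ, d0 ≤ n → ENNReal.ofReal (cs * (n : ℝ) ^ (-(1 + α))) ≤ Kk n / 2)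
    (hdiv : ℓ0 ∣ ℓ) (i : ℕ → ℕ) (m : ℕ) (hi : ∀ k, k < m → i k < i (k + 1)) :
    (∏ k ∈ range (m + 1), VV (ren (kT Kk e)) ℓ0 d0 cs γ ℓ (i k)) *
      (∏ k ∈ range m, ((i (k + 1) - i k + 1 : ℕ) : ℝ≥0∞)⁻¹)
      ≤ (ENNReal.ofReal cs * Y2 (ren (kT Kk e)) (gs ℓ0 d0 (i 0 * ℓ) ((i 0 + 1) * ℓ))
        (gs ℓ0 d0 (i m * ℓ) ((i m + 1) * ℓ))) ^ γ * (ℓ : ℝ≥0∞)⁻¹ := by
  have hγ := gam_pos ha hg
  have h := ENNReal.rpow_le_rpow (chain_aux e hcs ha hd0 hK hdiv i m hi) hγ.le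
  rw [ENNReal.mul_rpow_of_nonneg _ _ hγ.le, ← ENNReal.prod_rpow_of_nonneg hγ.le,
    ← ENNReal.prod_rpow_of_nonneg hγ.le] at h
  have h2 : ∀ k ∈ range m, (ENNReal.ofReal ((((i (k + 1) - i k + 1) * ℓ : ℕ) : ℝ) ^
      (-(1 + α)))) ^ γ = ((i (k + 1) - i k + 1 : ℕ) : ℝ≥0∞)⁻¹ * (ℓ : ℝ≥0∞)⁻¹ := by
    intro k _
    rw [kap_pow hg (Nat.mul_pos (by omega) hℓ), Nat.cast_mul,
      ENNReal.mul_inv (Or.inl (by exact_mod_cast Nat.succ_ne_zero (i (k + 1) - i k)))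
        (Or.inl (by simp))]
  rw [prod_congr rfl h2, prod_mul_distrib, prod_const, card_range] at h
  have h3 : ∏ k ∈ range (m + 1), VV (ren (kT Kk e)) ℓ0 d0 cs γ ℓ (i k)
      = (∏ k ∈ range (m + 1), (ENNReal.ofReal cs * Y2 (ren (kT Kk e))
        (gs ℓ0 d0 (i k * ℓ) ((i k + 1) * ℓ)) (gs ℓ0 d0 (i k * ℓ) ((i k + 1) * ℓ))) ^ γ) *
        ((ℓ : ℝ≥0∞)⁻¹) ^ (m + 1) := by
    unfold VV
    simp only [ENNReal.div_eq_inv_mul]
    rw [prod_mul_distrib, prod_const, card_range, mul_comm]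
  rw [h3]
  calc (∏ k ∈ range (m + 1), (ENNReal.ofReal cs * Y2 (ren (kT Kk e))
        (gs ℓ0 d0 (i k * ℓ) ((i k + 1) * ℓ)) (gs ℓ0 d0 (i k * ℓ) ((i k + 1) * ℓ))) ^ γ) *
        ((ℓ : ℝ≥0∞)⁻¹) ^ (m + 1) * (∏ k ∈ range m, ((i (k + 1) - i k + 1 : ℕ) : ℝ≥0∞)⁻¹)
      = ((∏ k ∈ range (m + 1), (ENNReal.ofReal cs * Y2 (ren (kT Kk e))
        (gs ℓ0 d0 (i k * ℓ) ((i k + 1) * ℓ)) (gs ℓ0 d0 (i k * ℓ) ((i k + 1) * ℓ))) ^ γ) *
        ((∏ k ∈ range m, ((i (k + 1) - i k + 1 : ℕ) : ℝ≥0∞)⁻¹) * ((ℓ : ℝ≥0∞)⁻¹) ^ m)) *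
        (ℓ : ℝ≥0∞)⁻¹ := by
        rw [pow_succ]; ring
    _ ≤ _ := by gcongr

theorem VV_two (e : Env) (hcs : 0 ≤ cs) (ha : 0 ≤ α) (hg : (1 + α) * γ = 1) (hd0 : 0 < d0)
    (hℓ : 0 < ℓ) (hK : ∀ n : ℕ, d0 ≤ n → ENNReal.ofReal (cs * (n : ℝ) ^ (-(1 + α))) ≤ Kk n / 2)
    (hdiv : ℓ0 ∣ ℓ) {n k i j : ℕ} (h1 : k * n ≤ i) (hij : i < j) (h2 : j < (k + 1) * n) :
    VV (ren (kT Kk e)) ℓ0 d0 cs γ ℓ i * VV (ren (kT Kk e)) ℓ0 d0 cs γ ℓ j /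
      (((j - i + 1 : ℕ) : ℝ≥0∞) * n) ≤ VV (ren (kT Kk e)) ℓ0 d0 cs γ (n * ℓ) k := by
  have hγ := gam_pos ha hg
  have hn : n ≠ 0 := by
    rintro rfl; simp at h2
  have h := chain_pow (ℓ0 := ℓ0) (ℓ := ℓ) e hcs ha hg hd0 hℓ hK hdiv
    (fun t => if t = 0 then i else j) 1 (by
      intro k hk
      have : k = 0 := by omega
      subst this
      simpa using hij)
  simp only [prod_range_succ, prod_range_zero, one_mul, if_true, Nat.one_ne_zero,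
    Nat.zero_add, if_false] at h
  set A := VV (ren (kT Kk e)) ℓ0 d0 cs γ ℓ i * VV (ren (kT Kk e)) ℓ0 d0 cs γ ℓ j with hA
  have hD : ((j - i + 1 : ℕ) : ℝ≥0∞) ≠ 0 := by exact_mod_cast Nat.succ_ne_zero (j - i)
  rw [ENNReal.div_eq_inv_mul, ENNReal.mul_inv (Or.inl hD) (Or.inl (by simp))]
  calc (((j - i + 1 : ℕ) : ℝ≥0∞)⁻¹ * (n : ℝ≥0∞)⁻¹) * A
      = (A * ((j - i + 1 : ℕ) : ℝ≥0∞)⁻¹) * (n : ℝ≥0∞)⁻¹ := by ring
    _ ≤ ((ENNReal.ofReal cs * Y2 (ren (kT Kk e)) (gs ℓ0 d0 (i * ℓ) ((i + 1) * ℓ))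
        (gs ℓ0 d0 (j * ℓ) ((j + 1) * ℓ))) ^ γ * (ℓ : ℝ≥0∞)⁻¹) * (n : ℝ≥0∞)⁻¹ := by gcongr
    _ ≤ ((ENNReal.ofReal cs * Y2 (ren (kT Kk e)) (gs ℓ0 d0 (k * (n * ℓ)) ((k + 1) * (n * ℓ)))
        (gs ℓ0 d0 (k * (n * ℓ)) ((k + 1) * (n * ℓ)))) ^ γ * (ℓ : ℝ≥0∞)⁻¹) * (n : ℝ≥0∞)⁻¹ := by
        gcongr
        exact Y2_mono (block_sub h1 (by omega)) (block_sub (by omega) h2)
    _ = VV (ren (kT Kk e)) ℓ0 d0 cs γ (n * ℓ) k := by
        unfold VV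
        rw [ENNReal.div_eq_inv_mul, Nat.cast_mul,
          ENNReal.mul_inv (Or.inl (by exact_mod_cast hn)) (Or.inl (by simp))]
        ring

theorem VV_chain (e : Env) (hcs : 0 ≤ cs) (ha : 0 ≤ α) (hg : (1 + α) * γ = 1) (hd0 : 0 < d0)
    (hℓ : 0 < ℓ) (hK : ∀ n : ℕ, d0 ≤ n → ENNReal.ofReal (cs * (n : ℝ) ^ (-(1 + α))) ≤ Kk n / 2)
    (hdiv : ℓ0 ∣ ℓ) {B r : ℕ} (hr : 1 ≤ r) (i : ℕ → ℕ) (hi : ∀ k, k + 1 < r → i k < i (k + 1))
    (hB : ∀ k < r, i k < B) :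
    (∏ k ∈ range r, VV (ren (kT Kk e)) ℓ0 d0 cs γ ℓ (i k)) /
      (∏ k ∈ range (r - 1), ((i (k + 1) - i k + 1 : ℕ) : ℝ≥0∞))
      ≤ VB (ren (kT Kk e)) ℓ0 d0 cs γ ℓ B := by
  have hγ := gam_pos ha hg
  obtain ⟨m, rfl⟩ : ∃ m, r = m + 1 := ⟨r - 1, by omega⟩
  rw [Nat.add_sub_cancel]
  have h := chain_pow (ℓ0 := ℓ0) (ℓ := ℓ) e hcs ha hg hd0 hℓ hK hdiv i m fun k hk => hi k (by omega)
  have hinv : (∏ k ∈ range m, ((i (k + 1) - i k + 1 : ℕ) : ℝ≥0∞))⁻¹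
      = ∏ k ∈ range m, ((i (k + 1) - i k + 1 : ℕ) : ℝ≥0∞)⁻¹ := by
    rw [ENNReal.prod_inv_distrib]
    intro a _ b _ _
    left
    exact_mod_cast Nat.succ_ne_zero (i (a + 1) - i a)
  rw [ENNReal.div_eq_inv_mul, hinv, mul_comm]
  refine h.trans ?_
  unfold VB
  rw [ENNReal.div_eq_inv_mul, mul_comm]
  gcongr
  refine Y2_mono (gs_mono (Nat.zero_le _) ?_) (gs_mono (Nat.zero_le _) ?_)
  · exact Nat.mul_le_mul_right _ (hB 0 (by omega))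
  · exact Nat.mul_le_mul_right _ (hB m (by omega))

end Pool.Agent.Cop

end
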