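import Mathlib
import Pool.Agent.Work.MP_cceb86_pr.LDefs

/-!
The last step of the sharp lower bound: chains of `r` alive blocks among the first `r n ^ t`
blocks give a lower bound on the truncated mean.
-/

open Finset MeasureTheory ProbabilityTheory
open scoped ENNReal

noncomputable section

namespace Pool.Agent.Cop

/-- test function of a block -/
def lfT (t : ℕ) (al : Prop) [Decidable al] (p : ℝ≥0∞ × ℕ) : ℝ≥0∞ :=
  if al then (if t + 1 ≤ p.2 then p.1 else 0) else (if t + 1 ≤ p.2 then 0 else 1)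

lemma measurable_lfT (t : ℕ) (al : Prop) [Decidable al] : Measurable (lfT t al) := by
  unfold lfT
  have h1 : MeasurableSet {p : ℝ≥0∞ × ℕ | t + 1 ≤ p.2} :=
    measurable_snd (MeasurableSet.of_discrete (s := {k : ℕ | t + 1 ≤ k}))
  split_ifs
  · exact Measurable.ite h1 measurable_fst measurable_const
  · exact Measurable.ite h1 measurable_const measurable_const

/-- extension by zero -/
def lfE {ρ : ℕ} (d : Fin (ρ + 1) → ℕ) (l : ℕ) : ℕ := if h : l < ρ + 1 then d ⟨l, h⟩ else 0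

/-- partial sums -/
def lfP {ρ : ℕ} (d : Fin (ρ + 1) → ℕ) (k : ℕ) : ℕ := ∑ l ∈ range (k + 1), lfE d l

lemma lfP_zero {ρ : ℕ} (d : Fin (ρ + 1) → ℕ) : lfP d 0 = d 0 := by
  simp [lfP, lfE]

lemma lfP_succ {ρ : ℕ} (d : Fin (ρ + 1) → ℕ) (k : ℕ) : lfP d (k + 1) = lfP d k + lfE d (k + 1) := by
  simp [lfP, sum_range_succ]

lemma lfE_of_lt {ρ : ℕ} (d : Fin (ρ + 1) → ℕ) {k : ℕ} (h : k < ρ + 1) : lfE d k = d ⟨k, h⟩ := by
  simp [lfE, h]

/-- index set -/
def lfI (ρ N : ℕ) : Finset (Fin (ρ + 1) → ℕ) :=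
  Fintype.piFinset (fun k : Fin (ρ + 1) => if k = 0 then range N else Icc 1 N)

lemma lfI_zero {ρ N : ℕ} {d : Fin (ρ + 1) → ℕ} (h : d ∈ lfI ρ N) : d 0 < N := by
  unfold lfI at h
  rw [Fintype.mem_piFinset] at h
  have := h 0
  simpa using this

lemma lfI_succ {ρ N : ℕ} {d : Fin (ρ + 1) → ℕ} (h : d ∈ lfI ρ N) {k : ℕ} (hk : k + 1 < ρ + 1) :
    1 ≤ lfE d (k + 1) ∧ lfE d (k + 1) ≤ N := by
  unfold lfI at h
  rw [Fintype.mem_piFinset] at h
  have := h ⟨k + 1, hk⟩
  rw [if_neg (by simp [Fin.ext_iff])] at this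
  rw [lfE_of_lt d hk]
  simpa using this

lemma lfP_lt {ρ N : ℕ} {d : Fin (ρ + 1) → ℕ} (h : d ∈ lfI ρ N) {k : ℕ} (hk : k + 1 < ρ + 1) :
    lfP d k < lfP d (k + 1) := by
  rw [lfP_succ]
  have := (lfI_succ h hk).1
  omega

lemma lfP_bound {ρ N : ℕ} {d : Fin (ρ + 1) → ℕ} (h : d ∈ lfI ρ N) {k : ℕ} (hk : k < ρ + 1) :
    lfP d k < (k + 1) * N := by
  induction k with
  | zero => rw [lfP_zero]; have := lfI_zero h; omega
  | succ k ih =>
    rw [lfP_succ]
    have h1 := ih (by omega)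
    have h2 := (lfI_succ h hk).2
    have h3 : (k + 1 + 1) * N = (k + 1) * N + N := by ring
    omega

lemma lfP_strictMono {ρ N : ℕ} {d : Fin (ρ + 1) → ℕ} (h : d ∈ lfI ρ N) :
    StrictMono (fun k : Fin (ρ + 1) => lfP d k) := by
  rw [Fin.strictMono_iff_lt_succ]
  intro i
  have := lfP_lt h (k := i) (by omega)
  simpa using this

/-- the positions as a set -/
def lfS {ρ : ℕ} (d : Fin (ρ + 1) → ℕ) : Finset ℕ := (range (ρ + 1)).image (lfP d)

lemma lfP_injOn {ρ N : ℕ} {d : Fin (ρ + 1) → ℕ} (h : d ∈ lfI ρ N) :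
    Set.InjOn (lfP d) (range (ρ + 1) : Finset ℕ) := by
  intro a ha b hb hab
  rw [mem_coe, mem_range] at ha hb
  have := (lfP_strictMono h).injective (a₁ := ⟨a, ha⟩) (a₂ := ⟨b, hb⟩) hab
  simpa using this

lemma lfS_card {ρ N : ℕ} {d : Fin (ρ + 1) → ℕ} (h : d ∈ lfI ρ N) : (lfS d).card = ρ + 1 := by
  unfold lfS
  rw [card_image_of_injOn (lfP_injOn h), card_range]

lemma lfS_sub {ρ N : ℕ} {d : Fin (ρ + 1) → ℕ} (h : d ∈ lfI ρ N) : lfS d ⊆ range ((ρ + 1) * N) := by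
  intro x hx
  unfold lfS at hx
  rw [mem_image] at hx
  obtain ⟨k, hk, rfl⟩ := hx
  rw [mem_range] at hk ⊢
  calc lfP d k < (k + 1) * N := lfP_bound h hk
    _ ≤ (ρ + 1) * N := Nat.mul_le_mul_right _ (by omega)

lemma lfS_inj {ρ N : ℕ} {d d' : Fin (ρ + 1) → ℕ} (h : d ∈ lfI ρ N) (h' : d' ∈ lfI ρ N)
    (he : lfS d = lfS d') : d = d' := by
  have h1 : Set.range (fun k : Fin (ρ + 1) => lfP d k) =
      Set.range (fun k : Fin (ρ + 1) => lfP d' k) := by
    have key : ∀ e : Fin (ρ + 1) → ℕ, Set.range (fun k : Fin (ρ + 1) => lfP e k) = (lfS e : Set ℕ) := by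
      intro e
      ext x
      unfold lfS
      simp only [Set.mem_range, coe_image, Set.mem_image, mem_coe, mem_range]
      constructor
      · rintro ⟨k, rfl⟩
        exact ⟨k, k.2, rfl⟩
      · rintro ⟨k, hk, rfl⟩
        exact ⟨⟨k, hk⟩, rfl⟩
    rw [key, key, he]
  rw [(lfP_strictMono h).range_inj (lfP_strictMono h')] at h1
  have h2 : ∀ k, k < ρ + 1 → lfP d k = lfP d' k := by
    intro k hk
    exact congrFun h1 ⟨k, hk⟩
  funext ⟨k, hk⟩
  rcases k with _ | k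
  · have := h2 0 hk
    rw [lfP_zero, lfP_zero] at this
    exact this
  · have a1 := h2 k (by omega)
    have a2 := h2 (k + 1) hk
    rw [lfP_succ, lfP_succ, lfE_of_lt _ hk, lfE_of_lt _ hk] at a2
    omega

/-- weight of a family of increments -/
def lfW {ρ : ℕ} (d : Fin (ρ + 1) → ℕ) : ℝ≥0∞ :=
  ∏ k ∈ range ρ, ((lfP d (k + 1) - lfP d k + 1 : ℕ) : ℝ≥0∞)

lemma lfW_eq {ρ : ℕ} (d : Fin (ρ + 1) → ℕ) :
    lfW d = ∏ k : Fin ρ, ((d k.succ + 1 : ℕ) : ℝ≥0∞) := by
  unfold lfW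
  rw [← Fin.prod_univ_eq_prod_range (fun k => ((lfP d (k + 1) - lfP d k + 1 : ℕ) : ℝ≥0∞))]
  refine Finset.prod_congr rfl fun k _ => ?_
  rw [lfP_succ, lfE_of_lt d (by omega)]
  rw [show lfP d ↑k + d ⟨↑k + 1, by omega⟩ - lfP d ↑k = d ⟨↑k + 1, by omega⟩ by omega]
  rfl

lemma lfW_pos {ρ : ℕ} (d : Fin (ρ + 1) → ℕ) : 1 ≤ lfW d := by
  unfold lfW
  refine Finset.one_le_prod'' ?_
  intro k
  exact_mod_cast Nat.le_add_left 1 _

lemma lfW_ne_top {ρ : ℕ} (d : Fin (ρ + 1) → ℕ) : lfW d ≠ ⊤ := by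
  unfold lfW
  exact ENNReal.prod_ne_top fun k _ => ENNReal.natCast_ne_top _

lemma sum_lfW (ρ N : ℕ) :
    ∑ d ∈ lfI ρ N, (lfW d)⁻¹ = N * (∑ e ∈ Icc 1 N, ((e + 1 : ℕ) : ℝ≥0∞)⁻¹) ^ ρ := by
  set F : Fin (ρ + 1) → ℕ → ℝ≥0∞ :=
    fun k e => if k = 0 then (1 : ℝ≥0∞) else ((e + 1 : ℕ) : ℝ≥0∞)⁻¹ with hF
  have h1 : ∀ d : Fin (ρ + 1) → ℕ, (lfW d)⁻¹ = ∏ k : Fin (ρ + 1), F k (d k) := by
    intro d
    rw [Fin.prod_univ_succ, hF]
    simp only [if_true, one_mul, Fin.succ_ne_zero, if_false]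
    rw [lfW_eq]
    rw [ENNReal.prod_inv_distrib]
    intro i _ j _ _
    left
    simp
  rw [Finset.sum_congr rfl fun d _ => h1 d]
  unfold lfI
  rw [← Finset.prod_univ_sum, Fin.prod_univ_succ, hF]
  simp [Fin.succ_ne_zero]

lemma harm_low (N : ℕ) : ENNReal.ofReal (Real.log N - 1) ≤ ∑ e ∈ Icc 1 N, ((e + 1 : ℕ) : ℝ≥0∞)⁻¹ := by
  have h1 : ∑ e ∈ Icc 1 N, ((e + 1 : ℕ) : ℝ≥0∞)⁻¹ =
      ENNReal.ofReal (∑ e ∈ Icc 1 N, ((e + 1 : ℕ) : ℝ)⁻¹) := by
    rw [ENNReal.ofReal_sum_of_nonneg (fun e _ => by positivity)]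
    refine Finset.sum_congr rfl fun e _ => ?_
    rw [ENNReal.ofReal_inv_of_pos (by positivity), ENNReal.ofReal_natCast]
  rw [h1]
  refine ENNReal.ofReal_le_ofReal ?_
  have h2 : ∑ e ∈ Icc 1 N, ((e + 1 : ℕ) : ℝ)⁻¹ = (harmonic (N + 1) : ℝ) - 1 := by
    rw [harmonic]
    push_cast
    rw [Finset.sum_range_succ']
    have : ∑ e ∈ Icc 1 N, ((e : ℝ) + 1)⁻¹ = ∑ k ∈ range N, ((k : ℝ) + 1 + 1)⁻¹ := by
      rw [← Finset.Ico_succ_right_eq_Icc, Nat.succ_eq_succ, Finset.sum_Ico_eq_sum_range]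
      simp
      refine Finset.sum_congr rfl fun k _ => ?_
      ring
    push_cast
    rw [this]
    simp
  rw [h2]
  have h3 := log_add_one_le_harmonic (N + 1)
  have h4 : Real.log N ≤ Real.log ((N + 1 : ℕ) + 1 : ℝ) := by
    rcases Nat.eq_zero_or_pos N with h | h
    · subst h
      simp
      exact Real.log_nonneg (by norm_num)
    · have : (0:ℝ) < N := by exact_mod_cast h
      refine Real.log_le_log this ?_
      push_cast
      linarith
  push_cast at h3 h4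
  linarith

variable {Ω : Type*} [MeasurableSpace Ω] {Q : Measure Ω}

/-- Bernoulli -/
lemma lf_bern [IsProbabilityMeasure Q] {A : Set Ω} (hA : MeasurableSet A) {B j : ℕ} (hj : j ≤ B)
    (h : (B : ℝ≥0∞) * Q A ≤ ENNReal.ofReal (1 / 2)) : ENNReal.ofReal (1 / 2) ≤ (Q Aᶜ) ^ j := by
  set p : ℝ := Q.real A with hp
  have h1 : Q A = ENNReal.ofReal p := by
    rw [hp, Measure.real, ENNReal.ofReal_toReal (measure_ne_top _ _)]
  have hp0 : 0 ≤ p := measureReal_nonneg
  have hp1 : p ≤ 1 := measureReal_le_one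
  have h2 : Q Aᶜ = ENNReal.ofReal (1 - p) := by
    rw [prob_compl_eq_one_sub hA, h1, ENNReal.ofReal_sub _ hp0, ENNReal.ofReal_one]
  rw [h1, ← ENNReal.ofReal_natCast, ← ENNReal.ofReal_mul (by positivity),
    ENNReal.ofReal_le_ofReal_iff (by norm_num)] at h
  rw [h2, ← ENNReal.ofReal_pow (by linarith)]
  refine ENNReal.ofReal_le_ofReal ?_
  have h3 : (1 - p) ^ B ≤ (1 - p) ^ j := pow_le_pow_of_le_one (by linarith) (by linarith) hj
  have h4 := one_add_mul_le_pow (a := -p) (by linarith) B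
  have h5 : (1 + -p) = 1 - p := by ring
  rw [h5] at h4
  linarith

theorem lev_final [IsProbabilityMeasure Q]
    {n : ℕ} (hn : 3 ≤ n) {V : ℕ → Ω → ℝ≥0∞} {R Ab m : ℝ} {a : ℕ → ℝ} (hR : 0 ≤ R) (hAb : 0 ≤ Ab)
    (h : LevP Q n V R a Ab) {t r : ℕ} (ht : 1 ≤ t) (hr : 1 ≤ r)
    (S : Finset ℕ) (hS : ∀ s ∈ S, t + 1 ≤ s) (hm0 : 0 ≤ m) (hm : m ≤ ∑ s ∈ S, a s)
    (ha : ∀ s, 0 ≤ a s) (hrare : (r : ℝ) * Ab / n ≤ 1 / 2)
    {W : Ω → ℝ≥0∞}
    (hchain : ∀ ω, ∀ i : ℕ → ℕ, (∀ k, k + 1 < r → i k < i (k + 1)) → (∀ k < r, i k < r * n ^ t) →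
      (∏ k ∈ range r, V (i k) ω) / (∏ k ∈ range (r - 1), ((i (k + 1) - i k + 1 : ℕ) : ℝ≥0∞)) ≤
        W ω) :
    ENNReal.ofReal (m ^ r * (n : ℝ) ^ t * (t * Real.log n - 1) ^ (r - 1) / 2) ≤
      ∫⁻ ω, min (W ω) (ENNReal.ofReal (Real.exp (r * R))) ∂Q := by
  classical
  obtain ⟨ρ, rfl⟩ : ∃ ρ, r = ρ + 1 := ⟨r - 1, by omega⟩
  obtain ⟨X, hXm, hXi, hXd, hXV, hXn, hXR, hXa, hXA⟩ := h
  set N := n ^ t with hN
  set B := (ρ + 1) * N with hB
  have hn0 : 0 < n := by omega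
  have hN0 : 0 < N := by positivity
  set AL : Set Ω := {ω | t + 1 ≤ (X 0 ω).2} with hAL
  have hlab : ∀ T : Set ℕ, MeasurableSet {ω | (X 0 ω).2 ∈ T} := fun T =>
    (measurable_snd.comp (hXm 0)) (MeasurableSet.of_discrete (s := T))
  have hALm : MeasurableSet AL := hlab {k | t + 1 ≤ k}
  set A := ∫⁻ ω in AL, (X 0 ω).1 ∂Q with hA
  -- the alive mass
  have hAm : ENNReal.ofReal m ≤ A := by
    calc ENNReal.ofReal m ≤ ENNReal.ofReal (∑ s ∈ S, a s) := ENNReal.ofReal_le_ofReal hm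
      _ = ∑ s ∈ S, ENNReal.ofReal (a s) := ENNReal.ofReal_sum_of_nonneg fun s _ => ha s
      _ ≤ ∑ s ∈ S, ∫⁻ ω in {ω | (X 0 ω).2 = s}, (X 0 ω).1 ∂Q :=
          sum_le_sum fun s hs => hXa s (by have := hS s hs; omega)
      _ = ∫⁻ ω in ⋃ s ∈ S, {ω | (X 0 ω).2 = s}, (X 0 ω).1 ∂Q := by
          rw [lintegral_biUnion_finset]
          · intro i _ j _ hij
            rw [Function.onFun, Set.disjoint_left]
            intro ω h1 h2
            exact hij (h1.symm.trans h2)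
          · intro s _
            exact hlab {s}
      _ ≤ A := by
          refine lintegral_mono_set ?_
          intro ω hω
          simp only [Set.mem_iUnion, Set.mem_ofPred_eq, exists_prop] at hω
          obtain ⟨s, hs, h1⟩ := hω
          rw [hAL, Set.mem_ofPred_eq, h1]
          exact hS s hs
  -- alive blocks are rare
  have hP : (B : ℝ≥0∞) * Q AL ≤ ENNReal.ofReal (1 / 2) := by
    have h1 : (n : ℝ≥0∞) ^ (t + 1) * Q AL ≤ ENNReal.ofReal Ab := by
      calc (n : ℝ≥0∞) ^ (t + 1) * Q AL = ∫⁻ ω in AL, (n : ℝ≥0∞) ^ (t + 1) ∂Q := by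
            rw [setLIntegral_const]
        _ ≤ ∫⁻ ω in AL, (X 0 ω).1 ∂Q := by
            refine setLIntegral_mono (measurable_fst.comp (hXm 0)) ?_
            intro ω hω
            rw [hAL, Set.mem_ofPred_eq] at hω
            refine le_trans ?_ (hXn 0 ω (by omega))
            exact pow_le_pow_right₀ (by exact_mod_cast hn0) hω
        _ ≤ ∫⁻ ω in {ω | 2 ≤ (X 0 ω).2}, (X 0 ω).1 ∂Q := by
            refine lintegral_mono_set ?_
            intro ω hω
            rw [hAL, Set.mem_ofPred_eq] at hω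
            rw [Set.mem_ofPred_eq]
            omega
        _ ≤ _ := hXA
    set p : ℝ := Q.real AL with hp
    have h2 : Q AL = ENNReal.ofReal p := by
      rw [hp, Measure.real, ENNReal.ofReal_toReal (measure_ne_top _ _)]
    have hp0 : 0 ≤ p := measureReal_nonneg
    rw [h2, ← ENNReal.ofReal_natCast, ← ENNReal.ofReal_pow (by positivity),
      ← ENNReal.ofReal_mul (by positivity), ENNReal.ofReal_le_ofReal_iff hAb] at h1
    rw [h2, ← ENNReal.ofReal_natCast, ← ENNReal.ofReal_mul (by positivity)]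
    refine ENNReal.ofReal_le_ofReal ?_
    have hn' : (0 : ℝ) < n := by exact_mod_cast hn0
    have h3 : (n : ℝ) ^ t * p ≤ Ab / n := by
      rw [le_div_iff₀ hn']
      calc (n : ℝ) ^ t * p * n = (n : ℝ) ^ (t + 1) * p := by ring
        _ ≤ Ab := h1
    calc (B : ℝ) * p = (ρ + 1 : ℕ) * ((n : ℝ) ^ t * p) := by
          rw [hB, hN]; push_cast; ring
      _ ≤ (ρ + 1 : ℕ) * (Ab / n) := by gcongr
      _ = (ρ + 1 : ℕ) * Ab / n := by ring
      _ ≤ 1 / 2 := hrare
  -- integrals of the test functions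
  have hT : ∀ j, ∫⁻ ω, lfT t True (X j ω) ∂Q = A := by
    intro j
    have h1 : ∫⁻ ω, lfT t True (X j ω) ∂Q = ∫⁻ ω, lfT t True (X 0 ω) ∂Q :=
      ((hXd j).comp (measurable_lfT t True)).lintegral_eq
    rw [h1, hA, ← lintegral_indicator hALm]
    refine lintegral_congr fun ω => ?_
    simp only [lfT, if_true, Set.indicator, hAL, Set.mem_ofPred_eq]
  have hF : ∀ j, ∫⁻ ω, lfT t False (X j ω) ∂Q = Q ALᶜ := by
    intro j
    have h1 : ∫⁻ ω, lfT t False (X j ω) ∂Q = ∫⁻ ω, lfT t False (X 0 ω) ∂Q :=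
      ((hXd j).comp (measurable_lfT t False)).lintegral_eq
    rw [h1, ← lintegral_indicator_one hALm.compl]
    refine lintegral_congr fun ω => ?_
    simp only [lfT, if_false, Set.indicator, hAL, Set.mem_compl_iff, Set.mem_ofPred_eq]
    split_ifs <;> simp_all
  set g : (Fin (ρ + 1) → ℕ) → Ω → ℝ≥0∞ := fun d ω =>
    (∏ j ∈ range B, lfT t (j ∈ lfS d) (X j ω)) * (lfW d)⁻¹ with hg
  have hgm : ∀ d, Measurable (g d) := by
    intro d
    refine Measurable.mul_const ?_ _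
    exact Finset.measurable_prod _ fun j _ => (measurable_lfT t _).comp (hXm j)
  have hgi : ∀ d ∈ lfI ρ N, ENNReal.ofReal m ^ (ρ + 1) * ENNReal.ofReal (1 / 2) * (lfW d)⁻¹ ≤
      ∫⁻ ω, g d ω ∂Q := by
    intro d hd
    have hind : iIndepFun (fun j ω => lfT t (j ∈ lfS d) (X j ω)) Q :=
      hXi.comp (fun j => lfT t (j ∈ lfS d)) (fun j => measurable_lfT t _)
    rw [hg]
    simp only
    have hmp : Measurable (fun ω => ∏ j ∈ range B, lfT t (j ∈ lfS d) (X j ω)) :=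
      Finset.measurable_prod _ fun j _ => (measurable_lfT t _).comp (hXm j)
    rw [lintegral_mul_const _ hmp]
    rw [lintegral_prod_eq_prod_lintegral_of_indepFun (range B) _ hind
      (fun j => (measurable_lfT t _).comp (hXm j))]
    gcongr
    have h1 : ∀ j, ∫⁻ ω, lfT t (j ∈ lfS d) (X j ω) ∂Q = if j ∈ lfS d then A else Q ALᶜ := by
      intro j
      by_cases hj : j ∈ lfS d
      · simp only [hj, if_true]
        exact hT j
      · simp only [hj, if_false]
        exact hF j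
    rw [Finset.prod_congr rfl fun j _ => h1 j, Finset.prod_ite, Finset.prod_const, Finset.prod_const]
    have h2 : ((range B).filter (fun j => j ∈ lfS d)).card = ρ + 1 := by
      rw [Finset.filter_mem_eq_inter, Finset.inter_eq_right.mpr (lfS_sub hd), lfS_card hd]
    rw [h2]
    gcongr
    refine lf_bern hALm (B := B) ?_ hP
    exact (Finset.card_filter_le _ _).trans (by simp)
  -- pointwise bound
  have hpt : ∀ ω, ∑ d ∈ lfI ρ N, g d ω ≤ min (W ω) (ENNReal.ofReal (Real.exp ((ρ + 1 : ℕ) * R))) := by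
    intro ω
    by_cases hex : ∃ d ∈ lfI ρ N, g d ω ≠ 0
    · obtain ⟨d, hd, hd0⟩ := hex
      have key : ∀ d ∈ lfI ρ N, g d ω ≠ 0 → lfS d = (range B).filter (fun j => t + 1 ≤ (X j ω).2) := by
        intro d hd h0
        have h1 : ∀ j ∈ range B, lfT t (j ∈ lfS d) (X j ω) ≠ 0 := by
          have := left_ne_zero_of_mul h0
          rwa [Finset.prod_ne_zero_iff] at this
        ext j
        rw [mem_filter]
        constructor
        · intro hj
          have hjB := lfS_sub hd hj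
          refine ⟨hjB, ?_⟩
          by_contra hc
          apply h1 j hjB
          simp [lfT, hj, hc]
        · rintro ⟨hjB, hj⟩
          by_contra hc
          apply h1 j hjB
          simp [lfT, hj, hc]
      rw [Finset.sum_eq_single_of_mem d hd]
      swap
      · intro d' hd' hne
        by_contra hc
        exact hne (lfS_inj hd' hd ((key d' hd' hc).trans (key d hd hd0).symm))
      -- the product
      have hprod : ∏ j ∈ range B, lfT t (j ∈ lfS d) (X j ω) = ∏ k ∈ range (ρ + 1), (X (lfP d k) ω).1 := by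
        have h1 : ∏ j ∈ range B, lfT t (j ∈ lfS d) (X j ω) = ∏ j ∈ lfS d, (X j ω).1 := by
          rw [← Finset.prod_subset (lfS_sub hd)]
          · refine Finset.prod_congr rfl fun j hj => ?_
            have hj' := hj
            rw [key d hd hd0, mem_filter] at hj'
            simp [lfT, hj, hj'.2]
          · intro j hjB hj
            have hj' := hj
            rw [key d hd hd0, mem_filter, not_and] at hj'
            simp [lfT, hj, hj' hjB]
        rw [h1, lfS, Finset.prod_image (lfP_injOn hd)]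
      rw [hg]
      simp only
      rw [hprod]
      refine le_min ?_ ?_
      · refine le_trans ?_ (hchain ω (lfP d) (fun k hk => lfP_lt hd hk) (fun k hk => ?_))
        · rw [div_eq_mul_inv]
          have h2 : ρ + 1 - 1 = ρ := by omega
          rw [h2]
          unfold lfW
          gcongr with k hk
          exact hXV _ ω
        · calc lfP d k < (k + 1) * N := lfP_bound hd hk
            _ ≤ (ρ + 1) * n ^ t := Nat.mul_le_mul_right _ (by omega)
      · calc (∏ k ∈ range (ρ + 1), (X (lfP d k) ω).1) * (lfW d)⁻¹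
            ≤ (∏ k ∈ range (ρ + 1), ENNReal.ofReal (Real.exp R)) * 1 := by
              gcongr with k hk
              · exact hXR _ ω
              · rw [ENNReal.inv_le_one]
                exact lfW_pos d
          _ = ENNReal.ofReal (Real.exp ((ρ + 1 : ℕ) * R)) := by
              rw [mul_one, Finset.prod_const, card_range, ← ENNReal.ofReal_pow (Real.exp_pos _).le,
                ← Real.exp_nat_mul]
    · push Not at hex
      rw [Finset.sum_eq_zero hex]
      exact zero_le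
  -- conclusion
  have hlog : 0 ≤ (t : ℝ) * Real.log n - 1 := by
    have h1 : (1 : ℝ) ≤ Real.log n := by
      have h2 : Real.log (Real.exp 1) ≤ Real.log n := by
        refine Real.log_le_log (Real.exp_pos _) ?_
        have h3 : (3 : ℝ) ≤ n := by exact_mod_cast hn
        have := Real.exp_one_lt_d9
        linarith
      rwa [Real.log_exp] at h2
    have h2 : (1 : ℝ) ≤ t := by exact_mod_cast ht
    nlinarith
  calc ENNReal.ofReal (m ^ (ρ + 1) * (n : ℝ) ^ t * (t * Real.log n - 1) ^ (ρ + 1 - 1) / 2)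
      = ENNReal.ofReal m ^ (ρ + 1) * ENNReal.ofReal (1 / 2) *
        (N * ENNReal.ofReal (Real.log N - 1) ^ ρ) := by
        rw [← ENNReal.ofReal_pow hm0, ← ENNReal.ofReal_mul (by positivity)]
        have h1 : Real.log N = t * Real.log n := by
          rw [hN]; push_cast; rw [Real.log_pow]
        rw [h1, ← ENNReal.ofReal_pow hlog, ← ENNReal.ofReal_natCast N,
          ← ENNReal.ofReal_mul (by positivity), ← ENNReal.ofReal_mul (by positivity)]
        congr 1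
        rw [hN]
        have h2 : ρ + 1 - 1 = ρ := by omega
        rw [h2]
        push_cast
        ring
    _ ≤ ENNReal.ofReal m ^ (ρ + 1) * ENNReal.ofReal (1 / 2) *
        (N * (∑ e ∈ Icc 1 N, ((e + 1 : ℕ) : ℝ≥0∞)⁻¹) ^ ρ) := by
        gcongr
        exact harm_low N
    _ = ∑ d ∈ lfI ρ N, ENNReal.ofReal m ^ (ρ + 1) * ENNReal.ofReal (1 / 2) * (lfW d)⁻¹ := by
        rw [← sum_lfW, Finset.mul_sum]
    _ ≤ ∑ d ∈ lfI ρ N, ∫⁻ ω, g d ω ∂Q := sum_le_sum hgi
    _ = ∫⁻ ω, ∑ d ∈ lfI ρ N, g d ω ∂Q := (lintegral_finsetSum _ fun d _ => hgm d).symm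
    _ ≤ _ := lintegral_mono hpt

end Pool.Agent.Cop

end
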