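import Mathlib

/-!
Choice of the parameters in the sharp lower bound.
-/

open Finset Filter Topology

noncomputable section

namespace Pool.Agent.Cop

/-- the constants in the bounds of the mean number of alive blocks -/
def cbs (C h : ℝ) : ℕ → ℝ
  | 0 => C
  | k + 1 => cbs C h k + (h + 1) * cbs C h k ^ 2

lemma cbs_pos {C h : ℝ} (hC : 0 < C) (hh : 0 < h) : ∀ k, 0 < cbs C h k
  | 0 => hC
  | k + 1 => by
    have := cbs_pos hC hh k
    unfold cbs
    positivity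

lemma geo_beats {c q : ℝ} (hc : 0 < c) (hq : 1 < q) (k : ℕ) :
    ∀ᶠ r : ℕ in atTop, c * (r : ℝ) ^ k < q ^ r := by
  have h := tendsto_pow_const_div_const_pow_of_one_lt k hq
  have h2 := h.eventually (gt_mem_nhds (show (0 : ℝ) < 1 / c by positivity))
  filter_upwards [h2] with r hr
  have hq0 : 0 < q ^ r := by positivity
  rw [div_lt_div_iff₀ hq0 hc] at hr
  linarith

/-- all the conditions on the parameters -/
lemma par_ok {h d dd C : ℝ} (hh : 0 < h) (hd : 0 < d) (hdd : 0 < dd) (hC : 0 < C) (J Kc : ℕ)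
    {t : ℕ} (ht : 1 ≤ t) :
    ∃ a0 : ℝ, 0 < a0 ∧ ∀ α : ℝ, 0 < α → α < a0 → α < 1 ∧ ∃ r : ℕ, 1 ≤ r ∧
      ∀ n : ℕ, n = ⌈Real.exp (h / α ^ 2)⌉₊ →
      3 ≤ n ∧ 2 ≤ Real.log n ∧ h ≤ Real.log n * α ^ 2 ∧ Real.log n * α ^ 2 ≤ h + 1 ∧
      2 * α ^ 2 ≤ d ∧ (∀ k ≤ Kc, cbs C h k * α ^ 2 / n ≤ d) ∧
      r * (cbs C h Kc * α ^ 2) / n ≤ 1 / 2 ∧ (1 + dd) * α ^ 2 / (t * h) ≤ dd / 2 ∧
      3 * (r : ℝ) * (1 + r * (2 ^ Kc * (((J : ℝ) + 4) * Real.log n)))
        < (1 + dd) * α ^ 2 / (t * h) * (1 + dd / 2) ^ (r - 1) / 2 := by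
  have ht0 : (0 : ℝ) < t := by exact_mod_cast ht
  set q : ℝ := 1 + dd / 2 with hq
  have hq1 : 1 < q := by rw [hq]; linarith
  have hCb := cbs_pos hC hh
  set c₁ : ℝ := 2 ^ Kc * (((J : ℝ) + 4) * (h + 1)) with hc₁
  have hc₁0 : 0 < c₁ := by positivity
  -- the conditions on `r`
  have e1 : ∀ x : ℝ, ∀ᶠ r : ℕ in atTop, x ≤ (r : ℝ) - 1 := by
    intro x
    filter_upwards [tendsto_natCast_atTop_atTop.eventually_ge_atTop (x + 1)] with r hr
    linarith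
  have e2 : ∀ᶠ r : ℕ in atTop, ∀ k ≤ Kc, cbs C h k / d ≤ (r : ℝ) - 1 := by
    have : ∀ᶠ r : ℕ in atTop, ∀ k ∈ range (Kc + 1), cbs C h k / d ≤ (r : ℝ) - 1 :=
      (eventually_all_finset _).2 fun k _ => e1 _
    filter_upwards [this] with r hr k hk
    exact hr k (mem_range.2 (by omega))
  have e3 := geo_beats (c := 6 * t * h * (1 + c₁) * q) (q := q) (by positivity) hq1 4
  obtain ⟨r₀, hr₀⟩ := eventually_atTop.1 ((e1 1).and ((e1 (2 / h)).and ((e1 (2 / d)).and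
    (e2.and ((e1 (4 * cbs C h Kc / h)).and ((e1 ((1 + dd) / (t * h) * (2 / dd))).and e3))))))
  refine ⟨1 / ((r₀ : ℝ) + 1), by positivity, ?_⟩
  intro α hα hαa
  have hα2 : 0 < α ^ 2 := by positivity
  have hα1 : α < 1 := by
    refine hαa.trans_le ?_
    rw [div_le_one (by positivity)]
    have : (0 : ℝ) ≤ r₀ := Nat.cast_nonneg _
    linarith
  refine ⟨hα1, ?_⟩
  set r : ℕ := ⌈1 / α ^ 2⌉₊ with hr
  have hr1 : 1 / α ^ 2 ≤ r := Nat.le_ceil _
  have hr2 : (r : ℝ) < 1 / α ^ 2 + 1 := Nat.ceil_lt_add_one (by positivity)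
  have hrr : r₀ ≤ r := by
    have h1 : (r₀ : ℝ) + 1 < 1 / α := by
      rw [lt_div_iff₀ hα]
      rw [lt_div_iff₀ (by positivity)] at hαa
      linarith
    have h2 : 1 / α ≤ 1 / α ^ 2 := by
      refine one_div_le_one_div_of_le hα2 ?_
      nlinarith
    have : (r₀ : ℝ) < r := by linarith
    exact_mod_cast this.le
  obtain ⟨c1, c2, c3, c4, c5, c6, c7⟩ := hr₀ r hrr
  have hru : (r : ℝ) - 1 ≤ 1 / α ^ 2 := by linarith
  have hr11 : 0 < (r : ℝ) - 1 := by linarith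
  have hrpos : (0 : ℝ) < r := by linarith
  have hr1' : 1 ≤ r := by
    have : (0 : ℝ) < r := hrpos
    exact_mod_cast this
  -- `α²` in terms of `r`
  have hαr : α ^ 2 ≤ 1 / ((r : ℝ) - 1) := by
    rw [le_div_iff₀ hr11]
    rw [le_div_iff₀ hα2] at hru
    linarith
  have hαr2 : 1 / (r : ℝ) ≤ α ^ 2 := by
    rw [div_le_iff₀ hrpos]
    rw [div_le_iff₀ hα2] at hr1
    linarith
  refine ⟨r, hr1', ?_⟩
  intro n hn
  have hn1 : Real.exp (h / α ^ 2) ≤ n := by rw [hn]; exact Nat.le_ceil _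
  have hn2 : (n : ℝ) < Real.exp (h / α ^ 2) + 1 := by
    rw [hn]; exact Nat.ceil_lt_add_one (Real.exp_pos _).le
  have hhu : h * ((r : ℝ) - 1) ≤ h / α ^ 2 := by
    rw [div_eq_mul_one_div h (α ^ 2)]
    gcongr
  have h2u : 2 ≤ h / α ^ 2 := by
    rw [div_le_iff₀ hh] at c2
    linarith
  have hex : h / α ^ 2 + 1 ≤ Real.exp (h / α ^ 2) := Real.add_one_le_exp _
  have hn3 : (3 : ℝ) ≤ n := by linarith
  have hn0 : (0 : ℝ) < n := by linarith
  have hlog1 : h / α ^ 2 ≤ Real.log n := by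
    rw [Real.le_log_iff_exp_le hn0]; exact hn1
  have hlog2 : Real.log n ≤ h / α ^ 2 + 1 := by
    rw [Real.log_le_iff_le_exp hn0, Real.exp_add]
    have h5 := Real.add_one_le_exp (1 : ℝ)
    have h6 : 1 ≤ Real.exp (h / α ^ 2) := by linarith
    nlinarith
  have hlog3 : Real.log n * α ^ 2 ≤ h + 1 := by
    calc Real.log n * α ^ 2 ≤ (h / α ^ 2 + 1) * α ^ 2 := by gcongr
      _ = h + α ^ 2 := by field_simp
      _ ≤ h + 1 := by
          have : α ^ 2 ≤ 1 := by nlinarith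
          linarith
  have hlog4 : Real.log n ≤ (h + 1) * r := by
    have h7 : Real.log n ≤ (h + 1) / α ^ 2 := by
      rw [le_div_iff₀ hα2]; exact hlog3
    refine h7.trans ?_
    rw [div_eq_mul_one_div]
    gcongr
  have hm1 : 1 / ((t : ℝ) * h * r) ≤ (1 + dd) * α ^ 2 / (t * h) := by
    rw [div_le_div_iff₀ (by positivity) (by positivity)]
    rw [div_le_iff₀ hrpos] at hαr2
    have h8 : 0 ≤ dd * (α ^ 2 * r) := by positivity
    calc 1 * ((t : ℝ) * h) ≤ ((1 + dd) * (α ^ 2 * r)) * (t * h) := by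
          gcongr
          linarith
      _ = (1 + dd) * α ^ 2 * (t * h * r) := by ring
  refine ⟨by exact_mod_cast hn3, by linarith, ?_, hlog3, ?_, ?_, ?_, ?_, ?_⟩
  · rwa [div_le_iff₀ hα2] at hlog1
  · rw [div_le_iff₀ hd] at c3
    calc 2 * α ^ 2 ≤ 2 * (1 / ((r : ℝ) - 1)) := by gcongr
      _ ≤ d := by
          rw [mul_one_div, div_le_iff₀ hr11]; linarith
  · intro k hk
    have c4' := c4 k hk
    rw [div_le_iff₀ hd] at c4'
    have := hCb k
    calc cbs C h k * α ^ 2 / n ≤ cbs C h k * α ^ 2 / 1 := by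
          gcongr
          linarith
      _ = cbs C h k * α ^ 2 := div_one _
      _ ≤ cbs C h k * (1 / ((r : ℝ) - 1)) := by gcongr
      _ ≤ d := by rw [mul_one_div, div_le_iff₀ hr11]; linarith
  · have := hCb Kc
    have h9 : (r : ℝ) * α ^ 2 ≤ 2 := by
      calc (r : ℝ) * α ^ 2 ≤ (1 / α ^ 2 + 1) * α ^ 2 := by gcongr
        _ = 1 + α ^ 2 := by field_simp
        _ ≤ 2 := by nlinarith
    rw [div_le_iff₀ hh] at c5
    rw [div_le_iff₀ hn0]
    calc (r : ℝ) * (cbs C h Kc * α ^ 2) = cbs C h Kc * (r * α ^ 2) := by ring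
      _ ≤ cbs C h Kc * 2 := by gcongr
      _ ≤ 1 / 2 * n := by linarith
  · calc (1 + dd) * α ^ 2 / (t * h) = (1 + dd) / (t * h) * α ^ 2 := by ring
      _ ≤ (1 + dd) / (t * h) * (1 / ((r : ℝ) - 1)) := by gcongr
      _ ≤ dd / 2 := by
          rw [mul_one_div, div_le_iff₀ hr11]
          have h10 : (1 + dd) / (t * h) = dd / 2 * ((1 + dd) / (t * h) * (2 / dd)) := by
            field_simp
          rw [h10]
          gcongr
  · have hq0 : 0 < q := by linarith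
    have h11 : q ^ r = q ^ (r - 1) * q := by
      rw [← pow_succ, Nat.sub_add_cancel hr1']
    rw [h11] at c7
    have h12 : 6 * t * h * (1 + c₁) * (r : ℝ) ^ 4 < q ^ (r - 1) := by
      have : (6 * t * h * (1 + c₁) * (r : ℝ) ^ 4) * q < q ^ (r - 1) * q := by
        calc (6 * t * h * (1 + c₁) * (r : ℝ) ^ 4) * q = 6 * t * h * (1 + c₁) * q * (r : ℝ) ^ 4 := by
              ring
          _ < _ := c7
      exact lt_of_mul_lt_mul_right this hq0.le
    have hr1r : (1 : ℝ) ≤ r := by exact_mod_cast hr1'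
    have h13 : 1 + (r : ℝ) * (2 ^ Kc * (((J : ℝ) + 4) * Real.log n)) ≤ (1 + c₁) * (r : ℝ) ^ 2 := by
      have h14 : (r : ℝ) * (2 ^ Kc * (((J : ℝ) + 4) * Real.log n))
          ≤ (r : ℝ) * (2 ^ Kc * (((J : ℝ) + 4) * ((h + 1) * r))) := by gcongr
      have h15 : (r : ℝ) * (2 ^ Kc * (((J : ℝ) + 4) * ((h + 1) * r))) = c₁ * (r : ℝ) ^ 2 := by
        rw [hc₁]; ring
      have h16 : (1 : ℝ) ≤ (r : ℝ) ^ 2 := one_le_pow₀ hr1r
      linarith
    calc 3 * (r : ℝ) * (1 + r * (2 ^ Kc * (((J : ℝ) + 4) * Real.log n)))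
        ≤ 3 * (r : ℝ) * ((1 + c₁) * (r : ℝ) ^ 2) := by gcongr
      _ = 1 / ((t : ℝ) * h * r) * (6 * t * h * (1 + c₁) * (r : ℝ) ^ 4) / 2 := by field_simp; ring
      _ < 1 / ((t : ℝ) * h * r) * q ^ (r - 1) / 2 := by
          gcongr
      _ ≤ (1 + dd) * α ^ 2 / (t * h) * q ^ (r - 1) / 2 := by gcongr

end Pool.Agent.Cop

end
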