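import Mathlib
import Pool.Agent.Work.MP_cceb86_pr.LDefs

/-!
One level of the macro recursion of the sharp lower bound.
-/

open Finset MeasureTheory ProbabilityTheory
open scoped ENNReal

noncomputable section

namespace Pool.Agent.Cop

section LUp

variable {n : ℕ}

/-- the alive children -/
def luA (y : Fin n → ℝ≥0∞ × ℕ) : Finset (Fin n) := univ.filter (fun i => 2 ≤ (y i).2)

/-- pairs of children -/
def luP (n : ℕ) : Finset (Fin n × Fin n) := univ.filter (fun p => p.1 < p.2)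

/-- weight of a pair -/
def luC (n : ℕ) (p : Fin n × Fin n) : ℝ≥0∞ := (((p.2 : ℕ) - (p.1 : ℕ) + 1 : ℕ) : ℝ≥0∞) * n

/-- value of the parent -/
def luVal (y : Fin n → ℝ≥0∞ × ℕ) : ℝ≥0∞ :=
  ∑ i, (if luA y = {i} then (y i).1 / n else 0)
    + ∑ p ∈ luP n, (if luA y = {p.1, p.2} then (y p.1).1 * (y p.2).1 / luC n p else 0)

/-- label of the parent -/
def luLab (y : Fin n → ℝ≥0∞ × ℕ) : ℕ :=
  ∑ i, (if luA y = {i} then (y i).2 - 1 else 0)
    + ∑ p ∈ luP n, (if luA y = {p.1, p.2} then (y p.1).2 + (y p.2).2 - 2 else 0)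

lemma mem_luA {y : Fin n → ℝ≥0∞ × ℕ} {i : Fin n} : i ∈ luA y ↔ 2 ≤ (y i).2 := by
  simp [luA]

lemma mem_luP {p : Fin n × Fin n} : p ∈ luP n ↔ p.1 < p.2 := by simp [luP]

lemma lu_ne {p : Fin n × Fin n} (hp : p ∈ luP n) (i : Fin n) : ({i} : Finset (Fin n)) ≠ {p.1, p.2} := by
  intro h
  rw [mem_luP] at hp
  have h1 : p.1 ∈ ({i} : Finset (Fin n)) := by rw [h]; simp
  have h2 : p.2 ∈ ({i} : Finset (Fin n)) := by rw [h]; simp
  rw [mem_singleton] at h1 h2
  rw [h1, h2] at hp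
  exact lt_irrefl _ hp

lemma lu_pair {p q : Fin n × Fin n} (hp : p ∈ luP n) (hq : q ∈ luP n)
    (h : ({p.1, p.2} : Finset (Fin n)) = {q.1, q.2}) : p = q := by
  rw [mem_luP] at hp hq
  have h1 : p.1 ∈ ({q.1, q.2} : Finset (Fin n)) := by rw [← h]; simp
  have h2 : p.2 ∈ ({q.1, q.2} : Finset (Fin n)) := by rw [← h]; simp
  have h3 : q.1 ∈ ({p.1, p.2} : Finset (Fin n)) := by rw [h]; simp
  simp only [mem_insert, mem_singleton, Fin.ext_iff] at h1 h2 h3
  rw [Fin.lt_def] at hp hq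
  ext1 <;> apply Fin.ext <;> omega

lemma lu_one {y : Fin n → ℝ≥0∞ × ℕ} {i : Fin n} (h : luA y = {i}) :
    luVal y = (y i).1 / n ∧ luLab y = (y i).2 - 1 := by
  unfold luVal luLab
  constructor
  · rw [sum_eq_single i, if_pos h, sum_eq_zero, add_zero]
    · intro p hp; rw [if_neg]; rw [h]; exact lu_ne hp i
    · intro j _ hj; rw [if_neg]; rw [h]; intro h2; exact hj (by simpa using h2.symm)
    · intro hi; exact absurd (mem_univ i) hi
  · rw [sum_eq_single i, if_pos h, sum_eq_zero, add_zero]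
    · intro p hp; rw [if_neg]; rw [h]; exact lu_ne hp i
    · intro j _ hj; rw [if_neg]; rw [h]; intro h2; exact hj (by simpa using h2.symm)
    · intro hi; exact absurd (mem_univ i) hi

lemma lu_two {y : Fin n → ℝ≥0∞ × ℕ} {p : Fin n × Fin n} (hp : p ∈ luP n)
    (h : luA y = {p.1, p.2}) :
    luVal y = (y p.1).1 * (y p.2).1 / luC n p ∧ luLab y = (y p.1).2 + (y p.2).2 - 2 := by
  unfold luVal luLab
  constructor
  · rw [sum_eq_zero, zero_add, sum_eq_single p, if_pos h]
    · intro q hq hqp; rw [if_neg]; rw [h]; intro h2; exact hqp (lu_pair hp hq h2).symm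
    · intro h2; exact absurd hp h2
    · intro i _; rw [if_neg]; rw [h]; exact (lu_ne hp i).symm
  · rw [sum_eq_zero, zero_add, sum_eq_single p, if_pos h]
    · intro q hq hqp; rw [if_neg]; rw [h]; intro h2; exact hqp (lu_pair hp hq h2).symm
    · intro h2; exact absurd hp h2
    · intro i _; rw [if_neg]; rw [h]; exact (lu_ne hp i).symm

lemma lu_zero {y : Fin n → ℝ≥0∞ × ℕ} (h1 : ∀ i, luA y ≠ {i})
    (h2 : ∀ p ∈ luP n, luA y ≠ {p.1, p.2}) : luVal y = 0 ∧ luLab y = 0 := by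
  unfold luVal luLab
  constructor
  · rw [sum_eq_zero, sum_eq_zero, add_zero]
    · intro p hp; rw [if_neg (h2 p hp)]
    · intro i _; rw [if_neg (h1 i)]
  · rw [sum_eq_zero, sum_eq_zero, add_zero]
    · intro p hp; rw [if_neg (h2 p hp)]
    · intro i _; rw [if_neg (h1 i)]

lemma lu_cases (y : Fin n → ℝ≥0∞ × ℕ) : (∃ i, luA y = {i}) ∨ (∃ p ∈ luP n, luA y = {p.1, p.2}) ∨
    ((∀ i, luA y ≠ {i}) ∧ (∀ p ∈ luP n, luA y ≠ {p.1, p.2})) := by
  by_cases h1 : ∃ i, luA y = {i}
  · exact Or.inl h1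
  · by_cases h2 : ∃ p ∈ luP n, luA y = {p.1, p.2}
    · exact Or.inr (Or.inl h2)
    · push Not at h1 h2
      exact Or.inr (Or.inr ⟨h1, h2⟩)

lemma measurableSet_luA (S : Finset (Fin n)) :
    MeasurableSet {y : Fin n → ℝ≥0∞ × ℕ | luA y = S} := by
  have : {y : Fin n → ℝ≥0∞ × ℕ | luA y = S} = ⋂ l, {y | 2 ≤ (y l).2 ↔ l ∈ S} := by
    ext y
    simp only [Set.mem_ofPred_eq, Set.mem_iInter, Finset.ext_iff, mem_luA]
  rw [this]
  refine MeasurableSet.iInter fun l => ?_
  have h2 : MeasurableSet {y : Fin n → ℝ≥0∞ × ℕ | 2 ≤ (y l).2} :=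
    measurableSet_le measurable_const (by fun_prop)
  by_cases hl : l ∈ S
  · simpa [hl] using h2
  · simp only [hl, iff_false]
    exact h2.compl

lemma measurable_luVal : Measurable (luVal : (Fin n → ℝ≥0∞ × ℕ) → ℝ≥0∞) := by
  unfold luVal
  refine Measurable.add ?_ ?_
  · refine Finset.measurable_sum _ fun i _ => ?_
    exact Measurable.ite (measurableSet_luA _) (by fun_prop) measurable_const
  · refine Finset.measurable_sum _ fun p _ => ?_
    exact Measurable.ite (measurableSet_luA _) (by fun_prop) measurable_const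

lemma measurable_luLab : Measurable (luLab : (Fin n → ℝ≥0∞ × ℕ) → ℕ) := by
  unfold luLab
  refine Measurable.add ?_ ?_
  · refine Finset.measurable_sum _ fun i _ => ?_
    exact Measurable.ite (measurableSet_luA _) (by fun_prop) measurable_const
  · refine Finset.measurable_sum _ fun p _ => ?_
    exact Measurable.ite (measurableSet_luA _) (by fun_prop) measurable_const

/-! ### groups -/

variable {Ω : Type*} [MeasurableSpace Ω] {Q : Measure Ω}

lemma lu_inj (hn : 0 < n) : Function.Injective (fun p : (_ : ℕ) × Fin n => p.1 * n + (p.2 : ℕ)) := by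
  rintro ⟨k, i⟩ ⟨l, j⟩ h
  simp only at h
  have hi := i.2
  have hj := j.2
  have hkl : k = l := by
    have h1 : (k * n + (i : ℕ)) / n = k := by
      rw [Nat.add_comm, Nat.add_mul_div_right _ _ hn, Nat.div_eq_of_lt hi, zero_add]
    have h2 : (l * n + (j : ℕ)) / n = l := by
      rw [Nat.add_comm, Nat.add_mul_div_right _ _ hn, Nat.div_eq_of_lt hj, zero_add]
    rw [← h1, ← h2, h]
  subst hkl
  have : i = j := Fin.ext (by omega)
  subst this
  rfl

lemma lu_law {X : ℕ → Ω → ℝ≥0∞ × ℕ} (hm : ∀ k, Measurable (X k)) (hi : iIndepFun X Q)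
    (hid : ∀ k, IdentDistrib (X k) (X 0) Q Q) (k : ℕ) :
    Q.map (fun ω (i : Fin n) => X (k * n + i) ω) = Measure.pi (fun _ : Fin n => Q.map (X 0)) := by
  have hinj : Function.Injective (fun i : Fin n => k * n + (i : ℕ)) := by
    intro i j h; exact Fin.ext (by simpa using h)
  have h := (hi.precomp hinj).map_fun_eq_pi_map (fun i => (hm _).aemeasurable)
  rw [h]
  congr 1
  ext1 i
  exact (hid _).map_eq

lemma lu_indep {X : ℕ → Ω → ℝ≥0∞ × ℕ} (hm : ∀ k, Measurable (X k)) (hi : iIndepFun X Q)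
    (hn : 0 < n) : iIndepFun (fun k ω (i : Fin n) => X (k * n + i) ω) Q := by
  have hprob := hi.isProbabilityMeasure
  have h1 := hi.precomp (lu_inj hn)
  have hpm : ∀ k : ℕ, IsProbabilityMeasure (Q.map (X k)) := fun k =>
    Measure.isProbabilityMeasure_map (hm k).aemeasurable
  rw [iIndepFun_iff_map_fun_eq_infinitePi_map (fun p => hm _)] at h1
  rw [iIndepFun_iff_map_fun_eq_infinitePi_map (fun k => by fun_prop)]
  have h2 : (MeasurableEquiv.piCurry (fun (_ : ℕ) (_ : Fin n) => ℝ≥0∞ × ℕ)) ∘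
      (fun ω (p : (_ : ℕ) × Fin n) => X (p.1 * n + (p.2 : ℕ)) ω)
      = fun ω k (i : Fin n) => X (k * n + i) ω := by
    funext ω; rfl
  rw [← h2, ← Measure.map_map (by fun_prop) (by fun_prop)]
  have h3 : Q.map (fun ω (p : (_ : ℕ) × Fin n) => X (p.1 * n + (p.2 : ℕ)) ω)
      = Measure.infinitePi (fun p : (_ : ℕ) × Fin n => Q.map (X (p.1 * n + (p.2 : ℕ)))) := h1
  rw [h3, Measure.infinitePi_map_piCurry (fun (k : ℕ) (i : Fin n) => Q.map (X (k * n + (i : ℕ))))]
  congr 1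
  ext1 k
  have hinj : Function.Injective (fun i : Fin n => k * n + (i : ℕ)) := by
    intro i j h; exact Fin.ext (by simpa using h)
  have h4 := hi.precomp hinj
  rw [iIndepFun_iff_map_fun_eq_infinitePi_map (fun p => hm _)] at h4
  exact h4.symm

/-- indicator of a dead child -/
def luD (e : ℝ≥0∞ × ℕ) : ℝ≥0∞ := if e.2 < 2 then 1 else 0

/-- value on the alive event -/
def luV (e : ℝ≥0∞ × ℕ) : ℝ≥0∞ := if 2 ≤ e.2 then e.1 else 0

/-- value on the event `label = s` -/
def luS (s : ℕ) (e : ℝ≥0∞ × ℕ) : ℝ≥0∞ := if e.2 = s then e.1 else 0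

lemma measurable_luD : Measurable luD :=
  Measurable.ite (measurableSet_lt (by fun_prop) measurable_const) measurable_const measurable_const

lemma measurable_luV : Measurable luV :=
  Measurable.ite (measurableSet_le measurable_const (by fun_prop)) (by fun_prop) measurable_const

lemma measurable_luS (s : ℕ) : Measurable (luS s) :=
  Measurable.ite (measurableSet_eq_fun (by fun_prop) measurable_const) (by fun_prop) measurable_const

lemma lu_prod_one {s : ℕ} (hs : 2 ≤ s) (y : Fin n → ℝ≥0∞ × ℕ) (i : Fin n) :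
    ∏ l, (if l = i then luS s (y l) else luD (y l))
      = if luA y = {i} ∧ (y i).2 = s then (y i).1 else 0 := by
  split_ifs with h
  · rw [prod_eq_single i]
    · simp [luS, h.2]
    · intro l _ hl
      have : l ∉ luA y := by rw [h.1]; simpa using hl
      rw [mem_luA, not_le] at this
      simp [hl, luD, this]
    · intro h2; exact absurd (mem_univ i) h2
  · by_cases h2 : (y i).2 = s
    · have h3 : luA y ≠ {i} := fun h4 => h ⟨h4, h2⟩
      have : ∃ l, l ≠ i ∧ 2 ≤ (y l).2 := by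
        by_contra hcon
        push Not at hcon
        apply h3
        ext l
        rw [mem_luA, mem_singleton]
        constructor
        · intro h5
          by_contra h6
          exact absurd h5 (not_le.mpr (hcon l h6))
        · rintro rfl; omega
      obtain ⟨l, hl, h5⟩ := this
      refine prod_eq_zero (mem_univ l) ?_
      simp [hl, luD, not_lt.mpr h5]
    · refine prod_eq_zero (mem_univ i) ?_
      simp [luS, h2]

lemma lu_prod_two {s t : ℕ} (hs : 2 ≤ s) (ht : 2 ≤ t) (y : Fin n → ℝ≥0∞ × ℕ)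
    {p : Fin n × Fin n} (hp : p ∈ luP n) :
    ∏ l, (if l = p.1 then luS s (y l) else if l = p.2 then luS t (y l) else luD (y l))
      = if luA y = {p.1, p.2} ∧ ((y p.1).2 = s ∧ (y p.2).2 = t) then (y p.1).1 * (y p.2).1 else 0 := by
  have hne : p.1 ≠ p.2 := ((mem_luP.mp hp)).ne
  split_ifs with h
  · rw [prod_eq_mul p.1 p.2 hne]
    · simp [luS, h.2.1, h.2.2, hne.symm]
    · rintro l _ ⟨hl1, hl2⟩
      have : l ∉ luA y := by rw [h.1]; simp [hl1, hl2]
      rw [mem_luA, not_le] at this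
      simp [hl1, hl2, luD, this]
    · intro h2; exact absurd (mem_univ _) h2
    · intro h2; exact absurd (mem_univ _) h2
  · by_cases h2 : (y p.1).2 = s
    · by_cases h2' : (y p.2).2 = t
      · have h3 : luA y ≠ {p.1, p.2} := fun h4 => h ⟨h4, h2, h2'⟩
        have : ∃ l, l ≠ p.1 ∧ l ≠ p.2 ∧ 2 ≤ (y l).2 := by
          by_contra hcon
          push Not at hcon
          apply h3
          ext l
          rw [mem_luA, mem_insert, mem_singleton]
          constructor
          · intro h5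
            by_contra h6
            rw [not_or] at h6
            exact absurd h5 (not_le.mpr (hcon l h6.1 h6.2))
          · rintro (rfl | rfl) <;> omega
        obtain ⟨l, hl1, hl2, h5⟩ := this
        refine prod_eq_zero (mem_univ l) ?_
        simp [hl1, hl2, luD, not_lt.mpr h5]
      · refine prod_eq_zero (mem_univ p.2) ?_
        simp [luS, h2', hne.symm]
    · refine prod_eq_zero (mem_univ p.1) ?_
      simp [luS, h2]

lemma lu_split {s : ℕ} (hs : 2 ≤ s) (y : Fin n → ℝ≥0∞ × ℕ) :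
    (if luLab y = s then luVal y else 0)
      = ∑ i, (∏ l, (if l = i then luS (s + 1) (y l) else luD (y l))) / n
        + ∑ p ∈ luP n, ∑ q ∈ (antidiagonal (s + 2)).filter (fun q => 2 ≤ q.1 ∧ 2 ≤ q.2),
          (∏ l, (if l = p.1 then luS q.1 (y l) else if l = p.2 then luS q.2 (y l) else luD (y l)))
            / luC n p := by
  have e1 : ∀ i : Fin n, (∏ l, (if l = i then luS (s + 1) (y l) else luD (y l))) / (n : ℝ≥0∞)
      = if luLab y = s then (if luA y = {i} then (y i).1 / n else 0) else 0 := by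
    intro i
    rw [lu_prod_one (by omega)]
    by_cases h1 : luA y = {i}
    · have h2 := (lu_one h1).2
      by_cases h3 : luLab y = s
      · rw [if_pos ⟨h1, by omega⟩, if_pos h3, if_pos h1]
      · rw [if_neg (fun h4 => h3 (by omega)), if_neg h3, ENNReal.zero_div]
    · rw [if_neg (fun h4 => h1 h4.1), if_neg h1, ENNReal.zero_div, ite_self]
  have e2 : ∀ p ∈ luP n, ∑ q ∈ (antidiagonal (s + 2)).filter (fun q => 2 ≤ q.1 ∧ 2 ≤ q.2),
          (∏ l, (if l = p.1 then luS q.1 (y l) else if l = p.2 then luS q.2 (y l) else luD (y l)))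
            / luC n p
      = if luLab y = s then (if luA y = {p.1, p.2} then (y p.1).1 * (y p.2).1 / luC n p else 0)
          else 0 := by
    intro p hp
    have e3 : ∀ q ∈ (antidiagonal (s + 2)).filter (fun q => 2 ≤ q.1 ∧ 2 ≤ q.2),
        (∏ l, (if l = p.1 then luS q.1 (y l) else if l = p.2 then luS q.2 (y l) else luD (y l)))
            / luC n p
        = if q = ((y p.1).2, (y p.2).2) then
            (if luA y = {p.1, p.2} then (y p.1).1 * (y p.2).1 / luC n p else 0) else 0 := by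
      intro q hq
      rw [mem_filter, HasAntidiagonal.mem_antidiagonal] at hq
      rw [lu_prod_two hq.2.1 hq.2.2 y hp]
      by_cases h1 : luA y = {p.1, p.2}
      · by_cases h2 : q = ((y p.1).2, (y p.2).2)
        · rw [if_pos h2, if_pos h1, if_pos]
          rw [h2]; exact ⟨h1, rfl, rfl⟩
        · rw [if_neg h2, if_neg, ENNReal.zero_div]
          rintro ⟨-, h3, h4⟩
          exact h2 (Prod.ext h3.symm h4.symm)
      · rw [if_neg (fun h4 => h1 h4.1), if_neg h1, ENNReal.zero_div, ite_self]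
    rw [sum_congr rfl e3, sum_ite_eq']
    by_cases h1 : luA y = {p.1, p.2}
    · have h2 := (lu_two hp h1).2
      have h3 : 2 ≤ (y p.1).2 := by rw [← mem_luA, h1]; simp
      have h4 : 2 ≤ (y p.2).2 := by rw [← mem_luA, h1]; simp
      by_cases h5 : luLab y = s
      · rw [if_pos h5, if_pos]
        rw [mem_filter, HasAntidiagonal.mem_antidiagonal]
        exact ⟨by simp only; omega, h3, h4⟩
      · rw [if_neg h5, if_neg]
        rw [mem_filter, HasAntidiagonal.mem_antidiagonal]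
        simp only
        omega
    · rw [if_neg h1, ite_self, ite_self]
  rw [sum_congr rfl (fun i _ => e1 i), sum_congr rfl e2]
  by_cases h : luLab y = s
  · simp only [if_pos h]; rfl
  · simp only [if_neg h, sum_const_zero, add_zero]

lemma lu_sum_pairs (n : ℕ) (f : ℕ → ℕ → ℝ) :
    ∑ p ∈ luP n, f (p.1 : ℕ) (p.2 : ℕ) = ∑ j ∈ range n, ∑ i ∈ range j, f i j := by
  unfold luP
  rw [sum_filter, Fintype.sum_prod_type_right]
  simp only [Fin.lt_def]
  rw [Fin.sum_univ_eq_sum_range (fun j => ∑ x : Fin n, if (x : ℕ) < j then f (x : ℕ) j else 0) n]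
  refine sum_congr rfl fun j hj => ?_
  rw [mem_range] at hj
  rw [Fin.sum_univ_eq_sum_range (fun i => if i < j then f i j else 0) n, ← sum_filter]
  congr 1
  ext i
  simp only [mem_filter, mem_range]
  omega

lemma lu_inner (j : ℕ) :
    ∑ i ∈ range j, (1 : ℝ) / (((j - i + 1 : ℕ) : ℝ)) = (harmonic (j + 1) : ℝ) - 1 := by
  rw [← sum_range_reflect]
  unfold harmonic
  rw [sum_range_succ']
  push_cast
  simp only [inv_one, add_sub_cancel_right]
  refine sum_congr rfl fun i hi => ?_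
  rw [mem_range] at hi
  have : j - (j - 1 - i) = i + 1 := by omega
  rw [this]
  push_cast
  rw [one_div]

lemma lu_outer (n : ℕ) :
    ∑ j ∈ range n, ∑ i ∈ range j, (1 : ℝ) / (((j - i + 1 : ℕ) : ℝ))
      = (n + 1) * (harmonic n : ℝ) - 2 * n := by
  induction n with
  | zero => simp
  | succ n ih =>
    rw [sum_range_succ, ih, lu_inner, harmonic_succ]
    push_cast
    have : (n : ℝ) + 1 ≠ 0 := by positivity
    field_simp
    ring

/-- the harmonic sum -/
lemma lu_harm (n : ℕ) (hn : 0 < n) :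
    ∑ p ∈ luP n, (luC n p)⁻¹
      = ENNReal.ofReal ((1 + 1 / (n : ℝ)) * (harmonic n : ℝ) - 2) := by
  have hn' : (0 : ℝ) < n := by exact_mod_cast hn
  have h1 : ∀ p ∈ luP n, (luC n p)⁻¹
      = ENNReal.ofReal (1 / ((((p.2 : ℕ) - (p.1 : ℕ) + 1 : ℕ) : ℝ)) / n) := by
    intro p _
    unfold luC
    rw [div_div, one_div, ENNReal.ofReal_inv_of_pos (by positivity),
      ENNReal.ofReal_mul (by positivity), ENNReal.ofReal_natCast, ENNReal.ofReal_natCast]
  rw [sum_congr rfl h1, ← ENNReal.ofReal_sum_of_nonneg (fun p _ => by positivity), ← sum_div,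
    lu_sum_pairs n (fun i j => 1 / ((j - i + 1 : ℕ) : ℝ)), lu_outer]
  congr 1
  field_simp

lemma lu_harm_le (n : ℕ) (hn : 0 < n) :
    (1 + 1 / (n : ℝ)) * (harmonic n : ℝ) - 2 ≤ Real.log n := by
  have hn' : (0 : ℝ) < n := by exact_mod_cast hn
  have h1 := harmonic_le_one_add_log n
  have h2 : (harmonic n : ℝ) ≤ n := by
    unfold harmonic
    push_cast
    calc ∑ i ∈ range n, ((i : ℝ) + 1)⁻¹ ≤ ∑ i ∈ range n, (1 : ℝ) := by
          refine sum_le_sum fun i _ => ?_
          refine inv_le_one_of_one_le₀ ?_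
          have : (0 : ℝ) ≤ i := by positivity
          linarith
      _ = n := by simp
  have h3 : 1 / (n : ℝ) * (harmonic n : ℝ) ≤ 1 := by
    rw [one_div, inv_mul_le_iff₀ hn']; linarith
  linarith

lemma lu_harm_ge (n : ℕ) (hn : 0 < n) :
    Real.log n - 2 ≤ (1 + 1 / (n : ℝ)) * (harmonic n : ℝ) - 2 := by
  have hn' : (0 : ℝ) < n := by exact_mod_cast hn
  have h1 : Real.log n ≤ (harmonic n : ℝ) :=
    le_trans (Real.log_le_log hn' (by push_cast; linarith)) (log_add_one_le_harmonic n)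
  have h2 : (0 : ℝ) ≤ harmonic n := by
    unfold harmonic; push_cast; positivity
  have h3 : 0 ≤ 1 / (n : ℝ) * (harmonic n : ℝ) := by positivity
  linarith

/-! ### expectations -/

lemma lu_prod {X : ℕ → Ω → ℝ≥0∞ × ℕ} (hm : ∀ k, Measurable (X k)) (hi : iIndepFun X Q)
    (hid : ∀ k, IdentDistrib (X k) (X 0) Q Q) (k : ℕ) (φ : Fin n → ℝ≥0∞ × ℕ → ℝ≥0∞)
    (hφ : ∀ i, Measurable (φ i)) :
    ∫⁻ ω, ∏ l : Fin n, φ l (X (k * n + l) ω) ∂Q = ∏ l : Fin n, ∫⁻ ω, φ l (X 0 ω) ∂Q := by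
  have hinj : Function.Injective (fun i : Fin n => k * n + (i : ℕ)) := by
    intro i j h; exact Fin.ext (by simpa using h)
  have h := (hi.precomp hinj).comp (fun i => φ i) hφ
  have h2 := lintegral_prod_eq_prod_lintegral_of_indepFun (univ : Finset (Fin n)) _ h
    (fun i => (hφ i).comp (hm _))
  refine h2.trans (prod_congr rfl fun i _ => ?_)
  exact ((hid _).comp (hφ i)).lintegral_eq

lemma lu_int_one {X : ℕ → Ω → ℝ≥0∞ × ℕ} (hm : ∀ k, Measurable (X k)) (hi : iIndepFun X Q)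
    (hid : ∀ k, IdentDistrib (X k) (X 0) Q Q) (k : ℕ) (s : ℕ) (i : Fin n) :
    ∫⁻ ω, ∏ l : Fin n, (if l = i then luS s (X (k * n + l) ω) else luD (X (k * n + l) ω)) ∂Q
      = (∫⁻ ω, luS s (X 0 ω) ∂Q) * (∫⁻ ω, luD (X 0 ω) ∂Q) ^ (n - 1) := by
  have h := lu_prod hm hi hid k (fun l : Fin n => if l = i then luS s else luD)
    (fun l => by split_ifs; exacts [measurable_luS s, measurable_luD])
  have e1 : ∀ ω, ∏ l : Fin n, (if l = i then luS s (X (k * n + l) ω) else luD (X (k * n + l) ω))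
      = ∏ l : Fin n, (fun l : Fin n => if l = i then luS s else luD) l (X (k * n + l) ω) := by
    intro ω
    refine prod_congr rfl fun l _ => ?_
    by_cases hl : l = i <;> simp [hl]
  simp_rw [e1]
  rw [h, ← mul_prod_erase univ _ (mem_univ i)]
  congr 1
  · simp
  · have : ∀ l ∈ univ.erase i, ∫⁻ ω, (if l = i then luS s else luD) (X 0 ω) ∂Q
        = ∫⁻ ω, luD (X 0 ω) ∂Q := by
      intro l hl
      rw [if_neg (ne_of_mem_erase hl)]
    rw [prod_congr rfl this, prod_const, card_erase_of_mem (mem_univ i), card_univ,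
      Fintype.card_fin]

lemma lu_int_two {X : ℕ → Ω → ℝ≥0∞ × ℕ} (hm : ∀ k, Measurable (X k)) (hi : iIndepFun X Q)
    (hid : ∀ k, IdentDistrib (X k) (X 0) Q Q) (k : ℕ) (s t : ℕ) {p : Fin n × Fin n}
    (hp : p ∈ luP n) :
    ∫⁻ ω, ∏ l : Fin n, (if l = p.1 then luS s (X (k * n + l) ω) else if l = p.2 then
        luS t (X (k * n + l) ω) else luD (X (k * n + l) ω)) ∂Q
      = (∫⁻ ω, luS s (X 0 ω) ∂Q) * (∫⁻ ω, luS t (X 0 ω) ∂Q)
        * (∫⁻ ω, luD (X 0 ω) ∂Q) ^ (n - 2) := by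
  have hne : p.1 ≠ p.2 := ((mem_luP.mp hp)).ne
  have h := lu_prod hm hi hid k
    (fun l : Fin n => if l = p.1 then luS s else if l = p.2 then luS t else luD)
    (fun l => by split_ifs; exacts [measurable_luS s, measurable_luS t, measurable_luD])
  have e1 : ∀ ω, ∏ l : Fin n, (if l = p.1 then luS s (X (k * n + l) ω) else if l = p.2 then
        luS t (X (k * n + l) ω) else luD (X (k * n + l) ω))
      = ∏ l : Fin n, (fun l : Fin n => if l = p.1 then luS s else if l = p.2 then luS t else luD) l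
        (X (k * n + l) ω) := by
    intro ω
    refine prod_congr rfl fun l _ => ?_
    by_cases hl : l = p.1
    · simp [hl]
    · by_cases hl2 : l = p.2
      · simp only [if_neg hl, if_pos hl2]
      · simp only [if_neg hl, if_neg hl2]
  simp_rw [e1]
  rw [h, ← mul_prod_erase univ _ (mem_univ p.1),
    ← mul_prod_erase (univ.erase p.1) _ (mem_erase.mpr ⟨hne.symm, mem_univ p.2⟩), ← mul_assoc]
  congr 1
  · simp [hne.symm]
  · have : ∀ l ∈ (univ.erase p.1).erase p.2,
        ∫⁻ ω, (if l = p.1 then luS s else if l = p.2 then luS t else luD) (X 0 ω) ∂Q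
        = ∫⁻ ω, luD (X 0 ω) ∂Q := by
      intro l hl
      rw [mem_erase, mem_erase] at hl
      rw [if_neg hl.2.1, if_neg hl.1]
    rw [prod_congr rfl this, prod_const, card_erase_of_mem (mem_erase.mpr ⟨hne.symm, mem_univ p.2⟩),
      card_erase_of_mem (mem_univ p.1), card_univ, Fintype.card_fin]
    rfl

lemma lu_final {n : ℕ} (hn0 : 0 < n) {d : ℝ} (hd1 : d ≤ 1) {a : ℕ → ℝ} (ha : ∀ s, 0 ≤ a s)
    {μS : ℕ → ℝ≥0∞} {x y : ℝ≥0∞} (hx : ENNReal.ofReal (1 - d) ≤ x)
    (hy : ENNReal.ofReal (1 - d) ≤ y) {s : ℕ} (hs : 2 ≤ s) {T : Finset (ℕ × ℕ)}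
    (hT : ∀ p ∈ T, 2 ≤ p.1 ∧ 2 ≤ p.2)
    (hA : ∀ s, 2 ≤ s → ENNReal.ofReal (a s) ≤ μS s) :
    ENNReal.ofReal ((1 - d) * (a (s + 1) + (Real.log n - 2) * ∑ p ∈ T, a p.1 * a p.2))
      ≤ μS (s + 1) * x + ENNReal.ofReal ((1 + 1 / (n : ℝ)) * (harmonic n : ℝ) - 2) *
        (y * ∑ q ∈ T, μS q.1 * μS q.2) := by
  have hn0' : (0 : ℝ) < n := by exact_mod_cast hn0
  have hSig : 0 ≤ ∑ p ∈ T, a p.1 * a p.2 := sum_nonneg fun p _ => mul_nonneg (ha _) (ha _)
  have hd0 : 0 ≤ 1 - d := by linarith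
  have hL := lu_harm_ge n hn0
  have hcn0 : 0 ≤ (1 + 1 / (n : ℝ)) * (harmonic n : ℝ) - 2 := by
    have e5 := lu_outer n
    have e6 : 0 ≤ ∑ j ∈ range n, ∑ i ∈ range j, (1 : ℝ) / (((j - i + 1 : ℕ) : ℝ)) :=
      sum_nonneg fun j _ => sum_nonneg fun i _ => by positivity
    rw [e5] at e6
    have e7 : (1 + 1 / (n : ℝ)) * (harmonic n : ℝ) - 2
        = ((n + 1) * (harmonic n : ℝ) - 2 * n) / n := by field_simp
    rw [e7]; exact div_nonneg e6 hn0'.le
  revert hL hcn0
  generalize (1 + 1 / (n : ℝ)) * (harmonic n : ℝ) - 2 = cn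
  intro hL hcn0
  have hS : ENNReal.ofReal (∑ p ∈ T, a p.1 * a p.2) ≤ ∑ q ∈ T, μS q.1 * μS q.2 := by
    rw [ENNReal.ofReal_sum_of_nonneg (fun p _ => mul_nonneg (ha _) (ha _))]
    refine sum_le_sum fun q hq => ?_
    rw [ENNReal.ofReal_mul (ha _)]
    exact mul_le_mul' (hA _ (hT q hq).1) (hA _ (hT q hq).2)
  calc ENNReal.ofReal ((1 - d) * (a (s + 1) + (Real.log n - 2) * ∑ p ∈ T, a p.1 * a p.2))
      ≤ ENNReal.ofReal (a (s + 1) * (1 - d) + cn * ((1 - d) * ∑ p ∈ T, a p.1 * a p.2)) := by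
        refine ENNReal.ofReal_le_ofReal ?_
        have h3 : (Real.log n - 2) * ((1 - d) * ∑ p ∈ T, a p.1 * a p.2)
            ≤ cn * ((1 - d) * ∑ p ∈ T, a p.1 * a p.2) :=
          mul_le_mul_of_nonneg_right hL (mul_nonneg hd0 hSig)
        linarith
    _ = ENNReal.ofReal (a (s + 1)) * ENNReal.ofReal (1 - d) +
        ENNReal.ofReal cn * (ENNReal.ofReal (1 - d) * ENNReal.ofReal (∑ p ∈ T, a p.1 * a p.2)) := by
        rw [ENNReal.ofReal_add (mul_nonneg (ha _) hd0) (mul_nonneg hcn0 (mul_nonneg hd0 hSig)),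
          ENNReal.ofReal_mul (ha _), ENNReal.ofReal_mul hcn0, ENNReal.ofReal_mul hd0]
    _ ≤ _ := by
        refine add_le_add (mul_le_mul' (hA _ (by omega)) hx) (mul_le_mul' le_rfl ?_)
        exact mul_le_mul' hy hS

lemma lu_mass {X : ℕ → Ω → ℝ≥0∞ × ℕ} (hm : ∀ k, Measurable (X k)) (hi : iIndepFun X Q)
    (hid : ∀ k, IdentDistrib (X k) (X 0) Q Q) (hn0 : 0 < n) {s : ℕ} (hs : 2 ≤ s) :
    ∫⁻ ω in {ω | luLab (fun i : Fin n => X (0 * n + i) ω) = s},
        luVal (fun i : Fin n => X (0 * n + i) ω) ∂Q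
      = (∫⁻ ω, luS (s + 1) (X 0 ω) ∂Q) * (∫⁻ ω, luD (X 0 ω) ∂Q) ^ (n - 1)
        + ENNReal.ofReal ((1 + 1 / (n : ℝ)) * (harmonic n : ℝ) - 2) *
          ((∫⁻ ω, luD (X 0 ω) ∂Q) ^ (n - 2) *
            ∑ q ∈ (antidiagonal (s + 2)).filter (fun q => 2 ≤ q.1 ∧ 2 ≤ q.2),
              (∫⁻ ω, luS q.1 (X 0 ω) ∂Q) * (∫⁻ ω, luS q.2 (X 0 ω) ∂Q)) := by
  have hnE : (n : ℝ≥0∞) ≠ 0 := by exact_mod_cast hn0.ne'
  have hnT : (n : ℝ≥0∞) ≠ ⊤ := ENNReal.natCast_ne_top n
  have hGm : Measurable (fun ω (i : Fin n) => X (0 * n + i) ω) := by fun_prop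
  have hms : MeasurableSet {ω | luLab (fun i : Fin n => X (0 * n + i) ω) = s} :=
    measurableSet_eq_fun (measurable_luLab.comp hGm) measurable_const
  rw [← lintegral_indicator hms]
  have e1 : ∀ ω, ({ω | luLab (fun i : Fin n => X (0 * n + i) ω) = s}.indicator
      (fun ω => luVal (fun i : Fin n => X (0 * n + i) ω)) ω)
      = ∑ i : Fin n, (∏ l : Fin n, (if l = i then luS (s + 1) (X (0 * n + l) ω)
          else luD (X (0 * n + l) ω))) / n
      + ∑ p ∈ luP n, ∑ q ∈ (antidiagonal (s + 2)).filter (fun q => 2 ≤ q.1 ∧ 2 ≤ q.2),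
        (∏ l : Fin n, (if l = p.1 then luS q.1 (X (0 * n + l) ω)
          else if l = p.2 then luS q.2 (X (0 * n + l) ω) else luD (X (0 * n + l) ω)))
          / luC n p := by
    intro ω
    have := lu_split hs (fun i : Fin n => X (0 * n + i) ω)
    simp only [Set.indicator_apply, Set.mem_ofPred_eq]
    rw [this]
  simp_rw [e1]
  have m1' : ∀ i : Fin n, Measurable (fun ω => ∏ l : Fin n, (if l = i then
      luS (s + 1) (X (0 * n + l) ω) else luD (X (0 * n + l) ω))) := by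
    intro i
    refine Finset.measurable_prod _ fun l _ => ?_
    split_ifs
    · exact (measurable_luS _).comp (hm _)
    · exact measurable_luD.comp (hm _)
  have m1 : ∀ i : Fin n, Measurable (fun ω => (∏ l : Fin n, (if l = i then
      luS (s + 1) (X (0 * n + l) ω) else luD (X (0 * n + l) ω))) / (n : ℝ≥0∞)) := fun i =>
    (m1' i).div_const _
  have m2' : ∀ p : Fin n × Fin n, ∀ q : ℕ × ℕ, Measurable (fun ω => ∏ l : Fin n,
        (if l = p.1 then luS q.1 (X (0 * n + l) ω)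
          else if l = p.2 then luS q.2 (X (0 * n + l) ω) else luD (X (0 * n + l) ω))) := by
    intro p q
    refine Finset.measurable_prod _ fun l _ => ?_
    split_ifs
    · exact (measurable_luS _).comp (hm _)
    · exact (measurable_luS _).comp (hm _)
    · exact measurable_luD.comp (hm _)
  have m2 : ∀ p : Fin n × Fin n, ∀ q : ℕ × ℕ, Measurable (fun ω => (∏ l : Fin n,
        (if l = p.1 then luS q.1 (X (0 * n + l) ω)
          else if l = p.2 then luS q.2 (X (0 * n + l) ω) else luD (X (0 * n + l) ω)))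
          / luC n p) := fun p q => (m2' p q).div_const _
  rw [lintegral_add_left (Finset.measurable_sum _ fun i _ => m1 i),
    lintegral_finsetSum _ (fun i _ => m1 i),
    lintegral_finsetSum _ (fun p _ => Finset.measurable_sum _ fun q _ => m2 p q)]
  have e2 : ∀ p ∈ luP n, ∫⁻ ω, ∑ q ∈ (antidiagonal (s + 2)).filter (fun q => 2 ≤ q.1 ∧ 2 ≤ q.2),
        (∏ l : Fin n, (if l = p.1 then luS q.1 (X (0 * n + l) ω)
          else if l = p.2 then luS q.2 (X (0 * n + l) ω) else luD (X (0 * n + l) ω)))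
          / luC n p ∂Q
      = (luC n p)⁻¹ * ((∫⁻ ω, luD (X 0 ω) ∂Q) ^ (n - 2) *
        ∑ q ∈ (antidiagonal (s + 2)).filter (fun q => 2 ≤ q.1 ∧ 2 ≤ q.2),
          (∫⁻ ω, luS q.1 (X 0 ω) ∂Q) * (∫⁻ ω, luS q.2 (X 0 ω) ∂Q)) := by
    intro p hp
    rw [lintegral_finsetSum _ (fun q _ => m2 p q), mul_sum, mul_sum]
    refine sum_congr rfl fun q _ => ?_
    simp_rw [div_eq_mul_inv]
    rw [lintegral_mul_const'' _ (m2' p q).aemeasurable, lu_int_two hm hi hid 0 q.1 q.2 hp]
    ring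
  have e3 : ∀ i : Fin n, ∫⁻ ω, (∏ l : Fin n, (if l = i then
      luS (s + 1) (X (0 * n + l) ω) else luD (X (0 * n + l) ω))) / (n : ℝ≥0∞) ∂Q
      = (∫⁻ ω, luS (s + 1) (X 0 ω) ∂Q) * (∫⁻ ω, luD (X 0 ω) ∂Q) ^ (n - 1) / n := by
    intro i
    simp_rw [div_eq_mul_inv]
    rw [lintegral_mul_const'' _ (m1' i).aemeasurable, lu_int_one hm hi hid 0 (s + 1) i]
  rw [sum_congr rfl (fun i _ => e3 i), sum_congr rfl e2, sum_const, card_univ, Fintype.card_fin,
    nsmul_eq_mul, ENNReal.mul_div_cancel hnE hnT, ← sum_mul, lu_harm n hn0]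

lemma lu_total {X : ℕ → Ω → ℝ≥0∞ × ℕ} (hm : ∀ k, Measurable (X k)) (hi : iIndepFun X Q)
    (hid : ∀ k, IdentDistrib (X k) (X 0) Q Q) (hn0 : 0 < n) :
    ∫⁻ ω, luVal (fun i : Fin n => X (0 * n + i) ω) ∂Q
      ≤ (∫⁻ ω, luV (X 0 ω) ∂Q) + ENNReal.ofReal (Real.log n) * (∫⁻ ω, luV (X 0 ω) ∂Q) ^ 2 := by
  have hnE : (n : ℝ≥0∞) ≠ 0 := by exact_mod_cast hn0.ne'
  have hnT : (n : ℝ≥0∞) ≠ ⊤ := ENNReal.natCast_ne_top n
  set G : Ω → (Fin n → ℝ≥0∞ × ℕ) := fun ω i => X (0 * n + i) ω with hG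
  have hGm : Measurable G := by simp only [hG]; fun_prop
  have mV : ∀ i : ℕ, Measurable (fun ω => luV (X i ω)) := fun i => measurable_luV.comp (hm i)
  have b1 : ∀ i : Fin n, ∫⁻ ω, (if luA (G ω) = {i} then (G ω i).1 / n else 0) ∂Q
      ≤ (∫⁻ ω, luV (X 0 ω) ∂Q) / n := by
    intro i
    calc ∫⁻ ω, (if luA (G ω) = {i} then (G ω i).1 / (n : ℝ≥0∞) else 0) ∂Q
        ≤ ∫⁻ ω, luV (X (0 * n + i) ω) * (n : ℝ≥0∞)⁻¹ ∂Q := by
          refine lintegral_mono fun ω => ?_
          simp only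
          split_ifs with hA
          · have h3 : 2 ≤ (G ω i).2 := by rw [← mem_luA, hA]; simp
            rw [div_eq_mul_inv]
            refine mul_le_mul' ?_ le_rfl
            unfold luV
            simp only [hG] at h3 ⊢
            rw [if_pos h3]
          · exact zero_le
      _ = (∫⁻ ω, luV (X 0 ω) ∂Q) / n := by
          rw [lintegral_mul_const'' _ (mV _).aemeasurable, div_eq_mul_inv]
          congr 1
          exact ((hid _).comp measurable_luV).lintegral_eq
  have b2 : ∀ p ∈ luP n, ∫⁻ ω, (if luA (G ω) = {p.1, p.2} then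
      (G ω p.1).1 * (G ω p.2).1 / luC n p else 0) ∂Q
        ≤ (luC n p)⁻¹ * (∫⁻ ω, luV (X 0 ω) ∂Q) ^ 2 := by
    intro p hp
    have hlt := mem_luP.mp hp
    rw [Fin.lt_def] at hlt
    calc ∫⁻ ω, (if luA (G ω) = {p.1, p.2} then
          (G ω p.1).1 * (G ω p.2).1 / luC n p else 0) ∂Q
        ≤ ∫⁻ ω, (luV (X (0 * n + p.1) ω) * luV (X (0 * n + p.2) ω)) * (luC n p)⁻¹ ∂Q := by
          refine lintegral_mono fun ω => ?_
          simp only
          split_ifs with hA
          · have h3 : 2 ≤ (G ω p.1).2 := by rw [← mem_luA, hA]; simp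
            have h4 : 2 ≤ (G ω p.2).2 := by rw [← mem_luA, hA]; simp
            rw [div_eq_mul_inv]
            unfold luV
            simp only [hG] at h3 h4 ⊢
            rw [if_pos h3, if_pos h4]
          · exact zero_le
      _ = (luC n p)⁻¹ * (∫⁻ ω, luV (X 0 ω) ∂Q) ^ 2 := by
          have mm : Measurable (fun ω => luV (X (0 * n + p.1) ω) * luV (X (0 * n + p.2) ω)) :=
            (mV _).mul (mV _)
          rw [lintegral_mul_const'' _ mm.aemeasurable, mul_comm]
          congr 1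
          have hind : IndepFun (fun ω => luV (X (0 * n + p.1) ω))
              (fun ω => luV (X (0 * n + p.2) ω)) Q :=
            (hi.indepFun (by omega)).comp measurable_luV measurable_luV
          have := lintegral_mul_eq_lintegral_mul_lintegral_of_indepFun
            (measurable_luV.comp (hm (0 * n + p.1))) (measurable_luV.comp (hm (0 * n + p.2))) hind
          simp only [Pi.mul_apply, Function.comp_apply] at this
          rw [this, pow_two]
          congr 1
          · exact ((hid _).comp measurable_luV).lintegral_eq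
          · exact ((hid _).comp measurable_luV).lintegral_eq
  have m3 : ∀ i : Fin n, Measurable (fun ω => if luA (G ω) = {i} then
      (G ω i).1 / (n : ℝ≥0∞) else 0) := by
    intro i
    exact (Measurable.ite (measurableSet_luA _) (by fun_prop) measurable_const :
      Measurable (fun y : Fin n → ℝ≥0∞ × ℕ => if luA y = {i} then (y i).1 / (n : ℝ≥0∞)
        else 0)).comp hGm
  have m4 : ∀ p : Fin n × Fin n, Measurable (fun ω => if luA (G ω) = {p.1, p.2} then
      (G ω p.1).1 * (G ω p.2).1 / luC n p else 0) := by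
    intro p
    exact (Measurable.ite (measurableSet_luA _) (by fun_prop) measurable_const :
      Measurable (fun y : Fin n → ℝ≥0∞ × ℕ => if luA y = {p.1, p.2} then
        (y p.1).1 * (y p.2).1 / luC n p else 0)).comp hGm
  calc ∫⁻ ω, luVal (G ω) ∂Q
      = ∑ i : Fin n, ∫⁻ ω, (if luA (G ω) = {i} then (G ω i).1 / n else 0) ∂Q
        + ∑ p ∈ luP n, ∫⁻ ω, (if luA (G ω) = {p.1, p.2} then
          (G ω p.1).1 * (G ω p.2).1 / luC n p else 0) ∂Q := by
        unfold luVal
        rw [lintegral_add_left (Finset.measurable_sum _ fun i _ => m3 i),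
          lintegral_finsetSum _ (fun i _ => m3 i), lintegral_finsetSum _ (fun p _ => m4 p)]
    _ ≤ ∑ i : Fin n, (∫⁻ ω, luV (X 0 ω) ∂Q) / n
        + ∑ p ∈ luP n, (luC n p)⁻¹ * (∫⁻ ω, luV (X 0 ω) ∂Q) ^ 2 :=
        add_le_add (sum_le_sum fun i _ => b1 i) (sum_le_sum b2)
    _ = (∫⁻ ω, luV (X 0 ω) ∂Q)
        + ENNReal.ofReal ((1 + 1 / (n : ℝ)) * (harmonic n : ℝ) - 2)
          * (∫⁻ ω, luV (X 0 ω) ∂Q) ^ 2 := by
        rw [sum_const, card_univ, Fintype.card_fin, nsmul_eq_mul, ENNReal.mul_div_cancel hnE hnT,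
          ← sum_mul, lu_harm n hn0]
    _ ≤ _ := by
        refine add_le_add le_rfl (mul_le_mul' (ENNReal.ofReal_le_ofReal (lu_harm_le n hn0)) le_rfl)

lemma lu_death [IsProbabilityMeasure Q] {Y : Ω → ℝ≥0∞ × ℕ} (hm : Measurable Y) (hn0 : 0 < n)
    {Ab d : ℝ} (hAb : 0 ≤ Ab) (hd : Ab / n ≤ d)
    (hlab : ∀ ω, 1 ≤ (Y ω).2 → (n : ℝ≥0∞) ^ (Y ω).2 ≤ (Y ω).1)
    (htot : ∫⁻ ω, luV (Y ω) ∂Q ≤ ENNReal.ofReal Ab) (k : ℕ) (hk : k ≤ n) :
    ENNReal.ofReal (1 - d) ≤ (∫⁻ ω, luD (Y ω) ∂Q) ^ k := by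
  have hn0' : (0 : ℝ) < n := by exact_mod_cast hn0
  have hnE : (n : ℝ≥0∞) ≠ 0 := by exact_mod_cast hn0.ne'
  have hnT : (n : ℝ≥0∞) ≠ ⊤ := ENNReal.natCast_ne_top n
  have mD : Measurable (fun ω => luD (Y ω)) := measurable_luD.comp hm
  have mD' : Measurable (fun ω => 1 - luD (Y ω)) := measurable_const.sub mD
  have hpd1 : ENNReal.ofReal (1 - Ab / n ^ 2) ≤ ∫⁻ ω, luD (Y ω) ∂Q := by
    have e1 : (n : ℝ≥0∞) ^ 2 * (∫⁻ ω, (1 - luD (Y ω)) ∂Q) ≤ ENNReal.ofReal Ab := by
      refine le_trans ?_ htot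
      rw [← lintegral_const_mul _ mD']
      refine lintegral_mono fun ω => ?_
      unfold luD luV
      by_cases h3 : 2 ≤ (Y ω).2
      · rw [if_neg (not_lt.mpr h3), if_pos h3]
        have h4 := hlab ω (by omega)
        refine le_trans ?_ h4
        rw [tsub_zero, mul_one]
        exact pow_le_pow_right₀ (by exact_mod_cast hn0) h3
      · rw [if_pos (not_le.mp h3)]; simp
    have e2 : (1 : ℝ≥0∞) = (∫⁻ ω, luD (Y ω) ∂Q) + ∫⁻ ω, (1 - luD (Y ω)) ∂Q := by
      rw [← lintegral_add_left mD]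
      have : ∀ ω, luD (Y ω) + (1 - luD (Y ω)) = 1 := by
        intro ω; unfold luD; split_ifs <;> simp
      simp_rw [this]
      simp
    have e3 : ∫⁻ ω, (1 - luD (Y ω)) ∂Q ≤ ENNReal.ofReal (Ab / n ^ 2) := by
      rw [ENNReal.ofReal_div_of_pos (by positivity), ENNReal.ofReal_pow (by positivity),
        ENNReal.ofReal_natCast, ENNReal.le_div_iff_mul_le (Or.inl (pow_ne_zero _ hnE))
        (Or.inl (ENNReal.pow_ne_top hnT)), mul_comm]
      exact e1
    rw [ENNReal.ofReal_sub _ (by positivity), ENNReal.ofReal_one, tsub_le_iff_right, e2]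
    exact add_le_add le_rfl e3
  by_cases hc : 1 - Ab / n ^ 2 < 0
  · have : 1 - d ≤ 0 := by
      have e1 : Ab / n ^ 2 ≤ Ab / n := by
        refine div_le_div_of_nonneg_left hAb hn0' ?_
        have : (1 : ℝ) ≤ n := by exact_mod_cast hn0
        nlinarith
      linarith
    rw [ENNReal.ofReal_of_nonpos this]
    exact zero_le
  · push Not at hc
    calc ENNReal.ofReal (1 - d) ≤ ENNReal.ofReal ((1 - Ab / n ^ 2) ^ k) := by
          refine ENNReal.ofReal_le_ofReal ?_
          have e1 := one_add_mul_le_pow (a := -(Ab / (n : ℝ) ^ 2)) (by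
            have : Ab / (n : ℝ) ^ 2 ≤ 1 := by linarith
            linarith) k
          have e2 : (k : ℝ) * (Ab / n ^ 2) ≤ Ab / n := by
            have e3 : (k : ℝ) ≤ n := by exact_mod_cast hk
            calc (k : ℝ) * (Ab / n ^ 2) ≤ n * (Ab / n ^ 2) := by gcongr
              _ = Ab / n := by field_simp
          have e4 : 1 + -(Ab / (n : ℝ) ^ 2) = 1 - Ab / n ^ 2 := by ring
          rw [e4] at e1
          linarith
      _ = (ENNReal.ofReal (1 - Ab / n ^ 2)) ^ k := ENNReal.ofReal_pow hc k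
      _ ≤ _ := by gcongr

/-- **One level of the macro recursion.** -/
theorem lev_up [IsProbabilityMeasure Q] {n : ℕ} (hn : 2 ≤ n) {V V' : ℕ → Ω → ℝ≥0∞} {R Ab d : ℝ}
    {a : ℕ → ℝ} (hR : 0 ≤ R) (ha : ∀ s, 0 ≤ a s) (hAb : 0 ≤ Ab) (hd : Ab / n ≤ d) (hd1 : d ≤ 1)
    (h : LevP Q n V R a Ab)
    (h1 : ∀ ω k i, k * n ≤ i → i < (k + 1) * n → V i ω / n ≤ V' k ω)
    (h2 : ∀ ω k i j, k * n ≤ i → i < j → j < (k + 1) * n →
      V i ω * V j ω / (((j - i + 1 : ℕ) : ℝ≥0∞) * n) ≤ V' k ω) :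
    LevP Q n V' (2 * R) (fun s => (1 - d) * (a (s + 1) + (Real.log n - 2) *
      ∑ p ∈ (antidiagonal (s + 2)).filter (fun p => 2 ≤ p.1 ∧ 2 ≤ p.2), a p.1 * a p.2))
      (Ab + Real.log n * Ab ^ 2) := by
  obtain ⟨X, hm, hi, hid, hXV, hlab, hXR, hmass, htot⟩ := h
  have hn0 : 0 < n := by omega
  have hnE : (n : ℝ≥0∞) ≠ 0 := by exact_mod_cast hn0.ne'
  have hnT : (n : ℝ≥0∞) ≠ ⊤ := ENNReal.natCast_ne_top n
  -- groups
  have hGm : ∀ k, Measurable (fun ω (i : Fin n) => X (k * n + i) ω) := fun k => by fun_prop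
  have hΦ : Measurable (fun y : Fin n → ℝ≥0∞ × ℕ => (luVal y, luLab y)) :=
    measurable_luVal.prodMk measurable_luLab
  -- the integrals
  have hμS_eq : ∀ s, ∫⁻ ω in {ω | (X 0 ω).2 = s}, (X 0 ω).1 ∂Q = ∫⁻ ω, luS s (X 0 ω) ∂Q := by
    intro s
    rw [← lintegral_indicator (measurableSet_eq_fun (by fun_prop) measurable_const)]
    simp only [Set.indicator_apply, Set.mem_ofPred_eq, luS]
  have hα_eq : ∫⁻ ω in {ω | 2 ≤ (X 0 ω).2}, (X 0 ω).1 ∂Q = ∫⁻ ω, luV (X 0 ω) ∂Q := by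
    rw [← lintegral_indicator (measurableSet_le measurable_const (by fun_prop))]
    simp only [Set.indicator_apply, Set.mem_ofPred_eq, luV]
  rw [hα_eq] at htot
  refine ⟨fun k ω => (luVal (fun i : Fin n => X (k * n + i) ω),
    luLab (fun i : Fin n => X (k * n + i) ω)), ?_, ?_, ?_, ?_, ?_, ?_, ?_, ?_⟩
  · intro k; exact hΦ.comp (hGm k)
  · exact (lu_indep hm hi hn0).comp (fun _ => fun y => (luVal y, luLab y)) (fun _ => hΦ)
  · intro k
    have e1 : IdentDistrib (fun ω (i : Fin n) => X (k * n + i) ω)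
        (fun ω (i : Fin n) => X (0 * n + i) ω) Q Q := by
      refine ⟨(hGm k).aemeasurable, (hGm 0).aemeasurable, ?_⟩
      rw [lu_law hm hi hid k, lu_law hm hi hid 0]
    exact e1.comp hΦ
  · -- domination
    intro k ω
    simp only
    rcases lu_cases (fun i : Fin n => X (k * n + i) ω) with ⟨i, hA⟩ | ⟨p, hp, hA⟩ | ⟨hA1, hA2⟩
    · rw [(lu_one hA).1]
      refine le_trans ?_ (h1 ω k (k * n + i) (by omega) (by
        have := i.2; rw [add_mul, one_mul]; omega))
      exact ENNReal.div_le_div_right (hXV _ ω) _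
    · rw [(lu_two hp hA).1]
      have hlt := mem_luP.mp hp
      rw [Fin.lt_def] at hlt
      refine le_trans ?_ (h2 ω k (k * n + p.1) (k * n + p.2) (by omega) (by omega) (by
        have := p.2.2; rw [add_mul, one_mul]; omega))
      have e1 : k * n + (p.2 : ℕ) - (k * n + (p.1 : ℕ)) + 1 = (p.2 : ℕ) - (p.1 : ℕ) + 1 := by omega
      rw [e1]
      unfold luC
      exact ENNReal.div_le_div_right (mul_le_mul' (hXV _ ω) (hXV _ ω)) _
    · rw [(lu_zero hA1 hA2).1]; exact zero_le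
  · -- labels
    intro k ω hl
    simp only at hl ⊢
    rcases lu_cases (fun i : Fin n => X (k * n + i) ω) with ⟨i, hA⟩ | ⟨p, hp, hA⟩ | ⟨hA1, hA2⟩
    · rw [(lu_one hA).2] at hl ⊢
      rw [(lu_one hA).1]
      have e1 := hlab (k * n + i) ω (by omega)
      rw [ENNReal.le_div_iff_mul_le (Or.inl hnE) (Or.inl hnT)]
      refine le_trans (le_of_eq ?_) e1
      rw [← pow_succ]
      congr 1
      omega
    · rw [(lu_two hp hA).2] at hl ⊢
      rw [(lu_two hp hA).1]
      have hlt := mem_luP.mp hp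
      rw [Fin.lt_def] at hlt
      have h3 : 2 ≤ (X (k * n + p.1) ω).2 := by
        have : p.1 ∈ luA (fun i : Fin n => X (k * n + i) ω) := by rw [hA]; simp
        exact mem_luA.mp this
      have h4 : 2 ≤ (X (k * n + p.2) ω).2 := by
        have : p.2 ∈ luA (fun i : Fin n => X (k * n + i) ω) := by rw [hA]; simp
        exact mem_luA.mp this
      have e1 := hlab (k * n + p.1) ω (by omega)
      have e2 := hlab (k * n + p.2) ω (by omega)
      have hC : luC n p ≤ (n : ℝ≥0∞) ^ 2 := by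
        unfold luC
        rw [pow_two]
        refine mul_le_mul' ?_ le_rfl
        have := p.2.2
        exact_mod_cast (by omega : (p.2 : ℕ) - (p.1 : ℕ) + 1 ≤ n)
      have hC0 : luC n p ≠ 0 := by
        unfold luC
        exact mul_ne_zero (Nat.cast_ne_zero.mpr (Nat.succ_ne_zero _)) hnE
      have hCT : luC n p ≠ ⊤ := ENNReal.mul_ne_top (ENNReal.natCast_ne_top _) hnT
      rw [ENNReal.le_div_iff_mul_le (Or.inl hC0) (Or.inl hCT)]
      calc (n : ℝ≥0∞) ^ ((X (k * n + p.1) ω).2 + (X (k * n + p.2) ω).2 - 2) * luC n p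
          ≤ (n : ℝ≥0∞) ^ ((X (k * n + p.1) ω).2 + (X (k * n + p.2) ω).2 - 2) * (n : ℝ≥0∞) ^ 2 :=
            mul_le_mul' le_rfl hC
        _ = (n : ℝ≥0∞) ^ (X (k * n + p.1) ω).2 * (n : ℝ≥0∞) ^ (X (k * n + p.2) ω).2 := by
            rw [← pow_add, ← pow_add]; congr 1; omega
        _ ≤ _ := mul_le_mul' e1 e2
    · rw [(lu_zero hA1 hA2).2] at hl; omega
  · -- bound
    intro k ω
    simp only
    have hE : ENNReal.ofReal (Real.exp R) ≤ ENNReal.ofReal (Real.exp (2 * R)) :=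
      ENNReal.ofReal_le_ofReal (Real.exp_le_exp.mpr (by linarith))
    rcases lu_cases (fun i : Fin n => X (k * n + i) ω) with ⟨i, hA⟩ | ⟨p, hp, hA⟩ | ⟨hA1, hA2⟩
    · rw [(lu_one hA).1]
      refine le_trans ?_ hE
      refine ENNReal.div_le_of_le_mul ?_
      calc (X (k * n + i) ω).1 ≤ ENNReal.ofReal (Real.exp R) * 1 := by rw [mul_one]; exact hXR _ ω
        _ ≤ ENNReal.ofReal (Real.exp R) * n := mul_le_mul' le_rfl (by exact_mod_cast hn0)
    · rw [(lu_two hp hA).1]
      refine ENNReal.div_le_of_le_mul ?_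
      have hC : 1 ≤ luC n p := by
        unfold luC
        calc (1 : ℝ≥0∞) = 1 * 1 := by simp
          _ ≤ _ := mul_le_mul' (Nat.one_le_cast.mpr (Nat.succ_pos _)) (by exact_mod_cast hn0)
      calc (X (k * n + p.1) ω).1 * (X (k * n + p.2) ω).1
          ≤ ENNReal.ofReal (Real.exp R) * ENNReal.ofReal (Real.exp R) :=
            mul_le_mul' (hXR _ ω) (hXR _ ω)
        _ = ENNReal.ofReal (Real.exp (2 * R)) * 1 := by
            rw [← ENNReal.ofReal_mul (Real.exp_pos _).le, ← Real.exp_add, mul_one]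
            congr 2; ring
        _ ≤ _ := mul_le_mul' le_rfl hC
    · rw [(lu_zero hA1 hA2).1]; exact zero_le
  · -- masses
    intro s hs
    simp only
    rw [lu_mass hm hi hid hn0 hs]
    refine lu_final hn0 hd1 ha
      (lu_death (hm 0) hn0 hAb hd (hlab 0) htot (n - 1) (by omega))
      (lu_death (hm 0) hn0 hAb hd (hlab 0) htot (n - 2) (by omega)) hs
      (fun p hp => (mem_filter.mp hp).2)
      (μS := fun s => ∫⁻ ω, luS s (X 0 ω) ∂Q) ?_
    intro s hs
    rw [← hμS_eq s]; exact hmass s hs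
  · -- total mass
    refine (setLIntegral_le_lintegral _ _).trans ((lu_total hm hi hid hn0).trans ?_)
    have hlog : 0 ≤ Real.log n := Real.log_nonneg (by exact_mod_cast hn0)
    rw [ENNReal.ofReal_add hAb (by positivity), ENNReal.ofReal_mul hlog,
      ENNReal.ofReal_pow hAb]
    gcongr

end LUp

end Pool.Agent.Cop

end
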