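import Mathlib
import Pool.Agent.Work.MP_cceb86_pr.Rare
import Pool.Agent.Work.MP_cceb86_pr.Final2

/-!
The rare stretch criterion for a positive free energy.
-/

open Finset MeasureTheory ProbabilityTheory Real Filter Topology
open scoped ENNReal NNReal

noncomputable section

namespace Pool.Agent.Cop

variable {Ω Ω' : Type*} [MeasurableSpace Ω] [MeasurableSpace Ω'] {P : Measure Ω} {Q : Measure Ω'}
  {K : ℕ → ℝ} {xi : ℕ → Ω → ℕ} {eps : ℕ → Ω → Bool} {w : ℕ → Ω' → ℝ} {α c : ℝ}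

omit [MeasurableSpace Ω'] in
lemma Z_low [IsProbabilityMeasure P] (hm : IsModel P K xi eps) (hK : IsLaw α c K) (lam h : ℝ)
    (x : Ω') {N B : ℕ} (hB : B ≤ N + 1) {a : ℝ} (_ha : 0 ≤ a)
    (hT : ENNReal.ofReal a ≤ ∑ m ∈ range B,
      ren (kT (Ke K) (envOf lam h (fun n => w n x))) 0 m) :
    (1 - ∑ n ∈ Ioc 0 N, K n) / 2 * a ≤ Zpart P xi eps lam h (fun n => w n x) N := by
  have hk0 : 0 ≤ 1 - ∑ n ∈ Ioc 0 N, K n := by
    have := hK.sum_le_one (Ioc 0 N); linarith
  set e : Env := envOf lam h (fun n => w n x) with he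
  have h1 : ENNReal.ofReal ((1 - ∑ n ∈ Ioc 0 N, K n) / 2 * a)
      ≤ ENNReal.ofReal (Zpart P xi eps lam h (fun n => w n x) N) := by
    rw [hm.ofReal_Zpart hK.zero, ENNReal.ofReal_mul (by positivity)]
    have hterm : ∀ m, ENNReal.ofReal ((1 - ∑ n ∈ Ioc 0 N, K n) / 2)
        ≤ KB (Ke K) (N - m) * ((1 + pI e m N) / 2) := by
      intro m
      rw [KB_real hK, ENNReal.ofReal_div_of_pos (by norm_num), ENNReal.div_eq_inv_mul, mul_comm]
      gcongr ?_ * ?_
      · refine ENNReal.ofReal_le_ofReal ?_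
        have : ∑ n ∈ Ioc 0 (N - m), K n ≤ ∑ n ∈ Ioc 0 N, K n :=
          sum_le_sum_of_subset_of_nonneg (Ioc_subset_Ioc_right (Nat.sub_le _ _))
            (fun n _ _ => hK.nonneg n)
        linarith
      · rw [ENNReal.div_eq_inv_mul]
        simp only [ENNReal.ofReal_ofNat]
        calc (2 : ℝ≥0∞)⁻¹ = 2⁻¹ * 1 := by rw [mul_one]
          _ ≤ 2⁻¹ * (1 + pI e m N) := by gcongr; exact le_self_add
    calc ENNReal.ofReal ((1 - ∑ n ∈ Ioc 0 N, K n) / 2) * ENNReal.ofReal a
        ≤ ENNReal.ofReal ((1 - ∑ n ∈ Ioc 0 N, K n) / 2) *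
          ∑ m ∈ range B, ren (kT (Ke K) e) 0 m := by gcongr
      _ ≤ ∑ m ∈ range B, ren (kT (Ke K) e) 0 m * (KB (Ke K) (N - m) * ((1 + pI e m N) / 2)) := by
          rw [mul_sum]
          refine sum_le_sum fun m _ => ?_
          rw [mul_comm]
          gcongr
          exact hterm m
      _ ≤ _ := sum_le_sum_of_subset (range_subset_range.2 hB)
  have h2 : 0 ≤ Zpart P xi eps lam h (fun n => w n x) N :=
    integral_nonneg fun _ => (Real.exp_pos _).le
  exact (ENNReal.ofReal_le_ofReal_iff h2).1 h1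

lemma ren_ne_top {a : ℕ → ℕ → ℝ≥0∞} (ha : ∀ x y, a x y ≠ ∞) (x y : ℕ) : ren a x y ≠ ∞ := by
  induction y using Nat.strong_induction_on with
  | _ y ih =>
    rcases lt_trichotomy x y with h | h | h
    · rw [ren_right _ h]
      exact ENNReal.sum_ne_top.2 fun z hz => ENNReal.mul_ne_top (ih z (mem_Ico.1 hz).2) (ha _ _)
    · subst h; simp [ren_self]
    · rw [ren_of_gt _ h]; simp

lemma log_int [IsProbabilityMeasure P] (hm : IsModel P K xi eps) (hK : IsLaw α c K)
    (hw : IsDisorder Q w) (lam h : ℝ) {N : ℕ} (hk : 0 < 1 - ∑ n ∈ Ioc 0 N, K n) :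
    Integrable (fun x => Real.log (Zpart P xi eps lam h (fun n => w n x) N)) Q := by
  have := hw.prob
  set Z : Ω' → ℝ := fun x => Zpart P xi eps lam h (fun n => w n x) N with hZ
  have hZm : Measurable Z := Z_meas hm hK hw lam h N
  set z₀ : ℝ := (1 - ∑ n ∈ Ioc 0 N, K n) / 2 with hz₀
  have hz0 : 0 < z₀ := by rw [hz₀]; positivity
  have hZl : ∀ x, z₀ ≤ Z x := fun x => Z_lower hm hK lam h x N
  have hZ0 : ∀ x, 0 < Z x := fun x => lt_of_lt_of_le hz0 (hZl x)
  have hZi : Integrable Z Q := by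
    refine ⟨hZm.aestronglyMeasurable, ?_⟩
    rw [hasFiniteIntegral_iff_ofReal (Eventually.of_forall fun x => (hZ0 x).le)]
    set qq : ℝ := Real.exp (-2 * lam * h) * ∫ x, Real.exp (-2 * lam * w 0 x) ∂Q with hqq
    have hW : Weights Q (ew w lam h) 1 (ENNReal.ofReal qq) (ENNReal.ofReal qq) := by
      refine hw.weights le_rfl ?_
      simp [hqq]
    have h1 := frac_moment hW (by norm_num) le_rfl
      (MA_Zf (fun n => ENNReal.ofReal (K n)) (KB (Ke K)) N) (disjoint_empty_left _)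
    simp only [prod_empty, one_mul, card_empty, pow_zero, ENNReal.rpow_one] at h1
    have h2 : ∫⁻ x, ENNReal.ofReal (Z x) ∂Q
        ≤ Zf (fun n => ENNReal.ofReal (K n)) (KB (Ke K)) N (fun _ => ENNReal.ofReal qq) := by
      refine le_trans (le_of_eq ?_) h1
      refine lintegral_congr fun x => ?_
      rw [← Z_eq hm hK]
    refine lt_of_le_of_lt h2 (lt_top_iff_ne_top.2 ?_)
    unfold Zf
    refine ENNReal.sum_ne_top.2 fun m _ => ENNReal.mul_ne_top (ren_ne_top (fun x y => ?_) 0 m) ?_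
    · rw [kT_const]
      refine ENNReal.mul_ne_top ENNReal.ofReal_ne_top (ENNReal.div_ne_top ?_ (by norm_num))
      exact ENNReal.add_ne_top.2 ⟨by norm_num, ENNReal.pow_ne_top ENNReal.ofReal_ne_top⟩
    · refine ENNReal.mul_ne_top ?_ (ENNReal.div_ne_top ?_ (by norm_num))
      · exact ne_top_of_le_ne_top (by norm_num) (KB_le_one hK _)
      · rw [pI_const]
        exact ENNReal.add_ne_top.2 ⟨by norm_num, ENNReal.pow_ne_top ENNReal.ofReal_ne_top⟩
  refine Integrable.mono' ((integrable_const (|Real.log z₀|)).add hZi)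
    hZm.log.aestronglyMeasurable (Eventually.of_forall fun x => ?_)
  simp only [Real.norm_eq_abs, Pi.add_apply]
  have h1 : Real.log z₀ ≤ Real.log (Z x) := Real.log_le_log hz0 (hZl x)
  have h2 := Real.log_le_sub_one_of_pos (hZ0 x)
  have h3 := neg_abs_le (Real.log z₀)
  have h4 := abs_nonneg (Real.log z₀)
  have h5 := hZ0 x
  rw [abs_le]
  constructor <;> linarith

/-- stationarity of the charges -/
lemma stat (hw : IsDisorder Q w) {Ψ : (ℕ → ℝ) → ℝ≥0∞} (hΨ : Measurable Ψ) (a : ℕ) (y : ℝ≥0∞) :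
    Q {x | y ≤ Ψ (fun n => w (n + a) x)} = Q {x | y ≤ Ψ (fun n => w n x)} := by
  have h1 : IdentDistrib (fun x n => w (n + a) x) (fun x n => w n x) Q Q :=
    IdentDistrib.pi (X := fun n => w (n + a)) (Y := w)
      (fun n => (hw.ident (n + a)).trans (hw.ident n).symm)
      (hw.indep.precomp (g := fun n => n + a) (fun a b hab => by simpa using hab)) hw.indep
  have h2 := h1.measure_mem_eq (s := {v | y ≤ Ψ v}) (measurableSet_le measurable_const hΨ)
  exact h2

lemma YG_meas (K : ℕ → ℝ≥0∞) (G : Finset ℕ) (lam h : ℝ) :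
    Measurable (fun v : ℕ → ℝ => YG K G (envOf lam h v)) := by
  unfold YG
  refine Finset.measurable_sum _ fun s _ => Finset.measurable_sum _ fun t _ => ?_
  exact (MA_ren (MA_kT (K := K)) s t).measurable (e := fun n (v : ℕ → ℝ) => envOf lam h v n)
    (fun n => by unfold envOf; fun_prop)

/-- **The rare stretch criterion.** -/
theorem rare_stretch [IsProbabilityMeasure P] (hm : IsModel P K xi eps) (hK : IsLaw α c K)
    (hα : 0 < α) (hα1 : α < 1) (hc : 0 < c) (hw : IsDisorder Q w) {lam h cs Y p : ℝ} {ℓ d0 : ℕ}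
    {G : Finset ℕ} (hd0 : 0 < d0) (hcs : 0 < cs)
    (hKl : ∀ n : ℕ, d0 ≤ n → cs * (n : ℝ) ^ (-(1 + α)) ≤ K n / 2)
    (hG : ∀ x ∈ G, x + d0 ≤ ℓ) (hY : 0 < Y) (hℓ : 0 < ℓ) (hp0 : 0 < p)
    (hp : ENNReal.ofReal p
      ≤ Q {x | ENNReal.ofReal Y ≤ YG (Ke K) G (envOf lam h (fun n => w n x))})
    (hcrit : 3 * (ℓ : ℝ) < p * (cs * Y) ^ (1 / (1 + α))) :
    ∃ δ : ℝ, 0 < δ ∧ ∀ᶠ N in atTop, δ ≤ freeN P xi eps Q w lam h N := by
  classical
  have := hw.prob
  have hℓ0 : (0 : ℝ) < ℓ := by exact_mod_cast hℓ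
  have hp1 : p ≤ 1 := by
    have h1 := hp.trans prob_le_one
    rw [← ENNReal.ofReal_one] at h1
    exact (ENNReal.ofReal_le_ofReal_iff (by norm_num)).1 h1
  set B0 : ℝ := (cs * Y) ^ (1 / (1 + α)) / ℓ with hB0
  have hB0p : 3 < B0 * p := by
    rw [hB0, div_mul_eq_mul_div, lt_div_iff₀ hℓ0]; linarith
  have hB0pos : 0 < B0 := by rw [hB0]; positivity
  have hα2 : 0 < 1 + α := by linarith
  set lA : ℝ := (1 + α) * (Real.log (B0 * p) + (1 - p)) with hlA
  set A : ℝ := Real.exp lA with hA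
  set θ : ℝ := Real.exp (-((1 + α) * p)) with hθ
  have hθ1 : θ ≤ 1 := by
    rw [hθ]; refine Real.exp_le_one_iff.2 ?_
    have : 0 ≤ (1 + α) * p := by positivity
    linarith
  have hlog1 : 1 < Real.log (B0 * p) := by
    rw [Real.lt_log_iff_exp_lt (by positivity)]
    have := Real.exp_one_lt_d9
    linarith
  have hlA0 : 0 ≤ lA := by
    rw [hlA]; apply mul_nonneg hα2.le; linarith
  have hcsY : cs * Y * (ℓ : ℝ) ^ (-(1 + α)) = B0 ^ (1 + α) := by
    rw [hB0, Real.div_rpow (by positivity) hℓ0.le, ← Real.rpow_mul (by positivity),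
      Real.rpow_neg hℓ0.le]
    have : 1 / (1 + α) * (1 + α) = 1 := by field_simp
    rw [this, Real.rpow_one]
    field_simp
  have hAθ : ∀ k : ℕ, A * θ ^ k ≤ cs * (((k + 1 : ℕ) : ℝ) * ℓ) ^ (-(1 + α)) * Y := by
    intro k
    set u : ℝ := p * ((k + 1 : ℕ) : ℝ) with hu
    have hk : (0 : ℝ) < ((k + 1 : ℕ) : ℝ) := by positivity
    have hu0 : 0 < u := by positivity
    have e1 : A * θ ^ k = B0 ^ (1 + α) * (p * Real.exp (1 - u)) ^ (1 + α) := by
      rw [hA, hθ, ← Real.exp_nat_mul, ← Real.exp_add, ← Real.mul_rpow hB0pos.le (by positivity)]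
      have e2 : B0 * (p * Real.exp (1 - u)) = Real.exp (Real.log (B0 * p) + (1 - u)) := by
        rw [Real.exp_add, Real.exp_log (by positivity)]; ring
      rw [e2, ← Real.exp_mul]
      congr 1
      rw [hlA, hu]; push_cast; ring
    have e3 : p * Real.exp (1 - u) ≤ ((k + 1 : ℕ) : ℝ)⁻¹ := by
      have e4 : u ≤ Real.exp (u - 1) := by
        have := Real.add_one_le_exp (u - 1); linarith
      have e5 : u * Real.exp (1 - u) ≤ 1 := by
        calc u * Real.exp (1 - u) ≤ Real.exp (u - 1) * Real.exp (1 - u) := by gcongr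
          _ = 1 := by rw [← Real.exp_add]; simp
      rw [← one_div, le_div_iff₀ hk]
      calc p * Real.exp (1 - u) * ((k + 1 : ℕ) : ℝ) = u * Real.exp (1 - u) := by rw [hu]; ring
        _ ≤ 1 := e5
    have e6 : (p * Real.exp (1 - u)) ^ (1 + α) ≤ ((k + 1 : ℕ) : ℝ) ^ (-(1 + α)) := by
      rw [Real.rpow_neg hk.le, ← Real.inv_rpow hk.le]
      exact Real.rpow_le_rpow (by positivity) e3 hα2.le
    rw [e1]
    calc B0 ^ (1 + α) * (p * Real.exp (1 - u)) ^ (1 + α)
        ≤ B0 ^ (1 + α) * ((k + 1 : ℕ) : ℝ) ^ (-(1 + α)) := by gcongr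
      _ = _ := by
          rw [← hcsY, Real.mul_rpow hk.le hℓ0.le]; ring
  -- the events
  set Ψ : (ℕ → ℝ) → ℝ≥0∞ := fun v => YG (Ke K) G (envOf lam h v) with hΨ
  have hΨm : Measurable Ψ := YG_meas (Ke K) G lam h
  set Ev : ℕ → Set Ω' := fun k => {x | ENNReal.ofReal Y ≤ Ψ (fun n => w (n + k * ℓ) x)} with hEv
  have hEvm : ∀ k, MeasurableSet (Ev k) := by
    intro k
    refine measurableSet_le measurable_const (hΨm.comp ?_)
    exact measurable_pi_lambda _ fun n => hw.meas _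
  have hEvp : ∀ k, p ≤ (Q (Ev k)).toReal := by
    intro k
    have h1 : Q (Ev k) = Q {x | ENNReal.ofReal Y ≤ Ψ (fun n => w n x)} :=
      stat hw hΨm (k * ℓ) (ENNReal.ofReal Y)
    rw [h1]
    rw [← ENNReal.ofReal_le_iff_le_toReal (measure_ne_top _ _)]
    exact hp
  -- the lower bound for a fixed length
  have hlow : ∀ N M : ℕ, 1 ≤ M → M * ℓ ≤ N + 1 → 0 < 1 - ∑ n ∈ Ioc 0 N, K n →
      Real.log ((1 - ∑ n ∈ Ioc 0 N, K n) / 2) + ((M : ℝ) - 1) * p * lA - M * ((1 + α) * p)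
        ≤ ∫ x, Real.log (Zpart P xi eps lam h (fun n => w n x) N) ∂Q := by
    intro N M hM hMN hk
    set z₀ : ℝ := (1 - ∑ n ∈ Ioc 0 N, K n) / 2 with hz₀
    have hz0 : 0 < z₀ := by rw [hz₀]; positivity
    have hpt : ∀ x, Real.log z₀ + (∑ k ∈ Ico 1 M, (Ev k).indicator (fun _ => (1 : ℝ)) x) * lA
        - M * ((1 + α) * p) ≤ Real.log (Zpart P xi eps lam h (fun n => w n x) N) := by
      intro x
      have h1 := rare_point (A := A) (θ := θ) (Y := Y) hKl hcs hα hd0 hℓ hG (Real.exp_pos _)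
        (Real.exp_pos _) hθ1 hAθ (envOf lam h (fun n => w n x)) (fun k => x ∈ Ev k)
        (fun k hk => hk) hM
      have h2 := Z_low hm hK lam h x hMN (by positivity) h1
      set g : ℕ := ((Ico 1 M).filter (fun k => x ∈ Ev k)).card with hg
      have h3 : ∑ k ∈ Ico 1 M, (Ev k).indicator (fun _ => (1 : ℝ)) x = g := by
        rw [hg, card_filter]
        push_cast
        refine sum_congr rfl fun k _ => ?_
        by_cases hx : x ∈ Ev k
        · rw [Set.indicator_of_mem hx, if_pos hx]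
        · rw [Set.indicator_of_notMem hx, if_neg hx]
      rw [h3]
      refine le_trans (le_of_eq ?_) (Real.log_le_log (by positivity) h2)
      rw [Real.log_mul hz0.ne' (by positivity), Real.log_mul (by positivity) (by positivity),
        Real.log_pow, Real.log_pow, hA, hθ, Real.log_exp, Real.log_exp]
      ring
    have hind : ∀ k, Integrable ((Ev k).indicator (fun _ => (1 : ℝ))) Q := fun k =>
      (integrable_const (1 : ℝ)).indicator (hEvm k)
    have hsumi : Integrable (fun x => ∑ k ∈ Ico 1 M, (Ev k).indicator (fun _ => (1 : ℝ)) x) Q :=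
      integrable_finsetSum _ fun k _ => hind k
    have hint := integral_mono (((integrable_const (Real.log z₀)).add (hsumi.mul_const lA)).sub
      (integrable_const (M * ((1 + α) * p)))) (log_int hm hK hw lam h hk) hpt
    refine le_trans ?_ hint
    have e1 : ∫ x, (Real.log z₀ + (∑ k ∈ Ico 1 M, (Ev k).indicator (fun _ => (1 : ℝ)) x) * lA
        - M * ((1 + α) * p)) ∂Q
        = Real.log z₀ + (∑ k ∈ Ico 1 M, (Q (Ev k)).toReal) * lA - M * ((1 + α) * p) := by
      have i1 : Integrable (fun x => Real.log z₀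
          + (∑ k ∈ Ico 1 M, (Ev k).indicator (fun _ => (1 : ℝ)) x) * lA) Q :=
        (integrable_const (Real.log z₀)).add (hsumi.mul_const lA)
      rw [integral_sub i1 (integrable_const _), integral_add (integrable_const _)
        (hsumi.mul_const lA), integral_mul_const, integral_finsetSum _ (fun k _ => hind k)]
      simp only [integral_const, probReal_univ, smul_eq_mul, one_mul]
      congr 3
      refine sum_congr rfl fun k _ => ?_
      rw [integral_indicator_const _ (hEvm k)]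
      simp [Measure.real]
    simp only [Pi.add_apply, Pi.sub_apply] at *
    rw [e1]
    have e2 : ((M : ℝ) - 1) * p ≤ ∑ k ∈ Ico 1 M, (Q (Ev k)).toReal := by
      calc ((M : ℝ) - 1) * p = ∑ k ∈ Ico 1 M, p := by
            rw [sum_const, Nat.card_Ico, nsmul_eq_mul, Nat.cast_sub hM]; simp
        _ ≤ _ := sum_le_sum fun k _ => hEvp k
    have e3 : ((M : ℝ) - 1) * p * lA ≤ (∑ k ∈ Ico 1 M, (Q (Ev k)).toReal) * lA := by gcongr
    linarith
  -- the rate
  set D : ℝ := p * lA - (1 + α) * p with hD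
  have hDpos : 0 < D := by
    have : D = (1 + α) * p * (Real.log (B0 * p) - p) := by rw [hD, hlA]; ring
    rw [this]
    have : 0 < Real.log (B0 * p) - p := by linarith
    positivity
  refine ⟨D / (2 * ℓ), by positivity, ?_⟩
  have hlogN : Tendsto (fun N : ℕ => Real.log N / N) atTop (𝓝 0) := by
    have h := Real.isLittleO_log_id_atTop.tendsto_div_nhds_zero
    exact h.comp tendsto_natCast_atTop_atTop
  have hconst : ∀ a : ℝ, Tendsto (fun N : ℕ => a / (N : ℝ)) atTop (𝓝 0) := fun a =>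
    tendsto_const_div_atTop_nhds_zero_nat a
  have hlim : Tendsto (fun N : ℕ => Real.log (9 / 20 * (c / α)) / N - α * (Real.log N / N)
      + (-(D + p * lA)) / N + D / ℓ) atTop (𝓝 (0 - α * 0 + 0 + D / ℓ)) :=
    (((hconst _).sub (hlogN.const_mul α)).add (hconst _)).add tendsto_const_nhds
  have hhalf : D / (2 * ℓ) < 0 - α * 0 + 0 + D / ℓ := by
    have h0 : 0 < D / ℓ := by positivity
    have h1 : D / (2 * ℓ) = D / ℓ / 2 := by field_simp
    rw [h1]; linarith
  filter_upwards [hlim.eventually (lt_mem_nhds hhalf), hK.tail_low hc hα hα1.le,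
    eventually_ge_atTop ℓ, eventually_gt_atTop 0] with N h1 h2 h3 h4
  have hN1 : (0 : ℝ) < N := by exact_mod_cast h4
  have hNα : 0 < (N : ℝ) ^ (-α) := Real.rpow_pos_of_pos hN1 _
  have hk : 9 / 10 * (c / α) * (N : ℝ) ^ (-α) ≤ 1 - ∑ n ∈ Ioc 0 N, K n := by linarith
  have hk0 : 0 < 1 - ∑ n ∈ Ioc 0 N, K n := lt_of_lt_of_le (by positivity) hk
  have hM : 1 ≤ N / ℓ := (Nat.one_le_div_iff hℓ).2 h3
  have h5 := hlow N (N / ℓ) hM ((Nat.div_mul_le_self N ℓ).trans (Nat.le_succ N)) hk0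
  have h6 : (N : ℝ) / ℓ - 1 ≤ ((N / ℓ : ℕ) : ℝ) := by
    have : (N : ℝ) < (((N / ℓ : ℕ) : ℝ) + 1) * ℓ := by
      have := Nat.lt_div_mul_add (a := N) hℓ
      have h7 : (N : ℝ) < ((N / ℓ * ℓ + ℓ : ℕ) : ℝ) := by exact_mod_cast this
      push_cast at h7
      linarith
    rw [sub_le_iff_le_add, div_le_iff₀ hℓ0]
    exact this.le
  have h7 : Real.log (9 / 20 * (c / α)) - α * Real.log N
      ≤ Real.log ((1 - ∑ n ∈ Ioc 0 N, K n) / 2) := by
    have h8 : Real.log (9 / 20 * (c / α)) - α * Real.log N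
        = Real.log (9 / 20 * (c / α) * (N : ℝ) ^ (-α)) := by
      rw [Real.log_mul (by positivity) hNα.ne', Real.log_rpow hN1]; ring
    rw [h8]
    refine Real.log_le_log (by positivity) ?_
    linarith
  unfold freeN
  have h8 : Real.log (9 / 20 * (c / α)) - α * Real.log N - (D + p * lA) + (N : ℝ) / ℓ * D
      ≤ ∫ x, Real.log (Zpart P xi eps lam h (fun n => w n x) N) ∂Q := by
    refine le_trans ?_ h5
    have h9 : ((N : ℝ) / ℓ - 1) * D ≤ ((N / ℓ : ℕ) : ℝ) * D := by gcongr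
    rw [hD] at h9 ⊢
    nlinarith
  refine h1.le.trans ?_
  calc Real.log (9 / 20 * (c / α)) / N - α * (Real.log N / N) + (-(D + p * lA)) / N + D / ℓ
      = (1 / (N : ℝ)) * (Real.log (9 / 20 * (c / α)) - α * Real.log N - (D + p * lA)
          + (N : ℝ) / ℓ * D) := by field_simp; ring
    _ ≤ _ := by gcongr

lemma MA.scale {S : Finset ℕ} {g : Env → ℝ≥0∞} (hg : MA S g) {q : ℝ≥0∞} (hq : 1 ≤ q) :
    g (fun _ => q) ≤ q ^ S.card * g (fun _ => 1) := by
  obtain ⟨ι, hι, w, T, hT, hg⟩ := hg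
  rw [hg, hg, mul_sum]
  refine sum_le_sum fun i _ => ?_
  rw [prod_const, prod_const, one_pow, mul_one, mul_comm]
  gcongr
  exact hT i

lemma Zf_one_le (hK : IsLaw α c K) (N : ℕ) :
    Zf (fun n => ENNReal.ofReal (K n)) (KB (Ke K)) N (fun _ => 1) ≤ (N + 1 : ℕ) := by
  have hK1 : ∀ M, ∑ n ∈ Ioc 0 M, (fun n => ENNReal.ofReal (K n)) n ≤ 1 := by
    intro M
    simp only
    rw [← ENNReal.ofReal_sum_of_nonneg (fun n _ => hK.nonneg n), ← ENNReal.ofReal_one]
    exact ENNReal.ofReal_le_ofReal (hK.sum_le_one _)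
  calc Zf (fun n => ENNReal.ofReal (K n)) (KB (Ke K)) N (fun _ => 1)
      ≤ ∑ m ∈ range (N + 1), 1 := by
        unfold Zf
        refine sum_le_sum fun m _ => ?_
        calc ren (kT (fun n => ENNReal.ofReal (K n)) (fun _ => 1)) 0 m *
              (KB (Ke K) (N - m) * ((1 + pI (fun _ => 1) m N) / 2))
            ≤ 1 * (1 * 1) := by
              gcongr
              · exact ren_one_le hK1 0 m
              · exact KB_le_one hK _
              · rw [pI_const, one_pow, one_add_one_eq_two, ENNReal.div_self] <;> simp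
          _ = 1 := by simp
    _ = (N + 1 : ℕ) := by simp

/-- the free energies are bounded from above. -/
lemma freeN_bdd [IsProbabilityMeasure P] (hm : IsModel P K xi eps) (hK : IsLaw α c K)
    (hα : 0 < α) (hα1 : α < 1) (hc : 0 < c) (hw : IsDisorder Q w) (lam h : ℝ) :
    ∃ C : ℝ, ∀ᶠ N in atTop, freeN P xi eps Q w lam h N ≤ C := by
  have := hw.prob
  set q₀ : ℝ := Real.exp (-2 * lam * h) * ∫ x, Real.exp (-2 * lam * w 0 x) ∂Q with hq₀
  set qq : ℝ := max q₀ 1 with hqq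
  have hqq1 : 1 ≤ qq := le_max_right _ _
  refine ⟨Real.log qq + 1, ?_⟩
  filter_upwards [hK.tail_low hc hα hα1.le, eventually_gt_atTop 0] with N h2 h4
  have hN1 : (0 : ℝ) < N := by exact_mod_cast h4
  have hNα : 0 < (N : ℝ) ^ (-α) := Real.rpow_pos_of_pos hN1 _
  have hk : 9 / 10 * (c / α) * (N : ℝ) ^ (-α) ≤ 1 - ∑ n ∈ Ioc 0 N, K n := by linarith
  have hk0 : 0 < 1 - ∑ n ∈ Ioc 0 N, K n := lt_of_lt_of_le (by positivity) hk
  have hW : Weights Q (ew w lam h) 1 (ENNReal.ofReal qq) (ENNReal.ofReal qq) := by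
    refine hw.weights (le_max_left _ _) ?_
    simp [hqq, hq₀]
  have h1 := frac_moment hW (by norm_num) le_rfl
    (MA_Zf (fun n => ENNReal.ofReal (K n)) (KB (Ke K)) N) (disjoint_empty_left _)
  simp only [prod_empty, one_mul, card_empty, pow_zero] at h1
  have hb : (0 : ℝ) < qq ^ N * (N + 1 : ℕ) := by positivity
  have h3 := (log_bound (lam := lam) (h := h) hm hK hw (γ := 1) one_pos hb hk0 (by
    refine h1.trans ?_
    rw [ENNReal.rpow_one]
    refine ((MA_Zf (fun n => ENNReal.ofReal (K n)) (KB (Ke K)) N).scale (by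
      rw [← ENNReal.ofReal_one]; exact ENNReal.ofReal_le_ofReal hqq1)).trans ?_
    rw [ENNReal.ofReal_mul (by positivity), ENNReal.ofReal_natCast, Nat.card_Ioc, Nat.sub_zero,
      ENNReal.ofReal_pow (by positivity)]
    gcongr
    exact Zf_one_le hK N)).2
  unfold freeN
  rw [div_one, Real.log_mul (by positivity) (by positivity), Real.log_pow] at h3
  have h5 : Real.log ((N + 1 : ℕ) : ℝ) ≤ N := by
    have := Real.log_le_sub_one_of_pos (show (0 : ℝ) < ((N + 1 : ℕ) : ℝ) by positivity)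
    push_cast at this ⊢
    linarith
  calc (1 / (N : ℝ)) * ∫ x, Real.log (Zpart P xi eps lam h (fun n => w n x) N) ∂Q
      ≤ (1 / (N : ℝ)) * (N * Real.log qq + N) := by gcongr; linarith
    _ = _ := by field_simp

/-- a positive lower free energy bounds the critical point from below. -/
lemma le_hcrit {lam h δ : ℝ} (hδ : 0 < δ)
    (hpos : ∀ᶠ N in atTop, δ ≤ freeN P xi eps Q w lam h N) {b C : ℝ}
    (hb : ∀ h' : ℝ, b ≤ h' → Tendsto (fun N : ℕ => freeN P xi eps Q w lam h' N) atTop (𝓝 0))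
    (hC : ∀ᶠ N in atTop, freeN P xi eps Q w lam h N ≤ C) :
    h ≤ hcrit P xi eps Q w lam := by
  unfold hcrit
  refine le_csSup ?_ ?_
  · refine ⟨b, fun h' hh' => ?_⟩
    by_contra hcon
    push Not at hcon
    have h2 := hb h' hcon.le
    have hh'' : 0 < freeEnergy P xi eps Q w lam h' := hh'
    unfold freeEnergy at hh''
    rw [h2.limsup_eq] at hh''
    exact lt_irrefl _ hh''
  · change 0 < freeEnergy P xi eps Q w lam h
    unfold freeEnergy
    refine lt_of_lt_of_le hδ ?_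
    refine le_limsup_of_frequently_le hpos.frequently ?_
    exact ⟨C, hC⟩

/-- the lower bound of the critical point from a rare stretch. -/
theorem rare_hcrit [IsProbabilityMeasure P] (hm : IsModel P K xi eps) (hK : IsLaw α c K)
    (hα : 0 < α) (hα1 : α < 1) (hc : 0 < c) (hw : IsDisorder Q w) {lam h δ b : ℝ} (hδ : 0 < δ)
    (hpos : ∀ᶠ N in atTop, δ ≤ freeN P xi eps Q w lam h N)
    (hb : ∀ h' : ℝ, b ≤ h' → Tendsto (fun N : ℕ => freeN P xi eps Q w lam h' N) atTop (𝓝 0)) :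
    h ≤ hcrit P xi eps Q w lam := by
  obtain ⟨C, hC⟩ := freeN_bdd hm hK hα hα1 hc hw lam h
  exact le_hcrit hδ hpos hb hC

end Pool.Agent.Cop

end
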