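import Mathlib

/-!
From a large truncated mean to a large tail.
-/

open MeasureTheory Filter
open scoped ENNReal

noncomputable section

namespace Pool.Agent.Cop

variable {Ω : Type*} [MeasurableSpace Ω] {Q : Measure Ω}

theorem tail_of_int [IsProbabilityMeasure Q] {W : Ω → ℝ≥0∞} (hW : Measurable W) {B R : ℝ}
    (hB : 1 ≤ B) (hR : 0 ≤ R)
    (h : ENNReal.ofReal (B * (1 + R))
      < ∫⁻ ω, min (W ω) (ENNReal.ofReal (Real.exp R)) ∂Q) :
    ∃ y : ℝ, 0 < y ∧ ENNReal.ofReal B < ENNReal.ofReal y * Q {ω | ENNReal.ofReal y ≤ W ω} := by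
  by_contra hcon
  push Not at hcon
  refine absurd h (not_lt.2 ?_)
  set M : ℝ := Real.exp R with hM
  have hM1 : 1 ≤ M := Real.one_le_exp hR
  set f : Ω → ℝ := fun ω => (min (W ω) (ENNReal.ofReal M)).toReal with hfdef
  have hf : ∀ ω, ENNReal.ofReal (f ω) = min (W ω) (ENNReal.ofReal M) := fun ω =>
    ENNReal.ofReal_toReal (ne_top_of_le_ne_top ENNReal.ofReal_ne_top (min_le_right _ _))
  have hfm : Measurable f := (hW.min measurable_const).ennreal_toReal
  have hlog : ∫⁻ t in Set.Ioc 1 M, ENNReal.ofReal (B / t) = ENNReal.ofReal (B * R) := by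
    have h1 : ∫ t in (1 : ℝ)..M, B / t = B * R := by
      have : ∀ t : ℝ, B / t = B * (1 / t) := fun t => by ring
      simp_rw [this]
      rw [intervalIntegral.integral_const_mul, integral_one_div_of_pos one_pos (by positivity),
        div_one, hM, Real.log_exp]
    rw [← h1, intervalIntegral.integral_of_le hM1]
    rw [ofReal_integral_eq_lintegral_ofReal]
    · have h2 : IntervalIntegrable (fun t : ℝ => B / t) volume 1 M := by
        refine ContinuousOn.intervalIntegrable ?_
        rw [Set.uIcc_of_le hM1]
        refine continuousOn_const.div continuousOn_id ?_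
        intro x hx
        have := hx.1
        have h3 : x ≠ 0 := by linarith
        exact h3
      exact (intervalIntegrable_iff_integrableOn_Ioc_of_le hM1).1 h2
    · refine (ae_restrict_iff' measurableSet_Ioc).2 (Eventually.of_forall fun t ht => ?_)
      have := ht.1
      simp only [Pi.zero_apply]
      positivity
  calc ∫⁻ ω, min (W ω) (ENNReal.ofReal M) ∂Q = ∫⁻ ω, ENNReal.ofReal (f ω) ∂Q := by
        simp_rw [hf]
    _ = ∫⁻ t in Set.Ioi 0, Q {a | t ≤ f a} :=
        lintegral_eq_lintegral_meas_le Q (Eventually.of_forall fun _ => ENNReal.toReal_nonneg)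
          hfm.aemeasurable
    _ ≤ ∫⁻ t in Set.Ioi (0 : ℝ), ((Set.Ioc (0 : ℝ) 1).indicator (fun _ => (1 : ℝ≥0∞)) t
          + (Set.Ioc 1 M).indicator (fun t => ENNReal.ofReal (B / t)) t) := by
        refine setLIntegral_mono' measurableSet_Ioi fun t ht => ?_
        have ht0 : 0 < t := ht
        rcases le_or_gt t 1 with h1 | h1
        · rw [Set.indicator_of_mem (show t ∈ Set.Ioc (0 : ℝ) 1 from ⟨ht0, h1⟩)]
          exact (prob_le_one).trans le_self_add
        rcases le_or_gt t M with h2 | h2
        · rw [Set.indicator_of_mem (show t ∈ Set.Ioc 1 M from ⟨h1, h2⟩)]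
          refine le_trans ?_ le_add_self
          have h3 : {a | t ≤ f a} ⊆ {ω | ENNReal.ofReal t ≤ W ω} := by
            intro ω hω
            have h4 : ENNReal.ofReal t ≤ ENNReal.ofReal (f ω) := ENNReal.ofReal_le_ofReal hω
            rw [hf] at h4
            exact h4.trans (min_le_left _ _)
          refine (measure_mono h3).trans ?_
          rw [ENNReal.ofReal_div_of_pos ht0]
          rw [ENNReal.le_div_iff_mul_le (Or.inl (by simpa using ht0)) (Or.inl ENNReal.ofReal_ne_top)]
          rw [mul_comm]
          exact hcon t ht0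
        · have h3 : {a | t ≤ f a} = ∅ := by
            ext ω
            simp only [Set.mem_ofPred_eq, Set.mem_empty_iff_false, iff_false, not_le]
            have h4 : f ω ≤ M := by
              have : ENNReal.ofReal (f ω) ≤ ENNReal.ofReal M := by
                rw [hf]; exact min_le_right _ _
              exact (ENNReal.ofReal_le_ofReal_iff (by positivity)).1 this
            linarith
          rw [h3, measure_empty]
          exact zero_le
    _ = (∫⁻ t in Set.Ioi (0 : ℝ), (Set.Ioc (0 : ℝ) 1).indicator (fun _ => (1 : ℝ≥0∞)) t)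
          + ∫⁻ t in Set.Ioi (0 : ℝ), (Set.Ioc 1 M).indicator (fun t => ENNReal.ofReal (B / t)) t := by
        rw [lintegral_add_left]
        exact measurable_const.indicator measurableSet_Ioc
    _ ≤ ENNReal.ofReal 1 + ENNReal.ofReal (B * R) := by
        refine add_le_add ?_ ?_
        · refine (setLIntegral_le_lintegral _ _).trans ?_
          rw [lintegral_indicator measurableSet_Ioc]
          simp
        · refine (setLIntegral_le_lintegral _ _).trans ?_
          rw [lintegral_indicator measurableSet_Ioc, hlog]
    _ = ENNReal.ofReal (1 + B * R) := by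
        rw [ENNReal.ofReal_add (by norm_num) (by positivity)]
    _ ≤ ENNReal.ofReal (B * (1 + R)) := by
        refine ENNReal.ofReal_le_ofReal ?_
        nlinarith

end Pool.Agent.Cop

end
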