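import Mathlib
import Pool.Agent.Work.MP_cceb86_pr.LPar
import Pool.Agent.Work.MP_cceb86_pr.LDefs
import Pool.Agent.Work.MP_cceb86_pr.CoagR
import Pool.Agent.Work.MP_cceb86_pr.Tail
import Pool.Agent.Work.MP_cceb86_pr.Rare2
import Pool.Agent.Work.MP_cceb86_pr.LChain
import Pool.Agent.Work.MP_cceb86_pr.LUp
import Pool.Agent.Work.MP_cceb86_pr.LFin

/-!
Assembly of the sharp lower bound.
-/

open Finset MeasureTheory ProbabilityTheory Filter Topology
open scoped ENNReal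

noncomputable section

namespace Pool.Agent.Cop

universe u v

/-- the statement on the base level: for all small `α` and all small `λ` the normalized fractional
powers of the blocks dominate i.i.d. values with labels `s ∈ [2, J + 2]` of mean mass
`(1 - d) α² log (1 + 1/s) exp (-κ (s+1) h)`, where `h = α² log n`. -/
def BaseLevS (kap h d : ℝ) (J : ℕ) : Prop :=
  ∃ a0 : ℝ, 0 < a0 ∧ ∃ C : ℝ, 0 < C ∧ ∀ α : ℝ, 0 < α → α < a0 →
    ∀ c : ℝ, 0 < c → ∀ K : ℕ → ℝ, IsLaw α c K →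
    ∀ (Ω : Type u) [MeasurableSpace Ω] (Q : Measure Ω) (w : ℕ → Ω → ℝ), IsDisorder Q w →
    ∃ lam0 : ℝ, 0 < lam0 ∧ ∀ lam : ℝ, 0 < lam → lam < lam0 →
    ∃ l0 d0 : ℕ, ∃ cs : ℝ, 0 < l0 ∧ 0 < d0 ∧ 0 < cs ∧
      (∀ n : ℕ, d0 ≤ n → cs * (n : ℝ) ^ (-(1 + α)) ≤ K n / 2) ∧
      LevP Q ⌈Real.exp (h / α ^ 2)⌉₊
        (fun k x => VV (ren (kT (Ke K) (fun j => ew w lam ((1 / (1 + α) + kap * α ^ 2) * lam) j x)))
          l0 d0 cs (1 / (1 + α)) l0 k)
        (((J : ℝ) + 4) * Real.log ⌈Real.exp (h / α ^ 2)⌉₊)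
        (fun s => if s ≤ J + 2 then (1 - d) * α ^ 2 * coagF0 kap h J (s - 2) else 0)
        (C * α ^ 2)

/-- masses of the labels at level `k` -/
def akk (n : ℕ) (d : ℝ) (a : ℕ → ℝ) : ℕ → ℕ → ℝ
  | 0 => a
  | k + 1 => fun s => (1 - d) * (akk n d a k (s + 1) + (Real.log n - 2) *
      ∑ p ∈ (antidiagonal (s + 2)).filter (fun p => 2 ≤ p.1 ∧ 2 ≤ p.2),
        akk n d a k p.1 * akk n d a k p.2)

/-- mean value of the alive blocks at level `k` -/
def abk (n : ℕ) (Ab : ℝ) : ℕ → ℝ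
  | 0 => Ab
  | k + 1 => abk n Ab k + Real.log n * abk n Ab k ^ 2

lemma akk_nonneg {n : ℕ} {d : ℝ} {a : ℕ → ℝ} (hn : 2 ≤ Real.log n) (hd1 : d ≤ 1)
    (ha : ∀ s, 0 ≤ a s) : ∀ k s, 0 ≤ akk n d a k s
  | 0, s => ha s
  | k + 1, s => by
    have ih := akk_nonneg hn hd1 ha k
    unfold akk
    have h1 : 0 ≤ ∑ p ∈ (antidiagonal (s + 2)).filter (fun p => 2 ≤ p.1 ∧ 2 ≤ p.2),
        akk n d a k p.1 * akk n d a k p.2 := sum_nonneg fun p _ => mul_nonneg (ih _) (ih _)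
    have h2 : 0 ≤ Real.log n - 2 := by linarith
    have h3 : 0 ≤ 1 - d := by linarith
    have h4 := ih (s + 1)
    positivity

lemma abk_nonneg {n : ℕ} {Ab : ℝ} (hn : 2 ≤ Real.log n) (ha : 0 ≤ Ab) : ∀ k, 0 ≤ abk n Ab k
  | 0 => ha
  | k + 1 => by
    have ih := abk_nonneg hn ha k
    unfold abk
    have : 0 ≤ Real.log n := by linarith
    positivity

lemma abk_le {n : ℕ} {C h α : ℝ} (hh : 0 < h) (hC : 0 < C) (hn : 2 ≤ Real.log n)
    (hl : Real.log n * α ^ 2 ≤ h + 1) : ∀ k, abk n (C * α ^ 2) k ≤ cbs C h k * α ^ 2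
  | 0 => le_rfl
  | k + 1 => by
    have ih := abk_le hh hC hn hl k
    have h0 : 0 ≤ abk n (C * α ^ 2) k := abk_nonneg hn (by positivity) k
    have h1 := cbs_pos hC hh k
    unfold abk cbs
    have h2 : 0 ≤ Real.log n := by linarith
    calc abk n (C * α ^ 2) k + Real.log n * abk n (C * α ^ 2) k ^ 2
        ≤ cbs C h k * α ^ 2 + Real.log n * (cbs C h k * α ^ 2) ^ 2 := by gcongr
      _ = cbs C h k * α ^ 2 + (Real.log n * α ^ 2) * (cbs C h k ^ 2 * α ^ 2) := by ring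
      _ ≤ cbs C h k * α ^ 2 + (h + 1) * (cbs C h k ^ 2 * α ^ 2) := by gcongr
      _ = _ := by ring

section Lev

variable {Ω : Type*} [MeasurableSpace Ω] {Q : Measure Ω}

lemma lev_iter [IsProbabilityMeasure Q] {n : ℕ} (hn : 2 ≤ n) (hlog : 2 ≤ Real.log n)
    {V : ℕ → ℕ → Ω → ℝ≥0∞} {R Ab d : ℝ} {a : ℕ → ℝ} (hR : 0 ≤ R) (ha : ∀ s, 0 ≤ a s)
    (hAb : 0 ≤ Ab) (hd1 : d ≤ 1) (h : LevP Q n (V 0) R a Ab) {Kc : ℕ}
    (hk : ∀ k < Kc, abk n Ab k / n ≤ d)
    (h1 : ∀ m om k i, k * n ≤ i → i < (k + 1) * n → V m i om / n ≤ V (m + 1) k om)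
    (h2 : ∀ m om k i j, k * n ≤ i → i < j → j < (k + 1) * n →
      V m i om * V m j om / (((j - i + 1 : ℕ) : ℝ≥0∞) * n) ≤ V (m + 1) k om) :
    ∀ k ≤ Kc, LevP Q n (V k) (2 ^ k * R) (akk n d a k) (abk n Ab k) := by
  intro k
  induction k with
  | zero => intro _; simpa [akk, abk] using h
  | succ k ih =>
    intro hk1
    have h3 := lev_up (V' := V (k + 1)) hn (by positivity) (akk_nonneg hlog hd1 ha k)
      (abk_nonneg hlog hAb k) (hk k (by omega)) hd1 (ih (by omega)) (h1 k) (h2 k)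
    have h4 : (2 : ℝ) ^ (k + 1) * R = 2 * (2 ^ k * R) := by ring
    rw [h4]
    exact h3

end Lev

/-- the recursion for the normalized masses -/
lemma akk_rec {n : ℕ} {d h α : ℝ} {a : ℕ → ℝ} (hα : 0 < α) (hd1 : d ≤ 1)
    (hlog : 2 ≤ Real.log n) (ha : ∀ s, 0 ≤ a s)
    (hl : h ≤ Real.log n * α ^ 2) (hd : 2 * α ^ 2 ≤ d) (k e : ℕ) :
    (1 - d) * (akk n d a k (e + 1 + 2) / α ^ 2
      + (h - d) * ∑ i ∈ range (e + 1), akk n d a k (i + 2) / α ^ 2 * (akk n d a k (e - i + 2) / α ^ 2))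
      ≤ akk n d a (k + 1) (e + 2) / α ^ 2 := by
  have hα2 : 0 < α ^ 2 := by positivity
  have hnn := akk_nonneg hlog hd1 ha k
  have h1 : ∑ p ∈ (antidiagonal (e + 2 + 2)).filter (fun p => 2 ≤ p.1 ∧ 2 ≤ p.2),
        akk n d a k p.1 * akk n d a k p.2
      = ∑ i ∈ range (e + 1), akk n d a k (i + 2) * akk n d a k (e - i + 2) := by
    rw [← Nat.sum_antidiagonal_eq_sum_range_succ
      (fun i j => akk n d a k (i + 2) * akk n d a k (j + 2)) e]
    symm
    refine sum_bij (fun p _ => (p.1 + 2, p.2 + 2)) ?_ ?_ ?_ ?_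
    · rintro ⟨i, j⟩ hp
      simp only [HasAntidiagonal.mem_antidiagonal, mem_filter] at hp ⊢
      omega
    · rintro ⟨i, j⟩ _ ⟨i', j'⟩ _ hpq
      simp only [Prod.mk.injEq] at hpq ⊢
      omega
    · rintro ⟨i, j⟩ hp
      simp only [HasAntidiagonal.mem_antidiagonal, mem_filter] at hp
      refine ⟨(i - 2, j - 2), ?_, ?_⟩
      · simp only [HasAntidiagonal.mem_antidiagonal]; omega
      · simp only [Prod.mk.injEq]; omega
    · rintro ⟨i, j⟩ _
      rfl
  set s : ℝ := ∑ i ∈ range (e + 1), akk n d a k (i + 2) * akk n d a k (e - i + 2) with hs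
  have hs0 : 0 ≤ s := sum_nonneg fun i _ => mul_nonneg (hnn _) (hnn _)
  have h2 : ∑ i ∈ range (e + 1), akk n d a k (i + 2) / α ^ 2 * (akk n d a k (e - i + 2) / α ^ 2)
      = s / (α ^ 2) ^ 2 := by
    rw [hs, sum_div]
    refine sum_congr rfl fun i _ => ?_
    field_simp
  have h3 : akk n d a (k + 1) (e + 2)
      = (1 - d) * (akk n d a k (e + 1 + 2) + (Real.log n - 2) * s) := by
    rw [← h1]
    show (1 - d) * _ = _
    rw [show e + 2 + 1 = e + 1 + 2 by ring]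
  rw [h2, h3, mul_div_assoc]
  have h4 : 0 ≤ 1 - d := by linarith
  refine mul_le_mul_of_nonneg_left ?_ h4
  rw [add_div]
  refine add_le_add le_rfl ?_
  rw [← mul_div_assoc, div_le_div_iff₀ (by positivity) hα2]
  have h5 : h - d ≤ (Real.log n - 2) * α ^ 2 := by linarith
  calc (h - d) * s * α ^ 2 ≤ ((Real.log n - 2) * α ^ 2) * s * α ^ 2 := by gcongr
    _ = (Real.log n - 2) * s * (α ^ 2) ^ 2 := by ring

section Main

variable {Ω' : Type*} [MeasurableSpace Ω'] {Q : Measure Ω'} {w : ℕ → Ω' → ℝ}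

lemma Y2_meas (hw : IsDisorder Q w) (Kk : ℕ → ℝ≥0∞) (lam hh : ℝ) (S1 S2 : Finset ℕ) :
    Measurable (fun x => Y2 (ren (kT Kk (fun j => ew w lam hh j x))) S1 S2) := by
  unfold Y2
  refine Finset.measurable_sum _ fun s _ => Finset.measurable_sum _ fun t _ => ?_
  split_ifs
  · exact (MA_ren (MA_kT (K := Kk)) s t).measurable (e := fun n x => ew w lam hh n x)
      (fun n => by
        have := hw.meas n
        unfold ew; fun_prop)
  · exact measurable_const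

/-- good sites keep the distance `d0` from the right end -/
lemma gs_end {l0 d0 L : ℕ} (hl0 : 0 < l0) (hdiv : l0 ∣ L) {x : ℕ} (hx : x ∈ gs l0 d0 0 L) :
    x + d0 ≤ L := by
  unfold gs at hx
  rw [mem_filter, mem_Ico] at hx
  obtain ⟨⟨_, h1⟩, h2⟩ := hx
  obtain ⟨m, rfl⟩ := hdiv
  have h3 := Nat.div_add_mod x l0
  have h4 : x / l0 < m := by
    rw [Nat.div_lt_iff_lt_mul hl0, mul_comm]; exact h1
  have h5 : l0 * (x / l0 + 1) ≤ l0 * m := Nat.mul_le_mul_left _ h4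
  have h6 : l0 * (x / l0 + 1) = l0 * (x / l0) + l0 := by ring
  omega

lemma YG_eq_Y2 (Kk : ℕ → ℝ≥0∞) (G : Finset ℕ) (e : Env) :
    YG Kk G e = Y2 (ren (kT Kk e)) G G := by
  unfold YG Y2
  refine sum_congr rfl fun s _ => sum_congr rfl fun t _ => ?_
  split_ifs with h
  · rfl
  · exact ren_of_gt _ (by omega)

end Main

/-- **Positivity of the free energy below the sharp threshold.** -/
theorem free_pos_of {ε : ℝ} (hε : 0 < ε) (hε2 : ε < 2)
    (Hb : ∀ (h d : ℝ) (J : ℕ), 0 < h → 0 < d → d < 1 → BaseLevS.{u} (2 - ε) h d J) :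
    ∃ a0 : ℝ, 0 < a0 ∧ ∀ α : ℝ, 0 < α → α < a0 → ∀ c : ℝ, 0 < c → ∀ K : ℕ → ℝ, IsLaw α c K →
      ∀ (Ω : Type v) (Ω' : Type u) [MeasurableSpace Ω] [MeasurableSpace Ω'] (P : Measure Ω)
        [IsProbabilityMeasure P] (Q : Measure Ω') (xi : ℕ → Ω → ℕ) (eps : ℕ → Ω → Bool)
        (w : ℕ → Ω' → ℝ), IsModel P K xi eps → IsDisorder Q w →
      ∃ lam0 : ℝ, 0 < lam0 ∧ ∀ lam : ℝ, 0 < lam → lam < lam0 → ∃ δ : ℝ, 0 < δ ∧
        ∀ᶠ N in atTop, δ ≤ freeN P xi eps Q w lam ((1 / (1 + α) + (2 - ε) * α ^ 2) * lam) N := by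
  obtain ⟨h, J, Kc, t, dd, hh, ht, hdd, hdd1, hddh, Hco⟩ :=
    coag_robust (κ := 2 - ε) (by linarith) (by linarith)
  set d : ℝ := min dd (1 / 2) with hd
  have hd0 : 0 < d := by positivity
  have hd2 : d ≤ 1 / 2 := min_le_right _ _
  have hddd : d ≤ dd := min_le_left _ _
  obtain ⟨a1, ha1, C, hC, Hbase⟩ := Hb h d J hh hd0 (by linarith)
  obtain ⟨a2, ha2, Hpar⟩ := par_ok (J := J) (Kc := Kc) hh hd0 hdd hC ht
  refine ⟨min a1 a2, by positivity, ?_⟩
  intro α hα hαa c hc K hK Ω Ω' _ _ P _ Q xi eps w hm hw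
  have := hw.prob
  obtain ⟨hα1, r, hr1, Hr⟩ := Hpar α hα (hαa.trans_le (min_le_right _ _))
  obtain ⟨hn3, hlog2, hlogh, hlogh1, h2d, hcbd, hrare, hmd, hbig⟩ := Hr _ rfl
  obtain ⟨lam0, hlam0, Hlam⟩ := Hbase α hα (hαa.trans_le (min_le_left _ _)) c hc K hK Ω' Q w hw
  refine ⟨lam0, hlam0, ?_⟩
  intro lam hlam hlam1
  obtain ⟨l0, d0, cs, hl0, hd0', hcs, hKl, Hlev⟩ := Hlam lam hlam hlam1
  set n : ℕ := ⌈Real.exp (h / α ^ 2)⌉₊ with hn
  set H : ℝ := (1 / (1 + α) + (2 - ε) * α ^ 2) * lam with hH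
  set γ : ℝ := 1 / (1 + α) with hγ
  have hα1' : 0 < 1 + α := by linarith
  have hγ0 : 0 < γ := by positivity
  have hgam : (1 + α) * γ = 1 := by rw [hγ]; field_simp
  have hα2 : 0 < α ^ 2 := by positivity
  have ht0 : (0 : ℝ) < t := by exact_mod_cast ht
  set R₀ : ℝ := ((J : ℝ) + 4) * Real.log n with hR₀
  have hR₀0 : 0 ≤ R₀ := by positivity
  set a : ℕ → ℝ := fun s => if s ≤ J + 2 then (1 - d) * α ^ 2 * coagF0 (2 - ε) h J (s - 2) else 0
    with ha
  have ha0 : ∀ s, 0 ≤ a s := by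
    intro s
    simp only [ha]
    split_ifs
    · have := coagF0_nonneg (2 - ε) h J (s - 2)
      have : 0 ≤ 1 - d := by linarith
      positivity
    · exact le_rfl
  set T : Ω' → ℕ → ℕ → ℝ≥0∞ := fun x => ren (kT (Ke K) (fun j => ew w lam H j x)) with hT
  have hKl' : ∀ m : ℕ, d0 ≤ m → ENNReal.ofReal (cs * (m : ℝ) ^ (-(1 + α))) ≤ Ke K m / 2 := by
    intro m hm
    unfold Ke
    have h1 := ENNReal.ofReal_le_ofReal (hKl m hm)
    rwa [ENNReal.ofReal_div_of_pos (by norm_num), ENNReal.ofReal_ofNat] at h1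
  -- the levels
  set V : ℕ → ℕ → Ω' → ℝ≥0∞ := fun k i x => VV (T x) l0 d0 cs γ (n ^ k * l0) i with hV
  have hn0 : 0 < n := by omega
  have hVs : ∀ m : ℕ, n * (n ^ m * l0) = n ^ (m + 1) * l0 := fun m => by ring
  have hlev0 : LevP Q n (V 0) R₀ a (C * α ^ 2) := by
    have : V 0 = fun k x => VV (ren (kT (Ke K) (fun j => ew w lam H j x))) l0 d0 cs γ l0 k := by
      funext k x
      simp only [hV, hT, pow_zero, one_mul]
    rw [this]
    exact Hlev
  have hlev := lev_iter (Q := Q) (n := n) (V := V) (R := R₀) (Ab := C * α ^ 2) (d := d) (a := a)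
    (by omega) hlog2 hR₀0 ha0 (by positivity) (by linarith) hlev0 (Kc := Kc)
    (fun k hk => by
      refine le_trans ?_ (hcbd k hk.le)
      have := abk_le hh hC hlog2 hlogh1 k
      gcongr)
    (fun m x k i h1 h2 => by
      simp only [hV]
      rw [← hVs m]
      exact VV_one _ hα.le hgam h1 h2)
    (fun m x k i j h1 h3 h2 => by
      simp only [hV]
      rw [← hVs m]
      exact VV_two _ hcs.le hα.le hgam hd0' (by positivity) hKl' (Dvd.intro_left _ rfl) h1 h3 h2)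
    Kc le_rfl
  -- the coagulation
  set G : ℕ → ℕ → ℝ := fun k e => akk n d a k (e + 2) / α ^ 2 with hG
  have hcoag := Hco d hd0.le hddd G
    (by
      intro e
      simp only [hG, akk, ha]
      by_cases he : e ≤ J
      · rw [if_pos (by omega), Nat.add_sub_cancel]
        rw [le_div_iff₀ hα2]
        linarith
      · rw [if_neg (by omega)]
        have : coagF0 (2 - ε) h J e = 0 := by
          unfold coagF0; rw [if_neg he]
        rw [this]; simp)
    (fun k _ e => akk_rec hα (by linarith) hlog2 ha0 hlogh h2d k e)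
  set S0 : Finset ℕ := (range (2 ^ Kc * (J + 1))).filter (fun e => t - 1 ≤ e) with hS0
  set S : Finset ℕ := S0.image (fun e => e + 2) with hS
  set m : ℝ := (1 + dd) * α ^ 2 / (t * h) with hm'
  have hm0 : 0 < m := by positivity
  have hSsum : ∑ s ∈ S, akk n d a Kc s = α ^ 2 * ∑ e ∈ S0, G Kc e := by
    rw [hS, sum_image (fun x _ y _ hxy => by simpa using hxy), mul_sum]
    refine sum_congr rfl fun e _ => ?_
    simp only [hG]
    field_simp
  have hmS : m ≤ ∑ s ∈ S, akk n d a Kc s := by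
    rw [hSsum, hm', div_le_iff₀ (by positivity)]
    calc (1 + dd) * α ^ 2 ≤ ((t : ℝ) * h * ∑ e ∈ S0, G Kc e) * α ^ 2 := by
          refine mul_le_mul_of_nonneg_right hcoag.le hα2.le
      _ = α ^ 2 * ∑ e ∈ S0, G Kc e * (t * h) := by rw [← sum_mul]; ring
      _ = _ := by rw [← sum_mul]; ring
  -- the final step
  set l : ℕ := n ^ Kc * l0 with hl
  have hl1 : 0 < l := by positivity
  set Bn : ℕ := r * n ^ t with hBn
  have hBn0 : 0 < Bn := by positivity
  set W : Ω' → ℝ≥0∞ := fun x => VB (T x) l0 d0 cs γ l Bn with hW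
  have hWm : Measurable W := by
    simp only [hW]
    unfold VB
    refine Measurable.div_const ?_ _
    refine Measurable.pow_const ?_ _
    exact (Y2_meas hw _ _ _ _ _).const_mul _
  have hfin := lev_final (Q := Q) (n := n) hn3 (V := V Kc) (R := 2 ^ Kc * R₀)
    (Ab := abk n (C * α ^ 2) Kc) (m := m) (a := akk n d a Kc) (by positivity)
    (abk_nonneg hlog2 (by positivity) Kc) hlev ht hr1 S
    (by
      intro s hs
      simp only [hS, hS0, mem_image, mem_filter, mem_range] at hs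
      obtain ⟨e, he, rfl⟩ := hs
      omega)
    hm0.le hmS (akk_nonneg hlog2 (by linarith) ha0 Kc)
    (by
      refine le_trans ?_ hrare
      have := abk_le hh hC hlog2 hlogh1 Kc
      gcongr)
    (W := W)
    (fun x i hi hB => VV_chain _ hcs.le hα.le hgam hd0' (by positivity) hKl'
      (Dvd.intro_left _ rfl) hr1 i hi hB)
  have hnt : (0 : ℝ) < (n : ℝ) ^ t := by positivity
  have hmt : 1 + dd / 2 ≤ m * (t * Real.log n - 1) := by
    have h1 : 1 + dd ≤ m * (t * Real.log n) := by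
      have h2 : m * (t * Real.log n) = (1 + dd) * (Real.log n * α ^ 2) / h := by
        rw [hm']; field_simp
      rw [h2, le_div_iff₀ hh]
      gcongr
    have h3 : m * (t * Real.log n - 1) = m * (t * Real.log n) - m := by ring
    linarith
  have hrR : (0 : ℝ) ≤ r * (2 ^ Kc * R₀) := by positivity
  have hstep : 3 * (Bn : ℝ) * (1 + r * (2 ^ Kc * R₀))
      < m ^ r * n ^ t * (t * Real.log n - 1) ^ (r - 1) / 2 := by
    have h1 : m ^ r = m * m ^ (r - 1) := by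
      rw [← pow_succ', Nat.sub_add_cancel hr1]
    have h2 : m ^ r * n ^ t * (t * Real.log n - 1) ^ (r - 1) / 2
        = n ^ t * (m * (m * (t * Real.log n - 1)) ^ (r - 1) / 2) := by
      rw [h1, mul_pow]; ring
    have h3 : (1 + dd / 2) ^ (r - 1) ≤ (m * (t * Real.log n - 1)) ^ (r - 1) :=
      pow_le_pow_left₀ (by positivity) hmt _
    rw [h2, hBn]
    push_cast
    calc 3 * ((r : ℝ) * (n : ℝ) ^ t) * (1 + r * (2 ^ Kc * R₀))
        = (n : ℝ) ^ t * (3 * (r : ℝ) * (1 + r * (2 ^ Kc * R₀))) := by ring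
      _ < (n : ℝ) ^ t * (m * (1 + dd / 2) ^ (r - 1) / 2) := by
          refine mul_lt_mul_of_pos_left ?_ hnt
          exact hbig
      _ ≤ (n : ℝ) ^ t * (m * (m * (t * Real.log n - 1)) ^ (r - 1) / 2) := by gcongr
  have hBn1 : (1 : ℝ) ≤ Bn := by exact_mod_cast hBn0
  obtain ⟨y, hy, hyp⟩ := tail_of_int (Q := Q) hWm (B := 3 * (Bn : ℝ))
    (R := r * (2 ^ Kc * R₀)) (by linarith) hrR
    (lt_of_lt_of_le ((ENNReal.ofReal_lt_ofReal_iff (lt_of_le_of_lt (by positivity) hstep)).2 hstep)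
      hfin)
  -- the rare stretch criterion
  set p : ℝ := (Q {x | ENNReal.ofReal y ≤ W x}).toReal with hp
  have hpQ : ENNReal.ofReal p = Q {x | ENNReal.ofReal y ≤ W x} :=
    ENNReal.ofReal_toReal (measure_ne_top _ _)
  have hyp' : 3 * (Bn : ℝ) < y * p := by
    rw [← hpQ, ← ENNReal.ofReal_mul hy.le] at hyp
    exact (ENNReal.ofReal_lt_ofReal_iff_of_nonneg (by positivity)).1 hyp
  have hp0 : 0 < p := by
    by_contra hcon
    have : y * p ≤ 0 := mul_nonpos_of_nonneg_of_nonpos hy.le (not_lt.1 hcon)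
    linarith
  have hlR : (0 : ℝ) < l := by exact_mod_cast hl1
  set Y : ℝ := (y * l) ^ (1 + α) / cs with hY
  have hY0 : 0 < Y := by positivity
  have hcsY : (cs * Y) ^ (1 / (1 + α)) = y * l := by
    rw [hY, mul_div_cancel₀ _ hcs.ne', ← Real.rpow_mul (by positivity), mul_one_div_cancel hα1'.ne',
      Real.rpow_one]
  refine rare_stretch hm hK hα hα1 hc hw (lam := lam) (h := H) (cs := cs) (Y := Y) (p := p)
    (ℓ := Bn * l) (d0 := d0) (G := gs l0 d0 0 (Bn * l)) hd0' hcs hKl ?_ hY0 (by positivity) hp0 ?_ ?_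
  · intro x hx
    exact gs_end hl0 (Dvd.dvd.mul_left (Dvd.intro_left _ rfl) _) hx
  · rw [hpQ]
    refine measure_mono fun x hx => ?_
    simp only [Set.mem_ofPred_eq] at hx ⊢
    rw [YG_eq_Y2]
    have h1 : ENNReal.ofReal y * (l : ℝ≥0∞) ≤ (ENNReal.ofReal cs * Y2 (T x)
        (gs l0 d0 0 (Bn * l)) (gs l0 d0 0 (Bn * l))) ^ γ := by
      have h2 : ENNReal.ofReal y ≤ VB (T x) l0 d0 cs γ l Bn := hx
      unfold VB at h2
      rwa [ENNReal.le_div_iff_mul_le (Or.inl (by positivity)) (Or.inl (by simp))] at h2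
    have h3 : ENNReal.ofReal (y * l) ^ (1 + α) ≤ ENNReal.ofReal cs * Y2 (T x)
        (gs l0 d0 0 (Bn * l)) (gs l0 d0 0 (Bn * l)) := by
      rw [ENNReal.ofReal_mul hy.le, ENNReal.ofReal_natCast]
      have h4 := ENNReal.rpow_le_rpow h1 hα1'.le
      rwa [← ENNReal.rpow_mul, mul_comm γ, hgam, ENNReal.rpow_one] at h4
    rw [hY, ENNReal.ofReal_div_of_pos hcs]
    rw [ENNReal.div_le_iff_le_mul (Or.inl (by simpa using hcs)) (Or.inl ENNReal.ofReal_ne_top)]
    rw [← ENNReal.ofReal_rpow_of_nonneg (by positivity) hα1'.le,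
      mul_comm _ (ENNReal.ofReal cs)]
    exact h3
  · rw [hcsY]
    push_cast
    calc 3 * ((Bn : ℝ) * l) = (3 * Bn) * l := by ring
      _ < (y * p) * l := by gcongr
      _ = p * (y * l) := by ring

end Pool.Agent.Cop

end
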