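import Mathlib
import Pool.Agent.Work.MP_cceb86_pr.Final3
import Pool.Agent.Work.MP_cceb86_pr.LAsm

/-!
Two-sided second order statement, from the statement on the base level.
-/

open Finset MeasureTheory ProbabilityTheory Filter Topology
open scoped ENNReal NNReal

noncomputable section

namespace Pool.Agent.Cop

universe u v

section Mono

variable {Ω Ω' : Type*} [MeasurableSpace Ω] [MeasurableSpace Ω'] {P : Measure Ω} {Q : Measure Ω'}
  {K : ℕ → ℝ} {xi : ℕ → Ω → ℕ} {eps : ℕ → Ω → Bool} {w : ℕ → Ω' → ℝ} {α c : ℝ}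

lemma weight_int [IsProbabilityMeasure P] (hm : IsModel P K xi eps) (lam h : ℝ) (w : ℕ → ℝ)
    (N : ℕ) :
    Integrable (fun ω => Real.exp (-2 * lam * ∑ n ∈ Icc 1 N, Delta xi eps n ω * (w n + h))) P := by
  refine ⟨(hm.meas_weight lam h w N).aestronglyMeasurable, ?_⟩
  rw [hasFiniteIntegral_iff_ofReal (Eventually.of_forall fun ω => (Real.exp_pos _).le)]
  refine lt_top_iff_ne_top.2 (ne_top_of_le_ne_top (prod_max_ne_top lam h w N) ?_)
  calc ∫⁻ ω, ENNReal.ofReal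
        (Real.exp (-2 * lam * ∑ n ∈ Icc 1 N, Delta xi eps n ω * (w n + h))) ∂P
      ≤ ∫⁻ _ω, (∏ n ∈ Ioc 0 N, max (envOf lam h w n) 1) ∂P :=
        lintegral_mono fun ω => by
          simp only
          rw [weight_eq]; exact BW_le _ _ _ _ _
    _ = _ := by simp

lemma Zpart_anti [IsProbabilityMeasure P] (hm : IsModel P K xi eps) {lam : ℝ} (hl : 0 ≤ lam)
    {h h' : ℝ} (hh : h ≤ h') (w : ℕ → ℝ) (N : ℕ) :
    Zpart P xi eps lam h' w N ≤ Zpart P xi eps lam h w N := by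
  unfold Zpart
  refine integral_mono (weight_int hm lam h' w N) (weight_int hm lam h w N) fun ω => ?_
  simp only
  rw [Real.exp_le_exp]
  have h1 : ∑ n ∈ Icc 1 N, Delta xi eps n ω * (w n + h)
      ≤ ∑ n ∈ Icc 1 N, Delta xi eps n ω * (w n + h') := by
    refine sum_le_sum fun n _ => ?_
    refine mul_le_mul_of_nonneg_left (by linarith) ?_
    unfold Delta; split_ifs <;> norm_num
  nlinarith

lemma freeN_anti [IsProbabilityMeasure P] (hm : IsModel P K xi eps) (hK : IsLaw α c K)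
    (hα : 0 < α) (hα1 : α ≤ 1) (hc : 0 < c) (hw : IsDisorder Q w) {lam : ℝ} (hl : 0 ≤ lam)
    {h h' : ℝ} (hh : h ≤ h') :
    ∀ᶠ N in atTop, freeN P xi eps Q w lam h' N ≤ freeN P xi eps Q w lam h N := by
  filter_upwards [hK.tail_low hc hα hα1, eventually_gt_atTop 0] with N h2 h4
  have hN1 : (0 : ℝ) < N := by exact_mod_cast h4
  have hNα : 0 < (N : ℝ) ^ (-α) := Real.rpow_pos_of_pos hN1 _
  have hk : 9 / 10 * (c / α) * (N : ℝ) ^ (-α) ≤ 1 - ∑ n ∈ Ioc 0 N, K n := by linarith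
  have hk0 : 0 < 1 - ∑ n ∈ Ioc 0 N, K n := lt_of_lt_of_le (by positivity) hk
  unfold freeN
  refine mul_le_mul_of_nonneg_left ?_ (by positivity)
  refine integral_mono (log_int hm hK hw lam h' hk0) (log_int hm hK hw lam h hk0) fun x => ?_
  simp only
  refine Real.log_le_log ?_ (Zpart_anti hm hl hh _ N)
  exact lt_of_lt_of_le (by positivity) (Z_lower hm hK lam h' x N)

end Mono

theorem sharp_of (Hb : ∀ (kap h d : ℝ) (J : ℕ), 0 < kap → kap < 2 → 0 < h → 0 < d → d < 1 →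
      BaseLevS.{u} kap h d J) (ε : ℝ) (hε : 0 < ε) :
    ∃ α₀ : ℝ, 0 < α₀ ∧ ∀ α : ℝ, 0 < α → α < α₀ → ∀ c : ℝ, 0 < c → ∀ K : ℕ → ℝ, IsLaw α c K →
      ∀ {Ω : Type v} {Ω' : Type u} [MeasurableSpace Ω] [MeasurableSpace Ω'] (P : Measure Ω)
        [IsProbabilityMeasure P] (Q : Measure Ω') (xi : ℕ → Ω → ℕ) (eps : ℕ → Ω → Bool),
        IsModel P K xi eps → ∀ w : ℕ → Ω' → ℝ, IsDisorder Q w →
      ∃ lam₀ : ℝ, 0 < lam₀ ∧ ∀ lam : ℝ, 0 < lam → lam < lam₀ →
        (1 / (1 + α) + (2 - ε) * α ^ 2) * lam ≤ hcrit P xi eps Q w lam ∧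
        hcrit P xi eps Q w lam ≤ (1 / (1 + α) + (2 + ε) * α ^ 2) * lam ∧
        (∀ h : ℝ, h ≤ (1 / (1 + α) + (2 - ε) * α ^ 2) * lam →
          ∃ δ : ℝ, 0 < δ ∧ ∀ᶠ N in atTop, δ ≤ freeN P xi eps Q w lam h N) ∧
        (∀ h : ℝ, (1 / (1 + α) + (2 + ε) * α ^ 2) * lam ≤ h →
          Tendsto (fun N : ℕ => freeN P xi eps Q w lam h N) atTop (𝓝 0)) := by
  set ε' : ℝ := min ε 1 with hε'
  have he0 : 0 < ε' := lt_min hε one_pos
  have he1 : ε' ≤ 1 := min_le_right _ _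
  have hee : ε' ≤ ε := min_le_left _ _
  obtain ⟨a1, ha1, H1⟩ := free_pos_of.{u, v} (ε := ε') he0 (by linarith)
    (fun h d J hh hd hd1 => Hb (2 - ε') h d J (by linarith) (by linarith) hh hd hd1)
  obtain ⟨a2, ha2, H2⟩ := free_zero3 hε
  refine ⟨min (min a1 a2) 1, by positivity, ?_⟩
  intro α hα hαa c hc K hK Ω Ω' _ _ P _ Q xi eps hm w hw
  have hα1 : α < 1 := hαa.trans_le (min_le_right _ _)
  have hαa1 : α < a1 := hαa.trans_le ((min_le_left _ _).trans (min_le_left _ _))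
  have hαa2 : α < a2 := hαa.trans_le ((min_le_left _ _).trans (min_le_right _ _))
  obtain ⟨l1, hl1, G1⟩ := H1 α hα hαa1 c hc K hK Ω Ω' P Q xi eps w hm hw
  obtain ⟨l2, hl2, G2⟩ := H2 α hα hαa2 c hc K hK P Q xi eps hm w hw
  refine ⟨min l1 l2, by positivity, fun lam hl hll => ?_⟩
  obtain ⟨δ, hδ, hpos⟩ := G1 lam hl (hll.trans_le (min_le_left _ _))
  have hz := G2 lam hl (hll.trans_le (min_le_right _ _))
  have hle : (1 / (1 + α) + (2 - ε) * α ^ 2) * lam ≤ (1 / (1 + α) + (2 - ε') * α ^ 2) * lam := by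
    refine mul_le_mul_of_nonneg_right ?_ hl.le
    have : (2 - ε) * α ^ 2 ≤ (2 - ε') * α ^ 2 :=
      mul_le_mul_of_nonneg_right (by linarith) (by positivity)
    linarith
  refine ⟨hle.trans ?_, ?_, ?_, fun h hh => hz h hh⟩
  · exact rare_hcrit hm hK hα hα1 hc hw hδ hpos (fun h' hh' => hz h' hh')
  · refine hcrit_le_of ?_ (fun h hh => hz h hh)
    have : 0 ≤ 1 / (1 + α) + (2 + ε) * α ^ 2 := by positivity
    exact mul_nonneg this hl.le
  · intro h hh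
    refine ⟨δ, hδ, ?_⟩
    filter_upwards [hpos, freeN_anti hm hK hα hα1.le hc hw hl.le (hh.trans hle)] with N h1 h2
    exact h1.trans h2

end Pool.Agent.Cop

end
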