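import Mathlib

/-!
# Real analysis inputs for the base level (helper9)
-/

open Finset Filter Topology

namespace Pool.Agent.Cop

/-- one term: `log ((x+1)/x) ≤ 1/x`. -/
theorem bn_log_succ_div_le {x : ℝ} (hx : 0 < x) : Real.log ((x + 1) / x) ≤ 1 / x := by
  have h := Real.log_le_sub_one_of_pos (show 0 < (x + 1) / x by positivity)
  have : (x + 1) / x - 1 = 1 / x := by
    field_simp
    ring
  linarith

/-- one term: `1/(x+1) ≤ log ((x+1)/x)`. -/
theorem bn_le_log_succ_div {x : ℝ} (hx : 0 < x) : 1 / (x + 1) ≤ Real.log ((x + 1) / x) := by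
  have h := Real.one_sub_inv_le_log_of_pos (show 0 < (x + 1) / x by positivity)
  have : 1 - ((x + 1) / x)⁻¹ = 1 / (x + 1) := by
    rw [inv_div]
    field_simp
    ring
  linarith

/-- harmonic lower bound on an interval. -/
theorem bn_harm_low (a : ℕ) (m : ℕ) :
    Real.log (((a : ℝ) + m + 2) / ((a : ℝ) + 2)) ≤ ∑ j ∈ Ico a (a + m), 1 / ((j : ℝ) + 2) := by
  induction m with
  | zero =>
    have : ((a : ℝ) + ((0 : ℕ) : ℝ) + 2) / ((a : ℝ) + 2) = 1 := by
      have : ((a : ℝ) + 2) ≠ 0 := by positivity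
      push_cast
      rw [add_zero]
      exact div_self this
    rw [this]
    simp
  | succ m ih =>
    rw [← add_assoc, Finset.sum_Ico_succ_top (by omega)]
    have h1 := bn_log_succ_div_le (show (0 : ℝ) < (a : ℝ) + m + 2 by positivity)
    have h2 : Real.log (((a : ℝ) + ((m + 1 : ℕ) : ℝ) + 2) / ((a : ℝ) + 2))
        = Real.log (((a : ℝ) + m + 2) / ((a : ℝ) + 2))
          + Real.log (((a : ℝ) + m + 2 + 1) / ((a : ℝ) + m + 2)) := by
      rw [← Real.log_mul (by positivity) (by positivity)]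
      congr 1
      push_cast
      have h3 : ((a : ℝ) + m + 2) ≠ 0 := by positivity
      field_simp
      ring
    rw [h2]
    push_cast
    linarith

/-- (N1u) harmonic upper bound. -/
theorem harm_up {j1 j2 : ℕ} (h1 : 1 ≤ j1) (h12 : j1 ≤ j2) :
    ∑ j ∈ Ico j1 j2, 1 / ((j : ℝ) + 2) ≤ Real.log ((j2 : ℝ) / j1) := by
  induction j2, h12 using Nat.le_induction with
  | base =>
    have : (j1 : ℝ) ≠ 0 := by positivity
    rw [div_self this]
    simp
  | succ n hn ih =>
    have hj1 : (0 : ℝ) < j1 := by exact_mod_cast h1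
    have hn0 : (0 : ℝ) < n := by
      have : 1 ≤ n := le_trans h1 hn
      exact_mod_cast this
    rw [Finset.sum_Ico_succ_top hn]
    have h2 := bn_le_log_succ_div hn0
    have h3 : Real.log (((n + 1 : ℕ) : ℝ) / j1)
        = Real.log ((n : ℝ) / j1) + Real.log (((n : ℝ) + 1) / n) := by
      rw [← Real.log_mul (by positivity) (by positivity)]
      congr 1
      push_cast
      field_simp
    have h4 : 1 / ((n : ℝ) + 2) ≤ 1 / ((n : ℝ) + 1) := by
      apply one_div_le_one_div_of_le (by positivity)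
      linarith
    rw [h3]
    linarith

/-- (N1) the bin sum. -/
theorem bin_sum {rho eta l : ℝ} (hr : 0 < rho) (he : 0 < eta) (he1 : eta ≤ 1 / 8) {s : ℕ}
    (hs : 2 ≤ s) (hl : 8 * rho / eta ≤ l) {j1 j2 : ℕ}
    (h1 : (j1 : ℝ) ≤ (s + eta) * l / (2 * rho)) (h2 : (s + 1 - eta) * l / (2 * rho) < (j2 : ℝ)) :
    Real.log ((s + 1 - 2 * eta) / (s + 2 * eta)) ≤
      ∑ j ∈ (Ico j1 j2).filter (fun j : ℕ => (s + eta) * l ≤ 2 * rho * (j : ℝ) ∧
        2 * rho * (j : ℝ) ≤ (s + 1 - eta) * l), 1 / ((j : ℝ) + 2) := by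
  have hl0 : 0 < l := lt_of_lt_of_le (by positivity) hl
  have hs0 : (2 : ℝ) ≤ s := by exact_mod_cast hs
  have hle : 8 * rho ≤ eta * l := by
    rw [div_le_iff₀ he] at hl
    linarith
  set A : ℝ := (s + eta) * l / (2 * rho) with hA
  set B : ℝ := (s + 1 - eta) * l / (2 * rho) with hB
  have hA0 : 0 < A := by positivity
  have hB0 : 0 < B := by
    have : (0 : ℝ) < s + 1 - eta := by linarith
    positivity
  have hAB : A ≤ B := by
    rw [hA, hB]
    apply div_le_div_of_nonneg_right _ (by positivity)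
    apply mul_le_mul_of_nonneg_right _ hl0.le
    linarith
  have hmA : ∀ x : ℝ, (s + eta) * l ≤ 2 * rho * x ↔ A ≤ x := by
    intro x
    rw [hA, div_le_iff₀ (by positivity), mul_comm x]
  have hmB : ∀ x : ℝ, 2 * rho * x ≤ (s + 1 - eta) * l ↔ x ≤ B := by
    intro x
    rw [hB, le_div_iff₀ (by positivity), mul_comm x]
  set a : ℕ := ⌈A⌉₊ with ha
  set b : ℕ := ⌊B⌋₊ with hb
  have haA : A ≤ a := Nat.le_ceil A
  have haA' : (a : ℝ) < A + 1 := Nat.ceil_lt_add_one hA0.le
  have hbB : (b : ℝ) ≤ B := Nat.floor_le hB0.le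
  have hbB' : B < b + 1 := Nat.lt_floor_add_one B
  have hsub : Ico a (b + 1) ⊆ (Ico j1 j2).filter (fun j : ℕ => (s + eta) * l ≤ 2 * rho * (j : ℝ) ∧
        2 * rho * (j : ℝ) ≤ (s + 1 - eta) * l) := by
    intro j hj
    rw [mem_Ico] at hj
    have hj1 : (a : ℝ) ≤ j := by exact_mod_cast hj.1
    have hj2 : (j : ℝ) ≤ b := by
      have : j ≤ b := by omega
      exact_mod_cast this
    rw [mem_filter, mem_Ico]
    refine ⟨⟨?_, ?_⟩, ?_, ?_⟩
    · have : (j1 : ℝ) ≤ j := by linarith
      exact_mod_cast this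
    · have : (j : ℝ) < j2 := by linarith
      exact_mod_cast this
    · rw [hmA]
      linarith
    · rw [hmB]
      linarith
  have hab : a ≤ b + 1 := by
    have : (a : ℝ) < b + 2 := by linarith
    have : a < b + 2 := by exact_mod_cast this
    omega
  refine le_trans ?_ (Finset.sum_le_sum_of_subset_of_nonneg hsub (fun j _ _ => by positivity))
  have hm := bn_harm_low a (b + 1 - a)
  have hcast : a + (b + 1 - a) = b + 1 := by omega
  rw [hcast] at hm
  have hcast2 : (a : ℝ) + ((b + 1 - a : ℕ) : ℝ) = (b : ℝ) + 1 := by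
    have := congrArg (fun n : ℕ => (n : ℝ)) hcast
    push_cast at this ⊢
    exact this
  rw [hcast2] at hm
  refine le_trans ?_ hm
  apply Real.log_le_log
  · apply div_pos <;> linarith
  · have e1 : A + eta * l / (2 * rho) = (s + 2 * eta) * (l / (2 * rho)) := by
      rw [hA]
      ring
    have e2 : B = (s + 1 - eta) * (l / (2 * rho)) := by
      rw [hB]
      ring
    have e3 : 4 ≤ eta * l / (2 * rho) := by
      rw [le_div_iff₀ (by positivity)]
      linarith
    have hu : 0 < l / (2 * rho) := by positivity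
    have e4 : (a : ℝ) + 2 ≤ (s + 2 * eta) * (l / (2 * rho)) := by linarith
    have e5 : (s + 1 - eta) * (l / (2 * rho)) ≤ (b : ℝ) + 1 + 2 := by linarith
    have hden : 0 < (s : ℝ) + 2 * eta := by positivity
    have ha2 : (0 : ℝ) < a + 2 := by positivity
    rw [div_le_div_iff₀ hden ha2]
    have hn : 0 ≤ (s : ℝ) + 1 - 2 * eta := by linarith
    calc ((s : ℝ) + 1 - 2 * eta) * (a + 2)
        ≤ (s + 1 - 2 * eta) * ((s + 2 * eta) * (l / (2 * rho))) :=
          mul_le_mul_of_nonneg_left e4 hn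
      _ ≤ (s + 1 - eta) * ((s + 2 * eta) * (l / (2 * rho))) := by
          apply mul_le_mul_of_nonneg_right _ (by positivity)
          linarith
      _ = ((s + 1 - eta) * (l / (2 * rho))) * (s + 2 * eta) := by ring
      _ ≤ ((b : ℝ) + 1 + 2) * (s + 2 * eta) := mul_le_mul_of_nonneg_right e5 hden.le

/-- (N2) the choice of the small constant. -/
theorem final_const {kap h d : ℝ} (_hk : 0 < kap) (_hh : 0 < h) (hd : 0 < d) (hd1 : d < 1) (J : ℕ) :
    ∃ eta0 : ℝ, 0 < eta0 ∧ eta0 ≤ 1 / 8 ∧ ∀ eta : ℝ, 0 < eta → eta ≤ eta0 → ∀ s : ℕ, 2 ≤ s →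
      s ≤ J + 2 →
      (1 - d) * (Real.log (1 + 1 / s) * Real.exp (-kap * (s + 1) * h)) ≤
        Real.exp (-eta) * (1 - eta) ^ 5 * (1 - 4 * eta) *
          Real.log ((s + 1 - 2 * eta) / (s + 2 * eta)) *
          Real.exp (-((1 + eta) * kap * (s + 1) * (h + eta)) - 25 * eta) := by
  have hev : ∀ s ∈ Finset.Icc 2 (J + 2), ∀ᶠ eta : ℝ in 𝓝 0,
      (1 - d) * (Real.log (1 + 1 / (s : ℝ)) * Real.exp (-kap * (s + 1) * h)) <
        Real.exp (-eta) * (1 - eta) ^ 5 * (1 - 4 * eta) *
          Real.log ((s + 1 - 2 * eta) / (s + 2 * eta)) *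
          Real.exp (-((1 + eta) * kap * (s + 1) * (h + eta)) - 25 * eta) := by
    intro s hs
    rw [Finset.mem_Icc] at hs
    have hs0 : (2 : ℝ) ≤ s := by exact_mod_cast hs.1
    have hcont : ContinuousAt (fun eta : ℝ =>
        Real.exp (-eta) * (1 - eta) ^ 5 * (1 - 4 * eta) *
          Real.log (((s : ℝ) + 1 - 2 * eta) / (s + 2 * eta)) *
          Real.exp (-((1 + eta) * kap * (s + 1) * (h + eta)) - 25 * eta)) 0 := by
      have hq : ContinuousAt (fun eta : ℝ => ((s : ℝ) + 1 - 2 * eta) / (s + 2 * eta)) 0 := by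
        apply ContinuousAt.div
        · fun_prop
        · fun_prop
        · simp only [mul_zero, add_zero]
          linarith
      have hlog : ContinuousAt (fun eta : ℝ =>
          Real.log (((s : ℝ) + 1 - 2 * eta) / (s + 2 * eta))) 0 := by
        apply ContinuousAt.log hq
        simp only [mul_zero, add_zero, sub_zero]
        positivity
      have h1 : ContinuousAt (fun eta : ℝ =>
        Real.exp (-eta) * (1 - eta) ^ 5 * (1 - 4 * eta)) 0 := by fun_prop
      have h2 : ContinuousAt (fun eta : ℝ =>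
        Real.exp (-((1 + eta) * kap * ((s : ℝ) + 1) * (h + eta)) - 25 * eta)) 0 := by fun_prop
      exact (h1.mul hlog).mul h2
    have hval : (1 - d) * (Real.log (1 + 1 / (s : ℝ)) * Real.exp (-kap * (s + 1) * h)) <
        (fun eta : ℝ =>
        Real.exp (-eta) * (1 - eta) ^ 5 * (1 - 4 * eta) *
          Real.log (((s : ℝ) + 1 - 2 * eta) / (s + 2 * eta)) *
          Real.exp (-((1 + eta) * kap * (s + 1) * (h + eta)) - 25 * eta)) 0 := by
      have e1 : ((s : ℝ) + 1 - 2 * 0) / (s + 2 * 0) = 1 + 1 / s := by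
        have : (s : ℝ) ≠ 0 := by linarith
        field_simp
        ring
      have e2 : -((1 + (0 : ℝ)) * kap * ((s : ℝ) + 1) * (h + 0)) - 25 * 0
          = -kap * (s + 1) * h := by ring
      simp only
      rw [e1, e2]
      have hlp : 0 < Real.log (1 + 1 / (s : ℝ)) := by
        apply Real.log_pos
        have : 0 < 1 / (s : ℝ) := by positivity
        linarith
      have hep := Real.exp_pos (-kap * ((s : ℝ) + 1) * h)
      have hprod : 0 < Real.log (1 + 1 / (s : ℝ)) * Real.exp (-kap * (s + 1) * h) :=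
        mul_pos hlp hep
      have hz : Real.exp (-(0 : ℝ)) = 1 := by simp
      rw [hz]
      nlinarith
    exact hcont.eventually (lt_mem_nhds hval)
  have hall := (Finset.eventually_all (Finset.Icc 2 (J + 2))).2 hev
  rw [Metric.eventually_nhds_iff] at hall
  obtain ⟨r, hr0, hr⟩ := hall
  refine ⟨min (r / 2) (1 / 8), by positivity, min_le_right _ _, ?_⟩
  intro eta he he' s hs hsJ
  have h1 : dist eta 0 < r := by
    rw [Real.dist_eq, sub_zero, abs_of_pos he]
    have := le_trans he' (min_le_left _ _)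
    linarith
  exact (hr h1 s (Finset.mem_Icc.2 ⟨hs, hsJ⟩)).le

end Pool.Agent.Cop
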