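import Mathlib
import Pool.Agent.Work.MP_cceb86_pr.Rare2
import Pool.Agent.Work.MP_cceb86_pr.LDefs

/-!
From one block to the level data of all blocks.
-/

open Finset MeasureTheory ProbabilityTheory
open scoped ENNReal

noncomputable section

namespace Pool.Agent.Cop

variable {Ω : Type*} [MeasurableSpace Ω] {Q : Measure Ω} {w : ℕ → Ω → ℝ}

lemma bi_inj {n : ℕ} (hn : 0 < n) :
    Function.Injective (fun p : (_ : ℕ) × Fin n => p.1 * n + (p.2 : ℕ)) := by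
  rintro ⟨a, i⟩ ⟨b, j⟩ h
  simp only at h
  have hi := i.2
  have hj := j.2
  have h1 : a = b := by
    have h2 : (a * n + i) / n = a := by
      rw [Nat.add_comm, Nat.add_mul_div_right _ _ hn, Nat.div_eq_of_lt hi, Nat.zero_add]
    have h3 : (b * n + j) / n = b := by
      rw [Nat.add_comm, Nat.add_mul_div_right _ _ hn, Nat.div_eq_of_lt hj, Nat.zero_add]
    rw [← h2, h, h3]
  subst h1
  have : i = j := Fin.ext (by omega)
  subst this
  rfl

lemma bi_indep {n : ℕ} (hm : ∀ k, Measurable (w k)) (hi : iIndepFun w Q)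
    (hn : 0 < n) : iIndepFun (fun k ω (i : Fin n) => w (k * n + i) ω) Q := by
  have hprob := hi.isProbabilityMeasure
  have h1 := hi.precomp (bi_inj hn)
  have hpm : ∀ k : ℕ, IsProbabilityMeasure (Q.map (w k)) := fun k =>
    Measure.isProbabilityMeasure_map (hm k).aemeasurable
  rw [iIndepFun_iff_map_fun_eq_infinitePi_map (fun p => hm _)] at h1
  rw [iIndepFun_iff_map_fun_eq_infinitePi_map (fun k => by fun_prop)]
  have h2 : (MeasurableEquiv.piCurry (fun (_ : ℕ) (_ : Fin n) => ℝ)) ∘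
      (fun ω (p : (_ : ℕ) × Fin n) => w (p.1 * n + (p.2 : ℕ)) ω)
      = fun ω k (i : Fin n) => w (k * n + i) ω := by
    funext ω; rfl
  rw [← h2, ← Measure.map_map (by fun_prop) (by fun_prop)]
  have h3 : Q.map (fun ω (p : (_ : ℕ) × Fin n) => w (p.1 * n + (p.2 : ℕ)) ω)
      = Measure.infinitePi (fun p : (_ : ℕ) × Fin n => Q.map (w (p.1 * n + (p.2 : ℕ)))) := h1
  rw [h3, Measure.infinitePi_map_piCurry (fun (k : ℕ) (i : Fin n) => Q.map (w (k * n + (i : ℕ))))]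
  congr 1
  ext1 k
  have hinj : Function.Injective (fun i : Fin n => k * n + (i : ℕ)) := by
    intro i j h; exact Fin.ext (by simpa using h)
  have h4 := hi.precomp hinj
  rw [iIndepFun_iff_map_fun_eq_infinitePi_map (fun p => hm _)] at h4
  exact h4.symm

lemma gs_shift (ℓ0 d0 k : ℕ) :
    gs ℓ0 d0 (k * ℓ0) ((k + 1) * ℓ0) = (gs ℓ0 d0 0 ℓ0).map (addRightEmbedding (k * ℓ0)) := by
  ext x
  unfold gs
  simp only [mem_filter, mem_Ico, mem_map, addRightEmbedding_apply]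
  constructor
  · rintro ⟨⟨h1, h2⟩, h3⟩
    refine ⟨x - k * ℓ0, ⟨⟨Nat.zero_le _, ?_⟩, ?_⟩, by omega⟩
    · rw [add_mul, one_mul] at h2; omega
    · have h4 : x % ℓ0 = (x - k * ℓ0) % ℓ0 := by
        conv_lhs => rw [show x = (x - k * ℓ0) + ℓ0 * k by rw [Nat.mul_comm ℓ0 k]; omega]
        rw [Nat.add_mul_mod_self_left]
      rwa [← h4]
  · rintro ⟨y, ⟨⟨-, h2⟩, h3⟩, rfl⟩
    refine ⟨⟨by omega, by rw [add_mul, one_mul]; omega⟩, ?_⟩
    rw [Nat.mul_comm k ℓ0, Nat.add_mul_mod_self_left]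
    exact h3

lemma VV_shift (Kk : ℕ → ℝ≥0∞) (e : Env) (ℓ0 d0 : ℕ) (cs γ : ℝ) (k : ℕ) :
    VV (ren (kT Kk e)) ℓ0 d0 cs γ ℓ0 k = VV (ren (kT Kk (shE e (k * ℓ0)))) ℓ0 d0 cs γ ℓ0 0 := by
  unfold VV
  congr 3
  rw [gs_shift ℓ0 d0 k, gs_shift ℓ0 d0 0]
  unfold Y2
  simp only [sum_map, addRightEmbedding_apply, Nat.zero_mul, Nat.add_zero, Nat.add_le_add_iff_right,
    ren_kT_shift]

/-- **from one block to the level data** -/
theorem lev_of_block (hw : IsDisorder Q w) {Kk : ℕ → ℝ≥0∞} {ℓ0 d0 : ℕ} (hℓ : 0 < ℓ0)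
    {cs γ lam hh : ℝ} {n : ℕ} {R : ℝ} {a : ℕ → ℝ} {Ab : ℝ} (Ψ : (ℕ → ℝ) → ℝ≥0∞ × ℕ)
    (hΨ : Measurable Ψ)
    (hdep : ∀ H H' : ℕ → ℝ, (∀ i, 0 < i → i < ℓ0 → H i = H' i) → Ψ H = Ψ H')
    (hdom : ∀ H : ℕ → ℝ, (Ψ H).1 ≤
      VV (ren (kT Kk (fun i => ENNReal.ofReal (Real.exp (H i))))) ℓ0 d0 cs γ ℓ0 0)
    (hlab : ∀ H : ℕ → ℝ, 1 ≤ (Ψ H).2 → (n : ℝ≥0∞) ^ (Ψ H).2 ≤ (Ψ H).1)
    (hR : ∀ H : ℕ → ℝ, (Ψ H).1 ≤ ENNReal.ofReal (Real.exp R))
    (ha : ∀ s, 2 ≤ s → ENNReal.ofReal (a s) ≤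
      ∫⁻ om in {om | (Ψ (fun i => -2 * lam * (w i om + hh))).2 = s},
        (Ψ (fun i => -2 * lam * (w i om + hh))).1 ∂Q)
    (hA : ∫⁻ om in {om | 2 ≤ (Ψ (fun i => -2 * lam * (w i om + hh))).2},
        (Ψ (fun i => -2 * lam * (w i om + hh))).1 ∂Q ≤ ENNReal.ofReal Ab) :
    LevP Q n (fun k om => VV (ren (kT Kk (fun j => ew w lam hh j om))) ℓ0 d0 cs γ ℓ0 k) R a Ab := by
  classical
  set X : ℕ → Ω → ℝ≥0∞ × ℕ := fun k om => Ψ (fun i => -2 * lam * (w (i + k * ℓ0) om + hh)) with hX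
  have hX0 : ∀ om, X 0 om = Ψ (fun i => -2 * lam * (w i om + hh)) := by
    intro om
    simp only [hX, Nat.zero_mul, Nat.add_zero]
  have hmeas : ∀ k, Measurable (X k) := by
    intro k
    refine hΨ.comp (measurable_pi_iff.2 fun i => ?_)
    have := hw.meas (i + k * ℓ0)
    fun_prop
  refine ⟨X, hmeas, ?_, ?_, ?_, ?_, ?_, ?_, ?_⟩
  · -- independence
    set Ψ' : (Fin ℓ0 → ℝ) → ℝ≥0∞ × ℕ := fun v =>
      Ψ (fun i => if h : i < ℓ0 then -2 * lam * (v ⟨i, h⟩ + hh) else 0) with hΨ'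
    have hm' : Measurable Ψ' := by
      refine hΨ.comp (measurable_pi_iff.2 fun i => ?_)
      by_cases h : i < ℓ0
      · simp only [h, dite_true]
        fun_prop
      · simp only [h, dite_false]
        fun_prop
    have hXe : X = fun k om => Ψ' (fun i : Fin ℓ0 => w (k * ℓ0 + i) om) := by
      funext k om
      refine hdep _ _ fun i _ hi => ?_
      simp only [hi, dite_true]
      rw [Nat.add_comm i (k * ℓ0)]
    rw [hXe]
    exact (bi_indep hw.meas hw.indep hℓ).comp (fun _ => Ψ') (fun _ => hm')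
  · -- stationarity
    intro k
    have h1 : IdentDistrib (fun x n => w (n + k * ℓ0) x) (fun x n => w (n + 0 * ℓ0) x) Q Q :=
      IdentDistrib.pi (X := fun n => w (n + k * ℓ0)) (Y := fun n => w (n + 0 * ℓ0))
        (fun n => (hw.ident (n + k * ℓ0)).trans (hw.ident (n + 0 * ℓ0)).symm)
        (hw.indep.precomp (g := fun n => n + k * ℓ0) (fun a b hab => by simpa using hab))
        (hw.indep.precomp (g := fun n => n + 0 * ℓ0) (fun a b hab => by simpa using hab))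
    exact h1.comp (u := fun v : ℕ → ℝ => Ψ (fun i => -2 * lam * (v i + hh)))
      (hΨ.comp (measurable_pi_iff.2 fun i => by fun_prop))
  · -- domination
    intro k om
    refine (hdom _).trans (le_of_eq ?_)
    exact (VV_shift Kk (fun j => ew w lam hh j om) ℓ0 d0 cs γ k).symm
  · intro k om
    exact hlab _
  · intro k om
    exact hR _
  · intro s hs
    simp only [hX0]
    exact ha s hs
  · simp only [hX0]
    exact hA

end Pool.Agent.Cop

end
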