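import Mathlib
import Pool.Agent.Work.MP_cceb86_pr.LBc

/-!
The ratios in the lower bound for the base blocks.
-/

open Finset MeasureTheory ProbabilityTheory
open scoped ENNReal

noncomputable section

namespace Pool.Agent.Cop

lemma geo_le {r : ℝ} (hr0 : 0 ≤ r) (hr1 : r < 1) (M : ℕ) : ∑ k ∈ range M, r ^ k ≤ 1 / (1 - r) := by
  have h1r : 0 < 1 - r := by linarith
  rw [le_div_iff₀ h1r, mul_comm, mul_neg_geom_sum]
  have : 0 ≤ r ^ M := by positivity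
  linarith

/-- a shifted sum -/
lemma sum_shift_le' {f : ℕ → ℝ} (hf : ∀ n, 0 ≤ f n) (a M : ℕ) :
    ∑ y ∈ range M, (if a ≤ y then f (y - a) else 0) ≤ ∑ m ∈ range M, f m := by
  rw [← sum_filter]
  have hinj : ∀ y ∈ (range M).filter (fun y => a ≤ y), ∀ y' ∈ (range M).filter (fun y => a ≤ y),
      y - a = y' - a → y = y' := by
    intro y hy y' hy' h
    simp only [mem_filter] at hy hy'
    omega
  rw [← sum_image (f := f) (g := fun y => y - a) hinj]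
  refine sum_le_sum_of_subset_of_nonneg ?_ (fun i _ _ => hf i)
  intro m hm
  simp only [mem_image, mem_filter, mem_range] at hm ⊢
  omega

/-- two sided geometric sum -/
lemma geo_dist {r : ℝ} (hr0 : 0 ≤ r) (hr1 : r < 1) (p N : ℕ) :
    ∑ x ∈ range N, r ^ Nat.dist p x ≤ 2 / (1 - r) := by
  have h1r : 0 < 1 - r := by linarith
  have h1 : ∑ x ∈ range N, r ^ Nat.dist p x
      ≤ ∑ x ∈ range p, r ^ (p - x) + ∑ x ∈ range N, (if p ≤ x then r ^ (x - p) else 0) := by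
    rw [← sum_filter_add_sum_filter_not (range N) (fun x => p ≤ x), add_comm]
    refine add_le_add ?_ ?_
    · have h2 : (range N).filter (fun x => ¬ p ≤ x) ⊆ range p := by
        intro x; simp only [mem_filter, mem_range]; omega
      refine le_trans ?_ (sum_le_sum_of_subset_of_nonneg h2 (fun x _ _ => by positivity))
      refine sum_le_sum fun x hx => ?_
      simp only [mem_filter] at hx
      rw [Nat.dist_comm, Nat.dist_eq_sub_of_le (by omega)]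
    · rw [sum_filter]
      refine sum_le_sum fun x _ => ?_
      split_ifs with h
      · rw [Nat.dist_eq_sub_of_le h]
      · exact le_rfl
  have h2 : ∑ x ∈ range p, r ^ (p - x) ≤ 1 / (1 - r) := by
    calc ∑ x ∈ range p, r ^ (p - x) = ∑ x ∈ range p, r ^ (x + 1) := by
          rw [← sum_range_reflect]
          refine sum_congr rfl fun x hx => ?_
          rw [mem_range] at hx
          congr 1; omega
      _ ≤ ∑ x ∈ range p, r ^ x := by
          refine sum_le_sum fun x _ => ?_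
          exact pow_le_pow_of_le_one hr0 hr1.le (by omega)
      _ ≤ _ := geo_le hr0 hr1 p
  have h3 : ∑ x ∈ range N, (if p ≤ x then r ^ (x - p) else 0) ≤ 1 / (1 - r) :=
    (sum_shift_le' (f := fun n => r ^ n) (fun n => by positivity) p N).trans (geo_le hr0 hr1 N)
  calc _ ≤ _ := h1
    _ ≤ 1 / (1 - r) + 1 / (1 - r) := add_le_add h2 h3
    _ = 2 / (1 - r) := by ring

section Ratios

variable {Ω : Type*} [MeasurableSpace Ω] {Q : Measure Ω} {H : ℕ → Ω → ℝ} {lam m err : ℝ}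
  {Kk : ℕ → ℝ≥0∞} {l0 d0 L : ℕ} {W : ℕ → ℝ} {φ : ℕ × ℕ → ℕ → ℝ} {P : Finset ℕ} {j1 j2 Λ : ℕ}
  {κ α γ δ τ cc : ℝ}

/-- the coefficients -/
def cf (cc : ℝ) (Λ : ℕ) (i : ℕ × ℕ) : ℝ := cc / (((i.2 : ℝ) + 2) * Λ)

lemma Mg_nonneg (N : ℕ) (Φ : ℕ → ℝ) : 0 ≤ Mg Q H N Φ := by
  unfold Mg
  exact integral_nonneg fun ω => (Real.exp_pos _).le

lemma cf_pos (hcc : 0 < cc) (hΛ : 0 < Λ) (i : ℕ × ℕ) : 0 < cf cc Λ i := by
  unfold cf
  have : (0 : ℝ) < Λ := by exact_mod_cast hΛ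
  positivity

/-- the pair terms -/
lemma ratio_b (hM : MgfB Q H l0 lam m err) (hB : BaseDet Kk l0 d0 L (P ×ˢ Ico j1 j2) W φ)
    (hτ : lam ^ 2 * L = τ) (hδ0 : 0 < δ) (hδτ : δ ≤ τ) (hτ1 : τ ≤ 2 * δ) (hδ1 : δ ≤ 1 / 100)
    (hgeo : ∀ p ∈ P, ∀ j ∈ Ico j1 j2, (p + 2 + j) * L < l0) (hP : P ⊆ range Λ) (hΛ : 0 < Λ)
    (hcc : 0 < cc) (hγ0 : 1 / 2 ≤ γ) (hγ1 : γ ≤ 1) (hκ : 0 < κ) (hmγ : m = γ + κ * α ^ 2)
    (hγm : γ * m ≤ 2) (hj1 : 1 ≤ j1) (herr : err ≤ 1 / 100) {Ce ℓ : ℝ}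
    (hCe : 2 * δ * κ * α ^ 2 * j2 + 1 ≤ Ce) (hj1ℓ : ℓ ≤ δ * j1)
    (hΛℓ : (Λ : ℝ) * Real.exp (-(ℓ / 8)) ≤ 1) {i : ℕ × ℕ} (hi : i ∈ P ×ˢ Ico j1 j2) :
    ∑ i' ∈ P ×ˢ Ico j1 j2, cf cc Λ i ^ (1 / 2 : ℝ) * cf cc Λ i' ^ (1 / 2 : ℝ)
            * Mg Q H l0 (fun x => γ * (φ i x + φ i' x) / 2)
      ≤ (2 * (j2 : ℝ) ^ 2 * Real.exp Ce * (2 / (1 - Real.exp (-(δ / 8))) + 1))
        * (cf cc Λ i * Mg Q H l0 (fun x => γ * φ i x)) := by
  classical
  have hL0 : (0 : ℝ) ≤ L := Nat.cast_nonneg _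
  have hα2 : 0 ≤ α ^ 2 := sq_nonneg α
  have hγm' : γ ≤ m := by rw [hmγ]; nlinarith
  have hγ0' : 0 ≤ γ := by linarith
  have hi' := hi
  rw [mem_product] at hi'
  obtain ⟨hiP, hij⟩ := hi'
  have hgi := hgeo i.1 hiP i.2 hij
  rw [mem_Ico] at hij
  have hτ0 : 0 ≤ τ := by linarith
  have hij2n : i.2 ≤ j2 := hij.2.le
  have hij1 : (j1 : ℝ) ≤ i.2 := by exact_mod_cast hij.1
  have hij2 : (i.2 : ℝ) + 1 ≤ j2 := by exact_mod_cast hij.2
  have hj1R : (1 : ℝ) ≤ j1 := by exact_mod_cast hj1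
  have hci := cf_pos (Λ := Λ) hcc hΛ i
  set r : ℝ := Real.exp (-(δ / 8)) with hr
  have hr0 : 0 ≤ r := (Real.exp_pos _).le
  have hr1 : r < 1 := by
    rw [hr, ← Real.exp_zero]; exact Real.exp_lt_exp.2 (by linarith)
  have h1r : 0 < 1 - r := by linarith
  -- one pair
  have hone : ∀ i' ∈ P ×ˢ Ico j1 j2, cf cc Λ i ^ (1 / 2 : ℝ) * cf cc Λ i' ^ (1 / 2 : ℝ)
            * Mg Q H l0 (fun x => γ * (φ i x + φ i' x) / 2)
      ≤ (2 * j2 * Real.exp Ce * (r ^ Nat.dist i.1 i'.1 + r ^ j1))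
        * (cf cc Λ i * Mg Q H l0 (fun x => γ * φ i x)) := by
    intro i' hi'
    have hi'' := hi'
    rw [mem_product] at hi''
    obtain ⟨hiP', hij'⟩ := hi''
    have hgi' := hgeo i'.1 hiP' i'.2 hij'
    rw [mem_Ico] at hij'
    have hci' := cf_pos (Λ := Λ) hcc hΛ i'
    have hij1' : (j1 : ℝ) ≤ i'.2 := by exact_mod_cast hij'.1
    set k : ℕ := min (Nat.dist i.1 i'.1) j1 with hk
    have e1 := qf_pair (γ := γ) (m := m) hB hi hi' hgi hgi' (k := k) (min_le_left _ _)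
      ((min_le_right _ _).trans hij.1) ((min_le_right _ _).trans hij'.1) hγ0' hγm' hγm
    have e2 := hM.up (fun x => γ * (φ i x + φ i' x) / 2)
      (fun x => by
        have := hB.nn i hi x
        have := hB.nn i' hi' x
        positivity)
      (fun x => by
        have e1 := hB.nn i hi x
        have e2 := hB.nn i' hi' x
        have e3 := hB.le1 i hi x
        have e4 := hB.le1 i' hi' x
        calc γ * (φ i x + φ i' x) / 2 ≤ 1 * (1 + 1) / 2 := by gcongr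
          _ ≤ 2 := by norm_num)
    have e3 := hM.low (fun x => γ * φ i x) (fun x => mul_nonneg hγ0' (hB.nn i hi x))
      (fun x => by
        have e1 := hB.nn i hi x
        have e3 := hB.le1 i hi x
        nlinarith)
    -- the exponent
    have e4 : lam ^ 2 * qf m l0 (fun x => γ * (φ i x + φ i' x) / 2) + err
        ≤ (lam ^ 2 * qf m l0 (fun x => γ * φ i x) - err) + (Ce - δ / 8 * k) := by
      have f1 : lam ^ 2 * qf m l0 (fun x => γ * (φ i x + φ i' x) / 2)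
          ≤ lam ^ 2 * (qf m l0 (fun x => γ * φ i x) + (γ * (m - γ) * (i.2 * L) + 6 * L)
        - γ ^ 2 / 2 * (((k : ℝ) - 3) * L)) := by gcongr
      have f2 : lam ^ 2 * (qf m l0 (fun x => γ * φ i x) + (γ * (m - γ) * (i.2 * L) + 6 * L)
        - γ ^ 2 / 2 * (((k : ℝ) - 3) * L)) = lam ^ 2 * qf m l0 (fun x => γ * φ i x)
          + (γ * (m - γ) * i.2 * τ + 6 * τ - γ ^ 2 / 2 * k * τ + 3 * (γ ^ 2 / 2) * τ) := by
        rw [← hτ]; ring
      have f3 : γ * (m - γ) * i.2 * τ ≤ 2 * δ * κ * α ^ 2 * j2 := by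
        have : m - γ = κ * α ^ 2 := by rw [hmγ]; ring
        rw [this]
        calc γ * (κ * α ^ 2) * i.2 * τ ≤ 1 * (κ * α ^ 2) * j2 * (2 * δ) := by
              gcongr
          _ = _ := by ring
      have f4 : δ / 8 * k ≤ γ ^ 2 / 2 * k * τ := by
        have g1 : 1 / 4 ≤ γ ^ 2 := by nlinarith
        have g2 : (0 : ℝ) ≤ k := Nat.cast_nonneg _
        calc δ / 8 * k = (1 / 4) / 2 * k * δ := by ring
          _ ≤ γ ^ 2 / 2 * k * τ := by gcongr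
      have f5 : γ ^ 2 ≤ 1 := by nlinarith
      have f6 : 3 * (γ ^ 2 / 2) * τ ≤ 3 * (1 / 2) * (2 * δ) := by gcongr
      linarith
    have e5 : Mg Q H l0 (fun x => γ * (φ i x + φ i' x) / 2)
        ≤ Real.exp (Ce - δ / 8 * k) * Mg Q H l0 (fun x => γ * φ i x) := by
      calc _ ≤ _ := e2
        _ ≤ Real.exp ((lam ^ 2 * qf m l0 (fun x => γ * φ i x) - err) + (Ce - δ / 8 * k)) :=
            Real.exp_le_exp.2 e4
        _ = Real.exp (Ce - δ / 8 * k) * Real.exp (lam ^ 2 * qf m l0 (fun x => γ * φ i x) - err) := by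
            rw [Real.exp_add, mul_comm]
        _ ≤ _ := by gcongr
    have e6 : Real.exp (Ce - δ / 8 * k) ≤ Real.exp Ce * (r ^ Nat.dist i.1 i'.1 + r ^ j1) := by
      have g1 : Real.exp (Ce - δ / 8 * k) = Real.exp Ce * r ^ k := by
        rw [hr, ← Real.exp_nat_mul, ← Real.exp_add]; congr 1; ring
      rw [g1]
      gcongr
      rcases min_choice (Nat.dist i.1 i'.1) j1 with h | h
      · rw [hk, h]
        have : 0 ≤ r ^ j1 := by positivity
        linarith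
      · rw [hk, h]
        have : 0 ≤ r ^ Nat.dist i.1 i'.1 := by positivity
        linarith
    have e7 : cf cc Λ i ^ (1 / 2 : ℝ) * cf cc Λ i' ^ (1 / 2 : ℝ) ≤ 2 * j2 * cf cc Λ i := by
      have hΛR : (0 : ℝ) < Λ := by exact_mod_cast hΛ
      have g1 : cf cc Λ i' ≤ (2 * j2) ^ 2 * cf cc Λ i := by
        unfold cf
        rw [← mul_div_assoc, div_le_div_iff₀ (by positivity) (by positivity)]
        have g2 : (i.2 : ℝ) + 2 ≤ 2 * j2 := by linarith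
        have g3 : (1 : ℝ) ≤ 2 * j2 := by linarith
        have g4 : (1 : ℝ) ≤ (i'.2 : ℝ) + 2 := by linarith
        calc cc * (((i.2 : ℝ) + 2) * Λ) ≤ cc * ((2 * j2) * Λ) := by gcongr
          _ = (2 * j2) * cc * (1 * Λ) := by ring
          _ ≤ (2 * j2) ^ 2 * cc * (((i'.2 : ℝ) + 2) * Λ) := by
              gcongr
              nlinarith
      have g2 : cf cc Λ i' ^ (1 / 2 : ℝ) ≤ 2 * j2 * cf cc Λ i ^ (1 / 2 : ℝ) := by
        calc cf cc Λ i' ^ (1 / 2 : ℝ) ≤ ((2 * j2) ^ 2 * cf cc Λ i) ^ (1 / 2 : ℝ) :=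
              Real.rpow_le_rpow hci'.le g1 (by norm_num)
          _ = _ := by
              rw [Real.mul_rpow (by positivity) hci.le, ← Real.sqrt_eq_rpow,
                Real.sqrt_sq (by positivity)]
      have g3 : cf cc Λ i ^ (1 / 2 : ℝ) * cf cc Λ i ^ (1 / 2 : ℝ) = cf cc Λ i := by
        rw [← Real.rpow_add hci]; norm_num
      calc cf cc Λ i ^ (1 / 2 : ℝ) * cf cc Λ i' ^ (1 / 2 : ℝ)
          ≤ cf cc Λ i ^ (1 / 2 : ℝ) * (2 * j2 * cf cc Λ i ^ (1 / 2 : ℝ)) := by gcongr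
        _ = 2 * j2 * (cf cc Λ i ^ (1 / 2 : ℝ) * cf cc Λ i ^ (1 / 2 : ℝ)) := by ring
        _ = _ := by rw [g3]
    have hMi : 0 ≤ Mg Q H l0 (fun x => γ * φ i x) := (Real.exp_pos _).le.trans e3
    have hMp := Mg_nonneg (Q := Q) (H := H) l0 (fun x => γ * (φ i x + φ i' x) / 2)
    calc _ ≤ (2 * j2 * cf cc Λ i) * (Real.exp (Ce - δ / 8 * k) * Mg Q H l0 (fun x => γ * φ i x)) := by
          gcongr
      _ ≤ (2 * j2 * cf cc Λ i) * ((Real.exp Ce * (r ^ Nat.dist i.1 i'.1 + r ^ j1))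
            * Mg Q H l0 (fun x => γ * φ i x)) := by gcongr
      _ = _ := by ring
  have hMi : 0 ≤ Mg Q H l0 (fun x => γ * φ i x) := by
    unfold Mg
    exact integral_nonneg fun ω => (Real.exp_pos _).le
  refine (sum_le_sum hone).trans ?_
  rw [← sum_mul, ← mul_sum]
  refine mul_le_mul_of_nonneg_right ?_ (mul_nonneg hci.le hMi)
  have h1 : ∑ i' ∈ P ×ˢ Ico j1 j2, (r ^ Nat.dist i.1 i'.1 + r ^ j1)
      ≤ j2 * (2 / (1 - r) + 1) := by
    rw [sum_product]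
    have h2 : ∀ p ∈ P, ∑ _j ∈ Ico j1 j2, (r ^ Nat.dist i.1 p + r ^ j1)
        ≤ j2 * (r ^ Nat.dist i.1 p + r ^ j1) := by
      intro p _
      rw [sum_const, nsmul_eq_mul, Nat.card_Ico]
      gcongr
      exact Nat.sub_le _ _
    refine (sum_le_sum h2).trans ?_
    rw [← mul_sum]
    gcongr
    rw [sum_add_distrib, sum_const, nsmul_eq_mul]
    refine add_le_add ?_ ?_
    · refine le_trans (sum_le_sum_of_subset_of_nonneg hP (fun x _ _ => by positivity)) ?_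
      exact geo_dist hr0 hr1 i.1 Λ
    · have h3 : (P.card : ℝ) ≤ Λ := by
        have := card_le_card hP
        rw [card_range] at this
        exact_mod_cast this
      have h4 : r ^ j1 ≤ Real.exp (-(ℓ / 8)) := by
        rw [hr, ← Real.exp_nat_mul]
        refine Real.exp_le_exp.2 ?_
        linarith
      calc (P.card : ℝ) * r ^ j1 ≤ Λ * Real.exp (-(ℓ / 8)) := by gcongr
        _ ≤ 1 := hΛℓ
  calc 2 * (j2 : ℝ) * Real.exp Ce * ∑ i' ∈ P ×ˢ Ico j1 j2, (r ^ Nat.dist i.1 i'.1 + r ^ j1)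
      ≤ 2 * (j2 : ℝ) * Real.exp Ce * (j2 * (2 / (1 - r) + 1)) := by gcongr
    _ = _ := by ring

/-- the values below the window -/
lemma ratio_c1 (hM : MgfB Q H l0 lam m err) {F : Finset (ℕ × ℕ)} (hB : BaseDet Kk l0 d0 L F W φ)
    (hτ : lam ^ 2 * L = τ) (hδ0 : 0 < δ) (hδτ : δ ≤ τ) (hτ1 : τ ≤ 2 * δ) (hδ1 : δ ≤ 1 / 100)
    (hγ0 : 1 / 2 ≤ γ) (hγ1 : γ ≤ 1) (hm0 : 0 ≤ m) (hγm : γ * m ≤ 2) (herr : err ≤ 1 / 100)
    {c : ℕ × ℕ → ℝ} {i : ℕ × ℕ} (hi : i ∈ F) (hgi : (i.1 + 2 + i.2) * L < l0) (hc : 0 < c i)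
    {θ s η ℓ Cα : ℝ} (hθ0 : 0 < θ) (hθ1 : θ ≤ 1) (hℓ : 0 ≤ ℓ)
    (hbin : (s + η) * ℓ ≤ 2 * δ * i.2) (hg : s + η / 2 ≤ γ * (γ * (2 - θ) - m) * (s + η))
    (hg0 : 0 ≤ γ * (2 - θ) - m) (hc0 : Real.exp (-Cα) ≤ c i) :
    Real.exp (s * ℓ) ^ θ * (c i ^ (1 - θ) * Mg Q H l0 (fun x => γ * (1 - θ) * φ i x))
      ≤ Real.exp (-(θ * (η / 2) * ℓ) + θ * Cα + 1) * (c i * Mg Q H l0 (fun x => γ * φ i x)) := by
  have hγ0' : 0 ≤ γ := by linarith
  have e1 := qf_dn (γ := γ) (m := m) (θ := θ) hB hi hgi hγ0' hm0 hγm hθ0.le hθ1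
  have e2 := hM.up (fun x => γ * (1 - θ) * φ i x)
      (fun x => by
        have := hB.nn i hi x
        have : 0 ≤ 1 - θ := by linarith
        positivity)
      (fun x => by
        have e1 := hB.nn i hi x
        have e3 := hB.le1 i hi x
        have : 0 ≤ 1 - θ := by linarith
        calc γ * (1 - θ) * φ i x ≤ 1 * 1 * 1 := by
              gcongr
              linarith
          _ ≤ 2 := by norm_num)
  have e3 := hM.low (fun x => γ * φ i x) (fun x => mul_nonneg hγ0' (hB.nn i hi x))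
      (fun x => by
        have e1 := hB.nn i hi x
        have e3 := hB.le1 i hi x
        nlinarith)
  have hMi : 0 ≤ Mg Q H l0 (fun x => γ * φ i x) := (Real.exp_pos _).le.trans e3
  have e4 : lam ^ 2 * qf m l0 (fun x => γ * (1 - θ) * φ i x) + err
      ≤ (lam ^ 2 * qf m l0 (fun x => γ * φ i x) - err) + (-(θ * (s + η / 2) * ℓ) + 1) := by
    have f1 : lam ^ 2 * qf m l0 (fun x => γ * (1 - θ) * φ i x)
        ≤ lam ^ 2 * (qf m l0 (fun x => γ * φ i x)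
          - 2 * γ * θ * (γ * (2 - θ) - m) * (i.2 * L) + 12 * L) := by gcongr
    have f2 : lam ^ 2 * (qf m l0 (fun x => γ * φ i x)
          - 2 * γ * θ * (γ * (2 - θ) - m) * (i.2 * L) + 12 * L)
        = lam ^ 2 * qf m l0 (fun x => γ * φ i x)
          - θ * (γ * (γ * (2 - θ) - m)) * (2 * τ * i.2) + 12 * τ := by
      rw [← hτ]; ring
    have f3 : θ * (s + η / 2) * ℓ ≤ θ * (γ * (γ * (2 - θ) - m)) * (2 * τ * i.2) := by
      have g1 : (s + η) * ℓ ≤ 2 * τ * i.2 := by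
        refine hbin.trans ?_
        gcongr
      have g2 : 0 ≤ γ * (γ * (2 - θ) - m) := mul_nonneg hγ0' hg0
      calc θ * (s + η / 2) * ℓ ≤ θ * (γ * (γ * (2 - θ) - m) * (s + η)) * ℓ := by gcongr
        _ = θ * (γ * (γ * (2 - θ) - m)) * ((s + η) * ℓ) := by ring
        _ ≤ _ := by gcongr
    linarith
  have e5 : Mg Q H l0 (fun x => γ * (1 - θ) * φ i x)
      ≤ Real.exp (-(θ * (s + η / 2) * ℓ) + 1) * Mg Q H l0 (fun x => γ * φ i x) := by
    calc _ ≤ _ := e2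
      _ ≤ Real.exp ((lam ^ 2 * qf m l0 (fun x => γ * φ i x) - err)
            + (-(θ * (s + η / 2) * ℓ) + 1)) := Real.exp_le_exp.2 e4
      _ = Real.exp (-(θ * (s + η / 2) * ℓ) + 1)
            * Real.exp (lam ^ 2 * qf m l0 (fun x => γ * φ i x) - err) := by
          rw [Real.exp_add, mul_comm]
      _ ≤ _ := by gcongr
  have e6 : c i ^ (1 - θ) ≤ Real.exp (θ * Cα) * c i := by
    have g1 : c i ^ (-θ) ≤ Real.exp (θ * Cα) := by
      calc c i ^ (-θ) ≤ Real.exp (-Cα) ^ (-θ) :=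
            Real.rpow_le_rpow_of_nonpos (Real.exp_pos _) hc0 (by linarith)
        _ = Real.exp (θ * Cα) := by rw [← Real.exp_mul]; congr 1; ring
    calc c i ^ (1 - θ) = c i ^ (-θ) * c i := by
          rw [← Real.rpow_add_one hc.ne']; congr 1; ring
      _ ≤ Real.exp (θ * Cα) * c i := by gcongr
  have e7 : Real.exp (s * ℓ) ^ θ = Real.exp (θ * s * ℓ) := by
    rw [← Real.exp_mul]; congr 1; ring
  have hMp := Mg_nonneg (Q := Q) (H := H) l0 (fun x => γ * (1 - θ) * φ i x)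
  calc Real.exp (s * ℓ) ^ θ * (c i ^ (1 - θ) * Mg Q H l0 (fun x => γ * (1 - θ) * φ i x))
      ≤ Real.exp (θ * s * ℓ) * ((Real.exp (θ * Cα) * c i)
        * (Real.exp (-(θ * (s + η / 2) * ℓ) + 1) * Mg Q H l0 (fun x => γ * φ i x))) := by
        rw [e7]; gcongr
    _ = (Real.exp (θ * s * ℓ) * Real.exp (θ * Cα) * Real.exp (-(θ * (s + η / 2) * ℓ) + 1))
        * (c i * Mg Q H l0 (fun x => γ * φ i x)) := by ring
    _ = _ := by
        rw [← Real.exp_add, ← Real.exp_add]; congr 2; ring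

/-- the values above the window -/
lemma ratio_c2 (hM : MgfB Q H l0 lam m err) {F : Finset (ℕ × ℕ)} (hB : BaseDet Kk l0 d0 L F W φ)
    (hτ : lam ^ 2 * L = τ) (hδ0 : 0 < δ) (hδτ : δ ≤ τ) (hτ1 : τ ≤ δ * (1 + δ)) (hδ1 : δ ≤ 1 / 100)
    (hγ0 : 1 / 2 ≤ γ) (hγ1 : γ ≤ 1) (hγm : γ ≤ m) (herr : err ≤ 1 / 100)
    {c : ℕ × ℕ → ℝ} {i : ℕ × ℕ} (hi : i ∈ F) (hgi : (i.1 + 2 + i.2) * L < l0) (hc : 0 < c i)
    (hc1 : c i ≤ 1)
    {θ s η ℓ T : ℝ} (hθ0 : 0 < θ) (hθ1 : θ ≤ 1) (hℓ : 0 ≤ ℓ) (hT : 0 ≤ T)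
    (hbin : 2 * δ * i.2 ≤ (s + 1 - η) * ℓ)
    (hg : (1 + θ) * (1 + δ) * (s + 1 - η) ≤ s + 1 - η / 2) :
    (Real.exp ((s + 1) * ℓ) * Real.exp (-(γ * T))) ^ (-θ)
        * (c i ^ (1 + θ) * Mg Q H l0 (fun x => γ * (1 + θ) * φ i x))
      ≤ Real.exp (-(θ * (η / 2) * ℓ) + θ * T + 1) * (c i * Mg Q H l0 (fun x => γ * φ i x)) := by
  have hγ0' : 0 ≤ γ := by linarith
  have hm0 : 0 ≤ m := by linarith
  have e1 := qf_upth (γ := γ) (m := m) (θ := θ) hB hi hgi hγ0' hγ1 hm0 hθ0.le hθ1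
  have e2 := hM.up (fun x => γ * (1 + θ) * φ i x)
      (fun x => by
        have := hB.nn i hi x
        positivity)
      (fun x => by
        have e1 := hB.nn i hi x
        have e3 := hB.le1 i hi x
        calc γ * (1 + θ) * φ i x ≤ 1 * (1 + 1) * 1 := by gcongr
          _ ≤ 2 := by norm_num)
  have e3 := hM.low (fun x => γ * φ i x) (fun x => mul_nonneg hγ0' (hB.nn i hi x))
      (fun x => by
        have e1 := hB.nn i hi x
        have e3 := hB.le1 i hi x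
        nlinarith)
  have hMi : 0 ≤ Mg Q H l0 (fun x => γ * φ i x) := (Real.exp_pos _).le.trans e3
  have e4 : lam ^ 2 * qf m l0 (fun x => γ * (1 + θ) * φ i x) + err
      ≤ (lam ^ 2 * qf m l0 (fun x => γ * φ i x) - err) + (θ * (s + 1 - η / 2) * ℓ + 1) := by
    have f1 : lam ^ 2 * qf m l0 (fun x => γ * (1 + θ) * φ i x)
        ≤ lam ^ 2 * (qf m l0 (fun x => γ * φ i x)
          + 2 * γ * θ * (γ * (2 + θ) - m) * (i.2 * L) + 18 * L) := by gcongr
    have f2 : lam ^ 2 * (qf m l0 (fun x => γ * φ i x)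
          + 2 * γ * θ * (γ * (2 + θ) - m) * (i.2 * L) + 18 * L)
        = lam ^ 2 * qf m l0 (fun x => γ * φ i x)
          + θ * (γ * (γ * (2 + θ) - m)) * (2 * τ * i.2) + 18 * τ := by
      rw [← hτ]; ring
    have f3 : θ * (γ * (γ * (2 + θ) - m)) * (2 * τ * i.2) ≤ θ * (s + 1 - η / 2) * ℓ := by
      have g1 : γ * (γ * (2 + θ) - m) ≤ 1 + θ := by
        have : γ * (2 + θ) - m ≤ 1 * (1 + θ) := by nlinarith
        calc γ * (γ * (2 + θ) - m) ≤ γ * (1 * (1 + θ)) := by gcongr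
          _ ≤ 1 * (1 * (1 + θ)) := by gcongr
          _ = 1 + θ := by ring
      have g2 : 0 ≤ 2 * τ * (i.2 : ℝ) := by
        have : 0 ≤ τ := by linarith
        positivity
      have g3 : 2 * τ * (i.2 : ℝ) ≤ (1 + δ) * ((s + 1 - η) * ℓ) := by
        calc 2 * τ * (i.2 : ℝ) ≤ 2 * (δ * (1 + δ)) * i.2 := by gcongr
          _ = (1 + δ) * (2 * δ * i.2) := by ring
          _ ≤ _ := by gcongr
      calc θ * (γ * (γ * (2 + θ) - m)) * (2 * τ * i.2) ≤ θ * (1 + θ) * (2 * τ * i.2) := by gcongr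
        _ ≤ θ * (1 + θ) * ((1 + δ) * ((s + 1 - η) * ℓ)) := by gcongr
        _ = θ * ((1 + θ) * (1 + δ) * (s + 1 - η)) * ℓ := by ring
        _ ≤ θ * (s + 1 - η / 2) * ℓ := by gcongr
    have f4 : τ ≤ 2 * δ := by nlinarith
    linarith
  have e5 : Mg Q H l0 (fun x => γ * (1 + θ) * φ i x)
      ≤ Real.exp (θ * (s + 1 - η / 2) * ℓ + 1) * Mg Q H l0 (fun x => γ * φ i x) := by
    calc _ ≤ _ := e2
      _ ≤ Real.exp ((lam ^ 2 * qf m l0 (fun x => γ * φ i x) - err)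
            + (θ * (s + 1 - η / 2) * ℓ + 1)) := Real.exp_le_exp.2 e4
      _ = Real.exp (θ * (s + 1 - η / 2) * ℓ + 1)
            * Real.exp (lam ^ 2 * qf m l0 (fun x => γ * φ i x) - err) := by
          rw [Real.exp_add, mul_comm]
      _ ≤ _ := by gcongr
  have e6 : c i ^ (1 + θ) ≤ c i := by
    calc c i ^ (1 + θ) ≤ c i ^ (1 : ℝ) :=
          Real.rpow_le_rpow_of_exponent_ge hc hc1 (by linarith)
      _ = c i := Real.rpow_one _
  have e7 : (Real.exp ((s + 1) * ℓ) * Real.exp (-(γ * T))) ^ (-θ)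
      ≤ Real.exp (-(θ * (s + 1) * ℓ) + θ * T) := by
    rw [← Real.exp_add, ← Real.exp_mul]
    refine Real.exp_le_exp.2 ?_
    have : θ * (γ * T) ≤ θ * (1 * T) := by gcongr
    linarith
  have hMp := Mg_nonneg (Q := Q) (H := H) l0 (fun x => γ * (1 + θ) * φ i x)
  calc _ ≤ Real.exp (-(θ * (s + 1) * ℓ) + θ * T) * (c i
        * (Real.exp (θ * (s + 1 - η / 2) * ℓ + 1) * Mg Q H l0 (fun x => γ * φ i x))) := by
        gcongr
    _ = (Real.exp (-(θ * (s + 1) * ℓ) + θ * T) * Real.exp (θ * (s + 1 - η / 2) * ℓ + 1))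
        * (c i * Mg Q H l0 (fun x => γ * φ i x)) := by ring
    _ = _ := by
        rw [← Real.exp_add]; congr 2; ring

end Ratios

end Pool.Agent.Cop

end
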