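import Mathlib
import Pool.Agent.Work.MP_cceb86_pr.LBd

/-!
The mass of a window of values of the base blocks.
-/

open Finset MeasureTheory ProbabilityTheory
open scoped ENNReal

noncomputable section

namespace Pool.Agent.Cop

/-- numerical facts on the parameters, `δ` the small constant, `ℓ = log n`. -/
structure NF (κ h η δ A : ℝ) (J : ℕ) (α ℓ : ℝ) (j1 j2 Λ : ℕ) : Prop where
  κ0 : 0 < κ
  κ2 : κ < 2
  h0 : 0 < h
  η0 : 0 < η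
  η1 : η ≤ 1 / 8
  δη : 4 * ((J : ℝ) + 4) * δ = η
  α0 : 0 < α
  α1 : α ≤ 1 / 4
  αη : α ^ 2 ≤ η
  ℓ1 : h ≤ ℓ * α ^ 2
  ℓ2 : ℓ * α ^ 2 ≤ h + η
  ℓ3 : 8 * δ / η ≤ ℓ
  j1a : ℓ ≤ δ * j1
  j1b : δ * j1 ≤ ℓ + δ
  j2a : ((J : ℝ) + 4) * ℓ ≤ 2 * δ * j2
  j2b : 2 * δ * j2 ≤ ((J : ℝ) + 4) * ℓ + 2 * δ
  Λ1 : Real.exp (A / α) ≤ Λ
  Λ2 : (Λ : ℝ) * Real.exp (-(ℓ / 8)) ≤ 1
  Λ3 : (j2 : ℝ) + 2 ≤ δ * Λ
  g1 : ∀ s : ℝ, 0 ≤ s → s ≤ J + 2 →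
    s + η / 2 ≤ 1 / (1 + α) * (1 / (1 + α) * (2 - δ) - (1 / (1 + α) + κ * α ^ 2)) * (s + η)
  g0 : 0 ≤ 1 / (1 + α) * (2 - δ) - (1 / (1 + α) + κ * α ^ 2)
  rb : Real.exp (-(1 / (1 + α) * (δ / α) / 2)) * (2 * (j2 : ℝ) ^ 2
    * Real.exp (2 * δ * κ * α ^ 2 * j2 + 1) * (2 / (1 - Real.exp (-(δ / 8))) + 1)) ≤ η / 3
  rc1 : ∃ Cα : ℝ, Real.exp (-Cα)
      ≤ ((1 - δ) ^ 4 * α ^ 2) ^ (1 / (1 + α)) / (((j2 : ℝ) + 2) * Λ) ∧
    Real.exp (-(δ * (η / 2) * ℓ) + δ * Cα + 1) ≤ η / 3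
  rc2 : Real.exp (-(δ * (η / 2) * ℓ) + δ * (δ / α) + 1) ≤ η / 3

/-- basic consequences -/
lemma nf_basic {κ η δ α J : ℝ} (hJ : 0 ≤ J) (κ0 : 0 < κ) (κ2 : κ < 2) (η0 : 0 < η)
    (η1 : η ≤ 1 / 8) (δη : 4 * (J + 4) * δ = η) (α0 : 0 < α) (α1 : α ≤ 1 / 4) :
    0 < δ ∧ δ ≤ η / 16 ∧ δ ≤ 1 / 100 ∧ 1 / 2 ≤ 1 / (1 + α) ∧ 1 / (1 + α) ≤ 1 ∧
      1 / (1 + α) ≤ 1 / (1 + α) + κ * α ^ 2 ∧
      1 / (1 + α) * (1 / (1 + α) + κ * α ^ 2) ≤ 2 ∧ 0 < (1 - δ) ^ 4 * α ^ 2 ∧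
      (1 - δ) ^ 4 * α ^ 2 ≤ 1 ∧ 1 - 1 / (1 + α) ≤ α := by
  have hα1 : 0 < 1 + α := by linarith
  have hδ0 : 0 < δ := by
    by_contra hcon
    push Not at hcon
    have : 4 * (J + 4) * δ ≤ 0 := mul_nonpos_of_nonneg_of_nonpos (by positivity) hcon
    linarith
  have hJδ : 0 ≤ J * δ := by positivity
  have hδη : δ ≤ η / 16 := by
    have : 4 * (J + 4) * δ = 4 * (J * δ) + 16 * δ := by ring
    linarith
  have hγ0 : 1 / 2 ≤ 1 / (1 + α) := by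
    rw [div_le_div_iff₀ (by norm_num) hα1]; linarith
  have hγ1 : 1 / (1 + α) ≤ 1 := by rw [div_le_one hα1]; linarith
  have hα2 : 0 < α ^ 2 := by positivity
  have hα16 : α ^ 2 ≤ 1 / 16 := by
    have : α ^ 2 ≤ (1 / 4) ^ 2 := by gcongr
    linarith
  have hκα : κ * α ^ 2 ≤ 2 * (1 / 16) := by gcongr
  have hκα0 : 0 < κ * α ^ 2 := by positivity
  have h1δ : 0 < 1 - δ := by linarith
  have e1 : (1 - δ) ^ 4 ≤ 1 := pow_le_one₀ h1δ.le (by linarith)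
  refine ⟨hδ0, hδη, by linarith, hγ0, hγ1, by linarith, ?_, by positivity, ?_, ?_⟩
  · calc 1 / (1 + α) * (1 / (1 + α) + κ * α ^ 2) ≤ 1 * (1 + 1) := by
          gcongr
          linarith
      _ = 2 := by norm_num
  · calc (1 - δ) ^ 4 * α ^ 2 ≤ 1 * (1 / 16) := by gcongr
      _ ≤ 1 := by norm_num
  · rw [sub_le_iff_le_add, ← sub_le_iff_le_add', le_div_iff₀ hα1]
    nlinarith

/-- geometric consequences -/
lemma nf_geo {δ ℓ : ℝ} {j1 j2 Λ L : ℕ} (hδ0 : 0 < δ) (hδ1 : δ ≤ 1 / 100) (hℓ0 : 0 < ℓ)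
    (j1a : ℓ ≤ δ * j1) (Λ3 : (j2 : ℝ) + 2 ≤ δ * Λ) {P : Finset ℕ}
    (hP : ∀ p ∈ P, (p : ℝ) ≤ (1 - 2 * δ) * Λ) (hL : 0 < L) :
    1 ≤ j1 ∧ (1 : ℝ) ≤ Λ ∧ (∀ p ∈ P, ∀ j ∈ Ico j1 j2, (p + 2 + j) * L < Λ * L) ∧ P ⊆ range Λ := by
  have hj2 : (0 : ℝ) ≤ j2 := Nat.cast_nonneg _
  have hΛ0 : (0 : ℝ) ≤ Λ := Nat.cast_nonneg _
  have hδΛ : δ * Λ ≤ 1 / 100 * Λ := by gcongr
  have hΛ1 : (1 : ℝ) ≤ Λ := by linarith
  refine ⟨?_, hΛ1, ?_, ?_⟩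
  · have h1 : (0 : ℝ) < δ * j1 := lt_of_lt_of_le hℓ0 j1a
    have : (0 : ℝ) < j1 := by
      by_contra hcon
      push Not at hcon
      have := mul_nonpos_of_nonneg_of_nonpos hδ0.le hcon
      linarith
    exact_mod_cast this
  · intro p hp j hj
    rw [mem_Ico] at hj
    refine Nat.mul_lt_mul_of_pos_right ?_ hL
    have h1 := hP p hp
    have h2 : (j : ℝ) ≤ j2 := by exact_mod_cast hj.2.le
    have h3 : ((p + 2 + j : ℕ) : ℝ) < Λ := by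
      push_cast
      have : (0 : ℝ) < δ * Λ := by positivity
      have e : (1 - 2 * δ) * (Λ : ℝ) = Λ - 2 * (δ * Λ) := by ring
      linarith
    exact_mod_cast h3
  · intro p hp
    rw [mem_range]
    have h1 := hP p hp
    have h2 : (0 : ℝ) < δ * Λ := by positivity
    have e : (1 - 2 * δ) * (Λ : ℝ) = Λ - 2 * (δ * Λ) := by ring
    have : (p : ℝ) < Λ := by linarith
    exact_mod_cast this

/-- the bin of `s` -/
def bin (η δ ℓ s : ℝ) (j1 j2 : ℕ) : Finset ℕ :=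
  (Ico j1 j2).filter (fun j => (s + η) * ℓ ≤ 2 * δ * (j : ℝ) ∧ 2 * δ * (j : ℝ) ≤ (s + 1 - η) * ℓ)

section Win

variable {Ω : Type*} [MeasurableSpace Ω] {Q : Measure Ω} {H : ℕ → Ω → ℝ} {lam err : ℝ}
  {Kk : ℕ → ℝ≥0∞} {d0 L : ℕ} {W : ℕ → ℝ} {φ : ℕ × ℕ → ℕ → ℝ} {P : Finset ℕ} {j1 j2 Λ J : ℕ}
  {κ h η δ A α ℓ : ℝ}

/-- window mass in terms of the moments -/
theorem base_window [IsProbabilityMeasure Q] (nf : NF κ h η δ A J α ℓ j1 j2 Λ)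
    (hM : MgfB Q H (Λ * L) lam (1 / (1 + α) + κ * α ^ 2) err)
    (hB : BaseDet Kk (Λ * L) d0 L (P ×ˢ Ico j1 j2) W φ)
    (hτ0 : δ ≤ lam ^ 2 * L) (hτ1 : lam ^ 2 * L ≤ δ * (1 + δ)) (hL : 0 < L)
    (hP : ∀ p ∈ P, (p : ℝ) ≤ (1 - 2 * δ) * Λ) (herr : err ≤ δ) {s : ℕ} (hs : s ≤ J + 2) :
    Real.exp (-η) * (1 - η) * ∑ i ∈ P ×ˢ bin η δ ℓ s j1 j2,
        cf (((1 - δ) ^ 4 * α ^ 2) ^ (1 / (1 + α))) Λ i
          * Mg Q H (Λ * L) (fun x => 1 / (1 + α) * φ i x)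
      ≤ ∫ ω, (if Real.exp (s * ℓ) ≤ XX0 H (Λ * L) (P ×ˢ Ico j1 j2)
            (cf (((1 - δ) ^ 4 * α ^ 2) ^ (1 / (1 + α))) Λ) φ (1 / (1 + α)) ω ∧
          XX0 H (Λ * L) (P ×ˢ Ico j1 j2)
            (cf (((1 - δ) ^ 4 * α ^ 2) ^ (1 / (1 + α))) Λ) φ (1 / (1 + α)) ω
              < Real.exp ((s + 1) * ℓ)
          then XX0 H (Λ * L) (P ×ˢ Ico j1 j2)
            (cf (((1 - δ) ^ 4 * α ^ 2) ^ (1 / (1 + α))) Λ) φ (1 / (1 + α)) ω else 0) ∂Q := by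
  classical
  obtain ⟨κ0, κ2, h0, η0, η1, δη, α0, α1, αη, ℓ1, ℓ2, ℓ3, j1a, j1b, j2a, j2b, Λ1, Λ2, Λ3, g1, g0,
    rb, rc1, rc2⟩ := nf
  obtain ⟨Cα, hCα, rc1⟩ := rc1
  have hα1 : 0 < 1 + α := by linarith
  have hJ : (0 : ℝ) ≤ J := Nat.cast_nonneg _
  obtain ⟨hδ0, hδη, hδ1, hγ0, hγ1, hγm, hγm2, hδ4, hδ4', h1γ⟩ :=
    nf_basic hJ κ0 κ2 η0 η1 δη α0 α1
  have hℓ0 : 0 < ℓ := lt_of_lt_of_le (by positivity) ℓ3
  obtain ⟨hj1, hΛ1', hgeo, hPr⟩ := nf_geo (j1 := j1) (j2 := j2) hδ0 hδ1 hℓ0 j1a Λ3 hP hL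
  set γ : ℝ := 1 / (1 + α) with hγ
  set m : ℝ := γ + κ * α ^ 2 with hm
  set cc : ℝ := ((1 - δ) ^ 4 * α ^ 2) ^ γ with hcc
  set F : Finset (ℕ × ℕ) := P ×ˢ Ico j1 j2 with hF
  have hm0 : 0 ≤ m := by linarith
  have hΛ0 : (0 : ℝ) < Λ := by linarith
  have hΛ : 0 < Λ := by exact_mod_cast hΛ0
  have hcc0 : 0 < cc := Real.rpow_pos_of_pos hδ4 _
  have hcc1 : cc ≤ 1 := Real.rpow_le_one hδ4.le hδ4' (by linarith)
  have hc : ∀ i ∈ F, 0 < cf cc Λ i := fun i _ => cf_pos hcc0 hΛ i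
  have hτ2 : lam ^ 2 * L ≤ 2 * δ := by
    refine hτ1.trans ?_
    have : δ * (1 + δ) ≤ δ * 2 := by gcongr; linarith
    linarith
  have h0' : ∀ i ∈ F, ∀ x, 0 ≤ φ i x := hB.nn
  have h1' : ∀ i ∈ F, ∀ x, φ i x ≤ 1 := hB.le1
  set T : ℝ := δ / α with hT
  have hT0 : 0 ≤ T := by positivity
  set B : Finset (ℕ × ℕ) := P ×ˢ bin η δ ℓ s j1 j2 with hBdef
  have hBF : B ⊆ F := product_subset_product subset_rfl (filter_subset _ _)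
  have hsR : (s : ℝ) ≤ J + 2 := by exact_mod_cast hs
  have hs0 : (0 : ℝ) ≤ s := Nat.cast_nonneg _
  have key := base_int hM hBF hc h0' h1' (γ := γ) (θ := δ) (T := T) (lo := Real.exp (s * ℓ))
    (hi := Real.exp ((s + 1) * ℓ)) (by linarith) hγ1 hδ0 (by linarith) (Real.exp_pos _)
    (Real.exp_pos _)
  set I : ℝ := ∫ ω, (if Real.exp (s * ℓ) ≤ XX0 H (Λ * L) F (cf cc Λ) φ γ ω ∧
          XX0 H (Λ * L) F (cf cc Λ) φ γ ω < Real.exp ((s + 1) * ℓ)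
          then XX0 H (Λ * L) F (cf cc Λ) φ γ ω else 0) ∂Q with hI
  have hterm : ∀ i ∈ B, (1 - η) * (cf cc Λ i * Mg Q H (Λ * L) (fun x => γ * φ i x))
      ≤ cf cc Λ i * Mg Q H (Λ * L) (fun x => γ * φ i x)
        - Real.exp (-(γ * T / 2)) * ∑ i' ∈ F, cf cc Λ i ^ (1 / 2 : ℝ) * cf cc Λ i' ^ (1 / 2 : ℝ)
            * Mg Q H (Λ * L) (fun x => γ * (φ i x + φ i' x) / 2)
        - Real.exp (s * ℓ) ^ δ
            * (cf cc Λ i ^ (1 - δ) * Mg Q H (Λ * L) (fun x => γ * (1 - δ) * φ i x))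
        - (Real.exp ((s + 1) * ℓ) * Real.exp (-(γ * T))) ^ (-δ)
            * (cf cc Λ i ^ (1 + δ) * Mg Q H (Λ * L) (fun x => γ * (1 + δ) * φ i x)) := by
    intro i hi
    have hiF := hBF hi
    have hi2 := hi
    rw [hBdef, mem_product] at hi2
    obtain ⟨hiP, hib⟩ := hi2
    unfold bin at hib
    rw [mem_filter] at hib
    obtain ⟨hij, hb1, hb2⟩ := hib
    have hgi := hgeo i.1 hiP i.2 hij
    have hci := hc i hiF
    have hMi := Mg_nonneg (Q := Q) (H := H) (Λ * L) (fun x => γ * φ i x)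
    have hcM : 0 ≤ cf cc Λ i * Mg Q H (Λ * L) (fun x => γ * φ i x) := mul_nonneg hci.le hMi
    have r1 := ratio_b hM hB rfl hδ0 hτ0 hτ2 hδ1 hgeo hPr hΛ hcc0 hγ0 hγ1 κ0
      rfl hγm2 hj1 (herr.trans hδ1) (Ce := 2 * δ * κ * α ^ 2 * j2 + 1) le_rfl j1a Λ2 hiF
    have r2 := ratio_c1 hM hB rfl hδ0 hτ0 hτ2 hδ1 hγ0 hγ1 hm0 hγm2
      (herr.trans hδ1) hiF hgi hci (θ := δ) (s := s) (η := η) (ℓ := ℓ) (Cα := Cα) hδ0
      (by linarith) hℓ0.le hb1 (g1 s hs0 hsR) g0 (by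
        refine hCα.trans ?_
        unfold cf
        rw [mem_Ico] at hij
        have : (i.2 : ℝ) ≤ j2 := by exact_mod_cast hij.2.le
        gcongr)
    have hc1 : cf cc Λ i ≤ 1 := by
      unfold cf
      rw [div_le_one (by positivity)]
      have : (0 : ℝ) ≤ i.2 := Nat.cast_nonneg _
      calc cc ≤ 1 := hcc1
        _ = 1 * 1 := by norm_num
        _ ≤ ((i.2 : ℝ) + 2) * Λ := by
            gcongr
            linarith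
    have r3 := ratio_c2 hM hB rfl hδ0 hτ0 hτ1 hδ1 hγ0 hγ1 hγm
      (herr.trans hδ1) hiF hgi hci hc1 (θ := δ) (s := s) (η := η) (ℓ := ℓ) (T := T) hδ0
      (by linarith) hℓ0.le hT0 hb2 (by
        have e0 : δ * (J + 3) ≤ η / 4 := by linarith
        have e1 : (2 * δ + δ * δ) * ((s : ℝ) + 1 - η) ≤ (2 * δ + δ * δ) * (J + 3) := by
          refine mul_le_mul_of_nonneg_left ?_ (by positivity)
          linarith
        have e2 : (2 * δ + δ * δ) * ((J : ℝ) + 3) = 2 * (δ * (J + 3)) + δ * (δ * (J + 3)) := by ring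
        have e3 : δ * (δ * ((J : ℝ) + 3)) ≤ δ * 1 := by
          refine mul_le_mul_of_nonneg_left ?_ hδ0.le
          linarith
        have e4 : 2 * (δ * ((J : ℝ) + 3)) = η / 2 - 2 * δ := by linarith
        have e5 : (1 + δ) * (1 + δ) * ((s : ℝ) + 1 - η)
            = ((s : ℝ) + 1 - η) + (2 * δ + δ * δ) * ((s : ℝ) + 1 - η) := by ring
        rw [e5]
        linarith)
    have hX1 := mul_le_mul_of_nonneg_left r1 (Real.exp_pos (-(γ * T / 2))).le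
    have hX2 : Real.exp (-(γ * T / 2)) * ((2 * (j2 : ℝ) ^ 2
        * Real.exp (2 * δ * κ * α ^ 2 * j2 + 1) * (2 / (1 - Real.exp (-(δ / 8))) + 1))
        * (cf cc Λ i * Mg Q H (Λ * L) (fun x => γ * φ i x)))
        ≤ η / 3 * (cf cc Λ i * Mg Q H (Λ * L) (fun x => γ * φ i x)) := by
      rw [← mul_assoc]
      exact mul_le_mul_of_nonneg_right rb hcM
    have hX3 := mul_le_mul_of_nonneg_right rc1 hcM
    have hX4 := mul_le_mul_of_nonneg_right rc2 hcM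
    have hsplit : (1 - η) * (cf cc Λ i * Mg Q H (Λ * L) (fun x => γ * φ i x))
        = cf cc Λ i * Mg Q H (Λ * L) (fun x => γ * φ i x)
          - η / 3 * (cf cc Λ i * Mg Q H (Λ * L) (fun x => γ * φ i x))
          - η / 3 * (cf cc Λ i * Mg Q H (Λ * L) (fun x => γ * φ i x))
          - η / 3 * (cf cc Λ i * Mg Q H (Λ * L) (fun x => γ * φ i x)) := by ring
    rw [hsplit]
    exact sub_le_sub (sub_le_sub (sub_le_sub le_rfl (hX1.trans hX2)) (r2.trans hX3))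
      (r3.trans hX4)
  have hsum : (1 - η) * ∑ i ∈ B, cf cc Λ i * Mg Q H (Λ * L) (fun x => γ * φ i x)
      ≤ Real.exp ((1 - γ) * T) * I := by
    rw [mul_sum]
    exact (sum_le_sum hterm).trans key
  have hexp : Real.exp (-η) * Real.exp ((1 - γ) * T) ≤ 1 := by
    rw [← Real.exp_add]
    refine Real.exp_le_one_iff.2 ?_
    have e2 : (1 - γ) * T ≤ α * T := by gcongr
    have e3 : α * T = δ := by rw [hT]; field_simp
    linarith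
  have hI0 : 0 ≤ I := by
    rw [hI]
    refine integral_nonneg fun ω => ?_
    simp only [Pi.zero_apply]
    split_ifs with hc
    · exact (Real.exp_pos _).le.trans hc.1
    · exact le_rfl
  calc Real.exp (-η) * (1 - η) * ∑ i ∈ B, cf cc Λ i * Mg Q H (Λ * L) (fun x => γ * φ i x)
      = Real.exp (-η) * ((1 - η) * ∑ i ∈ B, cf cc Λ i * Mg Q H (Λ * L) (fun x => γ * φ i x)) := by
        ring
    _ ≤ Real.exp (-η) * (Real.exp ((1 - γ) * T) * I) := by gcongr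
    _ = (Real.exp (-η) * Real.exp ((1 - γ) * T)) * I := by ring
    _ ≤ 1 * I := by gcongr
    _ = I := one_mul _

end Win

end Pool.Agent.Cop

end
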