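import Mathlib
import Pool.Agent.Work.MP_cceb86_pr.LBe
import Pool.Agent.Work.MP_cceb86_pr.BaseNum
import Pool.Agent.Work.MP_cceb86_pr.Sums

/-!
The sums over the bins.
-/

open Finset MeasureTheory ProbabilityTheory
open scoped ENNReal

noncomputable section

namespace Pool.Agent.Cop

section Win

variable {Ω : Type*} [MeasurableSpace Ω] {Q : Measure Ω} {H : ℕ → Ω → ℝ} {lam err : ℝ}
  {Kk : ℕ → ℝ≥0∞} {d0 L : ℕ} {W : ℕ → ℝ} {φ : ℕ × ℕ → ℕ → ℝ} {j1 j2 Λ J : ℕ}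
  {κ h η δ A α ℓ : ℝ}

lemma cardP_low {δ η : ℝ} {Λ : ℕ} (hδ0 : 0 < δ) (hδη : δ ≤ η) (h1 : 1 ≤ δ * Λ) :
    (1 - 4 * η) * Λ ≤ ((Icc ⌈δ * Λ⌉₊ ⌊(1 - 2 * δ) * Λ⌋₊).card : ℝ) := by
  have hΛ : (0 : ℝ) ≤ Λ := Nat.cast_nonneg _
  rw [Nat.card_Icc]
  have h2 : (⌈δ * Λ⌉₊ : ℝ) < δ * Λ + 1 := Nat.ceil_lt_add_one (by positivity)
  have h3 : (1 - 2 * δ) * Λ < (⌊(1 - 2 * δ) * Λ⌋₊ : ℝ) + 1 := Nat.lt_floor_add_one _
  have h4 : ((⌊(1 - 2 * δ) * Λ⌋₊ : ℝ) + 1) - ⌈δ * Λ⌉₊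
      ≤ ((⌊(1 - 2 * δ) * Λ⌋₊ + 1 - ⌈δ * Λ⌉₊ : ℕ) : ℝ) := by
    rcases le_total ⌈δ * Λ⌉₊ (⌊(1 - 2 * δ) * Λ⌋₊ + 1) with h | h
    · rw [Nat.cast_sub h]; push_cast; exact le_rfl
    · have h5 : ((⌊(1 - 2 * δ) * Λ⌋₊ + 1 : ℕ) : ℝ) ≤ ⌈δ * Λ⌉₊ := by exact_mod_cast h
      push_cast at h5
      have h6 : (0 : ℝ) ≤ ((⌊(1 - 2 * δ) * Λ⌋₊ + 1 - ⌈δ * Λ⌉₊ : ℕ) : ℝ) := Nat.cast_nonneg _
      linarith
  have h5 : δ * Λ ≤ η * Λ := by gcongr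
  have e1 : (1 - 2 * δ) * (Λ : ℝ) = Λ - 2 * (δ * Λ) := by ring
  have e2 : (1 - 4 * η) * (Λ : ℝ) = Λ - 4 * (η * Λ) := by ring
  linarith

theorem bin_low' [IsProbabilityMeasure Q] (nf : NF κ h η δ A J α ℓ j1 j2 Λ)
    (hM : MgfB Q H (Λ * L) lam (1 / (1 + α) + κ * α ^ 2) err)
    (hB : BaseDet Kk (Λ * L) d0 L (Icc ⌈δ * Λ⌉₊ ⌊(1 - 2 * δ) * Λ⌋₊ ×ˢ Ico j1 j2) W φ)
    (hτ0 : δ ≤ lam ^ 2 * L) (hτ1 : lam ^ 2 * L ≤ δ * (1 + δ)) (hL : 0 < L)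
    (herr : err ≤ δ) {s : ℕ} (hs2 : 2 ≤ s) (hs : s ≤ J + 2) :
    (1 - 4 * η) * (1 - η) ^ 4 * α ^ 2 * Real.log ((s + 1 - 2 * η) / (s + 2 * η))
      * Real.exp (-((1 + η) * κ * (s + 1) * (h + η)) - 25 * η)
      ≤ ∑ i ∈ Icc ⌈δ * Λ⌉₊ ⌊(1 - 2 * δ) * Λ⌋₊ ×ˢ bin η δ ℓ s j1 j2,
        cf (((1 - δ) ^ 4 * α ^ 2) ^ (1 / (1 + α))) Λ i
          * Mg Q H (Λ * L) (fun x => 1 / (1 + α) * φ i x) := by
  classical
  obtain ⟨κ0, κ2, h0, η0, η1, δη, α0, α1, αη, ℓ1, ℓ2, ℓ3, j1a, j1b, j2a, j2b, Λ1, Λ2, Λ3, g1, g0,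
    rb, rc1, rc2⟩ := nf
  clear rb rc1 rc2 g1 g0 Λ1 Λ2
  have hJ : (0 : ℝ) ≤ J := Nat.cast_nonneg _
  obtain ⟨hδ0, hδη, hδ1, hγ0, hγ1, hγm, hγm2, hδ4, hδ4', h1γ⟩ :=
    nf_basic hJ κ0 κ2 η0 η1 δη α0 α1
  have hℓ0 : 0 < ℓ := lt_of_lt_of_le (by positivity) ℓ3
  set P : Finset ℕ := Icc ⌈δ * Λ⌉₊ ⌊(1 - 2 * δ) * Λ⌋₊ with hP
  have hΛnn : (0 : ℝ) ≤ Λ := Nat.cast_nonneg _
  have hPle : ∀ p ∈ P, (p : ℝ) ≤ (1 - 2 * δ) * Λ := by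
    intro p hp
    rw [hP, mem_Icc] at hp
    have : 0 ≤ (1 - 2 * δ) * (Λ : ℝ) := mul_nonneg (by linarith) hΛnn
    exact (Nat.le_floor_iff this).1 hp.2
  obtain ⟨hj1, hΛ1', hgeo, hPr⟩ := nf_geo (j1 := j1) (j2 := j2) hδ0 hδ1 hℓ0 j1a Λ3 hPle hL
  set γ : ℝ := 1 / (1 + α) with hγ
  set m : ℝ := γ + κ * α ^ 2 with hm
  set cc : ℝ := ((1 - δ) ^ 4 * α ^ 2) ^ γ with hcc
  have hm0 : 0 ≤ m := by linarith
  have hγ0' : 0 ≤ γ := by linarith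
  have hΛ0 : (0 : ℝ) < Λ := by linarith
  have hΛ : 0 < Λ := by exact_mod_cast hΛ0
  have hcc0 : 0 < cc := Real.rpow_pos_of_pos hδ4 _
  have hs0 : (0 : ℝ) ≤ s := Nat.cast_nonneg _
  have hsR : (s : ℝ) ≤ J + 2 := by exact_mod_cast hs
  set E : ℝ := Real.exp (-((1 + η) * κ * (s + 1) * (h + η)) - 25 * η) with hE
  -- one term
  have hterm : ∀ i ∈ P ×ˢ bin η δ ℓ s j1 j2, cf cc Λ i * E
      ≤ cf cc Λ i * Mg Q H (Λ * L) (fun x => γ * φ i x) := by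
    intro i hi
    rw [mem_product] at hi
    obtain ⟨hiP, hib⟩ := hi
    unfold bin at hib
    rw [mem_filter] at hib
    obtain ⟨hij, hb1, hb2⟩ := hib
    have hiF : i ∈ P ×ˢ Ico j1 j2 := mem_product.2 ⟨hiP, hij⟩
    have hgi := hgeo i.1 hiP i.2 hij
    refine mul_le_mul_of_nonneg_left ?_ (cf_pos hcc0 hΛ i).le
    have e1 := qf_low (γ := γ) (m := m) hB hiF hgi hγ0' hm0 hγm2
    have e2 := hM.low (fun x => γ * φ i x) (fun x => mul_nonneg hγ0' (hB.nn i hiF x))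
      (fun x => by
        have e1 := hB.nn i hiF x
        have e3 := hB.le1 i hiF x
        calc γ * φ i x ≤ 1 * 1 := by gcongr
          _ ≤ 2 := by norm_num)
    refine le_trans ?_ e2
    rw [hE]
    refine Real.exp_le_exp.2 ?_
    have e3 : lam ^ 2 * (-(2 * γ * (m - γ) * (i.2 * L)) - 12 * L)
        ≤ lam ^ 2 * qf m (Λ * L) (fun x => γ * φ i x) := by gcongr
    have e4 : lam ^ 2 * (-(2 * γ * (m - γ) * (i.2 * L)) - 12 * L)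
        = -(γ * (κ * α ^ 2) * (2 * i.2 * (lam ^ 2 * L))) - 12 * (lam ^ 2 * L) := by
      rw [hm]; ring
    have e5 : 2 * (i.2 : ℝ) * (lam ^ 2 * L) ≤ (1 + η) * ((s + 1) * ℓ) := by
      calc 2 * (i.2 : ℝ) * (lam ^ 2 * L) ≤ 2 * (i.2 : ℝ) * (δ * (1 + δ)) := by gcongr
        _ = (1 + δ) * (2 * δ * i.2) := by ring
        _ ≤ (1 + δ) * ((s + 1 - η) * ℓ) := by gcongr
        _ ≤ (1 + η) * ((s + 1) * ℓ) := by
            have : 0 ≤ (s : ℝ) + 1 - η := by linarith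
            gcongr <;> linarith
    have e6 : γ * (κ * α ^ 2) * (2 * i.2 * (lam ^ 2 * L)) ≤ (1 + η) * κ * (s + 1) * (h + η) := by
      calc γ * (κ * α ^ 2) * (2 * i.2 * (lam ^ 2 * L))
          ≤ 1 * (κ * α ^ 2) * ((1 + η) * ((s + 1) * ℓ)) := by gcongr
        _ = (1 + η) * κ * (s + 1) * (ℓ * α ^ 2) := by ring
        _ ≤ (1 + η) * κ * (s + 1) * (h + η) := by gcongr
    have e7 : lam ^ 2 * (L : ℝ) ≤ 2 * δ := by
      refine hτ1.trans ?_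
      have : δ * (1 + δ) ≤ δ * 2 := by gcongr; linarith
      linarith
    linarith
  refine le_trans ?_ (sum_le_sum hterm)
  rw [← sum_mul]
  refine mul_le_mul_of_nonneg_right ?_ (Real.exp_pos _).le
  -- the sum of the coefficients
  have hsum : ∑ i ∈ P ×ˢ bin η δ ℓ s j1 j2, cf cc Λ i
      = (P.card : ℝ) * (cc / Λ) * ∑ j ∈ bin η δ ℓ s j1 j2, 1 / ((j : ℝ) + 2) := by
    have e1 : ∀ p ∈ P, ∑ j ∈ bin η δ ℓ s j1 j2, cf cc Λ (p, j)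
        = (cc / Λ) * ∑ j ∈ bin η δ ℓ s j1 j2, 1 / ((j : ℝ) + 2) := by
      intro p _
      rw [mul_sum]
      refine sum_congr rfl fun j _ => ?_
      unfold cf
      field_simp
    rw [sum_product, sum_congr rfl e1, sum_const, nsmul_eq_mul]
    ring
  rw [hsum]
  have hη4 : 0 ≤ 1 - 4 * η := by linarith
  have hlog0 : 0 ≤ Real.log ((s + 1 - 2 * η) / (s + 2 * η)) := by
    refine Real.log_nonneg ?_
    rw [le_div_iff₀ (by positivity)]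
    linarith
  have hbs : Real.log ((s + 1 - 2 * η) / (s + 2 * η))
      ≤ ∑ j ∈ bin η δ ℓ s j1 j2, 1 / ((j : ℝ) + 2) := by
    refine bin_sum hδ0 η0 η1 hs2 ℓ3 ?_ ?_
    · rw [le_div_iff₀ (by positivity)]
      have hs2R : (2 : ℝ) ≤ s := by exact_mod_cast hs2
      rw [div_le_iff₀ η0] at ℓ3
      have h1 : 2 * ℓ ≤ s * ℓ := by gcongr
      have h2 : (s + η) * ℓ = s * ℓ + ℓ * η := by ring
      linarith
    · rw [div_lt_iff₀ (by positivity)]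
      have h1 : (s + 1 - η) * ℓ < (J + 4) * ℓ := by
        refine mul_lt_mul_of_pos_right ?_ hℓ0
        linarith
      linarith
  have hcard := cardP_low (Λ := Λ) hδ0 (by linarith : δ ≤ η) (by
    have : (0 : ℝ) ≤ j2 := Nat.cast_nonneg _
    linarith)
  have hccl : (1 - η) ^ 4 * α ^ 2 ≤ cc := by
    calc (1 - η) ^ 4 * α ^ 2 ≤ (1 - δ) ^ 4 * α ^ 2 := by
          have : 0 ≤ 1 - η := by linarith
          gcongr
          linarith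
      _ = ((1 - δ) ^ 4 * α ^ 2) ^ (1 : ℝ) := (Real.rpow_one _).symm
      _ ≤ cc := Real.rpow_le_rpow_of_exponent_ge hδ4 hδ4' hγ1
  calc (1 - 4 * η) * (1 - η) ^ 4 * α ^ 2 * Real.log ((s + 1 - 2 * η) / (s + 2 * η))
      = ((1 - 4 * η) * Λ) * (((1 - η) ^ 4 * α ^ 2) / Λ)
          * Real.log ((s + 1 - 2 * η) / (s + 2 * η)) := by field_simp
    _ ≤ (P.card : ℝ) * (cc / Λ) * ∑ j ∈ bin η δ ℓ s j1 j2, 1 / ((j : ℝ) + 2) := by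
        gcongr

theorem mean_up' [IsProbabilityMeasure Q] (nf : NF κ h η δ A J α ℓ j1 j2 Λ)
    (hM : MgfB Q H (Λ * L) lam (1 / (1 + α) + κ * α ^ 2) err)
    (hB : BaseDet Kk (Λ * L) d0 L (Icc ⌈δ * Λ⌉₊ ⌊(1 - 2 * δ) * Λ⌋₊ ×ˢ Ico j1 j2) W φ)
    (hL : 0 < L) (herr : err ≤ δ) :
    ∑ i ∈ Icc ⌈δ * Λ⌉₊ ⌊(1 - 2 * δ) * Λ⌋₊ ×ˢ Ico j1 j2,
        cf (((1 - δ) ^ 4 * α ^ 2) ^ (1 / (1 + α))) Λ i
          * Mg Q H (Λ * L) (fun x => 1 / (1 + α) * φ i x) ≤ 20 * (J + 4) * α ^ 2 := by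
  classical
  obtain ⟨κ0, κ2, h0, η0, η1, δη, α0, α1, αη, ℓ1, ℓ2, ℓ3, j1a, j1b, j2a, j2b, Λ1, Λ2, Λ3, g1, g0,
    rb, rc1, rc2⟩ := nf
  clear rb rc1 rc2 g1 g0 Λ1 Λ2
  have hJ : (0 : ℝ) ≤ J := Nat.cast_nonneg _
  obtain ⟨hδ0, hδη, hδ1, hγ0, hγ1, hγm, hγm2, hδ4, hδ4', h1γ⟩ :=
    nf_basic hJ κ0 κ2 η0 η1 δη α0 α1
  have hℓ0 : 0 < ℓ := lt_of_lt_of_le (by positivity) ℓ3
  set P : Finset ℕ := Icc ⌈δ * Λ⌉₊ ⌊(1 - 2 * δ) * Λ⌋₊ with hP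
  have hΛnn : (0 : ℝ) ≤ Λ := Nat.cast_nonneg _
  have hPle : ∀ p ∈ P, (p : ℝ) ≤ (1 - 2 * δ) * Λ := by
    intro p hp
    rw [hP, mem_Icc] at hp
    have : 0 ≤ (1 - 2 * δ) * (Λ : ℝ) := mul_nonneg (by linarith) hΛnn
    exact (Nat.le_floor_iff this).1 hp.2
  obtain ⟨hj1, hΛ1', hgeo, hPr⟩ := nf_geo (j1 := j1) (j2 := j2) hδ0 hδ1 hℓ0 j1a Λ3 hPle hL
  set γ : ℝ := 1 / (1 + α) with hγ
  set m : ℝ := γ + κ * α ^ 2 with hm
  set cc : ℝ := ((1 - δ) ^ 4 * α ^ 2) ^ γ with hcc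
  have hγ0' : 0 ≤ γ := by linarith
  have hΛ0 : (0 : ℝ) < Λ := by linarith
  have hΛ : 0 < Λ := by exact_mod_cast hΛ0
  have hcc0 : 0 < cc := Real.rpow_pos_of_pos hδ4 _
  have hterm : ∀ i ∈ P ×ˢ Ico j1 j2, cf cc Λ i * Mg Q H (Λ * L) (fun x => γ * φ i x)
      ≤ cf cc Λ i * 2 := by
    intro i hiF
    refine mul_le_mul_of_nonneg_left ?_ (cf_pos hcc0 hΛ i).le
    have e1 := qf_up (γ := γ) (m := m) hB hiF hγ0' hγm
    have e2 := hM.up (fun x => γ * φ i x) (fun x => mul_nonneg hγ0' (hB.nn i hiF x))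
      (fun x => by
        have e1 := hB.nn i hiF x
        have e3 := hB.le1 i hiF x
        calc γ * φ i x ≤ 1 * 1 := by gcongr
          _ ≤ 2 := by norm_num)
    refine e2.trans ?_
    have e3 : lam ^ 2 * qf m (Λ * L) (fun x => γ * φ i x) ≤ 0 :=
      mul_nonpos_of_nonneg_of_nonpos (sq_nonneg _) e1
    have e4 : Real.exp (1 / 100) ≤ 2 := by
      have := Real.abs_exp_sub_one_sub_id_le (x := (1 / 100 : ℝ)) (by norm_num [abs_of_pos])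
      have := (abs_le.1 this).2
      norm_num at this
      linarith
    refine le_trans (Real.exp_le_exp.2 ?_) e4
    linarith
  refine (sum_le_sum hterm).trans ?_
  have hj12 : j1 ≤ j2 := by
    have h1 : δ * (j1 : ℝ) ≤ δ * j2 := by
      have h2 : 8 * δ ≤ ℓ * η := by rwa [div_le_iff₀ η0] at ℓ3
      have h3 : ℓ * η ≤ ℓ * (1 / 8) := by gcongr
      have h4 : (J + 4) * ℓ = J * ℓ + 4 * ℓ := by ring
      have h5 : 0 ≤ J * ℓ := by positivity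
      linarith
    have : (j1 : ℝ) ≤ j2 := le_of_mul_le_mul_left h1 hδ0
    exact_mod_cast this
  have hj1R : (0 : ℝ) < j1 := by exact_mod_cast hj1
  have hsum : ∑ i ∈ P ×ˢ Ico j1 j2, cf cc Λ i * 2
      = 2 * ((P.card : ℝ) * (cc / Λ)) * ∑ j ∈ Ico j1 j2, 1 / ((j : ℝ) + 2) := by
    have e1 : ∀ p ∈ P, ∑ j ∈ Ico j1 j2, cf cc Λ (p, j) * 2
        = (2 * (cc / Λ)) * ∑ j ∈ Ico j1 j2, 1 / ((j : ℝ) + 2) := by
      intro p _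
      rw [mul_sum]
      refine sum_congr rfl fun j _ => ?_
      unfold cf
      field_simp
    rw [sum_product, sum_congr rfl e1, sum_const, nsmul_eq_mul]
    ring
  rw [hsum]
  have hharm : ∑ j ∈ Ico j1 j2, 1 / ((j : ℝ) + 2) ≤ J + 4 := by
    refine (harm_up hj1 hj12).trans ?_
    have h1 : (j2 : ℝ) / j1 ≤ J + 4 := by
      rw [div_le_iff₀ hj1R]
      have h2 : 8 * δ ≤ ℓ * η := by rwa [div_le_iff₀ η0] at ℓ3
      have h3 : ℓ * η ≤ ℓ * (1 / 8) := by gcongr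
      have h4 : 2 * (δ * (j2 : ℝ)) ≤ 2 * (δ * ((J + 4) * j1)) := by
        have h5 : (J + 4) * ℓ ≤ (J + 4) * (δ * j1) := by gcongr
        have h6 : (J + 4) * ℓ = J * ℓ + 4 * ℓ := by ring
        have h7 : 0 ≤ J * ℓ := by positivity
        have h8 : 2 * (δ * ((J + 4) * (j1 : ℝ))) = 2 * ((J + 4) * (δ * j1)) := by ring
        linarith
      have h9 : δ * (j2 : ℝ) ≤ δ * ((J + 4) * j1) := by linarith
      exact le_of_mul_le_mul_left h9 hδ0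
    have h0 : 0 < (j2 : ℝ) / j1 := by
      have : (0 : ℝ) < j2 := by
        have : (j1 : ℝ) ≤ j2 := by exact_mod_cast hj12
        linarith
      positivity
    exact (Real.log_le_sub_one_of_pos h0).trans (by linarith)
  have hcard : (P.card : ℝ) ≤ Λ := by
    have := card_le_card hPr
    rw [card_range] at this
    exact_mod_cast this
  have hccu : cc ≤ 9 / 4 * α ^ 2 := by
    have hα2 : 0 < α ^ 2 := by positivity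
    have e1 : cc ≤ (α ^ 2) ^ γ := by
      rw [hcc]
      refine Real.rpow_le_rpow hδ4.le ?_ hγ0'
      have : (1 - δ) ^ 4 ≤ 1 := pow_le_one₀ (by linarith) (by linarith)
      calc (1 - δ) ^ 4 * α ^ 2 ≤ 1 * α ^ 2 := by gcongr
        _ = α ^ 2 := one_mul _
    have e2 : (α ^ 2) ^ γ ≤ α ^ 2 * (α ^ 2) ^ (-α) := by
      rw [mul_comm, ← Real.rpow_add_one hα2.ne']
      refine Real.rpow_le_rpow_of_exponent_ge hα2 ?_ (by linarith)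
      have : α ^ 2 ≤ (1 / 4) ^ 2 := by gcongr
      linarith
    have e3 : (α ^ 2) ^ (-α) = (α ^ (-α)) ^ 2 := by
      rw [← Real.rpow_natCast, ← Real.rpow_mul α0.le, ← Real.rpow_natCast, ← Real.rpow_mul α0.le]
      congr 1
      push_cast; ring
    have e4 : (α ^ (-α)) ^ 2 ≤ (3 / 2) ^ 2 := by
      have := rpow_neg_self α0
      have h5 : 0 ≤ α ^ (-α) := by positivity
      gcongr
    calc cc ≤ α ^ 2 * (α ^ 2) ^ (-α) := e1.trans e2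
      _ ≤ α ^ 2 * (3 / 2) ^ 2 := by rw [e3]; gcongr
      _ = 9 / 4 * α ^ 2 := by ring
  calc 2 * ((P.card : ℝ) * (cc / Λ)) * ∑ j ∈ Ico j1 j2, 1 / ((j : ℝ) + 2)
      ≤ 2 * (Λ * ((9 / 4 * α ^ 2) / Λ)) * (J + 4) := by
        have : 0 ≤ ∑ j ∈ Ico j1 j2, 1 / ((j : ℝ) + 2) := sum_nonneg fun j _ => by positivity
        gcongr
    _ = 9 / 2 * ((J + 4) * α ^ 2) := by field_simp; ring
    _ ≤ 20 * (J + 4) * α ^ 2 := by
        have : 0 ≤ (J + 4) * α ^ 2 := by positivity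
        linarith

end Win

end Pool.Agent.Cop

end
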