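import Mathlib
import Pool.Agent.Work.MP_cceb86_pr.LBe

open Finset MeasureTheory ProbabilityTheory Filter
open scoped ENNReal

noncomputable section

namespace Pool.Agent.Cop

/-- the large parameter conditions -/
lemma nfx_large {h η δ A J4 : ℝ} (hh : 0 < h) (he : 0 < η) (he1 : η ≤ 1 / 8) (hA : 0 < A)
    (hδ : 0 < δ) (hJ : 4 ≤ J4) : ∃ X : ℝ, 8 ≤ X ∧ ∀ x : ℝ, X ≤ x →
      1 ≤ h * x ^ 2 ∧ A * x + 1 ≤ h * x ^ 2 / 8 ∧
      J4 * (h * x ^ 2 + 1) / (2 * δ) + 3 ≤ δ * ((A * x) ^ 3 / 6) ∧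
      Real.exp (-(δ * x / 4)) * (2 * ((J4 * (h + 1) / (2 * δ) + 1) * x ^ 2) ^ 2
        * Real.exp (2 * (J4 * (h + 1) + 1) + 1) * (2 / (1 - Real.exp (-(δ / 8))) + 1)) ≤ η / 3 ∧
      4 * ((J4 * (h + 1) / (2 * δ) + 1) + 2) * x ^ 4 ≤ Real.exp x ∧
      -(δ * (η / 2) * (h * x ^ 2)) + δ * ((A + 1) * x) + 1 ≤ Real.log (η / 3) ∧
      1 / η ≤ x ∧ 12 * J4 / η ≤ x := by
  have hlog : Real.log (η / 3) < 0 := Real.log_neg (by positivity) (by linarith)
  have hC0 : 0 < J4 * (h + 1) / (2 * δ) + 1 := by positivity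
  have e4 : ∀ᶠ x : ℝ in atTop, Real.exp (-(δ * x / 4))
      * (2 * ((J4 * (h + 1) / (2 * δ) + 1) * x ^ 2) ^ 2
        * Real.exp (2 * (J4 * (h + 1) + 1) + 1) * (2 / (1 - Real.exp (-(δ / 8))) + 1)) ≤ η / 3 := by
    have t1 := (Real.tendsto_pow_mul_exp_neg_atTop_nhds_zero 4).comp
      (tendsto_id.const_mul_atTop (show (0 : ℝ) < δ / 4 by positivity))
    have t2 := t1.const_mul ((δ / 4)⁻¹ ^ 4 * (2 * (J4 * (h + 1) / (2 * δ) + 1) ^ 2
      * Real.exp (2 * (J4 * (h + 1) + 1) + 1) * (2 / (1 - Real.exp (-(δ / 8))) + 1)))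
    rw [mul_zero] at t2
    have t3 := t2.eventually (ge_mem_nhds (show (0 : ℝ) < η / 3 by positivity))
    filter_upwards [t3] with x hx
    refine le_trans (le_of_eq ?_) hx
    simp only [Function.comp, id]
    rw [show -(δ * x / 4) = -(δ / 4 * x) by ring]
    have hd : δ / 4 ≠ 0 := by positivity
    field_simp
  have e5 : ∀ᶠ x : ℝ in atTop,
      4 * ((J4 * (h + 1) / (2 * δ) + 1) + 2) * x ^ 4 ≤ Real.exp x := by
    have t1 := (Real.tendsto_pow_mul_exp_neg_atTop_nhds_zero 4).const_mul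
      (4 * ((J4 * (h + 1) / (2 * δ) + 1) + 2))
    rw [mul_zero] at t1
    have t3 := t1.eventually (ge_mem_nhds (show (0 : ℝ) < 1 by norm_num))
    filter_upwards [t3] with x hx
    have h0 : 0 < Real.exp x := Real.exp_pos x
    calc 4 * ((J4 * (h + 1) / (2 * δ) + 1) + 2) * x ^ 4
        = 4 * ((J4 * (h + 1) / (2 * δ) + 1) + 2) * (x ^ 4 * Real.exp (-x)) * Real.exp x := by
          have h1 : Real.exp (-x) * Real.exp x = 1 := by rw [← Real.exp_add]; simp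
          linear_combination (-(4 * ((J4 * (h + 1) / (2 * δ) + 1) + 2) * x ^ 4)) * h1
      _ ≤ 1 * Real.exp x := by gcongr
      _ = _ := one_mul _
  have b1 := eventually_ge_atTop (8 : ℝ)
  have b2 := eventually_ge_atTop (1 / h)
  have b3 := eventually_ge_atTop (8 * (A + 1) / h)
  have b4 := eventually_ge_atTop ((J4 * (h + 1) / (2 * δ) + 3) / (δ * A ^ 3 / 6))
  have b5 := eventually_ge_atTop ((δ * (A + 1) + 1 - Real.log (η / 3)) / (δ * (η / 2) * h))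
  have b6 := eventually_ge_atTop (1 / η)
  have b7 := eventually_ge_atTop (12 * J4 / η)
  obtain ⟨X, hX⟩ := eventually_atTop.1 (((((((e4.and e5).and b1).and b2).and b3).and b4).and
    b5).and (b6.and b7))
  refine ⟨max X 8, le_max_right _ _, fun x hx => ?_⟩
  obtain ⟨⟨⟨⟨⟨⟨⟨c4, c5⟩, c8⟩, ch⟩, cA⟩, cJ⟩, cl⟩, ce, c12⟩ := hX x (le_trans (le_max_left _ _) hx)
  have hx0 : 0 < x := by linarith
  have hx1 : (1 : ℝ) ≤ x := by linarith
  have hx2 : x ≤ x ^ 2 := le_self_pow₀ hx1 two_ne_zero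
  refine ⟨?_, ?_, ?_, c4, c5, ?_, ce, c12⟩
  · rw [div_le_iff₀ hh] at ch
    calc 1 ≤ x * h := ch
      _ ≤ x ^ 2 * h := by gcongr
      _ = h * x ^ 2 := by ring
  · rw [div_le_iff₀ hh] at cA
    have : 8 * (A + 1) * x ≤ x * h * x := by gcongr
    have h2 : 8 * (A * x + 1) ≤ 8 * (A + 1) * x := by linarith
    have h3 : x * h * x = h * x ^ 2 := by ring
    linarith
  · rw [div_le_iff₀ (by positivity)] at cJ
    have e1 : (J4 * (h + 1) / (2 * δ) + 3) * x ^ 2 ≤ x * (δ * A ^ 3 / 6) * x ^ 2 := by gcongr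
    have e2 : J4 * (h * x ^ 2 + 1) / (2 * δ) + 3 ≤ (J4 * (h + 1) / (2 * δ) + 3) * x ^ 2 := by
      have : (1 : ℝ) ≤ x ^ 2 := by linarith
      have e3 : J4 * (h * x ^ 2 + 1) / (2 * δ) ≤ J4 * (h * x ^ 2 + x ^ 2) / (2 * δ) := by gcongr
      calc J4 * (h * x ^ 2 + 1) / (2 * δ) + 3 ≤ J4 * (h * x ^ 2 + x ^ 2) / (2 * δ) + 3 * x ^ 2 := by
            linarith
        _ = _ := by ring
    calc _ ≤ _ := e2
      _ ≤ _ := e1
      _ = _ := by ring
  · rw [div_le_iff₀ (by positivity)] at cl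
    have e1 : (δ * (A + 1) + 1 - Real.log (η / 3)) * x ≤ x * (δ * (η / 2) * h) * x := by gcongr
    have e2 : (1 - Real.log (η / 3)) * 1 ≤ (1 - Real.log (η / 3)) * x := by
      gcongr; linarith
    have e3 : (δ * (A + 1) + 1 - Real.log (η / 3)) * x =
        δ * ((A + 1) * x) + (1 - Real.log (η / 3)) * x := by ring
    have e4 : x * (δ * (η / 2) * h) * x = δ * (η / 2) * (h * x ^ 2) := by ring
    linarith

lemma nfx_a {a : ℝ} (h0 : 0 < a) (h1 : a ≤ 1 / 8) : a ^ 2 ≤ a := by nlinarith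

lemma nfx_b {E e : ℝ} (h0 : 0 < E) (h1 : 2 ≤ e) : 2 * E ≤ E * e := by nlinarith

lemma nfx_c {x : ℝ} (h : 8 ≤ x) : 1 ≤ x ^ 2 := by nlinarith

lemma nfx_d {a : ℝ} : (1 - a) * (1 + a) ≤ 1 := by nlinarith [sq_nonneg a]

lemma nfx_e {a : ℝ} (h0 : 0 < a) (h1 : a ≤ 1 / 8) : 2 * a ^ 2 ≤ a := by nlinarith

lemma nfx_f {a D : ℝ} (h0 : 0 < a) (h2 : 0 < D) (h3 : D ≤ 1 / 100) :
    1 - 2 * a - D ≤ (1 - D) * (1 - a) ^ 2 := by nlinarith [sq_nonneg a, mul_pos h0 h2]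

lemma nfx_g {γ D u : ℝ} (g1 : (1 / 2) * (99 / 100) ≤ γ * (1 - D)) (g2 : u ≤ 2 * (1 / 8) ^ 2) :
    0 ≤ γ * (2 - D) - (γ + u) := by nlinarith

lemma nfx_h {l eta D : ℝ} (hl : 1 ≤ l) (he : 0 < eta) (h16 : 16 * D ≤ eta) :
    8 * D ≤ l * eta := by nlinarith

lemma nfx_i {D : ℝ} (h2 : 0 < D) (h3 : D ≤ 1 / 100) : 2 * D ≤ 1 := by linarith

lemma nfx_j {a : ℝ} (h0 : 0 < a) (h1 : a ≤ 1 / 8) : a ^ 2 ≤ 1 := by nlinarith

theorem nf_exists {kap h eta A : ℝ} (k0 : 0 < kap) (k2 : kap < 2) (hh : 0 < h) (he : 0 < eta)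
    (he1 : eta ≤ 1 / 8) (hA : 0 < A) (J : ℕ) : ∃ a0 : ℝ, 0 < a0 ∧ ∀ alpha : ℝ, 0 < alpha →
      alpha < a0 → ∀ delta : ℝ, delta = eta / (4 * ((J : ℝ) + 4)) → ∀ l : ℝ,
      l = Real.log (⌈Real.exp (h / alpha ^ 2)⌉₊ : ℕ) → 2 ≤ ⌈Real.exp (h / alpha ^ 2)⌉₊ ∧
      NF kap h eta delta A J alpha l ⌈l / delta⌉₊ ⌈((J : ℝ) + 4) * l / (2 * delta)⌉₊
        ⌈Real.exp (A / alpha)⌉₊ := by
  set D : ℝ := eta / (4 * ((J : ℝ) + 4)) with hD
  have hJ0 : (0 : ℝ) ≤ J := Nat.cast_nonneg J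
  have hJ4 : (4 : ℝ) ≤ (J : ℝ) + 4 := by linarith
  have hD0 : 0 < D := by positivity
  have hDη : 4 * ((J : ℝ) + 4) * D = eta := by rw [hD]; field_simp
  have hDη16 : 16 * D ≤ eta := by
    have : 16 * D ≤ 4 * ((J : ℝ) + 4) * D := by gcongr; linarith
    linarith
  have hD100 : D ≤ 1 / 100 := by linarith
  obtain ⟨X, hX8, hX⟩ := nfx_large (J4 := (J : ℝ) + 4) hh he he1 hA hD0 hJ4
  refine ⟨1 / X, by positivity, fun alpha ha0 ha delta hd l hl => ?_⟩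
  subst hd
  obtain ⟨x, hxdef⟩ : ∃ x : ℝ, x = 1 / alpha := ⟨_, rfl⟩
  have hax : alpha = 1 / x := by rw [hxdef]; simp
  have hXx : X ≤ x := by
    rw [hxdef, le_div_iff₀ ha0]
    rw [lt_div_iff₀ (by linarith)] at ha
    linarith
  have hx0 : 0 < x := by linarith
  have hx8 : 8 ≤ x := by linarith
  have haxm : alpha * x = 1 := by rw [hax]; field_simp
  obtain ⟨c1, c2, c3, c4, c5, c6, c7, c8⟩ := hX x hXx
  have hα8 : alpha ≤ 1 / 8 := by
    rw [hax]; exact one_div_le_one_div_of_le (by norm_num) hx8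
  have hαη : alpha ≤ eta := by
    have h1 : 1 ≤ x * eta := by rwa [div_le_iff₀ he] at c7
    calc alpha = alpha * 1 := (mul_one _).symm
      _ ≤ alpha * (x * eta) := by gcongr
      _ = (alpha * x) * eta := by ring
      _ = eta := by rw [haxm, one_mul]
  have hαJ : 12 * ((J : ℝ) + 4) * alpha ≤ eta := by
    have h1 : 12 * ((J : ℝ) + 4) ≤ x * eta := by rwa [div_le_iff₀ he] at c8
    calc 12 * ((J : ℝ) + 4) * alpha ≤ (x * eta) * alpha := by gcongr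
      _ = (alpha * x) * eta := by ring
      _ = eta := by rw [haxm, one_mul]
  have hα2 : alpha ^ 2 ≤ alpha := nfx_a ha0 hα8
  have hhx : h / alpha ^ 2 = h * x ^ 2 := by rw [hax]; field_simp
  have hAx : A / alpha = A * x := by rw [hax]; field_simp
  have hDx : ∀ c : ℝ, c / alpha = c * x := fun c => by rw [hax]; field_simp
  rw [hhx] at hl ⊢
  rw [hAx]
  set n0 : ℕ := ⌈Real.exp (h * x ^ 2)⌉₊ with hn0
  have hn1 : Real.exp (h * x ^ 2) ≤ n0 := Nat.le_ceil _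
  have hn2 : (n0 : ℝ) ≤ 2 * Real.exp (h * x ^ 2) := by
    have := (Nat.ceil_lt_add_one (Real.exp_pos (h * x ^ 2)).le).le
    have h1 : (1 : ℝ) ≤ Real.exp (h * x ^ 2) := Real.one_le_exp (by linarith)
    rw [← hn0] at this; linarith
  have hnpos : (0 : ℝ) < n0 := lt_of_lt_of_le (Real.exp_pos _) hn1
  have hn3 : 2 ≤ n0 := by
    have : (2 : ℝ) ≤ n0 := by
      have h2 := Real.add_one_le_exp (h * x ^ 2)
      linarith
    exact_mod_cast this
  have hl1 : h * x ^ 2 ≤ l := by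
    rw [hl]; exact (Real.le_log_iff_exp_le hnpos).2 hn1
  have hl2 : l ≤ h * x ^ 2 + 1 := by
    rw [hl, Real.log_le_iff_le_exp hnpos, Real.exp_add]
    have h2 := Real.add_one_le_exp (1 : ℝ)
    have : 2 * Real.exp (h * x ^ 2) ≤ Real.exp (h * x ^ 2) * Real.exp 1 :=
      nfx_b (Real.exp_pos _) (by linarith)
    linarith
  have hl0 : 1 ≤ l := by linarith
  have hx2α : x ^ 2 * alpha ^ 2 = 1 := by
    rw [← mul_pow, mul_comm, haxm, one_pow]
  have hlα1 : h ≤ l * alpha ^ 2 := by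
    calc h = h * x ^ 2 * alpha ^ 2 := by rw [mul_assoc, hx2α, mul_one]
      _ ≤ l * alpha ^ 2 := by gcongr
  have hlα2 : l * alpha ^ 2 ≤ h + eta := by
    calc l * alpha ^ 2 ≤ (h * x ^ 2 + 1) * alpha ^ 2 := by gcongr
      _ = h * (x ^ 2 * alpha ^ 2) + alpha ^ 2 := by ring
      _ = h + alpha ^ 2 := by rw [hx2α, mul_one]
      _ ≤ h + eta := by linarith
  set j2 : ℕ := ⌈((J : ℝ) + 4) * l / (2 * D)⌉₊ with hj2
  have hj2a : ((J : ℝ) + 4) * l / (2 * D) ≤ j2 := Nat.le_ceil _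
  have hj2b : (j2 : ℝ) ≤ ((J : ℝ) + 4) * l / (2 * D) + 1 :=
    (Nat.ceil_lt_add_one (by positivity)).le
  have hj2c : (j2 : ℝ) ≤ (((J : ℝ) + 4) * (h + 1) / (2 * D) + 1) * x ^ 2 := by
    have hx1 : (1 : ℝ) ≤ x ^ 2 := nfx_c hx8
    have e1 : ((J : ℝ) + 4) * l / (2 * D) ≤ ((J : ℝ) + 4) * (h * x ^ 2 + x ^ 2) / (2 * D) := by
      gcongr; linarith
    calc (j2 : ℝ) ≤ ((J : ℝ) + 4) * l / (2 * D) + 1 := hj2b
      _ ≤ ((J : ℝ) + 4) * (h * x ^ 2 + x ^ 2) / (2 * D) + x ^ 2 := by linarith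
      _ = _ := by ring
  set Λ : ℕ := ⌈Real.exp (A * x)⌉₊ with hΛ
  have hΛ1 : Real.exp (A * x) ≤ Λ := Nat.le_ceil _
  have hΛ2 : (Λ : ℝ) ≤ 2 * Real.exp (A * x) := by
    have := (Nat.ceil_lt_add_one (Real.exp_pos (A * x)).le).le
    have h1 : (1 : ℝ) ≤ Real.exp (A * x) := Real.one_le_exp (by positivity)
    rw [← hΛ] at this; linarith
  have hΛpos : (0 : ℝ) < Λ := lt_of_lt_of_le (Real.exp_pos _) hΛ1
  have hα1 : 0 < 1 + alpha := by linarith
  have hγ1 : 1 / (1 + alpha) ≤ 1 := by rw [div_le_one hα1]; linarith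
  have hγ0 : 1 - alpha ≤ 1 / (1 + alpha) := by
    rw [le_div_iff₀ hα1]; exact nfx_d
  have hγh : 1 / 2 ≤ 1 / (1 + alpha) := by linarith
  have hγg : 1 - 3 * alpha - D ≤ 1 / (1 + alpha)
      * (1 / (1 + alpha) * (2 - D) - (1 / (1 + alpha) + kap * alpha ^ 2)) := by
    set γ : ℝ := 1 / (1 + alpha) with hγ
    have g0 : 0 ≤ 1 - alpha := by linarith
    have g1 : (1 - alpha) ^ 2 ≤ γ ^ 2 := by gcongr
    have g2 : (1 - D) * (1 - alpha) ^ 2 ≤ (1 - D) * γ ^ 2 := by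
      gcongr; linarith
    have g3 : γ * (kap * alpha ^ 2) ≤ 1 * (2 * alpha ^ 2) := by gcongr
    have g4 : 2 * alpha ^ 2 ≤ alpha := nfx_e ha0 hα8
    have g5 : 1 - 2 * alpha - D ≤ (1 - D) * (1 - alpha) ^ 2 := nfx_f ha0 hD0 hD100
    calc 1 - 3 * alpha - D ≤ (1 - D) * γ ^ 2 - γ * (kap * alpha ^ 2) := by linarith
      _ = _ := by ring
  have hg0 : 0 ≤ 1 / (1 + alpha) * (2 - D) - (1 / (1 + alpha) + kap * alpha ^ 2) := by
    set γ : ℝ := 1 / (1 + alpha) with hγ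
    have g1 : (1 / 2) * (99 / 100) ≤ γ * (1 - D) := by gcongr; linarith
    have g2 : kap * alpha ^ 2 ≤ 2 * (1 / 8) ^ 2 := by gcongr
    exact nfx_g g1 g2
  have hc6 : ∀ y : ℝ, y ≤ (A + 1) * x →
      Real.exp (-(D * (eta / 2) * l) + D * y + 1) ≤ eta / 3 := by
    intro y hy
    rw [← Real.le_log_iff_exp_le (by positivity)]
    refine le_trans ?_ c6
    gcongr
  refine ⟨hn3, ?_⟩
  refine
  { κ0 := k0
    κ2 := k2
    h0 := hh
    η0 := he
    η1 := he1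
    δη := hDη
    α0 := ha0
    α1 := by linarith
    αη := by linarith
    ℓ1 := hlα1
    ℓ2 := hlα2
    ℓ3 := ?_
    j1a := ?_
    j1b := ?_
    j2a := ?_
    j2b := ?_
    Λ1 := ?_
    Λ2 := ?_
    Λ3 := ?_
    g1 := ?_
    g0 := hg0
    rb := ?_
    rc1 := ?_
    rc2 := ?_ }
  · rw [div_le_iff₀ he]
    exact nfx_h hl0 he hDη16
  · have := Nat.le_ceil (l / D)
    rw [div_le_iff₀ hD0] at this
    linarith
  · have := (Nat.ceil_lt_add_one (show 0 ≤ l / D by positivity)).le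
    calc D * (⌈l / D⌉₊ : ℝ) ≤ D * (l / D + 1) := by gcongr
      _ = l + D := by field_simp
  · rw [div_le_iff₀ (by positivity)] at hj2a
    linarith
  · calc 2 * D * (j2 : ℝ) ≤ 2 * D * (((J : ℝ) + 4) * l / (2 * D) + 1) := by gcongr
      _ = _ := by field_simp
  · rw [hAx]; exact hΛ1
  · calc (Λ : ℝ) * Real.exp (-(l / 8)) ≤ (2 * Real.exp (A * x)) * Real.exp (-(h * x ^ 2 / 8)) := by
          gcongr
      _ ≤ (Real.exp 1 * Real.exp (A * x)) * Real.exp (-(h * x ^ 2 / 8)) := by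
          gcongr
          have := Real.add_one_le_exp (1 : ℝ)
          linarith
      _ = Real.exp (A * x + 1 - h * x ^ 2 / 8) := by
          rw [← Real.exp_add, ← Real.exp_add]; ring_nf
      _ ≤ Real.exp 0 := by
          apply Real.exp_le_exp.2; linarith
      _ = 1 := Real.exp_zero
  · have e1 : (A * x) ^ 3 / 6 ≤ Real.exp (A * x) := by
      have := Real.pow_div_factorial_le_exp (A * x) (by positivity) 3
      simpa [Nat.factorial] using this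
    calc (j2 : ℝ) + 2 ≤ ((J : ℝ) + 4) * l / (2 * D) + 1 + 2 := by linarith
      _ ≤ ((J : ℝ) + 4) * (h * x ^ 2 + 1) / (2 * D) + 1 + 2 := by gcongr
      _ = ((J : ℝ) + 4) * (h * x ^ 2 + 1) / (2 * D) + 3 := by ring
      _ ≤ D * ((A * x) ^ 3 / 6) := c3
      _ ≤ D * Λ := by gcongr; linarith
  · intro s hs0 hs
    have e0 : 0 ≤ s + eta := by linarith
    have e1 : (s + eta) * (1 - 3 * alpha - D) ≤ (s + eta) * (1 / (1 + alpha)
        * (1 / (1 + alpha) * (2 - D) - (1 / (1 + alpha) + kap * alpha ^ 2))) := by gcongr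
    have e2 : (s + eta) * (3 * alpha + D) ≤ ((J : ℝ) + 4) * (3 * alpha + D) :=
      mul_le_mul_of_nonneg_right (by linarith) (by positivity)
    have e3 : ((J : ℝ) + 4) * (3 * alpha + D) ≤ eta / 2 := by linarith
    linarith
  · rw [hDx]
    refine le_trans ?_ c4
    have hj20 : (0 : ℝ) ≤ j2 := Nat.cast_nonneg _
    have f1 : -(1 / (1 + alpha) * (D * x) / 2) ≤ -(D * x / 4) := by
      have : 1 / 2 * (D * x) ≤ 1 / (1 + alpha) * (D * x) := by gcongr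
      linarith
    have f2 : 2 * D * kap * alpha ^ 2 * (j2 : ℝ) + 1 ≤ 2 * (((J : ℝ) + 4) * (h + 1) + 1) + 1 := by
      have i1 : 2 * D * (j2 : ℝ) ≤ ((J : ℝ) + 4) * l + 2 * D := by
        calc 2 * D * (j2 : ℝ) ≤ 2 * D * (((J : ℝ) + 4) * l / (2 * D) + 1) := by gcongr
          _ = _ := by field_simp
      have i2 : 2 * D * (j2 : ℝ) * alpha ^ 2 ≤ (((J : ℝ) + 4) * l + 2 * D) * alpha ^ 2 := by
        gcongr
      have i3 : (((J : ℝ) + 4) * l + 2 * D) * alpha ^ 2 ≤ ((J : ℝ) + 4) * (h + 1) + 1 := by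
        have i4 : ((J : ℝ) + 4) * (l * alpha ^ 2) ≤ ((J : ℝ) + 4) * (h + 1) := by
          gcongr; linarith
        have i5 : 2 * D * alpha ^ 2 ≤ 1 * 1 := by
          have p1 := nfx_i hD0 hD100
          have p2 := nfx_j ha0 hα8
          gcongr
        calc _ = ((J : ℝ) + 4) * (l * alpha ^ 2) + 2 * D * alpha ^ 2 := by ring
          _ ≤ _ := by linarith
      have i6 : 0 ≤ 2 * D * (j2 : ℝ) * alpha ^ 2 := by positivity
      have i7 : kap * (2 * D * (j2 : ℝ) * alpha ^ 2) ≤ 2 * (((J : ℝ) + 4) * (h + 1) + 1) := by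
        calc _ ≤ 2 * (2 * D * (j2 : ℝ) * alpha ^ 2) := by gcongr
          _ ≤ _ := by linarith
      calc _ = kap * (2 * D * (j2 : ℝ) * alpha ^ 2) + 1 := by ring
        _ ≤ _ := by linarith
    have f3 : 0 ≤ 2 / (1 - Real.exp (-(D / 8))) + 1 := by
      have : Real.exp (-(D / 8)) < 1 := by
        rw [Real.exp_lt_one_iff]; linarith
      have : 0 < 1 - Real.exp (-(D / 8)) := by linarith
      positivity
    gcongr
  · refine ⟨(A + 1) * x, ?_, hc6 _ le_rfl⟩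
    have hb0 : 0 < (1 - D) ^ 4 * alpha ^ 2 := by
      have : 0 < 1 - D := by linarith
      positivity
    have hb1 : (1 - D) ^ 4 * alpha ^ 2 ≤ 1 := by
      have : 0 < 1 - D := by linarith
      have h1 : (1 - D) ^ 4 ≤ 1 := pow_le_one₀ this.le (by linarith)
      have h2 : alpha ^ 2 ≤ 1 := by linarith
      exact mul_le_one₀ h1 (by positivity) h2
    have hb2 : (1 / 2) * alpha ^ 2 ≤ (1 - D) ^ 4 * alpha ^ 2 := by
      have h1 : (99 / 100 : ℝ) ^ 4 ≤ (1 - D) ^ 4 := by gcongr; linarith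
      have h2 : (1 / 2 : ℝ) ≤ (99 / 100) ^ 4 := by norm_num
      gcongr; linarith
    have hb3 : (1 / 2) * alpha ^ 2 ≤ ((1 - D) ^ 4 * alpha ^ 2) ^ (1 / (1 + alpha)) := by
      calc _ ≤ (1 - D) ^ 4 * alpha ^ 2 := hb2
        _ = ((1 - D) ^ 4 * alpha ^ 2) ^ (1 : ℝ) := (Real.rpow_one _).symm
        _ ≤ _ := Real.rpow_le_rpow_of_exponent_ge hb0 hb1 hγ1
    rw [le_div_iff₀ (by positivity)]
    refine le_trans ?_ hb3
    have hj : (j2 : ℝ) + 2 ≤ ((((J : ℝ) + 4) * (h + 1) / (2 * D) + 1) + 2) * x ^ 2 := by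
      have hx1 : (1 : ℝ) ≤ x ^ 2 := nfx_c hx8
      linarith
    have hC0 : 0 ≤ ((((J : ℝ) + 4) * (h + 1) / (2 * D) + 1) + 2) := by positivity
    have k1 : 4 * (((J : ℝ) + 4) * (h + 1) / (2 * D) + 1 + 2) * x ^ 4 * Real.exp (-x) ≤ 1 := by
      calc _ ≤ Real.exp x * Real.exp (-x) := by gcongr
        _ = 1 := by rw [← Real.exp_add]; simp
    calc Real.exp (-((A + 1) * x)) * (((j2 : ℝ) + 2) * Λ)
        ≤ Real.exp (-((A + 1) * x)) * ((((((J : ℝ) + 4) * (h + 1) / (2 * D) + 1) + 2) * x ^ 2)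
          * (2 * Real.exp (A * x))) := by gcongr
      _ = (1 / 2) * (4 * (((J : ℝ) + 4) * (h + 1) / (2 * D) + 1 + 2) * x ^ 4 * Real.exp (-x))
          * (1 / x ^ 2) := by
          rw [show -((A + 1) * x) = -(A * x) + -x by ring, Real.exp_add, Real.exp_neg (A * x)]
          have := Real.exp_pos (A * x)
          field_simp
          try ring
      _ ≤ (1 / 2) * 1 * (1 / x ^ 2) := by gcongr
      _ = 1 / 2 * alpha ^ 2 := by rw [hax]; ring
  · rw [hDx]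
    refine hc6 _ ?_
    gcongr
    linarith

end Pool.Agent.Cop

end
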