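import Mathlib
import Pool.Agent.Work.MP_cceb86_pr.LDet
import Pool.Agent.Work.MP_cceb86_pr.LBe
import Pool.Agent.Work.MP_cceb86_pr.LinMgf
import Pool.Agent.Work.MP_cceb86_pr.BlockIid
import Pool.Agent.Work.MP_cceb86_pr.BaseNum
import Pool.Agent.Work.MP_cceb86_pr.LAsm
import Pool.Agent.Work.MP_cceb86_pr.LBf87
import Pool.Agent.Work.MP_cceb86_pr.NFx87

/-!
The base level.
-/

open Finset MeasureTheory ProbabilityTheory Filter Topology
open scoped ENNReal

noncomputable section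

namespace Pool.Agent.Cop

universe u

/-- the value is in the window of `s` -/
def InW (ℓ : ℝ) (s : ℕ) (X : ℝ) : Prop := Real.exp (s * ℓ) ≤ X ∧ X < Real.exp ((s + 1) * ℓ)

lemma InW.uniq {ℓ : ℝ} (hℓ : 0 < ℓ) {s t : ℕ} {X : ℝ} (hs : InW ℓ s X) (ht : InW ℓ t X) :
    s = t := by
  have h1 : Real.exp (s * ℓ) < Real.exp ((t + 1) * ℓ) := hs.1.trans_lt ht.2
  have h2 : Real.exp (t * ℓ) < Real.exp ((s + 1) * ℓ) := ht.1.trans_lt hs.2
  rw [Real.exp_lt_exp] at h1 h2
  have h3 : (s : ℝ) < t + 1 := lt_of_mul_lt_mul_right h1 hℓ.le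
  have h4 : (t : ℝ) < s + 1 := lt_of_mul_lt_mul_right h2 hℓ.le
  have h5 : s < t + 1 := by exact_mod_cast h3
  have h6 : t < s + 1 := by exact_mod_cast h4
  omega

open Classical in
/-- value and label -/
def vl (J : ℕ) (ℓ : ℝ) (X : ℝ) : ℝ≥0∞ × ℕ :=
  (∑ s ∈ Icc 2 (J + 2), if InW ℓ s X then ENNReal.ofReal X else 0,
   ∑ s ∈ Icc 2 (J + 2), if InW ℓ s X then s else 0)

lemma vl_of_in {J : ℕ} {ℓ : ℝ} (hℓ : 0 < ℓ) {s : ℕ} (hs : s ∈ Icc 2 (J + 2)) {X : ℝ}
    (h : InW ℓ s X) : vl J ℓ X = (ENNReal.ofReal X, s) := by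
  classical
  unfold vl
  congr 1
  · rw [sum_eq_single s]
    · rw [if_pos h]
    · intro t _ hts
      rw [if_neg]
      intro ht
      exact hts (ht.uniq hℓ h)
    · exact fun hn => absurd hs hn
  · rw [sum_eq_single s]
    · rw [if_pos h]
    · intro t _ hts
      rw [if_neg]
      intro ht
      exact hts (ht.uniq hℓ h)
    · exact fun hn => absurd hs hn

lemma vl_cases {J : ℕ} {ℓ : ℝ} (hℓ : 0 < ℓ) (X : ℝ) :
    (∃ s ∈ Icc 2 (J + 2), InW ℓ s X ∧ vl J ℓ X = (ENNReal.ofReal X, s)) ∨ vl J ℓ X = (0, 0) := by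
  classical
  by_cases h : ∃ s ∈ Icc 2 (J + 2), InW ℓ s X
  · obtain ⟨s, hs, h⟩ := h
    exact Or.inl ⟨s, hs, h, vl_of_in hℓ hs h⟩
  · right
    push Not at h
    unfold vl
    rw [sum_eq_zero fun s hs => if_neg (h s hs), sum_eq_zero fun s hs => if_neg (h s hs)]

lemma measurableSet_inW (ℓ : ℝ) (s : ℕ) : MeasurableSet {X : ℝ | InW ℓ s X} :=
  (measurableSet_le measurable_const measurable_id).inter
    (measurableSet_lt measurable_id measurable_const)

lemma vl_meas (J : ℕ) (ℓ : ℝ) : Measurable (vl J ℓ) := by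
  classical
  unfold vl
  refine Measurable.prodMk ?_ ?_
  · exact Finset.measurable_sum _ fun s _ =>
      Measurable.ite (measurableSet_inW ℓ s) ENNReal.measurable_ofReal measurable_const
  · exact Finset.measurable_sum _ fun s _ =>
      Measurable.ite (measurableSet_inW ℓ s) measurable_const measurable_const

lemma vl_le (J : ℕ) {ℓ : ℝ} (hℓ : 0 < ℓ) (X : ℝ) : (vl J ℓ X).1 ≤ ENNReal.ofReal X := by
  rcases vl_cases (J := J) hℓ X with ⟨s, _, _, h⟩ | h
  · rw [h]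
  · rw [h]; exact zero_le

/-- domination by the block variable -/
lemma dom_block {Kk : ℕ → ℝ≥0∞} {Λ L d0 : ℕ} {F : Finset (ℕ × ℕ)} {φ : ℕ × ℕ → ℕ → ℝ}
    {δ α c : ℝ} (hδ0 : 0 < δ) (hδ1 : δ < 1) (hα : 0 < α) (hc : 0 < c) (hΛ : 0 < Λ) (hL : 0 < L)
    (hB : BaseDet Kk (Λ * L) d0 L F (fun j => (1 - δ) ^ 3 * (2 * α ^ 2 / c) * (L : ℝ) ^ (1 + α)
              * ((j : ℝ) + 2) ^ (-(1 + α))) φ) (H : ℕ → ℝ) :
    ENNReal.ofReal (XX0 (fun x (v : ℕ → ℝ) => v x) (Λ * L) F
        (cf (((1 - δ) ^ 4 * α ^ 2) ^ (1 / (1 + α))) Λ) φ (1 / (1 + α)) H)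
      ≤ VV (ren (kT Kk (fun i => ENNReal.ofReal (Real.exp (H i))))) (Λ * L) d0
        ((1 - δ) * c / 2) (1 / (1 + α)) (Λ * L) 0 := by
  have hα1 : 0 < 1 + α := by linarith
  have h1δ : 0 < 1 - δ := by linarith
  have hΛR : (0 : ℝ) < Λ := by exact_mod_cast hΛ
  have hLR : (0 : ℝ) < L := by exact_mod_cast hL
  set γ : ℝ := 1 / (1 + α) with hγ
  have hγ0 : 0 < γ := by positivity
  have hγi : 1 / γ = 1 + α := by rw [hγ]; field_simp
  set l0 : ℕ := Λ * L with hl0
  have hl0R : (0 : ℝ) < (l0 : ℝ) := by rw [hl0]; push_cast; positivity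
  set b : ℝ := (1 - δ) ^ 4 * α ^ 2 with hb
  have hb0 : 0 < b := by positivity
  set W : ℕ → ℝ := fun j => (1 - δ) ^ 3 * (2 * α ^ 2 / c) * (L : ℝ) ^ (1 + α)
              * ((j : ℝ) + 2) ^ (-(1 + α)) with hW
  have hlow := hB.low H
  -- the coefficients
  have hcoef : ∀ i : ℕ × ℕ, (1 - δ) * c / 2 * W i.2 = (l0 : ℝ) ^ (1 + α)
      * cf (b ^ γ) Λ i ^ (1 / γ) := by
    intro i
    have hj : (0 : ℝ) < (i.2 : ℝ) + 2 := by positivity
    have e1 : cf (b ^ γ) Λ i ^ (1 / γ) = b / ((((i.2 : ℝ) + 2) * Λ) ^ (1 + α)) := by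
      unfold cf
      rw [Real.div_rpow (by positivity) (by positivity), ← Real.rpow_mul hb0.le,
        mul_one_div_cancel hγ0.ne', Real.rpow_one, hγi]
    rw [e1, hl0]
    push_cast
    simp only [hW]
    rw [Real.mul_rpow hΛR.le hLR.le, Real.mul_rpow hj.le hΛR.le, Real.rpow_neg hj.le, hb]
    have p1 : 0 < (Λ : ℝ) ^ (1 + α) := Real.rpow_pos_of_pos hΛR _
    have p2 : 0 < (L : ℝ) ^ (1 + α) := Real.rpow_pos_of_pos hLR _
    have p3 : 0 < ((i.2 : ℝ) + 2) ^ (1 + α) := Real.rpow_pos_of_pos hj _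
    field_simp
  set SS : ℝ := ∑ i ∈ F, cf (b ^ γ) Λ i ^ (1 / γ) * Real.exp (∑ x ∈ range l0, φ i x * H x)
    with hSS
  have hSS0 : 0 ≤ SS := sum_nonneg fun i _ => by
    have := cf_pos (Λ := Λ) (Real.rpow_pos_of_pos hb0 γ) hΛ i
    positivity
  have h1 : ENNReal.ofReal ((l0 : ℝ) ^ (1 + α) * SS) ≤ ENNReal.ofReal ((1 - δ) * c / 2)
      * Y2 (ren (kT Kk (fun i => ENNReal.ofReal (Real.exp (H i))))) (gs l0 d0 0 l0)
          (gs l0 d0 0 l0) := by
    refine le_trans (le_of_eq ?_) (mul_le_mul_right hlow _)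
    rw [mul_sum, mul_sum, ENNReal.ofReal_sum_of_nonneg]
    · refine sum_congr rfl fun i _ => ?_
      rw [← ENNReal.ofReal_mul (by positivity), ← mul_assoc, ← hcoef i, mul_assoc]
    · intro i _
      have := cf_pos (Λ := Λ) (Real.rpow_pos_of_pos hb0 γ) hΛ i
      positivity
  have h2 : ENNReal.ofReal (l0 * SS ^ γ) ≤ (ENNReal.ofReal ((1 - δ) * c / 2)
      * Y2 (ren (kT Kk (fun i => ENNReal.ofReal (Real.exp (H i))))) (gs l0 d0 0 l0)
          (gs l0 d0 0 l0)) ^ γ := by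
    refine le_trans (le_of_eq ?_) (ENNReal.rpow_le_rpow h1 hγ0.le)
    rw [ENNReal.ofReal_rpow_of_nonneg (by positivity) hγ0.le, Real.mul_rpow (by positivity) hSS0,
      ← Real.rpow_mul hl0R.le]
    have : (1 + α) * γ = 1 := by rw [hγ]; field_simp
    rw [this, Real.rpow_one]
  unfold VV
  rw [zero_mul, zero_add, one_mul]
  rw [ENNReal.le_div_iff_mul_le (Or.inl (by
    have : l0 ≠ 0 := by rw [hl0]; positivity
    exact_mod_cast this)) (Or.inl (by simp))]
  refine le_trans (le_of_eq ?_) h2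
  have e2 : XX0 (fun x (v : ℕ → ℝ) => v x) l0 F (cf (b ^ γ) Λ) φ γ H = SS ^ γ := rfl
  rw [e2, mul_comm, ENNReal.ofReal_mul hl0R.le, ENNReal.ofReal_natCast]

/-- the moment bounds for the disorder -/
lemma mgfB_of {Ω : Type*} [MeasurableSpace Ω] {Q : Measure Ω} {w : ℕ → Ω → ℝ}
    (hw : IsDisorder Q w) : ∃ C : ℝ, 0 ≤ C ∧ ∀ lam m : ℝ, 0 < lam → lam ≤ 1 / 8 → ∀ N : ℕ,
      MgfB Q (fun x om => -2 * lam * (w x om + m * lam)) N lam m (C * lam ^ 3 * N) := by
  obtain ⟨C, hC, HC⟩ := lin_mgf' hw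
  refine ⟨C, hC, fun lam m hlam hlam8 N => ?_⟩
  have hq : ∀ Φ : ℕ → ℝ, ∑ x ∈ range N, (2 * lam ^ 2 * (Φ x) ^ 2 - 2 * lam * (m * lam) * Φ x)
      = lam ^ 2 * qf m N Φ := by
    intro Φ
    unfold qf
    rw [mul_sum]
    exact sum_congr rfl fun x _ => by ring
  constructor
  · intro x
    have := hw.meas x
    fun_prop
  · intro Φ _ _
    have h := lin_integrable hw lam (m * lam) N 0 Φ
    simpa [Lf] using h
  · intro Φ h0 h2
    have h := (HC lam (m * lam) hlam hlam8 N 0 Φ h0 h2).1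
    rw [hq] at h
    simpa [Mg, Lf] using h
  · intro Φ h0 h2
    have h := (HC lam (m * lam) hlam hlam8 N 0 Φ h0 h2).2
    rw [hq] at h
    simpa [Mg, Lf] using h

/-- **The base level.** -/
theorem base_lev {κ h d : ℝ} {J : ℕ} (hκ0 : 0 < κ) (hκ2 : κ < 2) (hh : 0 < h) (hd0 : 0 < d)
    (hd1 : d < 1) : BaseLevS.{u} κ h d J := by
  classical
  obtain ⟨η, hη0, hη1, Hfin⟩ := final_const hκ0 hh hd0 hd1 J
  have hJ : (0 : ℝ) ≤ J := Nat.cast_nonneg _
  set δ : ℝ := η / (4 * ((J : ℝ) + 4)) with hδ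
  have hδ0 : 0 < δ := by positivity
  have hδη : δ ≤ η / 16 := by
    rw [hδ]
    refine div_le_div_of_nonneg_left hη0.le (by norm_num) (by linarith)
  have hδ1 : δ < 1 := by linarith
  obtain ⟨a1, ha1, A, hA, Hdet⟩ := base_det hδ0 hδ1
  obtain ⟨a2, ha2, Hnf⟩ := nf_exists hκ0 hκ2 hh hη0 hη1 hA J
  refine ⟨min a1 a2, by positivity, 20 * (J + 4), by positivity, ?_⟩
  intro α hα hαa c hc K hK Ω _ Q w hw
  have := hw.prob
  obtain ⟨hn2, nf⟩ := Hnf α hα (hαa.trans_le (min_le_right _ _)) δ rfl _ rfl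
  set n : ℕ := ⌈Real.exp (h / α ^ 2)⌉₊ with hn
  set ℓ : ℝ := Real.log n with hℓ
  set j1 : ℕ := ⌈ℓ / δ⌉₊ with hj1
  set j2 : ℕ := ⌈((J : ℝ) + 4) * ℓ / (2 * δ)⌉₊ with hj2
  set Λ : ℕ := ⌈Real.exp (A / α)⌉₊ with hΛ
  set m : ℝ := 1 / (1 + α) + κ * α ^ 2 with hm
  have hα1 : 0 < 1 + α := by linarith
  have hα14 := nf.α1
  have hℓ0 : 0 < ℓ := lt_of_lt_of_le (by positivity) nf.ℓ3
  have hΛ0 : (0 : ℝ) < Λ := lt_of_lt_of_le (Real.exp_pos _) nf.Λ1
  have hΛn : 0 < Λ := by exact_mod_cast hΛ0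
  -- `d0`
  obtain ⟨n₀, hn₀⟩ := eventually_atTop.1 (hK.bounds hc hδ0)
  set d0 : ℕ := n₀ + 1 with hd0'
  set cs : ℝ := (1 - δ) * c / 2 with hcs
  have hcs0 : 0 < cs := by
    have : 0 < 1 - δ := by linarith
    positivity
  have hKl : ∀ k : ℕ, d0 ≤ k → cs * (k : ℝ) ^ (-(1 + α)) ≤ K k / 2 := by
    intro k hk
    have := (hn₀ k (by omega)).1
    rw [hcs]
    linarith
  obtain ⟨L₀, hL₀⟩ := eventually_atTop.1
    (Hdet α hα (hαa.trans_le (min_le_left _ _)) c hc K hK d0 (by omega))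
  obtain ⟨Cm, hCm, Hm⟩ := mgfB_of hw
  -- `lam0`
  set lam0 : ℝ := min (1 / 8) (min (δ / (L₀ + 1)) (1 / (2 * Cm * Λ + 1))) with hlam0
  have hlam00 : 0 < lam0 := by positivity
  refine ⟨lam0, hlam00, ?_⟩
  intro lam hlam hlam1
  have hl8 : lam ≤ 1 / 8 := hlam1.le.trans (min_le_left _ _)
  have hlδ : lam ≤ δ / (L₀ + 1) :=
    hlam1.le.trans ((min_le_right _ _).trans (min_le_left _ _))
  have hlC : lam ≤ 1 / (2 * Cm * Λ + 1) :=
    hlam1.le.trans ((min_le_right _ _).trans (min_le_right _ _))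
  have hL₀R : (0 : ℝ) ≤ L₀ := Nat.cast_nonneg _
  have hlδ' : lam ≤ δ := by
    refine hlδ.trans ?_
    rw [div_le_iff₀ (by positivity)]
    nlinarith
  have hlam2 : 0 < lam ^ 2 := by positivity
  set L : ℕ := ⌈δ / lam ^ 2⌉₊ with hL
  have hL1 : δ / lam ^ 2 ≤ L := Nat.le_ceil _
  have hL2 : (L : ℝ) < δ / lam ^ 2 + 1 := Nat.ceil_lt_add_one (by positivity)
  have hLL₀ : L₀ ≤ L := by
    have h1 : (L₀ : ℝ) ≤ L := by
      refine le_trans ?_ hL1
      rw [le_div_iff₀ hlam2]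
      rw [le_div_iff₀ (by positivity)] at hlδ
      have h2 : lam ^ 2 ≤ lam := by nlinarith
      calc (L₀ : ℝ) * lam ^ 2 ≤ L₀ * lam := by gcongr
        _ ≤ δ := by nlinarith
    exact_mod_cast h1
  have hLpos : 0 < L := by
    have : (0 : ℝ) < L := lt_of_lt_of_le (by positivity) hL1
    exact_mod_cast this
  have hτ0 : δ ≤ lam ^ 2 * L := by
    rw [div_le_iff₀ hlam2] at hL1
    linarith
  have hτ1 : lam ^ 2 * L ≤ δ * (1 + δ) := by
    calc lam ^ 2 * L ≤ lam ^ 2 * (δ / lam ^ 2 + 1) := by gcongr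
      _ = δ + lam ^ 2 := by field_simp
      _ ≤ δ * (1 + δ) := by nlinarith
  set l0 : ℕ := Λ * L with hl0
  have hl0pos : 0 < l0 := by positivity
  set err : ℝ := Cm * lam ^ 3 * l0 with herr
  have herr1 : err ≤ δ := by
    have h1 : err = Cm * Λ * (lam * (lam ^ 2 * L)) := by
      rw [herr, hl0]; push_cast; ring
    rw [h1]
    have h2 : δ * (1 + δ) ≤ 2 * δ := by nlinarith
    rw [le_div_iff₀ (by positivity)] at hlC
    calc Cm * Λ * (lam * (lam ^ 2 * L)) ≤ Cm * Λ * (lam * (2 * δ)) :=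
          mul_le_mul_of_nonneg_left (mul_le_mul_of_nonneg_left (hτ1.trans h2) hlam.le)
            (by positivity)
      _ = (lam * (2 * Cm * Λ)) * δ := by ring
      _ ≤ 1 * δ := by
          gcongr
          nlinarith
      _ = δ := one_mul _
  -- the deterministic data
  set P : Finset ℕ := Icc ⌈δ * Λ⌉₊ ⌊(1 - 2 * δ) * Λ⌋₊ with hP
  set F : Finset (ℕ × ℕ) := P ×ˢ Ico j1 j2 with hF
  have h2δ : 0 ≤ 1 - 2 * δ := by linarith
  have hPle : ∀ p ∈ P, (p : ℝ) ≤ (1 - 2 * δ) * Λ := by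
    intro p hp
    rw [hP, mem_Icc] at hp
    exact (Nat.le_floor_iff (by positivity)).1 hp.2
  have hj1pos : 1 ≤ j1 := by
    rw [hj1]
    exact Nat.one_le_ceil_iff.2 (by positivity)
  obtain ⟨φ, hB⟩ := hL₀ L hLL₀ Λ nf.Λ1 F (by
    intro p hp
    rw [hF, mem_product, mem_Ico] at hp
    obtain ⟨hp1, hp2, hp3⟩ := hp
    refine ⟨?_, ?_, by omega⟩
    · rw [hP, mem_Icc] at hp1
      exact Nat.ceil_le.1 hp1.1
    · have h1 := hPle p.1 hp1
      have h2 : (p.2 : ℝ) ≤ j2 := by exact_mod_cast hp3.le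
      have h3 := nf.Λ3
      linarith)
  have hM := Hm lam m hlam hl8 l0
  set Hw : ℕ → Ω → ℝ := fun x om => -2 * lam * (w x om + m * lam) with hHw
  set cc : ℝ := ((1 - δ) ^ 4 * α ^ 2) ^ (1 / (1 + α)) with hcc
  set Xd : (ℕ → ℝ) → ℝ := XX0 (fun x (v : ℕ → ℝ) => v x) l0 F (cf cc Λ) φ (1 / (1 + α)) with hXd
  have hXdm : Measurable Xd := XX0_meas (fun x => measurable_pi_apply x) _ _ _ _ _
  have hXX : ∀ om, Xd (fun x => Hw x om) = XX0 Hw l0 F (cf cc Λ) φ (1 / (1 + α)) om := fun om => rfl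
  have hXXm : Measurable (XX0 Hw l0 F (cf cc Λ) φ (1 / (1 + α))) := XX0_meas hM.meas _ _ _ _ _
  have hcc0 : 0 < cc := by
    have : 0 < 1 - δ := by linarith
    positivity
  refine ⟨l0, d0, cs, hl0pos, by omega, hcs0, hKl, ?_⟩
  refine lev_of_block hw hl0pos (fun v => vl J ℓ (Xd v)) ((vl_meas J ℓ).comp hXdm) ?_ ?_ ?_ ?_ ?_ ?_
  · -- dependence
    intro H H' hHH
    have : Xd H = Xd H' := by
      simp only [hXd]
      unfold XX0 Lf
      congr 1
      refine sum_congr rfl fun i hi => ?_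
      congr 2
      refine sum_congr rfl fun x _ => ?_
      by_cases hx : φ i x = 0
      · simp [hx]
      · have h1 := hB.supp i hi x hx
        show φ i x * H x = φ i x * H' x
        rw [hHH x h1.1 h1.2]
    show vl J ℓ (Xd H) = vl J ℓ (Xd H')
    rw [this]
  · -- domination
    intro H
    refine (vl_le J hℓ0 _).trans ?_
    exact dom_block hδ0 hδ1 hα hc hΛn hLpos hB H
  · -- labels
    intro H hlab
    rcases vl_cases (J := J) hℓ0 (Xd H) with ⟨s, hs, hin, hv⟩ | hv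
    · rw [hv]
      simp only
      have h1 : (n : ℝ≥0∞) ^ s = ENNReal.ofReal (Real.exp (s * ℓ)) := by
        have hn0 : (0 : ℝ) < n := by
          have : 0 < n := by omega
          exact_mod_cast this
        rw [← ENNReal.ofReal_natCast, ← ENNReal.ofReal_pow hn0.le, hℓ, mul_comm, Real.exp_mul,
          Real.exp_log hn0, Real.rpow_natCast]
      rw [h1]
      exact ENNReal.ofReal_le_ofReal hin.1
    · rw [hv] at hlab
      simp at hlab
  · -- bound
    intro H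
    rcases vl_cases (J := J) hℓ0 (Xd H) with ⟨s, hs, hin, hv⟩ | hv
    · rw [hv]
      refine ENNReal.ofReal_le_ofReal (hin.2.le.trans (Real.exp_le_exp.2 ?_))
      rw [mem_Icc] at hs
      have h1 : (s : ℝ) ≤ J + 2 := by exact_mod_cast hs.2
      refine mul_le_mul_of_nonneg_right ?_ hℓ0.le
      linarith
    · rw [hv]; exact zero_le
  · -- masses
    intro s hs2
    split_ifs with hsJ
    · have hsI : s ∈ Icc 2 (J + 2) := mem_Icc.2 ⟨hs2, hsJ⟩
      have hset : {om | (vl J ℓ (Xd (fun i => -2 * lam * (w i om + m * lam)))).2 = s}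
          = {om | InW ℓ s (XX0 Hw l0 F (cf cc Λ) φ (1 / (1 + α)) om)} := by
        ext om
        simp only [Set.mem_ofPred_eq]
        rw [← hXX om]
        constructor
        · intro h1
          rcases vl_cases (J := J) hℓ0 (Xd (fun x => Hw x om)) with ⟨t, _, hin, hv⟩ | hv
          · have h2 : (vl J ℓ (Xd (fun x => Hw x om))).2 = s := h1
            rw [hv] at h2
            simp only at h2
            rwa [h2] at hin
          · have h2 : (vl J ℓ (Xd (fun x => Hw x om))).2 = s := h1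
            rw [hv] at h2
            simp only at h2
            omega
        · intro h1
          have h2 := vl_of_in hℓ0 hsI h1
          show (vl J ℓ (Xd (fun x => Hw x om))).2 = s
          rw [h2]
      have hms : MeasurableSet {om | InW ℓ s (XX0 Hw l0 F (cf cc Λ) φ (1 / (1 + α)) om)} :=
        hXXm (measurableSet_inW ℓ s)
      rw [hset]
      have hI := base_window nf hM hB hτ0 hτ1 hLpos hPle herr1 (s := s) hsJ
      have hlow := bin_low' nf hM hB hτ0 hτ1 hLpos herr1 hs2 hsJ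
      have hfc := Hfin η hη0 le_rfl s hs2 hsJ
      have hcoag : coagF0 κ h J (s - 2) = Real.log (1 + 1 / s) * Real.exp (-κ * (s + 1) * h) := by
        unfold coagF0
        rw [if_pos (by omega)]
        have : ((s - 2 : ℕ) : ℝ) = (s : ℝ) - 2 := by
          rw [Nat.cast_sub hs2]; norm_num
        rw [this]
        congr 3
        · ring
        · ring
      have hreal : (1 - d) * α ^ 2 * coagF0 κ h J (s - 2)
          ≤ ∫ ω, (if Real.exp (s * ℓ) ≤ XX0 Hw l0 F (cf cc Λ) φ (1 / (1 + α)) ω ∧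
            XX0 Hw l0 F (cf cc Λ) φ (1 / (1 + α)) ω < Real.exp ((s + 1) * ℓ)
            then XX0 Hw l0 F (cf cc Λ) φ (1 / (1 + α)) ω else 0) ∂Q := by
        refine le_trans ?_ hI
        have h1η : 0 < 1 - η := by linarith
        have h2 := mul_le_mul_of_nonneg_left hlow
          (show 0 ≤ Real.exp (-η) * (1 - η) by positivity)
        refine le_trans ?_ h2
        rw [hcoag]
        calc (1 - d) * α ^ 2 * (Real.log (1 + 1 / s) * Real.exp (-κ * (s + 1) * h))
            = α ^ 2 * ((1 - d) * (Real.log (1 + 1 / s) * Real.exp (-κ * (s + 1) * h))) := by ring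
          _ ≤ α ^ 2 * _ := mul_le_mul_of_nonneg_left hfc (by positivity)
          _ = _ := by ring
      have hval : ∫⁻ om in {om | InW ℓ s (XX0 Hw l0 F (cf cc Λ) φ (1 / (1 + α)) om)},
            (vl J ℓ (Xd (fun i => -2 * lam * (w i om + m * lam)))).1 ∂Q
          = ENNReal.ofReal (∫ ω, (if Real.exp (s * ℓ) ≤ XX0 Hw l0 F (cf cc Λ) φ (1 / (1 + α)) ω ∧
            XX0 Hw l0 F (cf cc Λ) φ (1 / (1 + α)) ω < Real.exp ((s + 1) * ℓ)
            then XX0 Hw l0 F (cf cc Λ) φ (1 / (1 + α)) ω else 0) ∂Q) := by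
        rw [ofReal_integral_eq_lintegral_ofReal]
        · rw [← lintegral_indicator hms]
          refine lintegral_congr fun om => ?_
          by_cases hin : InW ℓ s (XX0 Hw l0 F (cf cc Λ) φ (1 / (1 + α)) om)
          · rw [Set.indicator_of_mem (show om ∈ {om | InW ℓ s (XX0 Hw l0 F (cf cc Λ) φ
              (1 / (1 + α)) om)} from hin)]
            rw [if_pos (show _ ∧ _ from hin)]
            have h2 := vl_of_in hℓ0 hsI hin
            show (vl J ℓ (Xd (fun x => Hw x om))).1 = _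
            rw [hXX om, h2]
          · rw [Set.indicator_of_notMem (show om ∉ {om | InW ℓ s (XX0 Hw l0 F (cf cc Λ) φ
              (1 / (1 + α)) om)} from hin)]
            rw [if_neg (show ¬ (_ ∧ _) from hin)]
            simp
        · refine Integrable.of_bound (C := Real.exp ((s + 1) * ℓ)) ?_ ?_
          · refine (Measurable.ite ?_ hXXm measurable_const).aestronglyMeasurable
            exact (measurableSet_le measurable_const hXXm).inter
              (measurableSet_lt hXXm measurable_const)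
          · refine Filter.Eventually.of_forall fun ω => ?_
            split_ifs with hc
            · rw [Real.norm_eq_abs, abs_of_nonneg ((Real.exp_pos _).le.trans hc.1)]
              exact hc.2.le
            · simpa using (Real.exp_pos _).le
        · refine Filter.Eventually.of_forall fun ω => ?_
          simp only [Pi.zero_apply]
          split_ifs with hc
          · exact (Real.exp_pos _).le.trans hc.1
          · exact le_rfl
      rw [hval]
      exact ENNReal.ofReal_le_ofReal hreal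
    · simp
  · -- the total
    refine (setLIntegral_le_lintegral _ _).trans ?_
    have h1 : ∫⁻ om, (vl J ℓ (Xd (fun i => -2 * lam * (w i om + m * lam)))).1 ∂Q
        ≤ ∫⁻ om, ENNReal.ofReal (XX0 Hw l0 F (cf cc Λ) φ (1 / (1 + α)) om) ∂Q :=
      lintegral_mono fun om => vl_le J hℓ0 _
    refine h1.trans ?_
    have hγ0 : 0 < 1 / (1 + α) := by positivity
    have hγ1 : 1 / (1 + α) ≤ 1 := by rw [div_le_one hα1]; linarith
    refine (base_mean hM (fun i _ => cf_pos hcc0 hΛn i) hB.nn hB.le1 hγ0 hγ1).trans ?_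
    exact ENNReal.ofReal_le_ofReal (mean_up' nf hM hB hLpos herr1)

end Pool.Agent.Cop

end
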