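import Mathlib
import Pool.Agent.Work.MP_cceb86_pr.LBd

/-!
The pair terms for general exponents: separation at both ends.
-/

open Finset MeasureTheory ProbabilityTheory
open scoped ENNReal

noncomputable section

namespace Pool.Agent.Cop

section Sep

variable {Kk : ℕ → ℝ≥0∞} {l0 d0 L : ℕ} {F : Finset (ℕ × ℕ)} {W : ℕ → ℝ} {φ : ℕ × ℕ → ℕ → ℝ}

/-- separation on an interval of cells -/
lemma sep_gen (hB : BaseDet Kk l0 d0 L F W φ) {p p' : ℕ × ℕ} (hp : p ∈ F) (hp' : p' ∈ F)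
    (hpl : (p.1 + 2 + p.2) * L < l0) {a b : ℕ} (ha : p.1 + 1 ≤ a)
    (hb : b ≤ p.1 + 1 + p.2) (ho : b ≤ p'.1 ∨ p'.1 + 2 + p'.2 ≤ a) :
    (((b - a : ℕ) : ℝ) - 2) * L ≤ ∑ x ∈ range l0, (φ p x - φ p' x) ^ 2 := by
  classical
  set D : Finset ℕ := Ioc (a * L) (b * L) with hD
  have h1 : (p.1 + 1) * L ≤ a * L := Nat.mul_le_mul_right _ ha
  have h2 : b * L ≤ (p.1 + 1 + p.2) * L := Nat.mul_le_mul_right _ hb
  have h3 : (p.1 + 1 + p.2) * L ≤ (p.1 + 2 + p.2) * L := Nat.mul_le_mul_right _ (by omega)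
  have hD1 : ∀ x ∈ D, φ p x = 1 := by
    intro x hx
    refine hB.one p hp x ?_
    rw [hD, mem_Ioc] at hx
    rw [mem_Ioc]; omega
  have hDr : D ⊆ range l0 := by
    intro x; simp only [hD, mem_Ioc, mem_range]; omega
  have hDo : D ⊆ range l0 \ Ioc (p'.1 * L) ((p'.1 + 2 + p'.2) * L) := by
    intro x hx
    rw [Finset.mem_sdiff]
    refine ⟨hDr hx, ?_⟩
    rw [hD, mem_Ioc] at hx
    rw [mem_Ioc]
    rcases ho with h | h
    · have h4 : b * L ≤ p'.1 * L := Nat.mul_le_mul_right _ h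
      omega
    · have h4 : (p'.1 + 2 + p'.2) * L ≤ a * L := Nat.mul_le_mul_right _ h
      omega
  have h4 : ∑ x ∈ D, φ p' x ≤ L :=
    (sum_le_sum_of_subset_of_nonneg hDo fun x _ _ => hB.nn p' hp' x).trans (hB.out p' hp')
  have hc : ((D.card : ℕ) : ℝ) = ((b - a : ℕ) : ℝ) * L := by
    rw [hD, Nat.card_Ioc, ← Nat.sub_mul]
    push_cast; ring
  calc (((b - a : ℕ) : ℝ) - 2) * L = ((b - a : ℕ) : ℝ) * L - 2 * L := by ring
    _ ≤ ((b - a : ℕ) : ℝ) * L - 2 * ∑ x ∈ D, φ p' x := by linarith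
    _ = ∑ x ∈ D, (1 - 2 * φ p' x) := by
        rw [sum_sub_distrib, sum_const, nsmul_eq_mul, hc, ← mul_sum, mul_one]
    _ ≤ ∑ x ∈ D, (φ p x - φ p' x) ^ 2 := by
        refine sum_le_sum fun x hx => ?_
        rw [hD1 x hx]
        nlinarith [sq_nonneg (φ p' x)]
    _ ≤ _ := sum_le_sum_of_subset_of_nonneg hDr fun x _ _ => sq_nonneg _

lemma sep_auxR (hB : BaseDet Kk l0 d0 L F W φ) {p p' : ℕ × ℕ} (hp : p ∈ F) (hp' : p' ∈ F)
    (hlt : p'.1 + p'.2 ≤ p.1 + p.2) (hpl : (p.1 + 2 + p.2) * L < l0)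
    {k : ℕ} (hk1 : k ≤ p.1 + p.2 - (p'.1 + p'.2)) (hk2 : k ≤ p.2) :
    ((k : ℝ) - 3) * L ≤ ∑ x ∈ range l0, (φ p x - φ p' x) ^ 2 := by
  rcases Nat.eq_zero_or_pos k with h0 | hk
  · subst h0
    have h1 : 0 ≤ ∑ x ∈ range l0, (φ p x - φ p' x) ^ 2 := sum_nonneg fun x _ => sq_nonneg _
    have h2 : (0 : ℝ) ≤ L := Nat.cast_nonneg _
    push_cast
    linarith
  have h := sep_gen hB hp hp' hpl (a := p.1 + p.2 + 2 - k) (b := p.1 + 1 + p.2) (by omega)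
    le_rfl (Or.inr (by omega))
  have e1 : p.1 + 1 + p.2 - (p.1 + p.2 + 2 - k) = k - 1 := by omega
  rw [e1, Nat.cast_sub hk] at h
  refine le_trans (le_of_eq ?_) h
  push_cast
  ring

/-- separation of the right ends -/
lemma sep_leR (hB : BaseDet Kk l0 d0 L F W φ) {p p' : ℕ × ℕ} (hp : p ∈ F) (hp' : p' ∈ F)
    (hpl : (p.1 + 2 + p.2) * L < l0) (hpl' : (p'.1 + 2 + p'.2) * L < l0)
    {k : ℕ} (hk1 : k ≤ Nat.dist (p.1 + p.2) (p'.1 + p'.2)) (hk2 : k ≤ p.2) (hk3 : k ≤ p'.2) :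
    ((k : ℝ) - 3) * L ≤ ∑ x ∈ range l0, (φ p x - φ p' x) ^ 2 := by
  rcases le_total (p'.1 + p'.2) (p.1 + p.2) with h | h
  · rw [Nat.dist_eq_sub_of_le_right h] at hk1
    exact sep_auxR hB hp hp' h hpl hk1 hk2
  · rw [Nat.dist_eq_sub_of_le h] at hk1
    have := sep_auxR hB hp' hp h hpl' hk1 hk3
    refine this.trans (le_of_eq (sum_congr rfl fun x _ => by ring))

variable {γ m : ℝ}

/-- (b), with the separation as a hypothesis -/
lemma qf_pairG (hB : BaseDet Kk l0 d0 L F W φ) {p p' : ℕ × ℕ} (hp : p ∈ F) (hp' : p' ∈ F)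
    (hpl : (p.1 + 2 + p.2) * L < l0) {k : ℝ}
    (hk : (k - 3) * L ≤ ∑ x ∈ range l0, (φ p x - φ p' x) ^ 2)
    (hγ0 : 0 ≤ γ) (hγm : γ ≤ m) (hγm2 : γ * m ≤ 2) :
    qf m l0 (fun x => γ * (φ p x + φ p' x) / 2)
      ≤ qf m l0 (fun x => γ * φ p x) + (γ * (m - γ) * (p.2 * L) + 6 * L)
        - γ ^ 2 / 2 * ((k - 3) * L) := by
  have h1 := zone_le hB hp hpl (g := fun t => γ * t * (m - γ * t)) (G := 2) (by norm_num)
    (by
      intro t ht _
      have h1 : 0 ≤ γ ^ 2 * t ^ 2 := by positivity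
      nlinarith)
  have h3 : qf m l0 (fun x => γ * (φ p x + φ p' x) / 2)
      = qf m l0 (fun x => γ * φ p x) + ∑ x ∈ range l0, (γ * φ p x * (m - γ * φ p x))
        - ∑ x ∈ range l0, (γ * φ p' x * (m - γ * φ p' x))
        - γ ^ 2 / 2 * ∑ x ∈ range l0, (φ p x - φ p' x) ^ 2 := by
    unfold qf
    rw [mul_sum, ← sum_add_distrib, ← sum_sub_distrib, ← sum_sub_distrib]
    exact sum_congr rfl fun x _ => by ring
  have h4 : 0 ≤ ∑ x ∈ range l0, (γ * φ p' x * (m - γ * φ p' x)) := by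
    refine sum_nonneg fun x _ => ?_
    have h1 := hB.nn p' hp' x
    have h2 := hB.le1 p' hp' x
    have h3 : γ * φ p' x ≤ m := by nlinarith
    have h4 : 0 ≤ γ * φ p' x := mul_nonneg hγ0 h1
    exact mul_nonneg h4 (by linarith)
  have h5 : γ ^ 2 / 2 * ((k - 3) * L)
      ≤ γ ^ 2 / 2 * ∑ x ∈ range l0, (φ p x - φ p' x) ^ 2 := by gcongr
  rw [h3]
  linarith

end Sep

/-- shifted two sided geometric sum -/
lemma geo_dist_shift {r : ℝ} (hr0 : 0 ≤ r) (hr1 : r < 1) (q p j1 j2 : ℕ) :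
    ∑ j ∈ Ico j1 j2, r ^ Nat.dist q (p + j) ≤ 2 / (1 - r) := by
  have hinj : ∀ y ∈ Ico j1 j2, ∀ y' ∈ Ico j1 j2, p + y = p + y' → y = y' := by
    intro y _ y' _ h; omega
  have h1 : ∑ j ∈ Ico j1 j2, r ^ Nat.dist q (p + j)
      = ∑ x ∈ (Ico j1 j2).image (fun j => p + j), r ^ Nat.dist q x := by
    rw [sum_image hinj]
  rw [h1]
  refine le_trans (sum_le_sum_of_subset_of_nonneg ?_ (fun x _ _ => by positivity))
    (geo_dist hr0 hr1 q (p + j2))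
  intro x
  simp only [mem_image, mem_Ico, mem_range]
  omega

section Ratios

variable {Ω : Type*} [MeasurableSpace Ω] {Q : Measure Ω} {H : ℕ → Ω → ℝ} {lam m err : ℝ}
  {Kk : ℕ → ℝ≥0∞} {l0 d0 L : ℕ} {W : ℕ → ℝ} {φ : ℕ × ℕ → ℕ → ℝ} {j1 j2 Λ : ℕ}
  {γ δ τ cc : ℝ}

/-- **The pair terms, constant independent of the number of cells.** -/
theorem ratio_bG {M1 : ℕ} (hM : MgfB Q H l0 lam m err)
    (hB : BaseDet Kk l0 d0 L (range M1 ×ˢ Ico j1 j2) W φ)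
    (hτ : lam ^ 2 * L = τ) (hδ0 : 0 < δ) (hδτ : δ ≤ τ) (hτ1 : τ ≤ 2 * δ) (hδ1 : δ ≤ 1 / 100)
    (hgeo : ∀ p ∈ range M1, ∀ j ∈ Ico j1 j2, (p + 2 + j) * L < l0) (hΛ : 0 < Λ)
    (hcc : 0 < cc) (hγ0 : 1 / 2 ≤ γ) (hγ1 : γ ≤ 1) (hγm' : γ ≤ m) (hγm : γ * m ≤ 2)
    (hj1 : 1 ≤ j1) (hM1 : M1 ≤ j1) (herr : err ≤ 1 / 100) {Ce : ℝ}
    (hCe : 2 * δ * (m - γ) * j2 ≤ Ce) (hj : (j2 : ℝ) * Real.exp (-(δ / 16) * j1) ≤ 1)
    {i : ℕ × ℕ} (hi : i ∈ range M1 ×ˢ Ico j1 j2) :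
    ∑ i' ∈ range M1 ×ˢ Ico j1 j2, cf cc Λ i ^ (1 / 2 : ℝ) * cf cc Λ i' ^ (1 / 2 : ℝ)
            * Mg Q H l0 (fun x => γ * (φ i x + φ i' x) / 2)
      ≤ ((j2 : ℝ) / j1 * Real.exp (Ce + 1) * ((2 / (1 - Real.exp (-(δ / 16))))
          * (2 / (1 - Real.exp (-(δ / 16))) + 1))) * (cf cc Λ i * Mg Q H l0 (fun x => γ * φ i x)) := by
  classical
  have hL0 : (0 : ℝ) ≤ L := Nat.cast_nonneg _
  have hγ0' : 0 ≤ γ := by linarith
  have hi' := hi
  rw [mem_product] at hi'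
  obtain ⟨hiP, hij⟩ := hi'
  have hgi := hgeo i.1 hiP i.2 hij
  rw [mem_Ico] at hij
  rw [mem_range] at hiP
  have hτ0 : 0 ≤ τ := by linarith
  have hij2n : i.2 ≤ j2 := hij.2.le
  have hij1 : (j1 : ℝ) ≤ i.2 := by exact_mod_cast hij.1
  have hij2 : (i.2 : ℝ) + 1 ≤ j2 := by exact_mod_cast hij.2
  have hj1R : (1 : ℝ) ≤ j1 := by exact_mod_cast hj1
  have hj12 : (j1 : ℝ) ≤ j2 := by linarith
  have hci := cf_pos (Λ := Λ) hcc hΛ i
  set r : ℝ := Real.exp (-(δ / 16)) with hr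
  have hr0 : 0 ≤ r := (Real.exp_pos _).le
  have hr1 : r < 1 := by
    rw [hr, ← Real.exp_zero]; exact Real.exp_lt_exp.2 (by linarith)
  have h1r : 0 < 1 - r := by linarith
  have hquo : 1 ≤ (j2 : ℝ) / j1 := by rw [one_le_div (by linarith)]; exact hj12
  -- one pair
  have hone : ∀ i' ∈ range M1 ×ˢ Ico j1 j2, cf cc Λ i ^ (1 / 2 : ℝ) * cf cc Λ i' ^ (1 / 2 : ℝ)
            * Mg Q H l0 (fun x => γ * (φ i x + φ i' x) / 2)
      ≤ (j2 / j1 * Real.exp (Ce + 1) * (r ^ Nat.dist i.1 i'.1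
          * (r ^ Nat.dist (i.1 + i.2) (i'.1 + i'.2) + r ^ j1)))
        * (cf cc Λ i * Mg Q H l0 (fun x => γ * φ i x)) := by
    intro i' hi'
    have hi'' := hi'
    rw [mem_product] at hi''
    obtain ⟨hiP', hij'⟩ := hi''
    have hgi' := hgeo i'.1 hiP' i'.2 hij'
    rw [mem_Ico] at hij'
    rw [mem_range] at hiP'
    have hci' := cf_pos (Λ := Λ) hcc hΛ i'
    have hij1' : (j1 : ℝ) ≤ i'.2 := by exact_mod_cast hij'.1
    set kp : ℕ := Nat.dist i.1 i'.1 with hkp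
    set kq : ℕ := min (Nat.dist (i.1 + i.2) (i'.1 + i'.2)) j1 with hkq
    have hkpj : kp ≤ j1 := by
      rw [hkp]
      unfold Nat.dist
      omega
    have s1 := sep_le hB hi hi' hgi hgi' (k := kp) le_rfl (hkpj.trans hij.1)
      (hkpj.trans hij'.1)
    have s2 := sep_leR hB hi hi' hgi hgi' (k := kq) (min_le_left _ _)
      ((min_le_right _ _).trans hij.1) ((min_le_right _ _).trans hij'.1)
    have s3 : (((kp : ℝ) + kq) / 2 - 3) * L ≤ ∑ x ∈ range l0, (φ i x - φ i' x) ^ 2 := by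
      have : (((kp : ℝ) + kq) / 2 - 3) * L
          = ((((kp : ℝ) - 3) * L) + (((kq : ℝ) - 3) * L)) / 2 := by ring
      linarith
    have e1 := qf_pairG (γ := γ) (m := m) hB hi hi' hgi s3 hγ0' hγm' hγm
    have e2 := hM.up (fun x => γ * (φ i x + φ i' x) / 2)
      (fun x => by
        have := hB.nn i hi x
        have := hB.nn i' hi' x
        positivity)
      (fun x => by
        have e1 := hB.nn i hi x
        have e2 := hB.nn i' hi' x
        have e3 := hB.le1 i hi x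
        have e4 := hB.le1 i' hi' x
        calc γ * (φ i x + φ i' x) / 2 ≤ 1 * (1 + 1) / 2 := by gcongr
          _ ≤ 2 := by norm_num)
    have e3 := hM.low (fun x => γ * φ i x) (fun x => mul_nonneg hγ0' (hB.nn i hi x))
      (fun x => by
        have e1 := hB.nn i hi x
        have e3 := hB.le1 i hi x
        nlinarith)
    -- the exponent
    have e4 : lam ^ 2 * qf m l0 (fun x => γ * (φ i x + φ i' x) / 2) + err
        ≤ (lam ^ 2 * qf m l0 (fun x => γ * φ i x) - err)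
          + ((Ce + 1) - δ / 16 * (kp + kq)) := by
      have f1 : lam ^ 2 * qf m l0 (fun x => γ * (φ i x + φ i' x) / 2)
          ≤ lam ^ 2 * (qf m l0 (fun x => γ * φ i x) + (γ * (m - γ) * (i.2 * L) + 6 * L)
        - γ ^ 2 / 2 * ((((kp : ℝ) + kq) / 2 - 3) * L)) := by gcongr
      have f2 : lam ^ 2 * (qf m l0 (fun x => γ * φ i x) + (γ * (m - γ) * (i.2 * L) + 6 * L)
        - γ ^ 2 / 2 * ((((kp : ℝ) + kq) / 2 - 3) * L)) = lam ^ 2 * qf m l0 (fun x => γ * φ i x)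
          + (γ * (m - γ) * i.2 * τ + 6 * τ - γ ^ 2 / 4 * (kp + kq) * τ
            + 3 * (γ ^ 2 / 2) * τ) := by
        rw [← hτ]; ring
      have f3 : γ * (m - γ) * i.2 * τ ≤ Ce := by
        refine le_trans ?_ hCe
        have hmg : 0 ≤ m - γ := by linarith
        have hij2' : (i.2 : ℝ) ≤ j2 := by linarith
        calc γ * (m - γ) * i.2 * τ ≤ 1 * (m - γ) * j2 * (2 * δ) := by
              gcongr
          _ = _ := by ring
      have f4 : δ / 16 * (kp + kq) ≤ γ ^ 2 / 4 * (kp + kq) * τ := by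
        have g1 : 1 / 4 ≤ γ ^ 2 := by nlinarith
        have g2 : (0 : ℝ) ≤ (kp : ℝ) + kq := by positivity
        calc δ / 16 * ((kp : ℝ) + kq) = (1 / 4) / 4 * (kp + kq) * δ := by ring
          _ ≤ γ ^ 2 / 4 * (kp + kq) * τ := by gcongr
      have f5 : γ ^ 2 ≤ 1 := by nlinarith
      have f6 : 3 * (γ ^ 2 / 2) * τ ≤ 3 * (1 / 2) * (2 * δ) := by gcongr
      linarith
    have e5 : Mg Q H l0 (fun x => γ * (φ i x + φ i' x) / 2)
        ≤ Real.exp ((Ce + 1) - δ / 16 * (kp + kq)) * Mg Q H l0 (fun x => γ * φ i x) := by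
      calc _ ≤ _ := e2
        _ ≤ Real.exp ((lam ^ 2 * qf m l0 (fun x => γ * φ i x) - err)
              + ((Ce + 1) - δ / 16 * (kp + kq))) :=
            Real.exp_le_exp.2 e4
        _ = Real.exp ((Ce + 1) - δ / 16 * (kp + kq))
              * Real.exp (lam ^ 2 * qf m l0 (fun x => γ * φ i x) - err) := by
            rw [Real.exp_add, mul_comm]
        _ ≤ _ := by gcongr
    have e6 : Real.exp ((Ce + 1) - δ / 16 * (kp + kq))
        ≤ Real.exp (Ce + 1) * (r ^ Nat.dist i.1 i'.1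
          * (r ^ Nat.dist (i.1 + i.2) (i'.1 + i'.2) + r ^ j1)) := by
      have g1 : Real.exp ((Ce + 1) - δ / 16 * (kp + kq))
          = Real.exp (Ce + 1) * (r ^ kp * r ^ kq) := by
        rw [hr, ← Real.exp_nat_mul, ← Real.exp_nat_mul, ← Real.exp_add, ← Real.exp_add]
        congr 1; ring
      rw [g1]
      gcongr
      rcases min_choice (Nat.dist (i.1 + i.2) (i'.1 + i'.2)) j1 with h | h
      · rw [hkq, h]
        have : 0 ≤ r ^ j1 := by positivity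
        linarith
      · rw [hkq, h]
        have : 0 ≤ r ^ Nat.dist (i.1 + i.2) (i'.1 + i'.2) := by positivity
        linarith
    have e7 : cf cc Λ i ^ (1 / 2 : ℝ) * cf cc Λ i' ^ (1 / 2 : ℝ) ≤ j2 / j1 * cf cc Λ i := by
      have hΛR : (0 : ℝ) < Λ := by exact_mod_cast hΛ
      have hj1p : (0 : ℝ) < j1 := by linarith
      have g1 : cf cc Λ i' ≤ ((j2 : ℝ) / j1) ^ 2 * cf cc Λ i := by
        have g0 : cf cc Λ i' ≤ ((j2 : ℝ) / j1) * cf cc Λ i := by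
          unfold cf
          rw [div_mul_div_comm, div_le_div_iff₀ (by positivity) (by positivity)]
          have g2 : (j1 : ℝ) * ((i.2 : ℝ) + 2) ≤ j2 * ((i'.2 : ℝ) + 2) := by
            calc (j1 : ℝ) * ((i.2 : ℝ) + 2) ≤ j1 * (j2 + 2) := by gcongr
              _ = j2 * j1 + 2 * j1 := by ring
              _ ≤ j2 * j1 + 2 * j2 := by linarith
              _ = j2 * (j1 + 2) := by ring
              _ ≤ _ := by gcongr
          calc cc * ((j1 : ℝ) * (((i.2 : ℝ) + 2) * Λ))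
              = (cc * Λ) * ((j1 : ℝ) * ((i.2 : ℝ) + 2)) := by ring
            _ ≤ (cc * Λ) * (j2 * ((i'.2 : ℝ) + 2)) := by gcongr
            _ = _ := by ring
        refine g0.trans ?_
        have : (j2 : ℝ) / j1 ≤ ((j2 : ℝ) / j1) ^ 2 := by nlinarith
        gcongr
      have g2 : cf cc Λ i' ^ (1 / 2 : ℝ) ≤ j2 / j1 * cf cc Λ i ^ (1 / 2 : ℝ) := by
        calc cf cc Λ i' ^ (1 / 2 : ℝ) ≤ (((j2 : ℝ) / j1) ^ 2 * cf cc Λ i) ^ (1 / 2 : ℝ) :=
              Real.rpow_le_rpow hci'.le g1 (by norm_num)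
          _ = _ := by
              rw [Real.mul_rpow (by positivity) hci.le, ← Real.sqrt_eq_rpow,
                Real.sqrt_sq (by positivity)]
      have g3 : cf cc Λ i ^ (1 / 2 : ℝ) * cf cc Λ i ^ (1 / 2 : ℝ) = cf cc Λ i := by
        rw [← Real.rpow_add hci]; norm_num
      calc cf cc Λ i ^ (1 / 2 : ℝ) * cf cc Λ i' ^ (1 / 2 : ℝ)
          ≤ cf cc Λ i ^ (1 / 2 : ℝ) * (j2 / j1 * cf cc Λ i ^ (1 / 2 : ℝ)) := by gcongr
        _ = j2 / j1 * (cf cc Λ i ^ (1 / 2 : ℝ) * cf cc Λ i ^ (1 / 2 : ℝ)) := by ring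
        _ = _ := by rw [g3]
    have hMi : 0 ≤ Mg Q H l0 (fun x => γ * φ i x) := (Real.exp_pos _).le.trans e3
    have hMp := Mg_nonneg (Q := Q) (H := H) l0 (fun x => γ * (φ i x + φ i' x) / 2)
    calc _ ≤ (j2 / j1 * cf cc Λ i) * (Real.exp ((Ce + 1) - δ / 16 * (kp + kq))
            * Mg Q H l0 (fun x => γ * φ i x)) := by
          gcongr
      _ ≤ (j2 / j1 * cf cc Λ i) * ((Real.exp (Ce + 1) * (r ^ Nat.dist i.1 i'.1
          * (r ^ Nat.dist (i.1 + i.2) (i'.1 + i'.2) + r ^ j1)))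
            * Mg Q H l0 (fun x => γ * φ i x)) := by gcongr
      _ = _ := by ring
  have hMi := Mg_nonneg (Q := Q) (H := H) l0 (fun x => γ * φ i x)
  refine (sum_le_sum hone).trans ?_
  rw [← sum_mul, ← mul_sum]
  refine mul_le_mul_of_nonneg_right ?_ (mul_nonneg hci.le hMi)
  have h1 : ∑ i' ∈ range M1 ×ˢ Ico j1 j2, (r ^ Nat.dist i.1 i'.1
          * (r ^ Nat.dist (i.1 + i.2) (i'.1 + i'.2) + r ^ j1))
      ≤ (2 / (1 - r)) * (2 / (1 - r) + 1) := by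
    rw [sum_product]
    have h2 : ∀ p ∈ range M1, ∑ j ∈ Ico j1 j2, (r ^ Nat.dist i.1 p
          * (r ^ Nat.dist (i.1 + i.2) (p + j) + r ^ j1))
        ≤ r ^ Nat.dist i.1 p * (2 / (1 - r) + 1) := by
      intro p _
      rw [← mul_sum, sum_add_distrib]
      have g1 := geo_dist_shift hr0 hr1 (i.1 + i.2) p j1 j2
      have g2 : ∑ _j ∈ Ico j1 j2, r ^ j1 ≤ 1 := by
        rw [sum_const, nsmul_eq_mul, Nat.card_Ico]
        have g3 : r ^ j1 = Real.exp (-(δ / 16) * j1) := by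
          rw [hr, ← Real.exp_nat_mul]; congr 1; ring
        rw [g3]
        refine le_trans ?_ hj
        gcongr
        exact Nat.sub_le _ _
      gcongr
    refine (sum_le_sum h2).trans ?_
    rw [← sum_mul]
    have h3 := geo_dist hr0 hr1 i.1 M1
    have h4 : 0 ≤ 2 / (1 - r) + 1 := by positivity
    gcongr
  calc (j2 : ℝ) / j1 * Real.exp (Ce + 1) * ∑ i' ∈ range M1 ×ˢ Ico j1 j2, (r ^ Nat.dist i.1 i'.1
          * (r ^ Nat.dist (i.1 + i.2) (i'.1 + i'.2) + r ^ j1))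
      ≤ (j2 : ℝ) / j1 * Real.exp (Ce + 1) * ((2 / (1 - r)) * (2 / (1 - r) + 1)) := by gcongr
    _ = _ := by ring

end Ratios

end Pool.Agent.Cop

end
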