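import Mathlib
import Pool.Agent.Work.MP_cceb86_pr.LBc

/-!
Windows of values for sums of exponentials of linear forms restricted to good events.
-/

open Finset MeasureTheory ProbabilityTheory
open scoped ENNReal

noncomputable section

namespace Pool.Agent.Cop

/-- **The lower bound**, for nonnegative terms. -/
lemma split_low0 {ι : Type*} (F : Finset ι) (v : ι → ℝ) (hv : ∀ i ∈ F, 0 ≤ v i)
    {γ θ T lo hi : ℝ} (hγ0 : 0 < γ) (hγ1 : γ ≤ 1) (hθ : 0 < θ) (hθ1 : θ < 1)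
    (hlo : 0 < lo) (hhi : 0 < hi) :
    ∑ i ∈ F, (v i ^ γ - Real.exp (-(γ * T / 2)) * ∑ i' ∈ F, v i ^ (γ / 2) * v i' ^ (γ / 2)
        - lo ^ θ * v i ^ (γ * (1 - θ))
        - (hi * Real.exp (-(γ * T))) ^ (-θ) * v i ^ (γ * (1 + θ)))
      ≤ Real.exp ((1 - γ) * T) * (if lo ≤ (∑ i ∈ F, v i) ^ γ ∧ (∑ i ∈ F, v i) ^ γ < hi
          then (∑ i ∈ F, v i) ^ γ else 0) := by
  classical
  set F' : Finset ι := F.filter (fun i => 0 < v i) with hF'
  have hz : ∀ i ∈ F, i ∉ F' → v i = 0 := by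
    intro i hi hn
    rw [hF', mem_filter, not_and] at hn
    exact le_antisymm (not_lt.1 (hn hi)) (hv i hi)
  have hsub : F' ⊆ F := filter_subset _ _
  have h1 : ∑ i ∈ F', v i = ∑ i ∈ F, v i := sum_subset hsub fun i hi hn => hz i hi hn
  have h2 : ∀ a : ℝ, ∑ i' ∈ F', a * v i' ^ (γ / 2) = ∑ i' ∈ F, a * v i' ^ (γ / 2) := fun a =>
    sum_subset hsub fun i hi hn => by
      rw [hz i hi hn, Real.zero_rpow (by positivity), mul_zero]
  have h3 := split_low F' F' (Subset.refl _) v (fun i hi => (mem_filter.1 hi).2) hγ0 hγ1 hθ hθ1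
    hlo hhi (T := T)
  simp only [h1, h2] at h3
  refine le_trans (le_of_eq ?_) h3
  symm
  refine sum_subset hsub fun i hi hn => ?_
  have h4 : 0 < γ * (1 - θ) := mul_pos hγ0 (by linarith)
  have h5 : 0 < γ * (1 + θ) := mul_pos hγ0 (by linarith)
  rw [hz i hi hn, Real.zero_rpow hγ0.ne', Real.zero_rpow (by positivity), Real.zero_rpow h4.ne',
    Real.zero_rpow h5.ne']
  simp

variable {Ω : Type*} [MeasurableSpace Ω] {Q : Measure Ω}

/-- the fractional power of the sum over the pairs, on good events -/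
def XG (H : ℕ → Ω → ℝ) (N : ℕ) (F : Finset (ℕ × ℕ)) (G : ℕ × ℕ → Set Ω) (c : ℕ × ℕ → ℝ)
    (φ : ℕ × ℕ → ℕ → ℝ) (γ : ℝ) (ω : Ω) : ℝ :=
  (∑ i ∈ F, (G i).indicator (fun ω => c i ^ (1 / γ) * Real.exp (Lf H N (φ i) ω)) ω) ^ γ

lemma XG_meas {H : ℕ → Ω → ℝ} (hH : ∀ x, Measurable (H x)) (N : ℕ) (F : Finset (ℕ × ℕ))
    {G : ℕ × ℕ → Set Ω} (hG : ∀ i ∈ F, MeasurableSet (G i))
    (c : ℕ × ℕ → ℝ) (φ : ℕ × ℕ → ℕ → ℝ) (γ : ℝ) : Measurable (XG H N F G c φ γ) := by
  unfold XG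
  refine Measurable.pow_const ?_ _
  exact Finset.measurable_sum _ fun i hi =>
    (((Lf_meas hH N (φ i)).exp).const_mul _).indicator (hG i hi)

/-- **Lower bound for a window of values, on good events.** -/
theorem base_int0 [IsProbabilityMeasure Q] {H : ℕ → Ω → ℝ} {N : ℕ} {lam m err : ℝ}
    (hM : MgfB Q H N lam m err) {F : Finset (ℕ × ℕ)} {G : ℕ × ℕ → Set Ω}
    (hG : ∀ i ∈ F, MeasurableSet (G i)) {c : ℕ × ℕ → ℝ}
    (hc : ∀ i ∈ F, 0 < c i) {φ : ℕ × ℕ → ℕ → ℝ} (h0 : ∀ i ∈ F, ∀ x, 0 ≤ φ i x)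
    (h1 : ∀ i ∈ F, ∀ x, φ i x ≤ 1) {γ θ T lo hi : ℝ} (hγ0 : 0 < γ) (hγ1 : γ ≤ 1) (hθ : 0 < θ)
    (hθ1 : θ < 1) (hlo : 0 < lo) (hhi : 0 < hi) {p0 : ℝ}
    (hp : ∀ i ∈ F, p0 * Mg Q H N (fun x => γ * φ i x)
      ≤ ∫ ω in G i, Real.exp (Lf H N (fun x => γ * φ i x) ω) ∂Q) :
    ∑ i ∈ F, (p0 * (c i * Mg Q H N (fun x => γ * φ i x))
        - Real.exp (-(γ * T / 2)) * ∑ i' ∈ F, c i ^ (1 / 2 : ℝ) * c i' ^ (1 / 2 : ℝ)
            * Mg Q H N (fun x => γ * (φ i x + φ i' x) / 2)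
        - lo ^ θ * (c i ^ (1 - θ) * Mg Q H N (fun x => γ * (1 - θ) * φ i x))
        - (hi * Real.exp (-(γ * T))) ^ (-θ)
            * (c i ^ (1 + θ) * Mg Q H N (fun x => γ * (1 + θ) * φ i x)))
      ≤ Real.exp ((1 - γ) * T) * ∫ ω, (if lo ≤ XG H N F G c φ γ ω ∧ XG H N F G c φ γ ω < hi
          then XG H N F G c φ γ ω else 0) ∂Q := by
  classical
  set v : ℕ × ℕ → Ω → ℝ := fun i ω => c i ^ (1 / γ) * Real.exp (Lf H N (φ i) ω) with hv
  set vg : ℕ × ℕ → Ω → ℝ := fun i ω => (G i).indicator (v i) ω with hvg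
  have hv0 : ∀ ω, ∀ i ∈ F, 0 < v i ω := by
    intro ω i hi
    have := hc i hi
    simp only [hv]
    positivity
  have hvg0 : ∀ ω, ∀ i ∈ F, 0 ≤ vg i ω := by
    intro ω i hi
    simp only [hvg, Set.indicator]
    split_ifs
    · exact (hv0 ω i hi).le
    · exact le_rfl
  have hvgv : ∀ ω, ∀ i ∈ F, vg i ω ≤ v i ω := by
    intro ω i hi
    simp only [hvg, Set.indicator]
    split_ifs
    · exact le_rfl
    · exact (hv0 ω i hi).le
  -- powers of `v`
  have hpow : ∀ a : ℝ, ∀ i ∈ F, ∀ ω, v i ω ^ (γ * a)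
      = c i ^ a * Real.exp (Lf H N (fun x => γ * a * φ i x) ω) := by
    intro a i hi ω
    have h2 := hc i hi
    simp only [hv]
    rw [Real.mul_rpow (by positivity) (Real.exp_pos _).le, ← Real.rpow_mul h2.le, ← Real.exp_mul,
      Lf_smul]
    congr 2
    · field_simp
    · ring
  have hpg : ∀ a : ℝ, 0 ≤ a → ∀ i ∈ F, ∀ ω, vg i ω ^ a ≤ v i ω ^ a := fun a ha i hi ω =>
    Real.rpow_le_rpow (hvg0 ω i hi) (hvgv ω i hi) ha
  have hb0 : ∀ i ∈ F, ∀ a : ℝ, 0 ≤ a → a ≤ 2 → (∀ x, 0 ≤ γ * a * φ i x) ∧ (∀ x, γ * a * φ i x ≤ 2) := by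
    intro i hi a ha ha2
    constructor
    · intro x
      have := h0 i hi x
      positivity
    · intro x
      have h2 := h0 i hi x
      calc γ * a * φ i x ≤ 1 * 2 * 1 := by
            have := h1 i hi x
            gcongr
        _ = 2 := by norm_num
  -- the pointwise inequality
  have hpt : ∀ ω, ∑ i ∈ F, ((G i).indicator (fun ω => c i * Real.exp (Lf H N (fun x => γ * φ i x) ω)) ω
        - Real.exp (-(γ * T / 2)) * ∑ i' ∈ F, c i ^ (1 / 2 : ℝ) * c i' ^ (1 / 2 : ℝ)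
            * Real.exp (Lf H N (fun x => γ * (φ i x + φ i' x) / 2) ω)
        - lo ^ θ * (c i ^ (1 - θ) * Real.exp (Lf H N (fun x => γ * (1 - θ) * φ i x) ω))
        - (hi * Real.exp (-(γ * T))) ^ (-θ)
            * (c i ^ (1 + θ) * Real.exp (Lf H N (fun x => γ * (1 + θ) * φ i x) ω)))
      ≤ Real.exp ((1 - γ) * T) * (if lo ≤ XG H N F G c φ γ ω ∧ XG H N F G c φ γ ω < hi
          then XG H N F G c φ γ ω else 0) := by
    intro ω
    have h2 := split_low0 F (fun i => vg i ω) (hvg0 ω) hγ0 hγ1 hθ hθ1 hlo hhi (T := T)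
    refine le_trans ?_ h2
    refine sum_le_sum fun i hiF => ?_
    have hci := hc i hiF
    have e1 : (G i).indicator (fun ω => c i * Real.exp (Lf H N (fun x => γ * φ i x) ω)) ω
        = vg i ω ^ γ := by
      have h5 := hpow 1 i hiF ω
      rw [mul_one, Real.rpow_one] at h5
      simp only [hvg, Set.indicator]
      split_ifs
      · exact h5.symm
      · rw [Real.zero_rpow hγ0.ne']
    have e2 : ∀ i' ∈ F, vg i ω ^ (γ / 2) * vg i' ω ^ (γ / 2)
        ≤ c i ^ (1 / 2 : ℝ) * c i' ^ (1 / 2 : ℝ)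
            * Real.exp (Lf H N (fun x => γ * (φ i x + φ i' x) / 2) ω) := by
      intro i' hi'
      have e3 := hpow (1 / 2) i hiF ω
      have e4 := hpow (1 / 2) i' hi' ω
      have e6 := hpg (γ / 2) (by positivity) i hiF ω
      have e7 := hpg (γ / 2) (by positivity) i' hi' ω
      have e8 : 0 ≤ v i ω ^ (γ / 2) := Real.rpow_nonneg (hv0 ω i hiF).le _
      have e9 : 0 ≤ vg i' ω ^ (γ / 2) := Real.rpow_nonneg (hvg0 ω i' hi') _
      refine (mul_le_mul e6 e7 e9 e8).trans (le_of_eq ?_)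
      rw [show γ / 2 = γ * (1 / 2) by ring, e3, e4]
      have e5 : Lf H N (fun x => γ * (φ i x + φ i' x) / 2) ω
          = Lf H N (fun x => γ * (1 / 2) * φ i x) ω + Lf H N (fun x => γ * (1 / 2) * φ i' x) ω := by
        unfold Lf
        rw [← sum_add_distrib]
        exact sum_congr rfl fun x _ => by ring
      rw [e5, Real.exp_add]
      ring
    have e3 := sum_le_sum e2
    have e4 : vg i ω ^ (γ * (1 - θ)) ≤ c i ^ (1 - θ)
        * Real.exp (Lf H N (fun x => γ * (1 - θ) * φ i x) ω) := by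
      rw [← hpow (1 - θ) i hiF ω]
      exact hpg _ (mul_nonneg hγ0.le (by linarith)) i hiF ω
    have e5 : vg i ω ^ (γ * (1 + θ)) ≤ c i ^ (1 + θ)
        * Real.exp (Lf H N (fun x => γ * (1 + θ) * φ i x) ω) := by
      rw [← hpow (1 + θ) i hiF ω]
      exact hpg _ (mul_nonneg hγ0.le (by linarith)) i hiF ω
    rw [e1]
    gcongr
  -- integrability
  have hI1 : ∀ i ∈ F, Integrable (fun ω => c i * Real.exp (Lf H N (fun x => γ * φ i x) ω)) Q := by
    intro i hi
    have h2 := hb0 i hi 1 zero_le_one (by norm_num)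
    simp only [mul_one] at h2
    exact (hM.intg _ h2.1 h2.2).const_mul _
  have hI1' : ∀ i ∈ F, Integrable
      ((G i).indicator (fun ω => c i * Real.exp (Lf H N (fun x => γ * φ i x) ω))) Q :=
    fun i hi => (hI1 i hi).indicator (hG i hi)
  have hI2 : ∀ i ∈ F, ∀ i' ∈ F, Integrable (fun ω => c i ^ (1 / 2 : ℝ) * c i' ^ (1 / 2 : ℝ)
            * Real.exp (Lf H N (fun x => γ * (φ i x + φ i' x) / 2) ω)) Q := by
    intro i hi i' hi'
    refine (hM.intg _ (fun x => ?_) (fun x => ?_)).const_mul _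
    · have := h0 i hi x
      have := h0 i' hi' x
      positivity
    · have e1 := h0 i hi x
      have e2 := h0 i' hi' x
      have e3 := h1 i hi x
      have e4 := h1 i' hi' x
      calc γ * (φ i x + φ i' x) / 2 ≤ 1 * (1 + 1) / 2 := by gcongr
        _ ≤ 2 := by norm_num
  have hI3 : ∀ i ∈ F, Integrable (fun ω => c i ^ (1 - θ)
      * Real.exp (Lf H N (fun x => γ * (1 - θ) * φ i x) ω)) Q := by
    intro i hi
    have h2 := hb0 i hi (1 - θ) (by linarith) (by linarith)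
    exact (hM.intg _ h2.1 h2.2).const_mul _
  have hI4 : ∀ i ∈ F, Integrable (fun ω => c i ^ (1 + θ)
      * Real.exp (Lf H N (fun x => γ * (1 + θ) * φ i x) ω)) Q := by
    intro i hi
    have h2 := hb0 i hi (1 + θ) (by linarith) (by linarith)
    exact (hM.intg _ h2.1 h2.2).const_mul _
  have hI5 : ∀ i ∈ F, Integrable (fun ω => Real.exp (-(γ * T / 2)) * ∑ i' ∈ F,
      c i ^ (1 / 2 : ℝ) * c i' ^ (1 / 2 : ℝ)
            * Real.exp (Lf H N (fun x => γ * (φ i x + φ i' x) / 2) ω)) Q := fun i hi =>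
    (integrable_finsetSum _ fun i' hi' => hI2 i hi i' hi').const_mul _
  have hIX : Integrable (fun ω => (if lo ≤ XG H N F G c φ γ ω ∧ XG H N F G c φ γ ω < hi
          then XG H N F G c φ γ ω else 0)) Q := by
    have hm := XG_meas hM.meas N F hG c φ γ
    refine Integrable.of_bound (C := hi) ?_ ?_
    · refine (Measurable.ite ?_ hm measurable_const).aestronglyMeasurable
      exact (measurableSet_le measurable_const hm).inter (measurableSet_lt hm measurable_const)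
    · refine Filter.Eventually.of_forall fun ω => ?_
      split_ifs with hc
      · rw [Real.norm_eq_abs, abs_of_nonneg (by linarith [hc.1])]
        exact hc.2.le
      · simpa using hhi.le
  rw [← integral_const_mul]
  refine le_trans ?_ (integral_mono ?_ (hIX.const_mul _) hpt)
  · rw [integral_finsetSum]
    · refine sum_le_sum fun i hi => ?_
      rw [integral_sub, integral_sub, integral_sub, integral_const_mul, integral_const_mul,
        integral_const_mul, integral_const_mul, integral_const_mul,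
        integral_finsetSum, integral_indicator (hG i hi), integral_const_mul]
      · simp only [integral_const_mul]
        have h5 := mul_le_mul_of_nonneg_left (hp i hi) (hc i hi).le
        have h6 : p0 * (c i * Mg Q H N (fun x => γ * φ i x))
            = c i * (p0 * Mg Q H N (fun x => γ * φ i x)) := by ring
        rw [h6]
        unfold Mg at h5 ⊢
        linarith
      · exact fun i' hi' => hI2 i hi i' hi'
      · exact hI1' i hi
      · exact hI5 i hi
      · exact (hI1' i hi).sub (hI5 i hi)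
      · exact (hI3 i hi).const_mul _
      · exact ((hI1' i hi).sub (hI5 i hi)).sub ((hI3 i hi).const_mul _)
      · exact (hI4 i hi).const_mul _
    · exact fun i hi => (((hI1' i hi).sub (hI5 i hi)).sub ((hI3 i hi).const_mul _)).sub
        ((hI4 i hi).const_mul _)
  · exact integrable_finsetSum _ fun i hi =>
      (((hI1' i hi).sub (hI5 i hi)).sub ((hI3 i hi).const_mul _)).sub ((hI4 i hi).const_mul _)

/-- upper bound for the mean, on good events -/
theorem base_mean0 {H : ℕ → Ω → ℝ} {N : ℕ} {lam m err : ℝ}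
    (hM : MgfB Q H N lam m err) {F : Finset (ℕ × ℕ)} (G : ℕ × ℕ → Set Ω) {c : ℕ × ℕ → ℝ}
    (hc : ∀ i ∈ F, 0 < c i) {φ : ℕ × ℕ → ℕ → ℝ} (h0 : ∀ i ∈ F, ∀ x, 0 ≤ φ i x)
    (h1 : ∀ i ∈ F, ∀ x, φ i x ≤ 1) {γ : ℝ} (hγ0 : 0 < γ) (hγ1 : γ ≤ 1) :
    ∫⁻ ω, ENNReal.ofReal (XG H N F G c φ γ ω) ∂Q
      ≤ ENNReal.ofReal (∑ i ∈ F, c i * Mg Q H N (fun x => γ * φ i x)) := by
  refine le_trans (lintegral_mono fun ω => ENNReal.ofReal_le_ofReal ?_)
    (base_mean hM hc h0 h1 hγ0 hγ1)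
  unfold XG XX0
  refine Real.rpow_le_rpow ?_ ?_ hγ0.le
  · refine sum_nonneg fun i hi => ?_
    have := hc i hi
    refine Set.indicator_nonneg (fun ω _ => ?_) _
    positivity
  · refine sum_le_sum fun i hi => ?_
    have := hc i hi
    refine Set.indicator_le_self' (fun ω _ => ?_) _
    positivity

end Pool.Agent.Cop

end
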