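import Mathlib
import Pool.Agent.Work.MP_cceb86_pr.NInt
import Pool.Agent.Work.MP_cceb86_pr.NDefs
import Pool.Agent.Work.MP_cceb86_pr.NPdef
import Pool.Agent.Work.MP_cceb86_pr.LG2

/-!
The window of the values of one block, near `α = 1`.
-/

open Finset MeasureTheory ProbabilityTheory
open scoped ENNReal

noncomputable section

namespace Pool.Agent.Cop

section Sums

variable {L N : ℕ}

lemma nI_sub87 {i : ℕ × ℕ} (hi : (i.1 + 2 + i.2) * L < N) : nI L i ⊆ range N := by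
  intro x
  simp only [nI, mem_Ioc, mem_range]
  omega

lemma nI_card87 (i : ℕ × ℕ) : ((nI L i).card : ℝ) = ((i.2 : ℝ) + 2) * L := by
  unfold nI
  rw [Nat.card_Ioc, ← Nat.sub_mul]
  have : i.1 + 2 + i.2 - i.1 = i.2 + 2 := by omega
  rw [this]
  push_cast
  ring

lemma nph_nn (i : ℕ × ℕ) (x : ℕ) : 0 ≤ nph L i x := by
  unfold nph; split_ifs <;> norm_num

lemma nph_le (i : ℕ × ℕ) (x : ℕ) : nph L i x ≤ 1 := by
  unfold nph; split_ifs <;> norm_num

lemma nph_sum {i : ℕ × ℕ} (hi : (i.1 + 2 + i.2) * L < N) (f : ℝ → ℝ) (hf : f 0 = 0) :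
    ∑ x ∈ range N, f (nph L i x) = ((i.2 : ℝ) + 2) * L * f (1 / 2) := by
  classical
  have h1 : ∀ x ∈ range N, f (nph L i x) = if x ∈ nI L i then f (1 / 2) else 0 := by
    intro x _
    unfold nph
    split_ifs with h
    · rfl
    · exact hf
  rw [sum_congr rfl h1, ← sum_filter, sum_const, nsmul_eq_mul]
  have h2 : (range N).filter (fun x => x ∈ nI L i) = nI L i := by
    rw [filter_mem_eq_inter]
    exact inter_eq_right.2 (nI_sub87 hi)
  rw [h2, nI_card87]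

lemma nph_qf {i : ℕ × ℕ} (hi : (i.1 + 2 + i.2) * L < N) (m a : ℝ) :
    qf m N (fun x => a * nph L i x) = ((i.2 : ℝ) + 2) * L * (a ^ 2 / 2 - m * a) := by
  unfold qf
  rw [nph_sum hi (fun y => 2 * (a * y) ^ 2 - 2 * m * (a * y)) (by simp)]
  ring

lemma nph_mul {i i' : ℕ × ℕ} (hi : (i.1 + 2 + i.2) * L < N) :
    ∑ x ∈ range N, nph L i x * nph L i' x = 1 / 4 * (((nI L i) ∩ (nI L i')).card : ℝ) := by
  classical
  have h1 : ∀ x ∈ range N, nph L i x * nph L i' x = if x ∈ nI L i ∩ nI L i' then 1 / 4 else 0 := by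
    intro x _
    unfold nph
    by_cases h : x ∈ nI L i <;> by_cases h' : x ∈ nI L i'
    · rw [if_pos h, if_pos h', if_pos (mem_inter.2 ⟨h, h'⟩)]; norm_num
    · rw [if_neg h', mul_zero, if_neg (fun hh => h' (mem_inter.1 hh).2)]
    · rw [if_neg h, zero_mul, if_neg (fun hh => h (mem_inter.1 hh).1)]
    · rw [if_neg h, zero_mul, if_neg (fun hh => h (mem_inter.1 hh).1)]
  rw [sum_congr rfl h1, ← sum_filter, sum_const, nsmul_eq_mul]
  have h2 : (range N).filter (fun x => x ∈ nI L i ∩ nI L i') = nI L i ∩ nI L i' := by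
    rw [filter_mem_eq_inter]
    exact inter_eq_right.2 (inter_subset_left.trans (nI_sub87 hi))
  rw [h2]
  ring

/-- the distance of two overlapping pairs -/
def nD (i i' : ℕ × ℕ) : ℝ :=
  (Nat.dist i.1 i'.1 : ℝ) + (Nat.dist (i.1 + i.2) (i'.1 + i'.2) : ℝ)

lemma nD_ge (i i' : ℕ × ℕ) : (i.2 : ℝ) - i'.2 ≤ nD i i' := by
  unfold nD
  have h : i.2 ≤ i'.2 + Nat.dist i.1 i'.1 + Nat.dist (i.1 + i.2) (i'.1 + i'.2) := by
    unfold Nat.dist
    omega
  have h' : (i.2 : ℝ) ≤ i'.2 + Nat.dist i.1 i'.1 + Nat.dist (i.1 + i.2) (i'.1 + i'.2) := by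
    exact_mod_cast h
  linarith

lemma nph_dist {i i' : ℕ × ℕ} (hi : (i.1 + 2 + i.2) * L < N) (hi' : (i'.1 + 2 + i'.2) * L < N)
    (ho : i'.1 ≤ i.1 + 2 + i.2) (ho' : i.1 ≤ i'.1 + 2 + i'.2) :
    ∑ x ∈ range N, (nph L i x - nph L i' x) ^ 2 = L / 4 * nD i i' := by
  have h1 : ∑ x ∈ range N, (nph L i x - nph L i' x) ^ 2
      = ∑ x ∈ range N, (nph L i x) ^ 2 + ∑ x ∈ range N, (nph L i' x) ^ 2
        - 2 * ∑ x ∈ range N, nph L i x * nph L i' x := by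
    rw [mul_sum, ← sum_add_distrib, ← sum_sub_distrib]
    exact sum_congr rfl fun x _ => by ring
  rw [h1, nph_sum hi (fun y => y ^ 2) (by simp), nph_sum hi' (fun y => y ^ 2) (by simp),
    nph_mul hi]
  have h2 : (((nI L i) ∩ (nI L i')).card : ℝ) = (((i.2 : ℝ) + 2) + ((i'.2 : ℝ) + 2)
      - nD i i') / 2 * L := by
    unfold nI nD
    rw [Ioc_inter_Ioc, Nat.card_Ioc]
    show (((min ((i.1 + 2 + i.2) * L) ((i'.1 + 2 + i'.2) * L) - max (i.1 * L) (i'.1 * L) : ℕ)) : ℝ)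
      = _
    rw [Nat.mul_min_mul_right, Nat.mul_max_mul_right, ← Nat.sub_mul, Nat.cast_mul]
    congr 1
    rw [Nat.cast_sub (by omega)]
    rcases le_total i.1 i'.1 with h | h <;> rcases le_total (i.1 + i.2) (i'.1 + i'.2) with h' | h'
    · rw [Nat.dist_eq_sub_of_le h, Nat.dist_eq_sub_of_le h', min_eq_left (by omega), max_eq_right h,
        Nat.cast_sub h, Nat.cast_sub h']
      push_cast; ring
    · rw [Nat.dist_eq_sub_of_le h, Nat.dist_eq_sub_of_le_right h', min_eq_right (by omega),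
        max_eq_right h, Nat.cast_sub h, Nat.cast_sub h']
      push_cast; ring
    · rw [Nat.dist_eq_sub_of_le_right h, Nat.dist_eq_sub_of_le h', min_eq_left (by omega),
        max_eq_left h, Nat.cast_sub h, Nat.cast_sub h']
      push_cast; ring
    · rw [Nat.dist_eq_sub_of_le_right h, Nat.dist_eq_sub_of_le_right h', min_eq_right (by omega),
        max_eq_left h, Nat.cast_sub h, Nat.cast_sub h']
      push_cast; ring
  rw [h2]
  ring

end Sums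

/-- coefficients: `τ` = length of a cell in units of `λ⁻²` -/
def nc (cc γ τ : ℝ) (i : ℕ × ℕ) : ℝ := cc * Real.exp (γ * (τ * ((i.2 : ℝ) + 2)) / 2)

lemma nc_pos {cc : ℝ} (hcc : 0 < cc) (γ τ : ℝ) (i : ℕ × ℕ) : 0 < nc cc γ τ i := by
  unfold nc; positivity

lemma nc_pow {cc : ℝ} (hcc : 0 < cc) (γ τ a : ℝ) (i : ℕ × ℕ) :
    nc cc γ τ i ^ a = cc ^ a * Real.exp (a * (γ * (τ * ((i.2 : ℝ) + 2)) / 2)) := by
  unfold nc
  rw [Real.mul_rpow hcc.le (Real.exp_pos _).le, ← Real.exp_mul, mul_comm a]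

section Win

variable {Ω : Type*} [MeasurableSpace Ω] {Q : Measure Ω} {H : ℕ → Ω → ℝ} {lam m err : ℝ}
  {L N : ℕ} {γ δ τ cc : ℝ}

/-- moment of one stretch -/
lemma nmom {i : ℕ × ℕ} (hM : MgfB Q H N lam m err) (hτ : lam ^ 2 * L = τ)
    (hi : (i.1 + 2 + i.2) * L < N) {a : ℝ} (ha0 : 0 ≤ a) (ha : a ≤ 2) :
    Real.exp (τ * ((i.2 : ℝ) + 2) * (a ^ 2 / 2 - m * a) - err) ≤ Mg Q H N (fun x => a * nph L i x) ∧
    Mg Q H N (fun x => a * nph L i x)
      ≤ Real.exp (τ * ((i.2 : ℝ) + 2) * (a ^ 2 / 2 - m * a) + err) := by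
  have h0 : ∀ x, 0 ≤ a * nph L i x := fun x => mul_nonneg ha0 (nph_nn i x)
  have h1 : ∀ x, a * nph L i x ≤ 2 := fun x => by
    calc a * nph L i x ≤ 2 * 1 := mul_le_mul ha (nph_le i x) (nph_nn i x) (by norm_num)
      _ = 2 := by norm_num
  have h2 := hM.low _ h0 h1
  have h3 := hM.up _ h0 h1
  rw [nph_qf hi] at h2 h3
  have h4 : lam ^ 2 * (((i.2 : ℝ) + 2) * L * (a ^ 2 / 2 - m * a))
      = τ * ((i.2 : ℝ) + 2) * (a ^ 2 / 2 - m * a) := by rw [← hτ]; ring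
  rw [h4] at h2 h3
  exact ⟨h2, h3⟩

/-- lower bound for the mean of one stretch; `m = δ + (1 + γ) / 2` -/
lemma nmean_low {i : ℕ × ℕ} (hM : MgfB Q H N lam m err) (hτ : lam ^ 2 * L = τ)
    (hi : (i.1 + 2 + i.2) * L < N) (hγ0 : 0 ≤ γ) (hγ1 : γ ≤ 1) (hcc : 0 < cc)
    (hm : m = δ + (1 + γ) / 2) :
    cc * Real.exp (-(γ * δ * (τ * ((i.2 : ℝ) + 2))) - err)
      ≤ nc cc γ τ i * Mg Q H N (fun x => γ * nph L i x) := by
  have h := (nmom hM hτ hi hγ0 (by linarith)).1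
  unfold nc
  calc cc * Real.exp (-(γ * δ * (τ * ((i.2 : ℝ) + 2))) - err)
      = cc * Real.exp (γ * (τ * ((i.2 : ℝ) + 2)) / 2)
        * Real.exp (τ * ((i.2 : ℝ) + 2) * (γ ^ 2 / 2 - m * γ) - err) := by
        rw [mul_assoc cc, ← Real.exp_add, hm]
        congr 2; ring
    _ ≤ _ := by gcongr

lemma nmean_up {i : ℕ × ℕ} (hM : MgfB Q H N lam m err) (hτ : lam ^ 2 * L = τ)
    (hi : (i.1 + 2 + i.2) * L < N) (hγ0 : 0 ≤ γ) (hγ1 : γ ≤ 1) (hcc : 0 < cc)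
    (hm : m = δ + (1 + γ) / 2) :
    nc cc γ τ i * Mg Q H N (fun x => γ * nph L i x)
      ≤ cc * Real.exp (-(γ * δ * (τ * ((i.2 : ℝ) + 2))) + err) := by
  have h := (nmom hM hτ hi hγ0 (by linarith)).2
  unfold nc
  calc _ ≤ cc * Real.exp (γ * (τ * ((i.2 : ℝ) + 2)) / 2)
        * Real.exp (τ * ((i.2 : ℝ) + 2) * (γ ^ 2 / 2 - m * γ) + err) := by gcongr
    _ = _ := by
        rw [mul_assoc cc, ← Real.exp_add, hm]
        congr 2; ring

/-- one pair term -/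
lemma npair_one {i i' : ℕ × ℕ} (hM : MgfB Q H N lam m err) (hτ : lam ^ 2 * L = τ)
    (hi : (i.1 + 2 + i.2) * L < N) (hi' : (i'.1 + 2 + i'.2) * L < N)
    (ho : i'.1 ≤ i.1 + 2 + i.2) (ho' : i.1 ≤ i'.1 + 2 + i'.2)
    (hγ0 : 1 / 2 ≤ γ) (hγ1 : γ ≤ 51 / 100) (hcc : 0 < cc)
    (hm : m = δ + (1 + γ) / 2) (hδ0 : 0 ≤ δ) (hδ1 : δ ≤ 1 / 100) (hτ1 : 1 ≤ τ) :
    nc cc γ τ i ^ (1 / 2 : ℝ) * nc cc γ τ i' ^ (1 / 2 : ℝ)
        * Mg Q H N (fun x => γ * (nph L i x + nph L i' x) / 2)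
      ≤ Real.exp (2 * err) * (Real.exp (-(1 / 64)) ^ Nat.dist i.1 i'.1
          * Real.exp (-(1 / 64)) ^ Nat.dist (i.1 + i.2) (i'.1 + i'.2))
        * (nc cc γ τ i * Mg Q H N (fun x => γ * nph L i x)) := by
  have hγ0' : 0 ≤ γ := by linarith
  have e1 := hM.up (fun x => γ * (nph L i x + nph L i' x) / 2)
    (fun x => by
      have := nph_nn (L := L) i x
      have := nph_nn (L := L) i' x
      positivity)
    (fun x => by
      have e1 := nph_nn (L := L) i x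
      have e2 := nph_nn (L := L) i' x
      have e3 := nph_le (L := L) i x
      have e4 := nph_le (L := L) i' x
      calc γ * (nph L i x + nph L i' x) / 2 ≤ 1 * (1 + 1) / 2 := by
            gcongr; linarith
        _ ≤ 2 := by norm_num)
  have e2 : qf m N (fun x => γ * (nph L i x + nph L i' x) / 2)
      = 1 / 2 * qf m N (fun x => γ * nph L i x) + 1 / 2 * qf m N (fun x => γ * nph L i' x)
        - γ ^ 2 / 2 * ∑ x ∈ range N, (nph L i x - nph L i' x) ^ 2 := by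
    unfold qf
    rw [mul_sum, mul_sum, mul_sum, ← sum_add_distrib, ← sum_sub_distrib]
    exact sum_congr rfl fun x _ => by ring
  rw [e2, nph_qf hi, nph_qf hi', nph_dist hi hi' ho ho'] at e1
  have e3 := nmean_low (γ := γ) (cc := cc) hM hτ hi hγ0' (by linarith) hcc hm
  have hD := nD_ge i i'
  have hD0 : 0 ≤ nD i i' := by unfold nD; positivity
  set D : ℝ := nD i i' with hDdef
  set X : ℝ := τ * ((i.2 : ℝ) + 2) with hX
  set X' : ℝ := τ * ((i'.2 : ℝ) + 2) with hX'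
  have hXX : X - X' ≤ τ * D := by
    rw [hX, hX']
    have : 0 ≤ τ := by linarith
    nlinarith
  have e4 : lam ^ 2 * (1 / 2 * (((i.2 : ℝ) + 2) * L * (γ ^ 2 / 2 - m * γ))
      + 1 / 2 * (((i'.2 : ℝ) + 2) * L * (γ ^ 2 / 2 - m * γ)) - γ ^ 2 / 2 * (L / 4 * D)) + err
      = 1 / 2 * X * (γ ^ 2 / 2 - m * γ) + 1 / 2 * X' * (γ ^ 2 / 2 - m * γ)
        - γ ^ 2 / 8 * (τ * D) + err := by
    rw [hX, hX', ← hτ]; ring
  rw [e4] at e1
  have e5 : nc cc γ τ i ^ (1 / 2 : ℝ) * nc cc γ τ i' ^ (1 / 2 : ℝ)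
      = cc * Real.exp (γ * (X + X') / 4) := by
    rw [nc_pow hcc, nc_pow hcc]
    have h1 : cc ^ (1 / 2 : ℝ) * cc ^ (1 / 2 : ℝ) = cc := by
      rw [← Real.rpow_add hcc]; norm_num
    calc cc ^ (1 / 2 : ℝ) * Real.exp (1 / 2 * (γ * (τ * ((i.2 : ℝ) + 2)) / 2))
          * (cc ^ (1 / 2 : ℝ) * Real.exp (1 / 2 * (γ * (τ * ((i'.2 : ℝ) + 2)) / 2)))
        = (cc ^ (1 / 2 : ℝ) * cc ^ (1 / 2 : ℝ))
          * (Real.exp (1 / 2 * (γ * (τ * ((i.2 : ℝ) + 2)) / 2))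
            * Real.exp (1 / 2 * (γ * (τ * ((i'.2 : ℝ) + 2)) / 2))) := by ring
      _ = _ := by
        rw [h1, ← Real.exp_add]
        congr 2
        rw [hX, hX']; ring
  have e6 : Real.exp (-(1 / 64)) ^ Nat.dist i.1 i'.1
          * Real.exp (-(1 / 64)) ^ Nat.dist (i.1 + i.2) (i'.1 + i'.2)
      = Real.exp (-(D / 64)) := by
    rw [← Real.exp_nat_mul, ← Real.exp_nat_mul, ← Real.exp_add]
    congr 1
    rw [hDdef]; unfold nD; ring
  rw [e5, e6]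
  have e7 : γ * (X + X') / 4 + (1 / 2 * X * (γ ^ 2 / 2 - m * γ) + 1 / 2 * X' * (γ ^ 2 / 2 - m * γ)
        - γ ^ 2 / 8 * (τ * D) + err)
      ≤ 2 * err + -(D / 64) + (-(γ * δ * X) - err) := by
    have h1 : γ * (X + X') / 4 + (1 / 2 * X * (γ ^ 2 / 2 - m * γ)
          + 1 / 2 * X' * (γ ^ 2 / 2 - m * γ) - γ ^ 2 / 8 * (τ * D) + err)
        = -(γ * δ * X) + γ * δ * (X - X') / 2 - γ ^ 2 / 8 * (τ * D) + err := by
      rw [hm]; ring
    have h2 : γ * δ * (X - X') / 2 ≤ γ * δ * (τ * D) / 2 := by gcongr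
    have h3 : D / 64 ≤ (γ ^ 2 / 8 - γ * δ / 2) * (τ * D) := by
      have h4 : 1 / 64 ≤ γ ^ 2 / 8 - γ * δ / 2 := by
        have h5 : (1 / 2) ^ 2 ≤ γ ^ 2 := by gcongr
        have h6 : γ * δ ≤ 51 / 100 * (1 / 100) := by gcongr
        linarith
      calc D / 64 = 1 / 64 * (1 * D) := by ring
        _ ≤ _ := by gcongr
    rw [h1]
    linarith
  calc cc * Real.exp (γ * (X + X') / 4) * Mg Q H N (fun x => γ * (nph L i x + nph L i' x) / 2)
      ≤ cc * Real.exp (γ * (X + X') / 4) * Real.exp (1 / 2 * X * (γ ^ 2 / 2 - m * γ)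
        + 1 / 2 * X' * (γ ^ 2 / 2 - m * γ) - γ ^ 2 / 8 * (τ * D) + err) := by gcongr
    _ = cc * Real.exp (γ * (X + X') / 4 + (1 / 2 * X * (γ ^ 2 / 2 - m * γ)
        + 1 / 2 * X' * (γ ^ 2 / 2 - m * γ) - γ ^ 2 / 8 * (τ * D) + err)) := by
        rw [mul_assoc, ← Real.exp_add]
    _ ≤ cc * Real.exp (2 * err + -(D / 64) + (-(γ * δ * X) - err)) := by
        gcongr
    _ = Real.exp (2 * err) * Real.exp (-(D / 64)) * (cc * Real.exp (-(γ * δ * X) - err)) := by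
        rw [Real.exp_add, Real.exp_add]; ring
    _ ≤ _ := by gcongr

/-- the sum of the pair terms -/
lemma npair_sum {j1 j2 : ℕ} {i : ℕ × ℕ} (hM : MgfB Q H N lam m err) (hτ : lam ^ 2 * L = τ)
    (hF : ∀ i ∈ range j1 ×ˢ Ico j1 j2, (i.1 + 2 + i.2) * L < N) (hi : i ∈ range j1 ×ˢ Ico j1 j2)
    (hγ0 : 1 / 2 ≤ γ) (hγ1 : γ ≤ 51 / 100) (hcc : 0 < cc)
    (hm : m = δ + (1 + γ) / 2) (hδ0 : 0 ≤ δ) (hδ1 : δ ≤ 1 / 100) (hτ1 : 1 ≤ τ) :
    ∑ i' ∈ range j1 ×ˢ Ico j1 j2, nc cc γ τ i ^ (1 / 2 : ℝ) * nc cc γ τ i' ^ (1 / 2 : ℝ)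
        * Mg Q H N (fun x => γ * (nph L i x + nph L i' x) / 2)
      ≤ 16900 * Real.exp (2 * err) * (nc cc γ τ i * Mg Q H N (fun x => γ * nph L i x)) := by
  set r : ℝ := Real.exp (-(1 / 64)) with hr
  have hr0 : 0 ≤ r := (Real.exp_pos _).le
  have hr2 : r ≤ 64 / 65 := by
    have h1 := Real.add_one_le_exp (1 / 64 : ℝ)
    rw [hr, Real.exp_neg, inv_le_comm₀ (Real.exp_pos _) (by norm_num)]
    linarith
  have hr1 : r < 1 := by linarith
  have h2r : 2 / (1 - r) ≤ 130 := by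
    rw [div_le_iff₀ (by linarith)]; linarith
  have h2r0 : 0 ≤ 2 / (1 - r) := by
    have : 0 < 1 - r := by linarith
    positivity
  have hi2 := hi
  rw [mem_product, mem_range, mem_Ico] at hi2
  have hone : ∀ i' ∈ range j1 ×ˢ Ico j1 j2,
      nc cc γ τ i ^ (1 / 2 : ℝ) * nc cc γ τ i' ^ (1 / 2 : ℝ)
        * Mg Q H N (fun x => γ * (nph L i x + nph L i' x) / 2)
      ≤ Real.exp (2 * err) * (r ^ Nat.dist i.1 i'.1 * r ^ Nat.dist (i.1 + i.2) (i'.1 + i'.2))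
        * (nc cc γ τ i * Mg Q H N (fun x => γ * nph L i x)) := by
    intro i' hi'
    have hi3 := hi'
    rw [mem_product, mem_range, mem_Ico] at hi3
    exact npair_one hM hτ (hF i hi) (hF i' hi') (by omega) (by omega) hγ0 hγ1 hcc hm hδ0 hδ1 hτ1
  refine (sum_le_sum hone).trans ?_
  rw [← sum_mul, ← mul_sum]
  have h1 : ∑ i' ∈ range j1 ×ˢ Ico j1 j2,
      r ^ Nat.dist i.1 i'.1 * r ^ Nat.dist (i.1 + i.2) (i'.1 + i'.2) ≤ 16900 := by
    rw [sum_product]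
    calc ∑ p ∈ range j1, ∑ j ∈ Ico j1 j2, r ^ Nat.dist i.1 p * r ^ Nat.dist (i.1 + i.2) (p + j)
        ≤ ∑ p ∈ range j1, r ^ Nat.dist i.1 p * (2 / (1 - r)) := by
          refine sum_le_sum fun p _ => ?_
          rw [← mul_sum]
          have := geo_dist_shift hr0 hr1 (i.1 + i.2) p j1 j2
          gcongr
      _ = (∑ p ∈ range j1, r ^ Nat.dist i.1 p) * (2 / (1 - r)) := by rw [sum_mul]
      _ ≤ (2 / (1 - r)) * (2 / (1 - r)) := by
          have := geo_dist hr0 hr1 i.1 j1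
          gcongr
      _ ≤ 130 * 130 := by gcongr
      _ = 16900 := by norm_num
  have h2 : 0 ≤ nc cc γ τ i * Mg Q H N (fun x => γ * nph L i x) :=
    mul_nonneg (nc_pos hcc _ _ _).le (Mg_nonneg _ _)
  calc _ ≤ Real.exp (2 * err) * 16900 * (nc cc γ τ i * Mg Q H N (fun x => γ * nph L i x)) := by
        gcongr
    _ = _ := by ring

/-- small values -/
lemma nlow_term {i : ℕ × ℕ} {l : ℝ} (hM : MgfB Q H N lam m err) (hτ : lam ^ 2 * L = τ)
    (hi : (i.1 + 2 + i.2) * L < N) (hγ0 : 1 / 2 ≤ γ) (hγ1 : γ ≤ 51 / 100) (hcc : 0 < cc)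
    (hm : m = δ + (1 + γ) / 2) (hδ0 : 0 ≤ δ) (hδ1 : δ ≤ 1 / 100) (hl : 0 ≤ l)
    (hX : 18 * l ≤ τ * ((i.2 : ℝ) + 2)) (hccl : Real.exp (-l / 100) ≤ cc) (herr : err ≤ 1) :
    Real.exp (2 * l) ^ (1 / 100 : ℝ) * (nc cc γ τ i ^ (1 - 1 / 100 : ℝ)
        * Mg Q H N (fun x => γ * (1 - 1 / 100) * nph L i x))
      ≤ Real.exp (-l / 1000 + 2) * (nc cc γ τ i * Mg Q H N (fun x => γ * nph L i x)) := by
  have hγ0' : 0 ≤ γ := by linarith
  have e1 := (nmom (a := γ * (1 - 1 / 100)) hM hτ hi (by nlinarith) (by nlinarith)).2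
  have e3 := nmean_low (γ := γ) (cc := cc) hM hτ hi hγ0' (by linarith) hcc hm
  set X : ℝ := τ * ((i.2 : ℝ) + 2) with hXdef
  obtain ⟨z, hz⟩ : ∃ z : ℝ, cc = Real.exp z := ⟨Real.log cc, (Real.exp_log hcc).symm⟩
  have hz1 : -l / 100 ≤ z := by rwa [hz, Real.exp_le_exp] at hccl
  rw [nc_pow hcc, ← Real.exp_mul, ← hXdef]
  have e4 : cc ^ (1 - 1 / 100 : ℝ) = Real.exp (z * (1 - 1 / 100)) := by
    rw [hz, ← Real.exp_mul]
  rw [e4]
  have hX0 : 0 ≤ X := by linarith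
  calc Real.exp (2 * l * (1 / 100)) * (Real.exp (z * (1 - 1 / 100))
        * Real.exp ((1 - 1 / 100) * (γ * X / 2)) * Mg Q H N (fun x => γ * (1 - 1 / 100) * nph L i x))
      ≤ Real.exp (2 * l * (1 / 100)) * (Real.exp (z * (1 - 1 / 100))
        * Real.exp ((1 - 1 / 100) * (γ * X / 2)) * Real.exp (X * ((γ * (1 - 1 / 100)) ^ 2 / 2
          - m * (γ * (1 - 1 / 100))) + err)) := by gcongr
    _ = Real.exp (2 * l * (1 / 100) + (z * (1 - 1 / 100) + ((1 - 1 / 100) * (γ * X / 2))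
        + (X * ((γ * (1 - 1 / 100)) ^ 2 / 2 - m * (γ * (1 - 1 / 100))) + err))) := by
        rw [← Real.exp_add, ← Real.exp_add, ← Real.exp_add]
    _ ≤ Real.exp (-l / 1000 + 2 + (z + (-(γ * δ * X) - err))) := by
        apply Real.exp_le_exp.2
        rw [hm]
        have h1 : γ * δ ≤ 51 / 100 * (1 / 100) := by gcongr
        have h2 : (1 / 2) * (1 / 2) ≤ γ * γ := by gcongr
        have h3 : γ * γ ≤ 51 / 100 * (51 / 100) := by gcongr
        have h4 : 0 ≤ X * (γ * γ - (1 / 2) * (1 / 2)) := mul_nonneg hX0 (by linarith)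
        have h5 : 0 ≤ X * (51 / 100 * (1 / 100) - γ * δ) := mul_nonneg hX0 (by linarith)
        have h6 : 0 ≤ X * (51 / 100 * (51 / 100) - γ * γ) := mul_nonneg hX0 (by linarith)
        nlinarith
    _ = Real.exp (-l / 1000 + 2) * (Real.exp z * Real.exp (-(γ * δ * X) - err)) := by
        rw [← Real.exp_add, ← Real.exp_add]
    _ ≤ _ := by
        rw [← hz]
        gcongr

/-- large values -/
lemma nup_term {i : ℕ × ℕ} {l T : ℝ} (hM : MgfB Q H N lam m err) (hτ : lam ^ 2 * L = τ)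
    (hi : (i.1 + 2 + i.2) * L < N) (hγ0 : 1 / 2 ≤ γ) (hγ1 : γ ≤ 51 / 100) (hcc : 0 < cc)
    (hcc1 : cc ≤ 1)
    (hm : m = δ + (1 + γ) / 2) (hδ0 : 0 ≤ δ) (hδ1 : δ ≤ 1 / 100) (hl : 0 ≤ l)
    (hX0 : 0 ≤ τ * ((i.2 : ℝ) + 2)) (hX : τ * ((i.2 : ℝ) + 2) ≤ 21 * l) (hT : T ≤ l / 100)
    (hT0 : 0 ≤ T) (herr : err ≤ 1) :
    (Real.exp (3 * l) * Real.exp (-(γ * T))) ^ (-(1 / 100) : ℝ) * (nc cc γ τ i ^ (1 + 1 / 100 : ℝ)
        * Mg Q H N (fun x => γ * (1 + 1 / 100) * nph L i x))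
      ≤ Real.exp (-l / 1000 + 2) * (nc cc γ τ i * Mg Q H N (fun x => γ * nph L i x)) := by
  have hγ0' : 0 ≤ γ := by linarith
  have e1 := (nmom (a := γ * (1 + 1 / 100)) hM hτ hi (by nlinarith) (by nlinarith)).2
  have e3 := nmean_low (γ := γ) (cc := cc) hM hτ hi hγ0' (by linarith) hcc hm
  set X : ℝ := τ * ((i.2 : ℝ) + 2) with hXdef
  obtain ⟨z, hz⟩ : ∃ z : ℝ, cc = Real.exp z := ⟨Real.log cc, (Real.exp_log hcc).symm⟩
  have hz1 : z ≤ 0 := by rwa [hz, Real.exp_le_one_iff] at hcc1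
  rw [nc_pow hcc, ← Real.exp_add, ← Real.exp_mul, ← hXdef]
  have e4 : cc ^ (1 + 1 / 100 : ℝ) = Real.exp (z * (1 + 1 / 100)) := by
    rw [hz, ← Real.exp_mul]
  rw [e4]
  calc Real.exp ((3 * l + -(γ * T)) * (-(1 / 100))) * (Real.exp (z * (1 + 1 / 100))
        * Real.exp ((1 + 1 / 100) * (γ * X / 2)) * Mg Q H N (fun x => γ * (1 + 1 / 100) * nph L i x))
      ≤ Real.exp ((3 * l + -(γ * T)) * (-(1 / 100))) * (Real.exp (z * (1 + 1 / 100))
        * Real.exp ((1 + 1 / 100) * (γ * X / 2)) * Real.exp (X * ((γ * (1 + 1 / 100)) ^ 2 / 2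
          - m * (γ * (1 + 1 / 100))) + err)) := by gcongr
    _ = Real.exp ((3 * l + -(γ * T)) * (-(1 / 100)) + (z * (1 + 1 / 100)
        + ((1 + 1 / 100) * (γ * X / 2))
        + (X * ((γ * (1 + 1 / 100)) ^ 2 / 2 - m * (γ * (1 + 1 / 100))) + err))) := by
        rw [← Real.exp_add, ← Real.exp_add, ← Real.exp_add]
    _ ≤ Real.exp (-l / 1000 + 2 + (z + (-(γ * δ * X) - err))) := by
        apply Real.exp_le_exp.2
        rw [hm]
        have h1 : 0 ≤ γ * δ := by positivity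
        have h3 : γ * γ ≤ 51 / 100 * (51 / 100) := by gcongr
        have h5 : 0 ≤ X * (γ * δ) := by positivity
        have h6 : 0 ≤ X * (51 / 100 * (51 / 100) - γ * γ) := mul_nonneg hX0 (by linarith)
        have h7 : γ * T ≤ 51 / 100 * (l / 100) := by gcongr
        nlinarith
    _ = Real.exp (-l / 1000 + 2) * (Real.exp z * Real.exp (-(γ * δ * X) - err)) := by
        rw [← Real.exp_add, ← Real.exp_add]
    _ ≤ _ := by
        rw [← hz]
        gcongr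

end Win

/-- **The window of values of one block.** -/
theorem n_window {Ω : Type*} [MeasurableSpace Ω] {Q : Measure Ω} [IsProbabilityMeasure Q]
    {H : ℕ → Ω → ℝ} {lam err p0 c1 T κ α τ : ℝ} {n j1 j2 r L : ℕ} (np : NP p0 c1 T κ α n j1 j2 r)
    (hp0 : 0 < p0) (hc1 : 0 < c1) (hc11 : c1 ≤ 1) (hT0 : 0 ≤ T)
    (hT : 16900 * Real.exp (-(T / 4) + 2) ≤ p0 / 8)
    (hM : MgfB Q H ((j1 + j2 + 3) * L) lam (3 / 4 + κ * (1 - α) ^ (1 / 4 : ℝ)) err)
    (hτ : lam ^ 2 * L = τ) (hτ1 : 1 ≤ τ) (hτ2 : τ ≤ 101 / 100) (hL : 0 < L) (herr : err ≤ 1)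
    {G : ℕ × ℕ → Set Ω} (hG : ∀ i ∈ range j1 ×ˢ Ico j1 j2, MeasurableSet (G i))
    (hp : ∀ i ∈ range j1 ×ˢ Ico j1 j2,
      p0 * Mg Q H ((j1 + j2 + 3) * L) (fun x => 1 / (1 + α) * nph L i x)
      ≤ ∫ ω in G i, Real.exp (Lf H ((j1 + j2 + 3) * L) (fun x => 1 / (1 + α) * nph L i x) ω) ∂Q) :
    nM p0 c1 T α j1 j2 ≤ ∫ ω, (if Real.exp (2 * Real.log n) ≤ XG H ((j1 + j2 + 3) * L)
        (range j1 ×ˢ Ico j1 j2) G (nc (nCC c1 α j1 j2) (1 / (1 + α)) τ) (nph L) (1 / (1 + α)) ω ∧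
      XG H ((j1 + j2 + 3) * L)
        (range j1 ×ˢ Ico j1 j2) G (nc (nCC c1 α j1 j2) (1 / (1 + α)) τ) (nph L) (1 / (1 + α)) ω
        < Real.exp (3 * Real.log n)
      then XG H ((j1 + j2 + 3) * L)
        (range j1 ×ˢ Ico j1 j2) G (nc (nCC c1 α j1 j2) (1 / (1 + α)) τ) (nph L) (1 / (1 + α)) ω
      else 0) ∂Q := by
  set γ : ℝ := 1 / (1 + α) with hγ
  set m : ℝ := 3 / 4 + κ * (1 - α) ^ (1 / 4 : ℝ) with hmdef
  set δ : ℝ := nδ κ α with hδ
  have hm : m = δ + (1 + γ) / 2 := by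
    rw [hδ]; unfold nδ; rw [← hγ, ← hmdef]; ring
  set l : ℝ := Real.log n with hl
  set cc : ℝ := nCC c1 α j1 j2 with hcc
  set N : ℕ := (j1 + j2 + 3) * L with hN
  set F : Finset (ℕ × ℕ) := range j1 ×ˢ Ico j1 j2 with hF
  have hα1 := np.α1
  have hα2 := np.α2
  have hγ0 : 1 / 2 ≤ γ := by
    rw [hγ, div_le_div_iff₀ (by norm_num) (by linarith)]; linarith
  have hγ1 := np.γ1
  have hδ0 := np.δ0
  have hδ1 := np.δ1
  have hδ2 := np.δ2
  have hl2 := np.l1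
  rw [← hγ] at hγ1
  rw [← hδ] at hδ0 hδ1 hδ2
  rw [← hl] at hδ2 hl2
  have hc1b : 0 < c1 * (1 - α) / 4 := by
    have : 0 < 1 - α := by linarith
    positivity
  have hcc0 : 0 < cc := by
    rw [hcc]; unfold nCC
    positivity
  have hcc1 : cc ≤ 1 := by
    rw [hcc]; unfold nCC
    have h1 : (c1 * (1 - α) / 4) ^ (1 / (1 + α)) ≤ 1 := by
      refine Real.rpow_le_one hc1b.le ?_ (by rw [← hγ]; linarith)
      have : c1 * (1 - α) ≤ 1 * 1 := by
        refine mul_le_mul hc11 (by linarith) (by linarith) (by norm_num)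
      linarith
    have h2 : (1 : ℝ) ≤ ((j1 + j2 + 3 : ℕ) : ℝ) := by
      have : 1 ≤ j1 + j2 + 3 := by omega
      exact_mod_cast this
    rw [div_le_one (by linarith)]
    linarith
  have hj1 := np.j1a
  have hj2 := np.j2a
  have hgeo : ∀ i ∈ F, (i.1 + 2 + i.2) * L < N := by
    intro i hi
    rw [hF, mem_product, mem_range, mem_Ico] at hi
    rw [hN]
    exact Nat.mul_lt_mul_of_pos_right (by omega) hL
  have hXl : ∀ i ∈ F, 18 * l ≤ τ * ((i.2 : ℝ) + 2) := by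
    intro i hi
    rw [hF, mem_product, mem_range, mem_Ico] at hi
    have h1 : (j1 : ℝ) ≤ i.2 := by exact_mod_cast hi.2.1
    nlinarith
  have hXu : ∀ i ∈ F, τ * ((i.2 : ℝ) + 2) ≤ 21 * l := by
    intro i hi
    rw [hF, mem_product, mem_range, mem_Ico] at hi
    have h1 : (i.2 : ℝ) + 1 ≤ j2 := by exact_mod_cast hi.2.2
    calc τ * ((i.2 : ℝ) + 2) ≤ 101 / 100 * (20 * l + 1) :=
          mul_le_mul hτ2 (by linarith) (by positivity) (by norm_num)
      _ ≤ 21 * l := by linarith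
  have hint := base_int0 (θ := 1 / 100) (T := T) (lo := Real.exp (2 * l)) (hi := Real.exp (3 * l))
    (p0 := p0) (γ := γ) hM (F := F) hG (c := nc cc γ τ) (fun i _ => nc_pos hcc0 γ τ i) (φ := nph L)
    (fun i _ => nph_nn i) (fun i _ => nph_le i) (by linarith) (by linarith) (by norm_num)
    (by norm_num) (Real.exp_pos _) (Real.exp_pos _) hp
  set I : ℝ := ∫ ω, (if Real.exp (2 * l) ≤ XG H N F G (nc cc γ τ) (nph L) γ ω ∧
      XG H N F G (nc cc γ τ) (nph L) γ ω < Real.exp (3 * l)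
      then XG H N F G (nc cc γ τ) (nph L) γ ω else 0) ∂Q with hI
  have hI0 : 0 ≤ I := by
    refine integral_nonneg fun ω => ?_
    simp only [Pi.zero_apply]
    split_ifs with h
    · exact (Real.exp_pos _).le.trans h.1
    · exact le_rfl
  have hterm : ∀ i ∈ F, p0 / 2 * (cc * Real.exp (-23))
      ≤ p0 * (nc cc γ τ i * Mg Q H N (fun x => γ * nph L i x))
        - Real.exp (-(γ * T / 2)) * ∑ i' ∈ F, nc cc γ τ i ^ (1 / 2 : ℝ) * nc cc γ τ i' ^ (1 / 2 : ℝ)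
            * Mg Q H N (fun x => γ * (nph L i x + nph L i' x) / 2)
        - Real.exp (2 * l) ^ (1 / 100 : ℝ) * (nc cc γ τ i ^ (1 - 1 / 100 : ℝ)
            * Mg Q H N (fun x => γ * (1 - 1 / 100) * nph L i x))
        - (Real.exp (3 * l) * Real.exp (-(γ * T))) ^ (-(1 / 100) : ℝ)
            * (nc cc γ τ i ^ (1 + 1 / 100 : ℝ) * Mg Q H N (fun x => γ * (1 + 1 / 100) * nph L i x)) := by
    intro i hi
    have hgi := hgeo i hi
    have hX1 := hXl i hi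
    have hX2 := hXu i hi
    have a1 := npair_sum (j1 := j1) (j2 := j2) hM hτ hgeo hi hγ0 hγ1 hcc0 hm hδ0 hδ1 hτ1
    have a2 := nlow_term (l := l) hM hτ hgi hγ0 hγ1 hcc0 hm hδ0 hδ1 (by linarith) hX1 np.cc1 herr
    have a3 := nup_term (l := l) (T := T) hM hτ hgi hγ0 hγ1 hcc0 hcc1 hm hδ0 hδ1 (by linarith)
      (by linarith) hX2 np.T1 hT0 herr
    have a4 := nmean_low (γ := γ) (cc := cc) hM hτ hgi (by linarith) (by linarith) hcc0 hm
    set M := nc cc γ τ i * Mg Q H N (fun x => γ * nph L i x) with hMdef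
    have hM0 : 0 ≤ M := mul_nonneg (nc_pos hcc0 _ _ _).le (Mg_nonneg _ _)
    have b1 : Real.exp (-(γ * T / 2)) * (16900 * Real.exp (2 * err) * M) ≤ p0 / 8 * M := by
      have c1 : Real.exp (-(γ * T / 2)) * (16900 * Real.exp (2 * err))
          ≤ 16900 * Real.exp (-(T / 4) + 2) := by
        rw [Real.exp_add]
        have c2 : Real.exp (-(γ * T / 2)) ≤ Real.exp (-(T / 4)) := by
          apply Real.exp_le_exp.2
          nlinarith
        have c3 : Real.exp (2 * err) ≤ Real.exp 2 := Real.exp_le_exp.2 (by linarith)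
        calc _ ≤ Real.exp (-(T / 4)) * (16900 * Real.exp 2) := by gcongr
          _ = _ := by ring
      calc _ = (Real.exp (-(γ * T / 2)) * (16900 * Real.exp (2 * err))) * M := by ring
        _ ≤ (p0 / 8) * M := by
            gcongr
            exact c1.trans hT
    have b1' := (mul_le_mul_of_nonneg_left a1 (Real.exp_pos (-(γ * T / 2))).le).trans b1
    have hw := np.w1
    rw [← hl] at hw
    have b2 : Real.exp (-l / 1000 + 2) * M ≤ p0 / 16 * M := by gcongr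
    have b3 : cc * Real.exp (-23) ≤ M := by
      refine le_trans ?_ a4
      gcongr
      have d1 : γ * δ * (τ * ((i.2 : ℝ) + 2)) ≤ 51 / 100 * δ * (21 * l) := by
        have : 0 ≤ τ * ((i.2 : ℝ) + 2) := by linarith
        gcongr
      have d2 : 51 / 100 * δ * (21 * l) ≤ 51 / 100 * 21 * 2 := by
        calc 51 / 100 * δ * (21 * l) = 51 / 100 * 21 * (δ * l) := by ring
          _ ≤ _ := by gcongr
      linarith
    have b4 : p0 / 2 * (cc * Real.exp (-23)) ≤ p0 / 2 * M := by gcongr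
    have b5 : 0 ≤ p0 * M := by positivity
    linarith
  have hsum := (sum_le_sum hterm).trans hint
  rw [sum_const, nsmul_eq_mul] at hsum
  have hcard : ((F.card : ℕ) : ℝ) = (j1 : ℝ) * ((j2 : ℝ) - j1) := by
    rw [hF, card_product, card_range, Nat.card_Ico, Nat.cast_mul, Nat.cast_sub np.j12.le]
  rw [hcard] at hsum
  have hT1 : Real.exp ((1 - γ) * T) ≤ Real.exp T := by
    apply Real.exp_le_exp.2
    nlinarith
  have hfin : (j1 : ℝ) * ((j2 : ℝ) - j1) * (p0 / 2 * (cc * Real.exp (-23))) ≤ Real.exp T * I :=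
    hsum.trans (mul_le_mul_of_nonneg_right hT1 hI0)
  calc nM p0 c1 T α j1 j2 = Real.exp (-T) * ((j1 : ℝ) * ((j2 : ℝ) - j1)
        * (p0 / 2 * (cc * Real.exp (-23)))) := by
        unfold nM
        rw [show -T - 23 = -T + -23 by ring, Real.exp_add]
        ring
    _ ≤ Real.exp (-T) * (Real.exp T * I) := by gcongr
    _ = I := by
        rw [← mul_assoc, ← Real.exp_add]
        simp

end Pool.Agent.Cop

end
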