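import Mathlib
import Pool.Agent.Work.MP_cceb86_pr.NWin
import Pool.Agent.Work.MP_cceb86_pr.BaseLev

/-!
The base level, near `α = 1`.
-/

open Finset MeasureTheory ProbabilityTheory Filter Topology
open scoped ENNReal

noncomputable section

namespace Pool.Agent.Cop

universe u

/-- domination by the block variable -/
lemma ndom_block {Kk : ℕ → ℝ≥0∞} {Λ L d0 : ℕ} {F : Finset (ℕ × ℕ)} {G : ℕ × ℕ → Set (ℕ → ℝ)}
    {α c b lam : ℝ} (hα : 0 < α) (hc : 0 < c) (hb : 0 < b) (hΛ : 0 < Λ) (hL : 0 < L)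
    (hlow : ∀ H : ℕ → ℝ, ∑ i ∈ F, (G i).indicator (fun H => ENNReal.ofReal
      (4 * b / c * (L : ℝ) ^ (1 + α) *
      Real.exp (lam ^ 2 * (((i.2 : ℝ) + 2) * L) / 2 + ∑ x ∈ range (Λ * L), nph L i x * H x))) H
      ≤ Y2 (ren (kT Kk (fun i => ENNReal.ofReal (Real.exp (H i))))) (gs (Λ * L) d0 0 (Λ * L))
        (gs (Λ * L) d0 0 (Λ * L))) (H : ℕ → ℝ) :
    ENNReal.ofReal (XG (fun x (v : ℕ → ℝ) => v x) (Λ * L) F G
        (nc (b ^ (1 / (1 + α)) / (Λ : ℝ)) (1 / (1 + α)) (lam ^ 2 * L)) (nph L) (1 / (1 + α)) H)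
      ≤ VV (ren (kT Kk (fun i => ENNReal.ofReal (Real.exp (H i))))) (Λ * L) d0
        (c / 4) (1 / (1 + α)) (Λ * L) 0 := by
  classical
  have hα1 : 0 < 1 + α := by linarith
  have hΛR : (0 : ℝ) < Λ := by exact_mod_cast hΛ
  have hLR : (0 : ℝ) < L := by exact_mod_cast hL
  set γ : ℝ := 1 / (1 + α) with hγ
  have hγ0 : 0 < γ := by positivity
  have hγi : 1 / γ = 1 + α := by rw [hγ]; field_simp
  set l0 : ℕ := Λ * L with hl0
  have hl0R : (0 : ℝ) < (l0 : ℝ) := by rw [hl0]; push_cast; positivity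
  have hcc0 : 0 < b ^ γ / (Λ : ℝ) := by positivity
  -- the coefficients
  have hcoef : ∀ i : ℕ × ℕ, c / 4 * (4 * b / c * (L : ℝ) ^ (1 + α) *
      Real.exp (lam ^ 2 * (((i.2 : ℝ) + 2) * L) / 2 + ∑ x ∈ range l0, nph L i x * H x))
      = (l0 : ℝ) ^ (1 + α) * (nc (b ^ γ / (Λ : ℝ)) γ (lam ^ 2 * L) i ^ (1 / γ)
        * Real.exp (Lf (fun x (v : ℕ → ℝ) => v x) l0 (nph L i) H)) := by
    intro i
    have e1 : nc (b ^ γ / (Λ : ℝ)) γ (lam ^ 2 * L) i ^ (1 / γ)
        = b / (Λ : ℝ) ^ (1 + α) * Real.exp (lam ^ 2 * (((i.2 : ℝ) + 2) * L) / 2) := by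
      rw [nc_pow hcc0, Real.div_rpow (by positivity) hΛR.le, ← Real.rpow_mul hb.le,
        mul_one_div_cancel hγ0.ne', Real.rpow_one, hγi]
      congr 2
      have h3 : (1 + α) * γ = 1 := by rw [hγ]; field_simp
      linear_combination (lam ^ 2 * L * ((i.2 : ℝ) + 2) / 2) * h3
    rw [e1, Real.exp_add, hl0]
    push_cast
    rw [Real.mul_rpow hΛR.le hLR.le]
    have p1 : 0 < (Λ : ℝ) ^ (1 + α) := Real.rpow_pos_of_pos hΛR _
    unfold Lf
    field_simp
  set SS : ℝ := ∑ i ∈ F, (G i).indicator (fun ω => nc (b ^ γ / (Λ : ℝ)) γ (lam ^ 2 * L) i ^ (1 / γ)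
        * Real.exp (Lf (fun x (v : ℕ → ℝ) => v x) l0 (nph L i) ω)) H with hSS
  have hSSi : ∀ i ∈ F, 0 ≤ (G i).indicator (fun ω => nc (b ^ γ / (Λ : ℝ)) γ (lam ^ 2 * L) i ^ (1 / γ)
        * Real.exp (Lf (fun x (v : ℕ → ℝ) => v x) l0 (nph L i) ω)) H := by
    intro i _
    refine Set.indicator_nonneg (fun ω _ => ?_) _
    have := nc_pos hcc0 γ (lam ^ 2 * L) i
    positivity
  have hSS0 : 0 ≤ SS := sum_nonneg hSSi
  have h1 : ENNReal.ofReal ((l0 : ℝ) ^ (1 + α) * SS) ≤ ENNReal.ofReal (c / 4)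
      * Y2 (ren (kT Kk (fun i => ENNReal.ofReal (Real.exp (H i))))) (gs l0 d0 0 l0)
          (gs l0 d0 0 l0) := by
    refine le_trans (le_of_eq ?_) (mul_le_mul_right (hlow H) _)
    rw [mul_sum, mul_sum, ENNReal.ofReal_sum_of_nonneg]
    · refine sum_congr rfl fun i _ => ?_
      simp only [Set.indicator]
      split_ifs with h
      · rw [← ENNReal.ofReal_mul (by positivity), hcoef i]
      · simp
    · intro i hi
      have := hSSi i hi
      positivity
  have h2 : ENNReal.ofReal (l0 * SS ^ γ) ≤ (ENNReal.ofReal (c / 4)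
      * Y2 (ren (kT Kk (fun i => ENNReal.ofReal (Real.exp (H i))))) (gs l0 d0 0 l0)
          (gs l0 d0 0 l0)) ^ γ := by
    refine le_trans (le_of_eq ?_) (ENNReal.rpow_le_rpow h1 hγ0.le)
    rw [ENNReal.ofReal_rpow_of_nonneg (by positivity) hγ0.le, Real.mul_rpow (by positivity) hSS0,
      ← Real.rpow_mul hl0R.le]
    have : (1 + α) * γ = 1 := by rw [hγ]; field_simp
    rw [this, Real.rpow_one]
  unfold VV
  rw [zero_mul, zero_add, one_mul]
  rw [ENNReal.le_div_iff_mul_le (Or.inl (by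
    have : l0 ≠ 0 := by rw [hl0]; positivity
    exact_mod_cast this)) (Or.inl (by simp))]
  refine le_trans (le_of_eq ?_) h2
  have e2 : XG (fun x (v : ℕ → ℝ) => v x) l0 F G (nc (b ^ γ / (Λ : ℝ)) γ (lam ^ 2 * L)) (nph L) γ H
      = SS ^ γ := rfl
  rw [e2, mul_comm, ENNReal.ofReal_mul hl0R.le, ENNReal.ofReal_natCast]

/-- the total mass of one block -/
def nAb (c1 α : ℝ) (j1 j2 : ℕ) : ℝ := (j1 : ℝ) * j2 * nCC c1 α j1 j2 * Real.exp 1

/-- **The base level near `α = 1`.** -/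
theorem n_lev {p0 c1 T κ : ℝ} (hp0 : 0 < p0) (hc1 : 0 < c1) (hc11 : c1 ≤ 1) (hT0 : 0 ≤ T)
    (hT : 16900 * Real.exp (-(T / 4) + 2) ≤ p0 / 8) {α : ℝ} {n j1 j2 r : ℕ}
    (np : NP p0 c1 T κ α n j1 j2 r) {c : ℝ} (hc : 0 < c) {K : ℕ → ℝ} (hK : IsLaw α c K)
    {Ω : Type u} [MeasurableSpace Ω] {Q : Measure Ω} {w : ℕ → Ω → ℝ} (hw : IsDisorder Q w)
    (HB : ∀ d0 Λ : ℕ, ∃ lam0 : ℝ, 0 < lam0 ∧ ∀ lam : ℝ, 0 < lam → lam < lam0 →
      ∀ L1 : ℕ, 1 ≤ lam ^ 2 * L1 → lam ^ 2 * L1 ≤ 2 → ∀ F : Finset (ℕ × ℕ),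
      (∀ i ∈ F, i.1 + 2 + i.2 < Λ ∧ 1 ≤ i.2 ∧
        lam ^ 2 * (((i.2 : ℝ) + 2) * L1) ≤ 21 * Real.log n) →
      ∃ G : ℕ × ℕ → Set (ℕ → ℝ),
        NBase Q (fun x om => -2 * lam * (w x om + (3 / 4 + κ * (1 - α) ^ (1 / 4 : ℝ)) * lam))
          (Ke K) (Λ * L1) d0 L1 F G
          (c1 * (1 - α) / c * (L1 : ℝ) ^ (1 + α)) p0 lam (1 / (1 + α))) :
    ∃ lam0 : ℝ, 0 < lam0 ∧ ∀ lam : ℝ, 0 < lam → lam < lam0 →
    ∃ l0 d0 : ℕ, ∃ cs : ℝ, 0 < l0 ∧ 0 < d0 ∧ 0 < cs ∧
      (∀ n : ℕ, d0 ≤ n → cs * (n : ℝ) ^ (-(1 + α)) ≤ K n / 2) ∧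
      LevP Q n (fun k x => VV (ren (kT (Ke K) (fun j => ew w lam
          ((3 / 4 + κ * (1 - α) ^ (1 / 4 : ℝ)) * lam) j x))) l0 d0 cs (1 / (1 + α)) l0 k)
        (3 * Real.log n) (fun s => if s = 2 then nM p0 c1 T α j1 j2 else 0) (nAb c1 α j1 j2) := by
  classical
  have := hw.prob
  have hα1 := np.α1
  have hα2 := np.α2
  have hα : 0 < α := by linarith
  have hα1' : 0 < 1 + α := by linarith
  set ℓ : ℝ := Real.log n with hℓ
  have hℓ2 := np.l1
  rw [← hℓ] at hℓ2
  have hℓ0 : 0 < ℓ := by linarith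
  set m : ℝ := 3 / 4 + κ * (1 - α) ^ (1 / 4 : ℝ) with hm
  set Λ : ℕ := j1 + j2 + 3 with hΛ
  have hΛn : 0 < Λ := by omega
  have hΛ0 : (0 : ℝ) < Λ := by exact_mod_cast hΛn
  -- `d0`
  obtain ⟨n₀, hn₀⟩ := eventually_atTop.1 (hK.bounds hc (show (0 : ℝ) < 1 / 2 by norm_num))
  set d0 : ℕ := n₀ + 1 with hd0'
  set cs : ℝ := c / 4 with hcs
  have hcs0 : 0 < cs := by positivity
  have hKl : ∀ k : ℕ, d0 ≤ k → cs * (k : ℝ) ^ (-(1 + α)) ≤ K k / 2 := by
    intro k hk
    have := (hn₀ k (by omega)).1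
    rw [hcs]
    linarith
  obtain ⟨Cm, hCm, Hm⟩ := mgfB_of hw
  obtain ⟨lam1, hlam1, HB1⟩ := HB d0 Λ
  set lam0 : ℝ := min (min lam1 (1 / 16)) (1 / (2 * Cm * Λ + 1)) with hlam0
  have hlam00 : 0 < lam0 := by positivity
  refine ⟨lam0, hlam00, ?_⟩
  intro lam hlam hlamlt
  have hl1 : lam < lam1 := hlamlt.trans_le ((min_le_left _ _).trans (min_le_left _ _))
  have hl8 : lam ≤ 1 / 16 := hlamlt.le.trans ((min_le_left _ _).trans (min_le_right _ _))
  have hlC : lam ≤ 1 / (2 * Cm * Λ + 1) := hlamlt.le.trans (min_le_right _ _)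
  have hlam2 : 0 < lam ^ 2 := by positivity
  set L : ℕ := ⌈1 / lam ^ 2⌉₊ with hL
  have hL1 : 1 / lam ^ 2 ≤ L := Nat.le_ceil _
  have hL2 : (L : ℝ) < 1 / lam ^ 2 + 1 := Nat.ceil_lt_add_one (by positivity)
  have hLpos : 0 < L := by
    have : (0 : ℝ) < L := lt_of_lt_of_le (by positivity) hL1
    exact_mod_cast this
  have hτ0 : 1 ≤ lam ^ 2 * L := by
    rw [div_le_iff₀ hlam2] at hL1
    linarith
  have hτ1 : lam ^ 2 * L ≤ 101 / 100 := by
    calc lam ^ 2 * L ≤ lam ^ 2 * (1 / lam ^ 2 + 1) := by gcongr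
      _ = 1 + lam ^ 2 := by field_simp
      _ ≤ 101 / 100 := by nlinarith
  set l0 : ℕ := Λ * L with hl0
  have hl0pos : 0 < l0 := by positivity
  set err : ℝ := Cm * lam ^ 3 * l0 with herr
  have herr1 : err ≤ 1 := by
    have h1 : err = Cm * Λ * (lam * (lam ^ 2 * L)) := by
      rw [herr, hl0]; push_cast; ring
    rw [h1]
    rw [le_div_iff₀ (by positivity)] at hlC
    calc Cm * Λ * (lam * (lam ^ 2 * L)) ≤ Cm * Λ * (lam * 2) :=
          mul_le_mul_of_nonneg_left (mul_le_mul_of_nonneg_left (by linarith) hlam.le)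
            (by positivity)
      _ = lam * (2 * Cm * Λ) := by ring
      _ ≤ 1 := by nlinarith
  -- the deterministic data
  set F : Finset (ℕ × ℕ) := range j1 ×ˢ Ico j1 j2 with hF
  have hj1 := np.j1a
  have hj2 := np.j2a
  rw [← hℓ] at hj1 hj2
  have hj1pos : 1 ≤ j1 := by
    have : (0 : ℝ) < j1 := by linarith
    exact_mod_cast this
  have hM := Hm lam m hlam (by linarith) l0
  set Hw : ℕ → Ω → ℝ := fun x om => -2 * lam * (w x om + m * lam) with hHw
  obtain ⟨G, hG⟩ := HB1 lam hlam hl1 L hτ0 (by linarith) F (by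
    intro i hi
    rw [hF, mem_product, mem_range, mem_Ico] at hi
    refine ⟨by omega, by omega, ?_⟩
    have h1 : (i.2 : ℝ) + 1 ≤ j2 := by exact_mod_cast hi.2.2
    calc lam ^ 2 * (((i.2 : ℝ) + 2) * L) = (lam ^ 2 * L) * ((i.2 : ℝ) + 2) := by ring
      _ ≤ 101 / 100 * (20 * ℓ + 1) :=
          mul_le_mul hτ1 (by linarith) (by positivity) (by norm_num)
      _ ≤ 21 * ℓ := by linarith)
  have hb0 : 0 < c1 * (1 - α) / 4 := by
    have : 0 < 1 - α := by linarith
    positivity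
  have hcc0 : 0 < nCC c1 α j1 j2 := by
    unfold nCC
    positivity
  set γ : ℝ := 1 / (1 + α) with hγ
  set ncc : ℕ × ℕ → ℝ := nc (nCC c1 α j1 j2) γ (lam ^ 2 * L) with hncc
  set Xd : (ℕ → ℝ) → ℝ := XG (fun x (v : ℕ → ℝ) => v x) l0 F G ncc (nph L) γ with hXd
  have hXdm : Measurable Xd :=
    XG_meas (fun x => measurable_pi_apply x) _ _ hG.meas _ _ _
  set G' : ℕ × ℕ → Set Ω := fun i => {om | (fun x => Hw x om) ∈ G i} with hG'
  have hHwm : Measurable (fun om => (fun x => Hw x om)) := by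
    refine measurable_pi_iff.2 fun x => ?_
    have := hw.meas x
    simp only [hHw]
    fun_prop
  have hG'm : ∀ i ∈ F, MeasurableSet (G' i) := fun i hi => hHwm (hG.meas i hi)
  have hXX : ∀ om, Xd (fun x => Hw x om) = XG Hw l0 F G' ncc (nph L) γ om := fun om => rfl
  have hXXm : Measurable (XG Hw l0 F G' ncc (nph L) γ) := XG_meas hM.meas _ _ hG'm _ _ _
  refine ⟨l0, d0, cs, hl0pos, by omega, hcs0, hKl, ?_⟩
  refine lev_of_block hw hl0pos (fun v => vl 0 ℓ (Xd v)) ((vl_meas 0 ℓ).comp hXdm) ?_ ?_ ?_ ?_ ?_ ?_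
  · -- dependence
    intro H H' hHH
    have : Xd H = Xd H' := by
      simp only [hXd]
      unfold XG Lf
      congr 1
      refine sum_congr rfl fun i hi => ?_
      have h1 : H ∈ G i ↔ H' ∈ G i :=
        ⟨hG.dep i hi H H' hHH, hG.dep i hi H' H fun x hx hx' => (hHH x hx hx').symm⟩
      have h2 : ∀ x ∈ range l0, nph L i x * H x = nph L i x * H' x := by
        intro x hx
        rw [mem_range] at hx
        by_cases hx0 : 0 < x
        · rw [hHH x hx0 hx]
        · have : nph L i x = 0 := by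
            unfold nph nI
            rw [if_neg]
            rw [mem_Ioc]
            omega
          rw [this]; simp
      by_cases h3 : H ∈ G i
      · rw [Set.indicator_of_mem h3, Set.indicator_of_mem (h1.1 h3), sum_congr rfl h2]
      · rw [Set.indicator_of_notMem h3, Set.indicator_of_notMem (fun h => h3 (h1.2 h))]
    show vl 0 ℓ (Xd H) = vl 0 ℓ (Xd H')
    rw [this]
  · -- domination
    intro H
    refine (vl_le 0 hℓ0 _).trans ?_
    have hlow := hG.low
    have e1 : c1 * (1 - α) / c * (L : ℝ) ^ (1 + α)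
        = 4 * (c1 * (1 - α) / 4) / c * (L : ℝ) ^ (1 + α) := by ring
    rw [e1] at hlow
    exact ndom_block (G := G) hα hc hb0 hΛn hLpos hlow H
  · -- labels
    intro H hlab
    rcases vl_cases (J := 0) hℓ0 (Xd H) with ⟨s, hs, hin, hv⟩ | hv
    · rw [hv]
      simp only
      have h1 : (n : ℝ≥0∞) ^ s = ENNReal.ofReal (Real.exp (s * ℓ)) := by
        have hn0 : (0 : ℝ) < n := by
          have : 0 < n := by have := np.n3; omega
          exact_mod_cast this
        rw [← ENNReal.ofReal_natCast, ← ENNReal.ofReal_pow hn0.le, hℓ, mul_comm, Real.exp_mul,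
          Real.exp_log hn0, Real.rpow_natCast]
      rw [h1]
      exact ENNReal.ofReal_le_ofReal hin.1
    · rw [hv] at hlab
      simp at hlab
  · -- bound
    intro H
    rcases vl_cases (J := 0) hℓ0 (Xd H) with ⟨s, hs, hin, hv⟩ | hv
    · rw [hv]
      refine ENNReal.ofReal_le_ofReal (hin.2.le.trans (Real.exp_le_exp.2 ?_))
      rw [mem_Icc] at hs
      have h1 : (s : ℝ) ≤ 2 := by
        have : s ≤ 2 := by omega
        exact_mod_cast this
      refine mul_le_mul_of_nonneg_right ?_ hℓ0.le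
      linarith
    · rw [hv]; exact zero_le
  · -- masses
    intro s hs2
    split_ifs with hsJ
    · subst hsJ
      have hsI : (2 : ℕ) ∈ Icc 2 (0 + 2) := mem_Icc.2 ⟨le_rfl, le_rfl⟩
      have hset : {om | (vl 0 ℓ (Xd (fun i => -2 * lam * (w i om + m * lam)))).2 = 2}
          = {om | InW ℓ 2 (XG Hw l0 F G' ncc (nph L) γ om)} := by
        ext om
        simp only [Set.mem_ofPred_eq]
        rw [← hXX om]
        constructor
        · intro h1
          rcases vl_cases (J := 0) hℓ0 (Xd (fun x => Hw x om)) with ⟨t, _, hin, hv⟩ | hv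
          · have h2 : (vl 0 ℓ (Xd (fun x => Hw x om))).2 = 2 := h1
            rw [hv] at h2
            simp only at h2
            rwa [h2] at hin
          · have h2 : (vl 0 ℓ (Xd (fun x => Hw x om))).2 = 2 := h1
            rw [hv] at h2
            simp only at h2
            omega
        · intro h1
          have h2 := vl_of_in hℓ0 hsI h1
          show (vl 0 ℓ (Xd (fun x => Hw x om))).2 = 2
          rw [h2]
      have hms : MeasurableSet {om | InW ℓ 2 (XG Hw l0 F G' ncc (nph L) γ om)} :=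
        hXXm (measurableSet_inW ℓ 2)
      rw [hset]
      have hreal := n_window (τ := lam ^ 2 * L) np hp0 hc1 hc11 hT0 hT hM rfl hτ0 hτ1 hLpos herr1
        (G := G') hG'm hG.prob
      have hval : ∫⁻ om in {om | InW ℓ 2 (XG Hw l0 F G' ncc (nph L) γ om)},
            (vl 0 ℓ (Xd (fun i => -2 * lam * (w i om + m * lam)))).1 ∂Q
          = ENNReal.ofReal (∫ ω, (if Real.exp (2 * ℓ) ≤ XG Hw l0 F G' ncc (nph L) γ ω ∧
            XG Hw l0 F G' ncc (nph L) γ ω < Real.exp (3 * ℓ)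
            then XG Hw l0 F G' ncc (nph L) γ ω else 0) ∂Q) := by
        rw [ofReal_integral_eq_lintegral_ofReal]
        · rw [← lintegral_indicator hms]
          refine lintegral_congr fun om => ?_
          by_cases hin : InW ℓ 2 (XG Hw l0 F G' ncc (nph L) γ om)
          · rw [Set.indicator_of_mem (show om ∈ {om | InW ℓ 2 (XG Hw l0 F G' ncc (nph L) γ om)}
              from hin)]
            have hin' : Real.exp (2 * ℓ) ≤ XG Hw l0 F G' ncc (nph L) γ om ∧
                XG Hw l0 F G' ncc (nph L) γ om < Real.exp (3 * ℓ) := by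
              have := hin
              unfold InW at this
              norm_num at this
              exact this
            rw [if_pos hin']
            have h2 := vl_of_in hℓ0 hsI hin
            show (vl 0 ℓ (Xd (fun x => Hw x om))).1 = _
            rw [hXX om, h2]
          · rw [Set.indicator_of_notMem (show om ∉ {om | InW ℓ 2 (XG Hw l0 F G' ncc (nph L) γ om)}
              from hin)]
            have hin' : ¬ (Real.exp (2 * ℓ) ≤ XG Hw l0 F G' ncc (nph L) γ om ∧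
                XG Hw l0 F G' ncc (nph L) γ om < Real.exp (3 * ℓ)) := by
              intro h
              apply hin
              unfold InW
              norm_num
              exact h
            rw [if_neg hin']
            simp
        · refine Integrable.of_bound (C := Real.exp (3 * ℓ)) ?_ ?_
          · refine (Measurable.ite ?_ hXXm measurable_const).aestronglyMeasurable
            exact (measurableSet_le measurable_const hXXm).inter
              (measurableSet_lt hXXm measurable_const)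
          · refine Filter.Eventually.of_forall fun ω => ?_
            split_ifs with hc
            · rw [Real.norm_eq_abs, abs_of_nonneg ((Real.exp_pos _).le.trans hc.1)]
              exact hc.2.le
            · simpa using (Real.exp_pos _).le
        · refine Filter.Eventually.of_forall fun ω => ?_
          simp only [Pi.zero_apply]
          split_ifs with hc
          · exact (Real.exp_pos _).le.trans hc.1
          · exact le_rfl
      rw [hval]
      exact ENNReal.ofReal_le_ofReal hreal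
    · simp
  · -- the total
    refine (setLIntegral_le_lintegral _ _).trans ?_
    have h1 : ∫⁻ om, (vl 0 ℓ (Xd (fun i => -2 * lam * (w i om + m * lam)))).1 ∂Q
        ≤ ∫⁻ om, ENNReal.ofReal (XG Hw l0 F G' ncc (nph L) γ om) ∂Q :=
      lintegral_mono fun om => vl_le 0 hℓ0 _
    refine h1.trans ?_
    have hγ0 : 0 < γ := by positivity
    have hγ1 : γ ≤ 1 := by rw [hγ, div_le_one hα1']; linarith
    refine (base_mean0 hM G' (fun i _ => nc_pos hcc0 _ _ i) (fun i _ => nph_nn i)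
      (fun i _ => nph_le i) hγ0 hγ1).trans ?_
    refine ENNReal.ofReal_le_ofReal ?_
    have hδ0 := np.δ0
    have hmδ : m = nδ κ α + (1 + γ) / 2 := by
      unfold nδ; rw [← hγ, ← hm]; ring
    have hone : ∀ i ∈ F, ncc i * Mg Q Hw l0 (fun x => γ * nph L i x)
        ≤ nCC c1 α j1 j2 * Real.exp 1 := by
      intro i hi
      rw [hF, mem_product, mem_range, mem_Ico] at hi
      have hgi : (i.1 + 2 + i.2) * L < l0 := Nat.mul_lt_mul_of_pos_right (by omega) hLpos
      refine (nmean_up (δ := nδ κ α) hM rfl hgi hγ0.le hγ1 hcc0 hmδ).trans ?_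
      gcongr
      have : 0 ≤ γ * nδ κ α * (lam ^ 2 * L * ((i.2 : ℝ) + 2)) := by positivity
      linarith
    refine (sum_le_sum hone).trans ?_
    rw [sum_const, nsmul_eq_mul, hF, card_product, card_range, Nat.card_Ico]
    unfold nAb
    have h3 : ((j1 * (j2 - j1) : ℕ) : ℝ) ≤ (j1 : ℝ) * j2 := by
      have : j1 * (j2 - j1) ≤ j1 * j2 := Nat.mul_le_mul_left _ (Nat.sub_le _ _)
      exact_mod_cast this
    calc ((j1 * (j2 - j1) : ℕ) : ℝ) * (nCC c1 α j1 j2 * Real.exp 1)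
        ≤ (j1 : ℝ) * j2 * (nCC c1 α j1 j2 * Real.exp 1) := by gcongr
      _ = _ := by ring

end Pool.Agent.Cop

end
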