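import Mathlib
import Pool.Agent.Work.MP_cceb86_pr.NLev

/-!
Positivity of the free energy near `α = 1`.
-/

open Finset MeasureTheory ProbabilityTheory Filter Topology
open scoped ENNReal

noncomputable section

namespace Pool.Agent.Cop

universe u v

/-- **Positivity of the free energy below `3/4 + κ (1 - α)^{1/4}`.** -/
theorem free_pos_near (HB : NBlockS.{u}) (HP : NPS) :
    ∃ κ a0 : ℝ, 0 < κ ∧ a0 < 1 ∧ ∀ α : ℝ, a0 < α → α < 1 → ∀ c : ℝ, 0 < c →
      ∀ K : ℕ → ℝ, IsLaw α c K →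
      ∀ (Ω : Type v) (Ω' : Type u) [MeasurableSpace Ω] [MeasurableSpace Ω'] (P : Measure Ω)
        [IsProbabilityMeasure P] (Q : Measure Ω') (xi : ℕ → Ω → ℕ) (eps : ℕ → Ω → Bool)
        (w : ℕ → Ω' → ℝ), IsModel P K xi eps → IsDisorder Q w →
      ∃ lam0 : ℝ, 0 < lam0 ∧ ∀ lam : ℝ, 0 < lam → lam < lam0 → ∃ δ : ℝ, 0 < δ ∧
        ∀ᶠ N in atTop, δ ≤ freeN P xi eps Q w lam
          ((3 / 4 + κ * (1 - α) ^ (1 / 4 : ℝ)) * lam) N := by
  obtain ⟨p0, c1, hp0, hp1, hc1, hc11, HB⟩ := HB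
  set T : ℝ := max 0 (4 * (2 - Real.log (p0 / 8 / 16900))) with hTdef
  have hT0 : 0 ≤ T := le_max_left _ _
  have hT : 16900 * Real.exp (-(T / 4) + 2) ≤ p0 / 8 := by
    have h1 : -(T / 4) + 2 ≤ Real.log (p0 / 8 / 16900) := by
      have := le_max_right 0 (4 * (2 - Real.log (p0 / 8 / 16900)))
      rw [← hTdef] at this
      linarith
    have h2 := (Real.le_log_iff_exp_le (by positivity)).1 h1
    linarith
  obtain ⟨κ, a0, hκ, ha0, HP⟩ := HP p0 c1 T hp0 hp1 hc1 hc11 hT0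
  refine ⟨κ, a0, hκ, ha0, ?_⟩
  intro α hαa hα1 c hc K hK Ω Ω' _ _ P _ Q xi eps w hm hw
  have := hw.prob
  obtain ⟨n, j1, j2, r, np⟩ := HP α hαa hα1
  have hα12 := np.α1
  have hα : 0 < α := by linarith
  set m0 : ℝ := 3 / 4 + κ * (1 - α) ^ (1 / 4 : ℝ) with hm0
  have hm01 := np.m1
  have hκ0 := np.κ0
  have hlog2 := np.l1
  have hn3 := np.n3
  have hr1 := np.r1
  have hX1 := np.X1
  have hlogb : 1 ≤ 21 * Real.log n := by linarith
  obtain ⟨lam0, hlam0, Hlam⟩ := n_lev hp0 hc1 hc11 hT0 hT np hc hK hw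
    (HB α hα12 hα1 (21 * Real.log n) hlogb hX1 m0 (by linarith) hm01 c hc K hK Ω' Q w hw)
  refine ⟨lam0, hlam0, ?_⟩
  intro lam hlam hlam1
  obtain ⟨l0, d0, cs, hl0, hd0', hcs, hKl, hlev⟩ := Hlam lam hlam hlam1
  set H : ℝ := m0 * lam with hH
  set γ : ℝ := 1 / (1 + α) with hγ
  have hα1' : 0 < 1 + α := by linarith
  have hγ0 : 0 < γ := by positivity
  have hgam : (1 + α) * γ = 1 := by rw [hγ]; field_simp
  set R₀ : ℝ := 3 * Real.log n with hR₀
  have hR₀0 : 0 ≤ R₀ := by positivity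
  set T' : Ω' → ℕ → ℕ → ℝ≥0∞ := fun x => ren (kT (Ke K) (fun j => ew w lam H j x)) with hT'
  have hKl' : ∀ m : ℕ, d0 ≤ m → ENNReal.ofReal (cs * (m : ℝ) ^ (-(1 + α))) ≤ Ke K m / 2 := by
    intro m hm
    unfold Ke
    have h1 := ENNReal.ofReal_le_ofReal (hKl m hm)
    rwa [ENNReal.ofReal_div_of_pos (by norm_num), ENNReal.ofReal_ofNat] at h1
  have hn0 : 0 < n := by omega
  set mm : ℝ := nM p0 c1 T α j1 j2 with hmm
  have hM1 := np.M1
  rw [← hmm] at hM1
  have hmm0 : 0 < mm := by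
    by_contra hcon
    have : mm * (Real.log n - 1) ≤ 0 :=
      mul_nonpos_of_nonpos_of_nonneg (not_lt.1 hcon) (by linarith)
    linarith
  have hcc0 : 0 < nCC c1 α j1 j2 := by
    unfold nCC
    have : 0 < c1 * (1 - α) / 4 := by
      have : 0 < 1 - α := by linarith
      positivity
    positivity
  have hAb0 : 0 ≤ nAb c1 α j1 j2 := by unfold nAb; positivity
  -- the final step
  set Bn : ℕ := r * n with hBn
  have hBn0 : 0 < Bn := by positivity
  set W : Ω' → ℝ≥0∞ := fun x => VB (T' x) l0 d0 cs γ l0 Bn with hW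
  have hWm : Measurable W := by
    simp only [hW]
    unfold VB
    refine Measurable.div_const ?_ _
    refine Measurable.pow_const ?_ _
    exact (Y2_meas hw _ _ _ _ _).const_mul _
  have hfin := lev_final (Q := Q) (n := n) hn3
    (V := fun k x => VV (T' x) l0 d0 cs γ l0 k) (R := R₀)
    (Ab := nAb c1 α j1 j2) (m := mm) (a := fun s => if s = 2 then mm else 0) hR₀0
    hAb0 hlev (t := 1) le_rfl hr1 {2}
    (by
      intro s hs
      rw [mem_singleton] at hs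
      omega)
    hmm0.le (by simp) (by
      intro s
      split_ifs
      · exact hmm0.le
      · exact le_rfl)
    np.r2
    (W := W)
    (fun x i hi hB => VV_chain _ hcs.le hα.le hgam hd0' hl0 hKl'
      (dvd_refl _) hr1 i hi (fun k hk => by
        have := hB k hk
        rwa [pow_one] at this))
  have hnt : (0 : ℝ) < (n : ℝ) := by exact_mod_cast hn0
  have hstep : 3 * (Bn : ℝ) * (1 + r * R₀)
      < mm ^ r * (n : ℝ) ^ 1 * ((1 : ℕ) * Real.log n - 1) ^ (r - 1) / 2 := by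
    have h1 : mm ^ r = mm * mm ^ (r - 1) := by
      rw [← pow_succ', Nat.sub_add_cancel hr1]
    have h2 : mm ^ r * (n : ℝ) ^ 1 * ((1 : ℕ) * Real.log n - 1) ^ (r - 1) / 2
        = n * (mm * (mm * (Real.log n - 1)) ^ (r - 1) / 2) := by
      rw [h1, mul_pow]; push_cast; ring
    have h3 : (2 : ℝ) ^ (r - 1) ≤ (mm * (Real.log n - 1)) ^ (r - 1) :=
      pow_le_pow_left₀ (by norm_num) hM1 _
    have hr3 := np.r3
    rw [← hmm] at hr3
    rw [h2, hBn]
    push_cast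
    calc 3 * ((r : ℝ) * (n : ℝ)) * (1 + r * R₀)
        = (n : ℝ) * (6 * (r : ℝ) * (1 + r * R₀) / 2) := by ring
      _ < (n : ℝ) * (mm * 2 ^ (r - 1) / 2) := by
          refine mul_lt_mul_of_pos_left ?_ hnt
          have : 6 * (r : ℝ) * (1 + r * R₀) < mm * 2 ^ (r - 1) := hr3
          linarith
      _ ≤ (n : ℝ) * (mm * (mm * (Real.log n - 1)) ^ (r - 1) / 2) := by gcongr
  have hBn1 : (1 : ℝ) ≤ Bn := by exact_mod_cast hBn0
  obtain ⟨y, hy, hyp⟩ := tail_of_int (Q := Q) hWm (B := 3 * (Bn : ℝ))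
    (R := r * R₀) (by linarith) (by positivity)
    (lt_of_lt_of_le ((ENNReal.ofReal_lt_ofReal_iff (lt_of_le_of_lt (by positivity) hstep)).2 hstep)
      hfin)
  -- the rare stretch criterion
  set p : ℝ := (Q {x | ENNReal.ofReal y ≤ W x}).toReal with hp
  have hpQ : ENNReal.ofReal p = Q {x | ENNReal.ofReal y ≤ W x} :=
    ENNReal.ofReal_toReal (measure_ne_top _ _)
  have hyp' : 3 * (Bn : ℝ) < y * p := by
    rw [← hpQ, ← ENNReal.ofReal_mul hy.le] at hyp
    exact (ENNReal.ofReal_lt_ofReal_iff_of_nonneg (by positivity)).1 hyp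
  have hp0' : 0 < p := by
    by_contra hcon
    have : y * p ≤ 0 := mul_nonpos_of_nonneg_of_nonpos hy.le (not_lt.1 hcon)
    linarith
  have hlR : (0 : ℝ) < l0 := by exact_mod_cast hl0
  set Y : ℝ := (y * l0) ^ (1 + α) / cs with hY
  have hY0 : 0 < Y := by positivity
  have hcsY : (cs * Y) ^ (1 / (1 + α)) = y * l0 := by
    rw [hY, mul_div_cancel₀ _ hcs.ne', ← Real.rpow_mul (by positivity), mul_one_div_cancel hα1'.ne',
      Real.rpow_one]
  refine rare_stretch hm hK hα hα1 hc hw (lam := lam) (h := H) (cs := cs) (Y := Y) (p := p)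
    (ℓ := Bn * l0) (d0 := d0) (G := gs l0 d0 0 (Bn * l0)) hd0' hcs hKl ?_ hY0 (by positivity) hp0' ?_ ?_
  · intro x hx
    exact gs_end hl0 (Dvd.intro_left _ rfl) hx
  · rw [hpQ]
    refine measure_mono fun x hx => ?_
    simp only [Set.mem_ofPred_eq] at hx ⊢
    rw [YG_eq_Y2]
    have h1 : ENNReal.ofReal y * (l0 : ℝ≥0∞) ≤ (ENNReal.ofReal cs * Y2 (T' x)
        (gs l0 d0 0 (Bn * l0)) (gs l0 d0 0 (Bn * l0))) ^ γ := by
      have h2 : ENNReal.ofReal y ≤ VB (T' x) l0 d0 cs γ l0 Bn := hx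
      unfold VB at h2
      rwa [ENNReal.le_div_iff_mul_le (Or.inl (by positivity)) (Or.inl (by simp))] at h2
    have h3 : ENNReal.ofReal (y * l0) ^ (1 + α) ≤ ENNReal.ofReal cs * Y2 (T' x)
        (gs l0 d0 0 (Bn * l0)) (gs l0 d0 0 (Bn * l0)) := by
      rw [ENNReal.ofReal_mul hy.le, ENNReal.ofReal_natCast]
      have h4 := ENNReal.rpow_le_rpow h1 hα1'.le
      rwa [← ENNReal.rpow_mul, mul_comm γ, hgam, ENNReal.rpow_one] at h4
    rw [hY, ENNReal.ofReal_div_of_pos hcs]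
    rw [ENNReal.div_le_iff_le_mul (Or.inl (by simpa using hcs)) (Or.inl ENNReal.ofReal_ne_top)]
    rw [← ENNReal.ofReal_rpow_of_nonneg (by positivity) hα1'.le,
      mul_comm _ (ENNReal.ofReal cs)]
    exact h3
  · rw [hcsY]
    push_cast
    calc 3 * ((Bn : ℝ) * l0) = (3 * Bn) * l0 := by ring
      _ < (y * p) * l0 := by gcongr
      _ = p * (y * l0) := by ring

end Pool.Agent.Cop

end
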