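import Mathlib
import Pool.Agent.Work.MP_cceb86_pr.NFin
import Pool.Agent.Work.MP_cceb86_pr.FinSharp

/-!
Two-sided statement near `α = 1`.
-/

open Finset MeasureTheory ProbabilityTheory Filter Topology
open scoped ENNReal NNReal

noncomputable section

namespace Pool.Agent.Cop

universe u v

theorem near_of (HB : NBlockS.{u}) (HP : NPS) :
    ∃ κ α₀ : ℝ, 0 < κ ∧ α₀ < 1 ∧ ∀ α : ℝ, 0 < α → α < 1 →
      (α₀ < α → (2 + α) / (2 * (1 + α)) < 3 / 4 + κ * (1 - α) ^ (1 / 4 : ℝ)) ∧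
      ∀ c : ℝ, 0 < c → ∀ K : ℕ → ℝ, IsLaw α c K →
      ∀ {Ω : Type v} {Ω' : Type u} [MeasurableSpace Ω] [MeasurableSpace Ω'] (P : Measure Ω)
        [IsProbabilityMeasure P] (Q : Measure Ω') (xi : ℕ → Ω → ℕ) (eps : ℕ → Ω → Bool),
        IsModel P K xi eps → ∀ w : ℕ → Ω' → ℝ, IsDisorder Q w →
      ∃ lam₀ : ℝ, 0 < lam₀ ∧ ∀ lam : ℝ, 0 < lam → lam < lam₀ →
        hcrit P xi eps Q w lam ≤ (3 / 4 + 13 * (1 - α) ^ (1 / 4 : ℝ)) * lam ∧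
        (∀ h : ℝ, (3 / 4 + 13 * (1 - α) ^ (1 / 4 : ℝ)) * lam ≤ h →
          Tendsto (fun N : ℕ => freeN P xi eps Q w lam h N) atTop (𝓝 0)) ∧
        (α₀ < α → (3 / 4 + κ * (1 - α) ^ (1 / 4 : ℝ)) * lam ≤ hcrit P xi eps Q w lam ∧
          ∀ h : ℝ, h ≤ (3 / 4 + κ * (1 - α) ^ (1 / 4 : ℝ)) * lam →
            ∃ δ : ℝ, 0 < δ ∧ ∀ᶠ N in atTop, δ ≤ freeN P xi eps Q w lam h N) := by
  obtain ⟨κ, a0, hκ, ha0, H1⟩ := free_pos_near.{u, v} HB HP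
  set b0 : ℝ := min 1 (κ ^ (4 / 3 : ℝ)) with hb0
  have hb0' : 0 < b0 := by positivity
  refine ⟨κ, max a0 (1 - b0), hκ, max_lt ha0 (by linarith), ?_⟩
  intro α hα hα1
  have h1α : 0 < 1 - α := by linarith
  constructor
  · intro hαa
    have hαb : 1 - b0 < α := (le_max_right _ _).trans_lt hαa
    have h1 : 1 - α < κ ^ (4 / 3 : ℝ) := by
      have := min_le_right 1 (κ ^ (4 / 3 : ℝ))
      linarith
    have h2 : (1 - α) ^ (3 / 4 : ℝ) ≤ κ := by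
      calc (1 - α) ^ (3 / 4 : ℝ) ≤ (κ ^ (4 / 3 : ℝ)) ^ (3 / 4 : ℝ) :=
            Real.rpow_le_rpow h1α.le h1.le (by norm_num)
        _ = κ := by
            rw [← Real.rpow_mul hκ.le]; norm_num
    have h3 : 1 - α ≤ κ * (1 - α) ^ (1 / 4 : ℝ) := by
      calc 1 - α = (1 - α) ^ (3 / 4 : ℝ) * (1 - α) ^ (1 / 4 : ℝ) := by
            rw [← Real.rpow_add h1α]; norm_num
        _ ≤ κ * (1 - α) ^ (1 / 4 : ℝ) := by gcongr
    have h4 : (2 + α) / (2 * (1 + α)) < 3 / 4 + (1 - α) := by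
      rw [div_lt_iff₀ (by positivity)]
      nlinarith
    linarith
  intro c hc K hK Ω Ω' _ _ P _ Q xi eps hm w hw
  obtain ⟨l2, hl2, G2⟩ := free_zero2 hm hK hα hα1 hc hw
  have hz : ∀ lam : ℝ, 0 < lam → lam < l2 → ∀ h : ℝ,
      (3 / 4 + 13 * (1 - α) ^ (1 / 4 : ℝ)) * lam ≤ h →
      Tendsto (fun N : ℕ => freeN P xi eps Q w lam h N) atTop (𝓝 0) := fun lam h1 h2 h hh =>
    G2 lam h1 h2 h hh
  have hup : ∀ lam : ℝ, 0 < lam → lam < l2 →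
      hcrit P xi eps Q w lam ≤ (3 / 4 + 13 * (1 - α) ^ (1 / 4 : ℝ)) * lam := fun lam h1 h2 => by
    refine hcrit_le_of ?_ (fun h hh => hz lam h1 h2 h hh)
    have : 0 ≤ (1 - α) ^ (1 / 4 : ℝ) := Real.rpow_nonneg h1α.le _
    positivity
  by_cases hαa : max a0 (1 - b0) < α
  · obtain ⟨l1, hl1, G1⟩ := H1 α ((le_max_left _ _).trans_lt hαa) hα1 c hc K hK Ω Ω' P Q xi eps w
      hm hw
    refine ⟨min l1 l2, by positivity, fun lam hl hll => ?_⟩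
    have hll1 := hll.trans_le (min_le_left _ _)
    have hll2 := hll.trans_le (min_le_right _ _)
    obtain ⟨δ, hδ, hpos⟩ := G1 lam hl hll1
    refine ⟨hup lam hl hll2, hz lam hl hll2, fun _ => ⟨?_, ?_⟩⟩
    · exact rare_hcrit hm hK hα hα1 hc hw hδ hpos (fun h' hh' => hz lam hl hll2 h' hh')
    · intro h hh
      refine ⟨δ, hδ, ?_⟩
      filter_upwards [hpos, freeN_anti hm hK hα hα1.le hc hw hl.le hh] with N h1 h2
      exact h1.trans h2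
  · exact ⟨l2, hl2, fun lam hl hll => ⟨hup lam hl hll, hz lam hl hll, fun h => absurd h hαa⟩⟩

end Pool.Agent.Cop

end
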