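import Mathlib

/-!
A discrete coagulation equation: in the supercritical case a crude criterion is met eventually.
-/

open Finset

noncomputable section

namespace Pool.Agent.Cop

/-- discrete coagulation with unit loss -/
def cog (h : ℝ) (F0 : ℕ → ℝ) : ℕ → ℕ → ℝ
  | 0 => F0
  | (k+1) => fun e => cog h F0 k (e + 1) +
      h * ∑ p ∈ antidiagonal e, cog h F0 k p.1 * cog h F0 k p.2

lemma conv_sum {F : ℕ → ℝ} {S : ℕ} (hF : ∀ e, S < e → F e = 0) (w : ℕ → ℝ) :
    ∑ e ∈ range (2 * S + 1), w e * ∑ p ∈ antidiagonal e, F p.1 * F p.2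
      = ∑ i ∈ range (S + 1), ∑ j ∈ range (S + 1), w (i + j) * (F i * F j) := by
  rw [← sum_product' (range (S + 1)) (range (S + 1)) (fun i j => w (i + j) * (F i * F j))]
  rw [← sum_fiberwise_of_maps_to (t := range (2 * S + 1)) (g := fun p : ℕ × ℕ => p.1 + p.2)]
  · refine sum_congr rfl fun e he => ?_
    rw [mul_sum]
    symm
    refine sum_subset_zero_on_sdiff ?_ ?_ ?_
    · intro p hp
      simp only [mem_filter, mem_product, mem_range, HasAntidiagonal.mem_antidiagonal] at *
      exact hp.2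
    · intro p hp
      simp only [mem_filter, mem_product, mem_range, HasAntidiagonal.mem_antidiagonal, mem_sdiff] at hp
      by_cases h1 : S < p.1
      · rw [hF _ h1]; ring
      · by_cases h2 : S < p.2
        · rw [hF _ h2]; ring
        · exact absurd ⟨⟨by omega, by omega⟩, hp.1⟩ hp.2
    · intro p hp
      simp only [mem_filter, mem_product, mem_range] at hp
      rw [hp.2]
  · intro p hp
    simp only [mem_product, mem_range] at *
    omega

lemma shift_sum {F : ℕ → ℝ} {S : ℕ} (hF : ∀ e, S < e → F e = 0) (w : ℕ → ℝ) :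
    ∑ e ∈ range (2 * S + 1), w e * F (e + 1)
      = ∑ e ∈ range (S + 1), (if e = 0 then 0 else w (e - 1)) * F e := by
  have h1 : ∑ e ∈ range (2 * S + 2), (if e = 0 then 0 else w (e - 1)) * F e
      = ∑ e ∈ range (2 * S + 1), w e * F (e + 1) := by
    rw [sum_range_succ']
    simp
  rw [← h1]
  symm
  refine sum_subset ?_ ?_
  · intro e; simp only [mem_range]; omega
  · intro e _ he
    simp only [mem_range, not_lt] at he
    rw [hF e (by omega), mul_zero]

/-- moments -/
def mom (F : ℕ → ℝ) (S : ℕ) (p : ℕ) : ℝ := ∑ e ∈ range (S + 1), (e : ℝ) ^ p * F e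

lemma step_mom {F : ℕ → ℝ} {S : ℕ} {h : ℝ} (hF : ∀ e, S < e → F e = 0) :
    mom (fun e => F (e + 1) + h * ∑ p ∈ antidiagonal e, F p.1 * F p.2) (2 * S) 1
      = mom F S 1 - (mom F S 0 - F 0) + 2 * h * mom F S 0 * mom F S 1 ∧
    mom (fun e => F (e + 1) + h * ∑ p ∈ antidiagonal e, F p.1 * F p.2) (2 * S) 2
      = mom F S 2 - 2 * mom F S 1 + (mom F S 0 - F 0)
        + h * (2 * mom F S 0 * mom F S 2 + 2 * mom F S 1 ^ 2) := by
  have key : ∀ w : ℕ → ℝ, ∑ e ∈ range (2 * S + 1),
      w e * (F (e + 1) + h * ∑ p ∈ antidiagonal e, F p.1 * F p.2)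
      = ∑ e ∈ range (S + 1), (if e = 0 then 0 else w (e - 1)) * F e
        + h * ∑ i ∈ range (S + 1), ∑ j ∈ range (S + 1), w (i + j) * (F i * F j) := by
    intro w
    rw [← shift_sum hF w, ← conv_sum hF w, mul_sum, ← sum_add_distrib]
    exact sum_congr rfl fun e _ => by ring
  have h0 : ∀ w : ℕ → ℝ, ∑ e ∈ range (S + 1), (if e = 0 then 0 else w e) * F e
      = ∑ e ∈ range (S + 1), w e * F e - w 0 * F 0 := by
    intro w
    rw [sum_range_succ', sum_range_succ' (fun e => w e * F e)]
    simp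
  constructor
  · unfold mom
    have e1 := key (fun e => (e : ℝ) ^ 1)
    rw [e1]
    have e2 : ∑ e ∈ range (S + 1), (if e = 0 then 0 else (((e - 1 : ℕ) : ℝ)) ^ 1) * F e
        = ∑ e ∈ range (S + 1), (if e = 0 then 0 else ((e : ℝ) ^ 1 - (e : ℝ) ^ 0)) * F e := by
      refine sum_congr rfl fun e _ => ?_
      split_ifs with h1
      · rfl
      · rw [Nat.cast_sub (by omega)]; push_cast; ring
    rw [e2, h0]
    have e3 : ∑ i ∈ range (S + 1), ∑ j ∈ range (S + 1), (((i + j : ℕ) : ℝ)) ^ 1 * (F i * F j)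
        = 2 * (∑ e ∈ range (S + 1), (e : ℝ) ^ 0 * F e) * ∑ e ∈ range (S + 1), (e : ℝ) ^ 1 * F e := by
      have e4 : ∀ i j : ℕ, (((i + j : ℕ) : ℝ)) ^ 1 * (F i * F j)
          = ((i : ℝ) ^ 1 * F i) * ((j : ℝ) ^ 0 * F j) + ((i : ℝ) ^ 0 * F i) * ((j : ℝ) ^ 1 * F j) := by
        intro i j; push_cast; ring
      simp only [e4, sum_add_distrib, ← sum_mul_sum]
      ring
    rw [e3]
    simp only [sub_mul, sum_sub_distrib]
    simp only [pow_zero, pow_one, Nat.cast_zero, zero_mul, one_mul, zero_sub]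
    ring
  · unfold mom
    have e1 := key (fun e => (e : ℝ) ^ 2)
    rw [e1]
    have e2 : ∑ e ∈ range (S + 1), (if e = 0 then 0 else (((e - 1 : ℕ) : ℝ)) ^ 2) * F e
        = ∑ e ∈ range (S + 1), (if e = 0 then 0 else ((e : ℝ) ^ 2 - 2 * (e : ℝ) ^ 1
          + (e : ℝ) ^ 0)) * F e := by
      refine sum_congr rfl fun e _ => ?_
      split_ifs with h1
      · rfl
      · rw [Nat.cast_sub (by omega)]; push_cast; ring
    rw [e2, h0]
    have e3 : ∑ i ∈ range (S + 1), ∑ j ∈ range (S + 1), (((i + j : ℕ) : ℝ)) ^ 2 * (F i * F j)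
        = 2 * (∑ e ∈ range (S + 1), (e : ℝ) ^ 0 * F e) * (∑ e ∈ range (S + 1), (e : ℝ) ^ 2 * F e)
          + 2 * (∑ e ∈ range (S + 1), (e : ℝ) ^ 1 * F e) ^ 2 := by
      have e4 : ∀ i j : ℕ, (((i + j : ℕ) : ℝ)) ^ 2 * (F i * F j)
          = ((i : ℝ) ^ 2 * F i) * ((j : ℝ) ^ 0 * F j) + ((i : ℝ) ^ 0 * F i) * ((j : ℝ) ^ 2 * F j)
            + (2 * ((i : ℝ) ^ 1 * F i)) * ((j : ℝ) ^ 1 * F j) := by
        intro i j; push_cast; ring
      simp only [e4, sum_add_distrib, ← sum_mul_sum]
      rw [← mul_sum]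
      ring
    rw [e3]
    simp only [add_mul, sub_mul, sum_add_distrib, sum_sub_distrib]
    simp only [pow_zero, pow_one, Nat.cast_zero, one_mul]
    have e5 : ∑ e ∈ range (S + 1), 2 * (e : ℝ) * F e = 2 * ∑ e ∈ range (S + 1), (e : ℝ) * F e := by
      rw [mul_sum]; exact sum_congr rfl fun e _ => by ring
    rw [e5]
    ring

/-- one step of the evolution of the moments, in the rescaled variables. -/
lemma cog_alg {h M f n v n' v' R : ℝ} (hh : 0 < h) (hM : 0 ≤ M) (hf : 0 ≤ f)
    (hn : 1 / 2 < n) (hv : 0 < v) (hCS : n ^ 2 ≤ M * v) (hR : v = R * n ^ 2)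
    (hn' : n' = n - h * (M - f) + 2 * (h * M) * n)
    (hv' : v' = v - 2 * h * n + h ^ 2 * (M - f) + 2 * (h * M) * v + 2 * h * n ^ 2) :
    n + h * M * (2 * n - 1) ≤ n' ∧ v' ≤ R * (1 + 2 * (h * M)) ^ 2 * n' ^ 2 ∧
      (1 ≤ n → v' ≤ R * n' ^ 2) := by
  set x : ℝ := h * M with hx
  have hx0 : 0 ≤ x := by positivity
  have h1 : n + x * (2 * n - 1) ≤ n' := by
    rw [hn', hx]
    have : 0 ≤ h * f := by positivity
    nlinarith
  have hR0 : 0 < R := by
    by_contra hcon
    push Not at hcon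
    have : R * n ^ 2 ≤ 0 := mul_nonpos_of_nonpos_of_nonneg hcon (sq_nonneg n)
    linarith
  have hhx : h ≤ x * R := by
    -- `n² ≤ M v = M R n²`, so `1 ≤ M R`
    have h2 : 1 ≤ M * R := by
      have h3 : n ^ 2 * 1 ≤ n ^ 2 * (M * R) := by rw [hR] at hCS; linarith
      exact le_of_mul_le_mul_left h3 (by positivity)
    calc h = h * 1 := (mul_one h).symm
      _ ≤ h * (M * R) := by gcongr
      _ = x * R := by rw [hx]; ring
  have hvb : v' ≤ v * (1 + 2 * x) + h * x + 2 * h * n * (n - 1) := by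
    have e : v * (1 + 2 * x) + h * x + 2 * h * n * (n - 1) - v' = h ^ 2 * f := by
      rw [hv', hx]; ring
    have : 0 ≤ h ^ 2 * f := by positivity
    linarith
  have h2n : 0 < 2 * n - 1 := by linarith
  have hn0 : 0 < n := by linarith
  have hn'n : n ≤ n' := by nlinarith [mul_nonneg hx0 h2n.le]
  refine ⟨h1, ?_, ?_⟩
  · -- general bound
    by_cases hn1 : n ≤ 1
    · have h3 : 2 * h * n * (n - 1) ≤ 0 := by
        have : 0 ≤ 2 * h * n * (1 - n) := mul_nonneg (by positivity) (by linarith)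
        linarith
      have h4 : h * x ≤ x ^ 2 * R := by
        calc h * x ≤ (x * R) * x := by gcongr
          _ = x ^ 2 * R := by ring
      have h5 : x ^ 2 * R ≤ R * (4 * x ^ 2) * n ^ 2 := by
        have : 1 ≤ 4 * n ^ 2 := by nlinarith
        have h6 : 0 ≤ x ^ 2 * R := by positivity
        nlinarith
      calc v' ≤ R * n ^ 2 * (1 + 2 * x) + R * (4 * x ^ 2) * n ^ 2 := by rw [← hR]; linarith
        _ ≤ R * (1 + 2 * x) ^ 2 * n ^ 2 := by
            have : 0 ≤ R * n ^ 2 * (2 * x) := by positivity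
            nlinarith
        _ ≤ R * (1 + 2 * x) ^ 2 * n' ^ 2 := by gcongr
    · push Not at hn1
      have h3 : 2 * h * n * (n - 1) ≤ 2 * (x * R) * n * (n - 1) := by
        have : 0 ≤ 2 * n * (n - 1) := mul_nonneg (by positivity) (by linarith)
        nlinarith
      have h4 : h * x ≤ x ^ 2 * R := by
        calc h * x ≤ (x * R) * x := by gcongr
          _ = x ^ 2 * R := by ring
      have h7 : (n + x * (2 * n - 1)) ^ 2 ≤ n' ^ 2 := by
        have : 0 ≤ n + x * (2 * n - 1) := by positivity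
        gcongr
      have h8 : n ^ 2 * (1 + 2 * x) + x ^ 2 + 2 * x * n * (n - 1) ≤ (n + x * (2 * n - 1)) ^ 2 := by
        have : x ^ 2 ≤ x ^ 2 * (2 * n - 1) ^ 2 := by
          have : 1 ≤ (2 * n - 1) ^ 2 := by nlinarith
          nlinarith [sq_nonneg x]
        nlinarith
      calc v' ≤ R * (n ^ 2 * (1 + 2 * x) + x ^ 2 + 2 * x * n * (n - 1)) := by
            rw [hR] at hvb; nlinarith
        _ ≤ R * n' ^ 2 := by
            have := h8.trans h7
            gcongr
        _ ≤ R * (1 + 2 * x) ^ 2 * n' ^ 2 := by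
            have : 1 ≤ (1 + 2 * x) ^ 2 := by nlinarith
            have h9 : 0 ≤ R * n' ^ 2 := by positivity
            nlinarith
  · intro hn1
    have h3 : 2 * h * n * (n - 1) ≤ 2 * (x * R) * n * (n - 1) := by
      have : 0 ≤ 2 * n * (n - 1) := mul_nonneg (by positivity) (by linarith)
      nlinarith
    have h4 : h * x ≤ x ^ 2 * R := by
      calc h * x ≤ (x * R) * x := by gcongr
        _ = x ^ 2 * R := by ring
    have h7 : (n + x * (2 * n - 1)) ^ 2 ≤ n' ^ 2 := by
      have : 0 ≤ n + x * (2 * n - 1) := by positivity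
      gcongr
    have h8 : n ^ 2 * (1 + 2 * x) + x ^ 2 + 2 * x * n * (n - 1) ≤ (n + x * (2 * n - 1)) ^ 2 := by
      have : x ^ 2 ≤ x ^ 2 * (2 * n - 1) ^ 2 := by
        have : 1 ≤ (2 * n - 1) ^ 2 := by nlinarith
        nlinarith [sq_nonneg x]
      nlinarith
    calc v' ≤ R * (n ^ 2 * (1 + 2 * x) + x ^ 2 + 2 * x * n * (n - 1)) := by
          rw [hR] at hvb; nlinarith
      _ ≤ R * n' ^ 2 := by
          have := h8.trans h7
          gcongr

lemma cog_nonneg {h : ℝ} (hh : 0 < h) {F0 : ℕ → ℝ} (h0 : ∀ e, 0 ≤ F0 e) (k : ℕ) :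
    ∀ e, 0 ≤ cog h F0 k e := by
  induction k with
  | zero => exact h0
  | succ k ih =>
    intro e
    simp only [cog]
    have : 0 ≤ ∑ p ∈ HasAntidiagonal.antidiagonal e, cog h F0 k p.1 * cog h F0 k p.2 :=
      sum_nonneg fun p _ => mul_nonneg (ih _) (ih _)
    have := ih (e + 1)
    positivity

lemma cog_supp {h : ℝ} {F0 : ℕ → ℝ} {J : ℕ} (hJ : ∀ e, J < e → F0 e = 0) (k : ℕ) :
    ∀ e, 2 ^ k * J < e → cog h F0 k e = 0 := by
  induction k with
  | zero => intro e he; exact hJ e (by omega)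
  | succ k ih =>
    intro e he
    simp only [cog]
    rw [pow_succ] at he
    rw [ih (e + 1) (by nlinarith), zero_add]
    have : ∑ p ∈ HasAntidiagonal.antidiagonal e, cog h F0 k p.1 * cog h F0 k p.2 = 0 := by
      refine sum_eq_zero fun p hp => ?_
      rw [HasAntidiagonal.mem_antidiagonal] at hp
      by_cases h1 : 2 ^ k * J < p.1
      · rw [ih _ h1, zero_mul]
      · rw [ih p.2 (by nlinarith), mul_zero]
    rw [this, mul_zero]

lemma mom_CS {F : ℕ → ℝ} (h0 : ∀ e, 0 ≤ F e) (S : ℕ) :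
    mom F S 1 ^ 2 ≤ mom F S 0 * mom F S 2 := by
  unfold mom
  refine sum_sq_le_sum_mul_sum_of_sq_le_mul _ (fun e _ => ?_) (fun e _ => ?_) (fun e _ => le_of_eq ?_)
  · have := h0 e; positivity
  · have := h0 e; positivity
  · ring

lemma mom_tail {F : ℕ → ℝ} (S : ℕ) :
    mom F S 1 = ∑ t ∈ Icc 1 S, ∑ e ∈ Ico t (S + 1), F e := by
  unfold mom
  rw [sum_comm' (t' := range (S + 1)) (s' := fun e => Icc 1 e)]
  · refine sum_congr rfl fun e _ => ?_
    simp
  · intro t e; simp only [mem_Icc, mem_Ico, mem_range]; omega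

/-- **Supercritical coagulation meets the criterion.** -/
theorem coag {h : ℝ} (hh : 0 < h) {F0 : ℕ → ℝ} (h0 : ∀ e, 0 ≤ F0 e) {J : ℕ}
    (hJ : ∀ e, J < e → F0 e = 0) (hn : 1 / 2 < h * ∑ e ∈ range (J + 1), (e : ℝ) * F0 e) :
    ∃ K t : ℕ, 1 ≤ t ∧ 1 < t * h * ∑ e ∈ Ico (t - 1) (2 ^ K * J + 1), cog h F0 K e := by
  by_contra hcon
  push Not at hcon
  set F : ℕ → ℕ → ℝ := cog h F0 with hF
  set S : ℕ → ℕ := fun k => 2 ^ k * J with hS
  have hFn : ∀ k e, 0 ≤ F k e := fun k => cog_nonneg hh h0 k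
  have hFs : ∀ k e, S k < e → F k e = 0 := fun k => cog_supp hJ k
  set M : ℕ → ℝ := fun k => mom (F k) (S k) 0 with hM
  set n : ℕ → ℝ := fun k => h * mom (F k) (S k) 1 with hn'
  set v : ℕ → ℝ := fun k => h ^ 2 * mom (F k) (S k) 2 with hv'
  have hM0 : ∀ k, 0 ≤ M k := fun k => sum_nonneg fun e _ => by
    have := hFn k e; positivity
  have hn0 : 1 / 2 < n 0 := by
    simp only [hn', mom, hS, hF, cog, pow_zero, one_mul, pow_one]
    exact hn
  have hstep : ∀ k, n (k + 1) = n k - h * (M k - F k 0) + 2 * (h * M k) * n k ∧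
      v (k + 1) = v k - 2 * h * n k + h ^ 2 * (M k - F k 0) + 2 * (h * M k) * v k
        + 2 * h * n k ^ 2 := by
    intro k
    have hS2 : S (k + 1) = 2 * S k := by simp only [hS]; rw [pow_succ]; ring
    have h1 := step_mom (h := h) (hFs k)
    have hG : F (k + 1) = fun e => F k (e + 1) +
        h * ∑ p ∈ HasAntidiagonal.antidiagonal e, F k p.1 * F k p.2 := rfl
    rw [← hG, ← hS2] at h1
    simp only [hn', hv', hM]
    rw [h1.1, h1.2]
    constructor <;> ring
  have hmom2 : ∀ k, mom (F k) (S k) 1 ≤ mom (F k) (S k) 2 := by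
    intro k
    unfold mom
    refine sum_le_sum fun e _ => ?_
    have h1 := hFn k e
    have h2 : (e : ℝ) ^ 1 ≤ (e : ℝ) ^ 2 := by
      rcases Nat.eq_zero_or_pos e with he | he
      · subst he; simp
      · have : (1 : ℝ) ≤ e := by exact_mod_cast he
        exact pow_le_pow_right₀ this (by norm_num)
    gcongr
  have hvpos : ∀ k, 1 / 2 < n k → 0 < v k := by
    intro k hk
    have h1 : 0 < mom (F k) (S k) 1 := by
      have : 0 < h * mom (F k) (S k) 1 := by
        have : n k = h * mom (F k) (S k) 1 := rfl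
        linarith
      exact pos_of_mul_pos_right this hh.le
    have h2 := hmom2 k
    have : 0 < mom (F k) (S k) 2 := by linarith
    simp only [hv']; positivity
  have hCS : ∀ k, n k ^ 2 ≤ M k * v k := by
    intro k
    have h1 := mom_CS (hFn k) (S k)
    simp only [hn', hv', hM]
    calc (h * mom (F k) (S k) 1) ^ 2 = h ^ 2 * mom (F k) (S k) 1 ^ 2 := by ring
      _ ≤ h ^ 2 * (mom (F k) (S k) 0 * mom (F k) (S k) 2) := by gcongr
      _ = _ := by ring
  -- the masses are at most `1/h`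
  have hx1 : ∀ k, h * M k ≤ 1 := by
    intro k
    have h1 := hcon k 1 le_rfl
    simp only [Nat.cast_one, one_mul, Nat.sub_self] at h1
    refine le_trans (le_of_eq ?_) h1
    simp only [hM, mom, pow_zero, one_mul]
    congr 1
    rw [range_eq_Ico]
  have halg := fun k (hk : 1 / 2 < n k) => cog_alg (R := v k / n k ^ 2) hh (hM0 k) (hFn k 0) hk
    (hvpos k hk) (hCS k) (by field_simp) (hstep k).1 (hstep k).2
  set a : ℝ := 2 * n 0 - 1 with ha
  have ha0 : 0 < a := by linarith
  -- monotonicity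
  have hmono : ∀ k, n 0 ≤ n k ∧ n k ≤ n (k + 1) := by
    intro k
    induction k with
    | zero =>
      refine ⟨le_rfl, ?_⟩
      have h1 := (halg 0 hn0).1
      have h2 : 0 ≤ h * M 0 * (2 * n 0 - 1) :=
        mul_nonneg (mul_nonneg hh.le (hM0 0)) (by linarith)
      linarith
    | succ k ih =>
      have h3 : n 0 ≤ n (k + 1) := ih.1.trans ih.2
      refine ⟨h3, ?_⟩
      have h1 := (halg (k + 1) (by linarith)).1
      have h2 : 0 ≤ h * M (k + 1) * (2 * n (k + 1) - 1) :=
        mul_nonneg (mul_nonneg hh.le (hM0 _)) (by linarith)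
      linarith
  have hhalf : ∀ k, 1 / 2 < n k := fun k => lt_of_lt_of_le hn0 (hmono k).1
  have hxa : ∀ k, h * M k * a ≤ n (k + 1) - n k := by
    intro k
    have h1 := (halg k (hhalf k)).1
    have h2 : h * M k * a ≤ h * M k * (2 * n k - 1) := by
      have := (hmono k).1
      have h3 : 0 ≤ h * M k := mul_nonneg hh.le (hM0 k)
      rw [ha]
      gcongr
    linarith
  set R0 : ℝ := v 0 / n 0 ^ 2 with hR0
  have hR0pos : 0 < R0 := by have := hvpos 0 hn0; positivity
  set Rs : ℝ := R0 * Real.exp (4 * ((1 - n 0) / a) + 4) with hRs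
  have hRspos : 0 < Rs := by positivity
  -- the bound on the second moments
  have hP : ∀ k, (n k < 1 → v k / n k ^ 2 ≤ R0 * Real.exp (4 * ((n k - n 0) / a))) ∧
      (1 ≤ n k → 1 ≤ k → v k / n k ^ 2 ≤ Rs) := by
    intro k
    induction k with
    | zero =>
      refine ⟨fun _ => ?_, fun _ h => by omega⟩
      simp [hR0]
    | succ k ih =>
      have hk := hhalf k
      have hk1 := hhalf (k + 1)
      have hnk : 0 < n (k + 1) ^ 2 := by positivity
      have h2 := (halg k hk).2
      have hexp : (1 + 2 * (h * M k)) ^ 2 ≤ Real.exp (4 * (h * M k)) := by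
        have h3 := Real.add_one_le_exp (2 * (h * M k))
        have h4 : 0 ≤ 1 + 2 * (h * M k) := by
          have := hM0 k; positivity
        calc (1 + 2 * (h * M k)) ^ 2 ≤ Real.exp (2 * (h * M k)) ^ 2 := by
              gcongr; linarith
          _ = Real.exp (4 * (h * M k)) := by
              rw [← Real.exp_nat_mul]; congr 1; push_cast; ring
      have hvk : 0 ≤ v k / n k ^ 2 := by have := hvpos k hk; positivity
      by_cases hkn : n k < 1
      · have h5 : v (k + 1) / n (k + 1) ^ 2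
            ≤ R0 * Real.exp (4 * ((n k - n 0) / a)) * Real.exp (4 * (h * M k)) := by
          rw [div_le_iff₀ hnk]
          refine h2.1.trans ?_
          have h6 := ih.1 hkn
          gcongr
        constructor
        · intro _
          refine h5.trans ?_
          rw [mul_assoc, ← Real.exp_add]
          refine mul_le_mul_of_nonneg_left (Real.exp_le_exp.2 ?_) hR0pos.le
          have h7 := hxa k
          have h8 : h * M k ≤ (n (k + 1) - n k) / a := by rw [le_div_iff₀ ha0]; exact h7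
          have h9 : 4 * ((n (k + 1) - n 0) / a) = 4 * ((n k - n 0) / a)
              + 4 * ((n (k + 1) - n k) / a) := by ring
          rw [h9]
          linarith
        · intro _ _
          refine h5.trans ?_
          rw [mul_assoc, ← Real.exp_add, hRs]
          refine mul_le_mul_of_nonneg_left (Real.exp_le_exp.2 ?_) hR0pos.le
          have h7 := hx1 k
          have h8 : (n k - n 0) / a ≤ (1 - n 0) / a := by gcongr
          linarith
      · push Not at hkn
        have h6 := h2.2 hkn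
        have h7 : 1 ≤ n (k + 1) := hkn.trans (hmono k).2
        refine ⟨fun h => by linarith, fun _ _ => ?_⟩
        rw [div_le_iff₀ hnk]
        refine h6.trans ?_
        have h8 : v k / n k ^ 2 ≤ Rs := by
          rcases Nat.eq_zero_or_pos k with h9 | h9
          · subst h9
            rw [hRs]
            -- here `n 0 ≥ 1`
            have h10 : -(1 / 2) ≤ (1 - n 0) / a := by
              rw [le_div_iff₀ ha0, ha]; linarith
            calc v 0 / n 0 ^ 2 = R0 * 1 := by rw [mul_one]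
              _ ≤ R0 * Real.exp (4 * ((1 - n 0) / a) + 4) := by
                  gcongr
                  exact Real.one_le_exp (by linarith)
          · exact ih.2 hkn h9
        gcongr
  have hRb : ∀ k, v k / n k ^ 2 ≤ Rs := by
    intro k
    by_cases hk : n k < 1
    · refine ((hP k).1 hk).trans ?_
      rw [hRs]
      refine mul_le_mul_of_nonneg_left (Real.exp_le_exp.2 ?_) hR0pos.le
      have h8 : (n k - n 0) / a ≤ (1 - n 0) / a := by gcongr
      linarith
    · push Not at hk
      rcases Nat.eq_zero_or_pos k with h9 | h9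
      · subst h9
        rw [hRs]
        have h10 : -(1 / 2) ≤ (1 - n 0) / a := by
          rw [le_div_iff₀ ha0, ha]; linarith
        calc v 0 / n 0 ^ 2 = R0 * 1 := by rw [mul_one]
          _ ≤ R0 * Real.exp (4 * ((1 - n 0) / a) + 4) := by
              gcongr
              exact Real.one_le_exp (by linarith)
      · exact (hP k).2 hk h9
  -- exponential growth
  set xs : ℝ := h / Rs with hxs
  have hxs0 : 0 < xs := by positivity
  have hxk : ∀ k, xs ≤ h * M k := by
    intro k
    have h1 := hCS k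
    have h2 := hRb k
    have hk := hhalf k
    have hn2 : 0 < n k ^ 2 := by positivity
    rw [div_le_iff₀ hn2] at h2
    have h3 : 1 ≤ M k * Rs := by
      have h4 : n k ^ 2 * 1 ≤ n k ^ 2 * (M k * Rs) := by
        calc n k ^ 2 * 1 ≤ M k * v k := by linarith
          _ ≤ M k * (Rs * n k ^ 2) := by have := hM0 k; gcongr
          _ = _ := by ring
      exact le_of_mul_le_mul_left h4 hn2
    rw [hxs, div_le_iff₀ hRspos]
    calc h = h * 1 := (mul_one h).symm
      _ ≤ h * (M k * Rs) := by gcongr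
      _ = h * M k * Rs := by ring
  have hgrow : ∀ k, (1 + 2 * xs) ^ k * a ≤ 2 * n k - 1 := by
    intro k
    induction k with
    | zero => simp [ha]
    | succ k ih =>
      have h1 := (halg k (hhalf k)).1
      have h2 := hxk k
      have hk := hhalf k
      have h3 : xs * (2 * n k - 1) ≤ h * M k * (2 * n k - 1) := by
        have : 0 ≤ 2 * n k - 1 := by linarith
        gcongr
      calc (1 + 2 * xs) ^ (k + 1) * a = (1 + 2 * xs) * ((1 + 2 * xs) ^ k * a) := by ring
        _ ≤ (1 + 2 * xs) * (2 * n k - 1) := by gcongr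
        _ ≤ 2 * n (k + 1) - 1 := by linarith
  -- logarithmic upper bound
  have hJ1 : 1 ≤ J := by
    by_contra hcon2
    have hJ0 : J = 0 := by omega
    subst hJ0
    simp at hn
    linarith
  have hupper : ∀ k, n k ≤ 1 + Real.log (2 * J) + k := by
    intro k
    have h1 : n k = h * ∑ t ∈ Icc 1 (S k), ∑ e ∈ Ico t (S k + 1), F k e := by
      simp only [hn']; rw [mom_tail]
    have h2 : ∀ t ∈ Icc 1 (S k), h * ∑ e ∈ Ico t (S k + 1), F k e ≤ 1 / ((t : ℝ) + 1) := by
      intro t _
      have h3 := hcon k (t + 1) (by omega)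
      rw [Nat.add_sub_cancel] at h3
      rw [le_div_iff₀ (by positivity)]
      refine le_trans (le_of_eq ?_) h3
      push_cast; ring
    have h4 : n k ≤ ∑ t ∈ range (S k + 1), 1 / ((t : ℝ) + 1) := by
      rw [h1, mul_sum]
      calc ∑ t ∈ Icc 1 (S k), h * ∑ e ∈ Ico t (S k + 1), F k e
          ≤ ∑ t ∈ Icc 1 (S k), 1 / ((t : ℝ) + 1) := sum_le_sum h2
        _ ≤ ∑ t ∈ range (S k + 1), 1 / ((t : ℝ) + 1) := by
            refine sum_le_sum_of_subset_of_nonneg ?_ (fun t _ _ => by positivity)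
            intro t; simp only [mem_Icc, mem_range]; omega
    have h5 : ∑ t ∈ range (S k + 1), 1 / ((t : ℝ) + 1) = ((harmonic (S k + 1) : ℚ) : ℝ) := by
      simp [harmonic]
    have h6 := harmonic_le_one_add_log (S k + 1)
    rw [← h5] at h6
    have h7 : Real.log ((S k + 1 : ℕ) : ℝ) ≤ Real.log (2 * J) + k := by
      have h8 : ((S k + 1 : ℕ) : ℝ) ≤ 2 * J * 2 ^ k := by
        have : S k + 1 ≤ 2 * J * 2 ^ k := by
          simp only [hS]
          have : 1 ≤ 2 ^ k * J := Nat.mul_pos (by positivity) hJ1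
          nlinarith
        exact_mod_cast this
      have hJr : (0 : ℝ) < J := by exact_mod_cast hJ1
      calc Real.log ((S k + 1 : ℕ) : ℝ) ≤ Real.log (2 * J * 2 ^ k) :=
            Real.log_le_log (by positivity) h8
        _ = Real.log (2 * J) + k * Real.log 2 := by
            rw [Real.log_mul (by positivity) (by positivity), Real.log_pow]
        _ ≤ Real.log (2 * J) + k * 1 := by
            gcongr
            have := Real.log_two_lt_d9
            linarith
        _ = _ := by ring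
    linarith
  -- contradiction
  have hlim : Filter.Tendsto (fun k : ℕ => (1 + 2 * Real.log (2 * J)) * ((k : ℝ) ^ 0 /
      (1 + 2 * xs) ^ k) + 2 * ((k : ℝ) ^ 1 / (1 + 2 * xs) ^ k)) Filter.atTop
      (nhds ((1 + 2 * Real.log (2 * J)) * 0 + 2 * 0)) :=
    ((tendsto_pow_const_div_const_pow_of_one_lt 0 (by linarith)).const_mul _).add
      ((tendsto_pow_const_div_const_pow_of_one_lt 1 (by linarith)).const_mul _)
  rw [mul_zero, mul_zero, add_zero] at hlim
  obtain ⟨k, hk⟩ := (hlim.eventually (gt_mem_nhds ha0)).exists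
  have hp : 0 < (1 + 2 * xs) ^ k := by positivity
  have h1 : (1 + 2 * Real.log (2 * J)) + 2 * k < a * (1 + 2 * xs) ^ k := by
    have h2 : (1 + 2 * Real.log (2 * J)) * ((k : ℝ) ^ 0 / (1 + 2 * xs) ^ k)
        + 2 * ((k : ℝ) ^ 1 / (1 + 2 * xs) ^ k)
        = ((1 + 2 * Real.log (2 * J)) + 2 * k) / (1 + 2 * xs) ^ k := by
      field_simp
    rw [h2, div_lt_iff₀ hp] at hk
    exact hk
  have h2 := hgrow k
  have h3 := hupper k
  nlinarith

end Pool.Agent.Cop

end
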