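import Mathlib
import Pool.Agent.Work.MP_cceb86_pr.Ren

/-!
Jensen's inequality for renewal type sums, in tangent form.
-/

open Finset Real

noncomputable section

namespace Pool.Agent.Cop

/-- `F ≥ A exp (D / A)`, in tangent form. -/
def Rg (F A D : ℝ) : Prop := ∀ c : ℝ, Real.exp c * (A * (1 - c) + D) ≤ F

lemma Rg.add {F A D F' A' D' : ℝ} (h : Rg F A D) (h' : Rg F' A' D') :
    Rg (F + F') (A + A') (D + D') := by
  intro c
  have h1 := h c
  have h2 := h' c
  nlinarith

lemma Rg.smul {F A D a : ℝ} (ha : 0 ≤ a) (h : Rg F A D) : Rg (a * F) (a * A) (a * D) := by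
  intro c
  have h1 := mul_le_mul_of_nonneg_left (h c) ha
  nlinarith

lemma Rg.shift {F A D g : ℝ} (h : Rg F A D) : Rg (Real.exp g * F) A (D + g * A) := by
  intro c
  have h1 := mul_le_mul_of_nonneg_left (h (c - g)) (Real.exp_pos g).le
  have h2 : Real.exp g * (Real.exp (c - g) * (A * (1 - (c - g)) + D))
      = Real.exp c * (A * (1 - c) + (D + g * A)) := by
    rw [← mul_assoc, ← Real.exp_add]
    have : g + (c - g) = c := by ring
    rw [this]; ring
  rwa [h2] at h1

lemma Rg.zero : Rg 0 0 0 := by intro c; simp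

lemma Rg.one : Rg 1 1 0 := by
  intro c
  have h1 := Real.add_one_le_exp (-c)
  have h2 : Real.exp c * Real.exp (-c) = 1 := by rw [← Real.exp_add]; simp
  have h3 := mul_le_mul_of_nonneg_left h1 (Real.exp_pos c).le
  nlinarith

lemma Rg.sum {ι : Type*} (s : Finset ι) {F A D : ι → ℝ} (h : ∀ i ∈ s, Rg (F i) (A i) (D i)) :
    Rg (∑ i ∈ s, F i) (∑ i ∈ s, A i) (∑ i ∈ s, D i) := by
  classical
  induction s using Finset.induction_on with
  | empty => simpa using Rg.zero
  | insert a s ha ih =>
    rw [sum_insert ha, sum_insert ha, sum_insert ha]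
    exact (h a (by simp)).add (ih fun i hi => h i (by simp [hi]))

lemma Rg.le {F A D : ℝ} (h : Rg F A D) (hA : 0 < A) : A * Real.exp (D / A) ≤ F := by
  have h1 := h (D / A)
  have h2 : A * (1 - D / A) + D = A := by field_simp; ring
  rw [h2] at h1
  linarith

lemma Rg.mul {F A D F' A' D' : ℝ} (h : Rg F A D) (h' : Rg F' A' D') (hA : 0 ≤ A) (hA' : 0 ≤ A')
    (hF : 0 ≤ F) (hF' : 0 ≤ F') : Rg (F * F') (A * A') (A * D' + D * A') := by
  have aux : ∀ {G E : ℝ}, Rg G 0 E → E ≤ 0 := by
    intro G E hG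
    by_contra hE
    push Not at hE
    have h1 := hG (G / E)
    have h2 := Real.add_one_le_exp (G / E)
    rw [zero_mul, zero_add] at h1
    have h3 : (G / E + 1) * E ≤ Real.exp (G / E) * E := by gcongr
    have h4 : (G / E + 1) * E = G + E := by field_simp
    linarith
  rcases hA.eq_or_lt with h0 | h0
  · subst h0
    have hD := aux h
    intro c
    have h1 : Real.exp c * (0 * A' * (1 - c) + (0 * D' + D * A')) ≤ 0 := by
      have : D * A' ≤ 0 := mul_nonpos_of_nonpos_of_nonneg hD hA'
      have := (Real.exp_pos c).le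
      nlinarith
    exact h1.trans (mul_nonneg hF hF')
  rcases hA'.eq_or_lt with h0' | h0'
  · subst h0'
    have hD := aux h'
    intro c
    have h1 : Real.exp c * (A * 0 * (1 - c) + (A * D' + D * 0)) ≤ 0 := by
      have : A * D' ≤ 0 := mul_nonpos_of_nonneg_of_nonpos hA hD
      have := (Real.exp_pos c).le
      nlinarith
    exact h1.trans (mul_nonneg hF hF')
  intro c
  have h1 := h.le h0
  have h2 := h'.le h0'
  have h3 : Real.exp c * (1 - c + D / A + D' / A') ≤ Real.exp (D / A) * Real.exp (D' / A') := by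
    have h4 := Real.add_one_le_exp (D / A + D' / A' - c)
    have h5 := mul_le_mul_of_nonneg_left h4 (Real.exp_pos c).le
    rw [← Real.exp_add] at h5
    rw [← Real.exp_add]
    have e : c + (D / A + D' / A' - c) = D / A + D' / A' := by ring
    rw [e] at h5
    linarith
  calc Real.exp c * (A * A' * (1 - c) + (A * D' + D * A'))
      = A * A' * (Real.exp c * (1 - c + D / A + D' / A')) := by field_simp; ring
    _ ≤ A * A' * (Real.exp (D / A) * Real.exp (D' / A')) := by gcongr
    _ = (A * Real.exp (D / A)) * (A' * Real.exp (D' / A')) := by ring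
    _ ≤ F * F' := by gcongr

/-- derivative of a renewal sum -/
def Dr (a g : ℕ → ℕ → ℝ) (x y : ℕ) : ℝ :=
  ∑ s ∈ Icc x y, ∑ t ∈ Ioc s y, ren a x s * (a s t * g s t) * ren a t y

lemma Dr_left (a g : ℕ → ℕ → ℝ) {x y : ℕ} (h : x < y) :
    Dr a g x y = ∑ z ∈ Ioc x y, a x z * (g x z * ren a z y + Dr a g z y) := by
  have e1 : Icc x y = insert x (Ioc x y) := by
    ext z; simp only [mem_Ioc, mem_insert, mem_Icc]; omega
  unfold Dr
  rw [e1, sum_insert (by simp), ren_self]
  have e2 : ∑ s ∈ Ioc x y, ∑ t ∈ Ioc s y, ren a x s * (a s t * g s t) * ren a t y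
      = ∑ z ∈ Ioc x y, a x z * ∑ s ∈ Icc z y, ∑ t ∈ Ioc s y,
          ren a z s * (a s t * g s t) * ren a t y := by
    calc ∑ s ∈ Ioc x y, ∑ t ∈ Ioc s y, ren a x s * (a s t * g s t) * ren a t y
        = ∑ s ∈ Ioc x y, ∑ z ∈ Ioc x s, ∑ t ∈ Ioc s y,
            a x z * (ren a z s * (a s t * g s t) * ren a t y) := by
          refine sum_congr rfl fun s hs => ?_
          rw [mem_Ioc] at hs
          rw [sum_comm]
          refine sum_congr rfl fun t _ => ?_
          rw [ren_left a hs.1, sum_mul, sum_mul]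
          exact sum_congr rfl fun z _ => by ring
      _ = ∑ z ∈ Ioc x y, ∑ s ∈ Icc z y, ∑ t ∈ Ioc s y,
            a x z * (ren a z s * (a s t * g s t) * ren a t y) := by
          refine Finset.sum_comm' ?_
          intro s z
          simp only [mem_Ioc, mem_Icc]
          omega
      _ = _ := by
          refine sum_congr rfl fun z _ => ?_
          rw [mul_sum]
          refine sum_congr rfl fun s _ => ?_
          rw [mul_sum]
  rw [e2, ← sum_add_distrib]
  refine sum_congr rfl fun z _ => by ring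

lemma Dr_self (a g : ℕ → ℕ → ℝ) (x : ℕ) : Dr a g x x = 0 := by simp [Dr]

lemma Dr_of_gt (a g : ℕ → ℕ → ℝ) {x y : ℕ} (h : y < x) : Dr a g x y = 0 := by
  unfold Dr
  rw [Icc_eq_empty (by omega), sum_empty]

lemma Rg_ren {a g : ℕ → ℕ → ℝ} (ha : ∀ x y, 0 ≤ a x y) (x y : ℕ) :
    Rg (ren (fun s t => a s t * Real.exp (g s t)) x y) (ren a x y) (Dr a g x y) := by
  induction hn : y - x using Nat.strong_induction_on generalizing x with
  | _ n ih =>
    rcases lt_trichotomy x y with h | h | h
    · rw [ren_left _ h, ren_left a h, Dr_left a g h]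
      refine Rg.sum _ fun z hz => ?_
      rw [mem_Ioc] at hz
      have h1 := (Rg.shift (g := g x z) (ih (y - z) (by omega) z rfl)).smul (ha x z)
      have e : a x z * Real.exp (g x z) * ren (fun s t => a s t * Real.exp (g s t)) z y
          = a x z * (Real.exp (g x z) * ren (fun s t => a s t * Real.exp (g s t)) z y) := by ring
      rw [e, add_comm (g x z * ren a z y)]
      exact h1
    · subst h
      rw [ren_self, ren_self, Dr_self]
      exact Rg.one
    · rw [ren_of_gt _ h, ren_of_gt _ h, Dr_of_gt _ _ h]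
      exact Rg.zero

section Cross

variable {R : Type*} [CommSemiring R]

lemma sum_ren_step' (a : ℕ → ℕ → R) (b : ℕ → R) {x E : ℕ} (hx : x < E) :
    ∑ s ∈ Ico x E, ren a x s * b s
      = b x + ∑ w ∈ Ioo x E, a x w * ∑ s ∈ Ico w E, ren a w s * b s := by
  have e1 : Ico x E = insert x (Ioo x E) := by
    ext z; simp only [mem_Ico, mem_insert, mem_Ioo]; omega
  rw [e1, sum_insert (by simp), ren_self, one_mul]
  congr 1
  calc ∑ s ∈ Ioo x E, ren a x s * b s
      = ∑ s ∈ Ioo x E, ∑ w ∈ Ioc x s, a x w * (ren a w s * b s) := by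
        refine sum_congr rfl fun s hs => ?_
        rw [mem_Ioo] at hs
        rw [ren_left _ hs.1, sum_mul]
        exact sum_congr rfl fun w _ => by ring
    _ = ∑ w ∈ Ioo x E, ∑ s ∈ Ico w E, a x w * (ren a w s * b s) := by
        refine Finset.sum_comm' ?_
        intro s w
        simp only [mem_Ioo, mem_Ioc, mem_Ico]
        omega
    _ = _ := by
        refine sum_congr rfl fun w _ => ?_
        rw [mul_sum]

/-- decomposition at the step crossing the boundary `E`. -/
lemma ren_cross' (a : ℕ → ℕ → R) {E y : ℕ} (hEy : E ≤ y) :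
    ∀ x, x < E → ren a x y
      = ∑ s ∈ Ico x E, ren a x s * ∑ t ∈ Icc E y, a s t * ren a t y := by
  intro x
  induction hn : E - x using Nat.strong_induction_on generalizing x with
  | _ n ih =>
    intro hx
    rw [sum_ren_step' a (fun s => ∑ t ∈ Icc E y, a s t * ren a t y) hx, ren_left a (by omega)]
    have h1 : Ioc x y = Icc E y ∪ Ioo x E := by
      ext z; simp only [mem_Ioc, mem_union, mem_Icc, mem_Ioo]; omega
    rw [h1, sum_union (by rw [disjoint_left]; intro z; simp only [mem_Icc, mem_Ioo]; omega)]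
    congr 1
    refine sum_congr rfl fun w hw => ?_
    rw [mem_Ioo] at hw
    rw [ih (E - w) (by omega) w rfl hw.2]

end Cross

/-- the derivative in the direction of a covered site -/
lemma Dr_cover (a : ℕ → ℕ → ℝ) (i x y : ℕ) :
    Dr a (fun s t => if s < i ∧ i ≤ t then 1 else 0) x y
      = if x < i ∧ i ≤ y then ren a x y else 0 := by
  unfold Dr
  by_cases h : x < i ∧ i ≤ y
  · rw [if_pos h, ren_cross' a h.2 x h.1]
    have h1 : Ico x i ⊆ Icc x y := by
      intro z; simp only [mem_Ico, mem_Icc]; omega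
    rw [← sum_subset h1]
    · refine sum_congr rfl fun s hs => ?_
      rw [mem_Ico] at hs
      have h2 : Icc i y ⊆ Ioc s y := by
        intro z; simp only [mem_Ioc, mem_Icc]; omega
      rw [mul_sum, ← sum_subset h2]
      · refine sum_congr rfl fun t ht => ?_
        rw [mem_Icc] at ht
        simp only [if_pos (show s < i ∧ i ≤ t from ⟨hs.2, ht.1⟩)]; ring
      · intro t ht ht'
        rw [mem_Ioc] at ht
        rw [mem_Icc] at ht'
        simp only [if_neg (show ¬ (s < i ∧ i ≤ t) by omega)]; ring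
    · intro s hs hs'
      rw [mem_Icc] at hs
      rw [mem_Ico] at hs'
      refine sum_eq_zero fun t _ => ?_
      simp only [if_neg (show ¬ (s < i ∧ i ≤ t) by omega)]; ring
  · rw [if_neg h]
    refine sum_eq_zero fun s hs => sum_eq_zero fun t ht => ?_
    rw [mem_Icc] at hs
    rw [mem_Ioc] at ht
    simp only [if_neg (show ¬ (s < i ∧ i ≤ t) by omega)]; ring

lemma Dr_mono {a g g' : ℕ → ℕ → ℝ} (ha : ∀ x y, 0 ≤ a x y) (hg : ∀ s t, g s t ≤ g' s t)
    (x y : ℕ) : Dr a g x y ≤ Dr a g' x y := by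
  unfold Dr
  refine sum_le_sum fun s _ => sum_le_sum fun t _ => ?_
  have h1 := (ren_mono ha (fun _ _ => le_rfl) x s).1
  have h2 := (ren_mono ha (fun _ _ => le_rfl) t y).1
  have h3 := ha s t
  have h4 := hg s t
  gcongr

lemma Dr_nonneg {a g : ℕ → ℕ → ℝ} (ha : ∀ x y, 0 ≤ a x y) (hg : ∀ s t, 0 ≤ g s t)
    (x y : ℕ) : 0 ≤ Dr a g x y := by
  unfold Dr
  refine sum_nonneg fun s _ => sum_nonneg fun t _ => ?_
  have h1 := (ren_mono ha (fun _ _ => le_rfl) x s).1
  have h2 := (ren_mono ha (fun _ _ => le_rfl) t y).1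
  exact mul_nonneg (mul_nonneg h1 (mul_nonneg (ha s t) (hg s t))) h2

lemma Dr_lin {ι : Type*} (S : Finset ι) (a : ℕ → ℕ → ℝ) (c : ι → ℝ) (g : ι → ℕ → ℕ → ℝ)
    (x y : ℕ) : Dr a (fun s t => ∑ i ∈ S, c i * g i s t) x y = ∑ i ∈ S, c i * Dr a (g i) x y := by
  unfold Dr
  simp_rw [mul_sum]
  rw [sum_comm' (s := S) (t := fun _ => Icc x y) (t' := Icc x y) (s' := fun _ => S)
    (by intros; simp [and_comm])]
  refine sum_congr rfl fun s _ => ?_
  rw [sum_comm' (s := S) (t := fun _ => Ioc s y) (t' := Ioc s y) (s' := fun _ => S)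
    (by intros; simp [and_comm])]
  refine sum_congr rfl fun t _ => ?_
  rw [sum_mul]
  exact sum_congr rfl fun i _ => by ring

end Pool.Agent.Cop

end
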